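import Pool.Agent.YM.Eng9

set_option linter.unusedVariables false
set_option maxRecDepth 100000

open YMEng

namespace YMBR

def keys : List Key := [
  (1, 2, [(0, [0], [0, 1]), (0, [0], [0, 1])]),
  (1, 4, [(0, [0], [0, 1]), (0, [0], [0, 1]), (1, [], [2, 3]), (1, [], [2, 3])]),
  (2, 4, [(0, [0], [0, 1]), (0, [1], [2, 3]), (0, [0], [2, 3]), (0, [1], [0, 1])]),
  (1, 4, [(0, [0], [0, 1]), (0, [0], [0, 2]), (1, [], [2, 3]), (1, [], [1, 3])]),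
  (1, 4, [(0, [0], [0, 1]), (0, [0], [2, 3]), (1, [], [0, 2]), (1, [], [1, 3])]),
  (2, 4, [(0, [0], [0, 1]), (0, [1], [2, 3]), (0, [1], [0, 2]), (0, [0], [1, 3])]),
  (2, 4, [(0, [0], [0, 1]), (0, [0], [2, 3]), (0, [1], [0, 2]), (0, [1], [1, 3])]),
  (1, 4, [(0, [0], [0, 1]), (0, [0], [2, 3]), (1, [], [2, 3]), (1, [], [0, 1])]),
  (2, 4, [(0, [0], [0, 1]), (0, [0], [0, 1]), (0, [1], [2, 3]), (0, [1], [2, 3])]),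
  (2, 6, [(0, [0], [0, 1]), (0, [0], [0, 1]), (0, [1], [2, 3]), (0, [1], [2, 3]), (1, [], [4, 5]), (1, [], [4, 5])]),
  (2, 6, [(0, [0], [0, 1]), (0, [0], [0, 1]), (0, [1], [2, 3]), (0, [1], [2, 4]), (1, [], [4, 5]), (1, [], [3, 5])]),
  (2, 6, [(0, [0], [0, 1]), (0, [0], [0, 1]), (0, [1], [2, 3]), (0, [1], [4, 5]), (1, [], [2, 4]), (1, [], [3, 5])]),
  (3, 6, [(0, [0], [0, 1]), (0, [0], [0, 1]), (0, [1], [2, 3]), (0, [2], [4, 5]), (0, [2], [2, 4]), (0, [1], [3, 5])]),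
  (3, 6, [(0, [0], [0, 1]), (0, [0], [0, 1]), (0, [1], [2, 3]), (0, [1], [4, 5]), (0, [2], [2, 4]), (0, [2], [3, 5])]),
  (2, 6, [(0, [0], [0, 1]), (0, [0], [0, 1]), (0, [1], [2, 3]), (0, [1], [4, 5]), (1, [], [4, 5]), (1, [], [2, 3])]),
  (1, 6, [(0, [0], [0, 1]), (0, [0], [0, 1]), (1, [], [2, 3]), (1, [], [2, 3]), (1, [], [4, 5]), (1, [], [4, 5])]),
  (2, 6, [(0, [0], [0, 1]), (0, [1], [2, 3]), (0, [0], [2, 3]), (0, [1], [0, 1]), (1, [], [4, 5]), (1, [], [4, 5])]),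
  (1, 6, [(0, [0], [0, 1]), (0, [0], [0, 2]), (1, [], [2, 3]), (1, [], [1, 3]), (1, [], [4, 5]), (1, [], [4, 5])]),
  (1, 6, [(0, [0], [0, 1]), (0, [0], [2, 3]), (1, [], [0, 2]), (1, [], [1, 3]), (1, [], [4, 5]), (1, [], [4, 5])]),
  (2, 6, [(0, [0], [0, 1]), (0, [1], [2, 3]), (0, [1], [0, 2]), (0, [0], [1, 3]), (1, [], [4, 5]), (1, [], [4, 5])]),
  (2, 6, [(0, [0], [0, 1]), (0, [0], [2, 3]), (0, [1], [0, 2]), (0, [1], [1, 3]), (1, [], [4, 5]), (1, [], [4, 5])]),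
  (2, 6, [(0, [0], [0, 1]), (0, [1], [2, 3]), (0, [0], [2, 4]), (0, [1], [0, 5]), (1, [], [4, 5]), (1, [], [1, 3])]),
  (3, 6, [(0, [0], [0, 1]), (0, [1], [2, 3]), (0, [2], [4, 5]), (0, [0], [2, 4]), (0, [1], [0, 5]), (0, [2], [1, 3])]),
  (2, 6, [(0, [0], [0, 1]), (0, [1], [2, 3]), (0, [0], [2, 4]), (0, [1], [0, 5]), (1, [], [3, 5]), (1, [], [1, 4])]),
  (3, 6, [(0, [0], [0, 1]), (0, [1], [2, 3]), (0, [1], [4, 5]), (0, [0], [2, 4]), (0, [2], [0, 5]), (0, [2], [1, 3])]),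
  (3, 6, [(0, [0], [0, 1]), (0, [1], [0, 2]), (0, [1], [3, 4]), (0, [0], [3, 4]), (0, [2], [2, 5]), (0, [2], [1, 5])]),
  (3, 6, [(0, [0], [0, 1]), (0, [0], [2, 3]), (0, [1], [0, 2]), (0, [2], [1, 3]), (0, [2], [4, 5]), (0, [1], [4, 5])]),
  (3, 6, [(0, [0], [0, 1]), (0, [0], [0, 1]), (0, [1], [2, 3]), (0, [1], [2, 3]), (0, [2], [4, 5]), (0, [2], [4, 5])]),
  (2, 5, [(0, [0], [0, 1]), (0, [1], [0, 2]), (0, [0], [2, 3]), (0, [1], [1, 4]), (1, [], [3, 4])]),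
  (2, 5, [(0, [0], [0, 1]), (0, [0], [2, 3]), (0, [1], [2, 4]), (0, [1], [0, 4]), (1, [], [1, 3])]),
  (3, 6, [(0, [0], [0, 1]), (0, [0], [0, 1]), (0, [1], [2, 3]), (0, [2], [4, 5]), (0, [1], [4, 5]), (0, [2], [2, 3])]),
  (3, 6, [(0, [0], [0, 1]), (0, [0], [0, 2]), (0, [1], [1, 2]), (0, [2], [3, 4]), (0, [2], [3, 5]), (0, [1], [4, 5])]),
  (2, 5, [(0, [0], [0, 1]), (0, [0], [0, 2]), (0, [1], [1, 2]), (0, [1], [3, 4]), (1, [], [3, 4])]),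
  (2, 6, [(0, [0], [0, 1]), (0, [0], [0, 2]), (0, [1], [1, 2]), (0, [1], [3, 4]), (1, [], [3, 5]), (1, [], [4, 5])]),
  (1, 5, [(0, [0], [0, 1]), (1, [], [0, 1]), (0, [0], [2, 3]), (1, [], [2, 4]), (1, [], [3, 4])]),
  (1, 6, [(0, [0], [0, 1]), (1, [], [0, 2]), (1, [], [1, 2]), (0, [0], [3, 4]), (1, [], [3, 5]), (1, [], [4, 5])]),
  (2, 5, [(0, [0], [0, 1]), (0, [0], [0, 1]), (0, [1], [2, 3]), (0, [1], [2, 4]), (1, [], [3, 4])]),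
  (3, 6, [(0, [0], [0, 1]), (0, [0], [2, 0]), (0, [1], [3, 1]), (0, [2], [4, 5]), (0, [2], [2, 4]), (0, [1], [3, 5])]),
  (3, 6, [(0, [0], [0, 1]), (0, [0], [2, 0]), (0, [1], [3, 1]), (0, [2], [4, 5]), (0, [2], [3, 4]), (0, [1], [2, 5])]),
  (3, 6, [(0, [0], [0, 1]), (0, [0], [2, 0]), (0, [1], [3, 1]), (0, [2], [2, 4]), (0, [2], [3, 5]), (0, [1], [4, 5])]),
  (2, 6, [(0, [0], [0, 1]), (0, [0], [2, 0]), (0, [1], [3, 1]), (0, [1], [4, 5]), (1, [], [4, 5]), (1, [], [2, 3])]),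
  (2, 6, [(0, [0], [0, 1]), (0, [0], [2, 0]), (0, [1], [3, 1]), (0, [1], [4, 5]), (1, [], [2, 4]), (1, [], [3, 5])]),
  (2, 6, [(0, [0], [0, 1]), (0, [0], [2, 0]), (0, [1], [3, 1]), (0, [1], [2, 4]), (1, [], [4, 5]), (1, [], [3, 5])]),
  (2, 6, [(0, [0], [0, 1]), (0, [0], [2, 0]), (0, [1], [3, 1]), (0, [1], [3, 4]), (1, [], [4, 5]), (1, [], [2, 5])]),
  (2, 5, [(0, [0], [0, 1]), (0, [0], [2, 0]), (0, [1], [3, 1]), (0, [1], [3, 4]), (1, [], [2, 4])]),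
  (3, 6, [(0, [0], [0, 1]), (0, [0], [2, 3]), (0, [1], [0, 1]), (0, [2], [4, 5]), (0, [2], [2, 3]), (0, [1], [4, 5])]),
  (2, 6, [(0, [0], [0, 1]), (0, [0], [2, 3]), (0, [1], [0, 1]), (0, [1], [4, 5]), (1, [], [4, 5]), (1, [], [2, 3])]),
  (2, 6, [(0, [0], [0, 1]), (0, [0], [2, 3]), (0, [1], [0, 1]), (0, [1], [4, 5]), (1, [], [2, 4]), (1, [], [3, 5])]),
  (2, 6, [(0, [0], [0, 1]), (0, [0], [2, 3]), (0, [1], [0, 1]), (0, [1], [2, 4]), (1, [], [4, 5]), (1, [], [3, 5])]),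
  (2, 5, [(0, [0], [0, 1]), (0, [0], [2, 3]), (0, [1], [0, 1]), (0, [1], [2, 4]), (1, [], [3, 4])]),
  (2, 6, [(0, [0], [0, 1]), (0, [0], [2, 3]), (0, [1], [1, 3]), (0, [1], [4, 5]), (1, [], [4, 5]), (1, [], [0, 2])]),
  (2, 6, [(0, [0], [0, 1]), (0, [0], [2, 3]), (0, [1], [1, 3]), (0, [1], [4, 5]), (1, [], [0, 4]), (1, [], [2, 5])]),
  (2, 6, [(0, [0], [0, 1]), (0, [0], [2, 3]), (0, [1], [1, 3]), (0, [1], [0, 4]), (1, [], [4, 5]), (1, [], [2, 5])]),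
  (1, 6, [(0, [0], [0, 1]), (1, [], [0, 1]), (1, [], [2, 3]), (0, [0], [4, 5]), (1, [], [4, 5]), (1, [], [2, 3])]),
  (1, 6, [(0, [0], [0, 1]), (1, [], [0, 1]), (1, [], [2, 3]), (0, [0], [4, 5]), (1, [], [2, 4]), (1, [], [3, 5])]),
  (1, 6, [(0, [0], [0, 1]), (1, [], [2, 0]), (1, [], [3, 1]), (0, [0], [4, 5]), (1, [], [2, 4]), (1, [], [3, 5])]),
  (1, 6, [(0, [0], [0, 1]), (1, [], [2, 0]), (1, [], [3, 1]), (0, [0], [2, 4]), (1, [], [4, 5]), (1, [], [3, 5])]),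
  (1, 5, [(0, [0], [0, 1]), (1, [], [2, 0]), (1, [], [3, 1]), (0, [0], [2, 4]), (1, [], [3, 4])]),
  (1, 6, [(0, [0], [0, 1]), (1, [], [1, 2]), (1, [], [3, 2]), (0, [0], [0, 4]), (1, [], [4, 5]), (1, [], [3, 5])]),
  (1, 5, [(0, [0], [0, 1]), (1, [], [1, 2]), (1, [], [3, 2]), (0, [0], [0, 4]), (1, [], [3, 4])]),
  (1, 3, [(0, [0], [0, 1]), (1, [], [2, 1]), (0, [0], [0, 2])]),
  (1, 5, [(0, [0], [0, 1]), (1, [], [2, 1]), (0, [0], [0, 2]), (1, [], [3, 4]), (1, [], [3, 4])]),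
  (2, 6, [(0, [0], [0, 1]), (0, [0], [2, 1]), (0, [1], [3, 4]), (0, [1], [3, 5]), (1, [], [0, 5]), (1, [], [2, 4])]),
  (2, 6, [(0, [0], [0, 1]), (0, [0], [2, 1]), (0, [1], [3, 4]), (0, [1], [3, 5]), (1, [], [4, 5]), (1, [], [0, 2])]),
  (3, 6, [(0, [0], [0, 1]), (0, [0], [2, 3]), (0, [1], [4, 1]), (0, [2], [2, 5]), (0, [2], [0, 4]), (0, [1], [3, 5])]),
  (2, 6, [(0, [0], [0, 1]), (0, [0], [2, 3]), (0, [1], [4, 1]), (0, [1], [2, 5]), (1, [], [3, 5]), (1, [], [0, 4])]),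
  (1, 6, [(0, [0], [0, 1]), (1, [], [2, 1]), (1, [], [3, 4]), (0, [0], [0, 2]), (1, [], [3, 5]), (1, [], [4, 5])]),
  (1, 6, [(0, [0], [0, 1]), (1, [], [2, 3]), (1, [], [4, 3]), (0, [0], [0, 1]), (1, [], [2, 5]), (1, [], [4, 5])]),
  (1, 5, [(0, [0], [0, 1]), (1, [], [2, 3]), (1, [], [4, 3]), (0, [0], [0, 1]), (1, [], [2, 4])])]

def targetR0 : List ℤ := [315, 343, -420, -476, 476, -840, 840, -476, 945, 840, -1764, 1764, 240, -240, -1764, -63, -42, -84, 84, -84, 84, 2240, 560, -2240, -560, 280, -280, -840, 0, 0, 0, 0, 0, 0, 0, 0, 0, 0, 0, 0, 0, 0, 0, 0, 0, 0, 0, 0, 0, 0, 0, 0, 0, 0, 0, 0, 0, 0, 0, 0, 0, 0, 0, 0, 0, 0, 0, 0, 0]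

def targetR1 : List ℤ := [1575, 1715, -2100, -2380, 2380, -4200, 4200, -2380, 4725, 4200, -8820, 8820, 1200, -1200, -8820, -315, -210, -420, 420, -420, 420, 11200, 2800, -11200, -2800, 1400, -1400, -4200, 1792, -1792, 0, 0, 0, 0, 0, 0, 0, 0, 0, 0, 0, 0, 0, 0, 0, 0, 0, 0, 0, 0, 0, 0, 0, 0, 0, 0, 0, 0, 0, 0, 0, 0, 0, 0, 0, 0, 0, 0, 0]

def targetR2 : List ℤ := [78750, 85750, -105000, -119000, 119000, -224336, 224336, -119000, 236250, 210000, -441000, 441000, 90000, -90000, -441000, -15750, -10500, -21000, 21000, -21000, 21000, 560000, 113750, -560000, -113750, 56875, -56875, -223125, 179200, -179200, 13125, 0, 0, 0, 0, 0, 0, 0, 0, 0, 0, 0, 0, 0, 0, 0, 0, 0, 0, 0, 0, 0, 0, 0, 0, 0, 0, 0, 0, 0, 0, 0, 0, 0, 0, 0, 0, 0, 0]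

end YMBR
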