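import Pool.Agent.YM.BR.G1

set_option linter.unusedVariables false
set_option maxRecDepth 100000

open YMEng

namespace YMBR

def rowsR0_11 : List (ℕ × List ℤ) := [(840, [0, 358010]),
  (57885726399480, [0, 1])]

def MR0_11 : List (List ℤ) := [[0, 0],
  [165549500883480]]

def uR0_11 : List ℤ := [0, 0, 0, 381426050035537920, -1525704200142151680, 0, 0, 0, 0, 0, 0, 0, 0, 0, 0, 0, 0, 762852100071075840, -1525704200142151680, 762852100071075840, 1525704200142151680, -381426050035537920]

def gR0_11 : List ℤ := [0, 0, 0, 0, 0, 0, 0, 0, 0, 0, 0, 0, 0, 0, 0, 381426050035537920, 0, -1525704200142151680, 0, 0, 0, 0, 0, 0, 0, 0, 0, 0, 0, 0, 0, 0, 0, 0, 0, 0, 0, 0, 0, 0, 0, 0, 0, 0, 0, 0, 0, 0, 0, 0, 0, 0, 0, 762852100071075840, -1525704200142151680, 762852100071075840, 0, 0, 1525704200142151680, 0, 0, 0, 0, 0, 0, 0, 0, -381426050035537920]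

theorem grR0_11 : eqM (gramT rowsR0_11) MR0_11 = true := by
  decide +kernel

theorem mvR0_11 : eqZ (mval MR0_11 tab11) uR0_11 = true := by
  decide +kernel

theorem nnR0_11 {κ ι : Type*} [Fintype κ] [Fintype ι] [Inhabited κ] [Inhabited ι] (E : Env κ ι) : 0 ≤ dot (ek E keys) gR0_11 0 :=
  to_global E keys lk11 kl11 tr11 uR0_11 (blockG_nonneg _ _ _ (tri11 E) rowsR0_11 MR0_11 grR0_11 uR0_11 mvR0_11) 69 gR0_11 (by decide +kernel)

def rowsR0_12 : List (ℕ × List ℤ) := [(840, [8282965, -10767769]),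
  (840, [0, 3305022]),
  (1767501970486280, [1, 0]),
  (1767495096042550, [0, 1])]

def MR0_12 : List (List ℤ) := [[59397809691115280, -149837610308542800],
  [108336631608632350]]

def uR0_12 : List ℤ := [1300039579303588200, -1300039579303588200, -3596102647405027200, 3596102647405027200, 1425547432586766720, 1300039579303588200, -1300039579303588200, -1425547432586766720]

def gR0_12 : List ℤ := [0, 0, 0, 0, 0, 0, 0, 0, 0, 0, 0, 0, 0, 0, 0, 0, 0, 0, 0, 0, 0, 0, 1300039579303588200, 0, -1300039579303588200, -3596102647405027200, 3596102647405027200, 0, 0, 0, 1425547432586766720, 0, 0, 0, 0, 0, 0, 0, 1300039579303588200, -1300039579303588200, 0, 0, 0, 0, 0, -1425547432586766720]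

theorem grR0_12 : eqM (gramT rowsR0_12) MR0_12 = true := by
  decide +kernel

theorem mvR0_12 : eqZ (mval MR0_12 tab12) uR0_12 = true := by
  decide +kernel

theorem nnR0_12 {κ ι : Type*} [Fintype κ] [Fintype ι] [Inhabited κ] [Inhabited ι] (E : Env κ ι) : 0 ≤ dot (ek E keys) gR0_12 0 :=
  to_global E keys lk12 kl12 tr12 uR0_12 (blockG_nonneg _ _ _ (tri12 E) rowsR0_12 MR0_12 grR0_12 uR0_12 mvR0_12) 69 gR0_12 (by decide +kernel)

def rowsR0_13 : List (ℕ × List ℤ) := [(840, [20270935]),
  (185579422932053360, [1])]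

def MR0_13 : List (List ℤ) := [[530744499782402360]]

def uR0_13 : List ℤ := [-2122977999129609440, -2122977999129609440, 2122977999129609440, 2122977999129609440]

def gR0_13 : List ℤ := [0, 0, 0, 0, 0, 0, 0, 0, 0, 0, 0, 0, 0, 0, 0, 0, 0, 0, 0, 0, 0, 0, -2122977999129609440, 0, -2122977999129609440, 0, 0, 0, 0, 0, 0, 0, 0, 0, 0, 0, 0, 0, 2122977999129609440, 2122977999129609440]

theorem grR0_13 : eqM (gramT rowsR0_13) MR0_13 = true := by
  decide +kernel

theorem mvR0_13 : eqZ (mval MR0_13 tab13) uR0_13 = true := by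
  decide +kernel

theorem nnR0_13 {κ ι : Type*} [Fintype κ] [Fintype ι] [Inhabited κ] [Inhabited ι] (E : Env κ ι) : 0 ≤ dot (ek E keys) gR0_13 0 :=
  to_global E keys lk13 kl13 tr13 uR0_13 (blockG_nonneg _ _ _ (tri13 E) rowsR0_13 MR0_13 grR0_13 uR0_13 mvR0_13) 69 gR0_13 (by decide +kernel)

def rowsR0_14 : List (ℕ × List ℤ) := [(840, [3360296]),
  (5099605008403080, [1])]

def MR0_14 : List (List ℤ) := [[14584539942800520]]

def uR0_14 : List ℤ := [-350028958627212480, 700057917254424960, 350028958627212480, -700057917254424960]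

def gR0_14 : List ℤ := [0, 0, 0, 0, 0, 0, 0, 0, 0, 0, 0, 0, 0, 0, 0, 0, 0, 0, 0, 0, 0, 0, -350028958627212480, 0, 700057917254424960, 0, 0, 0, 0, 0, 0, 0, 0, 0, 0, 0, 0, 0, 350028958627212480, -700057917254424960]

theorem grR0_14 : eqM (gramT rowsR0_14) MR0_14 = true := by
  decide +kernel

theorem mvR0_14 : eqZ (mval MR0_14 tab14) uR0_14 = true := by
  decide +kernel

theorem nnR0_14 {κ ι : Type*} [Fintype κ] [Fintype ι] [Inhabited κ] [Inhabited ι] (E : Env κ ι) : 0 ≤ dot (ek E keys) gR0_14 0 :=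
  to_global E keys lk14 kl14 tr14 uR0_14 (blockG_nonneg _ _ _ (tri14 E) rowsR0_14 MR0_14 grR0_14 uR0_14 mvR0_14) 69 gR0_14 (by decide +kernel)

def rowsR0_15 : List (ℕ × List ℤ) := [(840, [517418]),
  (120910611229800, [1])]

def MR0_15 : List (List ℤ) := [[345796576077960]]

def uR0_15 : List ℤ := [99589413910452480, 99589413910452480, -199178827820904960, -99589413910452480, -99589413910452480, -199178827820904960, -199178827820904960, 398357655641809920, 0, 199178827820904960]

def gR0_15 : List ℤ := [0, 0, 0, 0, 0, 0, 0, 0, 0, 0, 0, 0, 99589413910452480, 99589413910452480, 0, 0, 0, 0, 0, 0, 0, 0, 0, 0, -199178827820904960, -99589413910452480, -99589413910452480, 0, 0, 0, 0, -199178827820904960, 0, 0, 0, 0, 0, -199178827820904960, 398357655641809920, 0, 0, 0, 0, 0, 0, 0, 0, 0, 0, 0, 0, 0, 0, 0, 0, 0, 0, 0, 0, 0, 0, 0, 0, 0, 199178827820904960]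

theorem grR0_15 : eqM (gramT rowsR0_15) MR0_15 = true := by
  decide +kernel

theorem mvR0_15 : eqZ (mval MR0_15 tab15) uR0_15 = true := by
  decide +kernel

theorem nnR0_15 {κ ι : Type*} [Fintype κ] [Fintype ι] [Inhabited κ] [Inhabited ι] (E : Env κ ι) : 0 ≤ dot (ek E keys) gR0_15 0 :=
  to_global E keys lk15 kl15 tr15 uR0_15 (blockG_nonneg _ _ _ (tri15 E) rowsR0_15 MR0_15 grR0_15 uR0_15 mvR0_15) 69 gR0_15 (by decide +kernel)

def rowsR0_16 : List (ℕ × List ℤ) := [(840, [1401955, -651759]),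
  (840, [0, 385193]),
  (54549436651920, [1, 0]),
  (54549436651920, [0, 1])]

def MR0_16 : List (List ℤ) := [[1705550807152920, -1535077805259600],
  [536006727369120]]

def uR0_16 : List ℤ := [172495824803255520, 73103491426764960, 246199258372989600, -73103491426764960, -172495824803255520, 245599316230020480, -146806924996499040, 99392333376490560, -198784666752981120, -245599316230020480]

def gR0_16 : List ℤ := [0, 0, 0, 0, 0, 0, 0, 0, 0, 0, 0, 0, 172495824803255520, 73103491426764960, 0, 0, 0, 0, 0, 0, 0, 0, 0, 0, 246199258372989600, -73103491426764960, -172495824803255520, 0, 0, 0, 0, 245599316230020480, 0, 0, 0, 0, 0, -146806924996499040, 99392333376490560, -198784666752981120, 0, 0, 0, 0, 0, 0, 0, 0, 0, 0, 0, 0, 0, 0, 0, 0, 0, 0, 0, 0, 0, 0, 0, 0, -245599316230020480]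

theorem grR0_16 : eqM (gramT rowsR0_16) MR0_16 = true := by
  decide +kernel

theorem mvR0_16 : eqZ (mval MR0_16 tab16) uR0_16 = true := by
  decide +kernel

theorem nnR0_16 {κ ι : Type*} [Fintype κ] [Fintype ι] [Inhabited κ] [Inhabited ι] (E : Env κ ι) : 0 ≤ dot (ek E keys) gR0_16 0 :=
  to_global E keys lk16 kl16 tr16 uR0_16 (blockG_nonneg _ _ _ (tri16 E) rowsR0_16 MR0_16 grR0_16 uR0_16 mvR0_16) 69 gR0_16 (by decide +kernel)

def rowsR0_17 : List (ℕ × List ℤ) := [(840, [6807427]),
  (20928946497132240, [1])]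

def MR0_17 : List (List ℤ) := [[59855438879808600]]

def uR0_17 : List ℤ := [4309591599346219200, -4309591599346219200, -8619183198692438400, -8619183198692438400, 8619183198692438400, 0, -8619183198692438400, 8619183198692438400, 8619183198692438400, 0]

def gR0_17 : List ℤ := [0, 0, 0, 0, 0, 0, 0, 0, 0, 0, 0, 0, 4309591599346219200, -4309591599346219200, 0, 0, 0, 0, 0, 0, 0, 0, 0, 0, -8619183198692438400, -8619183198692438400, 8619183198692438400, 0, 0, 0, 0, 0, 0, 0, 0, 0, 0, -8619183198692438400, 8619183198692438400, 8619183198692438400, 0, 0, 0, 0, 0, 0, 0, 0, 0, 0, 0, 0, 0, 0, 0, 0, 0, 0, 0, 0, 0, 0, 0, 0, 0]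

theorem grR0_17 : eqM (gramT rowsR0_17) MR0_17 = true := by
  decide +kernel

theorem mvR0_17 : eqZ (mval MR0_17 tab17) uR0_17 = true := by
  decide +kernel

theorem nnR0_17 {κ ι : Type*} [Fintype κ] [Fintype ι] [Inhabited κ] [Inhabited ι] (E : Env κ ι) : 0 ≤ dot (ek E keys) gR0_17 0 :=
  to_global E keys lk17 kl17 tr17 uR0_17 (blockG_nonneg _ _ _ (tri17 E) rowsR0_17 MR0_17 grR0_17 uR0_17 mvR0_17) 69 gR0_17 (by decide +kernel)

def rowsR0_18 : List (ℕ × List ℤ) := [(840, [1894467]),
  (1620897803456400, [1])]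

def MR0_18 : List (List ℤ) := [[4635662183291160]]

def uR0_18 : List ℤ := [667535354393927040, 667535354393927040, 667535354393927040, -667535354393927040, -667535354393927040, -1335070708787854080, 667535354393927040, -1335070708787854080, 0, 1335070708787854080]

def gR0_18 : List ℤ := [0, 0, 0, 0, 0, 0, 0, 0, 0, 0, 0, 0, 667535354393927040, 667535354393927040, 0, 0, 0, 0, 0, 0, 0, 0, 0, 0, 667535354393927040, -667535354393927040, -667535354393927040, 0, 0, 0, 0, -1335070708787854080, 0, 0, 0, 0, 0, 667535354393927040, -1335070708787854080, 0, 0, 0, 0, 0, 0, 0, 0, 0, 0, 0, 0, 0, 0, 0, 0, 0, 0, 0, 0, 0, 0, 0, 0, 0, 1335070708787854080]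

theorem grR0_18 : eqM (gramT rowsR0_18) MR0_18 = true := by
  decide +kernel

theorem mvR0_18 : eqZ (mval MR0_18 tab18) uR0_18 = true := by
  decide +kernel

theorem nnR0_18 {κ ι : Type*} [Fintype κ] [Fintype ι] [Inhabited κ] [Inhabited ι] (E : Env κ ι) : 0 ≤ dot (ek E keys) gR0_18 0 :=
  to_global E keys lk18 kl18 tr18 uR0_18 (blockG_nonneg _ _ _ (tri18 E) rowsR0_18 MR0_18 grR0_18 uR0_18 mvR0_18) 69 gR0_18 (by decide +kernel)

def rowsR0_19 : List (ℕ × List ℤ) := [(840, [2954597]),
  (3942555976061640, [1])]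

def MR0_19 : List (List ℤ) := [[11275456459285200]]

def uR0_19 : List ℤ := [1443258426788505600, -1443258426788505600, -1443258426788505600, 1443258426788505600, -1443258426788505600, -1443258426788505600, -2886516853577011200, 5773033707154022400]

def gR0_19 : List ℤ := [0, 0, 0, 0, 0, 0, 0, 0, 0, 0, 0, 0, 1443258426788505600, -1443258426788505600, 0, 0, 0, 0, 0, 0, 0, 0, 0, 0, -1443258426788505600, 1443258426788505600, -1443258426788505600, 0, 0, 0, 0, 0, 0, 0, 0, 0, 0, -1443258426788505600, -2886516853577011200, 5773033707154022400]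

theorem grR0_19 : eqM (gramT rowsR0_19) MR0_19 = true := by
  decide +kernel

theorem mvR0_19 : eqZ (mval MR0_19 tab19) uR0_19 = true := by
  decide +kernel

theorem nnR0_19 {κ ι : Type*} [Fintype κ] [Fintype ι] [Inhabited κ] [Inhabited ι] (E : Env κ ι) : 0 ≤ dot (ek E keys) gR0_19 0 :=
  to_global E keys lk19 kl19 tr19 uR0_19 (blockG_nonneg _ _ _ (tri19 E) rowsR0_19 MR0_19 grR0_19 uR0_19 mvR0_19) 69 gR0_19 (by decide +kernel)

def rowsR0_20 : List (ℕ × List ℤ) := [(840, [897528]),
  (363812618703240, [1])]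

def MR0_20 : List (List ℤ) := [[1040480087761800]]

def uR0_20 : List ℤ := [199772176850265600, -199772176850265600, 399544353700531200, -399544353700531200, 399544353700531200, 399544353700531200, -399544353700531200, -399544353700531200]

def gR0_20 : List ℤ := [0, 0, 0, 0, 0, 0, 0, 0, 0, 0, 0, 0, 199772176850265600, -199772176850265600, 0, 0, 0, 0, 0, 0, 0, 0, 0, 0, 399544353700531200, -399544353700531200, 399544353700531200, 0, 0, 0, 0, 0, 0, 0, 0, 0, 0, 399544353700531200, -399544353700531200, -399544353700531200]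

theorem grR0_20 : eqM (gramT rowsR0_20) MR0_20 = true := by
  decide +kernel

theorem mvR0_20 : eqZ (mval MR0_20 tab20) uR0_20 = true := by
  decide +kernel

theorem nnR0_20 {κ ι : Type*} [Fintype κ] [Fintype ι] [Inhabited κ] [Inhabited ι] (E : Env κ ι) : 0 ≤ dot (ek E keys) gR0_20 0 :=
  to_global E keys lk20 kl20 tr20 uR0_20 (blockG_nonneg _ _ _ (tri20 E) rowsR0_20 MR0_20 grR0_20 uR0_20 mvR0_20) 69 gR0_20 (by decide +kernel)

def rowsR0_21 : List (ℕ × List ℤ) := [(840, [30975]),
  (433317284400, [1])]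

def MR0_21 : List (List ℤ) := [[1239255809400]]

def uR0_21 : List ℤ := [85657361545728000, -57104907697152000, -85657361545728000, 14276226924288000, 0, 57104907697152000, 0, -14276226924288000]

def gR0_21 : List ℤ := [0, 0, 0, 0, 0, 0, 0, 0, 0, 0, 0, 0, 85657361545728000, 0, 0, 0, 0, 0, 0, 0, 0, 0, -57104907697152000, 0, 0, -85657361545728000, 0, 14276226924288000, 0, 0, 0, 0, 0, 0, 0, 0, 0, 57104907697152000, 0, 0, 0, 0, 0, 0, 0, -14276226924288000]

theorem grR0_21 : eqM (gramT rowsR0_21) MR0_21 = true := by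
  decide +kernel

theorem mvR0_21 : eqZ (mval MR0_21 tab21) uR0_21 = true := by
  decide +kernel

theorem nnR0_21 {κ ι : Type*} [Fintype κ] [Fintype ι] [Inhabited κ] [Inhabited ι] (E : Env κ ι) : 0 ≤ dot (ek E keys) gR0_21 0 :=
  to_global E keys lk21 kl21 tr21 uR0_21 (blockG_nonneg _ _ _ (tri21 E) rowsR0_21 MR0_21 grR0_21 uR0_21 mvR0_21) 69 gR0_21 (by decide +kernel)

def rowsR0_22 : List (ℕ × List ℤ) := [(840, [76788]),
  (2663002577760, [1])]

def MR0_22 : List (List ℤ) := [[7615976010720]]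

def uR0_22 : List ℤ := [70188834914795520, 140377669829591040, -70188834914795520, 35094417457397760, 0, -140377669829591040, 0, -35094417457397760]

def gR0_22 : List ℤ := [0, 0, 0, 0, 0, 0, 0, 0, 0, 0, 0, 0, 70188834914795520, 0, 0, 0, 0, 0, 0, 0, 0, 0, 140377669829591040, 0, 0, -70188834914795520, 0, 35094417457397760, 0, 0, 0, 0, 0, 0, 0, 0, 0, -140377669829591040, 0, 0, 0, 0, 0, 0, 0, -35094417457397760]

theorem grR0_22 : eqM (gramT rowsR0_22) MR0_22 = true := by
  decide +kernel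

theorem mvR0_22 : eqZ (mval MR0_22 tab22) uR0_22 = true := by
  decide +kernel

theorem nnR0_22 {κ ι : Type*} [Fintype κ] [Fintype ι] [Inhabited κ] [Inhabited ι] (E : Env κ ι) : 0 ≤ dot (ek E keys) gR0_22 0 :=
  to_global E keys lk22 kl22 tr22 uR0_22 (blockG_nonneg _ _ _ (tri22 E) rowsR0_22 MR0_22 grR0_22 uR0_22 mvR0_22) 69 gR0_22 (by decide +kernel)

end YMBR
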