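import Pool.Agent.YM.BR.G2

set_option linter.unusedVariables false
set_option maxRecDepth 100000

open YMEng

namespace YMBR

def rowsR0_23 : List (ℕ × List ℤ) := [(840, [143582]),
  (9310735349160, [1])]

def MR0_23 : List (List ℤ) := [[26627999557320]]

def uR0_23 : List ℤ := [0, 552158198820587520, 0, 276079099410293760, -828237298230881280, 1104316397641175040, -1656474596461762560, 552158198820587520]

def gR0_23 : List ℤ := [0, 0, 0, 0, 0, 0, 0, 0, 0, 0, 0, 0, 0, 0, 0, 0, 0, 0, 0, 0, 0, 0, 552158198820587520, 0, 0, 0, 0, 276079099410293760, 0, 0, -828237298230881280, 0, 0, 0, 0, 0, 0, 1104316397641175040, -1656474596461762560, 0, 0, 0, 0, 0, 0, 552158198820587520]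

theorem grR0_23 : eqM (gramT rowsR0_23) MR0_23 = true := by
  decide +kernel

theorem mvR0_23 : eqZ (mval MR0_23 tab23) uR0_23 = true := by
  decide +kernel

theorem nnR0_23 {κ ι : Type*} [Fintype κ] [Fintype ι] [Inhabited κ] [Inhabited ι] (E : Env κ ι) : 0 ≤ dot (ek E keys) gR0_23 0 :=
  to_global E keys lk23 kl23 tr23 uR0_23 (blockG_nonneg _ _ _ (tri23 E) rowsR0_23 MR0_23 grR0_23 uR0_23 mvR0_23) 69 gR0_23 (by decide +kernel)

def rowsR0_24 : List (ℕ × List ℤ) := [(840, [62157]),
  (1744884058680, [1])]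

def MR0_24 : List (List ℤ) := [[4990217883840]]

def uR0_24 : List ℤ := [0, -620862948235837440, 0, 155215737058959360, -465647211176878080, -1241725896471674880, 1862588844707512320, 310431474117918720]

def gR0_24 : List ℤ := [0, 0, 0, 0, 0, 0, 0, 0, 0, 0, 0, 0, 0, 0, 0, 0, 0, 0, 0, 0, 0, 0, -620862948235837440, 0, 0, 0, 0, 155215737058959360, 0, 0, -465647211176878080, 0, 0, 0, 0, 0, 0, -1241725896471674880, 1862588844707512320, 0, 0, 0, 0, 0, 0, 310431474117918720]

theorem grR0_24 : eqM (gramT rowsR0_24) MR0_24 = true := by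
  decide +kernel

theorem mvR0_24 : eqZ (mval MR0_24 tab24) uR0_24 = true := by
  decide +kernel

theorem nnR0_24 {κ ι : Type*} [Fintype κ] [Fintype ι] [Inhabited κ] [Inhabited ι] (E : Env κ ι) : 0 ≤ dot (ek E keys) gR0_24 0 :=
  to_global E keys lk24 kl24 tr24 uR0_24 (blockG_nonneg _ _ _ (tri24 E) rowsR0_24 MR0_24 grR0_24 uR0_24 mvR0_24) 69 gR0_24 (by decide +kernel)

end YMBR
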