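import Pool.Agent.YM.BR.G3

set_option linter.unusedVariables false
set_option maxRecDepth 100000

open YMEng

namespace YMBR

def rowsR0_25 : List (ℕ × List ℤ) := [(840, [396323]),
  (70938225602160, [1])]

def MR0_25 : List (List ℤ) := [[202878638678520]]

def uR0_25 : List ℤ := [-1971980367955214400, -657326789318404800, 1971980367955214400, 657326789318404800, 0, 657326789318404800, 0, -657326789318404800]

def gR0_25 : List ℤ := [0, 0, 0, 0, 0, 0, 0, 0, 0, 0, 0, 0, -1971980367955214400, 0, 0, 0, 0, 0, 0, 0, 0, 0, -657326789318404800, 0, 0, 1971980367955214400, 0, 657326789318404800, 0, 0, 0, 0, 0, 0, 0, 0, 0, 657326789318404800, 0, 0, 0, 0, 0, 0, 0, -657326789318404800]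

theorem grR0_25 : eqM (gramT rowsR0_25) MR0_25 = true := by
  decide +kernel

theorem mvR0_25 : eqZ (mval MR0_25 tab25) uR0_25 = true := by
  decide +kernel

theorem nnR0_25 {κ ι : Type*} [Fintype κ] [Fintype ι] [Inhabited κ] [Inhabited ι] (E : Env κ ι) : 0 ≤ dot (ek E keys) gR0_25 0 :=
  to_global E keys lk25 kl25 tr25 uR0_25 (blockG_nonneg _ _ _ (tri25 E) rowsR0_25 MR0_25 grR0_25 uR0_25 mvR0_25) 69 gR0_25 (by decide +kernel)

def rowsR0_26 : List (ℕ × List ℤ) := [(840, [0, 9703468]),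
  (42525984013124640, [0, 1])]

def MR0_26 : List (List ℤ) := [[0, 0],
  [121618108643824800]]

def uR0_26 : List ℤ := [0, 0, 121618108643824800]

def gR0_26 : List ℤ := [0, 0, 0, 0, 0, 0, 0, 0, 0, 0, 0, 0, 0, 0, 0, 0, 0, 0, 0, 0, 0, 0, 0, 0, 0, 0, 0, 0, 0, 0, 0, 0, 0, 0, 0, 0, 0, 0, 0, 0, 0, 0, 0, 0, 0, 0, 0, 0, 0, 0, 0, 0, 0, 0, 0, 0, 0, 0, 0, 0, 0, 0, 0, 121618108643824800]

theorem grR0_26 : eqM (gramT rowsR0_26) MR0_26 = true := by
  decide +kernel

theorem mvR0_26 : eqZ (mval MR0_26 tab26) uR0_26 = true := by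
  decide +kernel

theorem nnR0_26 {κ ι : Type*} [Fintype κ] [Fintype ι] [Inhabited κ] [Inhabited ι] (E : Env κ ι) : 0 ≤ dot (ek E keys) gR0_26 0 :=
  to_global E keys lk26 kl26 tr26 uR0_26 (blockG_nonneg _ _ _ (tri26 E) rowsR0_26 MR0_26 grR0_26 uR0_26 mvR0_26) 69 gR0_26 (by decide +kernel)

def rowsR0_27 : List (ℕ × List ℤ) := [(840, [78905846, -83280000, -78020731, 0, 79754071]),
  (840, [0, 7205984, -4688665, 0, 556607]),
  (840, [0, 0, 4969572, 0, -5308160]),
  (840, [0, 0, 0, 0, 4852678]),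
  (274838037180, [0, 1, -1, 0, 0]),
  (185138107560, [0, 1, 0, 0, -1]),
  (107158264920, [1, 0, 0, 0, 1]),
  (156529571100, [1, -1, 0, 0, 0]),
  (285186003060, [0, 0, 1, 0, 1]),
  (1584192636264980, [1, 0, 0, 0, 0]),
  (1583191158955840, [0, 1, 0, 0, 0]),
  (1583945876097480, [0, 0, 1, 0, 0]),
  (1584530859320780, [0, 0, 0, 0, 1])]

def MR0_27 : List (List ℤ) := [[5231535784023702440, -11039748789257542200, -10342570198956955680, 0, 10572345120570960720],
  [5871070876207606720, 10859149905274440840, 0, -11151686031605651280],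
  [5154072846440744520, 0, -10502452140105961560],
  [0, 0],
  [5388292335319226480]]

def uR0_27 : List ℤ := [0, 20926143136094809760, -44158995157030168800, 42289380482283842880, -41370280795827822720, 21553169341276905920, 0, 0, 0, 43436599621097763360, -44606744126422605120, 11742141752415213440, 0, 20616291385762978080, -42009808560423846240, 11742141752415213440]

def gR0_27 : List ℤ := [0, 0, 0, 0, 0, 0, 0, 0, 0, 20926143136094809760, -44158995157030168800, 42289380482283842880, 0, 0, -41370280795827822720, 0, 0, 0, 0, 0, 0, 0, 0, 21553169341276905920, 0, 0, 0, 0, 0, 0, 0, 0, 0, 0, 0, 0, 0, 0, 0, 0, 43436599621097763360, -44606744126422605120, 0, 11742141752415213440, 0, 0, 20616291385762978080, 0, 0, 0, -42009808560423846240, 0, 0, 0, 0, 0, 0, 0, 0, 0, 0, 0, 11742141752415213440]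

theorem grR0_27 : eqM (gramT rowsR0_27) MR0_27 = true := by
  decide +kernel

theorem mvR0_27 : eqZ (mval MR0_27 tab27) uR0_27 = true := by
  decide +kernel

theorem nnR0_27 {κ ι : Type*} [Fintype κ] [Fintype ι] [Inhabited κ] [Inhabited ι] (E : Env κ ι) : 0 ≤ dot (ek E keys) gR0_27 0 :=
  to_global E keys lk27 kl27 tr27 uR0_27 (blockG_nonneg _ _ _ (tri27 E) rowsR0_27 MR0_27 grR0_27 uR0_27 mvR0_27) 69 gR0_27 (by decide +kernel)

def rowsR0_28 : List (ℕ × List ℤ) := [(840, [40364897]),
  (735854104143127480, [1])]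

def MR0_28 : List (List ℤ) := [[2104487028392439040]]

def uR0_28 : List ℤ := [4208974056784878080, -4208974056784878080]

def gR0_28 : List ℤ := [0, 0, 0, 0, 0, 0, 0, 0, 0, 0, 0, 0, 0, 0, 0, 0, 0, 0, 0, 0, 0, 0, 0, 0, 0, 0, 0, 0, 0, 0, 0, 0, 0, 0, 0, 0, 0, 0, 0, 0, 0, 0, 0, 4208974056784878080, 0, 0, 0, 0, 0, 0, 0, 0, 0, 0, 0, 0, 0, 0, 0, 0, 0, 0, -4208974056784878080]

theorem grR0_28 : eqM (gramT rowsR0_28) MR0_28 = true := by
  decide +kernel

theorem mvR0_28 : eqZ (mval MR0_28 tab28) uR0_28 = true := by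
  decide +kernel

theorem nnR0_28 {κ ι : Type*} [Fintype κ] [Fintype ι] [Inhabited κ] [Inhabited ι] (E : Env κ ι) : 0 ≤ dot (ek E keys) gR0_28 0 :=
  to_global E keys lk28 kl28 tr28 uR0_28 (blockG_nonneg _ _ _ (tri28 E) rowsR0_28 MR0_28 grR0_28 uR0_28 mvR0_28) 69 gR0_28 (by decide +kernel)

def rowsR0_29 : List (ℕ × List ℤ) := [(840, [830002, -905516, 0]),
  (840, [0, 415212, 0]),
  (33394308173520, [1, 0, 0]),
  (33394308173520, [0, 1, 0])]

def MR0_29 : List (List ℤ) := [[612073096976880, -1262654552933760, 0],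
  [866976902381520, 0],
  [0]]

def uR0_29 : List ℤ := [0, 0, 58759017309780480, 83229782628625920, 0, 0, 0, -121214837081640960, -121214837081640960, -242429674163281920, -242429674163281920, 235036069239121920, 41614891314312960, 41614891314312960, 0, 166459565257251840, 83229782628625920, 58759017309780480, 83229782628625920]

def gR0_29 : List ℤ := [0, 0, 0, 0, 0, 0, 0, 0, 0, 0, 0, 0, 0, 0, 0, 0, 0, 0, 0, 58759017309780480, 0, 83229782628625920, 0, 0, 0, 0, 0, 0, 0, 0, 0, 0, 0, -121214837081640960, 0, 0, 0, 0, 0, 0, -121214837081640960, -242429674163281920, -242429674163281920, 235036069239121920, 0, 0, 0, 41614891314312960, 41614891314312960, 0, 0, 166459565257251840, 83229782628625920, 0, 0, 0, 0, 0, 0, 0, 0, 0, 0, 58759017309780480, 0, 83229782628625920]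

theorem grR0_29 : eqM (gramT rowsR0_29) MR0_29 = true := by
  decide +kernel

theorem mvR0_29 : eqZ (mval MR0_29 tab29) uR0_29 = true := by
  decide +kernel

theorem nnR0_29 {κ ι : Type*} [Fintype κ] [Fintype ι] [Inhabited κ] [Inhabited ι] (E : Env κ ι) : 0 ≤ dot (ek E keys) gR0_29 0 :=
  to_global E keys lk29 kl29 tr29 uR0_29 (blockG_nonneg _ _ _ (tri29 E) rowsR0_29 MR0_29 grR0_29 uR0_29 mvR0_29) 69 gR0_29 (by decide +kernel)

def rowsR0_30 : List (ℕ × List ℤ) := [(840, [15245563, -334324, -15928114]),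
  (840, [0, 3052821, -4819017]),
  (840, [0, 0, 2189040]),
  (10478291040, [1, 0, 1]),
  (436762417306740, [1, 0, 0]),
  (436788552087720, [0, 1, 0]),
  (436778073796680, [0, 0, 1])]

def MR0_30 : List (List ℤ) := [[195675613492651740, -8562888775412160, -407959529013163680],
  [8359238971902000, -15769228460195280],
  [237081283266591120]]

def uR0_30 : List ℤ := [4696214723823641760, 6745368008756351520, 9791028696315928320, -9791028696315928320, 10202047357535712000, -10202047357535712000, 0, 1411096705796242080, 4278854092601944800, -2867757386805702720, -3877610621950648800, -4696214723823641760, -5689950798398186880]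

def gR0_30 : List ℤ := [0, 0, 0, 0, 0, 0, 0, 0, 0, 0, 0, 0, 0, 0, 0, 0, 0, 0, 0, 4696214723823641760, 0, 6745368008756351520, 0, 0, 0, 0, 0, 0, 0, 0, 0, 0, 0, 9791028696315928320, 0, 0, 0, 0, 0, 0, -9791028696315928320, 10202047357535712000, -10202047357535712000, 0, 0, 0, 0, 1411096705796242080, 4278854092601944800, 0, 0, -2867757386805702720, -3877610621950648800, 0, 0, 0, 0, 0, 0, 0, 0, 0, 0, -4696214723823641760, 0, -5689950798398186880]

theorem grR0_30 : eqM (gramT rowsR0_30) MR0_30 = true := by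
  decide +kernel

theorem mvR0_30 : eqZ (mval MR0_30 tab30) uR0_30 = true := by
  decide +kernel

theorem nnR0_30 {κ ι : Type*} [Fintype κ] [Fintype ι] [Inhabited κ] [Inhabited ι] (E : Env κ ι) : 0 ≤ dot (ek E keys) gR0_30 0 :=
  to_global E keys lk30 kl30 tr30 uR0_30 (blockG_nonneg _ _ _ (tri30 E) rowsR0_30 MR0_30 grR0_30 uR0_30 mvR0_30) 69 gR0_30 (by decide +kernel)

def rowsR0_31 : List (ℕ × List ℤ) := [(840, [5019887, 4692131, 0]),
  (840, [0, 2569141, 0]),
  (1488744551679840, [1, 0, 0]),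
  (1488744551679840, [0, 1, 0])]

def MR0_31 : List (List ℤ) := [[22656127565605800, 39570665247450960, 0],
  [25526670742875120, 0],
  [0]]

def uR0_31 : List ℤ := [0, 0, 1087494123149078400, -612640097829002880, 0, 0, 0, -1899391931877646080, -1899391931877646080, 1899391931877646080, 1899391931877646080, -2174988246298156800, 612640097829002880, 612640097829002880, 0, -1225280195658005760, -612640097829002880, 1087494123149078400, 1225280195658005760]

def gR0_31 : List ℤ := [0, 0, 0, 0, 0, 0, 0, 0, 0, 0, 0, 0, 0, 0, 0, 0, 0, 0, 0, 1087494123149078400, 0, -612640097829002880, 0, 0, 0, 0, 0, 0, 0, 0, 0, 0, 0, -1899391931877646080, 0, 0, 0, 0, 0, 0, -1899391931877646080, 1899391931877646080, 1899391931877646080, -2174988246298156800, 0, 0, 0, 612640097829002880, 612640097829002880, 0, 0, -1225280195658005760, -612640097829002880, 0, 0, 0, 0, 0, 0, 0, 0, 0, 0, 1087494123149078400, 0, 1225280195658005760]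

theorem grR0_31 : eqM (gramT rowsR0_31) MR0_31 = true := by
  decide +kernel

theorem mvR0_31 : eqZ (mval MR0_31 tab31) uR0_31 = true := by
  decide +kernel

theorem nnR0_31 {κ ι : Type*} [Fintype κ] [Fintype ι] [Inhabited κ] [Inhabited ι] (E : Env κ ι) : 0 ≤ dot (ek E keys) gR0_31 0 :=
  to_global E keys lk31 kl31 tr31 uR0_31 (blockG_nonneg _ _ _ (tri31 E) rowsR0_31 MR0_31 grR0_31 uR0_31 mvR0_31) 69 gR0_31 (by decide +kernel)

def rowsR0_32 : List (ℕ × List ℤ) := [(840, [7165892]),
  (23191126027280400, [1])]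

def MR0_32 : List (List ℤ) := [[66325132878038160]]

def uR0_32 : List ℤ := [-1061202126048610560, -1061202126048610560, 1061202126048610560, 2122404252097221120, -1061202126048610560]

def gR0_32 : List ℤ := [0, 0, 0, 0, 0, 0, 0, 0, 0, 0, 0, 0, 0, 0, 0, 0, 0, 0, 0, 0, 0, -1061202126048610560, 0, 0, 0, 0, 0, 0, 0, 0, 0, 0, 0, 0, 0, 0, 0, 0, 0, 0, 0, 0, 0, 0, 0, 0, 0, -1061202126048610560, 1061202126048610560, 0, 0, 2122404252097221120, -1061202126048610560]

theorem grR0_32 : eqM (gramT rowsR0_32) MR0_32 = true := by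
  decide +kernel

theorem mvR0_32 : eqZ (mval MR0_32 tab32) uR0_32 = true := by
  decide +kernel

theorem nnR0_32 {κ ι : Type*} [Fintype κ] [Fintype ι] [Inhabited κ] [Inhabited ι] (E : Env κ ι) : 0 ≤ dot (ek E keys) gR0_32 0 :=
  to_global E keys lk32 kl32 tr32 uR0_32 (blockG_nonneg _ _ _ (tri32 E) rowsR0_32 MR0_32 grR0_32 uR0_32 mvR0_32) 69 gR0_32 (by decide +kernel)

def rowsR0_33 : List (ℕ × List ℤ) := [(840, [11202]),
  (56672736960, [1])]

def MR0_33 : List (List ℤ) := [[162079972320]]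

def uR0_33 : List ℤ := [1867161281126400, 3734322562252800, 14937290249011200, 3734322562252800, 14937290249011200, 14937290249011200, 29874580498022400]

def gR0_33 : List ℤ := [0, 0, 0, 0, 0, 0, 0, 0, 0, 0, 0, 0, 0, 0, 0, 0, 1867161281126400, 0, 0, 0, 3734322562252800, 0, 0, 14937290249011200, 0, 0, 0, 0, 0, 0, 0, 0, 0, 0, 0, 0, 0, 0, 0, 0, 0, 0, 0, 0, 0, 0, 3734322562252800, 0, 14937290249011200, 0, 14937290249011200, 0, 29874580498022400]

theorem grR0_33 : eqM (gramT rowsR0_33) MR0_33 = true := by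
  decide +kernel

theorem mvR0_33 : eqZ (mval MR0_33 tab33) uR0_33 = true := by
  decide +kernel

theorem nnR0_33 {κ ι : Type*} [Fintype κ] [Fintype ι] [Inhabited κ] [Inhabited ι] (E : Env κ ι) : 0 ≤ dot (ek E keys) gR0_33 0 :=
  to_global E keys lk33 kl33 tr33 uR0_33 (blockG_nonneg _ _ _ (tri33 E) rowsR0_33 MR0_33 grR0_33 uR0_33 mvR0_33) 69 gR0_33 (by decide +kernel)

def rowsR0_34 : List (ℕ × List ℤ) := [(840, [136439]),
  (8407289536800, [1])]

def MR0_34 : List (List ℤ) := [[24044394142440]]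

def uR0_34 : List ℤ := [34623927565113600, 69247855130227200, -138495710260454400, -34623927565113600, 69247855130227200, -138495710260454400, 138495710260454400]

def gR0_34 : List ℤ := [0, 0, 0, 0, 0, 0, 0, 0, 0, 0, 0, 0, 0, 0, 0, 0, 34623927565113600, 0, 0, 0, 69247855130227200, 0, 0, -138495710260454400, 0, 0, 0, 0, 0, 0, 0, 0, 0, 0, 0, 0, 0, 0, 0, 0, 0, 0, 0, 0, 0, 0, -34623927565113600, 0, 69247855130227200, 0, -138495710260454400, 0, 138495710260454400]

theorem grR0_34 : eqM (gramT rowsR0_34) MR0_34 = true := by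
  decide +kernel

theorem mvR0_34 : eqZ (mval MR0_34 tab34) uR0_34 = true := by
  decide +kernel

theorem nnR0_34 {κ ι : Type*} [Fintype κ] [Fintype ι] [Inhabited κ] [Inhabited ι] (E : Env κ ι) : 0 ≤ dot (ek E keys) gR0_34 0 :=
  to_global E keys lk34 kl34 tr34 uR0_34 (blockG_nonneg _ _ _ (tri34 E) rowsR0_34 MR0_34 grR0_34 uR0_34 mvR0_34) 69 gR0_34 (by decide +kernel)

def rowsR0_35 : List (ℕ × List ℤ) := [(840, [217367, -254228]),
  (840, [0, 186682]),
  (5533560774000, [1, 0]),
  (5533560774000, [0, 1])]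

def MR0_35 : List (List ℤ) := [[45222227432760, -92838106495680],
  [89098478664720]]

def uR0_35 : List ℤ := [85132232153256960, 88521121188541440, 178651471836579840, -4193503765032960, -6777778070568960, -804614729748480, -340528928613027840]

def gR0_35 : List ℤ := [0, 0, 0, 0, 0, 0, 0, 0, 0, 0, 0, 0, 0, 0, 0, 0, 85132232153256960, 0, 0, 0, 88521121188541440, 0, 0, 178651471836579840, 0, 0, 0, 0, 0, 0, 0, 0, 0, 0, 0, 0, 0, 0, 0, 0, 0, 0, 0, 0, 0, 0, -4193503765032960, 0, -6777778070568960, 0, -804614729748480, 0, -340528928613027840]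

theorem grR0_35 : eqM (gramT rowsR0_35) MR0_35 = true := by
  decide +kernel

theorem mvR0_35 : eqZ (mval MR0_35 tab35) uR0_35 = true := by
  decide +kernel

theorem nnR0_35 {κ ι : Type*} [Fintype κ] [Fintype ι] [Inhabited κ] [Inhabited ι] (E : Env κ ι) : 0 ≤ dot (ek E keys) gR0_35 0 :=
  to_global E keys lk35 kl35 tr35 uR0_35 (blockG_nonneg _ _ _ (tri35 E) rowsR0_35 MR0_35 grR0_35 uR0_35 mvR0_35) 69 gR0_35 (by decide +kernel)

def rowsR0_36 : List (ℕ × List ℤ) := [(840, [2103377]),
  (1998092496093120, [1])]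

def MR0_36 : List (List ℤ) := [[5714416131561480]]

def uR0_36 : List ℤ := [1028594903681066400, -1028594903681066400, -1028594903681066400, -1028594903681066400, -1028594903681066400, 2057189807362132800, 1028594903681066400]

def gR0_36 : List ℤ := [0, 0, 0, 0, 0, 0, 0, 0, 0, 0, 0, 0, 0, 0, 0, 0, 1028594903681066400, 0, 0, 0, -1028594903681066400, 0, 0, -1028594903681066400, 0, 0, 0, 0, 0, 0, 0, 0, 0, 0, 0, 0, 0, 0, 0, 0, 0, 0, 0, 0, 0, 0, -1028594903681066400, 0, -1028594903681066400, 0, 2057189807362132800, 0, 1028594903681066400]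

theorem grR0_36 : eqM (gramT rowsR0_36) MR0_36 = true := by
  decide +kernel

theorem mvR0_36 : eqZ (mval MR0_36 tab36) uR0_36 = true := by
  decide +kernel

theorem nnR0_36 {κ ι : Type*} [Fintype κ] [Fintype ι] [Inhabited κ] [Inhabited ι] (E : Env κ ι) : 0 ≤ dot (ek E keys) gR0_36 0 :=
  to_global E keys lk36 kl36 tr36 uR0_36 (blockG_nonneg _ _ _ (tri36 E) rowsR0_36 MR0_36 grR0_36 uR0_36 mvR0_36) 69 gR0_36 (by decide +kernel)

def rowsR0_37 : List (ℕ × List ℤ) := [(840, [157516]),
  (11205527777640, [1])]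

def MR0_37 : List (List ℤ) := [[32047011592680]]

def uR0_37 : List ℤ := [73836314709534720, -73836314709534720, 147672629419069440, 147672629419069440, -295345258838138880, -295345258838138880, 295345258838138880]

def gR0_37 : List ℤ := [0, 0, 0, 0, 0, 0, 0, 0, 0, 0, 0, 0, 0, 0, 0, 0, 73836314709534720, 0, 0, 0, -73836314709534720, 0, 0, 147672629419069440, 0, 0, 0, 0, 0, 0, 0, 0, 0, 0, 0, 0, 0, 0, 0, 0, 0, 0, 0, 0, 0, 0, 147672629419069440, 0, -295345258838138880, 0, -295345258838138880, 0, 295345258838138880]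

theorem grR0_37 : eqM (gramT rowsR0_37) MR0_37 = true := by
  decide +kernel

theorem mvR0_37 : eqZ (mval MR0_37 tab37) uR0_37 = true := by
  decide +kernel

theorem nnR0_37 {κ ι : Type*} [Fintype κ] [Fintype ι] [Inhabited κ] [Inhabited ι] (E : Env κ ι) : 0 ≤ dot (ek E keys) gR0_37 0 :=
  to_global E keys lk37 kl37 tr37 uR0_37 (blockG_nonneg _ _ _ (tri37 E) rowsR0_37 MR0_37 grR0_37 uR0_37 mvR0_37) 69 gR0_37 (by decide +kernel)

def rowsR0_38 : List (ℕ × List ℤ) := [(840, [0, 4908112]),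
  (10879145109792960, [0, 1])]

def MR0_38 : List (List ℤ) := [[0, 0],
  [31114378369609920]]

def uR0_38 : List ℤ := [0, 0, 124457513478439680]

def gR0_38 : List ℤ := [0, 0, 0, 0, 0, 0, 0, 0, 0, 0, 0, 0, 0, 0, 0, 0, 0, 0, 0, 0, 0, 0, 0, 0, 0, 0, 0, 0, 0, 0, 0, 0, 0, 0, 0, 0, 0, 0, 0, 0, 0, 0, 0, 0, 0, 0, 0, 0, 0, 0, 0, 0, 0, 0, 0, 0, 0, 0, 0, 0, 0, 0, 0, 0, 0, 124457513478439680]

theorem grR0_38 : eqM (gramT rowsR0_38) MR0_38 = true := by
  decide +kernel

theorem mvR0_38 : eqZ (mval MR0_38 tab38) uR0_38 = true := by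
  decide +kernel

theorem nnR0_38 {κ ι : Type*} [Fintype κ] [Fintype ι] [Inhabited κ] [Inhabited ι] (E : Env κ ι) : 0 ≤ dot (ek E keys) gR0_38 0 :=
  to_global E keys lk38 kl38 tr38 uR0_38 (blockG_nonneg _ _ _ (tri38 E) rowsR0_38 MR0_38 grR0_38 uR0_38 mvR0_38) 69 gR0_38 (by decide +kernel)

def rowsR0_39 : List (ℕ × List ℤ) := [(840, [25718127, -26587278, -25813343, 0, 27024505]),
  (840, [0, 3681246, -2317873, 0, 273714]),
  (840, [0, 0, 2546381, 0, -2810744]),
  (840, [0, 0, 0, 0, 2419938]),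
  (409403455091400, [1, 0, 0, 0, 0]),
  (409403455091400, [0, 1, 0, 0, 0]),
  (409403455091400, [0, 0, 1, 0, 0]),
  (409403455091400, [0, 0, 0, 0, 1])]

def MR0_39 : List (List ℤ) := [[556003930821119760, -1148741986876354080, -1115303000395182480, 0, 1167633014859586800],
  [605574739247003400, 1138660094444201280, 0, -1205400703381973280],
  [570085028807720160, 0, -1185045920315041680],
  [0, 0],
  [625499747604300240]]

def uR0_39 : List ℤ := [0, 0, 4560680230461761280, 8896062893137916160, 7426296937822415520, 2422298956988013600, 0, 0, 0, -9851453969487056640, -9643205627055786240, 2422298956988013600, 0, -13284167775861158400, 18682128237753388800, -18379871790021665280, 0, 9109280755553610240, -9643205627055786240, 2422298956988013600, 5003997980834401920]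

def gR0_39 : List ℤ := [0, 0, 0, 0, 0, 0, 0, 0, 0, 0, 0, 0, 0, 0, 4560680230461761280, 0, 8896062893137916160, 0, 0, 0, 0, 7426296937822415520, 0, 2422298956988013600, 0, 0, 0, 0, 0, 0, 0, 0, 0, 0, 0, 0, 0, 0, 0, 0, -9851453969487056640, -9643205627055786240, 2422298956988013600, 0, 0, 0, -13284167775861158400, 18682128237753388800, -18379871790021665280, 0, 9109280755553610240, -9643205627055786240, 2422298956988013600, 0, 0, 0, 0, 0, 0, 0, 0, 0, 5003997980834401920]

theorem grR0_39 : eqM (gramT rowsR0_39) MR0_39 = true := by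
  decide +kernel

theorem mvR0_39 : eqZ (mval MR0_39 tab39) uR0_39 = true := by
  decide +kernel

theorem nnR0_39 {κ ι : Type*} [Fintype κ] [Fintype ι] [Inhabited κ] [Inhabited ι] (E : Env κ ι) : 0 ≤ dot (ek E keys) gR0_39 0 :=
  to_global E keys lk39 kl39 tr39 uR0_39 (blockG_nonneg _ _ _ (tri39 E) rowsR0_39 MR0_39 grR0_39 uR0_39 mvR0_39) 69 gR0_39 (by decide +kernel)

def rowsR0_40 : List (ℕ × List ℤ) := [(840, [96285999, -54401529]),
  (840, [0, 13338522]),
  (60765267001691280, [1, 0]),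
  (60765267001691280, [0, 1])]

def MR0_40 : List (List ℤ) := [[7848399893881212120, -8800017352379351280],
  [2696216989414844280]]

def uR0_40 : List ℤ := [21569735915318754240, 31393599575524848480, -31393599575524848480, -70400138819034810240, 31393599575524848480, -21569735915318754240, 70400138819034810240, -31393599575524848480]

def gR0_40 : List ℤ := [0, 0, 0, 0, 0, 0, 0, 0, 0, 0, 0, 0, 0, 0, 21569735915318754240, 0, 0, 0, 0, 0, 0, 31393599575524848480, 0, -31393599575524848480, 0, 0, 0, 0, 0, 0, 0, 0, 0, 0, 0, 0, 0, 0, 0, 0, -70400138819034810240, 0, 31393599575524848480, 0, 0, 0, -21569735915318754240, 0, 0, 0, 70400138819034810240, 0, -31393599575524848480]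

theorem grR0_40 : eqM (gramT rowsR0_40) MR0_40 = true := by
  decide +kernel

theorem mvR0_40 : eqZ (mval MR0_40 tab40) uR0_40 = true := by
  decide +kernel

theorem nnR0_40 {κ ι : Type*} [Fintype κ] [Fintype ι] [Inhabited κ] [Inhabited ι] (E : Env κ ι) : 0 ≤ dot (ek E keys) gR0_40 0 :=
  to_global E keys lk40 kl40 tr40 uR0_40 (blockG_nonneg _ _ _ (tri40 E) rowsR0_40 MR0_40 grR0_40 uR0_40 mvR0_40) 69 gR0_40 (by decide +kernel)

def rowsR0_41 : List (ℕ × List ℤ) := [(840, [34382297]),
  (533888004285054160, [1])]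

def MR0_41 : List (List ℤ) := [[1526887575761869720]]

def uR0_41 : List ℤ := [-6107550303047478880, -6107550303047478880, 6107550303047478880, 6107550303047478880]

def gR0_41 : List ℤ := [0, 0, 0, 0, 0, 0, 0, 0, 0, 0, 0, 0, 0, 0, 0, 0, 0, 0, 0, 0, 0, -6107550303047478880, 0, -6107550303047478880, 0, 0, 0, 0, 0, 0, 0, 0, 0, 0, 0, 0, 0, 0, 0, 0, 0, 0, 6107550303047478880, 0, 0, 0, 0, 0, 0, 0, 0, 0, 6107550303047478880]

theorem grR0_41 : eqM (gramT rowsR0_41) MR0_41 = true := by
  decide +kernel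

theorem mvR0_41 : eqZ (mval MR0_41 tab41) uR0_41 = true := by
  decide +kernel

theorem nnR0_41 {κ ι : Type*} [Fintype κ] [Fintype ι] [Inhabited κ] [Inhabited ι] (E : Env κ ι) : 0 ≤ dot (ek E keys) gR0_41 0 :=
  to_global E keys lk41 kl41 tr41 uR0_41 (blockG_nonneg _ _ _ (tri41 E) rowsR0_41 MR0_41 grR0_41 uR0_41 mvR0_41) 69 gR0_41 (by decide +kernel)

def rowsR0_42 : List (ℕ × List ℤ) := [(840, [16605064, 0, -1818567]),
  (840, [0, 2726479, 0]),
  (840, [0, 0, 16219637]),
  (3355855255821880, [1, 0, 0]),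
  (3357428738246935, [0, 1, 0]),
  (3357264763755000, [0, 0, 1])]

def MR0_42 : List (List ℤ) := [[234967501628862520, 0, -50731667991123840],
  [9601726437697375, 0],
  [227119665453771720]]

def uR0_42 : List ℤ := [76813811501579000, -76813811501579000, -2756827330145623840, 939870006515450080, 0, 0, 405853343928990720, 939870006515450080, 0, -405853343928990720, -939870006515450080, 1816957323630173760]

def gR0_42 : List ℤ := [0, 0, 0, 0, 0, 76813811501579000, -76813811501579000, 0, 0, 0, 0, 0, 0, 0, 0, 0, 0, 0, 0, 0, 0, -2756827330145623840, 0, 939870006515450080, 0, 0, 0, 0, 0, 0, 0, 0, 0, 0, 0, 0, 0, 0, 0, 0, 0, 405853343928990720, 939870006515450080, 0, 0, 0, 0, 0, 0, 0, 0, -405853343928990720, -939870006515450080, 0, 0, 0, 0, 0, 0, 0, 0, 0, 1816957323630173760]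

theorem grR0_42 : eqM (gramT rowsR0_42) MR0_42 = true := by
  decide +kernel

theorem mvR0_42 : eqZ (mval MR0_42 tab42) uR0_42 = true := by
  decide +kernel

theorem nnR0_42 {κ ι : Type*} [Fintype κ] [Fintype ι] [Inhabited κ] [Inhabited ι] (E : Env κ ι) : 0 ≤ dot (ek E keys) gR0_42 0 :=
  to_global E keys lk42 kl42 tr42 uR0_42 (blockG_nonneg _ _ _ (tri42 E) rowsR0_42 MR0_42 grR0_42 uR0_42 mvR0_42) 69 gR0_42 (by decide +kernel)

def rowsR0_43 : List (ℕ × List ℤ) := [(840, [425424, -443858, 0]),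
  (840, [0, 204267, 0]),
  (8519266709520, [1, 0, 0]),
  (8519266709520, [0, 1, 0])]

def MR0_43 : List (List ℤ) := [[160547153721360, -317230780930560, 0],
  [209056609130040, 0],
  [0]]

def uR0_43 : List ℤ := [0, 0, 0, 20069434476483840, 20069434476483840, 30825053514501120, 30825053514501120, 40138868952967680, 0, 0, 0, -121816619877335040, 0, -60908309938667520, 38738855934535680, 163439083010972160, -81677750924367360, 0, 20069434476483840, 20069434476483840, 0, -60908309938667520, -121816619877335040, 1483594180669440, 40138868952967680, 40138868952967680, 101788975981969920]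

def gR0_43 : List ℤ := [0, 0, 0, 0, 0, 0, 0, 0, 0, 0, 20069434476483840, 20069434476483840, 0, 0, 0, 0, 0, 0, 0, 30825053514501120, 30825053514501120, 0, 0, 40138868952967680, 0, 0, 0, 0, 0, 0, 0, 0, 0, -121816619877335040, 0, 0, 0, 0, 0, 0, -60908309938667520, 38738855934535680, 163439083010972160, -81677750924367360, 0, 0, 0, 20069434476483840, 20069434476483840, 0, -60908309938667520, -121816619877335040, 1483594180669440, 0, 0, 0, 0, 0, 0, 0, 0, 0, 40138868952967680, 40138868952967680, 0, 101788975981969920]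

theorem grR0_43 : eqM (gramT rowsR0_43) MR0_43 = true := by
  decide +kernel

theorem mvR0_43 : eqZ (mval MR0_43 tab43) uR0_43 = true := by
  decide +kernel

theorem nnR0_43 {κ ι : Type*} [Fintype κ] [Fintype ι] [Inhabited κ] [Inhabited ι] (E : Env κ ι) : 0 ≤ dot (ek E keys) gR0_43 0 :=
  to_global E keys lk43 kl43 tr43 uR0_43 (blockG_nonneg _ _ _ (tri43 E) rowsR0_43 MR0_43 grR0_43 uR0_43 mvR0_43) 69 gR0_43 (by decide +kernel)

end YMBR
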