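import Pool.Agent.YM.BR.G5

set_option linter.unusedVariables false
set_option maxRecDepth 100000

open YMEng

namespace YMBR

def rowsR0_56 : List (ℕ × List ℤ) := [(840, [1649709]),
  (1229125532883360, [1])]

def MR0_56 : List (List ℤ) := [[3515218952015400]]

def uR0_56 : List ℤ := [4049532232721740800, 0, -8099064465443481600, -4049532232721740800, 0, 8099064465443481600, 0, -16198128930886963200, 16198128930886963200, 8099064465443481600, 0, -8099064465443481600]

def gR0_56 : List ℤ := [0, 0, 0, 0, 0, 0, 0, 0, 0, 4049532232721740800, 0, 0, 0, 0, -8099064465443481600, 0, -4049532232721740800, 0, 0, 0, 0, 8099064465443481600, 0, 0, 0, 0, 0, 0, 0, 0, 0, 0, 0, 0, 0, 0, 0, 0, 0, 0, 0, 0, -16198128930886963200, 16198128930886963200, 0, 0, 8099064465443481600, 0, 0, 0, 0, 0, 0, 0, 0, 0, 0, 0, 0, 0, 0, 0, -8099064465443481600]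

theorem grR0_56 : eqM (gramT rowsR0_56) MR0_56 = true := by
  decide +kernel

theorem mvR0_56 : eqZ (mval MR0_56 tab56) uR0_56 = true := by
  decide +kernel

theorem nnR0_56 {κ ι : Type*} [Fintype κ] [Fintype ι] [Inhabited κ] [Inhabited ι] (E : Env κ ι) : 0 ≤ dot (ek E keys) gR0_56 0 :=
  to_global E keys lk56 kl56 tr56 uR0_56 (blockG_nonneg _ _ _ (tri56 E) rowsR0_56 MR0_56 grR0_56 uR0_56 mvR0_56) 69 gR0_56 (by decide +kernel)

def rowsR0_57 : List (ℕ × List ℤ) := [(840, [386780]),
  (67562914623120, [1])]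

def MR0_57 : List (List ℤ) := [[193225880079120]]

def uR0_57 : List ℤ := [667788641553438720, 0, -1335577283106877440, -667788641553438720, 0, -2671154566213754880, 0, 5342309132427509760, -5342309132427509760, 1335577283106877440, 0, 2671154566213754880]

def gR0_57 : List ℤ := [0, 0, 0, 0, 0, 0, 0, 0, 0, 667788641553438720, 0, 0, 0, 0, -1335577283106877440, 0, -667788641553438720, 0, 0, 0, 0, -2671154566213754880, 0, 0, 0, 0, 0, 0, 0, 0, 0, 0, 0, 0, 0, 0, 0, 0, 0, 0, 0, 0, 5342309132427509760, -5342309132427509760, 0, 0, 1335577283106877440, 0, 0, 0, 0, 0, 0, 0, 0, 0, 0, 0, 0, 0, 0, 0, 2671154566213754880]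

theorem grR0_57 : eqM (gramT rowsR0_57) MR0_57 = true := by
  decide +kernel

theorem mvR0_57 : eqZ (mval MR0_57 tab57) uR0_57 = true := by
  decide +kernel

theorem nnR0_57 {κ ι : Type*} [Fintype κ] [Fintype ι] [Inhabited κ] [Inhabited ι] (E : Env κ ι) : 0 ≤ dot (ek E keys) gR0_57 0 :=
  to_global E keys lk57 kl57 tr57 uR0_57 (blockG_nonneg _ _ _ (tri57 E) rowsR0_57 MR0_57 grR0_57 uR0_57 mvR0_57) 69 gR0_57 (by decide +kernel)

def rowsR0_58 : List (ℕ × List ℤ) := [(840, [3960898]),
  (7085469611662680, [1])]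

def MR0_58 : List (List ℤ) := [[20263988503442040]]

def uR0_58 : List ℤ := [7295035861239134400, -7295035861239134400, -7295035861239134400, 7295035861239134400, -14590071722478268800, -7295035861239134400, 29180143444956537600, 7295035861239134400, 7295035861239134400, -7295035861239134400, -7295035861239134400, -7295035861239134400]

def gR0_58 : List ℤ := [0, 0, 0, 0, 0, 0, 0, 0, 0, 7295035861239134400, -7295035861239134400, 0, 0, 0, -7295035861239134400, 0, 7295035861239134400, 0, 0, -14590071722478268800, 0, -7295035861239134400, 0, 0, 0, 0, 0, 0, 0, 0, 0, 0, 0, 0, 0, 0, 0, 0, 0, 0, 29180143444956537600, 0, 7295035861239134400, 7295035861239134400, 0, 0, -7295035861239134400, 0, -7295035861239134400, 0, 0, 0, 0, 0, 0, 0, 0, 0, 0, 0, 0, 0, -7295035861239134400]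

theorem grR0_58 : eqM (gramT rowsR0_58) MR0_58 = true := by
  decide +kernel

theorem mvR0_58 : eqZ (mval MR0_58 tab58) uR0_58 = true := by
  decide +kernel

theorem nnR0_58 {κ ι : Type*} [Fintype κ] [Fintype ι] [Inhabited κ] [Inhabited ι] (E : Env κ ι) : 0 ≤ dot (ek E keys) gR0_58 0 :=
  to_global E keys lk58 kl58 tr58 uR0_58 (blockG_nonneg _ _ _ (tri58 E) rowsR0_58 MR0_58 grR0_58 uR0_58 mvR0_58) 69 gR0_58 (by decide +kernel)

def rowsR0_59 : List (ℕ × List ℤ) := [(840, [2108078]),
  (2007033893046000, [1])]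

def MR0_59 : List (List ℤ) := [[5739987890476560]]

def uR0_59 : List ℤ := [6199186921714684800, -18597560765144054400, 6199186921714684800, -6199186921714684800, 0, -6199186921714684800, 0, -6199186921714684800, 6199186921714684800, -6199186921714684800, 18597560765144054400, 6199186921714684800]

def gR0_59 : List ℤ := [0, 0, 0, 0, 0, 0, 0, 0, 0, 6199186921714684800, -18597560765144054400, 0, 0, 0, 6199186921714684800, 0, -6199186921714684800, 0, 0, 0, 0, -6199186921714684800, 0, 0, 0, 0, 0, 0, 0, 0, 0, 0, 0, 0, 0, 0, 0, 0, 0, 0, 0, 0, -6199186921714684800, 6199186921714684800, 0, 0, -6199186921714684800, 0, 18597560765144054400, 0, 0, 0, 0, 0, 0, 0, 0, 0, 0, 0, 0, 0, 6199186921714684800]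

theorem grR0_59 : eqM (gramT rowsR0_59) MR0_59 = true := by
  decide +kernel

theorem mvR0_59 : eqZ (mval MR0_59 tab59) uR0_59 = true := by
  decide +kernel

theorem nnR0_59 {κ ι : Type*} [Fintype κ] [Fintype ι] [Inhabited κ] [Inhabited ι] (E : Env κ ι) : 0 ≤ dot (ek E keys) gR0_59 0 :=
  to_global E keys lk59 kl59 tr59 uR0_59 (blockG_nonneg _ _ _ (tri59 E) rowsR0_59 MR0_59 grR0_59 uR0_59 mvR0_59) 69 gR0_59 (by decide +kernel)

def rowsR0_60 : List (ℕ × List ℤ) := [(840, [82275]),
  (3057139733760, [1])]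

def MR0_60 : List (List ℤ) := [[8743247258760]]

def uR0_60 : List ℤ := [40288883368366080, -161155533473464320, 80577766736732160, 40288883368366080, -80577766736732160, 80577766736732160, -322311066946928640, 161155533473464320, 161155533473464320, 80577766736732160, -161155533473464320, 80577766736732160]

def gR0_60 : List ℤ := [0, 0, 0, 0, 0, 0, 0, 0, 0, 40288883368366080, -161155533473464320, 0, 0, 0, 80577766736732160, 0, 40288883368366080, 0, 0, -80577766736732160, 0, 80577766736732160, 0, 0, 0, 0, 0, 0, 0, 0, 0, 0, 0, 0, 0, 0, 0, 0, 0, 0, -322311066946928640, 0, 161155533473464320, 161155533473464320, 0, 0, 80577766736732160, 0, -161155533473464320, 0, 0, 0, 0, 0, 0, 0, 0, 0, 0, 0, 0, 0, 80577766736732160]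

theorem grR0_60 : eqM (gramT rowsR0_60) MR0_60 = true := by
  decide +kernel

theorem mvR0_60 : eqZ (mval MR0_60 tab60) uR0_60 = true := by
  decide +kernel

theorem nnR0_60 {κ ι : Type*} [Fintype κ] [Fintype ι] [Inhabited κ] [Inhabited ι] (E : Env κ ι) : 0 ≤ dot (ek E keys) gR0_60 0 :=
  to_global E keys lk60 kl60 tr60 uR0_60 (blockG_nonneg _ _ _ (tri60 E) rowsR0_60 MR0_60 grR0_60 uR0_60 mvR0_60) 69 gR0_60 (by decide +kernel)

def rowsR0_61 : List (ℕ × List ℤ) := [(840, [46766059]),
  (987741047130968760, [1])]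

def MR0_61 : List (List ℤ) := [[2824875037619812800]]

def uR0_61 : List ℤ := [2824875037619812800]

def gR0_61 : List ℤ := [0, 0, 0, 0, 0, 0, 0, 2824875037619812800]

theorem grR0_61 : eqM (gramT rowsR0_61) MR0_61 = true := by
  decide +kernel

theorem mvR0_61 : eqZ (mval MR0_61 tab61) uR0_61 = true := by
  decide +kernel

theorem nnR0_61 {κ ι : Type*} [Fintype κ] [Fintype ι] [Inhabited κ] [Inhabited ι] (E : Env κ ι) : 0 ≤ dot (ek E keys) gR0_61 0 :=
  to_global E keys lk61 kl61 tr61 uR0_61 (blockG_nonneg _ _ _ (tri61 E) rowsR0_61 MR0_61 grR0_61 uR0_61 mvR0_61) 69 gR0_61 (by decide +kernel)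

def rowsR0_62 : List (ℕ × List ℤ) := [(840, [39166833, 0]),
  (840, [0, 10941292]),
  (54065295547723320, [1, 0]),
  (54065258610574960, [0, 1])]

def MR0_62 : List (List ℤ) := [[1342659573637630080, 0],
  [154623229939156720]]

def uR0_62 : List ℤ := [618492919756626880, 2685319147275260160, 2685319147275260160, 0]

def gR0_62 : List ℤ := [618492919756626880, 0, 0, 2685319147275260160, 2685319147275260160, 0, 0, 0, 0, 0, 0, 0, 0, 0, 0, 0, 0, 0, 0, 0, 0, 0, 0, 0, 0, 0, 0, 0, 0, 0, 0, 0, 0, 0, 0, 0, 0, 0, 0, 0, 0, 0, 0, 0, 0, 0, 0, 0, 0, 0, 0, 0, 0, 0, 0, 0, 0, 0, 0, 0, 0]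

theorem grR0_62 : eqM (gramT rowsR0_62) MR0_62 = true := by
  decide +kernel

theorem mvR0_62 : eqZ (mval MR0_62 tab62) uR0_62 = true := by
  decide +kernel

theorem nnR0_62 {κ ι : Type*} [Fintype κ] [Fintype ι] [Inhabited κ] [Inhabited ι] (E : Env κ ι) : 0 ≤ dot (ek E keys) gR0_62 0 :=
  to_global E keys lk62 kl62 tr62 uR0_62 (blockG_nonneg _ _ _ (tri62 E) rowsR0_62 MR0_62 grR0_62 uR0_62 mvR0_62) 69 gR0_62 (by decide +kernel)

def rowsR0_63 : List (ℕ × List ℤ) := [(840, [39389382]),
  (700712198859995280, [1])]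

def MR0_63 : List (List ℤ) := [[2003991866907211440]]

def uR0_63 : List ℤ := [4007983733814422880, -4007983733814422880]

def gR0_63 : List ℤ := [0, 0, 0, 4007983733814422880, -4007983733814422880]

theorem grR0_63 : eqM (gramT rowsR0_63) MR0_63 = true := by
  decide +kernel

theorem mvR0_63 : eqZ (mval MR0_63 tab63) uR0_63 = true := by
  decide +kernel

theorem nnR0_63 {κ ι : Type*} [Fintype κ] [Fintype ι] [Inhabited κ] [Inhabited ι] (E : Env κ ι) : 0 ≤ dot (ek E keys) gR0_63 0 :=
  to_global E keys lk63 kl63 tr63 uR0_63 (blockG_nonneg _ _ _ (tri63 E) rowsR0_63 MR0_63 grR0_63 uR0_63 mvR0_63) 69 gR0_63 (by decide +kernel)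

def rowsR0_64 : List (ℕ × List ℤ) := [(840, [1920016]),
  (1664911136930160, [1])]

def MR0_64 : List (List ℤ) := [[4761538746745200]]

def uR0_64 : List ℤ := [457107719687539200, 1828430878750156800, 457107719687539200]

def gR0_64 : List ℤ := [0, 457107719687539200, 0, 1828430878750156800, 0, 0, 0, 457107719687539200]

theorem grR0_64 : eqM (gramT rowsR0_64) MR0_64 = true := by
  decide +kernel

theorem mvR0_64 : eqZ (mval MR0_64 tab64) uR0_64 = true := by
  decide +kernel

theorem nnR0_64 {κ ι : Type*} [Fintype κ] [Fintype ι] [Inhabited κ] [Inhabited ι] (E : Env κ ι) : 0 ≤ dot (ek E keys) gR0_64 0 :=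
  to_global E keys lk64 kl64 tr64 uR0_64 (blockG_nonneg _ _ _ (tri64 E) rowsR0_64 MR0_64 grR0_64 uR0_64 mvR0_64) 69 gR0_64 (by decide +kernel)

def rowsR0_65 : List (ℕ × List ℤ) := [(840, [11694516]),
  (61765478907351240, [1])]

def MR0_65 : List (List ℤ) := [[176645310665726280]]

def uR0_65 : List ℤ := [4239487455977430720, 0, -4239487455977430720]

def gR0_65 : List ℤ := [0, 4239487455977430720, 0, 0, 0, 0, 0, -4239487455977430720]

theorem grR0_65 : eqM (gramT rowsR0_65) MR0_65 = true := by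
  decide +kernel

theorem mvR0_65 : eqZ (mval MR0_65 tab65) uR0_65 = true := by
  decide +kernel

theorem nnR0_65 {κ ι : Type*} [Fintype κ] [Fintype ι] [Inhabited κ] [Inhabited ι] (E : Env κ ι) : 0 ≤ dot (ek E keys) gR0_65 0 :=
  to_global E keys lk65 kl65 tr65 uR0_65 (blockG_nonneg _ _ _ (tri65 E) rowsR0_65 MR0_65 grR0_65 uR0_65 mvR0_65) 69 gR0_65 (by decide +kernel)

def rowsR0_66 : List (ℕ × List ℤ) := [(840, [7077804]),
  (22624470398412960, [1])]

def MR0_66 : List (List ℤ) := [[64704530346842400]]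

def uR0_66 : List ℤ := [3105817456648435200, -6211634913296870400, 3105817456648435200]

def gR0_66 : List ℤ := [0, 3105817456648435200, 0, -6211634913296870400, 0, 0, 0, 3105817456648435200]

theorem grR0_66 : eqM (gramT rowsR0_66) MR0_66 = true := by
  decide +kernel

theorem mvR0_66 : eqZ (mval MR0_66 tab66) uR0_66 = true := by
  decide +kernel

theorem nnR0_66 {κ ι : Type*} [Fintype κ] [Fintype ι] [Inhabited κ] [Inhabited ι] (E : Env κ ι) : 0 ≤ dot (ek E keys) gR0_66 0 :=
  to_global E keys lk66 kl66 tr66 uR0_66 (blockG_nonneg _ _ _ (tri66 E) rowsR0_66 MR0_66 grR0_66 uR0_66 mvR0_66) 69 gR0_66 (by decide +kernel)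

def rowsR0_67 : List (ℕ × List ℤ) := [(840, [41208212]),
  (766918307499888320, [1])]

def MR0_67 : List (List ℤ) := [[2193336365938921280]]

def uR0_67 : List ℤ := [2193336365938921280]

def gR0_67 : List ℤ := [0, 0, 0, 0, 0, 0, 0, 0, 2193336365938921280]

theorem grR0_67 : eqM (gramT rowsR0_67) MR0_67 = true := by
  decide +kernel

theorem mvR0_67 : eqZ (mval MR0_67 tab67) uR0_67 = true := by
  decide +kernel

theorem nnR0_67 {κ ι : Type*} [Fintype κ] [Fintype ι] [Inhabited κ] [Inhabited ι] (E : Env κ ι) : 0 ≤ dot (ek E keys) gR0_67 0 :=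
  to_global E keys lk67 kl67 tr67 uR0_67 (blockG_nonneg _ _ _ (tri67 E) rowsR0_67 MR0_67 grR0_67 uR0_67 mvR0_67) 69 gR0_67 (by decide +kernel)

def rowsR0_68 : List (ℕ × List ℤ) := [(840, [24320701]),
  (267136506394318680, [1])]

def MR0_68 : List (List ℤ) := [[763993563984695520]]

def uR0_68 : List ℤ := [3055974255938782080]

def gR0_68 : List ℤ := [0, 0, 0, 0, 0, 3055974255938782080]

theorem grR0_68 : eqM (gramT rowsR0_68) MR0_68 = true := by
  decide +kernel

theorem mvR0_68 : eqZ (mval MR0_68 tab68) uR0_68 = true := by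
  decide +kernel

theorem nnR0_68 {κ ι : Type*} [Fintype κ] [Fintype ι] [Inhabited κ] [Inhabited ι] (E : Env κ ι) : 0 ≤ dot (ek E keys) gR0_68 0 :=
  to_global E keys lk68 kl68 tr68 uR0_68 (blockG_nonneg _ _ _ (tri68 E) rowsR0_68 MR0_68 grR0_68 uR0_68 mvR0_68) 69 gR0_68 (by decide +kernel)

def rowsR0_69 : List (ℕ × List ℤ) := [(840, [2934913]),
  (3890199579155400, [1])]

def MR0_69 : List (List ℤ) := [[11125719605913360]]

def uR0_69 : List ℤ := [2136138164335365120, 4272276328670730240]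

def gR0_69 : List ℤ := [0, 0, 2136138164335365120, 0, 0, 0, 4272276328670730240]

theorem grR0_69 : eqM (gramT rowsR0_69) MR0_69 = true := by
  decide +kernel

theorem mvR0_69 : eqZ (mval MR0_69 tab69) uR0_69 = true := by
  decide +kernel

theorem nnR0_69 {κ ι : Type*} [Fintype κ] [Fintype ι] [Inhabited κ] [Inhabited ι] (E : Env κ ι) : 0 ≤ dot (ek E keys) gR0_69 0 :=
  to_global E keys lk69 kl69 tr69 uR0_69 (blockG_nonneg _ _ _ (tri69 E) rowsR0_69 MR0_69 grR0_69 uR0_69 mvR0_69) 69 gR0_69 (by decide +kernel)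

def rowsR0_70 : List (ℕ × List ℤ) := [(840, [4978047]),
  (11191783813632240, [1])]

def MR0_70 : List (List ℤ) := [[32007783438367800]]

def uR0_70 : List ℤ := [3072747210083308800, -3072747210083308800]

def gR0_70 : List ℤ := [0, 0, 3072747210083308800, 0, 0, 0, -3072747210083308800]

theorem grR0_70 : eqM (gramT rowsR0_70) MR0_70 = true := by
  decide +kernel

theorem mvR0_70 : eqZ (mval MR0_70 tab70) uR0_70 = true := by
  decide +kernel

theorem nnR0_70 {κ ι : Type*} [Fintype κ] [Fintype ι] [Inhabited κ] [Inhabited ι] (E : Env κ ι) : 0 ≤ dot (ek E keys) gR0_70 0 :=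
  to_global E keys lk70 kl70 tr70 uR0_70 (blockG_nonneg _ _ _ (tri70 E) rowsR0_70 MR0_70 grR0_70 uR0_70 mvR0_70) 69 gR0_70 (by decide +kernel)

def rowsR0_71 : List (ℕ × List ℤ) := [(840, [22779455]),
  (234351491201075640, [1])]

def MR0_71 : List (List ℤ) := [[670230490082576640]]

def uR0_71 : List ℤ := [2680921960330306560]

def gR0_71 : List ℤ := [0, 0, 2680921960330306560]

theorem grR0_71 : eqM (gramT rowsR0_71) MR0_71 = true := by
  decide +kernel

theorem mvR0_71 : eqZ (mval MR0_71 tab71) uR0_71 = true := by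
  decide +kernel

theorem nnR0_71 {κ ι : Type*} [Fintype κ] [Fintype ι] [Inhabited κ] [Inhabited ι] (E : Env κ ι) : 0 ≤ dot (ek E keys) gR0_71 0 :=
  to_global E keys lk71 kl71 tr71 uR0_71 (blockG_nonneg _ _ _ (tri71 E) rowsR0_71 MR0_71 grR0_71 uR0_71 mvR0_71) 69 gR0_71 (by decide +kernel)

def rowsR0_72 : List (ℕ × List ℤ) := [(840, [16069079]),
  (116617394721443280, [1])]

def MR0_72 : List (List ℤ) := [[333518246644365720]]

def uR0_72 : List ℤ := [2668145973154925760, 2668145973154925760]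

def gR0_72 : List ℤ := [0, 0, 0, 0, 0, 2668145973154925760, 2668145973154925760]

theorem grR0_72 : eqM (gramT rowsR0_72) MR0_72 = true := by
  decide +kernel

theorem mvR0_72 : eqZ (mval MR0_72 tab72) uR0_72 = true := by
  decide +kernel

theorem nnR0_72 {κ ι : Type*} [Fintype κ] [Fintype ι] [Inhabited κ] [Inhabited ι] (E : Env κ ι) : 0 ≤ dot (ek E keys) gR0_72 0 :=
  to_global E keys lk72 kl72 tr72 uR0_72 (blockG_nonneg _ _ _ (tri72 E) rowsR0_72 MR0_72 grR0_72 uR0_72 mvR0_72) 69 gR0_72 (by decide +kernel)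

def rowsR0_73 : List (ℕ × List ℤ) := [(840, [18602369]),
  (156285201330384000, [1])]

def MR0_73 : List (List ℤ) := [[446965632556599240]]

def uR0_73 : List ℤ := [3575725060452793920, -3575725060452793920]

def gR0_73 : List ℤ := [0, 0, 0, 0, 0, 3575725060452793920, -3575725060452793920]

theorem grR0_73 : eqM (gramT rowsR0_73) MR0_73 = true := by
  decide +kernel

theorem mvR0_73 : eqZ (mval MR0_73 tab73) uR0_73 = true := by
  decide +kernel

theorem nnR0_73 {κ ι : Type*} [Fintype κ] [Fintype ι] [Inhabited κ] [Inhabited ι] (E : Env κ ι) : 0 ≤ dot (ek E keys) gR0_73 0 :=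
  to_global E keys lk73 kl73 tr73 uR0_73 (blockG_nonneg _ _ _ (tri73 E) rowsR0_73 MR0_73 grR0_73 uR0_73 mvR0_73) 69 gR0_73 (by decide +kernel)

def rowsR0_74 : List (ℕ × List ℤ) := [(840, [971131]),
  (425928345612840, [1])]

def MR0_74 : List (List ℤ) := [[1218128497708080]]

def uR0_74 : List ℤ := [467761343119902720, 1871045372479610880, 467761343119902720]

def gR0_74 : List ℤ := [0, 0, 467761343119902720, 0, 0, 1871045372479610880, 0, 0, 467761343119902720]

theorem grR0_74 : eqM (gramT rowsR0_74) MR0_74 = true := by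
  decide +kernel

theorem mvR0_74 : eqZ (mval MR0_74 tab74) uR0_74 = true := by
  decide +kernel

theorem nnR0_74 {κ ι : Type*} [Fintype κ] [Fintype ι] [Inhabited κ] [Inhabited ι] (E : Env κ ι) : 0 ≤ dot (ek E keys) gR0_74 0 :=
  to_global E keys lk74 kl74 tr74 uR0_74 (blockG_nonneg _ _ _ (tri74 E) rowsR0_74 MR0_74 grR0_74 uR0_74 mvR0_74) 69 gR0_74 (by decide +kernel)

def rowsR0_75 : List (ℕ × List ℤ) := [(840, [9861987]),
  (43924842825055080, [1])]

def MR0_75 : List (List ℤ) := [[125622224399117040]]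

def uR0_75 : List ℤ := [-12059733542315235840, 0, 12059733542315235840]

def gR0_75 : List ℤ := [0, 0, -12059733542315235840, 0, 0, 0, 0, 0, 12059733542315235840]

theorem grR0_75 : eqM (gramT rowsR0_75) MR0_75 = true := by
  decide +kernel

theorem mvR0_75 : eqZ (mval MR0_75 tab75) uR0_75 = true := by
  decide +kernel

theorem nnR0_75 {κ ι : Type*} [Fintype κ] [Fintype ι] [Inhabited κ] [Inhabited ι] (E : Env κ ι) : 0 ≤ dot (ek E keys) gR0_75 0 :=
  to_global E keys lk75 kl75 tr75 uR0_75 (blockG_nonneg _ _ _ (tri75 E) rowsR0_75 MR0_75 grR0_75 uR0_75 mvR0_75) 69 gR0_75 (by decide +kernel)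

def rowsR0_76 : List (ℕ × List ℤ) := [(840, [4807416]),
  (10437698817315840, [1])]

def MR0_76 : List (List ℤ) := [[29851147638842880]]

def uR0_76 : List ℤ := [5731420346657832960, -11462840693315665920, 5731420346657832960]

def gR0_76 : List ℤ := [0, 0, 5731420346657832960, 0, 0, -11462840693315665920, 0, 0, 5731420346657832960]

theorem grR0_76 : eqM (gramT rowsR0_76) MR0_76 = true := by
  decide +kernel

theorem mvR0_76 : eqZ (mval MR0_76 tab76) uR0_76 = true := by
  decide +kernel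

theorem nnR0_76 {κ ι : Type*} [Fintype κ] [Fintype ι] [Inhabited κ] [Inhabited ι] (E : Env κ ι) : 0 ≤ dot (ek E keys) gR0_76 0 :=
  to_global E keys lk76 kl76 tr76 uR0_76 (blockG_nonneg _ _ _ (tri76 E) rowsR0_76 MR0_76 grR0_76 uR0_76 mvR0_76) 69 gR0_76 (by decide +kernel)

end YMBR
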