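import Pool.Agent.YM.BR.G1

set_option linter.unusedVariables false
set_option maxRecDepth 100000

open YMEng

namespace YMBR

def rowsR1_11 : List (ℕ × List ℤ) := [(2100, [0, 356314]),
  (143346630338100, [0, 1])]

def MR1_11 : List (List ℤ) := [[0, 0],
  [409961930189700]]

def uR1_11 : List ℤ := [0, 0, 0, 944552287157068800, -3778209148628275200, 0, 0, 0, 0, 0, 0, 0, 0, 0, 0, 0, 0, 1889104574314137600, -3778209148628275200, 1889104574314137600, 3778209148628275200, -944552287157068800]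

def gR1_11 : List ℤ := [0, 0, 0, 0, 0, 0, 0, 0, 0, 0, 0, 0, 0, 0, 0, 944552287157068800, 0, -3778209148628275200, 0, 0, 0, 0, 0, 0, 0, 0, 0, 0, 0, 0, 0, 0, 0, 0, 0, 0, 0, 0, 0, 0, 0, 0, 0, 0, 0, 0, 0, 0, 0, 0, 0, 0, 0, 1889104574314137600, -3778209148628275200, 1889104574314137600, 0, 0, 3778209148628275200, 0, 0, 0, 0, 0, 0, 0, 0, -944552287157068800]

theorem grR1_11 : eqM (gramT rowsR1_11) MR1_11 = true := by
  decide +kernel

theorem mvR1_11 : eqZ (mval MR1_11 tab11) uR1_11 = true := by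
  decide +kernel

theorem nnR1_11 {κ ι : Type*} [Fintype κ] [Fintype ι] [Inhabited κ] [Inhabited ι] (E : Env κ ι) : 0 ≤ dot (ek E keys) gR1_11 0 :=
  to_global E keys lk11 kl11 tr11 uR1_11 (blockG_nonneg _ _ _ (tri11 E) rowsR1_11 MR1_11 grR1_11 uR1_11 mvR1_11) 69 gR1_11 (by decide +kernel)

def rowsR1_12 : List (ℕ × List ℤ) := [(2100, [7362090, -9151747]),
  (2100, [0, 2625969]),
  (2971509989875700, [1, 0]),
  (2971538153531500, [0, 1])]

def MR1_12 : List (List ℤ) := [[116792285242885700, -282979137299166000],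
  [193336929469568500]]

def uR1_12 : List ℤ := [2320043153634822000, -2320043153634822000, -6791499295179984000, 6791499295179984000, 2803014845829256800, 2320043153634822000, -2320043153634822000, -2803014845829256800]

def gR1_12 : List ℤ := [0, 0, 0, 0, 0, 0, 0, 0, 0, 0, 0, 0, 0, 0, 0, 0, 0, 0, 0, 0, 0, 0, 2320043153634822000, 0, -2320043153634822000, -6791499295179984000, 6791499295179984000, 0, 0, 0, 2803014845829256800, 0, 0, 0, 0, 0, 0, 0, 2320043153634822000, -2320043153634822000, 0, 0, 0, 0, 0, -2803014845829256800]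

theorem grR1_12 : eqM (gramT rowsR1_12) MR1_12 = true := by
  decide +kernel

theorem mvR1_12 : eqZ (mval MR1_12 tab12) uR1_12 = true := by
  decide +kernel

theorem nnR1_12 {κ ι : Type*} [Fintype κ] [Fintype ι] [Inhabited κ] [Inhabited ι] (E : Env κ ι) : 0 ≤ dot (ek E keys) gR1_12 0 :=
  to_global E keys lk12 kl12 tr12 uR1_12 (blockG_nonneg _ _ _ (tri12 E) rowsR1_12 MR1_12 grR1_12 uR1_12 mvR1_12) 69 gR1_12 (by decide +kernel)

def rowsR1_13 : List (ℕ × List ℤ) := [(2100, [19464981]),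
  (427787145083480000, [1])]

def MR1_13 : List (List ℤ) := [[1223446664277238100]]

def uR1_13 : List ℤ := [-4893786657108952400, -4893786657108952400, 4893786657108952400, 4893786657108952400]

def gR1_13 : List ℤ := [0, 0, 0, 0, 0, 0, 0, 0, 0, 0, 0, 0, 0, 0, 0, 0, 0, 0, 0, 0, 0, 0, -4893786657108952400, 0, -4893786657108952400, 0, 0, 0, 0, 0, 0, 0, 0, 0, 0, 0, 0, 0, 4893786657108952400, 4893786657108952400]

theorem grR1_13 : eqM (gramT rowsR1_13) MR1_13 = true := by
  decide +kernel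

theorem mvR1_13 : eqZ (mval MR1_13 tab13) uR1_13 = true := by
  decide +kernel

theorem nnR1_13 {κ ι : Type*} [Fintype κ] [Fintype ι] [Inhabited κ] [Inhabited ι] (E : Env κ ι) : 0 ≤ dot (ek E keys) gR1_13 0 :=
  to_global E keys lk13 kl13 tr13 uR1_13 (blockG_nonneg _ _ _ (tri13 E) rowsR1_13 MR1_13 grR1_13 uR1_13 mvR1_13) 69 gR1_13 (by decide +kernel)

def rowsR1_14 : List (ℕ × List ℤ) := [(2100, [2901639]),
  (9506225593653600, [1])]

def MR1_14 : List (List ℤ) := [[27187194254927700]]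

def uR1_14 : List ℤ := [-652492662118264800, 1304985324236529600, 652492662118264800, -1304985324236529600]

def gR1_14 : List ℤ := [0, 0, 0, 0, 0, 0, 0, 0, 0, 0, 0, 0, 0, 0, 0, 0, 0, 0, 0, 0, 0, 0, -652492662118264800, 0, 1304985324236529600, 0, 0, 0, 0, 0, 0, 0, 0, 0, 0, 0, 0, 0, 652492662118264800, -1304985324236529600]

theorem grR1_14 : eqM (gramT rowsR1_14) MR1_14 = true := by
  decide +kernel

theorem mvR1_14 : eqZ (mval MR1_14 tab14) uR1_14 = true := by
  decide +kernel

theorem nnR1_14 {κ ι : Type*} [Fintype κ] [Fintype ι] [Inhabited κ] [Inhabited ι] (E : Env κ ι) : 0 ≤ dot (ek E keys) gR1_14 0 :=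
  to_global E keys lk14 kl14 tr14 uR1_14 (blockG_nonneg _ _ _ (tri14 E) rowsR1_14 MR1_14 grR1_14 uR1_14 mvR1_14) 69 gR1_14 (by decide +kernel)

def rowsR1_15 : List (ℕ × List ℤ) := [(2100, [420585]),
  (199723173148800, [1])]

def MR1_15 : List (List ℤ) := [[571195831821300]]

def uR1_15 : List ℤ := [164504399564534400, 164504399564534400, -329008799129068800, -164504399564534400, -164504399564534400, -329008799129068800, -329008799129068800, 658017598258137600, 0, 329008799129068800]

def gR1_15 : List ℤ := [0, 0, 0, 0, 0, 0, 0, 0, 0, 0, 0, 0, 164504399564534400, 164504399564534400, 0, 0, 0, 0, 0, 0, 0, 0, 0, 0, -329008799129068800, -164504399564534400, -164504399564534400, 0, 0, 0, 0, -329008799129068800, 0, 0, 0, 0, 0, -329008799129068800, 658017598258137600, 0, 0, 0, 0, 0, 0, 0, 0, 0, 0, 0, 0, 0, 0, 0, 0, 0, 0, 0, 0, 0, 0, 0, 0, 0, 329008799129068800]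

theorem grR1_15 : eqM (gramT rowsR1_15) MR1_15 = true := by
  decide +kernel

theorem mvR1_15 : eqZ (mval MR1_15 tab15) uR1_15 = true := by
  decide +kernel

theorem nnR1_15 {κ ι : Type*} [Fintype κ] [Fintype ι] [Inhabited κ] [Inhabited ι] (E : Env κ ι) : 0 ≤ dot (ek E keys) gR1_15 0 :=
  to_global E keys lk15 kl15 tr15 uR1_15 (blockG_nonneg _ _ _ (tri15 E) rowsR1_15 MR1_15 grR1_15 uR1_15 mvR1_15) 69 gR1_15 (by decide +kernel)

def rowsR1_16 : List (ℕ × List ℤ) := [(2100, [1250583, -584289]),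
  (2100, [0, 314766]),
  (90981055960200, [1, 0]),
  (90981055960200, [0, 1])]

def MR1_16 : List (List ℤ) := [[3375292519727100, -3068947940045400],
  [1015970723541900]]

def uR1_16 : List ℤ := [331281449454942000, 154760673385760400, 486075271926963600, -154760673385760400, -331281449454942000, 486042122840702400, -309554495857782000, 176520776069181600, -353041552138363200, -486042122840702400]

def gR1_16 : List ℤ := [0, 0, 0, 0, 0, 0, 0, 0, 0, 0, 0, 0, 331281449454942000, 154760673385760400, 0, 0, 0, 0, 0, 0, 0, 0, 0, 0, 486075271926963600, -154760673385760400, -331281449454942000, 0, 0, 0, 0, 486042122840702400, 0, 0, 0, 0, 0, -309554495857782000, 176520776069181600, -353041552138363200, 0, 0, 0, 0, 0, 0, 0, 0, 0, 0, 0, 0, 0, 0, 0, 0, 0, 0, 0, 0, 0, 0, 0, 0, -486042122840702400]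

theorem grR1_16 : eqM (gramT rowsR1_16) MR1_16 = true := by
  decide +kernel

theorem mvR1_16 : eqZ (mval MR1_16 tab16) uR1_16 = true := by
  decide +kernel

theorem nnR1_16 {κ ι : Type*} [Fintype κ] [Fintype ι] [Inhabited κ] [Inhabited ι] (E : Env κ ι) : 0 ≤ dot (ek E keys) gR1_16 0 :=
  to_global E keys lk16 kl16 tr16 uR1_16 (blockG_nonneg _ _ _ (tri16 E) rowsR1_16 MR1_16 grR1_16 uR1_16 mvR1_16) 69 gR1_16 (by decide +kernel)

def rowsR1_17 : List (ℕ × List ℤ) := [(2100, [6496479]),
  (47651596619797800, [1])]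

def MR1_17 : List (List ℤ) := [[136280499354423900]]

def uR1_17 : List ℤ := [9812195953518520800, -9812195953518520800, -19624391907037041600, -19624391907037041600, 19624391907037041600, 0, -19624391907037041600, 19624391907037041600, 19624391907037041600, 0]

def gR1_17 : List ℤ := [0, 0, 0, 0, 0, 0, 0, 0, 0, 0, 0, 0, 9812195953518520800, -9812195953518520800, 0, 0, 0, 0, 0, 0, 0, 0, 0, 0, -19624391907037041600, -19624391907037041600, 19624391907037041600, 0, 0, 0, 0, 0, 0, 0, 0, 0, 0, -19624391907037041600, 19624391907037041600, 19624391907037041600, 0, 0, 0, 0, 0, 0, 0, 0, 0, 0, 0, 0, 0, 0, 0, 0, 0, 0, 0, 0, 0, 0, 0, 0, 0]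

theorem grR1_17 : eqM (gramT rowsR1_17) MR1_17 = true := by
  decide +kernel

theorem mvR1_17 : eqZ (mval MR1_17 tab17) uR1_17 = true := by
  decide +kernel

theorem nnR1_17 {κ ι : Type*} [Fintype κ] [Fintype ι] [Inhabited κ] [Inhabited ι] (E : Env κ ι) : 0 ≤ dot (ek E keys) gR1_17 0 :=
  to_global E keys lk17 kl17 tr17 uR1_17 (blockG_nonneg _ _ _ (tri17 E) rowsR1_17 MR1_17 grR1_17 uR1_17 mvR1_17) 69 gR1_17 (by decide +kernel)

def rowsR1_18 : List (ℕ × List ℤ) := [(2100, [1682699]),
  (3196936937201700, [1])]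

def MR1_18 : List (List ℤ) := [[9143036378863800]]

def uR1_18 : List ℤ := [1316597238556387200, 1316597238556387200, 1316597238556387200, -1316597238556387200, -1316597238556387200, -2633194477112774400, 1316597238556387200, -2633194477112774400, 0, 2633194477112774400]

def gR1_18 : List ℤ := [0, 0, 0, 0, 0, 0, 0, 0, 0, 0, 0, 0, 1316597238556387200, 1316597238556387200, 0, 0, 0, 0, 0, 0, 0, 0, 0, 0, 1316597238556387200, -1316597238556387200, -1316597238556387200, 0, 0, 0, 0, -2633194477112774400, 0, 0, 0, 0, 0, 1316597238556387200, -2633194477112774400, 0, 0, 0, 0, 0, 0, 0, 0, 0, 0, 0, 0, 0, 0, 0, 0, 0, 0, 0, 0, 0, 0, 0, 0, 0, 2633194477112774400]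

theorem grR1_18 : eqM (gramT rowsR1_18) MR1_18 = true := by
  decide +kernel

theorem mvR1_18 : eqZ (mval MR1_18 tab18) uR1_18 = true := by
  decide +kernel

theorem nnR1_18 {κ ι : Type*} [Fintype κ] [Fintype ι] [Inhabited κ] [Inhabited ι] (E : Env κ ι) : 0 ≤ dot (ek E keys) gR1_18 0 :=
  to_global E keys lk18 kl18 tr18 uR1_18 (blockG_nonneg _ _ _ (tri18 E) rowsR1_18 MR1_18 grR1_18 uR1_18 mvR1_18) 69 gR1_18 (by decide +kernel)

def rowsR1_19 : List (ℕ × List ℤ) := [(2100, [2649525]),
  (7926058620572400, [1])]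

def MR1_19 : List (List ℤ) := [[22668022344384900]]

def uR1_19 : List ℤ := [2901506860081267200, -2901506860081267200, -2901506860081267200, 2901506860081267200, -2901506860081267200, -2901506860081267200, -5803013720162534400, 11606027440325068800]

def gR1_19 : List ℤ := [0, 0, 0, 0, 0, 0, 0, 0, 0, 0, 0, 0, 2901506860081267200, -2901506860081267200, 0, 0, 0, 0, 0, 0, 0, 0, 0, 0, -2901506860081267200, 2901506860081267200, -2901506860081267200, 0, 0, 0, 0, 0, 0, 0, 0, 0, 0, -2901506860081267200, -5803013720162534400, 11606027440325068800]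

theorem grR1_19 : eqM (gramT rowsR1_19) MR1_19 = true := by
  decide +kernel

theorem mvR1_19 : eqZ (mval MR1_19 tab19) uR1_19 = true := by
  decide +kernel

theorem nnR1_19 {κ ι : Type*} [Fintype κ] [Fintype ι] [Inhabited κ] [Inhabited ι] (E : Env κ ι) : 0 ≤ dot (ek E keys) gR1_19 0 :=
  to_global E keys lk19 kl19 tr19 uR1_19 (blockG_nonneg _ _ _ (tri19 E) rowsR1_19 MR1_19 grR1_19 uR1_19 mvR1_19) 69 gR1_19 (by decide +kernel)

def rowsR1_20 : List (ℕ × List ℤ) := [(2100, [760345]),
  (652743847398300, [1])]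

def MR1_20 : List (List ℤ) := [[1866805337350800]]

def uR1_20 : List ℤ := [358426624771353600, -358426624771353600, 716853249542707200, -716853249542707200, 716853249542707200, 716853249542707200, -716853249542707200, -716853249542707200]

def gR1_20 : List ℤ := [0, 0, 0, 0, 0, 0, 0, 0, 0, 0, 0, 0, 358426624771353600, -358426624771353600, 0, 0, 0, 0, 0, 0, 0, 0, 0, 0, 716853249542707200, -716853249542707200, 716853249542707200, 0, 0, 0, 0, 0, 0, 0, 0, 0, 0, 716853249542707200, -716853249542707200, -716853249542707200]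

theorem grR1_20 : eqM (gramT rowsR1_20) MR1_20 = true := by
  decide +kernel

theorem mvR1_20 : eqZ (mval MR1_20 tab20) uR1_20 = true := by
  decide +kernel

theorem nnR1_20 {κ ι : Type*} [Fintype κ] [Fintype ι] [Inhabited κ] [Inhabited ι] (E : Env κ ι) : 0 ≤ dot (ek E keys) gR1_20 0 :=
  to_global E keys lk20 kl20 tr20 uR1_20 (blockG_nonneg _ _ _ (tri20 E) rowsR1_20 MR1_20 grR1_20 uR1_20 mvR1_20) 69 gR1_20 (by decide +kernel)

def rowsR1_21 : List (ℕ × List ℤ) := [(2100, [26093]),
  (768736533600, [1])]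

def MR1_21 : List (List ℤ) := [[2198510296500]]

def uR1_21 : List ℤ := [151961031694080000, -101307354462720000, -151961031694080000, 25326838615680000, 0, 101307354462720000, 0, -25326838615680000]

def gR1_21 : List ℤ := [0, 0, 0, 0, 0, 0, 0, 0, 0, 0, 0, 0, 151961031694080000, 0, 0, 0, 0, 0, 0, 0, 0, 0, -101307354462720000, 0, 0, -151961031694080000, 0, 25326838615680000, 0, 0, 0, 0, 0, 0, 0, 0, 0, 101307354462720000, 0, 0, 0, 0, 0, 0, 0, -25326838615680000]

theorem grR1_21 : eqM (gramT rowsR1_21) MR1_21 = true := by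
  decide +kernel

theorem mvR1_21 : eqZ (mval MR1_21 tab21) uR1_21 = true := by
  decide +kernel

theorem nnR1_21 {κ ι : Type*} [Fintype κ] [Fintype ι] [Inhabited κ] [Inhabited ι] (E : Env κ ι) : 0 ≤ dot (ek E keys) gR1_21 0 :=
  to_global E keys lk21 kl21 tr21 uR1_21 (blockG_nonneg _ _ _ (tri21 E) rowsR1_21 MR1_21 grR1_21 uR1_21 mvR1_21) 69 gR1_21 (by decide +kernel)

def rowsR1_22 : List (ℕ × List ℤ) := [(2100, [63816]),
  (4598142939600, [1])]

def MR1_22 : List (List ℤ) := [[13150354837200]]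

def uR1_22 : List ℤ := [121193670179635200, 242387340359270400, -121193670179635200, 60596835089817600, 0, -242387340359270400, 0, -60596835089817600]

def gR1_22 : List ℤ := [0, 0, 0, 0, 0, 0, 0, 0, 0, 0, 0, 0, 121193670179635200, 0, 0, 0, 0, 0, 0, 0, 0, 0, 242387340359270400, 0, 0, -121193670179635200, 0, 60596835089817600, 0, 0, 0, 0, 0, 0, 0, 0, 0, -242387340359270400, 0, 0, 0, 0, 0, 0, 0, -60596835089817600]

theorem grR1_22 : eqM (gramT rowsR1_22) MR1_22 = true := by
  decide +kernel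

theorem mvR1_22 : eqZ (mval MR1_22 tab22) uR1_22 = true := by
  decide +kernel

theorem nnR1_22 {κ ι : Type*} [Fintype κ] [Fintype ι] [Inhabited κ] [Inhabited ι] (E : Env κ ι) : 0 ≤ dot (ek E keys) gR1_22 0 :=
  to_global E keys lk22 kl22 tr22 uR1_22 (blockG_nonneg _ _ _ (tri22 E) rowsR1_22 MR1_22 grR1_22 uR1_22 mvR1_22) 69 gR1_22 (by decide +kernel)

end YMBR
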