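import Pool.Agent.YM.BR.G2

set_option linter.unusedVariables false
set_option maxRecDepth 100000

open YMEng

namespace YMBR

def rowsR1_23 : List (ℕ × List ℤ) := [(2100, [116283]),
  (15267004141200, [1])]

def MR1_23 : List (List ℤ) := [[43662649928100]]

def uR1_23 : List ℤ := [0, 905388708909081600, 0, 452694354454540800, -1358083063363622400, 1810777417818163200, -2716166126727244800, 905388708909081600]

def gR1_23 : List ℤ := [0, 0, 0, 0, 0, 0, 0, 0, 0, 0, 0, 0, 0, 0, 0, 0, 0, 0, 0, 0, 0, 0, 905388708909081600, 0, 0, 0, 0, 452694354454540800, 0, 0, -1358083063363622400, 0, 0, 0, 0, 0, 0, 1810777417818163200, -2716166126727244800, 0, 0, 0, 0, 0, 0, 905388708909081600]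

theorem grR1_23 : eqM (gramT rowsR1_23) MR1_23 = true := by
  decide +kernel

theorem mvR1_23 : eqZ (mval MR1_23 tab23) uR1_23 = true := by
  decide +kernel

theorem nnR1_23 {κ ι : Type*} [Fintype κ] [Fintype ι] [Inhabited κ] [Inhabited ι] (E : Env κ ι) : 0 ≤ dot (ek E keys) gR1_23 0 :=
  to_global E keys lk23 kl23 tr23 uR1_23 (blockG_nonneg _ _ _ (tri23 E) rowsR1_23 MR1_23 grR1_23 uR1_23 mvR1_23) 69 gR1_23 (by decide +kernel)

def rowsR1_24 : List (ℕ × List ℤ) := [(2100, [54596]),
  (3365410822200, [1])]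

def MR1_24 : List (List ℤ) := [[9624929575800]]

def uR1_24 : List ℤ := [0, -1197495238102732800, 0, 299373809525683200, -898121428577049600, -2394990476205465600, 3592485714308198400, 598747619051366400]

def gR1_24 : List ℤ := [0, 0, 0, 0, 0, 0, 0, 0, 0, 0, 0, 0, 0, 0, 0, 0, 0, 0, 0, 0, 0, 0, -1197495238102732800, 0, 0, 0, 0, 299373809525683200, 0, 0, -898121428577049600, 0, 0, 0, 0, 0, 0, -2394990476205465600, 3592485714308198400, 0, 0, 0, 0, 0, 0, 598747619051366400]

theorem grR1_24 : eqM (gramT rowsR1_24) MR1_24 = true := by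
  decide +kernel

theorem mvR1_24 : eqZ (mval MR1_24 tab24) uR1_24 = true := by
  decide +kernel

theorem nnR1_24 {κ ι : Type*} [Fintype κ] [Fintype ι] [Inhabited κ] [Inhabited ι] (E : Env κ ι) : 0 ≤ dot (ek E keys) gR1_24 0 :=
  to_global E keys lk24 kl24 tr24 uR1_24 (blockG_nonneg _ _ _ (tri24 E) rowsR1_24 MR1_24 grR1_24 uR1_24 mvR1_24) 69 gR1_24 (by decide +kernel)

end YMBR
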