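import Pool.Agent.YM.BR.G3

set_option linter.unusedVariables false
set_option maxRecDepth 100000

open YMEng

namespace YMBR

def rowsR1_25 : List (ℕ × List ℤ) := [(2100, [322027]),
  (117086094867000, [1])]

def MR1_25 : List (List ℤ) := [[334859011197900]]

def uR1_25 : List ℤ := [-3254829588843588000, -1084943196281196000, 3254829588843588000, 1084943196281196000, 0, 1084943196281196000, 0, -1084943196281196000]

def gR1_25 : List ℤ := [0, 0, 0, 0, 0, 0, 0, 0, 0, 0, 0, 0, -3254829588843588000, 0, 0, 0, 0, 0, 0, 0, 0, 0, -1084943196281196000, 0, 0, 3254829588843588000, 0, 1084943196281196000, 0, 0, 0, 0, 0, 0, 0, 0, 0, 1084943196281196000, 0, 0, 0, 0, 0, 0, 0, -1084943196281196000]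

theorem grR1_25 : eqM (gramT rowsR1_25) MR1_25 = true := by
  decide +kernel

theorem mvR1_25 : eqZ (mval MR1_25 tab25) uR1_25 = true := by
  decide +kernel

theorem nnR1_25 {κ ι : Type*} [Fintype κ] [Fintype ι] [Inhabited κ] [Inhabited ι] (E : Env κ ι) : 0 ≤ dot (ek E keys) gR1_25 0 :=
  to_global E keys lk25 kl25 tr25 uR1_25 (blockG_nonneg _ _ _ (tri25 E) rowsR1_25 MR1_25 grR1_25 uR1_25 mvR1_25) 69 gR1_25 (by decide +kernel)

def rowsR1_26 : List (ℕ × List ℤ) := [(2100, [0, 9230158]),
  (96189219535768800, [0, 1])]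

def MR1_26 : List (List ℤ) := [[0, 0],
  [275100434616193200]]

def uR1_26 : List ℤ := [0, 0, 275100434616193200]

def gR1_26 : List ℤ := [0, 0, 0, 0, 0, 0, 0, 0, 0, 0, 0, 0, 0, 0, 0, 0, 0, 0, 0, 0, 0, 0, 0, 0, 0, 0, 0, 0, 0, 0, 0, 0, 0, 0, 0, 0, 0, 0, 0, 0, 0, 0, 0, 0, 0, 0, 0, 0, 0, 0, 0, 0, 0, 0, 0, 0, 0, 0, 0, 0, 0, 0, 0, 275100434616193200]

theorem grR1_26 : eqM (gramT rowsR1_26) MR1_26 = true := by
  decide +kernel

theorem mvR1_26 : eqZ (mval MR1_26 tab26) uR1_26 = true := by
  decide +kernel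

theorem nnR1_26 {κ ι : Type*} [Fintype κ] [Fintype ι] [Inhabited κ] [Inhabited ι] (E : Env κ ι) : 0 ≤ dot (ek E keys) gR1_26 0 :=
  to_global E keys lk26 kl26 tr26 uR1_26 (blockG_nonneg _ _ _ (tri26 E) rowsR1_26 MR1_26 grR1_26 uR1_26 mvR1_26) 69 gR1_26 (by decide +kernel)

def rowsR1_27 : List (ℕ × List ℤ) := [(2100, [72607952, -79430074, -69909621, 0, 71911798]),
  (2100, [0, 6880583, -4500404, 0, 331574]),
  (2100, [0, 0, 4874610, 0, -5100615]),
  (2100, [0, 0, 0, 0, 4690600]),
  (226961513100, [0, 1, -1, 0, 0]),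
  (983091186000, [0, 1, 0, 0, 1]),
  (362495845425, [1, 0, 0, 0, 1]),
  (507616929225, [1, -1, 0, 0, 0]),
  (72405450600, [0, 0, 1, 0, -1]),
  (3713930413257050, [1, 0, 0, 0, 0]),
  (3710143146284575, [0, 1, 0, 0, 0]),
  (3712337442351300, [0, 0, 1, 0, 0]),
  (3712204672118075, [0, 0, 0, 0, 1])]

def MR1_27 : List (List ℤ) := [[11074735657158070100, -24222472016697340050, -21319176504806006400, 0, 21929747910146014050],
  [13352317924753179400, 23192235603639946200, 0, -23980645693396350000],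
  [10359590827885124700, 0, -21225465676499238000],
  [0, 0],
  [10964526355426460600]]

def uR1_27 : List ℤ := [0, 44298942628632280400, -96889888066789360200, 87718991640584056200, -85276706019224025600, 43858105421705842400, 0, 0, 0, 92768942414559784800, -95922582773585400000, 26704635849506358800, 0, 41438363311540498800, -84901862705996952000, 26704635849506358800]

def gR1_27 : List ℤ := [0, 0, 0, 0, 0, 0, 0, 0, 0, 44298942628632280400, -96889888066789360200, 87718991640584056200, 0, 0, -85276706019224025600, 0, 0, 0, 0, 0, 0, 0, 0, 43858105421705842400, 0, 0, 0, 0, 0, 0, 0, 0, 0, 0, 0, 0, 0, 0, 0, 0, 92768942414559784800, -95922582773585400000, 0, 26704635849506358800, 0, 0, 41438363311540498800, 0, 0, 0, -84901862705996952000, 0, 0, 0, 0, 0, 0, 0, 0, 0, 0, 0, 26704635849506358800]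

theorem grR1_27 : eqM (gramT rowsR1_27) MR1_27 = true := by
  decide +kernel

theorem mvR1_27 : eqZ (mval MR1_27 tab27) uR1_27 = true := by
  decide +kernel

theorem nnR1_27 {κ ι : Type*} [Fintype κ] [Fintype ι] [Inhabited κ] [Inhabited ι] (E : Env κ ι) : 0 ≤ dot (ek E keys) gR1_27 0 :=
  to_global E keys lk27 kl27 tr27 uR1_27 (blockG_nonneg _ _ _ (tri27 E) rowsR1_27 MR1_27 grR1_27 uR1_27 mvR1_27) 69 gR1_27 (by decide +kernel)

def rowsR1_28 : List (ℕ × List ℤ) := [(2100, [34810402]),
  (1368169177884472600, [1])]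

def MR1_28 : List (List ℤ) := [[3912873761427841000]]

def uR1_28 : List ℤ := [7825747522855682000, -7825747522855682000]

def gR1_28 : List ℤ := [0, 0, 0, 0, 0, 0, 0, 0, 0, 0, 0, 0, 0, 0, 0, 0, 0, 0, 0, 0, 0, 0, 0, 0, 0, 0, 0, 0, 0, 0, 0, 0, 0, 0, 0, 0, 0, 0, 0, 0, 0, 0, 0, 7825747522855682000, 0, 0, 0, 0, 0, 0, 0, 0, 0, 0, 0, 0, 0, 0, 0, 0, 0, 0, -7825747522855682000]

theorem grR1_28 : eqM (gramT rowsR1_28) MR1_28 = true := by
  decide +kernel

theorem mvR1_28 : eqZ (mval MR1_28 tab28) uR1_28 = true := by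
  decide +kernel

theorem nnR1_28 {κ ι : Type*} [Fintype κ] [Fintype ι] [Inhabited κ] [Inhabited ι] (E : Env κ ι) : 0 ≤ dot (ek E keys) gR1_28 0 :=
  to_global E keys lk28 kl28 tr28 uR1_28 (blockG_nonneg _ _ _ (tri28 E) rowsR1_28 MR1_28 grR1_28 uR1_28 mvR1_28) 69 gR1_28 (by decide +kernel)

def rowsR1_29 : List (ℕ × List ℤ) := [(2100, [822740, -927005, 0]),
  (2100, [0, 406896, 0]),
  (77560309600200, [1, 0, 0]),
  (77560309600200, [0, 1, 0])]

def MR1_29 : List (List ℤ) := [[1499052635560200, -3203273193540000, 0],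
  [2229855821766300, 0],
  [0]]

def uR1_29 : List ℤ := [0, 0, 143909053013779200, 214066158889564800, 0, 0, 0, -307514226579840000, -307514226579840000, -615028453159680000, -615028453159680000, 575636212055116800, 107033079444782400, 107033079444782400, 0, 428132317779129600, 214066158889564800, 143909053013779200, 214066158889564800]

def gR1_29 : List ℤ := [0, 0, 0, 0, 0, 0, 0, 0, 0, 0, 0, 0, 0, 0, 0, 0, 0, 0, 0, 143909053013779200, 0, 214066158889564800, 0, 0, 0, 0, 0, 0, 0, 0, 0, 0, 0, -307514226579840000, 0, 0, 0, 0, 0, 0, -307514226579840000, -615028453159680000, -615028453159680000, 575636212055116800, 0, 0, 0, 107033079444782400, 107033079444782400, 0, 0, 428132317779129600, 214066158889564800, 0, 0, 0, 0, 0, 0, 0, 0, 0, 0, 143909053013779200, 0, 214066158889564800]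

theorem grR1_29 : eqM (gramT rowsR1_29) MR1_29 = true := by
  decide +kernel

theorem mvR1_29 : eqZ (mval MR1_29 tab29) uR1_29 = true := by
  decide +kernel

theorem nnR1_29 {κ ι : Type*} [Fintype κ] [Fintype ι] [Inhabited κ] [Inhabited ι] (E : Env κ ι) : 0 ≤ dot (ek E keys) gR1_29 0 :=
  to_global E keys lk29 kl29 tr29 uR1_29 (blockG_nonneg _ _ _ (tri29 E) rowsR1_29 MR1_29 grR1_29 uR1_29 mvR1_29) 69 gR1_29 (by decide +kernel)

def rowsR1_30 : List (ℕ × List ℤ) := [(2100, [18034669, -142180, -19527546]),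
  (2100, [0, 3044498, -4799040]),
  (2100, [0, 0, 2145401]),
  (135385811400, [1, 0, 1]),
  (1046396779452150, [1, 0, 0]),
  (1046771447498700, [0, 1, 0]),
  (1046636061687300, [0, 0, 1])]

def MR1_30 : List (List ℤ) := [[684070032638341650, -10769510801364000, -1479125608895928000],
  [20554056218747100, -49703813004888000],
  [859859796071984400]]

def uR1_30 : List ℤ := [16417680783320199600, 24499753963233494400, 35499014613502272000, -35499014613502272000, 36015951131967744000, -36015951131967744000, 0, 5262307183240632000, 15374327922486993600, -10112020739246361600, -14387733223987132800, -16417680783320199600, -20636635105727625600]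

def gR1_30 : List ℤ := [0, 0, 0, 0, 0, 0, 0, 0, 0, 0, 0, 0, 0, 0, 0, 0, 0, 0, 0, 16417680783320199600, 0, 24499753963233494400, 0, 0, 0, 0, 0, 0, 0, 0, 0, 0, 0, 35499014613502272000, 0, 0, 0, 0, 0, 0, -35499014613502272000, 36015951131967744000, -36015951131967744000, 0, 0, 0, 0, 5262307183240632000, 15374327922486993600, 0, 0, -10112020739246361600, -14387733223987132800, 0, 0, 0, 0, 0, 0, 0, 0, 0, 0, -16417680783320199600, 0, -20636635105727625600]

theorem grR1_30 : eqM (gramT rowsR1_30) MR1_30 = true := by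
  decide +kernel

theorem mvR1_30 : eqZ (mval MR1_30 tab30) uR1_30 = true := by
  decide +kernel

theorem nnR1_30 {κ ι : Type*} [Fintype κ] [Fintype ι] [Inhabited κ] [Inhabited ι] (E : Env κ ι) : 0 ≤ dot (ek E keys) gR1_30 0 :=
  to_global E keys lk30 kl30 tr30 uR1_30 (blockG_nonneg _ _ _ (tri30 E) rowsR1_30 MR1_30 grR1_30 uR1_30 mvR1_30) 69 gR1_30 (by decide +kernel)

def rowsR1_31 : List (ℕ × List ℤ) := [(2100, [3505855, 2707000, 0]),
  (2100, [0, 2437867, 0]),
  (3705013122050100, [1, 0, 0]),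
  (3705013122050100, [0, 1, 0])]

def MR1_31 : List (List ℤ) := [[29516153612202600, 39859467837000000, 0],
  [31574206592397000, 0],
  [0]]

def uR1_31 : List ℤ := [0, 0, 1416775373385724800, -757780958217528000, 0, 0, 0, -1913254456176000000, -1913254456176000000, 1913254456176000000, 1913254456176000000, -2833550746771449600, 757780958217528000, 757780958217528000, 0, -1515561916435056000, -757780958217528000, 1416775373385724800, 1515561916435056000]

def gR1_31 : List ℤ := [0, 0, 0, 0, 0, 0, 0, 0, 0, 0, 0, 0, 0, 0, 0, 0, 0, 0, 0, 1416775373385724800, 0, -757780958217528000, 0, 0, 0, 0, 0, 0, 0, 0, 0, 0, 0, -1913254456176000000, 0, 0, 0, 0, 0, 0, -1913254456176000000, 1913254456176000000, 1913254456176000000, -2833550746771449600, 0, 0, 0, 757780958217528000, 757780958217528000, 0, 0, -1515561916435056000, -757780958217528000, 0, 0, 0, 0, 0, 0, 0, 0, 0, 0, 1416775373385724800, 0, 1515561916435056000]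

theorem grR1_31 : eqM (gramT rowsR1_31) MR1_31 = true := by
  decide +kernel

theorem mvR1_31 : eqZ (mval MR1_31 tab31) uR1_31 = true := by
  decide +kernel

theorem nnR1_31 {κ ι : Type*} [Fintype κ] [Fintype ι] [Inhabited κ] [Inhabited ι] (E : Env κ ι) : 0 ≤ dot (ek E keys) gR1_31 0 :=
  to_global E keys lk31 kl31 tr31 uR1_31 (blockG_nonneg _ _ _ (tri31 E) rowsR1_31 MR1_31 grR1_31 uR1_31 mvR1_31) 69 gR1_31 (by decide +kernel)

def rowsR1_32 : List (ℕ × List ℤ) := [(2100, [6372907]),
  (45856038886883400, [1])]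

def MR1_32 : List (List ℤ) := [[131145320511246300]]

def uR1_32 : List ℤ := [-2098325128179940800, -2098325128179940800, 2098325128179940800, 4196650256359881600, -2098325128179940800]

def gR1_32 : List ℤ := [0, 0, 0, 0, 0, 0, 0, 0, 0, 0, 0, 0, 0, 0, 0, 0, 0, 0, 0, 0, 0, -2098325128179940800, 0, 0, 0, 0, 0, 0, 0, 0, 0, 0, 0, 0, 0, 0, 0, 0, 0, 0, 0, 0, 0, 0, 0, 0, 0, -2098325128179940800, 2098325128179940800, 0, 0, 4196650256359881600, -2098325128179940800]

theorem grR1_32 : eqM (gramT rowsR1_32) MR1_32 = true := by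
  decide +kernel

theorem mvR1_32 : eqZ (mval MR1_32 tab32) uR1_32 = true := by
  decide +kernel

theorem nnR1_32 {κ ι : Type*} [Fintype κ] [Fintype ι] [Inhabited κ] [Inhabited ι] (E : Env κ ι) : 0 ≤ dot (ek E keys) gR1_32 0 :=
  to_global E keys lk32 kl32 tr32 uR1_32 (blockG_nonneg _ _ _ (tri32 E) rowsR1_32 MR1_32 grR1_32 uR1_32 mvR1_32) 69 gR1_32 (by decide +kernel)

def rowsR1_33 : List (ℕ × List ℤ) := [(2100, [10978]),
  (136078063800, [1])]

def MR1_33 : List (List ℤ) := [[389162680200]]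

def uR1_33 : List ℤ := [4483154075904000, 8966308151808000, 35865232607232000, 8966308151808000, 35865232607232000, 35865232607232000, 71730465214464000]

def gR1_33 : List ℤ := [0, 0, 0, 0, 0, 0, 0, 0, 0, 0, 0, 0, 0, 0, 0, 0, 4483154075904000, 0, 0, 0, 8966308151808000, 0, 0, 35865232607232000, 0, 0, 0, 0, 0, 0, 0, 0, 0, 0, 0, 0, 0, 0, 0, 0, 0, 0, 0, 0, 0, 0, 8966308151808000, 0, 35865232607232000, 0, 35865232607232000, 0, 71730465214464000]

theorem grR1_33 : eqM (gramT rowsR1_33) MR1_33 = true := by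
  decide +kernel

theorem mvR1_33 : eqZ (mval MR1_33 tab33) uR1_33 = true := by
  decide +kernel

theorem nnR1_33 {κ ι : Type*} [Fintype κ] [Fintype ι] [Inhabited κ] [Inhabited ι] (E : Env κ ι) : 0 ≤ dot (ek E keys) gR1_33 0 :=
  to_global E keys lk33 kl33 tr33 uR1_33 (blockG_nonneg _ _ _ (tri33 E) rowsR1_33 MR1_33 grR1_33 uR1_33 mvR1_33) 69 gR1_33 (by decide +kernel)

def rowsR1_34 : List (ℕ × List ℤ) := [(2100, [140415]),
  (22261134073500, [1])]

def MR1_34 : List (List ℤ) := [[63665515746000]]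

def uR1_34 : List ℤ := [91678342674240000, 183356685348480000, -366713370696960000, -91678342674240000, 183356685348480000, -366713370696960000, 366713370696960000]

def gR1_34 : List ℤ := [0, 0, 0, 0, 0, 0, 0, 0, 0, 0, 0, 0, 0, 0, 0, 0, 91678342674240000, 0, 0, 0, 183356685348480000, 0, 0, -366713370696960000, 0, 0, 0, 0, 0, 0, 0, 0, 0, 0, 0, 0, 0, 0, 0, 0, 0, 0, 0, 0, 0, 0, -91678342674240000, 0, 183356685348480000, 0, -366713370696960000, 0, 366713370696960000]

theorem grR1_34 : eqM (gramT rowsR1_34) MR1_34 = true := by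
  decide +kernel

theorem mvR1_34 : eqZ (mval MR1_34 tab34) uR1_34 = true := by
  decide +kernel

theorem nnR1_34 {κ ι : Type*} [Fintype κ] [Fintype ι] [Inhabited κ] [Inhabited ι] (E : Env κ ι) : 0 ≤ dot (ek E keys) gR1_34 0 :=
  to_global E keys lk34 kl34 tr34 uR1_34 (blockG_nonneg _ _ _ (tri34 E) rowsR1_34 MR1_34 grR1_34 uR1_34 mvR1_34) 69 gR1_34 (by decide +kernel)

def rowsR1_35 : List (ℕ × List ℤ) := [(2100, [210754, -237333]),
  (2100, [0, 180285]),
  (13451696256600, [1, 0]),
  (13451696256600, [0, 1])]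

def MR1_35 : List (List ℤ) := [[106727918140200, -210079292144400],
  [199993927896000]]

def uR1_35 : List ℤ := [198460136547993600, 211375069110374400, 396886275149414400, 16998973286400, -25829865124761600, 12931931535667200, -793840546191974400]

def gR1_35 : List ℤ := [0, 0, 0, 0, 0, 0, 0, 0, 0, 0, 0, 0, 0, 0, 0, 0, 198460136547993600, 0, 0, 0, 211375069110374400, 0, 0, 396886275149414400, 0, 0, 0, 0, 0, 0, 0, 0, 0, 0, 0, 0, 0, 0, 0, 0, 0, 0, 0, 0, 0, 0, 16998973286400, 0, -25829865124761600, 0, 12931931535667200, 0, -793840546191974400]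

theorem grR1_35 : eqM (gramT rowsR1_35) MR1_35 = true := by
  decide +kernel

theorem mvR1_35 : eqZ (mval MR1_35 tab35) uR1_35 = true := by
  decide +kernel

theorem nnR1_35 {κ ι : Type*} [Fintype κ] [Fintype ι] [Inhabited κ] [Inhabited ι] (E : Env κ ι) : 0 ≤ dot (ek E keys) gR1_35 0 :=
  to_global E keys lk35 kl35 tr35 uR1_35 (blockG_nonneg _ _ _ (tri35 E) rowsR1_35 MR1_35 grR1_35 uR1_35 mvR1_35) 69 gR1_35 (by decide +kernel)

def rowsR1_36 : List (ℕ × List ℤ) := [(2100, [1879674]),
  (3989207099016300, [1])]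

def MR1_36 : List (List ℤ) := [[11408873226195900]]

def uR1_36 : List ℤ := [2053597180715262000, -2053597180715262000, -2053597180715262000, -2053597180715262000, -2053597180715262000, 4107194361430524000, 2053597180715262000]

def gR1_36 : List ℤ := [0, 0, 0, 0, 0, 0, 0, 0, 0, 0, 0, 0, 0, 0, 0, 0, 2053597180715262000, 0, 0, 0, -2053597180715262000, 0, 0, -2053597180715262000, 0, 0, 0, 0, 0, 0, 0, 0, 0, 0, 0, 0, 0, 0, 0, 0, 0, 0, 0, 0, 0, 0, -2053597180715262000, 0, -2053597180715262000, 0, 4107194361430524000, 0, 2053597180715262000]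

theorem grR1_36 : eqM (gramT rowsR1_36) MR1_36 = true := by
  decide +kernel

theorem mvR1_36 : eqZ (mval MR1_36 tab36) uR1_36 = true := by
  decide +kernel

theorem nnR1_36 {κ ι : Type*} [Fintype κ] [Fintype ι] [Inhabited κ] [Inhabited ι] (E : Env κ ι) : 0 ≤ dot (ek E keys) gR1_36 0 :=
  to_global E keys lk36 kl36 tr36 uR1_36 (blockG_nonneg _ _ _ (tri36 E) rowsR1_36 MR1_36 grR1_36 uR1_36 mvR1_36) 69 gR1_36 (by decide +kernel)

def rowsR1_37 : List (ℕ × List ℤ) := [(2100, [155072]),
  (27151100745300, [1])]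

def MR1_37 : List (List ℤ) := [[77650483631700]]

def uR1_37 : List ℤ := [178906714287436800, -178906714287436800, 357813428574873600, 357813428574873600, -715626857149747200, -715626857149747200, 715626857149747200]

def gR1_37 : List ℤ := [0, 0, 0, 0, 0, 0, 0, 0, 0, 0, 0, 0, 0, 0, 0, 0, 178906714287436800, 0, 0, 0, -178906714287436800, 0, 0, 357813428574873600, 0, 0, 0, 0, 0, 0, 0, 0, 0, 0, 0, 0, 0, 0, 0, 0, 0, 0, 0, 0, 0, 0, 357813428574873600, 0, -715626857149747200, 0, -715626857149747200, 0, 715626857149747200]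

theorem grR1_37 : eqM (gramT rowsR1_37) MR1_37 = true := by
  decide +kernel

theorem mvR1_37 : eqZ (mval MR1_37 tab37) uR1_37 = true := by
  decide +kernel

theorem nnR1_37 {κ ι : Type*} [Fintype κ] [Fintype ι] [Inhabited κ] [Inhabited ι] (E : Env κ ι) : 0 ≤ dot (ek E keys) gR1_37 0 :=
  to_global E keys lk37 kl37 tr37 uR1_37 (blockG_nonneg _ _ _ (tri37 E) rowsR1_37 MR1_37 grR1_37 uR1_37 mvR1_37) 69 gR1_37 (by decide +kernel)

def rowsR1_38 : List (ℕ × List ℤ) := [(2100, [0, 4782397]),
  (25824420156979500, [0, 1])]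

def MR1_38 : List (List ℤ) := [[0, 0],
  [73854194394758400]]

def uR1_38 : List ℤ := [0, 0, 295416777579033600]

def gR1_38 : List ℤ := [0, 0, 0, 0, 0, 0, 0, 0, 0, 0, 0, 0, 0, 0, 0, 0, 0, 0, 0, 0, 0, 0, 0, 0, 0, 0, 0, 0, 0, 0, 0, 0, 0, 0, 0, 0, 0, 0, 0, 0, 0, 0, 0, 0, 0, 0, 0, 0, 0, 0, 0, 0, 0, 0, 0, 0, 0, 0, 0, 0, 0, 0, 0, 0, 0, 295416777579033600]

theorem grR1_38 : eqM (gramT rowsR1_38) MR1_38 = true := by
  decide +kernel

theorem mvR1_38 : eqZ (mval MR1_38 tab38) uR1_38 = true := by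
  decide +kernel

theorem nnR1_38 {κ ι : Type*} [Fintype κ] [Fintype ι] [Inhabited κ] [Inhabited ι] (E : Env κ ι) : 0 ≤ dot (ek E keys) gR1_38 0 :=
  to_global E keys lk38 kl38 tr38 uR1_38 (blockG_nonneg _ _ _ (tri38 E) rowsR1_38 MR1_38 grR1_38 uR1_38 mvR1_38) 69 gR1_38 (by decide +kernel)

def rowsR1_39 : List (ℕ × List ℤ) := [(2100, [23324729, -24126308, -23534870, 0, 24881199]),
  (2100, [0, 3611373, -2300517, 0, 276215]),
  (2100, [0, 0, 2520705, 0, -2776204]),
  (2100, [0, 0, 0, 0, 2344036]),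
  (980139948171300, [1, 0, 0, 0, 0]),
  (980139948171300, [0, 1, 0, 0, 0]),
  (980139948171300, [0, 0, 1, 0, 0]),
  (980139948171300, [0, 0, 0, 0, 1])]

def MR1_39 : List (List ℤ) := [[1143470404087397400, -2363506302656234400, -2305566752160966000, 0, 2437458340254298200],
  [1250733720525756600, 2349906288996499800, 0, -2517034611378407400],
  [1188606659918720700, 0, -2491478692567641000],
  [0, 0],
  [1328919700775921100]]

def uR1_39 : List ℤ := [0, 0, 9508853279349765600, 18295526465398358400, 15634292488310395200, 5002934882103026400, 0, 0, 0, -21064408769110257600, -20136276891027259200, 5002934882103026400, 0, -27380214755225690400, 38999333444068771200, -37816100842499750400, 0, 18799250311971998400, -20136276891027259200, 5002934882103026400, 10631357606207368800]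

def gR1_39 : List ℤ := [0, 0, 0, 0, 0, 0, 0, 0, 0, 0, 0, 0, 0, 0, 9508853279349765600, 0, 18295526465398358400, 0, 0, 0, 0, 15634292488310395200, 0, 5002934882103026400, 0, 0, 0, 0, 0, 0, 0, 0, 0, 0, 0, 0, 0, 0, 0, 0, -21064408769110257600, -20136276891027259200, 5002934882103026400, 0, 0, 0, -27380214755225690400, 38999333444068771200, -37816100842499750400, 0, 18799250311971998400, -20136276891027259200, 5002934882103026400, 0, 0, 0, 0, 0, 0, 0, 0, 0, 10631357606207368800]

theorem grR1_39 : eqM (gramT rowsR1_39) MR1_39 = true := by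
  decide +kernel

theorem mvR1_39 : eqZ (mval MR1_39 tab39) uR1_39 = true := by
  decide +kernel

theorem nnR1_39 {κ ι : Type*} [Fintype κ] [Fintype ι] [Inhabited κ] [Inhabited ι] (E : Env κ ι) : 0 ≤ dot (ek E keys) gR1_39 0 :=
  to_global E keys lk39 kl39 tr39 uR1_39 (blockG_nonneg _ _ _ (tri39 E) rowsR1_39 MR1_39 grR1_39 uR1_39 mvR1_39) 69 gR1_39 (by decide +kernel)

def rowsR1_40 : List (ℕ × List ℤ) := [(2100, [95918334, -52916583]),
  (2100, [0, 10619766]),
  (97512377029536000, [1, 0]),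
  (97512377029536000, [0, 1])]

def MR1_40 : List (List ℤ) := [[19418198651434203600, -21317816025797432400],
  [6214695168239890500]]

def uR1_40 : List ℤ := [49717561345919124000, 77672794605736814400, -77672794605736814400, -170542528206379459200, 77672794605736814400, -49717561345919124000, 170542528206379459200, -77672794605736814400]

def gR1_40 : List ℤ := [0, 0, 0, 0, 0, 0, 0, 0, 0, 0, 0, 0, 0, 0, 49717561345919124000, 0, 0, 0, 0, 0, 0, 77672794605736814400, 0, -77672794605736814400, 0, 0, 0, 0, 0, 0, 0, 0, 0, 0, 0, 0, 0, 0, 0, 0, -170542528206379459200, 0, 77672794605736814400, 0, 0, 0, -49717561345919124000, 0, 0, 0, 170542528206379459200, 0, -77672794605736814400]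

theorem grR1_40 : eqM (gramT rowsR1_40) MR1_40 = true := by
  decide +kernel

theorem mvR1_40 : eqZ (mval MR1_40 tab40) uR1_40 = true := by
  decide +kernel

theorem nnR1_40 {κ ι : Type*} [Fintype κ] [Fintype ι] [Inhabited κ] [Inhabited ι] (E : Env κ ι) : 0 ≤ dot (ek E keys) gR1_40 0 :=
  to_global E keys lk40 kl40 tr40 uR1_40 (blockG_nonneg _ _ _ (tri40 E) rowsR1_40 MR1_40 grR1_40 uR1_40 mvR1_40) 69 gR1_40 (by decide +kernel)

def rowsR1_41 : List (ℕ × List ℤ) := [(2100, [32591044]),
  (1199272341189631450, [1])]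

def MR1_41 : List (List ℤ) := [[3429842254110497050]]

def uR1_41 : List ℤ := [-13719369016441988200, -13719369016441988200, 13719369016441988200, 13719369016441988200]

def gR1_41 : List ℤ := [0, 0, 0, 0, 0, 0, 0, 0, 0, 0, 0, 0, 0, 0, 0, 0, 0, 0, 0, 0, 0, -13719369016441988200, 0, -13719369016441988200, 0, 0, 0, 0, 0, 0, 0, 0, 0, 0, 0, 0, 0, 0, 0, 0, 0, 0, 13719369016441988200, 0, 0, 0, 0, 0, 0, 0, 0, 0, 13719369016441988200]

theorem grR1_41 : eqM (gramT rowsR1_41) MR1_41 = true := by
  decide +kernel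

theorem mvR1_41 : eqZ (mval MR1_41 tab41) uR1_41 = true := by
  decide +kernel

theorem nnR1_41 {κ ι : Type*} [Fintype κ] [Fintype ι] [Inhabited κ] [Inhabited ι] (E : Env κ ι) : 0 ≤ dot (ek E keys) gR1_41 0 :=
  to_global E keys lk41 kl41 tr41 uR1_41 (blockG_nonneg _ _ _ (tri41 E) rowsR1_41 MR1_41 grR1_41 uR1_41 mvR1_41) 69 gR1_41 (by decide +kernel)

def rowsR1_42 : List (ℕ × List ℤ) := [(2100, [24733234, 7109405, -15990903]),
  (2100, [0, 3853095, -13997827]),
  (2100, [0, 0, 10005750]),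
  (5342830374413350, [1, 0, 0]),
  (5342405692939600, [0, 1, 0]),
  (5342400034870500, [0, 0, 1])]

def MR1_42 : List (List ℤ) := [[1289981844981800950, 738522025356234000, -1661128332235268400],
  [142661364812344600, -704007204462576000],
  [1164045062368530300]]

def uR1_42 : List ℤ := [1141290918498756800, -1141290918498756800, -14472287878875446200, 5159927379927203800, 11540233838550480000, -5908176202849872000, 13289026657882147200, 5159927379927203800, -5632057635700608000, -13289026657882147200, -5159927379927203800, 9312360498948242400]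

def gR1_42 : List ℤ := [0, 0, 0, 0, 0, 1141290918498756800, -1141290918498756800, 0, 0, 0, 0, 0, 0, 0, 0, 0, 0, 0, 0, 0, 0, -14472287878875446200, 0, 5159927379927203800, 0, 0, 0, 0, 11540233838550480000, -5908176202849872000, 0, 0, 0, 0, 0, 0, 0, 0, 0, 0, 0, 13289026657882147200, 5159927379927203800, 0, -5632057635700608000, 0, 0, 0, 0, 0, 0, -13289026657882147200, -5159927379927203800, 0, 0, 0, 0, 0, 0, 0, 0, 0, 9312360498948242400]

theorem grR1_42 : eqM (gramT rowsR1_42) MR1_42 = true := by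
  decide +kernel

theorem mvR1_42 : eqZ (mval MR1_42 tab42) uR1_42 = true := by
  decide +kernel

theorem nnR1_42 {κ ι : Type*} [Fintype κ] [Fintype ι] [Inhabited κ] [Inhabited ι] (E : Env κ ι) : 0 ≤ dot (ek E keys) gR1_42 0 :=
  to_global E keys lk42 kl42 tr42 uR1_42 (blockG_nonneg _ _ _ (tri42 E) rowsR1_42 MR1_42 grR1_42 uR1_42 mvR1_42) 69 gR1_42 (by decide +kernel)

def rowsR1_43 : List (ℕ × List ℤ) := [(2100, [408498, -418212, 0]),
  (2100, [0, 196220, 0]),
  (20021577809100, [1, 0, 0]),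
  (20021577809100, [0, 1, 0])]

def MR1_43 : List (List ℤ) := [[370449871417500, -717522815419200, 0],
  [468169065031500, 0],
  [0]]

def uR1_43 : List ℤ := [0, 0, 0, 44944230243024000, 44944230243024000, 71126375312160000, 71126375312160000, 89888460486048000, 0, 0, 0, -275528761120972800, 0, -137764380560486400, 84025080823219200, 374393961734688000, -185640300634924800, 0, 44944230243024000, 44944230243024000, 0, -137764380560486400, -275528761120972800, 8976740127667200, 89888460486048000, 89888460486048000, 232141211110368000]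

def gR1_43 : List ℤ := [0, 0, 0, 0, 0, 0, 0, 0, 0, 0, 44944230243024000, 44944230243024000, 0, 0, 0, 0, 0, 0, 0, 71126375312160000, 71126375312160000, 0, 0, 89888460486048000, 0, 0, 0, 0, 0, 0, 0, 0, 0, -275528761120972800, 0, 0, 0, 0, 0, 0, -137764380560486400, 84025080823219200, 374393961734688000, -185640300634924800, 0, 0, 0, 44944230243024000, 44944230243024000, 0, -137764380560486400, -275528761120972800, 8976740127667200, 0, 0, 0, 0, 0, 0, 0, 0, 0, 89888460486048000, 89888460486048000, 0, 232141211110368000]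

theorem grR1_43 : eqM (gramT rowsR1_43) MR1_43 = true := by
  decide +kernel

theorem mvR1_43 : eqZ (mval MR1_43 tab43) uR1_43 = true := by
  decide +kernel

theorem nnR1_43 {κ ι : Type*} [Fintype κ] [Fintype ι] [Inhabited κ] [Inhabited ι] (E : Env κ ι) : 0 ≤ dot (ek E keys) gR1_43 0 :=
  to_global E keys lk43 kl43 tr43 uR1_43 (blockG_nonneg _ _ _ (tri43 E) rowsR1_43 MR1_43 grR1_43 uR1_43 mvR1_43) 69 gR1_43 (by decide +kernel)

end YMBR
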