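import Pool.Agent.YM.BR.G5

set_option linter.unusedVariables false
set_option maxRecDepth 100000

open YMEng

namespace YMBR

def rowsR1_56 : List (ℕ × List ℤ) := [(2100, [1682445]),
  (3195972991094100, [1])]

def MR1_56 : List (List ℤ) := [[9140277464946600]]

def uR1_56 : List ℤ := [10529599639618483200, 0, -21059199279236966400, -10529599639618483200, 0, 21059199279236966400, 0, -42118398558473932800, 42118398558473932800, 21059199279236966400, 0, -21059199279236966400]

def gR1_56 : List ℤ := [0, 0, 0, 0, 0, 0, 0, 0, 0, 10529599639618483200, 0, 0, 0, 0, -21059199279236966400, 0, -10529599639618483200, 0, 0, 0, 0, 21059199279236966400, 0, 0, 0, 0, 0, 0, 0, 0, 0, 0, 0, 0, 0, 0, 0, 0, 0, 0, 0, 0, -42118398558473932800, 42118398558473932800, 0, 0, 21059199279236966400, 0, 0, 0, 0, 0, 0, 0, 0, 0, 0, 0, 0, 0, 0, 0, -21059199279236966400]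

theorem grR1_56 : eqM (gramT rowsR1_56) MR1_56 = true := by
  decide +kernel

theorem mvR1_56 : eqZ (mval MR1_56 tab56) uR1_56 = true := by
  decide +kernel

theorem nnR1_56 {κ ι : Type*} [Fintype κ] [Fintype ι] [Inhabited κ] [Inhabited ι] (E : Env κ ι) : 0 ≤ dot (ek E keys) gR1_56 0 :=
  to_global E keys lk56 kl56 tr56 uR1_56 (blockG_nonneg _ _ _ (tri56 E) rowsR1_56 MR1_56 grR1_56 uR1_56 mvR1_56) 69 gR1_56 (by decide +kernel)

def rowsR1_57 : List (ℕ × List ℤ) := [(2100, [287188]),
  (93122555492400, [1])]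

def MR1_57 : List (List ℤ) := [[266324144914800]]

def uR1_57 : List ℤ := [920416244825548800, 0, -1840832489651097600, -920416244825548800, 0, -3681664979302195200, 0, 7363329958604390400, -7363329958604390400, 1840832489651097600, 0, 3681664979302195200]

def gR1_57 : List ℤ := [0, 0, 0, 0, 0, 0, 0, 0, 0, 920416244825548800, 0, 0, 0, 0, -1840832489651097600, 0, -920416244825548800, 0, 0, 0, 0, -3681664979302195200, 0, 0, 0, 0, 0, 0, 0, 0, 0, 0, 0, 0, 0, 0, 0, 0, 0, 0, 0, 0, 7363329958604390400, -7363329958604390400, 0, 0, 1840832489651097600, 0, 0, 0, 0, 0, 0, 0, 0, 0, 0, 0, 0, 0, 0, 0, 3681664979302195200]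

theorem grR1_57 : eqM (gramT rowsR1_57) MR1_57 = true := by
  decide +kernel

theorem mvR1_57 : eqZ (mval MR1_57 tab57) uR1_57 = true := by
  decide +kernel

theorem nnR1_57 {κ ι : Type*} [Fintype κ] [Fintype ι] [Inhabited κ] [Inhabited ι] (E : Env κ ι) : 0 ≤ dot (ek E keys) gR1_57 0 :=
  to_global E keys lk57 kl57 tr57 uR1_57 (blockG_nonneg _ _ _ (tri57 E) rowsR1_57 MR1_57 grR1_57 uR1_57 mvR1_57) 69 gR1_57 (by decide +kernel)

def rowsR1_58 : List (ℕ × List ℤ) := [(2100, [4587456]),
  (23761028865298200, [1])]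

def MR1_58 : List (List ℤ) := [[67955009224363800]]

def uR1_58 : List ℤ := [24463803320770968000, -24463803320770968000, -24463803320770968000, 24463803320770968000, -48927606641541936000, -24463803320770968000, 97855213283083872000, 24463803320770968000, 24463803320770968000, -24463803320770968000, -24463803320770968000, -24463803320770968000]

def gR1_58 : List ℤ := [0, 0, 0, 0, 0, 0, 0, 0, 0, 24463803320770968000, -24463803320770968000, 0, 0, 0, -24463803320770968000, 0, 24463803320770968000, 0, 0, -48927606641541936000, 0, -24463803320770968000, 0, 0, 0, 0, 0, 0, 0, 0, 0, 0, 0, 0, 0, 0, 0, 0, 0, 0, 97855213283083872000, 0, 24463803320770968000, 24463803320770968000, 0, 0, -24463803320770968000, 0, -24463803320770968000, 0, 0, 0, 0, 0, 0, 0, 0, 0, 0, 0, 0, 0, -24463803320770968000]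

theorem grR1_58 : eqM (gramT rowsR1_58) MR1_58 = true := by
  decide +kernel

theorem mvR1_58 : eqZ (mval MR1_58 tab58) uR1_58 = true := by
  decide +kernel

theorem nnR1_58 {κ ι : Type*} [Fintype κ] [Fintype ι] [Inhabited κ] [Inhabited ι] (E : Env κ ι) : 0 ≤ dot (ek E keys) gR1_58 0 :=
  to_global E keys lk58 kl58 tr58 uR1_58 (blockG_nonneg _ _ _ (tri58 E) rowsR1_58 MR1_58 grR1_58 uR1_58 mvR1_58) 69 gR1_58 (by decide +kernel)

def rowsR1_59 : List (ℕ × List ℤ) := [(2100, [2153179]),
  (5234578152667500, [1])]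

def MR1_59 : List (List ℤ) := [[14970555745353600]]

def uR1_59 : List ℤ := [16168200204981888000, -48504600614945664000, 16168200204981888000, -16168200204981888000, 0, -16168200204981888000, 0, -16168200204981888000, 16168200204981888000, -16168200204981888000, 48504600614945664000, 16168200204981888000]

def gR1_59 : List ℤ := [0, 0, 0, 0, 0, 0, 0, 0, 0, 16168200204981888000, -48504600614945664000, 0, 0, 0, 16168200204981888000, 0, -16168200204981888000, 0, 0, 0, 0, -16168200204981888000, 0, 0, 0, 0, 0, 0, 0, 0, 0, 0, 0, 0, 0, 0, 0, 0, 0, 0, 0, 0, -16168200204981888000, 16168200204981888000, 0, 0, -16168200204981888000, 0, 48504600614945664000, 0, 0, 0, 0, 0, 0, 0, 0, 0, 0, 0, 0, 0, 16168200204981888000]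

theorem grR1_59 : eqM (gramT rowsR1_59) MR1_59 = true := by
  decide +kernel

theorem mvR1_59 : eqZ (mval MR1_59 tab59) uR1_59 = true := by
  decide +kernel

theorem nnR1_59 {κ ι : Type*} [Fintype κ] [Fintype ι] [Inhabited κ] [Inhabited ι] (E : Env κ ι) : 0 ≤ dot (ek E keys) gR1_59 0 :=
  to_global E keys lk59 kl59 tr59 uR1_59 (blockG_nonneg _ _ _ (tri59 E) rowsR1_59 MR1_59 grR1_59 uR1_59 mvR1_59) 69 gR1_59 (by decide +kernel)

def rowsR1_60 : List (ℕ × List ℤ) := [(2100, [81444]),
  (7489273722000, [1])]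

def MR1_60 : List (List ℤ) := [[21418836507600]]

def uR1_60 : List ℤ := [98697998627020800, -394791994508083200, 197395997254041600, 98697998627020800, -197395997254041600, 197395997254041600, -789583989016166400, 394791994508083200, 394791994508083200, 197395997254041600, -394791994508083200, 197395997254041600]

def gR1_60 : List ℤ := [0, 0, 0, 0, 0, 0, 0, 0, 0, 98697998627020800, -394791994508083200, 0, 0, 0, 197395997254041600, 0, 98697998627020800, 0, 0, -197395997254041600, 0, 197395997254041600, 0, 0, 0, 0, 0, 0, 0, 0, 0, 0, 0, 0, 0, 0, 0, 0, 0, 0, -789583989016166400, 0, 394791994508083200, 394791994508083200, 0, 0, 197395997254041600, 0, -394791994508083200, 0, 0, 0, 0, 0, 0, 0, 0, 0, 0, 0, 0, 0, 197395997254041600]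

theorem grR1_60 : eqM (gramT rowsR1_60) MR1_60 = true := by
  decide +kernel

theorem mvR1_60 : eqZ (mval MR1_60 tab60) uR1_60 = true := by
  decide +kernel

theorem nnR1_60 {κ ι : Type*} [Fintype κ] [Fintype ι] [Inhabited κ] [Inhabited ι] (E : Env κ ι) : 0 ≤ dot (ek E keys) gR1_60 0 :=
  to_global E keys lk60 kl60 tr60 uR1_60 (blockG_nonneg _ _ _ (tri60 E) rowsR1_60 MR1_60 grR1_60 uR1_60 mvR1_60) 69 gR1_60 (by decide +kernel)

def rowsR1_61 : List (ℕ × List ℤ) := [(2100, [47646235]),
  (2563179190480673100, [1])]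

def MR1_61 : List (List ℤ) := [[7330522980798645600]]

def uR1_61 : List ℤ := [7330522980798645600]

def gR1_61 : List ℤ := [0, 0, 0, 0, 0, 0, 0, 7330522980798645600]

theorem grR1_61 : eqM (gramT rowsR1_61) MR1_61 = true := by
  decide +kernel

theorem mvR1_61 : eqZ (mval MR1_61 tab61) uR1_61 = true := by
  decide +kernel

theorem nnR1_61 {κ ι : Type*} [Fintype κ] [Fintype ι] [Inhabited κ] [Inhabited ι] (E : Env κ ι) : 0 ≤ dot (ek E keys) gR1_61 0 :=
  to_global E keys lk61 kl61 tr61 uR1_61 (blockG_nonneg _ _ _ (tri61 E) rowsR1_61 MR1_61 grR1_61 uR1_61 mvR1_61) 69 gR1_61 (by decide +kernel)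

def rowsR1_62 : List (ℕ × List ℤ) := [(2100, [39039477, 56395]),
  (2100, [0, 10928241]),
  (134844557112526800, [1, 0]),
  (134844490913595400, [0, 1])]

def MR1_62 : List (List ℤ) := [[3335414162422937700, 9246851482743000],
  [385646717588818000]]

def uR1_62 : List ℤ := [1542586870355272000, 6670828324845875400, 6670828324845875400, 36987405930972000]

def gR1_62 : List ℤ := [1542586870355272000, 0, 0, 6670828324845875400, 6670828324845875400, 0, 0, 0, 0, 0, 0, 0, 0, 0, 0, 0, 0, 0, 0, 0, 0, 0, 0, 0, 0, 0, 0, 0, 0, 0, 0, 0, 0, 0, 0, 0, 0, 0, 0, 0, 0, 0, 0, 0, 0, 0, 0, 0, 0, 0, 0, 0, 0, 0, 0, 0, 0, 0, 0, 0, 36987405930972000]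

theorem grR1_62 : eqM (gramT rowsR1_62) MR1_62 = true := by
  decide +kernel

theorem mvR1_62 : eqZ (mval MR1_62 tab62) uR1_62 = true := by
  decide +kernel

theorem nnR1_62 {κ ι : Type*} [Fintype κ] [Fintype ι] [Inhabited κ] [Inhabited ι] (E : Env κ ι) : 0 ≤ dot (ek E keys) gR1_62 0 :=
  to_global E keys lk62 kl62 tr62 uR1_62 (blockG_nonneg _ _ _ (tri62 E) rowsR1_62 MR1_62 grR1_62 uR1_62 mvR1_62) 69 gR1_62 (by decide +kernel)

def rowsR1_63 : List (ℕ × List ℤ) := [(2100, [40198327]),
  (1824472394013593100, [1])]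

def MR1_63 : List (List ℤ) := [[5217873930571344000]]

def uR1_63 : List ℤ := [10435747861142688000, -10435747861142688000]

def gR1_63 : List ℤ := [0, 0, 0, 10435747861142688000, -10435747861142688000]

theorem grR1_63 : eqM (gramT rowsR1_63) MR1_63 = true := by
  decide +kernel

theorem mvR1_63 : eqZ (mval MR1_63 tab63) uR1_63 = true := by
  decide +kernel

theorem nnR1_63 {κ ι : Type*} [Fintype κ] [Fintype ι] [Inhabited κ] [Inhabited ι] (E : Env κ ι) : 0 ≤ dot (ek E keys) gR1_63 0 :=
  to_global E keys lk63 kl63 tr63 uR1_63 (blockG_nonneg _ _ _ (tri63 E) rowsR1_63 MR1_63 grR1_63 uR1_63 mvR1_63) 69 gR1_63 (by decide +kernel)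

def rowsR1_64 : List (ℕ × List ℤ) := [(2100, [1935355]),
  (4229047559068500, [1])]

def MR1_64 : List (List ℤ) := [[12094805408721000]]

def uR1_64 : List ℤ := [1161101319237216000, 4644405276948864000, 1161101319237216000]

def gR1_64 : List ℤ := [0, 1161101319237216000, 0, 4644405276948864000, 0, 0, 0, 1161101319237216000]

theorem grR1_64 : eqM (gramT rowsR1_64) MR1_64 = true := by
  decide +kernel

theorem mvR1_64 : eqZ (mval MR1_64 tab64) uR1_64 = true := by
  decide +kernel

theorem nnR1_64 {κ ι : Type*} [Fintype κ] [Fintype ι] [Inhabited κ] [Inhabited ι] (E : Env κ ι) : 0 ≤ dot (ek E keys) gR1_64 0 :=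
  to_global E keys lk64 kl64 tr64 uR1_64 (blockG_nonneg _ _ _ (tri64 E) rowsR1_64 MR1_64 grR1_64 uR1_64 mvR1_64) 69 gR1_64 (by decide +kernel)

def rowsR1_65 : List (ℕ × List ℤ) := [(2100, [11536543]),
  (150270159758367600, [1])]

def MR1_65 : List (List ℤ) := [[429762990979150500]]

def uR1_65 : List ℤ := [10314311783499612000, 0, -10314311783499612000]

def gR1_65 : List ℤ := [0, 10314311783499612000, 0, 0, 0, 0, 0, -10314311783499612000]

theorem grR1_65 : eqM (gramT rowsR1_65) MR1_65 = true := by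
  decide +kernel

theorem mvR1_65 : eqZ (mval MR1_65 tab65) uR1_65 = true := by
  decide +kernel

theorem nnR1_65 {κ ι : Type*} [Fintype κ] [Fintype ι] [Inhabited κ] [Inhabited ι] (E : Env κ ι) : 0 ≤ dot (ek E keys) gR1_65 0 :=
  to_global E keys lk65 kl65 tr65 uR1_65 (blockG_nonneg _ _ _ (tri65 E) rowsR1_65 MR1_65 grR1_65 uR1_65 mvR1_65) 69 gR1_65 (by decide +kernel)

def rowsR1_66 : List (ℕ × List ℤ) := [(2100, [7211740]),
  (58722087912568500, [1])]

def MR1_66 : List (List ℤ) := [[167941394950528500]]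

def uR1_66 : List ℤ := [8061186957625368000, -16122373915250736000, 8061186957625368000]

def gR1_66 : List ℤ := [0, 8061186957625368000, 0, -16122373915250736000, 0, 0, 0, 8061186957625368000]

theorem grR1_66 : eqM (gramT rowsR1_66) MR1_66 = true := by
  decide +kernel

theorem mvR1_66 : eqZ (mval MR1_66 tab66) uR1_66 = true := by
  decide +kernel

theorem nnR1_66 {κ ι : Type*} [Fintype κ] [Fintype ι] [Inhabited κ] [Inhabited ι] (E : Env κ ι) : 0 ≤ dot (ek E keys) gR1_66 0 :=
  to_global E keys lk66 kl66 tr66 uR1_66 (blockG_nonneg _ _ _ (tri66 E) rowsR1_66 MR1_66 grR1_66 uR1_66 mvR1_66) 69 gR1_66 (by decide +kernel)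

def rowsR1_67 : List (ℕ × List ℤ) := [(2100, [40963516]),
  (1894595636094694400, [1])]

def MR1_67 : List (List ℤ) := [[5418415886567432000]]

def uR1_67 : List ℤ := [5418415886567432000]

def gR1_67 : List ℤ := [0, 0, 0, 0, 0, 0, 0, 0, 5418415886567432000]

theorem grR1_67 : eqM (gramT rowsR1_67) MR1_67 = true := by
  decide +kernel

theorem mvR1_67 : eqZ (mval MR1_67 tab67) uR1_67 = true := by
  decide +kernel

theorem nnR1_67 {κ ι : Type*} [Fintype κ] [Fintype ι] [Inhabited κ] [Inhabited ι] (E : Env κ ι) : 0 ≤ dot (ek E keys) gR1_67 0 :=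
  to_global E keys lk67 kl67 tr67 uR1_67 (blockG_nonneg _ _ _ (tri67 E) rowsR1_67 MR1_67 grR1_67 uR1_67 mvR1_67) 69 gR1_67 (by decide +kernel)

def rowsR1_68 : List (ℕ × List ℤ) := [(2100, [24141838]),
  (658055341534995600, [1])]

def MR1_68 : List (List ℤ) := [[1881994859773308000]]

def uR1_68 : List ℤ := [7527979439093232000]

def gR1_68 : List ℤ := [0, 0, 0, 0, 0, 7527979439093232000]

theorem grR1_68 : eqM (gramT rowsR1_68) MR1_68 = true := by
  decide +kernel

theorem mvR1_68 : eqZ (mval MR1_68 tab68) uR1_68 = true := by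
  decide +kernel

theorem nnR1_68 {κ ι : Type*} [Fintype κ] [Fintype ι] [Inhabited κ] [Inhabited ι] (E : Env κ ι) : 0 ≤ dot (ek E keys) gR1_68 0 :=
  to_global E keys lk68 kl68 tr68 uR1_68 (blockG_nonneg _ _ _ (tri68 E) rowsR1_68 MR1_68 grR1_68 uR1_68 mvR1_68) 69 gR1_68 (by decide +kernel)

def rowsR1_69 : List (ℕ × List ℤ) := [(2100, [2961690]),
  (9903773359901400, [1])]

def MR1_69 : List (List ℤ) := [[28324149437711400]]

def uR1_69 : List ℤ := [5438236692040588800, 10876473384081177600]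

def gR1_69 : List ℤ := [0, 0, 5438236692040588800, 0, 0, 0, 10876473384081177600]

theorem grR1_69 : eqM (gramT rowsR1_69) MR1_69 = true := by
  decide +kernel

theorem mvR1_69 : eqZ (mval MR1_69 tab69) uR1_69 = true := by
  decide +kernel

theorem nnR1_69 {κ ι : Type*} [Fintype κ] [Fintype ι] [Inhabited κ] [Inhabited ι] (E : Env κ ι) : 0 ≤ dot (ek E keys) gR1_69 0 :=
  to_global E keys lk69 kl69 tr69 uR1_69 (blockG_nonneg _ _ _ (tri69 E) rowsR1_69 MR1_69 grR1_69 uR1_69 mvR1_69) 69 gR1_69 (by decide +kernel)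

def rowsR1_70 : List (ℕ × List ℤ) := [(2100, [4914953]),
  (27274709385695100, [1])]

def MR1_70 : List (List ℤ) := [[78003911669334000]]

def uR1_70 : List ℤ := [7488375520256064000, -7488375520256064000]

def gR1_70 : List ℤ := [0, 0, 7488375520256064000, 0, 0, 0, -7488375520256064000]

theorem grR1_70 : eqM (gramT rowsR1_70) MR1_70 = true := by
  decide +kernel

theorem mvR1_70 : eqZ (mval MR1_70 tab70) uR1_70 = true := by
  decide +kernel

theorem nnR1_70 {κ ι : Type*} [Fintype κ] [Fintype ι] [Inhabited κ] [Inhabited ι] (E : Env κ ι) : 0 ≤ dot (ek E keys) gR1_70 0 :=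
  to_global E keys lk70 kl70 tr70 uR1_70 (blockG_nonneg _ _ _ (tri70 E) rowsR1_70 MR1_70 grR1_70 uR1_70 mvR1_70) 69 gR1_70 (by decide +kernel)

def rowsR1_71 : List (ℕ × List ℤ) := [(2100, [22694521]),
  (581519005389585900, [1])]

def MR1_71 : List (List ℤ) := [[1663105700570412000]]

def uR1_71 : List ℤ := [6652422802281648000]

def gR1_71 : List ℤ := [0, 0, 6652422802281648000]

theorem grR1_71 : eqM (gramT rowsR1_71) MR1_71 = true := by
  decide +kernel

theorem mvR1_71 : eqZ (mval MR1_71 tab71) uR1_71 = true := by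
  decide +kernel

theorem nnR1_71 {κ ι : Type*} [Fintype κ] [Fintype ι] [Inhabited κ] [Inhabited ι] (E : Env κ ι) : 0 ≤ dot (ek E keys) gR1_71 0 :=
  to_global E keys lk71 kl71 tr71 uR1_71 (blockG_nonneg _ _ _ (tri71 E) rowsR1_71 MR1_71 grR1_71 uR1_71 mvR1_71) 69 gR1_71 (by decide +kernel)

def rowsR1_72 : List (ℕ × List ℤ) := [(2100, [16085079]),
  (292124336220378900, [1])]

def MR1_72 : List (List ℤ) := [[835456845736485000]]

def uR1_72 : List ℤ := [6683654765891880000, 6683654765891880000]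

def gR1_72 : List ℤ := [0, 0, 0, 0, 0, 6683654765891880000, 6683654765891880000]

theorem grR1_72 : eqM (gramT rowsR1_72) MR1_72 = true := by
  decide +kernel

theorem mvR1_72 : eqZ (mval MR1_72 tab72) uR1_72 = true := by
  decide +kernel

theorem nnR1_72 {κ ι : Type*} [Fintype κ] [Fintype ι] [Inhabited κ] [Inhabited ι] (E : Env κ ι) : 0 ≤ dot (ek E keys) gR1_72 0 :=
  to_global E keys lk72 kl72 tr72 uR1_72 (blockG_nonneg _ _ _ (tri72 E) rowsR1_72 MR1_72 grR1_72 uR1_72 mvR1_72) 69 gR1_72 (by decide +kernel)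

def rowsR1_73 : List (ℕ × List ℤ) := [(2100, [18263363]),
  (376602188558072400, [1])]

def MR1_73 : List (List ℤ) := [[1077058087504587300]]

def uR1_73 : List ℤ := [8616464700036698400, -8616464700036698400]

def gR1_73 : List ℤ := [0, 0, 0, 0, 0, 8616464700036698400, -8616464700036698400]

theorem grR1_73 : eqM (gramT rowsR1_73) MR1_73 = true := by
  decide +kernel

theorem mvR1_73 : eqZ (mval MR1_73 tab73) uR1_73 = true := by
  decide +kernel

theorem nnR1_73 {κ ι : Type*} [Fintype κ] [Fintype ι] [Inhabited κ] [Inhabited ι] (E : Env κ ι) : 0 ≤ dot (ek E keys) gR1_73 0 :=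
  to_global E keys lk73 kl73 tr73 uR1_73 (blockG_nonneg _ _ _ (tri73 E) rowsR1_73 MR1_73 grR1_73 uR1_73 mvR1_73) 69 gR1_73 (by decide +kernel)

def rowsR1_74 : List (ℕ × List ℤ) := [(2100, [964893]),
  (1051187272737000, [1])]

def MR1_74 : List (List ℤ) := [[3006326125779900]]

def uR1_74 : List ℤ := [1154429232299481600, 4617716929197926400, 1154429232299481600]

def gR1_74 : List ℤ := [0, 0, 1154429232299481600, 0, 0, 4617716929197926400, 0, 0, 1154429232299481600]

theorem grR1_74 : eqM (gramT rowsR1_74) MR1_74 = true := by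
  decide +kernel

theorem mvR1_74 : eqZ (mval MR1_74 tab74) uR1_74 = true := by
  decide +kernel

theorem nnR1_74 {κ ι : Type*} [Fintype κ] [Fintype ι] [Inhabited κ] [Inhabited ι] (E : Env κ ι) : 0 ≤ dot (ek E keys) gR1_74 0 :=
  to_global E keys lk74 kl74 tr74 uR1_74 (blockG_nonneg _ _ _ (tri74 E) rowsR1_74 MR1_74 grR1_74 uR1_74 mvR1_74) 69 gR1_74 (by decide +kernel)

def rowsR1_75 : List (ℕ × List ℤ) := [(2100, [9707168]),
  (106391386504529700, [1])]

def MR1_75 : List (List ℤ) := [[304272518723000100]]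

def uR1_75 : List ℤ := [-29210161797408009600, 0, 29210161797408009600]

def gR1_75 : List ℤ := [0, 0, -29210161797408009600, 0, 0, 0, 0, 0, 29210161797408009600]

theorem grR1_75 : eqM (gramT rowsR1_75) MR1_75 = true := by
  decide +kernel

theorem mvR1_75 : eqZ (mval MR1_75 tab75) uR1_75 = true := by
  decide +kernel

theorem nnR1_75 {κ ι : Type*} [Fintype κ] [Fintype ι] [Inhabited κ] [Inhabited ι] (E : Env κ ι) : 0 ≤ dot (ek E keys) gR1_75 0 :=
  to_global E keys lk75 kl75 tr75 uR1_75 (blockG_nonneg _ _ _ (tri75 E) rowsR1_75 MR1_75 grR1_75 uR1_75 mvR1_75) 69 gR1_75 (by decide +kernel)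

def rowsR1_76 : List (ℕ × List ℤ) := [(2100, [4827839]),
  (26316429290988900, [1])]

def MR1_76 : List (List ℤ) := [[75263291051823000]]

def uR1_76 : List ℤ := [14450551881950016000, -28901103763900032000, 14450551881950016000]

def gR1_76 : List ℤ := [0, 0, 14450551881950016000, 0, 0, -28901103763900032000, 0, 0, 14450551881950016000]

theorem grR1_76 : eqM (gramT rowsR1_76) MR1_76 = true := by
  decide +kernel

theorem mvR1_76 : eqZ (mval MR1_76 tab76) uR1_76 = true := by
  decide +kernel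

theorem nnR1_76 {κ ι : Type*} [Fintype κ] [Fintype ι] [Inhabited κ] [Inhabited ι] (E : Env κ ι) : 0 ≤ dot (ek E keys) gR1_76 0 :=
  to_global E keys lk76 kl76 tr76 uR1_76 (blockG_nonneg _ _ _ (tri76 E) rowsR1_76 MR1_76 grR1_76 uR1_76 mvR1_76) 69 gR1_76 (by decide +kernel)

end YMBR
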