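import Pool.Agent.YM.BR.G1

set_option linter.unusedVariables false
set_option maxRecDepth 100000

open YMEng

namespace YMBR

def rowsR2_11 : List (ℕ × List ℤ) := [(210000, [0, 104391]),
  (1230394841550000, [0, 1])]

def MR2_11 : List (List ℤ) := [[0, 0],
  [3518865826560000]]

def uR2_11 : List ℤ := [0, 0, 0, 8107466864394240000, -32429867457576960000, 0, 0, 0, 0, 0, 0, 0, 0, 0, 0, 0, 0, 16214933728788480000, -32429867457576960000, 16214933728788480000, 32429867457576960000, -8107466864394240000]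

def gR2_11 : List ℤ := [0, 0, 0, 0, 0, 0, 0, 0, 0, 0, 0, 0, 0, 0, 0, 8107466864394240000, 0, -32429867457576960000, 0, 0, 0, 0, 0, 0, 0, 0, 0, 0, 0, 0, 0, 0, 0, 0, 0, 0, 0, 0, 0, 0, 0, 0, 0, 0, 0, 0, 0, 0, 0, 0, 0, 0, 0, 16214933728788480000, -32429867457576960000, 16214933728788480000, 0, 0, 32429867457576960000, 0, 0, 0, 0, 0, 0, 0, 0, -8107466864394240000]

theorem grR2_11 : eqM (gramT rowsR2_11) MR2_11 = true := by
  decide +kernel

theorem mvR2_11 : eqZ (mval MR2_11 tab11) uR2_11 = true := by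
  decide +kernel

theorem nnR2_11 {κ ι : Type*} [Fintype κ] [Fintype ι] [Inhabited κ] [Inhabited ι] (E : Env κ ι) : 0 ≤ dot (ek E keys) gR2_11 0 :=
  to_global E keys lk11 kl11 tr11 uR2_11 (blockG_nonneg _ _ _ (tri11 E) rowsR2_11 MR2_11 grR2_11 uR2_11 mvR2_11) 69 gR2_11 (by decide +kernel)

def rowsR2_12 : List (ℕ × List ℤ) := [(210000, [1849112, -2086183]),
  (210000, [0, 405121]),
  (8065558979275000, [1, 0]),
  (8068060589041250, [0, 1])]

def MR2_12 : List (List ℤ) := [[726100748573515000, -1620186128188320000],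
  [956487392756341250]]

def uR2_12 : List ℤ := [11477848713076095000, -11477848713076095000, -38884467076519680000, 38884467076519680000, 17426417965764360000, 11477848713076095000, -11477848713076095000, -17426417965764360000]

def gR2_12 : List ℤ := [0, 0, 0, 0, 0, 0, 0, 0, 0, 0, 0, 0, 0, 0, 0, 0, 0, 0, 0, 0, 0, 0, 11477848713076095000, 0, -11477848713076095000, -38884467076519680000, 38884467076519680000, 0, 0, 0, 17426417965764360000, 0, 0, 0, 0, 0, 0, 0, 11477848713076095000, -11477848713076095000, 0, 0, 0, 0, 0, -17426417965764360000]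

theorem grR2_12 : eqM (gramT rowsR2_12) MR2_12 = true := by
  decide +kernel

theorem mvR2_12 : eqZ (mval MR2_12 tab12) uR2_12 = true := by
  decide +kernel

theorem nnR2_12 {κ ι : Type*} [Fintype κ] [Fintype ι] [Inhabited κ] [Inhabited ι] (E : Env κ ι) : 0 ≤ dot (ek E keys) gR2_12 0 :=
  to_global E keys lk12 kl12 tr12 uR2_12 (blockG_nonneg _ _ _ (tri12 E) rowsR2_12 MR2_12 grR2_12 uR2_12 mvR2_12) 69 gR2_12 (by decide +kernel)

def rowsR2_13 : List (ℕ × List ℤ) := [(210000, [17120819]),
  (33095589193176125000, [1])]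

def MR2_13 : List (List ℤ) := [[94651302271635935000]]

def uR2_13 : List ℤ := [-378605209086543740000, -378605209086543740000, 378605209086543740000, 378605209086543740000]

def gR2_13 : List ℤ := [0, 0, 0, 0, 0, 0, 0, 0, 0, 0, 0, 0, 0, 0, 0, 0, 0, 0, 0, 0, 0, 0, -378605209086543740000, 0, -378605209086543740000, 0, 0, 0, 0, 0, 0, 0, 0, 0, 0, 0, 0, 0, 378605209086543740000, 378605209086543740000]

theorem grR2_13 : eqM (gramT rowsR2_13) MR2_13 = true := by
  decide +kernel

theorem mvR2_13 : eqZ (mval MR2_13 tab13) uR2_13 = true := by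
  decide +kernel

theorem nnR2_13 {κ ι : Type*} [Fintype κ] [Fintype ι] [Inhabited κ] [Inhabited ι] (E : Env κ ι) : 0 ≤ dot (ek E keys) gR2_13 0 :=
  to_global E keys lk13 kl13 tr13 uR2_13 (blockG_nonneg _ _ _ (tri13 E) rowsR2_13 MR2_13 grR2_13 uR2_13 mvR2_13) 69 gR2_13 (by decide +kernel)

def rowsR2_14 : List (ℕ × List ℤ) := [(210000, [549313]),
  (34069196035980000, [1])]

def MR2_14 : List (List ℤ) := [[97435598149470000]]

def uR2_14 : List ℤ := [-2338454355587280000, 4676908711174560000, 2338454355587280000, -4676908711174560000]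

def gR2_14 : List ℤ := [0, 0, 0, 0, 0, 0, 0, 0, 0, 0, 0, 0, 0, 0, 0, 0, 0, 0, 0, 0, 0, 0, -2338454355587280000, 0, 4676908711174560000, 0, 0, 0, 0, 0, 0, 0, 0, 0, 0, 0, 0, 0, 2338454355587280000, -4676908711174560000]

theorem grR2_14 : eqM (gramT rowsR2_14) MR2_14 = true := by
  decide +kernel

theorem mvR2_14 : eqZ (mval MR2_14 tab14) uR2_14 = true := by
  decide +kernel

theorem nnR2_14 {κ ι : Type*} [Fintype κ] [Fintype ι] [Inhabited κ] [Inhabited ι] (E : Env κ ι) : 0 ≤ dot (ek E keys) gR2_14 0 :=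
  to_global E keys lk14 kl14 tr14 uR2_14 (blockG_nonneg _ _ _ (tri14 E) rowsR2_14 MR2_14 grR2_14 uR2_14 mvR2_14) 69 gR2_14 (by decide +kernel)

def rowsR2_15 : List (ℕ × List ℤ) := [(210000, [66149]),
  (494047295490000, [1])]

def MR2_15 : List (List ℤ) := [[1412942237700000]]

def uR2_15 : List ℤ := [406927364457600000, 406927364457600000, -813854728915200000, -406927364457600000, -406927364457600000, -813854728915200000, -813854728915200000, 1627709457830400000, 0, 813854728915200000]

def gR2_15 : List ℤ := [0, 0, 0, 0, 0, 0, 0, 0, 0, 0, 0, 0, 406927364457600000, 406927364457600000, 0, 0, 0, 0, 0, 0, 0, 0, 0, 0, -813854728915200000, -406927364457600000, -406927364457600000, 0, 0, 0, 0, -813854728915200000, 0, 0, 0, 0, 0, -813854728915200000, 1627709457830400000, 0, 0, 0, 0, 0, 0, 0, 0, 0, 0, 0, 0, 0, 0, 0, 0, 0, 0, 0, 0, 0, 0, 0, 0, 0, 813854728915200000]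

theorem grR2_15 : eqM (gramT rowsR2_15) MR2_15 = true := by
  decide +kernel

theorem mvR2_15 : eqZ (mval MR2_15 tab15) uR2_15 = true := by
  decide +kernel

theorem nnR2_15 {κ ι : Type*} [Fintype κ] [Fintype ι] [Inhabited κ] [Inhabited ι] (E : Env κ ι) : 0 ≤ dot (ek E keys) gR2_15 0 :=
  to_global E keys lk15 kl15 tr15 uR2_15 (blockG_nonneg _ _ _ (tri15 E) rowsR2_15 MR2_15 grR2_15 uR2_15 mvR2_15) 69 gR2_15 (by decide +kernel)

def rowsR2_16 : List (ℕ × List ℤ) := [(210000, [283976, -133930]),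
  (210000, [0, 51305]),
  (242264667540000, [1, 0]),
  (242264667540000, [0, 1])]

def MR2_16 : List (List ℤ) := [[17177162068500000, -15973820385600000],
  [4561848731790000]]

def uR2_16 : List ℤ := [1552013191748880000, 921498146115120000, 2442206456005680000, -921498146115120000, -1552013191748880000, 2473511337864000000, -1811691410371920000, 630515045633760000, -1261030091267520000, -2473511337864000000]

def gR2_16 : List ℤ := [0, 0, 0, 0, 0, 0, 0, 0, 0, 0, 0, 0, 1552013191748880000, 921498146115120000, 0, 0, 0, 0, 0, 0, 0, 0, 0, 0, 2442206456005680000, -921498146115120000, -1552013191748880000, 0, 0, 0, 0, 2473511337864000000, 0, 0, 0, 0, 0, -1811691410371920000, 630515045633760000, -1261030091267520000, 0, 0, 0, 0, 0, 0, 0, 0, 0, 0, 0, 0, 0, 0, 0, 0, 0, 0, 0, 0, 0, 0, 0, 0, -2473511337864000000]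

theorem grR2_16 : eqM (gramT rowsR2_16) MR2_16 = true := by
  decide +kernel

theorem mvR2_16 : eqZ (mval MR2_16 tab16) uR2_16 = true := by
  decide +kernel

theorem nnR2_16 {κ ι : Type*} [Fintype κ] [Fintype ι] [Inhabited κ] [Inhabited ι] (E : Env κ ι) : 0 ≤ dot (ek E keys) gR2_16 0 :=
  to_global E keys lk16 kl16 tr16 uR2_16 (blockG_nonneg _ _ _ (tri16 E) rowsR2_16 MR2_16 grR2_16 uR2_16 mvR2_16) 69 gR2_16 (by decide +kernel)

def rowsR2_17 : List (ℕ × List ℤ) := [(210000, [4062244]),
  (1863173623879890000, [1])]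

def MR2_17 : List (List ℤ) := [[5328557150142450000]]

def uR2_17 : List ℤ := [383656114810256400000, -383656114810256400000, -767312229620512800000, -767312229620512800000, 767312229620512800000, 0, -767312229620512800000, 767312229620512800000, 767312229620512800000, 0]

def gR2_17 : List ℤ := [0, 0, 0, 0, 0, 0, 0, 0, 0, 0, 0, 0, 383656114810256400000, -383656114810256400000, 0, 0, 0, 0, 0, 0, 0, 0, 0, 0, -767312229620512800000, -767312229620512800000, 767312229620512800000, 0, 0, 0, 0, 0, 0, 0, 0, 0, 0, -767312229620512800000, 767312229620512800000, 767312229620512800000, 0, 0, 0, 0, 0, 0, 0, 0, 0, 0, 0, 0, 0, 0, 0, 0, 0, 0, 0, 0, 0, 0, 0, 0, 0]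

theorem grR2_17 : eqM (gramT rowsR2_17) MR2_17 = true := by
  decide +kernel

theorem mvR2_17 : eqZ (mval MR2_17 tab17) uR2_17 = true := by
  decide +kernel

theorem nnR2_17 {κ ι : Type*} [Fintype κ] [Fintype ι] [Inhabited κ] [Inhabited ι] (E : Env κ ι) : 0 ≤ dot (ek E keys) gR2_17 0 :=
  to_global E keys lk17 kl17 tr17 uR2_17 (blockG_nonneg _ _ _ (tri17 E) rowsR2_17 MR2_17 grR2_17 uR2_17 mvR2_17) 69 gR2_17 (by decide +kernel)

def rowsR2_18 : List (ℕ × List ℤ) := [(210000, [250446]),
  (7081880458590000, [1])]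

def MR2_18 : List (List ℤ) := [[20253752230950000]]

def uR2_18 : List ℤ := [2916540321256800000, 2916540321256800000, 2916540321256800000, -2916540321256800000, -2916540321256800000, -5833080642513600000, 2916540321256800000, -5833080642513600000, 0, 5833080642513600000]

def gR2_18 : List ℤ := [0, 0, 0, 0, 0, 0, 0, 0, 0, 0, 0, 0, 2916540321256800000, 2916540321256800000, 0, 0, 0, 0, 0, 0, 0, 0, 0, 0, 2916540321256800000, -2916540321256800000, -2916540321256800000, 0, 0, 0, 0, -5833080642513600000, 0, 0, 0, 0, 0, 2916540321256800000, -5833080642513600000, 0, 0, 0, 0, 0, 0, 0, 0, 0, 0, 0, 0, 0, 0, 0, 0, 0, 0, 0, 0, 0, 0, 0, 0, 0, 5833080642513600000]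

theorem grR2_18 : eqM (gramT rowsR2_18) MR2_18 = true := by
  decide +kernel

theorem mvR2_18 : eqZ (mval MR2_18 tab18) uR2_18 = true := by
  decide +kernel

theorem nnR2_18 {κ ι : Type*} [Fintype κ] [Fintype ι] [Inhabited κ] [Inhabited ι] (E : Env κ ι) : 0 ≤ dot (ek E keys) gR2_18 0 :=
  to_global E keys lk18 kl18 tr18 uR2_18 (blockG_nonneg _ _ _ (tri18 E) rowsR2_18 MR2_18 grR2_18 uR2_18 mvR2_18) 69 gR2_18 (by decide +kernel)

def rowsR2_19 : List (ℕ × List ℤ) := [(210000, [558746]),
  (35249225388090000, [1])]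

def MR2_19 : List (List ℤ) := [[100810614816450000]]

def uR2_19 : List ℤ := [12903758696505600000, -12903758696505600000, -12903758696505600000, 12903758696505600000, -12903758696505600000, -12903758696505600000, -25807517393011200000, 51615034786022400000]

def gR2_19 : List ℤ := [0, 0, 0, 0, 0, 0, 0, 0, 0, 0, 0, 0, 12903758696505600000, -12903758696505600000, 0, 0, 0, 0, 0, 0, 0, 0, 0, 0, -12903758696505600000, 12903758696505600000, -12903758696505600000, 0, 0, 0, 0, 0, 0, 0, 0, 0, 0, -12903758696505600000, -25807517393011200000, 51615034786022400000]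

theorem grR2_19 : eqM (gramT rowsR2_19) MR2_19 = true := by
  decide +kernel

theorem mvR2_19 : eqZ (mval MR2_19 tab19) uR2_19 = true := by
  decide +kernel

theorem nnR2_19 {κ ι : Type*} [Fintype κ] [Fintype ι] [Inhabited κ] [Inhabited ι] (E : Env κ ι) : 0 ≤ dot (ek E keys) gR2_19 0 :=
  to_global E keys lk19 kl19 tr19 uR2_19 (blockG_nonneg _ _ _ (tri19 E) rowsR2_19 MR2_19 grR2_19 uR2_19 mvR2_19) 69 gR2_19 (by decide +kernel)

def rowsR2_20 : List (ℕ × List ℤ) := [(210000, [132432]),
  (1980183827370000, [1])]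

def MR2_20 : List (List ℤ) := [[5663213098410000]]

def uR2_20 : List ℤ := [1087336914894720000, -1087336914894720000, 2174673829789440000, -2174673829789440000, 2174673829789440000, 2174673829789440000, -2174673829789440000, -2174673829789440000]

def gR2_20 : List ℤ := [0, 0, 0, 0, 0, 0, 0, 0, 0, 0, 0, 0, 1087336914894720000, -1087336914894720000, 0, 0, 0, 0, 0, 0, 0, 0, 0, 0, 2174673829789440000, -2174673829789440000, 2174673829789440000, 0, 0, 0, 0, 0, 0, 0, 0, 0, 0, 2174673829789440000, -2174673829789440000, -2174673829789440000]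

theorem grR2_20 : eqM (gramT rowsR2_20) MR2_20 = true := by
  decide +kernel

theorem mvR2_20 : eqZ (mval MR2_20 tab20) uR2_20 = true := by
  decide +kernel

theorem nnR2_20 {κ ι : Type*} [Fintype κ] [Fintype ι] [Inhabited κ] [Inhabited ι] (E : Env κ ι) : 0 ≤ dot (ek E keys) gR2_20 0 :=
  to_global E keys lk20 kl20 tr20 uR2_20 (blockG_nonneg _ _ _ (tri20 E) rowsR2_20 MR2_20 grR2_20 uR2_20 mvR2_20) 69 gR2_20 (by decide +kernel)

def rowsR2_21 : List (ℕ × List ℤ) := [(210000, [4569]),
  (2356719750000, [1])]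

def MR2_21 : List (List ℤ) := [[6740629560000]]

def uR2_21 : List ℤ := [465912315187200000, -310608210124800000, -465912315187200000, 77652052531200000, 0, 310608210124800000, 0, -77652052531200000]

def gR2_21 : List ℤ := [0, 0, 0, 0, 0, 0, 0, 0, 0, 0, 0, 0, 465912315187200000, 0, 0, 0, 0, 0, 0, 0, 0, 0, -310608210124800000, 0, 0, -465912315187200000, 0, 77652052531200000, 0, 0, 0, 0, 0, 0, 0, 0, 0, 310608210124800000, 0, 0, 0, 0, 0, 0, 0, -77652052531200000]

theorem grR2_21 : eqM (gramT rowsR2_21) MR2_21 = true := by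
  decide +kernel

theorem mvR2_21 : eqZ (mval MR2_21 tab21) uR2_21 = true := by
  decide +kernel

theorem nnR2_21 {κ ι : Type*} [Fintype κ] [Fintype ι] [Inhabited κ] [Inhabited ι] (E : Env κ ι) : 0 ≤ dot (ek E keys) gR2_21 0 :=
  to_global E keys lk21 kl21 tr21 uR2_21 (blockG_nonneg _ _ _ (tri21 E) rowsR2_21 MR2_21 grR2_21 uR2_21 mvR2_21) 69 gR2_21 (by decide +kernel)

def rowsR2_22 : List (ℕ × List ℤ) := [(210000, [10837]),
  (13258700490000, [1])]

def MR2_22 : List (List ℤ) := [[37921219980000]]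

def uR2_22 : List ℤ := [349481963335680000, 698963926671360000, -349481963335680000, 174740981667840000, 0, -698963926671360000, 0, -174740981667840000]

def gR2_22 : List ℤ := [0, 0, 0, 0, 0, 0, 0, 0, 0, 0, 0, 0, 349481963335680000, 0, 0, 0, 0, 0, 0, 0, 0, 0, 698963926671360000, 0, 0, -349481963335680000, 0, 174740981667840000, 0, 0, 0, 0, 0, 0, 0, 0, 0, -698963926671360000, 0, 0, 0, 0, 0, 0, 0, -174740981667840000]

theorem grR2_22 : eqM (gramT rowsR2_22) MR2_22 = true := by
  decide +kernel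

theorem mvR2_22 : eqZ (mval MR2_22 tab22) uR2_22 = true := by
  decide +kernel

theorem nnR2_22 {κ ι : Type*} [Fintype κ] [Fintype ι] [Inhabited κ] [Inhabited ι] (E : Env κ ι) : 0 ≤ dot (ek E keys) gR2_22 0 :=
  to_global E keys lk22 kl22 tr22 uR2_22 (blockG_nonneg _ _ _ (tri22 E) rowsR2_22 MR2_22 grR2_22 uR2_22 mvR2_22) 69 gR2_22 (by decide +kernel)

end YMBR
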