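import Pool.Agent.YM.BR.G2

set_option linter.unusedVariables false
set_option maxRecDepth 100000

open YMEng

namespace YMBR

def rowsR2_23 : List (ℕ × List ℤ) := [(210000, [17867]),
  (36041794110000, [1])]

def MR2_23 : List (List ℤ) := [[103080028800000]]

def uR2_23 : List ℤ := [0, 2137467477196800000, 0, 1068733738598400000, -3206201215795200000, 4274934954393600000, -6412402431590400000, 2137467477196800000]

def gR2_23 : List ℤ := [0, 0, 0, 0, 0, 0, 0, 0, 0, 0, 0, 0, 0, 0, 0, 0, 0, 0, 0, 0, 0, 0, 2137467477196800000, 0, 0, 0, 0, 1068733738598400000, 0, 0, -3206201215795200000, 0, 0, 0, 0, 0, 0, 4274934954393600000, -6412402431590400000, 0, 0, 0, 0, 0, 0, 2137467477196800000]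

theorem grR2_23 : eqM (gramT rowsR2_23) MR2_23 = true := by
  decide +kernel

theorem mvR2_23 : eqZ (mval MR2_23 tab23) uR2_23 = true := by
  decide +kernel

theorem nnR2_23 {κ ι : Type*} [Fintype κ] [Fintype ι] [Inhabited κ] [Inhabited ι] (E : Env κ ι) : 0 ≤ dot (ek E keys) gR2_23 0 :=
  to_global E keys lk23 kl23 tr23 uR2_23 (blockG_nonneg _ _ _ (tri23 E) rowsR2_23 MR2_23 grR2_23 uR2_23 mvR2_23) 69 gR2_23 (by decide +kernel)

def rowsR2_24 : List (ℕ × List ℤ) := [(210000, [11520]),
  (14983091760000, [1])]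

def MR2_24 : List (List ℤ) := [[42852275760000]]

def uR2_24 : List ℤ := [0, -5331508740956160000, 0, 1332877185239040000, -3998631555717120000, -10663017481912320000, 15994526222868480000, 2665754370478080000]

def gR2_24 : List ℤ := [0, 0, 0, 0, 0, 0, 0, 0, 0, 0, 0, 0, 0, 0, 0, 0, 0, 0, 0, 0, 0, 0, -5331508740956160000, 0, 0, 0, 0, 1332877185239040000, 0, 0, -3998631555717120000, 0, 0, 0, 0, 0, 0, -10663017481912320000, 15994526222868480000, 0, 0, 0, 0, 0, 0, 2665754370478080000]

theorem grR2_24 : eqM (gramT rowsR2_24) MR2_24 = true := by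
  decide +kernel

theorem mvR2_24 : eqZ (mval MR2_24 tab24) uR2_24 = true := by
  decide +kernel

theorem nnR2_24 {κ ι : Type*} [Fintype κ] [Fintype ι] [Inhabited κ] [Inhabited ι] (E : Env κ ι) : 0 ≤ dot (ek E keys) gR2_24 0 :=
  to_global E keys lk24 kl24 tr24 uR2_24 (blockG_nonneg _ _ _ (tri24 E) rowsR2_24 MR2_24 grR2_24 uR2_24 mvR2_24) 69 gR2_24 (by decide +kernel)

end YMBR
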