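import Pool.Agent.YM.BR.G3

set_option linter.unusedVariables false
set_option maxRecDepth 100000

open YMEng

namespace YMBR

def rowsR2_25 : List (ℕ × List ℤ) := [(210000, [61009]),
  (420248643150000, [1])]

def MR2_25 : List (List ℤ) := [[1201889240160000]]

def uR2_25 : List ℤ := [-11682363414355200000, -3894121138118400000, 11682363414355200000, 3894121138118400000, 0, 3894121138118400000, 0, -3894121138118400000]

def gR2_25 : List ℤ := [0, 0, 0, 0, 0, 0, 0, 0, 0, 0, 0, 0, -11682363414355200000, 0, 0, 0, 0, 0, 0, 0, 0, 0, -3894121138118400000, 0, 0, 11682363414355200000, 0, 3894121138118400000, 0, 0, 0, 0, 0, 0, 0, 0, 0, 3894121138118400000, 0, 0, 0, 0, 0, 0, 0, -3894121138118400000]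

theorem grR2_25 : eqM (gramT rowsR2_25) MR2_25 = true := by
  decide +kernel

theorem mvR2_25 : eqZ (mval MR2_25 tab25) uR2_25 = true := by
  decide +kernel

theorem nnR2_25 {κ ι : Type*} [Fintype κ] [Fintype ι] [Inhabited κ] [Inhabited ι] (E : Env κ ι) : 0 ≤ dot (ek E keys) gR2_25 0 :=
  to_global E keys lk25 kl25 tr25 uR2_25 (blockG_nonneg _ _ _ (tri25 E) rowsR2_25 MR2_25 grR2_25 uR2_25 mvR2_25) 69 gR2_25 (by decide +kernel)

def rowsR2_26 : List (ℕ × List ℤ) := [(210000, [0, 2867836]),
  (928711371078960000, [0, 1])]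

def MR2_26 : List (List ℤ) := [[0, 0],
  [2655852868887120000]]

def uR2_26 : List ℤ := [0, 0, 2655852868887120000]

def gR2_26 : List ℤ := [0, 0, 0, 0, 0, 0, 0, 0, 0, 0, 0, 0, 0, 0, 0, 0, 0, 0, 0, 0, 0, 0, 0, 0, 0, 0, 0, 0, 0, 0, 0, 0, 0, 0, 0, 0, 0, 0, 0, 0, 0, 0, 0, 0, 0, 0, 0, 0, 0, 0, 0, 0, 0, 0, 0, 0, 0, 0, 0, 0, 0, 0, 0, 2655852868887120000]

theorem grR2_26 : eqM (gramT rowsR2_26) MR2_26 = true := by
  decide +kernel

theorem mvR2_26 : eqZ (mval MR2_26 tab26) uR2_26 = true := by
  decide +kernel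

theorem nnR2_26 {κ ι : Type*} [Fintype κ] [Fintype ι] [Inhabited κ] [Inhabited ι] (E : Env κ ι) : 0 ≤ dot (ek E keys) gR2_26 0 :=
  to_global E keys lk26 kl26 tr26 uR2_26 (blockG_nonneg _ _ _ (tri26 E) rowsR2_26 MR2_26 grR2_26 uR2_26 mvR2_26) 69 gR2_26 (by decide +kernel)

def rowsR2_27 : List (ℕ × List ℤ) := [(210000, [60401361, -81478538, -45776374, 0, 51001560]),
  (210000, [0, 2193323, -1635073, 0, -376438]),
  (210000, [0, 0, 1875063, 0, -1414876]),
  (210000, [0, 0, 0, 0, 1690927]),
  (70540510950000, [0, 1, -1, 0, 0]),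
  (24768540930000, [0, 1, 0, 0, -1]),
  (13752832432500, [1, 0, 0, 0, 1]),
  (61173415957500, [1, 1, 0, 0, 0]),
  (11023037340000, [0, 0, 1, 0, 1]),
  (47130881357000000, [1, 0, 0, 0, 0]),
  (46548136587522500, [0, 1, 0, 0, 0]),
  (47250984146310000, [0, 0, 1, 0, 0]),
  (47812405159697500, [0, 0, 0, 0, 1])]

def MR2_27 : List (List ℤ) := [[766195332044592800000, -2066994004399059645000, -1161281222322905880000, 0, 1293836755097392065000],
  [1395194896903007690000, 1565006288721303960000, 0, -1745670491287038540000],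
  [441397138274701140000, 0, -981415642485600000000],
  [0, 0],
  [547341868554961690000]]

def uR2_27 : List ℤ := [0, 3064781328178371200000, -8267976017596238580000, 5175347020389568260000, -4645124889291623520000, 2189367474219846760000, 0, 0, 0, 6260025154885215840000, -6982681965148154160000, 2790389793806015380000, 0, 1765588553098804560000, -3925662569942400000000, 2790389793806015380000]

def gR2_27 : List ℤ := [0, 0, 0, 0, 0, 0, 0, 0, 0, 3064781328178371200000, -8267976017596238580000, 5175347020389568260000, 0, 0, -4645124889291623520000, 0, 0, 0, 0, 0, 0, 0, 0, 2189367474219846760000, 0, 0, 0, 0, 0, 0, 0, 0, 0, 0, 0, 0, 0, 0, 0, 0, 6260025154885215840000, -6982681965148154160000, 0, 2790389793806015380000, 0, 0, 1765588553098804560000, 0, 0, 0, -3925662569942400000000, 0, 0, 0, 0, 0, 0, 0, 0, 0, 0, 0, 2790389793806015380000]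

theorem grR2_27 : eqM (gramT rowsR2_27) MR2_27 = true := by
  decide +kernel

theorem mvR2_27 : eqZ (mval MR2_27 tab27) uR2_27 = true := by
  decide +kernel

theorem nnR2_27 {κ ι : Type*} [Fintype κ] [Fintype ι] [Inhabited κ] [Inhabited ι] (E : Env κ ι) : 0 ≤ dot (ek E keys) gR2_27 0 :=
  to_global E keys lk27 kl27 tr27 uR2_27 (blockG_nonneg _ _ _ (tri27 E) rowsR2_27 MR2_27 grR2_27 uR2_27 mvR2_27) 69 gR2_27 (by decide +kernel)

def rowsR2_28 : List (ℕ × List ℤ) := [(210000, [7673940]),
  (6647597222003570000, [1])]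

def MR2_28 : List (List ℤ) := [[19014361797959570000]]

def uR2_28 : List ℤ := [38028723595919140000, -38028723595919140000]

def gR2_28 : List ℤ := [0, 0, 0, 0, 0, 0, 0, 0, 0, 0, 0, 0, 0, 0, 0, 0, 0, 0, 0, 0, 0, 0, 0, 0, 0, 0, 0, 0, 0, 0, 0, 0, 0, 0, 0, 0, 0, 0, 0, 0, 0, 0, 0, 38028723595919140000, 0, 0, 0, 0, 0, 0, 0, 0, 0, 0, 0, 0, 0, 0, 0, 0, 0, 0, -38028723595919140000]

theorem grR2_28 : eqM (gramT rowsR2_28) MR2_28 = true := by
  decide +kernel

theorem mvR2_28 : eqZ (mval MR2_28 tab28) uR2_28 = true := by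
  decide +kernel

theorem nnR2_28 {κ ι : Type*} [Fintype κ] [Fintype ι] [Inhabited κ] [Inhabited ι] (E : Env κ ι) : 0 ≤ dot (ek E keys) gR2_28 0 :=
  to_global E keys lk28 kl28 tr28 uR2_28 (blockG_nonneg _ _ _ (tri28 E) rowsR2_28 MR2_28 grR2_28 uR2_28 mvR2_28) 69 gR2_28 (by decide +kernel)

def rowsR2_29 : List (ℕ × List ℤ) := [(210000, [443667, -662752, 0]),
  (210000, [0, 163974, 0]),
  (913385954880000, [1, 0, 0]),
  (913385954880000, [0, 1, 0])]

def MR2_29 : List (List ℤ) := [[42249871401570000, -123497300465280000, 0],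
  [98800200052680000, 0],
  [0]]

def uR2_29 : List ℤ := [0, 0, 4055987654550720000, 9484819205057280000, 0, 0, 0, -11855740844666880000, -11855740844666880000, -23711481689333760000, -23711481689333760000, 16223950618202880000, 4742409602528640000, 4742409602528640000, 0, 18969638410114560000, 9484819205057280000, 4055987654550720000, 9484819205057280000]

def gR2_29 : List ℤ := [0, 0, 0, 0, 0, 0, 0, 0, 0, 0, 0, 0, 0, 0, 0, 0, 0, 0, 0, 4055987654550720000, 0, 9484819205057280000, 0, 0, 0, 0, 0, 0, 0, 0, 0, 0, 0, -11855740844666880000, 0, 0, 0, 0, 0, 0, -11855740844666880000, -23711481689333760000, -23711481689333760000, 16223950618202880000, 0, 0, 0, 4742409602528640000, 4742409602528640000, 0, 0, 18969638410114560000, 9484819205057280000, 0, 0, 0, 0, 0, 0, 0, 0, 0, 0, 4055987654550720000, 0, 9484819205057280000]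

theorem grR2_29 : eqM (gramT rowsR2_29) MR2_29 = true := by
  decide +kernel

theorem mvR2_29 : eqZ (mval MR2_29 tab29) uR2_29 = true := by
  decide +kernel

theorem nnR2_29 {κ ι : Type*} [Fintype κ] [Fintype ι] [Inhabited κ] [Inhabited ι] (E : Env κ ι) : 0 ≤ dot (ek E keys) gR2_29 0 :=
  to_global E keys lk29 kl29 tr29 uR2_29 (blockG_nonneg _ _ _ (tri29 E) rowsR2_29 MR2_29 grR2_29 uR2_29 mvR2_29) 69 gR2_29 (by decide +kernel)

def rowsR2_30 : List (ℕ × List ℤ) := [(210000, [26956414, -2217097, -28209904]),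
  (210000, [0, 4818188, -8161614]),
  (210000, [0, 0, 822471]),
  (2122576680000, [1, 0, 1]),
  (14441829820530000, [1, 0, 0]),
  (14445194858850000, [0, 1, 0]),
  (14443072282170000, [0, 0, 1])]

def MR2_30 : List (List ℤ) := [[152610577657670370000, -25101293536266360000, -319383893227034160000],
  [5921840684116980000, 9752359215167520000],
  [181262733112069980000]]

def uR2_30 : List ℤ := [3662653863784088880000, 5931091101526937640000, 7665213437448819840000, -7665213437448819840000, 8870075527189605120000, -8870075527189605120000, 0, 828423911671602120000, 3521881683018077400000, -2693457771346475280000, -3237633330180462360000, -3662653863784088880000, -4350305594689679520000]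

def gR2_30 : List ℤ := [0, 0, 0, 0, 0, 0, 0, 0, 0, 0, 0, 0, 0, 0, 0, 0, 0, 0, 0, 3662653863784088880000, 0, 5931091101526937640000, 0, 0, 0, 0, 0, 0, 0, 0, 0, 0, 0, 7665213437448819840000, 0, 0, 0, 0, 0, 0, -7665213437448819840000, 8870075527189605120000, -8870075527189605120000, 0, 0, 0, 0, 828423911671602120000, 3521881683018077400000, 0, 0, -2693457771346475280000, -3237633330180462360000, 0, 0, 0, 0, 0, 0, 0, 0, 0, 0, -3662653863784088880000, 0, -4350305594689679520000]

theorem grR2_30 : eqM (gramT rowsR2_30) MR2_30 = true := by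
  decide +kernel

theorem mvR2_30 : eqZ (mval MR2_30 tab30) uR2_30 = true := by
  decide +kernel

theorem nnR2_30 {κ ι : Type*} [Fintype κ] [Fintype ι] [Inhabited κ] [Inhabited ι] (E : Env κ ι) : 0 ≤ dot (ek E keys) gR2_30 0 :=
  to_global E keys lk30 kl30 tr30 uR2_30 (blockG_nonneg _ _ _ (tri30 E) rowsR2_30 MR2_30 grR2_30 uR2_30 mvR2_30) 69 gR2_30 (by decide +kernel)

def rowsR2_31 : List (ℕ × List ℤ) := [(210000, [952639, -439350, 0]),
  (210000, [0, 710106, 0]),
  (41906335231320000, [1, 0, 0]),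
  (41906335231320000, [0, 1, 0])]

def MR2_31 : List (List ℤ) := [[232485758738730000, -175787616753000000, 0],
  [188334915515880000, 0],
  [0]]

def uR2_31 : List ℤ := [0, 0, 11159316419459040000, -4520037972381120000, 0, 0, 0, 8437805604144000000, 8437805604144000000, -8437805604144000000, -8437805604144000000, -22318632838918080000, 4520037972381120000, 4520037972381120000, 0, -9040075944762240000, -4520037972381120000, 11159316419459040000, 9040075944762240000]

def gR2_31 : List ℤ := [0, 0, 0, 0, 0, 0, 0, 0, 0, 0, 0, 0, 0, 0, 0, 0, 0, 0, 0, 11159316419459040000, 0, -4520037972381120000, 0, 0, 0, 0, 0, 0, 0, 0, 0, 0, 0, 8437805604144000000, 0, 0, 0, 0, 0, 0, 8437805604144000000, -8437805604144000000, -8437805604144000000, -22318632838918080000, 0, 0, 0, 4520037972381120000, 4520037972381120000, 0, 0, -9040075944762240000, -4520037972381120000, 0, 0, 0, 0, 0, 0, 0, 0, 0, 0, 11159316419459040000, 0, 9040075944762240000]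

theorem grR2_31 : eqM (gramT rowsR2_31) MR2_31 = true := by
  decide +kernel

theorem mvR2_31 : eqZ (mval MR2_31 tab31) uR2_31 = true := by
  decide +kernel

theorem nnR2_31 {κ ι : Type*} [Fintype κ] [Fintype ι] [Inhabited κ] [Inhabited ι] (E : Env κ ι) : 0 ≤ dot (ek E keys) gR2_31 0 :=
  to_global E keys lk31 kl31 tr31 uR2_31 (blockG_nonneg _ _ _ (tri31 E) rowsR2_31 MR2_31 grR2_31 uR2_31 mvR2_31) 69 gR2_31 (by decide +kernel)

def rowsR2_32 : List (ℕ × List ℤ) := [(210000, [1287883]),
  (187272634433010000, [1])]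

def MR2_32 : List (List ℤ) := [[535587584987700000]]

def uR2_32 : List ℤ := [-8569401359803200000, -8569401359803200000, 8569401359803200000, 17138802719606400000, -8569401359803200000]

def gR2_32 : List ℤ := [0, 0, 0, 0, 0, 0, 0, 0, 0, 0, 0, 0, 0, 0, 0, 0, 0, 0, 0, 0, 0, -8569401359803200000, 0, 0, 0, 0, 0, 0, 0, 0, 0, 0, 0, 0, 0, 0, 0, 0, 0, 0, 0, 0, 0, 0, 0, 0, 0, -8569401359803200000, 8569401359803200000, 0, 0, 17138802719606400000, -8569401359803200000]

theorem grR2_32 : eqM (gramT rowsR2_32) MR2_32 = true := by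
  decide +kernel

theorem mvR2_32 : eqZ (mval MR2_32 tab32) uR2_32 = true := by
  decide +kernel

theorem nnR2_32 {κ ι : Type*} [Fintype κ] [Fintype ι] [Inhabited κ] [Inhabited ι] (E : Env κ ι) : 0 ≤ dot (ek E keys) gR2_32 0 :=
  to_global E keys lk32 kl32 tr32 uR2_32 (blockG_nonneg _ _ _ (tri32 E) rowsR2_32 MR2_32 grR2_32 uR2_32 mvR2_32) 69 gR2_32 (by decide +kernel)

def rowsR2_33 : List (ℕ × List ℤ) := [(210000, [4497]),
  (2283771420000, [1])]

def MR2_33 : List (List ℤ) := [[6530603310000]]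

def uR2_33 : List ℤ := [75232550131200000, 150465100262400000, 601860401049600000, 150465100262400000, 601860401049600000, 601860401049600000, 1203720802099200000]

def gR2_33 : List ℤ := [0, 0, 0, 0, 0, 0, 0, 0, 0, 0, 0, 0, 0, 0, 0, 0, 75232550131200000, 0, 0, 0, 150465100262400000, 0, 0, 601860401049600000, 0, 0, 0, 0, 0, 0, 0, 0, 0, 0, 0, 0, 0, 0, 0, 0, 0, 0, 0, 0, 0, 0, 150465100262400000, 0, 601860401049600000, 0, 601860401049600000, 0, 1203720802099200000]

theorem grR2_33 : eqM (gramT rowsR2_33) MR2_33 = true := by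
  decide +kernel

theorem mvR2_33 : eqZ (mval MR2_33 tab33) uR2_33 = true := by
  decide +kernel

theorem nnR2_33 {κ ι : Type*} [Fintype κ] [Fintype ι] [Inhabited κ] [Inhabited ι] (E : Env κ ι) : 0 ≤ dot (ek E keys) gR2_33 0 :=
  to_global E keys lk33 kl33 tr33 uR2_33 (blockG_nonneg _ _ _ (tri33 E) rowsR2_33 MR2_33 grR2_33 uR2_33 mvR2_33) 69 gR2_33 (by decide +kernel)

def rowsR2_34 : List (ℕ × List ℤ) := [(210000, [211332]),
  (5042551463670000, [1])]

def MR2_34 : List (List ℤ) := [[14421406450710000]]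

def uR2_34 : List ℤ := [20766825289022400000, 41533650578044800000, -83067301156089600000, -20766825289022400000, 41533650578044800000, -83067301156089600000, 83067301156089600000]

def gR2_34 : List ℤ := [0, 0, 0, 0, 0, 0, 0, 0, 0, 0, 0, 0, 0, 0, 0, 0, 20766825289022400000, 0, 0, 0, 41533650578044800000, 0, 0, -83067301156089600000, 0, 0, 0, 0, 0, 0, 0, 0, 0, 0, 0, 0, 0, 0, 0, 0, 0, 0, 0, 0, 0, 0, -20766825289022400000, 0, 41533650578044800000, 0, -83067301156089600000, 0, 83067301156089600000]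

theorem grR2_34 : eqM (gramT rowsR2_34) MR2_34 = true := by
  decide +kernel

theorem mvR2_34 : eqZ (mval MR2_34 tab34) uR2_34 = true := by
  decide +kernel

theorem nnR2_34 {κ ι : Type*} [Fintype κ] [Fintype ι] [Inhabited κ] [Inhabited ι] (E : Env κ ι) : 0 ≤ dot (ek E keys) gR2_34 0 :=
  to_global E keys lk34 kl34 tr34 uR2_34 (blockG_nonneg _ _ _ (tri34 E) rowsR2_34 MR2_34 grR2_34 uR2_34 mvR2_34) 69 gR2_34 (by decide +kernel)

def rowsR2_35 : List (ℕ × List ℤ) := [(210000, [104537, -65977]),
  (210000, [0, 57572]),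
  (249850287750000, [1, 0]),
  (249850287750000, [0, 1])]

def MR2_35 : List (List ℤ) := [[2544727005240000, -2896755812580000],
  [1860025227480000]]

def uR2_35 : List ℤ := [3867720979046400000, 5904030721075200000, 3479674399488000000, 2127883779302400000, -4072619484057600000, 4164193521331200000, -15470883916185600000]

def gR2_35 : List ℤ := [0, 0, 0, 0, 0, 0, 0, 0, 0, 0, 0, 0, 0, 0, 0, 0, 3867720979046400000, 0, 0, 0, 5904030721075200000, 0, 0, 3479674399488000000, 0, 0, 0, 0, 0, 0, 0, 0, 0, 0, 0, 0, 0, 0, 0, 0, 0, 0, 0, 0, 0, 0, 2127883779302400000, 0, -4072619484057600000, 0, 4164193521331200000, 0, -15470883916185600000]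

theorem grR2_35 : eqM (gramT rowsR2_35) MR2_35 = true := by
  decide +kernel

theorem mvR2_35 : eqZ (mval MR2_35 tab35) uR2_35 = true := by
  decide +kernel

theorem nnR2_35 {κ ι : Type*} [Fintype κ] [Fintype ι] [Inhabited κ] [Inhabited ι] (E : Env κ ι) : 0 ≤ dot (ek E keys) gR2_35 0 :=
  to_global E keys lk35 kl35 tr35 uR2_35 (blockG_nonneg _ _ _ (tri35 E) rowsR2_35 MR2_35 grR2_35 uR2_35 mvR2_35) 69 gR2_35 (by decide +kernel)

def rowsR2_36 : List (ℕ × List ℤ) := [(210000, [374253]),
  (15814360926210000, [1])]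

def MR2_36 : List (List ℤ) := [[45228075608100000]]

def uR2_36 : List ℤ := [8141053609458000000, -8141053609458000000, -8141053609458000000, -8141053609458000000, -8141053609458000000, 16282107218916000000, 8141053609458000000]

def gR2_36 : List ℤ := [0, 0, 0, 0, 0, 0, 0, 0, 0, 0, 0, 0, 0, 0, 0, 0, 8141053609458000000, 0, 0, 0, -8141053609458000000, 0, 0, -8141053609458000000, 0, 0, 0, 0, 0, 0, 0, 0, 0, 0, 0, 0, 0, 0, 0, 0, 0, 0, 0, 0, 0, 0, -8141053609458000000, 0, -8141053609458000000, 0, 16282107218916000000, 0, 8141053609458000000]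

theorem grR2_36 : eqM (gramT rowsR2_36) MR2_36 = true := by
  decide +kernel

theorem mvR2_36 : eqZ (mval MR2_36 tab36) uR2_36 = true := by
  decide +kernel

theorem nnR2_36 {κ ι : Type*} [Fintype κ] [Fintype ι] [Inhabited κ] [Inhabited ι] (E : Env κ ι) : 0 ≤ dot (ek E keys) gR2_36 0 :=
  to_global E keys lk36 kl36 tr36 uR2_36 (blockG_nonneg _ _ _ (tri36 E) rowsR2_36 MR2_36 grR2_36 uR2_36 mvR2_36) 69 gR2_36 (by decide +kernel)

def rowsR2_37 : List (ℕ × List ℤ) := [(210000, [55147]),
  (343369248810000, [1])]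

def MR2_37 : List (List ℤ) := [[982019486700000]]

def uR2_37 : List ℤ := [2262572897356800000, -2262572897356800000, 4525145794713600000, 4525145794713600000, -9050291589427200000, -9050291589427200000, 9050291589427200000]

def gR2_37 : List ℤ := [0, 0, 0, 0, 0, 0, 0, 0, 0, 0, 0, 0, 0, 0, 0, 0, 2262572897356800000, 0, 0, 0, -2262572897356800000, 0, 0, 4525145794713600000, 0, 0, 0, 0, 0, 0, 0, 0, 0, 0, 0, 0, 0, 0, 0, 0, 0, 0, 0, 0, 0, 0, 4525145794713600000, 0, -9050291589427200000, 0, -9050291589427200000, 0, 9050291589427200000]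

theorem grR2_37 : eqM (gramT rowsR2_37) MR2_37 = true := by
  decide +kernel

theorem mvR2_37 : eqZ (mval MR2_37 tab37) uR2_37 = true := by
  decide +kernel

theorem nnR2_37 {κ ι : Type*} [Fintype κ] [Fintype ι] [Inhabited κ] [Inhabited ι] (E : Env κ ι) : 0 ≤ dot (ek E keys) gR2_37 0 :=
  to_global E keys lk37 kl37 tr37 uR2_37 (blockG_nonneg _ _ _ (tri37 E) rowsR2_37 MR2_37 grR2_37 uR2_37 mvR2_37) 69 gR2_37 (by decide +kernel)

def rowsR2_38 : List (ℕ × List ℤ) := [(210000, [0, 1780007]),
  (357757883146230000, [0, 1])]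

def MR2_38 : List (List ℤ) := [[0, 0],
  [1023127116356520000]]

def uR2_38 : List ℤ := [0, 0, 4092508465426080000]

def gR2_38 : List ℤ := [0, 0, 0, 0, 0, 0, 0, 0, 0, 0, 0, 0, 0, 0, 0, 0, 0, 0, 0, 0, 0, 0, 0, 0, 0, 0, 0, 0, 0, 0, 0, 0, 0, 0, 0, 0, 0, 0, 0, 0, 0, 0, 0, 0, 0, 0, 0, 0, 0, 0, 0, 0, 0, 0, 0, 0, 0, 0, 0, 0, 0, 0, 0, 0, 0, 4092508465426080000]

theorem grR2_38 : eqM (gramT rowsR2_38) MR2_38 = true := by
  decide +kernel

theorem mvR2_38 : eqZ (mval MR2_38 tab38) uR2_38 = true := by
  decide +kernel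

theorem nnR2_38 {κ ι : Type*} [Fintype κ] [Fintype ι] [Inhabited κ] [Inhabited ι] (E : Env κ ι) : 0 ≤ dot (ek E keys) gR2_38 0 :=
  to_global E keys lk38 kl38 tr38 uR2_38 (blockG_nonneg _ _ _ (tri38 E) rowsR2_38 MR2_38 grR2_38 uR2_38 mvR2_38) 69 gR2_38 (by decide +kernel)

def rowsR2_39 : List (ℕ × List ℤ) := [(210000, [17170684, -20389207, -16381960, 0, 19904419]),
  (210000, [0, 1298119, -868241, 0, 72491]),
  (210000, [0, 0, 1054814, 0, -1025286]),
  (210000, [0, 0, 0, 0, 834769]),
  (15716860536090000, [1, 0, 0, 0, 0]),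
  (15716860536090000, [0, 1, 0, 0, 0]),
  (15716860536090000, [0, 0, 1, 0, 0]),
  (15716860536090000, [0, 0, 0, 0, 1])]

def MR2_39 : List (List ℤ) := [[61930518556385850000, -147040584771186960000, -118141572553468800000, 0, 143544445318090320000],
  [87670740616208190000, 139812999214157220000, 0, -170411311249747680000],
  [56765085435094260000, 0, -137431485057877500000],
  [0, 0],
  [83582949141473880000]]

def uR2_39 : List ℤ := [0, 0, 454120683480754080000, 990888296902173600000, 1019346555596623800000, 350682962464832760000, 0, 0, 0, -1080399767212782240000, -1363290489997981440000, 350682962464832760000, 0, -1436144477374746720000, 2296711125089445120000, -2352649356338991360000, 0, 1118503993713257760000, -1363290489997981440000, 350682962464832760000, 668663593131791040000]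

def gR2_39 : List ℤ := [0, 0, 0, 0, 0, 0, 0, 0, 0, 0, 0, 0, 0, 0, 454120683480754080000, 0, 990888296902173600000, 0, 0, 0, 0, 1019346555596623800000, 0, 350682962464832760000, 0, 0, 0, 0, 0, 0, 0, 0, 0, 0, 0, 0, 0, 0, 0, 0, -1080399767212782240000, -1363290489997981440000, 350682962464832760000, 0, 0, 0, -1436144477374746720000, 2296711125089445120000, -2352649356338991360000, 0, 1118503993713257760000, -1363290489997981440000, 350682962464832760000, 0, 0, 0, 0, 0, 0, 0, 0, 0, 668663593131791040000]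

theorem grR2_39 : eqM (gramT rowsR2_39) MR2_39 = true := by
  decide +kernel

theorem mvR2_39 : eqZ (mval MR2_39 tab39) uR2_39 = true := by
  decide +kernel

theorem nnR2_39 {κ ι : Type*} [Fintype κ] [Fintype ι] [Inhabited κ] [Inhabited ι] (E : Env κ ι) : 0 ≤ dot (ek E keys) gR2_39 0 :=
  to_global E keys lk39 kl39 tr39 uR2_39 (blockG_nonneg _ _ _ (tri39 E) rowsR2_39 MR2_39 grR2_39 uR2_39 mvR2_39) 69 gR2_39 (by decide +kernel)

def rowsR2_40 : List (ℕ × List ℤ) := [(210000, [79097929, -50966441]),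
  (210000, [0, 1864750]),
  (277633820751210000, [1, 0]),
  (277633820751210000, [0, 1])]

def MR2_40 : List (List ℤ) := [[1314138931959449820000, -1693162771272289380000],
  [546499267982237220000]]

def uR2_40 : List ℤ := [4371994143857897760000, 5256555727837799280000, -5256555727837799280000, -13545302170178315040000, 5256555727837799280000, -4371994143857897760000, 13545302170178315040000, -5256555727837799280000]

def gR2_40 : List ℤ := [0, 0, 0, 0, 0, 0, 0, 0, 0, 0, 0, 0, 0, 0, 4371994143857897760000, 0, 0, 0, 0, 0, 0, 5256555727837799280000, 0, -5256555727837799280000, 0, 0, 0, 0, 0, 0, 0, 0, 0, 0, 0, 0, 0, 0, 0, 0, -13545302170178315040000, 0, 5256555727837799280000, 0, 0, 0, -4371994143857897760000, 0, 0, 0, 13545302170178315040000, 0, -5256555727837799280000]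

theorem grR2_40 : eqM (gramT rowsR2_40) MR2_40 = true := by
  decide +kernel

theorem mvR2_40 : eqZ (mval MR2_40 tab40) uR2_40 = true := by
  decide +kernel

theorem nnR2_40 {κ ι : Type*} [Fintype κ] [Fintype ι] [Inhabited κ] [Inhabited ι] (E : Env κ ι) : 0 ≤ dot (ek E keys) gR2_40 0 :=
  to_global E keys lk40 kl40 tr40 uR2_40 (blockG_nonneg _ _ _ (tri40 E) rowsR2_40 MR2_40 grR2_40 uR2_40 mvR2_40) 69 gR2_40 (by decide +kernel)

def rowsR2_41 : List (ℕ × List ℤ) := [(210000, [34476177]),
  (134202651424815470000, [1])]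

def MR2_41 : List (List ℤ) := [[383810075337234560000]]

def uR2_41 : List ℤ := [-1535240301348938240000, -1535240301348938240000, 1535240301348938240000, 1535240301348938240000]

def gR2_41 : List ℤ := [0, 0, 0, 0, 0, 0, 0, 0, 0, 0, 0, 0, 0, 0, 0, 0, 0, 0, 0, 0, 0, -1535240301348938240000, 0, -1535240301348938240000, 0, 0, 0, 0, 0, 0, 0, 0, 0, 0, 0, 0, 0, 0, 0, 0, 0, 0, 1535240301348938240000, 0, 0, 0, 0, 0, 0, 0, 0, 0, 1535240301348938240000]

theorem grR2_41 : eqM (gramT rowsR2_41) MR2_41 = true := by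
  decide +kernel

theorem mvR2_41 : eqZ (mval MR2_41 tab41) uR2_41 = true := by
  decide +kernel

theorem nnR2_41 {κ ι : Type*} [Fintype κ] [Fintype ι] [Inhabited κ] [Inhabited ι] (E : Env κ ι) : 0 ≤ dot (ek E keys) gR2_41 0 :=
  to_global E keys lk41 kl41 tr41 uR2_41 (blockG_nonneg _ _ _ (tri41 E) rowsR2_41 MR2_41 grR2_41 uR2_41 mvR2_41) 69 gR2_41 (by decide +kernel)

def rowsR2_42 : List (ℕ × List ℤ) := [(210000, [32860726, 13150703, -29919758]),
  (210000, [0, 926066, -3506565]),
  (210000, [0, 0, 1562610]),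
  (14746686444000000, [1, 0, 0]),
  (14703070743880625, [0, 1, 0]),
  (14746686444000000, [0, 0, 1])]

def MR2_42 : List (List ℤ) := [[226778482468329960000, 181499492155958760000, -412937687242209360000],
  [36512406473162530625, -166619528003528880000],
  [191099976733320690000]]

def uR2_42 : List ℤ := [292099251785300245000, -292099251785300245000, -2435913743739885360000, 907113929873319840000, 2784952161275901120000, -1451995937247670080000, 3303501497937674880000, 907113929873319840000, -1332956224028231040000, -3303501497937674880000, -907113929873319840000, 1528799813866565520000]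

def gR2_42 : List ℤ := [0, 0, 0, 0, 0, 292099251785300245000, -292099251785300245000, 0, 0, 0, 0, 0, 0, 0, 0, 0, 0, 0, 0, 0, 0, -2435913743739885360000, 0, 907113929873319840000, 0, 0, 0, 0, 2784952161275901120000, -1451995937247670080000, 0, 0, 0, 0, 0, 0, 0, 0, 0, 0, 0, 3303501497937674880000, 907113929873319840000, 0, -1332956224028231040000, 0, 0, 0, 0, 0, 0, -3303501497937674880000, -907113929873319840000, 0, 0, 0, 0, 0, 0, 0, 0, 0, 1528799813866565520000]

theorem grR2_42 : eqM (gramT rowsR2_42) MR2_42 = true := by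
  decide +kernel

theorem mvR2_42 : eqZ (mval MR2_42 tab42) uR2_42 = true := by
  decide +kernel

theorem nnR2_42 {κ ι : Type*} [Fintype κ] [Fintype ι] [Inhabited κ] [Inhabited ι] (E : Env κ ι) : 0 ≤ dot (ek E keys) gR2_42 0 :=
  to_global E keys lk42 kl42 tr42 uR2_42 (blockG_nonneg _ _ _ (tri42 E) rowsR2_42 MR2_42 grR2_42 uR2_42 mvR2_42) 69 gR2_42 (by decide +kernel)

def rowsR2_43 : List (ℕ × List ℤ) := [(210000, [136401, -118704, 0]),
  (210000, [0, 66561, 0]),
  (268035735870000, [1, 0, 0]),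
  (268035735870000, [0, 1, 0])]

def MR2_43 : List (List ℤ) := [[4175134624080000, -6800364607680000, 0],
  [4157447066640000, 0],
  [0]]

def uR2_43 : List ℤ := [0, 0, 0, 399114918397440000, 399114918397440000, 801625847823360000, 801625847823360000, 798229836794880000, 0, 0, 0, -2611340009349120000, 0, -1305670004674560000, 581579337830400000, 4004733228088320000, -1813110172554240000, 0, 399114918397440000, 399114918397440000, 0, -1305670004674560000, -2611340009349120000, 595163381944320000, 798229836794880000, 798229836794880000, 2401481532441600000]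

def gR2_43 : List ℤ := [0, 0, 0, 0, 0, 0, 0, 0, 0, 0, 399114918397440000, 399114918397440000, 0, 0, 0, 0, 0, 0, 0, 801625847823360000, 801625847823360000, 0, 0, 798229836794880000, 0, 0, 0, 0, 0, 0, 0, 0, 0, -2611340009349120000, 0, 0, 0, 0, 0, 0, -1305670004674560000, 581579337830400000, 4004733228088320000, -1813110172554240000, 0, 0, 0, 399114918397440000, 399114918397440000, 0, -1305670004674560000, -2611340009349120000, 595163381944320000, 0, 0, 0, 0, 0, 0, 0, 0, 0, 798229836794880000, 798229836794880000, 0, 2401481532441600000]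

theorem grR2_43 : eqM (gramT rowsR2_43) MR2_43 = true := by
  decide +kernel

theorem mvR2_43 : eqZ (mval MR2_43 tab43) uR2_43 = true := by
  decide +kernel

theorem nnR2_43 {κ ι : Type*} [Fintype κ] [Fintype ι] [Inhabited κ] [Inhabited ι] (E : Env κ ι) : 0 ≤ dot (ek E keys) gR2_43 0 :=
  to_global E keys lk43 kl43 tr43 uR2_43 (blockG_nonneg _ _ _ (tri43 E) rowsR2_43 MR2_43 grR2_43 uR2_43 mvR2_43) 69 gR2_43 (by decide +kernel)

end YMBR
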