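import Pool.Agent.YM.BR.G5

set_option linter.unusedVariables false
set_option maxRecDepth 100000

open YMEng

namespace YMBR

def rowsR2_56 : List (ℕ × List ℤ) := [(210000, [1609239]),
  (292389911206890000, [1])]

def MR2_56 : List (List ℤ) := [[836216444622300000]]

def uR2_56 : List ℤ := [963321344204889600000, 0, -1926642688409779200000, -963321344204889600000, 0, 1926642688409779200000, 0, -3853285376819558400000, 3853285376819558400000, 1926642688409779200000, 0, -1926642688409779200000]

def gR2_56 : List ℤ := [0, 0, 0, 0, 0, 0, 0, 0, 0, 963321344204889600000, 0, 0, 0, 0, -1926642688409779200000, 0, -963321344204889600000, 0, 0, 0, 0, 1926642688409779200000, 0, 0, 0, 0, 0, 0, 0, 0, 0, 0, 0, 0, 0, 0, 0, 0, 0, 0, 0, 0, -3853285376819558400000, 3853285376819558400000, 0, 0, 1926642688409779200000, 0, 0, 0, 0, 0, 0, 0, 0, 0, 0, 0, 0, 0, 0, 0, -1926642688409779200000]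

theorem grR2_56 : eqM (gramT rowsR2_56) MR2_56 = true := by
  decide +kernel

theorem mvR2_56 : eqZ (mval MR2_56 tab56) uR2_56 = true := by
  decide +kernel

theorem nnR2_56 {κ ι : Type*} [Fintype κ] [Fintype ι] [Inhabited κ] [Inhabited ι] (E : Env κ ι) : 0 ≤ dot (ek E keys) gR2_56 0 :=
  to_global E keys lk56 kl56 tr56 uR2_56 (blockG_nonneg _ _ _ (tri56 E) rowsR2_56 MR2_56 grR2_56 uR2_56 mvR2_56) 69 gR2_56 (by decide +kernel)

def rowsR2_57 : List (ℕ × List ℤ) := [(210000, [49490]),
  (276536682870000, [1])]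

def MR2_57 : List (List ℤ) := [[790881303870000]]

def uR2_57 : List ℤ := [2733285786174720000, 0, -5466571572349440000, -2733285786174720000, 0, -10933143144698880000, 0, 21866286289397760000, -21866286289397760000, 5466571572349440000, 0, 10933143144698880000]

def gR2_57 : List ℤ := [0, 0, 0, 0, 0, 0, 0, 0, 0, 2733285786174720000, 0, 0, 0, 0, -5466571572349440000, 0, -2733285786174720000, 0, 0, 0, 0, -10933143144698880000, 0, 0, 0, 0, 0, 0, 0, 0, 0, 0, 0, 0, 0, 0, 0, 0, 0, 0, 0, 0, 21866286289397760000, -21866286289397760000, 0, 0, 5466571572349440000, 0, 0, 0, 0, 0, 0, 0, 0, 0, 0, 0, 0, 0, 0, 0, 10933143144698880000]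

theorem grR2_57 : eqM (gramT rowsR2_57) MR2_57 = true := by
  decide +kernel

theorem mvR2_57 : eqZ (mval MR2_57 tab57) uR2_57 = true := by
  decide +kernel

theorem nnR2_57 {κ ι : Type*} [Fintype κ] [Fintype ι] [Inhabited κ] [Inhabited ι] (E : Env κ ι) : 0 ≤ dot (ek E keys) gR2_57 0 :=
  to_global E keys lk57 kl57 tr57 uR2_57 (blockG_nonneg _ _ _ (tri57 E) rowsR2_57 MR2_57 grR2_57 uR2_57 mvR2_57) 69 gR2_57 (by decide +kernel)

def rowsR2_58 : List (ℕ × List ℤ) := [(210000, [5608301]),
  (3551272164451410000, [1])]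

def MR2_58 : List (List ℤ) := [[10156410586837620000]]

def uR2_58 : List ℤ := [3656307811261543200000, -3656307811261543200000, -3656307811261543200000, 3656307811261543200000, -7312615622523086400000, -3656307811261543200000, 14625231245046172800000, 3656307811261543200000, 3656307811261543200000, -3656307811261543200000, -3656307811261543200000, -3656307811261543200000]

def gR2_58 : List ℤ := [0, 0, 0, 0, 0, 0, 0, 0, 0, 3656307811261543200000, -3656307811261543200000, 0, 0, 0, -3656307811261543200000, 0, 3656307811261543200000, 0, 0, -7312615622523086400000, 0, -3656307811261543200000, 0, 0, 0, 0, 0, 0, 0, 0, 0, 0, 0, 0, 0, 0, 0, 0, 0, 0, 14625231245046172800000, 0, 3656307811261543200000, 3656307811261543200000, 0, 0, -3656307811261543200000, 0, -3656307811261543200000, 0, 0, 0, 0, 0, 0, 0, 0, 0, 0, 0, 0, 0, -3656307811261543200000]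

theorem grR2_58 : eqM (gramT rowsR2_58) MR2_58 = true := by
  decide +kernel

theorem mvR2_58 : eqZ (mval MR2_58 tab58) uR2_58 = true := by
  decide +kernel

theorem nnR2_58 {κ ι : Type*} [Fintype κ] [Fintype ι] [Inhabited κ] [Inhabited ι] (E : Env κ ι) : 0 ≤ dot (ek E keys) gR2_58 0 :=
  to_global E keys lk58 kl58 tr58 uR2_58 (blockG_nonneg _ _ _ (tri58 E) rowsR2_58 MR2_58 grR2_58 uR2_58 mvR2_58) 69 gR2_58 (by decide +kernel)

def rowsR2_59 : List (ℕ × List ℤ) := [(210000, [2052975]),
  (475870544601690000, [1])]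

def MR2_59 : List (List ℤ) := [[1360958878232940000]]

def uR2_59 : List ℤ := [1469835588491575200000, -4409506765474725600000, 1469835588491575200000, -1469835588491575200000, 0, -1469835588491575200000, 0, -1469835588491575200000, 1469835588491575200000, -1469835588491575200000, 4409506765474725600000, 1469835588491575200000]

def gR2_59 : List ℤ := [0, 0, 0, 0, 0, 0, 0, 0, 0, 1469835588491575200000, -4409506765474725600000, 0, 0, 0, 1469835588491575200000, 0, -1469835588491575200000, 0, 0, 0, 0, -1469835588491575200000, 0, 0, 0, 0, 0, 0, 0, 0, 0, 0, 0, 0, 0, 0, 0, 0, 0, 0, 0, 0, -1469835588491575200000, 1469835588491575200000, 0, 0, -1469835588491575200000, 0, 4409506765474725600000, 0, 0, 0, 0, 0, 0, 0, 0, 0, 0, 0, 0, 0, 1469835588491575200000]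

theorem grR2_59 : eqM (gramT rowsR2_59) MR2_59 = true := by
  decide +kernel

theorem mvR2_59 : eqZ (mval MR2_59 tab59) uR2_59 = true := by
  decide +kernel

theorem nnR2_59 {κ ι : Type*} [Fintype κ] [Fintype ι] [Inhabited κ] [Inhabited ι] (E : Env κ ι) : 0 ≤ dot (ek E keys) gR2_59 0 :=
  to_global E keys lk59 kl59 tr59 uR2_59 (blockG_nonneg _ _ _ (tri59 E) rowsR2_59 MR2_59 grR2_59 uR2_59 mvR2_59) 69 gR2_59 (by decide +kernel)

def rowsR2_60 : List (ℕ × List ℤ) := [(210000, [31742]),
  (113760030300000, [1])]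

def MR2_60 : List (List ℤ) := [[325346488740000]]

def uR2_60 : List ℤ := [1499196620113920000, -5996786480455680000, 2998393240227840000, 1499196620113920000, -2998393240227840000, 2998393240227840000, -11993572960911360000, 5996786480455680000, 5996786480455680000, 2998393240227840000, -5996786480455680000, 2998393240227840000]

def gR2_60 : List ℤ := [0, 0, 0, 0, 0, 0, 0, 0, 0, 1499196620113920000, -5996786480455680000, 0, 0, 0, 2998393240227840000, 0, 1499196620113920000, 0, 0, -2998393240227840000, 0, 2998393240227840000, 0, 0, 0, 0, 0, 0, 0, 0, 0, 0, 0, 0, 0, 0, 0, 0, 0, 0, -11993572960911360000, 0, 5996786480455680000, 5996786480455680000, 0, 0, 2998393240227840000, 0, -5996786480455680000, 0, 0, 0, 0, 0, 0, 0, 0, 0, 0, 0, 0, 0, 2998393240227840000]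

theorem grR2_60 : eqM (gramT rowsR2_60) MR2_60 = true := by
  decide +kernel

theorem mvR2_60 : eqZ (mval MR2_60 tab60) uR2_60 = true := by
  decide +kernel

theorem nnR2_60 {κ ι : Type*} [Fintype κ] [Fintype ι] [Inhabited κ] [Inhabited ι] (E : Env κ ι) : 0 ≤ dot (ek E keys) gR2_60 0 :=
  to_global E keys lk60 kl60 tr60 uR2_60 (blockG_nonneg _ _ _ (tri60 E) rowsR2_60 MR2_60 grR2_60 uR2_60 mvR2_60) 69 gR2_60 (by decide +kernel)

def rowsR2_61 : List (ℕ × List ℤ) := [(210000, [61015176]),
  (420336465762375120000, [1])]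

def MR2_61 : List (List ℤ) := [[1202135323247680080000]]

def uR2_61 : List ℤ := [1202135323247680080000]

def gR2_61 : List ℤ := [0, 0, 0, 0, 0, 0, 0, 1202135323247680080000]

theorem grR2_61 : eqM (gramT rowsR2_61) MR2_61 = true := by
  decide +kernel

theorem mvR2_61 : eqZ (mval MR2_61 tab61) uR2_61 = true := by
  decide +kernel

theorem nnR2_61 {κ ι : Type*} [Fintype κ] [Fintype ι] [Inhabited κ] [Inhabited ι] (E : Env κ ι) : 0 ≤ dot (ek E keys) gR2_61 0 :=
  to_global E keys lk61 kl61 tr61 uR2_61 (blockG_nonneg _ _ _ (tri61 E) rowsR2_61 MR2_61 grR2_61 uR2_61 mvR2_61) 69 gR2_61 (by decide +kernel)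

def rowsR2_62 : List (ℕ × List ℤ) := [(210000, [39813499, 1827000]),
  (210000, [0, 10636570]),
  (12759584541399990000, [1, 0]),
  (12759578131861960000, [0, 1])]

def MR2_62 : List (List ℤ) := [[345633672092230200000, 30550490322660000000],
  [37219233708490960000]]

def uR2_62 : List ℤ := [148876934833963840000, 691267344184460400000, 691267344184460400000, 122201961290640000000]

def gR2_62 : List ℤ := [148876934833963840000, 0, 0, 691267344184460400000, 691267344184460400000, 0, 0, 0, 0, 0, 0, 0, 0, 0, 0, 0, 0, 0, 0, 0, 0, 0, 0, 0, 0, 0, 0, 0, 0, 0, 0, 0, 0, 0, 0, 0, 0, 0, 0, 0, 0, 0, 0, 0, 0, 0, 0, 0, 0, 0, 0, 0, 0, 0, 0, 0, 0, 0, 0, 0, 122201961290640000000]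

theorem grR2_62 : eqM (gramT rowsR2_62) MR2_62 = true := by
  decide +kernel

theorem mvR2_62 : eqZ (mval MR2_62 tab62) uR2_62 = true := by
  decide +kernel

theorem nnR2_62 {κ ι : Type*} [Fintype κ] [Fintype ι] [Inhabited κ] [Inhabited ι] (E : Env κ ι) : 0 ≤ dot (ek E keys) gR2_62 0 :=
  to_global E keys lk62 kl62 tr62 uR2_62 (blockG_nonneg _ _ _ (tri62 E) rowsR2_62 MR2_62 grR2_62 uR2_62 mvR2_62) 69 gR2_62 (by decide +kernel)

def rowsR2_63 : List (ℕ × List ℤ) := [(210000, [45269831]),
  (231387079893968880000, [1])]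

def MR2_63 : List (List ℤ) := [[661752175635366690000]]

def uR2_63 : List ℤ := [1323504351270733380000, -1323504351270733380000]

def gR2_63 : List ℤ := [0, 0, 0, 1323504351270733380000, -1323504351270733380000]

theorem grR2_63 : eqM (gramT rowsR2_63) MR2_63 = true := by
  decide +kernel

theorem mvR2_63 : eqZ (mval MR2_63 tab63) uR2_63 = true := by
  decide +kernel

theorem nnR2_63 {κ ι : Type*} [Fintype κ] [Fintype ι] [Inhabited κ] [Inhabited ι] (E : Env κ ι) : 0 ≤ dot (ek E keys) gR2_63 0 :=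
  to_global E keys lk63 kl63 tr63 uR2_63 (blockG_nonneg _ _ _ (tri63 E) rowsR2_63 MR2_63 grR2_63 uR2_63 mvR2_63) 69 gR2_63 (by decide +kernel)

def rowsR2_64 : List (ℕ × List ℤ) := [(210000, [2053874]),
  (476287179238710000, [1])]

def MR2_64 : List (List ℤ) := [[1362150844892670000]]

def uR2_64 : List ℤ := [130766481109696320000, 523065924438785280000, 130766481109696320000]

def gR2_64 : List ℤ := [0, 130766481109696320000, 0, 523065924438785280000, 0, 0, 0, 130766481109696320000]

theorem grR2_64 : eqM (gramT rowsR2_64) MR2_64 = true := by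
  decide +kernel

theorem mvR2_64 : eqZ (mval MR2_64 tab64) uR2_64 = true := by
  decide +kernel

theorem nnR2_64 {κ ι : Type*} [Fintype κ] [Fintype ι] [Inhabited κ] [Inhabited ι] (E : Env κ ι) : 0 ≤ dot (ek E keys) gR2_64 0 :=
  to_global E keys lk64 kl64 tr64 uR2_64 (blockG_nonneg _ _ _ (tri64 E) rowsR2_64 MR2_64 grR2_64 uR2_64 mvR2_64) 69 gR2_64 (by decide +kernel)

def rowsR2_65 : List (ℕ × List ℤ) := [(210000, [9196496]),
  (9549180319680120000, [1])]

def MR2_65 : List (List ℤ) := [[27310043442063480000]]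

def uR2_65 : List ℤ := [655441042609523520000, 0, -655441042609523520000]

def gR2_65 : List ℤ := [0, 655441042609523520000, 0, 0, 0, 0, 0, -655441042609523520000]

theorem grR2_65 : eqM (gramT rowsR2_65) MR2_65 = true := by
  decide +kernel

theorem mvR2_65 : eqZ (mval MR2_65 tab65) uR2_65 = true := by
  decide +kernel

theorem nnR2_65 {κ ι : Type*} [Fintype κ] [Fintype ι] [Inhabited κ] [Inhabited ι] (E : Env κ ι) : 0 ≤ dot (ek E keys) gR2_65 0 :=
  to_global E keys lk65 kl65 tr65 uR2_65 (blockG_nonneg _ _ _ (tri65 E) rowsR2_65 MR2_65 grR2_65 uR2_65 mvR2_65) 69 gR2_65 (by decide +kernel)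

def rowsR2_66 : List (ℕ × List ℤ) := [(210000, [8195875]),
  (7584239743086090000, [1])]

def MR2_66 : List (List ℤ) := [[21690436816367340000]]

def uR2_66 : List ℤ := [1041140967185632320000, -2082281934371264640000, 1041140967185632320000]

def gR2_66 : List ℤ := [0, 1041140967185632320000, 0, -2082281934371264640000, 0, 0, 0, 1041140967185632320000]

theorem grR2_66 : eqM (gramT rowsR2_66) MR2_66 = true := by
  decide +kernel

theorem mvR2_66 : eqZ (mval MR2_66 tab66) uR2_66 = true := by
  decide +kernel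

theorem nnR2_66 {κ ι : Type*} [Fintype κ] [Fintype ι] [Inhabited κ] [Inhabited ι] (E : Env κ ι) : 0 ≤ dot (ek E keys) gR2_66 0 :=
  to_global E keys lk66 kl66 tr66 uR2_66 (blockG_nonneg _ _ _ (tri66 E) rowsR2_66 MR2_66 grR2_66 uR2_66 mvR2_66) 69 gR2_66 (by decide +kernel)

def rowsR2_67 : List (ℕ × List ℤ) := [(210000, [38115677]),
  (164031878111915870000, [1])]

def MR2_67 : List (List ℤ) := [[469120893077264960000]]

def uR2_67 : List ℤ := [469120893077264960000]

def gR2_67 : List ℤ := [0, 0, 0, 0, 0, 0, 0, 0, 469120893077264960000]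

theorem grR2_67 : eqM (gramT rowsR2_67) MR2_67 = true := by
  decide +kernel

theorem mvR2_67 : eqZ (mval MR2_67 tab67) uR2_67 = true := by
  decide +kernel

theorem nnR2_67 {κ ι : Type*} [Fintype κ] [Fintype ι] [Inhabited κ] [Inhabited ι] (E : Env κ ι) : 0 ≤ dot (ek E keys) gR2_67 0 :=
  to_global E keys lk67 kl67 tr67 uR2_67 (blockG_nonneg _ _ _ (tri67 E) rowsR2_67 MR2_67 grR2_67 uR2_67 mvR2_67) 69 gR2_67 (by decide +kernel)

def rowsR2_68 : List (ℕ × List ℤ) := [(210000, [21687521]),
  (53105705259236070000, [1])]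

def MR2_68 : List (List ℤ) := [[151878904355578680000]]

def uR2_68 : List ℤ := [607515617422314720000]

def gR2_68 : List ℤ := [0, 0, 0, 0, 0, 607515617422314720000]

theorem grR2_68 : eqM (gramT rowsR2_68) MR2_68 = true := by
  decide +kernel

theorem mvR2_68 : eqZ (mval MR2_68 tab68) uR2_68 = true := by
  decide +kernel

theorem nnR2_68 {κ ι : Type*} [Fintype κ] [Fintype ι] [Inhabited κ] [Inhabited ι] (E : Env κ ι) : 0 ≤ dot (ek E keys) gR2_68 0 :=
  to_global E keys lk68 kl68 tr68 uR2_68 (blockG_nonneg _ _ _ (tri68 E) rowsR2_68 MR2_68 grR2_68 uR2_68 mvR2_68) 69 gR2_68 (by decide +kernel)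

def rowsR2_69 : List (ℕ × List ℤ) := [(210000, [3332964]),
  (1254245994263850000, [1])]

def MR2_69 : List (List ℤ) := [[3587062289576010000]]

def uR2_69 : List ℤ := [688715959598593920000, 1377431919197187840000]

def gR2_69 : List ℤ := [0, 0, 688715959598593920000, 0, 0, 0, 1377431919197187840000]

theorem grR2_69 : eqM (gramT rowsR2_69) MR2_69 = true := by
  decide +kernel

theorem mvR2_69 : eqZ (mval MR2_69 tab69) uR2_69 = true := by
  decide +kernel

theorem nnR2_69 {κ ι : Type*} [Fintype κ] [Fintype ι] [Inhabited κ] [Inhabited ι] (E : Env κ ι) : 0 ≤ dot (ek E keys) gR2_69 0 :=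
  to_global E keys lk69 kl69 tr69 uR2_69 (blockG_nonneg _ _ _ (tri69 E) rowsR2_69 MR2_69 grR2_69 uR2_69 mvR2_69) 69 gR2_69 (by decide +kernel)

def rowsR2_70 : List (ℕ × List ℤ) := [(210000, [4066510]),
  (1867088670939030000, [1])]

def MR2_70 : List (List ℤ) := [[5339754422760030000]]

def uR2_70 : List ℤ := [512616424584962880000, -512616424584962880000]

def gR2_70 : List ℤ := [0, 0, 512616424584962880000, 0, 0, 0, -512616424584962880000]

theorem grR2_70 : eqM (gramT rowsR2_70) MR2_70 = true := by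
  decide +kernel

theorem mvR2_70 : eqZ (mval MR2_70 tab70) uR2_70 = true := by
  decide +kernel

theorem nnR2_70 {κ ι : Type*} [Fintype κ] [Fintype ι] [Inhabited κ] [Inhabited ι] (E : Env κ ι) : 0 ≤ dot (ek E keys) gR2_70 0 :=
  to_global E keys lk70 kl70 tr70 uR2_70 (blockG_nonneg _ _ _ (tri70 E) rowsR2_70 MR2_70 grR2_70 uR2_70 mvR2_70) 69 gR2_70 (by decide +kernel)

def rowsR2_71 : List (ℕ × List ℤ) := [(210000, [20829156]),
  (48985223191707600000, [1])]

def MR2_71 : List (List ℤ) := [[140094508522898160000]]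

def uR2_71 : List ℤ := [560378034091592640000]

def gR2_71 : List ℤ := [0, 0, 560378034091592640000]

theorem grR2_71 : eqM (gramT rowsR2_71) MR2_71 = true := by
  decide +kernel

theorem mvR2_71 : eqZ (mval MR2_71 tab71) uR2_71 = true := by
  decide +kernel

theorem nnR2_71 {κ ι : Type*} [Fintype κ] [Fintype ι] [Inhabited κ] [Inhabited ι] (E : Env κ ι) : 0 ≤ dot (ek E keys) gR2_71 0 :=
  to_global E keys lk71 kl71 tr71 uR2_71 (blockG_nonneg _ _ _ (tri71 E) rowsR2_71 MR2_71 grR2_71 uR2_71 mvR2_71) 69 gR2_71 (by decide +kernel)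

def rowsR2_72 : List (ℕ × List ℤ) := [(210000, [16173997]),
  (29536298597791860000, [1])]

def MR2_72 : List (List ℤ) := [[84471916178553750000]]

def uR2_72 : List ℤ := [675775329428430000000, 675775329428430000000]

def gR2_72 : List ℤ := [0, 0, 0, 0, 0, 675775329428430000000, 675775329428430000000]

theorem grR2_72 : eqM (gramT rowsR2_72) MR2_72 = true := by
  decide +kernel

theorem mvR2_72 : eqZ (mval MR2_72 tab72) uR2_72 = true := by
  decide +kernel

theorem nnR2_72 {κ ι : Type*} [Fintype κ] [Fintype ι] [Inhabited κ] [Inhabited ι] (E : Env κ ι) : 0 ≤ dot (ek E keys) gR2_72 0 :=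
  to_global E keys lk72 kl72 tr72 uR2_72 (blockG_nonneg _ _ _ (tri72 E) rowsR2_72 MR2_72 grR2_72 uR2_72 mvR2_72) 69 gR2_72 (by decide +kernel)

def rowsR2_73 : List (ℕ × List ℤ) := [(210000, [14615019]),
  (24116823657567690000, [1])]

def MR2_73 : List (List ℤ) := [[68972567535343500000]]

def uR2_73 : List ℤ := [551780540282748000000, -551780540282748000000]

def gR2_73 : List ℤ := [0, 0, 0, 0, 0, 551780540282748000000, -551780540282748000000]

theorem grR2_73 : eqM (gramT rowsR2_73) MR2_73 = true := by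
  decide +kernel

theorem mvR2_73 : eqZ (mval MR2_73 tab73) uR2_73 = true := by
  decide +kernel

theorem nnR2_73 {κ ι : Type*} [Fintype κ] [Fintype ι] [Inhabited κ] [Inhabited ι] (E : Env κ ι) : 0 ≤ dot (ek E keys) gR2_73 0 :=
  to_global E keys lk73 kl73 tr73 uR2_73 (blockG_nonneg _ _ _ (tri73 E) rowsR2_73 MR2_73 grR2_73 uR2_73 mvR2_73) 69 gR2_73 (by decide +kernel)

def rowsR2_74 : List (ℕ × List ℤ) := [(210000, [876383]),
  (86717900923080000, [1])]

def MR2_74 : List (List ℤ) := [[248007805087770000]]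

def uR2_74 : List ℤ := [95234997153703680000, 380939988614814720000, 95234997153703680000]

def gR2_74 : List ℤ := [0, 0, 95234997153703680000, 0, 0, 380939988614814720000, 0, 0, 95234997153703680000]

theorem grR2_74 : eqM (gramT rowsR2_74) MR2_74 = true := by
  decide +kernel

theorem mvR2_74 : eqZ (mval MR2_74 tab74) uR2_74 = true := by
  decide +kernel

theorem nnR2_74 {κ ι : Type*} [Fintype κ] [Fintype ι] [Inhabited κ] [Inhabited ι] (E : Env κ ι) : 0 ≤ dot (ek E keys) gR2_74 0 :=
  to_global E keys lk74 kl74 tr74 uR2_74 (blockG_nonneg _ _ _ (tri74 E) rowsR2_74 MR2_74 grR2_74 uR2_74 mvR2_74) 69 gR2_74 (by decide +kernel)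

def rowsR2_75 : List (ℕ × List ℤ) := [(210000, [9639973]),
  (10492354446989940000, [1])]

def MR2_75 : List (List ℤ) := [[30007461129543030000]]

def uR2_75 : List ℤ := [-2880716268436130880000, 0, 2880716268436130880000]

def gR2_75 : List ℤ := [0, 0, -2880716268436130880000, 0, 0, 0, 0, 0, 2880716268436130880000]

theorem grR2_75 : eqM (gramT rowsR2_75) MR2_75 = true := by
  decide +kernel

theorem mvR2_75 : eqZ (mval MR2_75 tab75) uR2_75 = true := by
  decide +kernel

theorem nnR2_75 {κ ι : Type*} [Fintype κ] [Fintype ι] [Inhabited κ] [Inhabited ι] (E : Env κ ι) : 0 ≤ dot (ek E keys) gR2_75 0 :=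
  to_global E keys lk75 kl75 tr75 uR2_75 (blockG_nonneg _ _ _ (tri75 E) rowsR2_75 MR2_75 grR2_75 uR2_75 mvR2_75) 69 gR2_75 (by decide +kernel)

def rowsR2_76 : List (ℕ × List ℤ) := [(210000, [5083906]),
  (2918208953178540000, [1])]

def MR2_76 : List (List ℤ) := [[8345889998714100000]]

def uR2_76 : List ℤ := [1602410879753107200000, -3204821759506214400000, 1602410879753107200000]

def gR2_76 : List ℤ := [0, 0, 1602410879753107200000, 0, 0, -3204821759506214400000, 0, 0, 1602410879753107200000]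

theorem grR2_76 : eqM (gramT rowsR2_76) MR2_76 = true := by
  decide +kernel

theorem mvR2_76 : eqZ (mval MR2_76 tab76) uR2_76 = true := by
  decide +kernel

theorem nnR2_76 {κ ι : Type*} [Fintype κ] [Fintype ι] [Inhabited κ] [Inhabited ι] (E : Env κ ι) : 0 ≤ dot (ek E keys) gR2_76 0 :=
  to_global E keys lk76 kl76 tr76 uR2_76 (blockG_nonneg _ _ _ (tri76 E) rowsR2_76 MR2_76 grR2_76 uR2_76 mvR2_76) 69 gR2_76 (by decide +kernel)

end YMBR
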