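import Pool.Agent.YM.BR.Keys

set_option linter.unusedVariables false
set_option maxRecDepth 100000

open YMEng

namespace YMBR

def U1R0_0 : List (ℕ × ℤ) := [(0, 618492919756626880), (1, 7802412632313405120), (2, 2029255482211480320), (3, 2310098846542969440), (4, -1322664586539162720), (5, -291950031289553280), (6, 291950031289553280), (7, 2148312757978356480), (8, 20452251598031892800)]

theorem tRR0_0 : chkS keys 0 0 (keyCov keys U1R0_0) sCov
  [(1, 0, 0, 12816, 12816), (8, 16, 16, 12816, 12816), (15, 0, 0, 5517840, 5517840), (9, 16, 16, 3298320, 3298320), (16, 16, 16, 5517840, 5517840), (30, 33, 258, 1070130, 3280980), (17, 0, 0, 5517840, 5517840), (10, 1, 1, 1070130, 3280980), (18, 0, 0, 5517840, 5517840), (11, 1, 1, 1070130, 3280980), (19, 16, 16, 5517840, 5517840), (12, 33, 258, 1070130, 3280980), (20, 16, 16, 5517840, 5517840), (13, 33, 258, 1070130, 3280980), (53, 0, 0, 3298320, 3298320), (14, 1, 1, 1070130, 3280980), (9, 16, 16, 5517840, 5517840), (27, 528, 528, 5517840, 5517840)]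
  [(1, 618492919756626880), (8, 618492919756626880), (9, 28254664230345297920), (10, 2310098846542969440), (11, -1322664586539162720), (12, -291950031289553280), (13, 291950031289553280), (14, 2148312757978356480), (15, 7802412632313405120), (16, 2029255482211480320), (17, 2310098846542969440), (18, -1322664586539162720), (19, -291950031289553280), (20, 291950031289553280), (27, 20452251598031892800), (30, 2029255482211480320), (53, 2148312757978356480)] = true := by
  decide +kernel

def U1R0 : List (ℕ × ℤ) := U1R0_0

def rrR0 : List (ℕ × ℤ) := [(1, 618492919756626880), (8, 618492919756626880), (9, 28254664230345297920), (10, 2310098846542969440), (11, -1322664586539162720), (12, -291950031289553280), (13, 291950031289553280), (14, 2148312757978356480), (15, 7802412632313405120), (16, 2029255482211480320), (17, 2310098846542969440), (18, -1322664586539162720), (19, -291950031289553280), (20, 291950031289553280), (27, 20452251598031892800), (30, 2029255482211480320), (53, 2148312757978356480)]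

theorem hRR0 {κ ι : Type*} [Fintype κ] [Fintype ι] [Inhabited κ] [Inhabited ι] (E : Env κ ι) : inn E 0 0 (keyCov keys U1R0) sCov = dotS (ek E keys) rrR0 :=
  innS_eqZ E _ _ _ _ _ _ _ (chkS_sound E keys 0 0 _ _ _ _ tRR0_0) (by decide +kernel)

end YMBR
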