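import Pool.Agent.YM.BR.CR0_G0
import Pool.Agent.YM.BR.CR0_G1
import Pool.Agent.YM.BR.CR0_G2
import Pool.Agent.YM.BR.CR0_G3
import Pool.Agent.YM.BR.CR0_G4
import Pool.Agent.YM.BR.CR0_G5
import Pool.Agent.YM.BR.RR0

set_option linter.unusedVariables false
set_option maxRecDepth 100000

open YMEng

namespace YMBR

variable {κ ι : Type*} [Fintype κ] [Fintype ι] [Inhabited κ] [Inhabited ι]

theorem U1_chkR0 : eqZ (vsum [gR0_61, gR0_62, gR0_63, gR0_64, gR0_65, gR0_66, gR0_67, gR0_68, gR0_69, gR0_70, gR0_71, gR0_72, gR0_73, gR0_74, gR0_75, gR0_76]) (vadd (lS U1R0) (List.replicate 61 0)) = true := by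
  decide +kernel

theorem fin_chkR0 : eqZ (vadd (vsc ((20000000000000000 : ℕ) : ℤ) targetR0) (lS rrR0)) (vadd (vsum [gR0_0, gR0_1, gR0_2, gR0_3, gR0_4, gR0_5, gR0_6, gR0_7, gR0_8, gR0_9, gR0_10, gR0_11, gR0_12, gR0_13, gR0_14, gR0_15, gR0_16, gR0_17, gR0_18, gR0_19, gR0_20, gR0_21, gR0_22, gR0_23, gR0_24, gR0_25, gR0_26, gR0_27, gR0_28, gR0_29, gR0_30, gR0_31, gR0_32, gR0_33, gR0_34, gR0_35, gR0_36, gR0_37, gR0_38, gR0_39, gR0_40, gR0_41, gR0_42, gR0_43, gR0_44, gR0_45, gR0_46, gR0_47, gR0_48, gR0_49, gR0_50, gR0_51, gR0_52, gR0_53, gR0_54, gR0_55, gR0_56, gR0_57, gR0_58, gR0_59, gR0_60, List.replicate 69 0]) (lS U1R0)) = true := by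
  decide +kernel

/-- the certificate: `sval E = |m|² + |B|²` -/
theorem finalR0 (E : Env κ ι) (hs : sval E ≤ 1) : 0 ≤ dot (ek E keys) targetR0 0 := by
  have h1 : 0 ≤ dot (ek E keys) (lS U1R0) 0 := by
    have h2 : 0 ≤ dot (ek E keys) (vadd (lS U1R0) (List.replicate 61 0)) 0 := by
      rw [← eqZ_eq _ _ U1_chkR0]
      refine vsum_nonneg _ _ ?_
      simp only [List.forall_mem_cons]
      exact ⟨nnR0_61 E, nnR0_62 E, nnR0_63 E, nnR0_64 E, nnR0_65 E, nnR0_66 E, nnR0_67 E, nnR0_68 E, nnR0_69 E, nnR0_70 E, nnR0_71 E, nnR0_72 E, nnR0_73 E, nnR0_74 E, nnR0_75 E, nnR0_76 E, fun _ h => by simp at h⟩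
    rw [dot_vadd, dot_replicate, add_zero] at h2
    exact h2
  have h0 : 0 ≤ dot (ek E keys) (vsum [gR0_0, gR0_1, gR0_2, gR0_3, gR0_4, gR0_5, gR0_6, gR0_7, gR0_8, gR0_9, gR0_10, gR0_11, gR0_12, gR0_13, gR0_14, gR0_15, gR0_16, gR0_17, gR0_18, gR0_19, gR0_20, gR0_21, gR0_22, gR0_23, gR0_24, gR0_25, gR0_26, gR0_27, gR0_28, gR0_29, gR0_30, gR0_31, gR0_32, gR0_33, gR0_34, gR0_35, gR0_36, gR0_37, gR0_38, gR0_39, gR0_40, gR0_41, gR0_42, gR0_43, gR0_44, gR0_45, gR0_46, gR0_47, gR0_48, gR0_49, gR0_50, gR0_51, gR0_52, gR0_53, gR0_54, gR0_55, gR0_56, gR0_57, gR0_58, gR0_59, gR0_60, List.replicate 69 0]) 0 := by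
    refine vsum_nonneg _ _ ?_
    simp only [List.forall_mem_cons]
    exact ⟨nnR0_0 E, nnR0_1 E, nnR0_2 E, nnR0_3 E, nnR0_4 E, nnR0_5 E, nnR0_6 E, nnR0_7 E, nnR0_8 E, nnR0_9 E, nnR0_10 E, nnR0_11 E, nnR0_12 E, nnR0_13 E, nnR0_14 E, nnR0_15 E, nnR0_16 E, nnR0_17 E, nnR0_18 E, nnR0_19 E, nnR0_20 E, nnR0_21 E, nnR0_22 E, nnR0_23 E, nnR0_24 E, nnR0_25 E, nnR0_26 E, nnR0_27 E, nnR0_28 E, nnR0_29 E, nnR0_30 E, nnR0_31 E, nnR0_32 E, nnR0_33 E, nnR0_34 E, nnR0_35 E, nnR0_36 E, nnR0_37 E, nnR0_38 E, nnR0_39 E, nnR0_40 E, nnR0_41 E, nnR0_42 E, nnR0_43 E, nnR0_44 E, nnR0_45 E, nnR0_46 E, nnR0_47 E, nnR0_48 E, nnR0_49 E, nnR0_50 E, nnR0_51 E, nnR0_52 E, nnR0_53 E, nnR0_54 E, nnR0_55 E, nnR0_56 E, nnR0_57 E, nnR0_58 E, nnR0_59 E, nnR0_60 E, dot_replicate_nonneg _ _ _, fun _ h => by simp at h⟩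
  exact final_mult _ 20000000000000000 (by norm_num) targetR0 _ U1R0 rrR0 (sval E) hs h0 h1
    (mult_step E keys U1R0 rrR0 (hRR0 E)) fin_chkR0

end YMBR
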