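import Pool.Agent.YM.BR.Keys

set_option linter.unusedVariables false
set_option maxRecDepth 100000

open YMEng

namespace YMBR

def U1R1_0 : List (ℕ × ℤ) := [(0, 1542586870355272000), (1, 19536600060362196000), (2, 5973854331419788800), (3, 5628607547686691400), (4, -3764919536296812600), (5, -1455287929680295200), (6, 1455287929680295200), (7, 6238499474161617600), (8, 50233558798224939200), (60, 36987405930972000)]

theorem tRR1_0 : chkS keys 0 0 (keyCov keys U1R1_0) sCov
  [(1, 0, 0, 12816, 12816), (8, 16, 16, 12816, 12816), (15, 0, 0, 5517840, 5517840), (9, 16, 16, 3298320, 3298320), (16, 16, 16, 5517840, 5517840), (30, 33, 258, 1070130, 3280980), (17, 0, 0, 5517840, 5517840), (10, 1, 1, 1070130, 3280980), (18, 0, 0, 5517840, 5517840), (11, 1, 1, 1070130, 3280980), (19, 16, 16, 5517840, 5517840), (12, 33, 258, 1070130, 3280980), (20, 16, 16, 5517840, 5517840), (13, 33, 258, 1070130, 3280980), (53, 0, 0, 3298320, 3298320), (14, 1, 1, 1070130, 3280980), (9, 16, 16, 5517840, 5517840), (27, 528, 528, 5517840, 5517840), (61, 0, 0, 274960, 274960), (36, 1, 1, 66610, 135235)]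
  [(1, 1542586870355272000), (8, 1542586870355272000), (9, 69770158858587135200), (10, 5628607547686691400), (11, -3764919536296812600), (12, -1455287929680295200), (13, 1455287929680295200), (14, 6238499474161617600), (15, 19536600060362196000), (16, 5973854331419788800), (17, 5628607547686691400), (18, -3764919536296812600), (19, -1455287929680295200), (20, 1455287929680295200), (27, 50233558798224939200), (30, 5973854331419788800), (36, 36987405930972000), (53, 6238499474161617600), (61, 36987405930972000)] = true := by
  decide +kernel

def U1R1 : List (ℕ × ℤ) := U1R1_0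

def rrR1 : List (ℕ × ℤ) := [(1, 1542586870355272000), (8, 1542586870355272000), (9, 69770158858587135200), (10, 5628607547686691400), (11, -3764919536296812600), (12, -1455287929680295200), (13, 1455287929680295200), (14, 6238499474161617600), (15, 19536600060362196000), (16, 5973854331419788800), (17, 5628607547686691400), (18, -3764919536296812600), (19, -1455287929680295200), (20, 1455287929680295200), (27, 50233558798224939200), (30, 5973854331419788800), (36, 36987405930972000), (53, 6238499474161617600), (61, 36987405930972000)]

theorem hRR1 {κ ι : Type*} [Fintype κ] [Fintype ι] [Inhabited κ] [Inhabited ι] (E : Env κ ι) : inn E 0 0 (keyCov keys U1R1) sCov = dotS (ek E keys) rrR1 :=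
  innS_eqZ E _ _ _ _ _ _ _ (chkS_sound E keys 0 0 _ _ _ _ tRR1_0) (by decide +kernel)

end YMBR
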