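import Pool.Agent.YM.BR.CR1_G0
import Pool.Agent.YM.BR.CR1_G1
import Pool.Agent.YM.BR.CR1_G2
import Pool.Agent.YM.BR.CR1_G3
import Pool.Agent.YM.BR.CR1_G4
import Pool.Agent.YM.BR.CR1_G5
import Pool.Agent.YM.BR.RR1

set_option linter.unusedVariables false
set_option maxRecDepth 100000

open YMEng

namespace YMBR

variable {κ ι : Type*} [Fintype κ] [Fintype ι] [Inhabited κ] [Inhabited ι]

theorem U1_chkR1 : eqZ (vsum [gR1_61, gR1_62, gR1_63, gR1_64, gR1_65, gR1_66, gR1_67, gR1_68, gR1_69, gR1_70, gR1_71, gR1_72, gR1_73, gR1_74, gR1_75, gR1_76]) (vadd (lS U1R1) (List.replicate 61 0)) = true := by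
  decide +kernel

theorem fin_chkR1 : eqZ (vadd (vsc ((10000000000000000 : ℕ) : ℤ) targetR1) (lS rrR1)) (vadd (vsum [gR1_0, gR1_1, gR1_2, gR1_3, gR1_4, gR1_5, gR1_6, gR1_7, gR1_8, gR1_9, gR1_10, gR1_11, gR1_12, gR1_13, gR1_14, gR1_15, gR1_16, gR1_17, gR1_18, gR1_19, gR1_20, gR1_21, gR1_22, gR1_23, gR1_24, gR1_25, gR1_26, gR1_27, gR1_28, gR1_29, gR1_30, gR1_31, gR1_32, gR1_33, gR1_34, gR1_35, gR1_36, gR1_37, gR1_38, gR1_39, gR1_40, gR1_41, gR1_42, gR1_43, gR1_44, gR1_45, gR1_46, gR1_47, gR1_48, gR1_49, gR1_50, gR1_51, gR1_52, gR1_53, gR1_54, gR1_55, gR1_56, gR1_57, gR1_58, gR1_59, gR1_60, List.replicate 69 0]) (lS U1R1)) = true := by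
  decide +kernel

/-- the certificate: `sval E = |m|² + |B|²` -/
theorem finalR1 (E : Env κ ι) (hs : sval E ≤ 1) : 0 ≤ dot (ek E keys) targetR1 0 := by
  have h1 : 0 ≤ dot (ek E keys) (lS U1R1) 0 := by
    have h2 : 0 ≤ dot (ek E keys) (vadd (lS U1R1) (List.replicate 61 0)) 0 := by
      rw [← eqZ_eq _ _ U1_chkR1]
      refine vsum_nonneg _ _ ?_
      simp only [List.forall_mem_cons]
      exact ⟨nnR1_61 E, nnR1_62 E, nnR1_63 E, nnR1_64 E, nnR1_65 E, nnR1_66 E, nnR1_67 E, nnR1_68 E, nnR1_69 E, nnR1_70 E, nnR1_71 E, nnR1_72 E, nnR1_73 E, nnR1_74 E, nnR1_75 E, nnR1_76 E, fun _ h => by simp at h⟩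
    rw [dot_vadd, dot_replicate, add_zero] at h2
    exact h2
  have h0 : 0 ≤ dot (ek E keys) (vsum [gR1_0, gR1_1, gR1_2, gR1_3, gR1_4, gR1_5, gR1_6, gR1_7, gR1_8, gR1_9, gR1_10, gR1_11, gR1_12, gR1_13, gR1_14, gR1_15, gR1_16, gR1_17, gR1_18, gR1_19, gR1_20, gR1_21, gR1_22, gR1_23, gR1_24, gR1_25, gR1_26, gR1_27, gR1_28, gR1_29, gR1_30, gR1_31, gR1_32, gR1_33, gR1_34, gR1_35, gR1_36, gR1_37, gR1_38, gR1_39, gR1_40, gR1_41, gR1_42, gR1_43, gR1_44, gR1_45, gR1_46, gR1_47, gR1_48, gR1_49, gR1_50, gR1_51, gR1_52, gR1_53, gR1_54, gR1_55, gR1_56, gR1_57, gR1_58, gR1_59, gR1_60, List.replicate 69 0]) 0 := by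
    refine vsum_nonneg _ _ ?_
    simp only [List.forall_mem_cons]
    exact ⟨nnR1_0 E, nnR1_1 E, nnR1_2 E, nnR1_3 E, nnR1_4 E, nnR1_5 E, nnR1_6 E, nnR1_7 E, nnR1_8 E, nnR1_9 E, nnR1_10 E, nnR1_11 E, nnR1_12 E, nnR1_13 E, nnR1_14 E, nnR1_15 E, nnR1_16 E, nnR1_17 E, nnR1_18 E, nnR1_19 E, nnR1_20 E, nnR1_21 E, nnR1_22 E, nnR1_23 E, nnR1_24 E, nnR1_25 E, nnR1_26 E, nnR1_27 E, nnR1_28 E, nnR1_29 E, nnR1_30 E, nnR1_31 E, nnR1_32 E, nnR1_33 E, nnR1_34 E, nnR1_35 E, nnR1_36 E, nnR1_37 E, nnR1_38 E, nnR1_39 E, nnR1_40 E, nnR1_41 E, nnR1_42 E, nnR1_43 E, nnR1_44 E, nnR1_45 E, nnR1_46 E, nnR1_47 E, nnR1_48 E, nnR1_49 E, nnR1_50 E, nnR1_51 E, nnR1_52 E, nnR1_53 E, nnR1_54 E, nnR1_55 E, nnR1_56 E, nnR1_57 E, nnR1_58 E, nnR1_59 E, nnR1_60 E, dot_replicate_nonneg _ _ _, fun _ h => by simp at h⟩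
  exact final_mult _ 10000000000000000 (by norm_num) targetR1 _ U1R1 rrR1 (sval E) hs h0 h1
    (mult_step E keys U1R1 rrR1 (hRR1 E)) fin_chkR1

end YMBR
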