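import Pool.Agent.YM.BR.Keys

set_option linter.unusedVariables false
set_option maxRecDepth 100000

open YMEng

namespace YMBR

def U1R2_0 : List (ℕ × ℤ) := [(0, 148876934833963840000), (1, 1827348490904852160000), (2, 578640026745829440000), (3, 455555685522714420000), (4, -632237007086272980000), (5, -988810283757906960000), (6, 988810283757906960000), (7, 1718601728933485200000), (8, 5047483038420206720000), (60, 122201961290640000000)]

theorem tRR2_0 : chkS keys 0 0 (keyCov keys U1R2_0) sCov
  [(1, 0, 0, 12816, 12816), (8, 16, 16, 12816, 12816), (15, 0, 0, 5517840, 5517840), (9, 16, 16, 3298320, 3298320), (16, 16, 16, 5517840, 5517840), (30, 33, 258, 1070130, 3280980), (17, 0, 0, 5517840, 5517840), (10, 1, 1, 1070130, 3280980), (18, 0, 0, 5517840, 5517840), (11, 1, 1, 1070130, 3280980), (19, 16, 16, 5517840, 5517840), (12, 33, 258, 1070130, 3280980), (20, 16, 16, 5517840, 5517840), (13, 33, 258, 1070130, 3280980), (53, 0, 0, 3298320, 3298320), (14, 1, 1, 1070130, 3280980), (9, 16, 16, 5517840, 5517840), (27, 528, 528, 5517840, 5517840), (61, 0, 0, 274960, 274960), (36, 1, 1, 66610, 135235)]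
  [(1, 148876934833963840000), (8, 148876934833963840000), (9, 6874831529325058880000), (10, 455555685522714420000), (11, -632237007086272980000), (12, -988810283757906960000), (13, 988810283757906960000), (14, 1718601728933485200000), (15, 1827348490904852160000), (16, 578640026745829440000), (17, 455555685522714420000), (18, -632237007086272980000), (19, -988810283757906960000), (20, 988810283757906960000), (27, 5047483038420206720000), (30, 578640026745829440000), (36, 122201961290640000000), (53, 1718601728933485200000), (61, 122201961290640000000)] = true := by
  decide +kernel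

def U1R2 : List (ℕ × ℤ) := U1R2_0

def rrR2 : List (ℕ × ℤ) := [(1, 148876934833963840000), (8, 148876934833963840000), (9, 6874831529325058880000), (10, 455555685522714420000), (11, -632237007086272980000), (12, -988810283757906960000), (13, 988810283757906960000), (14, 1718601728933485200000), (15, 1827348490904852160000), (16, 578640026745829440000), (17, 455555685522714420000), (18, -632237007086272980000), (19, -988810283757906960000), (20, 988810283757906960000), (27, 5047483038420206720000), (30, 578640026745829440000), (36, 122201961290640000000), (53, 1718601728933485200000), (61, 122201961290640000000)]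

theorem hRR2 {κ ι : Type*} [Fintype κ] [Fintype ι] [Inhabited κ] [Inhabited ι] (E : Env κ ι) : inn E 0 0 (keyCov keys U1R2) sCov = dotS (ek E keys) rrR2 :=
  innS_eqZ E _ _ _ _ _ _ _ (chkS_sound E keys 0 0 _ _ _ _ tRR2_0) (by decide +kernel)

end YMBR
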