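import Pool.Agent.YM.BR.CR2_G0
import Pool.Agent.YM.BR.CR2_G1
import Pool.Agent.YM.BR.CR2_G2
import Pool.Agent.YM.BR.CR2_G3
import Pool.Agent.YM.BR.CR2_G4
import Pool.Agent.YM.BR.CR2_G5
import Pool.Agent.YM.BR.RR2

set_option linter.unusedVariables false
set_option maxRecDepth 100000

open YMEng

namespace YMBR

variable {κ ι : Type*} [Fintype κ] [Fintype ι] [Inhabited κ] [Inhabited ι]

theorem U1_chkR2 : eqZ (vsum [gR2_61, gR2_62, gR2_63, gR2_64, gR2_65, gR2_66, gR2_67, gR2_68, gR2_69, gR2_70, gR2_71, gR2_72, gR2_73, gR2_74, gR2_75, gR2_76]) (vadd (lS U1R2) (List.replicate 61 0)) = true := by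
  decide +kernel

theorem fin_chkR2 : eqZ (vadd (vsc ((20000000000000000 : ℕ) : ℤ) targetR2) (lS rrR2)) (vadd (vsum [gR2_0, gR2_1, gR2_2, gR2_3, gR2_4, gR2_5, gR2_6, gR2_7, gR2_8, gR2_9, gR2_10, gR2_11, gR2_12, gR2_13, gR2_14, gR2_15, gR2_16, gR2_17, gR2_18, gR2_19, gR2_20, gR2_21, gR2_22, gR2_23, gR2_24, gR2_25, gR2_26, gR2_27, gR2_28, gR2_29, gR2_30, gR2_31, gR2_32, gR2_33, gR2_34, gR2_35, gR2_36, gR2_37, gR2_38, gR2_39, gR2_40, gR2_41, gR2_42, gR2_43, gR2_44, gR2_45, gR2_46, gR2_47, gR2_48, gR2_49, gR2_50, gR2_51, gR2_52, gR2_53, gR2_54, gR2_55, gR2_56, gR2_57, gR2_58, gR2_59, gR2_60, List.replicate 69 0]) (lS U1R2)) = true := by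
  decide +kernel

/-- the certificate: `sval E = |m|² + |B|²` -/
theorem finalR2 (E : Env κ ι) (hs : sval E ≤ 1) : 0 ≤ dot (ek E keys) targetR2 0 := by
  have h1 : 0 ≤ dot (ek E keys) (lS U1R2) 0 := by
    have h2 : 0 ≤ dot (ek E keys) (vadd (lS U1R2) (List.replicate 61 0)) 0 := by
      rw [← eqZ_eq _ _ U1_chkR2]
      refine vsum_nonneg _ _ ?_
      simp only [List.forall_mem_cons]
      exact ⟨nnR2_61 E, nnR2_62 E, nnR2_63 E, nnR2_64 E, nnR2_65 E, nnR2_66 E, nnR2_67 E, nnR2_68 E, nnR2_69 E, nnR2_70 E, nnR2_71 E, nnR2_72 E, nnR2_73 E, nnR2_74 E, nnR2_75 E, nnR2_76 E, fun _ h => by simp at h⟩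
    rw [dot_vadd, dot_replicate, add_zero] at h2
    exact h2
  have h0 : 0 ≤ dot (ek E keys) (vsum [gR2_0, gR2_1, gR2_2, gR2_3, gR2_4, gR2_5, gR2_6, gR2_7, gR2_8, gR2_9, gR2_10, gR2_11, gR2_12, gR2_13, gR2_14, gR2_15, gR2_16, gR2_17, gR2_18, gR2_19, gR2_20, gR2_21, gR2_22, gR2_23, gR2_24, gR2_25, gR2_26, gR2_27, gR2_28, gR2_29, gR2_30, gR2_31, gR2_32, gR2_33, gR2_34, gR2_35, gR2_36, gR2_37, gR2_38, gR2_39, gR2_40, gR2_41, gR2_42, gR2_43, gR2_44, gR2_45, gR2_46, gR2_47, gR2_48, gR2_49, gR2_50, gR2_51, gR2_52, gR2_53, gR2_54, gR2_55, gR2_56, gR2_57, gR2_58, gR2_59, gR2_60, List.replicate 69 0]) 0 := by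
    refine vsum_nonneg _ _ ?_
    simp only [List.forall_mem_cons]
    exact ⟨nnR2_0 E, nnR2_1 E, nnR2_2 E, nnR2_3 E, nnR2_4 E, nnR2_5 E, nnR2_6 E, nnR2_7 E, nnR2_8 E, nnR2_9 E, nnR2_10 E, nnR2_11 E, nnR2_12 E, nnR2_13 E, nnR2_14 E, nnR2_15 E, nnR2_16 E, nnR2_17 E, nnR2_18 E, nnR2_19 E, nnR2_20 E, nnR2_21 E, nnR2_22 E, nnR2_23 E, nnR2_24 E, nnR2_25 E, nnR2_26 E, nnR2_27 E, nnR2_28 E, nnR2_29 E, nnR2_30 E, nnR2_31 E, nnR2_32 E, nnR2_33 E, nnR2_34 E, nnR2_35 E, nnR2_36 E, nnR2_37 E, nnR2_38 E, nnR2_39 E, nnR2_40 E, nnR2_41 E, nnR2_42 E, nnR2_43 E, nnR2_44 E, nnR2_45 E, nnR2_46 E, nnR2_47 E, nnR2_48 E, nnR2_49 E, nnR2_50 E, nnR2_51 E, nnR2_52 E, nnR2_53 E, nnR2_54 E, nnR2_55 E, nnR2_56 E, nnR2_57 E, nnR2_58 E, nnR2_59 E, nnR2_60 E, dot_replicate_nonneg _ _ _, fun _ h => by simp at h⟩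
  exact final_mult _ 20000000000000000 (by norm_num) targetR2 _ U1R2 rrR2 (sval E) hs h0 h1
    (mult_step E keys U1R2 rrR2 (hRR2 E)) fin_chkR2

end YMBR
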