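import Pool.Agent.YM.BR.Keys

set_option linter.unusedVariables false
set_option maxRecDepth 100000

open YMEng

namespace YMBR

def dg9 : List (ℤ × ℕ) := [(Int.ofNat 240, 5517840), (Int.ofNat 120, 4534800), (Int.ofNat 240, 5456400), (Int.ofNat 120, 3490320), (Int.ofNat 120, 4411920), (Int.ofNat 120, 3428880), (Int.ofNat 240, 5514000), (Int.ofNat 120, 4530960), (Int.ofNat 240, 5391120), (Int.ofNat 120, 2442000), (Int.ofNat 120, 4346640), (Int.ofNat 120, 2380560), (Int.ofNat 240, 5448720), (Int.ofNat 120, 3482640), (Int.ofNat 240, 5387280), (Int.ofNat 120, 2438160), (Int.ofNat 120, 3298320), (Int.ofNat 120, 2315280), (Int.ofNat 120, 4400400), (Int.ofNat 120, 3417360), (Int.ofNat 120, 4338960), (Int.ofNat 120, 2372880), (Int.ofNat 120, 3294480), (Int.ofNat 120, 2311440), (Int.ofNat 240, 5517600), (Int.ofNat 120, 4534560), (Int.ofNat 240, 5456160), (Int.ofNat 120, 3490080), (Int.ofNat 120, 4411680), (Int.ofNat 120, 3428640), (Int.ofNat 240, 5509920), (Int.ofNat 120,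 4526880), (Int.ofNat 240, 5325600), (Int.ofNat 120, 1393440), (Int.ofNat 120, 4281120), (Int.ofNat 120, 1332000), (Int.ofNat 240, 5444640), (Int.ofNat 120, 3478560), (Int.ofNat 240, 5321760), (Int.ofNat 120, 1389600), (Int.ofNat 120, 3232800), (Int.ofNat 120, 1266720), (Int.ofNat 120, 4396320), (Int.ofNat 120, 3413280), (Int.ofNat 120, 4273440), (Int.ofNat 120, 1324320), (Int.ofNat 120, 3228960), (Int.ofNat 120, 1262880), (Int.ofNat 240, 5513520), (Int.ofNat 120, 4530480), (Int.ofNat 240, 5390640), (Int.ofNat 120, 2441520), (Int.ofNat 120, 4346160), (Int.ofNat 120, 2380080), (Int.ofNat 240, 5509680), (Int.ofNat 120, 4526640), (Int.ofNat 240, 5325360), (Int.ofNat 120, 1393200), (Int.ofNat 120, 4280880), (Int.ofNat 120, 1331760), (Int.ofNat 240, 5379120), (Int.ofNat 120, 2430000), (Int.ofNat 240, 5317680), (Int.ofNat 120, 1385520), (Int.ofNat 120, 2184240), (Int.ofNat 120, 1201200), (Int.ofNat 120, 4330800), (Int.ofNat 120, 2364720), (Int.ofNat 120, 4269360), (Int.ofNat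 120, 1320240), (Int.ofNat 120, 2180400), (Int.ofNat 120, 1197360), (Int.ofNat 240, 5448000), (Int.ofNat 120, 3481920), (Int.ofNat 240, 5386560), (Int.ofNat 120, 2437440), (Int.ofNat 120, 3297600), (Int.ofNat 120, 2314560), (Int.ofNat 240, 5444160), (Int.ofNat 120, 3478080), (Int.ofNat 240, 5321280), (Int.ofNat 120, 1389120), (Int.ofNat 120, 3232320), (Int.ofNat 120, 1266240), (Int.ofNat 240, 5378880), (Int.ofNat 120, 2429760), (Int.ofNat 240, 5317440), (Int.ofNat 120, 1385280), (Int.ofNat 120, 2184000), (Int.ofNat 120, 1200960), (Int.ofNat 120, 3282240), (Int.ofNat 120, 2299200), (Int.ofNat 120, 3220800), (Int.ofNat 120, 1254720), (Int.ofNat 120, 2176320), (Int.ofNat 120, 1193280), (Int.ofNat 120, 4399440), (Int.ofNat 120, 3416400), (Int.ofNat 120, 4338000), (Int.ofNat 120, 2371920), (Int.ofNat 120, 3293520), (Int.ofNat 120, 2310480), (Int.ofNat 120, 4395600), (Int.ofNat 120, 3412560), (Int.ofNat 120, 4272720), (Int.ofNat 120, 1323600), (Int.ofNat 120, 3228240),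 (Int.ofNat 120, 1262160), (Int.ofNat 120, 4330320), (Int.ofNat 120, 2364240), (Int.ofNat 120, 4268880), (Int.ofNat 120, 1319760), (Int.ofNat 120, 2179920), (Int.ofNat 120, 1196880), (Int.ofNat 120, 3282000), (Int.ofNat 120, 2298960), (Int.ofNat 120, 3220560), (Int.ofNat 120, 1254480), (Int.ofNat 120, 2176080), (Int.ofNat 120, 1193040), (Int.ofNat 120, 5517825), (Int.ofNat 120, 5456385), (Int.ofNat 120, 5513985), (Int.ofNat 120, 5391105), (Int.ofNat 120, 5448705), (Int.ofNat 120, 5387265), (Int.ofNat 120, 5517345), (Int.ofNat 120, 5455905), (Int.ofNat 120, 5505825), (Int.ofNat 120, 5260065), (Int.negSucc 119, 344865), (Int.negSucc 119, 283425), (Int.ofNat 120, 5440545), (Int.ofNat 120, 5256225), (Int.negSucc 119, 341025), (Int.negSucc 119, 218145), (Int.negSucc 119, 275745), (Int.negSucc 119, 214305), (Int.ofNat 120, 5513265), (Int.ofNat 120, 5390385), (Int.ofNat 120, 5505585), (Int.ofNat 120, 5259825), (Int.negSucc 119, 344625), (Int.negSucc 119, 283185), (Int.ofNat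 120, 5375025), (Int.ofNat 120, 5252145), (Int.negSucc 119, 336945), (Int.negSucc 119, 152625), (Int.negSucc 119, 271665), (Int.negSucc 119, 148785), (Int.ofNat 120, 5447745), (Int.ofNat 120, 5386305), (Int.ofNat 120, 5440065), (Int.ofNat 120, 5255745), (Int.negSucc 119, 340545), (Int.negSucc 119, 217665), (Int.ofNat 120, 5374785), (Int.ofNat 120, 5251905), (Int.negSucc 119, 336705), (Int.negSucc 119, 152385), (Int.negSucc 119, 206145), (Int.negSucc 119, 144705), (Int.negSucc 119, 275025), (Int.negSucc 119, 213585), (Int.negSucc 119, 271185), (Int.negSucc 119, 148305), (Int.negSucc 119, 205905), (Int.negSucc 119, 144465), (Int.ofNat 120, 5517570), (Int.ofNat 120, 5456130), (Int.ofNat 120, 5509890), (Int.ofNat 120, 5325570), (Int.ofNat 120, 5444610), (Int.ofNat 120, 5321730), (Int.ofNat 120, 5517330), (Int.ofNat 120, 5455890), (Int.ofNat 120, 5505810), (Int.ofNat 120, 5260050), (Int.negSucc 119, 344850), (Int.negSucc 119, 283410), (Int.ofNat 120, 5440530), (Int.ofNat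 120, 5256210), (Int.negSucc 119, 341010), (Int.negSucc 119, 218130), (Int.negSucc 119, 275730), (Int.negSucc 119, 214290), (Int.ofNat 120, 5509170), (Int.ofNat 120, 5324850), (Int.ofNat 120, 5505330), (Int.ofNat 120, 5259570), (Int.negSucc 119, 344370), (Int.negSucc 119, 282930), (Int.ofNat 120, 5309490), (Int.ofNat 120, 5248050), (Int.negSucc 119, 332850), (Int.negSucc 119, 87090), (Int.negSucc 119, 267570), (Int.negSucc 119, 83250), (Int.ofNat 120, 5443650), (Int.ofNat 120, 5320770), (Int.ofNat 120, 5439810), (Int.ofNat 120, 5255490), (Int.negSucc 119, 340290), (Int.negSucc 119, 217410), (Int.ofNat 120, 5309250), (Int.ofNat 120, 5247810), (Int.negSucc 119, 332610), (Int.negSucc 119, 86850), (Int.negSucc 119, 202050), (Int.negSucc 119, 79170), (Int.negSucc 119, 274770), (Int.negSucc 119, 213330), (Int.negSucc 119, 267090), (Int.negSucc 119, 82770), (Int.negSucc 119, 201810), (Int.negSucc 119, 78930), (Int.ofNat 120, 5513475), (Int.ofNat 120, 5390595), (Int.ofNat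 120, 5509635), (Int.ofNat 120, 5325315), (Int.ofNat 120, 5379075), (Int.ofNat 120, 5317635), (Int.ofNat 120, 5513235), (Int.ofNat 120, 5390355), (Int.ofNat 120, 5505555), (Int.ofNat 120, 5259795), (Int.negSucc 119, 344595), (Int.negSucc 119, 283155), (Int.ofNat 120, 5374995), (Int.ofNat 120, 5252115), (Int.negSucc 119, 336915), (Int.negSucc 119, 152595), (Int.negSucc 119, 271635), (Int.negSucc 119, 148755), (Int.ofNat 120, 5509155), (Int.ofNat 120, 5324835), (Int.ofNat 120, 5505315), (Int.ofNat 120, 5259555), (Int.negSucc 119, 344355), (Int.negSucc 119, 282915), (Int.ofNat 120, 5309475), (Int.ofNat 120, 5248035), (Int.negSucc 119, 332835), (Int.negSucc 119, 87075), (Int.negSucc 119, 267555), (Int.negSucc 119, 83235), (Int.ofNat 120, 5378115), (Int.ofNat 120, 5316675), (Int.ofNat 120, 5374275), (Int.ofNat 120, 5251395), (Int.negSucc 119, 336195), (Int.negSucc 119, 151875), (Int.ofNat 120, 5308995), (Int.ofNat 120, 5247555), (Int.negSucc 119, 332355), (Int.negSucc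 119, 86595), (Int.negSucc 119, 136515), (Int.negSucc 119, 75075), (Int.negSucc 119, 270675), (Int.negSucc 119, 147795), (Int.negSucc 119, 266835), (Int.negSucc 119, 82515), (Int.negSucc 119, 136275), (Int.negSucc 119, 74835), (Int.ofNat 120, 5447940), (Int.ofNat 120, 5386500), (Int.ofNat 120, 5444100), (Int.ofNat 120, 5321220), (Int.ofNat 120, 5378820), (Int.ofNat 120, 5317380), (Int.ofNat 120, 5447700), (Int.ofNat 120, 5386260), (Int.ofNat 120, 5440020), (Int.ofNat 120, 5255700), (Int.negSucc 119, 340500), (Int.negSucc 119, 217620), (Int.ofNat 120, 5374740), (Int.ofNat 120, 5251860), (Int.negSucc 119, 336660), (Int.negSucc 119, 152340), (Int.negSucc 119, 206100), (Int.negSucc 119, 144660), (Int.ofNat 120, 5443620), (Int.ofNat 120, 5320740), (Int.ofNat 120, 5439780), (Int.ofNat 120, 5255460), (Int.negSucc 119, 340260), (Int.negSucc 119, 217380), (Int.ofNat 120, 5309220), (Int.ofNat 120, 5247780), (Int.negSucc 119, 332580), (Int.negSucc 119, 86820), (Int.negSucc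 119, 202020), (Int.negSucc 119, 79140), (Int.ofNat 120, 5378100), (Int.ofNat 120, 5316660), (Int.ofNat 120, 5374260), (Int.ofNat 120, 5251380), (Int.negSucc 119, 336180), (Int.negSucc 119, 151860), (Int.ofNat 120, 5308980), (Int.ofNat 120, 5247540), (Int.negSucc 119, 332340), (Int.negSucc 119, 86580), (Int.negSucc 119, 136500), (Int.negSucc 119, 75060), (Int.negSucc 119, 205140), (Int.negSucc 119, 143700), (Int.negSucc 119, 201300), (Int.negSucc 119, 78420), (Int.negSucc 119, 136020), (Int.negSucc 119, 74580), (Int.negSucc 119, 4399365), (Int.negSucc 119, 3416325), (Int.negSucc 119, 4337925), (Int.negSucc 119, 2371845), (Int.negSucc 119, 3293445), (Int.negSucc 119, 2310405), (Int.negSucc 119, 4395525), (Int.negSucc 119, 3412485), (Int.negSucc 119, 4272645), (Int.negSucc 119, 1323525), (Int.negSucc 119, 3228165), (Int.negSucc 119, 1262085), (Int.negSucc 119, 4330245), (Int.negSucc 119, 2364165), (Int.negSucc 119, 4268805), (Int.negSucc 119, 1319685), (Int.negSucc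 119, 2179845), (Int.negSucc 119, 1196805), (Int.negSucc 119, 3281925), (Int.negSucc 119, 2298885), (Int.negSucc 119, 3220485), (Int.negSucc 119, 1254405), (Int.negSucc 119, 2176005), (Int.negSucc 119, 1192965), (Int.negSucc 119, 4399125), (Int.negSucc 119, 3416085), (Int.negSucc 119, 4337685), (Int.negSucc 119, 2371605), (Int.negSucc 119, 3293205), (Int.negSucc 119, 2310165), (Int.negSucc 119, 4391445), (Int.negSucc 119, 3408405), (Int.negSucc 119, 4207125), (Int.negSucc 239, 274965), (Int.negSucc 119, 3162645), (Int.negSucc 239, 213525), (Int.negSucc 119, 4326165), (Int.negSucc 119, 2360085), (Int.negSucc 119, 4203285), (Int.negSucc 239, 271125), (Int.negSucc 119, 2114325), (Int.negSucc 239, 148245), (Int.negSucc 119, 3277845), (Int.negSucc 119, 2294805), (Int.negSucc 119, 3154965), (Int.negSucc 239, 205845), (Int.negSucc 119, 2110485), (Int.negSucc 239, 144405), (Int.negSucc 119, 4395045), (Int.negSucc 119, 3412005), (Int.negSucc 119, 4272165), (Int.negSucc 119,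 1323045), (Int.negSucc 119, 3227685), (Int.negSucc 119, 1261605), (Int.negSucc 119, 4391205), (Int.negSucc 119, 3408165), (Int.negSucc 119, 4206885), (Int.negSucc 239, 274725), (Int.negSucc 119, 3162405), (Int.negSucc 239, 213285), (Int.negSucc 119, 4260645), (Int.negSucc 119, 1311525), (Int.negSucc 119, 4199205), (Int.negSucc 239, 267045), (Int.negSucc 119, 1065765), (Int.negSucc 239, 82725), (Int.negSucc 119, 3212325), (Int.negSucc 119, 1246245), (Int.negSucc 119, 3150885), (Int.negSucc 239, 201765), (Int.negSucc 119, 1061925), (Int.negSucc 239, 78885), (Int.negSucc 119, 4329525), (Int.negSucc 119, 2363445), (Int.negSucc 119, 4268085), (Int.negSucc 119, 1318965), (Int.negSucc 119, 2179125), (Int.negSucc 119, 1196085), (Int.negSucc 119, 4325685), (Int.negSucc 119, 2359605), (Int.negSucc 119, 4202805), (Int.negSucc 239, 270645), (Int.negSucc 119, 2113845), (Int.negSucc 239, 147765), (Int.negSucc 119, 4260405), (Int.negSucc 119, 1311285), (Int.negSucc 119, 4198965),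 (Int.negSucc 239, 266805), (Int.negSucc 119, 1065525), (Int.negSucc 239, 82485), (Int.negSucc 119, 2163765), (Int.negSucc 119, 1180725), (Int.negSucc 119, 2102325), (Int.negSucc 239, 136245), (Int.negSucc 119, 1057845), (Int.negSucc 239, 74805), (Int.negSucc 119, 3280965), (Int.negSucc 119, 2297925), (Int.negSucc 119, 3219525), (Int.negSucc 119, 1253445), (Int.negSucc 119, 2175045), (Int.negSucc 119, 1192005), (Int.negSucc 119, 3277125), (Int.negSucc 119, 2294085), (Int.negSucc 119, 3154245), (Int.negSucc 239, 205125), (Int.negSucc 119, 2109765), (Int.negSucc 239, 143685), (Int.negSucc 119, 3211845), (Int.negSucc 119, 1245765), (Int.negSucc 119, 3150405), (Int.negSucc 239, 201285), (Int.negSucc 119, 1061445), (Int.negSucc 239, 78405), (Int.negSucc 119, 2163525), (Int.negSucc 119, 1180485), (Int.negSucc 119, 2102085), (Int.negSucc 239, 136005), (Int.negSucc 119, 1057605), (Int.negSucc 239, 74565)]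

def R9 : GA := [(Int.ofNat 1, 5517825, 5517825), (Int.ofNat 1, 5456385, 5456385), (Int.ofNat 1, 5448705, 5391105), (Int.ofNat 1, 5447745, 5325570), (Int.ofNat 1, 5447700, 5260050), (Int.ofNat 1, 5386260, 5256210), (Int.ofNat 1, 5386305, 5321730), (Int.ofNat 1, 5387265, 5387265), (Int.ofNat 1, 5391105, 5448705), (Int.ofNat 1, 5513985, 5513985), (Int.ofNat 1, 5513265, 5509890), (Int.ofNat 1, 5390385, 5444610), (Int.ofNat 1, 5375025, 5379075), (Int.ofNat 1, 5374785, 5317635), (Int.ofNat 1, 5374740, 5252115), (Int.ofNat 1, 5374260, 5248035), (Int.ofNat 1, 5374275, 5309475), (Int.ofNat 1, 5374995, 5374995), (Int.ofNat 1, 5390355, 5440530), (Int.ofNat 1, 5513235, 5505810), (Int.ofNat 1, 5505555, 5505555), (Int.ofNat 1, 5259795, 5440020), (Int.ofNat 1, 5252115, 5374740), (Int.ofNat 1, 5251395, 5309220), (Int.ofNat 1, 5251380, 5247780), (Int.ofNat 1, 5251860, 5251860), (Int.ofNat 1, 5251905, 5317380), (Int.ofNat 1, 5252145, 5378820), (Int.ofNat 1, 5259825, 5444100), (Int.ofNat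 1, 5505585, 5509635), (Int.ofNat 1, 5505825, 5513475), (Int.ofNat 1, 5260065, 5447940), (Int.ofNat 1, 5256225, 5386500), (Int.ofNat 1, 5255745, 5321220), (Int.ofNat 1, 5255700, 5255700), (Int.ofNat 1, 5440020, 5259795), (Int.ofNat 1, 5440065, 5325315), (Int.ofNat 1, 5440545, 5390595), (Int.ofNat 1, 5455905, 5456130), (Int.ofNat 1, 5517345, 5517570), (Int.ofNat 1, 5517330, 5517330), (Int.ofNat 1, 5455890, 5455890), (Int.ofNat 1, 5440530, 5390355), (Int.ofNat 1, 5439810, 5324835), (Int.ofNat 1, 5439780, 5259555), (Int.ofNat 1, 5255460, 5255460), (Int.ofNat 1, 5255490, 5320740), (Int.ofNat 1, 5256210, 5386260), (Int.ofNat 1, 5260050, 5447700), (Int.ofNat 1, 5505810, 5513235), (Int.ofNat 1, 5505330, 5509155), (Int.ofNat 1, 5259570, 5443620), (Int.ofNat 1, 5248050, 5378100), (Int.ofNat 1, 5247810, 5316660), (Int.ofNat 1, 5247780, 5251380), (Int.ofNat 1, 5247540, 5247540), (Int.ofNat 1, 5247555, 5308980), (Int.ofNat 1, 5248035, 5374260), (Int.ofNat 1, 5259555, 5439780),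 (Int.ofNat 1, 5505315, 5505315), (Int.ofNat 1, 5509155, 5505330), (Int.ofNat 1, 5324835, 5439810), (Int.ofNat 1, 5309475, 5374275), (Int.ofNat 1, 5308995, 5308995), (Int.ofNat 1, 5308980, 5247555), (Int.ofNat 1, 5309220, 5251395), (Int.ofNat 1, 5309250, 5316675), (Int.ofNat 1, 5309490, 5378115), (Int.ofNat 1, 5324850, 5443650), (Int.ofNat 1, 5509170, 5509170), (Int.ofNat 1, 5509890, 5513265), (Int.ofNat 1, 5325570, 5447745), (Int.ofNat 1, 5321730, 5386305), (Int.ofNat 1, 5320770, 5320770), (Int.ofNat 1, 5320740, 5255490), (Int.ofNat 1, 5443620, 5259570), (Int.ofNat 1, 5443650, 5324850), (Int.ofNat 1, 5444610, 5390385), (Int.ofNat 1, 5456130, 5455905), (Int.ofNat 1, 5517570, 5517345), (Int.ofNat 1, 5517600, 5517600), (Int.ofNat 1, 5456160, 5456160), (Int.ofNat 1, 5444640, 5390640), (Int.ofNat 1, 5444160, 5325360), (Int.ofNat 1, 5444100, 5259825), (Int.ofNat 1, 5321220, 5255745), (Int.ofNat 1, 5321280, 5321280), (Int.ofNat 1, 5321760, 5386560), (Int.ofNat 1, 5325600,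 5448000), (Int.ofNat 1, 5509920, 5513520), (Int.ofNat 1, 5509680, 5509680), (Int.ofNat 1, 5325360, 5444160), (Int.ofNat 1, 5317680, 5378880), (Int.ofNat 1, 5317440, 5317440), (Int.ofNat 1, 5317380, 5251905), (Int.ofNat 1, 5316660, 5247810), (Int.ofNat 1, 5316675, 5309250), (Int.ofNat 1, 5317635, 5374785), (Int.ofNat 1, 5325315, 5440065), (Int.ofNat 1, 5509635, 5505585), (Int.ofNat 1, 5513475, 5505825), (Int.ofNat 1, 5390595, 5440545), (Int.ofNat 1, 5379075, 5375025), (Int.ofNat 1, 5378115, 5309490), (Int.ofNat 1, 5378100, 5248050), (Int.ofNat 1, 5378820, 5252145), (Int.ofNat 1, 5378880, 5317680), (Int.ofNat 1, 5379120, 5379120), (Int.ofNat 1, 5390640, 5444640), (Int.ofNat 1, 5513520, 5509920), (Int.ofNat 1, 5514000, 5514000), (Int.ofNat 1, 5391120, 5448720), (Int.ofNat 1, 5387280, 5387280), (Int.ofNat 1, 5386560, 5321760), (Int.ofNat 1, 5386500, 5256225), (Int.ofNat 1, 5447940, 5260065), (Int.ofNat 1, 5448000, 5325600), (Int.ofNat 1, 5448720, 5391120), (Int.ofNat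 1, 5456400, 5456400), (Int.ofNat 1, 5517840, 5517840)]

def C9 : GA := [(Int.ofNat 1, 5517840, 5517840), (Int.negSucc 0, 274965, 274965)]

def gs9 : List (ℤ × ℕ) := [(Int.ofNat 1, 5517825), (Int.ofNat 1, 5517600), (Int.ofNat 1, 5514000), (Int.ofNat 1, 5456400)]

def tl9 : List (ℕ × ℕ) := [(0, 0), (3, 0), (2, 0), (1, 0), (0, 0), (3, 0), (0, 0), (1, 0), (2, 0), (3, 0), (1, 0), (3, 0), (2, 0), (1, 0), (0, 0), (1, 0), (0, 0), (1, 0), (2, 0), (3, 0), (2, 0), (3, 0), (2, 0), (1, 0), (0, 0), (1, 0), (0, 0), (1, 0), (2, 0), (3, 0), (1, 0), (3, 0), (2, 0), (1, 0), (0, 0), (3, 0), (0, 0), (1, 0), (2, 0), (3, 0), (0, 0), (3, 0), (2, 0), (1, 0), (0, 0), (3, 0), (0, 0), (1, 0), (2, 0), (3, 0), (1, 0), (3, 0), (2, 0), (1, 0), (0, 0), (1, 0), (0, 0), (1, 0), (2, 0), (3, 0), (2, 0), (3, 0), (2, 0), (1, 0), (0, 0), (1, 0), (0, 0), (1, 0), (2, 0), (3, 0), (1, 0), (3, 0), (2, 0), (1, 0), (0, 0), (3, 0), (0, 0), (1, 0), (2, 0), (3, 0), (0, 0), (3, 0), (2, 0), (1, 0), (0, 0), (3, 0),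 (0, 0), (1, 0), (2, 0), (3, 0), (1, 0), (3, 0), (2, 0), (1, 0), (0, 0), (1, 0), (0, 0), (1, 0), (2, 0), (3, 0), (2, 0), (3, 0), (2, 0), (1, 0), (0, 0), (1, 0), (0, 0), (1, 0), (2, 0), (3, 0), (1, 0), (3, 0), (2, 0), (1, 0), (0, 0), (3, 0), (0, 0), (1, 0), (2, 0), (3, 0)]

noncomputable def P9 (X : Type*) [Inhabited X] [Fintype X] : ((Fin 6 → X) → ℝ) → (Fin 6 → X) → ℝ :=
  fun f => gaF (b := 6) R9 (gaF C9 f)

theorem gr9 : grpC 6 10 R9 gs9 5517840 tl9 = true := by
  decide +kernel

theorem gy9 : yC 6 10 R9 C9 dg9 = true := by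
  decide +kernel

theorem pg9 (X : Type*) [Inhabited X] [Fintype X] : IsOp X (P9 X) dg9 :=
  isOp_youngC R9 C9 gs9 5517840 tl9 gr9 dg9 gy9

def dg10 : List (ℤ × ℕ) := [(Int.ofNat 192, 5517840), (Int.ofNat 96, 4534800), (Int.ofNat 96, 5456400), (Int.ofNat 48, 3490320), (Int.ofNat 48, 4411920), (Int.ofNat 96, 3428880), (Int.ofNat 192, 5514000), (Int.ofNat 96, 4530960), (Int.ofNat 96, 5391120), (Int.ofNat 48, 2442000), (Int.ofNat 48, 4346640), (Int.ofNat 96, 2380560), (Int.ofNat 96, 5448720), (Int.ofNat 48, 3482640), (Int.ofNat 96, 5387280), (Int.ofNat 48, 2438160), (Int.ofNat 48, 3298320), (Int.ofNat 48, 2315280), (Int.ofNat 48, 4400400), (Int.ofNat 96, 3417360), (Int.ofNat 48, 4338960), (Int.ofNat 96, 2372880), (Int.ofNat 48, 3294480), (Int.ofNat 48, 2311440), (Int.ofNat 96, 5517600), (Int.ofNat 48, 4534560), (Int.ofNat 48, 5456160), (Int.ofNat 96, 5509920), (Int.ofNat 48, 4526880), (Int.ofNat 48, 5325600), (Int.negSucc 47, 1393440), (Int.negSucc 47, 4281120), (Int.negSucc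 95, 1332000), (Int.ofNat 48, 5444640), (Int.ofNat 48, 5321760), (Int.negSucc 47, 1389600), (Int.negSucc 47, 1266720), (Int.negSucc 47, 4273440), (Int.negSucc 95, 1324320), (Int.negSucc 47, 1262880), (Int.ofNat 96, 5513520), (Int.ofNat 48, 4530480), (Int.ofNat 48, 5390640), (Int.ofNat 96, 5509680), (Int.ofNat 48, 4526640), (Int.ofNat 48, 5325360), (Int.negSucc 47, 1393200), (Int.negSucc 47, 4280880), (Int.negSucc 95, 1331760), (Int.ofNat 48, 5379120), (Int.ofNat 48, 5317680), (Int.negSucc 47, 1385520), (Int.negSucc 47, 1201200), (Int.negSucc 47, 4269360), (Int.negSucc 95, 1320240), (Int.negSucc 47, 1197360), (Int.ofNat 48, 5448000), (Int.negSucc 47, 3481920), (Int.ofNat 48, 5386560), (Int.negSucc 47, 2437440), (Int.ofNat 48, 5444160), (Int.negSucc 47, 3478080), (Int.ofNat 96, 5321280), (Int.negSucc 95, 1389120), (Int.ofNat 48, 3232320), (Int.negSucc 47, 1266240), (Int.ofNat 48, 5378880), (Int.negSucc 47, 2429760), (Int.ofNat 96, 5317440), (Int.negSucc 95, 1385280),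 (Int.ofNat 48, 2184000), (Int.negSucc 47, 1200960), (Int.ofNat 48, 3220800), (Int.negSucc 47, 1254720), (Int.ofNat 48, 2176320), (Int.negSucc 47, 1193280), (Int.negSucc 47, 4399440), (Int.negSucc 95, 3416400), (Int.negSucc 47, 4338000), (Int.negSucc 95, 2371920), (Int.negSucc 47, 3293520), (Int.negSucc 47, 2310480), (Int.negSucc 47, 4395600), (Int.negSucc 95, 3412560), (Int.negSucc 95, 4272720), (Int.negSucc 191, 1323600), (Int.negSucc 47, 3228240), (Int.negSucc 95, 1262160), (Int.negSucc 47, 4330320), (Int.negSucc 95, 2364240), (Int.negSucc 95, 4268880), (Int.negSucc 191, 1319760), (Int.negSucc 47, 2179920), (Int.negSucc 95, 1196880), (Int.negSucc 47, 3282000), (Int.negSucc 47, 2298960), (Int.negSucc 47, 3220560), (Int.negSucc 95, 1254480), (Int.negSucc 47, 2176080), (Int.negSucc 95, 1193040), (Int.ofNat 96, 5517825), (Int.ofNat 192, 4534785), (Int.ofNat 48, 5456385), (Int.ofNat 96, 3490305), (Int.ofNat 96, 4411905), (Int.ofNat 48, 3428865), (Int.ofNat 96, 5513985),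 (Int.ofNat 192, 4530945), (Int.ofNat 48, 5391105), (Int.ofNat 96, 2441985), (Int.ofNat 96, 4346625), (Int.ofNat 48, 2380545), (Int.ofNat 48, 5448705), (Int.ofNat 96, 3482625), (Int.ofNat 48, 5387265), (Int.ofNat 96, 2438145), (Int.ofNat 48, 3298305), (Int.ofNat 48, 2315265), (Int.ofNat 96, 4400385), (Int.ofNat 48, 3417345), (Int.ofNat 96, 4338945), (Int.ofNat 48, 2372865), (Int.ofNat 48, 3294465), (Int.ofNat 48, 2311425), (Int.ofNat 48, 5517345), (Int.ofNat 96, 4534305), (Int.ofNat 48, 4411425), (Int.ofNat 48, 5505825), (Int.ofNat 96, 4522785), (Int.negSucc 47, 5260065), (Int.negSucc 95, 344865), (Int.ofNat 48, 4215585), (Int.negSucc 47, 283425), (Int.negSucc 47, 5256225), (Int.negSucc 95, 341025), (Int.negSucc 47, 218145), (Int.ofNat 48, 4392225), (Int.ofNat 48, 4207905), (Int.negSucc 47, 275745), (Int.negSucc 47, 214305), (Int.ofNat 48, 5513265), (Int.ofNat 96, 4530225), (Int.ofNat 48, 4345905), (Int.ofNat 48, 5505585), (Int.ofNat 96, 4522545), (Int.negSucc 47,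 5259825), (Int.negSucc 95, 344625), (Int.ofNat 48, 4215345), (Int.negSucc 47, 283185), (Int.negSucc 47, 5252145), (Int.negSucc 95, 336945), (Int.negSucc 47, 152625), (Int.ofNat 48, 4326705), (Int.ofNat 48, 4203825), (Int.negSucc 47, 271665), (Int.negSucc 47, 148785), (Int.negSucc 47, 5447745), (Int.negSucc 95, 3481665), (Int.negSucc 47, 5386305), (Int.negSucc 95, 2437185), (Int.negSucc 47, 3297345), (Int.negSucc 47, 2314305), (Int.negSucc 47, 5440065), (Int.negSucc 95, 3473985), (Int.negSucc 95, 5255745), (Int.negSucc 191, 340545), (Int.negSucc 47, 3166785), (Int.negSucc 95, 217665), (Int.negSucc 47, 5374785), (Int.negSucc 95, 2425665), (Int.negSucc 95, 5251905), (Int.negSucc 191, 336705), (Int.negSucc 47, 2118465), (Int.negSucc 95, 152385), (Int.negSucc 47, 3278145), (Int.negSucc 47, 2295105), (Int.negSucc 47, 3155265), (Int.negSucc 95, 206145), (Int.negSucc 47, 2110785), (Int.negSucc 95, 144705), (Int.ofNat 48, 4399185), (Int.negSucc 47, 3416145), (Int.ofNat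 48, 4337745), (Int.negSucc 47, 2371665), (Int.ofNat 48, 4391505), (Int.negSucc 47, 3408465), (Int.ofNat 96, 4207185), (Int.negSucc 95, 275025), (Int.ofNat 48, 3162705), (Int.negSucc 47, 213585), (Int.ofNat 48, 4326225), (Int.negSucc 47, 2360145), (Int.ofNat 96, 4203345), (Int.negSucc 95, 271185), (Int.ofNat 48, 2114385), (Int.negSucc 47, 148305), (Int.ofNat 48, 3155025), (Int.negSucc 47, 205905), (Int.ofNat 48, 2110545), (Int.negSucc 47, 144465), (Int.ofNat 48, 5517570), (Int.ofNat 96, 4534530), (Int.ofNat 48, 3490050), (Int.ofNat 48, 5509890), (Int.ofNat 96, 4526850), (Int.negSucc 47, 5325570), (Int.ofNat 48, 1393410), (Int.negSucc 95, 4281090), (Int.negSucc 47, 1331970), (Int.ofNat 48, 3478530), (Int.negSucc 47, 5321730), (Int.ofNat 48, 1389570), (Int.negSucc 47, 3232770), (Int.negSucc 95, 4273410), (Int.negSucc 47, 1324290), (Int.negSucc 47, 3228930), (Int.ofNat 96, 5517330), (Int.ofNat 48, 4534290), (Int.ofNat 48, 3428370), (Int.ofNat 96, 5505810), (Int.ofNat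 48, 4522770), (Int.negSucc 95, 5260050), (Int.negSucc 47, 344850), (Int.negSucc 47, 4215570), (Int.ofNat 48, 283410), (Int.negSucc 95, 5256210), (Int.negSucc 47, 341010), (Int.negSucc 47, 3167250), (Int.ofNat 48, 3409170), (Int.negSucc 47, 4207890), (Int.ofNat 48, 275730), (Int.negSucc 47, 3163410), (Int.ofNat 48, 5509170), (Int.ofNat 48, 4526130), (Int.negSucc 47, 4280370), (Int.negSucc 47, 1331250), (Int.ofNat 48, 5505330), (Int.ofNat 48, 4522290), (Int.negSucc 47, 5259570), (Int.negSucc 47, 344370), (Int.negSucc 47, 5248050), (Int.negSucc 47, 332850), (Int.ofNat 48, 1070130), (Int.ofNat 48, 87090), (Int.negSucc 47, 4261170), (Int.negSucc 47, 1312050), (Int.ofNat 48, 1066290), (Int.ofNat 48, 83250), (Int.negSucc 47, 3477570), (Int.ofNat 48, 5320770), (Int.negSucc 47, 1388610), (Int.ofNat 48, 3231810), (Int.negSucc 47, 3473730), (Int.negSucc 47, 5255490), (Int.negSucc 95, 340290), (Int.ofNat 48, 5309250), (Int.negSucc 47, 1377090), (Int.negSucc 47, 5247810), (Int.negSucc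 95, 332610), (Int.ofNat 48, 1069890), (Int.ofNat 96, 86850), (Int.ofNat 48, 3212610), (Int.ofNat 48, 1062210), (Int.ofNat 96, 79170), (Int.negSucc 47, 3412050), (Int.negSucc 47, 4272210), (Int.negSucc 95, 1323090), (Int.negSucc 47, 3408210), (Int.ofNat 48, 4206930), (Int.negSucc 47, 274770), (Int.ofNat 48, 3162450), (Int.negSucc 47, 4260690), (Int.negSucc 95, 1311570), (Int.ofNat 48, 4199250), (Int.negSucc 47, 267090), (Int.ofNat 96, 1065810), (Int.ofNat 48, 82770), (Int.ofNat 48, 3150930), (Int.ofNat 96, 1061970), (Int.ofNat 48, 78930), (Int.ofNat 48, 5513475), (Int.ofNat 96, 4530435), (Int.ofNat 48, 2441475), (Int.ofNat 48, 5509635), (Int.ofNat 96, 4526595), (Int.negSucc 47, 5325315), (Int.ofNat 48, 1393155), (Int.negSucc 95, 4280835), (Int.negSucc 47, 1331715), (Int.ofNat 48, 2429955), (Int.negSucc 47, 5317635), (Int.ofNat 48, 1385475), (Int.negSucc 47, 2184195), (Int.negSucc 95, 4269315), (Int.negSucc 47, 1320195), (Int.negSucc 47, 2180355), (Int.ofNat 96,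 5513235), (Int.ofNat 48, 4530195), (Int.ofNat 48, 2379795), (Int.ofNat 96, 5505555), (Int.ofNat 48, 4522515), (Int.negSucc 95, 5259795), (Int.negSucc 47, 344595), (Int.negSucc 47, 4215315), (Int.ofNat 48, 283155), (Int.negSucc 95, 5252115), (Int.negSucc 47, 336915), (Int.negSucc 47, 2118675), (Int.ofNat 48, 2360595), (Int.negSucc 47, 4203795), (Int.ofNat 48, 271635), (Int.negSucc 47, 2114835), (Int.ofNat 48, 5509155), (Int.ofNat 48, 4526115), (Int.negSucc 47, 4280355), (Int.negSucc 47, 1331235), (Int.ofNat 48, 5505315), (Int.ofNat 48, 4522275), (Int.negSucc 47, 5259555), (Int.negSucc 47, 344355), (Int.negSucc 47, 5248035), (Int.negSucc 47, 332835), (Int.ofNat 48, 1070115), (Int.ofNat 48, 87075), (Int.negSucc 47, 4261155), (Int.negSucc 47, 1312035), (Int.ofNat 48, 1066275), (Int.ofNat 48, 83235), (Int.negSucc 47, 2428995), (Int.ofNat 48, 5316675), (Int.negSucc 47, 1384515), (Int.ofNat 48, 2183235), (Int.negSucc 47, 2425155), (Int.negSucc 47, 5251395), (Int.negSucc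 95, 336195), (Int.ofNat 48, 5308995), (Int.negSucc 47, 1376835), (Int.negSucc 47, 5247555), (Int.negSucc 95, 332355), (Int.ofNat 48, 1069635), (Int.ofNat 96, 86595), (Int.ofNat 48, 2164035), (Int.ofNat 48, 1058115), (Int.ofNat 96, 75075), (Int.negSucc 47, 2363475), (Int.negSucc 47, 4268115), (Int.negSucc 95, 1318995), (Int.negSucc 47, 2359635), (Int.ofNat 48, 4202835), (Int.negSucc 47, 270675), (Int.ofNat 48, 2113875), (Int.negSucc 47, 4260435), (Int.negSucc 95, 1311315), (Int.ofNat 48, 4198995), (Int.negSucc 47, 266835), (Int.ofNat 96, 1065555), (Int.ofNat 48, 82515), (Int.ofNat 48, 2102355), (Int.ofNat 96, 1057875), (Int.ofNat 48, 74835), (Int.negSucc 47, 5447940), (Int.ofNat 48, 3481860), (Int.negSucc 47, 5386500), (Int.ofNat 48, 2437380), (Int.negSucc 47, 5444100), (Int.ofNat 48, 3478020), (Int.negSucc 95, 5321220), (Int.ofNat 96, 1389060), (Int.negSucc 47, 3232260), (Int.ofNat 48, 1266180), (Int.negSucc 47, 5378820), (Int.ofNat 48, 2429700), (Int.negSucc 95,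 5317380), (Int.ofNat 96, 1385220), (Int.negSucc 47, 2183940), (Int.ofNat 48, 1200900), (Int.negSucc 47, 3220740), (Int.ofNat 48, 1254660), (Int.negSucc 47, 2176260), (Int.ofNat 48, 1193220), (Int.negSucc 95, 5447700), (Int.negSucc 47, 3481620), (Int.negSucc 95, 5386260), (Int.negSucc 47, 2437140), (Int.negSucc 47, 3297300), (Int.negSucc 47, 2314260), (Int.negSucc 95, 5440020), (Int.negSucc 47, 3473940), (Int.negSucc 191, 5255700), (Int.negSucc 95, 340500), (Int.negSucc 95, 3166740), (Int.negSucc 47, 217620), (Int.negSucc 95, 5374740), (Int.negSucc 47, 2425620), (Int.negSucc 191, 5251860), (Int.negSucc 95, 336660), (Int.negSucc 95, 2118420), (Int.negSucc 47, 152340), (Int.negSucc 47, 3278100), (Int.negSucc 47, 2295060), (Int.negSucc 95, 3155220), (Int.negSucc 47, 206100), (Int.negSucc 95, 2110740), (Int.negSucc 47, 144660), (Int.negSucc 47, 5443620), (Int.negSucc 47, 5320740), (Int.ofNat 48, 1388580), (Int.ofNat 48, 1265700), (Int.negSucc 47, 5439780), (Int.negSucc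 95, 5255460), (Int.negSucc 47, 340260), (Int.negSucc 47, 5309220), (Int.ofNat 48, 1377060), (Int.negSucc 95, 5247780), (Int.negSucc 47, 332580), (Int.ofNat 96, 1069860), (Int.ofNat 48, 86820), (Int.ofNat 48, 1246500), (Int.ofNat 96, 1062180), (Int.ofNat 48, 79140), (Int.negSucc 47, 5378100), (Int.negSucc 47, 5316660), (Int.ofNat 48, 1384500), (Int.ofNat 48, 1200180), (Int.negSucc 47, 5374260), (Int.negSucc 95, 5251380), (Int.negSucc 47, 336180), (Int.negSucc 47, 5308980), (Int.ofNat 48, 1376820), (Int.negSucc 95, 5247540), (Int.negSucc 47, 332340), (Int.ofNat 96, 1069620), (Int.ofNat 48, 86580), (Int.ofNat 48, 1180980), (Int.ofNat 96, 1058100), (Int.ofNat 48, 75060), (Int.ofNat 48, 3280980), (Int.ofNat 48, 2297940), (Int.ofNat 48, 3219540), (Int.ofNat 96, 1253460), (Int.ofNat 48, 2175060), (Int.ofNat 96, 1192020), (Int.ofNat 48, 3277140), (Int.ofNat 48, 2294100), (Int.ofNat 96, 3154260), (Int.ofNat 48, 205140), (Int.ofNat 96, 2109780), (Int.ofNat 48, 143700), (Int.ofNat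 48, 3211860), (Int.ofNat 96, 1245780), (Int.ofNat 96, 3150420), (Int.ofNat 48, 201300), (Int.ofNat 192, 1061460), (Int.ofNat 96, 78420), (Int.ofNat 48, 2163540), (Int.ofNat 96, 1180500), (Int.ofNat 96, 2102100), (Int.ofNat 48, 136020), (Int.ofNat 192, 1057620), (Int.ofNat 96, 74580), (Int.negSucc 95, 4399365), (Int.negSucc 47, 3416325), (Int.negSucc 95, 4337925), (Int.negSucc 47, 2371845), (Int.negSucc 47, 3293445), (Int.negSucc 47, 2310405), (Int.negSucc 95, 4395525), (Int.negSucc 47, 3412485), (Int.negSucc 191, 4272645), (Int.negSucc 95, 1323525), (Int.negSucc 95, 3228165), (Int.negSucc 47, 1262085), (Int.negSucc 95, 4330245), (Int.negSucc 47, 2364165), (Int.negSucc 191, 4268805), (Int.negSucc 95, 1319685), (Int.negSucc 95, 2179845), (Int.negSucc 47, 1196805), (Int.negSucc 47, 3281925), (Int.negSucc 47, 2298885), (Int.negSucc 95, 3220485), (Int.negSucc 47, 1254405), (Int.negSucc 95, 2176005), (Int.negSucc 47, 1192965), (Int.negSucc 47, 4399125), (Int.ofNat 48,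 3416085), (Int.negSucc 47, 4337685), (Int.ofNat 48, 2371605), (Int.negSucc 47, 4391445), (Int.ofNat 48, 3408405), (Int.negSucc 95, 4207125), (Int.ofNat 96, 274965), (Int.negSucc 47, 3162645), (Int.ofNat 48, 213525), (Int.negSucc 47, 4326165), (Int.ofNat 48, 2360085), (Int.negSucc 95, 4203285), (Int.ofNat 96, 271125), (Int.negSucc 47, 2114325), (Int.ofNat 48, 148245), (Int.negSucc 47, 3154965), (Int.ofNat 48, 205845), (Int.negSucc 47, 2110485), (Int.ofNat 48, 144405), (Int.negSucc 47, 4395045), (Int.negSucc 95, 4272165), (Int.negSucc 47, 1323045), (Int.negSucc 47, 4391205), (Int.negSucc 47, 4206885), (Int.ofNat 48, 274725), (Int.ofNat 48, 213285), (Int.negSucc 95, 4260645), (Int.negSucc 47, 1311525), (Int.negSucc 47, 4199205), (Int.ofNat 48, 267045), (Int.ofNat 48, 1065765), (Int.ofNat 96, 82725), (Int.ofNat 48, 201765), (Int.ofNat 48, 1061925), (Int.ofNat 96, 78885), (Int.negSucc 47, 4329525), (Int.negSucc 95, 4268085), (Int.negSucc 47, 1318965), (Int.negSucc 47,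 4325685), (Int.negSucc 47, 4202805), (Int.ofNat 48, 270645), (Int.ofNat 48, 147765), (Int.negSucc 95, 4260405), (Int.negSucc 47, 1311285), (Int.negSucc 47, 4198965), (Int.ofNat 48, 266805), (Int.ofNat 48, 1065525), (Int.ofNat 96, 82485), (Int.ofNat 48, 136245), (Int.ofNat 48, 1057845), (Int.ofNat 96, 74805), (Int.ofNat 48, 3280965), (Int.ofNat 48, 2297925), (Int.ofNat 96, 3219525), (Int.ofNat 48, 1253445), (Int.ofNat 96, 2175045), (Int.ofNat 48, 1192005), (Int.ofNat 48, 3277125), (Int.ofNat 48, 2294085), (Int.ofNat 48, 3154245), (Int.ofNat 96, 205125), (Int.ofNat 48, 2109765), (Int.ofNat 96, 143685), (Int.ofNat 96, 3211845), (Int.ofNat 48, 1245765), (Int.ofNat 48, 3150405), (Int.ofNat 96, 201285), (Int.ofNat 96, 1061445), (Int.ofNat 192, 78405), (Int.ofNat 96, 2163525), (Int.ofNat 48, 1180485), (Int.ofNat 48, 2102085), (Int.ofNat 96, 136005), (Int.ofNat 96, 1057605), (Int.ofNat 192, 74565)]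

def R10 : GA := [(Int.ofNat 1, 5517825, 5517825), (Int.ofNat 1, 4534785, 4534785), (Int.ofNat 1, 4530945, 4530945), (Int.ofNat 1, 5513985, 5513985), (Int.ofNat 1, 5513265, 5509890), (Int.ofNat 1, 4530225, 4526850), (Int.ofNat 1, 4530195, 4522770), (Int.ofNat 1, 5513235, 5505810), (Int.ofNat 1, 5505555, 5505555), (Int.ofNat 1, 4522515, 4522515), (Int.ofNat 1, 4522545, 4526595), (Int.ofNat 1, 5505585, 5509635), (Int.ofNat 1, 5505825, 5513475), (Int.ofNat 1, 4522785, 4530435), (Int.ofNat 1, 4534305, 4534530), (Int.ofNat 1, 5517345, 5517570), (Int.ofNat 1, 5517330, 5517330), (Int.ofNat 1, 4534290, 4534290), (Int.ofNat 1, 4522770, 4530195), (Int.ofNat 1, 5505810, 5513235), (Int.ofNat 1, 5505330, 5509155), (Int.ofNat 1, 4522290, 4526115), (Int.ofNat 1, 4522275, 4522275), (Int.ofNat 1, 5505315, 5505315), (Int.ofNat 1, 5509155, 5505330), (Int.ofNat 1, 4526115, 4522290), (Int.ofNat 1, 4526130, 4526130), (Int.ofNat 1, 5509170, 5509170), (Int.ofNat 1, 5509890, 5513265),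 (Int.ofNat 1, 4526850, 4530225), (Int.ofNat 1, 4534530, 4534305), (Int.ofNat 1, 5517570, 5517345), (Int.ofNat 1, 5517600, 5517600), (Int.ofNat 1, 4534560, 4534560), (Int.ofNat 1, 4526880, 4530480), (Int.ofNat 1, 5509920, 5513520), (Int.ofNat 1, 5509680, 5509680), (Int.ofNat 1, 4526640, 4526640), (Int.ofNat 1, 4526595, 4522545), (Int.ofNat 1, 5509635, 5505585), (Int.ofNat 1, 5513475, 5505825), (Int.ofNat 1, 4530435, 4522785), (Int.ofNat 1, 4530480, 4526880), (Int.ofNat 1, 5513520, 5509920), (Int.ofNat 1, 5514000, 5514000), (Int.ofNat 1, 4530960, 4530960), (Int.ofNat 1, 4534800, 4534800), (Int.ofNat 1, 5517840, 5517840)]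

def C10 : GA := [(Int.ofNat 1, 5517840, 5517840), (Int.negSucc 0, 1323600, 1323600), (Int.negSucc 0, 5255700, 5255700), (Int.ofNat 1, 1061460, 1061460)]

def gs10 : List (ℤ × ℕ) := [(Int.ofNat 1, 5517825), (Int.ofNat 1, 5517600), (Int.ofNat 1, 5514000), (Int.ofNat 1, 4534800)]

def tl10 : List (ℕ × ℕ) := [(0, 0), (3, 0), (2, 0), (3, 0), (1, 0), (3, 0), (0, 0), (3, 0), (2, 0), (3, 0), (0, 0), (3, 0), (1, 0), (3, 0), (2, 0), (3, 0), (0, 0), (3, 0), (2, 0), (3, 0), (1, 0), (3, 0), (0, 0), (3, 0), (2, 0), (3, 0), (0, 0), (3, 0), (1, 0), (3, 0), (2, 0), (3, 0), (0, 0), (3, 0), (2, 0), (3, 0), (1, 0), (3, 0), (0, 0), (3, 0), (2, 0), (3, 0), (0, 0), (3, 0), (1, 0), (3, 0), (2, 0), (3, 0)]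

noncomputable def P10 (X : Type*) [Inhabited X] [Fintype X] : ((Fin 6 → X) → ℝ) → (Fin 6 → X) → ℝ :=
  fun f => gaF (b := 6) R10 (gaF C10 f)

theorem gr10 : grpC 6 11 R10 gs10 5517840 tl10 = true := by
  decide +kernel

theorem gy10 : yC 6 11 R10 C10 dg10 = true := by
  decide +kernel

theorem pg10 (X : Type*) [Inhabited X] [Fintype X] : IsOp X (P10 X) dg10 :=
  isOp_youngC R10 C10 gs10 5517840 tl10 gr10 dg10 gy10

def dg11 : List (ℤ × ℕ) := [(Int.ofNat 144, 5517840), (Int.ofNat 48, 4534800), (Int.ofNat 48, 5456400), (Int.negSucc 47, 3490320), (Int.negSucc 47, 4411920), (Int.negSucc 143, 3428880), (Int.ofNat 48, 5514000), (Int.ofNat 12, 4530960), (Int.ofNat 24, 5391120), (Int.negSucc 11, 2442000), (Int.negSucc 23, 4346640), (Int.negSucc 47, 2380560), (Int.ofNat 24, 5448720), (Int.negSucc 23, 3482640), (Int.ofNat 72, 5387280), (Int.ofNat 24, 2438160), (Int.negSucc 71, 3298320), (Int.negSucc 23, 2315280), (Int.negSucc 11, 4400400), (Int.negSucc 47, 3417360), (Int.ofNat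 24, 4338960), (Int.ofNat 48, 2372880), (Int.negSucc 23, 3294480), (Int.ofNat 12, 2311440), (Int.ofNat 72, 5517600), (Int.ofNat 24, 4534560), (Int.ofNat 24, 5456160), (Int.negSucc 23, 3490080), (Int.negSucc 23, 4411680), (Int.negSucc 71, 3428640), (Int.ofNat 24, 5509920), (Int.ofNat 24, 4526880), (Int.negSucc 23, 5325600), (Int.negSucc 23, 1393440), (Int.ofNat 24, 4281120), (Int.negSucc 23, 1332000), (Int.negSucc 23, 5444640), (Int.ofNat 24, 3478560), (Int.negSucc 71, 5321760), (Int.negSucc 23, 1389600), (Int.ofNat 72, 3232800), (Int.ofNat 24, 1266720), (Int.negSucc 23, 4396320), (Int.negSucc 23, 3413280), (Int.negSucc 23, 4273440), (Int.ofNat 24, 1324320), (Int.ofNat 24, 3228960), (Int.ofNat 24, 1262880), (Int.ofNat 24, 5513520), (Int.ofNat 24, 4530480), (Int.negSucc 23, 5390640), (Int.negSucc 23, 2441520), (Int.ofNat 24, 4346160), (Int.negSucc 23, 2380080), (Int.ofNat 48, 5509680), (Int.ofNat 48, 4526640), (Int.negSucc 47, 5325360), (Int.negSucc 47, 1393200),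 (Int.ofNat 48, 4280880), (Int.negSucc 47, 1331760), (Int.ofNat 24, 5379120), (Int.ofNat 24, 2430000), (Int.negSucc 23, 5317680), (Int.negSucc 23, 1385520), (Int.ofNat 24, 2184240), (Int.negSucc 23, 1201200), (Int.ofNat 24, 4330800), (Int.ofNat 12, 2364720), (Int.ofNat 12, 4269360), (Int.negSucc 11, 1320240), (Int.negSucc 11, 2180400), (Int.negSucc 23, 1197360), (Int.negSucc 23, 5448000), (Int.ofNat 24, 3481920), (Int.negSucc 71, 5386560), (Int.negSucc 23, 2437440), (Int.ofNat 72, 3297600), (Int.ofNat 24, 2314560), (Int.negSucc 47, 5444160), (Int.ofNat 48, 3478080), (Int.negSucc 143, 5321280), (Int.negSucc 47, 1389120), (Int.ofNat 144, 3232320), (Int.ofNat 48, 1266240), (Int.negSucc 23, 5378880), (Int.ofNat 12, 2429760), (Int.negSucc 47, 5317440), (Int.negSucc 11, 1385280), (Int.ofNat 48, 2184000), (Int.ofNat 24, 1200960), (Int.ofNat 24, 3282240), (Int.negSucc 11, 2299200), (Int.ofNat 48, 3220800), (Int.ofNat 12, 1254720), (Int.negSucc 47, 2176320), (Int.negSucc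 23, 1193280), (Int.negSucc 23, 4399440), (Int.negSucc 23, 3416400), (Int.negSucc 23, 4338000), (Int.ofNat 24, 2371920), (Int.ofNat 24, 3293520), (Int.ofNat 24, 2310480), (Int.negSucc 47, 4395600), (Int.negSucc 47, 3412560), (Int.negSucc 47, 4272720), (Int.ofNat 48, 1323600), (Int.ofNat 48, 3228240), (Int.ofNat 48, 1262160), (Int.negSucc 23, 4330320), (Int.negSucc 11, 2364240), (Int.negSucc 11, 4268880), (Int.ofNat 12, 1319760), (Int.ofNat 12, 2179920), (Int.ofNat 24, 1196880), (Int.negSucc 23, 3282000), (Int.negSucc 23, 2298960), (Int.ofNat 24, 3220560), (Int.ofNat 24, 1254480), (Int.negSucc 23, 2176080), (Int.ofNat 24, 1193040), (Int.ofNat 48, 5517825), (Int.ofNat 48, 4534785), (Int.ofNat 48, 5456385), (Int.negSucc 47, 3490305), (Int.negSucc 47, 4411905), (Int.negSucc 47, 3428865), (Int.ofNat 12, 5513985), (Int.ofNat 24, 5391105), (Int.negSucc 23, 4346625), (Int.negSucc 11, 2380545), (Int.ofNat 24, 5448705), (Int.negSucc 23, 3482625), (Int.ofNat 24, 5387265),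 (Int.ofNat 24, 2438145), (Int.negSucc 23, 3298305), (Int.negSucc 23, 2315265), (Int.negSucc 11, 3417345), (Int.ofNat 24, 4338945), (Int.ofNat 12, 2372865), (Int.negSucc 23, 3294465), (Int.ofNat 24, 5517345), (Int.ofNat 24, 4534305), (Int.ofNat 24, 5455905), (Int.negSucc 23, 3489825), (Int.negSucc 23, 4411425), (Int.negSucc 23, 3428385), (Int.negSucc 23, 5505825), (Int.negSucc 23, 4522785), (Int.negSucc 23, 5260065), (Int.ofNat 24, 344865), (Int.ofNat 24, 4215585), (Int.ofNat 24, 283425), (Int.ofNat 24, 5440545), (Int.negSucc 23, 3474465), (Int.negSucc 23, 5256225), (Int.ofNat 24, 341025), (Int.ofNat 24, 3167265), (Int.negSucc 23, 218145), (Int.ofNat 24, 4392225), (Int.ofNat 24, 3409185), (Int.negSucc 23, 4207905), (Int.negSucc 23, 275745), (Int.ofNat 24, 3163425), (Int.negSucc 23, 214305), (Int.negSucc 11, 5513265), (Int.negSucc 23, 5390385), (Int.ofNat 24, 4345905), (Int.ofNat 12, 2379825), (Int.negSucc 47, 5505585), (Int.negSucc 47, 4522545), (Int.negSucc 47,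 5259825), (Int.ofNat 48, 344625), (Int.ofNat 48, 4215345), (Int.ofNat 48, 283185), (Int.negSucc 23, 5375025), (Int.negSucc 23, 2425905), (Int.negSucc 23, 5252145), (Int.ofNat 24, 336945), (Int.ofNat 24, 2118705), (Int.ofNat 24, 152625), (Int.negSucc 23, 4326705), (Int.negSucc 11, 2360625), (Int.ofNat 12, 271665), (Int.ofNat 24, 148785), (Int.ofNat 12, 5447745), (Int.negSucc 11, 3481665), (Int.negSucc 23, 5386305), (Int.ofNat 12, 2437185), (Int.ofNat 24, 3297345), (Int.negSucc 11, 2314305), (Int.ofNat 48, 5440065), (Int.negSucc 47, 3473985), (Int.negSucc 47, 5255745), (Int.ofNat 48, 340545), (Int.ofNat 48, 3166785), (Int.negSucc 47, 217665), (Int.ofNat 24, 5374785), (Int.negSucc 11, 2425665), (Int.negSucc 11, 5251905), (Int.ofNat 12, 336705), (Int.ofNat 12, 2118465), (Int.negSucc 23, 152385), (Int.negSucc 23, 3278145), (Int.ofNat 12, 2295105), (Int.ofNat 12, 3155265), (Int.negSucc 11, 206145), (Int.negSucc 11, 2110785), (Int.ofNat 24, 144705), (Int.ofNat 12, 3416145),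 (Int.negSucc 23, 4337745), (Int.negSucc 11, 2371665), (Int.ofNat 24, 3293265), (Int.ofNat 48, 4391505), (Int.ofNat 48, 3408465), (Int.negSucc 47, 4207185), (Int.negSucc 47, 275025), (Int.ofNat 48, 3162705), (Int.negSucc 47, 213585), (Int.ofNat 24, 4326225), (Int.ofNat 12, 2360145), (Int.negSucc 11, 271185), (Int.negSucc 23, 148305), (Int.ofNat 24, 3277905), (Int.ofNat 24, 2294865), (Int.ofNat 24, 3155025), (Int.negSucc 23, 205905), (Int.negSucc 23, 2110545), (Int.negSucc 23, 144465), (Int.ofNat 24, 5517570), (Int.ofNat 24, 4534530), (Int.ofNat 24, 5456130), (Int.negSucc 23, 3490050), (Int.negSucc 23, 4411650), (Int.negSucc 23, 3428610), (Int.negSucc 11, 5509890), (Int.ofNat 12, 5325570), (Int.negSucc 11, 4281090), (Int.ofNat 12, 1331970), (Int.negSucc 23, 5444610), (Int.ofNat 24, 3478530), (Int.negSucc 23, 5321730), (Int.negSucc 23, 1389570), (Int.ofNat 24, 3232770), (Int.ofNat 24, 1266690), (Int.ofNat 12, 3413250), (Int.ofNat 12, 4273410), (Int.negSucc 11, 1324290),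 (Int.negSucc 11, 3228930), (Int.ofNat 48, 5517330), (Int.ofNat 12, 4534290), (Int.ofNat 12, 5455890), (Int.negSucc 11, 3489810), (Int.negSucc 11, 4411410), (Int.negSucc 47, 3428370), (Int.negSucc 47, 5505810), (Int.negSucc 11, 4522770), (Int.negSucc 11, 5260050), (Int.ofNat 12, 344850), (Int.ofNat 12, 4215570), (Int.ofNat 48, 283410), (Int.negSucc 23, 5440530), (Int.ofNat 24, 3474450), (Int.ofNat 24, 5256210), (Int.negSucc 23, 341010), (Int.negSucc 23, 3167250), (Int.ofNat 24, 218130), (Int.ofNat 12, 4392210), (Int.ofNat 48, 3409170), (Int.negSucc 11, 4207890), (Int.negSucc 47, 275730), (Int.ofNat 12, 3163410), (Int.negSucc 11, 214290), (Int.ofNat 12, 5509170), (Int.negSucc 11, 5324850), (Int.ofNat 12, 4280370), (Int.negSucc 11, 1331250), (Int.negSucc 23, 5505330), (Int.negSucc 23, 4522290), (Int.negSucc 23, 5259570), (Int.ofNat 24, 344370), (Int.ofNat 24, 4215090), (Int.ofNat 24, 282930), (Int.ofNat 24, 5309490), (Int.ofNat 24, 1377330), (Int.ofNat 24, 5248050),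 (Int.negSucc 23, 332850), (Int.negSucc 23, 1070130), (Int.negSucc 23, 87090), (Int.negSucc 11, 4261170), (Int.ofNat 12, 1312050), (Int.negSucc 11, 267570), (Int.ofNat 12, 83250), (Int.negSucc 11, 5443650), (Int.ofNat 12, 3477570), (Int.negSucc 47, 5320770), (Int.negSucc 11, 1388610), (Int.ofNat 48, 3231810), (Int.ofNat 12, 1265730), (Int.ofNat 24, 5439810), (Int.negSucc 23, 3473730), (Int.negSucc 23, 5255490), (Int.ofNat 24, 340290), (Int.ofNat 24, 3166530), (Int.negSucc 23, 217410), (Int.ofNat 48, 5309250), (Int.ofNat 12, 1377090), (Int.ofNat 12, 5247810), (Int.negSucc 11, 332610), (Int.negSucc 11, 1069890), (Int.negSucc 47, 86850), (Int.negSucc 47, 3212610), (Int.negSucc 11, 1246530), (Int.negSucc 11, 3151170), (Int.ofNat 12, 202050), (Int.ofNat 12, 1062210), (Int.ofNat 48, 79170), (Int.negSucc 11, 3412050), (Int.negSucc 11, 4272210), (Int.ofNat 12, 1323090), (Int.ofNat 12, 3227730), (Int.ofNat 24, 4391250), (Int.ofNat 24, 3408210), (Int.negSucc 23, 4206930),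 (Int.negSucc 23, 274770), (Int.ofNat 24, 3162450), (Int.negSucc 23, 213330), (Int.ofNat 12, 4260690), (Int.negSucc 11, 1311570), (Int.ofNat 12, 267090), (Int.negSucc 11, 82770), (Int.negSucc 23, 3212370), (Int.negSucc 23, 1246290), (Int.negSucc 23, 3150930), (Int.ofNat 24, 201810), (Int.ofNat 24, 1061970), (Int.ofNat 24, 78930), (Int.negSucc 23, 5513475), (Int.negSucc 23, 4530435), (Int.ofNat 24, 5390595), (Int.ofNat 24, 2441475), (Int.negSucc 23, 4346115), (Int.ofNat 24, 2380035), (Int.negSucc 47, 5509635), (Int.negSucc 47, 4526595), (Int.ofNat 48, 5325315), (Int.ofNat 48, 1393155), (Int.negSucc 47, 4280835), (Int.ofNat 48, 1331715), (Int.negSucc 23, 5379075), (Int.negSucc 23, 2429955), (Int.ofNat 24, 5317635), (Int.ofNat 24, 1385475), (Int.negSucc 23, 2184195), (Int.ofNat 24, 1201155), (Int.negSucc 23, 4330755), (Int.negSucc 11, 2364675), (Int.negSucc 11, 4269315), (Int.ofNat 12, 1320195), (Int.ofNat 12, 2180355), (Int.ofNat 24, 1197315), (Int.negSucc 47, 5513235),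 (Int.negSucc 11, 4530195), (Int.negSucc 23, 5390355), (Int.ofNat 12, 2441235), (Int.ofNat 24, 4345875), (Int.ofNat 48, 2379795), (Int.negSucc 143, 5505555), (Int.negSucc 47, 4522515), (Int.negSucc 47, 5259795), (Int.ofNat 48, 344595), (Int.ofNat 48, 4215315), (Int.ofNat 144, 283155), (Int.negSucc 71, 5374995), (Int.negSucc 23, 2425875), (Int.negSucc 23, 5252115), (Int.ofNat 24, 336915), (Int.ofNat 24, 2118675), (Int.ofNat 72, 152595), (Int.negSucc 23, 4326675), (Int.negSucc 47, 2360595), (Int.ofNat 12, 4203795), (Int.ofNat 48, 271635), (Int.negSucc 11, 2114835), (Int.ofNat 24, 148755), (Int.negSucc 23, 5509155), (Int.negSucc 23, 4526115), (Int.ofNat 24, 5324835), (Int.ofNat 24, 1392675), (Int.negSucc 23, 4280355), (Int.ofNat 24, 1331235), (Int.negSucc 71, 5505315), (Int.negSucc 23, 4522275), (Int.negSucc 23, 5259555), (Int.ofNat 24, 344355), (Int.ofNat 24, 4215075), (Int.ofNat 72, 282915), (Int.ofNat 72, 5309475), (Int.ofNat 24, 1377315), (Int.ofNat 24, 5248035),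 (Int.negSucc 23, 332835), (Int.negSucc 23, 1070115), (Int.negSucc 71, 87075), (Int.ofNat 24, 4261155), (Int.negSucc 23, 1312035), (Int.ofNat 24, 4199715), (Int.ofNat 24, 267555), (Int.negSucc 23, 1066275), (Int.negSucc 23, 83235), (Int.ofNat 24, 5378115), (Int.negSucc 11, 2428995), (Int.ofNat 48, 5316675), (Int.ofNat 12, 1384515), (Int.negSucc 47, 2183235), (Int.negSucc 23, 1200195), (Int.ofNat 72, 5374275), (Int.ofNat 24, 2425155), (Int.ofNat 24, 5251395), (Int.negSucc 23, 336195), (Int.negSucc 23, 2117955), (Int.negSucc 71, 151875), (Int.ofNat 144, 5308995), (Int.ofNat 48, 1376835), (Int.ofNat 48, 5247555), (Int.negSucc 47, 332355), (Int.negSucc 47, 1069635), (Int.negSucc 143, 86595), (Int.ofNat 48, 2164035), (Int.ofNat 24, 1180995), (Int.ofNat 12, 2102595), (Int.negSucc 23, 136515), (Int.negSucc 11, 1058115), (Int.negSucc 47, 75075), (Int.ofNat 24, 4329555), (Int.ofNat 12, 2363475), (Int.ofNat 12, 4268115), (Int.negSucc 11, 1318995), (Int.negSucc 11, 2179155),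 (Int.negSucc 23, 1196115), (Int.ofNat 24, 4325715), (Int.negSucc 23, 2359635), (Int.ofNat 24, 4202835), (Int.ofNat 24, 270675), (Int.negSucc 23, 2113875), (Int.negSucc 23, 147795), (Int.ofNat 48, 4260435), (Int.negSucc 47, 1311315), (Int.ofNat 48, 4198995), (Int.ofNat 48, 266835), (Int.negSucc 47, 1065555), (Int.negSucc 47, 82515), (Int.ofNat 24, 2163795), (Int.negSucc 23, 1180755), (Int.ofNat 24, 2102355), (Int.ofNat 24, 136275), (Int.negSucc 23, 1057875), (Int.negSucc 23, 74835), (Int.negSucc 23, 5447940), (Int.ofNat 24, 3481860), (Int.negSucc 23, 5386500), (Int.negSucc 23, 2437380), (Int.ofNat 24, 3297540), (Int.ofNat 24, 2314500), (Int.negSucc 47, 5444100), (Int.ofNat 48, 3478020), (Int.negSucc 47, 5321220), (Int.negSucc 47, 1389060), (Int.ofNat 48, 3232260), (Int.ofNat 48, 1266180), (Int.negSucc 23, 5378820), (Int.negSucc 11, 5317380), (Int.ofNat 12, 2183940), (Int.ofNat 24, 1200900), (Int.ofNat 24, 3282180), (Int.ofNat 12, 3220740), (Int.negSucc 11, 2176260),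 (Int.negSucc 23, 1193220), (Int.negSucc 11, 5447700), (Int.ofNat 12, 3481620), (Int.ofNat 24, 5386260), (Int.negSucc 11, 2437140), (Int.negSucc 23, 3297300), (Int.ofNat 12, 2314260), (Int.negSucc 47, 5440020), (Int.ofNat 48, 3473940), (Int.ofNat 48, 5255700), (Int.negSucc 47, 340500), (Int.negSucc 47, 3166740), (Int.ofNat 48, 217620), (Int.negSucc 23, 5374740), (Int.ofNat 12, 2425620), (Int.ofNat 12, 5251860), (Int.negSucc 11, 336660), (Int.negSucc 11, 2118420), (Int.ofNat 24, 152340), (Int.ofNat 24, 3278100), (Int.negSucc 11, 2295060), (Int.negSucc 11, 3155220), (Int.ofNat 12, 206100), (Int.ofNat 12, 2110740), (Int.negSucc 23, 144660), (Int.negSucc 23, 5443620), (Int.ofNat 24, 3477540), (Int.negSucc 23, 5320740), (Int.negSucc 23, 1388580), (Int.ofNat 24, 3231780), (Int.ofNat 24, 1265700), (Int.negSucc 23, 5439780), (Int.ofNat 24, 3473700), (Int.ofNat 24, 5255460), (Int.negSucc 23, 340260), (Int.negSucc 23, 3166500), (Int.ofNat 24, 217380), (Int.ofNat 24, 5309220),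 (Int.ofNat 24, 1377060), (Int.ofNat 24, 5247780), (Int.negSucc 23, 332580), (Int.negSucc 23, 1069860), (Int.negSucc 23, 86820), (Int.negSucc 23, 3212580), (Int.negSucc 23, 1246500), (Int.negSucc 23, 3151140), (Int.ofNat 24, 202020), (Int.ofNat 24, 1062180), (Int.ofNat 24, 79140), (Int.ofNat 24, 5378100), (Int.ofNat 12, 5316660), (Int.negSucc 11, 2183220), (Int.negSucc 23, 1200180), (Int.ofNat 24, 5374260), (Int.ofNat 24, 2425140), (Int.ofNat 24, 5251380), (Int.negSucc 23, 336180), (Int.negSucc 23, 2117940), (Int.negSucc 23, 151860), (Int.ofNat 48, 5308980), (Int.ofNat 48, 1376820), (Int.ofNat 48, 5247540), (Int.negSucc 47, 332340), (Int.negSucc 47, 1069620), (Int.negSucc 47, 86580), (Int.ofNat 12, 2164020), (Int.ofNat 24, 1180980), (Int.negSucc 23, 136500), (Int.negSucc 11, 75060), (Int.negSucc 23, 3280980), (Int.negSucc 11, 3219540), (Int.ofNat 12, 2175060), (Int.ofNat 24, 1192020), (Int.negSucc 23, 3277140), (Int.negSucc 23, 2294100), (Int.negSucc 23, 3154260),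 (Int.ofNat 24, 205140), (Int.ofNat 24, 2109780), (Int.ofNat 24, 143700), (Int.negSucc 47, 3211860), (Int.negSucc 47, 1245780), (Int.negSucc 47, 3150420), (Int.ofNat 48, 201300), (Int.ofNat 48, 1061460), (Int.ofNat 48, 78420), (Int.negSucc 11, 2163540), (Int.negSucc 23, 1180500), (Int.ofNat 24, 136020), (Int.ofNat 12, 74580), (Int.ofNat 24, 4399365), (Int.ofNat 24, 3416325), (Int.ofNat 24, 4337925), (Int.negSucc 23, 2371845), (Int.negSucc 23, 3293445), (Int.negSucc 23, 2310405), (Int.ofNat 48, 4395525), (Int.ofNat 48, 3412485), (Int.ofNat 48, 4272645), (Int.negSucc 47, 1323525), (Int.negSucc 47, 3228165), (Int.negSucc 47, 1262085), (Int.ofNat 24, 4330245), (Int.ofNat 12, 2364165), (Int.ofNat 12, 4268805), (Int.negSucc 11, 1319685), (Int.negSucc 11, 2179845), (Int.negSucc 23, 1196805), (Int.ofNat 24, 3281925), (Int.ofNat 24, 2298885), (Int.negSucc 23, 3220485), (Int.negSucc 23, 1254405), (Int.ofNat 24, 2176005), (Int.negSucc 23, 1192965), (Int.ofNat 12, 4399125),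 (Int.ofNat 48, 3416085), (Int.negSucc 23, 4337685), (Int.negSucc 47, 2371605), (Int.ofNat 24, 3293205), (Int.negSucc 11, 2310165), (Int.ofNat 48, 4391445), (Int.ofNat 144, 3408405), (Int.negSucc 47, 4207125), (Int.negSucc 143, 274965), (Int.ofNat 48, 3162645), (Int.negSucc 47, 213525), (Int.ofNat 24, 4326165), (Int.ofNat 48, 2360085), (Int.negSucc 11, 4203285), (Int.negSucc 47, 271125), (Int.ofNat 12, 2114325), (Int.negSucc 23, 148245), (Int.ofNat 72, 3277845), (Int.ofNat 24, 2294805), (Int.ofNat 24, 3154965), (Int.negSucc 23, 205845), (Int.negSucc 23, 2110485), (Int.negSucc 71, 144405), (Int.ofNat 24, 4395045), (Int.ofNat 24, 3412005), (Int.ofNat 24, 4272165), (Int.negSucc 23, 1323045), (Int.negSucc 23, 3227685), (Int.negSucc 23, 1261605), (Int.ofNat 24, 4391205), (Int.ofNat 72, 3408165), (Int.negSucc 23, 4206885), (Int.negSucc 71, 274725), (Int.ofNat 24, 3162405), (Int.negSucc 23, 213285), (Int.negSucc 23, 4260645), (Int.ofNat 24, 1311525), (Int.negSucc 23, 4199205),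 (Int.negSucc 23, 267045), (Int.ofNat 24, 1065765), (Int.ofNat 24, 82725), (Int.negSucc 71, 3212325), (Int.negSucc 23, 1246245), (Int.negSucc 23, 3150885), (Int.ofNat 24, 201765), (Int.ofNat 24, 1061925), (Int.ofNat 72, 78885), (Int.negSucc 23, 4329525), (Int.negSucc 11, 2363445), (Int.negSucc 11, 4268085), (Int.ofNat 12, 1318965), (Int.ofNat 12, 2179125), (Int.ofNat 24, 1196085), (Int.negSucc 23, 4325685), (Int.ofNat 24, 2359605), (Int.negSucc 23, 4202805), (Int.negSucc 23, 270645), (Int.ofNat 24, 2113845), (Int.ofNat 24, 147765), (Int.negSucc 47, 4260405), (Int.ofNat 48, 1311285), (Int.negSucc 47, 4198965), (Int.negSucc 47, 266805), (Int.ofNat 48, 1065525), (Int.ofNat 48, 82485), (Int.negSucc 23, 2163765), (Int.ofNat 24, 1180725), (Int.negSucc 23, 2102325), (Int.negSucc 23, 136245), (Int.ofNat 24, 1057845), (Int.ofNat 24, 74805), (Int.negSucc 23, 3280965), (Int.ofNat 12, 2297925), (Int.negSucc 47, 3219525), (Int.negSucc 11, 1253445), (Int.ofNat 48, 2175045), (Int.ofNat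 24, 1192005), (Int.negSucc 71, 3277125), (Int.negSucc 23, 2294085), (Int.negSucc 23, 3154245), (Int.ofNat 24, 205125), (Int.ofNat 24, 2109765), (Int.ofNat 72, 143685), (Int.negSucc 143, 3211845), (Int.negSucc 47, 1245765), (Int.negSucc 47, 3150405), (Int.ofNat 48, 201285), (Int.ofNat 48, 1061445), (Int.ofNat 144, 78405), (Int.negSucc 47, 2163525), (Int.negSucc 23, 1180485), (Int.negSucc 11, 2102085), (Int.ofNat 24, 136005), (Int.ofNat 12, 1057605), (Int.ofNat 48, 74565)]

def R11 : GA := [(Int.ofNat 1, 5517825, 5517825), (Int.ofNat 1, 5456385, 5456385), (Int.ofNat 1, 5455905, 5456130), (Int.ofNat 1, 5517345, 5517570), (Int.ofNat 1, 5517330, 5517330), (Int.ofNat 1, 5455890, 5455890), (Int.ofNat 1, 5456130, 5455905), (Int.ofNat 1, 5517570, 5517345), (Int.ofNat 1, 5517600, 5517600), (Int.ofNat 1, 5456160, 5456160), (Int.ofNat 1, 5456400, 5456400), (Int.ofNat 1, 5517840, 5517840)]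

def C11 : GA := [(Int.ofNat 1, 5517840, 5517840), (Int.negSucc 0, 5321280, 5321280), (Int.negSucc 0, 3428880, 3428880), (Int.ofNat 1, 3232320, 3232320), (Int.negSucc 0, 5505555, 5505555), (Int.ofNat 1, 5308995, 5308995), (Int.ofNat 1, 283155, 3408405), (Int.negSucc 0, 86595, 3211845), (Int.ofNat 1, 3408405, 283155), (Int.negSucc 0, 3211845, 86595), (Int.negSucc 0, 274965, 274965), (Int.ofNat 1, 78405, 78405)]

def gs11 : List (ℤ × ℕ) := [(Int.ofNat 1, 5517825), (Int.ofNat 1, 5517600), (Int.ofNat 1, 5456400)]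

def tl11 : List (ℕ × ℕ) := [(0, 0), (2, 0), (1, 0), (2, 0), (0, 0), (2, 0), (1, 0), (2, 0), (0, 0), (2, 0), (1, 0), (2, 0)]

noncomputable def P11 (X : Type*) [Inhabited X] [Fintype X] : ((Fin 6 → X) → ℝ) → (Fin 6 → X) → ℝ :=
  fun f => gaF (b := 6) R11 (gaF C11 f)

theorem gr11 : grpC 6 12 R11 gs11 5517840 tl11 = true := by
  decide +kernel

theorem gy11 : yC 6 12 R11 C11 dg11 = true := by
  decide +kernel

theorem pg11 (X : Type*) [Inhabited X] [Fintype X] : IsOp X (P11 X) dg11 :=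
  isOp_youngC R11 C11 gs11 5517840 tl11 gr11 dg11 gy11

end YMBR
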