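import Pool.Agent.YM.BR.Ga0
import Pool.Agent.YM.BR.Ga1

set_option linter.unusedVariables false
set_option maxRecDepth 100000

open YMEng

namespace YMBR

def lk0 : List Key := [
  (1, 4, [(0, [0], [0, 1]), (0, [0], [2, 3]), (1, [], [2, 3]), (1, [], [0, 1])]),
  (3, 6, [(0, [0], [0, 1]), (0, [0], [0, 2]), (0, [1], [1, 2]), (0, [2], [3, 4]), (0, [2], [3, 5]), (0, [1], [4, 5])]),
  (2, 5, [(0, [0], [0, 1]), (0, [0], [0, 2]), (0, [1], [1, 2]), (0, [1], [3, 4]), (1, [], [3, 4])]),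
  (2, 6, [(0, [0], [0, 1]), (0, [0], [0, 2]), (0, [1], [1, 2]), (0, [1], [3, 4]), (1, [], [3, 5]), (1, [], [4, 5])]),
  (1, 5, [(0, [0], [0, 1]), (1, [], [0, 1]), (0, [0], [2, 3]), (1, [], [2, 4]), (1, [], [3, 4])]),
  (1, 6, [(0, [0], [0, 1]), (1, [], [0, 2]), (1, [], [1, 2]), (0, [0], [3, 4]), (1, [], [3, 5]), (1, [], [4, 5])])]

def kl0 : List ℕ := [7, 31, 32, 33, 34, 35]

def m0_0 : Base := (1, 3, [(0, [1], [0, 1]), (0, [1], [0, 2]), (0, [0], [1, 2])])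

def l0_0 : Cov := [(1, 1, 3, [(0, [1], [0, 1]), (0, [1], [0, 2]), (0, [0], [1, 2])])]

def z0_0 : Cov := []

def w0_0 : List (List Wit) := [[(0, 0, 0, 528, 528)]]

def m0_1 : Base := (0, 2, [(0, [0], [0, 1]), (1, [], [0, 1])])

def l0_1 : Cov := [(1, 0, 2, [(0, [0], [0, 1]), (1, [], [0, 1])])]

def z0_1 : Cov := []

def w0_1 : List (List Wit) := [[(0, 0, 0, 16, 16)]]

def m0_2 : Base := (0, 3, [(0, [0], [0, 1]), (1, [], [0, 2]), (1, [], [1, 2])])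

def l0_2 : Cov := [(1, 0, 3, [(0, [0], [0, 1]), (1, [], [0, 2]), (1, [], [1, 2])])]

def z0_2 : Cov := []

def w0_2 : List (List Wit) := [[(0, 0, 0, 528, 528)]]

theorem tr0 : trK keys lk0 kl0 = true := by
  decide +kernel

theorem x0_0 : expB 1 0 dg0 dg1 m0_0 (l0_0 ++ z0_0) w0_0 = true := by
  decide +kernel

theorem x0_1 : expB 1 0 dg0 dg1 m0_1 (l0_1 ++ z0_1) w0_1 = true := by
  decide +kernel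

theorem x0_2 : expB 1 0 dg0 dg1 m0_2 (l0_2 ++ z0_2) w0_2 = true := by
  decide +kernel

theorem t0_0_0 : chkS lk0 1 0 [(1, m0_0)] l0_0
  [(1, 513, 513, 5517840, 5517840)]
  [(1, 1)] = true := by
  decide +kernel

theorem t0_0_1 : chkS lk0 1 0 [(1, m0_0)] l0_1
  [(2, 1, 1, 274960, 274960)]
  [(2, 1)] = true := by
  decide +kernel

theorem t0_0_2 : chkS lk0 1 0 [(1, m0_0)] l0_2
  [(3, 1, 1, 5517840, 5517840)]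
  [(3, 1)] = true := by
  decide +kernel

theorem t0_1_1 : chkS lk0 1 0 [(1, m0_1)] l0_1
  [(0, 0, 0, 12816, 12816)]
  [(0, 1)] = true := by
  decide +kernel

theorem t0_1_2 : chkS lk0 1 0 [(1, m0_1)] l0_2
  [(4, 0, 0, 274960, 274960)]
  [(4, 1)] = true := by
  decide +kernel

theorem t0_2_2 : chkS lk0 1 0 [(1, m0_2)] l0_2
  [(5, 0, 0, 5517840, 5517840)]
  [(5, 1)] = true := by
  decide +kernel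

section

variable {κ ι : Type*} [Fintype κ] [Fintype ι] [Inhabited κ] [Inhabited ι]

noncomputable def F0_0 (E : Env κ ι) : (Fin 1 → κ) → (Fin 0 → ι) → ℝ := op2 (P0 κ) (P1 ι) (fB E 1 0 m0_0)

noncomputable def F0_1 (E : Env κ ι) : (Fin 1 → κ) → (Fin 0 → ι) → ℝ := op2 (P0 κ) (P1 ι) (fB E 1 0 m0_1)

noncomputable def F0_2 (E : Env κ ι) : (Fin 1 → κ) → (Fin 0 → ι) → ℝ := op2 (P0 κ) (P1 ι) (fB E 1 0 m0_2)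

def r0_0_0 : List (ℕ × ℤ) := [(1, 1)]

theorem h0_0_0 (E : Env κ ι) : ip (F0_0 E) (F0_0 E) = dotS (ek E lk0) r0_0_0 :=
  op_entryZ E lk0 1 0 _ _ _ _ (pg0 κ) (pg1 ι) m0_0 m0_0 l0_0 z0_0 w0_0 x0_0 (by decide) _ (chkS_sound E lk0 1 0 _ _ _ _ t0_0_0)

def r0_0_1 : List (ℕ × ℤ) := [(2, 1)]

theorem h0_0_1 (E : Env κ ι) : ip (F0_0 E) (F0_1 E) = dotS (ek E lk0) r0_0_1 :=
  op_entryZ E lk0 1 0 _ _ _ _ (pg0 κ) (pg1 ι) m0_0 m0_1 l0_1 z0_1 w0_1 x0_1 (by decide) _ (chkS_sound E lk0 1 0 _ _ _ _ t0_0_1)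

def r0_0_2 : List (ℕ × ℤ) := [(3, 1)]

theorem h0_0_2 (E : Env κ ι) : ip (F0_0 E) (F0_2 E) = dotS (ek E lk0) r0_0_2 :=
  op_entryZ E lk0 1 0 _ _ _ _ (pg0 κ) (pg1 ι) m0_0 m0_2 l0_2 z0_2 w0_2 x0_2 (by decide) _ (chkS_sound E lk0 1 0 _ _ _ _ t0_0_2)

def r0_1_1 : List (ℕ × ℤ) := [(0, 1)]

theorem h0_1_1 (E : Env κ ι) : ip (F0_1 E) (F0_1 E) = dotS (ek E lk0) r0_1_1 :=
  op_entryZ E lk0 1 0 _ _ _ _ (pg0 κ) (pg1 ι) m0_1 m0_1 l0_1 z0_1 w0_1 x0_1 (by decide) _ (chkS_sound E lk0 1 0 _ _ _ _ t0_1_1)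

def r0_1_2 : List (ℕ × ℤ) := [(4, 1)]

theorem h0_1_2 (E : Env κ ι) : ip (F0_1 E) (F0_2 E) = dotS (ek E lk0) r0_1_2 :=
  op_entryZ E lk0 1 0 _ _ _ _ (pg0 κ) (pg1 ι) m0_1 m0_2 l0_2 z0_2 w0_2 x0_2 (by decide) _ (chkS_sound E lk0 1 0 _ _ _ _ t0_1_2)

def r0_2_2 : List (ℕ × ℤ) := [(5, 1)]

theorem h0_2_2 (E : Env κ ι) : ip (F0_2 E) (F0_2 E) = dotS (ek E lk0) r0_2_2 :=
  op_entryZ E lk0 1 0 _ _ _ _ (pg0 κ) (pg1 ι) m0_2 m0_2 l0_2 z0_2 w0_2 x0_2 (by decide) _ (chkS_sound E lk0 1 0 _ _ _ _ t0_2_2)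

theorem row0_0 (E : Env κ ι) : RowG (ek E lk0) (F0_0 E) [F0_0 E, F0_1 E, F0_2 E] [r0_0_0, r0_0_1, r0_0_2] :=
  rowG_cons _ _ _ _ _ _ (h0_0_0 E) (rowG_cons _ _ _ _ _ _ (h0_0_1 E) (rowG_cons _ _ _ _ _ _ (h0_0_2 E) (rowG_nil _ _)))

theorem row0_1 (E : Env κ ι) : RowG (ek E lk0) (F0_1 E) [F0_1 E, F0_2 E] [r0_1_1, r0_1_2] :=
  rowG_cons _ _ _ _ _ _ (h0_1_1 E) (rowG_cons _ _ _ _ _ _ (h0_1_2 E) (rowG_nil _ _))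

theorem row0_2 (E : Env κ ι) : RowG (ek E lk0) (F0_2 E) [F0_2 E] [r0_2_2] :=
  rowG_cons _ _ _ _ _ _ (h0_2_2 E) (rowG_nil _ _)

def tab0 : List (List (List (ℕ × ℤ))) := [[r0_0_0, r0_0_1, r0_0_2], [r0_1_1, r0_1_2], [r0_2_2]]

theorem tri0 (E : Env κ ι) : TriG (ek E lk0) [F0_0 E, F0_1 E, F0_2 E] tab0 := by
  refine triG_cons _ _ _ _ _ (row0_0 E) ?_
  refine triG_cons _ _ _ _ _ (row0_1 E) ?_
  refine triG_cons _ _ _ _ _ (row0_2 E) ?_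
  exact triG_nil _

end

def lk1 : List Key := [
  (1, 2, [(0, [0], [0, 1]), (0, [0], [0, 1])]),
  (1, 4, [(0, [0], [0, 1]), (0, [0], [0, 1]), (1, [], [2, 3]), (1, [], [2, 3])]),
  (2, 4, [(0, [0], [0, 1]), (0, [1], [2, 3]), (0, [0], [2, 3]), (0, [1], [0, 1])]),
  (1, 4, [(0, [0], [0, 1]), (0, [0], [0, 2]), (1, [], [2, 3]), (1, [], [1, 3])]),
  (1, 4, [(0, [0], [0, 1]), (0, [0], [2, 3]), (1, [], [0, 2]), (1, [], [1, 3])]),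
  (2, 4, [(0, [0], [0, 1]), (0, [1], [2, 3]), (0, [1], [0, 2]), (0, [0], [1, 3])]),
  (2, 4, [(0, [0], [0, 1]), (0, [0], [2, 3]), (0, [1], [0, 2]), (0, [1], [1, 3])]),
  (1, 4, [(0, [0], [0, 1]), (0, [0], [2, 3]), (1, [], [2, 3]), (1, [], [0, 1])]),
  (2, 4, [(0, [0], [0, 1]), (0, [0], [0, 1]), (0, [1], [2, 3]), (0, [1], [2, 3])]),
  (2, 6, [(0, [0], [0, 1]), (0, [0], [0, 1]), (0, [1], [2, 3]), (0, [1], [2, 3]), (1, [], [4, 5]), (1, [], [4, 5])]),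
  (2, 6, [(0, [0], [0, 1]), (0, [0], [0, 1]), (0, [1], [2, 3]), (0, [1], [2, 4]), (1, [], [4, 5]), (1, [], [3, 5])]),
  (2, 6, [(0, [0], [0, 1]), (0, [0], [0, 1]), (0, [1], [2, 3]), (0, [1], [4, 5]), (1, [], [2, 4]), (1, [], [3, 5])]),
  (3, 6, [(0, [0], [0, 1]), (0, [0], [0, 1]), (0, [1], [2, 3]), (0, [2], [4, 5]), (0, [2], [2, 4]), (0, [1], [3, 5])]),
  (3, 6, [(0, [0], [0, 1]), (0, [0], [0, 1]), (0, [1], [2, 3]), (0, [1], [4, 5]), (0, [2], [2, 4]), (0, [2], [3, 5])]),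
  (2, 6, [(0, [0], [0, 1]), (0, [0], [0, 1]), (0, [1], [2, 3]), (0, [1], [4, 5]), (1, [], [4, 5]), (1, [], [2, 3])]),
  (1, 6, [(0, [0], [0, 1]), (0, [0], [0, 1]), (1, [], [2, 3]), (1, [], [2, 3]), (1, [], [4, 5]), (1, [], [4, 5])]),
  (2, 6, [(0, [0], [0, 1]), (0, [1], [2, 3]), (0, [0], [2, 3]), (0, [1], [0, 1]), (1, [], [4, 5]), (1, [], [4, 5])]),
  (1, 6, [(0, [0], [0, 1]), (0, [0], [0, 2]), (1, [], [2, 3]), (1, [], [1, 3]), (1, [], [4, 5]), (1, [], [4, 5])]),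
  (1, 6, [(0, [0], [0, 1]), (0, [0], [2, 3]), (1, [], [0, 2]), (1, [], [1, 3]), (1, [], [4, 5]), (1, [], [4, 5])]),
  (2, 6, [(0, [0], [0, 1]), (0, [1], [2, 3]), (0, [1], [0, 2]), (0, [0], [1, 3]), (1, [], [4, 5]), (1, [], [4, 5])]),
  (2, 6, [(0, [0], [0, 1]), (0, [0], [2, 3]), (0, [1], [0, 2]), (0, [1], [1, 3]), (1, [], [4, 5]), (1, [], [4, 5])]),
  (3, 6, [(0, [0], [0, 1]), (0, [1], [2, 3]), (0, [1], [4, 5]), (0, [0], [2, 4]), (0, [2], [0, 5]), (0, [2], [1, 3])]),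
  (3, 6, [(0, [0], [0, 1]), (0, [1], [0, 2]), (0, [1], [3, 4]), (0, [0], [3, 4]), (0, [2], [2, 5]), (0, [2], [1, 5])]),
  (3, 6, [(0, [0], [0, 1]), (0, [0], [2, 3]), (0, [1], [0, 2]), (0, [2], [1, 3]), (0, [2], [4, 5]), (0, [1], [4, 5])]),
  (3, 6, [(0, [0], [0, 1]), (0, [0], [0, 1]), (0, [1], [2, 3]), (0, [1], [2, 3]), (0, [2], [4, 5]), (0, [2], [4, 5])]),
  (2, 5, [(0, [0], [0, 1]), (0, [1], [0, 2]), (0, [0], [2, 3]), (0, [1], [1, 4]), (1, [], [3, 4])]),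
  (2, 5, [(0, [0], [0, 1]), (0, [0], [2, 3]), (0, [1], [2, 4]), (0, [1], [0, 4]), (1, [], [1, 3])]),
  (3, 6, [(0, [0], [0, 1]), (0, [0], [0, 1]), (0, [1], [2, 3]), (0, [2], [4, 5]), (0, [1], [4, 5]), (0, [2], [2, 3])]),
  (1, 5, [(0, [0], [0, 1]), (1, [], [0, 1]), (0, [0], [2, 3]), (1, [], [2, 4]), (1, [], [3, 4])]),
  (2, 5, [(0, [0], [0, 1]), (0, [0], [0, 1]), (0, [1], [2, 3]), (0, [1], [2, 4]), (1, [], [3, 4])]),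
  (3, 6, [(0, [0], [0, 1]), (0, [0], [2, 0]), (0, [1], [3, 1]), (0, [2], [4, 5]), (0, [2], [2, 4]), (0, [1], [3, 5])]),
  (3, 6, [(0, [0], [0, 1]), (0, [0], [2, 0]), (0, [1], [3, 1]), (0, [2], [4, 5]), (0, [2], [3, 4]), (0, [1], [2, 5])]),
  (3, 6, [(0, [0], [0, 1]), (0, [0], [2, 0]), (0, [1], [3, 1]), (0, [2], [2, 4]), (0, [2], [3, 5]), (0, [1], [4, 5])]),
  (2, 6, [(0, [0], [0, 1]), (0, [0], [2, 0]), (0, [1], [3, 1]), (0, [1], [4, 5]), (1, [], [4, 5]), (1, [], [2, 3])]),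
  (2, 6, [(0, [0], [0, 1]), (0, [0], [2, 0]), (0, [1], [3, 1]), (0, [1], [4, 5]), (1, [], [2, 4]), (1, [], [3, 5])]),
  (2, 6, [(0, [0], [0, 1]), (0, [0], [2, 0]), (0, [1], [3, 1]), (0, [1], [2, 4]), (1, [], [4, 5]), (1, [], [3, 5])]),
  (2, 6, [(0, [0], [0, 1]), (0, [0], [2, 0]), (0, [1], [3, 1]), (0, [1], [3, 4]), (1, [], [4, 5]), (1, [], [2, 5])]),
  (2, 5, [(0, [0], [0, 1]), (0, [0], [2, 0]), (0, [1], [3, 1]), (0, [1], [3, 4]), (1, [], [2, 4])]),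
  (3, 6, [(0, [0], [0, 1]), (0, [0], [2, 3]), (0, [1], [0, 1]), (0, [2], [4, 5]), (0, [2], [2, 3]), (0, [1], [4, 5])]),
  (2, 6, [(0, [0], [0, 1]), (0, [0], [2, 3]), (0, [1], [0, 1]), (0, [1], [4, 5]), (1, [], [4, 5]), (1, [], [2, 3])]),
  (2, 6, [(0, [0], [0, 1]), (0, [0], [2, 3]), (0, [1], [0, 1]), (0, [1], [4, 5]), (1, [], [2, 4]), (1, [], [3, 5])]),
  (2, 6, [(0, [0], [0, 1]), (0, [0], [2, 3]), (0, [1], [0, 1]), (0, [1], [2, 4]), (1, [], [4, 5]), (1, [], [3, 5])]),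
  (2, 5, [(0, [0], [0, 1]), (0, [0], [2, 3]), (0, [1], [0, 1]), (0, [1], [2, 4]), (1, [], [3, 4])]),
  (2, 6, [(0, [0], [0, 1]), (0, [0], [2, 3]), (0, [1], [1, 3]), (0, [1], [4, 5]), (1, [], [4, 5]), (1, [], [0, 2])]),
  (2, 6, [(0, [0], [0, 1]), (0, [0], [2, 3]), (0, [1], [1, 3]), (0, [1], [4, 5]), (1, [], [0, 4]), (1, [], [2, 5])]),
  (2, 6, [(0, [0], [0, 1]), (0, [0], [2, 3]), (0, [1], [1, 3]), (0, [1], [0, 4]), (1, [], [4, 5]), (1, [], [2, 5])]),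
  (1, 6, [(0, [0], [0, 1]), (1, [], [0, 1]), (1, [], [2, 3]), (0, [0], [4, 5]), (1, [], [4, 5]), (1, [], [2, 3])]),
  (1, 6, [(0, [0], [0, 1]), (1, [], [0, 1]), (1, [], [2, 3]), (0, [0], [4, 5]), (1, [], [2, 4]), (1, [], [3, 5])]),
  (1, 6, [(0, [0], [0, 1]), (1, [], [2, 0]), (1, [], [3, 1]), (0, [0], [4, 5]), (1, [], [2, 4]), (1, [], [3, 5])]),
  (1, 6, [(0, [0], [0, 1]), (1, [], [2, 0]), (1, [], [3, 1]), (0, [0], [2, 4]), (1, [], [4, 5]), (1, [], [3, 5])]),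
  (1, 5, [(0, [0], [0, 1]), (1, [], [2, 0]), (1, [], [3, 1]), (0, [0], [2, 4]), (1, [], [3, 4])]),
  (1, 6, [(0, [0], [0, 1]), (1, [], [1, 2]), (1, [], [3, 2]), (0, [0], [0, 4]), (1, [], [4, 5]), (1, [], [3, 5])]),
  (1, 5, [(0, [0], [0, 1]), (1, [], [1, 2]), (1, [], [3, 2]), (0, [0], [0, 4]), (1, [], [3, 4])]),
  (1, 3, [(0, [0], [0, 1]), (1, [], [2, 1]), (0, [0], [0, 2])]),
  (1, 5, [(0, [0], [0, 1]), (1, [], [2, 1]), (0, [0], [0, 2]), (1, [], [3, 4]), (1, [], [3, 4])])]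

def kl1 : List ℕ := [0, 1, 2, 3, 4, 5, 6, 7, 8, 9, 10, 11, 12, 13, 14, 15, 16, 17, 18, 19, 20, 24, 25, 26, 27, 28, 29, 30, 34, 36, 37, 38, 39, 40, 41, 42, 43, 44, 45, 46, 47, 48, 49, 50, 51, 52, 53, 54, 55, 56, 57, 58, 59, 60, 61]

def m1_0 : Base := (1, 2, [(0, [1], [2, 3]), (0, [1], [2, 3]), (0, [0], [0, 1])])

def l1_0 : Cov := [(4, 1, 2, [(0, [1], [2, 3]), (0, [1], [2, 3]), (0, [0], [0, 1])])]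

def z1_0 : Cov := []

def w1_0 : List (List Wit) := [[(0, 0, 0, 16, 16), (0, 0, 0, 16, 16)]]

def m1_1 : Base := (1, 2, [(0, [1], [2, 3]), (0, [1], [0, 2]), (0, [0], [1, 3])])

def l1_1 : Cov := [(2, 1, 2, [(0, [1], [2, 3]), (0, [1], [0, 2]), (0, [0], [1, 3])]),
  (2, 1, 2, [(0, [1], [2, 3]), (0, [1], [1, 2]), (0, [0], [0, 3])])]

def z1_1 : Cov := []

def w1_1 : List (List Wit) := [[(0, 0, 0, 16, 16), (1, 0, 0, 16, 16)]]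

def m1_2 : Base := (1, 2, [(0, [1], [2, 3]), (0, [1], [0, 1]), (0, [0], [2, 3])])

def l1_2 : Cov := [(4, 1, 2, [(0, [1], [2, 3]), (0, [1], [0, 1]), (0, [0], [2, 3])])]

def z1_2 : Cov := []

def w1_2 : List (List Wit) := [[(0, 0, 0, 16, 16), (0, 0, 0, 16, 16)]]

def m1_3 : Base := (1, 2, [(0, [1], [0, 2]), (0, [1], [1, 3]), (0, [0], [2, 3])])

def l1_3 : Cov := [(4, 1, 2, [(0, [1], [0, 2]), (0, [1], [1, 3]), (0, [0], [2, 3])])]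

def z1_3 : Cov := []

def w1_3 : List (List Wit) := [[(0, 0, 0, 16, 16), (0, 0, 0, 1, 1)]]

def m1_4 : Base := (0, 2, [(0, [0], [2, 3]), (1, [], [2, 3]), (1, [], [0, 1])])

def l1_4 : Cov := [(4, 0, 2, [(0, [0], [2, 3]), (1, [], [2, 3]), (1, [], [0, 1])])]

def z1_4 : Cov := []

def w1_4 : List (List Wit) := [[(0, 0, 0, 16, 16), (0, 0, 0, 16, 16)]]

def m1_5 : Base := (0, 2, [(0, [0], [2, 3]), (1, [], [0, 2]), (1, [], [1, 3])])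

def l1_5 : Cov := [(4, 0, 2, [(0, [0], [2, 3]), (1, [], [0, 2]), (1, [], [1, 3])])]

def z1_5 : Cov := []

def w1_5 : List (List Wit) := [[(0, 0, 0, 16, 16), (0, 0, 0, 1, 1)]]

def m1_6 : Base := (0, 2, [(0, [0], [0, 2]), (1, [], [2, 3]), (1, [], [1, 3])])

def l1_6 : Cov := [(2, 0, 2, [(0, [0], [0, 2]), (1, [], [2, 3]), (1, [], [1, 3])]),
  (2, 0, 2, [(0, [0], [1, 2]), (1, [], [2, 3]), (1, [], [0, 3])])]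

def z1_6 : Cov := []

def w1_6 : List (List Wit) := [[(0, 0, 0, 16, 16), (1, 0, 0, 16, 16)]]

def m1_7 : Base := (0, 1, [(0, [0], [0, 2]), (1, [], [1, 2])])

def l1_7 : Cov := [(2, 0, 1, [(0, [0], [0, 2]), (1, [], [1, 2])]),
  (2, 0, 1, [(0, [0], [1, 2]), (1, [], [0, 2])])]

def z1_7 : Cov := []

def w1_7 : List (List Wit) := [[(0, 0, 0, 0, 0), (1, 0, 0, 0, 0)]]

def m1_8 : Base := (0, 0, [(0, [0], [0, 1])])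

def l1_8 : Cov := [(4, 0, 0, [(0, [0], [0, 1])])]

def z1_8 : Cov := []

def w1_8 : List (List Wit) := [[(0, 0, 0, 0, 0), (0, 0, 0, 0, 0)]]

def m1_9 : Base := (0, 2, [(0, [0], [0, 1]), (1, [], [2, 3]), (1, [], [2, 3])])

def l1_9 : Cov := [(4, 0, 2, [(0, [0], [0, 1]), (1, [], [2, 3]), (1, [], [2, 3])])]

def z1_9 : Cov := []

def w1_9 : List (List Wit) := [[(0, 0, 0, 16, 16), (0, 0, 0, 16, 16)]]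

theorem tr1 : trK keys lk1 kl1 = true := by
  decide +kernel

theorem x1_0 : expB 1 2 dg0 dg2 m1_0 (l1_0 ++ z1_0) w1_0 = true := by
  decide +kernel

theorem x1_1 : expB 1 2 dg0 dg2 m1_1 (l1_1 ++ z1_1) w1_1 = true := by
  decide +kernel

theorem x1_2 : expB 1 2 dg0 dg2 m1_2 (l1_2 ++ z1_2) w1_2 = true := by
  decide +kernel

theorem x1_3 : expB 1 2 dg0 dg2 m1_3 (l1_3 ++ z1_3) w1_3 = true := by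
  decide +kernel

theorem x1_4 : expB 1 2 dg0 dg2 m1_4 (l1_4 ++ z1_4) w1_4 = true := by
  decide +kernel

theorem x1_5 : expB 1 2 dg0 dg2 m1_5 (l1_5 ++ z1_5) w1_5 = true := by
  decide +kernel

theorem x1_6 : expB 1 2 dg0 dg2 m1_6 (l1_6 ++ z1_6) w1_6 = true := by
  decide +kernel

theorem x1_7 : expB 1 2 dg0 dg2 m1_7 (l1_7 ++ z1_7) w1_7 = true := by
  decide +kernel

theorem x1_8 : expB 1 2 dg0 dg2 m1_8 (l1_8 ++ z1_8) w1_8 = true := by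
  decide +kernel

theorem x1_9 : expB 1 2 dg0 dg2 m1_9 (l1_9 ++ z1_9) w1_9 = true := by
  decide +kernel

theorem t1_0_0 : chkS lk1 1 2 [(1, m1_0)] l1_0
  [(24, 513, 513, 5509170, 5509170)]
  [(24, 4)] = true := by
  decide +kernel

theorem t1_0_1 : chkS lk1 1 2 [(1, m1_0)] l1_1
  [(12, 513, 513, 5509170, 5509170), (12, 513, 513, 5509155, 5505330)]
  [(12, 4)] = true := by
  decide +kernel

theorem t1_0_2 : chkS lk1 1 2 [(1, m1_0)] l1_2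
  [(27, 513, 513, 5509170, 5509170)]
  [(27, 4)] = true := by
  decide +kernel

theorem t1_0_3 : chkS lk1 1 2 [(1, m1_0)] l1_3
  [(13, 513, 513, 5509170, 5509170)]
  [(13, 4)] = true := by
  decide +kernel

theorem t1_0_4 : chkS lk1 1 2 [(1, m1_0)] l1_4
  [(14, 1, 1, 5509170, 5509170)]
  [(14, 4)] = true := by
  decide +kernel

theorem t1_0_5 : chkS lk1 1 2 [(1, m1_0)] l1_5
  [(11, 1, 1, 5509170, 5509170)]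
  [(11, 4)] = true := by
  decide +kernel

theorem t1_0_6 : chkS lk1 1 2 [(1, m1_0)] l1_6
  [(10, 1, 1, 5509170, 5509170), (10, 1, 1, 5509155, 5505330)]
  [(10, 4)] = true := by
  decide +kernel

theorem t1_0_7 : chkS lk1 1 2 [(1, m1_0)] l1_7
  [(29, 1, 1, 266290, 266290), (29, 1, 1, 266275, 262450)]
  [(29, 4)] = true := by
  decide +kernel

theorem t1_0_8 : chkS lk1 1 2 [(1, m1_0)] l1_8
  [(8, 1, 1, 4146, 4146)]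
  [(8, 4)] = true := by
  decide +kernel

theorem t1_0_9 : chkS lk1 1 2 [(1, m1_0)] l1_9
  [(9, 1, 1, 5509170, 5509170)]
  [(9, 4)] = true := by
  decide +kernel

theorem t1_1_1 : chkS lk1 1 2 [(1, m1_1)] l1_1
  [(30, 513, 513, 5509170, 5509170), (31, 513, 513, 5509170, 5509170)]
  [(30, 2), (31, 2)] = true := by
  decide +kernel

theorem t1_1_2 : chkS lk1 1 2 [(1, m1_1)] l1_2
  [(22, 288, 288, 4396290, 2441265)]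
  [(22, 4)] = true := by
  decide +kernel

theorem t1_1_3 : chkS lk1 1 2 [(1, m1_1)] l1_3
  [(32, 513, 513, 5509170, 5509170)]
  [(32, 4)] = true := by
  decide +kernel

theorem t1_1_4 : chkS lk1 1 2 [(1, m1_1)] l1_4
  [(33, 1, 1, 5509170, 5509170)]
  [(33, 4)] = true := by
  decide +kernel

theorem t1_1_5 : chkS lk1 1 2 [(1, m1_1)] l1_5
  [(34, 1, 1, 5509170, 5509170)]
  [(34, 4)] = true := by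
  decide +kernel

theorem t1_1_6 : chkS lk1 1 2 [(1, m1_1)] l1_6
  [(35, 1, 1, 5509170, 5509170), (36, 1, 1, 5509170, 5509170)]
  [(35, 2), (36, 2)] = true := by
  decide +kernel

theorem t1_1_7 : chkS lk1 1 2 [(1, m1_1)] l1_7
  [(26, 16, 16, 197650, 147475), (37, 1, 1, 266290, 266290)]
  [(26, 2), (37, 2)] = true := by
  decide +kernel

theorem t1_1_8 : chkS lk1 1 2 [(1, m1_1)] l1_8
  [(5, 1, 1, 291, 291)]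
  [(5, 4)] = true := by
  decide +kernel

theorem t1_1_9 : chkS lk1 1 2 [(1, m1_1)] l1_9
  [(19, 1, 1, 5505315, 5505315)]
  [(19, 4)] = true := by
  decide +kernel

theorem t1_2_2 : chkS lk1 1 2 [(1, m1_2)] l1_2
  [(38, 513, 513, 5509170, 5509170)]
  [(38, 4)] = true := by
  decide +kernel

theorem t1_2_3 : chkS lk1 1 2 [(1, m1_2)] l1_3
  [(23, 18, 18, 3232800, 3297600)]
  [(23, 4)] = true := by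
  decide +kernel

theorem t1_2_4 : chkS lk1 1 2 [(1, m1_2)] l1_4
  [(39, 1, 1, 5509170, 5509170)]
  [(39, 4)] = true := by
  decide +kernel

theorem t1_2_5 : chkS lk1 1 2 [(1, m1_2)] l1_5
  [(40, 1, 1, 5509170, 5509170)]
  [(40, 4)] = true := by
  decide +kernel

theorem t1_2_6 : chkS lk1 1 2 [(1, m1_2)] l1_6
  [(41, 1, 1, 5509170, 5509170), (41, 1, 1, 5509155, 5505330)]
  [(41, 4)] = true := by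
  decide +kernel

theorem t1_2_7 : chkS lk1 1 2 [(1, m1_2)] l1_7
  [(42, 1, 1, 266290, 266290), (42, 1, 1, 266275, 262450)]
  [(42, 4)] = true := by
  decide +kernel

theorem t1_2_8 : chkS lk1 1 2 [(1, m1_2)] l1_8
  [(2, 1, 1, 4146, 4146)]
  [(2, 4)] = true := by
  decide +kernel

theorem t1_2_9 : chkS lk1 1 2 [(1, m1_2)] l1_9
  [(16, 1, 1, 5509170, 5509170)]
  [(16, 4)] = true := by
  decide +kernel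

theorem t1_3_3 : chkS lk1 1 2 [(1, m1_3)] l1_3
  [(21, 288, 288, 2363445, 267570)]
  [(21, 4)] = true := by
  decide +kernel

theorem t1_3_4 : chkS lk1 1 2 [(1, m1_3)] l1_4
  [(43, 1, 1, 5517600, 5517600)]
  [(43, 4)] = true := by
  decide +kernel

theorem t1_3_5 : chkS lk1 1 2 [(1, m1_3)] l1_5
  [(44, 1, 1, 5517600, 5517600)]
  [(44, 4)] = true := by
  decide +kernel

theorem t1_3_6 : chkS lk1 1 2 [(1, m1_3)] l1_6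
  [(45, 1, 1, 5517600, 5517600), (45, 1, 1, 5509890, 5513265)]
  [(45, 4)] = true := by
  decide +kernel

theorem t1_3_7 : chkS lk1 1 2 [(1, m1_3)] l1_7
  [(25, 1, 1, 270385, 267010), (25, 1, 1, 262675, 262675)]
  [(25, 4)] = true := by
  decide +kernel

theorem t1_3_8 : chkS lk1 1 2 [(1, m1_3)] l1_8
  [(6, 1, 1, 12576, 12576)]
  [(6, 4)] = true := by
  decide +kernel

theorem t1_3_9 : chkS lk1 1 2 [(1, m1_3)] l1_9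
  [(20, 1, 1, 5517600, 5517600)]
  [(20, 4)] = true := by
  decide +kernel

theorem t1_4_4 : chkS lk1 1 2 [(1, m1_4)] l1_4
  [(46, 0, 0, 5509170, 5509170)]
  [(46, 4)] = true := by
  decide +kernel

theorem t1_4_5 : chkS lk1 1 2 [(1, m1_4)] l1_5
  [(47, 0, 0, 5509170, 5509170)]
  [(47, 4)] = true := by
  decide +kernel

theorem t1_4_6 : chkS lk1 1 2 [(1, m1_4)] l1_6
  [(47, 0, 0, 3477540, 4215090), (47, 0, 0, 3477570, 4280370)]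
  [(47, 4)] = true := by
  decide +kernel

theorem t1_4_7 : chkS lk1 1 2 [(1, m1_4)] l1_7
  [(28, 0, 0, 200770, 81970), (28, 0, 0, 200740, 16690)]
  [(28, 4)] = true := by
  decide +kernel

theorem t1_4_8 : chkS lk1 1 2 [(1, m1_4)] l1_8
  [(7, 0, 0, 4146, 4146)]
  [(7, 4)] = true := by
  decide +kernel

theorem t1_4_9 : chkS lk1 1 2 [(1, m1_4)] l1_9
  [(46, 0, 0, 3280980, 1070130)]
  [(46, 4)] = true := by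
  decide +kernel

theorem t1_5_5 : chkS lk1 1 2 [(1, m1_5)] l1_5
  [(48, 0, 0, 5509170, 5509170)]
  [(48, 4)] = true := by
  decide +kernel

theorem t1_5_6 : chkS lk1 1 2 [(1, m1_5)] l1_6
  [(49, 0, 0, 5509170, 5509170), (49, 0, 0, 5505315, 5505315)]
  [(49, 4)] = true := by
  decide +kernel

theorem t1_5_7 : chkS lk1 1 2 [(1, m1_5)] l1_7
  [(50, 0, 0, 266290, 266290), (50, 0, 0, 262435, 262435)]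
  [(50, 4)] = true := by
  decide +kernel

theorem t1_5_8 : chkS lk1 1 2 [(1, m1_5)] l1_8
  [(4, 0, 0, 4146, 4146)]
  [(4, 4)] = true := by
  decide +kernel

theorem t1_5_9 : chkS lk1 1 2 [(1, m1_5)] l1_9
  [(18, 0, 0, 5509170, 5509170)]
  [(18, 4)] = true := by
  decide +kernel

theorem t1_6_6 : chkS lk1 1 2 [(1, m1_6)] l1_6
  [(51, 0, 0, 5513520, 5509920), (48, 0, 0, 2371920, 1324320)]
  [(48, 2), (51, 2)] = true := by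
  decide +kernel

theorem t1_6_7 : chkS lk1 1 2 [(1, m1_6)] l1_7
  [(52, 0, 0, 270640, 267040), (50, 0, 0, 143680, 78880)]
  [(50, 2), (52, 2)] = true := by
  decide +kernel

theorem t1_6_8 : chkS lk1 1 2 [(1, m1_6)] l1_8
  [(3, 0, 0, 12576, 12576)]
  [(3, 4)] = true := by
  decide +kernel

theorem t1_6_9 : chkS lk1 1 2 [(1, m1_6)] l1_9
  [(17, 0, 0, 5517600, 5517600)]
  [(17, 4)] = true := by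
  decide +kernel

theorem t1_7_7 : chkS lk1 1 2 [(1, m1_7)] l1_7
  [(3, 0, 0, 8496, 4896), (4, 0, 0, 8496, 4896)]
  [(3, 2), (4, 2)] = true := by
  decide +kernel

theorem t1_7_8 : chkS lk1 1 2 [(1, m1_7)] l1_8
  [(53, 0, 0, 288, 288)]
  [(53, 4)] = true := by
  decide +kernel

theorem t1_7_9 : chkS lk1 1 2 [(1, m1_7)] l1_9
  [(54, 0, 0, 274720, 274720)]
  [(54, 4)] = true := by
  decide +kernel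

theorem t1_8_8 : chkS lk1 1 2 [(1, m1_8)] l1_8
  [(0, 0, 0, 16, 16)]
  [(0, 4)] = true := by
  decide +kernel

theorem t1_8_9 : chkS lk1 1 2 [(1, m1_8)] l1_9
  [(1, 0, 0, 12816, 12816)]
  [(1, 4)] = true := by
  decide +kernel

theorem t1_9_9 : chkS lk1 1 2 [(1, m1_9)] l1_9
  [(15, 0, 0, 5517840, 5517840)]
  [(15, 4)] = true := by
  decide +kernel

section

variable {κ ι : Type*} [Fintype κ] [Fintype ι] [Inhabited κ] [Inhabited ι]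

noncomputable def F1_0 (E : Env κ ι) : (Fin 1 → κ) → (Fin 2 → ι) → ℝ := op2 (P0 κ) (P2 ι) (fB E 1 2 m1_0)

noncomputable def F1_1 (E : Env κ ι) : (Fin 1 → κ) → (Fin 2 → ι) → ℝ := op2 (P0 κ) (P2 ι) (fB E 1 2 m1_1)

noncomputable def F1_2 (E : Env κ ι) : (Fin 1 → κ) → (Fin 2 → ι) → ℝ := op2 (P0 κ) (P2 ι) (fB E 1 2 m1_2)

noncomputable def F1_3 (E : Env κ ι) : (Fin 1 → κ) → (Fin 2 → ι) → ℝ := op2 (P0 κ) (P2 ι) (fB E 1 2 m1_3)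

noncomputable def F1_4 (E : Env κ ι) : (Fin 1 → κ) → (Fin 2 → ι) → ℝ := op2 (P0 κ) (P2 ι) (fB E 1 2 m1_4)

noncomputable def F1_5 (E : Env κ ι) : (Fin 1 → κ) → (Fin 2 → ι) → ℝ := op2 (P0 κ) (P2 ι) (fB E 1 2 m1_5)

noncomputable def F1_6 (E : Env κ ι) : (Fin 1 → κ) → (Fin 2 → ι) → ℝ := op2 (P0 κ) (P2 ι) (fB E 1 2 m1_6)

noncomputable def F1_7 (E : Env κ ι) : (Fin 1 → κ) → (Fin 2 → ι) → ℝ := op2 (P0 κ) (P2 ι) (fB E 1 2 m1_7)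

noncomputable def F1_8 (E : Env κ ι) : (Fin 1 → κ) → (Fin 2 → ι) → ℝ := op2 (P0 κ) (P2 ι) (fB E 1 2 m1_8)

noncomputable def F1_9 (E : Env κ ι) : (Fin 1 → κ) → (Fin 2 → ι) → ℝ := op2 (P0 κ) (P2 ι) (fB E 1 2 m1_9)

def r1_0_0 : List (ℕ × ℤ) := [(24, 4)]

theorem h1_0_0 (E : Env κ ι) : ip (F1_0 E) (F1_0 E) = dotS (ek E lk1) r1_0_0 :=
  op_entryZ E lk1 1 2 _ _ _ _ (pg0 κ) (pg2 ι) m1_0 m1_0 l1_0 z1_0 w1_0 x1_0 (by decide) _ (chkS_sound E lk1 1 2 _ _ _ _ t1_0_0)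

def r1_0_1 : List (ℕ × ℤ) := [(12, 4)]

theorem h1_0_1 (E : Env κ ι) : ip (F1_0 E) (F1_1 E) = dotS (ek E lk1) r1_0_1 :=
  op_entryZ E lk1 1 2 _ _ _ _ (pg0 κ) (pg2 ι) m1_0 m1_1 l1_1 z1_1 w1_1 x1_1 (by decide) _ (chkS_sound E lk1 1 2 _ _ _ _ t1_0_1)

def r1_0_2 : List (ℕ × ℤ) := [(27, 4)]

theorem h1_0_2 (E : Env κ ι) : ip (F1_0 E) (F1_2 E) = dotS (ek E lk1) r1_0_2 :=
  op_entryZ E lk1 1 2 _ _ _ _ (pg0 κ) (pg2 ι) m1_0 m1_2 l1_2 z1_2 w1_2 x1_2 (by decide) _ (chkS_sound E lk1 1 2 _ _ _ _ t1_0_2)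

def r1_0_3 : List (ℕ × ℤ) := [(13, 4)]

theorem h1_0_3 (E : Env κ ι) : ip (F1_0 E) (F1_3 E) = dotS (ek E lk1) r1_0_3 :=
  op_entryZ E lk1 1 2 _ _ _ _ (pg0 κ) (pg2 ι) m1_0 m1_3 l1_3 z1_3 w1_3 x1_3 (by decide) _ (chkS_sound E lk1 1 2 _ _ _ _ t1_0_3)

def r1_0_4 : List (ℕ × ℤ) := [(14, 4)]

theorem h1_0_4 (E : Env κ ι) : ip (F1_0 E) (F1_4 E) = dotS (ek E lk1) r1_0_4 :=
  op_entryZ E lk1 1 2 _ _ _ _ (pg0 κ) (pg2 ι) m1_0 m1_4 l1_4 z1_4 w1_4 x1_4 (by decide) _ (chkS_sound E lk1 1 2 _ _ _ _ t1_0_4)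

def r1_0_5 : List (ℕ × ℤ) := [(11, 4)]

theorem h1_0_5 (E : Env κ ι) : ip (F1_0 E) (F1_5 E) = dotS (ek E lk1) r1_0_5 :=
  op_entryZ E lk1 1 2 _ _ _ _ (pg0 κ) (pg2 ι) m1_0 m1_5 l1_5 z1_5 w1_5 x1_5 (by decide) _ (chkS_sound E lk1 1 2 _ _ _ _ t1_0_5)

def r1_0_6 : List (ℕ × ℤ) := [(10, 4)]

theorem h1_0_6 (E : Env κ ι) : ip (F1_0 E) (F1_6 E) = dotS (ek E lk1) r1_0_6 :=
  op_entryZ E lk1 1 2 _ _ _ _ (pg0 κ) (pg2 ι) m1_0 m1_6 l1_6 z1_6 w1_6 x1_6 (by decide) _ (chkS_sound E lk1 1 2 _ _ _ _ t1_0_6)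

def r1_0_7 : List (ℕ × ℤ) := [(29, 4)]

theorem h1_0_7 (E : Env κ ι) : ip (F1_0 E) (F1_7 E) = dotS (ek E lk1) r1_0_7 :=
  op_entryZ E lk1 1 2 _ _ _ _ (pg0 κ) (pg2 ι) m1_0 m1_7 l1_7 z1_7 w1_7 x1_7 (by decide) _ (chkS_sound E lk1 1 2 _ _ _ _ t1_0_7)

def r1_0_8 : List (ℕ × ℤ) := [(8, 4)]

theorem h1_0_8 (E : Env κ ι) : ip (F1_0 E) (F1_8 E) = dotS (ek E lk1) r1_0_8 :=
  op_entryZ E lk1 1 2 _ _ _ _ (pg0 κ) (pg2 ι) m1_0 m1_8 l1_8 z1_8 w1_8 x1_8 (by decide) _ (chkS_sound E lk1 1 2 _ _ _ _ t1_0_8)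

def r1_0_9 : List (ℕ × ℤ) := [(9, 4)]

theorem h1_0_9 (E : Env κ ι) : ip (F1_0 E) (F1_9 E) = dotS (ek E lk1) r1_0_9 :=
  op_entryZ E lk1 1 2 _ _ _ _ (pg0 κ) (pg2 ι) m1_0 m1_9 l1_9 z1_9 w1_9 x1_9 (by decide) _ (chkS_sound E lk1 1 2 _ _ _ _ t1_0_9)

def r1_1_1 : List (ℕ × ℤ) := [(30, 2), (31, 2)]

theorem h1_1_1 (E : Env κ ι) : ip (F1_1 E) (F1_1 E) = dotS (ek E lk1) r1_1_1 :=
  op_entryZ E lk1 1 2 _ _ _ _ (pg0 κ) (pg2 ι) m1_1 m1_1 l1_1 z1_1 w1_1 x1_1 (by decide) _ (chkS_sound E lk1 1 2 _ _ _ _ t1_1_1)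

def r1_1_2 : List (ℕ × ℤ) := [(22, 4)]

theorem h1_1_2 (E : Env κ ι) : ip (F1_1 E) (F1_2 E) = dotS (ek E lk1) r1_1_2 :=
  op_entryZ E lk1 1 2 _ _ _ _ (pg0 κ) (pg2 ι) m1_1 m1_2 l1_2 z1_2 w1_2 x1_2 (by decide) _ (chkS_sound E lk1 1 2 _ _ _ _ t1_1_2)

def r1_1_3 : List (ℕ × ℤ) := [(32, 4)]

theorem h1_1_3 (E : Env κ ι) : ip (F1_1 E) (F1_3 E) = dotS (ek E lk1) r1_1_3 :=
  op_entryZ E lk1 1 2 _ _ _ _ (pg0 κ) (pg2 ι) m1_1 m1_3 l1_3 z1_3 w1_3 x1_3 (by decide) _ (chkS_sound E lk1 1 2 _ _ _ _ t1_1_3)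

def r1_1_4 : List (ℕ × ℤ) := [(33, 4)]

theorem h1_1_4 (E : Env κ ι) : ip (F1_1 E) (F1_4 E) = dotS (ek E lk1) r1_1_4 :=
  op_entryZ E lk1 1 2 _ _ _ _ (pg0 κ) (pg2 ι) m1_1 m1_4 l1_4 z1_4 w1_4 x1_4 (by decide) _ (chkS_sound E lk1 1 2 _ _ _ _ t1_1_4)

def r1_1_5 : List (ℕ × ℤ) := [(34, 4)]

theorem h1_1_5 (E : Env κ ι) : ip (F1_1 E) (F1_5 E) = dotS (ek E lk1) r1_1_5 :=
  op_entryZ E lk1 1 2 _ _ _ _ (pg0 κ) (pg2 ι) m1_1 m1_5 l1_5 z1_5 w1_5 x1_5 (by decide) _ (chkS_sound E lk1 1 2 _ _ _ _ t1_1_5)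

def r1_1_6 : List (ℕ × ℤ) := [(35, 2), (36, 2)]

theorem h1_1_6 (E : Env κ ι) : ip (F1_1 E) (F1_6 E) = dotS (ek E lk1) r1_1_6 :=
  op_entryZ E lk1 1 2 _ _ _ _ (pg0 κ) (pg2 ι) m1_1 m1_6 l1_6 z1_6 w1_6 x1_6 (by decide) _ (chkS_sound E lk1 1 2 _ _ _ _ t1_1_6)

def r1_1_7 : List (ℕ × ℤ) := [(26, 2), (37, 2)]

theorem h1_1_7 (E : Env κ ι) : ip (F1_1 E) (F1_7 E) = dotS (ek E lk1) r1_1_7 :=
  op_entryZ E lk1 1 2 _ _ _ _ (pg0 κ) (pg2 ι) m1_1 m1_7 l1_7 z1_7 w1_7 x1_7 (by decide) _ (chkS_sound E lk1 1 2 _ _ _ _ t1_1_7)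

def r1_1_8 : List (ℕ × ℤ) := [(5, 4)]

theorem h1_1_8 (E : Env κ ι) : ip (F1_1 E) (F1_8 E) = dotS (ek E lk1) r1_1_8 :=
  op_entryZ E lk1 1 2 _ _ _ _ (pg0 κ) (pg2 ι) m1_1 m1_8 l1_8 z1_8 w1_8 x1_8 (by decide) _ (chkS_sound E lk1 1 2 _ _ _ _ t1_1_8)

def r1_1_9 : List (ℕ × ℤ) := [(19, 4)]

theorem h1_1_9 (E : Env κ ι) : ip (F1_1 E) (F1_9 E) = dotS (ek E lk1) r1_1_9 :=
  op_entryZ E lk1 1 2 _ _ _ _ (pg0 κ) (pg2 ι) m1_1 m1_9 l1_9 z1_9 w1_9 x1_9 (by decide) _ (chkS_sound E lk1 1 2 _ _ _ _ t1_1_9)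

def r1_2_2 : List (ℕ × ℤ) := [(38, 4)]

theorem h1_2_2 (E : Env κ ι) : ip (F1_2 E) (F1_2 E) = dotS (ek E lk1) r1_2_2 :=
  op_entryZ E lk1 1 2 _ _ _ _ (pg0 κ) (pg2 ι) m1_2 m1_2 l1_2 z1_2 w1_2 x1_2 (by decide) _ (chkS_sound E lk1 1 2 _ _ _ _ t1_2_2)

def r1_2_3 : List (ℕ × ℤ) := [(23, 4)]

theorem h1_2_3 (E : Env κ ι) : ip (F1_2 E) (F1_3 E) = dotS (ek E lk1) r1_2_3 :=
  op_entryZ E lk1 1 2 _ _ _ _ (pg0 κ) (pg2 ι) m1_2 m1_3 l1_3 z1_3 w1_3 x1_3 (by decide) _ (chkS_sound E lk1 1 2 _ _ _ _ t1_2_3)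

def r1_2_4 : List (ℕ × ℤ) := [(39, 4)]

theorem h1_2_4 (E : Env κ ι) : ip (F1_2 E) (F1_4 E) = dotS (ek E lk1) r1_2_4 :=
  op_entryZ E lk1 1 2 _ _ _ _ (pg0 κ) (pg2 ι) m1_2 m1_4 l1_4 z1_4 w1_4 x1_4 (by decide) _ (chkS_sound E lk1 1 2 _ _ _ _ t1_2_4)

def r1_2_5 : List (ℕ × ℤ) := [(40, 4)]

theorem h1_2_5 (E : Env κ ι) : ip (F1_2 E) (F1_5 E) = dotS (ek E lk1) r1_2_5 :=
  op_entryZ E lk1 1 2 _ _ _ _ (pg0 κ) (pg2 ι) m1_2 m1_5 l1_5 z1_5 w1_5 x1_5 (by decide) _ (chkS_sound E lk1 1 2 _ _ _ _ t1_2_5)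

def r1_2_6 : List (ℕ × ℤ) := [(41, 4)]

theorem h1_2_6 (E : Env κ ι) : ip (F1_2 E) (F1_6 E) = dotS (ek E lk1) r1_2_6 :=
  op_entryZ E lk1 1 2 _ _ _ _ (pg0 κ) (pg2 ι) m1_2 m1_6 l1_6 z1_6 w1_6 x1_6 (by decide) _ (chkS_sound E lk1 1 2 _ _ _ _ t1_2_6)

def r1_2_7 : List (ℕ × ℤ) := [(42, 4)]

theorem h1_2_7 (E : Env κ ι) : ip (F1_2 E) (F1_7 E) = dotS (ek E lk1) r1_2_7 :=
  op_entryZ E lk1 1 2 _ _ _ _ (pg0 κ) (pg2 ι) m1_2 m1_7 l1_7 z1_7 w1_7 x1_7 (by decide) _ (chkS_sound E lk1 1 2 _ _ _ _ t1_2_7)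

def r1_2_8 : List (ℕ × ℤ) := [(2, 4)]

theorem h1_2_8 (E : Env κ ι) : ip (F1_2 E) (F1_8 E) = dotS (ek E lk1) r1_2_8 :=
  op_entryZ E lk1 1 2 _ _ _ _ (pg0 κ) (pg2 ι) m1_2 m1_8 l1_8 z1_8 w1_8 x1_8 (by decide) _ (chkS_sound E lk1 1 2 _ _ _ _ t1_2_8)

def r1_2_9 : List (ℕ × ℤ) := [(16, 4)]

theorem h1_2_9 (E : Env κ ι) : ip (F1_2 E) (F1_9 E) = dotS (ek E lk1) r1_2_9 :=
  op_entryZ E lk1 1 2 _ _ _ _ (pg0 κ) (pg2 ι) m1_2 m1_9 l1_9 z1_9 w1_9 x1_9 (by decide) _ (chkS_sound E lk1 1 2 _ _ _ _ t1_2_9)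

def r1_3_3 : List (ℕ × ℤ) := [(21, 4)]

theorem h1_3_3 (E : Env κ ι) : ip (F1_3 E) (F1_3 E) = dotS (ek E lk1) r1_3_3 :=
  op_entryZ E lk1 1 2 _ _ _ _ (pg0 κ) (pg2 ι) m1_3 m1_3 l1_3 z1_3 w1_3 x1_3 (by decide) _ (chkS_sound E lk1 1 2 _ _ _ _ t1_3_3)

def r1_3_4 : List (ℕ × ℤ) := [(43, 4)]

theorem h1_3_4 (E : Env κ ι) : ip (F1_3 E) (F1_4 E) = dotS (ek E lk1) r1_3_4 :=
  op_entryZ E lk1 1 2 _ _ _ _ (pg0 κ) (pg2 ι) m1_3 m1_4 l1_4 z1_4 w1_4 x1_4 (by decide) _ (chkS_sound E lk1 1 2 _ _ _ _ t1_3_4)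

def r1_3_5 : List (ℕ × ℤ) := [(44, 4)]

theorem h1_3_5 (E : Env κ ι) : ip (F1_3 E) (F1_5 E) = dotS (ek E lk1) r1_3_5 :=
  op_entryZ E lk1 1 2 _ _ _ _ (pg0 κ) (pg2 ι) m1_3 m1_5 l1_5 z1_5 w1_5 x1_5 (by decide) _ (chkS_sound E lk1 1 2 _ _ _ _ t1_3_5)

def r1_3_6 : List (ℕ × ℤ) := [(45, 4)]

theorem h1_3_6 (E : Env κ ι) : ip (F1_3 E) (F1_6 E) = dotS (ek E lk1) r1_3_6 :=
  op_entryZ E lk1 1 2 _ _ _ _ (pg0 κ) (pg2 ι) m1_3 m1_6 l1_6 z1_6 w1_6 x1_6 (by decide) _ (chkS_sound E lk1 1 2 _ _ _ _ t1_3_6)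

def r1_3_7 : List (ℕ × ℤ) := [(25, 4)]

theorem h1_3_7 (E : Env κ ι) : ip (F1_3 E) (F1_7 E) = dotS (ek E lk1) r1_3_7 :=
  op_entryZ E lk1 1 2 _ _ _ _ (pg0 κ) (pg2 ι) m1_3 m1_7 l1_7 z1_7 w1_7 x1_7 (by decide) _ (chkS_sound E lk1 1 2 _ _ _ _ t1_3_7)

def r1_3_8 : List (ℕ × ℤ) := [(6, 4)]

theorem h1_3_8 (E : Env κ ι) : ip (F1_3 E) (F1_8 E) = dotS (ek E lk1) r1_3_8 :=
  op_entryZ E lk1 1 2 _ _ _ _ (pg0 κ) (pg2 ι) m1_3 m1_8 l1_8 z1_8 w1_8 x1_8 (by decide) _ (chkS_sound E lk1 1 2 _ _ _ _ t1_3_8)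

def r1_3_9 : List (ℕ × ℤ) := [(20, 4)]

theorem h1_3_9 (E : Env κ ι) : ip (F1_3 E) (F1_9 E) = dotS (ek E lk1) r1_3_9 :=
  op_entryZ E lk1 1 2 _ _ _ _ (pg0 κ) (pg2 ι) m1_3 m1_9 l1_9 z1_9 w1_9 x1_9 (by decide) _ (chkS_sound E lk1 1 2 _ _ _ _ t1_3_9)

def r1_4_4 : List (ℕ × ℤ) := [(46, 4)]

theorem h1_4_4 (E : Env κ ι) : ip (F1_4 E) (F1_4 E) = dotS (ek E lk1) r1_4_4 :=
  op_entryZ E lk1 1 2 _ _ _ _ (pg0 κ) (pg2 ι) m1_4 m1_4 l1_4 z1_4 w1_4 x1_4 (by decide) _ (chkS_sound E lk1 1 2 _ _ _ _ t1_4_4)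

def r1_4_5 : List (ℕ × ℤ) := [(47, 4)]

theorem h1_4_5 (E : Env κ ι) : ip (F1_4 E) (F1_5 E) = dotS (ek E lk1) r1_4_5 :=
  op_entryZ E lk1 1 2 _ _ _ _ (pg0 κ) (pg2 ι) m1_4 m1_5 l1_5 z1_5 w1_5 x1_5 (by decide) _ (chkS_sound E lk1 1 2 _ _ _ _ t1_4_5)

def r1_4_6 : List (ℕ × ℤ) := [(47, 4)]

theorem h1_4_6 (E : Env κ ι) : ip (F1_4 E) (F1_6 E) = dotS (ek E lk1) r1_4_6 :=
  op_entryZ E lk1 1 2 _ _ _ _ (pg0 κ) (pg2 ι) m1_4 m1_6 l1_6 z1_6 w1_6 x1_6 (by decide) _ (chkS_sound E lk1 1 2 _ _ _ _ t1_4_6)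

def r1_4_7 : List (ℕ × ℤ) := [(28, 4)]

theorem h1_4_7 (E : Env κ ι) : ip (F1_4 E) (F1_7 E) = dotS (ek E lk1) r1_4_7 :=
  op_entryZ E lk1 1 2 _ _ _ _ (pg0 κ) (pg2 ι) m1_4 m1_7 l1_7 z1_7 w1_7 x1_7 (by decide) _ (chkS_sound E lk1 1 2 _ _ _ _ t1_4_7)

def r1_4_8 : List (ℕ × ℤ) := [(7, 4)]

theorem h1_4_8 (E : Env κ ι) : ip (F1_4 E) (F1_8 E) = dotS (ek E lk1) r1_4_8 :=
  op_entryZ E lk1 1 2 _ _ _ _ (pg0 κ) (pg2 ι) m1_4 m1_8 l1_8 z1_8 w1_8 x1_8 (by decide) _ (chkS_sound E lk1 1 2 _ _ _ _ t1_4_8)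

def r1_4_9 : List (ℕ × ℤ) := [(46, 4)]

theorem h1_4_9 (E : Env κ ι) : ip (F1_4 E) (F1_9 E) = dotS (ek E lk1) r1_4_9 :=
  op_entryZ E lk1 1 2 _ _ _ _ (pg0 κ) (pg2 ι) m1_4 m1_9 l1_9 z1_9 w1_9 x1_9 (by decide) _ (chkS_sound E lk1 1 2 _ _ _ _ t1_4_9)

def r1_5_5 : List (ℕ × ℤ) := [(48, 4)]

theorem h1_5_5 (E : Env κ ι) : ip (F1_5 E) (F1_5 E) = dotS (ek E lk1) r1_5_5 :=
  op_entryZ E lk1 1 2 _ _ _ _ (pg0 κ) (pg2 ι) m1_5 m1_5 l1_5 z1_5 w1_5 x1_5 (by decide) _ (chkS_sound E lk1 1 2 _ _ _ _ t1_5_5)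

def r1_5_6 : List (ℕ × ℤ) := [(49, 4)]

theorem h1_5_6 (E : Env κ ι) : ip (F1_5 E) (F1_6 E) = dotS (ek E lk1) r1_5_6 :=
  op_entryZ E lk1 1 2 _ _ _ _ (pg0 κ) (pg2 ι) m1_5 m1_6 l1_6 z1_6 w1_6 x1_6 (by decide) _ (chkS_sound E lk1 1 2 _ _ _ _ t1_5_6)

def r1_5_7 : List (ℕ × ℤ) := [(50, 4)]

theorem h1_5_7 (E : Env κ ι) : ip (F1_5 E) (F1_7 E) = dotS (ek E lk1) r1_5_7 :=
  op_entryZ E lk1 1 2 _ _ _ _ (pg0 κ) (pg2 ι) m1_5 m1_7 l1_7 z1_7 w1_7 x1_7 (by decide) _ (chkS_sound E lk1 1 2 _ _ _ _ t1_5_7)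

def r1_5_8 : List (ℕ × ℤ) := [(4, 4)]

theorem h1_5_8 (E : Env κ ι) : ip (F1_5 E) (F1_8 E) = dotS (ek E lk1) r1_5_8 :=
  op_entryZ E lk1 1 2 _ _ _ _ (pg0 κ) (pg2 ι) m1_5 m1_8 l1_8 z1_8 w1_8 x1_8 (by decide) _ (chkS_sound E lk1 1 2 _ _ _ _ t1_5_8)

def r1_5_9 : List (ℕ × ℤ) := [(18, 4)]

theorem h1_5_9 (E : Env κ ι) : ip (F1_5 E) (F1_9 E) = dotS (ek E lk1) r1_5_9 :=
  op_entryZ E lk1 1 2 _ _ _ _ (pg0 κ) (pg2 ι) m1_5 m1_9 l1_9 z1_9 w1_9 x1_9 (by decide) _ (chkS_sound E lk1 1 2 _ _ _ _ t1_5_9)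

def r1_6_6 : List (ℕ × ℤ) := [(48, 2), (51, 2)]

theorem h1_6_6 (E : Env κ ι) : ip (F1_6 E) (F1_6 E) = dotS (ek E lk1) r1_6_6 :=
  op_entryZ E lk1 1 2 _ _ _ _ (pg0 κ) (pg2 ι) m1_6 m1_6 l1_6 z1_6 w1_6 x1_6 (by decide) _ (chkS_sound E lk1 1 2 _ _ _ _ t1_6_6)

def r1_6_7 : List (ℕ × ℤ) := [(50, 2), (52, 2)]

theorem h1_6_7 (E : Env κ ι) : ip (F1_6 E) (F1_7 E) = dotS (ek E lk1) r1_6_7 :=
  op_entryZ E lk1 1 2 _ _ _ _ (pg0 κ) (pg2 ι) m1_6 m1_7 l1_7 z1_7 w1_7 x1_7 (by decide) _ (chkS_sound E lk1 1 2 _ _ _ _ t1_6_7)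

def r1_6_8 : List (ℕ × ℤ) := [(3, 4)]

theorem h1_6_8 (E : Env κ ι) : ip (F1_6 E) (F1_8 E) = dotS (ek E lk1) r1_6_8 :=
  op_entryZ E lk1 1 2 _ _ _ _ (pg0 κ) (pg2 ι) m1_6 m1_8 l1_8 z1_8 w1_8 x1_8 (by decide) _ (chkS_sound E lk1 1 2 _ _ _ _ t1_6_8)

def r1_6_9 : List (ℕ × ℤ) := [(17, 4)]

theorem h1_6_9 (E : Env κ ι) : ip (F1_6 E) (F1_9 E) = dotS (ek E lk1) r1_6_9 :=
  op_entryZ E lk1 1 2 _ _ _ _ (pg0 κ) (pg2 ι) m1_6 m1_9 l1_9 z1_9 w1_9 x1_9 (by decide) _ (chkS_sound E lk1 1 2 _ _ _ _ t1_6_9)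

def r1_7_7 : List (ℕ × ℤ) := [(3, 2), (4, 2)]

theorem h1_7_7 (E : Env κ ι) : ip (F1_7 E) (F1_7 E) = dotS (ek E lk1) r1_7_7 :=
  op_entryZ E lk1 1 2 _ _ _ _ (pg0 κ) (pg2 ι) m1_7 m1_7 l1_7 z1_7 w1_7 x1_7 (by decide) _ (chkS_sound E lk1 1 2 _ _ _ _ t1_7_7)

def r1_7_8 : List (ℕ × ℤ) := [(53, 4)]

theorem h1_7_8 (E : Env κ ι) : ip (F1_7 E) (F1_8 E) = dotS (ek E lk1) r1_7_8 :=
  op_entryZ E lk1 1 2 _ _ _ _ (pg0 κ) (pg2 ι) m1_7 m1_8 l1_8 z1_8 w1_8 x1_8 (by decide) _ (chkS_sound E lk1 1 2 _ _ _ _ t1_7_8)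

def r1_7_9 : List (ℕ × ℤ) := [(54, 4)]

theorem h1_7_9 (E : Env κ ι) : ip (F1_7 E) (F1_9 E) = dotS (ek E lk1) r1_7_9 :=
  op_entryZ E lk1 1 2 _ _ _ _ (pg0 κ) (pg2 ι) m1_7 m1_9 l1_9 z1_9 w1_9 x1_9 (by decide) _ (chkS_sound E lk1 1 2 _ _ _ _ t1_7_9)

def r1_8_8 : List (ℕ × ℤ) := [(0, 4)]

theorem h1_8_8 (E : Env κ ι) : ip (F1_8 E) (F1_8 E) = dotS (ek E lk1) r1_8_8 :=
  op_entryZ E lk1 1 2 _ _ _ _ (pg0 κ) (pg2 ι) m1_8 m1_8 l1_8 z1_8 w1_8 x1_8 (by decide) _ (chkS_sound E lk1 1 2 _ _ _ _ t1_8_8)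

def r1_8_9 : List (ℕ × ℤ) := [(1, 4)]

theorem h1_8_9 (E : Env κ ι) : ip (F1_8 E) (F1_9 E) = dotS (ek E lk1) r1_8_9 :=
  op_entryZ E lk1 1 2 _ _ _ _ (pg0 κ) (pg2 ι) m1_8 m1_9 l1_9 z1_9 w1_9 x1_9 (by decide) _ (chkS_sound E lk1 1 2 _ _ _ _ t1_8_9)

def r1_9_9 : List (ℕ × ℤ) := [(15, 4)]

theorem h1_9_9 (E : Env κ ι) : ip (F1_9 E) (F1_9 E) = dotS (ek E lk1) r1_9_9 :=
  op_entryZ E lk1 1 2 _ _ _ _ (pg0 κ) (pg2 ι) m1_9 m1_9 l1_9 z1_9 w1_9 x1_9 (by decide) _ (chkS_sound E lk1 1 2 _ _ _ _ t1_9_9)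

theorem row1_0 (E : Env κ ι) : RowG (ek E lk1) (F1_0 E) [F1_0 E, F1_1 E, F1_2 E, F1_3 E, F1_4 E, F1_5 E, F1_6 E, F1_7 E, F1_8 E, F1_9 E] [r1_0_0, r1_0_1, r1_0_2, r1_0_3, r1_0_4, r1_0_5, r1_0_6, r1_0_7, r1_0_8, r1_0_9] :=
  rowG_cons _ _ _ _ _ _ (h1_0_0 E) (rowG_cons _ _ _ _ _ _ (h1_0_1 E) (rowG_cons _ _ _ _ _ _ (h1_0_2 E) (rowG_cons _ _ _ _ _ _ (h1_0_3 E) (rowG_cons _ _ _ _ _ _ (h1_0_4 E) (rowG_cons _ _ _ _ _ _ (h1_0_5 E) (rowG_cons _ _ _ _ _ _ (h1_0_6 E) (rowG_cons _ _ _ _ _ _ (h1_0_7 E) (rowG_cons _ _ _ _ _ _ (h1_0_8 E) (rowG_cons _ _ _ _ _ _ (h1_0_9 E) (rowG_nil _ _))))))))))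

theorem row1_1 (E : Env κ ι) : RowG (ek E lk1) (F1_1 E) [F1_1 E, F1_2 E, F1_3 E, F1_4 E, F1_5 E, F1_6 E, F1_7 E, F1_8 E, F1_9 E] [r1_1_1, r1_1_2, r1_1_3, r1_1_4, r1_1_5, r1_1_6, r1_1_7, r1_1_8, r1_1_9] :=
  rowG_cons _ _ _ _ _ _ (h1_1_1 E) (rowG_cons _ _ _ _ _ _ (h1_1_2 E) (rowG_cons _ _ _ _ _ _ (h1_1_3 E) (rowG_cons _ _ _ _ _ _ (h1_1_4 E) (rowG_cons _ _ _ _ _ _ (h1_1_5 E) (rowG_cons _ _ _ _ _ _ (h1_1_6 E) (rowG_cons _ _ _ _ _ _ (h1_1_7 E) (rowG_cons _ _ _ _ _ _ (h1_1_8 E) (rowG_cons _ _ _ _ _ _ (h1_1_9 E) (rowG_nil _ _)))))))))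

theorem row1_2 (E : Env κ ι) : RowG (ek E lk1) (F1_2 E) [F1_2 E, F1_3 E, F1_4 E, F1_5 E, F1_6 E, F1_7 E, F1_8 E, F1_9 E] [r1_2_2, r1_2_3, r1_2_4, r1_2_5, r1_2_6, r1_2_7, r1_2_8, r1_2_9] :=
  rowG_cons _ _ _ _ _ _ (h1_2_2 E) (rowG_cons _ _ _ _ _ _ (h1_2_3 E) (rowG_cons _ _ _ _ _ _ (h1_2_4 E) (rowG_cons _ _ _ _ _ _ (h1_2_5 E) (rowG_cons _ _ _ _ _ _ (h1_2_6 E) (rowG_cons _ _ _ _ _ _ (h1_2_7 E) (rowG_cons _ _ _ _ _ _ (h1_2_8 E) (rowG_cons _ _ _ _ _ _ (h1_2_9 E) (rowG_nil _ _))))))))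

theorem row1_3 (E : Env κ ι) : RowG (ek E lk1) (F1_3 E) [F1_3 E, F1_4 E, F1_5 E, F1_6 E, F1_7 E, F1_8 E, F1_9 E] [r1_3_3, r1_3_4, r1_3_5, r1_3_6, r1_3_7, r1_3_8, r1_3_9] :=
  rowG_cons _ _ _ _ _ _ (h1_3_3 E) (rowG_cons _ _ _ _ _ _ (h1_3_4 E) (rowG_cons _ _ _ _ _ _ (h1_3_5 E) (rowG_cons _ _ _ _ _ _ (h1_3_6 E) (rowG_cons _ _ _ _ _ _ (h1_3_7 E) (rowG_cons _ _ _ _ _ _ (h1_3_8 E) (rowG_cons _ _ _ _ _ _ (h1_3_9 E) (rowG_nil _ _)))))))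

theorem row1_4 (E : Env κ ι) : RowG (ek E lk1) (F1_4 E) [F1_4 E, F1_5 E, F1_6 E, F1_7 E, F1_8 E, F1_9 E] [r1_4_4, r1_4_5, r1_4_6, r1_4_7, r1_4_8, r1_4_9] :=
  rowG_cons _ _ _ _ _ _ (h1_4_4 E) (rowG_cons _ _ _ _ _ _ (h1_4_5 E) (rowG_cons _ _ _ _ _ _ (h1_4_6 E) (rowG_cons _ _ _ _ _ _ (h1_4_7 E) (rowG_cons _ _ _ _ _ _ (h1_4_8 E) (rowG_cons _ _ _ _ _ _ (h1_4_9 E) (rowG_nil _ _))))))

theorem row1_5 (E : Env κ ι) : RowG (ek E lk1) (F1_5 E) [F1_5 E, F1_6 E, F1_7 E, F1_8 E, F1_9 E] [r1_5_5, r1_5_6, r1_5_7, r1_5_8, r1_5_9] :=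
  rowG_cons _ _ _ _ _ _ (h1_5_5 E) (rowG_cons _ _ _ _ _ _ (h1_5_6 E) (rowG_cons _ _ _ _ _ _ (h1_5_7 E) (rowG_cons _ _ _ _ _ _ (h1_5_8 E) (rowG_cons _ _ _ _ _ _ (h1_5_9 E) (rowG_nil _ _)))))

theorem row1_6 (E : Env κ ι) : RowG (ek E lk1) (F1_6 E) [F1_6 E, F1_7 E, F1_8 E, F1_9 E] [r1_6_6, r1_6_7, r1_6_8, r1_6_9] :=
  rowG_cons _ _ _ _ _ _ (h1_6_6 E) (rowG_cons _ _ _ _ _ _ (h1_6_7 E) (rowG_cons _ _ _ _ _ _ (h1_6_8 E) (rowG_cons _ _ _ _ _ _ (h1_6_9 E) (rowG_nil _ _))))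

theorem row1_7 (E : Env κ ι) : RowG (ek E lk1) (F1_7 E) [F1_7 E, F1_8 E, F1_9 E] [r1_7_7, r1_7_8, r1_7_9] :=
  rowG_cons _ _ _ _ _ _ (h1_7_7 E) (rowG_cons _ _ _ _ _ _ (h1_7_8 E) (rowG_cons _ _ _ _ _ _ (h1_7_9 E) (rowG_nil _ _)))

theorem row1_8 (E : Env κ ι) : RowG (ek E lk1) (F1_8 E) [F1_8 E, F1_9 E] [r1_8_8, r1_8_9] :=
  rowG_cons _ _ _ _ _ _ (h1_8_8 E) (rowG_cons _ _ _ _ _ _ (h1_8_9 E) (rowG_nil _ _))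

theorem row1_9 (E : Env κ ι) : RowG (ek E lk1) (F1_9 E) [F1_9 E] [r1_9_9] :=
  rowG_cons _ _ _ _ _ _ (h1_9_9 E) (rowG_nil _ _)

def tab1 : List (List (List (ℕ × ℤ))) := [[r1_0_0, r1_0_1, r1_0_2, r1_0_3, r1_0_4, r1_0_5, r1_0_6, r1_0_7, r1_0_8, r1_0_9], [r1_1_1, r1_1_2, r1_1_3, r1_1_4, r1_1_5, r1_1_6, r1_1_7, r1_1_8, r1_1_9], [r1_2_2, r1_2_3, r1_2_4, r1_2_5, r1_2_6, r1_2_7, r1_2_8, r1_2_9], [r1_3_3, r1_3_4, r1_3_5, r1_3_6, r1_3_7, r1_3_8, r1_3_9], [r1_4_4, r1_4_5, r1_4_6, r1_4_7, r1_4_8, r1_4_9], [r1_5_5, r1_5_6, r1_5_7, r1_5_8, r1_5_9], [r1_6_6, r1_6_7, r1_6_8, r1_6_9], [r1_7_7, r1_7_8, r1_7_9], [r1_8_8, r1_8_9], [r1_9_9]]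

theorem tri1 (E : Env κ ι) : TriG (ek E lk1) [F1_0 E, F1_1 E, F1_2 E, F1_3 E, F1_4 E, F1_5 E, F1_6 E, F1_7 E, F1_8 E, F1_9 E] tab1 := by
  refine triG_cons _ _ _ _ _ (row1_0 E) ?_
  refine triG_cons _ _ _ _ _ (row1_1 E) ?_
  refine triG_cons _ _ _ _ _ (row1_2 E) ?_
  refine triG_cons _ _ _ _ _ (row1_3 E) ?_
  refine triG_cons _ _ _ _ _ (row1_4 E) ?_
  refine triG_cons _ _ _ _ _ (row1_5 E) ?_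
  refine triG_cons _ _ _ _ _ (row1_6 E) ?_
  refine triG_cons _ _ _ _ _ (row1_7 E) ?_
  refine triG_cons _ _ _ _ _ (row1_8 E) ?_
  refine triG_cons _ _ _ _ _ (row1_9 E) ?_
  exact triG_nil _

end

def lk2 : List Key := [
  (1, 4, [(0, [0], [0, 1]), (0, [0], [0, 2]), (1, [], [2, 3]), (1, [], [1, 3])]),
  (1, 4, [(0, [0], [0, 1]), (0, [0], [2, 3]), (1, [], [0, 2]), (1, [], [1, 3])]),
  (2, 5, [(0, [0], [0, 1]), (0, [0], [2, 3]), (0, [1], [2, 4]), (0, [1], [0, 4]), (1, [], [1, 3])]),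
  (3, 6, [(0, [0], [0, 1]), (0, [0], [2, 0]), (0, [1], [3, 1]), (0, [2], [4, 5]), (0, [2], [2, 4]), (0, [1], [3, 5])]),
  (3, 6, [(0, [0], [0, 1]), (0, [0], [2, 0]), (0, [1], [3, 1]), (0, [2], [4, 5]), (0, [2], [3, 4]), (0, [1], [2, 5])]),
  (2, 6, [(0, [0], [0, 1]), (0, [0], [2, 0]), (0, [1], [3, 1]), (0, [1], [2, 4]), (1, [], [4, 5]), (1, [], [3, 5])]),
  (2, 6, [(0, [0], [0, 1]), (0, [0], [2, 0]), (0, [1], [3, 1]), (0, [1], [3, 4]), (1, [], [4, 5]), (1, [], [2, 5])]),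
  (2, 5, [(0, [0], [0, 1]), (0, [0], [2, 0]), (0, [1], [3, 1]), (0, [1], [3, 4]), (1, [], [2, 4])]),
  (1, 6, [(0, [0], [0, 1]), (1, [], [2, 0]), (1, [], [3, 1]), (0, [0], [4, 5]), (1, [], [2, 4]), (1, [], [3, 5])]),
  (1, 5, [(0, [0], [0, 1]), (1, [], [2, 0]), (1, [], [3, 1]), (0, [0], [2, 4]), (1, [], [3, 4])]),
  (1, 6, [(0, [0], [0, 1]), (1, [], [1, 2]), (1, [], [3, 2]), (0, [0], [0, 4]), (1, [], [4, 5]), (1, [], [3, 5])]),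
  (1, 5, [(0, [0], [0, 1]), (1, [], [1, 2]), (1, [], [3, 2]), (0, [0], [0, 4]), (1, [], [3, 4])])]

def kl2 : List ℕ := [3, 4, 29, 37, 38, 42, 43, 44, 55, 57, 58, 59]

def m2_0 : Base := (1, 2, [(0, [1], [2, 3]), (0, [1], [0, 2]), (0, [0], [1, 3])])

def l2_0 : Cov := [(2, 1, 2, [(0, [1], [2, 3]), (0, [1], [0, 2]), (0, [0], [1, 3])]),
  (-2, 1, 2, [(0, [1], [2, 3]), (0, [1], [1, 2]), (0, [0], [0, 3])])]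

def z2_0 : Cov := []

def w2_0 : List (List Wit) := [[(0, 0, 0, 16, 16), (1, 0, 0, 16, 16)]]

def m2_1 : Base := (0, 2, [(0, [0], [0, 2]), (1, [], [2, 3]), (1, [], [1, 3])])

def l2_1 : Cov := [(2, 0, 2, [(0, [0], [0, 2]), (1, [], [2, 3]), (1, [], [1, 3])]),
  (-2, 0, 2, [(0, [0], [1, 2]), (1, [], [2, 3]), (1, [], [0, 3])])]

def z2_1 : Cov := []

def w2_1 : List (List Wit) := [[(0, 0, 0, 16, 16), (1, 0, 0, 16, 16)]]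

def m2_2 : Base := (0, 1, [(0, [0], [0, 2]), (1, [], [1, 2])])

def l2_2 : Cov := [(2, 0, 1, [(0, [0], [0, 2]), (1, [], [1, 2])]),
  (-2, 0, 1, [(0, [0], [1, 2]), (1, [], [0, 2])])]

def z2_2 : Cov := []

def w2_2 : List (List Wit) := [[(0, 0, 0, 0, 0), (1, 0, 0, 0, 0)]]

theorem tr2 : trK keys lk2 kl2 = true := by
  decide +kernel

theorem x2_0 : expB 1 2 dg0 dg3 m2_0 (l2_0 ++ z2_0) w2_0 = true := by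
  decide +kernel

theorem x2_1 : expB 1 2 dg0 dg3 m2_1 (l2_1 ++ z2_1) w2_1 = true := by
  decide +kernel

theorem x2_2 : expB 1 2 dg0 dg3 m2_2 (l2_2 ++ z2_2) w2_2 = true := by
  decide +kernel

theorem t2_0_0 : chkS lk2 1 2 [(1, m2_0)] l2_0
  [(3, 513, 513, 5509170, 5509170), (4, 513, 513, 5509170, 5509170)]
  [(3, 2), (4, -2)] = true := by
  decide +kernel

theorem t2_0_1 : chkS lk2 1 2 [(1, m2_0)] l2_1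
  [(5, 1, 1, 5509170, 5509170), (6, 1, 1, 5509170, 5509170)]
  [(5, 2), (6, -2)] = true := by
  decide +kernel

theorem t2_0_2 : chkS lk2 1 2 [(1, m2_0)] l2_2
  [(2, 16, 16, 197650, 147475), (7, 1, 1, 266290, 266290)]
  [(2, 2), (7, -2)] = true := by
  decide +kernel

theorem t2_1_1 : chkS lk2 1 2 [(1, m2_1)] l2_1
  [(10, 0, 0, 5513520, 5509920), (8, 0, 0, 2371920, 1324320)]
  [(8, -2), (10, 2)] = true := by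
  decide +kernel

theorem t2_1_2 : chkS lk2 1 2 [(1, m2_1)] l2_2
  [(11, 0, 0, 270640, 267040), (9, 0, 0, 143680, 78880)]
  [(9, -2), (11, 2)] = true := by
  decide +kernel

theorem t2_2_2 : chkS lk2 1 2 [(1, m2_2)] l2_2
  [(0, 0, 0, 8496, 4896), (1, 0, 0, 8496, 4896)]
  [(0, 2), (1, -2)] = true := by
  decide +kernel

section

variable {κ ι : Type*} [Fintype κ] [Fintype ι] [Inhabited κ] [Inhabited ι]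

noncomputable def F2_0 (E : Env κ ι) : (Fin 1 → κ) → (Fin 2 → ι) → ℝ := op2 (P0 κ) (P3 ι) (fB E 1 2 m2_0)

noncomputable def F2_1 (E : Env κ ι) : (Fin 1 → κ) → (Fin 2 → ι) → ℝ := op2 (P0 κ) (P3 ι) (fB E 1 2 m2_1)

noncomputable def F2_2 (E : Env κ ι) : (Fin 1 → κ) → (Fin 2 → ι) → ℝ := op2 (P0 κ) (P3 ι) (fB E 1 2 m2_2)

def r2_0_0 : List (ℕ × ℤ) := [(3, 2), (4, -2)]

theorem h2_0_0 (E : Env κ ι) : ip (F2_0 E) (F2_0 E) = dotS (ek E lk2) r2_0_0 :=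
  op_entryZ E lk2 1 2 _ _ _ _ (pg0 κ) (pg3 ι) m2_0 m2_0 l2_0 z2_0 w2_0 x2_0 (by decide) _ (chkS_sound E lk2 1 2 _ _ _ _ t2_0_0)

def r2_0_1 : List (ℕ × ℤ) := [(5, 2), (6, -2)]

theorem h2_0_1 (E : Env κ ι) : ip (F2_0 E) (F2_1 E) = dotS (ek E lk2) r2_0_1 :=
  op_entryZ E lk2 1 2 _ _ _ _ (pg0 κ) (pg3 ι) m2_0 m2_1 l2_1 z2_1 w2_1 x2_1 (by decide) _ (chkS_sound E lk2 1 2 _ _ _ _ t2_0_1)

def r2_0_2 : List (ℕ × ℤ) := [(2, 2), (7, -2)]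

theorem h2_0_2 (E : Env κ ι) : ip (F2_0 E) (F2_2 E) = dotS (ek E lk2) r2_0_2 :=
  op_entryZ E lk2 1 2 _ _ _ _ (pg0 κ) (pg3 ι) m2_0 m2_2 l2_2 z2_2 w2_2 x2_2 (by decide) _ (chkS_sound E lk2 1 2 _ _ _ _ t2_0_2)

def r2_1_1 : List (ℕ × ℤ) := [(8, -2), (10, 2)]

theorem h2_1_1 (E : Env κ ι) : ip (F2_1 E) (F2_1 E) = dotS (ek E lk2) r2_1_1 :=
  op_entryZ E lk2 1 2 _ _ _ _ (pg0 κ) (pg3 ι) m2_1 m2_1 l2_1 z2_1 w2_1 x2_1 (by decide) _ (chkS_sound E lk2 1 2 _ _ _ _ t2_1_1)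

def r2_1_2 : List (ℕ × ℤ) := [(9, -2), (11, 2)]

theorem h2_1_2 (E : Env κ ι) : ip (F2_1 E) (F2_2 E) = dotS (ek E lk2) r2_1_2 :=
  op_entryZ E lk2 1 2 _ _ _ _ (pg0 κ) (pg3 ι) m2_1 m2_2 l2_2 z2_2 w2_2 x2_2 (by decide) _ (chkS_sound E lk2 1 2 _ _ _ _ t2_1_2)

def r2_2_2 : List (ℕ × ℤ) := [(0, 2), (1, -2)]

theorem h2_2_2 (E : Env κ ι) : ip (F2_2 E) (F2_2 E) = dotS (ek E lk2) r2_2_2 :=
  op_entryZ E lk2 1 2 _ _ _ _ (pg0 κ) (pg3 ι) m2_2 m2_2 l2_2 z2_2 w2_2 x2_2 (by decide) _ (chkS_sound E lk2 1 2 _ _ _ _ t2_2_2)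

theorem row2_0 (E : Env κ ι) : RowG (ek E lk2) (F2_0 E) [F2_0 E, F2_1 E, F2_2 E] [r2_0_0, r2_0_1, r2_0_2] :=
  rowG_cons _ _ _ _ _ _ (h2_0_0 E) (rowG_cons _ _ _ _ _ _ (h2_0_1 E) (rowG_cons _ _ _ _ _ _ (h2_0_2 E) (rowG_nil _ _)))

theorem row2_1 (E : Env κ ι) : RowG (ek E lk2) (F2_1 E) [F2_1 E, F2_2 E] [r2_1_1, r2_1_2] :=
  rowG_cons _ _ _ _ _ _ (h2_1_1 E) (rowG_cons _ _ _ _ _ _ (h2_1_2 E) (rowG_nil _ _))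

theorem row2_2 (E : Env κ ι) : RowG (ek E lk2) (F2_2 E) [F2_2 E] [r2_2_2] :=
  rowG_cons _ _ _ _ _ _ (h2_2_2 E) (rowG_nil _ _)

def tab2 : List (List (List (ℕ × ℤ))) := [[r2_0_0, r2_0_1, r2_0_2], [r2_1_1, r2_1_2], [r2_2_2]]

theorem tri2 (E : Env κ ι) : TriG (ek E lk2) [F2_0 E, F2_1 E, F2_2 E] tab2 := by
  refine triG_cons _ _ _ _ _ (row2_0 E) ?_
  refine triG_cons _ _ _ _ _ (row2_1 E) ?_
  refine triG_cons _ _ _ _ _ (row2_2 E) ?_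
  exact triG_nil _

end

def lk3 : List Key := [
  (1, 4, [(0, [0], [0, 1]), (0, [0], [0, 1]), (1, [], [2, 3]), (1, [], [2, 3])]),
  (1, 4, [(0, [0], [0, 1]), (0, [0], [0, 2]), (1, [], [2, 3]), (1, [], [1, 3])]),
  (1, 4, [(0, [0], [0, 1]), (0, [0], [2, 3]), (1, [], [2, 3]), (1, [], [0, 1])]),
  (2, 6, [(0, [0], [0, 1]), (0, [0], [0, 1]), (0, [1], [2, 3]), (0, [1], [2, 4]), (1, [], [4, 5]), (1, [], [3, 5])]),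
  (3, 6, [(0, [0], [0, 1]), (0, [0], [0, 1]), (0, [1], [2, 3]), (0, [2], [4, 5]), (0, [2], [2, 4]), (0, [1], [3, 5])]),
  (1, 6, [(0, [0], [0, 1]), (0, [0], [0, 2]), (1, [], [2, 3]), (1, [], [1, 3]), (1, [], [4, 5]), (1, [], [4, 5])]),
  (1, 6, [(0, [0], [0, 1]), (0, [0], [2, 3]), (1, [], [0, 2]), (1, [], [1, 3]), (1, [], [4, 5]), (1, [], [4, 5])]),
  (2, 6, [(0, [0], [0, 1]), (0, [1], [2, 3]), (0, [0], [2, 4]), (0, [1], [0, 5]), (1, [], [4, 5]), (1, [], [1, 3])]),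
  (3, 6, [(0, [0], [0, 1]), (0, [1], [2, 3]), (0, [2], [4, 5]), (0, [0], [2, 4]), (0, [1], [0, 5]), (0, [2], [1, 3])]),
  (2, 6, [(0, [0], [0, 1]), (0, [1], [2, 3]), (0, [0], [2, 4]), (0, [1], [0, 5]), (1, [], [3, 5]), (1, [], [1, 4])]),
  (3, 6, [(0, [0], [0, 1]), (0, [1], [2, 3]), (0, [1], [4, 5]), (0, [0], [2, 4]), (0, [2], [0, 5]), (0, [2], [1, 3])]),
  (3, 6, [(0, [0], [0, 1]), (0, [1], [0, 2]), (0, [1], [3, 4]), (0, [0], [3, 4]), (0, [2], [2, 5]), (0, [2], [1, 5])]),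
  (3, 6, [(0, [0], [0, 1]), (0, [0], [2, 3]), (0, [1], [0, 2]), (0, [2], [1, 3]), (0, [2], [4, 5]), (0, [1], [4, 5])]),
  (2, 5, [(0, [0], [0, 1]), (0, [1], [0, 2]), (0, [0], [2, 3]), (0, [1], [1, 4]), (1, [], [3, 4])]),
  (2, 5, [(0, [0], [0, 1]), (0, [0], [2, 3]), (0, [1], [2, 4]), (0, [1], [0, 4]), (1, [], [1, 3])]),
  (3, 6, [(0, [0], [0, 1]), (0, [0], [0, 2]), (0, [1], [1, 2]), (0, [2], [3, 4]), (0, [2], [3, 5]), (0, [1], [4, 5])]),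
  (2, 5, [(0, [0], [0, 1]), (0, [0], [0, 2]), (0, [1], [1, 2]), (0, [1], [3, 4]), (1, [], [3, 4])]),
  (2, 6, [(0, [0], [0, 1]), (0, [0], [0, 2]), (0, [1], [1, 2]), (0, [1], [3, 4]), (1, [], [3, 5]), (1, [], [4, 5])]),
  (1, 5, [(0, [0], [0, 1]), (1, [], [0, 1]), (0, [0], [2, 3]), (1, [], [2, 4]), (1, [], [3, 4])]),
  (1, 6, [(0, [0], [0, 1]), (1, [], [0, 2]), (1, [], [1, 2]), (0, [0], [3, 4]), (1, [], [3, 5]), (1, [], [4, 5])]),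
  (2, 5, [(0, [0], [0, 1]), (0, [0], [0, 1]), (0, [1], [2, 3]), (0, [1], [2, 4]), (1, [], [3, 4])]),
  (3, 6, [(0, [0], [0, 1]), (0, [0], [2, 0]), (0, [1], [3, 1]), (0, [2], [4, 5]), (0, [2], [2, 4]), (0, [1], [3, 5])]),
  (3, 6, [(0, [0], [0, 1]), (0, [0], [2, 0]), (0, [1], [3, 1]), (0, [2], [4, 5]), (0, [2], [3, 4]), (0, [1], [2, 5])]),
  (3, 6, [(0, [0], [0, 1]), (0, [0], [2, 0]), (0, [1], [3, 1]), (0, [2], [2, 4]), (0, [2], [3, 5]), (0, [1], [4, 5])]),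
  (2, 6, [(0, [0], [0, 1]), (0, [0], [2, 0]), (0, [1], [3, 1]), (0, [1], [4, 5]), (1, [], [4, 5]), (1, [], [2, 3])]),
  (2, 6, [(0, [0], [0, 1]), (0, [0], [2, 0]), (0, [1], [3, 1]), (0, [1], [4, 5]), (1, [], [2, 4]), (1, [], [3, 5])]),
  (2, 6, [(0, [0], [0, 1]), (0, [0], [2, 0]), (0, [1], [3, 1]), (0, [1], [2, 4]), (1, [], [4, 5]), (1, [], [3, 5])]),
  (2, 6, [(0, [0], [0, 1]), (0, [0], [2, 0]), (0, [1], [3, 1]), (0, [1], [3, 4]), (1, [], [4, 5]), (1, [], [2, 5])]),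
  (2, 5, [(0, [0], [0, 1]), (0, [0], [2, 0]), (0, [1], [3, 1]), (0, [1], [3, 4]), (1, [], [2, 4])]),
  (2, 6, [(0, [0], [0, 1]), (0, [0], [2, 3]), (0, [1], [0, 1]), (0, [1], [2, 4]), (1, [], [4, 5]), (1, [], [3, 5])]),
  (2, 5, [(0, [0], [0, 1]), (0, [0], [2, 3]), (0, [1], [0, 1]), (0, [1], [2, 4]), (1, [], [3, 4])]),
  (2, 6, [(0, [0], [0, 1]), (0, [0], [2, 3]), (0, [1], [1, 3]), (0, [1], [4, 5]), (1, [], [4, 5]), (1, [], [0, 2])]),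
  (2, 6, [(0, [0], [0, 1]), (0, [0], [2, 3]), (0, [1], [1, 3]), (0, [1], [4, 5]), (1, [], [0, 4]), (1, [], [2, 5])]),
  (2, 6, [(0, [0], [0, 1]), (0, [0], [2, 3]), (0, [1], [1, 3]), (0, [1], [0, 4]), (1, [], [4, 5]), (1, [], [2, 5])]),
  (1, 6, [(0, [0], [0, 1]), (1, [], [0, 1]), (1, [], [2, 3]), (0, [0], [4, 5]), (1, [], [2, 4]), (1, [], [3, 5])]),
  (1, 6, [(0, [0], [0, 1]), (1, [], [2, 0]), (1, [], [3, 1]), (0, [0], [4, 5]), (1, [], [2, 4]), (1, [], [3, 5])]),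
  (1, 6, [(0, [0], [0, 1]), (1, [], [2, 0]), (1, [], [3, 1]), (0, [0], [2, 4]), (1, [], [4, 5]), (1, [], [3, 5])]),
  (1, 5, [(0, [0], [0, 1]), (1, [], [2, 0]), (1, [], [3, 1]), (0, [0], [2, 4]), (1, [], [3, 4])]),
  (1, 6, [(0, [0], [0, 1]), (1, [], [1, 2]), (1, [], [3, 2]), (0, [0], [0, 4]), (1, [], [4, 5]), (1, [], [3, 5])]),
  (1, 5, [(0, [0], [0, 1]), (1, [], [1, 2]), (1, [], [3, 2]), (0, [0], [0, 4]), (1, [], [3, 4])]),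
  (1, 5, [(0, [0], [0, 1]), (1, [], [2, 1]), (0, [0], [0, 2]), (1, [], [3, 4]), (1, [], [3, 4])]),
  (2, 6, [(0, [0], [0, 1]), (0, [0], [2, 1]), (0, [1], [3, 4]), (0, [1], [3, 5]), (1, [], [0, 5]), (1, [], [2, 4])]),
  (2, 6, [(0, [0], [0, 1]), (0, [0], [2, 1]), (0, [1], [3, 4]), (0, [1], [3, 5]), (1, [], [4, 5]), (1, [], [0, 2])]),
  (3, 6, [(0, [0], [0, 1]), (0, [0], [2, 3]), (0, [1], [4, 1]), (0, [2], [2, 5]), (0, [2], [0, 4]), (0, [1], [3, 5])]),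
  (2, 6, [(0, [0], [0, 1]), (0, [0], [2, 3]), (0, [1], [4, 1]), (0, [1], [2, 5]), (1, [], [3, 5]), (1, [], [0, 4])]),
  (1, 6, [(0, [0], [0, 1]), (1, [], [2, 1]), (1, [], [3, 4]), (0, [0], [0, 2]), (1, [], [3, 5]), (1, [], [4, 5])]),
  (1, 6, [(0, [0], [0, 1]), (1, [], [2, 3]), (1, [], [4, 3]), (0, [0], [0, 1]), (1, [], [2, 5]), (1, [], [4, 5])]),
  (1, 5, [(0, [0], [0, 1]), (1, [], [2, 3]), (1, [], [4, 3]), (0, [0], [0, 1]), (1, [], [2, 4])])]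

def kl3 : List ℕ := [1, 3, 7, 10, 12, 17, 18, 21, 22, 23, 24, 25, 26, 28, 29, 31, 32, 33, 34, 35, 36, 37, 38, 39, 40, 41, 42, 43, 44, 48, 49, 50, 51, 52, 54, 55, 56, 57, 58, 59, 61, 62, 63, 64, 65, 66, 67, 68]

def m3_0 : Base := (1, 1, [(0, [1], [0, 4]), (0, [1], [1, 4]), (0, [0], [2, 3])])

def l3_0 : Cov := [(96, 1, 1, [(0, [1], [0, 4]), (0, [1], [1, 4]), (0, [0], [2, 3])]),
  (96, 1, 1, [(0, [1], [0, 4]), (0, [1], [2, 4]), (0, [0], [1, 3])]),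
  (96, 1, 1, [(0, [1], [0, 4]), (0, [1], [3, 4]), (0, [0], [1, 2])]),
  (96, 1, 1, [(0, [1], [1, 4]), (0, [1], [2, 4]), (0, [0], [0, 3])]),
  (96, 1, 1, [(0, [1], [1, 4]), (0, [1], [3, 4]), (0, [0], [0, 2])]),
  (96, 1, 1, [(0, [1], [2, 4]), (0, [1], [3, 4]), (0, [0], [0, 1])])]

def z3_0 : Cov := []

def w3_0 : List (List Wit) := [[(0, 0, 0, 0, 0), (0, 0, 0, 0, 0), (1, 0, 0, 0, 0), (1, 0, 0, 0, 0), (2, 0, 0, 0, 0), (2, 0, 0, 0, 0), (0, 0, 0, 0, 0), (0, 0, 0, 0, 0), (3, 0, 0, 0, 0), (3, 0, 0, 0, 0), (4, 0, 0, 0, 0), (4, 0, 0, 0, 0), (1, 0, 0, 0, 0), (1, 0, 0, 0, 0), (3, 0, 0, 0, 0), (3, 0, 0, 0, 0), (5, 0, 0, 0, 0), (5, 0, 0, 0, 0), (2, 0, 0, 0, 0), (2, 0, 0, 0, 0), (4, 0, 0, 0, 0), (4, 0, 0, 0, 0), (5, 0, 0, 0, 0), (5, 0, 0, 0, 0)]]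

def m3_1 : Base := (1, 1, [(0, [1], [0, 4]), (0, [1], [1, 2]), (0, [0], [3, 4])])

def l3_1 : Cov := [(48, 1, 1, [(0, [1], [0, 4]), (0, [1], [1, 2]), (0, [0], [3, 4])]),
  (48, 1, 1, [(0, [1], [0, 4]), (0, [1], [1, 3]), (0, [0], [2, 4])]),
  (48, 1, 1, [(0, [1], [0, 4]), (0, [1], [2, 3]), (0, [0], [1, 4])]),
  (48, 1, 1, [(0, [1], [1, 4]), (0, [1], [0, 2]), (0, [0], [3, 4])]),
  (48, 1, 1, [(0, [1], [1, 4]), (0, [1], [0, 3]), (0, [0], [2, 4])]),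
  (48, 1, 1, [(0, [1], [1, 4]), (0, [1], [2, 3]), (0, [0], [0, 4])]),
  (48, 1, 1, [(0, [1], [2, 4]), (0, [1], [0, 1]), (0, [0], [3, 4])]),
  (48, 1, 1, [(0, [1], [2, 4]), (0, [1], [0, 3]), (0, [0], [1, 4])]),
  (48, 1, 1, [(0, [1], [2, 4]), (0, [1], [1, 3]), (0, [0], [0, 4])]),
  (48, 1, 1, [(0, [1], [3, 4]), (0, [1], [0, 1]), (0, [0], [2, 4])]),
  (48, 1, 1, [(0, [1], [3, 4]), (0, [1], [0, 2]), (0, [0], [1, 4])]),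
  (48, 1, 1, [(0, [1], [3, 4]), (0, [1], [1, 2]), (0, [0], [0, 4])])]

def z3_1 : Cov := []

def w3_1 : List (List Wit) := [[(0, 0, 0, 0, 0), (1, 0, 0, 0, 0), (0, 0, 0, 0, 0), (2, 0, 0, 0, 0), (1, 0, 0, 0, 0), (2, 0, 0, 0, 0), (3, 0, 0, 0, 0), (4, 0, 0, 0, 0), (3, 0, 0, 0, 0), (5, 0, 0, 0, 0), (4, 0, 0, 0, 0), (5, 0, 0, 0, 0), (6, 0, 0, 0, 0), (7, 0, 0, 0, 0), (6, 0, 0, 0, 0), (8, 0, 0, 0, 0), (7, 0, 0, 0, 0), (8, 0, 0, 0, 0), (9, 0, 0, 0, 0), (10, 0, 0, 0, 0), (9, 0, 0, 0, 0), (11, 0, 0, 0, 0), (10, 0, 0, 0, 0), (11, 0, 0, 0, 0)]]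

def m3_2 : Base := (0, 1, [(0, [0], [0, 4]), (1, [], [1, 4]), (1, [], [2, 3])])

def l3_2 : Cov := [(48, 0, 1, [(0, [0], [0, 4]), (1, [], [1, 4]), (1, [], [2, 3])]),
  (48, 0, 1, [(0, [0], [0, 4]), (1, [], [2, 4]), (1, [], [1, 3])]),
  (48, 0, 1, [(0, [0], [0, 4]), (1, [], [3, 4]), (1, [], [1, 2])]),
  (48, 0, 1, [(0, [0], [1, 4]), (1, [], [0, 4]), (1, [], [2, 3])]),
  (48, 0, 1, [(0, [0], [1, 4]), (1, [], [2, 4]), (1, [], [0, 3])]),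
  (48, 0, 1, [(0, [0], [1, 4]), (1, [], [3, 4]), (1, [], [0, 2])]),
  (48, 0, 1, [(0, [0], [2, 4]), (1, [], [0, 4]), (1, [], [1, 3])]),
  (48, 0, 1, [(0, [0], [2, 4]), (1, [], [1, 4]), (1, [], [0, 3])]),
  (48, 0, 1, [(0, [0], [2, 4]), (1, [], [3, 4]), (1, [], [0, 1])]),
  (48, 0, 1, [(0, [0], [3, 4]), (1, [], [0, 4]), (1, [], [1, 2])]),
  (48, 0, 1, [(0, [0], [3, 4]), (1, [], [1, 4]), (1, [], [0, 2])]),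
  (48, 0, 1, [(0, [0], [3, 4]), (1, [], [2, 4]), (1, [], [0, 1])])]

def z3_2 : Cov := []

def w3_2 : List (List Wit) := [[(0, 0, 0, 0, 0), (0, 0, 0, 0, 0), (1, 0, 0, 0, 0), (1, 0, 0, 0, 0), (2, 0, 0, 0, 0), (2, 0, 0, 0, 0), (3, 0, 0, 0, 0), (3, 0, 0, 0, 0), (4, 0, 0, 0, 0), (4, 0, 0, 0, 0), (5, 0, 0, 0, 0), (5, 0, 0, 0, 0), (6, 0, 0, 0, 0), (6, 0, 0, 0, 0), (7, 0, 0, 0, 0), (7, 0, 0, 0, 0), (8, 0, 0, 0, 0), (8, 0, 0, 0, 0), (9, 0, 0, 0, 0), (9, 0, 0, 0, 0), (10, 0, 0, 0, 0), (10, 0, 0, 0, 0), (11, 0, 0, 0, 0), (11, 0, 0, 0, 0)]]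

def m3_3 : Base := (0, 1, [(0, [0], [0, 1]), (1, [], [2, 4]), (1, [], [3, 4])])

def l3_3 : Cov := [(96, 0, 1, [(0, [0], [0, 1]), (1, [], [2, 4]), (1, [], [3, 4])]),
  (96, 0, 1, [(0, [0], [0, 2]), (1, [], [1, 4]), (1, [], [3, 4])]),
  (96, 0, 1, [(0, [0], [0, 3]), (1, [], [1, 4]), (1, [], [2, 4])]),
  (96, 0, 1, [(0, [0], [1, 2]), (1, [], [0, 4]), (1, [], [3, 4])]),
  (96, 0, 1, [(0, [0], [1, 3]), (1, [], [0, 4]), (1, [], [2, 4])]),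
  (96, 0, 1, [(0, [0], [2, 3]), (1, [], [0, 4]), (1, [], [1, 4])])]

def z3_3 : Cov := []

def w3_3 : List (List Wit) := [[(0, 0, 0, 0, 0), (0, 0, 0, 0, 0), (1, 0, 0, 0, 0), (1, 0, 0, 0, 0), (2, 0, 0, 0, 0), (2, 0, 0, 0, 0), (0, 0, 0, 0, 0), (0, 0, 0, 0, 0), (3, 0, 0, 0, 0), (3, 0, 0, 0, 0), (4, 0, 0, 0, 0), (4, 0, 0, 0, 0), (1, 0, 0, 0, 0), (1, 0, 0, 0, 0), (3, 0, 0, 0, 0), (3, 0, 0, 0, 0), (5, 0, 0, 0, 0), (5, 0, 0, 0, 0), (2, 0, 0, 0, 0), (2, 0, 0, 0, 0), (4, 0, 0, 0, 0), (4, 0, 0, 0, 0), (5, 0, 0, 0, 0), (5, 0, 0, 0, 0)]]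

def m3_4 : Base := (0, 0, [(0, [0], [0, 1]), (1, [], [2, 3])])

def l3_4 : Cov := [(96, 0, 0, [(0, [0], [0, 1]), (1, [], [2, 3])]),
  (96, 0, 0, [(0, [0], [0, 2]), (1, [], [1, 3])]),
  (96, 0, 0, [(0, [0], [0, 3]), (1, [], [1, 2])]),
  (96, 0, 0, [(0, [0], [1, 2]), (1, [], [0, 3])]),
  (96, 0, 0, [(0, [0], [1, 3]), (1, [], [0, 2])]),
  (96, 0, 0, [(0, [0], [2, 3]), (1, [], [0, 1])])]

def z3_4 : Cov := []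

def w3_4 : List (List Wit) := [[(0, 0, 0, 0, 0), (0, 0, 0, 0, 0), (1, 0, 0, 0, 0), (1, 0, 0, 0, 0), (2, 0, 0, 0, 0), (2, 0, 0, 0, 0), (0, 0, 0, 0, 0), (0, 0, 0, 0, 0), (3, 0, 0, 0, 0), (3, 0, 0, 0, 0), (4, 0, 0, 0, 0), (4, 0, 0, 0, 0), (1, 0, 0, 0, 0), (1, 0, 0, 0, 0), (3, 0, 0, 0, 0), (3, 0, 0, 0, 0), (5, 0, 0, 0, 0), (5, 0, 0, 0, 0), (2, 0, 0, 0, 0), (2, 0, 0, 0, 0), (4, 0, 0, 0, 0), (4, 0, 0, 0, 0), (5, 0, 0, 0, 0), (5, 0, 0, 0, 0)]]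

theorem tr3 : trK keys lk3 kl3 = true := by
  decide +kernel

theorem x3_0 : expB 1 4 dg0 dg4 m3_0 (l3_0 ++ z3_0) w3_0 = true := by
  decide +kernel

theorem x3_1 : expB 1 4 dg0 dg4 m3_1 (l3_1 ++ z3_1) w3_1 = true := by
  decide +kernel

theorem x3_2 : expB 1 4 dg0 dg4 m3_2 (l3_2 ++ z3_2) w3_2 = true := by
  decide +kernel

theorem x3_3 : expB 1 4 dg0 dg4 m3_3 (l3_3 ++ z3_3) w3_3 = true := by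
  decide +kernel

theorem x3_4 : expB 1 4 dg0 dg4 m3_4 (l3_4 ++ z3_4) w3_4 = true := by
  decide +kernel

theorem t3_0_0 : chkS lk3 1 4 [(1, m3_0)] l3_0
  [(4, 528, 528, 4395090, 1392690), (21, 258, 33, 3163425, 2314500), (21, 258, 33, 3167265, 3297540), (21, 513, 513, 4207905, 2437380), (21, 513, 513, 4215585, 3481860), (15, 513, 513, 3167265, 3297540)]
  [(4, 96), (15, 96), (21, 384)] = true := by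
  decide +kernel

theorem t3_0_1 : chkS lk3 1 4 [(1, m3_0)] l3_1
  [(22, 258, 33, 3163425, 2314500), (22, 258, 33, 3167265, 3297540), (11, 33, 258, 344865, 4399365), (22, 258, 33, 5260065, 5447940), (22, 258, 33, 5256225, 5386500), (11, 33, 258, 344850, 4399125), (15, 258, 33, 5256225, 5386500), (23, 258, 33, 4207905, 2437380), (23, 513, 513, 3163425, 2314500), (15, 258, 33, 5260065, 5447940), (23, 258, 33, 4215585, 3481860), (23, 513, 513, 3167265, 3297540)]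
  [(11, 96), (15, 96), (22, 192), (23, 192)] = true := by
  decide +kernel

theorem t3_0_2 : chkS lk3 1 4 [(1, m3_0)] l3_2
  [(24, 1, 1, 3167265, 3297540), (25, 1, 1, 3163425, 2314500), (25, 1, 1, 3167265, 3297540), (24, 1, 1, 3167250, 3297300), (25, 1, 1, 3163410, 2314260), (25, 1, 1, 3167250, 3297300), (41, 1, 1, 5325600, 5448000), (41, 1, 1, 4281120, 3481920), (42, 1, 1, 5325600, 5448000), (41, 1, 1, 5321760, 5386560), (41, 1, 1, 4273440, 2437440), (42, 1, 1, 5321760, 5386560)]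
  [(24, 96), (25, 192), (41, 192), (42, 96)] = true := by
  decide +kernel

theorem t3_0_3 : chkS lk3 1 4 [(1, m3_0)] l3_3
  [(17, 1, 1, 5260065, 5447940), (27, 1, 1, 5260065, 5447940), (27, 1, 1, 5256225, 5386500), (27, 1, 1, 5260050, 5447700), (27, 1, 1, 5256210, 5386260), (3, 16, 16, 5378115, 5309490)]
  [(3, 96), (17, 96), (27, 384)] = true := by
  decide +kernel

theorem t3_0_4 : chkS lk3 1 4 [(1, m3_0)] l3_4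
  [(16, 1, 1, 17185, 205060), (28, 1, 1, 17185, 205060), (28, 1, 1, 13345, 143620), (28, 1, 1, 17170, 204820), (28, 1, 1, 13330, 143380), (20, 16, 16, 135235, 66610)]
  [(16, 96), (20, 96), (28, 384)] = true := by
  decide +kernel

theorem t3_1_1 : chkS lk3 1 4 [(1, m3_1)] l3_1
  [(11, 258, 33, 2184240, 3282240), (8, 258, 33, 5321760, 5386560), (8, 258, 33, 5321280, 5321280), (23, 528, 528, 2164035, 2164035), (43, 513, 513, 5325600, 5448000), (10, 258, 33, 5321280, 5321280), (23, 528, 528, 2163795, 1180995), (43, 513, 513, 5325360, 5444160), (10, 258, 33, 5321760, 5386560), (10, 18, 18, 1377060, 4202835), (10, 18, 18, 1376820, 4198995), (12, 288, 288, 2164035, 2164035)]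
  [(8, 96), (10, 192), (11, 48), (12, 48), (23, 96), (43, 96)] = true := by
  decide +kernel

theorem t3_1_2 : chkS lk3 1 4 [(1, m3_1)] l3_2
  [(32, 16, 16, 2163795, 1180995), (32, 16, 16, 2164035, 2164035), (31, 16, 16, 2164035, 2164035), (7, 1, 1, 3167265, 3297540), (44, 1, 1, 5325600, 5448000), (9, 1, 1, 3167265, 3297540), (7, 1, 1, 3166785, 3232260), (44, 1, 1, 5325360, 5444160), (9, 1, 1, 3166785, 3232260), (24, 16, 16, 2164035, 2164035), (25, 16, 16, 2164035, 2164035), (25, 16, 16, 2163795, 1180995)]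
  [(7, 96), (9, 96), (24, 48), (25, 96), (31, 48), (32, 96), (44, 96)] = true := by
  decide +kernel

theorem t3_1_3 : chkS lk3 1 4 [(1, m3_1)] l3_3
  [(33, 1, 1, 5259825, 5444100), (33, 1, 1, 5260065, 5447940), (17, 16, 16, 5309490, 5378115), (29, 1, 1, 5390595, 5440545), (26, 16, 16, 5309475, 5374275), (26, 16, 16, 5308995, 5308995)]
  [(17, 96), (26, 192), (29, 96), (33, 192)] = true := by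
  decide +kernel

theorem t3_1_4 : chkS lk3 1 4 [(1, m3_1)] l3_4
  [(13, 1, 1, 82720, 205120), (13, 1, 1, 82480, 201280), (16, 16, 16, 66610, 135235), (30, 1, 1, 147715, 197665), (14, 1, 1, 17185, 205060), (14, 1, 1, 16945, 201220)]
  [(13, 192), (14, 192), (16, 96), (30, 96)] = true := by
  decide +kernel

theorem t3_2_2 : chkS lk3 1 4 [(1, m3_2)] l3_2
  [(5, 0, 0, 2184240, 3282240), (38, 0, 0, 4273440, 2437440), (38, 0, 0, 4281120, 3481920), (6, 0, 0, 2184240, 3282240), (36, 0, 0, 4207905, 2437380), (36, 0, 0, 4215585, 3481860), (36, 0, 0, 2184240, 3282240), (35, 0, 0, 5317680, 5378880), (19, 0, 0, 4281120, 3481920), (36, 0, 0, 2180400, 2299200), (35, 0, 0, 5325360, 5444160), (19, 0, 0, 4273440, 2437440)]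
  [(5, 48), (6, 48), (19, 96), (35, 96), (36, 192), (38, 96)] = true := by
  decide +kernel

theorem t3_2_3 : chkS lk3 1 4 [(1, m3_2)] l3_3
  [(45, 0, 0, 5325600, 5448000), (38, 0, 0, 3232800, 3297600), (38, 0, 0, 3228960, 2314560), (36, 0, 0, 3167265, 3297540), (36, 0, 0, 3163425, 2314500), (34, 0, 0, 2428980, 4199730)]
  [(34, 96), (36, 192), (38, 192), (45, 96)] = true := by
  decide +kernel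

theorem t3_2_4 : chkS lk3 1 4 [(1, m3_2)] l3_4
  [(40, 0, 0, 82720, 205120), (39, 0, 0, 78880, 143680), (39, 0, 0, 82720, 205120), (37, 0, 0, 13345, 143620), (37, 0, 0, 17185, 205060), (18, 0, 0, 200770, 81970)]
  [(18, 96), (37, 192), (39, 192), (40, 96)] = true := by
  decide +kernel

theorem t3_3_3 : chkS lk3 1 4 [(1, m3_3)] l3_3
  [(46, 0, 0, 5456400, 5456400), (38, 0, 0, 2438160, 4338960), (38, 0, 0, 2442000, 4400400), (38, 0, 0, 2438145, 4338945), (38, 0, 0, 2441985, 4400385), (19, 0, 0, 2442000, 4400400)]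
  [(19, 96), (38, 384), (46, 96)] = true := by
  decide +kernel

theorem t3_3_4 : chkS lk3 1 4 [(1, m3_3)] l3_4
  [(47, 0, 0, 213520, 213520), (39, 0, 0, 205840, 148240), (39, 0, 0, 213520, 213520), (39, 0, 0, 205825, 148225), (39, 0, 0, 213505, 213505), (18, 0, 0, 274960, 274960)]
  [(18, 96), (39, 384), (47, 96)] = true := by
  decide +kernel

theorem t3_4_4 : chkS lk3 1 4 [(1, m3_4)] l3_4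
  [(0, 0, 0, 12816, 12816), (1, 0, 0, 12816, 12816), (1, 0, 0, 8976, 8976), (1, 0, 0, 12801, 12801), (1, 0, 0, 8961, 8961), (2, 0, 0, 12816, 12816)]
  [(0, 96), (1, 384), (2, 96)] = true := by
  decide +kernel

section

variable {κ ι : Type*} [Fintype κ] [Fintype ι] [Inhabited κ] [Inhabited ι]

noncomputable def F3_0 (E : Env κ ι) : (Fin 1 → κ) → (Fin 4 → ι) → ℝ := op2 (P0 κ) (P4 ι) (fB E 1 4 m3_0)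

noncomputable def F3_1 (E : Env κ ι) : (Fin 1 → κ) → (Fin 4 → ι) → ℝ := op2 (P0 κ) (P4 ι) (fB E 1 4 m3_1)

noncomputable def F3_2 (E : Env κ ι) : (Fin 1 → κ) → (Fin 4 → ι) → ℝ := op2 (P0 κ) (P4 ι) (fB E 1 4 m3_2)

noncomputable def F3_3 (E : Env κ ι) : (Fin 1 → κ) → (Fin 4 → ι) → ℝ := op2 (P0 κ) (P4 ι) (fB E 1 4 m3_3)

noncomputable def F3_4 (E : Env κ ι) : (Fin 1 → κ) → (Fin 4 → ι) → ℝ := op2 (P0 κ) (P4 ι) (fB E 1 4 m3_4)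

def r3_0_0 : List (ℕ × ℤ) := [(4, 96), (15, 96), (21, 384)]

theorem h3_0_0 (E : Env κ ι) : ip (F3_0 E) (F3_0 E) = dotS (ek E lk3) r3_0_0 :=
  op_entryZ E lk3 1 4 _ _ _ _ (pg0 κ) (pg4 ι) m3_0 m3_0 l3_0 z3_0 w3_0 x3_0 (by decide) _ (chkS_sound E lk3 1 4 _ _ _ _ t3_0_0)

def r3_0_1 : List (ℕ × ℤ) := [(11, 96), (15, 96), (22, 192), (23, 192)]

theorem h3_0_1 (E : Env κ ι) : ip (F3_0 E) (F3_1 E) = dotS (ek E lk3) r3_0_1 :=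
  op_entryZ E lk3 1 4 _ _ _ _ (pg0 κ) (pg4 ι) m3_0 m3_1 l3_1 z3_1 w3_1 x3_1 (by decide) _ (chkS_sound E lk3 1 4 _ _ _ _ t3_0_1)

def r3_0_2 : List (ℕ × ℤ) := [(24, 96), (25, 192), (41, 192), (42, 96)]

theorem h3_0_2 (E : Env κ ι) : ip (F3_0 E) (F3_2 E) = dotS (ek E lk3) r3_0_2 :=
  op_entryZ E lk3 1 4 _ _ _ _ (pg0 κ) (pg4 ι) m3_0 m3_2 l3_2 z3_2 w3_2 x3_2 (by decide) _ (chkS_sound E lk3 1 4 _ _ _ _ t3_0_2)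

def r3_0_3 : List (ℕ × ℤ) := [(3, 96), (17, 96), (27, 384)]

theorem h3_0_3 (E : Env κ ι) : ip (F3_0 E) (F3_3 E) = dotS (ek E lk3) r3_0_3 :=
  op_entryZ E lk3 1 4 _ _ _ _ (pg0 κ) (pg4 ι) m3_0 m3_3 l3_3 z3_3 w3_3 x3_3 (by decide) _ (chkS_sound E lk3 1 4 _ _ _ _ t3_0_3)

def r3_0_4 : List (ℕ × ℤ) := [(16, 96), (20, 96), (28, 384)]

theorem h3_0_4 (E : Env κ ι) : ip (F3_0 E) (F3_4 E) = dotS (ek E lk3) r3_0_4 :=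
  op_entryZ E lk3 1 4 _ _ _ _ (pg0 κ) (pg4 ι) m3_0 m3_4 l3_4 z3_4 w3_4 x3_4 (by decide) _ (chkS_sound E lk3 1 4 _ _ _ _ t3_0_4)

def r3_1_1 : List (ℕ × ℤ) := [(8, 96), (10, 192), (11, 48), (12, 48), (23, 96), (43, 96)]

theorem h3_1_1 (E : Env κ ι) : ip (F3_1 E) (F3_1 E) = dotS (ek E lk3) r3_1_1 :=
  op_entryZ E lk3 1 4 _ _ _ _ (pg0 κ) (pg4 ι) m3_1 m3_1 l3_1 z3_1 w3_1 x3_1 (by decide) _ (chkS_sound E lk3 1 4 _ _ _ _ t3_1_1)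

def r3_1_2 : List (ℕ × ℤ) := [(7, 96), (9, 96), (24, 48), (25, 96), (31, 48), (32, 96), (44, 96)]

theorem h3_1_2 (E : Env κ ι) : ip (F3_1 E) (F3_2 E) = dotS (ek E lk3) r3_1_2 :=
  op_entryZ E lk3 1 4 _ _ _ _ (pg0 κ) (pg4 ι) m3_1 m3_2 l3_2 z3_2 w3_2 x3_2 (by decide) _ (chkS_sound E lk3 1 4 _ _ _ _ t3_1_2)

def r3_1_3 : List (ℕ × ℤ) := [(17, 96), (26, 192), (29, 96), (33, 192)]

theorem h3_1_3 (E : Env κ ι) : ip (F3_1 E) (F3_3 E) = dotS (ek E lk3) r3_1_3 :=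
  op_entryZ E lk3 1 4 _ _ _ _ (pg0 κ) (pg4 ι) m3_1 m3_3 l3_3 z3_3 w3_3 x3_3 (by decide) _ (chkS_sound E lk3 1 4 _ _ _ _ t3_1_3)

def r3_1_4 : List (ℕ × ℤ) := [(13, 192), (14, 192), (16, 96), (30, 96)]

theorem h3_1_4 (E : Env κ ι) : ip (F3_1 E) (F3_4 E) = dotS (ek E lk3) r3_1_4 :=
  op_entryZ E lk3 1 4 _ _ _ _ (pg0 κ) (pg4 ι) m3_1 m3_4 l3_4 z3_4 w3_4 x3_4 (by decide) _ (chkS_sound E lk3 1 4 _ _ _ _ t3_1_4)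

def r3_2_2 : List (ℕ × ℤ) := [(5, 48), (6, 48), (19, 96), (35, 96), (36, 192), (38, 96)]

theorem h3_2_2 (E : Env κ ι) : ip (F3_2 E) (F3_2 E) = dotS (ek E lk3) r3_2_2 :=
  op_entryZ E lk3 1 4 _ _ _ _ (pg0 κ) (pg4 ι) m3_2 m3_2 l3_2 z3_2 w3_2 x3_2 (by decide) _ (chkS_sound E lk3 1 4 _ _ _ _ t3_2_2)

def r3_2_3 : List (ℕ × ℤ) := [(34, 96), (36, 192), (38, 192), (45, 96)]

theorem h3_2_3 (E : Env κ ι) : ip (F3_2 E) (F3_3 E) = dotS (ek E lk3) r3_2_3 :=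
  op_entryZ E lk3 1 4 _ _ _ _ (pg0 κ) (pg4 ι) m3_2 m3_3 l3_3 z3_3 w3_3 x3_3 (by decide) _ (chkS_sound E lk3 1 4 _ _ _ _ t3_2_3)

def r3_2_4 : List (ℕ × ℤ) := [(18, 96), (37, 192), (39, 192), (40, 96)]

theorem h3_2_4 (E : Env κ ι) : ip (F3_2 E) (F3_4 E) = dotS (ek E lk3) r3_2_4 :=
  op_entryZ E lk3 1 4 _ _ _ _ (pg0 κ) (pg4 ι) m3_2 m3_4 l3_4 z3_4 w3_4 x3_4 (by decide) _ (chkS_sound E lk3 1 4 _ _ _ _ t3_2_4)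

def r3_3_3 : List (ℕ × ℤ) := [(19, 96), (38, 384), (46, 96)]

theorem h3_3_3 (E : Env κ ι) : ip (F3_3 E) (F3_3 E) = dotS (ek E lk3) r3_3_3 :=
  op_entryZ E lk3 1 4 _ _ _ _ (pg0 κ) (pg4 ι) m3_3 m3_3 l3_3 z3_3 w3_3 x3_3 (by decide) _ (chkS_sound E lk3 1 4 _ _ _ _ t3_3_3)

def r3_3_4 : List (ℕ × ℤ) := [(18, 96), (39, 384), (47, 96)]

theorem h3_3_4 (E : Env κ ι) : ip (F3_3 E) (F3_4 E) = dotS (ek E lk3) r3_3_4 :=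
  op_entryZ E lk3 1 4 _ _ _ _ (pg0 κ) (pg4 ι) m3_3 m3_4 l3_4 z3_4 w3_4 x3_4 (by decide) _ (chkS_sound E lk3 1 4 _ _ _ _ t3_3_4)

def r3_4_4 : List (ℕ × ℤ) := [(0, 96), (1, 384), (2, 96)]

theorem h3_4_4 (E : Env κ ι) : ip (F3_4 E) (F3_4 E) = dotS (ek E lk3) r3_4_4 :=
  op_entryZ E lk3 1 4 _ _ _ _ (pg0 κ) (pg4 ι) m3_4 m3_4 l3_4 z3_4 w3_4 x3_4 (by decide) _ (chkS_sound E lk3 1 4 _ _ _ _ t3_4_4)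

theorem row3_0 (E : Env κ ι) : RowG (ek E lk3) (F3_0 E) [F3_0 E, F3_1 E, F3_2 E, F3_3 E, F3_4 E] [r3_0_0, r3_0_1, r3_0_2, r3_0_3, r3_0_4] :=
  rowG_cons _ _ _ _ _ _ (h3_0_0 E) (rowG_cons _ _ _ _ _ _ (h3_0_1 E) (rowG_cons _ _ _ _ _ _ (h3_0_2 E) (rowG_cons _ _ _ _ _ _ (h3_0_3 E) (rowG_cons _ _ _ _ _ _ (h3_0_4 E) (rowG_nil _ _)))))

theorem row3_1 (E : Env κ ι) : RowG (ek E lk3) (F3_1 E) [F3_1 E, F3_2 E, F3_3 E, F3_4 E] [r3_1_1, r3_1_2, r3_1_3, r3_1_4] :=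
  rowG_cons _ _ _ _ _ _ (h3_1_1 E) (rowG_cons _ _ _ _ _ _ (h3_1_2 E) (rowG_cons _ _ _ _ _ _ (h3_1_3 E) (rowG_cons _ _ _ _ _ _ (h3_1_4 E) (rowG_nil _ _))))

theorem row3_2 (E : Env κ ι) : RowG (ek E lk3) (F3_2 E) [F3_2 E, F3_3 E, F3_4 E] [r3_2_2, r3_2_3, r3_2_4] :=
  rowG_cons _ _ _ _ _ _ (h3_2_2 E) (rowG_cons _ _ _ _ _ _ (h3_2_3 E) (rowG_cons _ _ _ _ _ _ (h3_2_4 E) (rowG_nil _ _)))

theorem row3_3 (E : Env κ ι) : RowG (ek E lk3) (F3_3 E) [F3_3 E, F3_4 E] [r3_3_3, r3_3_4] :=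
  rowG_cons _ _ _ _ _ _ (h3_3_3 E) (rowG_cons _ _ _ _ _ _ (h3_3_4 E) (rowG_nil _ _))

theorem row3_4 (E : Env κ ι) : RowG (ek E lk3) (F3_4 E) [F3_4 E] [r3_4_4] :=
  rowG_cons _ _ _ _ _ _ (h3_4_4 E) (rowG_nil _ _)

def tab3 : List (List (List (ℕ × ℤ))) := [[r3_0_0, r3_0_1, r3_0_2, r3_0_3, r3_0_4], [r3_1_1, r3_1_2, r3_1_3, r3_1_4], [r3_2_2, r3_2_3, r3_2_4], [r3_3_3, r3_3_4], [r3_4_4]]

theorem tri3 (E : Env κ ι) : TriG (ek E lk3) [F3_0 E, F3_1 E, F3_2 E, F3_3 E, F3_4 E] tab3 := by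
  refine triG_cons _ _ _ _ _ (row3_0 E) ?_
  refine triG_cons _ _ _ _ _ (row3_1 E) ?_
  refine triG_cons _ _ _ _ _ (row3_2 E) ?_
  refine triG_cons _ _ _ _ _ (row3_3 E) ?_
  refine triG_cons _ _ _ _ _ (row3_4 E) ?_
  exact triG_nil _

end

def lk4 : List Key := [
  (1, 4, [(0, [0], [0, 1]), (0, [0], [0, 1]), (1, [], [2, 3]), (1, [], [2, 3])]),
  (1, 4, [(0, [0], [0, 1]), (0, [0], [0, 2]), (1, [], [2, 3]), (1, [], [1, 3])]),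
  (1, 4, [(0, [0], [0, 1]), (0, [0], [2, 3]), (1, [], [2, 3]), (1, [], [0, 1])]),
  (2, 6, [(0, [0], [0, 1]), (0, [0], [0, 1]), (0, [1], [2, 3]), (0, [1], [2, 4]), (1, [], [4, 5]), (1, [], [3, 5])]),
  (3, 6, [(0, [0], [0, 1]), (0, [0], [0, 1]), (0, [1], [2, 3]), (0, [2], [4, 5]), (0, [2], [2, 4]), (0, [1], [3, 5])]),
  (1, 6, [(0, [0], [0, 1]), (0, [0], [0, 2]), (1, [], [2, 3]), (1, [], [1, 3]), (1, [], [4, 5]), (1, [], [4, 5])]),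
  (1, 6, [(0, [0], [0, 1]), (0, [0], [2, 3]), (1, [], [0, 2]), (1, [], [1, 3]), (1, [], [4, 5]), (1, [], [4, 5])]),
  (2, 6, [(0, [0], [0, 1]), (0, [1], [2, 3]), (0, [0], [2, 4]), (0, [1], [0, 5]), (1, [], [4, 5]), (1, [], [1, 3])]),
  (3, 6, [(0, [0], [0, 1]), (0, [1], [2, 3]), (0, [2], [4, 5]), (0, [0], [2, 4]), (0, [1], [0, 5]), (0, [2], [1, 3])]),
  (2, 6, [(0, [0], [0, 1]), (0, [1], [2, 3]), (0, [0], [2, 4]), (0, [1], [0, 5]), (1, [], [3, 5]), (1, [], [1, 4])]),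
  (3, 6, [(0, [0], [0, 1]), (0, [1], [2, 3]), (0, [1], [4, 5]), (0, [0], [2, 4]), (0, [2], [0, 5]), (0, [2], [1, 3])]),
  (3, 6, [(0, [0], [0, 1]), (0, [1], [0, 2]), (0, [1], [3, 4]), (0, [0], [3, 4]), (0, [2], [2, 5]), (0, [2], [1, 5])]),
  (3, 6, [(0, [0], [0, 1]), (0, [0], [2, 3]), (0, [1], [0, 2]), (0, [2], [1, 3]), (0, [2], [4, 5]), (0, [1], [4, 5])]),
  (2, 5, [(0, [0], [0, 1]), (0, [1], [0, 2]), (0, [0], [2, 3]), (0, [1], [1, 4]), (1, [], [3, 4])]),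
  (2, 5, [(0, [0], [0, 1]), (0, [0], [2, 3]), (0, [1], [2, 4]), (0, [1], [0, 4]), (1, [], [1, 3])]),
  (3, 6, [(0, [0], [0, 1]), (0, [0], [0, 2]), (0, [1], [1, 2]), (0, [2], [3, 4]), (0, [2], [3, 5]), (0, [1], [4, 5])]),
  (2, 5, [(0, [0], [0, 1]), (0, [0], [0, 2]), (0, [1], [1, 2]), (0, [1], [3, 4]), (1, [], [3, 4])]),
  (2, 6, [(0, [0], [0, 1]), (0, [0], [0, 2]), (0, [1], [1, 2]), (0, [1], [3, 4]), (1, [], [3, 5]), (1, [], [4, 5])]),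
  (1, 5, [(0, [0], [0, 1]), (1, [], [0, 1]), (0, [0], [2, 3]), (1, [], [2, 4]), (1, [], [3, 4])]),
  (1, 6, [(0, [0], [0, 1]), (1, [], [0, 2]), (1, [], [1, 2]), (0, [0], [3, 4]), (1, [], [3, 5]), (1, [], [4, 5])]),
  (2, 5, [(0, [0], [0, 1]), (0, [0], [0, 1]), (0, [1], [2, 3]), (0, [1], [2, 4]), (1, [], [3, 4])]),
  (3, 6, [(0, [0], [0, 1]), (0, [0], [2, 0]), (0, [1], [3, 1]), (0, [2], [4, 5]), (0, [2], [2, 4]), (0, [1], [3, 5])]),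
  (3, 6, [(0, [0], [0, 1]), (0, [0], [2, 0]), (0, [1], [3, 1]), (0, [2], [4, 5]), (0, [2], [3, 4]), (0, [1], [2, 5])]),
  (3, 6, [(0, [0], [0, 1]), (0, [0], [2, 0]), (0, [1], [3, 1]), (0, [2], [2, 4]), (0, [2], [3, 5]), (0, [1], [4, 5])]),
  (2, 6, [(0, [0], [0, 1]), (0, [0], [2, 0]), (0, [1], [3, 1]), (0, [1], [4, 5]), (1, [], [4, 5]), (1, [], [2, 3])]),
  (2, 6, [(0, [0], [0, 1]), (0, [0], [2, 0]), (0, [1], [3, 1]), (0, [1], [4, 5]), (1, [], [2, 4]), (1, [], [3, 5])]),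
  (2, 6, [(0, [0], [0, 1]), (0, [0], [2, 0]), (0, [1], [3, 1]), (0, [1], [2, 4]), (1, [], [4, 5]), (1, [], [3, 5])]),
  (2, 6, [(0, [0], [0, 1]), (0, [0], [2, 0]), (0, [1], [3, 1]), (0, [1], [3, 4]), (1, [], [4, 5]), (1, [], [2, 5])]),
  (2, 5, [(0, [0], [0, 1]), (0, [0], [2, 0]), (0, [1], [3, 1]), (0, [1], [3, 4]), (1, [], [2, 4])]),
  (2, 6, [(0, [0], [0, 1]), (0, [0], [2, 3]), (0, [1], [0, 1]), (0, [1], [2, 4]), (1, [], [4, 5]), (1, [], [3, 5])]),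
  (2, 5, [(0, [0], [0, 1]), (0, [0], [2, 3]), (0, [1], [0, 1]), (0, [1], [2, 4]), (1, [], [3, 4])]),
  (2, 6, [(0, [0], [0, 1]), (0, [0], [2, 3]), (0, [1], [1, 3]), (0, [1], [4, 5]), (1, [], [4, 5]), (1, [], [0, 2])]),
  (2, 6, [(0, [0], [0, 1]), (0, [0], [2, 3]), (0, [1], [1, 3]), (0, [1], [4, 5]), (1, [], [0, 4]), (1, [], [2, 5])]),
  (2, 6, [(0, [0], [0, 1]), (0, [0], [2, 3]), (0, [1], [1, 3]), (0, [1], [0, 4]), (1, [], [4, 5]), (1, [], [2, 5])]),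
  (1, 6, [(0, [0], [0, 1]), (1, [], [0, 1]), (1, [], [2, 3]), (0, [0], [4, 5]), (1, [], [2, 4]), (1, [], [3, 5])]),
  (1, 6, [(0, [0], [0, 1]), (1, [], [2, 0]), (1, [], [3, 1]), (0, [0], [4, 5]), (1, [], [2, 4]), (1, [], [3, 5])]),
  (1, 6, [(0, [0], [0, 1]), (1, [], [2, 0]), (1, [], [3, 1]), (0, [0], [2, 4]), (1, [], [4, 5]), (1, [], [3, 5])]),
  (1, 5, [(0, [0], [0, 1]), (1, [], [2, 0]), (1, [], [3, 1]), (0, [0], [2, 4]), (1, [], [3, 4])]),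
  (1, 6, [(0, [0], [0, 1]), (1, [], [1, 2]), (1, [], [3, 2]), (0, [0], [0, 4]), (1, [], [4, 5]), (1, [], [3, 5])]),
  (1, 5, [(0, [0], [0, 1]), (1, [], [1, 2]), (1, [], [3, 2]), (0, [0], [0, 4]), (1, [], [3, 4])]),
  (1, 5, [(0, [0], [0, 1]), (1, [], [2, 1]), (0, [0], [0, 2]), (1, [], [3, 4]), (1, [], [3, 4])]),
  (2, 6, [(0, [0], [0, 1]), (0, [0], [2, 1]), (0, [1], [3, 4]), (0, [1], [3, 5]), (1, [], [0, 5]), (1, [], [2, 4])]),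
  (2, 6, [(0, [0], [0, 1]), (0, [0], [2, 1]), (0, [1], [3, 4]), (0, [1], [3, 5]), (1, [], [4, 5]), (1, [], [0, 2])]),
  (3, 6, [(0, [0], [0, 1]), (0, [0], [2, 3]), (0, [1], [4, 1]), (0, [2], [2, 5]), (0, [2], [0, 4]), (0, [1], [3, 5])]),
  (2, 6, [(0, [0], [0, 1]), (0, [0], [2, 3]), (0, [1], [4, 1]), (0, [1], [2, 5]), (1, [], [3, 5]), (1, [], [0, 4])]),
  (1, 6, [(0, [0], [0, 1]), (1, [], [2, 1]), (1, [], [3, 4]), (0, [0], [0, 2]), (1, [], [3, 5]), (1, [], [4, 5])]),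
  (1, 6, [(0, [0], [0, 1]), (1, [], [2, 3]), (1, [], [4, 3]), (0, [0], [0, 1]), (1, [], [2, 5]), (1, [], [4, 5])]),
  (1, 5, [(0, [0], [0, 1]), (1, [], [2, 3]), (1, [], [4, 3]), (0, [0], [0, 1]), (1, [], [2, 4])])]

def kl4 : List ℕ := [1, 3, 7, 10, 12, 17, 18, 21, 22, 23, 24, 25, 26, 28, 29, 31, 32, 33, 34, 35, 36, 37, 38, 39, 40, 41, 42, 43, 44, 48, 49, 50, 51, 52, 54, 55, 56, 57, 58, 59, 61, 62, 63, 64, 65, 66, 67, 68]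

def m4_0 : Base := (1, 1, [(0, [1], [0, 4]), (0, [1], [1, 4]), (0, [0], [2, 3])])

def l4_0 : Cov := [(24, 1, 1, [(0, [1], [0, 4]), (0, [1], [1, 4]), (0, [0], [2, 3])]),
  (24, 1, 1, [(0, [1], [0, 4]), (0, [1], [2, 4]), (0, [0], [1, 3])]),
  (-24, 1, 1, [(0, [1], [1, 4]), (0, [1], [3, 4]), (0, [0], [2, 0])]),
  (-24, 1, 1, [(0, [1], [2, 4]), (0, [1], [3, 4]), (0, [0], [1, 0])])]

def z4_0 : Cov := [(0, 1, 1, [(0, [1], [0, 4]), (0, [1], [3, 4]), (0, [0], [1, 2])]),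
  (0, 1, 1, [(0, [1], [1, 4]), (0, [1], [2, 4]), (0, [0], [0, 3])])]

def w4_0 : List (List Wit) := [[(0, 0, 0, 0, 0), (0, 0, 0, 0, 0), (1, 0, 0, 0, 0), (1, 0, 0, 0, 0), (4, 0, 0, 0, 0), (4, 0, 0, 0, 0), (0, 0, 0, 0, 0), (5, 0, 0, 0, 0), (5, 0, 0, 0, 0), (2, 0, 0, 0, 0), (1, 0, 0, 0, 0), (5, 0, 0, 0, 0), (5, 0, 0, 0, 0), (3, 0, 0, 0, 0), (4, 0, 0, 0, 0), (4, 0, 0, 0, 0), (2, 0, 0, 0, 0), (2, 0, 0, 0, 0), (3, 0, 0, 0, 0), (3, 0, 0, 0, 0)]]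

def m4_1 : Base := (1, 1, [(0, [1], [0, 4]), (0, [1], [1, 2]), (0, [0], [3, 4])])

def l4_1 : Cov := [(24, 1, 1, [(0, [1], [0, 4]), (0, [1], [1, 2]), (0, [0], [3, 4])]),
  (12, 1, 1, [(0, [1], [0, 4]), (0, [1], [1, 3]), (0, [0], [2, 4])]),
  (12, 1, 1, [(0, [1], [0, 4]), (0, [1], [2, 3]), (0, [0], [1, 4])]),
  (12, 1, 1, [(0, [1], [1, 4]), (0, [1], [0, 2]), (0, [0], [3, 4])]),
  (-12, 1, 1, [(0, [1], [1, 4]), (0, [1], [2, 3]), (0, [0], [0, 4])]),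
  (12, 1, 1, [(0, [1], [2, 4]), (0, [1], [0, 1]), (0, [0], [3, 4])]),
  (-12, 1, 1, [(0, [1], [2, 4]), (0, [1], [1, 3]), (0, [0], [0, 4])]),
  (-12, 1, 1, [(0, [1], [3, 4]), (0, [1], [0, 1]), (0, [0], [2, 4])]),
  (-12, 1, 1, [(0, [1], [3, 4]), (0, [1], [0, 2]), (0, [0], [1, 4])]),
  (-24, 1, 1, [(0, [1], [3, 4]), (0, [1], [1, 2]), (0, [0], [0, 4])])]

def z4_1 : Cov := []

def w4_1 : List (List Wit) := [[(0, 0, 0, 0, 0), (1, 0, 0, 0, 0), (0, 0, 0, 0, 0), (2, 0, 0, 0, 0), (1, 0, 0, 0, 0), (2, 0, 0, 0, 0), (3, 0, 0, 0, 0), (3, 0, 0, 0, 0), (4, 0, 0, 0, 0), (4, 0, 0, 0, 0), (5, 0, 0, 0, 0), (5, 0, 0, 0, 0), (6, 0, 0, 0, 0), (6, 0, 0, 0, 0), (7, 0, 0, 0, 0), (8, 0, 0, 0, 0), (7, 0, 0, 0, 0), (9, 0, 0, 0, 0), (8, 0, 0, 0, 0), (9, 0, 0, 0, 0)]]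

def m4_2 : Base := (1, 1, [(0, [1], [0, 4]), (0, [1], [1, 3]), (0, [0], [2, 4])])

def l4_2 : Cov := [(18, 1, 1, [(0, [1], [0, 4]), (0, [1], [1, 3]), (0, [0], [2, 4])]),
  (12, 1, 1, [(0, [1], [0, 4]), (0, [1], [1, 2]), (0, [0], [3, 4])]),
  (18, 1, 1, [(0, [1], [0, 4]), (0, [1], [2, 3]), (0, [0], [1, 4])]),
  (6, 1, 1, [(0, [1], [1, 4]), (0, [1], [2, 3]), (0, [0], [0, 4])]),
  (-6, 1, 1, [(0, [1], [1, 4]), (0, [1], [2, 0]), (0, [0], [3, 4])]),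
  (6, 1, 1, [(0, [1], [2, 4]), (0, [1], [1, 3]), (0, [0], [0, 4])]),
  (-6, 1, 1, [(0, [1], [2, 4]), (0, [1], [1, 0]), (0, [0], [3, 4])]),
  (-18, 1, 1, [(0, [1], [3, 4]), (0, [1], [0, 2]), (0, [0], [1, 4])]),
  (-18, 1, 1, [(0, [1], [3, 4]), (0, [1], [0, 1]), (0, [0], [2, 4])]),
  (-12, 1, 1, [(0, [1], [3, 4]), (0, [1], [1, 2]), (0, [0], [0, 4])])]

def z4_2 : Cov := [(0, 1, 1, [(0, [1], [1, 4]), (0, [1], [0, 3]), (0, [0], [2, 4])]),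
  (0, 1, 1, [(0, [1], [2, 4]), (0, [1], [0, 3]), (0, [0], [1, 4])])]

def w4_2 : List (List Wit) := [[(0, 0, 0, 0, 0), (1, 0, 0, 0, 0), (2, 0, 0, 0, 0), (1, 0, 0, 0, 0), (2, 0, 0, 0, 0), (0, 0, 0, 0, 0), (10, 0, 0, 0, 0), (3, 0, 0, 0, 0), (4, 0, 0, 0, 0), (10, 0, 0, 0, 0), (11, 0, 0, 0, 0), (5, 0, 0, 0, 0), (6, 0, 0, 0, 0), (11, 0, 0, 0, 0), (7, 0, 0, 0, 0), (8, 0, 0, 0, 0), (9, 0, 0, 0, 0), (8, 0, 0, 0, 0), (9, 0, 0, 0, 0), (7, 0, 0, 0, 0)]]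

def m4_3 : Base := (0, 1, [(0, [0], [0, 4]), (1, [], [1, 4]), (1, [], [2, 3])])

def l4_3 : Cov := [(18, 0, 1, [(0, [0], [0, 4]), (1, [], [1, 4]), (1, [], [2, 3])]),
  (18, 0, 1, [(0, [0], [0, 4]), (1, [], [2, 4]), (1, [], [1, 3])]),
  (12, 0, 1, [(0, [0], [0, 4]), (1, [], [3, 4]), (1, [], [1, 2])]),
  (6, 0, 1, [(0, [0], [1, 4]), (1, [], [0, 4]), (1, [], [2, 3])]),
  (-6, 0, 1, [(0, [0], [1, 4]), (1, [], [3, 4]), (1, [], [2, 0])]),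
  (6, 0, 1, [(0, [0], [2, 4]), (1, [], [0, 4]), (1, [], [1, 3])]),
  (-6, 0, 1, [(0, [0], [2, 4]), (1, [], [3, 4]), (1, [], [1, 0])]),
  (-12, 0, 1, [(0, [0], [3, 4]), (1, [], [0, 4]), (1, [], [1, 2])]),
  (-18, 0, 1, [(0, [0], [3, 4]), (1, [], [1, 4]), (1, [], [0, 2])]),
  (-18, 0, 1, [(0, [0], [3, 4]), (1, [], [2, 4]), (1, [], [0, 1])])]

def z4_3 : Cov := [(0, 0, 1, [(0, [0], [1, 4]), (1, [], [2, 4]), (1, [], [0, 3])]),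
  (0, 0, 1, [(0, [0], [2, 4]), (1, [], [1, 4]), (1, [], [0, 3])])]

def w4_3 : List (List Wit) := [[(0, 0, 0, 0, 0), (0, 0, 0, 0, 0), (1, 0, 0, 0, 0), (1, 0, 0, 0, 0), (2, 0, 0, 0, 0), (2, 0, 0, 0, 0), (3, 0, 0, 0, 0), (10, 0, 0, 0, 0), (10, 0, 0, 0, 0), (4, 0, 0, 0, 0), (5, 0, 0, 0, 0), (11, 0, 0, 0, 0), (11, 0, 0, 0, 0), (6, 0, 0, 0, 0), (7, 0, 0, 0, 0), (7, 0, 0, 0, 0), (8, 0, 0, 0, 0), (8, 0, 0, 0, 0), (9, 0, 0, 0, 0), (9, 0, 0, 0, 0)]]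

def m4_4 : Base := (0, 1, [(0, [0], [0, 4]), (1, [], [1, 2]), (1, [], [3, 4])])

def l4_4 : Cov := [(24, 0, 1, [(0, [0], [0, 4]), (1, [], [1, 2]), (1, [], [3, 4])]),
  (12, 0, 1, [(0, [0], [0, 4]), (1, [], [1, 3]), (1, [], [2, 4])]),
  (12, 0, 1, [(0, [0], [0, 4]), (1, [], [2, 3]), (1, [], [1, 4])]),
  (12, 0, 1, [(0, [0], [1, 4]), (1, [], [0, 2]), (1, [], [3, 4])]),
  (-12, 0, 1, [(0, [0], [1, 4]), (1, [], [2, 3]), (1, [], [0, 4])]),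
  (12, 0, 1, [(0, [0], [2, 4]), (1, [], [0, 1]), (1, [], [3, 4])]),
  (-12, 0, 1, [(0, [0], [2, 4]), (1, [], [1, 3]), (1, [], [0, 4])]),
  (-12, 0, 1, [(0, [0], [3, 4]), (1, [], [0, 1]), (1, [], [2, 4])]),
  (-12, 0, 1, [(0, [0], [3, 4]), (1, [], [0, 2]), (1, [], [1, 4])]),
  (-24, 0, 1, [(0, [0], [3, 4]), (1, [], [1, 2]), (1, [], [0, 4])])]

def z4_4 : Cov := []

def w4_4 : List (List Wit) := [[(0, 0, 0, 0, 0), (1, 0, 0, 0, 0), (0, 0, 0, 0, 0), (2, 0, 0, 0, 0), (1, 0, 0, 0, 0), (2, 0, 0, 0, 0), (3, 0, 0, 0, 0), (3, 0, 0, 0, 0), (4, 0, 0, 0, 0), (4, 0, 0, 0, 0), (5, 0, 0, 0, 0), (5, 0, 0, 0, 0), (6, 0, 0, 0, 0), (6, 0, 0, 0, 0), (7, 0, 0, 0, 0), (8, 0, 0, 0, 0), (7, 0, 0, 0, 0), (9, 0, 0, 0, 0), (8, 0, 0, 0, 0), (9, 0, 0, 0, 0)]]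

def m4_5 : Base := (0, 1, [(0, [0], [0, 1]), (1, [], [2, 4]), (1, [], [3, 4])])

def l4_5 : Cov := [(24, 0, 1, [(0, [0], [0, 1]), (1, [], [2, 4]), (1, [], [3, 4])]),
  (24, 0, 1, [(0, [0], [0, 2]), (1, [], [1, 4]), (1, [], [3, 4])]),
  (-24, 0, 1, [(0, [0], [1, 3]), (1, [], [2, 4]), (1, [], [0, 4])]),
  (-24, 0, 1, [(0, [0], [2, 3]), (1, [], [1, 4]), (1, [], [0, 4])])]

def z4_5 : Cov := [(0, 0, 1, [(0, [0], [0, 3]), (1, [], [1, 4]), (1, [], [2, 4])]),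
  (0, 0, 1, [(0, [0], [1, 2]), (1, [], [0, 4]), (1, [], [3, 4])])]

def w4_5 : List (List Wit) := [[(0, 0, 0, 0, 0), (0, 0, 0, 0, 0), (1, 0, 0, 0, 0), (1, 0, 0, 0, 0), (4, 0, 0, 0, 0), (4, 0, 0, 0, 0), (0, 0, 0, 0, 0), (5, 0, 0, 0, 0), (5, 0, 0, 0, 0), (2, 0, 0, 0, 0), (1, 0, 0, 0, 0), (5, 0, 0, 0, 0), (5, 0, 0, 0, 0), (3, 0, 0, 0, 0), (4, 0, 0, 0, 0), (4, 0, 0, 0, 0), (2, 0, 0, 0, 0), (2, 0, 0, 0, 0), (3, 0, 0, 0, 0), (3, 0, 0, 0, 0)]]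

def m4_6 : Base := (0, 0, [(0, [0], [0, 1]), (1, [], [2, 3])])

def l4_6 : Cov := [(24, 0, 0, [(0, [0], [0, 1]), (1, [], [2, 3])]),
  (24, 0, 0, [(0, [0], [0, 2]), (1, [], [1, 3])]),
  (-24, 0, 0, [(0, [0], [1, 3]), (1, [], [2, 0])]),
  (-24, 0, 0, [(0, [0], [2, 3]), (1, [], [1, 0])])]

def z4_6 : Cov := [(0, 0, 0, [(0, [0], [0, 3]), (1, [], [1, 2])]),
  (0, 0, 0, [(0, [0], [1, 2]), (1, [], [0, 3])])]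

def w4_6 : List (List Wit) := [[(0, 0, 0, 0, 0), (0, 0, 0, 0, 0), (1, 0, 0, 0, 0), (1, 0, 0, 0, 0), (4, 0, 0, 0, 0), (4, 0, 0, 0, 0), (0, 0, 0, 0, 0), (5, 0, 0, 0, 0), (5, 0, 0, 0, 0), (2, 0, 0, 0, 0), (1, 0, 0, 0, 0), (5, 0, 0, 0, 0), (5, 0, 0, 0, 0), (3, 0, 0, 0, 0), (4, 0, 0, 0, 0), (4, 0, 0, 0, 0), (2, 0, 0, 0, 0), (2, 0, 0, 0, 0), (3, 0, 0, 0, 0), (3, 0, 0, 0, 0)]]

theorem tr4 : trK keys lk4 kl4 = true := by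
  decide +kernel

theorem x4_0 : expB 1 4 dg0 dg5 m4_0 (l4_0 ++ z4_0) w4_0 = true := by
  decide +kernel

theorem x4_1 : expB 1 4 dg0 dg5 m4_1 (l4_1 ++ z4_1) w4_1 = true := by
  decide +kernel

theorem x4_2 : expB 1 4 dg0 dg5 m4_2 (l4_2 ++ z4_2) w4_2 = true := by
  decide +kernel

theorem x4_3 : expB 1 4 dg0 dg5 m4_3 (l4_3 ++ z4_3) w4_3 = true := by
  decide +kernel

theorem x4_4 : expB 1 4 dg0 dg5 m4_4 (l4_4 ++ z4_4) w4_4 = true := by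
  decide +kernel

theorem x4_5 : expB 1 4 dg0 dg5 m4_5 (l4_5 ++ z4_5) w4_5 = true := by
  decide +kernel

theorem x4_6 : expB 1 4 dg0 dg5 m4_6 (l4_6 ++ z4_6) w4_6 = true := by
  decide +kernel

theorem t4_0_0 : chkS lk4 1 4 [(1, m4_0)] l4_0
  [(4, 528, 528, 4395090, 1392690), (21, 258, 33, 3163425, 2314500), (21, 513, 513, 4215585, 3481860), (15, 513, 513, 3167265, 3297540)]
  [(4, 24), (15, -24), (21, 0)] = true := by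
  decide +kernel

theorem t4_0_1 : chkS lk4 1 4 [(1, m4_0)] l4_1
  [(22, 258, 33, 3163425, 2314500), (22, 258, 33, 3167265, 3297540), (11, 33, 258, 344865, 4399365), (22, 258, 33, 5260065, 5447940), (11, 33, 258, 344850, 4399125), (15, 258, 33, 5256225, 5386500), (23, 513, 513, 3163425, 2314500), (15, 258, 33, 5260065, 5447940), (23, 258, 33, 4215585, 3481860), (23, 513, 513, 3167265, 3297540)]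
  [(22, 48), (23, -48)] = true := by
  decide +kernel

theorem t4_0_2 : chkS lk4 1 4 [(1, m4_0)] l4_2
  [(22, 258, 33, 3167265, 3297540), (22, 258, 33, 3163425, 2314500), (11, 33, 258, 344865, 4399365), (11, 33, 258, 344850, 4399125), (22, 258, 33, 5260065, 5447940), (23, 513, 513, 3163425, 2314500), (15, 258, 33, 5256225, 5386500), (23, 258, 33, 4215585, 3481860), (15, 258, 33, 5260065, 5447940), (23, 513, 513, 3167265, 3297540)]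
  [(11, 24), (15, -24), (22, 24), (23, -24)] = true := by
  decide +kernel

theorem t4_0_3 : chkS lk4 1 4 [(1, m4_0)] l4_3
  [(24, 1, 1, 3167265, 3297540), (25, 1, 1, 3163425, 2314500), (25, 1, 1, 3167265, 3297540), (24, 1, 1, 3167250, 3297300), (25, 1, 1, 3167250, 3297300), (41, 1, 1, 5325600, 5448000), (42, 1, 1, 5325600, 5448000), (41, 1, 1, 5321760, 5386560), (41, 1, 1, 4273440, 2437440), (42, 1, 1, 5321760, 5386560)]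
  [(24, 24), (25, 24), (41, -24), (42, -24)] = true := by
  decide +kernel

theorem t4_0_4 : chkS lk4 1 4 [(1, m4_0)] l4_4
  [(25, 1, 1, 3167265, 3297540), (25, 1, 1, 3163425, 2314500), (24, 1, 1, 3167265, 3297540), (25, 1, 1, 3167250, 3297300), (24, 1, 1, 3167250, 3297300), (42, 1, 1, 5325600, 5448000), (41, 1, 1, 5325600, 5448000), (42, 1, 1, 5321760, 5386560), (41, 1, 1, 4273440, 2437440), (41, 1, 1, 5321760, 5386560)]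
  [(25, 48), (41, -48), (42, 0)] = true := by
  decide +kernel

theorem t4_0_5 : chkS lk4 1 4 [(1, m4_0)] l4_5
  [(17, 1, 1, 5260065, 5447940), (27, 1, 1, 5260065, 5447940), (27, 1, 1, 5256210, 5386260), (3, 16, 16, 5378115, 5309490)]
  [(3, -24), (17, 24), (27, 0)] = true := by
  decide +kernel

theorem t4_0_6 : chkS lk4 1 4 [(1, m4_0)] l4_6
  [(16, 1, 1, 17185, 205060), (28, 1, 1, 17185, 205060), (28, 1, 1, 13330, 143380), (20, 16, 16, 135235, 66610)]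
  [(16, 24), (20, -24), (28, 0)] = true := by
  decide +kernel

theorem t4_1_1 : chkS lk4 1 4 [(1, m4_1)] l4_1
  [(11, 258, 33, 2184240, 3282240), (8, 258, 33, 5321760, 5386560), (8, 258, 33, 5321280, 5321280), (23, 528, 528, 2164035, 2164035), (10, 258, 33, 5321280, 5321280), (23, 528, 528, 2163795, 1180995), (10, 258, 33, 5321760, 5386560), (10, 18, 18, 1377060, 4202835), (10, 18, 18, 1376820, 4198995), (12, 288, 288, 2164035, 2164035)]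
  [(8, 24), (10, -48), (11, 24), (12, -24), (23, 24)] = true := by
  decide +kernel

theorem t4_1_2 : chkS lk4 1 4 [(1, m4_1)] l4_2
  [(8, 258, 33, 5321760, 5386560), (11, 258, 33, 2184240, 3282240), (8, 258, 33, 5321280, 5321280), (10, 258, 33, 5321280, 5321280), (23, 528, 528, 2164035, 2164035), (10, 258, 33, 5321760, 5386560), (23, 528, 528, 2163795, 1180995), (10, 18, 18, 1376820, 4198995), (10, 18, 18, 1377060, 4202835), (12, 288, 288, 2164035, 2164035)]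
  [(8, 36), (10, -24), (11, 12), (12, -12), (23, -12)] = true := by
  decide +kernel

theorem t4_1_3 : chkS lk4 1 4 [(1, m4_1)] l4_3
  [(32, 16, 16, 2163795, 1180995), (32, 16, 16, 2164035, 2164035), (31, 16, 16, 2164035, 2164035), (7, 1, 1, 3167265, 3297540), (9, 1, 1, 3167265, 3297540), (7, 1, 1, 3166785, 3232260), (9, 1, 1, 3166785, 3232260), (24, 16, 16, 2164035, 2164035), (25, 16, 16, 2164035, 2164035), (25, 16, 16, 2163795, 1180995)]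
  [(7, 12), (9, -12), (24, -12), (25, -36), (31, 12), (32, 36)] = true := by
  decide +kernel

theorem t4_1_4 : chkS lk4 1 4 [(1, m4_1)] l4_4
  [(31, 16, 16, 2164035, 2164035), (32, 16, 16, 2164035, 2164035), (32, 16, 16, 2163795, 1180995), (9, 1, 1, 3167265, 3297540), (7, 1, 1, 3167265, 3297540), (9, 1, 1, 3166785, 3232260), (7, 1, 1, 3166785, 3232260), (25, 16, 16, 2163795, 1180995), (25, 16, 16, 2164035, 2164035), (24, 16, 16, 2164035, 2164035)]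
  [(7, -24), (9, 24), (24, -24), (25, -24), (31, 24), (32, 24)] = true := by
  decide +kernel

theorem t4_1_5 : chkS lk4 1 4 [(1, m4_1)] l4_5
  [(33, 1, 1, 5259825, 5444100), (33, 1, 1, 5260065, 5447940), (26, 16, 16, 5309475, 5374275), (26, 16, 16, 5308995, 5308995)]
  [(26, -48), (33, 48)] = true := by
  decide +kernel

theorem t4_1_6 : chkS lk4 1 4 [(1, m4_1)] l4_6
  [(13, 1, 1, 82720, 205120), (13, 1, 1, 82480, 201280), (14, 1, 1, 17185, 205060), (14, 1, 1, 16945, 201220)]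
  [(13, 48), (14, -48)] = true := by
  decide +kernel

theorem t4_2_2 : chkS lk4 1 4 [(1, m4_2)] l4_2
  [(11, 258, 33, 2180400, 2299200), (8, 258, 33, 5325600, 5448000), (8, 258, 33, 5317440, 5317440), (10, 258, 33, 5317440, 5317440), (43, 513, 513, 5321760, 5386560), (12, 288, 288, 2183235, 3212610), (10, 18, 18, 1388580, 4206930), (43, 513, 513, 5317680, 5378880), (23, 528, 528, 2179155, 1246530), (10, 258, 33, 5325600, 5448000)]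
  [(8, 30), (10, -12), (11, 18), (12, 6), (23, -18), (43, -24)] = true := by
  decide +kernel

theorem t4_2_3 : chkS lk4 1 4 [(1, m4_2)] l4_3
  [(32, 16, 16, 2179155, 1246530), (31, 16, 16, 2183235, 3212610), (32, 16, 16, 2183235, 3212610), (7, 1, 1, 3163425, 2314500), (44, 1, 1, 5321760, 5386560), (24, 16, 16, 2183235, 3212610), (25, 16, 16, 2179155, 1246530), (7, 1, 1, 3155265, 2183940), (44, 1, 1, 5317680, 5378880), (9, 1, 1, 3155265, 2183940)]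
  [(7, -6), (9, -18), (24, 6), (25, -6), (31, 18), (32, 30), (44, -24)] = true := by
  decide +kernel

theorem t4_2_4 : chkS lk4 1 4 [(1, m4_2)] l4_4
  [(32, 16, 16, 2183235, 3212610), (31, 16, 16, 2183235, 3212610), (32, 16, 16, 2179155, 1246530), (44, 1, 1, 5321760, 5386560), (7, 1, 1, 3163425, 2314500), (25, 16, 16, 2179155, 1246530), (24, 16, 16, 2183235, 3212610), (9, 1, 1, 3155265, 2183940), (44, 1, 1, 5317680, 5378880), (7, 1, 1, 3155265, 2183940)]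
  [(7, -36), (9, -12), (24, -12), (25, 12), (31, 12), (32, 36), (44, 0)] = true := by
  decide +kernel

theorem t4_2_5 : chkS lk4 1 4 [(1, m4_2)] l4_5
  [(33, 1, 1, 5252145, 5378820), (17, 16, 16, 5324850, 5443650), (29, 1, 1, 5379075, 5375025), (26, 16, 16, 5316675, 5309250)]
  [(17, 24), (26, -24), (29, -24), (33, 24)] = true := by
  decide +kernel

theorem t4_2_6 : chkS lk4 1 4 [(1, m4_2)] l4_6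
  [(13, 1, 1, 78880, 143680), (16, 16, 16, 81970, 200770), (30, 1, 1, 136195, 132145), (14, 1, 1, 9265, 135940)]
  [(13, 24), (14, -24), (16, 24), (30, -24)] = true := by
  decide +kernel

theorem t4_3_3 : chkS lk4 1 4 [(1, m4_3)] l4_3
  [(5, 0, 0, 2184240, 3282240), (38, 0, 0, 4273440, 2437440), (38, 0, 0, 4281120, 3481920), (6, 0, 0, 2184240, 3282240), (36, 0, 0, 4215585, 3481860), (36, 0, 0, 2184240, 3282240), (19, 0, 0, 4281120, 3481920), (36, 0, 0, 2180400, 2299200), (35, 0, 0, 5325360, 5444160), (19, 0, 0, 4273440, 2437440)]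
  [(5, 18), (6, 6), (19, -24), (35, -18), (36, -12), (38, 30)] = true := by
  decide +kernel

theorem t4_3_4 : chkS lk4 1 4 [(1, m4_3)] l4_4
  [(38, 0, 0, 4281120, 3481920), (38, 0, 0, 4273440, 2437440), (5, 0, 0, 2184240, 3282240), (36, 0, 0, 4215585, 3481860), (6, 0, 0, 2184240, 3282240), (19, 0, 0, 4281120, 3481920), (36, 0, 0, 2184240, 3282240), (19, 0, 0, 4273440, 2437440), (35, 0, 0, 5325360, 5444160), (36, 0, 0, 2180400, 2299200)]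
  [(5, 12), (6, -12), (35, -12), (36, -24), (38, 36)] = true := by
  decide +kernel

theorem t4_3_5 : chkS lk4 1 4 [(1, m4_3)] l4_5
  [(45, 0, 0, 5325600, 5448000), (38, 0, 0, 3232800, 3297600), (36, 0, 0, 3163425, 2314500), (34, 0, 0, 2428980, 4199730)]
  [(34, -24), (36, -24), (38, 24), (45, 24)] = true := by
  decide +kernel

theorem t4_3_6 : chkS lk4 1 4 [(1, m4_3)] l4_6
  [(40, 0, 0, 82720, 205120), (39, 0, 0, 78880, 143680), (37, 0, 0, 17185, 205060), (18, 0, 0, 200770, 81970)]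
  [(18, -24), (37, -24), (39, 24), (40, 24)] = true := by
  decide +kernel

theorem t4_4_4 : chkS lk4 1 4 [(1, m4_4)] l4_4
  [(5, 0, 0, 2176320, 2176320), (38, 0, 0, 4269360, 2429760), (38, 0, 0, 4268880, 1385280), (35, 0, 0, 5321280, 5321280), (36, 0, 0, 2176320, 2176320), (35, 0, 0, 5321760, 5386560), (36, 0, 0, 2176080, 1193280), (36, 0, 0, 4203825, 2429700), (36, 0, 0, 4203345, 1385220), (6, 0, 0, 2176320, 2176320)]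
  [(5, 24), (6, -24), (35, 24), (36, -48), (38, 24)] = true := by
  decide +kernel

theorem t4_4_5 : chkS lk4 1 4 [(1, m4_4)] l4_5
  [(38, 0, 0, 3220800, 2184000), (38, 0, 0, 3220560, 1200960), (36, 0, 0, 3155265, 2183940), (36, 0, 0, 3155025, 1200900)]
  [(36, -48), (38, 48)] = true := by
  decide +kernel

theorem t4_4_6 : chkS lk4 1 4 [(1, m4_4)] l4_6
  [(39, 0, 0, 74560, 74560), (39, 0, 0, 74800, 136000), (37, 0, 0, 9025, 74500), (37, 0, 0, 9265, 135940)]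
  [(37, -48), (39, 48)] = true := by
  decide +kernel

theorem t4_5_5 : chkS lk4 1 4 [(1, m4_5)] l4_5
  [(46, 0, 0, 5456400, 5456400), (38, 0, 0, 2438160, 4338960), (38, 0, 0, 2441985, 4400385), (19, 0, 0, 2442000, 4400400)]
  [(19, -24), (46, 24)] = true := by
  decide +kernel

theorem t4_5_6 : chkS lk4 1 4 [(1, m4_5)] l4_6
  [(47, 0, 0, 213520, 213520), (39, 0, 0, 205840, 148240), (39, 0, 0, 213505, 213505), (18, 0, 0, 274960, 274960)]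
  [(18, -24), (47, 24)] = true := by
  decide +kernel

theorem t4_6_6 : chkS lk4 1 4 [(1, m4_6)] l4_6
  [(0, 0, 0, 12816, 12816), (1, 0, 0, 12816, 12816), (1, 0, 0, 8961, 8961), (2, 0, 0, 12816, 12816)]
  [(0, 24), (2, -24)] = true := by
  decide +kernel

section

variable {κ ι : Type*} [Fintype κ] [Fintype ι] [Inhabited κ] [Inhabited ι]

noncomputable def F4_0 (E : Env κ ι) : (Fin 1 → κ) → (Fin 4 → ι) → ℝ := op2 (P0 κ) (P5 ι) (fB E 1 4 m4_0)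

noncomputable def F4_1 (E : Env κ ι) : (Fin 1 → κ) → (Fin 4 → ι) → ℝ := op2 (P0 κ) (P5 ι) (fB E 1 4 m4_1)

noncomputable def F4_2 (E : Env κ ι) : (Fin 1 → κ) → (Fin 4 → ι) → ℝ := op2 (P0 κ) (P5 ι) (fB E 1 4 m4_2)

noncomputable def F4_3 (E : Env κ ι) : (Fin 1 → κ) → (Fin 4 → ι) → ℝ := op2 (P0 κ) (P5 ι) (fB E 1 4 m4_3)

noncomputable def F4_4 (E : Env κ ι) : (Fin 1 → κ) → (Fin 4 → ι) → ℝ := op2 (P0 κ) (P5 ι) (fB E 1 4 m4_4)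

noncomputable def F4_5 (E : Env κ ι) : (Fin 1 → κ) → (Fin 4 → ι) → ℝ := op2 (P0 κ) (P5 ι) (fB E 1 4 m4_5)

noncomputable def F4_6 (E : Env κ ι) : (Fin 1 → κ) → (Fin 4 → ι) → ℝ := op2 (P0 κ) (P5 ι) (fB E 1 4 m4_6)

def r4_0_0 : List (ℕ × ℤ) := [(4, 24), (15, -24), (21, 0)]

theorem h4_0_0 (E : Env κ ι) : ip (F4_0 E) (F4_0 E) = dotS (ek E lk4) r4_0_0 :=
  op_entryZ E lk4 1 4 _ _ _ _ (pg0 κ) (pg5 ι) m4_0 m4_0 l4_0 z4_0 w4_0 x4_0 (by decide) _ (chkS_sound E lk4 1 4 _ _ _ _ t4_0_0)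

def r4_0_1 : List (ℕ × ℤ) := [(22, 48), (23, -48)]

theorem h4_0_1 (E : Env κ ι) : ip (F4_0 E) (F4_1 E) = dotS (ek E lk4) r4_0_1 :=
  op_entryZ E lk4 1 4 _ _ _ _ (pg0 κ) (pg5 ι) m4_0 m4_1 l4_1 z4_1 w4_1 x4_1 (by decide) _ (chkS_sound E lk4 1 4 _ _ _ _ t4_0_1)

def r4_0_2 : List (ℕ × ℤ) := [(11, 24), (15, -24), (22, 24), (23, -24)]

theorem h4_0_2 (E : Env κ ι) : ip (F4_0 E) (F4_2 E) = dotS (ek E lk4) r4_0_2 :=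
  op_entryZ E lk4 1 4 _ _ _ _ (pg0 κ) (pg5 ι) m4_0 m4_2 l4_2 z4_2 w4_2 x4_2 (by decide) _ (chkS_sound E lk4 1 4 _ _ _ _ t4_0_2)

def r4_0_3 : List (ℕ × ℤ) := [(24, 24), (25, 24), (41, -24), (42, -24)]

theorem h4_0_3 (E : Env κ ι) : ip (F4_0 E) (F4_3 E) = dotS (ek E lk4) r4_0_3 :=
  op_entryZ E lk4 1 4 _ _ _ _ (pg0 κ) (pg5 ι) m4_0 m4_3 l4_3 z4_3 w4_3 x4_3 (by decide) _ (chkS_sound E lk4 1 4 _ _ _ _ t4_0_3)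

def r4_0_4 : List (ℕ × ℤ) := [(25, 48), (41, -48), (42, 0)]

theorem h4_0_4 (E : Env κ ι) : ip (F4_0 E) (F4_4 E) = dotS (ek E lk4) r4_0_4 :=
  op_entryZ E lk4 1 4 _ _ _ _ (pg0 κ) (pg5 ι) m4_0 m4_4 l4_4 z4_4 w4_4 x4_4 (by decide) _ (chkS_sound E lk4 1 4 _ _ _ _ t4_0_4)

def r4_0_5 : List (ℕ × ℤ) := [(3, -24), (17, 24), (27, 0)]

theorem h4_0_5 (E : Env κ ι) : ip (F4_0 E) (F4_5 E) = dotS (ek E lk4) r4_0_5 :=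
  op_entryZ E lk4 1 4 _ _ _ _ (pg0 κ) (pg5 ι) m4_0 m4_5 l4_5 z4_5 w4_5 x4_5 (by decide) _ (chkS_sound E lk4 1 4 _ _ _ _ t4_0_5)

def r4_0_6 : List (ℕ × ℤ) := [(16, 24), (20, -24), (28, 0)]

theorem h4_0_6 (E : Env κ ι) : ip (F4_0 E) (F4_6 E) = dotS (ek E lk4) r4_0_6 :=
  op_entryZ E lk4 1 4 _ _ _ _ (pg0 κ) (pg5 ι) m4_0 m4_6 l4_6 z4_6 w4_6 x4_6 (by decide) _ (chkS_sound E lk4 1 4 _ _ _ _ t4_0_6)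

def r4_1_1 : List (ℕ × ℤ) := [(8, 24), (10, -48), (11, 24), (12, -24), (23, 24)]

theorem h4_1_1 (E : Env κ ι) : ip (F4_1 E) (F4_1 E) = dotS (ek E lk4) r4_1_1 :=
  op_entryZ E lk4 1 4 _ _ _ _ (pg0 κ) (pg5 ι) m4_1 m4_1 l4_1 z4_1 w4_1 x4_1 (by decide) _ (chkS_sound E lk4 1 4 _ _ _ _ t4_1_1)

def r4_1_2 : List (ℕ × ℤ) := [(8, 36), (10, -24), (11, 12), (12, -12), (23, -12)]

theorem h4_1_2 (E : Env κ ι) : ip (F4_1 E) (F4_2 E) = dotS (ek E lk4) r4_1_2 :=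
  op_entryZ E lk4 1 4 _ _ _ _ (pg0 κ) (pg5 ι) m4_1 m4_2 l4_2 z4_2 w4_2 x4_2 (by decide) _ (chkS_sound E lk4 1 4 _ _ _ _ t4_1_2)

def r4_1_3 : List (ℕ × ℤ) := [(7, 12), (9, -12), (24, -12), (25, -36), (31, 12), (32, 36)]

theorem h4_1_3 (E : Env κ ι) : ip (F4_1 E) (F4_3 E) = dotS (ek E lk4) r4_1_3 :=
  op_entryZ E lk4 1 4 _ _ _ _ (pg0 κ) (pg5 ι) m4_1 m4_3 l4_3 z4_3 w4_3 x4_3 (by decide) _ (chkS_sound E lk4 1 4 _ _ _ _ t4_1_3)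

def r4_1_4 : List (ℕ × ℤ) := [(7, -24), (9, 24), (24, -24), (25, -24), (31, 24), (32, 24)]

theorem h4_1_4 (E : Env κ ι) : ip (F4_1 E) (F4_4 E) = dotS (ek E lk4) r4_1_4 :=
  op_entryZ E lk4 1 4 _ _ _ _ (pg0 κ) (pg5 ι) m4_1 m4_4 l4_4 z4_4 w4_4 x4_4 (by decide) _ (chkS_sound E lk4 1 4 _ _ _ _ t4_1_4)

def r4_1_5 : List (ℕ × ℤ) := [(26, -48), (33, 48)]

theorem h4_1_5 (E : Env κ ι) : ip (F4_1 E) (F4_5 E) = dotS (ek E lk4) r4_1_5 :=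
  op_entryZ E lk4 1 4 _ _ _ _ (pg0 κ) (pg5 ι) m4_1 m4_5 l4_5 z4_5 w4_5 x4_5 (by decide) _ (chkS_sound E lk4 1 4 _ _ _ _ t4_1_5)

def r4_1_6 : List (ℕ × ℤ) := [(13, 48), (14, -48)]

theorem h4_1_6 (E : Env κ ι) : ip (F4_1 E) (F4_6 E) = dotS (ek E lk4) r4_1_6 :=
  op_entryZ E lk4 1 4 _ _ _ _ (pg0 κ) (pg5 ι) m4_1 m4_6 l4_6 z4_6 w4_6 x4_6 (by decide) _ (chkS_sound E lk4 1 4 _ _ _ _ t4_1_6)

def r4_2_2 : List (ℕ × ℤ) := [(8, 30), (10, -12), (11, 18), (12, 6), (23, -18), (43, -24)]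

theorem h4_2_2 (E : Env κ ι) : ip (F4_2 E) (F4_2 E) = dotS (ek E lk4) r4_2_2 :=
  op_entryZ E lk4 1 4 _ _ _ _ (pg0 κ) (pg5 ι) m4_2 m4_2 l4_2 z4_2 w4_2 x4_2 (by decide) _ (chkS_sound E lk4 1 4 _ _ _ _ t4_2_2)

def r4_2_3 : List (ℕ × ℤ) := [(7, -6), (9, -18), (24, 6), (25, -6), (31, 18), (32, 30), (44, -24)]

theorem h4_2_3 (E : Env κ ι) : ip (F4_2 E) (F4_3 E) = dotS (ek E lk4) r4_2_3 :=
  op_entryZ E lk4 1 4 _ _ _ _ (pg0 κ) (pg5 ι) m4_2 m4_3 l4_3 z4_3 w4_3 x4_3 (by decide) _ (chkS_sound E lk4 1 4 _ _ _ _ t4_2_3)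

def r4_2_4 : List (ℕ × ℤ) := [(7, -36), (9, -12), (24, -12), (25, 12), (31, 12), (32, 36), (44, 0)]

theorem h4_2_4 (E : Env κ ι) : ip (F4_2 E) (F4_4 E) = dotS (ek E lk4) r4_2_4 :=
  op_entryZ E lk4 1 4 _ _ _ _ (pg0 κ) (pg5 ι) m4_2 m4_4 l4_4 z4_4 w4_4 x4_4 (by decide) _ (chkS_sound E lk4 1 4 _ _ _ _ t4_2_4)

def r4_2_5 : List (ℕ × ℤ) := [(17, 24), (26, -24), (29, -24), (33, 24)]

theorem h4_2_5 (E : Env κ ι) : ip (F4_2 E) (F4_5 E) = dotS (ek E lk4) r4_2_5 :=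
  op_entryZ E lk4 1 4 _ _ _ _ (pg0 κ) (pg5 ι) m4_2 m4_5 l4_5 z4_5 w4_5 x4_5 (by decide) _ (chkS_sound E lk4 1 4 _ _ _ _ t4_2_5)

def r4_2_6 : List (ℕ × ℤ) := [(13, 24), (14, -24), (16, 24), (30, -24)]

theorem h4_2_6 (E : Env κ ι) : ip (F4_2 E) (F4_6 E) = dotS (ek E lk4) r4_2_6 :=
  op_entryZ E lk4 1 4 _ _ _ _ (pg0 κ) (pg5 ι) m4_2 m4_6 l4_6 z4_6 w4_6 x4_6 (by decide) _ (chkS_sound E lk4 1 4 _ _ _ _ t4_2_6)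

def r4_3_3 : List (ℕ × ℤ) := [(5, 18), (6, 6), (19, -24), (35, -18), (36, -12), (38, 30)]

theorem h4_3_3 (E : Env κ ι) : ip (F4_3 E) (F4_3 E) = dotS (ek E lk4) r4_3_3 :=
  op_entryZ E lk4 1 4 _ _ _ _ (pg0 κ) (pg5 ι) m4_3 m4_3 l4_3 z4_3 w4_3 x4_3 (by decide) _ (chkS_sound E lk4 1 4 _ _ _ _ t4_3_3)

def r4_3_4 : List (ℕ × ℤ) := [(5, 12), (6, -12), (35, -12), (36, -24), (38, 36)]

theorem h4_3_4 (E : Env κ ι) : ip (F4_3 E) (F4_4 E) = dotS (ek E lk4) r4_3_4 :=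
  op_entryZ E lk4 1 4 _ _ _ _ (pg0 κ) (pg5 ι) m4_3 m4_4 l4_4 z4_4 w4_4 x4_4 (by decide) _ (chkS_sound E lk4 1 4 _ _ _ _ t4_3_4)

def r4_3_5 : List (ℕ × ℤ) := [(34, -24), (36, -24), (38, 24), (45, 24)]

theorem h4_3_5 (E : Env κ ι) : ip (F4_3 E) (F4_5 E) = dotS (ek E lk4) r4_3_5 :=
  op_entryZ E lk4 1 4 _ _ _ _ (pg0 κ) (pg5 ι) m4_3 m4_5 l4_5 z4_5 w4_5 x4_5 (by decide) _ (chkS_sound E lk4 1 4 _ _ _ _ t4_3_5)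

def r4_3_6 : List (ℕ × ℤ) := [(18, -24), (37, -24), (39, 24), (40, 24)]

theorem h4_3_6 (E : Env κ ι) : ip (F4_3 E) (F4_6 E) = dotS (ek E lk4) r4_3_6 :=
  op_entryZ E lk4 1 4 _ _ _ _ (pg0 κ) (pg5 ι) m4_3 m4_6 l4_6 z4_6 w4_6 x4_6 (by decide) _ (chkS_sound E lk4 1 4 _ _ _ _ t4_3_6)

def r4_4_4 : List (ℕ × ℤ) := [(5, 24), (6, -24), (35, 24), (36, -48), (38, 24)]

theorem h4_4_4 (E : Env κ ι) : ip (F4_4 E) (F4_4 E) = dotS (ek E lk4) r4_4_4 :=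
  op_entryZ E lk4 1 4 _ _ _ _ (pg0 κ) (pg5 ι) m4_4 m4_4 l4_4 z4_4 w4_4 x4_4 (by decide) _ (chkS_sound E lk4 1 4 _ _ _ _ t4_4_4)

def r4_4_5 : List (ℕ × ℤ) := [(36, -48), (38, 48)]

theorem h4_4_5 (E : Env κ ι) : ip (F4_4 E) (F4_5 E) = dotS (ek E lk4) r4_4_5 :=
  op_entryZ E lk4 1 4 _ _ _ _ (pg0 κ) (pg5 ι) m4_4 m4_5 l4_5 z4_5 w4_5 x4_5 (by decide) _ (chkS_sound E lk4 1 4 _ _ _ _ t4_4_5)

def r4_4_6 : List (ℕ × ℤ) := [(37, -48), (39, 48)]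

theorem h4_4_6 (E : Env κ ι) : ip (F4_4 E) (F4_6 E) = dotS (ek E lk4) r4_4_6 :=
  op_entryZ E lk4 1 4 _ _ _ _ (pg0 κ) (pg5 ι) m4_4 m4_6 l4_6 z4_6 w4_6 x4_6 (by decide) _ (chkS_sound E lk4 1 4 _ _ _ _ t4_4_6)

def r4_5_5 : List (ℕ × ℤ) := [(19, -24), (46, 24)]

theorem h4_5_5 (E : Env κ ι) : ip (F4_5 E) (F4_5 E) = dotS (ek E lk4) r4_5_5 :=
  op_entryZ E lk4 1 4 _ _ _ _ (pg0 κ) (pg5 ι) m4_5 m4_5 l4_5 z4_5 w4_5 x4_5 (by decide) _ (chkS_sound E lk4 1 4 _ _ _ _ t4_5_5)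

def r4_5_6 : List (ℕ × ℤ) := [(18, -24), (47, 24)]

theorem h4_5_6 (E : Env κ ι) : ip (F4_5 E) (F4_6 E) = dotS (ek E lk4) r4_5_6 :=
  op_entryZ E lk4 1 4 _ _ _ _ (pg0 κ) (pg5 ι) m4_5 m4_6 l4_6 z4_6 w4_6 x4_6 (by decide) _ (chkS_sound E lk4 1 4 _ _ _ _ t4_5_6)

def r4_6_6 : List (ℕ × ℤ) := [(0, 24), (2, -24)]

theorem h4_6_6 (E : Env κ ι) : ip (F4_6 E) (F4_6 E) = dotS (ek E lk4) r4_6_6 :=
  op_entryZ E lk4 1 4 _ _ _ _ (pg0 κ) (pg5 ι) m4_6 m4_6 l4_6 z4_6 w4_6 x4_6 (by decide) _ (chkS_sound E lk4 1 4 _ _ _ _ t4_6_6)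

theorem row4_0 (E : Env κ ι) : RowG (ek E lk4) (F4_0 E) [F4_0 E, F4_1 E, F4_2 E, F4_3 E, F4_4 E, F4_5 E, F4_6 E] [r4_0_0, r4_0_1, r4_0_2, r4_0_3, r4_0_4, r4_0_5, r4_0_6] :=
  rowG_cons _ _ _ _ _ _ (h4_0_0 E) (rowG_cons _ _ _ _ _ _ (h4_0_1 E) (rowG_cons _ _ _ _ _ _ (h4_0_2 E) (rowG_cons _ _ _ _ _ _ (h4_0_3 E) (rowG_cons _ _ _ _ _ _ (h4_0_4 E) (rowG_cons _ _ _ _ _ _ (h4_0_5 E) (rowG_cons _ _ _ _ _ _ (h4_0_6 E) (rowG_nil _ _)))))))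

theorem row4_1 (E : Env κ ι) : RowG (ek E lk4) (F4_1 E) [F4_1 E, F4_2 E, F4_3 E, F4_4 E, F4_5 E, F4_6 E] [r4_1_1, r4_1_2, r4_1_3, r4_1_4, r4_1_5, r4_1_6] :=
  rowG_cons _ _ _ _ _ _ (h4_1_1 E) (rowG_cons _ _ _ _ _ _ (h4_1_2 E) (rowG_cons _ _ _ _ _ _ (h4_1_3 E) (rowG_cons _ _ _ _ _ _ (h4_1_4 E) (rowG_cons _ _ _ _ _ _ (h4_1_5 E) (rowG_cons _ _ _ _ _ _ (h4_1_6 E) (rowG_nil _ _))))))

theorem row4_2 (E : Env κ ι) : RowG (ek E lk4) (F4_2 E) [F4_2 E, F4_3 E, F4_4 E, F4_5 E, F4_6 E] [r4_2_2, r4_2_3, r4_2_4, r4_2_5, r4_2_6] :=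
  rowG_cons _ _ _ _ _ _ (h4_2_2 E) (rowG_cons _ _ _ _ _ _ (h4_2_3 E) (rowG_cons _ _ _ _ _ _ (h4_2_4 E) (rowG_cons _ _ _ _ _ _ (h4_2_5 E) (rowG_cons _ _ _ _ _ _ (h4_2_6 E) (rowG_nil _ _)))))

theorem row4_3 (E : Env κ ι) : RowG (ek E lk4) (F4_3 E) [F4_3 E, F4_4 E, F4_5 E, F4_6 E] [r4_3_3, r4_3_4, r4_3_5, r4_3_6] :=
  rowG_cons _ _ _ _ _ _ (h4_3_3 E) (rowG_cons _ _ _ _ _ _ (h4_3_4 E) (rowG_cons _ _ _ _ _ _ (h4_3_5 E) (rowG_cons _ _ _ _ _ _ (h4_3_6 E) (rowG_nil _ _))))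

theorem row4_4 (E : Env κ ι) : RowG (ek E lk4) (F4_4 E) [F4_4 E, F4_5 E, F4_6 E] [r4_4_4, r4_4_5, r4_4_6] :=
  rowG_cons _ _ _ _ _ _ (h4_4_4 E) (rowG_cons _ _ _ _ _ _ (h4_4_5 E) (rowG_cons _ _ _ _ _ _ (h4_4_6 E) (rowG_nil _ _)))

theorem row4_5 (E : Env κ ι) : RowG (ek E lk4) (F4_5 E) [F4_5 E, F4_6 E] [r4_5_5, r4_5_6] :=
  rowG_cons _ _ _ _ _ _ (h4_5_5 E) (rowG_cons _ _ _ _ _ _ (h4_5_6 E) (rowG_nil _ _))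

theorem row4_6 (E : Env κ ι) : RowG (ek E lk4) (F4_6 E) [F4_6 E] [r4_6_6] :=
  rowG_cons _ _ _ _ _ _ (h4_6_6 E) (rowG_nil _ _)

def tab4 : List (List (List (ℕ × ℤ))) := [[r4_0_0, r4_0_1, r4_0_2, r4_0_3, r4_0_4, r4_0_5, r4_0_6], [r4_1_1, r4_1_2, r4_1_3, r4_1_4, r4_1_5, r4_1_6], [r4_2_2, r4_2_3, r4_2_4, r4_2_5, r4_2_6], [r4_3_3, r4_3_4, r4_3_5, r4_3_6], [r4_4_4, r4_4_5, r4_4_6], [r4_5_5, r4_5_6], [r4_6_6]]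

theorem tri4 (E : Env κ ι) : TriG (ek E lk4) [F4_0 E, F4_1 E, F4_2 E, F4_3 E, F4_4 E, F4_5 E, F4_6 E] tab4 := by
  refine triG_cons _ _ _ _ _ (row4_0 E) ?_
  refine triG_cons _ _ _ _ _ (row4_1 E) ?_
  refine triG_cons _ _ _ _ _ (row4_2 E) ?_
  refine triG_cons _ _ _ _ _ (row4_3 E) ?_
  refine triG_cons _ _ _ _ _ (row4_4 E) ?_
  refine triG_cons _ _ _ _ _ (row4_5 E) ?_
  refine triG_cons _ _ _ _ _ (row4_6 E) ?_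
  exact triG_nil _

end

def lk5 : List Key := [
  (1, 4, [(0, [0], [0, 1]), (0, [0], [0, 1]), (1, [], [2, 3]), (1, [], [2, 3])]),
  (1, 4, [(0, [0], [0, 1]), (0, [0], [0, 2]), (1, [], [2, 3]), (1, [], [1, 3])]),
  (1, 4, [(0, [0], [0, 1]), (0, [0], [2, 3]), (1, [], [2, 3]), (1, [], [0, 1])]),
  (2, 6, [(0, [0], [0, 1]), (0, [0], [0, 1]), (0, [1], [2, 3]), (0, [1], [2, 4]), (1, [], [4, 5]), (1, [], [3, 5])]),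
  (3, 6, [(0, [0], [0, 1]), (0, [0], [0, 1]), (0, [1], [2, 3]), (0, [2], [4, 5]), (0, [2], [2, 4]), (0, [1], [3, 5])]),
  (1, 6, [(0, [0], [0, 1]), (0, [0], [0, 2]), (1, [], [2, 3]), (1, [], [1, 3]), (1, [], [4, 5]), (1, [], [4, 5])]),
  (1, 6, [(0, [0], [0, 1]), (0, [0], [2, 3]), (1, [], [0, 2]), (1, [], [1, 3]), (1, [], [4, 5]), (1, [], [4, 5])]),
  (2, 6, [(0, [0], [0, 1]), (0, [1], [2, 3]), (0, [0], [2, 4]), (0, [1], [0, 5]), (1, [], [4, 5]), (1, [], [1, 3])]),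
  (3, 6, [(0, [0], [0, 1]), (0, [1], [2, 3]), (0, [2], [4, 5]), (0, [0], [2, 4]), (0, [1], [0, 5]), (0, [2], [1, 3])]),
  (2, 6, [(0, [0], [0, 1]), (0, [1], [2, 3]), (0, [0], [2, 4]), (0, [1], [0, 5]), (1, [], [3, 5]), (1, [], [1, 4])]),
  (3, 6, [(0, [0], [0, 1]), (0, [1], [2, 3]), (0, [1], [4, 5]), (0, [0], [2, 4]), (0, [2], [0, 5]), (0, [2], [1, 3])]),
  (3, 6, [(0, [0], [0, 1]), (0, [1], [0, 2]), (0, [1], [3, 4]), (0, [0], [3, 4]), (0, [2], [2, 5]), (0, [2], [1, 5])]),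
  (3, 6, [(0, [0], [0, 1]), (0, [0], [2, 3]), (0, [1], [0, 2]), (0, [2], [1, 3]), (0, [2], [4, 5]), (0, [1], [4, 5])]),
  (2, 5, [(0, [0], [0, 1]), (0, [1], [0, 2]), (0, [0], [2, 3]), (0, [1], [1, 4]), (1, [], [3, 4])]),
  (2, 5, [(0, [0], [0, 1]), (0, [0], [2, 3]), (0, [1], [2, 4]), (0, [1], [0, 4]), (1, [], [1, 3])]),
  (3, 6, [(0, [0], [0, 1]), (0, [0], [0, 2]), (0, [1], [1, 2]), (0, [2], [3, 4]), (0, [2], [3, 5]), (0, [1], [4, 5])]),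
  (2, 5, [(0, [0], [0, 1]), (0, [0], [0, 2]), (0, [1], [1, 2]), (0, [1], [3, 4]), (1, [], [3, 4])]),
  (2, 6, [(0, [0], [0, 1]), (0, [0], [0, 2]), (0, [1], [1, 2]), (0, [1], [3, 4]), (1, [], [3, 5]), (1, [], [4, 5])]),
  (1, 5, [(0, [0], [0, 1]), (1, [], [0, 1]), (0, [0], [2, 3]), (1, [], [2, 4]), (1, [], [3, 4])]),
  (1, 6, [(0, [0], [0, 1]), (1, [], [0, 2]), (1, [], [1, 2]), (0, [0], [3, 4]), (1, [], [3, 5]), (1, [], [4, 5])]),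
  (2, 5, [(0, [0], [0, 1]), (0, [0], [0, 1]), (0, [1], [2, 3]), (0, [1], [2, 4]), (1, [], [3, 4])]),
  (3, 6, [(0, [0], [0, 1]), (0, [0], [2, 0]), (0, [1], [3, 1]), (0, [2], [4, 5]), (0, [2], [2, 4]), (0, [1], [3, 5])]),
  (3, 6, [(0, [0], [0, 1]), (0, [0], [2, 0]), (0, [1], [3, 1]), (0, [2], [4, 5]), (0, [2], [3, 4]), (0, [1], [2, 5])]),
  (3, 6, [(0, [0], [0, 1]), (0, [0], [2, 0]), (0, [1], [3, 1]), (0, [2], [2, 4]), (0, [2], [3, 5]), (0, [1], [4, 5])]),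
  (2, 6, [(0, [0], [0, 1]), (0, [0], [2, 0]), (0, [1], [3, 1]), (0, [1], [4, 5]), (1, [], [4, 5]), (1, [], [2, 3])]),
  (2, 6, [(0, [0], [0, 1]), (0, [0], [2, 0]), (0, [1], [3, 1]), (0, [1], [4, 5]), (1, [], [2, 4]), (1, [], [3, 5])]),
  (2, 6, [(0, [0], [0, 1]), (0, [0], [2, 0]), (0, [1], [3, 1]), (0, [1], [2, 4]), (1, [], [4, 5]), (1, [], [3, 5])]),
  (2, 6, [(0, [0], [0, 1]), (0, [0], [2, 0]), (0, [1], [3, 1]), (0, [1], [3, 4]), (1, [], [4, 5]), (1, [], [2, 5])]),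
  (2, 5, [(0, [0], [0, 1]), (0, [0], [2, 0]), (0, [1], [3, 1]), (0, [1], [3, 4]), (1, [], [2, 4])]),
  (2, 6, [(0, [0], [0, 1]), (0, [0], [2, 3]), (0, [1], [0, 1]), (0, [1], [2, 4]), (1, [], [4, 5]), (1, [], [3, 5])]),
  (2, 5, [(0, [0], [0, 1]), (0, [0], [2, 3]), (0, [1], [0, 1]), (0, [1], [2, 4]), (1, [], [3, 4])]),
  (2, 6, [(0, [0], [0, 1]), (0, [0], [2, 3]), (0, [1], [1, 3]), (0, [1], [4, 5]), (1, [], [4, 5]), (1, [], [0, 2])]),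
  (2, 6, [(0, [0], [0, 1]), (0, [0], [2, 3]), (0, [1], [1, 3]), (0, [1], [4, 5]), (1, [], [0, 4]), (1, [], [2, 5])]),
  (2, 6, [(0, [0], [0, 1]), (0, [0], [2, 3]), (0, [1], [1, 3]), (0, [1], [0, 4]), (1, [], [4, 5]), (1, [], [2, 5])]),
  (1, 6, [(0, [0], [0, 1]), (1, [], [0, 1]), (1, [], [2, 3]), (0, [0], [4, 5]), (1, [], [2, 4]), (1, [], [3, 5])]),
  (1, 6, [(0, [0], [0, 1]), (1, [], [2, 0]), (1, [], [3, 1]), (0, [0], [4, 5]), (1, [], [2, 4]), (1, [], [3, 5])]),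
  (1, 6, [(0, [0], [0, 1]), (1, [], [2, 0]), (1, [], [3, 1]), (0, [0], [2, 4]), (1, [], [4, 5]), (1, [], [3, 5])]),
  (1, 5, [(0, [0], [0, 1]), (1, [], [2, 0]), (1, [], [3, 1]), (0, [0], [2, 4]), (1, [], [3, 4])]),
  (1, 6, [(0, [0], [0, 1]), (1, [], [1, 2]), (1, [], [3, 2]), (0, [0], [0, 4]), (1, [], [4, 5]), (1, [], [3, 5])]),
  (1, 5, [(0, [0], [0, 1]), (1, [], [1, 2]), (1, [], [3, 2]), (0, [0], [0, 4]), (1, [], [3, 4])]),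
  (1, 5, [(0, [0], [0, 1]), (1, [], [2, 1]), (0, [0], [0, 2]), (1, [], [3, 4]), (1, [], [3, 4])]),
  (2, 6, [(0, [0], [0, 1]), (0, [0], [2, 1]), (0, [1], [3, 4]), (0, [1], [3, 5]), (1, [], [0, 5]), (1, [], [2, 4])]),
  (2, 6, [(0, [0], [0, 1]), (0, [0], [2, 1]), (0, [1], [3, 4]), (0, [1], [3, 5]), (1, [], [4, 5]), (1, [], [0, 2])]),
  (3, 6, [(0, [0], [0, 1]), (0, [0], [2, 3]), (0, [1], [4, 1]), (0, [2], [2, 5]), (0, [2], [0, 4]), (0, [1], [3, 5])]),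
  (2, 6, [(0, [0], [0, 1]), (0, [0], [2, 3]), (0, [1], [4, 1]), (0, [1], [2, 5]), (1, [], [3, 5]), (1, [], [0, 4])]),
  (1, 6, [(0, [0], [0, 1]), (1, [], [2, 1]), (1, [], [3, 4]), (0, [0], [0, 2]), (1, [], [3, 5]), (1, [], [4, 5])]),
  (1, 6, [(0, [0], [0, 1]), (1, [], [2, 3]), (1, [], [4, 3]), (0, [0], [0, 1]), (1, [], [2, 5]), (1, [], [4, 5])]),
  (1, 5, [(0, [0], [0, 1]), (1, [], [2, 3]), (1, [], [4, 3]), (0, [0], [0, 1]), (1, [], [2, 4])])]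

def kl5 : List ℕ := [1, 3, 7, 10, 12, 17, 18, 21, 22, 23, 24, 25, 26, 28, 29, 31, 32, 33, 34, 35, 36, 37, 38, 39, 40, 41, 42, 43, 44, 48, 49, 50, 51, 52, 54, 55, 56, 57, 58, 59, 61, 62, 63, 64, 65, 66, 67, 68]

def m5_0 : Base := (1, 1, [(0, [1], [0, 4]), (0, [1], [1, 4]), (0, [0], [2, 3])])

def l5_0 : Cov := [(48, 1, 1, [(0, [1], [0, 4]), (0, [1], [1, 4]), (0, [0], [2, 3])]),
  (-48, 1, 1, [(0, [1], [0, 4]), (0, [1], [3, 4]), (0, [0], [1, 2])]),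
  (-48, 1, 1, [(0, [1], [1, 4]), (0, [1], [2, 4]), (0, [0], [0, 3])]),
  (48, 1, 1, [(0, [1], [2, 4]), (0, [1], [3, 4]), (0, [0], [0, 1])])]

def z5_0 : Cov := [(0, 1, 1, [(0, [1], [0, 4]), (0, [1], [2, 4]), (0, [0], [1, 3])]),
  (0, 1, 1, [(0, [1], [1, 4]), (0, [1], [3, 4]), (0, [0], [0, 2])])]

def w5_0 : List (List Wit) := [[(0, 0, 0, 0, 0), (0, 0, 0, 0, 0), (4, 0, 0, 0, 0), (4, 0, 0, 0, 0), (1, 0, 0, 0, 0), (1, 0, 0, 0, 0), (0, 0, 0, 0, 0), (0, 0, 0, 0, 0), (2, 0, 0, 0, 0), (2, 0, 0, 0, 0), (5, 0, 0, 0, 0), (5, 0, 0, 0, 0), (4, 0, 0, 0, 0), (4, 0, 0, 0, 0), (2, 0, 0, 0, 0), (2, 0, 0, 0, 0), (3, 0, 0, 0, 0), (3, 0, 0, 0, 0), (1, 0, 0, 0, 0), (1, 0, 0, 0, 0), (5, 0, 0, 0, 0), (5, 0, 0, 0, 0), (3, 0, 0, 0, 0), (3, 0, 0, 0, 0)]]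

def m5_1 : Base := (1, 1, [(0, [1], [0, 4]), (0, [1], [1, 2]), (0, [0], [3, 4])])

def l5_1 : Cov := [(24, 1, 1, [(0, [1], [0, 4]), (0, [1], [1, 2]), (0, [0], [3, 4])]),
  (-24, 1, 1, [(0, [1], [0, 4]), (0, [1], [2, 3]), (0, [0], [1, 4])]),
  (24, 1, 1, [(0, [1], [1, 4]), (0, [1], [0, 3]), (0, [0], [2, 4])]),
  (-24, 1, 1, [(0, [1], [1, 4]), (0, [1], [2, 3]), (0, [0], [0, 4])]),
  (-24, 1, 1, [(0, [1], [2, 4]), (0, [1], [0, 1]), (0, [0], [3, 4])]),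
  (24, 1, 1, [(0, [1], [2, 4]), (0, [1], [0, 3]), (0, [0], [1, 4])]),
  (-24, 1, 1, [(0, [1], [3, 4]), (0, [1], [0, 1]), (0, [0], [2, 4])]),
  (24, 1, 1, [(0, [1], [3, 4]), (0, [1], [1, 2]), (0, [0], [0, 4])])]

def z5_1 : Cov := [(0, 1, 1, [(0, [1], [0, 4]), (0, [1], [1, 3]), (0, [0], [2, 4])]),
  (0, 1, 1, [(0, [1], [1, 4]), (0, [1], [0, 2]), (0, [0], [3, 4])]),
  (0, 1, 1, [(0, [1], [2, 4]), (0, [1], [1, 3]), (0, [0], [0, 4])]),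
  (0, 1, 1, [(0, [1], [3, 4]), (0, [1], [0, 2]), (0, [0], [1, 4])])]

def w5_1 : List (List Wit) := [[(0, 0, 0, 0, 0), (8, 0, 0, 0, 0), (0, 0, 0, 0, 0), (1, 0, 0, 0, 0), (8, 0, 0, 0, 0), (1, 0, 0, 0, 0), (9, 0, 0, 0, 0), (2, 0, 0, 0, 0), (9, 0, 0, 0, 0), (3, 0, 0, 0, 0), (2, 0, 0, 0, 0), (3, 0, 0, 0, 0), (4, 0, 0, 0, 0), (5, 0, 0, 0, 0), (4, 0, 0, 0, 0), (10, 0, 0, 0, 0), (5, 0, 0, 0, 0), (10, 0, 0, 0, 0), (6, 0, 0, 0, 0), (11, 0, 0, 0, 0), (6, 0, 0, 0, 0), (7, 0, 0, 0, 0), (11, 0, 0, 0, 0), (7, 0, 0, 0, 0)]]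

def m5_2 : Base := (0, 1, [(0, [0], [0, 4]), (1, [], [1, 4]), (1, [], [2, 3])])

def l5_2 : Cov := [(24, 0, 1, [(0, [0], [0, 4]), (1, [], [1, 4]), (1, [], [2, 3])]),
  (-24, 0, 1, [(0, [0], [0, 4]), (1, [], [3, 4]), (1, [], [1, 2])]),
  (24, 0, 1, [(0, [0], [1, 4]), (1, [], [0, 4]), (1, [], [2, 3])]),
  (-24, 0, 1, [(0, [0], [1, 4]), (1, [], [2, 4]), (1, [], [0, 3])]),
  (-24, 0, 1, [(0, [0], [2, 4]), (1, [], [1, 4]), (1, [], [0, 3])]),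
  (24, 0, 1, [(0, [0], [2, 4]), (1, [], [3, 4]), (1, [], [0, 1])]),
  (-24, 0, 1, [(0, [0], [3, 4]), (1, [], [0, 4]), (1, [], [1, 2])]),
  (24, 0, 1, [(0, [0], [3, 4]), (1, [], [2, 4]), (1, [], [0, 1])])]

def z5_2 : Cov := [(0, 0, 1, [(0, [0], [0, 4]), (1, [], [2, 4]), (1, [], [1, 3])]),
  (0, 0, 1, [(0, [0], [1, 4]), (1, [], [3, 4]), (1, [], [0, 2])]),
  (0, 0, 1, [(0, [0], [2, 4]), (1, [], [0, 4]), (1, [], [1, 3])]),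
  (0, 0, 1, [(0, [0], [3, 4]), (1, [], [1, 4]), (1, [], [0, 2])])]

def w5_2 : List (List Wit) := [[(0, 0, 0, 0, 0), (0, 0, 0, 0, 0), (8, 0, 0, 0, 0), (8, 0, 0, 0, 0), (1, 0, 0, 0, 0), (1, 0, 0, 0, 0), (2, 0, 0, 0, 0), (2, 0, 0, 0, 0), (3, 0, 0, 0, 0), (3, 0, 0, 0, 0), (9, 0, 0, 0, 0), (9, 0, 0, 0, 0), (10, 0, 0, 0, 0), (10, 0, 0, 0, 0), (4, 0, 0, 0, 0), (4, 0, 0, 0, 0), (5, 0, 0, 0, 0), (5, 0, 0, 0, 0), (6, 0, 0, 0, 0), (6, 0, 0, 0, 0), (11, 0, 0, 0, 0), (11, 0, 0, 0, 0), (7, 0, 0, 0, 0), (7, 0, 0, 0, 0)]]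

def m5_3 : Base := (0, 1, [(0, [0], [0, 1]), (1, [], [2, 4]), (1, [], [3, 4])])

def l5_3 : Cov := [(48, 0, 1, [(0, [0], [0, 1]), (1, [], [2, 4]), (1, [], [3, 4])]),
  (-48, 0, 1, [(0, [0], [0, 3]), (1, [], [1, 4]), (1, [], [2, 4])]),
  (-48, 0, 1, [(0, [0], [1, 2]), (1, [], [0, 4]), (1, [], [3, 4])]),
  (48, 0, 1, [(0, [0], [2, 3]), (1, [], [0, 4]), (1, [], [1, 4])])]

def z5_3 : Cov := [(0, 0, 1, [(0, [0], [0, 2]), (1, [], [1, 4]), (1, [], [3, 4])]),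
  (0, 0, 1, [(0, [0], [1, 3]), (1, [], [0, 4]), (1, [], [2, 4])])]

def w5_3 : List (List Wit) := [[(0, 0, 0, 0, 0), (0, 0, 0, 0, 0), (4, 0, 0, 0, 0), (4, 0, 0, 0, 0), (1, 0, 0, 0, 0), (1, 0, 0, 0, 0), (0, 0, 0, 0, 0), (0, 0, 0, 0, 0), (2, 0, 0, 0, 0), (2, 0, 0, 0, 0), (5, 0, 0, 0, 0), (5, 0, 0, 0, 0), (4, 0, 0, 0, 0), (4, 0, 0, 0, 0), (2, 0, 0, 0, 0), (2, 0, 0, 0, 0), (3, 0, 0, 0, 0), (3, 0, 0, 0, 0), (1, 0, 0, 0, 0), (1, 0, 0, 0, 0), (5, 0, 0, 0, 0), (5, 0, 0, 0, 0), (3, 0, 0, 0, 0), (3, 0, 0, 0, 0)]]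

def m5_4 : Base := (0, 0, [(0, [0], [0, 1]), (1, [], [2, 3])])

def l5_4 : Cov := [(48, 0, 0, [(0, [0], [0, 1]), (1, [], [2, 3])]),
  (-48, 0, 0, [(0, [0], [0, 3]), (1, [], [1, 2])]),
  (-48, 0, 0, [(0, [0], [1, 2]), (1, [], [0, 3])]),
  (48, 0, 0, [(0, [0], [2, 3]), (1, [], [0, 1])])]

def z5_4 : Cov := [(0, 0, 0, [(0, [0], [0, 2]), (1, [], [1, 3])]),
  (0, 0, 0, [(0, [0], [1, 3]), (1, [], [0, 2])])]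

def w5_4 : List (List Wit) := [[(0, 0, 0, 0, 0), (0, 0, 0, 0, 0), (4, 0, 0, 0, 0), (4, 0, 0, 0, 0), (1, 0, 0, 0, 0), (1, 0, 0, 0, 0), (0, 0, 0, 0, 0), (0, 0, 0, 0, 0), (2, 0, 0, 0, 0), (2, 0, 0, 0, 0), (5, 0, 0, 0, 0), (5, 0, 0, 0, 0), (4, 0, 0, 0, 0), (4, 0, 0, 0, 0), (2, 0, 0, 0, 0), (2, 0, 0, 0, 0), (3, 0, 0, 0, 0), (3, 0, 0, 0, 0), (1, 0, 0, 0, 0), (1, 0, 0, 0, 0), (5, 0, 0, 0, 0), (5, 0, 0, 0, 0), (3, 0, 0, 0, 0), (3, 0, 0, 0, 0)]]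

theorem tr5 : trK keys lk5 kl5 = true := by
  decide +kernel

theorem x5_0 : expB 1 4 dg0 dg6 m5_0 (l5_0 ++ z5_0) w5_0 = true := by
  decide +kernel

theorem x5_1 : expB 1 4 dg0 dg6 m5_1 (l5_1 ++ z5_1) w5_1 = true := by
  decide +kernel

theorem x5_2 : expB 1 4 dg0 dg6 m5_2 (l5_2 ++ z5_2) w5_2 = true := by
  decide +kernel

theorem x5_3 : expB 1 4 dg0 dg6 m5_3 (l5_3 ++ z5_3) w5_3 = true := by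
  decide +kernel

theorem x5_4 : expB 1 4 dg0 dg6 m5_4 (l5_4 ++ z5_4) w5_4 = true := by
  decide +kernel

theorem t5_0_0 : chkS lk5 1 4 [(1, m5_0)] l5_0
  [(4, 528, 528, 4395090, 1392690), (21, 258, 33, 3167265, 3297540), (21, 513, 513, 4207905, 2437380), (15, 513, 513, 3167265, 3297540)]
  [(4, 48), (15, 48), (21, -96)] = true := by
  decide +kernel

theorem t5_0_1 : chkS lk5 1 4 [(1, m5_0)] l5_1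
  [(22, 258, 33, 3163425, 2314500), (11, 33, 258, 344865, 4399365), (22, 258, 33, 5256225, 5386500), (11, 33, 258, 344850, 4399125), (15, 258, 33, 5256225, 5386500), (23, 258, 33, 4207905, 2437380), (15, 258, 33, 5260065, 5447940), (23, 513, 513, 3167265, 3297540)]
  [(11, -48), (15, -48), (22, 48), (23, 48)] = true := by
  decide +kernel

theorem t5_0_2 : chkS lk5 1 4 [(1, m5_0)] l5_2
  [(24, 1, 1, 3167265, 3297540), (25, 1, 1, 3167265, 3297540), (24, 1, 1, 3167250, 3297300), (25, 1, 1, 3163410, 2314260), (41, 1, 1, 4281120, 3481920), (42, 1, 1, 5325600, 5448000), (41, 1, 1, 5321760, 5386560), (42, 1, 1, 5321760, 5386560)]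
  [(24, 48), (25, -48), (41, -48), (42, 48)] = true := by
  decide +kernel

theorem t5_0_3 : chkS lk5 1 4 [(1, m5_0)] l5_3
  [(17, 1, 1, 5260065, 5447940), (27, 1, 1, 5256225, 5386500), (27, 1, 1, 5260050, 5447700), (3, 16, 16, 5378115, 5309490)]
  [(3, 48), (17, 48), (27, -96)] = true := by
  decide +kernel

theorem t5_0_4 : chkS lk5 1 4 [(1, m5_0)] l5_4
  [(16, 1, 1, 17185, 205060), (28, 1, 1, 13345, 143620), (28, 1, 1, 17170, 204820), (20, 16, 16, 135235, 66610)]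
  [(16, 48), (20, 48), (28, -96)] = true := by
  decide +kernel

theorem t5_1_1 : chkS lk5 1 4 [(1, m5_1)] l5_1
  [(11, 258, 33, 2184240, 3282240), (8, 258, 33, 5321280, 5321280), (43, 513, 513, 5325600, 5448000), (10, 258, 33, 5321280, 5321280), (23, 528, 528, 2163795, 1180995), (43, 513, 513, 5325360, 5444160), (10, 18, 18, 1377060, 4202835), (12, 288, 288, 2164035, 2164035)]
  [(8, -24), (10, -48), (11, 24), (12, 24), (23, -24), (43, 48)] = true := by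
  decide +kernel

theorem t5_1_2 : chkS lk5 1 4 [(1, m5_1)] l5_2
  [(32, 16, 16, 2163795, 1180995), (31, 16, 16, 2164035, 2164035), (7, 1, 1, 3167265, 3297540), (44, 1, 1, 5325600, 5448000), (44, 1, 1, 5325360, 5444160), (9, 1, 1, 3166785, 3232260), (24, 16, 16, 2164035, 2164035), (25, 16, 16, 2163795, 1180995)]
  [(7, 24), (9, 24), (24, -24), (25, 24), (31, -24), (32, 24), (44, -48)] = true := by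
  decide +kernel

theorem t5_1_3 : chkS lk5 1 4 [(1, m5_1)] l5_3
  [(33, 1, 1, 5259825, 5444100), (17, 16, 16, 5309490, 5378115), (29, 1, 1, 5390595, 5440545), (26, 16, 16, 5308995, 5308995)]
  [(17, -48), (26, 48), (29, -48), (33, 48)] = true := by
  decide +kernel

theorem t5_1_4 : chkS lk5 1 4 [(1, m5_1)] l5_4
  [(13, 1, 1, 82720, 205120), (16, 16, 16, 66610, 135235), (30, 1, 1, 147715, 197665), (14, 1, 1, 16945, 201220)]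
  [(13, 48), (14, 48), (16, -48), (30, -48)] = true := by
  decide +kernel

theorem t5_2_2 : chkS lk5 1 4 [(1, m5_2)] l5_2
  [(5, 0, 0, 2184240, 3282240), (38, 0, 0, 4281120, 3481920), (6, 0, 0, 2184240, 3282240), (36, 0, 0, 4207905, 2437380), (35, 0, 0, 5317680, 5378880), (19, 0, 0, 4281120, 3481920), (36, 0, 0, 2180400, 2299200), (19, 0, 0, 4273440, 2437440)]
  [(5, 24), (6, 24), (19, 48), (35, -24), (36, -48), (38, -24)] = true := by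
  decide +kernel

theorem t5_2_3 : chkS lk5 1 4 [(1, m5_2)] l5_3
  [(45, 0, 0, 5325600, 5448000), (38, 0, 0, 3228960, 2314560), (36, 0, 0, 3167265, 3297540), (34, 0, 0, 2428980, 4199730)]
  [(34, 48), (36, -48), (38, -48), (45, 48)] = true := by
  decide +kernel

theorem t5_2_4 : chkS lk5 1 4 [(1, m5_2)] l5_4
  [(40, 0, 0, 82720, 205120), (39, 0, 0, 82720, 205120), (37, 0, 0, 13345, 143620), (18, 0, 0, 200770, 81970)]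
  [(18, 48), (37, -48), (39, -48), (40, 48)] = true := by
  decide +kernel

theorem t5_3_3 : chkS lk5 1 4 [(1, m5_3)] l5_3
  [(46, 0, 0, 5456400, 5456400), (38, 0, 0, 2442000, 4400400), (38, 0, 0, 2438145, 4338945), (19, 0, 0, 2442000, 4400400)]
  [(19, 48), (38, -96), (46, 48)] = true := by
  decide +kernel

theorem t5_3_4 : chkS lk5 1 4 [(1, m5_3)] l5_4
  [(47, 0, 0, 213520, 213520), (39, 0, 0, 213520, 213520), (39, 0, 0, 205825, 148225), (18, 0, 0, 274960, 274960)]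
  [(18, 48), (39, -96), (47, 48)] = true := by
  decide +kernel

theorem t5_4_4 : chkS lk5 1 4 [(1, m5_4)] l5_4
  [(0, 0, 0, 12816, 12816), (1, 0, 0, 8976, 8976), (1, 0, 0, 12801, 12801), (2, 0, 0, 12816, 12816)]
  [(0, 48), (1, -96), (2, 48)] = true := by
  decide +kernel

section

variable {κ ι : Type*} [Fintype κ] [Fintype ι] [Inhabited κ] [Inhabited ι]

noncomputable def F5_0 (E : Env κ ι) : (Fin 1 → κ) → (Fin 4 → ι) → ℝ := op2 (P0 κ) (P6 ι) (fB E 1 4 m5_0)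

noncomputable def F5_1 (E : Env κ ι) : (Fin 1 → κ) → (Fin 4 → ι) → ℝ := op2 (P0 κ) (P6 ι) (fB E 1 4 m5_1)

noncomputable def F5_2 (E : Env κ ι) : (Fin 1 → κ) → (Fin 4 → ι) → ℝ := op2 (P0 κ) (P6 ι) (fB E 1 4 m5_2)

noncomputable def F5_3 (E : Env κ ι) : (Fin 1 → κ) → (Fin 4 → ι) → ℝ := op2 (P0 κ) (P6 ι) (fB E 1 4 m5_3)

noncomputable def F5_4 (E : Env κ ι) : (Fin 1 → κ) → (Fin 4 → ι) → ℝ := op2 (P0 κ) (P6 ι) (fB E 1 4 m5_4)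

def r5_0_0 : List (ℕ × ℤ) := [(4, 48), (15, 48), (21, -96)]

theorem h5_0_0 (E : Env κ ι) : ip (F5_0 E) (F5_0 E) = dotS (ek E lk5) r5_0_0 :=
  op_entryZ E lk5 1 4 _ _ _ _ (pg0 κ) (pg6 ι) m5_0 m5_0 l5_0 z5_0 w5_0 x5_0 (by decide) _ (chkS_sound E lk5 1 4 _ _ _ _ t5_0_0)

def r5_0_1 : List (ℕ × ℤ) := [(11, -48), (15, -48), (22, 48), (23, 48)]

theorem h5_0_1 (E : Env κ ι) : ip (F5_0 E) (F5_1 E) = dotS (ek E lk5) r5_0_1 :=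
  op_entryZ E lk5 1 4 _ _ _ _ (pg0 κ) (pg6 ι) m5_0 m5_1 l5_1 z5_1 w5_1 x5_1 (by decide) _ (chkS_sound E lk5 1 4 _ _ _ _ t5_0_1)

def r5_0_2 : List (ℕ × ℤ) := [(24, 48), (25, -48), (41, -48), (42, 48)]

theorem h5_0_2 (E : Env κ ι) : ip (F5_0 E) (F5_2 E) = dotS (ek E lk5) r5_0_2 :=
  op_entryZ E lk5 1 4 _ _ _ _ (pg0 κ) (pg6 ι) m5_0 m5_2 l5_2 z5_2 w5_2 x5_2 (by decide) _ (chkS_sound E lk5 1 4 _ _ _ _ t5_0_2)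

def r5_0_3 : List (ℕ × ℤ) := [(3, 48), (17, 48), (27, -96)]

theorem h5_0_3 (E : Env κ ι) : ip (F5_0 E) (F5_3 E) = dotS (ek E lk5) r5_0_3 :=
  op_entryZ E lk5 1 4 _ _ _ _ (pg0 κ) (pg6 ι) m5_0 m5_3 l5_3 z5_3 w5_3 x5_3 (by decide) _ (chkS_sound E lk5 1 4 _ _ _ _ t5_0_3)

def r5_0_4 : List (ℕ × ℤ) := [(16, 48), (20, 48), (28, -96)]

theorem h5_0_4 (E : Env κ ι) : ip (F5_0 E) (F5_4 E) = dotS (ek E lk5) r5_0_4 :=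
  op_entryZ E lk5 1 4 _ _ _ _ (pg0 κ) (pg6 ι) m5_0 m5_4 l5_4 z5_4 w5_4 x5_4 (by decide) _ (chkS_sound E lk5 1 4 _ _ _ _ t5_0_4)

def r5_1_1 : List (ℕ × ℤ) := [(8, -24), (10, -48), (11, 24), (12, 24), (23, -24), (43, 48)]

theorem h5_1_1 (E : Env κ ι) : ip (F5_1 E) (F5_1 E) = dotS (ek E lk5) r5_1_1 :=
  op_entryZ E lk5 1 4 _ _ _ _ (pg0 κ) (pg6 ι) m5_1 m5_1 l5_1 z5_1 w5_1 x5_1 (by decide) _ (chkS_sound E lk5 1 4 _ _ _ _ t5_1_1)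

def r5_1_2 : List (ℕ × ℤ) := [(7, 24), (9, 24), (24, -24), (25, 24), (31, -24), (32, 24), (44, -48)]

theorem h5_1_2 (E : Env κ ι) : ip (F5_1 E) (F5_2 E) = dotS (ek E lk5) r5_1_2 :=
  op_entryZ E lk5 1 4 _ _ _ _ (pg0 κ) (pg6 ι) m5_1 m5_2 l5_2 z5_2 w5_2 x5_2 (by decide) _ (chkS_sound E lk5 1 4 _ _ _ _ t5_1_2)

def r5_1_3 : List (ℕ × ℤ) := [(17, -48), (26, 48), (29, -48), (33, 48)]

theorem h5_1_3 (E : Env κ ι) : ip (F5_1 E) (F5_3 E) = dotS (ek E lk5) r5_1_3 :=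
  op_entryZ E lk5 1 4 _ _ _ _ (pg0 κ) (pg6 ι) m5_1 m5_3 l5_3 z5_3 w5_3 x5_3 (by decide) _ (chkS_sound E lk5 1 4 _ _ _ _ t5_1_3)

def r5_1_4 : List (ℕ × ℤ) := [(13, 48), (14, 48), (16, -48), (30, -48)]

theorem h5_1_4 (E : Env κ ι) : ip (F5_1 E) (F5_4 E) = dotS (ek E lk5) r5_1_4 :=
  op_entryZ E lk5 1 4 _ _ _ _ (pg0 κ) (pg6 ι) m5_1 m5_4 l5_4 z5_4 w5_4 x5_4 (by decide) _ (chkS_sound E lk5 1 4 _ _ _ _ t5_1_4)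

def r5_2_2 : List (ℕ × ℤ) := [(5, 24), (6, 24), (19, 48), (35, -24), (36, -48), (38, -24)]

theorem h5_2_2 (E : Env κ ι) : ip (F5_2 E) (F5_2 E) = dotS (ek E lk5) r5_2_2 :=
  op_entryZ E lk5 1 4 _ _ _ _ (pg0 κ) (pg6 ι) m5_2 m5_2 l5_2 z5_2 w5_2 x5_2 (by decide) _ (chkS_sound E lk5 1 4 _ _ _ _ t5_2_2)

def r5_2_3 : List (ℕ × ℤ) := [(34, 48), (36, -48), (38, -48), (45, 48)]

theorem h5_2_3 (E : Env κ ι) : ip (F5_2 E) (F5_3 E) = dotS (ek E lk5) r5_2_3 :=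
  op_entryZ E lk5 1 4 _ _ _ _ (pg0 κ) (pg6 ι) m5_2 m5_3 l5_3 z5_3 w5_3 x5_3 (by decide) _ (chkS_sound E lk5 1 4 _ _ _ _ t5_2_3)

def r5_2_4 : List (ℕ × ℤ) := [(18, 48), (37, -48), (39, -48), (40, 48)]

theorem h5_2_4 (E : Env κ ι) : ip (F5_2 E) (F5_4 E) = dotS (ek E lk5) r5_2_4 :=
  op_entryZ E lk5 1 4 _ _ _ _ (pg0 κ) (pg6 ι) m5_2 m5_4 l5_4 z5_4 w5_4 x5_4 (by decide) _ (chkS_sound E lk5 1 4 _ _ _ _ t5_2_4)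

def r5_3_3 : List (ℕ × ℤ) := [(19, 48), (38, -96), (46, 48)]

theorem h5_3_3 (E : Env κ ι) : ip (F5_3 E) (F5_3 E) = dotS (ek E lk5) r5_3_3 :=
  op_entryZ E lk5 1 4 _ _ _ _ (pg0 κ) (pg6 ι) m5_3 m5_3 l5_3 z5_3 w5_3 x5_3 (by decide) _ (chkS_sound E lk5 1 4 _ _ _ _ t5_3_3)

def r5_3_4 : List (ℕ × ℤ) := [(18, 48), (39, -96), (47, 48)]

theorem h5_3_4 (E : Env κ ι) : ip (F5_3 E) (F5_4 E) = dotS (ek E lk5) r5_3_4 :=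
  op_entryZ E lk5 1 4 _ _ _ _ (pg0 κ) (pg6 ι) m5_3 m5_4 l5_4 z5_4 w5_4 x5_4 (by decide) _ (chkS_sound E lk5 1 4 _ _ _ _ t5_3_4)

def r5_4_4 : List (ℕ × ℤ) := [(0, 48), (1, -96), (2, 48)]

theorem h5_4_4 (E : Env κ ι) : ip (F5_4 E) (F5_4 E) = dotS (ek E lk5) r5_4_4 :=
  op_entryZ E lk5 1 4 _ _ _ _ (pg0 κ) (pg6 ι) m5_4 m5_4 l5_4 z5_4 w5_4 x5_4 (by decide) _ (chkS_sound E lk5 1 4 _ _ _ _ t5_4_4)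

theorem row5_0 (E : Env κ ι) : RowG (ek E lk5) (F5_0 E) [F5_0 E, F5_1 E, F5_2 E, F5_3 E, F5_4 E] [r5_0_0, r5_0_1, r5_0_2, r5_0_3, r5_0_4] :=
  rowG_cons _ _ _ _ _ _ (h5_0_0 E) (rowG_cons _ _ _ _ _ _ (h5_0_1 E) (rowG_cons _ _ _ _ _ _ (h5_0_2 E) (rowG_cons _ _ _ _ _ _ (h5_0_3 E) (rowG_cons _ _ _ _ _ _ (h5_0_4 E) (rowG_nil _ _)))))

theorem row5_1 (E : Env κ ι) : RowG (ek E lk5) (F5_1 E) [F5_1 E, F5_2 E, F5_3 E, F5_4 E] [r5_1_1, r5_1_2, r5_1_3, r5_1_4] :=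
  rowG_cons _ _ _ _ _ _ (h5_1_1 E) (rowG_cons _ _ _ _ _ _ (h5_1_2 E) (rowG_cons _ _ _ _ _ _ (h5_1_3 E) (rowG_cons _ _ _ _ _ _ (h5_1_4 E) (rowG_nil _ _))))

theorem row5_2 (E : Env κ ι) : RowG (ek E lk5) (F5_2 E) [F5_2 E, F5_3 E, F5_4 E] [r5_2_2, r5_2_3, r5_2_4] :=
  rowG_cons _ _ _ _ _ _ (h5_2_2 E) (rowG_cons _ _ _ _ _ _ (h5_2_3 E) (rowG_cons _ _ _ _ _ _ (h5_2_4 E) (rowG_nil _ _)))

theorem row5_3 (E : Env κ ι) : RowG (ek E lk5) (F5_3 E) [F5_3 E, F5_4 E] [r5_3_3, r5_3_4] :=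
  rowG_cons _ _ _ _ _ _ (h5_3_3 E) (rowG_cons _ _ _ _ _ _ (h5_3_4 E) (rowG_nil _ _))

theorem row5_4 (E : Env κ ι) : RowG (ek E lk5) (F5_4 E) [F5_4 E] [r5_4_4] :=
  rowG_cons _ _ _ _ _ _ (h5_4_4 E) (rowG_nil _ _)

def tab5 : List (List (List (ℕ × ℤ))) := [[r5_0_0, r5_0_1, r5_0_2, r5_0_3, r5_0_4], [r5_1_1, r5_1_2, r5_1_3, r5_1_4], [r5_2_2, r5_2_3, r5_2_4], [r5_3_3, r5_3_4], [r5_4_4]]

theorem tri5 (E : Env κ ι) : TriG (ek E lk5) [F5_0 E, F5_1 E, F5_2 E, F5_3 E, F5_4 E] tab5 := by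
  refine triG_cons _ _ _ _ _ (row5_0 E) ?_
  refine triG_cons _ _ _ _ _ (row5_1 E) ?_
  refine triG_cons _ _ _ _ _ (row5_2 E) ?_
  refine triG_cons _ _ _ _ _ (row5_3 E) ?_
  refine triG_cons _ _ _ _ _ (row5_4 E) ?_
  exact triG_nil _

end

def lk6 : List Key := [
  (1, 6, [(0, [0], [0, 1]), (0, [0], [0, 2]), (1, [], [2, 3]), (1, [], [1, 3]), (1, [], [4, 5]), (1, [], [4, 5])]),
  (1, 6, [(0, [0], [0, 1]), (0, [0], [2, 3]), (1, [], [0, 2]), (1, [], [1, 3]), (1, [], [4, 5]), (1, [], [4, 5])]),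
  (2, 6, [(0, [0], [0, 1]), (0, [1], [2, 3]), (0, [0], [2, 4]), (0, [1], [0, 5]), (1, [], [4, 5]), (1, [], [1, 3])]),
  (3, 6, [(0, [0], [0, 1]), (0, [1], [2, 3]), (0, [2], [4, 5]), (0, [0], [2, 4]), (0, [1], [0, 5]), (0, [2], [1, 3])]),
  (2, 6, [(0, [0], [0, 1]), (0, [1], [2, 3]), (0, [0], [2, 4]), (0, [1], [0, 5]), (1, [], [3, 5]), (1, [], [1, 4])]),
  (3, 6, [(0, [0], [0, 1]), (0, [1], [2, 3]), (0, [1], [4, 5]), (0, [0], [2, 4]), (0, [2], [0, 5]), (0, [2], [1, 3])]),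
  (3, 6, [(0, [0], [0, 1]), (0, [1], [0, 2]), (0, [1], [3, 4]), (0, [0], [3, 4]), (0, [2], [2, 5]), (0, [2], [1, 5])]),
  (3, 6, [(0, [0], [0, 1]), (0, [0], [2, 3]), (0, [1], [0, 2]), (0, [2], [1, 3]), (0, [2], [4, 5]), (0, [1], [4, 5])]),
  (3, 6, [(0, [0], [0, 1]), (0, [0], [2, 0]), (0, [1], [3, 1]), (0, [2], [2, 4]), (0, [2], [3, 5]), (0, [1], [4, 5])]),
  (2, 6, [(0, [0], [0, 1]), (0, [0], [2, 0]), (0, [1], [3, 1]), (0, [1], [4, 5]), (1, [], [4, 5]), (1, [], [2, 3])]),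
  (2, 6, [(0, [0], [0, 1]), (0, [0], [2, 0]), (0, [1], [3, 1]), (0, [1], [4, 5]), (1, [], [2, 4]), (1, [], [3, 5])]),
  (2, 6, [(0, [0], [0, 1]), (0, [0], [2, 3]), (0, [1], [1, 3]), (0, [1], [4, 5]), (1, [], [4, 5]), (1, [], [0, 2])]),
  (2, 6, [(0, [0], [0, 1]), (0, [0], [2, 3]), (0, [1], [1, 3]), (0, [1], [4, 5]), (1, [], [0, 4]), (1, [], [2, 5])]),
  (1, 6, [(0, [0], [0, 1]), (1, [], [2, 0]), (1, [], [3, 1]), (0, [0], [4, 5]), (1, [], [2, 4]), (1, [], [3, 5])]),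
  (1, 6, [(0, [0], [0, 1]), (1, [], [2, 0]), (1, [], [3, 1]), (0, [0], [2, 4]), (1, [], [4, 5]), (1, [], [3, 5])]),
  (1, 6, [(0, [0], [0, 1]), (1, [], [1, 2]), (1, [], [3, 2]), (0, [0], [0, 4]), (1, [], [4, 5]), (1, [], [3, 5])])]

def kl6 : List ℕ := [17, 18, 21, 22, 23, 24, 25, 26, 39, 40, 41, 50, 51, 55, 56, 58]

def m6_0 : Base := (1, 1, [(0, [1], [0, 4]), (0, [1], [1, 2]), (0, [0], [3, 4])])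

def l6_0 : Cov := [(16, 1, 1, [(0, [1], [0, 4]), (0, [1], [1, 2]), (0, [0], [3, 4])]),
  (-16, 1, 1, [(0, [1], [0, 4]), (0, [1], [1, 3]), (0, [0], [2, 4])]),
  (-16, 1, 1, [(0, [1], [2, 4]), (0, [1], [0, 1]), (0, [0], [3, 4])]),
  (16, 1, 1, [(0, [1], [2, 4]), (0, [1], [1, 3]), (0, [0], [0, 4])]),
  (16, 1, 1, [(0, [1], [3, 4]), (0, [1], [0, 1]), (0, [0], [2, 4])]),
  (-16, 1, 1, [(0, [1], [3, 4]), (0, [1], [1, 2]), (0, [0], [0, 4])])]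

def z6_0 : Cov := [(0, 1, 1, [(0, [1], [0, 4]), (0, [1], [2, 3]), (0, [0], [1, 4])]),
  (0, 1, 1, [(0, [1], [1, 4]), (0, [1], [0, 2]), (0, [0], [3, 4])]),
  (0, 1, 1, [(0, [1], [1, 4]), (0, [1], [0, 3]), (0, [0], [2, 4])]),
  (0, 1, 1, [(0, [1], [1, 4]), (0, [1], [2, 3]), (0, [0], [0, 4])]),
  (0, 1, 1, [(0, [1], [2, 4]), (0, [1], [0, 3]), (0, [0], [1, 4])]),
  (0, 1, 1, [(0, [1], [3, 4]), (0, [1], [0, 2]), (0, [0], [1, 4])])]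

def w6_0 : List (List Wit) := [[(0, 0, 0, 0, 0), (1, 0, 0, 0, 0), (0, 0, 0, 0, 0), (6, 0, 0, 0, 0), (1, 0, 0, 0, 0), (6, 0, 0, 0, 0), (7, 0, 0, 0, 0), (8, 0, 0, 0, 0), (7, 0, 0, 0, 0), (9, 0, 0, 0, 0), (8, 0, 0, 0, 0), (9, 0, 0, 0, 0), (2, 0, 0, 0, 0), (10, 0, 0, 0, 0), (2, 0, 0, 0, 0), (3, 0, 0, 0, 0), (10, 0, 0, 0, 0), (3, 0, 0, 0, 0), (4, 0, 0, 0, 0), (11, 0, 0, 0, 0), (4, 0, 0, 0, 0), (5, 0, 0, 0, 0), (11, 0, 0, 0, 0), (5, 0, 0, 0, 0)]]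

def m6_1 : Base := (0, 1, [(0, [0], [0, 4]), (1, [], [1, 2]), (1, [], [3, 4])])

def l6_1 : Cov := [(16, 0, 1, [(0, [0], [0, 4]), (1, [], [1, 2]), (1, [], [3, 4])]),
  (-16, 0, 1, [(0, [0], [0, 4]), (1, [], [1, 3]), (1, [], [2, 4])]),
  (-16, 0, 1, [(0, [0], [2, 4]), (1, [], [0, 1]), (1, [], [3, 4])]),
  (16, 0, 1, [(0, [0], [2, 4]), (1, [], [1, 3]), (1, [], [0, 4])]),
  (16, 0, 1, [(0, [0], [3, 4]), (1, [], [0, 1]), (1, [], [2, 4])]),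
  (-16, 0, 1, [(0, [0], [3, 4]), (1, [], [1, 2]), (1, [], [0, 4])])]

def z6_1 : Cov := [(0, 0, 1, [(0, [0], [0, 4]), (1, [], [2, 3]), (1, [], [1, 4])]),
  (0, 0, 1, [(0, [0], [1, 4]), (1, [], [0, 2]), (1, [], [3, 4])]),
  (0, 0, 1, [(0, [0], [1, 4]), (1, [], [0, 3]), (1, [], [2, 4])]),
  (0, 0, 1, [(0, [0], [1, 4]), (1, [], [2, 3]), (1, [], [0, 4])]),
  (0, 0, 1, [(0, [0], [2, 4]), (1, [], [0, 3]), (1, [], [1, 4])]),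
  (0, 0, 1, [(0, [0], [3, 4]), (1, [], [0, 2]), (1, [], [1, 4])])]

def w6_1 : List (List Wit) := [[(0, 0, 0, 0, 0), (1, 0, 0, 0, 0), (0, 0, 0, 0, 0), (6, 0, 0, 0, 0), (1, 0, 0, 0, 0), (6, 0, 0, 0, 0), (7, 0, 0, 0, 0), (8, 0, 0, 0, 0), (7, 0, 0, 0, 0), (9, 0, 0, 0, 0), (8, 0, 0, 0, 0), (9, 0, 0, 0, 0), (2, 0, 0, 0, 0), (10, 0, 0, 0, 0), (2, 0, 0, 0, 0), (3, 0, 0, 0, 0), (10, 0, 0, 0, 0), (3, 0, 0, 0, 0), (4, 0, 0, 0, 0), (11, 0, 0, 0, 0), (4, 0, 0, 0, 0), (5, 0, 0, 0, 0), (11, 0, 0, 0, 0), (5, 0, 0, 0, 0)]]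

theorem tr6 : trK keys lk6 kl6 = true := by
  decide +kernel

theorem x6_0 : expB 1 4 dg0 dg7 m6_0 (l6_0 ++ z6_0) w6_0 = true := by
  decide +kernel

theorem x6_1 : expB 1 4 dg0 dg7 m6_1 (l6_1 ++ z6_1) w6_1 = true := by
  decide +kernel

theorem t6_0_0 : chkS lk6 1 4 [(1, m6_0)] l6_0
  [(6, 258, 33, 2184240, 3282240), (3, 258, 33, 5321760, 5386560), (8, 528, 528, 2163795, 1180995), (5, 258, 33, 5321760, 5386560), (5, 18, 18, 1377060, 4202835), (7, 288, 288, 2164035, 2164035)]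
  [(3, -16), (5, 32), (6, 16), (7, -16), (8, -16)] = true := by
  decide +kernel

theorem t6_0_1 : chkS lk6 1 4 [(1, m6_0)] l6_1
  [(11, 16, 16, 2164035, 2164035), (12, 16, 16, 2164035, 2164035), (4, 1, 1, 3166785, 3232260), (2, 1, 1, 3166785, 3232260), (10, 16, 16, 2163795, 1180995), (9, 16, 16, 2164035, 2164035)]
  [(2, 16), (4, -16), (9, -16), (10, 16), (11, 16), (12, -16)] = true := by
  decide +kernel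

theorem t6_1_1 : chkS lk6 1 4 [(1, m6_1)] l6_1
  [(0, 0, 0, 2176320, 2176320), (15, 0, 0, 4269360, 2429760), (13, 0, 0, 5321760, 5386560), (14, 0, 0, 2176080, 1193280), (14, 0, 0, 4203825, 2429700), (1, 0, 0, 2176320, 2176320)]
  [(0, 16), (1, -16), (13, -16), (14, 32), (15, -16)] = true := by
  decide +kernel

section

variable {κ ι : Type*} [Fintype κ] [Fintype ι] [Inhabited κ] [Inhabited ι]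

noncomputable def F6_0 (E : Env κ ι) : (Fin 1 → κ) → (Fin 4 → ι) → ℝ := op2 (P0 κ) (P7 ι) (fB E 1 4 m6_0)

noncomputable def F6_1 (E : Env κ ι) : (Fin 1 → κ) → (Fin 4 → ι) → ℝ := op2 (P0 κ) (P7 ι) (fB E 1 4 m6_1)

def r6_0_0 : List (ℕ × ℤ) := [(3, -16), (5, 32), (6, 16), (7, -16), (8, -16)]

theorem h6_0_0 (E : Env κ ι) : ip (F6_0 E) (F6_0 E) = dotS (ek E lk6) r6_0_0 :=
  op_entryZ E lk6 1 4 _ _ _ _ (pg0 κ) (pg7 ι) m6_0 m6_0 l6_0 z6_0 w6_0 x6_0 (by decide) _ (chkS_sound E lk6 1 4 _ _ _ _ t6_0_0)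

def r6_0_1 : List (ℕ × ℤ) := [(2, 16), (4, -16), (9, -16), (10, 16), (11, 16), (12, -16)]

theorem h6_0_1 (E : Env κ ι) : ip (F6_0 E) (F6_1 E) = dotS (ek E lk6) r6_0_1 :=
  op_entryZ E lk6 1 4 _ _ _ _ (pg0 κ) (pg7 ι) m6_0 m6_1 l6_1 z6_1 w6_1 x6_1 (by decide) _ (chkS_sound E lk6 1 4 _ _ _ _ t6_0_1)

def r6_1_1 : List (ℕ × ℤ) := [(0, 16), (1, -16), (13, -16), (14, 32), (15, -16)]

theorem h6_1_1 (E : Env κ ι) : ip (F6_1 E) (F6_1 E) = dotS (ek E lk6) r6_1_1 :=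
  op_entryZ E lk6 1 4 _ _ _ _ (pg0 κ) (pg7 ι) m6_1 m6_1 l6_1 z6_1 w6_1 x6_1 (by decide) _ (chkS_sound E lk6 1 4 _ _ _ _ t6_1_1)

theorem row6_0 (E : Env κ ι) : RowG (ek E lk6) (F6_0 E) [F6_0 E, F6_1 E] [r6_0_0, r6_0_1] :=
  rowG_cons _ _ _ _ _ _ (h6_0_0 E) (rowG_cons _ _ _ _ _ _ (h6_0_1 E) (rowG_nil _ _))

theorem row6_1 (E : Env κ ι) : RowG (ek E lk6) (F6_1 E) [F6_1 E] [r6_1_1] :=
  rowG_cons _ _ _ _ _ _ (h6_1_1 E) (rowG_nil _ _)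

def tab6 : List (List (List (ℕ × ℤ))) := [[r6_0_0, r6_0_1], [r6_1_1]]

theorem tri6 (E : Env κ ι) : TriG (ek E lk6) [F6_0 E, F6_1 E] tab6 := by
  refine triG_cons _ _ _ _ _ (row6_0 E) ?_
  refine triG_cons _ _ _ _ _ (row6_1 E) ?_
  exact triG_nil _

end

def lk7 : List Key := [
  (2, 6, [(0, [0], [0, 1]), (0, [0], [0, 1]), (0, [1], [2, 3]), (0, [1], [4, 5]), (1, [], [2, 4]), (1, [], [3, 5])]),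
  (3, 6, [(0, [0], [0, 1]), (0, [0], [0, 1]), (0, [1], [2, 3]), (0, [1], [4, 5]), (0, [2], [2, 4]), (0, [2], [3, 5])]),
  (2, 6, [(0, [0], [0, 1]), (0, [0], [0, 1]), (0, [1], [2, 3]), (0, [1], [4, 5]), (1, [], [4, 5]), (1, [], [2, 3])]),
  (1, 6, [(0, [0], [0, 1]), (0, [0], [0, 1]), (1, [], [2, 3]), (1, [], [2, 3]), (1, [], [4, 5]), (1, [], [4, 5])]),
  (1, 6, [(0, [0], [0, 1]), (0, [0], [0, 2]), (1, [], [2, 3]), (1, [], [1, 3]), (1, [], [4, 5]), (1, [], [4, 5])]),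
  (3, 6, [(0, [0], [0, 1]), (0, [1], [2, 3]), (0, [1], [4, 5]), (0, [0], [2, 4]), (0, [2], [0, 5]), (0, [2], [1, 3])]),
  (3, 6, [(0, [0], [0, 1]), (0, [1], [0, 2]), (0, [1], [3, 4]), (0, [0], [3, 4]), (0, [2], [2, 5]), (0, [2], [1, 5])]),
  (3, 6, [(0, [0], [0, 1]), (0, [0], [2, 3]), (0, [1], [0, 2]), (0, [2], [1, 3]), (0, [2], [4, 5]), (0, [1], [4, 5])]),
  (3, 6, [(0, [0], [0, 1]), (0, [0], [0, 1]), (0, [1], [2, 3]), (0, [2], [4, 5]), (0, [1], [4, 5]), (0, [2], [2, 3])]),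
  (3, 6, [(0, [0], [0, 1]), (0, [0], [2, 0]), (0, [1], [3, 1]), (0, [2], [2, 4]), (0, [2], [3, 5]), (0, [1], [4, 5])]),
  (2, 6, [(0, [0], [0, 1]), (0, [0], [2, 0]), (0, [1], [3, 1]), (0, [1], [4, 5]), (1, [], [4, 5]), (1, [], [2, 3])]),
  (2, 6, [(0, [0], [0, 1]), (0, [0], [2, 0]), (0, [1], [3, 1]), (0, [1], [4, 5]), (1, [], [2, 4]), (1, [], [3, 5])]),
  (3, 6, [(0, [0], [0, 1]), (0, [0], [2, 3]), (0, [1], [0, 1]), (0, [2], [4, 5]), (0, [2], [2, 3]), (0, [1], [4, 5])]),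
  (2, 6, [(0, [0], [0, 1]), (0, [0], [2, 3]), (0, [1], [0, 1]), (0, [1], [4, 5]), (1, [], [4, 5]), (1, [], [2, 3])]),
  (2, 6, [(0, [0], [0, 1]), (0, [0], [2, 3]), (0, [1], [0, 1]), (0, [1], [4, 5]), (1, [], [2, 4]), (1, [], [3, 5])]),
  (2, 6, [(0, [0], [0, 1]), (0, [0], [2, 3]), (0, [1], [1, 3]), (0, [1], [4, 5]), (1, [], [4, 5]), (1, [], [0, 2])]),
  (2, 6, [(0, [0], [0, 1]), (0, [0], [2, 3]), (0, [1], [1, 3]), (0, [1], [4, 5]), (1, [], [0, 4]), (1, [], [2, 5])]),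
  (1, 6, [(0, [0], [0, 1]), (1, [], [0, 1]), (1, [], [2, 3]), (0, [0], [4, 5]), (1, [], [4, 5]), (1, [], [2, 3])]),
  (1, 6, [(0, [0], [0, 1]), (1, [], [0, 1]), (1, [], [2, 3]), (0, [0], [4, 5]), (1, [], [2, 4]), (1, [], [3, 5])]),
  (1, 6, [(0, [0], [0, 1]), (1, [], [2, 0]), (1, [], [3, 1]), (0, [0], [4, 5]), (1, [], [2, 4]), (1, [], [3, 5])]),
  (1, 6, [(0, [0], [0, 1]), (1, [], [1, 2]), (1, [], [3, 2]), (0, [0], [0, 4]), (1, [], [4, 5]), (1, [], [3, 5])]),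
  (1, 6, [(0, [0], [0, 1]), (1, [], [2, 3]), (1, [], [4, 3]), (0, [0], [0, 1]), (1, [], [2, 5]), (1, [], [4, 5])])]

def kl7 : List ℕ := [11, 13, 14, 15, 17, 24, 25, 26, 30, 39, 40, 41, 45, 46, 47, 50, 51, 53, 54, 55, 58, 67]

def m7_0 : Base := (1, 0, [(0, [1], [0, 1]), (0, [1], [2, 3]), (0, [0], [4, 5])])

def l7_0 : Cov := [(11520, 1, 0, [(0, [1], [0, 1]), (0, [1], [2, 3]), (0, [0], [4, 5])]),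
  (11520, 1, 0, [(0, [1], [0, 1]), (0, [1], [2, 4]), (0, [0], [3, 5])]),
  (11520, 1, 0, [(0, [1], [0, 1]), (0, [1], [2, 5]), (0, [0], [3, 4])]),
  (11520, 1, 0, [(0, [1], [0, 1]), (0, [1], [3, 4]), (0, [0], [2, 5])]),
  (11520, 1, 0, [(0, [1], [0, 1]), (0, [1], [3, 5]), (0, [0], [2, 4])]),
  (11520, 1, 0, [(0, [1], [0, 1]), (0, [1], [4, 5]), (0, [0], [2, 3])]),
  (11520, 1, 0, [(0, [1], [0, 2]), (0, [1], [1, 3]), (0, [0], [4, 5])]),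
  (11520, 1, 0, [(0, [1], [0, 2]), (0, [1], [1, 4]), (0, [0], [3, 5])]),
  (11520, 1, 0, [(0, [1], [0, 2]), (0, [1], [1, 5]), (0, [0], [3, 4])]),
  (11520, 1, 0, [(0, [1], [0, 2]), (0, [1], [3, 4]), (0, [0], [1, 5])]),
  (11520, 1, 0, [(0, [1], [0, 2]), (0, [1], [3, 5]), (0, [0], [1, 4])]),
  (11520, 1, 0, [(0, [1], [0, 2]), (0, [1], [4, 5]), (0, [0], [1, 3])]),
  (11520, 1, 0, [(0, [1], [0, 3]), (0, [1], [1, 2]), (0, [0], [4, 5])]),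
  (11520, 1, 0, [(0, [1], [0, 3]), (0, [1], [1, 4]), (0, [0], [2, 5])]),
  (11520, 1, 0, [(0, [1], [0, 3]), (0, [1], [1, 5]), (0, [0], [2, 4])]),
  (11520, 1, 0, [(0, [1], [0, 3]), (0, [1], [2, 4]), (0, [0], [1, 5])]),
  (11520, 1, 0, [(0, [1], [0, 3]), (0, [1], [2, 5]), (0, [0], [1, 4])]),
  (11520, 1, 0, [(0, [1], [0, 3]), (0, [1], [4, 5]), (0, [0], [1, 2])]),
  (11520, 1, 0, [(0, [1], [0, 4]), (0, [1], [1, 2]), (0, [0], [3, 5])]),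
  (11520, 1, 0, [(0, [1], [0, 4]), (0, [1], [1, 3]), (0, [0], [2, 5])]),
  (11520, 1, 0, [(0, [1], [0, 4]), (0, [1], [1, 5]), (0, [0], [2, 3])]),
  (11520, 1, 0, [(0, [1], [0, 4]), (0, [1], [2, 3]), (0, [0], [1, 5])]),
  (11520, 1, 0, [(0, [1], [0, 4]), (0, [1], [2, 5]), (0, [0], [1, 3])]),
  (11520, 1, 0, [(0, [1], [0, 4]), (0, [1], [3, 5]), (0, [0], [1, 2])]),
  (11520, 1, 0, [(0, [1], [0, 5]), (0, [1], [1, 2]), (0, [0], [3, 4])]),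
  (11520, 1, 0, [(0, [1], [0, 5]), (0, [1], [1, 3]), (0, [0], [2, 4])]),
  (11520, 1, 0, [(0, [1], [0, 5]), (0, [1], [1, 4]), (0, [0], [2, 3])]),
  (11520, 1, 0, [(0, [1], [0, 5]), (0, [1], [2, 3]), (0, [0], [1, 4])]),
  (11520, 1, 0, [(0, [1], [0, 5]), (0, [1], [2, 4]), (0, [0], [1, 3])]),
  (11520, 1, 0, [(0, [1], [0, 5]), (0, [1], [3, 4]), (0, [0], [1, 2])]),
  (11520, 1, 0, [(0, [1], [1, 2]), (0, [1], [3, 4]), (0, [0], [0, 5])]),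
  (11520, 1, 0, [(0, [1], [1, 2]), (0, [1], [3, 5]), (0, [0], [0, 4])]),
  (11520, 1, 0, [(0, [1], [1, 2]), (0, [1], [4, 5]), (0, [0], [0, 3])]),
  (11520, 1, 0, [(0, [1], [1, 3]), (0, [1], [2, 4]), (0, [0], [0, 5])]),
  (11520, 1, 0, [(0, [1], [1, 3]), (0, [1], [2, 5]), (0, [0], [0, 4])]),
  (11520, 1, 0, [(0, [1], [1, 3]), (0, [1], [4, 5]), (0, [0], [0, 2])]),
  (11520, 1, 0, [(0, [1], [1, 4]), (0, [1], [2, 3]), (0, [0], [0, 5])]),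
  (11520, 1, 0, [(0, [1], [1, 4]), (0, [1], [2, 5]), (0, [0], [0, 3])]),
  (11520, 1, 0, [(0, [1], [1, 4]), (0, [1], [3, 5]), (0, [0], [0, 2])]),
  (11520, 1, 0, [(0, [1], [1, 5]), (0, [1], [2, 3]), (0, [0], [0, 4])]),
  (11520, 1, 0, [(0, [1], [1, 5]), (0, [1], [2, 4]), (0, [0], [0, 3])]),
  (11520, 1, 0, [(0, [1], [1, 5]), (0, [1], [3, 4]), (0, [0], [0, 2])]),
  (11520, 1, 0, [(0, [1], [2, 3]), (0, [1], [4, 5]), (0, [0], [0, 1])]),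
  (11520, 1, 0, [(0, [1], [2, 4]), (0, [1], [3, 5]), (0, [0], [0, 1])]),
  (11520, 1, 0, [(0, [1], [2, 5]), (0, [1], [3, 4]), (0, [0], [0, 1])])]

def z7_0 : Cov := []

def w7_0 : List (List Wit) := [[(0, 0, 0, 0, 0), (0, 0, 0, 0, 0), (1, 0, 0, 0, 0), (1, 0, 0, 0, 0), (2, 0, 0, 0, 0), (2, 0, 0, 0, 0), (0, 0, 0, 0, 0), (0, 0, 0, 0, 0), (3, 0, 0, 0, 0), (3, 0, 0, 0, 0), (4, 0, 0, 0, 0), (4, 0, 0, 0, 0), (1, 0, 0, 0, 0), (1, 0, 0, 0, 0), (3, 0, 0, 0, 0), (3, 0, 0, 0, 0), (5, 0, 0, 0, 0), (5, 0, 0, 0, 0), (2, 0, 0, 0, 0), (2, 0, 0, 0, 0), (4, 0, 0, 0, 0), (4, 0, 0, 0, 0), (5, 0, 0, 0, 0), (5, 0, 0, 0, 0), (6, 0, 0, 0, 0), (6, 0, 0, 0, 0), (7, 0, 0, 0, 0), (7, 0, 0, 0, 0), (8, 0, 0, 0, 0), (8, 0, 0, 0, 0), (6, 0, 0, 0, 0), (6, 0, 0, 0, 0), (9, 0, 0, 0, 0), (9, 0, 0, 0, 0), (10, 0,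 0, 0, 0), (10, 0, 0, 0, 0), (7, 0, 0, 0, 0), (7, 0, 0, 0, 0), (9, 0, 0, 0, 0), (9, 0, 0, 0, 0), (11, 0, 0, 0, 0), (11, 0, 0, 0, 0), (8, 0, 0, 0, 0), (8, 0, 0, 0, 0), (10, 0, 0, 0, 0), (10, 0, 0, 0, 0), (11, 0, 0, 0, 0), (11, 0, 0, 0, 0), (12, 0, 0, 0, 0), (12, 0, 0, 0, 0), (13, 0, 0, 0, 0), (13, 0, 0, 0, 0), (14, 0, 0, 0, 0), (14, 0, 0, 0, 0), (12, 0, 0, 0, 0), (12, 0, 0, 0, 0), (15, 0, 0, 0, 0), (15, 0, 0, 0, 0), (16, 0, 0, 0, 0), (16, 0, 0, 0, 0), (13, 0, 0, 0, 0), (13, 0, 0, 0, 0), (15, 0, 0, 0, 0), (15, 0, 0, 0, 0), (17, 0, 0, 0, 0), (17, 0, 0, 0, 0), (14, 0, 0, 0, 0), (14, 0, 0, 0, 0), (16, 0, 0, 0, 0), (16, 0, 0, 0, 0), (17, 0, 0, 0, 0), (17, 0, 0, 0, 0), (18, 0, 0, 0, 0), (18, 0, 0, 0, 0), (19, 0, 0, 0, 0), (19, 0, 0, 0, 0), (20, 0, 0, 0, 0), (20, 0, 0, 0, 0), (18, 0, 0,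 0, 0), (18, 0, 0, 0, 0), (21, 0, 0, 0, 0), (21, 0, 0, 0, 0), (22, 0, 0, 0, 0), (22, 0, 0, 0, 0), (19, 0, 0, 0, 0), (19, 0, 0, 0, 0), (21, 0, 0, 0, 0), (21, 0, 0, 0, 0), (23, 0, 0, 0, 0), (23, 0, 0, 0, 0), (20, 0, 0, 0, 0), (20, 0, 0, 0, 0), (22, 0, 0, 0, 0), (22, 0, 0, 0, 0), (23, 0, 0, 0, 0), (23, 0, 0, 0, 0), (24, 0, 0, 0, 0), (24, 0, 0, 0, 0), (25, 0, 0, 0, 0), (25, 0, 0, 0, 0), (26, 0, 0, 0, 0), (26, 0, 0, 0, 0), (24, 0, 0, 0, 0), (24, 0, 0, 0, 0), (27, 0, 0, 0, 0), (27, 0, 0, 0, 0), (28, 0, 0, 0, 0), (28, 0, 0, 0, 0), (25, 0, 0, 0, 0), (25, 0, 0, 0, 0), (27, 0, 0, 0, 0), (27, 0, 0, 0, 0), (29, 0, 0, 0, 0), (29, 0, 0, 0, 0), (26, 0, 0, 0, 0), (26, 0, 0, 0, 0), (28, 0, 0, 0, 0), (28, 0, 0, 0, 0), (29, 0, 0, 0, 0), (29, 0, 0, 0, 0), (0, 0, 0, 0, 0), (0, 0, 0, 0, 0), (1, 0, 0,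 0, 0), (1, 0, 0, 0, 0), (2, 0, 0, 0, 0), (2, 0, 0, 0, 0), (0, 0, 0, 0, 0), (0, 0, 0, 0, 0), (3, 0, 0, 0, 0), (3, 0, 0, 0, 0), (4, 0, 0, 0, 0), (4, 0, 0, 0, 0), (1, 0, 0, 0, 0), (1, 0, 0, 0, 0), (3, 0, 0, 0, 0), (3, 0, 0, 0, 0), (5, 0, 0, 0, 0), (5, 0, 0, 0, 0), (2, 0, 0, 0, 0), (2, 0, 0, 0, 0), (4, 0, 0, 0, 0), (4, 0, 0, 0, 0), (5, 0, 0, 0, 0), (5, 0, 0, 0, 0), (12, 0, 0, 0, 0), (12, 0, 0, 0, 0), (18, 0, 0, 0, 0), (18, 0, 0, 0, 0), (24, 0, 0, 0, 0), (24, 0, 0, 0, 0), (12, 0, 0, 0, 0), (12, 0, 0, 0, 0), (30, 0, 0, 0, 0), (30, 0, 0, 0, 0), (31, 0, 0, 0, 0), (31, 0, 0, 0, 0), (18, 0, 0, 0, 0), (18, 0, 0, 0, 0), (30, 0, 0, 0, 0), (30, 0, 0, 0, 0), (32, 0, 0, 0, 0), (32, 0, 0, 0, 0), (24, 0, 0, 0, 0), (24, 0, 0, 0, 0), (31, 0, 0, 0, 0), (31, 0, 0, 0, 0), (32, 0, 0, 0, 0), (32, 0, 0,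 0, 0), (6, 0, 0, 0, 0), (6, 0, 0, 0, 0), (19, 0, 0, 0, 0), (19, 0, 0, 0, 0), (25, 0, 0, 0, 0), (25, 0, 0, 0, 0), (6, 0, 0, 0, 0), (6, 0, 0, 0, 0), (33, 0, 0, 0, 0), (33, 0, 0, 0, 0), (34, 0, 0, 0, 0), (34, 0, 0, 0, 0), (19, 0, 0, 0, 0), (19, 0, 0, 0, 0), (33, 0, 0, 0, 0), (33, 0, 0, 0, 0), (35, 0, 0, 0, 0), (35, 0, 0, 0, 0), (25, 0, 0, 0, 0), (25, 0, 0, 0, 0), (34, 0, 0, 0, 0), (34, 0, 0, 0, 0), (35, 0, 0, 0, 0), (35, 0, 0, 0, 0), (7, 0, 0, 0, 0), (7, 0, 0, 0, 0), (13, 0, 0, 0, 0), (13, 0, 0, 0, 0), (26, 0, 0, 0, 0), (26, 0, 0, 0, 0), (7, 0, 0, 0, 0), (7, 0, 0, 0, 0), (36, 0, 0, 0, 0), (36, 0, 0, 0, 0), (37, 0, 0, 0, 0), (37, 0, 0, 0, 0), (13, 0, 0, 0, 0), (13, 0, 0, 0, 0), (36, 0, 0, 0, 0), (36, 0, 0, 0, 0), (38, 0, 0, 0, 0), (38, 0, 0, 0, 0), (26, 0, 0, 0, 0), (26, 0, 0, 0,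 0), (37, 0, 0, 0, 0), (37, 0, 0, 0, 0), (38, 0, 0, 0, 0), (38, 0, 0, 0, 0), (8, 0, 0, 0, 0), (8, 0, 0, 0, 0), (14, 0, 0, 0, 0), (14, 0, 0, 0, 0), (20, 0, 0, 0, 0), (20, 0, 0, 0, 0), (8, 0, 0, 0, 0), (8, 0, 0, 0, 0), (39, 0, 0, 0, 0), (39, 0, 0, 0, 0), (40, 0, 0, 0, 0), (40, 0, 0, 0, 0), (14, 0, 0, 0, 0), (14, 0, 0, 0, 0), (39, 0, 0, 0, 0), (39, 0, 0, 0, 0), (41, 0, 0, 0, 0), (41, 0, 0, 0, 0), (20, 0, 0, 0, 0), (20, 0, 0, 0, 0), (40, 0, 0, 0, 0), (40, 0, 0, 0, 0), (41, 0, 0, 0, 0), (41, 0, 0, 0, 0), (6, 0, 0, 0, 0), (6, 0, 0, 0, 0), (7, 0, 0, 0, 0), (7, 0, 0, 0, 0), (8, 0, 0, 0, 0), (8, 0, 0, 0, 0), (6, 0, 0, 0, 0), (6, 0, 0, 0, 0), (9, 0, 0, 0, 0), (9, 0, 0, 0, 0), (10, 0, 0, 0, 0), (10, 0, 0, 0, 0), (7, 0, 0, 0, 0), (7, 0, 0, 0, 0), (9, 0, 0, 0, 0), (9, 0, 0, 0, 0), (11, 0, 0,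 0, 0), (11, 0, 0, 0, 0), (8, 0, 0, 0, 0), (8, 0, 0, 0, 0), (10, 0, 0, 0, 0), (10, 0, 0, 0, 0), (11, 0, 0, 0, 0), (11, 0, 0, 0, 0), (12, 0, 0, 0, 0), (12, 0, 0, 0, 0), (18, 0, 0, 0, 0), (18, 0, 0, 0, 0), (24, 0, 0, 0, 0), (24, 0, 0, 0, 0), (12, 0, 0, 0, 0), (12, 0, 0, 0, 0), (30, 0, 0, 0, 0), (30, 0, 0, 0, 0), (31, 0, 0, 0, 0), (31, 0, 0, 0, 0), (18, 0, 0, 0, 0), (18, 0, 0, 0, 0), (30, 0, 0, 0, 0), (30, 0, 0, 0, 0), (32, 0, 0, 0, 0), (32, 0, 0, 0, 0), (24, 0, 0, 0, 0), (24, 0, 0, 0, 0), (31, 0, 0, 0, 0), (31, 0, 0, 0, 0), (32, 0, 0, 0, 0), (32, 0, 0, 0, 0), (0, 0, 0, 0, 0), (0, 0, 0, 0, 0), (21, 0, 0, 0, 0), (21, 0, 0, 0, 0), (27, 0, 0, 0, 0), (27, 0, 0, 0, 0), (0, 0, 0, 0, 0), (0, 0, 0, 0, 0), (36, 0, 0, 0, 0), (36, 0, 0, 0, 0), (39, 0, 0, 0, 0), (39, 0, 0, 0, 0), (21, 0, 0, 0,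 0), (21, 0, 0, 0, 0), (36, 0, 0, 0, 0), (36, 0, 0, 0, 0), (42, 0, 0, 0, 0), (42, 0, 0, 0, 0), (27, 0, 0, 0, 0), (27, 0, 0, 0, 0), (39, 0, 0, 0, 0), (39, 0, 0, 0, 0), (42, 0, 0, 0, 0), (42, 0, 0, 0, 0), (1, 0, 0, 0, 0), (1, 0, 0, 0, 0), (15, 0, 0, 0, 0), (15, 0, 0, 0, 0), (28, 0, 0, 0, 0), (28, 0, 0, 0, 0), (1, 0, 0, 0, 0), (1, 0, 0, 0, 0), (33, 0, 0, 0, 0), (33, 0, 0, 0, 0), (40, 0, 0, 0, 0), (40, 0, 0, 0, 0), (15, 0, 0, 0, 0), (15, 0, 0, 0, 0), (33, 0, 0, 0, 0), (33, 0, 0, 0, 0), (43, 0, 0, 0, 0), (43, 0, 0, 0, 0), (28, 0, 0, 0, 0), (28, 0, 0, 0, 0), (40, 0, 0, 0, 0), (40, 0, 0, 0, 0), (43, 0, 0, 0, 0), (43, 0, 0, 0, 0), (2, 0, 0, 0, 0), (2, 0, 0, 0, 0), (16, 0, 0, 0, 0), (16, 0, 0, 0, 0), (22, 0, 0, 0, 0), (22, 0, 0, 0, 0), (2, 0, 0, 0, 0), (2, 0, 0, 0, 0), (34, 0, 0, 0, 0),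 (34, 0, 0, 0, 0), (37, 0, 0, 0, 0), (37, 0, 0, 0, 0), (16, 0, 0, 0, 0), (16, 0, 0, 0, 0), (34, 0, 0, 0, 0), (34, 0, 0, 0, 0), (44, 0, 0, 0, 0), (44, 0, 0, 0, 0), (22, 0, 0, 0, 0), (22, 0, 0, 0, 0), (37, 0, 0, 0, 0), (37, 0, 0, 0, 0), (44, 0, 0, 0, 0), (44, 0, 0, 0, 0), (12, 0, 0, 0, 0), (12, 0, 0, 0, 0), (13, 0, 0, 0, 0), (13, 0, 0, 0, 0), (14, 0, 0, 0, 0), (14, 0, 0, 0, 0), (12, 0, 0, 0, 0), (12, 0, 0, 0, 0), (15, 0, 0, 0, 0), (15, 0, 0, 0, 0), (16, 0, 0, 0, 0), (16, 0, 0, 0, 0), (13, 0, 0, 0, 0), (13, 0, 0, 0, 0), (15, 0, 0, 0, 0), (15, 0, 0, 0, 0), (17, 0, 0, 0, 0), (17, 0, 0, 0, 0), (14, 0, 0, 0, 0), (14, 0, 0, 0, 0), (16, 0, 0, 0, 0), (16, 0, 0, 0, 0), (17, 0, 0, 0, 0), (17, 0, 0, 0, 0), (6, 0, 0, 0, 0), (6, 0, 0, 0, 0), (19, 0, 0, 0, 0), (19, 0, 0, 0, 0), (25, 0, 0, 0, 0),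 (25, 0, 0, 0, 0), (6, 0, 0, 0, 0), (6, 0, 0, 0, 0), (33, 0, 0, 0, 0), (33, 0, 0, 0, 0), (34, 0, 0, 0, 0), (34, 0, 0, 0, 0), (19, 0, 0, 0, 0), (19, 0, 0, 0, 0), (33, 0, 0, 0, 0), (33, 0, 0, 0, 0), (35, 0, 0, 0, 0), (35, 0, 0, 0, 0), (25, 0, 0, 0, 0), (25, 0, 0, 0, 0), (34, 0, 0, 0, 0), (34, 0, 0, 0, 0), (35, 0, 0, 0, 0), (35, 0, 0, 0, 0), (0, 0, 0, 0, 0), (0, 0, 0, 0, 0), (21, 0, 0, 0, 0), (21, 0, 0, 0, 0), (27, 0, 0, 0, 0), (27, 0, 0, 0, 0), (0, 0, 0, 0, 0), (0, 0, 0, 0, 0), (36, 0, 0, 0, 0), (36, 0, 0, 0, 0), (39, 0, 0, 0, 0), (39, 0, 0, 0, 0), (21, 0, 0, 0, 0), (21, 0, 0, 0, 0), (36, 0, 0, 0, 0), (36, 0, 0, 0, 0), (42, 0, 0, 0, 0), (42, 0, 0, 0, 0), (27, 0, 0, 0, 0), (27, 0, 0, 0, 0), (39, 0, 0, 0, 0), (39, 0, 0, 0, 0), (42, 0, 0, 0, 0), (42, 0, 0, 0, 0), (3, 0, 0, 0, 0), (3,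 0, 0, 0, 0), (9, 0, 0, 0, 0), (9, 0, 0, 0, 0), (29, 0, 0, 0, 0), (29, 0, 0, 0, 0), (3, 0, 0, 0, 0), (3, 0, 0, 0, 0), (30, 0, 0, 0, 0), (30, 0, 0, 0, 0), (41, 0, 0, 0, 0), (41, 0, 0, 0, 0), (9, 0, 0, 0, 0), (9, 0, 0, 0, 0), (30, 0, 0, 0, 0), (30, 0, 0, 0, 0), (44, 0, 0, 0, 0), (44, 0, 0, 0, 0), (29, 0, 0, 0, 0), (29, 0, 0, 0, 0), (41, 0, 0, 0, 0), (41, 0, 0, 0, 0), (44, 0, 0, 0, 0), (44, 0, 0, 0, 0), (4, 0, 0, 0, 0), (4, 0, 0, 0, 0), (10, 0, 0, 0, 0), (10, 0, 0, 0, 0), (23, 0, 0, 0, 0), (23, 0, 0, 0, 0), (4, 0, 0, 0, 0), (4, 0, 0, 0, 0), (31, 0, 0, 0, 0), (31, 0, 0, 0, 0), (38, 0, 0, 0, 0), (38, 0, 0, 0, 0), (10, 0, 0, 0, 0), (10, 0, 0, 0, 0), (31, 0, 0, 0, 0), (31, 0, 0, 0, 0), (43, 0, 0, 0, 0), (43, 0, 0, 0, 0), (23, 0, 0, 0, 0), (23, 0, 0, 0, 0), (38, 0, 0, 0, 0), (38, 0, 0,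 0, 0), (43, 0, 0, 0, 0), (43, 0, 0, 0, 0), (18, 0, 0, 0, 0), (18, 0, 0, 0, 0), (19, 0, 0, 0, 0), (19, 0, 0, 0, 0), (20, 0, 0, 0, 0), (20, 0, 0, 0, 0), (18, 0, 0, 0, 0), (18, 0, 0, 0, 0), (21, 0, 0, 0, 0), (21, 0, 0, 0, 0), (22, 0, 0, 0, 0), (22, 0, 0, 0, 0), (19, 0, 0, 0, 0), (19, 0, 0, 0, 0), (21, 0, 0, 0, 0), (21, 0, 0, 0, 0), (23, 0, 0, 0, 0), (23, 0, 0, 0, 0), (20, 0, 0, 0, 0), (20, 0, 0, 0, 0), (22, 0, 0, 0, 0), (22, 0, 0, 0, 0), (23, 0, 0, 0, 0), (23, 0, 0, 0, 0), (7, 0, 0, 0, 0), (7, 0, 0, 0, 0), (13, 0, 0, 0, 0), (13, 0, 0, 0, 0), (26, 0, 0, 0, 0), (26, 0, 0, 0, 0), (7, 0, 0, 0, 0), (7, 0, 0, 0, 0), (36, 0, 0, 0, 0), (36, 0, 0, 0, 0), (37, 0, 0, 0, 0), (37, 0, 0, 0, 0), (13, 0, 0, 0, 0), (13, 0, 0, 0, 0), (36, 0, 0, 0, 0), (36, 0, 0, 0, 0), (38, 0, 0, 0, 0), (38, 0, 0,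 0, 0), (26, 0, 0, 0, 0), (26, 0, 0, 0, 0), (37, 0, 0, 0, 0), (37, 0, 0, 0, 0), (38, 0, 0, 0, 0), (38, 0, 0, 0, 0), (1, 0, 0, 0, 0), (1, 0, 0, 0, 0), (15, 0, 0, 0, 0), (15, 0, 0, 0, 0), (28, 0, 0, 0, 0), (28, 0, 0, 0, 0), (1, 0, 0, 0, 0), (1, 0, 0, 0, 0), (33, 0, 0, 0, 0), (33, 0, 0, 0, 0), (40, 0, 0, 0, 0), (40, 0, 0, 0, 0), (15, 0, 0, 0, 0), (15, 0, 0, 0, 0), (33, 0, 0, 0, 0), (33, 0, 0, 0, 0), (43, 0, 0, 0, 0), (43, 0, 0, 0, 0), (28, 0, 0, 0, 0), (28, 0, 0, 0, 0), (40, 0, 0, 0, 0), (40, 0, 0, 0, 0), (43, 0, 0, 0, 0), (43, 0, 0, 0, 0), (3, 0, 0, 0, 0), (3, 0, 0, 0, 0), (9, 0, 0, 0, 0), (9, 0, 0, 0, 0), (29, 0, 0, 0, 0), (29, 0, 0, 0, 0), (3, 0, 0, 0, 0), (3, 0, 0, 0, 0), (30, 0, 0, 0, 0), (30, 0, 0, 0, 0), (41, 0, 0, 0, 0), (41, 0, 0, 0, 0), (9, 0, 0, 0, 0), (9, 0, 0, 0, 0),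 (30, 0, 0, 0, 0), (30, 0, 0, 0, 0), (44, 0, 0, 0, 0), (44, 0, 0, 0, 0), (29, 0, 0, 0, 0), (29, 0, 0, 0, 0), (41, 0, 0, 0, 0), (41, 0, 0, 0, 0), (44, 0, 0, 0, 0), (44, 0, 0, 0, 0), (5, 0, 0, 0, 0), (5, 0, 0, 0, 0), (11, 0, 0, 0, 0), (11, 0, 0, 0, 0), (17, 0, 0, 0, 0), (17, 0, 0, 0, 0), (5, 0, 0, 0, 0), (5, 0, 0, 0, 0), (32, 0, 0, 0, 0), (32, 0, 0, 0, 0), (35, 0, 0, 0, 0), (35, 0, 0, 0, 0), (11, 0, 0, 0, 0), (11, 0, 0, 0, 0), (32, 0, 0, 0, 0), (32, 0, 0, 0, 0), (42, 0, 0, 0, 0), (42, 0, 0, 0, 0), (17, 0, 0, 0, 0), (17, 0, 0, 0, 0), (35, 0, 0, 0, 0), (35, 0, 0, 0, 0), (42, 0, 0, 0, 0), (42, 0, 0, 0, 0), (24, 0, 0, 0, 0), (24, 0, 0, 0, 0), (25, 0, 0, 0, 0), (25, 0, 0, 0, 0), (26, 0, 0, 0, 0), (26, 0, 0, 0, 0), (24, 0, 0, 0, 0), (24, 0, 0, 0, 0), (27, 0, 0, 0, 0), (27, 0, 0, 0, 0),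 (28, 0, 0, 0, 0), (28, 0, 0, 0, 0), (25, 0, 0, 0, 0), (25, 0, 0, 0, 0), (27, 0, 0, 0, 0), (27, 0, 0, 0, 0), (29, 0, 0, 0, 0), (29, 0, 0, 0, 0), (26, 0, 0, 0, 0), (26, 0, 0, 0, 0), (28, 0, 0, 0, 0), (28, 0, 0, 0, 0), (29, 0, 0, 0, 0), (29, 0, 0, 0, 0), (8, 0, 0, 0, 0), (8, 0, 0, 0, 0), (14, 0, 0, 0, 0), (14, 0, 0, 0, 0), (20, 0, 0, 0, 0), (20, 0, 0, 0, 0), (8, 0, 0, 0, 0), (8, 0, 0, 0, 0), (39, 0, 0, 0, 0), (39, 0, 0, 0, 0), (40, 0, 0, 0, 0), (40, 0, 0, 0, 0), (14, 0, 0, 0, 0), (14, 0, 0, 0, 0), (39, 0, 0, 0, 0), (39, 0, 0, 0, 0), (41, 0, 0, 0, 0), (41, 0, 0, 0, 0), (20, 0, 0, 0, 0), (20, 0, 0, 0, 0), (40, 0, 0, 0, 0), (40, 0, 0, 0, 0), (41, 0, 0, 0, 0), (41, 0, 0, 0, 0), (2, 0, 0, 0, 0), (2, 0, 0, 0, 0), (16, 0, 0, 0, 0), (16, 0, 0, 0, 0), (22, 0, 0, 0, 0), (22, 0, 0, 0, 0), (2,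 0, 0, 0, 0), (2, 0, 0, 0, 0), (34, 0, 0, 0, 0), (34, 0, 0, 0, 0), (37, 0, 0, 0, 0), (37, 0, 0, 0, 0), (16, 0, 0, 0, 0), (16, 0, 0, 0, 0), (34, 0, 0, 0, 0), (34, 0, 0, 0, 0), (44, 0, 0, 0, 0), (44, 0, 0, 0, 0), (22, 0, 0, 0, 0), (22, 0, 0, 0, 0), (37, 0, 0, 0, 0), (37, 0, 0, 0, 0), (44, 0, 0, 0, 0), (44, 0, 0, 0, 0), (4, 0, 0, 0, 0), (4, 0, 0, 0, 0), (10, 0, 0, 0, 0), (10, 0, 0, 0, 0), (23, 0, 0, 0, 0), (23, 0, 0, 0, 0), (4, 0, 0, 0, 0), (4, 0, 0, 0, 0), (31, 0, 0, 0, 0), (31, 0, 0, 0, 0), (38, 0, 0, 0, 0), (38, 0, 0, 0, 0), (10, 0, 0, 0, 0), (10, 0, 0, 0, 0), (31, 0, 0, 0, 0), (31, 0, 0, 0, 0), (43, 0, 0, 0, 0), (43, 0, 0, 0, 0), (23, 0, 0, 0, 0), (23, 0, 0, 0, 0), (38, 0, 0, 0, 0), (38, 0, 0, 0, 0), (43, 0, 0, 0, 0), (43, 0, 0, 0, 0), (5, 0, 0, 0, 0), (5, 0, 0, 0, 0), (11, 0,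 0, 0, 0), (11, 0, 0, 0, 0), (17, 0, 0, 0, 0), (17, 0, 0, 0, 0), (5, 0, 0, 0, 0), (5, 0, 0, 0, 0), (32, 0, 0, 0, 0), (32, 0, 0, 0, 0), (35, 0, 0, 0, 0), (35, 0, 0, 0, 0), (11, 0, 0, 0, 0), (11, 0, 0, 0, 0), (32, 0, 0, 0, 0), (32, 0, 0, 0, 0), (42, 0, 0, 0, 0), (42, 0, 0, 0, 0), (17, 0, 0, 0, 0), (17, 0, 0, 0, 0), (35, 0, 0, 0, 0), (35, 0, 0, 0, 0), (42, 0, 0, 0, 0), (42, 0, 0, 0, 0)]]

def m7_1 : Base := (0, 0, [(0, [0], [0, 1]), (1, [], [2, 3]), (1, [], [4, 5])])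

def l7_1 : Cov := [(11520, 0, 0, [(0, [0], [0, 1]), (1, [], [2, 3]), (1, [], [4, 5])]),
  (11520, 0, 0, [(0, [0], [0, 1]), (1, [], [2, 4]), (1, [], [3, 5])]),
  (11520, 0, 0, [(0, [0], [0, 1]), (1, [], [2, 5]), (1, [], [3, 4])]),
  (11520, 0, 0, [(0, [0], [0, 2]), (1, [], [1, 3]), (1, [], [4, 5])]),
  (11520, 0, 0, [(0, [0], [0, 2]), (1, [], [1, 4]), (1, [], [3, 5])]),
  (11520, 0, 0, [(0, [0], [0, 2]), (1, [], [1, 5]), (1, [], [3, 4])]),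
  (11520, 0, 0, [(0, [0], [0, 3]), (1, [], [1, 2]), (1, [], [4, 5])]),
  (11520, 0, 0, [(0, [0], [0, 3]), (1, [], [1, 4]), (1, [], [2, 5])]),
  (11520, 0, 0, [(0, [0], [0, 3]), (1, [], [1, 5]), (1, [], [2, 4])]),
  (11520, 0, 0, [(0, [0], [0, 4]), (1, [], [1, 2]), (1, [], [3, 5])]),
  (11520, 0, 0, [(0, [0], [0, 4]), (1, [], [1, 3]), (1, [], [2, 5])]),
  (11520, 0, 0, [(0, [0], [0, 4]), (1, [], [1, 5]), (1, [], [2, 3])]),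
  (11520, 0, 0, [(0, [0], [0, 5]), (1, [], [1, 2]), (1, [], [3, 4])]),
  (11520, 0, 0, [(0, [0], [0, 5]), (1, [], [1, 3]), (1, [], [2, 4])]),
  (11520, 0, 0, [(0, [0], [0, 5]), (1, [], [1, 4]), (1, [], [2, 3])]),
  (11520, 0, 0, [(0, [0], [1, 2]), (1, [], [0, 3]), (1, [], [4, 5])]),
  (11520, 0, 0, [(0, [0], [1, 2]), (1, [], [0, 4]), (1, [], [3, 5])]),
  (11520, 0, 0, [(0, [0], [1, 2]), (1, [], [0, 5]), (1, [], [3, 4])]),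
  (11520, 0, 0, [(0, [0], [1, 3]), (1, [], [0, 2]), (1, [], [4, 5])]),
  (11520, 0, 0, [(0, [0], [1, 3]), (1, [], [0, 4]), (1, [], [2, 5])]),
  (11520, 0, 0, [(0, [0], [1, 3]), (1, [], [0, 5]), (1, [], [2, 4])]),
  (11520, 0, 0, [(0, [0], [1, 4]), (1, [], [0, 2]), (1, [], [3, 5])]),
  (11520, 0, 0, [(0, [0], [1, 4]), (1, [], [0, 3]), (1, [], [2, 5])]),
  (11520, 0, 0, [(0, [0], [1, 4]), (1, [], [0, 5]), (1, [], [2, 3])]),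
  (11520, 0, 0, [(0, [0], [1, 5]), (1, [], [0, 2]), (1, [], [3, 4])]),
  (11520, 0, 0, [(0, [0], [1, 5]), (1, [], [0, 3]), (1, [], [2, 4])]),
  (11520, 0, 0, [(0, [0], [1, 5]), (1, [], [0, 4]), (1, [], [2, 3])]),
  (11520, 0, 0, [(0, [0], [2, 3]), (1, [], [0, 1]), (1, [], [4, 5])]),
  (11520, 0, 0, [(0, [0], [2, 3]), (1, [], [0, 4]), (1, [], [1, 5])]),
  (11520, 0, 0, [(0, [0], [2, 3]), (1, [], [0, 5]), (1, [], [1, 4])]),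
  (11520, 0, 0, [(0, [0], [2, 4]), (1, [], [0, 1]), (1, [], [3, 5])]),
  (11520, 0, 0, [(0, [0], [2, 4]), (1, [], [0, 3]), (1, [], [1, 5])]),
  (11520, 0, 0, [(0, [0], [2, 4]), (1, [], [0, 5]), (1, [], [1, 3])]),
  (11520, 0, 0, [(0, [0], [2, 5]), (1, [], [0, 1]), (1, [], [3, 4])]),
  (11520, 0, 0, [(0, [0], [2, 5]), (1, [], [0, 3]), (1, [], [1, 4])]),
  (11520, 0, 0, [(0, [0], [2, 5]), (1, [], [0, 4]), (1, [], [1, 3])]),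
  (11520, 0, 0, [(0, [0], [3, 4]), (1, [], [0, 1]), (1, [], [2, 5])]),
  (11520, 0, 0, [(0, [0], [3, 4]), (1, [], [0, 2]), (1, [], [1, 5])]),
  (11520, 0, 0, [(0, [0], [3, 4]), (1, [], [0, 5]), (1, [], [1, 2])]),
  (11520, 0, 0, [(0, [0], [3, 5]), (1, [], [0, 1]), (1, [], [2, 4])]),
  (11520, 0, 0, [(0, [0], [3, 5]), (1, [], [0, 2]), (1, [], [1, 4])]),
  (11520, 0, 0, [(0, [0], [3, 5]), (1, [], [0, 4]), (1, [], [1, 2])]),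
  (11520, 0, 0, [(0, [0], [4, 5]), (1, [], [0, 1]), (1, [], [2, 3])]),
  (11520, 0, 0, [(0, [0], [4, 5]), (1, [], [0, 2]), (1, [], [1, 3])]),
  (11520, 0, 0, [(0, [0], [4, 5]), (1, [], [0, 3]), (1, [], [1, 2])])]

def z7_1 : Cov := []

def w7_1 : List (List Wit) := [[(0, 0, 0, 0, 0), (0, 0, 0, 0, 0), (1, 0, 0, 0, 0), (1, 0, 0, 0, 0), (2, 0, 0, 0, 0), (2, 0, 0, 0, 0), (0, 0, 0, 0, 0), (0, 0, 0, 0, 0), (2, 0, 0, 0, 0), (2, 0, 0, 0, 0), (1, 0, 0, 0, 0), (1, 0, 0, 0, 0), (1, 0, 0, 0, 0), (1, 0, 0, 0, 0), (2, 0, 0, 0, 0), (2, 0, 0, 0, 0), (0, 0, 0, 0, 0), (0, 0, 0, 0, 0), (2, 0, 0, 0, 0), (2, 0, 0, 0, 0), (1, 0, 0, 0, 0), (1, 0, 0, 0, 0), (0, 0, 0, 0, 0), (0, 0, 0, 0, 0), (3, 0, 0, 0, 0), (3, 0, 0, 0, 0), (4, 0, 0, 0, 0), (4, 0, 0, 0, 0), (5, 0, 0, 0, 0), (5, 0, 0, 0, 0), (3, 0, 0,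 0, 0), (3, 0, 0, 0, 0), (5, 0, 0, 0, 0), (5, 0, 0, 0, 0), (4, 0, 0, 0, 0), (4, 0, 0, 0, 0), (4, 0, 0, 0, 0), (4, 0, 0, 0, 0), (5, 0, 0, 0, 0), (5, 0, 0, 0, 0), (3, 0, 0, 0, 0), (3, 0, 0, 0, 0), (5, 0, 0, 0, 0), (5, 0, 0, 0, 0), (4, 0, 0, 0, 0), (4, 0, 0, 0, 0), (3, 0, 0, 0, 0), (3, 0, 0, 0, 0), (6, 0, 0, 0, 0), (6, 0, 0, 0, 0), (7, 0, 0, 0, 0), (7, 0, 0, 0, 0), (8, 0, 0, 0, 0), (8, 0, 0, 0, 0), (6, 0, 0, 0, 0), (6, 0, 0, 0, 0), (8, 0, 0, 0, 0), (8, 0, 0, 0, 0), (7, 0, 0, 0, 0), (7, 0, 0, 0, 0), (7, 0, 0, 0, 0), (7, 0, 0, 0, 0), (8, 0, 0, 0, 0), (8, 0, 0, 0, 0), (6, 0, 0, 0, 0), (6, 0, 0, 0, 0), (8, 0, 0, 0, 0), (8, 0, 0, 0, 0), (7, 0, 0, 0, 0), (7, 0, 0, 0, 0), (6, 0, 0, 0, 0), (6, 0, 0, 0, 0), (9, 0, 0, 0, 0), (9, 0, 0, 0, 0), (10, 0, 0, 0, 0), (10, 0, 0, 0, 0), (11, 0, 0, 0,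 0), (11, 0, 0, 0, 0), (9, 0, 0, 0, 0), (9, 0, 0, 0, 0), (11, 0, 0, 0, 0), (11, 0, 0, 0, 0), (10, 0, 0, 0, 0), (10, 0, 0, 0, 0), (10, 0, 0, 0, 0), (10, 0, 0, 0, 0), (11, 0, 0, 0, 0), (11, 0, 0, 0, 0), (9, 0, 0, 0, 0), (9, 0, 0, 0, 0), (11, 0, 0, 0, 0), (11, 0, 0, 0, 0), (10, 0, 0, 0, 0), (10, 0, 0, 0, 0), (9, 0, 0, 0, 0), (9, 0, 0, 0, 0), (12, 0, 0, 0, 0), (12, 0, 0, 0, 0), (13, 0, 0, 0, 0), (13, 0, 0, 0, 0), (14, 0, 0, 0, 0), (14, 0, 0, 0, 0), (12, 0, 0, 0, 0), (12, 0, 0, 0, 0), (14, 0, 0, 0, 0), (14, 0, 0, 0, 0), (13, 0, 0, 0, 0), (13, 0, 0, 0, 0), (13, 0, 0, 0, 0), (13, 0, 0, 0, 0), (14, 0, 0, 0, 0), (14, 0, 0, 0, 0), (12, 0, 0, 0, 0), (12, 0, 0, 0, 0), (14, 0, 0, 0, 0), (14, 0, 0, 0, 0), (13, 0, 0, 0, 0), (13, 0, 0, 0, 0), (12, 0, 0, 0, 0), (12, 0, 0, 0, 0), (0, 0, 0, 0, 0),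 (0, 0, 0, 0, 0), (1, 0, 0, 0, 0), (1, 0, 0, 0, 0), (2, 0, 0, 0, 0), (2, 0, 0, 0, 0), (0, 0, 0, 0, 0), (0, 0, 0, 0, 0), (2, 0, 0, 0, 0), (2, 0, 0, 0, 0), (1, 0, 0, 0, 0), (1, 0, 0, 0, 0), (1, 0, 0, 0, 0), (1, 0, 0, 0, 0), (2, 0, 0, 0, 0), (2, 0, 0, 0, 0), (0, 0, 0, 0, 0), (0, 0, 0, 0, 0), (2, 0, 0, 0, 0), (2, 0, 0, 0, 0), (1, 0, 0, 0, 0), (1, 0, 0, 0, 0), (0, 0, 0, 0, 0), (0, 0, 0, 0, 0), (15, 0, 0, 0, 0), (15, 0, 0, 0, 0), (16, 0, 0, 0, 0), (16, 0, 0, 0, 0), (17, 0, 0, 0, 0), (17, 0, 0, 0, 0), (15, 0, 0, 0, 0), (15, 0, 0, 0, 0), (17, 0, 0, 0, 0), (17, 0, 0, 0, 0), (16, 0, 0, 0, 0), (16, 0, 0, 0, 0), (16, 0, 0, 0, 0), (16, 0, 0, 0, 0), (17, 0, 0, 0, 0), (17, 0, 0, 0, 0), (15, 0, 0, 0, 0), (15, 0, 0, 0, 0), (17, 0, 0, 0, 0), (17, 0, 0, 0, 0), (16, 0, 0, 0, 0), (16, 0, 0, 0, 0),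 (15, 0, 0, 0, 0), (15, 0, 0, 0, 0), (18, 0, 0, 0, 0), (18, 0, 0, 0, 0), (19, 0, 0, 0, 0), (19, 0, 0, 0, 0), (20, 0, 0, 0, 0), (20, 0, 0, 0, 0), (18, 0, 0, 0, 0), (18, 0, 0, 0, 0), (20, 0, 0, 0, 0), (20, 0, 0, 0, 0), (19, 0, 0, 0, 0), (19, 0, 0, 0, 0), (19, 0, 0, 0, 0), (19, 0, 0, 0, 0), (20, 0, 0, 0, 0), (20, 0, 0, 0, 0), (18, 0, 0, 0, 0), (18, 0, 0, 0, 0), (20, 0, 0, 0, 0), (20, 0, 0, 0, 0), (19, 0, 0, 0, 0), (19, 0, 0, 0, 0), (18, 0, 0, 0, 0), (18, 0, 0, 0, 0), (21, 0, 0, 0, 0), (21, 0, 0, 0, 0), (22, 0, 0, 0, 0), (22, 0, 0, 0, 0), (23, 0, 0, 0, 0), (23, 0, 0, 0, 0), (21, 0, 0, 0, 0), (21, 0, 0, 0, 0), (23, 0, 0, 0, 0), (23, 0, 0, 0, 0), (22, 0, 0, 0, 0), (22, 0, 0, 0, 0), (22, 0, 0, 0, 0), (22, 0, 0, 0, 0), (23, 0, 0, 0, 0), (23, 0, 0, 0, 0), (21, 0, 0, 0, 0), (21, 0, 0, 0,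 0), (23, 0, 0, 0, 0), (23, 0, 0, 0, 0), (22, 0, 0, 0, 0), (22, 0, 0, 0, 0), (21, 0, 0, 0, 0), (21, 0, 0, 0, 0), (24, 0, 0, 0, 0), (24, 0, 0, 0, 0), (25, 0, 0, 0, 0), (25, 0, 0, 0, 0), (26, 0, 0, 0, 0), (26, 0, 0, 0, 0), (24, 0, 0, 0, 0), (24, 0, 0, 0, 0), (26, 0, 0, 0, 0), (26, 0, 0, 0, 0), (25, 0, 0, 0, 0), (25, 0, 0, 0, 0), (25, 0, 0, 0, 0), (25, 0, 0, 0, 0), (26, 0, 0, 0, 0), (26, 0, 0, 0, 0), (24, 0, 0, 0, 0), (24, 0, 0, 0, 0), (26, 0, 0, 0, 0), (26, 0, 0, 0, 0), (25, 0, 0, 0, 0), (25, 0, 0, 0, 0), (24, 0, 0, 0, 0), (24, 0, 0, 0, 0), (3, 0, 0, 0, 0), (3, 0, 0, 0, 0), (4, 0, 0, 0, 0), (4, 0, 0, 0, 0), (5, 0, 0, 0, 0), (5, 0, 0, 0, 0), (3, 0, 0, 0, 0), (3, 0, 0, 0, 0), (5, 0, 0, 0, 0), (5, 0, 0, 0, 0), (4, 0, 0, 0, 0), (4, 0, 0, 0, 0), (4, 0, 0, 0, 0), (4, 0, 0, 0, 0), (5, 0,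 0, 0, 0), (5, 0, 0, 0, 0), (3, 0, 0, 0, 0), (3, 0, 0, 0, 0), (5, 0, 0, 0, 0), (5, 0, 0, 0, 0), (4, 0, 0, 0, 0), (4, 0, 0, 0, 0), (3, 0, 0, 0, 0), (3, 0, 0, 0, 0), (15, 0, 0, 0, 0), (15, 0, 0, 0, 0), (16, 0, 0, 0, 0), (16, 0, 0, 0, 0), (17, 0, 0, 0, 0), (17, 0, 0, 0, 0), (15, 0, 0, 0, 0), (15, 0, 0, 0, 0), (17, 0, 0, 0, 0), (17, 0, 0, 0, 0), (16, 0, 0, 0, 0), (16, 0, 0, 0, 0), (16, 0, 0, 0, 0), (16, 0, 0, 0, 0), (17, 0, 0, 0, 0), (17, 0, 0, 0, 0), (15, 0, 0, 0, 0), (15, 0, 0, 0, 0), (17, 0, 0, 0, 0), (17, 0, 0, 0, 0), (16, 0, 0, 0, 0), (16, 0, 0, 0, 0), (15, 0, 0, 0, 0), (15, 0, 0, 0, 0), (27, 0, 0, 0, 0), (27, 0, 0, 0, 0), (28, 0, 0, 0, 0), (28, 0, 0, 0, 0), (29, 0, 0, 0, 0), (29, 0, 0, 0, 0), (27, 0, 0, 0, 0), (27, 0, 0, 0, 0), (29, 0, 0, 0, 0), (29, 0, 0, 0, 0), (28, 0, 0, 0,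 0), (28, 0, 0, 0, 0), (28, 0, 0, 0, 0), (28, 0, 0, 0, 0), (29, 0, 0, 0, 0), (29, 0, 0, 0, 0), (27, 0, 0, 0, 0), (27, 0, 0, 0, 0), (29, 0, 0, 0, 0), (29, 0, 0, 0, 0), (28, 0, 0, 0, 0), (28, 0, 0, 0, 0), (27, 0, 0, 0, 0), (27, 0, 0, 0, 0), (30, 0, 0, 0, 0), (30, 0, 0, 0, 0), (31, 0, 0, 0, 0), (31, 0, 0, 0, 0), (32, 0, 0, 0, 0), (32, 0, 0, 0, 0), (30, 0, 0, 0, 0), (30, 0, 0, 0, 0), (32, 0, 0, 0, 0), (32, 0, 0, 0, 0), (31, 0, 0, 0, 0), (31, 0, 0, 0, 0), (31, 0, 0, 0, 0), (31, 0, 0, 0, 0), (32, 0, 0, 0, 0), (32, 0, 0, 0, 0), (30, 0, 0, 0, 0), (30, 0, 0, 0, 0), (32, 0, 0, 0, 0), (32, 0, 0, 0, 0), (31, 0, 0, 0, 0), (31, 0, 0, 0, 0), (30, 0, 0, 0, 0), (30, 0, 0, 0, 0), (33, 0, 0, 0, 0), (33, 0, 0, 0, 0), (34, 0, 0, 0, 0), (34, 0, 0, 0, 0), (35, 0, 0, 0, 0), (35, 0, 0, 0, 0), (33, 0, 0,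 0, 0), (33, 0, 0, 0, 0), (35, 0, 0, 0, 0), (35, 0, 0, 0, 0), (34, 0, 0, 0, 0), (34, 0, 0, 0, 0), (34, 0, 0, 0, 0), (34, 0, 0, 0, 0), (35, 0, 0, 0, 0), (35, 0, 0, 0, 0), (33, 0, 0, 0, 0), (33, 0, 0, 0, 0), (35, 0, 0, 0, 0), (35, 0, 0, 0, 0), (34, 0, 0, 0, 0), (34, 0, 0, 0, 0), (33, 0, 0, 0, 0), (33, 0, 0, 0, 0), (6, 0, 0, 0, 0), (6, 0, 0, 0, 0), (7, 0, 0, 0, 0), (7, 0, 0, 0, 0), (8, 0, 0, 0, 0), (8, 0, 0, 0, 0), (6, 0, 0, 0, 0), (6, 0, 0, 0, 0), (8, 0, 0, 0, 0), (8, 0, 0, 0, 0), (7, 0, 0, 0, 0), (7, 0, 0, 0, 0), (7, 0, 0, 0, 0), (7, 0, 0, 0, 0), (8, 0, 0, 0, 0), (8, 0, 0, 0, 0), (6, 0, 0, 0, 0), (6, 0, 0, 0, 0), (8, 0, 0, 0, 0), (8, 0, 0, 0, 0), (7, 0, 0, 0, 0), (7, 0, 0, 0, 0), (6, 0, 0, 0, 0), (6, 0, 0, 0, 0), (18, 0, 0, 0, 0), (18, 0, 0, 0, 0), (19, 0, 0, 0, 0), (19, 0, 0, 0,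 0), (20, 0, 0, 0, 0), (20, 0, 0, 0, 0), (18, 0, 0, 0, 0), (18, 0, 0, 0, 0), (20, 0, 0, 0, 0), (20, 0, 0, 0, 0), (19, 0, 0, 0, 0), (19, 0, 0, 0, 0), (19, 0, 0, 0, 0), (19, 0, 0, 0, 0), (20, 0, 0, 0, 0), (20, 0, 0, 0, 0), (18, 0, 0, 0, 0), (18, 0, 0, 0, 0), (20, 0, 0, 0, 0), (20, 0, 0, 0, 0), (19, 0, 0, 0, 0), (19, 0, 0, 0, 0), (18, 0, 0, 0, 0), (18, 0, 0, 0, 0), (27, 0, 0, 0, 0), (27, 0, 0, 0, 0), (28, 0, 0, 0, 0), (28, 0, 0, 0, 0), (29, 0, 0, 0, 0), (29, 0, 0, 0, 0), (27, 0, 0, 0, 0), (27, 0, 0, 0, 0), (29, 0, 0, 0, 0), (29, 0, 0, 0, 0), (28, 0, 0, 0, 0), (28, 0, 0, 0, 0), (28, 0, 0, 0, 0), (28, 0, 0, 0, 0), (29, 0, 0, 0, 0), (29, 0, 0, 0, 0), (27, 0, 0, 0, 0), (27, 0, 0, 0, 0), (29, 0, 0, 0, 0), (29, 0, 0, 0, 0), (28, 0, 0, 0, 0), (28, 0, 0, 0, 0), (27, 0, 0, 0, 0), (27, 0, 0,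 0, 0), (36, 0, 0, 0, 0), (36, 0, 0, 0, 0), (37, 0, 0, 0, 0), (37, 0, 0, 0, 0), (38, 0, 0, 0, 0), (38, 0, 0, 0, 0), (36, 0, 0, 0, 0), (36, 0, 0, 0, 0), (38, 0, 0, 0, 0), (38, 0, 0, 0, 0), (37, 0, 0, 0, 0), (37, 0, 0, 0, 0), (37, 0, 0, 0, 0), (37, 0, 0, 0, 0), (38, 0, 0, 0, 0), (38, 0, 0, 0, 0), (36, 0, 0, 0, 0), (36, 0, 0, 0, 0), (38, 0, 0, 0, 0), (38, 0, 0, 0, 0), (37, 0, 0, 0, 0), (37, 0, 0, 0, 0), (36, 0, 0, 0, 0), (36, 0, 0, 0, 0), (39, 0, 0, 0, 0), (39, 0, 0, 0, 0), (40, 0, 0, 0, 0), (40, 0, 0, 0, 0), (41, 0, 0, 0, 0), (41, 0, 0, 0, 0), (39, 0, 0, 0, 0), (39, 0, 0, 0, 0), (41, 0, 0, 0, 0), (41, 0, 0, 0, 0), (40, 0, 0, 0, 0), (40, 0, 0, 0, 0), (40, 0, 0, 0, 0), (40, 0, 0, 0, 0), (41, 0, 0, 0, 0), (41, 0, 0, 0, 0), (39, 0, 0, 0, 0), (39, 0, 0, 0, 0), (41, 0, 0, 0, 0), (41, 0,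 0, 0, 0), (40, 0, 0, 0, 0), (40, 0, 0, 0, 0), (39, 0, 0, 0, 0), (39, 0, 0, 0, 0), (9, 0, 0, 0, 0), (9, 0, 0, 0, 0), (10, 0, 0, 0, 0), (10, 0, 0, 0, 0), (11, 0, 0, 0, 0), (11, 0, 0, 0, 0), (9, 0, 0, 0, 0), (9, 0, 0, 0, 0), (11, 0, 0, 0, 0), (11, 0, 0, 0, 0), (10, 0, 0, 0, 0), (10, 0, 0, 0, 0), (10, 0, 0, 0, 0), (10, 0, 0, 0, 0), (11, 0, 0, 0, 0), (11, 0, 0, 0, 0), (9, 0, 0, 0, 0), (9, 0, 0, 0, 0), (11, 0, 0, 0, 0), (11, 0, 0, 0, 0), (10, 0, 0, 0, 0), (10, 0, 0, 0, 0), (9, 0, 0, 0, 0), (9, 0, 0, 0, 0), (21, 0, 0, 0, 0), (21, 0, 0, 0, 0), (22, 0, 0, 0, 0), (22, 0, 0, 0, 0), (23, 0, 0, 0, 0), (23, 0, 0, 0, 0), (21, 0, 0, 0, 0), (21, 0, 0, 0, 0), (23, 0, 0, 0, 0), (23, 0, 0, 0, 0), (22, 0, 0, 0, 0), (22, 0, 0, 0, 0), (22, 0, 0, 0, 0), (22, 0, 0, 0, 0), (23, 0, 0, 0, 0), (23, 0, 0,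 0, 0), (21, 0, 0, 0, 0), (21, 0, 0, 0, 0), (23, 0, 0, 0, 0), (23, 0, 0, 0, 0), (22, 0, 0, 0, 0), (22, 0, 0, 0, 0), (21, 0, 0, 0, 0), (21, 0, 0, 0, 0), (30, 0, 0, 0, 0), (30, 0, 0, 0, 0), (31, 0, 0, 0, 0), (31, 0, 0, 0, 0), (32, 0, 0, 0, 0), (32, 0, 0, 0, 0), (30, 0, 0, 0, 0), (30, 0, 0, 0, 0), (32, 0, 0, 0, 0), (32, 0, 0, 0, 0), (31, 0, 0, 0, 0), (31, 0, 0, 0, 0), (31, 0, 0, 0, 0), (31, 0, 0, 0, 0), (32, 0, 0, 0, 0), (32, 0, 0, 0, 0), (30, 0, 0, 0, 0), (30, 0, 0, 0, 0), (32, 0, 0, 0, 0), (32, 0, 0, 0, 0), (31, 0, 0, 0, 0), (31, 0, 0, 0, 0), (30, 0, 0, 0, 0), (30, 0, 0, 0, 0), (36, 0, 0, 0, 0), (36, 0, 0, 0, 0), (37, 0, 0, 0, 0), (37, 0, 0, 0, 0), (38, 0, 0, 0, 0), (38, 0, 0, 0, 0), (36, 0, 0, 0, 0), (36, 0, 0, 0, 0), (38, 0, 0, 0, 0), (38, 0, 0, 0, 0), (37, 0, 0, 0, 0), (37, 0,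 0, 0, 0), (37, 0, 0, 0, 0), (37, 0, 0, 0, 0), (38, 0, 0, 0, 0), (38, 0, 0, 0, 0), (36, 0, 0, 0, 0), (36, 0, 0, 0, 0), (38, 0, 0, 0, 0), (38, 0, 0, 0, 0), (37, 0, 0, 0, 0), (37, 0, 0, 0, 0), (36, 0, 0, 0, 0), (36, 0, 0, 0, 0), (42, 0, 0, 0, 0), (42, 0, 0, 0, 0), (43, 0, 0, 0, 0), (43, 0, 0, 0, 0), (44, 0, 0, 0, 0), (44, 0, 0, 0, 0), (42, 0, 0, 0, 0), (42, 0, 0, 0, 0), (44, 0, 0, 0, 0), (44, 0, 0, 0, 0), (43, 0, 0, 0, 0), (43, 0, 0, 0, 0), (43, 0, 0, 0, 0), (43, 0, 0, 0, 0), (44, 0, 0, 0, 0), (44, 0, 0, 0, 0), (42, 0, 0, 0, 0), (42, 0, 0, 0, 0), (44, 0, 0, 0, 0), (44, 0, 0, 0, 0), (43, 0, 0, 0, 0), (43, 0, 0, 0, 0), (42, 0, 0, 0, 0), (42, 0, 0, 0, 0), (12, 0, 0, 0, 0), (12, 0, 0, 0, 0), (13, 0, 0, 0, 0), (13, 0, 0, 0, 0), (14, 0, 0, 0, 0), (14, 0, 0, 0, 0), (12, 0, 0, 0, 0), (12,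 0, 0, 0, 0), (14, 0, 0, 0, 0), (14, 0, 0, 0, 0), (13, 0, 0, 0, 0), (13, 0, 0, 0, 0), (13, 0, 0, 0, 0), (13, 0, 0, 0, 0), (14, 0, 0, 0, 0), (14, 0, 0, 0, 0), (12, 0, 0, 0, 0), (12, 0, 0, 0, 0), (14, 0, 0, 0, 0), (14, 0, 0, 0, 0), (13, 0, 0, 0, 0), (13, 0, 0, 0, 0), (12, 0, 0, 0, 0), (12, 0, 0, 0, 0), (24, 0, 0, 0, 0), (24, 0, 0, 0, 0), (25, 0, 0, 0, 0), (25, 0, 0, 0, 0), (26, 0, 0, 0, 0), (26, 0, 0, 0, 0), (24, 0, 0, 0, 0), (24, 0, 0, 0, 0), (26, 0, 0, 0, 0), (26, 0, 0, 0, 0), (25, 0, 0, 0, 0), (25, 0, 0, 0, 0), (25, 0, 0, 0, 0), (25, 0, 0, 0, 0), (26, 0, 0, 0, 0), (26, 0, 0, 0, 0), (24, 0, 0, 0, 0), (24, 0, 0, 0, 0), (26, 0, 0, 0, 0), (26, 0, 0, 0, 0), (25, 0, 0, 0, 0), (25, 0, 0, 0, 0), (24, 0, 0, 0, 0), (24, 0, 0, 0, 0), (33, 0, 0, 0, 0), (33, 0, 0, 0, 0), (34, 0, 0, 0, 0),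 (34, 0, 0, 0, 0), (35, 0, 0, 0, 0), (35, 0, 0, 0, 0), (33, 0, 0, 0, 0), (33, 0, 0, 0, 0), (35, 0, 0, 0, 0), (35, 0, 0, 0, 0), (34, 0, 0, 0, 0), (34, 0, 0, 0, 0), (34, 0, 0, 0, 0), (34, 0, 0, 0, 0), (35, 0, 0, 0, 0), (35, 0, 0, 0, 0), (33, 0, 0, 0, 0), (33, 0, 0, 0, 0), (35, 0, 0, 0, 0), (35, 0, 0, 0, 0), (34, 0, 0, 0, 0), (34, 0, 0, 0, 0), (33, 0, 0, 0, 0), (33, 0, 0, 0, 0), (39, 0, 0, 0, 0), (39, 0, 0, 0, 0), (40, 0, 0, 0, 0), (40, 0, 0, 0, 0), (41, 0, 0, 0, 0), (41, 0, 0, 0, 0), (39, 0, 0, 0, 0), (39, 0, 0, 0, 0), (41, 0, 0, 0, 0), (41, 0, 0, 0, 0), (40, 0, 0, 0, 0), (40, 0, 0, 0, 0), (40, 0, 0, 0, 0), (40, 0, 0, 0, 0), (41, 0, 0, 0, 0), (41, 0, 0, 0, 0), (39, 0, 0, 0, 0), (39, 0, 0, 0, 0), (41, 0, 0, 0, 0), (41, 0, 0, 0, 0), (40, 0, 0, 0, 0), (40, 0, 0, 0, 0), (39, 0, 0, 0,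 0), (39, 0, 0, 0, 0), (42, 0, 0, 0, 0), (42, 0, 0, 0, 0), (43, 0, 0, 0, 0), (43, 0, 0, 0, 0), (44, 0, 0, 0, 0), (44, 0, 0, 0, 0), (42, 0, 0, 0, 0), (42, 0, 0, 0, 0), (44, 0, 0, 0, 0), (44, 0, 0, 0, 0), (43, 0, 0, 0, 0), (43, 0, 0, 0, 0), (43, 0, 0, 0, 0), (43, 0, 0, 0, 0), (44, 0, 0, 0, 0), (44, 0, 0, 0, 0), (42, 0, 0, 0, 0), (42, 0, 0, 0, 0), (44, 0, 0, 0, 0), (44, 0, 0, 0, 0), (43, 0, 0, 0, 0), (43, 0, 0, 0, 0), (42, 0, 0, 0, 0), (42, 0, 0, 0, 0)]]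

theorem tr7 : trK keys lk7 kl7 = true := by
  decide +kernel

theorem x7_0 : expB 1 6 dg0 dg8 m7_0 (l7_0 ++ z7_0) w7_0 = true := by
  decide +kernel

theorem x7_1 : expB 1 6 dg0 dg8 m7_1 (l7_1 ++ z7_1) w7_1 = true := by
  decide +kernel

theorem t7_0_0 : chkS lk7 1 6 [(1, m7_0)] l7_0
  [(8, 528, 528, 1070130, 3280980), (6, 258, 33, 5378115, 5309490), (6, 258, 33, 2428995, 4261170), (6, 258, 33, 5374275, 5309475), (6, 258, 33, 2425155, 4261155), (12, 258, 33, 5517840, 5517840), (1, 528, 528, 1070130, 3280980), (9, 288, 288, 74805, 136005), (9, 288, 288, 1057845, 136020), (9, 288, 288, 79140, 2109765), (9, 288, 288, 1062180, 2109780), (7, 258, 33, 5517840, 5517840), (1, 528, 528, 1066290, 2297940), (9, 288, 288, 82485, 201285), (9, 288, 288, 1065525, 201300), (9, 288, 288, 86820,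 3154245), (9, 288, 288, 1069860, 3154260), (7, 258, 33, 5514000, 5514000), (9, 288, 288, 74835, 1180485), (9, 288, 288, 82515, 1245765), (7, 18, 18, 3232800, 3297600), (6, 258, 33, 5391120, 5448720), (5, 528, 528, 1057605, 74580), (5, 528, 528, 1061445, 78420), (9, 288, 288, 1057875, 1180500), (9, 288, 288, 1065555, 1245780), (7, 18, 18, 1266720, 3293520), (6, 258, 33, 2442000, 4400400), (5, 528, 528, 1066275, 2294100), (5, 528, 528, 1070115, 3277140), (9, 288, 288, 79170, 2175045), (9, 288, 288, 1062210, 2175060), (7, 513, 513, 5514000, 5514000), (9, 288, 288, 86850, 3219525), (9, 288, 288, 1069890, 3219540), (7, 513, 513, 5517840, 5517840), (6, 258, 33, 5391105, 5448705), (5, 528, 528, 1057620, 1057620), (5, 528, 528, 1061460, 1061460), (6, 258, 33, 2441985, 4400385), (5, 528,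 528, 1066290, 2297940), (5, 528, 528, 1070130, 3280980), (12, 513, 513, 5517840, 5517840), (7, 18, 18, 3219540, 1069890), (7, 18, 18, 1253460, 1065810)]
  [(1, 23040), (5, 92160), (6, 92160), (7, 92160), (8, 11520), (9, 184320), (12, 23040)] = true := by
  decide +kernel

theorem t7_0_1 : chkS lk7 1 6 [(1, m7_0)] l7_1
  [(13, 1, 1, 5517840, 5517840), (14, 1, 1, 5517840, 5517840), (14, 1, 1, 4534800, 4534800), (15, 1, 1, 5513985, 5513985), (16, 1, 1, 5513985, 5513985), (16, 1, 1, 4530945, 4530945), (15, 1, 1, 5517825, 5517825), (16, 1, 1, 5517825, 5517825), (16, 1, 1, 4534785, 4534785), (11, 16, 16, 2114865, 2299140), (11, 16, 16, 2118705, 3282180), (10, 16, 16, 2118705, 3282180), (11, 16, 16, 148785, 2298885), (11, 16, 16, 152625, 3281925), (10, 16, 16, 152625, 3281925), (15,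 1, 1, 5514000, 5514000), (16, 1, 1, 5514000, 5514000), (16, 1, 1, 4530960, 4530960), (15, 1, 1, 5517840, 5517840), (16, 1, 1, 5517840, 5517840), (16, 1, 1, 4534800, 4534800), (11, 16, 16, 2114835, 2295060), (11, 16, 16, 2118675, 3278100), (10, 16, 16, 2118675, 3278100), (11, 16, 16, 148755, 2294805), (11, 16, 16, 152595, 3277845), (10, 16, 16, 152595, 3277845), (13, 1, 1, 5509170, 5509170), (14, 1, 1, 5509170, 5509170), (14, 1, 1, 4526130, 4526130), (10, 16, 16, 2109780, 1062180), (11, 16, 16, 2109765, 79140), (11, 16, 16, 2109780, 1062180), (10, 16, 16, 143700, 1061925), (11, 16, 16, 143685, 78885), (11, 16, 16, 143700, 1061925), (10, 16, 16, 2102100, 1058100), (11, 16, 16, 2102085, 75060), (11, 16, 16, 2102100, 1058100), (10, 16, 16, 136020, 1057845), (11, 16, 16, 136005, 74805),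 (11, 16, 16, 136020, 1057845), (2, 16, 16, 1070130, 3280980), (0, 16, 16, 1070130, 3280980), (0, 16, 16, 1066290, 2297940)]
  [(0, 23040), (2, 11520), (10, 92160), (11, 184320), (13, 23040), (14, 46080), (15, 46080), (16, 92160)] = true := by
  decide +kernel

theorem t7_1_1 : chkS lk7 1 6 [(1, m7_1)] l7_1
  [(3, 0, 0, 5517840, 5517840), (21, 0, 0, 4534800, 4534800), (21, 0, 0, 5517840, 5517840), (4, 0, 0, 5517840, 5517840), (20, 0, 0, 3298320, 3298320), (20, 0, 0, 2315280, 3294480), (4, 0, 0, 5514000, 5514000), (20, 0, 0, 3294480, 2315280), (20, 0, 0, 2311440, 2311440), (20, 0, 0, 5517840, 5517840), (20, 0, 0, 5514000, 5514000), (4, 0, 0, 3298320, 3298320), (20, 0, 0, 4534800, 4534800), (20, 0, 0, 4530960, 4530960), (4, 0, 0, 2315280, 3294480), (4, 0, 0, 5517825, 5517825), (20,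 0, 0, 3298305, 3298305), (20, 0, 0, 2315265, 3294465), (4, 0, 0, 5513985, 5513985), (20, 0, 0, 3294465, 2315265), (20, 0, 0, 2311425, 2311425), (20, 0, 0, 5517825, 5517825), (20, 0, 0, 5513985, 5513985), (4, 0, 0, 3298305, 3298305), (20, 0, 0, 4534785, 4534785), (20, 0, 0, 4530945, 4530945), (4, 0, 0, 2315265, 3294465), (17, 0, 0, 3298320, 3298320), (18, 0, 0, 3280980, 1070130), (18, 0, 0, 2297940, 1066290), (18, 0, 0, 3482640, 4346640), (19, 0, 0, 3482640, 4346640), (19, 0, 0, 2372880, 2372880), (18, 0, 0, 5448720, 5391120), (19, 0, 0, 5448720, 5391120), (19, 0, 0, 4338960, 2438160), (18, 0, 0, 3490320, 4411920), (19, 0, 0, 3490320, 4411920), (19, 0, 0, 2380560, 3417360), (18, 0, 0, 5456400, 5456400), (19, 0, 0, 5456400, 5456400), (19, 0, 0, 4346640, 3482640), (17, 0, 0, 5517840,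 5517840), (18, 0, 0, 1061460, 1061460), (18, 0, 0, 1057620, 1057620)]
  [(3, 11520), (4, 92160), (17, 23040), (18, 92160), (19, 92160), (20, 184320), (21, 23040)] = true := by
  decide +kernel

section

variable {κ ι : Type*} [Fintype κ] [Fintype ι] [Inhabited κ] [Inhabited ι]

noncomputable def F7_0 (E : Env κ ι) : (Fin 1 → κ) → (Fin 6 → ι) → ℝ := op2 (P0 κ) (P8 ι) (fB E 1 6 m7_0)

noncomputable def F7_1 (E : Env κ ι) : (Fin 1 → κ) → (Fin 6 → ι) → ℝ := op2 (P0 κ) (P8 ι) (fB E 1 6 m7_1)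

def r7_0_0 : List (ℕ × ℤ) := [(1, 23040), (5, 92160), (6, 92160), (7, 92160), (8, 11520), (9, 184320), (12, 23040)]

theorem h7_0_0 (E : Env κ ι) : ip (F7_0 E) (F7_0 E) = dotS (ek E lk7) r7_0_0 :=
  op_entryZ E lk7 1 6 _ _ _ _ (pg0 κ) (pg8 ι) m7_0 m7_0 l7_0 z7_0 w7_0 x7_0 (by decide) _ (chkS_sound E lk7 1 6 _ _ _ _ t7_0_0)

def r7_0_1 : List (ℕ × ℤ) := [(0, 23040), (2, 11520), (10, 92160), (11, 184320), (13, 23040), (14, 46080), (15, 46080), (16, 92160)]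

theorem h7_0_1 (E : Env κ ι) : ip (F7_0 E) (F7_1 E) = dotS (ek E lk7) r7_0_1 :=
  op_entryZ E lk7 1 6 _ _ _ _ (pg0 κ) (pg8 ι) m7_0 m7_1 l7_1 z7_1 w7_1 x7_1 (by decide) _ (chkS_sound E lk7 1 6 _ _ _ _ t7_0_1)

def r7_1_1 : List (ℕ × ℤ) := [(3, 11520), (4, 92160), (17, 23040), (18, 92160), (19, 92160), (20, 184320), (21, 23040)]

theorem h7_1_1 (E : Env κ ι) : ip (F7_1 E) (F7_1 E) = dotS (ek E lk7) r7_1_1 :=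
  op_entryZ E lk7 1 6 _ _ _ _ (pg0 κ) (pg8 ι) m7_1 m7_1 l7_1 z7_1 w7_1 x7_1 (by decide) _ (chkS_sound E lk7 1 6 _ _ _ _ t7_1_1)

theorem row7_0 (E : Env κ ι) : RowG (ek E lk7) (F7_0 E) [F7_0 E, F7_1 E] [r7_0_0, r7_0_1] :=
  rowG_cons _ _ _ _ _ _ (h7_0_0 E) (rowG_cons _ _ _ _ _ _ (h7_0_1 E) (rowG_nil _ _))

theorem row7_1 (E : Env κ ι) : RowG (ek E lk7) (F7_1 E) [F7_1 E] [r7_1_1] :=
  rowG_cons _ _ _ _ _ _ (h7_1_1 E) (rowG_nil _ _)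

def tab7 : List (List (List (ℕ × ℤ))) := [[r7_0_0, r7_0_1], [r7_1_1]]

theorem tri7 (E : Env κ ι) : TriG (ek E lk7) [F7_0 E, F7_1 E] tab7 := by
  refine triG_cons _ _ _ _ _ (row7_0 E) ?_
  refine triG_cons _ _ _ _ _ (row7_1 E) ?_
  exact triG_nil _

end

def lk8 : List Key := [
  (2, 6, [(0, [0], [0, 1]), (0, [0], [0, 1]), (0, [1], [2, 3]), (0, [1], [4, 5]), (1, [], [2, 4]), (1, [], [3, 5])]),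
  (3, 6, [(0, [0], [0, 1]), (0, [0], [0, 1]), (0, [1], [2, 3]), (0, [1], [4, 5]), (0, [2], [2, 4]), (0, [2], [3, 5])]),
  (2, 6, [(0, [0], [0, 1]), (0, [0], [0, 1]), (0, [1], [2, 3]), (0, [1], [4, 5]), (1, [], [4, 5]), (1, [], [2, 3])]),
  (1, 6, [(0, [0], [0, 1]), (0, [0], [0, 1]), (1, [], [2, 3]), (1, [], [2, 3]), (1, [], [4, 5]), (1, [], [4, 5])]),
  (1, 6, [(0, [0], [0, 1]), (0, [0], [0, 2]), (1, [], [2, 3]), (1, [], [1, 3]), (1, [], [4, 5]), (1, [], [4, 5])]),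
  (3, 6, [(0, [0], [0, 1]), (0, [1], [2, 3]), (0, [1], [4, 5]), (0, [0], [2, 4]), (0, [2], [0, 5]), (0, [2], [1, 3])]),
  (3, 6, [(0, [0], [0, 1]), (0, [1], [0, 2]), (0, [1], [3, 4]), (0, [0], [3, 4]), (0, [2], [2, 5]), (0, [2], [1, 5])]),
  (3, 6, [(0, [0], [0, 1]), (0, [0], [2, 3]), (0, [1], [0, 2]), (0, [2], [1, 3]), (0, [2], [4, 5]), (0, [1], [4, 5])]),
  (3, 6, [(0, [0], [0, 1]), (0, [0], [0, 1]), (0, [1], [2, 3]), (0, [2], [4, 5]), (0, [1], [4, 5]), (0, [2], [2, 3])]),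
  (3, 6, [(0, [0], [0, 1]), (0, [0], [2, 0]), (0, [1], [3, 1]), (0, [2], [2, 4]), (0, [2], [3, 5]), (0, [1], [4, 5])]),
  (2, 6, [(0, [0], [0, 1]), (0, [0], [2, 0]), (0, [1], [3, 1]), (0, [1], [4, 5]), (1, [], [4, 5]), (1, [], [2, 3])]),
  (2, 6, [(0, [0], [0, 1]), (0, [0], [2, 0]), (0, [1], [3, 1]), (0, [1], [4, 5]), (1, [], [2, 4]), (1, [], [3, 5])]),
  (3, 6, [(0, [0], [0, 1]), (0, [0], [2, 3]), (0, [1], [0, 1]), (0, [2], [4, 5]), (0, [2], [2, 3]), (0, [1], [4, 5])]),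
  (2, 6, [(0, [0], [0, 1]), (0, [0], [2, 3]), (0, [1], [0, 1]), (0, [1], [4, 5]), (1, [], [4, 5]), (1, [], [2, 3])]),
  (2, 6, [(0, [0], [0, 1]), (0, [0], [2, 3]), (0, [1], [0, 1]), (0, [1], [4, 5]), (1, [], [2, 4]), (1, [], [3, 5])]),
  (2, 6, [(0, [0], [0, 1]), (0, [0], [2, 3]), (0, [1], [1, 3]), (0, [1], [4, 5]), (1, [], [4, 5]), (1, [], [0, 2])]),
  (2, 6, [(0, [0], [0, 1]), (0, [0], [2, 3]), (0, [1], [1, 3]), (0, [1], [4, 5]), (1, [], [0, 4]), (1, [], [2, 5])]),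
  (1, 6, [(0, [0], [0, 1]), (1, [], [0, 1]), (1, [], [2, 3]), (0, [0], [4, 5]), (1, [], [4, 5]), (1, [], [2, 3])]),
  (1, 6, [(0, [0], [0, 1]), (1, [], [0, 1]), (1, [], [2, 3]), (0, [0], [4, 5]), (1, [], [2, 4]), (1, [], [3, 5])]),
  (1, 6, [(0, [0], [0, 1]), (1, [], [2, 0]), (1, [], [3, 1]), (0, [0], [4, 5]), (1, [], [2, 4]), (1, [], [3, 5])]),
  (1, 6, [(0, [0], [0, 1]), (1, [], [1, 2]), (1, [], [3, 2]), (0, [0], [0, 4]), (1, [], [4, 5]), (1, [], [3, 5])]),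
  (1, 6, [(0, [0], [0, 1]), (1, [], [2, 3]), (1, [], [4, 3]), (0, [0], [0, 1]), (1, [], [2, 5]), (1, [], [4, 5])])]

def kl8 : List ℕ := [11, 13, 14, 15, 17, 24, 25, 26, 30, 39, 40, 41, 45, 46, 47, 50, 51, 53, 54, 55, 58, 67]

def m8_0 : Base := (1, 0, [(0, [1], [0, 1]), (0, [1], [2, 3]), (0, [0], [4, 5])])

def l8_0 : Cov := [(1440, 1, 0, [(0, [1], [0, 1]), (0, [1], [2, 3]), (0, [0], [4, 5])]),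
  (1440, 1, 0, [(0, [1], [0, 1]), (0, [1], [2, 4]), (0, [0], [3, 5])]),
  (1440, 1, 0, [(0, [1], [0, 1]), (0, [1], [3, 4]), (0, [0], [2, 5])]),
  (1440, 1, 0, [(0, [1], [0, 2]), (0, [1], [1, 3]), (0, [0], [4, 5])]),
  (1440, 1, 0, [(0, [1], [0, 2]), (0, [1], [1, 4]), (0, [0], [3, 5])]),
  (1440, 1, 0, [(0, [1], [0, 2]), (0, [1], [3, 4]), (0, [0], [1, 5])]),
  (1440, 1, 0, [(0, [1], [0, 3]), (0, [1], [1, 2]), (0, [0], [4, 5])]),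
  (1440, 1, 0, [(0, [1], [0, 3]), (0, [1], [1, 4]), (0, [0], [2, 5])]),
  (1440, 1, 0, [(0, [1], [0, 3]), (0, [1], [2, 4]), (0, [0], [1, 5])]),
  (1440, 1, 0, [(0, [1], [0, 4]), (0, [1], [1, 2]), (0, [0], [3, 5])]),
  (1440, 1, 0, [(0, [1], [0, 4]), (0, [1], [1, 3]), (0, [0], [2, 5])]),
  (1440, 1, 0, [(0, [1], [0, 4]), (0, [1], [2, 3]), (0, [0], [1, 5])]),
  (-1440, 1, 0, [(0, [1], [1, 2]), (0, [1], [3, 5]), (0, [0], [4, 0])]),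
  (-1440, 1, 0, [(0, [1], [1, 2]), (0, [1], [4, 5]), (0, [0], [3, 0])]),
  (-1440, 1, 0, [(0, [1], [1, 3]), (0, [1], [2, 5]), (0, [0], [4, 0])]),
  (-1440, 1, 0, [(0, [1], [1, 3]), (0, [1], [4, 5]), (0, [0], [2, 0])]),
  (-1440, 1, 0, [(0, [1], [1, 4]), (0, [1], [2, 5]), (0, [0], [3, 0])]),
  (-1440, 1, 0, [(0, [1], [1, 4]), (0, [1], [3, 5]), (0, [0], [2, 0])]),
  (-1440, 1, 0, [(0, [1], [1, 5]), (0, [1], [2, 3]), (0, [0], [4, 0])]),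
  (-1440, 1, 0, [(0, [1], [1, 5]), (0, [1], [2, 4]), (0, [0], [3, 0])]),
  (-1440, 1, 0, [(0, [1], [1, 5]), (0, [1], [3, 4]), (0, [0], [2, 0])]),
  (-1440, 1, 0, [(0, [1], [2, 3]), (0, [1], [4, 5]), (0, [0], [1, 0])]),
  (-1440, 1, 0, [(0, [1], [2, 4]), (0, [1], [3, 5]), (0, [0], [1, 0])]),
  (-1440, 1, 0, [(0, [1], [2, 5]), (0, [1], [3, 4]), (0, [0], [1, 0])])]

def z8_0 : Cov := [(0, 1, 0, [(0, [1], [0, 1]), (0, [1], [2, 5]), (0, [0], [3, 4])]),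
  (0, 1, 0, [(0, [1], [0, 1]), (0, [1], [3, 5]), (0, [0], [2, 4])]),
  (0, 1, 0, [(0, [1], [0, 1]), (0, [1], [4, 5]), (0, [0], [2, 3])]),
  (0, 1, 0, [(0, [1], [0, 2]), (0, [1], [1, 5]), (0, [0], [3, 4])]),
  (0, 1, 0, [(0, [1], [0, 2]), (0, [1], [3, 5]), (0, [0], [1, 4])]),
  (0, 1, 0, [(0, [1], [0, 2]), (0, [1], [4, 5]), (0, [0], [1, 3])]),
  (0, 1, 0, [(0, [1], [0, 3]), (0, [1], [1, 5]), (0, [0], [2, 4])]),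
  (0, 1, 0, [(0, [1], [0, 3]), (0, [1], [2, 5]), (0, [0], [1, 4])]),
  (0, 1, 0, [(0, [1], [0, 3]), (0, [1], [4, 5]), (0, [0], [1, 2])]),
  (0, 1, 0, [(0, [1], [0, 4]), (0, [1], [1, 5]), (0, [0], [2, 3])]),
  (0, 1, 0, [(0, [1], [0, 4]), (0, [1], [2, 5]), (0, [0], [1, 3])]),
  (0, 1, 0, [(0, [1], [0, 4]), (0, [1], [3, 5]), (0, [0], [1, 2])]),
  (0, 1, 0, [(0, [1], [0, 5]), (0, [1], [1, 2]), (0, [0], [3, 4])]),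
  (0, 1, 0, [(0, [1], [0, 5]), (0, [1], [1, 3]), (0, [0], [2, 4])]),
  (0, 1, 0, [(0, [1], [0, 5]), (0, [1], [1, 4]), (0, [0], [2, 3])]),
  (0, 1, 0, [(0, [1], [0, 5]), (0, [1], [2, 3]), (0, [0], [1, 4])]),
  (0, 1, 0, [(0, [1], [0, 5]), (0, [1], [2, 4]), (0, [0], [1, 3])]),
  (0, 1, 0, [(0, [1], [0, 5]), (0, [1], [3, 4]), (0, [0], [1, 2])]),
  (0, 1, 0, [(0, [1], [1, 2]), (0, [1], [3, 4]), (0, [0], [0, 5])]),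
  (0, 1, 0, [(0, [1], [1, 3]), (0, [1], [2, 4]), (0, [0], [0, 5])]),
  (0, 1, 0, [(0, [1], [1, 4]), (0, [1], [2, 3]), (0, [0], [0, 5])])]

def w8_0 : List (List Wit) := [[(0, 0, 0, 0, 0), (0, 0, 0, 0, 0), (1, 0, 0, 0, 0), (1, 0, 0, 0, 0), (24, 0, 0, 0, 0), (24, 0, 0, 0, 0), (0, 0, 0, 0, 0), (0, 0, 0, 0, 0), (2, 0, 0, 0, 0), (2, 0, 0, 0, 0), (25, 0, 0, 0, 0), (25, 0, 0, 0, 0), (1, 0, 0, 0, 0), (1, 0, 0, 0, 0), (2, 0, 0, 0, 0), (2, 0, 0, 0, 0), (26, 0, 0, 0, 0), (26, 0, 0, 0, 0), (24, 0, 0, 0, 0), (24, 0, 0, 0, 0), (25, 0, 0, 0, 0), (25, 0, 0, 0, 0), (26, 0, 0, 0, 0), (26, 0, 0, 0, 0), (3, 0, 0, 0, 0), (3, 0, 0, 0, 0), (4, 0, 0, 0, 0), (4, 0, 0, 0, 0), (27, 0, 0, 0, 0), (27, 0, 0, 0, 0), (3, 0, 0, 0, 0), (3, 0, 0, 0, 0), (5, 0, 0, 0, 0), (5, 0, 0, 0, 0), (28, 0, 0, 0, 0), (28, 0,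 0, 0, 0), (4, 0, 0, 0, 0), (4, 0, 0, 0, 0), (5, 0, 0, 0, 0), (5, 0, 0, 0, 0), (29, 0, 0, 0, 0), (29, 0, 0, 0, 0), (27, 0, 0, 0, 0), (27, 0, 0, 0, 0), (28, 0, 0, 0, 0), (28, 0, 0, 0, 0), (29, 0, 0, 0, 0), (29, 0, 0, 0, 0), (6, 0, 0, 0, 0), (6, 0, 0, 0, 0), (7, 0, 0, 0, 0), (7, 0, 0, 0, 0), (30, 0, 0, 0, 0), (30, 0, 0, 0, 0), (6, 0, 0, 0, 0), (6, 0, 0, 0, 0), (8, 0, 0, 0, 0), (8, 0, 0, 0, 0), (31, 0, 0, 0, 0), (31, 0, 0, 0, 0), (7, 0, 0, 0, 0), (7, 0, 0, 0, 0), (8, 0, 0, 0, 0), (8, 0, 0, 0, 0), (32, 0, 0, 0, 0), (32, 0, 0, 0, 0), (30, 0, 0, 0, 0), (30, 0, 0, 0, 0), (31, 0, 0, 0, 0), (31, 0, 0, 0, 0), (32, 0, 0, 0, 0), (32, 0, 0, 0, 0), (9, 0, 0, 0, 0), (9, 0, 0, 0, 0), (10, 0, 0, 0, 0), (10, 0, 0, 0, 0), (33, 0, 0, 0, 0), (33, 0, 0, 0, 0), (9, 0, 0, 0, 0), (9, 0, 0, 0, 0), (11,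 0, 0, 0, 0), (11, 0, 0, 0, 0), (34, 0, 0, 0, 0), (34, 0, 0, 0, 0), (10, 0, 0, 0, 0), (10, 0, 0, 0, 0), (11, 0, 0, 0, 0), (11, 0, 0, 0, 0), (35, 0, 0, 0, 0), (35, 0, 0, 0, 0), (33, 0, 0, 0, 0), (33, 0, 0, 0, 0), (34, 0, 0, 0, 0), (34, 0, 0, 0, 0), (35, 0, 0, 0, 0), (35, 0, 0, 0, 0), (36, 0, 0, 0, 0), (36, 0, 0, 0, 0), (37, 0, 0, 0, 0), (37, 0, 0, 0, 0), (38, 0, 0, 0, 0), (38, 0, 0, 0, 0), (36, 0, 0, 0, 0), (36, 0, 0, 0, 0), (39, 0, 0, 0, 0), (39, 0, 0, 0, 0), (40, 0, 0, 0, 0), (40, 0, 0, 0, 0), (37, 0, 0, 0, 0), (37, 0, 0, 0, 0), (39, 0, 0, 0, 0), (39, 0, 0, 0, 0), (41, 0, 0, 0, 0), (41, 0, 0, 0, 0), (38, 0, 0, 0, 0), (38, 0, 0, 0, 0), (40, 0, 0, 0, 0), (40, 0, 0, 0, 0), (41, 0, 0, 0, 0), (41, 0, 0, 0, 0), (0, 0, 0, 0, 0), (1, 0, 0, 0, 0), (0, 0, 0, 0, 0), (2, 0, 0, 0, 0), (1,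 0, 0, 0, 0), (2, 0, 0, 0, 0), (6, 0, 0, 0, 0), (9, 0, 0, 0, 0), (6, 0, 0, 0, 0), (42, 0, 0, 0, 0), (42, 0, 0, 0, 0), (12, 0, 0, 0, 0), (9, 0, 0, 0, 0), (42, 0, 0, 0, 0), (42, 0, 0, 0, 0), (13, 0, 0, 0, 0), (12, 0, 0, 0, 0), (13, 0, 0, 0, 0), (3, 0, 0, 0, 0), (10, 0, 0, 0, 0), (3, 0, 0, 0, 0), (43, 0, 0, 0, 0), (43, 0, 0, 0, 0), (14, 0, 0, 0, 0), (10, 0, 0, 0, 0), (43, 0, 0, 0, 0), (43, 0, 0, 0, 0), (15, 0, 0, 0, 0), (14, 0, 0, 0, 0), (15, 0, 0, 0, 0), (4, 0, 0, 0, 0), (7, 0, 0, 0, 0), (4, 0, 0, 0, 0), (44, 0, 0, 0, 0), (44, 0, 0, 0, 0), (16, 0, 0, 0, 0), (7, 0, 0, 0, 0), (44, 0, 0, 0, 0), (44, 0, 0, 0, 0), (17, 0, 0, 0, 0), (16, 0, 0, 0, 0), (17, 0, 0, 0, 0), (18, 0, 0, 0, 0), (19, 0, 0, 0, 0), (18, 0, 0, 0, 0), (20, 0, 0, 0, 0), (19, 0, 0, 0, 0), (20, 0, 0, 0, 0), (3, 0, 0, 0,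 0), (4, 0, 0, 0, 0), (3, 0, 0, 0, 0), (5, 0, 0, 0, 0), (4, 0, 0, 0, 0), (5, 0, 0, 0, 0), (6, 0, 0, 0, 0), (9, 0, 0, 0, 0), (6, 0, 0, 0, 0), (42, 0, 0, 0, 0), (42, 0, 0, 0, 0), (12, 0, 0, 0, 0), (9, 0, 0, 0, 0), (42, 0, 0, 0, 0), (42, 0, 0, 0, 0), (13, 0, 0, 0, 0), (12, 0, 0, 0, 0), (13, 0, 0, 0, 0), (0, 0, 0, 0, 0), (11, 0, 0, 0, 0), (0, 0, 0, 0, 0), (44, 0, 0, 0, 0), (44, 0, 0, 0, 0), (18, 0, 0, 0, 0), (11, 0, 0, 0, 0), (44, 0, 0, 0, 0), (44, 0, 0, 0, 0), (21, 0, 0, 0, 0), (18, 0, 0, 0, 0), (21, 0, 0, 0, 0), (1, 0, 0, 0, 0), (8, 0, 0, 0, 0), (1, 0, 0, 0, 0), (43, 0, 0, 0, 0), (43, 0, 0, 0, 0), (19, 0, 0, 0, 0), (8, 0, 0, 0, 0), (43, 0, 0, 0, 0), (43, 0, 0, 0, 0), (22, 0, 0, 0, 0), (19, 0, 0, 0, 0), (22, 0, 0, 0, 0), (14, 0, 0, 0, 0), (16, 0, 0, 0, 0), (14, 0, 0, 0, 0), (23, 0,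 0, 0, 0), (16, 0, 0, 0, 0), (23, 0, 0, 0, 0), (6, 0, 0, 0, 0), (7, 0, 0, 0, 0), (6, 0, 0, 0, 0), (8, 0, 0, 0, 0), (7, 0, 0, 0, 0), (8, 0, 0, 0, 0), (3, 0, 0, 0, 0), (10, 0, 0, 0, 0), (3, 0, 0, 0, 0), (43, 0, 0, 0, 0), (43, 0, 0, 0, 0), (14, 0, 0, 0, 0), (10, 0, 0, 0, 0), (43, 0, 0, 0, 0), (43, 0, 0, 0, 0), (15, 0, 0, 0, 0), (14, 0, 0, 0, 0), (15, 0, 0, 0, 0), (0, 0, 0, 0, 0), (11, 0, 0, 0, 0), (0, 0, 0, 0, 0), (44, 0, 0, 0, 0), (44, 0, 0, 0, 0), (18, 0, 0, 0, 0), (11, 0, 0, 0, 0), (44, 0, 0, 0, 0), (44, 0, 0, 0, 0), (21, 0, 0, 0, 0), (18, 0, 0, 0, 0), (21, 0, 0, 0, 0), (2, 0, 0, 0, 0), (5, 0, 0, 0, 0), (2, 0, 0, 0, 0), (42, 0, 0, 0, 0), (42, 0, 0, 0, 0), (20, 0, 0, 0, 0), (5, 0, 0, 0, 0), (42, 0, 0, 0, 0), (42, 0, 0, 0, 0), (23, 0, 0, 0, 0), (20, 0, 0, 0, 0), (23, 0, 0, 0, 0),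 (12, 0, 0, 0, 0), (17, 0, 0, 0, 0), (12, 0, 0, 0, 0), (22, 0, 0, 0, 0), (17, 0, 0, 0, 0), (22, 0, 0, 0, 0), (9, 0, 0, 0, 0), (10, 0, 0, 0, 0), (9, 0, 0, 0, 0), (11, 0, 0, 0, 0), (10, 0, 0, 0, 0), (11, 0, 0, 0, 0), (4, 0, 0, 0, 0), (7, 0, 0, 0, 0), (4, 0, 0, 0, 0), (44, 0, 0, 0, 0), (44, 0, 0, 0, 0), (16, 0, 0, 0, 0), (7, 0, 0, 0, 0), (44, 0, 0, 0, 0), (44, 0, 0, 0, 0), (17, 0, 0, 0, 0), (16, 0, 0, 0, 0), (17, 0, 0, 0, 0), (1, 0, 0, 0, 0), (8, 0, 0, 0, 0), (1, 0, 0, 0, 0), (43, 0, 0, 0, 0), (43, 0, 0, 0, 0), (19, 0, 0, 0, 0), (8, 0, 0, 0, 0), (43, 0, 0, 0, 0), (43, 0, 0, 0, 0), (22, 0, 0, 0, 0), (19, 0, 0, 0, 0), (22, 0, 0, 0, 0), (2, 0, 0, 0, 0), (5, 0, 0, 0, 0), (2, 0, 0, 0, 0), (42, 0, 0, 0, 0), (42, 0, 0, 0, 0), (20, 0, 0, 0, 0), (5, 0, 0, 0, 0), (42, 0, 0, 0, 0), (42, 0, 0,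 0, 0), (23, 0, 0, 0, 0), (20, 0, 0, 0, 0), (23, 0, 0, 0, 0), (13, 0, 0, 0, 0), (15, 0, 0, 0, 0), (13, 0, 0, 0, 0), (21, 0, 0, 0, 0), (15, 0, 0, 0, 0), (21, 0, 0, 0, 0), (36, 0, 0, 0, 0), (36, 0, 0, 0, 0), (37, 0, 0, 0, 0), (37, 0, 0, 0, 0), (38, 0, 0, 0, 0), (38, 0, 0, 0, 0), (36, 0, 0, 0, 0), (36, 0, 0, 0, 0), (39, 0, 0, 0, 0), (39, 0, 0, 0, 0), (40, 0, 0, 0, 0), (40, 0, 0, 0, 0), (37, 0, 0, 0, 0), (37, 0, 0, 0, 0), (39, 0, 0, 0, 0), (39, 0, 0, 0, 0), (41, 0, 0, 0, 0), (41, 0, 0, 0, 0), (38, 0, 0, 0, 0), (38, 0, 0, 0, 0), (40, 0, 0, 0, 0), (40, 0, 0, 0, 0), (41, 0, 0, 0, 0), (41, 0, 0, 0, 0), (27, 0, 0, 0, 0), (27, 0, 0, 0, 0), (30, 0, 0, 0, 0), (30, 0, 0, 0, 0), (33, 0, 0, 0, 0), (33, 0, 0, 0, 0), (27, 0, 0, 0, 0), (27, 0, 0, 0, 0), (18, 0, 0, 0, 0), (18, 0, 0, 0, 0), (19, 0,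 0, 0, 0), (19, 0, 0, 0, 0), (30, 0, 0, 0, 0), (30, 0, 0, 0, 0), (18, 0, 0, 0, 0), (18, 0, 0, 0, 0), (20, 0, 0, 0, 0), (20, 0, 0, 0, 0), (33, 0, 0, 0, 0), (33, 0, 0, 0, 0), (19, 0, 0, 0, 0), (19, 0, 0, 0, 0), (20, 0, 0, 0, 0), (20, 0, 0, 0, 0), (24, 0, 0, 0, 0), (24, 0, 0, 0, 0), (31, 0, 0, 0, 0), (31, 0, 0, 0, 0), (34, 0, 0, 0, 0), (34, 0, 0, 0, 0), (24, 0, 0, 0, 0), (24, 0, 0, 0, 0), (14, 0, 0, 0, 0), (14, 0, 0, 0, 0), (16, 0, 0, 0, 0), (16, 0, 0, 0, 0), (31, 0, 0, 0, 0), (31, 0, 0, 0, 0), (14, 0, 0, 0, 0), (14, 0, 0, 0, 0), (23, 0, 0, 0, 0), (23, 0, 0, 0, 0), (34, 0, 0, 0, 0), (34, 0, 0, 0, 0), (16, 0, 0, 0, 0), (16, 0, 0, 0, 0), (23, 0, 0, 0, 0), (23, 0, 0, 0, 0), (25, 0, 0, 0, 0), (25, 0, 0, 0, 0), (28, 0, 0, 0, 0), (28, 0, 0, 0, 0), (35, 0, 0, 0, 0), (35, 0, 0, 0, 0), (25,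 0, 0, 0, 0), (25, 0, 0, 0, 0), (12, 0, 0, 0, 0), (12, 0, 0, 0, 0), (17, 0, 0, 0, 0), (17, 0, 0, 0, 0), (28, 0, 0, 0, 0), (28, 0, 0, 0, 0), (12, 0, 0, 0, 0), (12, 0, 0, 0, 0), (22, 0, 0, 0, 0), (22, 0, 0, 0, 0), (35, 0, 0, 0, 0), (35, 0, 0, 0, 0), (17, 0, 0, 0, 0), (17, 0, 0, 0, 0), (22, 0, 0, 0, 0), (22, 0, 0, 0, 0), (26, 0, 0, 0, 0), (26, 0, 0, 0, 0), (29, 0, 0, 0, 0), (29, 0, 0, 0, 0), (32, 0, 0, 0, 0), (32, 0, 0, 0, 0), (26, 0, 0, 0, 0), (26, 0, 0, 0, 0), (13, 0, 0, 0, 0), (13, 0, 0, 0, 0), (15, 0, 0, 0, 0), (15, 0, 0, 0, 0), (29, 0, 0, 0, 0), (29, 0, 0, 0, 0), (13, 0, 0, 0, 0), (13, 0, 0, 0, 0), (21, 0, 0, 0, 0), (21, 0, 0, 0, 0), (32, 0, 0, 0, 0), (32, 0, 0, 0, 0), (15, 0, 0, 0, 0), (15, 0, 0, 0, 0), (21, 0, 0, 0, 0), (21, 0, 0, 0, 0)]]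

def m8_1 : Base := (0, 0, [(0, [0], [0, 1]), (1, [], [2, 3]), (1, [], [4, 5])])

def l8_1 : Cov := [(1440, 0, 0, [(0, [0], [0, 1]), (1, [], [2, 3]), (1, [], [4, 5])]),
  (1440, 0, 0, [(0, [0], [0, 1]), (1, [], [2, 4]), (1, [], [3, 5])]),
  (1440, 0, 0, [(0, [0], [0, 1]), (1, [], [2, 5]), (1, [], [3, 4])]),
  (1440, 0, 0, [(0, [0], [0, 2]), (1, [], [1, 3]), (1, [], [4, 5])]),
  (1440, 0, 0, [(0, [0], [0, 2]), (1, [], [1, 4]), (1, [], [3, 5])]),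
  (1440, 0, 0, [(0, [0], [0, 2]), (1, [], [1, 5]), (1, [], [3, 4])]),
  (1440, 0, 0, [(0, [0], [0, 3]), (1, [], [1, 2]), (1, [], [4, 5])]),
  (1440, 0, 0, [(0, [0], [0, 3]), (1, [], [1, 4]), (1, [], [2, 5])]),
  (1440, 0, 0, [(0, [0], [0, 3]), (1, [], [1, 5]), (1, [], [2, 4])]),
  (1440, 0, 0, [(0, [0], [0, 4]), (1, [], [1, 2]), (1, [], [3, 5])]),
  (1440, 0, 0, [(0, [0], [0, 4]), (1, [], [1, 3]), (1, [], [2, 5])]),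
  (1440, 0, 0, [(0, [0], [0, 4]), (1, [], [1, 5]), (1, [], [2, 3])]),
  (-1440, 0, 0, [(0, [0], [1, 5]), (1, [], [2, 3]), (1, [], [4, 0])]),
  (-1440, 0, 0, [(0, [0], [1, 5]), (1, [], [2, 4]), (1, [], [3, 0])]),
  (-1440, 0, 0, [(0, [0], [1, 5]), (1, [], [3, 4]), (1, [], [2, 0])]),
  (-1440, 0, 0, [(0, [0], [2, 5]), (1, [], [1, 3]), (1, [], [4, 0])]),
  (-1440, 0, 0, [(0, [0], [2, 5]), (1, [], [1, 4]), (1, [], [3, 0])]),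
  (-1440, 0, 0, [(0, [0], [2, 5]), (1, [], [3, 4]), (1, [], [1, 0])]),
  (-1440, 0, 0, [(0, [0], [3, 5]), (1, [], [1, 2]), (1, [], [4, 0])]),
  (-1440, 0, 0, [(0, [0], [3, 5]), (1, [], [1, 4]), (1, [], [2, 0])]),
  (-1440, 0, 0, [(0, [0], [3, 5]), (1, [], [2, 4]), (1, [], [1, 0])]),
  (-1440, 0, 0, [(0, [0], [4, 5]), (1, [], [1, 2]), (1, [], [3, 0])]),
  (-1440, 0, 0, [(0, [0], [4, 5]), (1, [], [1, 3]), (1, [], [2, 0])]),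
  (-1440, 0, 0, [(0, [0], [4, 5]), (1, [], [2, 3]), (1, [], [1, 0])])]

def z8_1 : Cov := [(0, 0, 0, [(0, [0], [0, 5]), (1, [], [1, 2]), (1, [], [3, 4])]),
  (0, 0, 0, [(0, [0], [0, 5]), (1, [], [1, 3]), (1, [], [2, 4])]),
  (0, 0, 0, [(0, [0], [0, 5]), (1, [], [1, 4]), (1, [], [2, 3])]),
  (0, 0, 0, [(0, [0], [1, 2]), (1, [], [0, 3]), (1, [], [4, 5])]),
  (0, 0, 0, [(0, [0], [1, 2]), (1, [], [0, 4]), (1, [], [3, 5])]),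
  (0, 0, 0, [(0, [0], [1, 2]), (1, [], [3, 4]), (1, [], [0, 5])]),
  (0, 0, 0, [(0, [0], [1, 3]), (1, [], [0, 2]), (1, [], [4, 5])]),
  (0, 0, 0, [(0, [0], [1, 3]), (1, [], [0, 4]), (1, [], [2, 5])]),
  (0, 0, 0, [(0, [0], [1, 3]), (1, [], [2, 4]), (1, [], [0, 5])]),
  (0, 0, 0, [(0, [0], [1, 4]), (1, [], [0, 2]), (1, [], [3, 5])]),
  (0, 0, 0, [(0, [0], [1, 4]), (1, [], [0, 3]), (1, [], [2, 5])]),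
  (0, 0, 0, [(0, [0], [1, 4]), (1, [], [2, 3]), (1, [], [0, 5])]),
  (0, 0, 0, [(0, [0], [2, 3]), (1, [], [0, 1]), (1, [], [4, 5])]),
  (0, 0, 0, [(0, [0], [2, 3]), (1, [], [0, 4]), (1, [], [1, 5])]),
  (0, 0, 0, [(0, [0], [2, 3]), (1, [], [1, 4]), (1, [], [0, 5])]),
  (0, 0, 0, [(0, [0], [2, 4]), (1, [], [0, 1]), (1, [], [3, 5])]),
  (0, 0, 0, [(0, [0], [2, 4]), (1, [], [0, 3]), (1, [], [1, 5])]),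
  (0, 0, 0, [(0, [0], [2, 4]), (1, [], [1, 3]), (1, [], [0, 5])]),
  (0, 0, 0, [(0, [0], [3, 4]), (1, [], [0, 1]), (1, [], [2, 5])]),
  (0, 0, 0, [(0, [0], [3, 4]), (1, [], [0, 2]), (1, [], [1, 5])]),
  (0, 0, 0, [(0, [0], [3, 4]), (1, [], [1, 2]), (1, [], [0, 5])])]

def w8_1 : List (List Wit) := [[(0, 0, 0, 0, 0), (0, 0, 0, 0, 0), (1, 0, 0, 0, 0), (1, 0, 0, 0, 0), (2, 0, 0, 0, 0), (2, 0, 0, 0, 0), (0, 0, 0, 0, 0), (0, 0, 0, 0, 0), (2, 0, 0, 0, 0), (2, 0, 0, 0, 0), (1, 0, 0, 0, 0), (1, 0, 0, 0, 0), (1, 0, 0, 0, 0), (1, 0, 0, 0, 0), (2, 0, 0, 0, 0), (2, 0, 0, 0, 0), (0, 0, 0, 0, 0), (0, 0, 0, 0, 0), (2, 0, 0, 0, 0), (2, 0, 0, 0, 0), (1, 0, 0, 0, 0), (1, 0, 0, 0, 0), (0, 0, 0, 0, 0), (0, 0, 0, 0, 0), (3, 0, 0, 0, 0), (3, 0, 0, 0, 0), (4, 0, 0, 0, 0), (4, 0, 0, 0, 0), (5, 0, 0,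 0, 0), (5, 0, 0, 0, 0), (3, 0, 0, 0, 0), (3, 0, 0, 0, 0), (5, 0, 0, 0, 0), (5, 0, 0, 0, 0), (4, 0, 0, 0, 0), (4, 0, 0, 0, 0), (4, 0, 0, 0, 0), (4, 0, 0, 0, 0), (5, 0, 0, 0, 0), (5, 0, 0, 0, 0), (3, 0, 0, 0, 0), (3, 0, 0, 0, 0), (5, 0, 0, 0, 0), (5, 0, 0, 0, 0), (4, 0, 0, 0, 0), (4, 0, 0, 0, 0), (3, 0, 0, 0, 0), (3, 0, 0, 0, 0), (6, 0, 0, 0, 0), (6, 0, 0, 0, 0), (7, 0, 0, 0, 0), (7, 0, 0, 0, 0), (8, 0, 0, 0, 0), (8, 0, 0, 0, 0), (6, 0, 0, 0, 0), (6, 0, 0, 0, 0), (8, 0, 0, 0, 0), (8, 0, 0, 0, 0), (7, 0, 0, 0, 0), (7, 0, 0, 0, 0), (7, 0, 0, 0, 0), (7, 0, 0, 0, 0), (8, 0, 0, 0, 0), (8, 0, 0, 0, 0), (6, 0, 0, 0, 0), (6, 0, 0, 0, 0), (8, 0, 0, 0, 0), (8, 0, 0, 0, 0), (7, 0, 0, 0, 0), (7, 0, 0, 0, 0), (6, 0, 0, 0, 0), (6, 0, 0, 0, 0), (9, 0, 0, 0, 0), (9, 0, 0, 0, 0), (10, 0, 0, 0, 0),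 (10, 0, 0, 0, 0), (11, 0, 0, 0, 0), (11, 0, 0, 0, 0), (9, 0, 0, 0, 0), (9, 0, 0, 0, 0), (11, 0, 0, 0, 0), (11, 0, 0, 0, 0), (10, 0, 0, 0, 0), (10, 0, 0, 0, 0), (10, 0, 0, 0, 0), (10, 0, 0, 0, 0), (11, 0, 0, 0, 0), (11, 0, 0, 0, 0), (9, 0, 0, 0, 0), (9, 0, 0, 0, 0), (11, 0, 0, 0, 0), (11, 0, 0, 0, 0), (10, 0, 0, 0, 0), (10, 0, 0, 0, 0), (9, 0, 0, 0, 0), (9, 0, 0, 0, 0), (24, 0, 0, 0, 0), (24, 0, 0, 0, 0), (25, 0, 0, 0, 0), (25, 0, 0, 0, 0), (26, 0, 0, 0, 0), (26, 0, 0, 0, 0), (24, 0, 0, 0, 0), (24, 0, 0, 0, 0), (26, 0, 0, 0, 0), (26, 0, 0, 0, 0), (25, 0, 0, 0, 0), (25, 0, 0, 0, 0), (25, 0, 0, 0, 0), (25, 0, 0, 0, 0), (26, 0, 0, 0, 0), (26, 0, 0, 0, 0), (24, 0, 0, 0, 0), (24, 0, 0, 0, 0), (26, 0, 0, 0, 0), (26, 0, 0, 0, 0), (25, 0, 0, 0, 0), (25, 0, 0, 0, 0), (24, 0, 0, 0, 0), (24,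 0, 0, 0, 0), (0, 0, 0, 0, 0), (1, 0, 0, 0, 0), (0, 0, 0, 0, 0), (2, 0, 0, 0, 0), (1, 0, 0, 0, 0), (2, 0, 0, 0, 0), (27, 0, 0, 0, 0), (28, 0, 0, 0, 0), (27, 0, 0, 0, 0), (29, 0, 0, 0, 0), (29, 0, 0, 0, 0), (28, 0, 0, 0, 0), (28, 0, 0, 0, 0), (29, 0, 0, 0, 0), (29, 0, 0, 0, 0), (27, 0, 0, 0, 0), (28, 0, 0, 0, 0), (27, 0, 0, 0, 0), (30, 0, 0, 0, 0), (31, 0, 0, 0, 0), (30, 0, 0, 0, 0), (32, 0, 0, 0, 0), (32, 0, 0, 0, 0), (31, 0, 0, 0, 0), (31, 0, 0, 0, 0), (32, 0, 0, 0, 0), (32, 0, 0, 0, 0), (30, 0, 0, 0, 0), (31, 0, 0, 0, 0), (30, 0, 0, 0, 0), (33, 0, 0, 0, 0), (34, 0, 0, 0, 0), (33, 0, 0, 0, 0), (35, 0, 0, 0, 0), (35, 0, 0, 0, 0), (34, 0, 0, 0, 0), (34, 0, 0, 0, 0), (35, 0, 0, 0, 0), (35, 0, 0, 0, 0), (33, 0, 0, 0, 0), (34, 0, 0, 0, 0), (33, 0, 0, 0, 0), (12, 0, 0, 0, 0), (13, 0,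 0, 0, 0), (12, 0, 0, 0, 0), (14, 0, 0, 0, 0), (13, 0, 0, 0, 0), (14, 0, 0, 0, 0), (3, 0, 0, 0, 0), (4, 0, 0, 0, 0), (3, 0, 0, 0, 0), (5, 0, 0, 0, 0), (4, 0, 0, 0, 0), (5, 0, 0, 0, 0), (27, 0, 0, 0, 0), (28, 0, 0, 0, 0), (27, 0, 0, 0, 0), (29, 0, 0, 0, 0), (29, 0, 0, 0, 0), (28, 0, 0, 0, 0), (28, 0, 0, 0, 0), (29, 0, 0, 0, 0), (29, 0, 0, 0, 0), (27, 0, 0, 0, 0), (28, 0, 0, 0, 0), (27, 0, 0, 0, 0), (36, 0, 0, 0, 0), (37, 0, 0, 0, 0), (36, 0, 0, 0, 0), (38, 0, 0, 0, 0), (38, 0, 0, 0, 0), (37, 0, 0, 0, 0), (37, 0, 0, 0, 0), (38, 0, 0, 0, 0), (38, 0, 0, 0, 0), (36, 0, 0, 0, 0), (37, 0, 0, 0, 0), (36, 0, 0, 0, 0), (39, 0, 0, 0, 0), (40, 0, 0, 0, 0), (39, 0, 0, 0, 0), (41, 0, 0, 0, 0), (41, 0, 0, 0, 0), (40, 0, 0, 0, 0), (40, 0, 0, 0, 0), (41, 0, 0, 0, 0), (41, 0, 0, 0, 0), (39, 0, 0,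 0, 0), (40, 0, 0, 0, 0), (39, 0, 0, 0, 0), (15, 0, 0, 0, 0), (16, 0, 0, 0, 0), (15, 0, 0, 0, 0), (17, 0, 0, 0, 0), (16, 0, 0, 0, 0), (17, 0, 0, 0, 0), (6, 0, 0, 0, 0), (7, 0, 0, 0, 0), (6, 0, 0, 0, 0), (8, 0, 0, 0, 0), (7, 0, 0, 0, 0), (8, 0, 0, 0, 0), (30, 0, 0, 0, 0), (31, 0, 0, 0, 0), (30, 0, 0, 0, 0), (32, 0, 0, 0, 0), (32, 0, 0, 0, 0), (31, 0, 0, 0, 0), (31, 0, 0, 0, 0), (32, 0, 0, 0, 0), (32, 0, 0, 0, 0), (30, 0, 0, 0, 0), (31, 0, 0, 0, 0), (30, 0, 0, 0, 0), (36, 0, 0, 0, 0), (37, 0, 0, 0, 0), (36, 0, 0, 0, 0), (38, 0, 0, 0, 0), (38, 0, 0, 0, 0), (37, 0, 0, 0, 0), (37, 0, 0, 0, 0), (38, 0, 0, 0, 0), (38, 0, 0, 0, 0), (36, 0, 0, 0, 0), (37, 0, 0, 0, 0), (36, 0, 0, 0, 0), (42, 0, 0, 0, 0), (43, 0, 0, 0, 0), (42, 0, 0, 0, 0), (44, 0, 0, 0, 0), (44, 0, 0, 0, 0), (43, 0, 0, 0,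 0), (43, 0, 0, 0, 0), (44, 0, 0, 0, 0), (44, 0, 0, 0, 0), (42, 0, 0, 0, 0), (43, 0, 0, 0, 0), (42, 0, 0, 0, 0), (18, 0, 0, 0, 0), (19, 0, 0, 0, 0), (18, 0, 0, 0, 0), (20, 0, 0, 0, 0), (19, 0, 0, 0, 0), (20, 0, 0, 0, 0), (9, 0, 0, 0, 0), (10, 0, 0, 0, 0), (9, 0, 0, 0, 0), (11, 0, 0, 0, 0), (10, 0, 0, 0, 0), (11, 0, 0, 0, 0), (33, 0, 0, 0, 0), (34, 0, 0, 0, 0), (33, 0, 0, 0, 0), (35, 0, 0, 0, 0), (35, 0, 0, 0, 0), (34, 0, 0, 0, 0), (34, 0, 0, 0, 0), (35, 0, 0, 0, 0), (35, 0, 0, 0, 0), (33, 0, 0, 0, 0), (34, 0, 0, 0, 0), (33, 0, 0, 0, 0), (39, 0, 0, 0, 0), (40, 0, 0, 0, 0), (39, 0, 0, 0, 0), (41, 0, 0, 0, 0), (41, 0, 0, 0, 0), (40, 0, 0, 0, 0), (40, 0, 0, 0, 0), (41, 0, 0, 0, 0), (41, 0, 0, 0, 0), (39, 0, 0, 0, 0), (40, 0, 0, 0, 0), (39, 0, 0, 0, 0), (42, 0, 0, 0, 0), (43, 0, 0,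 0, 0), (42, 0, 0, 0, 0), (44, 0, 0, 0, 0), (44, 0, 0, 0, 0), (43, 0, 0, 0, 0), (43, 0, 0, 0, 0), (44, 0, 0, 0, 0), (44, 0, 0, 0, 0), (42, 0, 0, 0, 0), (43, 0, 0, 0, 0), (42, 0, 0, 0, 0), (21, 0, 0, 0, 0), (22, 0, 0, 0, 0), (21, 0, 0, 0, 0), (23, 0, 0, 0, 0), (22, 0, 0, 0, 0), (23, 0, 0, 0, 0), (24, 0, 0, 0, 0), (24, 0, 0, 0, 0), (25, 0, 0, 0, 0), (25, 0, 0, 0, 0), (26, 0, 0, 0, 0), (26, 0, 0, 0, 0), (24, 0, 0, 0, 0), (24, 0, 0, 0, 0), (26, 0, 0, 0, 0), (26, 0, 0, 0, 0), (25, 0, 0, 0, 0), (25, 0, 0, 0, 0), (25, 0, 0, 0, 0), (25, 0, 0, 0, 0), (26, 0, 0, 0, 0), (26, 0, 0, 0, 0), (24, 0, 0, 0, 0), (24, 0, 0, 0, 0), (26, 0, 0, 0, 0), (26, 0, 0, 0, 0), (25, 0, 0, 0, 0), (25, 0, 0, 0, 0), (24, 0, 0, 0, 0), (24, 0, 0, 0, 0), (14, 0, 0, 0, 0), (14, 0, 0, 0, 0), (13, 0, 0, 0, 0), (13, 0,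 0, 0, 0), (12, 0, 0, 0, 0), (12, 0, 0, 0, 0), (14, 0, 0, 0, 0), (14, 0, 0, 0, 0), (12, 0, 0, 0, 0), (12, 0, 0, 0, 0), (13, 0, 0, 0, 0), (13, 0, 0, 0, 0), (13, 0, 0, 0, 0), (13, 0, 0, 0, 0), (12, 0, 0, 0, 0), (12, 0, 0, 0, 0), (14, 0, 0, 0, 0), (14, 0, 0, 0, 0), (12, 0, 0, 0, 0), (12, 0, 0, 0, 0), (13, 0, 0, 0, 0), (13, 0, 0, 0, 0), (14, 0, 0, 0, 0), (14, 0, 0, 0, 0), (17, 0, 0, 0, 0), (17, 0, 0, 0, 0), (16, 0, 0, 0, 0), (16, 0, 0, 0, 0), (15, 0, 0, 0, 0), (15, 0, 0, 0, 0), (17, 0, 0, 0, 0), (17, 0, 0, 0, 0), (15, 0, 0, 0, 0), (15, 0, 0, 0, 0), (16, 0, 0, 0, 0), (16, 0, 0, 0, 0), (16, 0, 0, 0, 0), (16, 0, 0, 0, 0), (15, 0, 0, 0, 0), (15, 0, 0, 0, 0), (17, 0, 0, 0, 0), (17, 0, 0, 0, 0), (15, 0, 0, 0, 0), (15, 0, 0, 0, 0), (16, 0, 0, 0, 0), (16, 0, 0, 0, 0), (17, 0, 0, 0, 0), (17,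 0, 0, 0, 0), (20, 0, 0, 0, 0), (20, 0, 0, 0, 0), (19, 0, 0, 0, 0), (19, 0, 0, 0, 0), (18, 0, 0, 0, 0), (18, 0, 0, 0, 0), (20, 0, 0, 0, 0), (20, 0, 0, 0, 0), (18, 0, 0, 0, 0), (18, 0, 0, 0, 0), (19, 0, 0, 0, 0), (19, 0, 0, 0, 0), (19, 0, 0, 0, 0), (19, 0, 0, 0, 0), (18, 0, 0, 0, 0), (18, 0, 0, 0, 0), (20, 0, 0, 0, 0), (20, 0, 0, 0, 0), (18, 0, 0, 0, 0), (18, 0, 0, 0, 0), (19, 0, 0, 0, 0), (19, 0, 0, 0, 0), (20, 0, 0, 0, 0), (20, 0, 0, 0, 0), (23, 0, 0, 0, 0), (23, 0, 0, 0, 0), (22, 0, 0, 0, 0), (22, 0, 0, 0, 0), (21, 0, 0, 0, 0), (21, 0, 0, 0, 0), (23, 0, 0, 0, 0), (23, 0, 0, 0, 0), (21, 0, 0, 0, 0), (21, 0, 0, 0, 0), (22, 0, 0, 0, 0), (22, 0, 0, 0, 0), (22, 0, 0, 0, 0), (22, 0, 0, 0, 0), (21, 0, 0, 0, 0), (21, 0, 0, 0, 0), (23, 0, 0, 0, 0), (23, 0, 0, 0, 0), (21, 0, 0, 0, 0),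 (21, 0, 0, 0, 0), (22, 0, 0, 0, 0), (22, 0, 0, 0, 0), (23, 0, 0, 0, 0), (23, 0, 0, 0, 0)]]

theorem tr8 : trK keys lk8 kl8 = true := by
  decide +kernel

theorem x8_0 : expB 1 6 dg0 dg9 m8_0 (l8_0 ++ z8_0) w8_0 = true := by
  decide +kernel

theorem x8_1 : expB 1 6 dg0 dg9 m8_1 (l8_1 ++ z8_1) w8_1 = true := by
  decide +kernel

theorem t8_0_0 : chkS lk8 1 6 [(1, m8_0)] l8_0
  [(8, 528, 528, 1070130, 3280980), (6, 258, 33, 5378115, 5309490), (6, 258, 33, 5374275, 5309475), (1, 528, 528, 1070130, 3280980), (9, 288, 288, 74805, 136005), (9, 288, 288, 79140, 2109765), (1, 528, 528, 1066290, 2297940), (9, 288, 288, 82485, 201285), (9, 288, 288, 86820, 3154245), (9, 288, 288, 74835, 1180485), (9, 288, 288, 82515, 1245765), (6, 258, 33, 5391120, 5448720), (9, 288, 288, 1062210, 2175060),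 (7, 513, 513, 5514000, 5514000), (9, 288, 288, 1069890, 3219540), (7, 513, 513, 5517840, 5517840), (5, 528, 528, 1057620, 1057620), (5, 528, 528, 1061460, 1061460), (6, 258, 33, 2441985, 4400385), (5, 528, 528, 1066290, 2297940), (5, 528, 528, 1070130, 3280980), (12, 513, 513, 5517840, 5517840), (7, 18, 18, 3219525, 86850), (7, 18, 18, 1253445, 82770)]
  [(1, 2880), (5, -5760), (6, 2880), (7, -5760), (8, 1440), (9, 5760), (12, -1440)] = true := by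
  decide +kernel

theorem t8_0_1 : chkS lk8 1 6 [(1, m8_0)] l8_1
  [(13, 1, 1, 5517840, 5517840), (14, 1, 1, 5517840, 5517840), (14, 1, 1, 4534800, 4534800), (15, 1, 1, 5513985, 5513985), (16, 1, 1, 5513985, 5513985), (16, 1, 1, 4530945, 4530945), (15, 1, 1, 5517825, 5517825), (16, 1, 1, 5517825, 5517825), (16, 1, 1, 4534785, 4534785), (11, 16, 16, 2114865, 2299140), (11, 16, 16, 2118705, 3282180), (10, 16, 16, 2118705, 3282180), (10, 16, 16, 152595, 3277845), (11, 16, 16, 152595, 3277845), (11, 16, 16, 148755, 2294805), (11, 16, 16, 143700, 1061925), (11, 16, 16, 143685, 78885), (10, 16, 16, 143700, 1061925), (11, 16, 16, 136020, 1057845), (11, 16, 16, 136005, 74805), (10, 16, 16, 136020, 1057845), (0, 16, 16, 1066290, 2297940), (0, 16, 16, 1070130, 3280980), (2, 16, 16, 1070130,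 3280980)]
  [(0, -2880), (2, -1440), (10, -2880), (11, -5760), (13, 1440), (14, 2880), (15, 2880), (16, 5760)] = true := by
  decide +kernel

theorem t8_1_1 : chkS lk8 1 6 [(1, m8_1)] l8_1
  [(3, 0, 0, 5517840, 5517840), (21, 0, 0, 4534800, 4534800), (21, 0, 0, 5517840, 5517840), (4, 0, 0, 5517840, 5517840), (20, 0, 0, 3298320, 3298320), (20, 0, 0, 2315280, 3294480), (4, 0, 0, 5514000, 5514000), (20, 0, 0, 3294480, 2315280), (20, 0, 0, 2311440, 2311440), (20, 0, 0, 5517840, 5517840), (20, 0, 0, 5514000, 5514000), (4, 0, 0, 3298320, 3298320), (4, 0, 0, 2315265, 3294465), (20, 0, 0, 4530945, 4530945), (20, 0, 0, 4534785, 4534785), (19, 0, 0, 4338960, 2438160), (19, 0, 0, 5448720, 5391120), (18, 0, 0, 5448720, 5391120), (19, 0, 0, 4346640, 3482640), (19, 0, 0, 5456400, 5456400),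 (18, 0, 0, 5456400, 5456400), (18, 0, 0, 1057620, 1057620), (18, 0, 0, 1061460, 1061460), (17, 0, 0, 5517840, 5517840)]
  [(3, 1440), (4, 2880), (17, -1440), (18, -5760), (19, -5760), (20, 5760), (21, 2880)] = true := by
  decide +kernel

section

variable {κ ι : Type*} [Fintype κ] [Fintype ι] [Inhabited κ] [Inhabited ι]

noncomputable def F8_0 (E : Env κ ι) : (Fin 1 → κ) → (Fin 6 → ι) → ℝ := op2 (P0 κ) (P9 ι) (fB E 1 6 m8_0)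

noncomputable def F8_1 (E : Env κ ι) : (Fin 1 → κ) → (Fin 6 → ι) → ℝ := op2 (P0 κ) (P9 ι) (fB E 1 6 m8_1)

def r8_0_0 : List (ℕ × ℤ) := [(1, 2880), (5, -5760), (6, 2880), (7, -5760), (8, 1440), (9, 5760), (12, -1440)]

theorem h8_0_0 (E : Env κ ι) : ip (F8_0 E) (F8_0 E) = dotS (ek E lk8) r8_0_0 :=
  op_entryZ E lk8 1 6 _ _ _ _ (pg0 κ) (pg9 ι) m8_0 m8_0 l8_0 z8_0 w8_0 x8_0 (by decide) _ (chkS_sound E lk8 1 6 _ _ _ _ t8_0_0)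

def r8_0_1 : List (ℕ × ℤ) := [(0, -2880), (2, -1440), (10, -2880), (11, -5760), (13, 1440), (14, 2880), (15, 2880), (16, 5760)]

theorem h8_0_1 (E : Env κ ι) : ip (F8_0 E) (F8_1 E) = dotS (ek E lk8) r8_0_1 :=
  op_entryZ E lk8 1 6 _ _ _ _ (pg0 κ) (pg9 ι) m8_0 m8_1 l8_1 z8_1 w8_1 x8_1 (by decide) _ (chkS_sound E lk8 1 6 _ _ _ _ t8_0_1)

def r8_1_1 : List (ℕ × ℤ) := [(3, 1440), (4, 2880), (17, -1440), (18, -5760), (19, -5760), (20, 5760), (21, 2880)]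

theorem h8_1_1 (E : Env κ ι) : ip (F8_1 E) (F8_1 E) = dotS (ek E lk8) r8_1_1 :=
  op_entryZ E lk8 1 6 _ _ _ _ (pg0 κ) (pg9 ι) m8_1 m8_1 l8_1 z8_1 w8_1 x8_1 (by decide) _ (chkS_sound E lk8 1 6 _ _ _ _ t8_1_1)

theorem row8_0 (E : Env κ ι) : RowG (ek E lk8) (F8_0 E) [F8_0 E, F8_1 E] [r8_0_0, r8_0_1] :=
  rowG_cons _ _ _ _ _ _ (h8_0_0 E) (rowG_cons _ _ _ _ _ _ (h8_0_1 E) (rowG_nil _ _))

theorem row8_1 (E : Env κ ι) : RowG (ek E lk8) (F8_1 E) [F8_1 E] [r8_1_1] :=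
  rowG_cons _ _ _ _ _ _ (h8_1_1 E) (rowG_nil _ _)

def tab8 : List (List (List (ℕ × ℤ))) := [[r8_0_0, r8_0_1], [r8_1_1]]

theorem tri8 (E : Env κ ι) : TriG (ek E lk8) [F8_0 E, F8_1 E] tab8 := by
  refine triG_cons _ _ _ _ _ (row8_0 E) ?_
  refine triG_cons _ _ _ _ _ (row8_1 E) ?_
  exact triG_nil _

end

def lk9 : List Key := [
  (2, 6, [(0, [0], [0, 1]), (0, [0], [0, 1]), (0, [1], [2, 3]), (0, [1], [4, 5]), (1, [], [2, 4]), (1, [], [3, 5])]),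
  (3, 6, [(0, [0], [0, 1]), (0, [0], [0, 1]), (0, [1], [2, 3]), (0, [1], [4, 5]), (0, [2], [2, 4]), (0, [2], [3, 5])]),
  (2, 6, [(0, [0], [0, 1]), (0, [0], [0, 1]), (0, [1], [2, 3]), (0, [1], [4, 5]), (1, [], [4, 5]), (1, [], [2, 3])]),
  (1, 6, [(0, [0], [0, 1]), (0, [0], [0, 1]), (1, [], [2, 3]), (1, [], [2, 3]), (1, [], [4, 5]), (1, [], [4, 5])]),
  (1, 6, [(0, [0], [0, 1]), (0, [0], [0, 2]), (1, [], [2, 3]), (1, [], [1, 3]), (1, [], [4, 5]), (1, [], [4, 5])]),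
  (3, 6, [(0, [0], [0, 1]), (0, [1], [2, 3]), (0, [1], [4, 5]), (0, [0], [2, 4]), (0, [2], [0, 5]), (0, [2], [1, 3])]),
  (3, 6, [(0, [0], [0, 1]), (0, [1], [0, 2]), (0, [1], [3, 4]), (0, [0], [3, 4]), (0, [2], [2, 5]), (0, [2], [1, 5])]),
  (3, 6, [(0, [0], [0, 1]), (0, [0], [2, 3]), (0, [1], [0, 2]), (0, [2], [1, 3]), (0, [2], [4, 5]), (0, [1], [4, 5])]),
  (3, 6, [(0, [0], [0, 1]), (0, [0], [0, 1]), (0, [1], [2, 3]), (0, [2], [4, 5]), (0, [1], [4, 5]), (0, [2], [2, 3])]),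
  (3, 6, [(0, [0], [0, 1]), (0, [0], [2, 0]), (0, [1], [3, 1]), (0, [2], [2, 4]), (0, [2], [3, 5]), (0, [1], [4, 5])]),
  (2, 6, [(0, [0], [0, 1]), (0, [0], [2, 0]), (0, [1], [3, 1]), (0, [1], [4, 5]), (1, [], [4, 5]), (1, [], [2, 3])]),
  (2, 6, [(0, [0], [0, 1]), (0, [0], [2, 0]), (0, [1], [3, 1]), (0, [1], [4, 5]), (1, [], [2, 4]), (1, [], [3, 5])]),
  (3, 6, [(0, [0], [0, 1]), (0, [0], [2, 3]), (0, [1], [0, 1]), (0, [2], [4, 5]), (0, [2], [2, 3]), (0, [1], [4, 5])]),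
  (2, 6, [(0, [0], [0, 1]), (0, [0], [2, 3]), (0, [1], [0, 1]), (0, [1], [4, 5]), (1, [], [4, 5]), (1, [], [2, 3])]),
  (2, 6, [(0, [0], [0, 1]), (0, [0], [2, 3]), (0, [1], [0, 1]), (0, [1], [4, 5]), (1, [], [2, 4]), (1, [], [3, 5])]),
  (2, 6, [(0, [0], [0, 1]), (0, [0], [2, 3]), (0, [1], [1, 3]), (0, [1], [4, 5]), (1, [], [4, 5]), (1, [], [0, 2])]),
  (2, 6, [(0, [0], [0, 1]), (0, [0], [2, 3]), (0, [1], [1, 3]), (0, [1], [4, 5]), (1, [], [0, 4]), (1, [], [2, 5])]),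
  (1, 6, [(0, [0], [0, 1]), (1, [], [0, 1]), (1, [], [2, 3]), (0, [0], [4, 5]), (1, [], [4, 5]), (1, [], [2, 3])]),
  (1, 6, [(0, [0], [0, 1]), (1, [], [0, 1]), (1, [], [2, 3]), (0, [0], [4, 5]), (1, [], [2, 4]), (1, [], [3, 5])]),
  (1, 6, [(0, [0], [0, 1]), (1, [], [2, 0]), (1, [], [3, 1]), (0, [0], [4, 5]), (1, [], [2, 4]), (1, [], [3, 5])]),
  (1, 6, [(0, [0], [0, 1]), (1, [], [1, 2]), (1, [], [3, 2]), (0, [0], [0, 4]), (1, [], [4, 5]), (1, [], [3, 5])]),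
  (1, 6, [(0, [0], [0, 1]), (1, [], [2, 3]), (1, [], [4, 3]), (0, [0], [0, 1]), (1, [], [2, 5]), (1, [], [4, 5])])]

def kl9 : List ℕ := [11, 13, 14, 15, 17, 24, 25, 26, 30, 39, 40, 41, 45, 46, 47, 50, 51, 53, 54, 55, 58, 67]

def m9_0 : Base := (1, 0, [(0, [1], [0, 1]), (0, [1], [2, 3]), (0, [0], [4, 5])])

def l9_0 : Cov := [(1536, 1, 0, [(0, [1], [0, 1]), (0, [1], [2, 3]), (0, [0], [4, 5])]),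
  (384, 1, 0, [(0, [1], [0, 1]), (0, [1], [2, 4]), (0, [0], [3, 5])]),
  (384, 1, 0, [(0, [1], [0, 1]), (0, [1], [2, 5]), (0, [0], [3, 4])]),
  (384, 1, 0, [(0, [1], [0, 1]), (0, [1], [3, 4]), (0, [0], [2, 5])]),
  (384, 1, 0, [(0, [1], [0, 1]), (0, [1], [3, 5]), (0, [0], [2, 4])]),
  (768, 1, 0, [(0, [1], [0, 1]), (0, [1], [4, 5]), (0, [0], [2, 3])]),
  (1152, 1, 0, [(0, [1], [0, 2]), (0, [1], [1, 3]), (0, [0], [4, 5])]),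
  (-384, 1, 0, [(0, [1], [0, 2]), (0, [1], [1, 4]), (0, [0], [3, 5])]),
  (-1152, 1, 0, [(0, [1], [0, 2]), (0, [1], [3, 5]), (0, [0], [1, 4])]),
  (384, 1, 0, [(0, [1], [0, 2]), (0, [1], [4, 5]), (0, [0], [3, 1])]),
  (1152, 1, 0, [(0, [1], [0, 3]), (0, [1], [1, 2]), (0, [0], [4, 5])]),
  (-384, 1, 0, [(0, [1], [0, 3]), (0, [1], [1, 4]), (0, [0], [2, 5])]),
  (-1152, 1, 0, [(0, [1], [0, 3]), (0, [1], [2, 5]), (0, [0], [1, 4])]),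
  (384, 1, 0, [(0, [1], [0, 3]), (0, [1], [4, 5]), (0, [0], [2, 1])]),
  (-384, 1, 0, [(0, [1], [0, 5]), (0, [1], [1, 2]), (0, [0], [3, 4])]),
  (-384, 1, 0, [(0, [1], [0, 5]), (0, [1], [1, 3]), (0, [0], [2, 4])]),
  (-768, 1, 0, [(0, [1], [0, 5]), (0, [1], [1, 4]), (0, [0], [2, 3])]),
  (-1536, 1, 0, [(0, [1], [0, 5]), (0, [1], [2, 3]), (0, [0], [1, 4])]),
  (-384, 1, 0, [(0, [1], [0, 5]), (0, [1], [2, 4]), (0, [0], [1, 3])]),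
  (-384, 1, 0, [(0, [1], [0, 5]), (0, [1], [3, 4]), (0, [0], [1, 2])]),
  (-1152, 1, 0, [(0, [1], [1, 2]), (0, [1], [3, 4]), (0, [0], [0, 5])]),
  (384, 1, 0, [(0, [1], [1, 2]), (0, [1], [4, 5]), (0, [0], [3, 0])]),
  (-1152, 1, 0, [(0, [1], [1, 3]), (0, [1], [2, 4]), (0, [0], [0, 5])]),
  (384, 1, 0, [(0, [1], [1, 3]), (0, [1], [4, 5]), (0, [0], [2, 0])]),
  (-1536, 1, 0, [(0, [1], [1, 4]), (0, [1], [2, 3]), (0, [0], [0, 5])]),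
  (-384, 1, 0, [(0, [1], [1, 4]), (0, [1], [2, 5]), (0, [0], [0, 3])]),
  (-384, 1, 0, [(0, [1], [1, 4]), (0, [1], [3, 5]), (0, [0], [0, 2])]),
  (1536, 1, 0, [(0, [1], [2, 3]), (0, [1], [4, 5]), (0, [0], [0, 1])]),
  (1152, 1, 0, [(0, [1], [2, 4]), (0, [1], [3, 5]), (0, [0], [0, 1])]),
  (1152, 1, 0, [(0, [1], [2, 5]), (0, [1], [3, 4]), (0, [0], [0, 1])])]

def z9_0 : Cov := [(0, 1, 0, [(0, [1], [0, 2]), (0, [1], [3, 4]), (0, [0], [1, 5])]),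
  (0, 1, 0, [(0, [1], [0, 3]), (0, [1], [2, 4]), (0, [0], [1, 5])]),
  (0, 1, 0, [(0, [1], [0, 4]), (0, [1], [1, 2]), (0, [0], [3, 5])]),
  (0, 1, 0, [(0, [1], [0, 4]), (0, [1], [1, 3]), (0, [0], [2, 5])]),
  (0, 1, 0, [(0, [1], [0, 4]), (0, [1], [2, 3]), (0, [0], [1, 5])]),
  (0, 1, 0, [(0, [1], [0, 4]), (0, [1], [2, 5]), (0, [0], [1, 3])]),
  (0, 1, 0, [(0, [1], [0, 4]), (0, [1], [3, 5]), (0, [0], [1, 2])]),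
  (0, 1, 0, [(0, [1], [1, 2]), (0, [1], [3, 5]), (0, [0], [0, 4])]),
  (0, 1, 0, [(0, [1], [1, 3]), (0, [1], [2, 5]), (0, [0], [0, 4])]),
  (0, 1, 0, [(0, [1], [1, 5]), (0, [1], [0, 2]), (0, [0], [3, 4])]),
  (0, 1, 0, [(0, [1], [1, 5]), (0, [1], [0, 3]), (0, [0], [2, 4])]),
  (0, 1, 0, [(0, [1], [1, 5]), (0, [1], [2, 3]), (0, [0], [0, 4])]),
  (0, 1, 0, [(0, [1], [1, 5]), (0, [1], [2, 4]), (0, [0], [0, 3])]),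
  (0, 1, 0, [(0, [1], [1, 5]), (0, [1], [3, 4]), (0, [0], [0, 2])])]

def w9_0 : List (List Wit) := [[(0, 0, 0, 0, 0), (0, 0, 0, 0, 0), (1, 0, 0, 0, 0), (1, 0, 0, 0, 0), (2, 0, 0, 0, 0), (2, 0, 0, 0, 0), (0, 0, 0, 0, 0), (0, 0, 0, 0, 0), (3, 0, 0, 0, 0), (3, 0, 0, 0, 0), (4, 0, 0, 0, 0), (4, 0, 0, 0, 0), (1, 0, 0, 0, 0), (1, 0, 0, 0, 0), (3, 0, 0, 0, 0), (3, 0, 0, 0, 0), (5, 0, 0, 0, 0), (5, 0, 0, 0, 0), (2, 0, 0, 0, 0), (2, 0, 0, 0, 0), (4, 0, 0, 0, 0), (4, 0, 0, 0, 0), (5, 0, 0, 0, 0), (5, 0, 0, 0, 0), (6, 0, 0, 0, 0), (6, 0, 0, 0, 0), (7, 0, 0, 0, 0), (6, 0, 0, 0, 0), (6, 0, 0, 0, 0), (30, 0, 0, 0, 0), (30, 0, 0, 0, 0), (8, 0, 0, 0, 0), (8, 0, 0, 0, 0), (7, 0, 0, 0, 0), (30, 0, 0, 0, 0), (30, 0, 0, 0, 0), (9, 0, 0, 0, 0), (8, 0, 0, 0, 0), (8, 0, 0, 0, 0), (9, 0, 0, 0, 0), (10,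 0, 0, 0, 0), (10, 0, 0, 0, 0), (11, 0, 0, 0, 0), (10, 0, 0, 0, 0), (10, 0, 0, 0, 0), (31, 0, 0, 0, 0), (31, 0, 0, 0, 0), (12, 0, 0, 0, 0), (12, 0, 0, 0, 0), (11, 0, 0, 0, 0), (31, 0, 0, 0, 0), (31, 0, 0, 0, 0), (13, 0, 0, 0, 0), (12, 0, 0, 0, 0), (12, 0, 0, 0, 0), (13, 0, 0, 0, 0), (32, 0, 0, 0, 0), (32, 0, 0, 0, 0), (33, 0, 0, 0, 0), (33, 0, 0, 0, 0), (32, 0, 0, 0, 0), (32, 0, 0, 0, 0), (34, 0, 0, 0, 0), (34, 0, 0, 0, 0), (35, 0, 0, 0, 0), (35, 0, 0, 0, 0), (33, 0, 0, 0, 0), (33, 0, 0, 0, 0), (34, 0, 0, 0, 0), (34, 0, 0, 0, 0), (36, 0, 0, 0, 0), (36, 0, 0, 0, 0), (35, 0, 0, 0, 0), (35, 0, 0, 0, 0), (36, 0, 0, 0, 0), (36, 0, 0, 0, 0), (14, 0, 0, 0, 0), (14, 0, 0, 0, 0), (15, 0, 0, 0, 0), (15, 0, 0, 0, 0), (16, 0, 0, 0, 0), (16, 0, 0, 0, 0), (14, 0, 0, 0, 0), (14, 0, 0, 0, 0),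 (17, 0, 0, 0, 0), (17, 0, 0, 0, 0), (18, 0, 0, 0, 0), (18, 0, 0, 0, 0), (15, 0, 0, 0, 0), (15, 0, 0, 0, 0), (17, 0, 0, 0, 0), (17, 0, 0, 0, 0), (19, 0, 0, 0, 0), (19, 0, 0, 0, 0), (16, 0, 0, 0, 0), (16, 0, 0, 0, 0), (18, 0, 0, 0, 0), (18, 0, 0, 0, 0), (19, 0, 0, 0, 0), (19, 0, 0, 0, 0), (0, 0, 0, 0, 0), (0, 0, 0, 0, 0), (1, 0, 0, 0, 0), (1, 0, 0, 0, 0), (2, 0, 0, 0, 0), (2, 0, 0, 0, 0), (0, 0, 0, 0, 0), (0, 0, 0, 0, 0), (3, 0, 0, 0, 0), (3, 0, 0, 0, 0), (4, 0, 0, 0, 0), (4, 0, 0, 0, 0), (1, 0, 0, 0, 0), (1, 0, 0, 0, 0), (3, 0, 0, 0, 0), (3, 0, 0, 0, 0), (5, 0, 0, 0, 0), (5, 0, 0, 0, 0), (2, 0, 0, 0, 0), (2, 0, 0, 0, 0), (4, 0, 0, 0, 0), (4, 0, 0, 0, 0), (5, 0, 0, 0, 0), (5, 0, 0, 0, 0), (10, 0, 0, 0, 0), (10, 0, 0, 0, 0), (14, 0, 0, 0, 0), (10, 0, 0, 0, 0), (10, 0, 0, 0, 0), (20,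 0, 0, 0, 0), (20, 0, 0, 0, 0), (37, 0, 0, 0, 0), (37, 0, 0, 0, 0), (20, 0, 0, 0, 0), (20, 0, 0, 0, 0), (21, 0, 0, 0, 0), (14, 0, 0, 0, 0), (37, 0, 0, 0, 0), (37, 0, 0, 0, 0), (21, 0, 0, 0, 0), (6, 0, 0, 0, 0), (6, 0, 0, 0, 0), (15, 0, 0, 0, 0), (6, 0, 0, 0, 0), (6, 0, 0, 0, 0), (22, 0, 0, 0, 0), (22, 0, 0, 0, 0), (38, 0, 0, 0, 0), (38, 0, 0, 0, 0), (22, 0, 0, 0, 0), (22, 0, 0, 0, 0), (23, 0, 0, 0, 0), (15, 0, 0, 0, 0), (38, 0, 0, 0, 0), (38, 0, 0, 0, 0), (23, 0, 0, 0, 0), (7, 0, 0, 0, 0), (7, 0, 0, 0, 0), (11, 0, 0, 0, 0), (11, 0, 0, 0, 0), (16, 0, 0, 0, 0), (16, 0, 0, 0, 0), (7, 0, 0, 0, 0), (7, 0, 0, 0, 0), (24, 0, 0, 0, 0), (24, 0, 0, 0, 0), (25, 0, 0, 0, 0), (25, 0, 0, 0, 0), (11, 0, 0, 0, 0), (11, 0, 0, 0, 0), (24, 0, 0, 0, 0), (24, 0, 0, 0, 0), (26, 0, 0, 0, 0), (26, 0,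 0, 0, 0), (16, 0, 0, 0, 0), (16, 0, 0, 0, 0), (25, 0, 0, 0, 0), (25, 0, 0, 0, 0), (26, 0, 0, 0, 0), (26, 0, 0, 0, 0), (39, 0, 0, 0, 0), (39, 0, 0, 0, 0), (40, 0, 0, 0, 0), (40, 0, 0, 0, 0), (39, 0, 0, 0, 0), (39, 0, 0, 0, 0), (41, 0, 0, 0, 0), (41, 0, 0, 0, 0), (42, 0, 0, 0, 0), (42, 0, 0, 0, 0), (40, 0, 0, 0, 0), (40, 0, 0, 0, 0), (41, 0, 0, 0, 0), (41, 0, 0, 0, 0), (43, 0, 0, 0, 0), (43, 0, 0, 0, 0), (42, 0, 0, 0, 0), (42, 0, 0, 0, 0), (43, 0, 0, 0, 0), (43, 0, 0, 0, 0), (6, 0, 0, 0, 0), (6, 0, 0, 0, 0), (7, 0, 0, 0, 0), (6, 0, 0, 0, 0), (6, 0, 0, 0, 0), (30, 0, 0, 0, 0), (30, 0, 0, 0, 0), (8, 0, 0, 0, 0), (8, 0, 0, 0, 0), (7, 0, 0, 0, 0), (30, 0, 0, 0, 0), (30, 0, 0, 0, 0), (9, 0, 0, 0, 0), (8, 0, 0, 0, 0), (8, 0, 0, 0, 0), (9, 0, 0, 0, 0), (10, 0, 0, 0, 0), (10, 0, 0, 0, 0),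 (14, 0, 0, 0, 0), (10, 0, 0, 0, 0), (10, 0, 0, 0, 0), (20, 0, 0, 0, 0), (20, 0, 0, 0, 0), (37, 0, 0, 0, 0), (37, 0, 0, 0, 0), (20, 0, 0, 0, 0), (20, 0, 0, 0, 0), (21, 0, 0, 0, 0), (14, 0, 0, 0, 0), (37, 0, 0, 0, 0), (37, 0, 0, 0, 0), (21, 0, 0, 0, 0), (0, 0, 0, 0, 0), (0, 0, 0, 0, 0), (17, 0, 0, 0, 0), (17, 0, 0, 0, 0), (0, 0, 0, 0, 0), (0, 0, 0, 0, 0), (24, 0, 0, 0, 0), (24, 0, 0, 0, 0), (24, 0, 0, 0, 0), (24, 0, 0, 0, 0), (27, 0, 0, 0, 0), (27, 0, 0, 0, 0), (17, 0, 0, 0, 0), (17, 0, 0, 0, 0), (27, 0, 0, 0, 0), (27, 0, 0, 0, 0), (1, 0, 0, 0, 0), (31, 0, 0, 0, 0), (31, 0, 0, 0, 0), (18, 0, 0, 0, 0), (1, 0, 0, 0, 0), (22, 0, 0, 0, 0), (22, 0, 0, 0, 0), (31, 0, 0, 0, 0), (31, 0, 0, 0, 0), (22, 0, 0, 0, 0), (22, 0, 0, 0, 0), (28, 0, 0, 0, 0), (28, 0, 0, 0, 0), (18, 0, 0, 0, 0), (28,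 0, 0, 0, 0), (28, 0, 0, 0, 0), (2, 0, 0, 0, 0), (12, 0, 0, 0, 0), (12, 0, 0, 0, 0), (2, 0, 0, 0, 0), (38, 0, 0, 0, 0), (38, 0, 0, 0, 0), (25, 0, 0, 0, 0), (12, 0, 0, 0, 0), (12, 0, 0, 0, 0), (38, 0, 0, 0, 0), (38, 0, 0, 0, 0), (29, 0, 0, 0, 0), (29, 0, 0, 0, 0), (25, 0, 0, 0, 0), (29, 0, 0, 0, 0), (29, 0, 0, 0, 0), (10, 0, 0, 0, 0), (10, 0, 0, 0, 0), (11, 0, 0, 0, 0), (10, 0, 0, 0, 0), (10, 0, 0, 0, 0), (31, 0, 0, 0, 0), (31, 0, 0, 0, 0), (12, 0, 0, 0, 0), (12, 0, 0, 0, 0), (11, 0, 0, 0, 0), (31, 0, 0, 0, 0), (31, 0, 0, 0, 0), (13, 0, 0, 0, 0), (12, 0, 0, 0, 0), (12, 0, 0, 0, 0), (13, 0, 0, 0, 0), (6, 0, 0, 0, 0), (6, 0, 0, 0, 0), (15, 0, 0, 0, 0), (6, 0, 0, 0, 0), (6, 0, 0, 0, 0), (22, 0, 0, 0, 0), (22, 0, 0, 0, 0), (38, 0, 0, 0, 0), (38, 0, 0, 0, 0), (22, 0, 0, 0, 0), (22, 0,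 0, 0, 0), (23, 0, 0, 0, 0), (15, 0, 0, 0, 0), (38, 0, 0, 0, 0), (38, 0, 0, 0, 0), (23, 0, 0, 0, 0), (0, 0, 0, 0, 0), (0, 0, 0, 0, 0), (17, 0, 0, 0, 0), (17, 0, 0, 0, 0), (0, 0, 0, 0, 0), (0, 0, 0, 0, 0), (24, 0, 0, 0, 0), (24, 0, 0, 0, 0), (24, 0, 0, 0, 0), (24, 0, 0, 0, 0), (27, 0, 0, 0, 0), (27, 0, 0, 0, 0), (17, 0, 0, 0, 0), (17, 0, 0, 0, 0), (27, 0, 0, 0, 0), (27, 0, 0, 0, 0), (3, 0, 0, 0, 0), (30, 0, 0, 0, 0), (30, 0, 0, 0, 0), (19, 0, 0, 0, 0), (3, 0, 0, 0, 0), (20, 0, 0, 0, 0), (20, 0, 0, 0, 0), (30, 0, 0, 0, 0), (30, 0, 0, 0, 0), (20, 0, 0, 0, 0), (20, 0, 0, 0, 0), (29, 0, 0, 0, 0), (29, 0, 0, 0, 0), (19, 0, 0, 0, 0), (29, 0, 0, 0, 0), (29, 0, 0, 0, 0), (4, 0, 0, 0, 0), (8, 0, 0, 0, 0), (8, 0, 0, 0, 0), (4, 0, 0, 0, 0), (37, 0, 0, 0, 0), (37, 0, 0, 0, 0), (26, 0, 0, 0,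 0), (8, 0, 0, 0, 0), (8, 0, 0, 0, 0), (37, 0, 0, 0, 0), (37, 0, 0, 0, 0), (28, 0, 0, 0, 0), (28, 0, 0, 0, 0), (26, 0, 0, 0, 0), (28, 0, 0, 0, 0), (28, 0, 0, 0, 0), (32, 0, 0, 0, 0), (32, 0, 0, 0, 0), (33, 0, 0, 0, 0), (33, 0, 0, 0, 0), (32, 0, 0, 0, 0), (32, 0, 0, 0, 0), (34, 0, 0, 0, 0), (34, 0, 0, 0, 0), (35, 0, 0, 0, 0), (35, 0, 0, 0, 0), (33, 0, 0, 0, 0), (33, 0, 0, 0, 0), (34, 0, 0, 0, 0), (34, 0, 0, 0, 0), (36, 0, 0, 0, 0), (36, 0, 0, 0, 0), (35, 0, 0, 0, 0), (35, 0, 0, 0, 0), (36, 0, 0, 0, 0), (36, 0, 0, 0, 0), (7, 0, 0, 0, 0), (7, 0, 0, 0, 0), (11, 0, 0, 0, 0), (11, 0, 0, 0, 0), (16, 0, 0, 0, 0), (16, 0, 0, 0, 0), (7, 0, 0, 0, 0), (7, 0, 0, 0, 0), (24, 0, 0, 0, 0), (24, 0, 0, 0, 0), (25, 0, 0, 0, 0), (25, 0, 0, 0, 0), (11, 0, 0, 0, 0), (11, 0, 0, 0, 0), (24, 0, 0, 0, 0),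 (24, 0, 0, 0, 0), (26, 0, 0, 0, 0), (26, 0, 0, 0, 0), (16, 0, 0, 0, 0), (16, 0, 0, 0, 0), (25, 0, 0, 0, 0), (25, 0, 0, 0, 0), (26, 0, 0, 0, 0), (26, 0, 0, 0, 0), (1, 0, 0, 0, 0), (31, 0, 0, 0, 0), (31, 0, 0, 0, 0), (18, 0, 0, 0, 0), (1, 0, 0, 0, 0), (22, 0, 0, 0, 0), (22, 0, 0, 0, 0), (31, 0, 0, 0, 0), (31, 0, 0, 0, 0), (22, 0, 0, 0, 0), (22, 0, 0, 0, 0), (28, 0, 0, 0, 0), (28, 0, 0, 0, 0), (18, 0, 0, 0, 0), (28, 0, 0, 0, 0), (28, 0, 0, 0, 0), (3, 0, 0, 0, 0), (30, 0, 0, 0, 0), (30, 0, 0, 0, 0), (19, 0, 0, 0, 0), (3, 0, 0, 0, 0), (20, 0, 0, 0, 0), (20, 0, 0, 0, 0), (30, 0, 0, 0, 0), (30, 0, 0, 0, 0), (20, 0, 0, 0, 0), (20, 0, 0, 0, 0), (29, 0, 0, 0, 0), (29, 0, 0, 0, 0), (19, 0, 0, 0, 0), (29, 0, 0, 0, 0), (29, 0, 0, 0, 0), (5, 0, 0, 0, 0), (5, 0, 0, 0, 0), (9, 0, 0, 0, 0), (9,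 0, 0, 0, 0), (13, 0, 0, 0, 0), (13, 0, 0, 0, 0), (5, 0, 0, 0, 0), (5, 0, 0, 0, 0), (21, 0, 0, 0, 0), (21, 0, 0, 0, 0), (23, 0, 0, 0, 0), (23, 0, 0, 0, 0), (9, 0, 0, 0, 0), (9, 0, 0, 0, 0), (21, 0, 0, 0, 0), (21, 0, 0, 0, 0), (27, 0, 0, 0, 0), (27, 0, 0, 0, 0), (13, 0, 0, 0, 0), (13, 0, 0, 0, 0), (23, 0, 0, 0, 0), (23, 0, 0, 0, 0), (27, 0, 0, 0, 0), (27, 0, 0, 0, 0), (14, 0, 0, 0, 0), (14, 0, 0, 0, 0), (15, 0, 0, 0, 0), (15, 0, 0, 0, 0), (16, 0, 0, 0, 0), (16, 0, 0, 0, 0), (14, 0, 0, 0, 0), (14, 0, 0, 0, 0), (17, 0, 0, 0, 0), (17, 0, 0, 0, 0), (18, 0, 0, 0, 0), (18, 0, 0, 0, 0), (15, 0, 0, 0, 0), (15, 0, 0, 0, 0), (17, 0, 0, 0, 0), (17, 0, 0, 0, 0), (19, 0, 0, 0, 0), (19, 0, 0, 0, 0), (16, 0, 0, 0, 0), (16, 0, 0, 0, 0), (18, 0, 0, 0, 0), (18, 0, 0, 0, 0), (19, 0, 0, 0, 0), (19,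 0, 0, 0, 0), (39, 0, 0, 0, 0), (39, 0, 0, 0, 0), (40, 0, 0, 0, 0), (40, 0, 0, 0, 0), (39, 0, 0, 0, 0), (39, 0, 0, 0, 0), (41, 0, 0, 0, 0), (41, 0, 0, 0, 0), (42, 0, 0, 0, 0), (42, 0, 0, 0, 0), (40, 0, 0, 0, 0), (40, 0, 0, 0, 0), (41, 0, 0, 0, 0), (41, 0, 0, 0, 0), (43, 0, 0, 0, 0), (43, 0, 0, 0, 0), (42, 0, 0, 0, 0), (42, 0, 0, 0, 0), (43, 0, 0, 0, 0), (43, 0, 0, 0, 0), (2, 0, 0, 0, 0), (12, 0, 0, 0, 0), (12, 0, 0, 0, 0), (2, 0, 0, 0, 0), (38, 0, 0, 0, 0), (38, 0, 0, 0, 0), (25, 0, 0, 0, 0), (12, 0, 0, 0, 0), (12, 0, 0, 0, 0), (38, 0, 0, 0, 0), (38, 0, 0, 0, 0), (29, 0, 0, 0, 0), (29, 0, 0, 0, 0), (25, 0, 0, 0, 0), (29, 0, 0, 0, 0), (29, 0, 0, 0, 0), (4, 0, 0, 0, 0), (8, 0, 0, 0, 0), (8, 0, 0, 0, 0), (4, 0, 0, 0, 0), (37, 0, 0, 0, 0), (37, 0, 0, 0, 0), (26, 0, 0, 0, 0), (8, 0,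 0, 0, 0), (8, 0, 0, 0, 0), (37, 0, 0, 0, 0), (37, 0, 0, 0, 0), (28, 0, 0, 0, 0), (28, 0, 0, 0, 0), (26, 0, 0, 0, 0), (28, 0, 0, 0, 0), (28, 0, 0, 0, 0), (5, 0, 0, 0, 0), (5, 0, 0, 0, 0), (9, 0, 0, 0, 0), (9, 0, 0, 0, 0), (13, 0, 0, 0, 0), (13, 0, 0, 0, 0), (5, 0, 0, 0, 0), (5, 0, 0, 0, 0), (21, 0, 0, 0, 0), (21, 0, 0, 0, 0), (23, 0, 0, 0, 0), (23, 0, 0, 0, 0), (9, 0, 0, 0, 0), (9, 0, 0, 0, 0), (21, 0, 0, 0, 0), (21, 0, 0, 0, 0), (27, 0, 0, 0, 0), (27, 0, 0, 0, 0), (13, 0, 0, 0, 0), (13, 0, 0, 0, 0), (23, 0, 0, 0, 0), (23, 0, 0, 0, 0), (27, 0, 0, 0, 0), (27, 0, 0, 0, 0)]]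

def m9_1 : Base := (1, 0, [(0, [1], [0, 1]), (0, [1], [2, 4]), (0, [0], [3, 5])])

def l9_1 : Cov := [(576, 1, 0, [(0, [1], [0, 1]), (0, [1], [2, 4]), (0, [0], [3, 5])]),
  (576, 1, 0, [(0, [1], [0, 1]), (0, [1], [2, 5]), (0, [0], [3, 4])]),
  (384, 1, 0, [(0, [1], [0, 1]), (0, [1], [2, 3]), (0, [0], [4, 5])]),
  (576, 1, 0, [(0, [1], [0, 1]), (0, [1], [3, 4]), (0, [0], [2, 5])]),
  (576, 1, 0, [(0, [1], [0, 1]), (0, [1], [3, 5]), (0, [0], [2, 4])]),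
  (1152, 1, 0, [(0, [1], [0, 1]), (0, [1], [4, 5]), (0, [0], [2, 3])]),
  (-576, 1, 0, [(0, [1], [0, 2]), (0, [1], [1, 4]), (0, [0], [3, 5])]),
  (-192, 1, 0, [(0, [1], [0, 2]), (0, [1], [1, 3]), (0, [0], [4, 5])]),
  (192, 1, 0, [(0, [1], [0, 2]), (0, [1], [3, 5]), (0, [0], [1, 4])]),
  (576, 1, 0, [(0, [1], [0, 2]), (0, [1], [4, 5]), (0, [0], [3, 1])]),
  (-576, 1, 0, [(0, [1], [0, 3]), (0, [1], [1, 4]), (0, [0], [2, 5])]),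
  (-192, 1, 0, [(0, [1], [0, 3]), (0, [1], [1, 2]), (0, [0], [4, 5])]),
  (192, 1, 0, [(0, [1], [0, 3]), (0, [1], [2, 5]), (0, [0], [1, 4])]),
  (576, 1, 0, [(0, [1], [0, 3]), (0, [1], [4, 5]), (0, [0], [2, 1])]),
  (-576, 1, 0, [(0, [1], [0, 5]), (0, [1], [1, 3]), (0, [0], [2, 4])]),
  (-1152, 1, 0, [(0, [1], [0, 5]), (0, [1], [1, 4]), (0, [0], [2, 3])]),
  (-576, 1, 0, [(0, [1], [0, 5]), (0, [1], [1, 2]), (0, [0], [3, 4])]),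
  (-384, 1, 0, [(0, [1], [0, 5]), (0, [1], [2, 3]), (0, [0], [1, 4])]),
  (-576, 1, 0, [(0, [1], [0, 5]), (0, [1], [2, 4]), (0, [0], [1, 3])]),
  (-576, 1, 0, [(0, [1], [0, 5]), (0, [1], [3, 4]), (0, [0], [1, 2])]),
  (192, 1, 0, [(0, [1], [1, 2]), (0, [1], [3, 4]), (0, [0], [0, 5])]),
  (576, 1, 0, [(0, [1], [1, 2]), (0, [1], [4, 5]), (0, [0], [3, 0])]),
  (192, 1, 0, [(0, [1], [1, 3]), (0, [1], [2, 4]), (0, [0], [0, 5])]),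
  (576, 1, 0, [(0, [1], [1, 3]), (0, [1], [4, 5]), (0, [0], [2, 0])]),
  (-384, 1, 0, [(0, [1], [1, 4]), (0, [1], [2, 3]), (0, [0], [0, 5])]),
  (-576, 1, 0, [(0, [1], [1, 4]), (0, [1], [2, 5]), (0, [0], [0, 3])]),
  (-576, 1, 0, [(0, [1], [1, 4]), (0, [1], [3, 5]), (0, [0], [0, 2])]),
  (384, 1, 0, [(0, [1], [2, 3]), (0, [1], [4, 5]), (0, [0], [1, 0])]),
  (-192, 1, 0, [(0, [1], [2, 4]), (0, [1], [3, 5]), (0, [0], [0, 1])]),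
  (-192, 1, 0, [(0, [1], [2, 5]), (0, [1], [3, 4]), (0, [0], [0, 1])])]

def z9_1 : Cov := [(0, 1, 0, [(0, [1], [0, 2]), (0, [1], [1, 5]), (0, [0], [3, 4])]),
  (0, 1, 0, [(0, [1], [0, 2]), (0, [1], [3, 4]), (0, [0], [1, 5])]),
  (0, 1, 0, [(0, [1], [0, 3]), (0, [1], [1, 5]), (0, [0], [2, 4])]),
  (0, 1, 0, [(0, [1], [0, 3]), (0, [1], [2, 4]), (0, [0], [1, 5])]),
  (0, 1, 0, [(0, [1], [0, 4]), (0, [1], [1, 3]), (0, [0], [2, 5])]),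
  (0, 1, 0, [(0, [1], [0, 4]), (0, [1], [1, 5]), (0, [0], [2, 3])]),
  (0, 1, 0, [(0, [1], [0, 4]), (0, [1], [1, 2]), (0, [0], [3, 5])]),
  (0, 1, 0, [(0, [1], [0, 4]), (0, [1], [2, 3]), (0, [0], [1, 5])]),
  (0, 1, 0, [(0, [1], [0, 4]), (0, [1], [2, 5]), (0, [0], [1, 3])]),
  (0, 1, 0, [(0, [1], [0, 4]), (0, [1], [3, 5]), (0, [0], [1, 2])]),
  (0, 1, 0, [(0, [1], [1, 2]), (0, [1], [3, 5]), (0, [0], [0, 4])]),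
  (0, 1, 0, [(0, [1], [1, 3]), (0, [1], [2, 5]), (0, [0], [0, 4])]),
  (0, 1, 0, [(0, [1], [1, 5]), (0, [1], [2, 3]), (0, [0], [0, 4])]),
  (0, 1, 0, [(0, [1], [1, 5]), (0, [1], [2, 4]), (0, [0], [0, 3])]),
  (0, 1, 0, [(0, [1], [1, 5]), (0, [1], [3, 4]), (0, [0], [0, 2])])]

def w9_1 : List (List Wit) := [[(0, 0, 0, 0, 0), (1, 0, 0, 0, 0), (2, 0, 0, 0, 0), (1, 0, 0, 0, 0), (2, 0, 0, 0, 0), (0, 0, 0, 0, 0), (3, 0, 0, 0, 0), (4, 0, 0, 0, 0), (2, 0, 0, 0, 0), (4, 0, 0, 0, 0), (2, 0, 0, 0, 0), (3, 0, 0, 0, 0), (3, 0, 0, 0, 0), (5, 0, 0, 0, 0), (0, 0, 0, 0, 0), (5, 0, 0, 0, 0), (0, 0, 0, 0, 0), (3, 0, 0, 0, 0), (4, 0, 0, 0, 0), (5, 0, 0, 0, 0), (1, 0, 0, 0, 0), (5, 0, 0, 0, 0), (1, 0, 0, 0, 0), (4, 0, 0, 0, 0), (6, 0, 0, 0, 0), (30, 0, 0, 0, 0), (7, 0, 0, 0, 0), (31, 0, 0, 0, 0),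 (8, 0, 0, 0, 0), (7, 0, 0, 0, 0), (8, 0, 0, 0, 0), (7, 0, 0, 0, 0), (31, 0, 0, 0, 0), (31, 0, 0, 0, 0), (6, 0, 0, 0, 0), (9, 0, 0, 0, 0), (31, 0, 0, 0, 0), (30, 0, 0, 0, 0), (9, 0, 0, 0, 0), (8, 0, 0, 0, 0), (10, 0, 0, 0, 0), (32, 0, 0, 0, 0), (11, 0, 0, 0, 0), (33, 0, 0, 0, 0), (12, 0, 0, 0, 0), (11, 0, 0, 0, 0), (12, 0, 0, 0, 0), (11, 0, 0, 0, 0), (33, 0, 0, 0, 0), (33, 0, 0, 0, 0), (10, 0, 0, 0, 0), (13, 0, 0, 0, 0), (33, 0, 0, 0, 0), (32, 0, 0, 0, 0), (13, 0, 0, 0, 0), (12, 0, 0, 0, 0), (34, 0, 0, 0, 0), (35, 0, 0, 0, 0), (36, 0, 0, 0, 0), (35, 0, 0, 0, 0), (37, 0, 0, 0, 0), (38, 0, 0, 0, 0), (36, 0, 0, 0, 0), (38, 0, 0, 0, 0), (36, 0, 0, 0, 0), (37, 0, 0, 0, 0), (37, 0, 0, 0, 0), (39, 0, 0, 0, 0), (34, 0, 0, 0, 0), (39, 0, 0, 0, 0), (34, 0, 0, 0, 0), (37, 0, 0, 0, 0), (35,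 0, 0, 0, 0), (39, 0, 0, 0, 0), (35, 0, 0, 0, 0), (38, 0, 0, 0, 0), (14, 0, 0, 0, 0), (15, 0, 0, 0, 0), (16, 0, 0, 0, 0), (15, 0, 0, 0, 0), (16, 0, 0, 0, 0), (14, 0, 0, 0, 0), (17, 0, 0, 0, 0), (18, 0, 0, 0, 0), (16, 0, 0, 0, 0), (18, 0, 0, 0, 0), (16, 0, 0, 0, 0), (17, 0, 0, 0, 0), (17, 0, 0, 0, 0), (19, 0, 0, 0, 0), (14, 0, 0, 0, 0), (19, 0, 0, 0, 0), (14, 0, 0, 0, 0), (17, 0, 0, 0, 0), (18, 0, 0, 0, 0), (19, 0, 0, 0, 0), (15, 0, 0, 0, 0), (19, 0, 0, 0, 0), (15, 0, 0, 0, 0), (18, 0, 0, 0, 0), (0, 0, 0, 0, 0), (1, 0, 0, 0, 0), (2, 0, 0, 0, 0), (1, 0, 0, 0, 0), (2, 0, 0, 0, 0), (0, 0, 0, 0, 0), (3, 0, 0, 0, 0), (4, 0, 0, 0, 0), (2, 0, 0, 0, 0), (4, 0, 0, 0, 0), (2, 0, 0, 0, 0), (3, 0, 0, 0, 0), (3, 0, 0, 0, 0), (5, 0, 0, 0, 0), (0, 0, 0, 0, 0), (5, 0, 0, 0, 0), (0, 0, 0, 0, 0),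 (3, 0, 0, 0, 0), (4, 0, 0, 0, 0), (5, 0, 0, 0, 0), (1, 0, 0, 0, 0), (5, 0, 0, 0, 0), (1, 0, 0, 0, 0), (4, 0, 0, 0, 0), (36, 0, 0, 0, 0), (16, 0, 0, 0, 0), (11, 0, 0, 0, 0), (20, 0, 0, 0, 0), (40, 0, 0, 0, 0), (11, 0, 0, 0, 0), (40, 0, 0, 0, 0), (11, 0, 0, 0, 0), (20, 0, 0, 0, 0), (36, 0, 0, 0, 0), (21, 0, 0, 0, 0), (20, 0, 0, 0, 0), (40, 0, 0, 0, 0), (16, 0, 0, 0, 0), (21, 0, 0, 0, 0), (40, 0, 0, 0, 0), (34, 0, 0, 0, 0), (14, 0, 0, 0, 0), (7, 0, 0, 0, 0), (22, 0, 0, 0, 0), (41, 0, 0, 0, 0), (7, 0, 0, 0, 0), (41, 0, 0, 0, 0), (7, 0, 0, 0, 0), (22, 0, 0, 0, 0), (34, 0, 0, 0, 0), (23, 0, 0, 0, 0), (22, 0, 0, 0, 0), (41, 0, 0, 0, 0), (14, 0, 0, 0, 0), (23, 0, 0, 0, 0), (41, 0, 0, 0, 0), (10, 0, 0, 0, 0), (15, 0, 0, 0, 0), (6, 0, 0, 0, 0), (15, 0, 0, 0, 0), (6, 0, 0, 0, 0), (10, 0,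 0, 0, 0), (24, 0, 0, 0, 0), (25, 0, 0, 0, 0), (6, 0, 0, 0, 0), (25, 0, 0, 0, 0), (6, 0, 0, 0, 0), (24, 0, 0, 0, 0), (24, 0, 0, 0, 0), (26, 0, 0, 0, 0), (10, 0, 0, 0, 0), (26, 0, 0, 0, 0), (10, 0, 0, 0, 0), (24, 0, 0, 0, 0), (25, 0, 0, 0, 0), (26, 0, 0, 0, 0), (15, 0, 0, 0, 0), (26, 0, 0, 0, 0), (15, 0, 0, 0, 0), (25, 0, 0, 0, 0), (32, 0, 0, 0, 0), (35, 0, 0, 0, 0), (30, 0, 0, 0, 0), (35, 0, 0, 0, 0), (42, 0, 0, 0, 0), (43, 0, 0, 0, 0), (30, 0, 0, 0, 0), (43, 0, 0, 0, 0), (30, 0, 0, 0, 0), (42, 0, 0, 0, 0), (42, 0, 0, 0, 0), (44, 0, 0, 0, 0), (32, 0, 0, 0, 0), (44, 0, 0, 0, 0), (32, 0, 0, 0, 0), (42, 0, 0, 0, 0), (35, 0, 0, 0, 0), (44, 0, 0, 0, 0), (35, 0, 0, 0, 0), (43, 0, 0, 0, 0), (6, 0, 0, 0, 0), (30, 0, 0, 0, 0), (30, 0, 0, 0, 0), (31, 0, 0, 0, 0), (8, 0, 0, 0, 0), (7, 0,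 0, 0, 0), (8, 0, 0, 0, 0), (7, 0, 0, 0, 0), (31, 0, 0, 0, 0), (9, 0, 0, 0, 0), (6, 0, 0, 0, 0), (9, 0, 0, 0, 0), (6, 0, 0, 0, 0), (30, 0, 0, 0, 0), (9, 0, 0, 0, 0), (30, 0, 0, 0, 0), (36, 0, 0, 0, 0), (16, 0, 0, 0, 0), (36, 0, 0, 0, 0), (20, 0, 0, 0, 0), (40, 0, 0, 0, 0), (11, 0, 0, 0, 0), (40, 0, 0, 0, 0), (11, 0, 0, 0, 0), (20, 0, 0, 0, 0), (36, 0, 0, 0, 0), (21, 0, 0, 0, 0), (36, 0, 0, 0, 0), (21, 0, 0, 0, 0), (16, 0, 0, 0, 0), (21, 0, 0, 0, 0), (16, 0, 0, 0, 0), (37, 0, 0, 0, 0), (17, 0, 0, 0, 0), (2, 0, 0, 0, 0), (37, 0, 0, 0, 0), (24, 0, 0, 0, 0), (42, 0, 0, 0, 0), (2, 0, 0, 0, 0), (42, 0, 0, 0, 0), (37, 0, 0, 0, 0), (27, 0, 0, 0, 0), (37, 0, 0, 0, 0), (24, 0, 0, 0, 0), (42, 0, 0, 0, 0), (27, 0, 0, 0, 0), (17, 0, 0, 0, 0), (42, 0, 0, 0, 0), (18, 0, 0, 0, 0), (0, 0, 0, 0,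 0), (18, 0, 0, 0, 0), (0, 0, 0, 0, 0), (43, 0, 0, 0, 0), (0, 0, 0, 0, 0), (43, 0, 0, 0, 0), (22, 0, 0, 0, 0), (28, 0, 0, 0, 0), (33, 0, 0, 0, 0), (28, 0, 0, 0, 0), (33, 0, 0, 0, 0), (22, 0, 0, 0, 0), (43, 0, 0, 0, 0), (18, 0, 0, 0, 0), (43, 0, 0, 0, 0), (38, 0, 0, 0, 0), (1, 0, 0, 0, 0), (38, 0, 0, 0, 0), (25, 0, 0, 0, 0), (1, 0, 0, 0, 0), (25, 0, 0, 0, 0), (1, 0, 0, 0, 0), (41, 0, 0, 0, 0), (29, 0, 0, 0, 0), (12, 0, 0, 0, 0), (29, 0, 0, 0, 0), (12, 0, 0, 0, 0), (41, 0, 0, 0, 0), (38, 0, 0, 0, 0), (38, 0, 0, 0, 0), (25, 0, 0, 0, 0), (10, 0, 0, 0, 0), (32, 0, 0, 0, 0), (32, 0, 0, 0, 0), (33, 0, 0, 0, 0), (12, 0, 0, 0, 0), (11, 0, 0, 0, 0), (12, 0, 0, 0, 0), (11, 0, 0, 0, 0), (33, 0, 0, 0, 0), (13, 0, 0, 0, 0), (10, 0, 0, 0, 0), (13, 0, 0, 0, 0), (10, 0, 0, 0, 0), (32, 0, 0, 0,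 0), (13, 0, 0, 0, 0), (32, 0, 0, 0, 0), (34, 0, 0, 0, 0), (14, 0, 0, 0, 0), (34, 0, 0, 0, 0), (22, 0, 0, 0, 0), (41, 0, 0, 0, 0), (7, 0, 0, 0, 0), (41, 0, 0, 0, 0), (7, 0, 0, 0, 0), (22, 0, 0, 0, 0), (34, 0, 0, 0, 0), (23, 0, 0, 0, 0), (34, 0, 0, 0, 0), (23, 0, 0, 0, 0), (14, 0, 0, 0, 0), (23, 0, 0, 0, 0), (14, 0, 0, 0, 0), (37, 0, 0, 0, 0), (17, 0, 0, 0, 0), (2, 0, 0, 0, 0), (37, 0, 0, 0, 0), (24, 0, 0, 0, 0), (42, 0, 0, 0, 0), (2, 0, 0, 0, 0), (42, 0, 0, 0, 0), (37, 0, 0, 0, 0), (27, 0, 0, 0, 0), (37, 0, 0, 0, 0), (24, 0, 0, 0, 0), (42, 0, 0, 0, 0), (27, 0, 0, 0, 0), (17, 0, 0, 0, 0), (42, 0, 0, 0, 0), (19, 0, 0, 0, 0), (3, 0, 0, 0, 0), (19, 0, 0, 0, 0), (3, 0, 0, 0, 0), (44, 0, 0, 0, 0), (3, 0, 0, 0, 0), (44, 0, 0, 0, 0), (20, 0, 0, 0, 0), (29, 0, 0, 0, 0), (31, 0, 0, 0, 0),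 (29, 0, 0, 0, 0), (31, 0, 0, 0, 0), (20, 0, 0, 0, 0), (44, 0, 0, 0, 0), (19, 0, 0, 0, 0), (44, 0, 0, 0, 0), (39, 0, 0, 0, 0), (4, 0, 0, 0, 0), (39, 0, 0, 0, 0), (26, 0, 0, 0, 0), (4, 0, 0, 0, 0), (26, 0, 0, 0, 0), (4, 0, 0, 0, 0), (40, 0, 0, 0, 0), (28, 0, 0, 0, 0), (8, 0, 0, 0, 0), (28, 0, 0, 0, 0), (8, 0, 0, 0, 0), (40, 0, 0, 0, 0), (39, 0, 0, 0, 0), (39, 0, 0, 0, 0), (26, 0, 0, 0, 0), (34, 0, 0, 0, 0), (35, 0, 0, 0, 0), (36, 0, 0, 0, 0), (35, 0, 0, 0, 0), (37, 0, 0, 0, 0), (38, 0, 0, 0, 0), (36, 0, 0, 0, 0), (38, 0, 0, 0, 0), (36, 0, 0, 0, 0), (37, 0, 0, 0, 0), (37, 0, 0, 0, 0), (39, 0, 0, 0, 0), (34, 0, 0, 0, 0), (39, 0, 0, 0, 0), (34, 0, 0, 0, 0), (37, 0, 0, 0, 0), (35, 0, 0, 0, 0), (39, 0, 0, 0, 0), (35, 0, 0, 0, 0), (38, 0, 0, 0, 0), (10, 0, 0, 0, 0), (15, 0, 0, 0, 0),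 (6, 0, 0, 0, 0), (15, 0, 0, 0, 0), (6, 0, 0, 0, 0), (10, 0, 0, 0, 0), (24, 0, 0, 0, 0), (25, 0, 0, 0, 0), (6, 0, 0, 0, 0), (25, 0, 0, 0, 0), (6, 0, 0, 0, 0), (24, 0, 0, 0, 0), (24, 0, 0, 0, 0), (26, 0, 0, 0, 0), (10, 0, 0, 0, 0), (26, 0, 0, 0, 0), (10, 0, 0, 0, 0), (24, 0, 0, 0, 0), (25, 0, 0, 0, 0), (26, 0, 0, 0, 0), (15, 0, 0, 0, 0), (26, 0, 0, 0, 0), (15, 0, 0, 0, 0), (25, 0, 0, 0, 0), (33, 0, 0, 0, 0), (0, 0, 0, 0, 0), (18, 0, 0, 0, 0), (33, 0, 0, 0, 0), (22, 0, 0, 0, 0), (0, 0, 0, 0, 0), (43, 0, 0, 0, 0), (22, 0, 0, 0, 0), (28, 0, 0, 0, 0), (33, 0, 0, 0, 0), (28, 0, 0, 0, 0), (33, 0, 0, 0, 0), (22, 0, 0, 0, 0), (28, 0, 0, 0, 0), (18, 0, 0, 0, 0), (43, 0, 0, 0, 0), (31, 0, 0, 0, 0), (3, 0, 0, 0, 0), (19, 0, 0, 0, 0), (31, 0, 0, 0, 0), (20, 0, 0, 0, 0), (3, 0, 0, 0, 0), (44,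 0, 0, 0, 0), (20, 0, 0, 0, 0), (29, 0, 0, 0, 0), (31, 0, 0, 0, 0), (29, 0, 0, 0, 0), (31, 0, 0, 0, 0), (20, 0, 0, 0, 0), (29, 0, 0, 0, 0), (19, 0, 0, 0, 0), (44, 0, 0, 0, 0), (9, 0, 0, 0, 0), (13, 0, 0, 0, 0), (5, 0, 0, 0, 0), (13, 0, 0, 0, 0), (5, 0, 0, 0, 0), (9, 0, 0, 0, 0), (21, 0, 0, 0, 0), (23, 0, 0, 0, 0), (5, 0, 0, 0, 0), (23, 0, 0, 0, 0), (5, 0, 0, 0, 0), (21, 0, 0, 0, 0), (21, 0, 0, 0, 0), (27, 0, 0, 0, 0), (9, 0, 0, 0, 0), (27, 0, 0, 0, 0), (9, 0, 0, 0, 0), (21, 0, 0, 0, 0), (23, 0, 0, 0, 0), (27, 0, 0, 0, 0), (13, 0, 0, 0, 0), (27, 0, 0, 0, 0), (13, 0, 0, 0, 0), (23, 0, 0, 0, 0), (14, 0, 0, 0, 0), (15, 0, 0, 0, 0), (16, 0, 0, 0, 0), (15, 0, 0, 0, 0), (16, 0, 0, 0, 0), (14, 0, 0, 0, 0), (17, 0, 0, 0, 0), (18, 0, 0, 0, 0), (16, 0, 0, 0, 0), (18, 0, 0, 0, 0), (16, 0,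 0, 0, 0), (17, 0, 0, 0, 0), (17, 0, 0, 0, 0), (19, 0, 0, 0, 0), (14, 0, 0, 0, 0), (19, 0, 0, 0, 0), (14, 0, 0, 0, 0), (17, 0, 0, 0, 0), (18, 0, 0, 0, 0), (19, 0, 0, 0, 0), (15, 0, 0, 0, 0), (19, 0, 0, 0, 0), (15, 0, 0, 0, 0), (18, 0, 0, 0, 0), (32, 0, 0, 0, 0), (35, 0, 0, 0, 0), (30, 0, 0, 0, 0), (35, 0, 0, 0, 0), (42, 0, 0, 0, 0), (43, 0, 0, 0, 0), (30, 0, 0, 0, 0), (43, 0, 0, 0, 0), (30, 0, 0, 0, 0), (42, 0, 0, 0, 0), (42, 0, 0, 0, 0), (44, 0, 0, 0, 0), (32, 0, 0, 0, 0), (44, 0, 0, 0, 0), (32, 0, 0, 0, 0), (42, 0, 0, 0, 0), (35, 0, 0, 0, 0), (44, 0, 0, 0, 0), (35, 0, 0, 0, 0), (43, 0, 0, 0, 0), (12, 0, 0, 0, 0), (1, 0, 0, 0, 0), (38, 0, 0, 0, 0), (41, 0, 0, 0, 0), (1, 0, 0, 0, 0), (25, 0, 0, 0, 0), (41, 0, 0, 0, 0), (41, 0, 0, 0, 0), (29, 0, 0, 0, 0), (12, 0, 0, 0, 0), (29,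 0, 0, 0, 0), (12, 0, 0, 0, 0), (41, 0, 0, 0, 0), (29, 0, 0, 0, 0), (38, 0, 0, 0, 0), (25, 0, 0, 0, 0), (8, 0, 0, 0, 0), (4, 0, 0, 0, 0), (39, 0, 0, 0, 0), (40, 0, 0, 0, 0), (4, 0, 0, 0, 0), (26, 0, 0, 0, 0), (40, 0, 0, 0, 0), (40, 0, 0, 0, 0), (28, 0, 0, 0, 0), (8, 0, 0, 0, 0), (28, 0, 0, 0, 0), (8, 0, 0, 0, 0), (40, 0, 0, 0, 0), (28, 0, 0, 0, 0), (39, 0, 0, 0, 0), (26, 0, 0, 0, 0), (9, 0, 0, 0, 0), (13, 0, 0, 0, 0), (5, 0, 0, 0, 0), (13, 0, 0, 0, 0), (5, 0, 0, 0, 0), (9, 0, 0, 0, 0), (21, 0, 0, 0, 0), (23, 0, 0, 0, 0), (5, 0, 0, 0, 0), (23, 0, 0, 0, 0), (5, 0, 0, 0, 0), (21, 0, 0, 0, 0), (21, 0, 0, 0, 0), (27, 0, 0, 0, 0), (9, 0, 0, 0, 0), (27, 0, 0, 0, 0), (9, 0, 0, 0, 0), (21, 0, 0, 0, 0), (23, 0, 0, 0, 0), (27, 0, 0, 0, 0), (13, 0, 0, 0, 0), (27, 0, 0, 0, 0), (13, 0, 0, 0,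 0), (23, 0, 0, 0, 0)]]

def m9_2 : Base := (0, 0, [(0, [0], [0, 1]), (1, [], [2, 3]), (1, [], [4, 5])])

def l9_2 : Cov := [(1536, 0, 0, [(0, [0], [0, 1]), (1, [], [2, 3]), (1, [], [4, 5])]),
  (1152, 0, 0, [(0, [0], [0, 1]), (1, [], [2, 4]), (1, [], [3, 5])]),
  (1152, 0, 0, [(0, [0], [0, 1]), (1, [], [2, 5]), (1, [], [3, 4])]),
  (384, 0, 0, [(0, [0], [0, 2]), (1, [], [1, 3]), (1, [], [4, 5])]),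
  (-384, 0, 0, [(0, [0], [0, 2]), (1, [], [1, 4]), (1, [], [3, 5])]),
  (384, 0, 0, [(0, [0], [0, 3]), (1, [], [1, 2]), (1, [], [4, 5])]),
  (-384, 0, 0, [(0, [0], [0, 3]), (1, [], [1, 4]), (1, [], [2, 5])]),
  (-1152, 0, 0, [(0, [0], [0, 5]), (1, [], [1, 2]), (1, [], [3, 4])]),
  (-1152, 0, 0, [(0, [0], [0, 5]), (1, [], [1, 3]), (1, [], [2, 4])]),
  (-1536, 0, 0, [(0, [0], [0, 5]), (1, [], [1, 4]), (1, [], [2, 3])]),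
  (384, 0, 0, [(0, [0], [1, 2]), (1, [], [0, 3]), (1, [], [4, 5])]),
  (-384, 0, 0, [(0, [0], [1, 2]), (1, [], [0, 5]), (1, [], [3, 4])]),
  (384, 0, 0, [(0, [0], [1, 3]), (1, [], [0, 2]), (1, [], [4, 5])]),
  (-384, 0, 0, [(0, [0], [1, 3]), (1, [], [0, 5]), (1, [], [2, 4])]),
  (-1152, 0, 0, [(0, [0], [1, 4]), (1, [], [0, 2]), (1, [], [3, 5])]),
  (-1152, 0, 0, [(0, [0], [1, 4]), (1, [], [0, 3]), (1, [], [2, 5])]),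
  (-1536, 0, 0, [(0, [0], [1, 4]), (1, [], [0, 5]), (1, [], [2, 3])]),
  (768, 0, 0, [(0, [0], [2, 3]), (1, [], [0, 1]), (1, [], [4, 5])]),
  (-768, 0, 0, [(0, [0], [2, 3]), (1, [], [0, 5]), (1, [], [1, 4])]),
  (384, 0, 0, [(0, [0], [2, 4]), (1, [], [0, 1]), (1, [], [5, 3])]),
  (-384, 0, 0, [(0, [0], [2, 4]), (1, [], [0, 5]), (1, [], [1, 3])]),
  (384, 0, 0, [(0, [0], [2, 5]), (1, [], [0, 1]), (1, [], [4, 3])]),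
  (-384, 0, 0, [(0, [0], [2, 5]), (1, [], [0, 3]), (1, [], [1, 4])]),
  (384, 0, 0, [(0, [0], [3, 4]), (1, [], [0, 1]), (1, [], [5, 2])]),
  (-384, 0, 0, [(0, [0], [3, 4]), (1, [], [0, 5]), (1, [], [1, 2])]),
  (384, 0, 0, [(0, [0], [3, 5]), (1, [], [0, 1]), (1, [], [4, 2])]),
  (-384, 0, 0, [(0, [0], [3, 5]), (1, [], [0, 2]), (1, [], [1, 4])]),
  (1536, 0, 0, [(0, [0], [4, 5]), (1, [], [0, 1]), (1, [], [2, 3])]),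
  (1152, 0, 0, [(0, [0], [4, 5]), (1, [], [0, 2]), (1, [], [1, 3])]),
  (1152, 0, 0, [(0, [0], [4, 5]), (1, [], [0, 3]), (1, [], [1, 2])])]

def z9_2 : Cov := [(0, 0, 0, [(0, [0], [0, 2]), (1, [], [3, 4]), (1, [], [1, 5])]),
  (0, 0, 0, [(0, [0], [0, 3]), (1, [], [2, 4]), (1, [], [1, 5])]),
  (0, 0, 0, [(0, [0], [0, 4]), (1, [], [1, 2]), (1, [], [3, 5])]),
  (0, 0, 0, [(0, [0], [0, 4]), (1, [], [1, 3]), (1, [], [2, 5])]),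
  (0, 0, 0, [(0, [0], [0, 4]), (1, [], [2, 3]), (1, [], [1, 5])]),
  (0, 0, 0, [(0, [0], [1, 2]), (1, [], [3, 5]), (1, [], [0, 4])]),
  (0, 0, 0, [(0, [0], [1, 3]), (1, [], [2, 5]), (1, [], [0, 4])]),
  (0, 0, 0, [(0, [0], [1, 5]), (1, [], [0, 2]), (1, [], [3, 4])]),
  (0, 0, 0, [(0, [0], [1, 5]), (1, [], [0, 3]), (1, [], [2, 4])]),
  (0, 0, 0, [(0, [0], [1, 5]), (1, [], [2, 3]), (1, [], [0, 4])]),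
  (0, 0, 0, [(0, [0], [2, 4]), (1, [], [0, 3]), (1, [], [1, 5])]),
  (0, 0, 0, [(0, [0], [2, 5]), (1, [], [1, 3]), (1, [], [0, 4])]),
  (0, 0, 0, [(0, [0], [3, 4]), (1, [], [0, 2]), (1, [], [1, 5])]),
  (0, 0, 0, [(0, [0], [3, 5]), (1, [], [1, 2]), (1, [], [0, 4])])]

def w9_2 : List (List Wit) := [[(0, 0, 0, 0, 0), (0, 0, 0, 0, 0), (1, 0, 0, 0, 0), (1, 0, 0, 0, 0), (2, 0, 0, 0, 0), (2, 0, 0, 0, 0), (0, 0, 0, 0, 0), (0, 0, 0, 0, 0), (2, 0, 0, 0, 0), (2, 0, 0, 0, 0), (1, 0, 0, 0, 0), (1, 0, 0, 0, 0), (1, 0, 0, 0, 0), (1, 0, 0, 0, 0), (2, 0, 0, 0, 0), (2, 0, 0, 0, 0), (0, 0, 0, 0, 0), (0, 0, 0, 0, 0), (2, 0, 0, 0, 0), (2, 0, 0, 0, 0), (1, 0, 0, 0, 0), (1, 0, 0, 0, 0), (0, 0, 0, 0, 0), (0, 0, 0, 0, 0), (3, 0, 0, 0, 0), (3, 0, 0, 0, 0), (4, 0, 0, 0, 0), (3, 0, 0, 0, 0), (3, 0, 0,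 0, 0), (30, 0, 0, 0, 0), (30, 0, 0, 0, 0), (4, 0, 0, 0, 0), (4, 0, 0, 0, 0), (4, 0, 0, 0, 0), (30, 0, 0, 0, 0), (30, 0, 0, 0, 0), (3, 0, 0, 0, 0), (4, 0, 0, 0, 0), (4, 0, 0, 0, 0), (3, 0, 0, 0, 0), (5, 0, 0, 0, 0), (5, 0, 0, 0, 0), (6, 0, 0, 0, 0), (5, 0, 0, 0, 0), (5, 0, 0, 0, 0), (31, 0, 0, 0, 0), (31, 0, 0, 0, 0), (6, 0, 0, 0, 0), (6, 0, 0, 0, 0), (6, 0, 0, 0, 0), (31, 0, 0, 0, 0), (31, 0, 0, 0, 0), (5, 0, 0, 0, 0), (6, 0, 0, 0, 0), (6, 0, 0, 0, 0), (5, 0, 0, 0, 0), (32, 0, 0, 0, 0), (32, 0, 0, 0, 0), (33, 0, 0, 0, 0), (33, 0, 0, 0, 0), (32, 0, 0, 0, 0), (32, 0, 0, 0, 0), (34, 0, 0, 0, 0), (34, 0, 0, 0, 0), (33, 0, 0, 0, 0), (33, 0, 0, 0, 0), (33, 0, 0, 0, 0), (33, 0, 0, 0, 0), (34, 0, 0, 0, 0), (34, 0, 0, 0, 0), (32, 0, 0, 0, 0), (32, 0, 0, 0, 0), (33, 0, 0, 0, 0), (33, 0,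 0, 0, 0), (32, 0, 0, 0, 0), (32, 0, 0, 0, 0), (7, 0, 0, 0, 0), (7, 0, 0, 0, 0), (8, 0, 0, 0, 0), (8, 0, 0, 0, 0), (9, 0, 0, 0, 0), (9, 0, 0, 0, 0), (7, 0, 0, 0, 0), (7, 0, 0, 0, 0), (9, 0, 0, 0, 0), (9, 0, 0, 0, 0), (8, 0, 0, 0, 0), (8, 0, 0, 0, 0), (8, 0, 0, 0, 0), (8, 0, 0, 0, 0), (9, 0, 0, 0, 0), (9, 0, 0, 0, 0), (7, 0, 0, 0, 0), (7, 0, 0, 0, 0), (9, 0, 0, 0, 0), (9, 0, 0, 0, 0), (8, 0, 0, 0, 0), (8, 0, 0, 0, 0), (7, 0, 0, 0, 0), (7, 0, 0, 0, 0), (0, 0, 0, 0, 0), (0, 0, 0, 0, 0), (1, 0, 0, 0, 0), (1, 0, 0, 0, 0), (2, 0, 0, 0, 0), (2, 0, 0, 0, 0), (0, 0, 0, 0, 0), (0, 0, 0, 0, 0), (2, 0, 0, 0, 0), (2, 0, 0, 0, 0), (1, 0, 0, 0, 0), (1, 0, 0, 0, 0), (1, 0, 0, 0, 0), (1, 0, 0, 0, 0), (2, 0, 0, 0, 0), (2, 0, 0, 0, 0), (0, 0, 0, 0, 0), (0, 0, 0, 0, 0), (2, 0, 0, 0, 0), (2, 0, 0,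 0, 0), (1, 0, 0, 0, 0), (1, 0, 0, 0, 0), (0, 0, 0, 0, 0), (0, 0, 0, 0, 0), (10, 0, 0, 0, 0), (10, 0, 0, 0, 0), (11, 0, 0, 0, 0), (10, 0, 0, 0, 0), (10, 0, 0, 0, 0), (11, 0, 0, 0, 0), (11, 0, 0, 0, 0), (35, 0, 0, 0, 0), (35, 0, 0, 0, 0), (11, 0, 0, 0, 0), (11, 0, 0, 0, 0), (10, 0, 0, 0, 0), (11, 0, 0, 0, 0), (35, 0, 0, 0, 0), (35, 0, 0, 0, 0), (10, 0, 0, 0, 0), (12, 0, 0, 0, 0), (12, 0, 0, 0, 0), (13, 0, 0, 0, 0), (12, 0, 0, 0, 0), (12, 0, 0, 0, 0), (13, 0, 0, 0, 0), (13, 0, 0, 0, 0), (36, 0, 0, 0, 0), (36, 0, 0, 0, 0), (13, 0, 0, 0, 0), (13, 0, 0, 0, 0), (12, 0, 0, 0, 0), (13, 0, 0, 0, 0), (36, 0, 0, 0, 0), (36, 0, 0, 0, 0), (12, 0, 0, 0, 0), (14, 0, 0, 0, 0), (14, 0, 0, 0, 0), (15, 0, 0, 0, 0), (15, 0, 0, 0, 0), (16, 0, 0, 0, 0), (16, 0, 0, 0, 0), (14, 0, 0, 0, 0), (14, 0, 0,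 0, 0), (16, 0, 0, 0, 0), (16, 0, 0, 0, 0), (15, 0, 0, 0, 0), (15, 0, 0, 0, 0), (15, 0, 0, 0, 0), (15, 0, 0, 0, 0), (16, 0, 0, 0, 0), (16, 0, 0, 0, 0), (14, 0, 0, 0, 0), (14, 0, 0, 0, 0), (16, 0, 0, 0, 0), (16, 0, 0, 0, 0), (15, 0, 0, 0, 0), (15, 0, 0, 0, 0), (14, 0, 0, 0, 0), (14, 0, 0, 0, 0), (37, 0, 0, 0, 0), (37, 0, 0, 0, 0), (38, 0, 0, 0, 0), (38, 0, 0, 0, 0), (37, 0, 0, 0, 0), (37, 0, 0, 0, 0), (39, 0, 0, 0, 0), (39, 0, 0, 0, 0), (38, 0, 0, 0, 0), (38, 0, 0, 0, 0), (38, 0, 0, 0, 0), (38, 0, 0, 0, 0), (39, 0, 0, 0, 0), (39, 0, 0, 0, 0), (37, 0, 0, 0, 0), (37, 0, 0, 0, 0), (38, 0, 0, 0, 0), (38, 0, 0, 0, 0), (37, 0, 0, 0, 0), (37, 0, 0, 0, 0), (3, 0, 0, 0, 0), (3, 0, 0, 0, 0), (4, 0, 0, 0, 0), (3, 0, 0, 0, 0), (3, 0, 0, 0, 0), (30, 0, 0, 0, 0), (30, 0, 0, 0, 0), (4, 0, 0, 0,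 0), (4, 0, 0, 0, 0), (4, 0, 0, 0, 0), (30, 0, 0, 0, 0), (30, 0, 0, 0, 0), (3, 0, 0, 0, 0), (4, 0, 0, 0, 0), (4, 0, 0, 0, 0), (3, 0, 0, 0, 0), (10, 0, 0, 0, 0), (10, 0, 0, 0, 0), (11, 0, 0, 0, 0), (10, 0, 0, 0, 0), (10, 0, 0, 0, 0), (11, 0, 0, 0, 0), (11, 0, 0, 0, 0), (35, 0, 0, 0, 0), (35, 0, 0, 0, 0), (11, 0, 0, 0, 0), (11, 0, 0, 0, 0), (10, 0, 0, 0, 0), (11, 0, 0, 0, 0), (35, 0, 0, 0, 0), (35, 0, 0, 0, 0), (10, 0, 0, 0, 0), (17, 0, 0, 0, 0), (17, 0, 0, 0, 0), (18, 0, 0, 0, 0), (18, 0, 0, 0, 0), (17, 0, 0, 0, 0), (17, 0, 0, 0, 0), (18, 0, 0, 0, 0), (18, 0, 0, 0, 0), (18, 0, 0, 0, 0), (18, 0, 0, 0, 0), (17, 0, 0, 0, 0), (17, 0, 0, 0, 0), (18, 0, 0, 0, 0), (18, 0, 0, 0, 0), (17, 0, 0, 0, 0), (17, 0, 0, 0, 0), (19, 0, 0, 0, 0), (40, 0, 0, 0, 0), (40, 0, 0, 0, 0), (20, 0, 0, 0, 0),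 (19, 0, 0, 0, 0), (20, 0, 0, 0, 0), (20, 0, 0, 0, 0), (40, 0, 0, 0, 0), (40, 0, 0, 0, 0), (20, 0, 0, 0, 0), (20, 0, 0, 0, 0), (19, 0, 0, 0, 0), (19, 0, 0, 0, 0), (20, 0, 0, 0, 0), (19, 0, 0, 0, 0), (19, 0, 0, 0, 0), (21, 0, 0, 0, 0), (22, 0, 0, 0, 0), (22, 0, 0, 0, 0), (21, 0, 0, 0, 0), (41, 0, 0, 0, 0), (41, 0, 0, 0, 0), (22, 0, 0, 0, 0), (22, 0, 0, 0, 0), (22, 0, 0, 0, 0), (41, 0, 0, 0, 0), (41, 0, 0, 0, 0), (21, 0, 0, 0, 0), (21, 0, 0, 0, 0), (22, 0, 0, 0, 0), (21, 0, 0, 0, 0), (21, 0, 0, 0, 0), (5, 0, 0, 0, 0), (5, 0, 0, 0, 0), (6, 0, 0, 0, 0), (5, 0, 0, 0, 0), (5, 0, 0, 0, 0), (31, 0, 0, 0, 0), (31, 0, 0, 0, 0), (6, 0, 0, 0, 0), (6, 0, 0, 0, 0), (6, 0, 0, 0, 0), (31, 0, 0, 0, 0), (31, 0, 0, 0, 0), (5, 0, 0, 0, 0), (6, 0, 0, 0, 0), (6, 0, 0, 0, 0), (5, 0, 0, 0, 0), (12, 0,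 0, 0, 0), (12, 0, 0, 0, 0), (13, 0, 0, 0, 0), (12, 0, 0, 0, 0), (12, 0, 0, 0, 0), (13, 0, 0, 0, 0), (13, 0, 0, 0, 0), (36, 0, 0, 0, 0), (36, 0, 0, 0, 0), (13, 0, 0, 0, 0), (13, 0, 0, 0, 0), (12, 0, 0, 0, 0), (13, 0, 0, 0, 0), (36, 0, 0, 0, 0), (36, 0, 0, 0, 0), (12, 0, 0, 0, 0), (17, 0, 0, 0, 0), (17, 0, 0, 0, 0), (18, 0, 0, 0, 0), (18, 0, 0, 0, 0), (17, 0, 0, 0, 0), (17, 0, 0, 0, 0), (18, 0, 0, 0, 0), (18, 0, 0, 0, 0), (18, 0, 0, 0, 0), (18, 0, 0, 0, 0), (17, 0, 0, 0, 0), (17, 0, 0, 0, 0), (18, 0, 0, 0, 0), (18, 0, 0, 0, 0), (17, 0, 0, 0, 0), (17, 0, 0, 0, 0), (23, 0, 0, 0, 0), (42, 0, 0, 0, 0), (42, 0, 0, 0, 0), (24, 0, 0, 0, 0), (23, 0, 0, 0, 0), (24, 0, 0, 0, 0), (24, 0, 0, 0, 0), (42, 0, 0, 0, 0), (42, 0, 0, 0, 0), (24, 0, 0, 0, 0), (24, 0, 0, 0, 0), (23, 0, 0, 0, 0), (23,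 0, 0, 0, 0), (24, 0, 0, 0, 0), (23, 0, 0, 0, 0), (23, 0, 0, 0, 0), (25, 0, 0, 0, 0), (26, 0, 0, 0, 0), (26, 0, 0, 0, 0), (25, 0, 0, 0, 0), (43, 0, 0, 0, 0), (43, 0, 0, 0, 0), (26, 0, 0, 0, 0), (26, 0, 0, 0, 0), (26, 0, 0, 0, 0), (43, 0, 0, 0, 0), (43, 0, 0, 0, 0), (25, 0, 0, 0, 0), (25, 0, 0, 0, 0), (26, 0, 0, 0, 0), (25, 0, 0, 0, 0), (25, 0, 0, 0, 0), (32, 0, 0, 0, 0), (32, 0, 0, 0, 0), (33, 0, 0, 0, 0), (33, 0, 0, 0, 0), (32, 0, 0, 0, 0), (32, 0, 0, 0, 0), (34, 0, 0, 0, 0), (34, 0, 0, 0, 0), (33, 0, 0, 0, 0), (33, 0, 0, 0, 0), (33, 0, 0, 0, 0), (33, 0, 0, 0, 0), (34, 0, 0, 0, 0), (34, 0, 0, 0, 0), (32, 0, 0, 0, 0), (32, 0, 0, 0, 0), (33, 0, 0, 0, 0), (33, 0, 0, 0, 0), (32, 0, 0, 0, 0), (32, 0, 0, 0, 0), (14, 0, 0, 0, 0), (14, 0, 0, 0, 0), (15, 0, 0, 0, 0), (15, 0, 0, 0, 0),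 (16, 0, 0, 0, 0), (16, 0, 0, 0, 0), (14, 0, 0, 0, 0), (14, 0, 0, 0, 0), (16, 0, 0, 0, 0), (16, 0, 0, 0, 0), (15, 0, 0, 0, 0), (15, 0, 0, 0, 0), (15, 0, 0, 0, 0), (15, 0, 0, 0, 0), (16, 0, 0, 0, 0), (16, 0, 0, 0, 0), (14, 0, 0, 0, 0), (14, 0, 0, 0, 0), (16, 0, 0, 0, 0), (16, 0, 0, 0, 0), (15, 0, 0, 0, 0), (15, 0, 0, 0, 0), (14, 0, 0, 0, 0), (14, 0, 0, 0, 0), (19, 0, 0, 0, 0), (40, 0, 0, 0, 0), (40, 0, 0, 0, 0), (20, 0, 0, 0, 0), (19, 0, 0, 0, 0), (20, 0, 0, 0, 0), (20, 0, 0, 0, 0), (40, 0, 0, 0, 0), (40, 0, 0, 0, 0), (20, 0, 0, 0, 0), (20, 0, 0, 0, 0), (19, 0, 0, 0, 0), (19, 0, 0, 0, 0), (20, 0, 0, 0, 0), (19, 0, 0, 0, 0), (19, 0, 0, 0, 0), (23, 0, 0, 0, 0), (42, 0, 0, 0, 0), (42, 0, 0, 0, 0), (24, 0, 0, 0, 0), (23, 0, 0, 0, 0), (24, 0, 0, 0, 0), (24, 0, 0, 0, 0), (42, 0, 0, 0,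 0), (42, 0, 0, 0, 0), (24, 0, 0, 0, 0), (24, 0, 0, 0, 0), (23, 0, 0, 0, 0), (23, 0, 0, 0, 0), (24, 0, 0, 0, 0), (23, 0, 0, 0, 0), (23, 0, 0, 0, 0), (27, 0, 0, 0, 0), (27, 0, 0, 0, 0), (28, 0, 0, 0, 0), (28, 0, 0, 0, 0), (29, 0, 0, 0, 0), (29, 0, 0, 0, 0), (27, 0, 0, 0, 0), (27, 0, 0, 0, 0), (29, 0, 0, 0, 0), (29, 0, 0, 0, 0), (28, 0, 0, 0, 0), (28, 0, 0, 0, 0), (28, 0, 0, 0, 0), (28, 0, 0, 0, 0), (29, 0, 0, 0, 0), (29, 0, 0, 0, 0), (27, 0, 0, 0, 0), (27, 0, 0, 0, 0), (29, 0, 0, 0, 0), (29, 0, 0, 0, 0), (28, 0, 0, 0, 0), (28, 0, 0, 0, 0), (27, 0, 0, 0, 0), (27, 0, 0, 0, 0), (7, 0, 0, 0, 0), (7, 0, 0, 0, 0), (8, 0, 0, 0, 0), (8, 0, 0, 0, 0), (9, 0, 0, 0, 0), (9, 0, 0, 0, 0), (7, 0, 0, 0, 0), (7, 0, 0, 0, 0), (9, 0, 0, 0, 0), (9, 0, 0, 0, 0), (8, 0, 0, 0, 0), (8, 0, 0, 0, 0), (8,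 0, 0, 0, 0), (8, 0, 0, 0, 0), (9, 0, 0, 0, 0), (9, 0, 0, 0, 0), (7, 0, 0, 0, 0), (7, 0, 0, 0, 0), (9, 0, 0, 0, 0), (9, 0, 0, 0, 0), (8, 0, 0, 0, 0), (8, 0, 0, 0, 0), (7, 0, 0, 0, 0), (7, 0, 0, 0, 0), (37, 0, 0, 0, 0), (37, 0, 0, 0, 0), (38, 0, 0, 0, 0), (38, 0, 0, 0, 0), (37, 0, 0, 0, 0), (37, 0, 0, 0, 0), (39, 0, 0, 0, 0), (39, 0, 0, 0, 0), (38, 0, 0, 0, 0), (38, 0, 0, 0, 0), (38, 0, 0, 0, 0), (38, 0, 0, 0, 0), (39, 0, 0, 0, 0), (39, 0, 0, 0, 0), (37, 0, 0, 0, 0), (37, 0, 0, 0, 0), (38, 0, 0, 0, 0), (38, 0, 0, 0, 0), (37, 0, 0, 0, 0), (37, 0, 0, 0, 0), (21, 0, 0, 0, 0), (22, 0, 0, 0, 0), (22, 0, 0, 0, 0), (21, 0, 0, 0, 0), (41, 0, 0, 0, 0), (41, 0, 0, 0, 0), (22, 0, 0, 0, 0), (22, 0, 0, 0, 0), (22, 0, 0, 0, 0), (41, 0, 0, 0, 0), (41, 0, 0, 0, 0), (21, 0, 0, 0, 0), (21, 0, 0,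 0, 0), (22, 0, 0, 0, 0), (21, 0, 0, 0, 0), (21, 0, 0, 0, 0), (25, 0, 0, 0, 0), (26, 0, 0, 0, 0), (26, 0, 0, 0, 0), (25, 0, 0, 0, 0), (43, 0, 0, 0, 0), (43, 0, 0, 0, 0), (26, 0, 0, 0, 0), (26, 0, 0, 0, 0), (26, 0, 0, 0, 0), (43, 0, 0, 0, 0), (43, 0, 0, 0, 0), (25, 0, 0, 0, 0), (25, 0, 0, 0, 0), (26, 0, 0, 0, 0), (25, 0, 0, 0, 0), (25, 0, 0, 0, 0), (27, 0, 0, 0, 0), (27, 0, 0, 0, 0), (28, 0, 0, 0, 0), (28, 0, 0, 0, 0), (29, 0, 0, 0, 0), (29, 0, 0, 0, 0), (27, 0, 0, 0, 0), (27, 0, 0, 0, 0), (29, 0, 0, 0, 0), (29, 0, 0, 0, 0), (28, 0, 0, 0, 0), (28, 0, 0, 0, 0), (28, 0, 0, 0, 0), (28, 0, 0, 0, 0), (29, 0, 0, 0, 0), (29, 0, 0, 0, 0), (27, 0, 0, 0, 0), (27, 0, 0, 0, 0), (29, 0, 0, 0, 0), (29, 0, 0, 0, 0), (28, 0, 0, 0, 0), (28, 0, 0, 0, 0), (27, 0, 0, 0, 0), (27, 0, 0, 0, 0)]]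

def m9_3 : Base := (0, 0, [(0, [0], [0, 1]), (1, [], [2, 4]), (1, [], [3, 5])])

def l9_3 : Cov := [(1344, 0, 0, [(0, [0], [0, 1]), (1, [], [2, 4]), (1, [], [3, 5])]),
  (1344, 0, 0, [(0, [0], [0, 1]), (1, [], [2, 5]), (1, [], [3, 4])]),
  (1152, 0, 0, [(0, [0], [0, 1]), (1, [], [2, 3]), (1, [], [4, 5])]),
  (192, 0, 0, [(0, [0], [0, 2]), (1, [], [1, 4]), (1, [], [3, 5])]),
  (-192, 0, 0, [(0, [0], [0, 2]), (1, [], [1, 3]), (1, [], [4, 5])]),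
  (192, 0, 0, [(0, [0], [0, 3]), (1, [], [1, 4]), (1, [], [2, 5])]),
  (-192, 0, 0, [(0, [0], [0, 3]), (1, [], [1, 2]), (1, [], [4, 5])]),
  (-1344, 0, 0, [(0, [0], [0, 5]), (1, [], [1, 3]), (1, [], [2, 4])]),
  (-1152, 0, 0, [(0, [0], [0, 5]), (1, [], [1, 4]), (1, [], [2, 3])]),
  (-1344, 0, 0, [(0, [0], [0, 5]), (1, [], [1, 2]), (1, [], [3, 4])]),
  (192, 0, 0, [(0, [0], [1, 2]), (1, [], [0, 5]), (1, [], [3, 4])]),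
  (-192, 0, 0, [(0, [0], [1, 2]), (1, [], [0, 3]), (1, [], [5, 4])]),
  (192, 0, 0, [(0, [0], [1, 3]), (1, [], [0, 5]), (1, [], [2, 4])]),
  (-192, 0, 0, [(0, [0], [1, 3]), (1, [], [0, 2]), (1, [], [5, 4])]),
  (-1344, 0, 0, [(0, [0], [1, 4]), (1, [], [0, 3]), (1, [], [2, 5])]),
  (-1152, 0, 0, [(0, [0], [1, 4]), (1, [], [0, 5]), (1, [], [2, 3])]),
  (-1344, 0, 0, [(0, [0], [1, 4]), (1, [], [0, 2]), (1, [], [3, 5])]),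
  (384, 0, 0, [(0, [0], [2, 3]), (1, [], [0, 5]), (1, [], [1, 4])]),
  (-384, 0, 0, [(0, [0], [2, 3]), (1, [], [0, 1]), (1, [], [5, 4])]),
  (192, 0, 0, [(0, [0], [2, 4]), (1, [], [0, 5]), (1, [], [1, 3])]),
  (-192, 0, 0, [(0, [0], [2, 4]), (1, [], [0, 1]), (1, [], [3, 5])]),
  (-192, 0, 0, [(0, [0], [2, 5]), (1, [], [0, 1]), (1, [], [3, 4])]),
  (192, 0, 0, [(0, [0], [2, 5]), (1, [], [1, 4]), (1, [], [0, 3])]),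
  (192, 0, 0, [(0, [0], [3, 4]), (1, [], [0, 5]), (1, [], [1, 2])]),
  (-192, 0, 0, [(0, [0], [3, 4]), (1, [], [0, 1]), (1, [], [2, 5])]),
  (-192, 0, 0, [(0, [0], [3, 5]), (1, [], [0, 1]), (1, [], [2, 4])]),
  (192, 0, 0, [(0, [0], [3, 5]), (1, [], [1, 4]), (1, [], [0, 2])]),
  (1344, 0, 0, [(0, [0], [4, 5]), (1, [], [0, 2]), (1, [], [1, 3])]),
  (1344, 0, 0, [(0, [0], [4, 5]), (1, [], [0, 3]), (1, [], [1, 2])]),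
  (1152, 0, 0, [(0, [0], [4, 5]), (1, [], [0, 1]), (1, [], [2, 3])])]

def z9_3 : Cov := [(0, 0, 0, [(0, [0], [0, 2]), (1, [], [1, 5]), (1, [], [3, 4])]),
  (0, 0, 0, [(0, [0], [0, 3]), (1, [], [1, 5]), (1, [], [2, 4])]),
  (0, 0, 0, [(0, [0], [0, 4]), (1, [], [1, 3]), (1, [], [2, 5])]),
  (0, 0, 0, [(0, [0], [0, 4]), (1, [], [1, 5]), (1, [], [2, 3])]),
  (0, 0, 0, [(0, [0], [0, 4]), (1, [], [1, 2]), (1, [], [3, 5])]),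
  (0, 0, 0, [(0, [0], [1, 2]), (1, [], [0, 4]), (1, [], [3, 5])]),
  (0, 0, 0, [(0, [0], [1, 3]), (1, [], [0, 4]), (1, [], [2, 5])]),
  (0, 0, 0, [(0, [0], [1, 5]), (1, [], [0, 3]), (1, [], [2, 4])]),
  (0, 0, 0, [(0, [0], [1, 5]), (1, [], [0, 4]), (1, [], [2, 3])]),
  (0, 0, 0, [(0, [0], [1, 5]), (1, [], [0, 2]), (1, [], [3, 4])]),
  (0, 0, 0, [(0, [0], [2, 3]), (1, [], [0, 4]), (1, [], [1, 5])]),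
  (0, 0, 0, [(0, [0], [2, 4]), (1, [], [1, 5]), (1, [], [0, 3])]),
  (0, 0, 0, [(0, [0], [2, 5]), (1, [], [0, 4]), (1, [], [1, 3])]),
  (0, 0, 0, [(0, [0], [3, 4]), (1, [], [1, 5]), (1, [], [0, 2])]),
  (0, 0, 0, [(0, [0], [3, 5]), (1, [], [0, 4]), (1, [], [1, 2])])]

def w9_3 : List (List Wit) := [[(0, 0, 0, 0, 0), (1, 0, 0, 0, 0), (2, 0, 0, 0, 0), (1, 0, 0, 0, 0), (2, 0, 0, 0, 0), (0, 0, 0, 0, 0), (1, 0, 0, 0, 0), (0, 0, 0, 0, 0), (2, 0, 0, 0, 0), (0, 0, 0, 0, 0), (2, 0, 0, 0, 0), (1, 0, 0, 0, 0), (1, 0, 0, 0, 0), (2, 0, 0, 0, 0), (0, 0, 0, 0, 0), (2, 0, 0, 0, 0), (0, 0, 0, 0, 0), (1, 0, 0, 0, 0), (0, 0, 0, 0, 0), (2, 0, 0, 0, 0), (1, 0, 0, 0, 0), (2, 0, 0, 0, 0), (1, 0, 0, 0, 0), (0, 0, 0, 0, 0), (3, 0, 0, 0, 0), (30, 0, 0, 0, 0), (4, 0, 0, 0, 0), (30, 0, 0, 0, 0), (3, 0, 0,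 0, 0), (4, 0, 0, 0, 0), (3, 0, 0, 0, 0), (4, 0, 0, 0, 0), (30, 0, 0, 0, 0), (30, 0, 0, 0, 0), (3, 0, 0, 0, 0), (4, 0, 0, 0, 0), (30, 0, 0, 0, 0), (30, 0, 0, 0, 0), (4, 0, 0, 0, 0), (3, 0, 0, 0, 0), (5, 0, 0, 0, 0), (31, 0, 0, 0, 0), (6, 0, 0, 0, 0), (31, 0, 0, 0, 0), (5, 0, 0, 0, 0), (6, 0, 0, 0, 0), (5, 0, 0, 0, 0), (6, 0, 0, 0, 0), (31, 0, 0, 0, 0), (31, 0, 0, 0, 0), (5, 0, 0, 0, 0), (6, 0, 0, 0, 0), (31, 0, 0, 0, 0), (31, 0, 0, 0, 0), (6, 0, 0, 0, 0), (5, 0, 0, 0, 0), (32, 0, 0, 0, 0), (33, 0, 0, 0, 0), (34, 0, 0, 0, 0), (33, 0, 0, 0, 0), (33, 0, 0, 0, 0), (32, 0, 0, 0, 0), (34, 0, 0, 0, 0), (32, 0, 0, 0, 0), (34, 0, 0, 0, 0), (33, 0, 0, 0, 0), (33, 0, 0, 0, 0), (34, 0, 0, 0, 0), (32, 0, 0, 0, 0), (34, 0, 0, 0, 0), (32, 0, 0, 0, 0), (33, 0, 0, 0, 0), (33, 0, 0, 0, 0), (34,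 0, 0, 0, 0), (33, 0, 0, 0, 0), (32, 0, 0, 0, 0), (7, 0, 0, 0, 0), (8, 0, 0, 0, 0), (9, 0, 0, 0, 0), (8, 0, 0, 0, 0), (9, 0, 0, 0, 0), (7, 0, 0, 0, 0), (8, 0, 0, 0, 0), (7, 0, 0, 0, 0), (9, 0, 0, 0, 0), (7, 0, 0, 0, 0), (9, 0, 0, 0, 0), (8, 0, 0, 0, 0), (8, 0, 0, 0, 0), (9, 0, 0, 0, 0), (7, 0, 0, 0, 0), (9, 0, 0, 0, 0), (7, 0, 0, 0, 0), (8, 0, 0, 0, 0), (7, 0, 0, 0, 0), (9, 0, 0, 0, 0), (8, 0, 0, 0, 0), (9, 0, 0, 0, 0), (8, 0, 0, 0, 0), (7, 0, 0, 0, 0), (0, 0, 0, 0, 0), (1, 0, 0, 0, 0), (2, 0, 0, 0, 0), (1, 0, 0, 0, 0), (2, 0, 0, 0, 0), (0, 0, 0, 0, 0), (1, 0, 0, 0, 0), (0, 0, 0, 0, 0), (2, 0, 0, 0, 0), (0, 0, 0, 0, 0), (2, 0, 0, 0, 0), (1, 0, 0, 0, 0), (1, 0, 0, 0, 0), (2, 0, 0, 0, 0), (0, 0, 0, 0, 0), (2, 0, 0, 0, 0), (0, 0, 0, 0, 0), (1, 0, 0, 0, 0), (0, 0, 0, 0, 0), (2, 0,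 0, 0, 0), (1, 0, 0, 0, 0), (2, 0, 0, 0, 0), (1, 0, 0, 0, 0), (0, 0, 0, 0, 0), (35, 0, 0, 0, 0), (10, 0, 0, 0, 0), (11, 0, 0, 0, 0), (10, 0, 0, 0, 0), (35, 0, 0, 0, 0), (11, 0, 0, 0, 0), (35, 0, 0, 0, 0), (11, 0, 0, 0, 0), (10, 0, 0, 0, 0), (35, 0, 0, 0, 0), (11, 0, 0, 0, 0), (10, 0, 0, 0, 0), (35, 0, 0, 0, 0), (10, 0, 0, 0, 0), (11, 0, 0, 0, 0), (35, 0, 0, 0, 0), (36, 0, 0, 0, 0), (12, 0, 0, 0, 0), (13, 0, 0, 0, 0), (12, 0, 0, 0, 0), (36, 0, 0, 0, 0), (13, 0, 0, 0, 0), (36, 0, 0, 0, 0), (13, 0, 0, 0, 0), (12, 0, 0, 0, 0), (36, 0, 0, 0, 0), (13, 0, 0, 0, 0), (12, 0, 0, 0, 0), (36, 0, 0, 0, 0), (12, 0, 0, 0, 0), (13, 0, 0, 0, 0), (36, 0, 0, 0, 0), (14, 0, 0, 0, 0), (15, 0, 0, 0, 0), (16, 0, 0, 0, 0), (15, 0, 0, 0, 0), (16, 0, 0, 0, 0), (14, 0, 0, 0, 0), (15, 0, 0, 0, 0), (14, 0,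 0, 0, 0), (16, 0, 0, 0, 0), (14, 0, 0, 0, 0), (16, 0, 0, 0, 0), (15, 0, 0, 0, 0), (15, 0, 0, 0, 0), (16, 0, 0, 0, 0), (14, 0, 0, 0, 0), (16, 0, 0, 0, 0), (14, 0, 0, 0, 0), (15, 0, 0, 0, 0), (14, 0, 0, 0, 0), (16, 0, 0, 0, 0), (15, 0, 0, 0, 0), (16, 0, 0, 0, 0), (15, 0, 0, 0, 0), (14, 0, 0, 0, 0), (37, 0, 0, 0, 0), (38, 0, 0, 0, 0), (39, 0, 0, 0, 0), (38, 0, 0, 0, 0), (38, 0, 0, 0, 0), (37, 0, 0, 0, 0), (39, 0, 0, 0, 0), (37, 0, 0, 0, 0), (39, 0, 0, 0, 0), (38, 0, 0, 0, 0), (38, 0, 0, 0, 0), (39, 0, 0, 0, 0), (37, 0, 0, 0, 0), (39, 0, 0, 0, 0), (37, 0, 0, 0, 0), (38, 0, 0, 0, 0), (38, 0, 0, 0, 0), (39, 0, 0, 0, 0), (38, 0, 0, 0, 0), (37, 0, 0, 0, 0), (3, 0, 0, 0, 0), (30, 0, 0, 0, 0), (30, 0, 0, 0, 0), (30, 0, 0, 0, 0), (3, 0, 0, 0, 0), (4, 0, 0, 0, 0), (3, 0, 0, 0, 0), (4, 0,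 0, 0, 0), (30, 0, 0, 0, 0), (4, 0, 0, 0, 0), (3, 0, 0, 0, 0), (4, 0, 0, 0, 0), (3, 0, 0, 0, 0), (30, 0, 0, 0, 0), (4, 0, 0, 0, 0), (30, 0, 0, 0, 0), (35, 0, 0, 0, 0), (10, 0, 0, 0, 0), (35, 0, 0, 0, 0), (10, 0, 0, 0, 0), (35, 0, 0, 0, 0), (11, 0, 0, 0, 0), (35, 0, 0, 0, 0), (11, 0, 0, 0, 0), (10, 0, 0, 0, 0), (35, 0, 0, 0, 0), (11, 0, 0, 0, 0), (35, 0, 0, 0, 0), (11, 0, 0, 0, 0), (10, 0, 0, 0, 0), (11, 0, 0, 0, 0), (10, 0, 0, 0, 0), (40, 0, 0, 0, 0), (17, 0, 0, 0, 0), (18, 0, 0, 0, 0), (40, 0, 0, 0, 0), (17, 0, 0, 0, 0), (40, 0, 0, 0, 0), (18, 0, 0, 0, 0), (40, 0, 0, 0, 0), (40, 0, 0, 0, 0), (18, 0, 0, 0, 0), (40, 0, 0, 0, 0), (17, 0, 0, 0, 0), (40, 0, 0, 0, 0), (18, 0, 0, 0, 0), (17, 0, 0, 0, 0), (40, 0, 0, 0, 0), (19, 0, 0, 0, 0), (20, 0, 0, 0, 0), (19, 0, 0, 0, 0), (20, 0,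 0, 0, 0), (41, 0, 0, 0, 0), (20, 0, 0, 0, 0), (41, 0, 0, 0, 0), (19, 0, 0, 0, 0), (20, 0, 0, 0, 0), (41, 0, 0, 0, 0), (20, 0, 0, 0, 0), (41, 0, 0, 0, 0), (19, 0, 0, 0, 0), (41, 0, 0, 0, 0), (19, 0, 0, 0, 0), (41, 0, 0, 0, 0), (42, 0, 0, 0, 0), (21, 0, 0, 0, 0), (42, 0, 0, 0, 0), (22, 0, 0, 0, 0), (21, 0, 0, 0, 0), (22, 0, 0, 0, 0), (21, 0, 0, 0, 0), (42, 0, 0, 0, 0), (21, 0, 0, 0, 0), (22, 0, 0, 0, 0), (21, 0, 0, 0, 0), (22, 0, 0, 0, 0), (42, 0, 0, 0, 0), (42, 0, 0, 0, 0), (42, 0, 0, 0, 0), (22, 0, 0, 0, 0), (5, 0, 0, 0, 0), (31, 0, 0, 0, 0), (31, 0, 0, 0, 0), (31, 0, 0, 0, 0), (5, 0, 0, 0, 0), (6, 0, 0, 0, 0), (5, 0, 0, 0, 0), (6, 0, 0, 0, 0), (31, 0, 0, 0, 0), (6, 0, 0, 0, 0), (5, 0, 0, 0, 0), (6, 0, 0, 0, 0), (5, 0, 0, 0, 0), (31, 0, 0, 0, 0), (6, 0, 0, 0, 0), (31, 0, 0, 0,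 0), (36, 0, 0, 0, 0), (12, 0, 0, 0, 0), (36, 0, 0, 0, 0), (12, 0, 0, 0, 0), (36, 0, 0, 0, 0), (13, 0, 0, 0, 0), (36, 0, 0, 0, 0), (13, 0, 0, 0, 0), (12, 0, 0, 0, 0), (36, 0, 0, 0, 0), (13, 0, 0, 0, 0), (36, 0, 0, 0, 0), (13, 0, 0, 0, 0), (12, 0, 0, 0, 0), (13, 0, 0, 0, 0), (12, 0, 0, 0, 0), (40, 0, 0, 0, 0), (17, 0, 0, 0, 0), (18, 0, 0, 0, 0), (40, 0, 0, 0, 0), (17, 0, 0, 0, 0), (40, 0, 0, 0, 0), (18, 0, 0, 0, 0), (40, 0, 0, 0, 0), (40, 0, 0, 0, 0), (18, 0, 0, 0, 0), (40, 0, 0, 0, 0), (17, 0, 0, 0, 0), (40, 0, 0, 0, 0), (18, 0, 0, 0, 0), (17, 0, 0, 0, 0), (40, 0, 0, 0, 0), (23, 0, 0, 0, 0), (24, 0, 0, 0, 0), (23, 0, 0, 0, 0), (24, 0, 0, 0, 0), (43, 0, 0, 0, 0), (24, 0, 0, 0, 0), (43, 0, 0, 0, 0), (23, 0, 0, 0, 0), (24, 0, 0, 0, 0), (43, 0, 0, 0, 0), (24, 0, 0, 0, 0), (43, 0, 0,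 0, 0), (23, 0, 0, 0, 0), (43, 0, 0, 0, 0), (23, 0, 0, 0, 0), (43, 0, 0, 0, 0), (44, 0, 0, 0, 0), (25, 0, 0, 0, 0), (44, 0, 0, 0, 0), (26, 0, 0, 0, 0), (25, 0, 0, 0, 0), (26, 0, 0, 0, 0), (25, 0, 0, 0, 0), (44, 0, 0, 0, 0), (25, 0, 0, 0, 0), (26, 0, 0, 0, 0), (25, 0, 0, 0, 0), (26, 0, 0, 0, 0), (44, 0, 0, 0, 0), (44, 0, 0, 0, 0), (44, 0, 0, 0, 0), (26, 0, 0, 0, 0), (32, 0, 0, 0, 0), (33, 0, 0, 0, 0), (34, 0, 0, 0, 0), (33, 0, 0, 0, 0), (33, 0, 0, 0, 0), (32, 0, 0, 0, 0), (34, 0, 0, 0, 0), (32, 0, 0, 0, 0), (34, 0, 0, 0, 0), (33, 0, 0, 0, 0), (33, 0, 0, 0, 0), (34, 0, 0, 0, 0), (32, 0, 0, 0, 0), (34, 0, 0, 0, 0), (32, 0, 0, 0, 0), (33, 0, 0, 0, 0), (33, 0, 0, 0, 0), (34, 0, 0, 0, 0), (33, 0, 0, 0, 0), (32, 0, 0, 0, 0), (14, 0, 0, 0, 0), (15, 0, 0, 0, 0), (16, 0, 0, 0, 0), (15, 0,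 0, 0, 0), (16, 0, 0, 0, 0), (14, 0, 0, 0, 0), (15, 0, 0, 0, 0), (14, 0, 0, 0, 0), (16, 0, 0, 0, 0), (14, 0, 0, 0, 0), (16, 0, 0, 0, 0), (15, 0, 0, 0, 0), (15, 0, 0, 0, 0), (16, 0, 0, 0, 0), (14, 0, 0, 0, 0), (16, 0, 0, 0, 0), (14, 0, 0, 0, 0), (15, 0, 0, 0, 0), (14, 0, 0, 0, 0), (16, 0, 0, 0, 0), (15, 0, 0, 0, 0), (16, 0, 0, 0, 0), (15, 0, 0, 0, 0), (14, 0, 0, 0, 0), (41, 0, 0, 0, 0), (20, 0, 0, 0, 0), (19, 0, 0, 0, 0), (41, 0, 0, 0, 0), (19, 0, 0, 0, 0), (20, 0, 0, 0, 0), (41, 0, 0, 0, 0), (19, 0, 0, 0, 0), (20, 0, 0, 0, 0), (41, 0, 0, 0, 0), (20, 0, 0, 0, 0), (41, 0, 0, 0, 0), (19, 0, 0, 0, 0), (20, 0, 0, 0, 0), (19, 0, 0, 0, 0), (41, 0, 0, 0, 0), (43, 0, 0, 0, 0), (24, 0, 0, 0, 0), (23, 0, 0, 0, 0), (43, 0, 0, 0, 0), (23, 0, 0, 0, 0), (24, 0, 0, 0, 0), (43, 0, 0, 0, 0), (23,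 0, 0, 0, 0), (24, 0, 0, 0, 0), (43, 0, 0, 0, 0), (24, 0, 0, 0, 0), (43, 0, 0, 0, 0), (23, 0, 0, 0, 0), (24, 0, 0, 0, 0), (23, 0, 0, 0, 0), (43, 0, 0, 0, 0), (27, 0, 0, 0, 0), (28, 0, 0, 0, 0), (29, 0, 0, 0, 0), (28, 0, 0, 0, 0), (29, 0, 0, 0, 0), (27, 0, 0, 0, 0), (28, 0, 0, 0, 0), (27, 0, 0, 0, 0), (29, 0, 0, 0, 0), (27, 0, 0, 0, 0), (29, 0, 0, 0, 0), (28, 0, 0, 0, 0), (28, 0, 0, 0, 0), (29, 0, 0, 0, 0), (27, 0, 0, 0, 0), (29, 0, 0, 0, 0), (27, 0, 0, 0, 0), (28, 0, 0, 0, 0), (27, 0, 0, 0, 0), (29, 0, 0, 0, 0), (28, 0, 0, 0, 0), (29, 0, 0, 0, 0), (28, 0, 0, 0, 0), (27, 0, 0, 0, 0), (7, 0, 0, 0, 0), (8, 0, 0, 0, 0), (9, 0, 0, 0, 0), (8, 0, 0, 0, 0), (9, 0, 0, 0, 0), (7, 0, 0, 0, 0), (8, 0, 0, 0, 0), (7, 0, 0, 0, 0), (9, 0, 0, 0, 0), (7, 0, 0, 0, 0), (9, 0, 0, 0, 0), (8, 0, 0, 0,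 0), (8, 0, 0, 0, 0), (9, 0, 0, 0, 0), (7, 0, 0, 0, 0), (9, 0, 0, 0, 0), (7, 0, 0, 0, 0), (8, 0, 0, 0, 0), (7, 0, 0, 0, 0), (9, 0, 0, 0, 0), (8, 0, 0, 0, 0), (9, 0, 0, 0, 0), (8, 0, 0, 0, 0), (7, 0, 0, 0, 0), (37, 0, 0, 0, 0), (38, 0, 0, 0, 0), (39, 0, 0, 0, 0), (38, 0, 0, 0, 0), (38, 0, 0, 0, 0), (37, 0, 0, 0, 0), (39, 0, 0, 0, 0), (37, 0, 0, 0, 0), (39, 0, 0, 0, 0), (38, 0, 0, 0, 0), (38, 0, 0, 0, 0), (39, 0, 0, 0, 0), (37, 0, 0, 0, 0), (39, 0, 0, 0, 0), (37, 0, 0, 0, 0), (38, 0, 0, 0, 0), (38, 0, 0, 0, 0), (39, 0, 0, 0, 0), (38, 0, 0, 0, 0), (37, 0, 0, 0, 0), (22, 0, 0, 0, 0), (21, 0, 0, 0, 0), (42, 0, 0, 0, 0), (42, 0, 0, 0, 0), (21, 0, 0, 0, 0), (22, 0, 0, 0, 0), (42, 0, 0, 0, 0), (42, 0, 0, 0, 0), (21, 0, 0, 0, 0), (22, 0, 0, 0, 0), (21, 0, 0, 0, 0), (22, 0, 0, 0, 0), (42,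 0, 0, 0, 0), (21, 0, 0, 0, 0), (42, 0, 0, 0, 0), (22, 0, 0, 0, 0), (26, 0, 0, 0, 0), (25, 0, 0, 0, 0), (44, 0, 0, 0, 0), (44, 0, 0, 0, 0), (25, 0, 0, 0, 0), (26, 0, 0, 0, 0), (44, 0, 0, 0, 0), (44, 0, 0, 0, 0), (25, 0, 0, 0, 0), (26, 0, 0, 0, 0), (25, 0, 0, 0, 0), (26, 0, 0, 0, 0), (44, 0, 0, 0, 0), (25, 0, 0, 0, 0), (44, 0, 0, 0, 0), (26, 0, 0, 0, 0), (27, 0, 0, 0, 0), (28, 0, 0, 0, 0), (29, 0, 0, 0, 0), (28, 0, 0, 0, 0), (29, 0, 0, 0, 0), (27, 0, 0, 0, 0), (28, 0, 0, 0, 0), (27, 0, 0, 0, 0), (29, 0, 0, 0, 0), (27, 0, 0, 0, 0), (29, 0, 0, 0, 0), (28, 0, 0, 0, 0), (28, 0, 0, 0, 0), (29, 0, 0, 0, 0), (27, 0, 0, 0, 0), (29, 0, 0, 0, 0), (27, 0, 0, 0, 0), (28, 0, 0, 0, 0), (27, 0, 0, 0, 0), (29, 0, 0, 0, 0), (28, 0, 0, 0, 0), (29, 0, 0, 0, 0), (28, 0, 0, 0, 0), (27, 0, 0, 0, 0)]]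

theorem tr9 : trK keys lk9 kl9 = true := by
  decide +kernel

theorem x9_0 : expB 1 6 dg0 dg10 m9_0 (l9_0 ++ z9_0) w9_0 = true := by
  decide +kernel

theorem x9_1 : expB 1 6 dg0 dg10 m9_1 (l9_1 ++ z9_1) w9_1 = true := by
  decide +kernel

theorem x9_2 : expB 1 6 dg0 dg10 m9_2 (l9_2 ++ z9_2) w9_2 = true := by
  decide +kernel

theorem x9_3 : expB 1 6 dg0 dg10 m9_3 (l9_3 ++ z9_3) w9_3 = true := by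
  decide +kernel

theorem t9_0_0 : chkS lk9 1 6 [(1, m9_0)] l9_0
  [(8, 528, 528, 1070130, 3280980), (6, 258, 33, 5378115, 5309490), (6, 258, 33, 2428995, 4261170), (6, 258, 33, 5374275, 5309475), (6, 258, 33, 2425155, 4261155), (12, 258, 33, 5517840, 5517840), (1, 528, 528, 1070130, 3280980), (9, 288, 288, 74805, 136005), (9, 288, 288, 1062180, 2109780), (7, 258, 33, 5517840, 5517840), (1, 528, 528, 1066290, 2297940), (9, 288, 288, 82485, 201285), (9, 288, 288, 1069860, 3154260), (7, 258, 33, 5514000, 5514000), (9, 288, 288, 1057875, 1180500), (9, 288, 288, 1065555, 1245780), (7, 18, 18, 1266720, 3293520), (6, 258, 33, 2442000, 4400400), (5, 528, 528, 1066275, 2294100), (5, 528, 528, 1070115, 3277140), (9, 288, 288, 79170, 2175045), (7, 513, 513, 5514000, 5514000), (9, 288, 288,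 86850, 3219525), (7, 513, 513, 5517840, 5517840), (6, 258, 33, 5391105, 5448705), (5, 528, 528, 1057620, 1057620), (5, 528, 528, 1061460, 1061460), (12, 513, 513, 5517840, 5517840), (7, 18, 18, 3219540, 1069890), (7, 18, 18, 1253460, 1065810)]
  [(1, 2304), (5, -1536), (6, -1536), (7, 3072), (8, 1536), (9, -6144), (12, 2304)] = true := by
  decide +kernel

theorem t9_0_1 : chkS lk9 1 6 [(1, m9_0)] l9_1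
  [(6, 258, 33, 5378115, 5309490), (6, 258, 33, 2428995, 4261170), (8, 528, 528, 1070130, 3280980), (6, 258, 33, 5374275, 5309475), (6, 258, 33, 2425155, 4261155), (12, 258, 33, 5517840, 5517840), (9, 288, 288, 74805, 136005), (1, 528, 528, 1070130, 3280980), (9, 288, 288, 1062180, 2109780), (7, 258, 33, 5517840, 5517840), (9, 288, 288, 82485, 201285), (1, 528, 528, 1066290, 2297940), (9, 288, 288, 1069860, 3154260), (7, 258, 33, 5514000, 5514000), (9, 288, 288, 1065555, 1245780), (7, 18, 18, 1266720, 3293520), (9, 288, 288, 1057875, 1180500), (6, 258, 33, 2442000, 4400400), (5, 528, 528, 1066275, 2294100), (5, 528, 528, 1070115, 3277140), (9, 288, 288, 79170, 2175045), (7, 513, 513, 5514000, 5514000), (9, 288, 288, 86850, 3219525), (7, 513, 513, 5517840, 5517840), (6, 258, 33,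 5391105, 5448705), (5, 528, 528, 1057620, 1057620), (5, 528, 528, 1061460, 1061460), (12, 513, 513, 5517840, 5517840), (7, 18, 18, 3219540, 1069890), (7, 18, 18, 1253460, 1065810)]
  [(1, -384), (5, -2304), (6, 1536), (7, 768), (8, 384), (9, -1536), (12, 1536)] = true := by
  decide +kernel

theorem t9_0_2 : chkS lk9 1 6 [(1, m9_0)] l9_2
  [(13, 1, 1, 5517840, 5517840), (14, 1, 1, 5517840, 5517840), (14, 1, 1, 4534800, 4534800), (15, 1, 1, 5513985, 5513985), (16, 1, 1, 5513985, 5513985), (15, 1, 1, 5517825, 5517825), (16, 1, 1, 5517825, 5517825), (11, 16, 16, 148785, 2298885), (11, 16, 16, 152625, 3281925), (10, 16, 16, 152625, 3281925), (15, 1, 1, 5514000, 5514000), (16, 1, 1, 4530960, 4530960), (15, 1, 1, 5517840, 5517840), (16, 1, 1, 4534800, 4534800), (11, 16, 16, 2114835,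 2295060), (11, 16, 16, 2118675, 3278100), (10, 16, 16, 2118675, 3278100), (13, 1, 1, 5509170, 5509170), (14, 1, 1, 4526130, 4526130), (10, 16, 16, 2109780, 1062180), (11, 16, 16, 2109780, 1062180), (10, 16, 16, 143700, 1061925), (11, 16, 16, 143685, 78885), (10, 16, 16, 2102100, 1058100), (11, 16, 16, 2102100, 1058100), (10, 16, 16, 136020, 1057845), (11, 16, 16, 136005, 74805), (2, 16, 16, 1070130, 3280980), (0, 16, 16, 1070130, 3280980), (0, 16, 16, 1066290, 2297940)]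
  [(0, 2304), (2, 1536), (10, -1536), (11, -6144), (13, 2304), (14, 1536), (15, 1536), (16, -1536)] = true := by
  decide +kernel

theorem t9_0_3 : chkS lk9 1 6 [(1, m9_0)] l9_3
  [(14, 1, 1, 5517840, 5517840), (14, 1, 1, 4534800, 4534800), (13, 1, 1, 5517840, 5517840), (16, 1, 1, 5513985, 5513985), (15, 1, 1, 5513985, 5513985), (16, 1, 1, 5517825, 5517825), (15, 1, 1, 5517825, 5517825), (11, 16, 16, 152625, 3281925), (10, 16, 16, 152625, 3281925), (11, 16, 16, 148785, 2298885), (16, 1, 1, 4530960, 4530960), (15, 1, 1, 5514000, 5514000), (16, 1, 1, 4534800, 4534800), (15, 1, 1, 5517840, 5517840), (11, 16, 16, 2118675, 3278100), (10, 16, 16, 2118675, 3278100), (11, 16, 16, 2114835, 2295060), (14, 1, 1, 4526130, 4526130), (13, 1, 1, 5509170, 5509170), (11, 16, 16, 2109780, 1062180),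 (10, 16, 16, 2109780, 1062180), (10, 16, 16, 143700, 1061925), (11, 16, 16, 143685, 78885), (11, 16, 16, 2102100, 1058100), (10, 16, 16, 2102100, 1058100), (10, 16, 16, 136020, 1057845), (11, 16, 16, 136005, 74805), (0, 16, 16, 1070130, 3280980), (0, 16, 16, 1066290, 2297940), (2, 16, 16, 1070130, 3280980)]
  [(0, 2688), (2, 1152), (10, -3072), (11, -4608), (13, 768), (14, 3072), (15, -768), (16, 768)] = true := by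
  decide +kernel

theorem t9_1_1 : chkS lk9 1 6 [(1, m9_1)] l9_1
  [(8, 528, 528, 1377330, 4329555), (6, 258, 33, 2183235, 3212610), (6, 258, 33, 5316675, 5309250), (6, 258, 33, 5251395, 5309220), (12, 258, 33, 5456400, 5456400), (6, 258, 33, 2117955, 3212580), (1, 528, 528, 1377330, 4329555), (9, 288, 288, 136245, 136245), (7, 258, 33, 5456400, 5456400), (9, 288, 288, 1246500, 2113875), (9, 288, 288, 266835, 1311285), (9, 288, 288, 136275, 1180725), (5, 528, 528, 1180485, 74835), (5, 528, 528, 1245765, 82515), (7, 18, 18, 1389600, 4338000), (9, 288, 288, 1311315, 1311315), (9, 288, 288, 1180755, 1180755), (5, 528, 528, 1312035, 2359635), (6, 258, 33, 2380560, 3417360), (5, 528, 528, 1377315, 4325715), (9, 288, 288, 202050, 2179125), (9, 288, 288, 1246530, 2179155), (6, 258, 33,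 5513985, 5513985), (5, 528, 528, 1245780, 1065555), (9, 288, 288, 332610, 4268085), (9, 288, 288, 1377090, 4268115), (7, 513, 513, 5456400, 5456400), (7, 18, 18, 3280965, 87090), (12, 513, 513, 5456400, 5456400), (7, 18, 18, 1192020, 1061970)]
  [(1, -576), (5, 384), (6, 2304), (7, -768), (8, 576), (9, -2304), (12, 384)] = true := by
  decide +kernel

theorem t9_1_2 : chkS lk9 1 6 [(1, m9_1)] l9_2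
  [(14, 1, 1, 5456400, 5456400), (13, 1, 1, 5456400, 5456400), (14, 1, 1, 4411920, 3490320), (16, 1, 1, 5391105, 5448705), (15, 1, 1, 5391105, 5448705), (11, 16, 16, 2360625, 2364675), (11, 16, 16, 2425905, 4330755), (11, 16, 16, 271665, 2364165), (10, 16, 16, 336945, 4330245), (11, 16, 16, 336945, 4330245), (16, 1, 1, 5391120, 5448720), (16, 1, 1, 4346640, 3482640), (11, 16, 16, 2360595, 2360595), (10, 16, 16, 2425875, 4326675), (15, 1, 1, 5456400, 5456400), (16, 1, 1, 5456400, 5456400), (16, 1, 1, 4411920, 3490320), (10, 16, 16, 2294100, 1066275), (11, 16, 16, 2294100, 1066275), (13, 1, 1, 5324850, 5443650), (14, 1, 1, 4280370, 3477570), (10, 16, 16, 205140, 1065765), (11, 16, 16, 205140, 1065765), (10, 16, 16, 2163540, 1058115), (11, 16, 16, 2163540, 1058115), (2, 16, 16, 1377330,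 4329555), (0, 16, 16, 1377330, 4329555), (10, 16, 16, 74580, 1057605), (11, 16, 16, 74565, 74565), (11, 16, 16, 74580, 1057605)]
  [(0, -384), (2, 384), (10, 1536), (11, -1536), (13, 1536), (14, 2304), (15, -1536), (16, -2304)] = true := by
  decide +kernel

theorem t9_1_3 : chkS lk9 1 6 [(1, m9_1)] l9_3
  [(13, 1, 1, 5456400, 5456400), (14, 1, 1, 4411920, 3490320), (14, 1, 1, 5456400, 5456400), (15, 1, 1, 5391105, 5448705), (16, 1, 1, 5391105, 5448705), (11, 16, 16, 2425905, 4330755), (11, 16, 16, 2360625, 2364675), (10, 16, 16, 336945, 4330245), (11, 16, 16, 336945, 4330245), (11, 16, 16, 271665, 2364165), (16, 1, 1, 4346640, 3482640), (16, 1, 1, 5391120, 5448720), (10, 16, 16, 2425875, 4326675), (11, 16, 16, 2360595, 2360595), (16, 1, 1, 5456400, 5456400), (16, 1, 1, 4411920,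 3490320), (15, 1, 1, 5456400, 5456400), (11, 16, 16, 2294100, 1066275), (10, 16, 16, 2294100, 1066275), (14, 1, 1, 4280370, 3477570), (13, 1, 1, 5324850, 5443650), (10, 16, 16, 205140, 1065765), (11, 16, 16, 205140, 1065765), (11, 16, 16, 2163540, 1058115), (10, 16, 16, 2163540, 1058115), (2, 16, 16, 1377330, 4329555), (0, 16, 16, 1377330, 4329555), (11, 16, 16, 74565, 74565), (11, 16, 16, 74580, 1057605), (10, 16, 16, 74580, 1057605)]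
  [(0, 192), (2, -192), (10, -768), (11, 768), (13, 1152), (14, 2688), (15, -1152), (16, -2688)] = true := by
  decide +kernel

theorem t9_2_2 : chkS lk9 1 6 [(1, m9_2)] l9_2
  [(3, 0, 0, 5517840, 5517840), (21, 0, 0, 4534800, 4534800), (21, 0, 0, 5517840, 5517840), (4, 0, 0, 5517840, 5517840), (20, 0, 0, 3298320, 3298320), (4, 0, 0, 5514000, 5514000), (20, 0, 0, 3294480, 2315280), (20, 0, 0, 4534800, 4534800), (20, 0, 0, 4530960, 4530960), (4, 0, 0, 2315280, 3294480), (4, 0, 0, 5517825, 5517825), (20, 0, 0, 2315265, 3294465), (4, 0, 0, 5513985, 5513985), (20, 0, 0, 2311425, 2311425), (20, 0, 0, 5517825, 5517825), (20, 0, 0, 5513985, 5513985), (4, 0, 0, 3298305, 3298305), (17, 0, 0, 3298320, 3298320), (18, 0, 0, 2297940, 1066290), (18, 0, 0, 3482640, 4346640), (19, 0, 0, 2372880,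 2372880), (18, 0, 0, 5448720, 5391120), (19, 0, 0, 5448720, 5391120), (18, 0, 0, 3490320, 4411920), (19, 0, 0, 2380560, 3417360), (18, 0, 0, 5456400, 5456400), (19, 0, 0, 5456400, 5456400), (17, 0, 0, 5517840, 5517840), (18, 0, 0, 1061460, 1061460), (18, 0, 0, 1057620, 1057620)]
  [(3, 1536), (4, -1536), (17, 2304), (18, 3072), (19, -1536), (20, -6144), (21, 2304)] = true := by
  decide +kernel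

theorem t9_2_3 : chkS lk9 1 6 [(1, m9_2)] l9_3
  [(21, 0, 0, 4534800, 4534800), (21, 0, 0, 5517840, 5517840), (3, 0, 0, 5517840, 5517840), (20, 0, 0, 3298320, 3298320), (4, 0, 0, 5517840, 5517840), (20, 0, 0, 3294480, 2315280), (4, 0, 0, 5514000, 5514000), (20, 0, 0, 4530960, 4530960), (4, 0, 0, 2315280, 3294480), (20, 0, 0, 4534800, 4534800), (20, 0, 0, 2315265, 3294465), (4, 0, 0, 5517825, 5517825), (20, 0, 0, 2311425, 2311425), (4, 0, 0, 5513985, 5513985), (20, 0, 0, 5513985, 5513985), (4, 0, 0, 3298305, 3298305), (20, 0, 0, 5517825, 5517825), (18, 0, 0, 2297940, 1066290), (17, 0, 0, 3298320, 3298320), (19, 0, 0, 2372880, 2372880), (18, 0, 0, 3482640, 4346640), (18, 0, 0, 5448720, 5391120), (19, 0, 0, 5448720, 5391120), (19, 0, 0, 2380560, 3417360), (18, 0, 0, 3490320, 4411920),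 (18, 0, 0, 5456400, 5456400), (19, 0, 0, 5456400, 5456400), (18, 0, 0, 1061460, 1061460), (18, 0, 0, 1057620, 1057620), (17, 0, 0, 5517840, 5517840)]
  [(3, 1152), (4, -3072), (17, 768), (18, 2304), (19, 768), (20, -4608), (21, 2688)] = true := by
  decide +kernel

theorem t9_3_3 : chkS lk9 1 6 [(1, m9_3)] l9_3
  [(3, 0, 0, 5456400, 5456400), (21, 0, 0, 5456400, 5456400), (21, 0, 0, 4411920, 3490320), (4, 0, 0, 5456400, 5456400), (20, 0, 0, 3482640, 4346640), (20, 0, 0, 5391120, 5448720), (20, 0, 0, 5456400, 5456400), (4, 0, 0, 2438160, 4338960), (20, 0, 0, 4346640, 3482640), (20, 0, 0, 4411920, 3490320), (20, 0, 0, 2438145, 4338945), (20, 0, 0, 3482625, 4346625), (4, 0, 0, 3482625, 4346625), (20, 0, 0, 5456385, 5456385), (20, 0, 0, 3417345, 2380545), (20, 0, 0, 2372865, 2372865),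 (4, 0, 0, 5391105, 5448705), (19, 0, 0, 2311440, 2311440), (18, 0, 0, 3298320, 3298320), (18, 0, 0, 2175060, 1062210), (17, 0, 0, 3482640, 4346640), (18, 0, 0, 5387280, 5387280), (19, 0, 0, 4400400, 2442000), (19, 0, 0, 2442000, 4400400), (18, 0, 0, 2442000, 4400400), (17, 0, 0, 5456400, 5456400), (18, 0, 0, 1245780, 1065555), (19, 0, 0, 5517840, 5517840), (19, 0, 0, 4530960, 4530960), (18, 0, 0, 5517840, 5517840)]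
  [(3, 1344), (4, -2304), (17, -384), (18, 768), (19, 3456), (20, -5376), (21, 2496)] = true := by
  decide +kernel

section

variable {κ ι : Type*} [Fintype κ] [Fintype ι] [Inhabited κ] [Inhabited ι]

noncomputable def F9_0 (E : Env κ ι) : (Fin 1 → κ) → (Fin 6 → ι) → ℝ := op2 (P0 κ) (P10 ι) (fB E 1 6 m9_0)

noncomputable def F9_1 (E : Env κ ι) : (Fin 1 → κ) → (Fin 6 → ι) → ℝ := op2 (P0 κ) (P10 ι) (fB E 1 6 m9_1)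

noncomputable def F9_2 (E : Env κ ι) : (Fin 1 → κ) → (Fin 6 → ι) → ℝ := op2 (P0 κ) (P10 ι) (fB E 1 6 m9_2)

noncomputable def F9_3 (E : Env κ ι) : (Fin 1 → κ) → (Fin 6 → ι) → ℝ := op2 (P0 κ) (P10 ι) (fB E 1 6 m9_3)

def r9_0_0 : List (ℕ × ℤ) := [(1, 2304), (5, -1536), (6, -1536), (7, 3072), (8, 1536), (9, -6144), (12, 2304)]

theorem h9_0_0 (E : Env κ ι) : ip (F9_0 E) (F9_0 E) = dotS (ek E lk9) r9_0_0 :=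
  op_entryZ E lk9 1 6 _ _ _ _ (pg0 κ) (pg10 ι) m9_0 m9_0 l9_0 z9_0 w9_0 x9_0 (by decide) _ (chkS_sound E lk9 1 6 _ _ _ _ t9_0_0)

def r9_0_1 : List (ℕ × ℤ) := [(1, -384), (5, -2304), (6, 1536), (7, 768), (8, 384), (9, -1536), (12, 1536)]

theorem h9_0_1 (E : Env κ ι) : ip (F9_0 E) (F9_1 E) = dotS (ek E lk9) r9_0_1 :=
  op_entryZ E lk9 1 6 _ _ _ _ (pg0 κ) (pg10 ι) m9_0 m9_1 l9_1 z9_1 w9_1 x9_1 (by decide) _ (chkS_sound E lk9 1 6 _ _ _ _ t9_0_1)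

def r9_0_2 : List (ℕ × ℤ) := [(0, 2304), (2, 1536), (10, -1536), (11, -6144), (13, 2304), (14, 1536), (15, 1536), (16, -1536)]

theorem h9_0_2 (E : Env κ ι) : ip (F9_0 E) (F9_2 E) = dotS (ek E lk9) r9_0_2 :=
  op_entryZ E lk9 1 6 _ _ _ _ (pg0 κ) (pg10 ι) m9_0 m9_2 l9_2 z9_2 w9_2 x9_2 (by decide) _ (chkS_sound E lk9 1 6 _ _ _ _ t9_0_2)

def r9_0_3 : List (ℕ × ℤ) := [(0, 2688), (2, 1152), (10, -3072), (11, -4608), (13, 768), (14, 3072), (15, -768), (16, 768)]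

theorem h9_0_3 (E : Env κ ι) : ip (F9_0 E) (F9_3 E) = dotS (ek E lk9) r9_0_3 :=
  op_entryZ E lk9 1 6 _ _ _ _ (pg0 κ) (pg10 ι) m9_0 m9_3 l9_3 z9_3 w9_3 x9_3 (by decide) _ (chkS_sound E lk9 1 6 _ _ _ _ t9_0_3)

def r9_1_1 : List (ℕ × ℤ) := [(1, -576), (5, 384), (6, 2304), (7, -768), (8, 576), (9, -2304), (12, 384)]

theorem h9_1_1 (E : Env κ ι) : ip (F9_1 E) (F9_1 E) = dotS (ek E lk9) r9_1_1 :=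
  op_entryZ E lk9 1 6 _ _ _ _ (pg0 κ) (pg10 ι) m9_1 m9_1 l9_1 z9_1 w9_1 x9_1 (by decide) _ (chkS_sound E lk9 1 6 _ _ _ _ t9_1_1)

def r9_1_2 : List (ℕ × ℤ) := [(0, -384), (2, 384), (10, 1536), (11, -1536), (13, 1536), (14, 2304), (15, -1536), (16, -2304)]

theorem h9_1_2 (E : Env κ ι) : ip (F9_1 E) (F9_2 E) = dotS (ek E lk9) r9_1_2 :=
  op_entryZ E lk9 1 6 _ _ _ _ (pg0 κ) (pg10 ι) m9_1 m9_2 l9_2 z9_2 w9_2 x9_2 (by decide) _ (chkS_sound E lk9 1 6 _ _ _ _ t9_1_2)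

def r9_1_3 : List (ℕ × ℤ) := [(0, 192), (2, -192), (10, -768), (11, 768), (13, 1152), (14, 2688), (15, -1152), (16, -2688)]

theorem h9_1_3 (E : Env κ ι) : ip (F9_1 E) (F9_3 E) = dotS (ek E lk9) r9_1_3 :=
  op_entryZ E lk9 1 6 _ _ _ _ (pg0 κ) (pg10 ι) m9_1 m9_3 l9_3 z9_3 w9_3 x9_3 (by decide) _ (chkS_sound E lk9 1 6 _ _ _ _ t9_1_3)

def r9_2_2 : List (ℕ × ℤ) := [(3, 1536), (4, -1536), (17, 2304), (18, 3072), (19, -1536), (20, -6144), (21, 2304)]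

theorem h9_2_2 (E : Env κ ι) : ip (F9_2 E) (F9_2 E) = dotS (ek E lk9) r9_2_2 :=
  op_entryZ E lk9 1 6 _ _ _ _ (pg0 κ) (pg10 ι) m9_2 m9_2 l9_2 z9_2 w9_2 x9_2 (by decide) _ (chkS_sound E lk9 1 6 _ _ _ _ t9_2_2)

def r9_2_3 : List (ℕ × ℤ) := [(3, 1152), (4, -3072), (17, 768), (18, 2304), (19, 768), (20, -4608), (21, 2688)]

theorem h9_2_3 (E : Env κ ι) : ip (F9_2 E) (F9_3 E) = dotS (ek E lk9) r9_2_3 :=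
  op_entryZ E lk9 1 6 _ _ _ _ (pg0 κ) (pg10 ι) m9_2 m9_3 l9_3 z9_3 w9_3 x9_3 (by decide) _ (chkS_sound E lk9 1 6 _ _ _ _ t9_2_3)

def r9_3_3 : List (ℕ × ℤ) := [(3, 1344), (4, -2304), (17, -384), (18, 768), (19, 3456), (20, -5376), (21, 2496)]

theorem h9_3_3 (E : Env κ ι) : ip (F9_3 E) (F9_3 E) = dotS (ek E lk9) r9_3_3 :=
  op_entryZ E lk9 1 6 _ _ _ _ (pg0 κ) (pg10 ι) m9_3 m9_3 l9_3 z9_3 w9_3 x9_3 (by decide) _ (chkS_sound E lk9 1 6 _ _ _ _ t9_3_3)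

theorem row9_0 (E : Env κ ι) : RowG (ek E lk9) (F9_0 E) [F9_0 E, F9_1 E, F9_2 E, F9_3 E] [r9_0_0, r9_0_1, r9_0_2, r9_0_3] :=
  rowG_cons _ _ _ _ _ _ (h9_0_0 E) (rowG_cons _ _ _ _ _ _ (h9_0_1 E) (rowG_cons _ _ _ _ _ _ (h9_0_2 E) (rowG_cons _ _ _ _ _ _ (h9_0_3 E) (rowG_nil _ _))))

theorem row9_1 (E : Env κ ι) : RowG (ek E lk9) (F9_1 E) [F9_1 E, F9_2 E, F9_3 E] [r9_1_1, r9_1_2, r9_1_3] :=
  rowG_cons _ _ _ _ _ _ (h9_1_1 E) (rowG_cons _ _ _ _ _ _ (h9_1_2 E) (rowG_cons _ _ _ _ _ _ (h9_1_3 E) (rowG_nil _ _)))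

theorem row9_2 (E : Env κ ι) : RowG (ek E lk9) (F9_2 E) [F9_2 E, F9_3 E] [r9_2_2, r9_2_3] :=
  rowG_cons _ _ _ _ _ _ (h9_2_2 E) (rowG_cons _ _ _ _ _ _ (h9_2_3 E) (rowG_nil _ _))

theorem row9_3 (E : Env κ ι) : RowG (ek E lk9) (F9_3 E) [F9_3 E] [r9_3_3] :=
  rowG_cons _ _ _ _ _ _ (h9_3_3 E) (rowG_nil _ _)

def tab9 : List (List (List (ℕ × ℤ))) := [[r9_0_0, r9_0_1, r9_0_2, r9_0_3], [r9_1_1, r9_1_2, r9_1_3], [r9_2_2, r9_2_3], [r9_3_3]]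

theorem tri9 (E : Env κ ι) : TriG (ek E lk9) [F9_0 E, F9_1 E, F9_2 E, F9_3 E] tab9 := by
  refine triG_cons _ _ _ _ _ (row9_0 E) ?_
  refine triG_cons _ _ _ _ _ (row9_1 E) ?_
  refine triG_cons _ _ _ _ _ (row9_2 E) ?_
  refine triG_cons _ _ _ _ _ (row9_3 E) ?_
  exact triG_nil _

end

def lk10 : List Key := [
  (2, 6, [(0, [0], [0, 1]), (0, [0], [0, 1]), (0, [1], [2, 3]), (0, [1], [4, 5]), (1, [], [2, 4]), (1, [], [3, 5])]),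
  (3, 6, [(0, [0], [0, 1]), (0, [0], [0, 1]), (0, [1], [2, 3]), (0, [1], [4, 5]), (0, [2], [2, 4]), (0, [2], [3, 5])]),
  (2, 6, [(0, [0], [0, 1]), (0, [0], [0, 1]), (0, [1], [2, 3]), (0, [1], [4, 5]), (1, [], [4, 5]), (1, [], [2, 3])]),
  (1, 6, [(0, [0], [0, 1]), (0, [0], [0, 1]), (1, [], [2, 3]), (1, [], [2, 3]), (1, [], [4, 5]), (1, [], [4, 5])]),
  (1, 6, [(0, [0], [0, 1]), (0, [0], [0, 2]), (1, [], [2, 3]), (1, [], [1, 3]), (1, [], [4, 5]), (1, [], [4, 5])]),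
  (3, 6, [(0, [0], [0, 1]), (0, [1], [2, 3]), (0, [1], [4, 5]), (0, [0], [2, 4]), (0, [2], [0, 5]), (0, [2], [1, 3])]),
  (3, 6, [(0, [0], [0, 1]), (0, [1], [0, 2]), (0, [1], [3, 4]), (0, [0], [3, 4]), (0, [2], [2, 5]), (0, [2], [1, 5])]),
  (3, 6, [(0, [0], [0, 1]), (0, [0], [2, 3]), (0, [1], [0, 2]), (0, [2], [1, 3]), (0, [2], [4, 5]), (0, [1], [4, 5])]),
  (3, 6, [(0, [0], [0, 1]), (0, [0], [0, 1]), (0, [1], [2, 3]), (0, [2], [4, 5]), (0, [1], [4, 5]), (0, [2], [2, 3])]),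
  (3, 6, [(0, [0], [0, 1]), (0, [0], [2, 0]), (0, [1], [3, 1]), (0, [2], [2, 4]), (0, [2], [3, 5]), (0, [1], [4, 5])]),
  (2, 6, [(0, [0], [0, 1]), (0, [0], [2, 0]), (0, [1], [3, 1]), (0, [1], [4, 5]), (1, [], [4, 5]), (1, [], [2, 3])]),
  (2, 6, [(0, [0], [0, 1]), (0, [0], [2, 0]), (0, [1], [3, 1]), (0, [1], [4, 5]), (1, [], [2, 4]), (1, [], [3, 5])]),
  (3, 6, [(0, [0], [0, 1]), (0, [0], [2, 3]), (0, [1], [0, 1]), (0, [2], [4, 5]), (0, [2], [2, 3]), (0, [1], [4, 5])]),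
  (2, 6, [(0, [0], [0, 1]), (0, [0], [2, 3]), (0, [1], [0, 1]), (0, [1], [4, 5]), (1, [], [4, 5]), (1, [], [2, 3])]),
  (2, 6, [(0, [0], [0, 1]), (0, [0], [2, 3]), (0, [1], [0, 1]), (0, [1], [4, 5]), (1, [], [2, 4]), (1, [], [3, 5])]),
  (2, 6, [(0, [0], [0, 1]), (0, [0], [2, 3]), (0, [1], [1, 3]), (0, [1], [4, 5]), (1, [], [4, 5]), (1, [], [0, 2])]),
  (2, 6, [(0, [0], [0, 1]), (0, [0], [2, 3]), (0, [1], [1, 3]), (0, [1], [4, 5]), (1, [], [0, 4]), (1, [], [2, 5])]),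
  (1, 6, [(0, [0], [0, 1]), (1, [], [0, 1]), (1, [], [2, 3]), (0, [0], [4, 5]), (1, [], [4, 5]), (1, [], [2, 3])]),
  (1, 6, [(0, [0], [0, 1]), (1, [], [0, 1]), (1, [], [2, 3]), (0, [0], [4, 5]), (1, [], [2, 4]), (1, [], [3, 5])]),
  (1, 6, [(0, [0], [0, 1]), (1, [], [2, 0]), (1, [], [3, 1]), (0, [0], [4, 5]), (1, [], [2, 4]), (1, [], [3, 5])]),
  (1, 6, [(0, [0], [0, 1]), (1, [], [1, 2]), (1, [], [3, 2]), (0, [0], [0, 4]), (1, [], [4, 5]), (1, [], [3, 5])]),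
  (1, 6, [(0, [0], [0, 1]), (1, [], [2, 3]), (1, [], [4, 3]), (0, [0], [0, 1]), (1, [], [2, 5]), (1, [], [4, 5])])]

def kl10 : List ℕ := [11, 13, 14, 15, 17, 24, 25, 26, 30, 39, 40, 41, 45, 46, 47, 50, 51, 53, 54, 55, 58, 67]

def m10_0 : Base := (1, 0, [(0, [1], [0, 1]), (0, [1], [2, 3]), (0, [0], [4, 5])])

def l10_0 : Cov := [(180, 1, 0, [(0, [1], [0, 1]), (0, [1], [2, 3]), (0, [0], [4, 5])]),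
  (-180, 1, 0, [(0, [1], [0, 1]), (0, [1], [2, 5]), (0, [0], [3, 4])]),
  (360, 1, 0, [(0, [1], [0, 1]), (0, [1], [3, 4]), (0, [0], [2, 5])]),
  (-360, 1, 0, [(0, [1], [0, 1]), (0, [1], [4, 5]), (0, [0], [2, 3])]),
  (-180, 1, 0, [(0, [1], [0, 2]), (0, [1], [1, 3]), (0, [0], [4, 5])]),
  (180, 1, 0, [(0, [1], [0, 2]), (0, [1], [1, 5]), (0, [0], [3, 4])]),
  (180, 1, 0, [(0, [1], [0, 2]), (0, [1], [3, 4]), (0, [0], [1, 5])]),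
  (-180, 1, 0, [(0, [1], [0, 2]), (0, [1], [4, 5]), (0, [0], [1, 3])]),
  (-360, 1, 0, [(0, [1], [0, 4]), (0, [1], [1, 3]), (0, [0], [2, 5])]),
  (360, 1, 0, [(0, [1], [0, 4]), (0, [1], [1, 5]), (0, [0], [2, 3])]),
  (-180, 1, 0, [(0, [1], [0, 4]), (0, [1], [2, 3]), (0, [0], [1, 5])]),
  (180, 1, 0, [(0, [1], [0, 4]), (0, [1], [2, 5]), (0, [0], [1, 3])]),
  (180, 1, 0, [(0, [1], [1, 3]), (0, [1], [2, 5]), (0, [0], [0, 4])]),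
  (360, 1, 0, [(0, [1], [1, 3]), (0, [1], [4, 5]), (0, [0], [0, 2])]),
  (-180, 1, 0, [(0, [1], [1, 5]), (0, [1], [2, 3]), (0, [0], [0, 4])]),
  (-360, 1, 0, [(0, [1], [1, 5]), (0, [1], [3, 4]), (0, [0], [2, 0])]),
  (180, 1, 0, [(0, [1], [2, 3]), (0, [1], [4, 5]), (0, [0], [0, 1])]),
  (-180, 1, 0, [(0, [1], [2, 5]), (0, [1], [3, 4]), (0, [0], [1, 0])])]

def z10_0 : Cov := [(0, 1, 0, [(0, [1], [0, 1]), (0, [1], [2, 4]), (0, [0], [3, 5])]),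
  (0, 1, 0, [(0, [1], [0, 1]), (0, [1], [3, 5]), (0, [0], [2, 4])]),
  (0, 1, 0, [(0, [1], [0, 2]), (0, [1], [1, 4]), (0, [0], [3, 5])]),
  (0, 1, 0, [(0, [1], [0, 2]), (0, [1], [3, 5]), (0, [0], [1, 4])]),
  (0, 1, 0, [(0, [1], [0, 3]), (0, [1], [1, 2]), (0, [0], [4, 5])]),
  (0, 1, 0, [(0, [1], [0, 3]), (0, [1], [1, 4]), (0, [0], [2, 5])]),
  (0, 1, 0, [(0, [1], [0, 3]), (0, [1], [1, 5]), (0, [0], [2, 4])]),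
  (0, 1, 0, [(0, [1], [0, 3]), (0, [1], [2, 4]), (0, [0], [1, 5])]),
  (0, 1, 0, [(0, [1], [0, 3]), (0, [1], [2, 5]), (0, [0], [1, 4])]),
  (0, 1, 0, [(0, [1], [0, 3]), (0, [1], [4, 5]), (0, [0], [1, 2])]),
  (0, 1, 0, [(0, [1], [0, 4]), (0, [1], [1, 2]), (0, [0], [3, 5])]),
  (0, 1, 0, [(0, [1], [0, 4]), (0, [1], [3, 5]), (0, [0], [1, 2])]),
  (0, 1, 0, [(0, [1], [0, 5]), (0, [1], [1, 2]), (0, [0], [3, 4])]),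
  (0, 1, 0, [(0, [1], [0, 5]), (0, [1], [1, 3]), (0, [0], [2, 4])]),
  (0, 1, 0, [(0, [1], [0, 5]), (0, [1], [1, 4]), (0, [0], [2, 3])]),
  (0, 1, 0, [(0, [1], [0, 5]), (0, [1], [2, 3]), (0, [0], [1, 4])]),
  (0, 1, 0, [(0, [1], [0, 5]), (0, [1], [2, 4]), (0, [0], [1, 3])]),
  (0, 1, 0, [(0, [1], [0, 5]), (0, [1], [3, 4]), (0, [0], [1, 2])]),
  (0, 1, 0, [(0, [1], [1, 2]), (0, [1], [3, 4]), (0, [0], [0, 5])]),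
  (0, 1, 0, [(0, [1], [1, 2]), (0, [1], [3, 5]), (0, [0], [0, 4])]),
  (0, 1, 0, [(0, [1], [1, 2]), (0, [1], [4, 5]), (0, [0], [0, 3])]),
  (0, 1, 0, [(0, [1], [1, 3]), (0, [1], [2, 4]), (0, [0], [0, 5])]),
  (0, 1, 0, [(0, [1], [1, 4]), (0, [1], [2, 3]), (0, [0], [0, 5])]),
  (0, 1, 0, [(0, [1], [1, 4]), (0, [1], [2, 5]), (0, [0], [0, 3])]),
  (0, 1, 0, [(0, [1], [1, 4]), (0, [1], [3, 5]), (0, [0], [0, 2])]),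
  (0, 1, 0, [(0, [1], [1, 5]), (0, [1], [2, 4]), (0, [0], [0, 3])]),
  (0, 1, 0, [(0, [1], [2, 4]), (0, [1], [3, 5]), (0, [0], [0, 1])])]

def w10_0 : List (List Wit) := [[(0, 0, 0, 0, 0), (0, 0, 0, 0, 0), (18, 0, 0, 0, 0), (18, 0, 0, 0, 0), (1, 0, 0, 0, 0), (1, 0, 0, 0, 0), (0, 0, 0, 0, 0), (0, 0, 0, 0, 0), (2, 0, 0, 0, 0), (2, 0, 0, 0, 0), (19, 0, 0, 0, 0), (19, 0, 0, 0, 0), (18, 0, 0, 0, 0), (18, 0, 0, 0, 0), (2, 0, 0, 0, 0), (2, 0, 0, 0, 0), (3, 0, 0, 0, 0), (3, 0, 0, 0, 0), (1, 0, 0, 0, 0), (1, 0, 0, 0, 0), (19, 0, 0, 0, 0), (19, 0, 0, 0, 0), (3, 0, 0, 0, 0), (3, 0, 0, 0, 0), (4, 0, 0, 0, 0), (4, 0, 0, 0, 0), (20, 0, 0, 0, 0), (20, 0, 0, 0, 0), (5, 0, 0, 0, 0), (5, 0, 0, 0, 0), (4, 0, 0, 0, 0), (4, 0, 0, 0, 0), (6, 0, 0, 0, 0), (6, 0, 0, 0, 0), (21, 0, 0, 0, 0), (21, 0, 0,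 0, 0), (20, 0, 0, 0, 0), (20, 0, 0, 0, 0), (6, 0, 0, 0, 0), (6, 0, 0, 0, 0), (7, 0, 0, 0, 0), (7, 0, 0, 0, 0), (5, 0, 0, 0, 0), (5, 0, 0, 0, 0), (21, 0, 0, 0, 0), (21, 0, 0, 0, 0), (7, 0, 0, 0, 0), (7, 0, 0, 0, 0), (22, 0, 0, 0, 0), (22, 0, 0, 0, 0), (23, 0, 0, 0, 0), (23, 0, 0, 0, 0), (24, 0, 0, 0, 0), (24, 0, 0, 0, 0), (22, 0, 0, 0, 0), (22, 0, 0, 0, 0), (25, 0, 0, 0, 0), (25, 0, 0, 0, 0), (26, 0, 0, 0, 0), (26, 0, 0, 0, 0), (23, 0, 0, 0, 0), (23, 0, 0, 0, 0), (25, 0, 0, 0, 0), (25, 0, 0, 0, 0), (27, 0, 0, 0, 0), (27, 0, 0, 0, 0), (24, 0, 0, 0, 0), (24, 0, 0, 0, 0), (26, 0, 0, 0, 0), (26, 0, 0, 0, 0), (27, 0, 0, 0, 0), (27, 0, 0, 0, 0), (28, 0, 0, 0, 0), (28, 0, 0, 0, 0), (8, 0, 0, 0, 0), (8, 0, 0, 0, 0), (9, 0, 0, 0, 0), (9, 0, 0, 0, 0), (28, 0, 0, 0, 0), (28, 0, 0, 0, 0),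 (10, 0, 0, 0, 0), (10, 0, 0, 0, 0), (11, 0, 0, 0, 0), (11, 0, 0, 0, 0), (8, 0, 0, 0, 0), (8, 0, 0, 0, 0), (10, 0, 0, 0, 0), (10, 0, 0, 0, 0), (29, 0, 0, 0, 0), (29, 0, 0, 0, 0), (9, 0, 0, 0, 0), (9, 0, 0, 0, 0), (11, 0, 0, 0, 0), (11, 0, 0, 0, 0), (29, 0, 0, 0, 0), (29, 0, 0, 0, 0), (30, 0, 0, 0, 0), (30, 0, 0, 0, 0), (31, 0, 0, 0, 0), (31, 0, 0, 0, 0), (32, 0, 0, 0, 0), (32, 0, 0, 0, 0), (30, 0, 0, 0, 0), (30, 0, 0, 0, 0), (33, 0, 0, 0, 0), (33, 0, 0, 0, 0), (34, 0, 0, 0, 0), (34, 0, 0, 0, 0), (31, 0, 0, 0, 0), (31, 0, 0, 0, 0), (33, 0, 0, 0, 0), (33, 0, 0, 0, 0), (35, 0, 0, 0, 0), (35, 0, 0, 0, 0), (32, 0, 0, 0, 0), (32, 0, 0, 0, 0), (34, 0, 0, 0, 0), (34, 0, 0, 0, 0), (35, 0, 0, 0, 0), (35, 0, 0, 0, 0), (0, 0, 0, 0, 0), (0, 0, 0, 0, 0), (18, 0, 0, 0, 0), (18, 0, 0, 0, 0), (1,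 0, 0, 0, 0), (1, 0, 0, 0, 0), (0, 0, 0, 0, 0), (2, 0, 0, 0, 0), (19, 0, 0, 0, 0), (19, 0, 0, 0, 0), (18, 0, 0, 0, 0), (18, 0, 0, 0, 0), (2, 0, 0, 0, 0), (2, 0, 0, 0, 0), (3, 0, 0, 0, 0), (3, 0, 0, 0, 0), (1, 0, 0, 0, 0), (19, 0, 0, 0, 0), (19, 0, 0, 0, 0), (3, 0, 0, 0, 0), (22, 0, 0, 0, 0), (22, 0, 0, 0, 0), (28, 0, 0, 0, 0), (28, 0, 0, 0, 0), (30, 0, 0, 0, 0), (30, 0, 0, 0, 0), (22, 0, 0, 0, 0), (22, 0, 0, 0, 0), (36, 0, 0, 0, 0), (36, 0, 0, 0, 0), (37, 0, 0, 0, 0), (37, 0, 0, 0, 0), (28, 0, 0, 0, 0), (28, 0, 0, 0, 0), (36, 0, 0, 0, 0), (36, 0, 0, 0, 0), (38, 0, 0, 0, 0), (38, 0, 0, 0, 0), (30, 0, 0, 0, 0), (30, 0, 0, 0, 0), (37, 0, 0, 0, 0), (37, 0, 0, 0, 0), (38, 0, 0, 0, 0), (38, 0, 0, 0, 0), (4, 0, 0, 0, 0), (8, 0, 0, 0, 0), (31, 0, 0, 0, 0), (31, 0, 0, 0, 0), (4, 0, 0, 0,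 0), (4, 0, 0, 0, 0), (39, 0, 0, 0, 0), (39, 0, 0, 0, 0), (12, 0, 0, 0, 0), (12, 0, 0, 0, 0), (8, 0, 0, 0, 0), (8, 0, 0, 0, 0), (39, 0, 0, 0, 0), (39, 0, 0, 0, 0), (13, 0, 0, 0, 0), (13, 0, 0, 0, 0), (31, 0, 0, 0, 0), (31, 0, 0, 0, 0), (12, 0, 0, 0, 0), (13, 0, 0, 0, 0), (20, 0, 0, 0, 0), (20, 0, 0, 0, 0), (23, 0, 0, 0, 0), (23, 0, 0, 0, 0), (32, 0, 0, 0, 0), (32, 0, 0, 0, 0), (20, 0, 0, 0, 0), (20, 0, 0, 0, 0), (40, 0, 0, 0, 0), (40, 0, 0, 0, 0), (41, 0, 0, 0, 0), (41, 0, 0, 0, 0), (23, 0, 0, 0, 0), (23, 0, 0, 0, 0), (40, 0, 0, 0, 0), (40, 0, 0, 0, 0), (42, 0, 0, 0, 0), (42, 0, 0, 0, 0), (32, 0, 0, 0, 0), (32, 0, 0, 0, 0), (41, 0, 0, 0, 0), (41, 0, 0, 0, 0), (42, 0, 0, 0, 0), (42, 0, 0, 0, 0), (5, 0, 0, 0, 0), (24, 0, 0, 0, 0), (24, 0, 0, 0, 0), (9, 0, 0, 0, 0), (5, 0, 0, 0, 0),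 (5, 0, 0, 0, 0), (14, 0, 0, 0, 0), (14, 0, 0, 0, 0), (43, 0, 0, 0, 0), (43, 0, 0, 0, 0), (24, 0, 0, 0, 0), (24, 0, 0, 0, 0), (14, 0, 0, 0, 0), (15, 0, 0, 0, 0), (9, 0, 0, 0, 0), (9, 0, 0, 0, 0), (43, 0, 0, 0, 0), (43, 0, 0, 0, 0), (15, 0, 0, 0, 0), (15, 0, 0, 0, 0), (4, 0, 0, 0, 0), (4, 0, 0, 0, 0), (20, 0, 0, 0, 0), (20, 0, 0, 0, 0), (5, 0, 0, 0, 0), (5, 0, 0, 0, 0), (4, 0, 0, 0, 0), (6, 0, 0, 0, 0), (21, 0, 0, 0, 0), (21, 0, 0, 0, 0), (20, 0, 0, 0, 0), (20, 0, 0, 0, 0), (6, 0, 0, 0, 0), (6, 0, 0, 0, 0), (7, 0, 0, 0, 0), (7, 0, 0, 0, 0), (5, 0, 0, 0, 0), (21, 0, 0, 0, 0), (21, 0, 0, 0, 0), (7, 0, 0, 0, 0), (22, 0, 0, 0, 0), (22, 0, 0, 0, 0), (28, 0, 0, 0, 0), (28, 0, 0, 0, 0), (30, 0, 0, 0, 0), (30, 0, 0, 0, 0), (22, 0, 0, 0, 0), (22, 0, 0, 0, 0), (36, 0, 0, 0, 0), (36, 0, 0,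 0, 0), (37, 0, 0, 0, 0), (37, 0, 0, 0, 0), (28, 0, 0, 0, 0), (28, 0, 0, 0, 0), (36, 0, 0, 0, 0), (36, 0, 0, 0, 0), (38, 0, 0, 0, 0), (38, 0, 0, 0, 0), (30, 0, 0, 0, 0), (30, 0, 0, 0, 0), (37, 0, 0, 0, 0), (37, 0, 0, 0, 0), (38, 0, 0, 0, 0), (38, 0, 0, 0, 0), (0, 0, 0, 0, 0), (10, 0, 0, 0, 0), (33, 0, 0, 0, 0), (33, 0, 0, 0, 0), (0, 0, 0, 0, 0), (0, 0, 0, 0, 0), (40, 0, 0, 0, 0), (40, 0, 0, 0, 0), (14, 0, 0, 0, 0), (14, 0, 0, 0, 0), (10, 0, 0, 0, 0), (10, 0, 0, 0, 0), (40, 0, 0, 0, 0), (40, 0, 0, 0, 0), (16, 0, 0, 0, 0), (16, 0, 0, 0, 0), (33, 0, 0, 0, 0), (33, 0, 0, 0, 0), (14, 0, 0, 0, 0), (16, 0, 0, 0, 0), (18, 0, 0, 0, 0), (18, 0, 0, 0, 0), (25, 0, 0, 0, 0), (25, 0, 0, 0, 0), (34, 0, 0, 0, 0), (34, 0, 0, 0, 0), (18, 0, 0, 0, 0), (18, 0, 0, 0, 0), (39, 0, 0, 0, 0), (39, 0, 0,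 0, 0), (43, 0, 0, 0, 0), (43, 0, 0, 0, 0), (25, 0, 0, 0, 0), (25, 0, 0, 0, 0), (39, 0, 0, 0, 0), (39, 0, 0, 0, 0), (44, 0, 0, 0, 0), (44, 0, 0, 0, 0), (34, 0, 0, 0, 0), (34, 0, 0, 0, 0), (43, 0, 0, 0, 0), (43, 0, 0, 0, 0), (44, 0, 0, 0, 0), (44, 0, 0, 0, 0), (1, 0, 0, 0, 0), (26, 0, 0, 0, 0), (26, 0, 0, 0, 0), (11, 0, 0, 0, 0), (1, 0, 0, 0, 0), (1, 0, 0, 0, 0), (12, 0, 0, 0, 0), (12, 0, 0, 0, 0), (41, 0, 0, 0, 0), (41, 0, 0, 0, 0), (26, 0, 0, 0, 0), (26, 0, 0, 0, 0), (12, 0, 0, 0, 0), (17, 0, 0, 0, 0), (11, 0, 0, 0, 0), (11, 0, 0, 0, 0), (41, 0, 0, 0, 0), (41, 0, 0, 0, 0), (17, 0, 0, 0, 0), (17, 0, 0, 0, 0), (22, 0, 0, 0, 0), (22, 0, 0, 0, 0), (23, 0, 0, 0, 0), (23, 0, 0, 0, 0), (24, 0, 0, 0, 0), (24, 0, 0, 0, 0), (22, 0, 0, 0, 0), (22, 0, 0, 0, 0), (25, 0, 0, 0, 0), (25, 0, 0,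 0, 0), (26, 0, 0, 0, 0), (26, 0, 0, 0, 0), (23, 0, 0, 0, 0), (23, 0, 0, 0, 0), (25, 0, 0, 0, 0), (25, 0, 0, 0, 0), (27, 0, 0, 0, 0), (27, 0, 0, 0, 0), (24, 0, 0, 0, 0), (24, 0, 0, 0, 0), (26, 0, 0, 0, 0), (26, 0, 0, 0, 0), (27, 0, 0, 0, 0), (27, 0, 0, 0, 0), (4, 0, 0, 0, 0), (4, 0, 0, 0, 0), (8, 0, 0, 0, 0), (8, 0, 0, 0, 0), (31, 0, 0, 0, 0), (31, 0, 0, 0, 0), (4, 0, 0, 0, 0), (4, 0, 0, 0, 0), (39, 0, 0, 0, 0), (39, 0, 0, 0, 0), (12, 0, 0, 0, 0), (12, 0, 0, 0, 0), (8, 0, 0, 0, 0), (8, 0, 0, 0, 0), (39, 0, 0, 0, 0), (39, 0, 0, 0, 0), (13, 0, 0, 0, 0), (13, 0, 0, 0, 0), (31, 0, 0, 0, 0), (31, 0, 0, 0, 0), (12, 0, 0, 0, 0), (12, 0, 0, 0, 0), (13, 0, 0, 0, 0), (13, 0, 0, 0, 0), (0, 0, 0, 0, 0), (0, 0, 0, 0, 0), (10, 0, 0, 0, 0), (10, 0, 0, 0, 0), (33, 0, 0, 0, 0), (33, 0, 0, 0, 0),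 (0, 0, 0, 0, 0), (0, 0, 0, 0, 0), (40, 0, 0, 0, 0), (40, 0, 0, 0, 0), (14, 0, 0, 0, 0), (14, 0, 0, 0, 0), (10, 0, 0, 0, 0), (10, 0, 0, 0, 0), (40, 0, 0, 0, 0), (40, 0, 0, 0, 0), (16, 0, 0, 0, 0), (16, 0, 0, 0, 0), (33, 0, 0, 0, 0), (33, 0, 0, 0, 0), (14, 0, 0, 0, 0), (14, 0, 0, 0, 0), (16, 0, 0, 0, 0), (16, 0, 0, 0, 0), (2, 0, 0, 0, 0), (2, 0, 0, 0, 0), (6, 0, 0, 0, 0), (6, 0, 0, 0, 0), (35, 0, 0, 0, 0), (35, 0, 0, 0, 0), (2, 0, 0, 0, 0), (2, 0, 0, 0, 0), (36, 0, 0, 0, 0), (36, 0, 0, 0, 0), (15, 0, 0, 0, 0), (15, 0, 0, 0, 0), (6, 0, 0, 0, 0), (6, 0, 0, 0, 0), (36, 0, 0, 0, 0), (36, 0, 0, 0, 0), (17, 0, 0, 0, 0), (17, 0, 0, 0, 0), (35, 0, 0, 0, 0), (35, 0, 0, 0, 0), (15, 0, 0, 0, 0), (15, 0, 0, 0, 0), (17, 0, 0, 0, 0), (17, 0, 0, 0, 0), (19, 0, 0, 0, 0), (19, 0, 0, 0, 0), (21,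 0, 0, 0, 0), (21, 0, 0, 0, 0), (29, 0, 0, 0, 0), (29, 0, 0, 0, 0), (19, 0, 0, 0, 0), (19, 0, 0, 0, 0), (37, 0, 0, 0, 0), (37, 0, 0, 0, 0), (42, 0, 0, 0, 0), (42, 0, 0, 0, 0), (21, 0, 0, 0, 0), (21, 0, 0, 0, 0), (37, 0, 0, 0, 0), (37, 0, 0, 0, 0), (44, 0, 0, 0, 0), (44, 0, 0, 0, 0), (29, 0, 0, 0, 0), (29, 0, 0, 0, 0), (42, 0, 0, 0, 0), (42, 0, 0, 0, 0), (44, 0, 0, 0, 0), (44, 0, 0, 0, 0), (28, 0, 0, 0, 0), (28, 0, 0, 0, 0), (8, 0, 0, 0, 0), (8, 0, 0, 0, 0), (9, 0, 0, 0, 0), (9, 0, 0, 0, 0), (28, 0, 0, 0, 0), (28, 0, 0, 0, 0), (10, 0, 0, 0, 0), (10, 0, 0, 0, 0), (11, 0, 0, 0, 0), (11, 0, 0, 0, 0), (8, 0, 0, 0, 0), (10, 0, 0, 0, 0), (29, 0, 0, 0, 0), (29, 0, 0, 0, 0), (9, 0, 0, 0, 0), (11, 0, 0, 0, 0), (29, 0, 0, 0, 0), (29, 0, 0, 0, 0), (20, 0, 0, 0, 0), (20, 0, 0, 0, 0), (23, 0,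 0, 0, 0), (23, 0, 0, 0, 0), (32, 0, 0, 0, 0), (32, 0, 0, 0, 0), (20, 0, 0, 0, 0), (20, 0, 0, 0, 0), (40, 0, 0, 0, 0), (40, 0, 0, 0, 0), (41, 0, 0, 0, 0), (41, 0, 0, 0, 0), (23, 0, 0, 0, 0), (23, 0, 0, 0, 0), (40, 0, 0, 0, 0), (40, 0, 0, 0, 0), (42, 0, 0, 0, 0), (42, 0, 0, 0, 0), (32, 0, 0, 0, 0), (32, 0, 0, 0, 0), (41, 0, 0, 0, 0), (41, 0, 0, 0, 0), (42, 0, 0, 0, 0), (42, 0, 0, 0, 0), (18, 0, 0, 0, 0), (18, 0, 0, 0, 0), (25, 0, 0, 0, 0), (25, 0, 0, 0, 0), (34, 0, 0, 0, 0), (34, 0, 0, 0, 0), (18, 0, 0, 0, 0), (18, 0, 0, 0, 0), (39, 0, 0, 0, 0), (39, 0, 0, 0, 0), (43, 0, 0, 0, 0), (43, 0, 0, 0, 0), (25, 0, 0, 0, 0), (25, 0, 0, 0, 0), (39, 0, 0, 0, 0), (39, 0, 0, 0, 0), (44, 0, 0, 0, 0), (44, 0, 0, 0, 0), (34, 0, 0, 0, 0), (34, 0, 0, 0, 0), (43, 0, 0, 0, 0), (43, 0, 0, 0, 0), (44,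 0, 0, 0, 0), (44, 0, 0, 0, 0), (2, 0, 0, 0, 0), (6, 0, 0, 0, 0), (35, 0, 0, 0, 0), (35, 0, 0, 0, 0), (2, 0, 0, 0, 0), (2, 0, 0, 0, 0), (36, 0, 0, 0, 0), (36, 0, 0, 0, 0), (15, 0, 0, 0, 0), (15, 0, 0, 0, 0), (6, 0, 0, 0, 0), (6, 0, 0, 0, 0), (36, 0, 0, 0, 0), (36, 0, 0, 0, 0), (17, 0, 0, 0, 0), (17, 0, 0, 0, 0), (35, 0, 0, 0, 0), (35, 0, 0, 0, 0), (15, 0, 0, 0, 0), (17, 0, 0, 0, 0), (3, 0, 0, 0, 0), (7, 0, 0, 0, 0), (27, 0, 0, 0, 0), (27, 0, 0, 0, 0), (3, 0, 0, 0, 0), (3, 0, 0, 0, 0), (38, 0, 0, 0, 0), (38, 0, 0, 0, 0), (13, 0, 0, 0, 0), (13, 0, 0, 0, 0), (7, 0, 0, 0, 0), (7, 0, 0, 0, 0), (38, 0, 0, 0, 0), (38, 0, 0, 0, 0), (16, 0, 0, 0, 0), (16, 0, 0, 0, 0), (27, 0, 0, 0, 0), (27, 0, 0, 0, 0), (13, 0, 0, 0, 0), (16, 0, 0, 0, 0), (30, 0, 0, 0, 0), (30, 0, 0, 0, 0), (31, 0, 0, 0,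 0), (31, 0, 0, 0, 0), (32, 0, 0, 0, 0), (32, 0, 0, 0, 0), (30, 0, 0, 0, 0), (30, 0, 0, 0, 0), (33, 0, 0, 0, 0), (33, 0, 0, 0, 0), (34, 0, 0, 0, 0), (34, 0, 0, 0, 0), (31, 0, 0, 0, 0), (31, 0, 0, 0, 0), (33, 0, 0, 0, 0), (33, 0, 0, 0, 0), (35, 0, 0, 0, 0), (35, 0, 0, 0, 0), (32, 0, 0, 0, 0), (32, 0, 0, 0, 0), (34, 0, 0, 0, 0), (34, 0, 0, 0, 0), (35, 0, 0, 0, 0), (35, 0, 0, 0, 0), (5, 0, 0, 0, 0), (5, 0, 0, 0, 0), (24, 0, 0, 0, 0), (24, 0, 0, 0, 0), (9, 0, 0, 0, 0), (9, 0, 0, 0, 0), (5, 0, 0, 0, 0), (5, 0, 0, 0, 0), (14, 0, 0, 0, 0), (14, 0, 0, 0, 0), (43, 0, 0, 0, 0), (43, 0, 0, 0, 0), (24, 0, 0, 0, 0), (24, 0, 0, 0, 0), (14, 0, 0, 0, 0), (14, 0, 0, 0, 0), (15, 0, 0, 0, 0), (15, 0, 0, 0, 0), (9, 0, 0, 0, 0), (9, 0, 0, 0, 0), (43, 0, 0, 0, 0), (43, 0, 0, 0, 0), (15, 0, 0, 0, 0),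 (15, 0, 0, 0, 0), (1, 0, 0, 0, 0), (1, 0, 0, 0, 0), (26, 0, 0, 0, 0), (26, 0, 0, 0, 0), (11, 0, 0, 0, 0), (11, 0, 0, 0, 0), (1, 0, 0, 0, 0), (1, 0, 0, 0, 0), (12, 0, 0, 0, 0), (12, 0, 0, 0, 0), (41, 0, 0, 0, 0), (41, 0, 0, 0, 0), (26, 0, 0, 0, 0), (26, 0, 0, 0, 0), (12, 0, 0, 0, 0), (12, 0, 0, 0, 0), (17, 0, 0, 0, 0), (17, 0, 0, 0, 0), (11, 0, 0, 0, 0), (11, 0, 0, 0, 0), (41, 0, 0, 0, 0), (41, 0, 0, 0, 0), (17, 0, 0, 0, 0), (17, 0, 0, 0, 0), (19, 0, 0, 0, 0), (19, 0, 0, 0, 0), (21, 0, 0, 0, 0), (21, 0, 0, 0, 0), (29, 0, 0, 0, 0), (29, 0, 0, 0, 0), (19, 0, 0, 0, 0), (19, 0, 0, 0, 0), (37, 0, 0, 0, 0), (37, 0, 0, 0, 0), (42, 0, 0, 0, 0), (42, 0, 0, 0, 0), (21, 0, 0, 0, 0), (21, 0, 0, 0, 0), (37, 0, 0, 0, 0), (37, 0, 0, 0, 0), (44, 0, 0, 0, 0), (44, 0, 0, 0, 0), (29, 0, 0, 0, 0),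 (29, 0, 0, 0, 0), (42, 0, 0, 0, 0), (42, 0, 0, 0, 0), (44, 0, 0, 0, 0), (44, 0, 0, 0, 0), (3, 0, 0, 0, 0), (3, 0, 0, 0, 0), (7, 0, 0, 0, 0), (7, 0, 0, 0, 0), (27, 0, 0, 0, 0), (27, 0, 0, 0, 0), (3, 0, 0, 0, 0), (3, 0, 0, 0, 0), (38, 0, 0, 0, 0), (38, 0, 0, 0, 0), (13, 0, 0, 0, 0), (13, 0, 0, 0, 0), (7, 0, 0, 0, 0), (7, 0, 0, 0, 0), (38, 0, 0, 0, 0), (38, 0, 0, 0, 0), (16, 0, 0, 0, 0), (16, 0, 0, 0, 0), (27, 0, 0, 0, 0), (27, 0, 0, 0, 0), (13, 0, 0, 0, 0), (13, 0, 0, 0, 0), (16, 0, 0, 0, 0), (16, 0, 0, 0, 0)]]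

def m10_1 : Base := (0, 0, [(0, [0], [0, 1]), (1, [], [2, 3]), (1, [], [4, 5])])

def l10_1 : Cov := [(180, 0, 0, [(0, [0], [0, 1]), (1, [], [2, 3]), (1, [], [4, 5])]),
  (-180, 0, 0, [(0, [0], [0, 1]), (1, [], [2, 5]), (1, [], [3, 4])]),
  (360, 0, 0, [(0, [0], [0, 2]), (1, [], [1, 3]), (1, [], [4, 5])]),
  (-360, 0, 0, [(0, [0], [0, 2]), (1, [], [1, 5]), (1, [], [3, 4])]),
  (180, 0, 0, [(0, [0], [0, 4]), (1, [], [1, 3]), (1, [], [2, 5])]),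
  (-180, 0, 0, [(0, [0], [0, 4]), (1, [], [1, 5]), (1, [], [2, 3])]),
  (-180, 0, 0, [(0, [0], [1, 3]), (1, [], [0, 2]), (1, [], [4, 5])]),
  (180, 0, 0, [(0, [0], [1, 3]), (1, [], [0, 4]), (1, [], [2, 5])]),
  (180, 0, 0, [(0, [0], [1, 5]), (1, [], [0, 2]), (1, [], [4, 3])]),
  (-180, 0, 0, [(0, [0], [1, 5]), (1, [], [0, 4]), (1, [], [2, 3])]),
  (-360, 0, 0, [(0, [0], [2, 3]), (1, [], [0, 1]), (1, [], [4, 5])]),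
  (360, 0, 0, [(0, [0], [2, 3]), (1, [], [0, 4]), (1, [], [1, 5])]),
  (360, 0, 0, [(0, [0], [2, 5]), (1, [], [0, 1]), (1, [], [4, 3])]),
  (-360, 0, 0, [(0, [0], [2, 5]), (1, [], [0, 4]), (1, [], [1, 3])]),
  (-180, 0, 0, [(0, [0], [3, 4]), (1, [], [0, 1]), (1, [], [2, 5])]),
  (180, 0, 0, [(0, [0], [3, 4]), (1, [], [0, 2]), (1, [], [1, 5])]),
  (180, 0, 0, [(0, [0], [4, 5]), (1, [], [0, 1]), (1, [], [2, 3])]),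
  (-180, 0, 0, [(0, [0], [4, 5]), (1, [], [0, 2]), (1, [], [1, 3])])]

def z10_1 : Cov := [(0, 0, 0, [(0, [0], [0, 1]), (1, [], [2, 4]), (1, [], [3, 5])]),
  (0, 0, 0, [(0, [0], [0, 2]), (1, [], [1, 4]), (1, [], [3, 5])]),
  (0, 0, 0, [(0, [0], [0, 3]), (1, [], [1, 2]), (1, [], [4, 5])]),
  (0, 0, 0, [(0, [0], [0, 3]), (1, [], [1, 4]), (1, [], [2, 5])]),
  (0, 0, 0, [(0, [0], [0, 3]), (1, [], [1, 5]), (1, [], [2, 4])]),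
  (0, 0, 0, [(0, [0], [0, 4]), (1, [], [1, 2]), (1, [], [3, 5])]),
  (0, 0, 0, [(0, [0], [0, 5]), (1, [], [1, 2]), (1, [], [3, 4])]),
  (0, 0, 0, [(0, [0], [0, 5]), (1, [], [1, 3]), (1, [], [2, 4])]),
  (0, 0, 0, [(0, [0], [0, 5]), (1, [], [1, 4]), (1, [], [2, 3])]),
  (0, 0, 0, [(0, [0], [1, 2]), (1, [], [0, 3]), (1, [], [4, 5])]),
  (0, 0, 0, [(0, [0], [1, 2]), (1, [], [0, 4]), (1, [], [3, 5])]),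
  (0, 0, 0, [(0, [0], [1, 2]), (1, [], [0, 5]), (1, [], [3, 4])]),
  (0, 0, 0, [(0, [0], [1, 3]), (1, [], [0, 5]), (1, [], [2, 4])]),
  (0, 0, 0, [(0, [0], [1, 4]), (1, [], [0, 2]), (1, [], [3, 5])]),
  (0, 0, 0, [(0, [0], [1, 4]), (1, [], [0, 3]), (1, [], [2, 5])]),
  (0, 0, 0, [(0, [0], [1, 4]), (1, [], [0, 5]), (1, [], [2, 3])]),
  (0, 0, 0, [(0, [0], [1, 5]), (1, [], [0, 3]), (1, [], [2, 4])]),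
  (0, 0, 0, [(0, [0], [2, 3]), (1, [], [0, 5]), (1, [], [1, 4])]),
  (0, 0, 0, [(0, [0], [2, 4]), (1, [], [0, 1]), (1, [], [3, 5])]),
  (0, 0, 0, [(0, [0], [2, 4]), (1, [], [0, 3]), (1, [], [1, 5])]),
  (0, 0, 0, [(0, [0], [2, 4]), (1, [], [0, 5]), (1, [], [1, 3])]),
  (0, 0, 0, [(0, [0], [2, 5]), (1, [], [0, 3]), (1, [], [1, 4])]),
  (0, 0, 0, [(0, [0], [3, 4]), (1, [], [0, 5]), (1, [], [1, 2])]),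
  (0, 0, 0, [(0, [0], [3, 5]), (1, [], [0, 1]), (1, [], [2, 4])]),
  (0, 0, 0, [(0, [0], [3, 5]), (1, [], [0, 2]), (1, [], [1, 4])]),
  (0, 0, 0, [(0, [0], [3, 5]), (1, [], [0, 4]), (1, [], [1, 2])]),
  (0, 0, 0, [(0, [0], [4, 5]), (1, [], [0, 3]), (1, [], [1, 2])])]

def w10_1 : List (List Wit) := [[(0, 0, 0, 0, 0), (0, 0, 0, 0, 0), (18, 0, 0, 0, 0), (18, 0, 0, 0, 0), (1, 0, 0, 0, 0), (1, 0, 0, 0, 0), (0, 0, 0, 0, 0), (0, 0, 0, 0, 0), (1, 0, 0, 0, 0), (1, 0, 0, 0, 0), (18, 0, 0, 0, 0), (18, 0, 0, 0, 0), (18, 0, 0, 0, 0), (18, 0, 0, 0, 0), (1, 0, 0, 0, 0), (1, 0, 0, 0, 0), (0, 0, 0, 0, 0), (0, 0, 0, 0, 0), (1, 0, 0, 0, 0), (1, 0, 0, 0, 0), (18, 0, 0, 0, 0), (18, 0, 0, 0, 0), (0, 0, 0, 0, 0), (0, 0, 0, 0, 0), (2, 0, 0, 0, 0), (2, 0, 0, 0, 0), (19, 0, 0, 0, 0), (19, 0, 0, 0, 0),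 (3, 0, 0, 0, 0), (3, 0, 0, 0, 0), (2, 0, 0, 0, 0), (2, 0, 0, 0, 0), (3, 0, 0, 0, 0), (3, 0, 0, 0, 0), (19, 0, 0, 0, 0), (19, 0, 0, 0, 0), (19, 0, 0, 0, 0), (19, 0, 0, 0, 0), (3, 0, 0, 0, 0), (3, 0, 0, 0, 0), (2, 0, 0, 0, 0), (2, 0, 0, 0, 0), (3, 0, 0, 0, 0), (3, 0, 0, 0, 0), (19, 0, 0, 0, 0), (19, 0, 0, 0, 0), (2, 0, 0, 0, 0), (2, 0, 0, 0, 0), (20, 0, 0, 0, 0), (20, 0, 0, 0, 0), (21, 0, 0, 0, 0), (21, 0, 0, 0, 0), (22, 0, 0, 0, 0), (22, 0, 0, 0, 0), (20, 0, 0, 0, 0), (20, 0, 0, 0, 0), (22, 0, 0, 0, 0), (22, 0, 0, 0, 0), (21, 0, 0, 0, 0), (21, 0, 0, 0, 0), (21, 0, 0, 0, 0), (21, 0, 0, 0, 0), (22, 0, 0, 0, 0), (22, 0, 0, 0, 0), (20, 0, 0, 0, 0), (20, 0, 0, 0, 0), (22, 0, 0, 0, 0), (22, 0, 0, 0, 0), (21, 0, 0, 0, 0), (21, 0, 0, 0, 0), (20, 0, 0, 0, 0), (20, 0, 0, 0, 0), (23, 0, 0,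 0, 0), (23, 0, 0, 0, 0), (4, 0, 0, 0, 0), (4, 0, 0, 0, 0), (5, 0, 0, 0, 0), (5, 0, 0, 0, 0), (23, 0, 0, 0, 0), (23, 0, 0, 0, 0), (5, 0, 0, 0, 0), (5, 0, 0, 0, 0), (4, 0, 0, 0, 0), (4, 0, 0, 0, 0), (4, 0, 0, 0, 0), (4, 0, 0, 0, 0), (5, 0, 0, 0, 0), (5, 0, 0, 0, 0), (23, 0, 0, 0, 0), (23, 0, 0, 0, 0), (5, 0, 0, 0, 0), (5, 0, 0, 0, 0), (4, 0, 0, 0, 0), (4, 0, 0, 0, 0), (23, 0, 0, 0, 0), (23, 0, 0, 0, 0), (24, 0, 0, 0, 0), (24, 0, 0, 0, 0), (25, 0, 0, 0, 0), (25, 0, 0, 0, 0), (26, 0, 0, 0, 0), (26, 0, 0, 0, 0), (24, 0, 0, 0, 0), (24, 0, 0, 0, 0), (26, 0, 0, 0, 0), (26, 0, 0, 0, 0), (25, 0, 0, 0, 0), (25, 0, 0, 0, 0), (25, 0, 0, 0, 0), (25, 0, 0, 0, 0), (26, 0, 0, 0, 0), (26, 0, 0, 0, 0), (24, 0, 0, 0, 0), (24, 0, 0, 0, 0), (26, 0, 0, 0, 0), (26, 0, 0, 0, 0), (25, 0, 0, 0, 0), (25,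 0, 0, 0, 0), (24, 0, 0, 0, 0), (24, 0, 0, 0, 0), (0, 0, 0, 0, 0), (0, 0, 0, 0, 0), (18, 0, 0, 0, 0), (18, 0, 0, 0, 0), (1, 0, 0, 0, 0), (1, 0, 0, 0, 0), (0, 0, 0, 0, 0), (1, 0, 0, 0, 0), (18, 0, 0, 0, 0), (18, 0, 0, 0, 0), (18, 0, 0, 0, 0), (18, 0, 0, 0, 0), (1, 0, 0, 0, 0), (1, 0, 0, 0, 0), (0, 0, 0, 0, 0), (0, 0, 0, 0, 0), (1, 0, 0, 0, 0), (18, 0, 0, 0, 0), (18, 0, 0, 0, 0), (0, 0, 0, 0, 0), (27, 0, 0, 0, 0), (27, 0, 0, 0, 0), (28, 0, 0, 0, 0), (28, 0, 0, 0, 0), (29, 0, 0, 0, 0), (29, 0, 0, 0, 0), (27, 0, 0, 0, 0), (27, 0, 0, 0, 0), (29, 0, 0, 0, 0), (29, 0, 0, 0, 0), (28, 0, 0, 0, 0), (28, 0, 0, 0, 0), (28, 0, 0, 0, 0), (28, 0, 0, 0, 0), (29, 0, 0, 0, 0), (29, 0, 0, 0, 0), (27, 0, 0, 0, 0), (27, 0, 0, 0, 0), (29, 0, 0, 0, 0), (29, 0, 0, 0, 0), (28, 0, 0, 0, 0), (28, 0, 0, 0,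 0), (27, 0, 0, 0, 0), (27, 0, 0, 0, 0), (6, 0, 0, 0, 0), (7, 0, 0, 0, 0), (30, 0, 0, 0, 0), (30, 0, 0, 0, 0), (6, 0, 0, 0, 0), (6, 0, 0, 0, 0), (30, 0, 0, 0, 0), (30, 0, 0, 0, 0), (7, 0, 0, 0, 0), (7, 0, 0, 0, 0), (7, 0, 0, 0, 0), (7, 0, 0, 0, 0), (30, 0, 0, 0, 0), (30, 0, 0, 0, 0), (6, 0, 0, 0, 0), (6, 0, 0, 0, 0), (30, 0, 0, 0, 0), (30, 0, 0, 0, 0), (7, 0, 0, 0, 0), (6, 0, 0, 0, 0), (31, 0, 0, 0, 0), (31, 0, 0, 0, 0), (32, 0, 0, 0, 0), (32, 0, 0, 0, 0), (33, 0, 0, 0, 0), (33, 0, 0, 0, 0), (31, 0, 0, 0, 0), (31, 0, 0, 0, 0), (33, 0, 0, 0, 0), (33, 0, 0, 0, 0), (32, 0, 0, 0, 0), (32, 0, 0, 0, 0), (32, 0, 0, 0, 0), (32, 0, 0, 0, 0), (33, 0, 0, 0, 0), (33, 0, 0, 0, 0), (31, 0, 0, 0, 0), (31, 0, 0, 0, 0), (33, 0, 0, 0, 0), (33, 0, 0, 0, 0), (32, 0, 0, 0, 0), (32, 0, 0, 0, 0), (31,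 0, 0, 0, 0), (31, 0, 0, 0, 0), (8, 0, 0, 0, 0), (34, 0, 0, 0, 0), (34, 0, 0, 0, 0), (9, 0, 0, 0, 0), (8, 0, 0, 0, 0), (8, 0, 0, 0, 0), (9, 0, 0, 0, 0), (9, 0, 0, 0, 0), (34, 0, 0, 0, 0), (34, 0, 0, 0, 0), (34, 0, 0, 0, 0), (34, 0, 0, 0, 0), (9, 0, 0, 0, 0), (8, 0, 0, 0, 0), (9, 0, 0, 0, 0), (9, 0, 0, 0, 0), (34, 0, 0, 0, 0), (34, 0, 0, 0, 0), (8, 0, 0, 0, 0), (8, 0, 0, 0, 0), (2, 0, 0, 0, 0), (2, 0, 0, 0, 0), (19, 0, 0, 0, 0), (19, 0, 0, 0, 0), (3, 0, 0, 0, 0), (3, 0, 0, 0, 0), (2, 0, 0, 0, 0), (3, 0, 0, 0, 0), (19, 0, 0, 0, 0), (19, 0, 0, 0, 0), (19, 0, 0, 0, 0), (19, 0, 0, 0, 0), (3, 0, 0, 0, 0), (3, 0, 0, 0, 0), (2, 0, 0, 0, 0), (2, 0, 0, 0, 0), (3, 0, 0, 0, 0), (19, 0, 0, 0, 0), (19, 0, 0, 0, 0), (2, 0, 0, 0, 0), (27, 0, 0, 0, 0), (27, 0, 0, 0, 0), (28, 0, 0, 0, 0), (28, 0,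 0, 0, 0), (29, 0, 0, 0, 0), (29, 0, 0, 0, 0), (27, 0, 0, 0, 0), (27, 0, 0, 0, 0), (29, 0, 0, 0, 0), (29, 0, 0, 0, 0), (28, 0, 0, 0, 0), (28, 0, 0, 0, 0), (28, 0, 0, 0, 0), (28, 0, 0, 0, 0), (29, 0, 0, 0, 0), (29, 0, 0, 0, 0), (27, 0, 0, 0, 0), (27, 0, 0, 0, 0), (29, 0, 0, 0, 0), (29, 0, 0, 0, 0), (28, 0, 0, 0, 0), (28, 0, 0, 0, 0), (27, 0, 0, 0, 0), (27, 0, 0, 0, 0), (10, 0, 0, 0, 0), (11, 0, 0, 0, 0), (35, 0, 0, 0, 0), (35, 0, 0, 0, 0), (10, 0, 0, 0, 0), (10, 0, 0, 0, 0), (35, 0, 0, 0, 0), (35, 0, 0, 0, 0), (11, 0, 0, 0, 0), (11, 0, 0, 0, 0), (11, 0, 0, 0, 0), (11, 0, 0, 0, 0), (35, 0, 0, 0, 0), (35, 0, 0, 0, 0), (10, 0, 0, 0, 0), (10, 0, 0, 0, 0), (35, 0, 0, 0, 0), (35, 0, 0, 0, 0), (11, 0, 0, 0, 0), (10, 0, 0, 0, 0), (36, 0, 0, 0, 0), (36, 0, 0, 0, 0), (37, 0, 0, 0, 0), (37,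 0, 0, 0, 0), (38, 0, 0, 0, 0), (38, 0, 0, 0, 0), (36, 0, 0, 0, 0), (36, 0, 0, 0, 0), (38, 0, 0, 0, 0), (38, 0, 0, 0, 0), (37, 0, 0, 0, 0), (37, 0, 0, 0, 0), (37, 0, 0, 0, 0), (37, 0, 0, 0, 0), (38, 0, 0, 0, 0), (38, 0, 0, 0, 0), (36, 0, 0, 0, 0), (36, 0, 0, 0, 0), (38, 0, 0, 0, 0), (38, 0, 0, 0, 0), (37, 0, 0, 0, 0), (37, 0, 0, 0, 0), (36, 0, 0, 0, 0), (36, 0, 0, 0, 0), (12, 0, 0, 0, 0), (39, 0, 0, 0, 0), (39, 0, 0, 0, 0), (13, 0, 0, 0, 0), (12, 0, 0, 0, 0), (12, 0, 0, 0, 0), (13, 0, 0, 0, 0), (13, 0, 0, 0, 0), (39, 0, 0, 0, 0), (39, 0, 0, 0, 0), (39, 0, 0, 0, 0), (39, 0, 0, 0, 0), (13, 0, 0, 0, 0), (12, 0, 0, 0, 0), (13, 0, 0, 0, 0), (13, 0, 0, 0, 0), (39, 0, 0, 0, 0), (39, 0, 0, 0, 0), (12, 0, 0, 0, 0), (12, 0, 0, 0, 0), (20, 0, 0, 0, 0), (20, 0, 0, 0, 0), (21, 0, 0, 0, 0),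 (21, 0, 0, 0, 0), (22, 0, 0, 0, 0), (22, 0, 0, 0, 0), (20, 0, 0, 0, 0), (20, 0, 0, 0, 0), (22, 0, 0, 0, 0), (22, 0, 0, 0, 0), (21, 0, 0, 0, 0), (21, 0, 0, 0, 0), (21, 0, 0, 0, 0), (21, 0, 0, 0, 0), (22, 0, 0, 0, 0), (22, 0, 0, 0, 0), (20, 0, 0, 0, 0), (20, 0, 0, 0, 0), (22, 0, 0, 0, 0), (22, 0, 0, 0, 0), (21, 0, 0, 0, 0), (21, 0, 0, 0, 0), (20, 0, 0, 0, 0), (20, 0, 0, 0, 0), (6, 0, 0, 0, 0), (6, 0, 0, 0, 0), (7, 0, 0, 0, 0), (7, 0, 0, 0, 0), (30, 0, 0, 0, 0), (30, 0, 0, 0, 0), (6, 0, 0, 0, 0), (6, 0, 0, 0, 0), (30, 0, 0, 0, 0), (30, 0, 0, 0, 0), (7, 0, 0, 0, 0), (7, 0, 0, 0, 0), (7, 0, 0, 0, 0), (7, 0, 0, 0, 0), (30, 0, 0, 0, 0), (30, 0, 0, 0, 0), (6, 0, 0, 0, 0), (6, 0, 0, 0, 0), (30, 0, 0, 0, 0), (30, 0, 0, 0, 0), (7, 0, 0, 0, 0), (7, 0, 0, 0, 0), (6, 0, 0, 0, 0), (6, 0, 0,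 0, 0), (10, 0, 0, 0, 0), (10, 0, 0, 0, 0), (11, 0, 0, 0, 0), (11, 0, 0, 0, 0), (35, 0, 0, 0, 0), (35, 0, 0, 0, 0), (10, 0, 0, 0, 0), (10, 0, 0, 0, 0), (35, 0, 0, 0, 0), (35, 0, 0, 0, 0), (11, 0, 0, 0, 0), (11, 0, 0, 0, 0), (11, 0, 0, 0, 0), (11, 0, 0, 0, 0), (35, 0, 0, 0, 0), (35, 0, 0, 0, 0), (10, 0, 0, 0, 0), (10, 0, 0, 0, 0), (35, 0, 0, 0, 0), (35, 0, 0, 0, 0), (11, 0, 0, 0, 0), (11, 0, 0, 0, 0), (10, 0, 0, 0, 0), (10, 0, 0, 0, 0), (14, 0, 0, 0, 0), (14, 0, 0, 0, 0), (15, 0, 0, 0, 0), (15, 0, 0, 0, 0), (40, 0, 0, 0, 0), (40, 0, 0, 0, 0), (14, 0, 0, 0, 0), (14, 0, 0, 0, 0), (40, 0, 0, 0, 0), (40, 0, 0, 0, 0), (15, 0, 0, 0, 0), (15, 0, 0, 0, 0), (15, 0, 0, 0, 0), (15, 0, 0, 0, 0), (40, 0, 0, 0, 0), (40, 0, 0, 0, 0), (14, 0, 0, 0, 0), (14, 0, 0, 0, 0), (40, 0, 0, 0, 0), (40, 0,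 0, 0, 0), (15, 0, 0, 0, 0), (15, 0, 0, 0, 0), (14, 0, 0, 0, 0), (14, 0, 0, 0, 0), (41, 0, 0, 0, 0), (41, 0, 0, 0, 0), (42, 0, 0, 0, 0), (42, 0, 0, 0, 0), (43, 0, 0, 0, 0), (43, 0, 0, 0, 0), (41, 0, 0, 0, 0), (41, 0, 0, 0, 0), (43, 0, 0, 0, 0), (43, 0, 0, 0, 0), (42, 0, 0, 0, 0), (42, 0, 0, 0, 0), (42, 0, 0, 0, 0), (42, 0, 0, 0, 0), (43, 0, 0, 0, 0), (43, 0, 0, 0, 0), (41, 0, 0, 0, 0), (41, 0, 0, 0, 0), (43, 0, 0, 0, 0), (43, 0, 0, 0, 0), (42, 0, 0, 0, 0), (42, 0, 0, 0, 0), (41, 0, 0, 0, 0), (41, 0, 0, 0, 0), (23, 0, 0, 0, 0), (23, 0, 0, 0, 0), (4, 0, 0, 0, 0), (4, 0, 0, 0, 0), (5, 0, 0, 0, 0), (5, 0, 0, 0, 0), (23, 0, 0, 0, 0), (23, 0, 0, 0, 0), (5, 0, 0, 0, 0), (5, 0, 0, 0, 0), (4, 0, 0, 0, 0), (4, 0, 0, 0, 0), (4, 0, 0, 0, 0), (5, 0, 0, 0, 0), (23, 0, 0, 0, 0), (23, 0, 0, 0,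 0), (5, 0, 0, 0, 0), (4, 0, 0, 0, 0), (23, 0, 0, 0, 0), (23, 0, 0, 0, 0), (31, 0, 0, 0, 0), (31, 0, 0, 0, 0), (32, 0, 0, 0, 0), (32, 0, 0, 0, 0), (33, 0, 0, 0, 0), (33, 0, 0, 0, 0), (31, 0, 0, 0, 0), (31, 0, 0, 0, 0), (33, 0, 0, 0, 0), (33, 0, 0, 0, 0), (32, 0, 0, 0, 0), (32, 0, 0, 0, 0), (32, 0, 0, 0, 0), (32, 0, 0, 0, 0), (33, 0, 0, 0, 0), (33, 0, 0, 0, 0), (31, 0, 0, 0, 0), (31, 0, 0, 0, 0), (33, 0, 0, 0, 0), (33, 0, 0, 0, 0), (32, 0, 0, 0, 0), (32, 0, 0, 0, 0), (31, 0, 0, 0, 0), (31, 0, 0, 0, 0), (36, 0, 0, 0, 0), (36, 0, 0, 0, 0), (37, 0, 0, 0, 0), (37, 0, 0, 0, 0), (38, 0, 0, 0, 0), (38, 0, 0, 0, 0), (36, 0, 0, 0, 0), (36, 0, 0, 0, 0), (38, 0, 0, 0, 0), (38, 0, 0, 0, 0), (37, 0, 0, 0, 0), (37, 0, 0, 0, 0), (37, 0, 0, 0, 0), (37, 0, 0, 0, 0), (38, 0, 0, 0, 0), (38, 0, 0,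 0, 0), (36, 0, 0, 0, 0), (36, 0, 0, 0, 0), (38, 0, 0, 0, 0), (38, 0, 0, 0, 0), (37, 0, 0, 0, 0), (37, 0, 0, 0, 0), (36, 0, 0, 0, 0), (36, 0, 0, 0, 0), (14, 0, 0, 0, 0), (15, 0, 0, 0, 0), (40, 0, 0, 0, 0), (40, 0, 0, 0, 0), (14, 0, 0, 0, 0), (14, 0, 0, 0, 0), (40, 0, 0, 0, 0), (40, 0, 0, 0, 0), (15, 0, 0, 0, 0), (15, 0, 0, 0, 0), (15, 0, 0, 0, 0), (15, 0, 0, 0, 0), (40, 0, 0, 0, 0), (40, 0, 0, 0, 0), (14, 0, 0, 0, 0), (14, 0, 0, 0, 0), (40, 0, 0, 0, 0), (40, 0, 0, 0, 0), (15, 0, 0, 0, 0), (14, 0, 0, 0, 0), (16, 0, 0, 0, 0), (17, 0, 0, 0, 0), (44, 0, 0, 0, 0), (44, 0, 0, 0, 0), (16, 0, 0, 0, 0), (16, 0, 0, 0, 0), (44, 0, 0, 0, 0), (44, 0, 0, 0, 0), (17, 0, 0, 0, 0), (17, 0, 0, 0, 0), (17, 0, 0, 0, 0), (17, 0, 0, 0, 0), (44, 0, 0, 0, 0), (44, 0, 0, 0, 0), (16, 0, 0, 0, 0), (16, 0,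 0, 0, 0), (44, 0, 0, 0, 0), (44, 0, 0, 0, 0), (17, 0, 0, 0, 0), (16, 0, 0, 0, 0), (24, 0, 0, 0, 0), (24, 0, 0, 0, 0), (25, 0, 0, 0, 0), (25, 0, 0, 0, 0), (26, 0, 0, 0, 0), (26, 0, 0, 0, 0), (24, 0, 0, 0, 0), (24, 0, 0, 0, 0), (26, 0, 0, 0, 0), (26, 0, 0, 0, 0), (25, 0, 0, 0, 0), (25, 0, 0, 0, 0), (25, 0, 0, 0, 0), (25, 0, 0, 0, 0), (26, 0, 0, 0, 0), (26, 0, 0, 0, 0), (24, 0, 0, 0, 0), (24, 0, 0, 0, 0), (26, 0, 0, 0, 0), (26, 0, 0, 0, 0), (25, 0, 0, 0, 0), (25, 0, 0, 0, 0), (24, 0, 0, 0, 0), (24, 0, 0, 0, 0), (8, 0, 0, 0, 0), (8, 0, 0, 0, 0), (34, 0, 0, 0, 0), (34, 0, 0, 0, 0), (9, 0, 0, 0, 0), (9, 0, 0, 0, 0), (8, 0, 0, 0, 0), (8, 0, 0, 0, 0), (9, 0, 0, 0, 0), (9, 0, 0, 0, 0), (34, 0, 0, 0, 0), (34, 0, 0, 0, 0), (34, 0, 0, 0, 0), (34, 0, 0, 0, 0), (9, 0, 0, 0, 0), (9, 0, 0, 0,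 0), (8, 0, 0, 0, 0), (8, 0, 0, 0, 0), (9, 0, 0, 0, 0), (9, 0, 0, 0, 0), (34, 0, 0, 0, 0), (34, 0, 0, 0, 0), (8, 0, 0, 0, 0), (8, 0, 0, 0, 0), (12, 0, 0, 0, 0), (12, 0, 0, 0, 0), (39, 0, 0, 0, 0), (39, 0, 0, 0, 0), (13, 0, 0, 0, 0), (13, 0, 0, 0, 0), (12, 0, 0, 0, 0), (12, 0, 0, 0, 0), (13, 0, 0, 0, 0), (13, 0, 0, 0, 0), (39, 0, 0, 0, 0), (39, 0, 0, 0, 0), (39, 0, 0, 0, 0), (39, 0, 0, 0, 0), (13, 0, 0, 0, 0), (13, 0, 0, 0, 0), (12, 0, 0, 0, 0), (12, 0, 0, 0, 0), (13, 0, 0, 0, 0), (13, 0, 0, 0, 0), (39, 0, 0, 0, 0), (39, 0, 0, 0, 0), (12, 0, 0, 0, 0), (12, 0, 0, 0, 0), (41, 0, 0, 0, 0), (41, 0, 0, 0, 0), (42, 0, 0, 0, 0), (42, 0, 0, 0, 0), (43, 0, 0, 0, 0), (43, 0, 0, 0, 0), (41, 0, 0, 0, 0), (41, 0, 0, 0, 0), (43, 0, 0, 0, 0), (43, 0, 0, 0, 0), (42, 0, 0, 0, 0), (42, 0, 0, 0, 0),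 (42, 0, 0, 0, 0), (42, 0, 0, 0, 0), (43, 0, 0, 0, 0), (43, 0, 0, 0, 0), (41, 0, 0, 0, 0), (41, 0, 0, 0, 0), (43, 0, 0, 0, 0), (43, 0, 0, 0, 0), (42, 0, 0, 0, 0), (42, 0, 0, 0, 0), (41, 0, 0, 0, 0), (41, 0, 0, 0, 0), (16, 0, 0, 0, 0), (16, 0, 0, 0, 0), (17, 0, 0, 0, 0), (17, 0, 0, 0, 0), (44, 0, 0, 0, 0), (44, 0, 0, 0, 0), (16, 0, 0, 0, 0), (16, 0, 0, 0, 0), (44, 0, 0, 0, 0), (44, 0, 0, 0, 0), (17, 0, 0, 0, 0), (17, 0, 0, 0, 0), (17, 0, 0, 0, 0), (17, 0, 0, 0, 0), (44, 0, 0, 0, 0), (44, 0, 0, 0, 0), (16, 0, 0, 0, 0), (16, 0, 0, 0, 0), (44, 0, 0, 0, 0), (44, 0, 0, 0, 0), (17, 0, 0, 0, 0), (17, 0, 0, 0, 0), (16, 0, 0, 0, 0), (16, 0, 0, 0, 0)]]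

theorem tr10 : trK keys lk10 kl10 = true := by
  decide +kernel

theorem x10_0 : expB 1 6 dg0 dg11 m10_0 (l10_0 ++ z10_0) w10_0 = true := by
  decide +kernel

theorem x10_1 : expB 1 6 dg0 dg11 m10_1 (l10_1 ++ z10_1) w10_1 = true := by
  decide +kernel

theorem t10_0_0 : chkS lk10 1 6 [(1, m10_0)] l10_0
  [(8, 528, 528, 1070130, 3280980), (6, 258, 33, 2428995, 4261170), (6, 258, 33, 5374275, 5309475), (12, 258, 33, 5517840, 5517840), (1, 528, 528, 1070130, 3280980), (9, 288, 288, 1057845, 136020), (9, 288, 288, 79140, 2109765), (7, 258, 33, 5517840, 5517840), (9, 288, 288, 82515, 1245765), (7, 18, 18, 3232800, 3297600), (6, 258, 33, 5391120, 5448720), (5, 528, 528, 1057605, 74580), (9, 288, 288, 1069890, 3219540), (7, 513, 513, 5517840, 5517840), (6, 258, 33, 2441985, 4400385),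 (5, 528, 528, 1070130, 3280980), (12, 513, 513, 5517840, 5517840), (7, 18, 18, 1253445, 82770)]
  [(1, -180), (5, -180), (6, -180), (7, 360), (8, 180), (9, 180), (12, -180)] = true := by
  decide +kernel

theorem t10_0_1 : chkS lk10 1 6 [(1, m10_0)] l10_1
  [(13, 1, 1, 5517840, 5517840), (14, 1, 1, 4534800, 4534800), (15, 1, 1, 5513985, 5513985), (16, 1, 1, 4530945, 4530945), (11, 16, 16, 2118705, 3282180), (10, 16, 16, 2118705, 3282180), (15, 1, 1, 5517840, 5517840), (16, 1, 1, 5517840, 5517840), (11, 16, 16, 148755, 2294805), (10, 16, 16, 152595, 3277845), (13, 1, 1, 5509170, 5509170), (14, 1, 1, 5509170, 5509170), (10, 16, 16, 143700, 1061925), (11, 16, 16, 143700, 1061925), (10, 16, 16, 2102100, 1058100), (11, 16, 16, 2102085, 75060), (2, 16, 16, 1070130, 3280980), (0, 16,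 16, 1070130, 3280980)]
  [(0, -180), (2, 180), (10, -180), (11, 180), (13, -180), (14, 180), (15, 180), (16, -180)] = true := by
  decide +kernel

theorem t10_1_1 : chkS lk10 1 6 [(1, m10_1)] l10_1
  [(3, 0, 0, 5517840, 5517840), (21, 0, 0, 5517840, 5517840), (4, 0, 0, 5517840, 5517840), (20, 0, 0, 2315280, 3294480), (20, 0, 0, 5514000, 5514000), (4, 0, 0, 3298320, 3298320), (4, 0, 0, 5513985, 5513985), (20, 0, 0, 3294465, 2315265), (20, 0, 0, 4534785, 4534785), (4, 0, 0, 2315265, 3294465), (17, 0, 0, 3298320, 3298320), (18, 0, 0, 3280980, 1070130), (18, 0, 0, 5448720, 5391120), (19, 0, 0, 4338960, 2438160), (18, 0, 0, 3490320, 4411920), (19, 0, 0, 3490320, 4411920), (17, 0, 0, 5517840, 5517840), (18, 0, 0, 1061460, 1061460)]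
  [(3, 180), (4, -180), (17, -180), (18, 360), (19, -180), (20, 180), (21, -180)] = true := by
  decide +kernel

section

variable {κ ι : Type*} [Fintype κ] [Fintype ι] [Inhabited κ] [Inhabited ι]

noncomputable def F10_0 (E : Env κ ι) : (Fin 1 → κ) → (Fin 6 → ι) → ℝ := op2 (P0 κ) (P11 ι) (fB E 1 6 m10_0)

noncomputable def F10_1 (E : Env κ ι) : (Fin 1 → κ) → (Fin 6 → ι) → ℝ := op2 (P0 κ) (P11 ι) (fB E 1 6 m10_1)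

def r10_0_0 : List (ℕ × ℤ) := [(1, -180), (5, -180), (6, -180), (7, 360), (8, 180), (9, 180), (12, -180)]

theorem h10_0_0 (E : Env κ ι) : ip (F10_0 E) (F10_0 E) = dotS (ek E lk10) r10_0_0 :=
  op_entryZ E lk10 1 6 _ _ _ _ (pg0 κ) (pg11 ι) m10_0 m10_0 l10_0 z10_0 w10_0 x10_0 (by decide) _ (chkS_sound E lk10 1 6 _ _ _ _ t10_0_0)

def r10_0_1 : List (ℕ × ℤ) := [(0, -180), (2, 180), (10, -180), (11, 180), (13, -180), (14, 180), (15, 180), (16, -180)]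

theorem h10_0_1 (E : Env κ ι) : ip (F10_0 E) (F10_1 E) = dotS (ek E lk10) r10_0_1 :=
  op_entryZ E lk10 1 6 _ _ _ _ (pg0 κ) (pg11 ι) m10_0 m10_1 l10_1 z10_1 w10_1 x10_1 (by decide) _ (chkS_sound E lk10 1 6 _ _ _ _ t10_0_1)

def r10_1_1 : List (ℕ × ℤ) := [(3, 180), (4, -180), (17, -180), (18, 360), (19, -180), (20, 180), (21, -180)]

theorem h10_1_1 (E : Env κ ι) : ip (F10_1 E) (F10_1 E) = dotS (ek E lk10) r10_1_1 :=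
  op_entryZ E lk10 1 6 _ _ _ _ (pg0 κ) (pg11 ι) m10_1 m10_1 l10_1 z10_1 w10_1 x10_1 (by decide) _ (chkS_sound E lk10 1 6 _ _ _ _ t10_1_1)

theorem row10_0 (E : Env κ ι) : RowG (ek E lk10) (F10_0 E) [F10_0 E, F10_1 E] [r10_0_0, r10_0_1] :=
  rowG_cons _ _ _ _ _ _ (h10_0_0 E) (rowG_cons _ _ _ _ _ _ (h10_0_1 E) (rowG_nil _ _))

theorem row10_1 (E : Env κ ι) : RowG (ek E lk10) (F10_1 E) [F10_1 E] [r10_1_1] :=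
  rowG_cons _ _ _ _ _ _ (h10_1_1 E) (rowG_nil _ _)

def tab10 : List (List (List (ℕ × ℤ))) := [[r10_0_0, r10_0_1], [r10_1_1]]

theorem tri10 (E : Env κ ι) : TriG (ek E lk10) [F10_0 E, F10_1 E] tab10 := by
  refine triG_cons _ _ _ _ _ (row10_0 E) ?_
  refine triG_cons _ _ _ _ _ (row10_1 E) ?_
  exact triG_nil _

end

end YMBR
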