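import Pool.Agent.YM.BR.Keys

set_option linter.unusedVariables false
set_option maxRecDepth 100000

open YMEng

namespace YMBR

def dg12 : List (ℤ × ℕ) := [(Int.ofNat 288, 5517840), (Int.ofNat 96, 4534800), (Int.ofNat 96, 5456400), (Int.negSucc 95, 3490320), (Int.negSucc 95, 4411920), (Int.negSucc 287, 3428880), (Int.ofNat 96, 5514000), (Int.ofNat 96, 4530960), (Int.negSucc 95, 5391120), (Int.negSucc 95, 2442000), (Int.ofNat 96, 4346640), (Int.negSucc 95, 2380560), (Int.negSucc 95, 5448720), (Int.ofNat 96, 3482640), (Int.negSucc 287, 5387280), (Int.negSucc 95, 2438160), (Int.ofNat 288, 3298320), (Int.ofNat 96, 2315280), (Int.negSucc 95, 4400400), (Int.negSucc 95, 3417360), (Int.negSucc 95, 4338960), (Int.ofNat 96, 2372880), (Int.ofNat 96, 3294480), (Int.ofNat 96, 2311440), (Int.ofNat 96, 5517600), (Int.ofNat 96, 4534560), (Int.ofNat 96, 5456160), (Int.negSucc 95, 3490080), (Int.negSucc 95, 4411680), (Int.negSucc 95, 3428640), (Int.negSucc 95, 5509920), (Int.negSucc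 95, 4526880), (Int.negSucc 95, 5325600), (Int.ofNat 96, 1393440), (Int.ofNat 96, 4281120), (Int.ofNat 96, 1332000), (Int.ofNat 96, 5444640), (Int.negSucc 95, 3478560), (Int.negSucc 95, 5321760), (Int.ofNat 96, 1389600), (Int.ofNat 96, 3232800), (Int.negSucc 95, 1266720), (Int.ofNat 96, 4396320), (Int.ofNat 96, 3413280), (Int.negSucc 95, 4273440), (Int.negSucc 95, 1324320), (Int.ofNat 96, 3228960), (Int.negSucc 95, 1262880), (Int.negSucc 95, 5513520), (Int.negSucc 95, 4530480), (Int.ofNat 96, 5390640), (Int.ofNat 96, 2441520), (Int.negSucc 95, 4346160), (Int.ofNat 96, 2380080), (Int.negSucc 287, 5509680), (Int.negSucc 95, 4526640), (Int.negSucc 95, 5325360), (Int.ofNat 96, 1393200), (Int.ofNat 96, 4280880), (Int.ofNat 288, 1331760), (Int.ofNat 288, 5379120), (Int.ofNat 96, 2430000), (Int.ofNat 96, 5317680), (Int.negSucc 95, 1385520), (Int.negSucc 95, 2184240), (Int.negSucc 287, 1201200), (Int.ofNat 96, 4330800), (Int.negSucc 95, 2364720), (Int.ofNat 96, 4269360), (Int.ofNat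 96, 1320240), (Int.negSucc 95, 2180400), (Int.negSucc 95, 1197360), (Int.negSucc 95, 5448000), (Int.ofNat 96, 3481920), (Int.negSucc 95, 5386560), (Int.negSucc 95, 2437440), (Int.ofNat 96, 3297600), (Int.ofNat 96, 2314560), (Int.negSucc 95, 5444160), (Int.ofNat 96, 3478080), (Int.ofNat 96, 5321280), (Int.negSucc 95, 1389120), (Int.negSucc 95, 3232320), (Int.ofNat 96, 1266240), (Int.ofNat 96, 5378880), (Int.ofNat 96, 2429760), (Int.ofNat 96, 5317440), (Int.negSucc 95, 1385280), (Int.negSucc 95, 2184000), (Int.negSucc 95, 1200960), (Int.negSucc 95, 3282240), (Int.negSucc 95, 2299200), (Int.negSucc 95, 3220800), (Int.ofNat 96, 1254720), (Int.ofNat 96, 2176320), (Int.ofNat 96, 1193280), (Int.ofNat 96, 4399440), (Int.ofNat 96, 3416400), (Int.ofNat 96, 4338000), (Int.negSucc 95, 2371920), (Int.negSucc 95, 3293520), (Int.negSucc 95, 2310480), (Int.ofNat 96, 4395600), (Int.ofNat 288, 3412560), (Int.negSucc 95, 4272720), (Int.negSucc 287, 1323600), (Int.ofNat 96, 3228240), (Int.negSucc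 95, 1262160), (Int.negSucc 95, 4330320), (Int.ofNat 96, 2364240), (Int.negSucc 95, 4268880), (Int.negSucc 95, 1319760), (Int.ofNat 96, 2179920), (Int.ofNat 96, 1196880), (Int.negSucc 287, 3282000), (Int.negSucc 95, 2298960), (Int.negSucc 95, 3220560), (Int.ofNat 96, 1254480), (Int.ofNat 96, 2176080), (Int.ofNat 288, 1193040), (Int.ofNat 96, 5517825), (Int.ofNat 96, 4534785), (Int.ofNat 96, 5456385), (Int.negSucc 95, 3490305), (Int.negSucc 95, 4411905), (Int.negSucc 95, 3428865), (Int.ofNat 96, 5513985), (Int.ofNat 288, 4530945), (Int.negSucc 95, 5391105), (Int.negSucc 287, 2441985), (Int.ofNat 96, 4346625), (Int.negSucc 95, 2380545), (Int.negSucc 95, 5448705), (Int.ofNat 96, 3482625), (Int.negSucc 95, 5387265), (Int.negSucc 95, 2438145), (Int.ofNat 96, 3298305), (Int.ofNat 96, 2315265), (Int.negSucc 287, 4400385), (Int.negSucc 95, 3417345), (Int.negSucc 95, 4338945), (Int.ofNat 96, 2372865), (Int.ofNat 96, 3294465), (Int.ofNat 288, 2311425), (Int.negSucc 95, 5517345),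 (Int.negSucc 95, 4534305), (Int.negSucc 95, 5455905), (Int.ofNat 96, 3489825), (Int.ofNat 96, 4411425), (Int.ofNat 96, 3428385), (Int.negSucc 95, 5505825), (Int.negSucc 287, 4522785), (Int.ofNat 96, 5260065), (Int.ofNat 288, 344865), (Int.negSucc 95, 4215585), (Int.ofNat 96, 283425), (Int.ofNat 96, 5440545), (Int.negSucc 95, 3474465), (Int.ofNat 96, 5256225), (Int.ofNat 96, 341025), (Int.negSucc 95, 3167265), (Int.negSucc 95, 218145), (Int.ofNat 288, 4392225), (Int.ofNat 96, 3409185), (Int.ofNat 96, 4207905), (Int.negSucc 95, 275745), (Int.negSucc 95, 3163425), (Int.negSucc 287, 214305), (Int.ofNat 96, 5513265), (Int.ofNat 96, 4530225), (Int.negSucc 95, 5390385), (Int.negSucc 95, 2441265), (Int.ofNat 96, 4345905), (Int.negSucc 95, 2379825), (Int.negSucc 95, 5505585), (Int.negSucc 95, 4522545), (Int.ofNat 96, 5259825), (Int.ofNat 96, 344625), (Int.negSucc 95, 4215345), (Int.ofNat 96, 283185), (Int.ofNat 96, 5375025), (Int.ofNat 96, 2425905), (Int.negSucc 95, 5252145),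 (Int.negSucc 95, 336945), (Int.ofNat 96, 2118705), (Int.negSucc 95, 152625), (Int.ofNat 96, 4326705), (Int.negSucc 95, 2360625), (Int.negSucc 95, 4203825), (Int.ofNat 96, 271665), (Int.ofNat 96, 2114865), (Int.negSucc 95, 148785), (Int.ofNat 96, 5447745), (Int.negSucc 95, 3481665), (Int.ofNat 96, 5386305), (Int.ofNat 96, 2437185), (Int.negSucc 95, 3297345), (Int.negSucc 95, 2314305), (Int.negSucc 95, 5440065), (Int.ofNat 96, 3473985), (Int.negSucc 95, 5255745), (Int.negSucc 95, 340545), (Int.ofNat 96, 3166785), (Int.ofNat 96, 217665), (Int.ofNat 96, 5374785), (Int.ofNat 288, 2425665), (Int.negSucc 95, 5251905), (Int.negSucc 287, 336705), (Int.ofNat 96, 2118465), (Int.negSucc 95, 152385), (Int.negSucc 95, 3278145), (Int.negSucc 287, 2295105), (Int.ofNat 96, 3155265), (Int.ofNat 288, 206145), (Int.negSucc 95, 2110785), (Int.ofNat 96, 144705), (Int.negSucc 95, 4399185), (Int.negSucc 95, 3416145), (Int.negSucc 95, 4337745), (Int.ofNat 96, 2371665), (Int.ofNat 96, 3293265),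 (Int.ofNat 96, 2310225), (Int.ofNat 96, 4391505), (Int.ofNat 96, 3408465), (Int.ofNat 96, 4207185), (Int.negSucc 95, 275025), (Int.negSucc 95, 3162705), (Int.negSucc 95, 213585), (Int.negSucc 95, 4326225), (Int.ofNat 96, 2360145), (Int.ofNat 96, 4203345), (Int.negSucc 95, 271185), (Int.negSucc 95, 2114385), (Int.ofNat 96, 148305), (Int.negSucc 95, 3277905), (Int.negSucc 95, 2294865), (Int.ofNat 96, 3155025), (Int.ofNat 96, 205905), (Int.negSucc 95, 2110545), (Int.ofNat 96, 144465), (Int.negSucc 95, 5517570), (Int.negSucc 95, 4534530), (Int.negSucc 95, 5456130), (Int.ofNat 96, 3490050), (Int.ofNat 96, 4411650), (Int.ofNat 96, 3428610), (Int.ofNat 96, 5509890), (Int.ofNat 96, 4526850), (Int.ofNat 96, 5325570), (Int.negSucc 95, 1393410), (Int.negSucc 95, 4281090), (Int.negSucc 95, 1331970), (Int.negSucc 95, 5444610), (Int.ofNat 96, 3478530), (Int.ofNat 96, 5321730), (Int.negSucc 95, 1389570), (Int.negSucc 95, 3232770), (Int.ofNat 96, 1266690), (Int.negSucc 95, 4396290),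 (Int.negSucc 95, 3413250), (Int.ofNat 96, 4273410), (Int.ofNat 96, 1324290), (Int.negSucc 95, 3228930), (Int.ofNat 96, 1262850), (Int.negSucc 287, 5517330), (Int.negSucc 95, 4534290), (Int.negSucc 95, 5455890), (Int.ofNat 96, 3489810), (Int.ofNat 96, 4411410), (Int.ofNat 288, 3428370), (Int.negSucc 95, 5505810), (Int.negSucc 95, 4522770), (Int.ofNat 96, 5260050), (Int.ofNat 96, 344850), (Int.negSucc 95, 4215570), (Int.ofNat 96, 283410), (Int.ofNat 96, 5440530), (Int.negSucc 95, 3474450), (Int.ofNat 288, 5256210), (Int.ofNat 96, 341010), (Int.negSucc 287, 3167250), (Int.negSucc 95, 218130), (Int.ofNat 96, 4392210), (Int.ofNat 96, 3409170), (Int.ofNat 96, 4207890), (Int.negSucc 95, 275730), (Int.negSucc 95, 3163410), (Int.negSucc 95, 214290), (Int.ofNat 288, 5509170), (Int.ofNat 96, 4526130), (Int.ofNat 96, 5324850), (Int.negSucc 95, 1392690), (Int.negSucc 95, 4280370), (Int.negSucc 287, 1331250), (Int.ofNat 96, 5505330), (Int.ofNat 96, 4522290), (Int.negSucc 95, 5259570),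 (Int.negSucc 95, 344370), (Int.ofNat 96, 4215090), (Int.negSucc 95, 282930), (Int.negSucc 95, 5309490), (Int.ofNat 96, 1377330), (Int.negSucc 287, 5248050), (Int.negSucc 95, 332850), (Int.ofNat 288, 1070130), (Int.ofNat 96, 87090), (Int.negSucc 95, 4261170), (Int.negSucc 95, 1312050), (Int.negSucc 95, 4199730), (Int.ofNat 96, 267570), (Int.ofNat 96, 1066290), (Int.ofNat 96, 83250), (Int.ofNat 96, 5443650), (Int.negSucc 95, 3477570), (Int.negSucc 95, 5320770), (Int.ofNat 96, 1388610), (Int.ofNat 96, 3231810), (Int.negSucc 95, 1265730), (Int.ofNat 96, 5439810), (Int.negSucc 95, 3473730), (Int.ofNat 96, 5255490), (Int.ofNat 96, 340290), (Int.negSucc 95, 3166530), (Int.negSucc 95, 217410), (Int.negSucc 95, 5309250), (Int.ofNat 96, 1377090), (Int.negSucc 95, 5247810), (Int.negSucc 95, 332610), (Int.ofNat 96, 1069890), (Int.ofNat 96, 86850), (Int.ofNat 96, 3212610), (Int.negSucc 95, 1246530), (Int.ofNat 96, 3151170), (Int.ofNat 96, 202050), (Int.negSucc 95, 1062210), (Int.negSucc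 95, 79170), (Int.negSucc 95, 4395090), (Int.negSucc 287, 3412050), (Int.ofNat 96, 4272210), (Int.ofNat 288, 1323090), (Int.negSucc 95, 3227730), (Int.ofNat 96, 1261650), (Int.negSucc 95, 4391250), (Int.negSucc 95, 3408210), (Int.negSucc 95, 4206930), (Int.ofNat 96, 274770), (Int.ofNat 96, 3162450), (Int.ofNat 96, 213330), (Int.ofNat 96, 4260690), (Int.ofNat 96, 1311570), (Int.ofNat 96, 4199250), (Int.negSucc 95, 267090), (Int.negSucc 95, 1065810), (Int.negSucc 95, 82770), (Int.ofNat 96, 3212370), (Int.negSucc 95, 1246290), (Int.ofNat 288, 3150930), (Int.ofNat 96, 201810), (Int.negSucc 287, 1061970), (Int.negSucc 95, 78930), (Int.negSucc 95, 5513475), (Int.negSucc 287, 4530435), (Int.ofNat 96, 5390595), (Int.ofNat 288, 2441475), (Int.negSucc 95, 4346115), (Int.ofNat 96, 2380035), (Int.negSucc 95, 5509635), (Int.negSucc 95, 4526595), (Int.negSucc 95, 5325315), (Int.ofNat 96, 1393155), (Int.ofNat 96, 4280835), (Int.ofNat 96, 1331715), (Int.ofNat 96, 5379075), (Int.ofNat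 96, 2429955), (Int.ofNat 96, 5317635), (Int.negSucc 95, 1385475), (Int.negSucc 95, 2184195), (Int.negSucc 95, 1201155), (Int.ofNat 96, 4330755), (Int.negSucc 95, 2364675), (Int.ofNat 288, 4269315), (Int.ofNat 96, 1320195), (Int.negSucc 287, 2180355), (Int.negSucc 95, 1197315), (Int.negSucc 95, 5513235), (Int.negSucc 95, 4530195), (Int.ofNat 96, 5390355), (Int.ofNat 96, 2441235), (Int.negSucc 95, 4345875), (Int.ofNat 96, 2379795), (Int.ofNat 96, 5505555), (Int.ofNat 96, 4522515), (Int.negSucc 95, 5259795), (Int.negSucc 95, 344595), (Int.ofNat 96, 4215315), (Int.negSucc 95, 283155), (Int.negSucc 95, 5374995), (Int.negSucc 95, 2425875), (Int.ofNat 96, 5252115), (Int.ofNat 96, 336915), (Int.negSucc 95, 2118675), (Int.ofNat 96, 152595), (Int.negSucc 95, 4326675), (Int.ofNat 96, 2360595), (Int.ofNat 96, 4203795), (Int.negSucc 95, 271635), (Int.negSucc 95, 2114835), (Int.ofNat 96, 148755), (Int.ofNat 96, 5509155), (Int.ofNat 96, 4526115), (Int.ofNat 96, 5324835), (Int.negSucc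 95, 1392675), (Int.negSucc 95, 4280355), (Int.negSucc 95, 1331235), (Int.ofNat 96, 5505315), (Int.ofNat 288, 4522275), (Int.negSucc 95, 5259555), (Int.negSucc 287, 344355), (Int.ofNat 96, 4215075), (Int.negSucc 95, 282915), (Int.negSucc 95, 5309475), (Int.ofNat 96, 1377315), (Int.negSucc 95, 5248035), (Int.negSucc 95, 332835), (Int.ofNat 96, 1070115), (Int.ofNat 96, 87075), (Int.negSucc 287, 4261155), (Int.negSucc 95, 1312035), (Int.negSucc 95, 4199715), (Int.ofNat 96, 267555), (Int.ofNat 96, 1066275), (Int.ofNat 288, 83235), (Int.negSucc 95, 5378115), (Int.negSucc 95, 2428995), (Int.negSucc 95, 5316675), (Int.ofNat 96, 1384515), (Int.ofNat 96, 2183235), (Int.ofNat 96, 1200195), (Int.negSucc 95, 5374275), (Int.negSucc 287, 2425155), (Int.ofNat 96, 5251395), (Int.ofNat 288, 336195), (Int.negSucc 95, 2117955), (Int.ofNat 96, 151875), (Int.ofNat 96, 5308995), (Int.negSucc 95, 1376835), (Int.ofNat 96, 5247555), (Int.ofNat 96, 332355), (Int.negSucc 95, 1069635), (Int.negSucc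 95, 86595), (Int.ofNat 288, 2164035), (Int.ofNat 96, 1180995), (Int.ofNat 96, 2102595), (Int.negSucc 95, 136515), (Int.negSucc 95, 1058115), (Int.negSucc 287, 75075), (Int.ofNat 96, 4329555), (Int.negSucc 95, 2363475), (Int.ofNat 96, 4268115), (Int.ofNat 96, 1318995), (Int.negSucc 95, 2179155), (Int.negSucc 95, 1196115), (Int.ofNat 96, 4325715), (Int.negSucc 95, 2359635), (Int.negSucc 95, 4202835), (Int.ofNat 96, 270675), (Int.ofNat 96, 2113875), (Int.negSucc 95, 147795), (Int.negSucc 95, 4260435), (Int.negSucc 95, 1311315), (Int.negSucc 95, 4198995), (Int.ofNat 96, 266835), (Int.ofNat 96, 1065555), (Int.ofNat 96, 82515), (Int.ofNat 96, 2163795), (Int.ofNat 96, 1180755), (Int.ofNat 96, 2102355), (Int.negSucc 95, 136275), (Int.negSucc 95, 1057875), (Int.negSucc 95, 74835), (Int.ofNat 96, 5447940), (Int.negSucc 95, 3481860), (Int.ofNat 96, 5386500), (Int.ofNat 96, 2437380), (Int.negSucc 95, 3297540), (Int.negSucc 95, 2314500), (Int.ofNat 96, 5444100), (Int.negSucc 95,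 3478020), (Int.negSucc 95, 5321220), (Int.ofNat 96, 1389060), (Int.ofNat 96, 3232260), (Int.negSucc 95, 1266180), (Int.negSucc 95, 5378820), (Int.negSucc 95, 2429700), (Int.negSucc 95, 5317380), (Int.ofNat 96, 1385220), (Int.ofNat 96, 2183940), (Int.ofNat 96, 1200900), (Int.ofNat 96, 3282180), (Int.ofNat 96, 2299140), (Int.ofNat 96, 3220740), (Int.negSucc 95, 1254660), (Int.negSucc 95, 2176260), (Int.negSucc 95, 1193220), (Int.ofNat 96, 5447700), (Int.negSucc 95, 3481620), (Int.ofNat 288, 5386260), (Int.ofNat 96, 2437140), (Int.negSucc 287, 3297300), (Int.negSucc 95, 2314260), (Int.negSucc 95, 5440020), (Int.ofNat 96, 3473940), (Int.negSucc 287, 5255700), (Int.negSucc 95, 340500), (Int.ofNat 288, 3166740), (Int.ofNat 96, 217620), (Int.ofNat 96, 5374740), (Int.ofNat 96, 2425620), (Int.negSucc 95, 5251860), (Int.negSucc 95, 336660), (Int.ofNat 96, 2118420), (Int.negSucc 95, 152340), (Int.negSucc 95, 3278100), (Int.negSucc 95, 2295060), (Int.ofNat 96, 3155220), (Int.ofNat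 96, 206100), (Int.negSucc 95, 2110740), (Int.ofNat 96, 144660), (Int.negSucc 95, 5443620), (Int.ofNat 96, 3477540), (Int.ofNat 96, 5320740), (Int.negSucc 95, 1388580), (Int.negSucc 95, 3231780), (Int.ofNat 96, 1265700), (Int.negSucc 95, 5439780), (Int.ofNat 96, 3473700), (Int.negSucc 95, 5255460), (Int.negSucc 95, 340260), (Int.ofNat 96, 3166500), (Int.ofNat 96, 217380), (Int.ofNat 96, 5309220), (Int.negSucc 95, 1377060), (Int.ofNat 96, 5247780), (Int.ofNat 96, 332580), (Int.negSucc 95, 1069860), (Int.negSucc 95, 86820), (Int.negSucc 95, 3212580), (Int.ofNat 96, 1246500), (Int.negSucc 95, 3151140), (Int.negSucc 95, 202020), (Int.ofNat 96, 1062180), (Int.ofNat 96, 79140), (Int.negSucc 287, 5378100), (Int.negSucc 95, 2428980), (Int.negSucc 95, 5316660), (Int.ofNat 96, 1384500), (Int.ofNat 96, 2183220), (Int.ofNat 288, 1200180), (Int.negSucc 95, 5374260), (Int.negSucc 95, 2425140), (Int.ofNat 96, 5251380), (Int.ofNat 96, 336180), (Int.negSucc 95, 2117940), (Int.ofNat 96,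 151860), (Int.ofNat 96, 5308980), (Int.negSucc 95, 1376820), (Int.ofNat 288, 5247540), (Int.ofNat 96, 332340), (Int.negSucc 287, 1069620), (Int.negSucc 95, 86580), (Int.ofNat 96, 2164020), (Int.ofNat 96, 1180980), (Int.ofNat 96, 2102580), (Int.negSucc 95, 136500), (Int.negSucc 95, 1058100), (Int.negSucc 95, 75060), (Int.ofNat 288, 3280980), (Int.ofNat 96, 2297940), (Int.ofNat 96, 3219540), (Int.negSucc 95, 1253460), (Int.negSucc 95, 2175060), (Int.negSucc 287, 1192020), (Int.ofNat 96, 3277140), (Int.ofNat 96, 2294100), (Int.negSucc 95, 3154260), (Int.negSucc 95, 205140), (Int.ofNat 96, 2109780), (Int.negSucc 95, 143700), (Int.negSucc 95, 3211860), (Int.ofNat 96, 1245780), (Int.negSucc 287, 3150420), (Int.negSucc 95, 201300), (Int.ofNat 288, 1061460), (Int.ofNat 96, 78420), (Int.negSucc 95, 2163540), (Int.negSucc 95, 1180500), (Int.negSucc 95, 2102100), (Int.ofNat 96, 136020), (Int.ofNat 96, 1057620), (Int.ofNat 96, 74580), (Int.ofNat 288, 4399365), (Int.ofNat 96, 3416325),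 (Int.ofNat 96, 4337925), (Int.negSucc 95, 2371845), (Int.negSucc 95, 3293445), (Int.negSucc 287, 2310405), (Int.ofNat 96, 4395525), (Int.ofNat 96, 3412485), (Int.negSucc 95, 4272645), (Int.negSucc 95, 1323525), (Int.ofNat 96, 3228165), (Int.negSucc 95, 1262085), (Int.negSucc 95, 4330245), (Int.ofNat 96, 2364165), (Int.negSucc 287, 4268805), (Int.negSucc 95, 1319685), (Int.ofNat 288, 2179845), (Int.ofNat 96, 1196805), (Int.negSucc 95, 3281925), (Int.negSucc 95, 2298885), (Int.negSucc 95, 3220485), (Int.ofNat 96, 1254405), (Int.ofNat 96, 2176005), (Int.ofNat 96, 1192965), (Int.ofNat 96, 4399125), (Int.ofNat 96, 3416085), (Int.ofNat 96, 4337685), (Int.negSucc 95, 2371605), (Int.negSucc 95, 3293205), (Int.negSucc 95, 2310165), (Int.negSucc 95, 4391445), (Int.negSucc 95, 3408405), (Int.negSucc 95, 4207125), (Int.ofNat 96, 274965), (Int.ofNat 96, 3162645), (Int.ofNat 96, 213525), (Int.ofNat 96, 4326165), (Int.negSucc 95, 2360085), (Int.negSucc 95, 4203285), (Int.ofNat 96,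 271125), (Int.ofNat 96, 2114325), (Int.negSucc 95, 148245), (Int.ofNat 96, 3277845), (Int.ofNat 96, 2294805), (Int.negSucc 95, 3154965), (Int.negSucc 95, 205845), (Int.ofNat 96, 2110485), (Int.negSucc 95, 144405), (Int.negSucc 95, 4395045), (Int.negSucc 95, 3412005), (Int.ofNat 96, 4272165), (Int.ofNat 96, 1323045), (Int.negSucc 95, 3227685), (Int.ofNat 96, 1261605), (Int.negSucc 287, 4391205), (Int.negSucc 95, 3408165), (Int.negSucc 95, 4206885), (Int.ofNat 96, 274725), (Int.ofNat 96, 3162405), (Int.ofNat 288, 213285), (Int.ofNat 288, 4260645), (Int.ofNat 96, 1311525), (Int.ofNat 96, 4199205), (Int.negSucc 95, 267045), (Int.negSucc 95, 1065765), (Int.negSucc 287, 82725), (Int.ofNat 96, 3212325), (Int.negSucc 95, 1246245), (Int.ofNat 96, 3150885), (Int.ofNat 96, 201765), (Int.negSucc 95, 1061925), (Int.negSucc 95, 78885), (Int.negSucc 95, 4329525), (Int.ofNat 96, 2363445), (Int.negSucc 95, 4268085), (Int.negSucc 95, 1318965), (Int.ofNat 96, 2179125), (Int.ofNat 96,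 1196085), (Int.negSucc 95, 4325685), (Int.ofNat 96, 2359605), (Int.ofNat 96, 4202805), (Int.negSucc 95, 270645), (Int.negSucc 95, 2113845), (Int.ofNat 96, 147765), (Int.ofNat 96, 4260405), (Int.ofNat 96, 1311285), (Int.ofNat 96, 4198965), (Int.negSucc 95, 266805), (Int.negSucc 95, 1065525), (Int.negSucc 95, 82485), (Int.negSucc 95, 2163765), (Int.negSucc 95, 1180725), (Int.negSucc 95, 2102325), (Int.ofNat 96, 136245), (Int.ofNat 96, 1057845), (Int.ofNat 96, 74805), (Int.ofNat 96, 3280965), (Int.ofNat 96, 2297925), (Int.ofNat 96, 3219525), (Int.negSucc 95, 1253445), (Int.negSucc 95, 2175045), (Int.negSucc 95, 1192005), (Int.ofNat 96, 3277125), (Int.ofNat 288, 2294085), (Int.negSucc 95, 3154245), (Int.negSucc 287, 205125), (Int.ofNat 96, 2109765), (Int.negSucc 95, 143685), (Int.negSucc 95, 3211845), (Int.ofNat 96, 1245765), (Int.negSucc 95, 3150405), (Int.negSucc 95, 201285), (Int.ofNat 96, 1061445), (Int.ofNat 96, 78405), (Int.negSucc 287, 2163525), (Int.negSucc 95,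 1180485), (Int.negSucc 95, 2102085), (Int.ofNat 96, 136005), (Int.ofNat 96, 1057605), (Int.ofNat 288, 74565)]

def R12 : GA := [(Int.ofNat 1, 5517825, 5517825), (Int.ofNat 1, 4534785, 4534785), (Int.ofNat 1, 4530945, 4530945), (Int.ofNat 1, 5513985, 5513985), (Int.ofNat 1, 5514000, 5514000), (Int.ofNat 1, 4530960, 4530960), (Int.ofNat 1, 4534800, 4534800), (Int.ofNat 1, 5517840, 5517840)]

def C12 : GA := [(Int.ofNat 1, 5517840, 5517840), (Int.negSucc 0, 3428880, 3428880), (Int.negSucc 0, 5509680, 5509680), (Int.ofNat 1, 1331760, 3412560), (Int.ofNat 1, 3412560, 1331760), (Int.negSucc 0, 1323600, 1323600), (Int.negSucc 0, 5387280, 5387280), (Int.ofNat 1, 3298320, 3298320), (Int.ofNat 1, 5379120, 5379120), (Int.negSucc 0, 1201200, 3282000), (Int.negSucc 0, 3282000, 1201200), (Int.ofNat 1, 1193040, 1193040), (Int.negSucc 0, 5517330, 5517330), (Int.ofNat 1, 3428370, 3428370), (Int.ofNat 1, 5509170, 5509170), (Int.negSucc 0, 1331250, 3412050), (Int.negSucc 0, 3412050, 1331250),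 (Int.ofNat 1, 1323090, 1323090), (Int.ofNat 1, 5256210, 5386260), (Int.negSucc 0, 3167250, 3297300), (Int.negSucc 0, 5248050, 5378100), (Int.ofNat 1, 1070130, 3280980), (Int.ofNat 1, 3150930, 1200180), (Int.negSucc 0, 1061970, 1192020), (Int.ofNat 1, 5386260, 5256210), (Int.negSucc 0, 3297300, 3167250), (Int.negSucc 0, 5378100, 5248050), (Int.ofNat 1, 1200180, 3150930), (Int.ofNat 1, 3280980, 1070130), (Int.negSucc 0, 1192020, 1061970), (Int.negSucc 0, 5255700, 5255700), (Int.ofNat 1, 3166740, 3166740), (Int.ofNat 1, 5247540, 5247540), (Int.negSucc 0, 1069620, 3150420), (Int.negSucc 0, 3150420, 1069620), (Int.ofNat 1, 1061460, 1061460)]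

def gs12 : List (ℤ × ℕ) := [(Int.ofNat 1, 5517825), (Int.ofNat 1, 5514000), (Int.ofNat 1, 4534800)]

def tl12 : List (ℕ × ℕ) := [(0, 0), (2, 0), (1, 0), (2, 0), (0, 0), (2, 0), (1, 0), (2, 0)]

noncomputable def P12 (X : Type*) [Inhabited X] [Fintype X] : ((Fin 6 → X) → ℝ) → (Fin 6 → X) → ℝ :=
  fun f => gaF (b := 6) R12 (gaF C12 f)

theorem gr12 : grpC 6 15 R12 gs12 5517840 tl12 = true := by
  decide +kernel

theorem gy12 : yC 6 15 R12 C12 dg12 = true := by
  decide +kernel

theorem pg12 (X : Type*) [Inhabited X] [Fintype X] : IsOp X (P12 X) dg12 :=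
  isOp_youngC R12 C12 gs12 5517840 tl12 gr12 dg12 gy12

end YMBR
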