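import Pool.Agent.YM.BR.Keys

set_option linter.unusedVariables false
set_option maxRecDepth 100000

open YMEng

namespace YMBR

def dg13 : List (ℤ × ℕ) := [(Int.ofNat 4, 528), (Int.ofNat 2, 288), (Int.ofNat 2, 513), (Int.negSucc 1, 33), (Int.negSucc 1, 258), (Int.negSucc 3, 18)]

def R13 : GA := [(Int.ofNat 1, 513, 513), (Int.ofNat 1, 528, 528)]

def C13 : GA := [(Int.ofNat 1, 528, 528), (Int.negSucc 0, 18, 18)]

def gs13 : List (ℤ × ℕ) := [(Int.ofNat 1, 513)]

def tl13 : List (ℕ × ℕ) := [(0, 0), (0, 0)]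

noncomputable def P13 (X : Type*) [Inhabited X] [Fintype X] : ((Fin 3 → X) → ℝ) → (Fin 3 → X) → ℝ :=
  fun f => gaF (b := 3) R13 (gaF C13 f)

theorem gr13 : grpC 3 5 R13 gs13 528 tl13 = true := by
  decide +kernel

theorem gy13 : yC 3 5 R13 C13 dg13 = true := by
  decide +kernel

theorem pg13 (X : Type*) [Inhabited X] [Fintype X] : IsOp X (P13 X) dg13 :=
  isOp_youngC R13 C13 gs13 528 tl13 gr13 dg13 gy13

def dg14 : List (ℤ × ℕ) := [(Int.ofNat 6, 528), (Int.negSucc 5, 288), (Int.negSucc 5, 513), (Int.ofNat 6, 33), (Int.ofNat 6, 258), (Int.negSucc 5, 18)]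

def R14 : GA := [(Int.ofNat 1, 528, 528)]

def C14 : GA := [(Int.ofNat 1, 528, 528), (Int.negSucc 0, 288, 288), (Int.negSucc 0, 513, 513), (Int.ofNat 1, 33, 258), (Int.ofNat 1, 258, 33), (Int.negSucc 0, 18, 18)]

def gs14 : List (ℤ × ℕ) := [(Int.ofNat 1, 528)]

def tl14 : List (ℕ × ℕ) := [(0, 0)]

noncomputable def P14 (X : Type*) [Inhabited X] [Fintype X] : ((Fin 3 → X) → ℝ) → (Fin 3 → X) → ℝ :=
  fun f => gaF (b := 3) R14 (gaF C14 f)

theorem gr14 : grpC 3 7 R14 gs14 528 tl14 = true := by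
  decide +kernel

theorem gy14 : yC 3 7 R14 C14 dg14 = true := by
  decide +kernel

theorem pg14 (X : Type*) [Inhabited X] [Fintype X] : IsOp X (P14 X) dg14 :=
  isOp_youngC R14 C14 gs14 528 tl14 gr14 dg14 gy14

def dg15 : List (ℤ × ℕ) := [(Int.ofNat 144, 5517840), (Int.negSucc 143, 4534800), (Int.ofNat 48, 5456400), (Int.negSucc 47, 3490320), (Int.negSucc 47, 4411920), (Int.ofNat 48, 3428880), (Int.ofNat 144, 5514000), (Int.negSucc 143, 4530960), (Int.ofNat 48, 5391120), (Int.negSucc 47, 2442000), (Int.negSucc 47, 4346640), (Int.ofNat 48, 2380560), (Int.ofNat 48, 5448720), (Int.negSucc 47, 3482640), (Int.ofNat 48, 5387280), (Int.negSucc 47, 2438160), (Int.negSucc 47, 4400400), (Int.ofNat 48, 3417360), (Int.negSucc 47, 4338960), (Int.ofNat 48, 2372880), (Int.ofNat 144, 5517600), (Int.negSucc 143, 4534560), (Int.ofNat 48, 5456160), (Int.negSucc 47, 3490080), (Int.negSucc 47, 4411680), (Int.ofNat 48, 3428640), (Int.ofNat 144, 5509920), (Int.negSucc 143, 4526880), (Int.ofNat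 48, 5325600), (Int.negSucc 47, 1393440), (Int.negSucc 47, 4281120), (Int.ofNat 48, 1332000), (Int.ofNat 48, 5444640), (Int.negSucc 47, 3478560), (Int.ofNat 48, 5321760), (Int.negSucc 47, 1389600), (Int.negSucc 47, 4396320), (Int.ofNat 48, 3413280), (Int.negSucc 47, 4273440), (Int.ofNat 48, 1324320), (Int.ofNat 144, 5513520), (Int.negSucc 143, 4530480), (Int.ofNat 48, 5390640), (Int.negSucc 47, 2441520), (Int.negSucc 47, 4346160), (Int.ofNat 48, 2380080), (Int.ofNat 144, 5509680), (Int.negSucc 143, 4526640), (Int.ofNat 48, 5325360), (Int.negSucc 47, 1393200), (Int.negSucc 47, 4280880), (Int.ofNat 48, 1331760), (Int.ofNat 48, 5379120), (Int.negSucc 47, 2430000), (Int.ofNat 48, 5317680), (Int.negSucc 47, 1385520), (Int.negSucc 47, 4330800), (Int.ofNat 48, 2364720), (Int.negSucc 47, 4269360), (Int.ofNat 48, 1320240), (Int.ofNat 48, 5448000), (Int.negSucc 47, 3481920), (Int.ofNat 48, 5386560), (Int.negSucc 47, 2437440), (Int.ofNat 48, 5444160), (Int.negSucc 47, 3478080),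 (Int.ofNat 48, 5321280), (Int.negSucc 47, 1389120), (Int.ofNat 48, 5378880), (Int.negSucc 47, 2429760), (Int.ofNat 48, 5317440), (Int.negSucc 47, 1385280), (Int.negSucc 47, 4399440), (Int.ofNat 48, 3416400), (Int.negSucc 47, 4338000), (Int.ofNat 48, 2371920), (Int.negSucc 47, 4395600), (Int.ofNat 48, 3412560), (Int.negSucc 47, 4272720), (Int.ofNat 48, 1323600), (Int.negSucc 47, 4330320), (Int.ofNat 48, 2364240), (Int.negSucc 47, 4268880), (Int.ofNat 48, 1319760), (Int.ofNat 48, 5517825), (Int.negSucc 47, 4534785), (Int.ofNat 48, 5513985), (Int.negSucc 47, 4530945), (Int.ofNat 48, 5517345), (Int.negSucc 47, 4534305), (Int.ofNat 48, 5505825), (Int.negSucc 47, 4522785), (Int.negSucc 47, 5260065), (Int.ofNat 48, 344865), (Int.ofNat 48, 4215585), (Int.negSucc 47, 283425), (Int.negSucc 47, 5256225), (Int.ofNat 48, 341025), (Int.ofNat 48, 4207905), (Int.negSucc 47, 275745), (Int.ofNat 48, 5513265), (Int.negSucc 47, 4530225), (Int.ofNat 48, 5505585), (Int.negSucc 47, 4522545),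 (Int.negSucc 47, 5259825), (Int.ofNat 48, 344625), (Int.ofNat 48, 4215345), (Int.negSucc 47, 283185), (Int.negSucc 47, 5252145), (Int.ofNat 48, 336945), (Int.ofNat 48, 4203825), (Int.negSucc 47, 271665), (Int.negSucc 47, 5255745), (Int.ofNat 48, 340545), (Int.negSucc 47, 5251905), (Int.ofNat 48, 336705), (Int.ofNat 48, 4207185), (Int.negSucc 47, 275025), (Int.ofNat 48, 4203345), (Int.negSucc 47, 271185), (Int.ofNat 48, 5517570), (Int.negSucc 47, 4534530), (Int.ofNat 48, 5509890), (Int.negSucc 47, 4526850), (Int.ofNat 48, 5517330), (Int.negSucc 47, 4534290), (Int.ofNat 48, 5505810), (Int.negSucc 47, 4522770), (Int.negSucc 47, 5260050), (Int.ofNat 48, 344850), (Int.ofNat 48, 4215570), (Int.negSucc 47, 283410), (Int.negSucc 47, 5256210), (Int.ofNat 48, 341010), (Int.ofNat 48, 4207890), (Int.negSucc 47, 275730), (Int.ofNat 48, 5509170), (Int.negSucc 47, 4526130), (Int.ofNat 48, 5505330), (Int.negSucc 47, 4522290), (Int.negSucc 47, 5259570), (Int.ofNat 48, 344370), (Int.ofNat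 48, 4215090), (Int.negSucc 47, 282930), (Int.negSucc 47, 5248050), (Int.ofNat 48, 332850), (Int.ofNat 48, 4199730), (Int.negSucc 47, 267570), (Int.negSucc 47, 5255490), (Int.ofNat 48, 340290), (Int.negSucc 47, 5247810), (Int.ofNat 48, 332610), (Int.ofNat 48, 4206930), (Int.negSucc 47, 274770), (Int.ofNat 48, 4199250), (Int.negSucc 47, 267090), (Int.ofNat 48, 5513475), (Int.negSucc 47, 4530435), (Int.ofNat 48, 5509635), (Int.negSucc 47, 4526595), (Int.ofNat 48, 5513235), (Int.negSucc 47, 4530195), (Int.ofNat 48, 5505555), (Int.negSucc 47, 4522515), (Int.negSucc 47, 5259795), (Int.ofNat 48, 344595), (Int.ofNat 48, 4215315), (Int.negSucc 47, 283155), (Int.negSucc 47, 5252115), (Int.ofNat 48, 336915), (Int.ofNat 48, 4203795), (Int.negSucc 47, 271635), (Int.ofNat 48, 5509155), (Int.negSucc 47, 4526115), (Int.ofNat 48, 5505315), (Int.negSucc 47, 4522275), (Int.negSucc 47, 5259555), (Int.ofNat 48, 344355), (Int.ofNat 48, 4215075), (Int.negSucc 47, 282915), (Int.negSucc 47,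 5248035), (Int.ofNat 48, 332835), (Int.ofNat 48, 4199715), (Int.negSucc 47, 267555), (Int.negSucc 47, 5251395), (Int.ofNat 48, 336195), (Int.negSucc 47, 5247555), (Int.ofNat 48, 332355), (Int.ofNat 48, 4202835), (Int.negSucc 47, 270675), (Int.ofNat 48, 4198995), (Int.negSucc 47, 266835), (Int.negSucc 47, 5447940), (Int.ofNat 48, 3481860), (Int.negSucc 47, 5386500), (Int.ofNat 48, 2437380), (Int.negSucc 47, 5444100), (Int.ofNat 48, 3478020), (Int.negSucc 47, 5321220), (Int.ofNat 48, 1389060), (Int.negSucc 47, 5378820), (Int.ofNat 48, 2429700), (Int.negSucc 47, 5317380), (Int.ofNat 48, 1385220), (Int.negSucc 47, 5447700), (Int.ofNat 48, 3481620), (Int.negSucc 47, 5386260), (Int.ofNat 48, 2437140), (Int.negSucc 47, 5440020), (Int.ofNat 48, 3473940), (Int.negSucc 143, 5255700), (Int.ofNat 144, 340500), (Int.negSucc 47, 3166740), (Int.ofNat 48, 217620), (Int.negSucc 47, 5374740), (Int.ofNat 48, 2425620), (Int.negSucc 143, 5251860), (Int.ofNat 144, 336660), (Int.negSucc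 47, 2118420), (Int.ofNat 48, 152340), (Int.negSucc 47, 3155220), (Int.ofNat 48, 206100), (Int.negSucc 47, 2110740), (Int.ofNat 48, 144660), (Int.negSucc 47, 5443620), (Int.ofNat 48, 3477540), (Int.negSucc 47, 5320740), (Int.ofNat 48, 1388580), (Int.negSucc 47, 5439780), (Int.ofNat 48, 3473700), (Int.negSucc 143, 5255460), (Int.ofNat 144, 340260), (Int.negSucc 47, 3166500), (Int.ofNat 48, 217380), (Int.negSucc 47, 5309220), (Int.ofNat 48, 1377060), (Int.negSucc 143, 5247780), (Int.ofNat 144, 332580), (Int.negSucc 47, 1069860), (Int.ofNat 48, 86820), (Int.negSucc 47, 3151140), (Int.ofNat 48, 202020), (Int.negSucc 47, 1062180), (Int.ofNat 48, 79140), (Int.negSucc 47, 5378100), (Int.ofNat 48, 2428980), (Int.negSucc 47, 5316660), (Int.ofNat 48, 1384500), (Int.negSucc 47, 5374260), (Int.ofNat 48, 2425140), (Int.negSucc 143, 5251380), (Int.ofNat 144, 336180), (Int.negSucc 47, 2117940), (Int.ofNat 48, 151860), (Int.negSucc 47, 5308980), (Int.ofNat 48, 1376820), (Int.negSucc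 143, 5247540), (Int.ofNat 144, 332340), (Int.negSucc 47, 1069620), (Int.ofNat 48, 86580), (Int.negSucc 47, 2102580), (Int.ofNat 48, 136500), (Int.negSucc 47, 1058100), (Int.ofNat 48, 75060), (Int.negSucc 47, 3154260), (Int.ofNat 48, 205140), (Int.negSucc 47, 2109780), (Int.ofNat 48, 143700), (Int.negSucc 47, 3150420), (Int.ofNat 48, 201300), (Int.negSucc 47, 1061460), (Int.ofNat 48, 78420), (Int.negSucc 47, 2102100), (Int.ofNat 48, 136020), (Int.negSucc 47, 1057620), (Int.ofNat 48, 74580), (Int.ofNat 48, 4399365), (Int.negSucc 47, 3416325), (Int.ofNat 48, 4337925), (Int.negSucc 47, 2371845), (Int.ofNat 48, 4395525), (Int.negSucc 47, 3412485), (Int.ofNat 48, 4272645), (Int.negSucc 47, 1323525), (Int.ofNat 48, 4330245), (Int.negSucc 47, 2364165), (Int.ofNat 48, 4268805), (Int.negSucc 47, 1319685), (Int.ofNat 48, 4399125), (Int.negSucc 47, 3416085), (Int.ofNat 48, 4337685), (Int.negSucc 47, 2371605), (Int.ofNat 48, 4391445), (Int.negSucc 47, 3408405), (Int.ofNat 144,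 4207125), (Int.negSucc 143, 274965), (Int.ofNat 48, 3162645), (Int.negSucc 47, 213525), (Int.ofNat 48, 4326165), (Int.negSucc 47, 2360085), (Int.ofNat 144, 4203285), (Int.negSucc 143, 271125), (Int.ofNat 48, 2114325), (Int.negSucc 47, 148245), (Int.ofNat 48, 3154965), (Int.negSucc 47, 205845), (Int.ofNat 48, 2110485), (Int.negSucc 47, 144405), (Int.ofNat 48, 4395045), (Int.negSucc 47, 3412005), (Int.ofNat 48, 4272165), (Int.negSucc 47, 1323045), (Int.ofNat 48, 4391205), (Int.negSucc 47, 3408165), (Int.ofNat 144, 4206885), (Int.negSucc 143, 274725), (Int.ofNat 48, 3162405), (Int.negSucc 47, 213285), (Int.ofNat 48, 4260645), (Int.negSucc 47, 1311525), (Int.ofNat 144, 4199205), (Int.negSucc 143, 267045), (Int.ofNat 48, 1065765), (Int.negSucc 47, 82725), (Int.ofNat 48, 3150885), (Int.negSucc 47, 201765), (Int.ofNat 48, 1061925), (Int.negSucc 47, 78885), (Int.ofNat 48, 4329525), (Int.negSucc 47, 2363445), (Int.ofNat 48, 4268085), (Int.negSucc 47, 1318965), (Int.ofNat 48,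 4325685), (Int.negSucc 47, 2359605), (Int.ofNat 144, 4202805), (Int.negSucc 143, 270645), (Int.ofNat 48, 2113845), (Int.negSucc 47, 147765), (Int.ofNat 48, 4260405), (Int.negSucc 47, 1311285), (Int.ofNat 144, 4198965), (Int.negSucc 143, 266805), (Int.ofNat 48, 1065525), (Int.negSucc 47, 82485), (Int.ofNat 48, 2102325), (Int.negSucc 47, 136245), (Int.ofNat 48, 1057845), (Int.negSucc 47, 74805), (Int.ofNat 48, 3154245), (Int.negSucc 47, 205125), (Int.ofNat 48, 2109765), (Int.negSucc 47, 143685), (Int.ofNat 48, 3150405), (Int.negSucc 47, 201285), (Int.ofNat 48, 1061445), (Int.negSucc 47, 78405), (Int.ofNat 48, 2102085), (Int.negSucc 47, 136005), (Int.ofNat 48, 1057605), (Int.negSucc 47, 74565)]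

def R15 : GA := [(Int.ofNat 1, 5517825, 5517825), (Int.ofNat 1, 5513985, 5513985), (Int.ofNat 1, 5513265, 5509890), (Int.ofNat 1, 5513235, 5505810), (Int.ofNat 1, 5505555, 5505555), (Int.ofNat 1, 5505585, 5509635), (Int.ofNat 1, 5505825, 5513475), (Int.ofNat 1, 5517345, 5517570), (Int.ofNat 1, 5517330, 5517330), (Int.ofNat 1, 5505810, 5513235), (Int.ofNat 1, 5505330, 5509155), (Int.ofNat 1, 5505315, 5505315), (Int.ofNat 1, 5509155, 5505330), (Int.ofNat 1, 5509170, 5509170), (Int.ofNat 1, 5509890, 5513265), (Int.ofNat 1, 5517570, 5517345), (Int.ofNat 1, 5517600, 5517600), (Int.ofNat 1, 5509920, 5513520), (Int.ofNat 1, 5509680, 5509680), (Int.ofNat 1, 5509635, 5505585), (Int.ofNat 1, 5513475, 5505825), (Int.ofNat 1, 5513520, 5509920), (Int.ofNat 1, 5514000, 5514000), (Int.ofNat 1, 5517840, 5517840)]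

def C15 : GA := [(Int.ofNat 1, 5517840, 5517840), (Int.negSucc 0, 4534800, 4534800), (Int.negSucc 0, 5255700, 5255700), (Int.ofNat 1, 340500, 4207125), (Int.ofNat 1, 4207125, 340500), (Int.negSucc 0, 274965, 274965)]

def gs15 : List (ℤ × ℕ) := [(Int.ofNat 1, 5517825), (Int.ofNat 1, 5517600), (Int.ofNat 1, 5514000)]

def tl15 : List (ℕ × ℕ) := [(0, 0), (2, 0), (1, 0), (0, 0), (2, 0), (0, 0), (1, 0), (2, 0), (0, 0), (2, 0), (1, 0), (0, 0), (2, 0), (0, 0), (1, 0), (2, 0), (0, 0), (2, 0), (1, 0), (0, 0), (2, 0), (0, 0), (1, 0), (2, 0)]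

noncomputable def P15 (X : Type*) [Inhabited X] [Fintype X] : ((Fin 6 → X) → ℝ) → (Fin 6 → X) → ℝ :=
  fun f => gaF (b := 6) R15 (gaF C15 f)

theorem gr15 : grpC 6 11 R15 gs15 5517840 tl15 = true := by
  decide +kernel

theorem gy15 : yC 6 11 R15 C15 dg15 = true := by
  decide +kernel

theorem pg15 (X : Type*) [Inhabited X] [Fintype X] : IsOp X (P15 X) dg15 :=
  isOp_youngC R15 C15 gs15 5517840 tl15 gr15 dg15 gy15

def dg16 : List (ℤ × ℕ) := [(Int.ofNat 288, 5517840), (Int.ofNat 144, 4534800), (Int.ofNat 144, 5456400), (Int.ofNat 72, 3490320), (Int.ofNat 72, 4411920), (Int.ofNat 144, 3428880), (Int.ofNat 144, 5514000), (Int.ofNat 72, 4530960), (Int.ofNat 72, 5391120), (Int.negSucc 71, 2442000), (Int.negSucc 71, 4346640), (Int.negSucc 143, 2380560), (Int.ofNat 72, 5448720), (Int.negSucc 71, 3482640), (Int.ofNat 144, 5387280), (Int.negSucc 143, 2438160), (Int.ofNat 72, 3298320), (Int.negSucc 71, 2315280), (Int.negSucc 71, 4400400), (Int.negSucc 143, 3417360), (Int.negSucc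 143, 4338960), (Int.negSucc 287, 2372880), (Int.negSucc 71, 3294480), (Int.negSucc 143, 2311440), (Int.ofNat 144, 5517600), (Int.ofNat 288, 4534560), (Int.ofNat 72, 5456160), (Int.ofNat 144, 3490080), (Int.ofNat 144, 4411680), (Int.ofNat 72, 3428640), (Int.ofNat 72, 5509920), (Int.ofNat 144, 4526880), (Int.negSucc 71, 5325600), (Int.negSucc 143, 1393440), (Int.ofNat 72, 4281120), (Int.negSucc 71, 1332000), (Int.negSucc 71, 5444640), (Int.negSucc 143, 3478560), (Int.negSucc 143, 5321760), (Int.negSucc 287, 1389600), (Int.negSucc 71, 3232800), (Int.negSucc 143, 1266720), (Int.ofNat 72, 4396320), (Int.negSucc 71, 3413280), (Int.ofNat 144, 4273440), (Int.negSucc 143, 1324320), (Int.ofNat 72, 3228960), (Int.negSucc 71, 1262880), (Int.ofNat 72, 5513520), (Int.ofNat 144, 4530480), (Int.negSucc 71, 5390640), (Int.ofNat 72, 2441520), (Int.negSucc 143, 4346160), (Int.negSucc 71, 2380080), (Int.ofNat 144, 5509680), (Int.ofNat 72, 4526640), (Int.negSucc 143, 5325360), (Int.negSucc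 71, 1393200), (Int.negSucc 71, 4280880), (Int.ofNat 72, 1331760), (Int.ofNat 72, 5379120), (Int.negSucc 71, 2430000), (Int.negSucc 71, 5317680), (Int.negSucc 143, 1385520), (Int.ofNat 72, 2184240), (Int.ofNat 144, 1201200), (Int.negSucc 71, 4330800), (Int.negSucc 143, 2364720), (Int.ofNat 72, 4269360), (Int.negSucc 71, 1320240), (Int.ofNat 144, 2180400), (Int.ofNat 72, 1197360), (Int.negSucc 71, 5448000), (Int.ofNat 72, 3481920), (Int.negSucc 143, 5386560), (Int.ofNat 144, 2437440), (Int.negSucc 71, 3297600), (Int.ofNat 72, 2314560), (Int.negSucc 143, 5444160), (Int.negSucc 71, 3478080), (Int.negSucc 287, 5321280), (Int.negSucc 143, 1389120), (Int.negSucc 143, 3232320), (Int.negSucc 71, 1266240), (Int.negSucc 71, 5378880), (Int.ofNat 72, 2429760), (Int.negSucc 143, 5317440), (Int.negSucc 71, 1385280), (Int.ofNat 144, 2184000), (Int.ofNat 72, 1200960), (Int.ofNat 72, 3282240), (Int.ofNat 144, 2299200), (Int.ofNat 144, 3220800), (Int.ofNat 72, 1254720), (Int.ofNat 288,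 2176320), (Int.ofNat 144, 1193280), (Int.negSucc 143, 4399440), (Int.negSucc 71, 3416400), (Int.negSucc 287, 4338000), (Int.negSucc 143, 2371920), (Int.negSucc 143, 3293520), (Int.negSucc 71, 2310480), (Int.negSucc 71, 4395600), (Int.ofNat 72, 3412560), (Int.negSucc 143, 4272720), (Int.ofNat 144, 1323600), (Int.negSucc 71, 3228240), (Int.ofNat 72, 1262160), (Int.negSucc 143, 4330320), (Int.negSucc 71, 2364240), (Int.negSucc 71, 4268880), (Int.ofNat 72, 1319760), (Int.ofNat 72, 2179920), (Int.ofNat 144, 1196880), (Int.ofNat 144, 3282000), (Int.ofNat 72, 2298960), (Int.ofNat 72, 3220560), (Int.ofNat 144, 1254480), (Int.ofNat 144, 2176080), (Int.ofNat 288, 1193040), (Int.ofNat 144, 5517825), (Int.ofNat 72, 4534785), (Int.ofNat 288, 5456385), (Int.ofNat 144, 3490305), (Int.ofNat 144, 4411905), (Int.ofNat 72, 3428865), (Int.ofNat 72, 5513985), (Int.negSucc 71, 4530945), (Int.ofNat 144, 5391105), (Int.negSucc 143, 2441985), (Int.ofNat 72, 4346625), (Int.negSucc 71, 2380545),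 (Int.ofNat 144, 5448705), (Int.ofNat 72, 3482625), (Int.ofNat 72, 5387265), (Int.negSucc 71, 2438145), (Int.negSucc 71, 3298305), (Int.negSucc 143, 2315265), (Int.negSucc 143, 4400385), (Int.negSucc 71, 3417345), (Int.negSucc 71, 4338945), (Int.negSucc 143, 2372865), (Int.negSucc 143, 3294465), (Int.negSucc 287, 2311425), (Int.ofNat 72, 5517345), (Int.ofNat 144, 4534305), (Int.ofNat 144, 5455905), (Int.ofNat 288, 3489825), (Int.ofNat 72, 4411425), (Int.ofNat 144, 3428385), (Int.negSucc 71, 5505825), (Int.negSucc 143, 4522785), (Int.negSucc 143, 5260065), (Int.negSucc 287, 344865), (Int.negSucc 71, 4215585), (Int.negSucc 143, 283425), (Int.ofNat 72, 5440545), (Int.ofNat 144, 3474465), (Int.negSucc 71, 5256225), (Int.negSucc 143, 341025), (Int.ofNat 72, 3167265), (Int.negSucc 71, 218145), (Int.negSucc 71, 4392225), (Int.ofNat 72, 3409185), (Int.ofNat 72, 4207905), (Int.negSucc 71, 275745), (Int.ofNat 144, 3163425), (Int.negSucc 143, 214305), (Int.negSucc 71, 5513265),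 (Int.ofNat 72, 4530225), (Int.negSucc 143, 5390385), (Int.ofNat 144, 2441265), (Int.negSucc 71, 4345905), (Int.ofNat 72, 2379825), (Int.negSucc 143, 5505585), (Int.negSucc 71, 4522545), (Int.negSucc 287, 5259825), (Int.negSucc 143, 344625), (Int.negSucc 143, 4215345), (Int.negSucc 71, 283185), (Int.negSucc 71, 5375025), (Int.ofNat 72, 2425905), (Int.negSucc 143, 5252145), (Int.negSucc 71, 336945), (Int.ofNat 144, 2118705), (Int.ofNat 72, 152625), (Int.ofNat 72, 4326705), (Int.ofNat 144, 2360625), (Int.ofNat 144, 4203825), (Int.ofNat 72, 271665), (Int.ofNat 288, 2114865), (Int.ofNat 144, 148785), (Int.ofNat 72, 5447745), (Int.ofNat 144, 3481665), (Int.negSucc 71, 5386305), (Int.ofNat 72, 2437185), (Int.negSucc 143, 3297345), (Int.negSucc 71, 2314305), (Int.ofNat 144, 5440065), (Int.ofNat 72, 3473985), (Int.negSucc 143, 5255745), (Int.negSucc 71, 340545), (Int.negSucc 71, 3166785), (Int.ofNat 72, 217665), (Int.ofNat 72, 5374785), (Int.negSucc 71, 2425665), (Int.negSucc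 71, 5251905), (Int.negSucc 143, 336705), (Int.ofNat 72, 2118465), (Int.ofNat 144, 152385), (Int.negSucc 71, 3278145), (Int.negSucc 143, 2295105), (Int.ofNat 72, 3155265), (Int.negSucc 71, 206145), (Int.ofNat 144, 2110785), (Int.ofNat 72, 144705), (Int.negSucc 71, 4399185), (Int.negSucc 143, 3416145), (Int.negSucc 143, 4337745), (Int.negSucc 71, 2371665), (Int.negSucc 287, 3293265), (Int.negSucc 143, 2310225), (Int.ofNat 72, 4391505), (Int.negSucc 71, 3408465), (Int.negSucc 71, 4207185), (Int.ofNat 72, 275025), (Int.negSucc 143, 3162705), (Int.ofNat 144, 213585), (Int.ofNat 144, 4326225), (Int.ofNat 72, 2360145), (Int.ofNat 72, 4203345), (Int.ofNat 144, 271185), (Int.ofNat 144, 2114385), (Int.ofNat 288, 148305), (Int.negSucc 143, 3277905), (Int.negSucc 71, 2294865), (Int.negSucc 71, 3155025), (Int.ofNat 72, 205905), (Int.ofNat 72, 2110545), (Int.ofNat 144, 144465), (Int.ofNat 72, 5517570), (Int.ofNat 144, 4534530), (Int.ofNat 144, 5456130), (Int.ofNat 72, 3490050),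 (Int.ofNat 288, 4411650), (Int.ofNat 144, 3428610), (Int.negSucc 71, 5509890), (Int.ofNat 72, 4526850), (Int.ofNat 72, 5325570), (Int.negSucc 71, 1393410), (Int.ofNat 144, 4281090), (Int.negSucc 143, 1331970), (Int.negSucc 143, 5444610), (Int.negSucc 71, 3478530), (Int.negSucc 71, 5321730), (Int.negSucc 143, 1389570), (Int.negSucc 143, 3232770), (Int.negSucc 287, 1266690), (Int.ofNat 144, 4396290), (Int.ofNat 72, 3413250), (Int.ofNat 72, 4273410), (Int.negSucc 71, 1324290), (Int.negSucc 71, 3228930), (Int.negSucc 143, 1262850), (Int.ofNat 144, 5517330), (Int.ofNat 72, 4534290), (Int.ofNat 72, 5455890), (Int.ofNat 144, 3489810), (Int.ofNat 144, 4411410), (Int.ofNat 288, 3428370), (Int.negSucc 143, 5505810), (Int.negSucc 71, 4522770), (Int.negSucc 71, 5260050), (Int.negSucc 143, 344850), (Int.negSucc 143, 4215570), (Int.negSucc 287, 283410), (Int.negSucc 71, 5440530), (Int.ofNat 72, 3474450), (Int.ofNat 72, 5256210), (Int.negSucc 71, 341010), (Int.ofNat 144, 3167250),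 (Int.negSucc 143, 218130), (Int.ofNat 72, 4392210), (Int.ofNat 144, 3409170), (Int.negSucc 71, 4207890), (Int.negSucc 143, 275730), (Int.ofNat 72, 3163410), (Int.negSucc 71, 214290), (Int.ofNat 72, 5509170), (Int.negSucc 71, 4526130), (Int.negSucc 71, 5324850), (Int.ofNat 72, 1392690), (Int.negSucc 143, 4280370), (Int.ofNat 144, 1331250), (Int.negSucc 71, 5505330), (Int.negSucc 143, 4522290), (Int.negSucc 143, 5259570), (Int.negSucc 71, 344370), (Int.negSucc 287, 4215090), (Int.negSucc 143, 282930), (Int.ofNat 72, 5309490), (Int.ofNat 144, 1377330), (Int.ofNat 144, 5248050), (Int.ofNat 72, 332850), (Int.ofNat 288, 1070130), (Int.ofNat 144, 87090), (Int.negSucc 71, 4261170), (Int.ofNat 72, 1312050), (Int.negSucc 143, 4199730), (Int.negSucc 71, 267570), (Int.ofNat 144, 1066290), (Int.ofNat 72, 83250), (Int.negSucc 71, 5443650), (Int.negSucc 143, 3477570), (Int.negSucc 143, 5320770), (Int.negSucc 71, 1388610), (Int.negSucc 287, 3231810), (Int.negSucc 143, 1265730), (Int.ofNat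 72, 5439810), (Int.negSucc 71, 3473730), (Int.negSucc 71, 5255490), (Int.ofNat 72, 340290), (Int.negSucc 143, 3166530), (Int.ofNat 144, 217410), (Int.ofNat 144, 5309250), (Int.ofNat 72, 1377090), (Int.ofNat 72, 5247810), (Int.ofNat 144, 332610), (Int.ofNat 144, 1069890), (Int.ofNat 288, 86850), (Int.negSucc 143, 3212610), (Int.negSucc 71, 1246530), (Int.negSucc 71, 3151170), (Int.ofNat 72, 202050), (Int.ofNat 72, 1062210), (Int.ofNat 144, 79170), (Int.ofNat 72, 4395090), (Int.ofNat 144, 3412050), (Int.negSucc 71, 4272210), (Int.ofNat 72, 1323090), (Int.negSucc 143, 3227730), (Int.negSucc 71, 1261650), (Int.ofNat 144, 4391250), (Int.ofNat 72, 3408210), (Int.negSucc 143, 4206930), (Int.negSucc 71, 274770), (Int.negSucc 71, 3162450), (Int.ofNat 72, 213330), (Int.ofNat 72, 4260690), (Int.negSucc 71, 1311570), (Int.negSucc 71, 4199250), (Int.negSucc 143, 267090), (Int.ofNat 72, 1065810), (Int.ofNat 144, 82770), (Int.negSucc 71, 3212370), (Int.negSucc 143, 1246290), (Int.ofNat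 72, 3150930), (Int.negSucc 71, 201810), (Int.ofNat 144, 1061970), (Int.ofNat 72, 78930), (Int.negSucc 71, 5513475), (Int.negSucc 143, 4530435), (Int.ofNat 72, 5390595), (Int.negSucc 71, 2441475), (Int.ofNat 144, 4346115), (Int.ofNat 72, 2380035), (Int.negSucc 143, 5509635), (Int.negSucc 71, 4526595), (Int.ofNat 144, 5325315), (Int.ofNat 72, 1393155), (Int.ofNat 72, 4280835), (Int.negSucc 71, 1331715), (Int.negSucc 71, 5379075), (Int.ofNat 72, 2429955), (Int.ofNat 72, 5317635), (Int.ofNat 144, 1385475), (Int.negSucc 71, 2184195), (Int.negSucc 143, 1201155), (Int.ofNat 72, 4330755), (Int.ofNat 144, 2364675), (Int.negSucc 71, 4269315), (Int.ofNat 72, 1320195), (Int.negSucc 143, 2180355), (Int.negSucc 71, 1197315), (Int.negSucc 143, 5513235), (Int.negSucc 71, 4530195), (Int.negSucc 71, 5390355), (Int.ofNat 72, 2441235), (Int.ofNat 72, 4345875), (Int.ofNat 144, 2379795), (Int.negSucc 287, 5505555), (Int.negSucc 143, 4522515), (Int.negSucc 143, 5259795), (Int.negSucc 71,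 344595), (Int.negSucc 71, 4215315), (Int.negSucc 143, 283155), (Int.negSucc 143, 5374995), (Int.ofNat 144, 2425875), (Int.negSucc 71, 5252115), (Int.ofNat 72, 336915), (Int.ofNat 72, 2118675), (Int.negSucc 71, 152595), (Int.ofNat 144, 4326675), (Int.ofNat 288, 2360595), (Int.ofNat 72, 4203795), (Int.ofNat 144, 271635), (Int.ofNat 144, 2114835), (Int.ofNat 72, 148755), (Int.negSucc 71, 5509155), (Int.negSucc 143, 4526115), (Int.ofNat 72, 5324835), (Int.ofNat 144, 1392675), (Int.negSucc 71, 4280355), (Int.ofNat 72, 1331235), (Int.negSucc 143, 5505315), (Int.negSucc 287, 4522275), (Int.negSucc 71, 5259555), (Int.negSucc 143, 344355), (Int.negSucc 143, 4215075), (Int.negSucc 71, 282915), (Int.ofNat 144, 5309475), (Int.ofNat 288, 1377315), (Int.ofNat 72, 5248035), (Int.ofNat 144, 332835), (Int.ofNat 144, 1070115), (Int.ofNat 72, 87075), (Int.negSucc 143, 4261155), (Int.ofNat 144, 1312035), (Int.negSucc 71, 4199715), (Int.ofNat 72, 267555), (Int.ofNat 72, 1066275), (Int.negSucc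 71, 83235), (Int.ofNat 72, 5378115), (Int.negSucc 71, 2428995), (Int.ofNat 144, 5316675), (Int.ofNat 72, 1384515), (Int.negSucc 143, 2183235), (Int.negSucc 71, 1200195), (Int.ofNat 144, 5374275), (Int.negSucc 143, 2425155), (Int.ofNat 72, 5251395), (Int.negSucc 71, 336195), (Int.negSucc 71, 2117955), (Int.ofNat 72, 151875), (Int.ofNat 288, 5308995), (Int.ofNat 144, 1376835), (Int.ofNat 144, 5247555), (Int.ofNat 72, 332355), (Int.ofNat 72, 1069635), (Int.ofNat 144, 86595), (Int.negSucc 287, 2164035), (Int.negSucc 143, 1180995), (Int.negSucc 143, 2102595), (Int.negSucc 71, 136515), (Int.negSucc 71, 1058115), (Int.negSucc 143, 75075), (Int.ofNat 144, 4329555), (Int.ofNat 72, 2363475), (Int.ofNat 72, 4268115), (Int.negSucc 71, 1318995), (Int.negSucc 71, 2179155), (Int.negSucc 143, 1196115), (Int.ofNat 288, 4325715), (Int.ofNat 144, 2359635), (Int.ofNat 144, 4202835), (Int.ofNat 72, 270675), (Int.ofNat 72, 2113875), (Int.ofNat 144, 147795), (Int.ofNat 144, 4260435), (Int.negSucc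 143, 1311315), (Int.ofNat 72, 4198995), (Int.negSucc 71, 266835), (Int.negSucc 71, 1065555), (Int.ofNat 72, 82515), (Int.negSucc 143, 2163795), (Int.negSucc 287, 1180755), (Int.negSucc 71, 2102355), (Int.negSucc 143, 136275), (Int.negSucc 143, 1057875), (Int.negSucc 71, 74835), (Int.negSucc 143, 5447940), (Int.negSucc 71, 3481860), (Int.negSucc 71, 5386500), (Int.ofNat 72, 2437380), (Int.ofNat 72, 3297540), (Int.ofNat 144, 2314500), (Int.negSucc 287, 5444100), (Int.negSucc 143, 3478020), (Int.negSucc 143, 5321220), (Int.negSucc 71, 1389060), (Int.negSucc 71, 3232260), (Int.negSucc 143, 1266180), (Int.negSucc 143, 5378820), (Int.ofNat 144, 2429700), (Int.negSucc 71, 5317380), (Int.ofNat 72, 1385220), (Int.ofNat 72, 2183940), (Int.negSucc 71, 1200900), (Int.ofNat 144, 3282180), (Int.ofNat 288, 2299140), (Int.ofNat 72, 3220740), (Int.ofNat 144, 1254660), (Int.ofNat 144, 2176260), (Int.ofNat 72, 1193220), (Int.negSucc 71, 5447700), (Int.negSucc 143, 3481620), (Int.ofNat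 72, 5386260), (Int.negSucc 71, 2437140), (Int.ofNat 144, 3297300), (Int.ofNat 72, 2314260), (Int.negSucc 143, 5440020), (Int.negSucc 71, 3473940), (Int.ofNat 144, 5255700), (Int.ofNat 72, 340500), (Int.ofNat 72, 3166740), (Int.negSucc 71, 217620), (Int.negSucc 71, 5374740), (Int.ofNat 72, 2425620), (Int.ofNat 72, 5251860), (Int.ofNat 144, 336660), (Int.negSucc 71, 2118420), (Int.negSucc 143, 152340), (Int.ofNat 72, 3278100), (Int.ofNat 144, 2295060), (Int.negSucc 71, 3155220), (Int.ofNat 72, 206100), (Int.negSucc 143, 2110740), (Int.negSucc 71, 144660), (Int.negSucc 143, 5443620), (Int.negSucc 287, 3477540), (Int.negSucc 71, 5320740), (Int.negSucc 143, 1388580), (Int.negSucc 143, 3231780), (Int.negSucc 71, 1265700), (Int.negSucc 71, 5439780), (Int.negSucc 143, 3473700), (Int.ofNat 72, 5255460), (Int.ofNat 144, 340260), (Int.negSucc 71, 3166500), (Int.ofNat 72, 217380), (Int.ofNat 72, 5309220), (Int.ofNat 144, 1377060), (Int.ofNat 144, 5247780), (Int.ofNat 288, 332580),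 (Int.ofNat 72, 1069860), (Int.ofNat 144, 86820), (Int.negSucc 71, 3212580), (Int.ofNat 72, 1246500), (Int.negSucc 143, 3151140), (Int.ofNat 144, 202020), (Int.negSucc 71, 1062180), (Int.ofNat 72, 79140), (Int.ofNat 144, 5378100), (Int.negSucc 143, 2428980), (Int.ofNat 72, 5316660), (Int.negSucc 71, 1384500), (Int.negSucc 71, 2183220), (Int.ofNat 72, 1200180), (Int.ofNat 72, 5374260), (Int.negSucc 71, 2425140), (Int.ofNat 144, 5251380), (Int.ofNat 72, 336180), (Int.negSucc 143, 2117940), (Int.negSucc 71, 151860), (Int.ofNat 144, 5308980), (Int.ofNat 72, 1376820), (Int.ofNat 288, 5247540), (Int.ofNat 144, 332340), (Int.ofNat 144, 1069620), (Int.ofNat 72, 86580), (Int.negSucc 143, 2164020), (Int.negSucc 71, 1180980), (Int.negSucc 287, 2102580), (Int.negSucc 143, 136500), (Int.negSucc 143, 1058100), (Int.negSucc 71, 75060), (Int.ofNat 288, 3280980), (Int.ofNat 144, 2297940), (Int.ofNat 144, 3219540), (Int.ofNat 72, 1253460), (Int.ofNat 72, 2175060), (Int.ofNat 144, 1192020),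 (Int.ofNat 144, 3277140), (Int.ofNat 72, 2294100), (Int.ofNat 72, 3154260), (Int.negSucc 71, 205140), (Int.negSucc 71, 2109780), (Int.negSucc 143, 143700), (Int.ofNat 72, 3211860), (Int.negSucc 71, 1245780), (Int.ofNat 144, 3150420), (Int.negSucc 143, 201300), (Int.ofNat 72, 1061460), (Int.negSucc 71, 78420), (Int.negSucc 71, 2163540), (Int.negSucc 143, 1180500), (Int.negSucc 143, 2102100), (Int.negSucc 287, 136020), (Int.negSucc 71, 1057620), (Int.negSucc 143, 74580), (Int.negSucc 287, 4399365), (Int.negSucc 143, 3416325), (Int.negSucc 143, 4337925), (Int.negSucc 71, 2371845), (Int.negSucc 71, 3293445), (Int.negSucc 143, 2310405), (Int.negSucc 143, 4395525), (Int.negSucc 71, 3412485), (Int.negSucc 71, 4272645), (Int.ofNat 72, 1323525), (Int.ofNat 72, 3228165), (Int.ofNat 144, 1262085), (Int.negSucc 71, 4330245), (Int.ofNat 72, 2364165), (Int.negSucc 143, 4268805), (Int.ofNat 144, 1319685), (Int.negSucc 71, 2179845), (Int.ofNat 72, 1196805), (Int.ofNat 72, 3281925),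 (Int.ofNat 144, 2298885), (Int.ofNat 144, 3220485), (Int.ofNat 288, 1254405), (Int.ofNat 72, 2176005), (Int.ofNat 144, 1192965), (Int.negSucc 143, 4399125), (Int.negSucc 287, 3416085), (Int.negSucc 71, 4337685), (Int.negSucc 143, 2371605), (Int.negSucc 143, 3293205), (Int.negSucc 71, 2310165), (Int.negSucc 71, 4391445), (Int.negSucc 143, 3408405), (Int.ofNat 72, 4207125), (Int.ofNat 144, 274965), (Int.negSucc 71, 3162645), (Int.ofNat 72, 213525), (Int.ofNat 72, 4326165), (Int.ofNat 144, 2360085), (Int.ofNat 144, 4203285), (Int.ofNat 288, 271125), (Int.ofNat 72, 2114325), (Int.ofNat 144, 148245), (Int.negSucc 71, 3277845), (Int.ofNat 72, 2294805), (Int.negSucc 143, 3154965), (Int.ofNat 144, 205845), (Int.negSucc 71, 2110485), (Int.ofNat 72, 144405), (Int.negSucc 71, 4395045), (Int.negSucc 143, 3412005), (Int.ofNat 72, 4272165), (Int.negSucc 71, 1323045), (Int.ofNat 144, 3227685), (Int.ofNat 72, 1261605), (Int.negSucc 143, 4391205), (Int.negSucc 71, 3408165), (Int.ofNat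 144, 4206885), (Int.ofNat 72, 274725), (Int.ofNat 72, 3162405), (Int.negSucc 71, 213285), (Int.negSucc 71, 4260645), (Int.ofNat 72, 1311525), (Int.ofNat 72, 4199205), (Int.ofNat 144, 267045), (Int.negSucc 71, 1065765), (Int.negSucc 143, 82725), (Int.ofNat 72, 3212325), (Int.ofNat 144, 1246245), (Int.negSucc 71, 3150885), (Int.ofNat 72, 201765), (Int.negSucc 143, 1061925), (Int.negSucc 71, 78885), (Int.ofNat 72, 4329525), (Int.negSucc 71, 2363445), (Int.ofNat 144, 4268085), (Int.negSucc 143, 1318965), (Int.ofNat 72, 2179125), (Int.negSucc 71, 1196085), (Int.ofNat 144, 4325685), (Int.ofNat 72, 2359605), (Int.ofNat 288, 4202805), (Int.ofNat 144, 270645), (Int.ofNat 144, 2113845), (Int.ofNat 72, 147765), (Int.ofNat 72, 4260405), (Int.negSucc 71, 1311285), (Int.ofNat 144, 4198965), (Int.ofNat 72, 266805), (Int.negSucc 143, 1065525), (Int.negSucc 71, 82485), (Int.negSucc 71, 2163765), (Int.negSucc 143, 1180725), (Int.negSucc 143, 2102325), (Int.negSucc 71, 136245), (Int.negSucc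 287, 1057845), (Int.negSucc 143, 74805), (Int.ofNat 144, 3280965), (Int.ofNat 72, 2297925), (Int.ofNat 288, 3219525), (Int.ofNat 144, 1253445), (Int.ofNat 144, 2175045), (Int.ofNat 72, 1192005), (Int.ofNat 72, 3277125), (Int.negSucc 71, 2294085), (Int.ofNat 144, 3154245), (Int.negSucc 143, 205125), (Int.ofNat 72, 2109765), (Int.negSucc 71, 143685), (Int.ofNat 144, 3211845), (Int.ofNat 72, 1245765), (Int.ofNat 72, 3150405), (Int.negSucc 71, 201285), (Int.negSucc 71, 1061445), (Int.negSucc 143, 78405), (Int.negSucc 143, 2163525), (Int.negSucc 71, 1180485), (Int.negSucc 71, 2102085), (Int.negSucc 143, 136005), (Int.negSucc 143, 1057605), (Int.negSucc 287, 74565)]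

def R16 : GA := [(Int.ofNat 1, 5517825, 5517825), (Int.ofNat 1, 4534785, 4534785), (Int.ofNat 1, 4411905, 3490305), (Int.ofNat 1, 3428865, 3428865), (Int.ofNat 1, 3490305, 4411905), (Int.ofNat 1, 5456385, 5456385), (Int.ofNat 1, 5455905, 5456130), (Int.ofNat 1, 3489825, 4411650), (Int.ofNat 1, 3428385, 3428610), (Int.ofNat 1, 4411425, 3490050), (Int.ofNat 1, 4534305, 4534530), (Int.ofNat 1, 5517345, 5517570), (Int.ofNat 1, 5517330, 5517330), (Int.ofNat 1, 4534290, 4534290), (Int.ofNat 1, 4411410, 3489810), (Int.ofNat 1, 3428370, 3428370), (Int.ofNat 1, 3489810, 4411410), (Int.ofNat 1, 5455890, 5455890), (Int.ofNat 1, 5456130, 5455905), (Int.ofNat 1, 3490050, 4411425), (Int.ofNat 1, 3428610, 3428385), (Int.ofNat 1, 4411650, 3489825), (Int.ofNat 1, 4534530, 4534305), (Int.ofNat 1, 5517570, 5517345), (Int.ofNat 1, 5517600, 5517600), (Int.ofNat 1, 4534560, 4534560), (Int.ofNat 1, 4411680, 3490080), (Int.ofNat 1, 3428640, 3428640), (Int.ofNat 1, 3490080, 4411680), (Int.ofNat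 1, 5456160, 5456160), (Int.ofNat 1, 5456400, 5456400), (Int.ofNat 1, 3490320, 4411920), (Int.ofNat 1, 3428880, 3428880), (Int.ofNat 1, 4411920, 3490320), (Int.ofNat 1, 4534800, 4534800), (Int.ofNat 1, 5517840, 5517840)]

def C16 : GA := [(Int.ofNat 1, 5517840, 5517840), (Int.negSucc 0, 2372880, 2372880), (Int.negSucc 0, 5321280, 5321280), (Int.ofNat 1, 2176320, 2176320), (Int.negSucc 0, 5505555, 5505555), (Int.ofNat 1, 2360595, 2360595), (Int.ofNat 1, 5308995, 5308995), (Int.negSucc 0, 2164035, 2164035)]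

def gs16 : List (ℤ × ℕ) := [(Int.ofNat 1, 5517825), (Int.ofNat 1, 5517600), (Int.ofNat 1, 5456400), (Int.ofNat 1, 4534800)]

def tl16 : List (ℕ × ℕ) := [(0, 0), (3, 0), (2, 0), (3, 0), (2, 0), (3, 0), (1, 0), (3, 0), (2, 0), (3, 0), (2, 0), (3, 0), (0, 0), (3, 0), (2, 0), (3, 0), (2, 0), (3, 0), (1, 0), (3, 0), (2, 0), (3, 0), (2, 0), (3, 0), (0, 0), (3, 0), (2, 0), (3, 0), (2, 0), (3, 0), (1, 0), (3, 0), (2, 0), (3, 0), (2, 0), (3, 0)]

noncomputable def P16 (X : Type*) [Inhabited X] [Fintype X] : ((Fin 6 → X) → ℝ) → (Fin 6 → X) → ℝ :=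
  fun f => gaF (b := 6) R16 (gaF C16 f)

theorem gr16 : grpC 6 13 R16 gs16 5517840 tl16 = true := by
  decide +kernel

theorem gy16 : yC 6 13 R16 C16 dg16 = true := by
  decide +kernel

theorem pg16 (X : Type*) [Inhabited X] [Fintype X] : IsOp X (P16 X) dg16 :=
  isOp_youngC R16 C16 gs16 5517840 tl16 gr16 dg16 gy16

end YMBR
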