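import Pool.Agent.YM.BR.Ga0
import Pool.Agent.YM.BR.Ga1
import Pool.Agent.YM.BR.Ga2
import Pool.Agent.YM.BR.Ga3

set_option linter.unusedVariables false
set_option maxRecDepth 100000

open YMEng

namespace YMBR

def lk11 : List Key := [
  (2, 6, [(0, [0], [0, 1]), (0, [0], [0, 1]), (0, [1], [2, 3]), (0, [1], [4, 5]), (1, [], [2, 4]), (1, [], [3, 5])]),
  (3, 6, [(0, [0], [0, 1]), (0, [0], [0, 1]), (0, [1], [2, 3]), (0, [1], [4, 5]), (0, [2], [2, 4]), (0, [2], [3, 5])]),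
  (2, 6, [(0, [0], [0, 1]), (0, [0], [0, 1]), (0, [1], [2, 3]), (0, [1], [4, 5]), (1, [], [4, 5]), (1, [], [2, 3])]),
  (1, 6, [(0, [0], [0, 1]), (0, [0], [0, 1]), (1, [], [2, 3]), (1, [], [2, 3]), (1, [], [4, 5]), (1, [], [4, 5])]),
  (1, 6, [(0, [0], [0, 1]), (0, [0], [0, 2]), (1, [], [2, 3]), (1, [], [1, 3]), (1, [], [4, 5]), (1, [], [4, 5])]),
  (3, 6, [(0, [0], [0, 1]), (0, [1], [2, 3]), (0, [1], [4, 5]), (0, [0], [2, 4]), (0, [2], [0, 5]), (0, [2], [1, 3])]),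
  (3, 6, [(0, [0], [0, 1]), (0, [1], [0, 2]), (0, [1], [3, 4]), (0, [0], [3, 4]), (0, [2], [2, 5]), (0, [2], [1, 5])]),
  (3, 6, [(0, [0], [0, 1]), (0, [0], [2, 3]), (0, [1], [0, 2]), (0, [2], [1, 3]), (0, [2], [4, 5]), (0, [1], [4, 5])]),
  (3, 6, [(0, [0], [0, 1]), (0, [0], [0, 1]), (0, [1], [2, 3]), (0, [2], [4, 5]), (0, [1], [4, 5]), (0, [2], [2, 3])]),
  (3, 6, [(0, [0], [0, 1]), (0, [0], [2, 0]), (0, [1], [3, 1]), (0, [2], [2, 4]), (0, [2], [3, 5]), (0, [1], [4, 5])]),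
  (2, 6, [(0, [0], [0, 1]), (0, [0], [2, 0]), (0, [1], [3, 1]), (0, [1], [4, 5]), (1, [], [4, 5]), (1, [], [2, 3])]),
  (2, 6, [(0, [0], [0, 1]), (0, [0], [2, 0]), (0, [1], [3, 1]), (0, [1], [4, 5]), (1, [], [2, 4]), (1, [], [3, 5])]),
  (3, 6, [(0, [0], [0, 1]), (0, [0], [2, 3]), (0, [1], [0, 1]), (0, [2], [4, 5]), (0, [2], [2, 3]), (0, [1], [4, 5])]),
  (2, 6, [(0, [0], [0, 1]), (0, [0], [2, 3]), (0, [1], [0, 1]), (0, [1], [4, 5]), (1, [], [4, 5]), (1, [], [2, 3])]),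
  (2, 6, [(0, [0], [0, 1]), (0, [0], [2, 3]), (0, [1], [0, 1]), (0, [1], [4, 5]), (1, [], [2, 4]), (1, [], [3, 5])]),
  (2, 6, [(0, [0], [0, 1]), (0, [0], [2, 3]), (0, [1], [1, 3]), (0, [1], [4, 5]), (1, [], [4, 5]), (1, [], [0, 2])]),
  (2, 6, [(0, [0], [0, 1]), (0, [0], [2, 3]), (0, [1], [1, 3]), (0, [1], [4, 5]), (1, [], [0, 4]), (1, [], [2, 5])]),
  (1, 6, [(0, [0], [0, 1]), (1, [], [0, 1]), (1, [], [2, 3]), (0, [0], [4, 5]), (1, [], [4, 5]), (1, [], [2, 3])]),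
  (1, 6, [(0, [0], [0, 1]), (1, [], [0, 1]), (1, [], [2, 3]), (0, [0], [4, 5]), (1, [], [2, 4]), (1, [], [3, 5])]),
  (1, 6, [(0, [0], [0, 1]), (1, [], [2, 0]), (1, [], [3, 1]), (0, [0], [4, 5]), (1, [], [2, 4]), (1, [], [3, 5])]),
  (1, 6, [(0, [0], [0, 1]), (1, [], [1, 2]), (1, [], [3, 2]), (0, [0], [0, 4]), (1, [], [4, 5]), (1, [], [3, 5])]),
  (1, 6, [(0, [0], [0, 1]), (1, [], [2, 3]), (1, [], [4, 3]), (0, [0], [0, 1]), (1, [], [2, 5]), (1, [], [4, 5])])]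

def kl11 : List ℕ := [11, 13, 14, 15, 17, 24, 25, 26, 30, 39, 40, 41, 45, 46, 47, 50, 51, 53, 54, 55, 58, 67]

def m11_0 : Base := (1, 0, [(0, [1], [0, 1]), (0, [1], [2, 3]), (0, [0], [4, 5])])

def l11_0 : Cov := [(2304, 1, 0, [(0, [1], [0, 1]), (0, [1], [2, 3]), (0, [0], [4, 5])]),
  (-2304, 1, 0, [(0, [1], [0, 1]), (0, [1], [2, 5]), (0, [0], [3, 4])]),
  (-2304, 1, 0, [(0, [1], [0, 1]), (0, [1], [3, 4]), (0, [0], [2, 5])]),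
  (2304, 1, 0, [(0, [1], [0, 1]), (0, [1], [4, 5]), (0, [0], [2, 3])]),
  (-2304, 1, 0, [(0, [1], [0, 3]), (0, [1], [1, 2]), (0, [0], [4, 5])]),
  (2304, 1, 0, [(0, [1], [0, 3]), (0, [1], [1, 4]), (0, [0], [2, 5])]),
  (2304, 1, 0, [(0, [1], [0, 3]), (0, [1], [2, 5]), (0, [0], [1, 4])]),
  (-2304, 1, 0, [(0, [1], [0, 3]), (0, [1], [4, 5]), (0, [0], [1, 2])]),
  (2304, 1, 0, [(0, [1], [0, 5]), (0, [1], [1, 2]), (0, [0], [3, 4])]),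
  (-2304, 1, 0, [(0, [1], [0, 5]), (0, [1], [1, 4]), (0, [0], [2, 3])]),
  (-2304, 1, 0, [(0, [1], [0, 5]), (0, [1], [2, 3]), (0, [0], [1, 4])]),
  (2304, 1, 0, [(0, [1], [0, 5]), (0, [1], [3, 4]), (0, [0], [1, 2])]),
  (2304, 1, 0, [(0, [1], [1, 2]), (0, [1], [3, 4]), (0, [0], [0, 5])]),
  (-2304, 1, 0, [(0, [1], [1, 2]), (0, [1], [4, 5]), (0, [0], [0, 3])]),
  (-2304, 1, 0, [(0, [1], [1, 4]), (0, [1], [2, 3]), (0, [0], [0, 5])]),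
  (2304, 1, 0, [(0, [1], [1, 4]), (0, [1], [2, 5]), (0, [0], [0, 3])]),
  (2304, 1, 0, [(0, [1], [2, 3]), (0, [1], [4, 5]), (0, [0], [0, 1])]),
  (-2304, 1, 0, [(0, [1], [2, 5]), (0, [1], [3, 4]), (0, [0], [0, 1])])]

def z11_0 : Cov := [(0, 1, 0, [(0, [1], [0, 1]), (0, [1], [2, 4]), (0, [0], [3, 5])]),
  (0, 1, 0, [(0, [1], [0, 1]), (0, [1], [3, 5]), (0, [0], [2, 4])]),
  (0, 1, 0, [(0, [1], [0, 2]), (0, [1], [1, 3]), (0, [0], [4, 5])]),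
  (0, 1, 0, [(0, [1], [0, 2]), (0, [1], [1, 4]), (0, [0], [3, 5])]),
  (0, 1, 0, [(0, [1], [0, 2]), (0, [1], [1, 5]), (0, [0], [3, 4])]),
  (0, 1, 0, [(0, [1], [0, 2]), (0, [1], [3, 4]), (0, [0], [1, 5])]),
  (0, 1, 0, [(0, [1], [0, 2]), (0, [1], [3, 5]), (0, [0], [1, 4])]),
  (0, 1, 0, [(0, [1], [0, 2]), (0, [1], [4, 5]), (0, [0], [1, 3])]),
  (0, 1, 0, [(0, [1], [0, 3]), (0, [1], [1, 5]), (0, [0], [2, 4])]),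
  (0, 1, 0, [(0, [1], [0, 3]), (0, [1], [2, 4]), (0, [0], [1, 5])]),
  (0, 1, 0, [(0, [1], [0, 4]), (0, [1], [1, 2]), (0, [0], [3, 5])]),
  (0, 1, 0, [(0, [1], [0, 4]), (0, [1], [1, 3]), (0, [0], [2, 5])]),
  (0, 1, 0, [(0, [1], [0, 4]), (0, [1], [1, 5]), (0, [0], [2, 3])]),
  (0, 1, 0, [(0, [1], [0, 4]), (0, [1], [2, 3]), (0, [0], [1, 5])]),
  (0, 1, 0, [(0, [1], [0, 4]), (0, [1], [2, 5]), (0, [0], [1, 3])]),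
  (0, 1, 0, [(0, [1], [0, 4]), (0, [1], [3, 5]), (0, [0], [1, 2])]),
  (0, 1, 0, [(0, [1], [0, 5]), (0, [1], [1, 3]), (0, [0], [2, 4])]),
  (0, 1, 0, [(0, [1], [0, 5]), (0, [1], [2, 4]), (0, [0], [1, 3])]),
  (0, 1, 0, [(0, [1], [1, 2]), (0, [1], [3, 5]), (0, [0], [0, 4])]),
  (0, 1, 0, [(0, [1], [1, 3]), (0, [1], [2, 4]), (0, [0], [0, 5])]),
  (0, 1, 0, [(0, [1], [1, 3]), (0, [1], [2, 5]), (0, [0], [0, 4])]),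
  (0, 1, 0, [(0, [1], [1, 3]), (0, [1], [4, 5]), (0, [0], [0, 2])]),
  (0, 1, 0, [(0, [1], [1, 4]), (0, [1], [3, 5]), (0, [0], [0, 2])]),
  (0, 1, 0, [(0, [1], [1, 5]), (0, [1], [2, 3]), (0, [0], [0, 4])]),
  (0, 1, 0, [(0, [1], [1, 5]), (0, [1], [2, 4]), (0, [0], [0, 3])]),
  (0, 1, 0, [(0, [1], [1, 5]), (0, [1], [3, 4]), (0, [0], [0, 2])]),
  (0, 1, 0, [(0, [1], [2, 4]), (0, [1], [3, 5]), (0, [0], [0, 1])])]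

def w11_0 : List (List Wit) := [[(0, 0, 0, 0, 0), (0, 0, 0, 0, 0), (18, 0, 0, 0, 0), (18, 0, 0, 0, 0), (1, 0, 0, 0, 0), (1, 0, 0, 0, 0), (0, 0, 0, 0, 0), (0, 0, 0, 0, 0), (2, 0, 0, 0, 0), (2, 0, 0, 0, 0), (19, 0, 0, 0, 0), (19, 0, 0, 0, 0), (18, 0, 0, 0, 0), (18, 0, 0, 0, 0), (2, 0, 0, 0, 0), (2, 0, 0, 0, 0), (3, 0, 0, 0, 0), (3, 0, 0, 0, 0), (1, 0, 0, 0, 0), (1, 0, 0, 0, 0), (19, 0, 0, 0, 0), (19, 0, 0, 0, 0), (3, 0, 0, 0, 0), (3, 0, 0, 0, 0), (20, 0, 0, 0, 0), (20, 0, 0, 0, 0), (21, 0, 0, 0, 0), (21, 0, 0, 0, 0), (22, 0, 0, 0, 0), (22, 0, 0, 0, 0), (20, 0, 0, 0, 0), (20, 0, 0, 0, 0), (23, 0, 0, 0, 0), (23, 0, 0, 0, 0), (24, 0, 0, 0, 0), (24, 0, 0, 0, 0), (21, 0, 0, 0, 0), (21, 0, 0, 0, 0), (23, 0, 0, 0, 0), (23, 0, 0, 0, 0), (25, 0, 0, 0, 0), (25,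 0, 0, 0, 0), (22, 0, 0, 0, 0), (22, 0, 0, 0, 0), (24, 0, 0, 0, 0), (24, 0, 0, 0, 0), (25, 0, 0, 0, 0), (25, 0, 0, 0, 0), (4, 0, 0, 0, 0), (4, 0, 0, 0, 0), (5, 0, 0, 0, 0), (5, 0, 0, 0, 0), (26, 0, 0, 0, 0), (26, 0, 0, 0, 0), (4, 0, 0, 0, 0), (4, 0, 0, 0, 0), (27, 0, 0, 0, 0), (27, 0, 0, 0, 0), (6, 0, 0, 0, 0), (6, 0, 0, 0, 0), (5, 0, 0, 0, 0), (5, 0, 0, 0, 0), (27, 0, 0, 0, 0), (27, 0, 0, 0, 0), (7, 0, 0, 0, 0), (7, 0, 0, 0, 0), (26, 0, 0, 0, 0), (26, 0, 0, 0, 0), (6, 0, 0, 0, 0), (6, 0, 0, 0, 0), (7, 0, 0, 0, 0), (7, 0, 0, 0, 0), (28, 0, 0, 0, 0), (28, 0, 0, 0, 0), (29, 0, 0, 0, 0), (29, 0, 0, 0, 0), (30, 0, 0, 0, 0), (30, 0, 0, 0, 0), (28, 0, 0, 0, 0), (28, 0, 0, 0, 0), (31, 0, 0, 0, 0), (31, 0, 0, 0, 0), (32, 0, 0, 0, 0), (32, 0, 0, 0, 0), (29, 0,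 0, 0, 0), (29, 0, 0, 0, 0), (31, 0, 0, 0, 0), (31, 0, 0, 0, 0), (33, 0, 0, 0, 0), (33, 0, 0, 0, 0), (30, 0, 0, 0, 0), (30, 0, 0, 0, 0), (32, 0, 0, 0, 0), (32, 0, 0, 0, 0), (33, 0, 0, 0, 0), (33, 0, 0, 0, 0), (8, 0, 0, 0, 0), (8, 0, 0, 0, 0), (34, 0, 0, 0, 0), (34, 0, 0, 0, 0), (9, 0, 0, 0, 0), (9, 0, 0, 0, 0), (8, 0, 0, 0, 0), (8, 0, 0, 0, 0), (10, 0, 0, 0, 0), (10, 0, 0, 0, 0), (35, 0, 0, 0, 0), (35, 0, 0, 0, 0), (34, 0, 0, 0, 0), (34, 0, 0, 0, 0), (10, 0, 0, 0, 0), (10, 0, 0, 0, 0), (11, 0, 0, 0, 0), (11, 0, 0, 0, 0), (9, 0, 0, 0, 0), (9, 0, 0, 0, 0), (35, 0, 0, 0, 0), (35, 0, 0, 0, 0), (11, 0, 0, 0, 0), (11, 0, 0, 0, 0), (0, 0, 0, 0, 0), (0, 0, 0, 0, 0), (18, 0, 0, 0, 0), (18, 0, 0, 0, 0), (1, 0, 0, 0, 0), (1, 0, 0, 0, 0), (0, 0, 0, 0, 0), (0, 0, 0,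 0, 0), (2, 0, 0, 0, 0), (2, 0, 0, 0, 0), (19, 0, 0, 0, 0), (19, 0, 0, 0, 0), (18, 0, 0, 0, 0), (18, 0, 0, 0, 0), (2, 0, 0, 0, 0), (2, 0, 0, 0, 0), (3, 0, 0, 0, 0), (3, 0, 0, 0, 0), (1, 0, 0, 0, 0), (1, 0, 0, 0, 0), (19, 0, 0, 0, 0), (19, 0, 0, 0, 0), (3, 0, 0, 0, 0), (3, 0, 0, 0, 0), (4, 0, 0, 0, 0), (4, 0, 0, 0, 0), (28, 0, 0, 0, 0), (28, 0, 0, 0, 0), (8, 0, 0, 0, 0), (8, 0, 0, 0, 0), (4, 0, 0, 0, 0), (4, 0, 0, 0, 0), (12, 0, 0, 0, 0), (12, 0, 0, 0, 0), (36, 0, 0, 0, 0), (36, 0, 0, 0, 0), (28, 0, 0, 0, 0), (28, 0, 0, 0, 0), (12, 0, 0, 0, 0), (12, 0, 0, 0, 0), (13, 0, 0, 0, 0), (13, 0, 0, 0, 0), (8, 0, 0, 0, 0), (8, 0, 0, 0, 0), (36, 0, 0, 0, 0), (36, 0, 0, 0, 0), (13, 0, 0, 0, 0), (13, 0, 0, 0, 0), (20, 0, 0, 0, 0), (20, 0, 0, 0, 0), (29, 0, 0, 0, 0),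 (29, 0, 0, 0, 0), (34, 0, 0, 0, 0), (34, 0, 0, 0, 0), (20, 0, 0, 0, 0), (20, 0, 0, 0, 0), (37, 0, 0, 0, 0), (37, 0, 0, 0, 0), (38, 0, 0, 0, 0), (38, 0, 0, 0, 0), (29, 0, 0, 0, 0), (29, 0, 0, 0, 0), (37, 0, 0, 0, 0), (37, 0, 0, 0, 0), (39, 0, 0, 0, 0), (39, 0, 0, 0, 0), (34, 0, 0, 0, 0), (34, 0, 0, 0, 0), (38, 0, 0, 0, 0), (38, 0, 0, 0, 0), (39, 0, 0, 0, 0), (39, 0, 0, 0, 0), (21, 0, 0, 0, 0), (21, 0, 0, 0, 0), (5, 0, 0, 0, 0), (5, 0, 0, 0, 0), (9, 0, 0, 0, 0), (9, 0, 0, 0, 0), (21, 0, 0, 0, 0), (21, 0, 0, 0, 0), (14, 0, 0, 0, 0), (14, 0, 0, 0, 0), (15, 0, 0, 0, 0), (15, 0, 0, 0, 0), (5, 0, 0, 0, 0), (5, 0, 0, 0, 0), (14, 0, 0, 0, 0), (14, 0, 0, 0, 0), (40, 0, 0, 0, 0), (40, 0, 0, 0, 0), (9, 0, 0, 0, 0), (9, 0, 0, 0, 0), (15, 0, 0, 0, 0), (15, 0, 0, 0,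 0), (40, 0, 0, 0, 0), (40, 0, 0, 0, 0), (22, 0, 0, 0, 0), (22, 0, 0, 0, 0), (26, 0, 0, 0, 0), (26, 0, 0, 0, 0), (30, 0, 0, 0, 0), (30, 0, 0, 0, 0), (22, 0, 0, 0, 0), (22, 0, 0, 0, 0), (41, 0, 0, 0, 0), (41, 0, 0, 0, 0), (42, 0, 0, 0, 0), (42, 0, 0, 0, 0), (26, 0, 0, 0, 0), (26, 0, 0, 0, 0), (41, 0, 0, 0, 0), (41, 0, 0, 0, 0), (43, 0, 0, 0, 0), (43, 0, 0, 0, 0), (30, 0, 0, 0, 0), (30, 0, 0, 0, 0), (42, 0, 0, 0, 0), (42, 0, 0, 0, 0), (43, 0, 0, 0, 0), (43, 0, 0, 0, 0), (20, 0, 0, 0, 0), (20, 0, 0, 0, 0), (21, 0, 0, 0, 0), (21, 0, 0, 0, 0), (22, 0, 0, 0, 0), (22, 0, 0, 0, 0), (20, 0, 0, 0, 0), (20, 0, 0, 0, 0), (23, 0, 0, 0, 0), (23, 0, 0, 0, 0), (24, 0, 0, 0, 0), (24, 0, 0, 0, 0), (21, 0, 0, 0, 0), (21, 0, 0, 0, 0), (23, 0, 0, 0, 0), (23, 0, 0, 0, 0), (25,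 0, 0, 0, 0), (25, 0, 0, 0, 0), (22, 0, 0, 0, 0), (22, 0, 0, 0, 0), (24, 0, 0, 0, 0), (24, 0, 0, 0, 0), (25, 0, 0, 0, 0), (25, 0, 0, 0, 0), (4, 0, 0, 0, 0), (4, 0, 0, 0, 0), (28, 0, 0, 0, 0), (28, 0, 0, 0, 0), (8, 0, 0, 0, 0), (8, 0, 0, 0, 0), (4, 0, 0, 0, 0), (4, 0, 0, 0, 0), (12, 0, 0, 0, 0), (12, 0, 0, 0, 0), (36, 0, 0, 0, 0), (36, 0, 0, 0, 0), (28, 0, 0, 0, 0), (28, 0, 0, 0, 0), (12, 0, 0, 0, 0), (12, 0, 0, 0, 0), (13, 0, 0, 0, 0), (13, 0, 0, 0, 0), (8, 0, 0, 0, 0), (8, 0, 0, 0, 0), (36, 0, 0, 0, 0), (36, 0, 0, 0, 0), (13, 0, 0, 0, 0), (13, 0, 0, 0, 0), (0, 0, 0, 0, 0), (0, 0, 0, 0, 0), (31, 0, 0, 0, 0), (31, 0, 0, 0, 0), (10, 0, 0, 0, 0), (10, 0, 0, 0, 0), (0, 0, 0, 0, 0), (0, 0, 0, 0, 0), (14, 0, 0, 0, 0), (14, 0, 0, 0, 0), (41, 0, 0, 0, 0), (41,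 0, 0, 0, 0), (31, 0, 0, 0, 0), (31, 0, 0, 0, 0), (14, 0, 0, 0, 0), (14, 0, 0, 0, 0), (16, 0, 0, 0, 0), (16, 0, 0, 0, 0), (10, 0, 0, 0, 0), (10, 0, 0, 0, 0), (41, 0, 0, 0, 0), (41, 0, 0, 0, 0), (16, 0, 0, 0, 0), (16, 0, 0, 0, 0), (18, 0, 0, 0, 0), (18, 0, 0, 0, 0), (27, 0, 0, 0, 0), (27, 0, 0, 0, 0), (35, 0, 0, 0, 0), (35, 0, 0, 0, 0), (18, 0, 0, 0, 0), (18, 0, 0, 0, 0), (37, 0, 0, 0, 0), (37, 0, 0, 0, 0), (42, 0, 0, 0, 0), (42, 0, 0, 0, 0), (27, 0, 0, 0, 0), (27, 0, 0, 0, 0), (37, 0, 0, 0, 0), (37, 0, 0, 0, 0), (44, 0, 0, 0, 0), (44, 0, 0, 0, 0), (35, 0, 0, 0, 0), (35, 0, 0, 0, 0), (42, 0, 0, 0, 0), (42, 0, 0, 0, 0), (44, 0, 0, 0, 0), (44, 0, 0, 0, 0), (1, 0, 0, 0, 0), (1, 0, 0, 0, 0), (6, 0, 0, 0, 0), (6, 0, 0, 0, 0), (32, 0, 0, 0, 0), (32, 0, 0, 0,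 0), (1, 0, 0, 0, 0), (1, 0, 0, 0, 0), (38, 0, 0, 0, 0), (38, 0, 0, 0, 0), (15, 0, 0, 0, 0), (15, 0, 0, 0, 0), (6, 0, 0, 0, 0), (6, 0, 0, 0, 0), (38, 0, 0, 0, 0), (38, 0, 0, 0, 0), (17, 0, 0, 0, 0), (17, 0, 0, 0, 0), (32, 0, 0, 0, 0), (32, 0, 0, 0, 0), (15, 0, 0, 0, 0), (15, 0, 0, 0, 0), (17, 0, 0, 0, 0), (17, 0, 0, 0, 0), (4, 0, 0, 0, 0), (4, 0, 0, 0, 0), (5, 0, 0, 0, 0), (5, 0, 0, 0, 0), (26, 0, 0, 0, 0), (26, 0, 0, 0, 0), (4, 0, 0, 0, 0), (4, 0, 0, 0, 0), (27, 0, 0, 0, 0), (27, 0, 0, 0, 0), (6, 0, 0, 0, 0), (6, 0, 0, 0, 0), (5, 0, 0, 0, 0), (5, 0, 0, 0, 0), (27, 0, 0, 0, 0), (27, 0, 0, 0, 0), (7, 0, 0, 0, 0), (7, 0, 0, 0, 0), (26, 0, 0, 0, 0), (26, 0, 0, 0, 0), (6, 0, 0, 0, 0), (6, 0, 0, 0, 0), (7, 0, 0, 0, 0), (7, 0, 0, 0, 0), (20, 0, 0, 0, 0), (20,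 0, 0, 0, 0), (29, 0, 0, 0, 0), (29, 0, 0, 0, 0), (34, 0, 0, 0, 0), (34, 0, 0, 0, 0), (20, 0, 0, 0, 0), (20, 0, 0, 0, 0), (37, 0, 0, 0, 0), (37, 0, 0, 0, 0), (38, 0, 0, 0, 0), (38, 0, 0, 0, 0), (29, 0, 0, 0, 0), (29, 0, 0, 0, 0), (37, 0, 0, 0, 0), (37, 0, 0, 0, 0), (39, 0, 0, 0, 0), (39, 0, 0, 0, 0), (34, 0, 0, 0, 0), (34, 0, 0, 0, 0), (38, 0, 0, 0, 0), (38, 0, 0, 0, 0), (39, 0, 0, 0, 0), (39, 0, 0, 0, 0), (0, 0, 0, 0, 0), (0, 0, 0, 0, 0), (31, 0, 0, 0, 0), (31, 0, 0, 0, 0), (10, 0, 0, 0, 0), (10, 0, 0, 0, 0), (0, 0, 0, 0, 0), (0, 0, 0, 0, 0), (14, 0, 0, 0, 0), (14, 0, 0, 0, 0), (41, 0, 0, 0, 0), (41, 0, 0, 0, 0), (31, 0, 0, 0, 0), (31, 0, 0, 0, 0), (14, 0, 0, 0, 0), (14, 0, 0, 0, 0), (16, 0, 0, 0, 0), (16, 0, 0, 0, 0), (10, 0, 0, 0, 0), (10, 0, 0, 0,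 0), (41, 0, 0, 0, 0), (41, 0, 0, 0, 0), (16, 0, 0, 0, 0), (16, 0, 0, 0, 0), (2, 0, 0, 0, 0), (2, 0, 0, 0, 0), (23, 0, 0, 0, 0), (23, 0, 0, 0, 0), (11, 0, 0, 0, 0), (11, 0, 0, 0, 0), (2, 0, 0, 0, 0), (2, 0, 0, 0, 0), (12, 0, 0, 0, 0), (12, 0, 0, 0, 0), (43, 0, 0, 0, 0), (43, 0, 0, 0, 0), (23, 0, 0, 0, 0), (23, 0, 0, 0, 0), (12, 0, 0, 0, 0), (12, 0, 0, 0, 0), (17, 0, 0, 0, 0), (17, 0, 0, 0, 0), (11, 0, 0, 0, 0), (11, 0, 0, 0, 0), (43, 0, 0, 0, 0), (43, 0, 0, 0, 0), (17, 0, 0, 0, 0), (17, 0, 0, 0, 0), (19, 0, 0, 0, 0), (19, 0, 0, 0, 0), (24, 0, 0, 0, 0), (24, 0, 0, 0, 0), (33, 0, 0, 0, 0), (33, 0, 0, 0, 0), (19, 0, 0, 0, 0), (19, 0, 0, 0, 0), (36, 0, 0, 0, 0), (36, 0, 0, 0, 0), (40, 0, 0, 0, 0), (40, 0, 0, 0, 0), (24, 0, 0, 0, 0), (24, 0, 0, 0, 0), (36,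 0, 0, 0, 0), (36, 0, 0, 0, 0), (44, 0, 0, 0, 0), (44, 0, 0, 0, 0), (33, 0, 0, 0, 0), (33, 0, 0, 0, 0), (40, 0, 0, 0, 0), (40, 0, 0, 0, 0), (44, 0, 0, 0, 0), (44, 0, 0, 0, 0), (28, 0, 0, 0, 0), (28, 0, 0, 0, 0), (29, 0, 0, 0, 0), (29, 0, 0, 0, 0), (30, 0, 0, 0, 0), (30, 0, 0, 0, 0), (28, 0, 0, 0, 0), (28, 0, 0, 0, 0), (31, 0, 0, 0, 0), (31, 0, 0, 0, 0), (32, 0, 0, 0, 0), (32, 0, 0, 0, 0), (29, 0, 0, 0, 0), (29, 0, 0, 0, 0), (31, 0, 0, 0, 0), (31, 0, 0, 0, 0), (33, 0, 0, 0, 0), (33, 0, 0, 0, 0), (30, 0, 0, 0, 0), (30, 0, 0, 0, 0), (32, 0, 0, 0, 0), (32, 0, 0, 0, 0), (33, 0, 0, 0, 0), (33, 0, 0, 0, 0), (21, 0, 0, 0, 0), (21, 0, 0, 0, 0), (5, 0, 0, 0, 0), (5, 0, 0, 0, 0), (9, 0, 0, 0, 0), (9, 0, 0, 0, 0), (21, 0, 0, 0, 0), (21, 0, 0, 0, 0), (14, 0, 0, 0,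 0), (14, 0, 0, 0, 0), (15, 0, 0, 0, 0), (15, 0, 0, 0, 0), (5, 0, 0, 0, 0), (5, 0, 0, 0, 0), (14, 0, 0, 0, 0), (14, 0, 0, 0, 0), (40, 0, 0, 0, 0), (40, 0, 0, 0, 0), (9, 0, 0, 0, 0), (9, 0, 0, 0, 0), (15, 0, 0, 0, 0), (15, 0, 0, 0, 0), (40, 0, 0, 0, 0), (40, 0, 0, 0, 0), (18, 0, 0, 0, 0), (18, 0, 0, 0, 0), (27, 0, 0, 0, 0), (27, 0, 0, 0, 0), (35, 0, 0, 0, 0), (35, 0, 0, 0, 0), (18, 0, 0, 0, 0), (18, 0, 0, 0, 0), (37, 0, 0, 0, 0), (37, 0, 0, 0, 0), (42, 0, 0, 0, 0), (42, 0, 0, 0, 0), (27, 0, 0, 0, 0), (27, 0, 0, 0, 0), (37, 0, 0, 0, 0), (37, 0, 0, 0, 0), (44, 0, 0, 0, 0), (44, 0, 0, 0, 0), (35, 0, 0, 0, 0), (35, 0, 0, 0, 0), (42, 0, 0, 0, 0), (42, 0, 0, 0, 0), (44, 0, 0, 0, 0), (44, 0, 0, 0, 0), (2, 0, 0, 0, 0), (2, 0, 0, 0, 0), (23, 0, 0, 0, 0), (23, 0,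 0, 0, 0), (11, 0, 0, 0, 0), (11, 0, 0, 0, 0), (2, 0, 0, 0, 0), (2, 0, 0, 0, 0), (12, 0, 0, 0, 0), (12, 0, 0, 0, 0), (43, 0, 0, 0, 0), (43, 0, 0, 0, 0), (23, 0, 0, 0, 0), (23, 0, 0, 0, 0), (12, 0, 0, 0, 0), (12, 0, 0, 0, 0), (17, 0, 0, 0, 0), (17, 0, 0, 0, 0), (11, 0, 0, 0, 0), (11, 0, 0, 0, 0), (43, 0, 0, 0, 0), (43, 0, 0, 0, 0), (17, 0, 0, 0, 0), (17, 0, 0, 0, 0), (3, 0, 0, 0, 0), (3, 0, 0, 0, 0), (25, 0, 0, 0, 0), (25, 0, 0, 0, 0), (7, 0, 0, 0, 0), (7, 0, 0, 0, 0), (3, 0, 0, 0, 0), (3, 0, 0, 0, 0), (13, 0, 0, 0, 0), (13, 0, 0, 0, 0), (39, 0, 0, 0, 0), (39, 0, 0, 0, 0), (25, 0, 0, 0, 0), (25, 0, 0, 0, 0), (13, 0, 0, 0, 0), (13, 0, 0, 0, 0), (16, 0, 0, 0, 0), (16, 0, 0, 0, 0), (7, 0, 0, 0, 0), (7, 0, 0, 0, 0), (39, 0, 0, 0, 0), (39, 0, 0, 0, 0), (16,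 0, 0, 0, 0), (16, 0, 0, 0, 0), (8, 0, 0, 0, 0), (8, 0, 0, 0, 0), (34, 0, 0, 0, 0), (34, 0, 0, 0, 0), (9, 0, 0, 0, 0), (9, 0, 0, 0, 0), (8, 0, 0, 0, 0), (8, 0, 0, 0, 0), (10, 0, 0, 0, 0), (10, 0, 0, 0, 0), (35, 0, 0, 0, 0), (35, 0, 0, 0, 0), (34, 0, 0, 0, 0), (34, 0, 0, 0, 0), (10, 0, 0, 0, 0), (10, 0, 0, 0, 0), (11, 0, 0, 0, 0), (11, 0, 0, 0, 0), (9, 0, 0, 0, 0), (9, 0, 0, 0, 0), (35, 0, 0, 0, 0), (35, 0, 0, 0, 0), (11, 0, 0, 0, 0), (11, 0, 0, 0, 0), (22, 0, 0, 0, 0), (22, 0, 0, 0, 0), (26, 0, 0, 0, 0), (26, 0, 0, 0, 0), (30, 0, 0, 0, 0), (30, 0, 0, 0, 0), (22, 0, 0, 0, 0), (22, 0, 0, 0, 0), (41, 0, 0, 0, 0), (41, 0, 0, 0, 0), (42, 0, 0, 0, 0), (42, 0, 0, 0, 0), (26, 0, 0, 0, 0), (26, 0, 0, 0, 0), (41, 0, 0, 0, 0), (41, 0, 0, 0, 0), (43, 0, 0, 0, 0),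 (43, 0, 0, 0, 0), (30, 0, 0, 0, 0), (30, 0, 0, 0, 0), (42, 0, 0, 0, 0), (42, 0, 0, 0, 0), (43, 0, 0, 0, 0), (43, 0, 0, 0, 0), (1, 0, 0, 0, 0), (1, 0, 0, 0, 0), (6, 0, 0, 0, 0), (6, 0, 0, 0, 0), (32, 0, 0, 0, 0), (32, 0, 0, 0, 0), (1, 0, 0, 0, 0), (1, 0, 0, 0, 0), (38, 0, 0, 0, 0), (38, 0, 0, 0, 0), (15, 0, 0, 0, 0), (15, 0, 0, 0, 0), (6, 0, 0, 0, 0), (6, 0, 0, 0, 0), (38, 0, 0, 0, 0), (38, 0, 0, 0, 0), (17, 0, 0, 0, 0), (17, 0, 0, 0, 0), (32, 0, 0, 0, 0), (32, 0, 0, 0, 0), (15, 0, 0, 0, 0), (15, 0, 0, 0, 0), (17, 0, 0, 0, 0), (17, 0, 0, 0, 0), (19, 0, 0, 0, 0), (19, 0, 0, 0, 0), (24, 0, 0, 0, 0), (24, 0, 0, 0, 0), (33, 0, 0, 0, 0), (33, 0, 0, 0, 0), (19, 0, 0, 0, 0), (19, 0, 0, 0, 0), (36, 0, 0, 0, 0), (36, 0, 0, 0, 0), (40, 0, 0, 0, 0), (40, 0, 0, 0,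 0), (24, 0, 0, 0, 0), (24, 0, 0, 0, 0), (36, 0, 0, 0, 0), (36, 0, 0, 0, 0), (44, 0, 0, 0, 0), (44, 0, 0, 0, 0), (33, 0, 0, 0, 0), (33, 0, 0, 0, 0), (40, 0, 0, 0, 0), (40, 0, 0, 0, 0), (44, 0, 0, 0, 0), (44, 0, 0, 0, 0), (3, 0, 0, 0, 0), (3, 0, 0, 0, 0), (25, 0, 0, 0, 0), (25, 0, 0, 0, 0), (7, 0, 0, 0, 0), (7, 0, 0, 0, 0), (3, 0, 0, 0, 0), (3, 0, 0, 0, 0), (13, 0, 0, 0, 0), (13, 0, 0, 0, 0), (39, 0, 0, 0, 0), (39, 0, 0, 0, 0), (25, 0, 0, 0, 0), (25, 0, 0, 0, 0), (13, 0, 0, 0, 0), (13, 0, 0, 0, 0), (16, 0, 0, 0, 0), (16, 0, 0, 0, 0), (7, 0, 0, 0, 0), (7, 0, 0, 0, 0), (39, 0, 0, 0, 0), (39, 0, 0, 0, 0), (16, 0, 0, 0, 0), (16, 0, 0, 0, 0)]]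

def m11_1 : Base := (0, 0, [(0, [0], [0, 1]), (1, [], [2, 3]), (1, [], [4, 5])])

def l11_1 : Cov := [(2304, 0, 0, [(0, [0], [0, 1]), (1, [], [2, 3]), (1, [], [4, 5])]),
  (-2304, 0, 0, [(0, [0], [0, 1]), (1, [], [2, 5]), (1, [], [3, 4])]),
  (-2304, 0, 0, [(0, [0], [0, 3]), (1, [], [1, 2]), (1, [], [4, 5])]),
  (2304, 0, 0, [(0, [0], [0, 3]), (1, [], [1, 4]), (1, [], [2, 5])]),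
  (2304, 0, 0, [(0, [0], [0, 5]), (1, [], [1, 2]), (1, [], [3, 4])]),
  (-2304, 0, 0, [(0, [0], [0, 5]), (1, [], [1, 4]), (1, [], [2, 3])]),
  (-2304, 0, 0, [(0, [0], [1, 2]), (1, [], [0, 3]), (1, [], [4, 5])]),
  (2304, 0, 0, [(0, [0], [1, 2]), (1, [], [0, 5]), (1, [], [3, 4])]),
  (2304, 0, 0, [(0, [0], [1, 4]), (1, [], [0, 3]), (1, [], [2, 5])]),
  (-2304, 0, 0, [(0, [0], [1, 4]), (1, [], [0, 5]), (1, [], [2, 3])]),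
  (2304, 0, 0, [(0, [0], [2, 3]), (1, [], [0, 1]), (1, [], [4, 5])]),
  (-2304, 0, 0, [(0, [0], [2, 3]), (1, [], [0, 5]), (1, [], [1, 4])]),
  (-2304, 0, 0, [(0, [0], [2, 5]), (1, [], [0, 1]), (1, [], [3, 4])]),
  (2304, 0, 0, [(0, [0], [2, 5]), (1, [], [0, 3]), (1, [], [1, 4])]),
  (-2304, 0, 0, [(0, [0], [3, 4]), (1, [], [0, 1]), (1, [], [2, 5])]),
  (2304, 0, 0, [(0, [0], [3, 4]), (1, [], [0, 5]), (1, [], [1, 2])]),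
  (2304, 0, 0, [(0, [0], [4, 5]), (1, [], [0, 1]), (1, [], [2, 3])]),
  (-2304, 0, 0, [(0, [0], [4, 5]), (1, [], [0, 3]), (1, [], [1, 2])])]

def z11_1 : Cov := [(0, 0, 0, [(0, [0], [0, 1]), (1, [], [2, 4]), (1, [], [3, 5])]),
  (0, 0, 0, [(0, [0], [0, 2]), (1, [], [1, 3]), (1, [], [4, 5])]),
  (0, 0, 0, [(0, [0], [0, 2]), (1, [], [1, 4]), (1, [], [3, 5])]),
  (0, 0, 0, [(0, [0], [0, 2]), (1, [], [1, 5]), (1, [], [3, 4])]),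
  (0, 0, 0, [(0, [0], [0, 3]), (1, [], [1, 5]), (1, [], [2, 4])]),
  (0, 0, 0, [(0, [0], [0, 4]), (1, [], [1, 2]), (1, [], [3, 5])]),
  (0, 0, 0, [(0, [0], [0, 4]), (1, [], [1, 3]), (1, [], [2, 5])]),
  (0, 0, 0, [(0, [0], [0, 4]), (1, [], [1, 5]), (1, [], [2, 3])]),
  (0, 0, 0, [(0, [0], [0, 5]), (1, [], [1, 3]), (1, [], [2, 4])]),
  (0, 0, 0, [(0, [0], [1, 2]), (1, [], [0, 4]), (1, [], [3, 5])]),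
  (0, 0, 0, [(0, [0], [1, 3]), (1, [], [0, 2]), (1, [], [4, 5])]),
  (0, 0, 0, [(0, [0], [1, 3]), (1, [], [0, 4]), (1, [], [2, 5])]),
  (0, 0, 0, [(0, [0], [1, 3]), (1, [], [0, 5]), (1, [], [2, 4])]),
  (0, 0, 0, [(0, [0], [1, 4]), (1, [], [0, 2]), (1, [], [3, 5])]),
  (0, 0, 0, [(0, [0], [1, 5]), (1, [], [0, 2]), (1, [], [3, 4])]),
  (0, 0, 0, [(0, [0], [1, 5]), (1, [], [0, 3]), (1, [], [2, 4])]),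
  (0, 0, 0, [(0, [0], [1, 5]), (1, [], [0, 4]), (1, [], [2, 3])]),
  (0, 0, 0, [(0, [0], [2, 3]), (1, [], [0, 4]), (1, [], [1, 5])]),
  (0, 0, 0, [(0, [0], [2, 4]), (1, [], [0, 1]), (1, [], [3, 5])]),
  (0, 0, 0, [(0, [0], [2, 4]), (1, [], [0, 3]), (1, [], [1, 5])]),
  (0, 0, 0, [(0, [0], [2, 4]), (1, [], [0, 5]), (1, [], [1, 3])]),
  (0, 0, 0, [(0, [0], [2, 5]), (1, [], [0, 4]), (1, [], [1, 3])]),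
  (0, 0, 0, [(0, [0], [3, 4]), (1, [], [0, 2]), (1, [], [1, 5])]),
  (0, 0, 0, [(0, [0], [3, 5]), (1, [], [0, 1]), (1, [], [2, 4])]),
  (0, 0, 0, [(0, [0], [3, 5]), (1, [], [0, 2]), (1, [], [1, 4])]),
  (0, 0, 0, [(0, [0], [3, 5]), (1, [], [0, 4]), (1, [], [1, 2])]),
  (0, 0, 0, [(0, [0], [4, 5]), (1, [], [0, 2]), (1, [], [1, 3])])]

def w11_1 : List (List Wit) := [[(0, 0, 0, 0, 0), (0, 0, 0, 0, 0), (18, 0, 0, 0, 0), (18, 0, 0, 0, 0), (1, 0, 0, 0, 0), (1, 0, 0, 0, 0), (0, 0, 0, 0, 0), (0, 0, 0, 0, 0), (1, 0, 0, 0, 0), (1, 0, 0, 0, 0), (18, 0, 0, 0, 0), (18, 0, 0, 0, 0), (18, 0, 0, 0, 0), (18, 0, 0, 0, 0), (1, 0, 0, 0, 0), (1, 0, 0, 0, 0), (0, 0, 0, 0, 0), (0, 0, 0, 0, 0), (1, 0, 0, 0, 0), (1, 0, 0, 0, 0), (18, 0, 0, 0, 0), (18, 0, 0, 0, 0), (0, 0, 0,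 0, 0), (0, 0, 0, 0, 0), (19, 0, 0, 0, 0), (19, 0, 0, 0, 0), (20, 0, 0, 0, 0), (20, 0, 0, 0, 0), (21, 0, 0, 0, 0), (21, 0, 0, 0, 0), (19, 0, 0, 0, 0), (19, 0, 0, 0, 0), (21, 0, 0, 0, 0), (21, 0, 0, 0, 0), (20, 0, 0, 0, 0), (20, 0, 0, 0, 0), (20, 0, 0, 0, 0), (20, 0, 0, 0, 0), (21, 0, 0, 0, 0), (21, 0, 0, 0, 0), (19, 0, 0, 0, 0), (19, 0, 0, 0, 0), (21, 0, 0, 0, 0), (21, 0, 0, 0, 0), (20, 0, 0, 0, 0), (20, 0, 0, 0, 0), (19, 0, 0, 0, 0), (19, 0, 0, 0, 0), (2, 0, 0, 0, 0), (2, 0, 0, 0, 0), (3, 0, 0, 0, 0), (3, 0, 0, 0, 0), (22, 0, 0, 0, 0), (22, 0, 0, 0, 0), (2, 0, 0, 0, 0), (2, 0, 0, 0, 0), (22, 0, 0, 0, 0), (22, 0, 0, 0, 0), (3, 0, 0, 0, 0), (3, 0, 0, 0, 0), (3, 0, 0, 0, 0), (3, 0, 0, 0, 0), (22, 0, 0, 0, 0), (22, 0, 0, 0, 0), (2, 0, 0, 0, 0), (2, 0, 0,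 0, 0), (22, 0, 0, 0, 0), (22, 0, 0, 0, 0), (3, 0, 0, 0, 0), (3, 0, 0, 0, 0), (2, 0, 0, 0, 0), (2, 0, 0, 0, 0), (23, 0, 0, 0, 0), (23, 0, 0, 0, 0), (24, 0, 0, 0, 0), (24, 0, 0, 0, 0), (25, 0, 0, 0, 0), (25, 0, 0, 0, 0), (23, 0, 0, 0, 0), (23, 0, 0, 0, 0), (25, 0, 0, 0, 0), (25, 0, 0, 0, 0), (24, 0, 0, 0, 0), (24, 0, 0, 0, 0), (24, 0, 0, 0, 0), (24, 0, 0, 0, 0), (25, 0, 0, 0, 0), (25, 0, 0, 0, 0), (23, 0, 0, 0, 0), (23, 0, 0, 0, 0), (25, 0, 0, 0, 0), (25, 0, 0, 0, 0), (24, 0, 0, 0, 0), (24, 0, 0, 0, 0), (23, 0, 0, 0, 0), (23, 0, 0, 0, 0), (4, 0, 0, 0, 0), (4, 0, 0, 0, 0), (26, 0, 0, 0, 0), (26, 0, 0, 0, 0), (5, 0, 0, 0, 0), (5, 0, 0, 0, 0), (4, 0, 0, 0, 0), (4, 0, 0, 0, 0), (5, 0, 0, 0, 0), (5, 0, 0, 0, 0), (26, 0, 0, 0, 0), (26, 0, 0, 0, 0), (26, 0, 0,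 0, 0), (26, 0, 0, 0, 0), (5, 0, 0, 0, 0), (5, 0, 0, 0, 0), (4, 0, 0, 0, 0), (4, 0, 0, 0, 0), (5, 0, 0, 0, 0), (5, 0, 0, 0, 0), (26, 0, 0, 0, 0), (26, 0, 0, 0, 0), (4, 0, 0, 0, 0), (4, 0, 0, 0, 0), (0, 0, 0, 0, 0), (0, 0, 0, 0, 0), (18, 0, 0, 0, 0), (18, 0, 0, 0, 0), (1, 0, 0, 0, 0), (1, 0, 0, 0, 0), (0, 0, 0, 0, 0), (0, 0, 0, 0, 0), (1, 0, 0, 0, 0), (1, 0, 0, 0, 0), (18, 0, 0, 0, 0), (18, 0, 0, 0, 0), (18, 0, 0, 0, 0), (18, 0, 0, 0, 0), (1, 0, 0, 0, 0), (1, 0, 0, 0, 0), (0, 0, 0, 0, 0), (0, 0, 0, 0, 0), (1, 0, 0, 0, 0), (1, 0, 0, 0, 0), (18, 0, 0, 0, 0), (18, 0, 0, 0, 0), (0, 0, 0, 0, 0), (0, 0, 0, 0, 0), (6, 0, 0, 0, 0), (6, 0, 0, 0, 0), (27, 0, 0, 0, 0), (27, 0, 0, 0, 0), (7, 0, 0, 0, 0), (7, 0, 0, 0, 0), (6, 0, 0, 0, 0), (6, 0, 0, 0, 0), (7, 0, 0,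 0, 0), (7, 0, 0, 0, 0), (27, 0, 0, 0, 0), (27, 0, 0, 0, 0), (27, 0, 0, 0, 0), (27, 0, 0, 0, 0), (7, 0, 0, 0, 0), (7, 0, 0, 0, 0), (6, 0, 0, 0, 0), (6, 0, 0, 0, 0), (7, 0, 0, 0, 0), (7, 0, 0, 0, 0), (27, 0, 0, 0, 0), (27, 0, 0, 0, 0), (6, 0, 0, 0, 0), (6, 0, 0, 0, 0), (28, 0, 0, 0, 0), (28, 0, 0, 0, 0), (29, 0, 0, 0, 0), (29, 0, 0, 0, 0), (30, 0, 0, 0, 0), (30, 0, 0, 0, 0), (28, 0, 0, 0, 0), (28, 0, 0, 0, 0), (30, 0, 0, 0, 0), (30, 0, 0, 0, 0), (29, 0, 0, 0, 0), (29, 0, 0, 0, 0), (29, 0, 0, 0, 0), (29, 0, 0, 0, 0), (30, 0, 0, 0, 0), (30, 0, 0, 0, 0), (28, 0, 0, 0, 0), (28, 0, 0, 0, 0), (30, 0, 0, 0, 0), (30, 0, 0, 0, 0), (29, 0, 0, 0, 0), (29, 0, 0, 0, 0), (28, 0, 0, 0, 0), (28, 0, 0, 0, 0), (31, 0, 0, 0, 0), (31, 0, 0, 0, 0), (8, 0, 0, 0, 0), (8, 0, 0,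 0, 0), (9, 0, 0, 0, 0), (9, 0, 0, 0, 0), (31, 0, 0, 0, 0), (31, 0, 0, 0, 0), (9, 0, 0, 0, 0), (9, 0, 0, 0, 0), (8, 0, 0, 0, 0), (8, 0, 0, 0, 0), (8, 0, 0, 0, 0), (8, 0, 0, 0, 0), (9, 0, 0, 0, 0), (9, 0, 0, 0, 0), (31, 0, 0, 0, 0), (31, 0, 0, 0, 0), (9, 0, 0, 0, 0), (9, 0, 0, 0, 0), (8, 0, 0, 0, 0), (8, 0, 0, 0, 0), (31, 0, 0, 0, 0), (31, 0, 0, 0, 0), (32, 0, 0, 0, 0), (32, 0, 0, 0, 0), (33, 0, 0, 0, 0), (33, 0, 0, 0, 0), (34, 0, 0, 0, 0), (34, 0, 0, 0, 0), (32, 0, 0, 0, 0), (32, 0, 0, 0, 0), (34, 0, 0, 0, 0), (34, 0, 0, 0, 0), (33, 0, 0, 0, 0), (33, 0, 0, 0, 0), (33, 0, 0, 0, 0), (33, 0, 0, 0, 0), (34, 0, 0, 0, 0), (34, 0, 0, 0, 0), (32, 0, 0, 0, 0), (32, 0, 0, 0, 0), (34, 0, 0, 0, 0), (34, 0, 0, 0, 0), (33, 0, 0, 0, 0), (33, 0, 0, 0, 0), (32, 0, 0, 0,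 0), (32, 0, 0, 0, 0), (19, 0, 0, 0, 0), (19, 0, 0, 0, 0), (20, 0, 0, 0, 0), (20, 0, 0, 0, 0), (21, 0, 0, 0, 0), (21, 0, 0, 0, 0), (19, 0, 0, 0, 0), (19, 0, 0, 0, 0), (21, 0, 0, 0, 0), (21, 0, 0, 0, 0), (20, 0, 0, 0, 0), (20, 0, 0, 0, 0), (20, 0, 0, 0, 0), (20, 0, 0, 0, 0), (21, 0, 0, 0, 0), (21, 0, 0, 0, 0), (19, 0, 0, 0, 0), (19, 0, 0, 0, 0), (21, 0, 0, 0, 0), (21, 0, 0, 0, 0), (20, 0, 0, 0, 0), (20, 0, 0, 0, 0), (19, 0, 0, 0, 0), (19, 0, 0, 0, 0), (6, 0, 0, 0, 0), (6, 0, 0, 0, 0), (27, 0, 0, 0, 0), (27, 0, 0, 0, 0), (7, 0, 0, 0, 0), (7, 0, 0, 0, 0), (6, 0, 0, 0, 0), (6, 0, 0, 0, 0), (7, 0, 0, 0, 0), (7, 0, 0, 0, 0), (27, 0, 0, 0, 0), (27, 0, 0, 0, 0), (27, 0, 0, 0, 0), (27, 0, 0, 0, 0), (7, 0, 0, 0, 0), (7, 0, 0, 0, 0), (6, 0, 0, 0, 0), (6, 0, 0, 0,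 0), (7, 0, 0, 0, 0), (7, 0, 0, 0, 0), (27, 0, 0, 0, 0), (27, 0, 0, 0, 0), (6, 0, 0, 0, 0), (6, 0, 0, 0, 0), (10, 0, 0, 0, 0), (10, 0, 0, 0, 0), (35, 0, 0, 0, 0), (35, 0, 0, 0, 0), (11, 0, 0, 0, 0), (11, 0, 0, 0, 0), (10, 0, 0, 0, 0), (10, 0, 0, 0, 0), (11, 0, 0, 0, 0), (11, 0, 0, 0, 0), (35, 0, 0, 0, 0), (35, 0, 0, 0, 0), (35, 0, 0, 0, 0), (35, 0, 0, 0, 0), (11, 0, 0, 0, 0), (11, 0, 0, 0, 0), (10, 0, 0, 0, 0), (10, 0, 0, 0, 0), (11, 0, 0, 0, 0), (11, 0, 0, 0, 0), (35, 0, 0, 0, 0), (35, 0, 0, 0, 0), (10, 0, 0, 0, 0), (10, 0, 0, 0, 0), (36, 0, 0, 0, 0), (36, 0, 0, 0, 0), (37, 0, 0, 0, 0), (37, 0, 0, 0, 0), (38, 0, 0, 0, 0), (38, 0, 0, 0, 0), (36, 0, 0, 0, 0), (36, 0, 0, 0, 0), (38, 0, 0, 0, 0), (38, 0, 0, 0, 0), (37, 0, 0, 0, 0), (37, 0, 0, 0, 0), (37,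 0, 0, 0, 0), (37, 0, 0, 0, 0), (38, 0, 0, 0, 0), (38, 0, 0, 0, 0), (36, 0, 0, 0, 0), (36, 0, 0, 0, 0), (38, 0, 0, 0, 0), (38, 0, 0, 0, 0), (37, 0, 0, 0, 0), (37, 0, 0, 0, 0), (36, 0, 0, 0, 0), (36, 0, 0, 0, 0), (12, 0, 0, 0, 0), (12, 0, 0, 0, 0), (13, 0, 0, 0, 0), (13, 0, 0, 0, 0), (39, 0, 0, 0, 0), (39, 0, 0, 0, 0), (12, 0, 0, 0, 0), (12, 0, 0, 0, 0), (39, 0, 0, 0, 0), (39, 0, 0, 0, 0), (13, 0, 0, 0, 0), (13, 0, 0, 0, 0), (13, 0, 0, 0, 0), (13, 0, 0, 0, 0), (39, 0, 0, 0, 0), (39, 0, 0, 0, 0), (12, 0, 0, 0, 0), (12, 0, 0, 0, 0), (39, 0, 0, 0, 0), (39, 0, 0, 0, 0), (13, 0, 0, 0, 0), (13, 0, 0, 0, 0), (12, 0, 0, 0, 0), (12, 0, 0, 0, 0), (2, 0, 0, 0, 0), (2, 0, 0, 0, 0), (3, 0, 0, 0, 0), (3, 0, 0, 0, 0), (22, 0, 0, 0, 0), (22, 0, 0, 0, 0), (2, 0, 0, 0, 0),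 (2, 0, 0, 0, 0), (22, 0, 0, 0, 0), (22, 0, 0, 0, 0), (3, 0, 0, 0, 0), (3, 0, 0, 0, 0), (3, 0, 0, 0, 0), (3, 0, 0, 0, 0), (22, 0, 0, 0, 0), (22, 0, 0, 0, 0), (2, 0, 0, 0, 0), (2, 0, 0, 0, 0), (22, 0, 0, 0, 0), (22, 0, 0, 0, 0), (3, 0, 0, 0, 0), (3, 0, 0, 0, 0), (2, 0, 0, 0, 0), (2, 0, 0, 0, 0), (28, 0, 0, 0, 0), (28, 0, 0, 0, 0), (29, 0, 0, 0, 0), (29, 0, 0, 0, 0), (30, 0, 0, 0, 0), (30, 0, 0, 0, 0), (28, 0, 0, 0, 0), (28, 0, 0, 0, 0), (30, 0, 0, 0, 0), (30, 0, 0, 0, 0), (29, 0, 0, 0, 0), (29, 0, 0, 0, 0), (29, 0, 0, 0, 0), (29, 0, 0, 0, 0), (30, 0, 0, 0, 0), (30, 0, 0, 0, 0), (28, 0, 0, 0, 0), (28, 0, 0, 0, 0), (30, 0, 0, 0, 0), (30, 0, 0, 0, 0), (29, 0, 0, 0, 0), (29, 0, 0, 0, 0), (28, 0, 0, 0, 0), (28, 0, 0, 0, 0), (10, 0, 0, 0, 0), (10, 0, 0, 0, 0),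 (35, 0, 0, 0, 0), (35, 0, 0, 0, 0), (11, 0, 0, 0, 0), (11, 0, 0, 0, 0), (10, 0, 0, 0, 0), (10, 0, 0, 0, 0), (11, 0, 0, 0, 0), (11, 0, 0, 0, 0), (35, 0, 0, 0, 0), (35, 0, 0, 0, 0), (35, 0, 0, 0, 0), (35, 0, 0, 0, 0), (11, 0, 0, 0, 0), (11, 0, 0, 0, 0), (10, 0, 0, 0, 0), (10, 0, 0, 0, 0), (11, 0, 0, 0, 0), (11, 0, 0, 0, 0), (35, 0, 0, 0, 0), (35, 0, 0, 0, 0), (10, 0, 0, 0, 0), (10, 0, 0, 0, 0), (14, 0, 0, 0, 0), (14, 0, 0, 0, 0), (40, 0, 0, 0, 0), (40, 0, 0, 0, 0), (15, 0, 0, 0, 0), (15, 0, 0, 0, 0), (14, 0, 0, 0, 0), (14, 0, 0, 0, 0), (15, 0, 0, 0, 0), (15, 0, 0, 0, 0), (40, 0, 0, 0, 0), (40, 0, 0, 0, 0), (40, 0, 0, 0, 0), (40, 0, 0, 0, 0), (15, 0, 0, 0, 0), (15, 0, 0, 0, 0), (14, 0, 0, 0, 0), (14, 0, 0, 0, 0), (15, 0, 0, 0, 0), (15, 0, 0, 0, 0), (40,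 0, 0, 0, 0), (40, 0, 0, 0, 0), (14, 0, 0, 0, 0), (14, 0, 0, 0, 0), (41, 0, 0, 0, 0), (41, 0, 0, 0, 0), (42, 0, 0, 0, 0), (42, 0, 0, 0, 0), (43, 0, 0, 0, 0), (43, 0, 0, 0, 0), (41, 0, 0, 0, 0), (41, 0, 0, 0, 0), (43, 0, 0, 0, 0), (43, 0, 0, 0, 0), (42, 0, 0, 0, 0), (42, 0, 0, 0, 0), (42, 0, 0, 0, 0), (42, 0, 0, 0, 0), (43, 0, 0, 0, 0), (43, 0, 0, 0, 0), (41, 0, 0, 0, 0), (41, 0, 0, 0, 0), (43, 0, 0, 0, 0), (43, 0, 0, 0, 0), (42, 0, 0, 0, 0), (42, 0, 0, 0, 0), (41, 0, 0, 0, 0), (41, 0, 0, 0, 0), (23, 0, 0, 0, 0), (23, 0, 0, 0, 0), (24, 0, 0, 0, 0), (24, 0, 0, 0, 0), (25, 0, 0, 0, 0), (25, 0, 0, 0, 0), (23, 0, 0, 0, 0), (23, 0, 0, 0, 0), (25, 0, 0, 0, 0), (25, 0, 0, 0, 0), (24, 0, 0, 0, 0), (24, 0, 0, 0, 0), (24, 0, 0, 0, 0), (24, 0, 0, 0, 0), (25, 0, 0,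 0, 0), (25, 0, 0, 0, 0), (23, 0, 0, 0, 0), (23, 0, 0, 0, 0), (25, 0, 0, 0, 0), (25, 0, 0, 0, 0), (24, 0, 0, 0, 0), (24, 0, 0, 0, 0), (23, 0, 0, 0, 0), (23, 0, 0, 0, 0), (31, 0, 0, 0, 0), (31, 0, 0, 0, 0), (8, 0, 0, 0, 0), (8, 0, 0, 0, 0), (9, 0, 0, 0, 0), (9, 0, 0, 0, 0), (31, 0, 0, 0, 0), (31, 0, 0, 0, 0), (9, 0, 0, 0, 0), (9, 0, 0, 0, 0), (8, 0, 0, 0, 0), (8, 0, 0, 0, 0), (8, 0, 0, 0, 0), (8, 0, 0, 0, 0), (9, 0, 0, 0, 0), (9, 0, 0, 0, 0), (31, 0, 0, 0, 0), (31, 0, 0, 0, 0), (9, 0, 0, 0, 0), (9, 0, 0, 0, 0), (8, 0, 0, 0, 0), (8, 0, 0, 0, 0), (31, 0, 0, 0, 0), (31, 0, 0, 0, 0), (36, 0, 0, 0, 0), (36, 0, 0, 0, 0), (37, 0, 0, 0, 0), (37, 0, 0, 0, 0), (38, 0, 0, 0, 0), (38, 0, 0, 0, 0), (36, 0, 0, 0, 0), (36, 0, 0, 0, 0), (38, 0, 0, 0, 0), (38, 0, 0, 0,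 0), (37, 0, 0, 0, 0), (37, 0, 0, 0, 0), (37, 0, 0, 0, 0), (37, 0, 0, 0, 0), (38, 0, 0, 0, 0), (38, 0, 0, 0, 0), (36, 0, 0, 0, 0), (36, 0, 0, 0, 0), (38, 0, 0, 0, 0), (38, 0, 0, 0, 0), (37, 0, 0, 0, 0), (37, 0, 0, 0, 0), (36, 0, 0, 0, 0), (36, 0, 0, 0, 0), (14, 0, 0, 0, 0), (14, 0, 0, 0, 0), (40, 0, 0, 0, 0), (40, 0, 0, 0, 0), (15, 0, 0, 0, 0), (15, 0, 0, 0, 0), (14, 0, 0, 0, 0), (14, 0, 0, 0, 0), (15, 0, 0, 0, 0), (15, 0, 0, 0, 0), (40, 0, 0, 0, 0), (40, 0, 0, 0, 0), (40, 0, 0, 0, 0), (40, 0, 0, 0, 0), (15, 0, 0, 0, 0), (15, 0, 0, 0, 0), (14, 0, 0, 0, 0), (14, 0, 0, 0, 0), (15, 0, 0, 0, 0), (15, 0, 0, 0, 0), (40, 0, 0, 0, 0), (40, 0, 0, 0, 0), (14, 0, 0, 0, 0), (14, 0, 0, 0, 0), (16, 0, 0, 0, 0), (16, 0, 0, 0, 0), (44, 0, 0, 0, 0), (44, 0, 0, 0, 0), (17,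 0, 0, 0, 0), (17, 0, 0, 0, 0), (16, 0, 0, 0, 0), (16, 0, 0, 0, 0), (17, 0, 0, 0, 0), (17, 0, 0, 0, 0), (44, 0, 0, 0, 0), (44, 0, 0, 0, 0), (44, 0, 0, 0, 0), (44, 0, 0, 0, 0), (17, 0, 0, 0, 0), (17, 0, 0, 0, 0), (16, 0, 0, 0, 0), (16, 0, 0, 0, 0), (17, 0, 0, 0, 0), (17, 0, 0, 0, 0), (44, 0, 0, 0, 0), (44, 0, 0, 0, 0), (16, 0, 0, 0, 0), (16, 0, 0, 0, 0), (4, 0, 0, 0, 0), (4, 0, 0, 0, 0), (26, 0, 0, 0, 0), (26, 0, 0, 0, 0), (5, 0, 0, 0, 0), (5, 0, 0, 0, 0), (4, 0, 0, 0, 0), (4, 0, 0, 0, 0), (5, 0, 0, 0, 0), (5, 0, 0, 0, 0), (26, 0, 0, 0, 0), (26, 0, 0, 0, 0), (26, 0, 0, 0, 0), (26, 0, 0, 0, 0), (5, 0, 0, 0, 0), (5, 0, 0, 0, 0), (4, 0, 0, 0, 0), (4, 0, 0, 0, 0), (5, 0, 0, 0, 0), (5, 0, 0, 0, 0), (26, 0, 0, 0, 0), (26, 0, 0, 0, 0), (4, 0, 0, 0, 0), (4, 0,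 0, 0, 0), (32, 0, 0, 0, 0), (32, 0, 0, 0, 0), (33, 0, 0, 0, 0), (33, 0, 0, 0, 0), (34, 0, 0, 0, 0), (34, 0, 0, 0, 0), (32, 0, 0, 0, 0), (32, 0, 0, 0, 0), (34, 0, 0, 0, 0), (34, 0, 0, 0, 0), (33, 0, 0, 0, 0), (33, 0, 0, 0, 0), (33, 0, 0, 0, 0), (33, 0, 0, 0, 0), (34, 0, 0, 0, 0), (34, 0, 0, 0, 0), (32, 0, 0, 0, 0), (32, 0, 0, 0, 0), (34, 0, 0, 0, 0), (34, 0, 0, 0, 0), (33, 0, 0, 0, 0), (33, 0, 0, 0, 0), (32, 0, 0, 0, 0), (32, 0, 0, 0, 0), (12, 0, 0, 0, 0), (12, 0, 0, 0, 0), (13, 0, 0, 0, 0), (13, 0, 0, 0, 0), (39, 0, 0, 0, 0), (39, 0, 0, 0, 0), (12, 0, 0, 0, 0), (12, 0, 0, 0, 0), (39, 0, 0, 0, 0), (39, 0, 0, 0, 0), (13, 0, 0, 0, 0), (13, 0, 0, 0, 0), (13, 0, 0, 0, 0), (13, 0, 0, 0, 0), (39, 0, 0, 0, 0), (39, 0, 0, 0, 0), (12, 0, 0, 0, 0), (12, 0, 0, 0,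 0), (39, 0, 0, 0, 0), (39, 0, 0, 0, 0), (13, 0, 0, 0, 0), (13, 0, 0, 0, 0), (12, 0, 0, 0, 0), (12, 0, 0, 0, 0), (41, 0, 0, 0, 0), (41, 0, 0, 0, 0), (42, 0, 0, 0, 0), (42, 0, 0, 0, 0), (43, 0, 0, 0, 0), (43, 0, 0, 0, 0), (41, 0, 0, 0, 0), (41, 0, 0, 0, 0), (43, 0, 0, 0, 0), (43, 0, 0, 0, 0), (42, 0, 0, 0, 0), (42, 0, 0, 0, 0), (42, 0, 0, 0, 0), (42, 0, 0, 0, 0), (43, 0, 0, 0, 0), (43, 0, 0, 0, 0), (41, 0, 0, 0, 0), (41, 0, 0, 0, 0), (43, 0, 0, 0, 0), (43, 0, 0, 0, 0), (42, 0, 0, 0, 0), (42, 0, 0, 0, 0), (41, 0, 0, 0, 0), (41, 0, 0, 0, 0), (16, 0, 0, 0, 0), (16, 0, 0, 0, 0), (44, 0, 0, 0, 0), (44, 0, 0, 0, 0), (17, 0, 0, 0, 0), (17, 0, 0, 0, 0), (16, 0, 0, 0, 0), (16, 0, 0, 0, 0), (17, 0, 0, 0, 0), (17, 0, 0, 0, 0), (44, 0, 0, 0, 0), (44, 0, 0, 0, 0), (44,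 0, 0, 0, 0), (44, 0, 0, 0, 0), (17, 0, 0, 0, 0), (17, 0, 0, 0, 0), (16, 0, 0, 0, 0), (16, 0, 0, 0, 0), (17, 0, 0, 0, 0), (17, 0, 0, 0, 0), (44, 0, 0, 0, 0), (44, 0, 0, 0, 0), (16, 0, 0, 0, 0), (16, 0, 0, 0, 0)]]

theorem tr11 : trK keys lk11 kl11 = true := by
  decide +kernel

theorem x11_0 : expB 1 6 dg0 dg12 m11_0 (l11_0 ++ z11_0) w11_0 = true := by
  decide +kernel

theorem x11_1 : expB 1 6 dg0 dg12 m11_1 (l11_1 ++ z11_1) w11_1 = true := by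
  decide +kernel

theorem t11_0_0 : chkS lk11 1 6 [(1, m11_0)] l11_0
  [(8, 528, 528, 1070130, 3280980), (6, 258, 33, 2428995, 4261170), (6, 258, 33, 5374275, 5309475), (12, 258, 33, 5517840, 5517840), (1, 528, 528, 1066290, 2297940), (9, 288, 288, 82485, 201285), (9, 288, 288, 1069860, 3154260), (7, 258, 33, 5514000, 5514000), (9, 288, 288, 1057875, 1180500), (7, 18, 18, 1266720, 3293520), (6, 258, 33, 2442000, 4400400), (5, 528, 528, 1070115, 3277140), (9, 288, 288, 79170, 2175045), (7, 513, 513, 5514000, 5514000), (6, 258, 33, 5391105, 5448705), (5, 528, 528, 1057620, 1057620), (12, 513, 513, 5517840, 5517840), (7, 18, 18, 1253460, 1065810)]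
  [(1, -2304), (5, 4608), (6, -9216), (7, -9216), (8, 2304), (9, 9216), (12, 4608)] = true := by
  decide +kernel

theorem t11_0_1 : chkS lk11 1 6 [(1, m11_0)] l11_1
  [(13, 1, 1, 5517840, 5517840), (14, 1, 1, 4534800, 4534800), (15, 1, 1, 5517825, 5517825), (16, 1, 1, 5517825, 5517825), (11, 16, 16, 148785, 2298885), (10, 16, 16, 152625, 3281925), (15, 1, 1, 5514000, 5514000), (16, 1, 1, 4530960, 4530960), (11, 16, 16, 2118675, 3278100), (10, 16, 16, 2118675, 3278100), (13, 1, 1, 5509170, 5509170), (14, 1, 1, 4526130, 4526130), (10, 16, 16, 143700, 1061925), (11, 16, 16, 143685, 78885), (10, 16, 16, 2102100, 1058100), (11, 16, 16, 2102100, 1058100), (2, 16, 16, 1070130, 3280980), (0, 16, 16, 1066290, 2297940)]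
  [(0, -2304), (2, 2304), (10, -9216), (11, 9216), (13, 4608), (14, -4608), (15, -4608), (16, 4608)] = true := by
  decide +kernel

theorem t11_1_1 : chkS lk11 1 6 [(1, m11_1)] l11_1
  [(3, 0, 0, 5517840, 5517840), (21, 0, 0, 5517840, 5517840), (4, 0, 0, 5514000, 5514000), (20, 0, 0, 3294480, 2315280), (20, 0, 0, 4534800, 4534800), (4, 0, 0, 2315280, 3294480), (4, 0, 0, 5517825, 5517825), (20, 0, 0, 2315265, 3294465), (20, 0, 0, 5513985, 5513985), (4, 0, 0, 3298305, 3298305), (17, 0, 0, 3298320, 3298320), (18, 0, 0, 2297940, 1066290), (18, 0, 0, 5448720, 5391120), (19, 0, 0, 5448720, 5391120), (18, 0, 0, 3490320, 4411920), (19, 0, 0, 2380560, 3417360), (17, 0, 0, 5517840, 5517840), (18, 0, 0, 1057620, 1057620)]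
  [(3, 2304), (4, -9216), (17, 4608), (18, -9216), (19, 4608), (20, 9216), (21, -2304)] = true := by
  decide +kernel

section

variable {κ ι : Type*} [Fintype κ] [Fintype ι] [Inhabited κ] [Inhabited ι]

noncomputable def F11_0 (E : Env κ ι) : (Fin 1 → κ) → (Fin 6 → ι) → ℝ := op2 (P0 κ) (P12 ι) (fB E 1 6 m11_0)

noncomputable def F11_1 (E : Env κ ι) : (Fin 1 → κ) → (Fin 6 → ι) → ℝ := op2 (P0 κ) (P12 ι) (fB E 1 6 m11_1)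

def r11_0_0 : List (ℕ × ℤ) := [(1, -2304), (5, 4608), (6, -9216), (7, -9216), (8, 2304), (9, 9216), (12, 4608)]

theorem h11_0_0 (E : Env κ ι) : ip (F11_0 E) (F11_0 E) = dotS (ek E lk11) r11_0_0 :=
  op_entryZ E lk11 1 6 _ _ _ _ (pg0 κ) (pg12 ι) m11_0 m11_0 l11_0 z11_0 w11_0 x11_0 (by decide) _ (chkS_sound E lk11 1 6 _ _ _ _ t11_0_0)

def r11_0_1 : List (ℕ × ℤ) := [(0, -2304), (2, 2304), (10, -9216), (11, 9216), (13, 4608), (14, -4608), (15, -4608), (16, 4608)]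

theorem h11_0_1 (E : Env κ ι) : ip (F11_0 E) (F11_1 E) = dotS (ek E lk11) r11_0_1 :=
  op_entryZ E lk11 1 6 _ _ _ _ (pg0 κ) (pg12 ι) m11_0 m11_1 l11_1 z11_1 w11_1 x11_1 (by decide) _ (chkS_sound E lk11 1 6 _ _ _ _ t11_0_1)

def r11_1_1 : List (ℕ × ℤ) := [(3, 2304), (4, -9216), (17, 4608), (18, -9216), (19, 4608), (20, 9216), (21, -2304)]

theorem h11_1_1 (E : Env κ ι) : ip (F11_1 E) (F11_1 E) = dotS (ek E lk11) r11_1_1 :=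
  op_entryZ E lk11 1 6 _ _ _ _ (pg0 κ) (pg12 ι) m11_1 m11_1 l11_1 z11_1 w11_1 x11_1 (by decide) _ (chkS_sound E lk11 1 6 _ _ _ _ t11_1_1)

theorem row11_0 (E : Env κ ι) : RowG (ek E lk11) (F11_0 E) [F11_0 E, F11_1 E] [r11_0_0, r11_0_1] :=
  rowG_cons _ _ _ _ _ _ (h11_0_0 E) (rowG_cons _ _ _ _ _ _ (h11_0_1 E) (rowG_nil _ _))

theorem row11_1 (E : Env κ ι) : RowG (ek E lk11) (F11_1 E) [F11_1 E] [r11_1_1] :=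
  rowG_cons _ _ _ _ _ _ (h11_1_1 E) (rowG_nil _ _)

def tab11 : List (List (List (ℕ × ℤ))) := [[r11_0_0, r11_0_1], [r11_1_1]]

theorem tri11 (E : Env κ ι) : TriG (ek E lk11) [F11_0 E, F11_1 E] tab11 := by
  refine triG_cons _ _ _ _ _ (row11_0 E) ?_
  refine triG_cons _ _ _ _ _ (row11_1 E) ?_
  exact triG_nil _

end

def lk12 : List Key := [
  (3, 6, [(0, [0], [0, 1]), (0, [1], [2, 3]), (0, [2], [4, 5]), (0, [0], [2, 4]), (0, [1], [0, 5]), (0, [2], [1, 3])]),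
  (3, 6, [(0, [0], [0, 1]), (0, [1], [2, 3]), (0, [1], [4, 5]), (0, [0], [2, 4]), (0, [2], [0, 5]), (0, [2], [1, 3])]),
  (3, 6, [(0, [0], [0, 1]), (0, [1], [0, 2]), (0, [1], [3, 4]), (0, [0], [3, 4]), (0, [2], [2, 5]), (0, [2], [1, 5])]),
  (3, 6, [(0, [0], [0, 1]), (0, [0], [2, 3]), (0, [1], [0, 2]), (0, [2], [1, 3]), (0, [2], [4, 5]), (0, [1], [4, 5])]),
  (3, 6, [(0, [0], [0, 1]), (0, [0], [0, 1]), (0, [1], [2, 3]), (0, [2], [4, 5]), (0, [1], [4, 5]), (0, [2], [2, 3])]),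
  (3, 6, [(0, [0], [0, 1]), (0, [0], [2, 0]), (0, [1], [3, 1]), (0, [2], [4, 5]), (0, [2], [3, 4]), (0, [1], [2, 5])]),
  (3, 6, [(0, [0], [0, 1]), (0, [0], [2, 0]), (0, [1], [3, 1]), (0, [2], [2, 4]), (0, [2], [3, 5]), (0, [1], [4, 5])]),
  (3, 6, [(0, [0], [0, 1]), (0, [0], [2, 3]), (0, [1], [0, 1]), (0, [2], [4, 5]), (0, [2], [2, 3]), (0, [1], [4, 5])])]

def kl12 : List ℕ := [22, 24, 25, 26, 30, 38, 39, 45]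

def m12_0 : Base := (0, 2, [(0, [0], [2, 3]), (0, [1], [2, 3]), (0, [2], [0, 1])])

def l12_0 : Cov := [(24, 0, 2, [(0, [0], [2, 3]), (0, [1], [2, 3]), (0, [2], [0, 1])]),
  (-24, 0, 2, [(0, [1], [2, 3]), (0, [2], [2, 3]), (0, [0], [0, 1])])]

def z12_0 : Cov := [(0, 0, 2, [(0, [0], [2, 3]), (0, [2], [2, 3]), (0, [1], [0, 1])])]

def w12_0 : List (List Wit) := [[(0, 0, 0, 16, 16), (0, 0, 0, 16, 16)],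
  [(2, 0, 0, 16, 16), (2, 0, 0, 16, 16)],
  [(0, 0, 0, 16, 16), (0, 0, 0, 16, 16)],
  [(1, 0, 0, 16, 16), (1, 0, 0, 16, 16)],
  [(2, 0, 0, 16, 16), (2, 0, 0, 16, 16)],
  [(1, 0, 0, 16, 16), (1, 0, 0, 16, 16)]]

def m12_1 : Base := (0, 2, [(0, [0], [2, 3]), (0, [1], [0, 2]), (0, [2], [1, 3])])

def l12_1 : Cov := [(12, 0, 2, [(0, [0], [2, 3]), (0, [1], [0, 2]), (0, [2], [1, 3])]),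
  (12, 0, 2, [(0, [0], [2, 3]), (0, [1], [1, 2]), (0, [2], [0, 3])]),
  (-12, 0, 2, [(0, [2], [2, 3]), (0, [0], [0, 2]), (0, [1], [1, 3])]),
  (-12, 0, 2, [(0, [2], [2, 3]), (0, [0], [1, 2]), (0, [1], [0, 3])])]

def z12_1 : Cov := [(0, 0, 2, [(0, [1], [2, 3]), (0, [0], [0, 2]), (0, [2], [1, 3])]),
  (0, 0, 2, [(0, [1], [2, 3]), (0, [0], [1, 2]), (0, [2], [0, 3])])]

def w12_1 : List (List Wit) := [[(0, 0, 0, 16, 16), (1, 0, 0, 16, 16)],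
  [(1, 0, 0, 1, 1), (0, 0, 0, 1, 1)],
  [(4, 0, 0, 16, 16), (5, 0, 0, 16, 16)],
  [(5, 0, 0, 1, 1), (4, 0, 0, 1, 1)],
  [(2, 0, 0, 16, 16), (3, 0, 0, 16, 16)],
  [(3, 0, 0, 1, 1), (2, 0, 0, 1, 1)]]

theorem tr12 : trK keys lk12 kl12 = true := by
  decide +kernel

theorem x12_0 : expB 3 2 dg13 dg2 m12_0 (l12_0 ++ z12_0) w12_0 = true := by
  decide +kernel

theorem x12_1 : expB 3 2 dg13 dg2 m12_1 (l12_1 ++ z12_1) w12_1 = true := by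
  decide +kernel

theorem t12_0_0 : chkS lk12 3 2 [(1, m12_0)] l12_0
  [(4, 33, 258, 5517840, 5517840), (7, 528, 528, 5509170, 5509170)]
  [(4, 24), (7, -24)] = true := by
  decide +kernel

theorem t12_0_1 : chkS lk12 3 2 [(1, m12_0)] l12_1
  [(2, 528, 528, 1065810, 1253460), (2, 528, 528, 1065765, 205140), (3, 33, 258, 3298320, 3298320), (3, 18, 18, 2315280, 3294480)]
  [(2, 24), (3, -24)] = true := by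
  decide +kernel

theorem t12_1_1 : chkS lk12 3 2 [(1, m12_1)] l12_1
  [(5, 513, 513, 5386560, 5321760), (0, 528, 528, 4329525, 332850), (1, 258, 33, 4534560, 4534560), (6, 513, 513, 2371920, 1324320)]
  [(0, 12), (1, -12), (5, 12), (6, -12)] = true := by
  decide +kernel

section

variable {κ ι : Type*} [Fintype κ] [Fintype ι] [Inhabited κ] [Inhabited ι]

noncomputable def F12_0 (E : Env κ ι) : (Fin 3 → κ) → (Fin 2 → ι) → ℝ := op2 (P13 κ) (P2 ι) (fB E 3 2 m12_0)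

noncomputable def F12_1 (E : Env κ ι) : (Fin 3 → κ) → (Fin 2 → ι) → ℝ := op2 (P13 κ) (P2 ι) (fB E 3 2 m12_1)

def r12_0_0 : List (ℕ × ℤ) := [(4, 24), (7, -24)]

theorem h12_0_0 (E : Env κ ι) : ip (F12_0 E) (F12_0 E) = dotS (ek E lk12) r12_0_0 :=
  op_entryZ E lk12 3 2 _ _ _ _ (pg13 κ) (pg2 ι) m12_0 m12_0 l12_0 z12_0 w12_0 x12_0 (by decide) _ (chkS_sound E lk12 3 2 _ _ _ _ t12_0_0)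

def r12_0_1 : List (ℕ × ℤ) := [(2, 24), (3, -24)]

theorem h12_0_1 (E : Env κ ι) : ip (F12_0 E) (F12_1 E) = dotS (ek E lk12) r12_0_1 :=
  op_entryZ E lk12 3 2 _ _ _ _ (pg13 κ) (pg2 ι) m12_0 m12_1 l12_1 z12_1 w12_1 x12_1 (by decide) _ (chkS_sound E lk12 3 2 _ _ _ _ t12_0_1)

def r12_1_1 : List (ℕ × ℤ) := [(0, 12), (1, -12), (5, 12), (6, -12)]

theorem h12_1_1 (E : Env κ ι) : ip (F12_1 E) (F12_1 E) = dotS (ek E lk12) r12_1_1 :=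
  op_entryZ E lk12 3 2 _ _ _ _ (pg13 κ) (pg2 ι) m12_1 m12_1 l12_1 z12_1 w12_1 x12_1 (by decide) _ (chkS_sound E lk12 3 2 _ _ _ _ t12_1_1)

theorem row12_0 (E : Env κ ι) : RowG (ek E lk12) (F12_0 E) [F12_0 E, F12_1 E] [r12_0_0, r12_0_1] :=
  rowG_cons _ _ _ _ _ _ (h12_0_0 E) (rowG_cons _ _ _ _ _ _ (h12_0_1 E) (rowG_nil _ _))

theorem row12_1 (E : Env κ ι) : RowG (ek E lk12) (F12_1 E) [F12_1 E] [r12_1_1] :=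
  rowG_cons _ _ _ _ _ _ (h12_1_1 E) (rowG_nil _ _)

def tab12 : List (List (List (ℕ × ℤ))) := [[r12_0_0, r12_0_1], [r12_1_1]]

theorem tri12 (E : Env κ ι) : TriG (ek E lk12) [F12_0 E, F12_1 E] tab12 := by
  refine triG_cons _ _ _ _ _ (row12_0 E) ?_
  refine triG_cons _ _ _ _ _ (row12_1 E) ?_
  exact triG_nil _

end

def lk13 : List Key := [
  (3, 6, [(0, [0], [0, 1]), (0, [1], [2, 3]), (0, [2], [4, 5]), (0, [0], [2, 4]), (0, [1], [0, 5]), (0, [2], [1, 3])]),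
  (3, 6, [(0, [0], [0, 1]), (0, [1], [2, 3]), (0, [1], [4, 5]), (0, [0], [2, 4]), (0, [2], [0, 5]), (0, [2], [1, 3])]),
  (3, 6, [(0, [0], [0, 1]), (0, [0], [2, 0]), (0, [1], [3, 1]), (0, [2], [4, 5]), (0, [2], [3, 4]), (0, [1], [2, 5])]),
  (3, 6, [(0, [0], [0, 1]), (0, [0], [2, 0]), (0, [1], [3, 1]), (0, [2], [2, 4]), (0, [2], [3, 5]), (0, [1], [4, 5])])]

def kl13 : List ℕ := [22, 24, 38, 39]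

def m13_0 : Base := (0, 2, [(0, [0], [2, 3]), (0, [1], [0, 2]), (0, [2], [1, 3])])

def l13_0 : Cov := [(4, 0, 2, [(0, [0], [2, 3]), (0, [1], [0, 2]), (0, [2], [1, 3])]),
  (-4, 0, 2, [(0, [0], [2, 3]), (0, [1], [1, 2]), (0, [2], [0, 3])]),
  (8, 0, 2, [(0, [1], [2, 3]), (0, [0], [0, 2]), (0, [2], [1, 3])]),
  (-8, 0, 2, [(0, [1], [2, 3]), (0, [0], [1, 2]), (0, [2], [0, 3])]),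
  (4, 0, 2, [(0, [2], [2, 3]), (0, [0], [0, 2]), (0, [1], [1, 3])]),
  (-4, 0, 2, [(0, [2], [2, 3]), (0, [0], [1, 2]), (0, [1], [0, 3])])]

def z13_0 : Cov := []

def w13_0 : List (List Wit) := [[(0, 0, 0, 16, 16), (1, 0, 0, 16, 16)],
  [(1, 0, 0, 1, 1), (0, 0, 0, 1, 1)],
  [(2, 0, 0, 16, 16), (3, 0, 0, 16, 16)],
  [(3, 0, 0, 1, 1), (2, 0, 0, 1, 1)],
  [(4, 0, 0, 16, 16), (5, 0, 0, 16, 16)],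
  [(5, 0, 0, 1, 1), (4, 0, 0, 1, 1)]]

theorem tr13 : trK keys lk13 kl13 = true := by
  decide +kernel

theorem x13_0 : expB 3 2 dg13 dg3 m13_0 (l13_0 ++ z13_0) w13_0 = true := by
  decide +kernel

theorem t13_0_0 : chkS lk13 3 2 [(1, m13_0)] l13_0
  [(2, 513, 513, 5386560, 5321760), (0, 528, 528, 4329525, 332850), (3, 33, 258, 2364165, 271665), (1, 18, 18, 4526850, 4530225), (1, 258, 33, 4534560, 4534560), (3, 513, 513, 2371920, 1324320)]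
  [(0, -4), (1, -4), (2, 4), (3, 4)] = true := by
  decide +kernel

section

variable {κ ι : Type*} [Fintype κ] [Fintype ι] [Inhabited κ] [Inhabited ι]

noncomputable def F13_0 (E : Env κ ι) : (Fin 3 → κ) → (Fin 2 → ι) → ℝ := op2 (P13 κ) (P3 ι) (fB E 3 2 m13_0)

def r13_0_0 : List (ℕ × ℤ) := [(0, -4), (1, -4), (2, 4), (3, 4)]

theorem h13_0_0 (E : Env κ ι) : ip (F13_0 E) (F13_0 E) = dotS (ek E lk13) r13_0_0 :=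
  op_entryZ E lk13 3 2 _ _ _ _ (pg13 κ) (pg3 ι) m13_0 m13_0 l13_0 z13_0 w13_0 x13_0 (by decide) _ (chkS_sound E lk13 3 2 _ _ _ _ t13_0_0)

theorem row13_0 (E : Env κ ι) : RowG (ek E lk13) (F13_0 E) [F13_0 E] [r13_0_0] :=
  rowG_cons _ _ _ _ _ _ (h13_0_0 E) (rowG_nil _ _)

def tab13 : List (List (List (ℕ × ℤ))) := [[r13_0_0]]

theorem tri13 (E : Env κ ι) : TriG (ek E lk13) [F13_0 E] tab13 := by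
  refine triG_cons _ _ _ _ _ (row13_0 E) ?_
  exact triG_nil _

end

def lk14 : List Key := [
  (3, 6, [(0, [0], [0, 1]), (0, [1], [2, 3]), (0, [2], [4, 5]), (0, [0], [2, 4]), (0, [1], [0, 5]), (0, [2], [1, 3])]),
  (3, 6, [(0, [0], [0, 1]), (0, [1], [2, 3]), (0, [1], [4, 5]), (0, [0], [2, 4]), (0, [2], [0, 5]), (0, [2], [1, 3])]),
  (3, 6, [(0, [0], [0, 1]), (0, [0], [2, 0]), (0, [1], [3, 1]), (0, [2], [4, 5]), (0, [2], [3, 4]), (0, [1], [2, 5])]),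
  (3, 6, [(0, [0], [0, 1]), (0, [0], [2, 0]), (0, [1], [3, 1]), (0, [2], [2, 4]), (0, [2], [3, 5]), (0, [1], [4, 5])])]

def kl14 : List ℕ := [22, 24, 38, 39]

def m14_0 : Base := (0, 2, [(0, [0], [2, 3]), (0, [1], [0, 2]), (0, [2], [1, 3])])

def l14_0 : Cov := [(24, 0, 2, [(0, [0], [2, 3]), (0, [1], [0, 2]), (0, [2], [1, 3])]),
  (-24, 0, 2, [(0, [0], [2, 3]), (0, [1], [1, 2]), (0, [2], [0, 3])]),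
  (-24, 0, 2, [(0, [1], [2, 3]), (0, [0], [0, 2]), (0, [2], [1, 3])]),
  (24, 0, 2, [(0, [1], [2, 3]), (0, [0], [1, 2]), (0, [2], [0, 3])]),
  (24, 0, 2, [(0, [2], [2, 3]), (0, [0], [0, 2]), (0, [1], [1, 3])]),
  (-24, 0, 2, [(0, [2], [2, 3]), (0, [0], [1, 2]), (0, [1], [0, 3])])]

def z14_0 : Cov := []

def w14_0 : List (List Wit) := [[(0, 0, 0, 16, 16), (1, 0, 0, 16, 16)],
  [(1, 0, 0, 1, 1), (0, 0, 0, 1, 1)],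
  [(2, 0, 0, 16, 16), (3, 0, 0, 16, 16)],
  [(3, 0, 0, 1, 1), (2, 0, 0, 1, 1)],
  [(4, 0, 0, 16, 16), (5, 0, 0, 16, 16)],
  [(5, 0, 0, 1, 1), (4, 0, 0, 1, 1)]]

theorem tr14 : trK keys lk14 kl14 = true := by
  decide +kernel

theorem x14_0 : expB 3 2 dg14 dg3 m14_0 (l14_0 ++ z14_0) w14_0 = true := by
  decide +kernel

theorem t14_0_0 : chkS lk14 3 2 [(1, m14_0)] l14_0
  [(2, 513, 513, 5386560, 5321760), (0, 528, 528, 4329525, 332850), (3, 33, 258, 2364165, 271665), (1, 18, 18, 4526850, 4530225), (1, 258, 33, 4534560, 4534560), (3, 513, 513, 2371920, 1324320)]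
  [(0, -24), (1, 48), (2, 24), (3, -48)] = true := by
  decide +kernel

section

variable {κ ι : Type*} [Fintype κ] [Fintype ι] [Inhabited κ] [Inhabited ι]

noncomputable def F14_0 (E : Env κ ι) : (Fin 3 → κ) → (Fin 2 → ι) → ℝ := op2 (P14 κ) (P3 ι) (fB E 3 2 m14_0)

def r14_0_0 : List (ℕ × ℤ) := [(0, -24), (1, 48), (2, 24), (3, -48)]

theorem h14_0_0 (E : Env κ ι) : ip (F14_0 E) (F14_0 E) = dotS (ek E lk14) r14_0_0 :=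
  op_entryZ E lk14 3 2 _ _ _ _ (pg14 κ) (pg3 ι) m14_0 m14_0 l14_0 z14_0 w14_0 x14_0 (by decide) _ (chkS_sound E lk14 3 2 _ _ _ _ t14_0_0)

theorem row14_0 (E : Env κ ι) : RowG (ek E lk14) (F14_0 E) [F14_0 E] [r14_0_0] :=
  rowG_cons _ _ _ _ _ _ (h14_0_0 E) (rowG_nil _ _)

def tab14 : List (List (List (ℕ × ℤ))) := [[r14_0_0]]

theorem tri14 (E : Env κ ι) : TriG (ek E lk14) [F14_0 E] tab14 := by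
  refine triG_cons _ _ _ _ _ (row14_0 E) ?_
  exact triG_nil _

end

def lk15 : List Key := [
  (3, 6, [(0, [0], [0, 1]), (0, [0], [0, 1]), (0, [1], [2, 3]), (0, [2], [4, 5]), (0, [2], [2, 4]), (0, [1], [3, 5])]),
  (3, 6, [(0, [0], [0, 1]), (0, [0], [0, 1]), (0, [1], [2, 3]), (0, [1], [4, 5]), (0, [2], [2, 4]), (0, [2], [3, 5])]),
  (3, 6, [(0, [0], [0, 1]), (0, [1], [2, 3]), (0, [1], [4, 5]), (0, [0], [2, 4]), (0, [2], [0, 5]), (0, [2], [1, 3])]),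
  (3, 6, [(0, [0], [0, 1]), (0, [1], [0, 2]), (0, [1], [3, 4]), (0, [0], [3, 4]), (0, [2], [2, 5]), (0, [2], [1, 5])]),
  (3, 6, [(0, [0], [0, 1]), (0, [0], [2, 3]), (0, [1], [0, 2]), (0, [2], [1, 3]), (0, [2], [4, 5]), (0, [1], [4, 5])]),
  (3, 6, [(0, [0], [0, 1]), (0, [0], [0, 2]), (0, [1], [1, 2]), (0, [2], [3, 4]), (0, [2], [3, 5]), (0, [1], [4, 5])]),
  (3, 6, [(0, [0], [0, 1]), (0, [0], [2, 0]), (0, [1], [3, 1]), (0, [2], [4, 5]), (0, [2], [2, 4]), (0, [1], [3, 5])]),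
  (3, 6, [(0, [0], [0, 1]), (0, [0], [2, 0]), (0, [1], [3, 1]), (0, [2], [4, 5]), (0, [2], [3, 4]), (0, [1], [2, 5])]),
  (3, 6, [(0, [0], [0, 1]), (0, [0], [2, 0]), (0, [1], [3, 1]), (0, [2], [2, 4]), (0, [2], [3, 5]), (0, [1], [4, 5])]),
  (3, 6, [(0, [0], [0, 1]), (0, [0], [2, 3]), (0, [1], [4, 1]), (0, [2], [2, 5]), (0, [2], [0, 4]), (0, [1], [3, 5])])]

def kl15 : List ℕ := [12, 13, 24, 25, 26, 31, 37, 38, 39, 64]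

def m15_0 : Base := (0, 1, [(0, [0], [0, 4]), (0, [1], [1, 4]), (0, [2], [2, 3])])

def l15_0 : Cov := [(288, 0, 1, [(0, [0], [0, 4]), (0, [1], [1, 4]), (0, [2], [2, 3])]),
  (288, 0, 1, [(0, [0], [0, 4]), (0, [1], [2, 4]), (0, [2], [1, 3])]),
  (288, 0, 1, [(0, [0], [0, 4]), (0, [1], [3, 4]), (0, [2], [1, 2])]),
  (288, 0, 1, [(0, [0], [1, 4]), (0, [1], [0, 4]), (0, [2], [2, 3])]),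
  (288, 0, 1, [(0, [0], [1, 4]), (0, [1], [2, 4]), (0, [2], [0, 3])]),
  (288, 0, 1, [(0, [0], [1, 4]), (0, [1], [3, 4]), (0, [2], [0, 2])]),
  (288, 0, 1, [(0, [0], [2, 4]), (0, [1], [0, 4]), (0, [2], [1, 3])]),
  (288, 0, 1, [(0, [0], [2, 4]), (0, [1], [1, 4]), (0, [2], [0, 3])]),
  (288, 0, 1, [(0, [0], [2, 4]), (0, [1], [3, 4]), (0, [2], [0, 1])]),
  (288, 0, 1, [(0, [0], [3, 4]), (0, [1], [0, 4]), (0, [2], [1, 2])]),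
  (288, 0, 1, [(0, [0], [3, 4]), (0, [1], [1, 4]), (0, [2], [0, 2])]),
  (288, 0, 1, [(0, [0], [3, 4]), (0, [1], [2, 4]), (0, [2], [0, 1])]),
  (-288, 0, 1, [(0, [1], [0, 4]), (0, [2], [1, 4]), (0, [0], [2, 3])]),
  (-288, 0, 1, [(0, [1], [0, 4]), (0, [2], [2, 4]), (0, [0], [1, 3])]),
  (-288, 0, 1, [(0, [1], [0, 4]), (0, [2], [3, 4]), (0, [0], [1, 2])]),
  (-288, 0, 1, [(0, [1], [1, 4]), (0, [2], [0, 4]), (0, [0], [2, 3])]),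
  (-288, 0, 1, [(0, [1], [1, 4]), (0, [2], [2, 4]), (0, [0], [0, 3])]),
  (-288, 0, 1, [(0, [1], [1, 4]), (0, [2], [3, 4]), (0, [0], [0, 2])]),
  (-288, 0, 1, [(0, [1], [2, 4]), (0, [2], [0, 4]), (0, [0], [1, 3])]),
  (-288, 0, 1, [(0, [1], [2, 4]), (0, [2], [1, 4]), (0, [0], [0, 3])]),
  (-288, 0, 1, [(0, [1], [2, 4]), (0, [2], [3, 4]), (0, [0], [0, 1])]),
  (-288, 0, 1, [(0, [1], [3, 4]), (0, [2], [0, 4]), (0, [0], [1, 2])]),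
  (-288, 0, 1, [(0, [1], [3, 4]), (0, [2], [1, 4]), (0, [0], [0, 2])]),
  (-288, 0, 1, [(0, [1], [3, 4]), (0, [2], [2, 4]), (0, [0], [0, 1])])]

def z15_0 : Cov := [(0, 0, 1, [(0, [0], [0, 4]), (0, [2], [1, 4]), (0, [1], [2, 3])]),
  (0, 0, 1, [(0, [0], [0, 4]), (0, [2], [2, 4]), (0, [1], [1, 3])]),
  (0, 0, 1, [(0, [0], [0, 4]), (0, [2], [3, 4]), (0, [1], [1, 2])]),
  (0, 0, 1, [(0, [0], [1, 4]), (0, [2], [0, 4]), (0, [1], [2, 3])]),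
  (0, 0, 1, [(0, [0], [1, 4]), (0, [2], [2, 4]), (0, [1], [0, 3])]),
  (0, 0, 1, [(0, [0], [1, 4]), (0, [2], [3, 4]), (0, [1], [0, 2])]),
  (0, 0, 1, [(0, [0], [2, 4]), (0, [2], [0, 4]), (0, [1], [1, 3])]),
  (0, 0, 1, [(0, [0], [2, 4]), (0, [2], [1, 4]), (0, [1], [0, 3])]),
  (0, 0, 1, [(0, [0], [2, 4]), (0, [2], [3, 4]), (0, [1], [0, 1])]),
  (0, 0, 1, [(0, [0], [3, 4]), (0, [2], [0, 4]), (0, [1], [1, 2])]),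
  (0, 0, 1, [(0, [0], [3, 4]), (0, [2], [1, 4]), (0, [1], [0, 2])]),
  (0, 0, 1, [(0, [0], [3, 4]), (0, [2], [2, 4]), (0, [1], [0, 1])])]

def w15_0 : List (List Wit) := [[(0, 0, 0, 0, 0), (0, 0, 0, 0, 0), (1, 0, 0, 0, 0), (1, 0, 0, 0, 0), (2, 0, 0, 0, 0), (2, 0, 0, 0, 0), (3, 0, 0, 0, 0), (3, 0, 0, 0, 0), (4, 0, 0, 0, 0), (4, 0, 0, 0, 0), (5, 0, 0, 0, 0), (5, 0, 0, 0, 0), (6, 0, 0, 0, 0), (6, 0, 0, 0, 0), (7, 0, 0, 0, 0), (7, 0, 0, 0, 0), (8, 0, 0, 0, 0), (8, 0, 0, 0, 0), (9, 0, 0, 0, 0), (9, 0, 0, 0, 0), (10, 0, 0, 0, 0), (10, 0, 0, 0, 0), (11, 0, 0, 0, 0), (11, 0, 0, 0, 0)],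
  [(24, 0, 0, 0, 0), (24, 0, 0, 0, 0), (25, 0, 0, 0, 0), (25, 0, 0, 0, 0), (26, 0, 0, 0, 0), (26, 0, 0, 0, 0), (27, 0, 0, 0, 0), (27, 0, 0, 0, 0), (28, 0, 0, 0, 0), (28, 0, 0, 0, 0), (29, 0, 0, 0, 0), (29, 0, 0, 0, 0), (30, 0, 0, 0, 0), (30, 0, 0, 0, 0), (31, 0, 0, 0, 0), (31, 0, 0, 0, 0), (32, 0, 0, 0, 0), (32, 0, 0, 0, 0), (33, 0, 0, 0, 0), (33, 0, 0, 0, 0), (34, 0, 0, 0, 0), (34, 0, 0, 0, 0), (35, 0, 0, 0, 0), (35, 0, 0, 0, 0)],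
  [(3, 0, 0, 0, 0), (3, 0, 0, 0, 0), (6, 0, 0, 0, 0), (6, 0, 0, 0, 0), (9, 0, 0, 0, 0), (9, 0, 0, 0, 0), (0, 0, 0, 0, 0), (0, 0, 0, 0, 0), (7, 0, 0, 0, 0), (7, 0, 0, 0, 0), (10, 0, 0, 0, 0), (10, 0, 0, 0, 0), (1, 0, 0, 0, 0), (1, 0, 0, 0, 0), (4, 0, 0, 0, 0), (4, 0, 0, 0, 0), (11, 0, 0, 0, 0), (11, 0, 0, 0, 0), (2, 0, 0, 0, 0), (2, 0, 0, 0, 0), (5, 0, 0, 0, 0), (5, 0, 0, 0, 0), (8, 0, 0, 0, 0), (8, 0, 0, 0, 0)],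
  [(12, 0, 0, 0, 0), (12, 0, 0, 0, 0), (13, 0, 0, 0, 0), (13, 0, 0, 0, 0), (14, 0, 0, 0, 0), (14, 0, 0, 0, 0), (15, 0, 0, 0, 0), (15, 0, 0, 0, 0), (16, 0, 0, 0, 0), (16, 0, 0, 0, 0), (17, 0, 0, 0, 0), (17, 0, 0, 0, 0), (18, 0, 0, 0, 0), (18, 0, 0, 0, 0), (19, 0, 0, 0, 0), (19, 0, 0, 0, 0), (20, 0, 0, 0, 0), (20, 0, 0, 0, 0), (21, 0, 0, 0, 0), (21, 0, 0, 0, 0), (22, 0, 0, 0, 0), (22, 0, 0, 0, 0), (23, 0, 0, 0, 0), (23, 0, 0, 0, 0)],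
  [(27, 0, 0, 0, 0), (27, 0, 0, 0, 0), (30, 0, 0, 0, 0), (30, 0, 0, 0, 0), (33, 0, 0, 0, 0), (33, 0, 0, 0, 0), (24, 0, 0, 0, 0), (24, 0, 0, 0, 0), (31, 0, 0, 0, 0), (31, 0, 0, 0, 0), (34, 0, 0, 0, 0), (34, 0, 0, 0, 0), (25, 0, 0, 0, 0), (25, 0, 0, 0, 0), (28, 0, 0, 0, 0), (28, 0, 0, 0, 0), (35, 0, 0, 0, 0), (35, 0, 0, 0, 0), (26, 0, 0, 0, 0), (26, 0, 0, 0, 0), (29, 0, 0, 0, 0), (29, 0, 0, 0, 0), (32, 0, 0, 0, 0), (32, 0, 0, 0, 0)],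
  [(15, 0, 0, 0, 0), (15, 0, 0, 0, 0), (18, 0, 0, 0, 0), (18, 0, 0, 0, 0), (21, 0, 0, 0, 0), (21, 0, 0, 0, 0), (12, 0, 0, 0, 0), (12, 0, 0, 0, 0), (19, 0, 0, 0, 0), (19, 0, 0, 0, 0), (22, 0, 0, 0, 0), (22, 0, 0, 0, 0), (13, 0, 0, 0, 0), (13, 0, 0, 0, 0), (16, 0, 0, 0, 0), (16, 0, 0, 0, 0), (23, 0, 0, 0, 0), (23, 0, 0, 0, 0), (14, 0, 0, 0, 0), (14, 0, 0, 0, 0), (17, 0, 0, 0, 0), (17, 0, 0, 0, 0), (20, 0, 0, 0, 0), (20, 0, 0, 0, 0)]]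

theorem tr15 : trK keys lk15 kl15 = true := by
  decide +kernel

theorem x15_0 : expB 3 4 dg13 dg4 m15_0 (l15_0 ++ z15_0) w15_0 = true := by
  decide +kernel

theorem t15_0_0 : chkS lk15 3 4 [(1, m15_0)] l15_0
  [(0, 33, 258, 5378115, 5309490), (7, 528, 528, 2180400, 2299200), (7, 528, 528, 2184240, 3282240), (1, 33, 258, 4395090, 1392690), (8, 18, 18, 3408210, 1331235), (8, 18, 18, 3412050, 1331250), (8, 33, 258, 3408165, 282915), (7, 513, 513, 2180355, 2295105), (9, 528, 528, 3232320, 3232320), (8, 33, 258, 3412005, 282930), (7, 513, 513, 2184195, 3278145), (9, 528, 528, 3220800, 2184000), (4, 258, 33, 2184195, 3278145), (8, 33, 258, 2428980, 4199730), (8, 33, 258, 2425140, 4199715), (3, 288, 288, 2179920, 1254720), (6, 528, 528, 5317680, 5378880),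 (6, 528, 528, 5325360, 5444160), (2, 258, 33, 2184195, 3278145), (8, 528, 528, 5317680, 5378880), (5, 528, 528, 5321760, 5386560), (2, 258, 33, 2180355, 2295105), (8, 528, 528, 5325360, 5444160), (5, 528, 528, 5325600, 5448000)]
  [(0, 288), (1, 288), (2, -576), (3, -288), (4, -288), (5, -576), (6, -576), (7, 1152), (9, 576)] = true := by
  decide +kernel

section

variable {κ ι : Type*} [Fintype κ] [Fintype ι] [Inhabited κ] [Inhabited ι]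

noncomputable def F15_0 (E : Env κ ι) : (Fin 3 → κ) → (Fin 4 → ι) → ℝ := op2 (P13 κ) (P4 ι) (fB E 3 4 m15_0)

def r15_0_0 : List (ℕ × ℤ) := [(0, 288), (1, 288), (2, -576), (3, -288), (4, -288), (5, -576), (6, -576), (7, 1152), (9, 576)]

theorem h15_0_0 (E : Env κ ι) : ip (F15_0 E) (F15_0 E) = dotS (ek E lk15) r15_0_0 :=
  op_entryZ E lk15 3 4 _ _ _ _ (pg13 κ) (pg4 ι) m15_0 m15_0 l15_0 z15_0 w15_0 x15_0 (by decide) _ (chkS_sound E lk15 3 4 _ _ _ _ t15_0_0)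

theorem row15_0 (E : Env κ ι) : RowG (ek E lk15) (F15_0 E) [F15_0 E] [r15_0_0] :=
  rowG_cons _ _ _ _ _ _ (h15_0_0 E) (rowG_nil _ _)

def tab15 : List (List (List (ℕ × ℤ))) := [[r15_0_0]]

theorem tri15 (E : Env κ ι) : TriG (ek E lk15) [F15_0 E] tab15 := by
  refine triG_cons _ _ _ _ _ (row15_0 E) ?_
  exact triG_nil _

end

def lk16 : List Key := [
  (3, 6, [(0, [0], [0, 1]), (0, [0], [0, 1]), (0, [1], [2, 3]), (0, [2], [4, 5]), (0, [2], [2, 4]), (0, [1], [3, 5])]),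
  (3, 6, [(0, [0], [0, 1]), (0, [0], [0, 1]), (0, [1], [2, 3]), (0, [1], [4, 5]), (0, [2], [2, 4]), (0, [2], [3, 5])]),
  (3, 6, [(0, [0], [0, 1]), (0, [1], [2, 3]), (0, [1], [4, 5]), (0, [0], [2, 4]), (0, [2], [0, 5]), (0, [2], [1, 3])]),
  (3, 6, [(0, [0], [0, 1]), (0, [1], [0, 2]), (0, [1], [3, 4]), (0, [0], [3, 4]), (0, [2], [2, 5]), (0, [2], [1, 5])]),
  (3, 6, [(0, [0], [0, 1]), (0, [0], [2, 3]), (0, [1], [0, 2]), (0, [2], [1, 3]), (0, [2], [4, 5]), (0, [1], [4, 5])]),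
  (3, 6, [(0, [0], [0, 1]), (0, [0], [0, 2]), (0, [1], [1, 2]), (0, [2], [3, 4]), (0, [2], [3, 5]), (0, [1], [4, 5])]),
  (3, 6, [(0, [0], [0, 1]), (0, [0], [2, 0]), (0, [1], [3, 1]), (0, [2], [4, 5]), (0, [2], [2, 4]), (0, [1], [3, 5])]),
  (3, 6, [(0, [0], [0, 1]), (0, [0], [2, 0]), (0, [1], [3, 1]), (0, [2], [4, 5]), (0, [2], [3, 4]), (0, [1], [2, 5])]),
  (3, 6, [(0, [0], [0, 1]), (0, [0], [2, 0]), (0, [1], [3, 1]), (0, [2], [2, 4]), (0, [2], [3, 5]), (0, [1], [4, 5])]),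
  (3, 6, [(0, [0], [0, 1]), (0, [0], [2, 3]), (0, [1], [4, 1]), (0, [2], [2, 5]), (0, [2], [0, 4]), (0, [1], [3, 5])])]

def kl16 : List ℕ := [12, 13, 24, 25, 26, 31, 37, 38, 39, 64]

def m16_0 : Base := (0, 1, [(0, [0], [0, 4]), (0, [1], [1, 4]), (0, [2], [2, 3])])

def l16_0 : Cov := [(84, 0, 1, [(0, [0], [0, 4]), (0, [1], [1, 4]), (0, [2], [2, 3])]),
  (84, 0, 1, [(0, [0], [0, 4]), (0, [1], [2, 4]), (0, [2], [1, 3])]),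
  (24, 0, 1, [(0, [0], [0, 4]), (0, [1], [3, 4]), (0, [2], [1, 2])]),
  (60, 0, 1, [(0, [0], [1, 4]), (0, [1], [0, 4]), (0, [2], [2, 3])]),
  (-60, 0, 1, [(0, [0], [1, 4]), (0, [1], [3, 4]), (0, [2], [2, 0])]),
  (60, 0, 1, [(0, [0], [2, 4]), (0, [1], [0, 4]), (0, [2], [1, 3])]),
  (-60, 0, 1, [(0, [0], [2, 4]), (0, [1], [3, 4]), (0, [2], [1, 0])]),
  (-24, 0, 1, [(0, [0], [3, 4]), (0, [1], [0, 4]), (0, [2], [1, 2])]),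
  (-84, 0, 1, [(0, [0], [3, 4]), (0, [1], [1, 4]), (0, [2], [0, 2])]),
  (-84, 0, 1, [(0, [0], [3, 4]), (0, [1], [2, 4]), (0, [2], [0, 1])]),
  (24, 0, 1, [(0, [0], [0, 4]), (0, [2], [1, 4]), (0, [1], [2, 3])]),
  (24, 0, 1, [(0, [0], [0, 4]), (0, [2], [2, 4]), (0, [1], [1, 3])]),
  (48, 0, 1, [(0, [0], [0, 4]), (0, [2], [3, 4]), (0, [1], [1, 2])]),
  (-24, 0, 1, [(0, [0], [1, 4]), (0, [2], [0, 4]), (0, [1], [2, 3])]),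
  (24, 0, 1, [(0, [0], [1, 4]), (0, [2], [3, 4]), (0, [1], [2, 0])]),
  (-24, 0, 1, [(0, [0], [2, 4]), (0, [2], [0, 4]), (0, [1], [1, 3])]),
  (24, 0, 1, [(0, [0], [2, 4]), (0, [2], [3, 4]), (0, [1], [1, 0])]),
  (-48, 0, 1, [(0, [0], [3, 4]), (0, [2], [0, 4]), (0, [1], [1, 2])]),
  (-24, 0, 1, [(0, [0], [3, 4]), (0, [2], [1, 4]), (0, [1], [0, 2])]),
  (-24, 0, 1, [(0, [0], [3, 4]), (0, [2], [2, 4]), (0, [1], [0, 1])]),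
  (-60, 0, 1, [(0, [1], [0, 4]), (0, [2], [1, 4]), (0, [0], [2, 3])]),
  (-60, 0, 1, [(0, [1], [0, 4]), (0, [2], [2, 4]), (0, [0], [1, 3])]),
  (24, 0, 1, [(0, [1], [0, 4]), (0, [2], [3, 4]), (0, [0], [1, 2])]),
  (-84, 0, 1, [(0, [1], [1, 4]), (0, [2], [0, 4]), (0, [0], [2, 3])]),
  (84, 0, 1, [(0, [1], [1, 4]), (0, [2], [3, 4]), (0, [0], [2, 0])]),
  (-84, 0, 1, [(0, [1], [2, 4]), (0, [2], [0, 4]), (0, [0], [1, 3])]),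
  (84, 0, 1, [(0, [1], [2, 4]), (0, [2], [3, 4]), (0, [0], [1, 0])]),
  (-24, 0, 1, [(0, [1], [3, 4]), (0, [2], [0, 4]), (0, [0], [1, 2])]),
  (60, 0, 1, [(0, [1], [3, 4]), (0, [2], [1, 4]), (0, [0], [0, 2])]),
  (60, 0, 1, [(0, [1], [3, 4]), (0, [2], [2, 4]), (0, [0], [0, 1])])]

def z16_0 : Cov := [(0, 0, 1, [(0, [0], [1, 4]), (0, [1], [2, 4]), (0, [2], [0, 3])]),
  (0, 0, 1, [(0, [0], [2, 4]), (0, [1], [1, 4]), (0, [2], [0, 3])]),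
  (0, 0, 1, [(0, [0], [1, 4]), (0, [2], [2, 4]), (0, [1], [0, 3])]),
  (0, 0, 1, [(0, [0], [2, 4]), (0, [2], [1, 4]), (0, [1], [0, 3])]),
  (0, 0, 1, [(0, [1], [1, 4]), (0, [2], [2, 4]), (0, [0], [0, 3])]),
  (0, 0, 1, [(0, [1], [2, 4]), (0, [2], [1, 4]), (0, [0], [0, 3])])]

def w16_0 : List (List Wit) := [[(0, 0, 0, 0, 0), (0, 0, 0, 0, 0), (1, 0, 0, 0, 0), (1, 0, 0, 0, 0), (2, 0, 0, 0, 0), (2, 0, 0, 0, 0), (3, 0, 0, 0, 0), (30, 0, 0, 0, 0), (30, 0, 0, 0, 0), (4, 0, 0, 0, 0), (5, 0, 0, 0, 0), (31, 0, 0, 0, 0), (31, 0, 0, 0, 0), (6, 0, 0, 0, 0), (7, 0, 0, 0, 0), (7, 0, 0, 0, 0), (8, 0, 0, 0, 0), (8, 0, 0, 0, 0), (9, 0, 0, 0, 0), (9, 0, 0, 0, 0)],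
  [(10, 0, 0, 0, 0), (10, 0, 0, 0, 0), (11, 0, 0, 0, 0), (11, 0, 0, 0, 0), (12, 0, 0, 0, 0), (12, 0, 0, 0, 0), (13, 0, 0, 0, 0), (32, 0, 0, 0, 0), (32, 0, 0, 0, 0), (14, 0, 0, 0, 0), (15, 0, 0, 0, 0), (33, 0, 0, 0, 0), (33, 0, 0, 0, 0), (16, 0, 0, 0, 0), (17, 0, 0, 0, 0), (17, 0, 0, 0, 0), (18, 0, 0, 0, 0), (18, 0, 0, 0, 0), (19, 0, 0, 0, 0), (19, 0, 0, 0, 0)],
  [(3, 0, 0, 0, 0), (3, 0, 0, 0, 0), (5, 0, 0, 0, 0), (5, 0, 0, 0, 0), (7, 0, 0, 0, 0), (7, 0, 0, 0, 0), (0, 0, 0, 0, 0), (31, 0, 0, 0, 0), (31, 0, 0, 0, 0), (8, 0, 0, 0, 0), (1, 0, 0, 0, 0), (30, 0, 0, 0, 0), (30, 0, 0, 0, 0), (9, 0, 0, 0, 0), (2, 0, 0, 0, 0), (2, 0, 0, 0, 0), (4, 0, 0, 0, 0), (4, 0, 0, 0, 0), (6, 0, 0, 0, 0), (6, 0, 0, 0, 0)],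
  [(20, 0, 0, 0, 0), (20, 0, 0, 0, 0), (21, 0, 0, 0, 0), (21, 0, 0, 0, 0), (22, 0, 0, 0, 0), (22, 0, 0, 0, 0), (23, 0, 0, 0, 0), (34, 0, 0, 0, 0), (34, 0, 0, 0, 0), (24, 0, 0, 0, 0), (25, 0, 0, 0, 0), (35, 0, 0, 0, 0), (35, 0, 0, 0, 0), (26, 0, 0, 0, 0), (27, 0, 0, 0, 0), (27, 0, 0, 0, 0), (28, 0, 0, 0, 0), (28, 0, 0, 0, 0), (29, 0, 0, 0, 0), (29, 0, 0, 0, 0)],
  [(13, 0, 0, 0, 0), (13, 0, 0, 0, 0), (15, 0, 0, 0, 0), (15, 0, 0, 0, 0), (17, 0, 0, 0, 0), (17, 0, 0, 0, 0), (10, 0, 0, 0, 0), (33, 0, 0, 0, 0), (33, 0, 0, 0, 0), (18, 0, 0, 0, 0), (11, 0, 0, 0, 0), (32, 0, 0, 0, 0), (32, 0, 0, 0, 0), (19, 0, 0, 0, 0), (12, 0, 0, 0, 0), (12, 0, 0, 0, 0), (14, 0, 0, 0, 0), (14, 0, 0, 0, 0), (16, 0, 0, 0, 0), (16, 0, 0, 0, 0)],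
  [(23, 0, 0, 0, 0), (23, 0, 0, 0, 0), (25, 0, 0, 0, 0), (25, 0, 0, 0, 0), (27, 0, 0, 0, 0), (27, 0, 0, 0, 0), (20, 0, 0, 0, 0), (35, 0, 0, 0, 0), (35, 0, 0, 0, 0), (28, 0, 0, 0, 0), (21, 0, 0, 0, 0), (34, 0, 0, 0, 0), (34, 0, 0, 0, 0), (29, 0, 0, 0, 0), (22, 0, 0, 0, 0), (22, 0, 0, 0, 0), (24, 0, 0, 0, 0), (24, 0, 0, 0, 0), (26, 0, 0, 0, 0), (26, 0, 0, 0, 0)]]

def m16_1 : Base := (0, 1, [(0, [0], [0, 4]), (0, [1], [1, 2]), (0, [2], [3, 4])])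

def l16_1 : Cov := [(192, 0, 1, [(0, [0], [0, 4]), (0, [1], [1, 2]), (0, [2], [3, 4])]),
  (96, 0, 1, [(0, [0], [0, 4]), (0, [1], [1, 3]), (0, [2], [2, 4])]),
  (96, 0, 1, [(0, [0], [0, 4]), (0, [1], [2, 3]), (0, [2], [1, 4])]),
  (96, 0, 1, [(0, [0], [1, 4]), (0, [1], [0, 2]), (0, [2], [3, 4])]),
  (-96, 0, 1, [(0, [0], [1, 4]), (0, [1], [2, 3]), (0, [2], [0, 4])]),
  (96, 0, 1, [(0, [0], [2, 4]), (0, [1], [0, 1]), (0, [2], [3, 4])]),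
  (-96, 0, 1, [(0, [0], [2, 4]), (0, [1], [1, 3]), (0, [2], [0, 4])]),
  (-96, 0, 1, [(0, [0], [3, 4]), (0, [1], [0, 1]), (0, [2], [2, 4])]),
  (-96, 0, 1, [(0, [0], [3, 4]), (0, [1], [0, 2]), (0, [2], [1, 4])]),
  (-192, 0, 1, [(0, [0], [3, 4]), (0, [1], [1, 2]), (0, [2], [0, 4])]),
  (96, 0, 1, [(0, [0], [0, 4]), (0, [2], [1, 2]), (0, [1], [3, 4])]),
  (48, 0, 1, [(0, [0], [0, 4]), (0, [2], [1, 3]), (0, [1], [2, 4])]),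
  (48, 0, 1, [(0, [0], [0, 4]), (0, [2], [2, 3]), (0, [1], [1, 4])]),
  (48, 0, 1, [(0, [0], [1, 4]), (0, [2], [0, 2]), (0, [1], [3, 4])]),
  (-48, 0, 1, [(0, [0], [1, 4]), (0, [2], [2, 3]), (0, [1], [0, 4])]),
  (48, 0, 1, [(0, [0], [2, 4]), (0, [2], [0, 1]), (0, [1], [3, 4])]),
  (-48, 0, 1, [(0, [0], [2, 4]), (0, [2], [1, 3]), (0, [1], [0, 4])]),
  (-48, 0, 1, [(0, [0], [3, 4]), (0, [2], [0, 1]), (0, [1], [2, 4])]),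
  (-48, 0, 1, [(0, [0], [3, 4]), (0, [2], [0, 2]), (0, [1], [1, 4])]),
  (-96, 0, 1, [(0, [0], [3, 4]), (0, [2], [1, 2]), (0, [1], [0, 4])]),
  (96, 0, 1, [(0, [1], [0, 4]), (0, [0], [1, 2]), (0, [2], [3, 4])]),
  (48, 0, 1, [(0, [1], [0, 4]), (0, [0], [1, 3]), (0, [2], [2, 4])]),
  (48, 0, 1, [(0, [1], [0, 4]), (0, [0], [2, 3]), (0, [2], [1, 4])]),
  (48, 0, 1, [(0, [1], [1, 4]), (0, [0], [0, 2]), (0, [2], [3, 4])]),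
  (-48, 0, 1, [(0, [1], [1, 4]), (0, [0], [2, 3]), (0, [2], [0, 4])]),
  (48, 0, 1, [(0, [1], [2, 4]), (0, [0], [0, 1]), (0, [2], [3, 4])]),
  (-48, 0, 1, [(0, [1], [2, 4]), (0, [0], [1, 3]), (0, [2], [0, 4])]),
  (-48, 0, 1, [(0, [1], [3, 4]), (0, [0], [0, 1]), (0, [2], [2, 4])]),
  (-48, 0, 1, [(0, [1], [3, 4]), (0, [0], [0, 2]), (0, [2], [1, 4])]),
  (-96, 0, 1, [(0, [1], [3, 4]), (0, [0], [1, 2]), (0, [2], [0, 4])])]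

def z16_1 : Cov := []

def w16_1 : List (List Wit) := [[(0, 0, 0, 0, 0), (1, 0, 0, 0, 0), (0, 0, 0, 0, 0), (2, 0, 0, 0, 0), (1, 0, 0, 0, 0), (2, 0, 0, 0, 0), (3, 0, 0, 0, 0), (3, 0, 0, 0, 0), (4, 0, 0, 0, 0), (4, 0, 0, 0, 0), (5, 0, 0, 0, 0), (5, 0, 0, 0, 0), (6, 0, 0, 0, 0), (6, 0, 0, 0, 0), (7, 0, 0, 0, 0), (8, 0, 0, 0, 0), (7, 0, 0, 0, 0), (9, 0, 0, 0, 0), (8, 0, 0, 0, 0), (9, 0, 0, 0, 0)],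
  [(10, 0, 0, 0, 0), (11, 0, 0, 0, 0), (10, 0, 0, 0, 0), (12, 0, 0, 0, 0), (11, 0, 0, 0, 0), (12, 0, 0, 0, 0), (13, 0, 0, 0, 0), (13, 0, 0, 0, 0), (14, 0, 0, 0, 0), (14, 0, 0, 0, 0), (15, 0, 0, 0, 0), (15, 0, 0, 0, 0), (16, 0, 0, 0, 0), (16, 0, 0, 0, 0), (17, 0, 0, 0, 0), (18, 0, 0, 0, 0), (17, 0, 0, 0, 0), (19, 0, 0, 0, 0), (18, 0, 0, 0, 0), (19, 0, 0, 0, 0)],
  [(20, 0, 0, 0, 0), (21, 0, 0, 0, 0), (20, 0, 0, 0, 0), (22, 0, 0, 0, 0), (21, 0, 0, 0, 0), (22, 0, 0, 0, 0), (23, 0, 0, 0, 0), (23, 0, 0, 0, 0), (24, 0, 0, 0, 0), (24, 0, 0, 0, 0), (25, 0, 0, 0, 0), (25, 0, 0, 0, 0), (26, 0, 0, 0, 0), (26, 0, 0, 0, 0), (27, 0, 0, 0, 0), (28, 0, 0, 0, 0), (27, 0, 0, 0, 0), (29, 0, 0, 0, 0), (28, 0, 0, 0, 0), (29, 0, 0, 0, 0)],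
  [(19, 0, 0, 0, 0), (16, 0, 0, 0, 0), (19, 0, 0, 0, 0), (14, 0, 0, 0, 0), (16, 0, 0, 0, 0), (14, 0, 0, 0, 0), (18, 0, 0, 0, 0), (18, 0, 0, 0, 0), (12, 0, 0, 0, 0), (12, 0, 0, 0, 0), (17, 0, 0, 0, 0), (17, 0, 0, 0, 0), (11, 0, 0, 0, 0), (11, 0, 0, 0, 0), (15, 0, 0, 0, 0), (13, 0, 0, 0, 0), (15, 0, 0, 0, 0), (10, 0, 0, 0, 0), (13, 0, 0, 0, 0), (10, 0, 0, 0, 0)],
  [(29, 0, 0, 0, 0), (26, 0, 0, 0, 0), (29, 0, 0, 0, 0), (24, 0, 0, 0, 0), (26, 0, 0, 0, 0), (24, 0, 0, 0, 0), (28, 0, 0, 0, 0), (28, 0, 0, 0, 0), (22, 0, 0, 0, 0), (22, 0, 0, 0, 0), (27, 0, 0, 0, 0), (27, 0, 0, 0, 0), (21, 0, 0, 0, 0), (21, 0, 0, 0, 0), (25, 0, 0, 0, 0), (23, 0, 0, 0, 0), (25, 0, 0, 0, 0), (20, 0, 0, 0, 0), (23, 0, 0, 0, 0), (20, 0, 0, 0, 0)],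
  [(9, 0, 0, 0, 0), (6, 0, 0, 0, 0), (9, 0, 0, 0, 0), (4, 0, 0, 0, 0), (6, 0, 0, 0, 0), (4, 0, 0, 0, 0), (8, 0, 0, 0, 0), (8, 0, 0, 0, 0), (2, 0, 0, 0, 0), (2, 0, 0, 0, 0), (7, 0, 0, 0, 0), (7, 0, 0, 0, 0), (1, 0, 0, 0, 0), (1, 0, 0, 0, 0), (5, 0, 0, 0, 0), (3, 0, 0, 0, 0), (5, 0, 0, 0, 0), (0, 0, 0, 0, 0), (3, 0, 0, 0, 0), (0, 0, 0, 0, 0)]]

theorem tr16 : trK keys lk16 kl16 = true := by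
  decide +kernel

theorem x16_0 : expB 3 4 dg13 dg5 m16_0 (l16_0 ++ z16_0) w16_0 = true := by
  decide +kernel

theorem x16_1 : expB 3 4 dg13 dg5 m16_1 (l16_1 ++ z16_1) w16_1 = true := by
  decide +kernel

theorem t16_0_0 : chkS lk16 3 4 [(1, m16_0)] l16_0
  [(0, 33, 258, 5378115, 5309490), (7, 528, 528, 2180400, 2299200), (7, 528, 528, 2184240, 3282240), (1, 33, 258, 4395090, 1392690), (8, 18, 18, 3412050, 1331250), (8, 33, 258, 3408165, 282915), (9, 528, 528, 3232320, 3232320), (8, 33, 258, 3412005, 282930), (7, 513, 513, 2184195, 3278145), (9, 528, 528, 3220800, 2184000), (3, 258, 33, 2179845, 206145), (6, 528, 528, 2184240, 3282240), (6, 528, 528, 2180400, 2299200), (4, 288, 288, 2184240, 3282240), (8, 18, 18, 2425155, 4261155), (8, 513, 513, 5317635,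 5374785), (5, 513, 513, 5321730, 5386305), (8, 513, 513, 5325315, 5440065), (2, 288, 288, 2180400, 2299200), (5, 513, 513, 5325570, 5447745), (4, 258, 33, 2184195, 3278145), (8, 33, 258, 2428980, 4199730), (8, 33, 258, 2425140, 4199715), (3, 288, 288, 2179920, 1254720), (6, 528, 528, 5325360, 5444160), (2, 258, 33, 2184195, 3278145), (5, 528, 528, 5321760, 5386560), (2, 258, 33, 2180355, 2295105), (8, 528, 528, 5325360, 5444160), (5, 528, 528, 5325600, 5448000)]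
  [(0, 84), (1, 60), (2, -132), (3, -60), (4, -84), (5, 144), (6, 156), (7, 24), (8, -48), (9, -144)] = true := by
  decide +kernel

theorem t16_0_1 : chkS lk16 3 4 [(1, m16_0)] l16_1
  [(6, 528, 528, 2180400, 2299200), (6, 528, 528, 2184240, 3282240), (3, 258, 33, 2179845, 206145), (8, 18, 18, 2425155, 4261155), (4, 288, 288, 2184240, 3282240), (5, 513, 513, 5321730, 5386305), (8, 513, 513, 5317635, 5374785), (5, 513, 513, 5325570, 5447745), (2, 288, 288, 2180400, 2299200), (8, 513, 513, 5325315, 5440065), (7, 528, 528, 2184240, 3282240), (7, 528, 528, 2180400, 2299200), (0, 33, 258, 5378115, 5309490), (8, 18, 18, 3412050, 1331250), (1, 33, 258, 4395090, 1392690), (9, 528, 528, 3232320, 3232320), (8, 33, 258, 3408165, 282915), (9, 528, 528, 3220800,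 2184000), (7, 513, 513, 2184195, 3278145), (8, 33, 258, 3412005, 282930), (8, 33, 258, 2425140, 4199715), (8, 33, 258, 2428980, 4199730), (4, 258, 33, 2184195, 3278145), (6, 528, 528, 5325360, 5444160), (3, 288, 288, 2179920, 1254720), (5, 528, 528, 5321760, 5386560), (2, 258, 33, 2184195, 3278145), (5, 528, 528, 5325600, 5448000), (8, 528, 528, 5325360, 5444160), (2, 258, 33, 2180355, 2295105)]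
  [(0, 48), (1, -48), (2, -240), (3, 48), (4, -48), (6, 336), (7, 96), (8, -192), (9, 0)] = true := by
  decide +kernel

theorem t16_1_1 : chkS lk16 3 4 [(1, m16_1)] l16_1
  [(0, 513, 513, 5390595, 5440545), (7, 288, 288, 2176320, 2176320), (7, 288, 288, 2176080, 1193280), (7, 513, 513, 3489810, 4411410), (8, 513, 513, 3416085, 283410), (7, 513, 513, 3490050, 4411425), (8, 513, 513, 3416325, 283425), (8, 258, 33, 3428610, 3428385), (8, 258, 33, 3428370, 3428370), (1, 513, 513, 4411650, 3489825), (3, 18, 18, 2163765, 136515), (6, 288, 288, 2176080, 1193280), (6, 288, 288, 2176320, 2176320), (2, 528, 528, 2176320, 2176320), (8, 33, 258, 5308995, 5308995), (2, 528, 528, 2176080, 1193280), (8, 33, 258, 5309475, 5374275), (8, 258, 33, 2441235, 4392210), (8,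 258, 33, 2441475, 4392225), (4, 528, 528, 2176320, 2176320), (3, 528, 528, 2184240, 3282240), (2, 18, 18, 2163795, 1180995), (2, 18, 18, 2164035, 2164035), (6, 288, 288, 5321280, 5321280), (8, 513, 513, 2437380, 4207905), (6, 288, 288, 5321760, 5386560), (8, 513, 513, 2437140, 4207890), (8, 288, 288, 5321760, 5386560), (8, 288, 288, 5321280, 5321280), (4, 18, 18, 2164035, 2164035)]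
  [(0, 192), (1, -192), (2, 192), (3, 192), (4, -192), (6, 192), (7, 384), (8, -768)] = true := by
  decide +kernel

section

variable {κ ι : Type*} [Fintype κ] [Fintype ι] [Inhabited κ] [Inhabited ι]

noncomputable def F16_0 (E : Env κ ι) : (Fin 3 → κ) → (Fin 4 → ι) → ℝ := op2 (P13 κ) (P5 ι) (fB E 3 4 m16_0)

noncomputable def F16_1 (E : Env κ ι) : (Fin 3 → κ) → (Fin 4 → ι) → ℝ := op2 (P13 κ) (P5 ι) (fB E 3 4 m16_1)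

def r16_0_0 : List (ℕ × ℤ) := [(0, 84), (1, 60), (2, -132), (3, -60), (4, -84), (5, 144), (6, 156), (7, 24), (8, -48), (9, -144)]

theorem h16_0_0 (E : Env κ ι) : ip (F16_0 E) (F16_0 E) = dotS (ek E lk16) r16_0_0 :=
  op_entryZ E lk16 3 4 _ _ _ _ (pg13 κ) (pg5 ι) m16_0 m16_0 l16_0 z16_0 w16_0 x16_0 (by decide) _ (chkS_sound E lk16 3 4 _ _ _ _ t16_0_0)

def r16_0_1 : List (ℕ × ℤ) := [(0, 48), (1, -48), (2, -240), (3, 48), (4, -48), (6, 336), (7, 96), (8, -192), (9, 0)]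

theorem h16_0_1 (E : Env κ ι) : ip (F16_0 E) (F16_1 E) = dotS (ek E lk16) r16_0_1 :=
  op_entryZ E lk16 3 4 _ _ _ _ (pg13 κ) (pg5 ι) m16_0 m16_1 l16_1 z16_1 w16_1 x16_1 (by decide) _ (chkS_sound E lk16 3 4 _ _ _ _ t16_0_1)

def r16_1_1 : List (ℕ × ℤ) := [(0, 192), (1, -192), (2, 192), (3, 192), (4, -192), (6, 192), (7, 384), (8, -768)]

theorem h16_1_1 (E : Env κ ι) : ip (F16_1 E) (F16_1 E) = dotS (ek E lk16) r16_1_1 :=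
  op_entryZ E lk16 3 4 _ _ _ _ (pg13 κ) (pg5 ι) m16_1 m16_1 l16_1 z16_1 w16_1 x16_1 (by decide) _ (chkS_sound E lk16 3 4 _ _ _ _ t16_1_1)

theorem row16_0 (E : Env κ ι) : RowG (ek E lk16) (F16_0 E) [F16_0 E, F16_1 E] [r16_0_0, r16_0_1] :=
  rowG_cons _ _ _ _ _ _ (h16_0_0 E) (rowG_cons _ _ _ _ _ _ (h16_0_1 E) (rowG_nil _ _))

theorem row16_1 (E : Env κ ι) : RowG (ek E lk16) (F16_1 E) [F16_1 E] [r16_1_1] :=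
  rowG_cons _ _ _ _ _ _ (h16_1_1 E) (rowG_nil _ _)

def tab16 : List (List (List (ℕ × ℤ))) := [[r16_0_0, r16_0_1], [r16_1_1]]

theorem tri16 (E : Env κ ι) : TriG (ek E lk16) [F16_0 E, F16_1 E] tab16 := by
  refine triG_cons _ _ _ _ _ (row16_0 E) ?_
  refine triG_cons _ _ _ _ _ (row16_1 E) ?_
  exact triG_nil _

end

def lk17 : List Key := [
  (3, 6, [(0, [0], [0, 1]), (0, [0], [0, 1]), (0, [1], [2, 3]), (0, [2], [4, 5]), (0, [2], [2, 4]), (0, [1], [3, 5])]),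
  (3, 6, [(0, [0], [0, 1]), (0, [0], [0, 1]), (0, [1], [2, 3]), (0, [1], [4, 5]), (0, [2], [2, 4]), (0, [2], [3, 5])]),
  (3, 6, [(0, [0], [0, 1]), (0, [1], [2, 3]), (0, [1], [4, 5]), (0, [0], [2, 4]), (0, [2], [0, 5]), (0, [2], [1, 3])]),
  (3, 6, [(0, [0], [0, 1]), (0, [1], [0, 2]), (0, [1], [3, 4]), (0, [0], [3, 4]), (0, [2], [2, 5]), (0, [2], [1, 5])]),
  (3, 6, [(0, [0], [0, 1]), (0, [0], [2, 3]), (0, [1], [0, 2]), (0, [2], [1, 3]), (0, [2], [4, 5]), (0, [1], [4, 5])]),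
  (3, 6, [(0, [0], [0, 1]), (0, [0], [0, 2]), (0, [1], [1, 2]), (0, [2], [3, 4]), (0, [2], [3, 5]), (0, [1], [4, 5])]),
  (3, 6, [(0, [0], [0, 1]), (0, [0], [2, 0]), (0, [1], [3, 1]), (0, [2], [4, 5]), (0, [2], [2, 4]), (0, [1], [3, 5])]),
  (3, 6, [(0, [0], [0, 1]), (0, [0], [2, 0]), (0, [1], [3, 1]), (0, [2], [4, 5]), (0, [2], [3, 4]), (0, [1], [2, 5])]),
  (3, 6, [(0, [0], [0, 1]), (0, [0], [2, 0]), (0, [1], [3, 1]), (0, [2], [2, 4]), (0, [2], [3, 5]), (0, [1], [4, 5])]),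
  (3, 6, [(0, [0], [0, 1]), (0, [0], [2, 3]), (0, [1], [4, 1]), (0, [2], [2, 5]), (0, [2], [0, 4]), (0, [1], [3, 5])])]

def kl17 : List ℕ := [12, 13, 24, 25, 26, 31, 37, 38, 39, 64]

def m17_0 : Base := (0, 1, [(0, [0], [0, 4]), (0, [1], [1, 4]), (0, [2], [2, 3])])

def l17_0 : Cov := [(72, 0, 1, [(0, [0], [0, 4]), (0, [1], [1, 4]), (0, [2], [2, 3])]),
  (72, 0, 1, [(0, [0], [0, 4]), (0, [1], [2, 4]), (0, [2], [1, 3])]),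
  (144, 0, 1, [(0, [0], [0, 4]), (0, [1], [3, 4]), (0, [2], [1, 2])]),
  (-72, 0, 1, [(0, [0], [1, 4]), (0, [1], [0, 4]), (0, [2], [2, 3])]),
  (72, 0, 1, [(0, [0], [1, 4]), (0, [1], [3, 4]), (0, [2], [2, 0])]),
  (-72, 0, 1, [(0, [0], [2, 4]), (0, [1], [0, 4]), (0, [2], [1, 3])]),
  (72, 0, 1, [(0, [0], [2, 4]), (0, [1], [3, 4]), (0, [2], [1, 0])]),
  (-144, 0, 1, [(0, [0], [3, 4]), (0, [1], [0, 4]), (0, [2], [1, 2])]),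
  (-72, 0, 1, [(0, [0], [3, 4]), (0, [1], [1, 4]), (0, [2], [0, 2])]),
  (-72, 0, 1, [(0, [0], [3, 4]), (0, [1], [2, 4]), (0, [2], [0, 1])]),
  (-72, 0, 1, [(0, [0], [0, 4]), (0, [2], [1, 4]), (0, [1], [2, 3])]),
  (-72, 0, 1, [(0, [0], [0, 4]), (0, [2], [2, 4]), (0, [1], [1, 3])]),
  (-144, 0, 1, [(0, [0], [0, 4]), (0, [2], [3, 4]), (0, [1], [1, 2])]),
  (72, 0, 1, [(0, [0], [1, 4]), (0, [2], [0, 4]), (0, [1], [2, 3])]),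
  (-72, 0, 1, [(0, [0], [1, 4]), (0, [2], [3, 4]), (0, [1], [2, 0])]),
  (72, 0, 1, [(0, [0], [2, 4]), (0, [2], [0, 4]), (0, [1], [1, 3])]),
  (-72, 0, 1, [(0, [0], [2, 4]), (0, [2], [3, 4]), (0, [1], [1, 0])]),
  (144, 0, 1, [(0, [0], [3, 4]), (0, [2], [0, 4]), (0, [1], [1, 2])]),
  (72, 0, 1, [(0, [0], [3, 4]), (0, [2], [1, 4]), (0, [1], [0, 2])]),
  (72, 0, 1, [(0, [0], [3, 4]), (0, [2], [2, 4]), (0, [1], [0, 1])]),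
  (72, 0, 1, [(0, [1], [0, 4]), (0, [2], [1, 4]), (0, [0], [2, 3])]),
  (72, 0, 1, [(0, [1], [0, 4]), (0, [2], [2, 4]), (0, [0], [1, 3])]),
  (144, 0, 1, [(0, [1], [0, 4]), (0, [2], [3, 4]), (0, [0], [1, 2])]),
  (-72, 0, 1, [(0, [1], [1, 4]), (0, [2], [0, 4]), (0, [0], [2, 3])]),
  (72, 0, 1, [(0, [1], [1, 4]), (0, [2], [3, 4]), (0, [0], [2, 0])]),
  (-72, 0, 1, [(0, [1], [2, 4]), (0, [2], [0, 4]), (0, [0], [1, 3])]),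
  (72, 0, 1, [(0, [1], [2, 4]), (0, [2], [3, 4]), (0, [0], [1, 0])]),
  (-144, 0, 1, [(0, [1], [3, 4]), (0, [2], [0, 4]), (0, [0], [1, 2])]),
  (-72, 0, 1, [(0, [1], [3, 4]), (0, [2], [1, 4]), (0, [0], [0, 2])]),
  (-72, 0, 1, [(0, [1], [3, 4]), (0, [2], [2, 4]), (0, [0], [0, 1])])]

def z17_0 : Cov := [(0, 0, 1, [(0, [0], [1, 4]), (0, [1], [2, 4]), (0, [2], [0, 3])]),
  (0, 0, 1, [(0, [0], [2, 4]), (0, [1], [1, 4]), (0, [2], [0, 3])]),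
  (0, 0, 1, [(0, [0], [1, 4]), (0, [2], [2, 4]), (0, [1], [0, 3])]),
  (0, 0, 1, [(0, [0], [2, 4]), (0, [2], [1, 4]), (0, [1], [0, 3])]),
  (0, 0, 1, [(0, [1], [1, 4]), (0, [2], [2, 4]), (0, [0], [0, 3])]),
  (0, 0, 1, [(0, [1], [2, 4]), (0, [2], [1, 4]), (0, [0], [0, 3])])]

def w17_0 : List (List Wit) := [[(0, 0, 0, 0, 0), (0, 0, 0, 0, 0), (1, 0, 0, 0, 0), (1, 0, 0, 0, 0), (2, 0, 0, 0, 0), (2, 0, 0, 0, 0), (3, 0, 0, 0, 0), (30, 0, 0, 0, 0), (30, 0, 0, 0, 0), (4, 0, 0, 0, 0), (5, 0, 0, 0, 0), (31, 0, 0, 0, 0), (31, 0, 0, 0, 0), (6, 0, 0, 0, 0), (7, 0, 0, 0, 0), (7, 0, 0, 0, 0), (8, 0, 0, 0, 0), (8, 0, 0, 0, 0), (9, 0, 0, 0, 0), (9, 0, 0, 0, 0)],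
  [(10, 0, 0, 0, 0), (10, 0, 0, 0, 0), (11, 0, 0, 0, 0), (11, 0, 0, 0, 0), (12, 0, 0, 0, 0), (12, 0, 0, 0, 0), (13, 0, 0, 0, 0), (32, 0, 0, 0, 0), (32, 0, 0, 0, 0), (14, 0, 0, 0, 0), (15, 0, 0, 0, 0), (33, 0, 0, 0, 0), (33, 0, 0, 0, 0), (16, 0, 0, 0, 0), (17, 0, 0, 0, 0), (17, 0, 0, 0, 0), (18, 0, 0, 0, 0), (18, 0, 0, 0, 0), (19, 0, 0, 0, 0), (19, 0, 0, 0, 0)],
  [(3, 0, 0, 0, 0), (3, 0, 0, 0, 0), (5, 0, 0, 0, 0), (5, 0, 0, 0, 0), (7, 0, 0, 0, 0), (7, 0, 0, 0, 0), (0, 0, 0, 0, 0), (31, 0, 0, 0, 0), (31, 0, 0, 0, 0), (8, 0, 0, 0, 0), (1, 0, 0, 0, 0), (30, 0, 0, 0, 0), (30, 0, 0, 0, 0), (9, 0, 0, 0, 0), (2, 0, 0, 0, 0), (2, 0, 0, 0, 0), (4, 0, 0, 0, 0), (4, 0, 0, 0, 0), (6, 0, 0, 0, 0), (6, 0, 0, 0, 0)],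
  [(20, 0, 0, 0, 0), (20, 0, 0, 0, 0), (21, 0, 0, 0, 0), (21, 0, 0, 0, 0), (22, 0, 0, 0, 0), (22, 0, 0, 0, 0), (23, 0, 0, 0, 0), (34, 0, 0, 0, 0), (34, 0, 0, 0, 0), (24, 0, 0, 0, 0), (25, 0, 0, 0, 0), (35, 0, 0, 0, 0), (35, 0, 0, 0, 0), (26, 0, 0, 0, 0), (27, 0, 0, 0, 0), (27, 0, 0, 0, 0), (28, 0, 0, 0, 0), (28, 0, 0, 0, 0), (29, 0, 0, 0, 0), (29, 0, 0, 0, 0)],
  [(13, 0, 0, 0, 0), (13, 0, 0, 0, 0), (15, 0, 0, 0, 0), (15, 0, 0, 0, 0), (17, 0, 0, 0, 0), (17, 0, 0, 0, 0), (10, 0, 0, 0, 0), (33, 0, 0, 0, 0), (33, 0, 0, 0, 0), (18, 0, 0, 0, 0), (11, 0, 0, 0, 0), (32, 0, 0, 0, 0), (32, 0, 0, 0, 0), (19, 0, 0, 0, 0), (12, 0, 0, 0, 0), (12, 0, 0, 0, 0), (14, 0, 0, 0, 0), (14, 0, 0, 0, 0), (16, 0, 0, 0, 0), (16, 0, 0, 0, 0)],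
  [(23, 0, 0, 0, 0), (23, 0, 0, 0, 0), (25, 0, 0, 0, 0), (25, 0, 0, 0, 0), (27, 0, 0, 0, 0), (27, 0, 0, 0, 0), (20, 0, 0, 0, 0), (35, 0, 0, 0, 0), (35, 0, 0, 0, 0), (28, 0, 0, 0, 0), (21, 0, 0, 0, 0), (34, 0, 0, 0, 0), (34, 0, 0, 0, 0), (29, 0, 0, 0, 0), (22, 0, 0, 0, 0), (22, 0, 0, 0, 0), (24, 0, 0, 0, 0), (24, 0, 0, 0, 0), (26, 0, 0, 0, 0), (26, 0, 0, 0, 0)]]

theorem tr17 : trK keys lk17 kl17 = true := by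
  decide +kernel

theorem x17_0 : expB 3 4 dg14 dg5 m17_0 (l17_0 ++ z17_0) w17_0 = true := by
  decide +kernel

theorem t17_0_0 : chkS lk17 3 4 [(1, m17_0)] l17_0
  [(0, 33, 258, 5378115, 5309490), (7, 528, 528, 2180400, 2299200), (7, 528, 528, 2184240, 3282240), (1, 33, 258, 4395090, 1392690), (8, 18, 18, 3412050, 1331250), (8, 33, 258, 3408165, 282915), (9, 528, 528, 3232320, 3232320), (8, 33, 258, 3412005, 282930), (7, 513, 513, 2184195, 3278145), (9, 528, 528, 3220800, 2184000), (3, 258, 33, 2179845, 206145), (6, 528, 528, 2184240, 3282240), (6, 528, 528, 2180400, 2299200), (4, 288, 288, 2184240, 3282240), (8, 18, 18, 2425155, 4261155), (8, 513, 513, 5317635, 5374785), (5, 513, 513, 5321730, 5386305), (8, 513, 513, 5325315, 5440065), (2, 288, 288,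 2180400, 2299200), (5, 513, 513, 5325570, 5447745), (4, 258, 33, 2184195, 3278145), (8, 33, 258, 2428980, 4199730), (8, 33, 258, 2425140, 4199715), (3, 288, 288, 2179920, 1254720), (6, 528, 528, 5325360, 5444160), (2, 258, 33, 2184195, 3278145), (5, 528, 528, 5321760, 5386560), (2, 258, 33, 2180355, 2295105), (8, 528, 528, 5325360, 5444160), (5, 528, 528, 5325600, 5448000)]
  [(0, 72), (1, -72), (2, -144), (3, -144), (4, 144), (6, -144), (7, 144), (8, 144), (9, 0)] = true := by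
  decide +kernel

section

variable {κ ι : Type*} [Fintype κ] [Fintype ι] [Inhabited κ] [Inhabited ι]

noncomputable def F17_0 (E : Env κ ι) : (Fin 3 → κ) → (Fin 4 → ι) → ℝ := op2 (P14 κ) (P5 ι) (fB E 3 4 m17_0)

def r17_0_0 : List (ℕ × ℤ) := [(0, 72), (1, -72), (2, -144), (3, -144), (4, 144), (6, -144), (7, 144), (8, 144), (9, 0)]

theorem h17_0_0 (E : Env κ ι) : ip (F17_0 E) (F17_0 E) = dotS (ek E lk17) r17_0_0 :=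
  op_entryZ E lk17 3 4 _ _ _ _ (pg14 κ) (pg5 ι) m17_0 m17_0 l17_0 z17_0 w17_0 x17_0 (by decide) _ (chkS_sound E lk17 3 4 _ _ _ _ t17_0_0)

theorem row17_0 (E : Env κ ι) : RowG (ek E lk17) (F17_0 E) [F17_0 E] [r17_0_0] :=
  rowG_cons _ _ _ _ _ _ (h17_0_0 E) (rowG_nil _ _)

def tab17 : List (List (List (ℕ × ℤ))) := [[r17_0_0]]

theorem tri17 (E : Env κ ι) : TriG (ek E lk17) [F17_0 E] tab17 := by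
  refine triG_cons _ _ _ _ _ (row17_0 E) ?_
  exact triG_nil _

end

def lk18 : List Key := [
  (3, 6, [(0, [0], [0, 1]), (0, [0], [0, 1]), (0, [1], [2, 3]), (0, [2], [4, 5]), (0, [2], [2, 4]), (0, [1], [3, 5])]),
  (3, 6, [(0, [0], [0, 1]), (0, [0], [0, 1]), (0, [1], [2, 3]), (0, [1], [4, 5]), (0, [2], [2, 4]), (0, [2], [3, 5])]),
  (3, 6, [(0, [0], [0, 1]), (0, [1], [2, 3]), (0, [1], [4, 5]), (0, [0], [2, 4]), (0, [2], [0, 5]), (0, [2], [1, 3])]),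
  (3, 6, [(0, [0], [0, 1]), (0, [1], [0, 2]), (0, [1], [3, 4]), (0, [0], [3, 4]), (0, [2], [2, 5]), (0, [2], [1, 5])]),
  (3, 6, [(0, [0], [0, 1]), (0, [0], [2, 3]), (0, [1], [0, 2]), (0, [2], [1, 3]), (0, [2], [4, 5]), (0, [1], [4, 5])]),
  (3, 6, [(0, [0], [0, 1]), (0, [0], [0, 2]), (0, [1], [1, 2]), (0, [2], [3, 4]), (0, [2], [3, 5]), (0, [1], [4, 5])]),
  (3, 6, [(0, [0], [0, 1]), (0, [0], [2, 0]), (0, [1], [3, 1]), (0, [2], [4, 5]), (0, [2], [2, 4]), (0, [1], [3, 5])]),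
  (3, 6, [(0, [0], [0, 1]), (0, [0], [2, 0]), (0, [1], [3, 1]), (0, [2], [4, 5]), (0, [2], [3, 4]), (0, [1], [2, 5])]),
  (3, 6, [(0, [0], [0, 1]), (0, [0], [2, 0]), (0, [1], [3, 1]), (0, [2], [2, 4]), (0, [2], [3, 5]), (0, [1], [4, 5])]),
  (3, 6, [(0, [0], [0, 1]), (0, [0], [2, 3]), (0, [1], [4, 1]), (0, [2], [2, 5]), (0, [2], [0, 4]), (0, [1], [3, 5])])]

def kl18 : List ℕ := [12, 13, 24, 25, 26, 31, 37, 38, 39, 64]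

def m18_0 : Base := (0, 1, [(0, [0], [0, 4]), (0, [1], [1, 4]), (0, [2], [2, 3])])

def l18_0 : Cov := [(144, 0, 1, [(0, [0], [0, 4]), (0, [1], [1, 4]), (0, [2], [2, 3])]),
  (-144, 0, 1, [(0, [0], [0, 4]), (0, [1], [3, 4]), (0, [2], [1, 2])]),
  (144, 0, 1, [(0, [0], [1, 4]), (0, [1], [0, 4]), (0, [2], [2, 3])]),
  (-144, 0, 1, [(0, [0], [1, 4]), (0, [1], [2, 4]), (0, [2], [0, 3])]),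
  (-144, 0, 1, [(0, [0], [2, 4]), (0, [1], [1, 4]), (0, [2], [0, 3])]),
  (144, 0, 1, [(0, [0], [2, 4]), (0, [1], [3, 4]), (0, [2], [0, 1])]),
  (-144, 0, 1, [(0, [0], [3, 4]), (0, [1], [0, 4]), (0, [2], [1, 2])]),
  (144, 0, 1, [(0, [0], [3, 4]), (0, [1], [2, 4]), (0, [2], [0, 1])]),
  (-144, 0, 1, [(0, [1], [0, 4]), (0, [2], [1, 4]), (0, [0], [2, 3])]),
  (144, 0, 1, [(0, [1], [0, 4]), (0, [2], [3, 4]), (0, [0], [1, 2])]),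
  (-144, 0, 1, [(0, [1], [1, 4]), (0, [2], [0, 4]), (0, [0], [2, 3])]),
  (144, 0, 1, [(0, [1], [1, 4]), (0, [2], [2, 4]), (0, [0], [0, 3])]),
  (144, 0, 1, [(0, [1], [2, 4]), (0, [2], [1, 4]), (0, [0], [0, 3])]),
  (-144, 0, 1, [(0, [1], [2, 4]), (0, [2], [3, 4]), (0, [0], [0, 1])]),
  (144, 0, 1, [(0, [1], [3, 4]), (0, [2], [0, 4]), (0, [0], [1, 2])]),
  (-144, 0, 1, [(0, [1], [3, 4]), (0, [2], [2, 4]), (0, [0], [0, 1])])]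

def z18_0 : Cov := [(0, 0, 1, [(0, [0], [0, 4]), (0, [1], [2, 4]), (0, [2], [1, 3])]),
  (0, 0, 1, [(0, [0], [1, 4]), (0, [1], [3, 4]), (0, [2], [0, 2])]),
  (0, 0, 1, [(0, [0], [2, 4]), (0, [1], [0, 4]), (0, [2], [1, 3])]),
  (0, 0, 1, [(0, [0], [3, 4]), (0, [1], [1, 4]), (0, [2], [0, 2])]),
  (0, 0, 1, [(0, [0], [0, 4]), (0, [2], [1, 4]), (0, [1], [2, 3])]),
  (0, 0, 1, [(0, [0], [0, 4]), (0, [2], [2, 4]), (0, [1], [1, 3])]),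
  (0, 0, 1, [(0, [0], [0, 4]), (0, [2], [3, 4]), (0, [1], [1, 2])]),
  (0, 0, 1, [(0, [0], [1, 4]), (0, [2], [0, 4]), (0, [1], [2, 3])]),
  (0, 0, 1, [(0, [0], [1, 4]), (0, [2], [2, 4]), (0, [1], [0, 3])]),
  (0, 0, 1, [(0, [0], [1, 4]), (0, [2], [3, 4]), (0, [1], [0, 2])]),
  (0, 0, 1, [(0, [0], [2, 4]), (0, [2], [0, 4]), (0, [1], [1, 3])]),
  (0, 0, 1, [(0, [0], [2, 4]), (0, [2], [1, 4]), (0, [1], [0, 3])]),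
  (0, 0, 1, [(0, [0], [2, 4]), (0, [2], [3, 4]), (0, [1], [0, 1])]),
  (0, 0, 1, [(0, [0], [3, 4]), (0, [2], [0, 4]), (0, [1], [1, 2])]),
  (0, 0, 1, [(0, [0], [3, 4]), (0, [2], [1, 4]), (0, [1], [0, 2])]),
  (0, 0, 1, [(0, [0], [3, 4]), (0, [2], [2, 4]), (0, [1], [0, 1])]),
  (0, 0, 1, [(0, [1], [0, 4]), (0, [2], [2, 4]), (0, [0], [1, 3])]),
  (0, 0, 1, [(0, [1], [1, 4]), (0, [2], [3, 4]), (0, [0], [0, 2])]),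
  (0, 0, 1, [(0, [1], [2, 4]), (0, [2], [0, 4]), (0, [0], [1, 3])]),
  (0, 0, 1, [(0, [1], [3, 4]), (0, [2], [1, 4]), (0, [0], [0, 2])])]

def w18_0 : List (List Wit) := [[(0, 0, 0, 0, 0), (0, 0, 0, 0, 0), (16, 0, 0, 0, 0), (16, 0, 0, 0, 0), (1, 0, 0, 0, 0), (1, 0, 0, 0, 0), (2, 0, 0, 0, 0), (2, 0, 0, 0, 0), (3, 0, 0, 0, 0), (3, 0, 0, 0, 0), (17, 0, 0, 0, 0), (17, 0, 0, 0, 0), (18, 0, 0, 0, 0), (18, 0, 0, 0, 0), (4, 0, 0, 0, 0), (4, 0, 0, 0, 0), (5, 0, 0, 0, 0), (5, 0, 0, 0, 0), (6, 0, 0, 0, 0), (6, 0, 0, 0, 0), (19, 0, 0, 0, 0), (19, 0, 0, 0, 0), (7, 0, 0, 0, 0), (7, 0, 0, 0, 0)],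
  [(20, 0, 0, 0, 0), (20, 0, 0, 0, 0), (21, 0, 0, 0, 0), (21, 0, 0, 0, 0), (22, 0, 0, 0, 0), (22, 0, 0, 0, 0), (23, 0, 0, 0, 0), (23, 0, 0, 0, 0), (24, 0, 0, 0, 0), (24, 0, 0, 0, 0), (25, 0, 0, 0, 0), (25, 0, 0, 0, 0), (26, 0, 0, 0, 0), (26, 0, 0, 0, 0), (27, 0, 0, 0, 0), (27, 0, 0, 0, 0), (28, 0, 0, 0, 0), (28, 0, 0, 0, 0), (29, 0, 0, 0, 0), (29, 0, 0, 0, 0), (30, 0, 0, 0, 0), (30, 0, 0, 0, 0), (31, 0, 0, 0, 0), (31, 0, 0, 0, 0)],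
  [(2, 0, 0, 0, 0), (2, 0, 0, 0, 0), (18, 0, 0, 0, 0), (18, 0, 0, 0, 0), (6, 0, 0, 0, 0), (6, 0, 0, 0, 0), (0, 0, 0, 0, 0), (0, 0, 0, 0, 0), (4, 0, 0, 0, 0), (4, 0, 0, 0, 0), (19, 0, 0, 0, 0), (19, 0, 0, 0, 0), (16, 0, 0, 0, 0), (16, 0, 0, 0, 0), (3, 0, 0, 0, 0), (3, 0, 0, 0, 0), (7, 0, 0, 0, 0), (7, 0, 0, 0, 0), (1, 0, 0, 0, 0), (1, 0, 0, 0, 0), (17, 0, 0, 0, 0), (17, 0, 0, 0, 0), (5, 0, 0, 0, 0), (5, 0, 0, 0, 0)],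
  [(8, 0, 0, 0, 0), (8, 0, 0, 0, 0), (32, 0, 0, 0, 0), (32, 0, 0, 0, 0), (9, 0, 0, 0, 0), (9, 0, 0, 0, 0), (10, 0, 0, 0, 0), (10, 0, 0, 0, 0), (11, 0, 0, 0, 0), (11, 0, 0, 0, 0), (33, 0, 0, 0, 0), (33, 0, 0, 0, 0), (34, 0, 0, 0, 0), (34, 0, 0, 0, 0), (12, 0, 0, 0, 0), (12, 0, 0, 0, 0), (13, 0, 0, 0, 0), (13, 0, 0, 0, 0), (14, 0, 0, 0, 0), (14, 0, 0, 0, 0), (35, 0, 0, 0, 0), (35, 0, 0, 0, 0), (15, 0, 0, 0, 0), (15, 0, 0, 0, 0)],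
  [(23, 0, 0, 0, 0), (23, 0, 0, 0, 0), (26, 0, 0, 0, 0), (26, 0, 0, 0, 0), (29, 0, 0, 0, 0), (29, 0, 0, 0, 0), (20, 0, 0, 0, 0), (20, 0, 0, 0, 0), (27, 0, 0, 0, 0), (27, 0, 0, 0, 0), (30, 0, 0, 0, 0), (30, 0, 0, 0, 0), (21, 0, 0, 0, 0), (21, 0, 0, 0, 0), (24, 0, 0, 0, 0), (24, 0, 0, 0, 0), (31, 0, 0, 0, 0), (31, 0, 0, 0, 0), (22, 0, 0, 0, 0), (22, 0, 0, 0, 0), (25, 0, 0, 0, 0), (25, 0, 0, 0, 0), (28, 0, 0, 0, 0), (28, 0, 0, 0, 0)],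
  [(10, 0, 0, 0, 0), (10, 0, 0, 0, 0), (34, 0, 0, 0, 0), (34, 0, 0, 0, 0), (14, 0, 0, 0, 0), (14, 0, 0, 0, 0), (8, 0, 0, 0, 0), (8, 0, 0, 0, 0), (12, 0, 0, 0, 0), (12, 0, 0, 0, 0), (35, 0, 0, 0, 0), (35, 0, 0, 0, 0), (32, 0, 0, 0, 0), (32, 0, 0, 0, 0), (11, 0, 0, 0, 0), (11, 0, 0, 0, 0), (15, 0, 0, 0, 0), (15, 0, 0, 0, 0), (9, 0, 0, 0, 0), (9, 0, 0, 0, 0), (33, 0, 0, 0, 0), (33, 0, 0, 0, 0), (13, 0, 0, 0, 0), (13, 0, 0, 0, 0)]]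

theorem tr18 : trK keys lk18 kl18 = true := by
  decide +kernel

theorem x18_0 : expB 3 4 dg13 dg6 m18_0 (l18_0 ++ z18_0) w18_0 = true := by
  decide +kernel

theorem t18_0_0 : chkS lk18 3 4 [(1, m18_0)] l18_0
  [(0, 33, 258, 5378115, 5309490), (7, 528, 528, 2184240, 3282240), (1, 33, 258, 4395090, 1392690), (8, 18, 18, 3408210, 1331235), (7, 513, 513, 2180355, 2295105), (9, 528, 528, 3232320, 3232320), (8, 33, 258, 3412005, 282930), (9, 528, 528, 3220800, 2184000), (4, 258, 33, 2184195, 3278145), (8, 33, 258, 2425140, 4199715), (3, 288, 288, 2179920, 1254720), (6, 528, 528, 5317680, 5378880), (8, 528, 528, 5317680, 5378880), (5, 528, 528, 5321760, 5386560), (2, 258, 33, 2180355, 2295105), (5, 528, 528, 5325600, 5448000)]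
  [(0, 144), (1, 144), (2, 144), (3, -144), (4, -144), (5, -288), (6, 144), (7, -288), (9, 288)] = true := by
  decide +kernel

section

variable {κ ι : Type*} [Fintype κ] [Fintype ι] [Inhabited κ] [Inhabited ι]

noncomputable def F18_0 (E : Env κ ι) : (Fin 3 → κ) → (Fin 4 → ι) → ℝ := op2 (P13 κ) (P6 ι) (fB E 3 4 m18_0)

def r18_0_0 : List (ℕ × ℤ) := [(0, 144), (1, 144), (2, 144), (3, -144), (4, -144), (5, -288), (6, 144), (7, -288), (9, 288)]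

theorem h18_0_0 (E : Env κ ι) : ip (F18_0 E) (F18_0 E) = dotS (ek E lk18) r18_0_0 :=
  op_entryZ E lk18 3 4 _ _ _ _ (pg13 κ) (pg6 ι) m18_0 m18_0 l18_0 z18_0 w18_0 x18_0 (by decide) _ (chkS_sound E lk18 3 4 _ _ _ _ t18_0_0)

theorem row18_0 (E : Env κ ι) : RowG (ek E lk18) (F18_0 E) [F18_0 E] [r18_0_0] :=
  rowG_cons _ _ _ _ _ _ (h18_0_0 E) (rowG_nil _ _)

def tab18 : List (List (List (ℕ × ℤ))) := [[r18_0_0]]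

theorem tri18 (E : Env κ ι) : TriG (ek E lk18) [F18_0 E] tab18 := by
  refine triG_cons _ _ _ _ _ (row18_0 E) ?_
  exact triG_nil _

end

def lk19 : List Key := [
  (3, 6, [(0, [0], [0, 1]), (0, [0], [0, 1]), (0, [1], [2, 3]), (0, [2], [4, 5]), (0, [2], [2, 4]), (0, [1], [3, 5])]),
  (3, 6, [(0, [0], [0, 1]), (0, [0], [0, 1]), (0, [1], [2, 3]), (0, [1], [4, 5]), (0, [2], [2, 4]), (0, [2], [3, 5])]),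
  (3, 6, [(0, [0], [0, 1]), (0, [1], [2, 3]), (0, [1], [4, 5]), (0, [0], [2, 4]), (0, [2], [0, 5]), (0, [2], [1, 3])]),
  (3, 6, [(0, [0], [0, 1]), (0, [1], [0, 2]), (0, [1], [3, 4]), (0, [0], [3, 4]), (0, [2], [2, 5]), (0, [2], [1, 5])]),
  (3, 6, [(0, [0], [0, 1]), (0, [0], [2, 3]), (0, [1], [0, 2]), (0, [2], [1, 3]), (0, [2], [4, 5]), (0, [1], [4, 5])]),
  (3, 6, [(0, [0], [0, 1]), (0, [0], [2, 0]), (0, [1], [3, 1]), (0, [2], [4, 5]), (0, [2], [2, 4]), (0, [1], [3, 5])]),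
  (3, 6, [(0, [0], [0, 1]), (0, [0], [2, 0]), (0, [1], [3, 1]), (0, [2], [4, 5]), (0, [2], [3, 4]), (0, [1], [2, 5])]),
  (3, 6, [(0, [0], [0, 1]), (0, [0], [2, 0]), (0, [1], [3, 1]), (0, [2], [2, 4]), (0, [2], [3, 5]), (0, [1], [4, 5])])]

def kl19 : List ℕ := [12, 13, 24, 25, 26, 37, 38, 39]

def m19_0 : Base := (0, 1, [(0, [0], [0, 4]), (0, [1], [1, 2]), (0, [2], [3, 4])])

def l19_0 : Cov := [(128, 0, 1, [(0, [0], [0, 4]), (0, [1], [1, 2]), (0, [2], [3, 4])]),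
  (-128, 0, 1, [(0, [0], [0, 4]), (0, [1], [1, 3]), (0, [2], [2, 4])]),
  (-128, 0, 1, [(0, [0], [2, 4]), (0, [1], [0, 1]), (0, [2], [3, 4])]),
  (128, 0, 1, [(0, [0], [2, 4]), (0, [1], [1, 3]), (0, [2], [0, 4])]),
  (128, 0, 1, [(0, [0], [3, 4]), (0, [1], [0, 1]), (0, [2], [2, 4])]),
  (-128, 0, 1, [(0, [0], [3, 4]), (0, [1], [1, 2]), (0, [2], [0, 4])]),
  (64, 0, 1, [(0, [0], [0, 4]), (0, [2], [1, 2]), (0, [1], [3, 4])]),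
  (-64, 0, 1, [(0, [0], [0, 4]), (0, [2], [1, 3]), (0, [1], [2, 4])]),
  (-64, 0, 1, [(0, [0], [2, 4]), (0, [2], [0, 1]), (0, [1], [3, 4])]),
  (64, 0, 1, [(0, [0], [2, 4]), (0, [2], [1, 3]), (0, [1], [0, 4])]),
  (64, 0, 1, [(0, [0], [3, 4]), (0, [2], [0, 1]), (0, [1], [2, 4])]),
  (-64, 0, 1, [(0, [0], [3, 4]), (0, [2], [1, 2]), (0, [1], [0, 4])]),
  (64, 0, 1, [(0, [1], [0, 4]), (0, [0], [1, 2]), (0, [2], [3, 4])]),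
  (-64, 0, 1, [(0, [1], [0, 4]), (0, [0], [1, 3]), (0, [2], [2, 4])]),
  (-64, 0, 1, [(0, [1], [2, 4]), (0, [0], [0, 1]), (0, [2], [3, 4])]),
  (64, 0, 1, [(0, [1], [2, 4]), (0, [0], [1, 3]), (0, [2], [0, 4])]),
  (64, 0, 1, [(0, [1], [3, 4]), (0, [0], [0, 1]), (0, [2], [2, 4])]),
  (-64, 0, 1, [(0, [1], [3, 4]), (0, [0], [1, 2]), (0, [2], [0, 4])])]

def z19_0 : Cov := [(0, 0, 1, [(0, [0], [0, 4]), (0, [1], [2, 3]), (0, [2], [1, 4])]),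
  (0, 0, 1, [(0, [0], [1, 4]), (0, [1], [0, 2]), (0, [2], [3, 4])]),
  (0, 0, 1, [(0, [0], [1, 4]), (0, [1], [0, 3]), (0, [2], [2, 4])]),
  (0, 0, 1, [(0, [0], [1, 4]), (0, [1], [2, 3]), (0, [2], [0, 4])]),
  (0, 0, 1, [(0, [0], [2, 4]), (0, [1], [0, 3]), (0, [2], [1, 4])]),
  (0, 0, 1, [(0, [0], [3, 4]), (0, [1], [0, 2]), (0, [2], [1, 4])]),
  (0, 0, 1, [(0, [0], [0, 4]), (0, [2], [2, 3]), (0, [1], [1, 4])]),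
  (0, 0, 1, [(0, [0], [1, 4]), (0, [2], [0, 2]), (0, [1], [3, 4])]),
  (0, 0, 1, [(0, [0], [1, 4]), (0, [2], [0, 3]), (0, [1], [2, 4])]),
  (0, 0, 1, [(0, [0], [1, 4]), (0, [2], [2, 3]), (0, [1], [0, 4])]),
  (0, 0, 1, [(0, [0], [2, 4]), (0, [2], [0, 3]), (0, [1], [1, 4])]),
  (0, 0, 1, [(0, [0], [3, 4]), (0, [2], [0, 2]), (0, [1], [1, 4])]),
  (0, 0, 1, [(0, [1], [0, 4]), (0, [0], [2, 3]), (0, [2], [1, 4])]),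
  (0, 0, 1, [(0, [1], [1, 4]), (0, [0], [0, 2]), (0, [2], [3, 4])]),
  (0, 0, 1, [(0, [1], [1, 4]), (0, [0], [0, 3]), (0, [2], [2, 4])]),
  (0, 0, 1, [(0, [1], [1, 4]), (0, [0], [2, 3]), (0, [2], [0, 4])]),
  (0, 0, 1, [(0, [1], [2, 4]), (0, [0], [0, 3]), (0, [2], [1, 4])]),
  (0, 0, 1, [(0, [1], [3, 4]), (0, [0], [0, 2]), (0, [2], [1, 4])])]

def w19_0 : List (List Wit) := [[(0, 0, 0, 0, 0), (1, 0, 0, 0, 0), (0, 0, 0, 0, 0), (18, 0, 0, 0, 0), (1, 0, 0, 0, 0), (18, 0, 0, 0, 0), (19, 0, 0, 0, 0), (20, 0, 0, 0, 0), (19, 0, 0, 0, 0), (21, 0, 0, 0, 0), (20, 0, 0, 0, 0), (21, 0, 0, 0, 0), (2, 0, 0, 0, 0), (22, 0, 0, 0, 0), (2, 0, 0, 0, 0), (3, 0, 0, 0, 0), (22, 0, 0, 0, 0), (3, 0, 0, 0, 0), (4, 0, 0, 0, 0), (23, 0, 0, 0, 0), (4, 0, 0, 0, 0), (5, 0, 0, 0, 0),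 (23, 0, 0, 0, 0), (5, 0, 0, 0, 0)],
  [(6, 0, 0, 0, 0), (7, 0, 0, 0, 0), (6, 0, 0, 0, 0), (24, 0, 0, 0, 0), (7, 0, 0, 0, 0), (24, 0, 0, 0, 0), (25, 0, 0, 0, 0), (26, 0, 0, 0, 0), (25, 0, 0, 0, 0), (27, 0, 0, 0, 0), (26, 0, 0, 0, 0), (27, 0, 0, 0, 0), (8, 0, 0, 0, 0), (28, 0, 0, 0, 0), (8, 0, 0, 0, 0), (9, 0, 0, 0, 0), (28, 0, 0, 0, 0), (9, 0, 0, 0, 0), (10, 0, 0, 0, 0), (29, 0, 0, 0, 0), (10, 0, 0, 0, 0), (11, 0, 0, 0, 0), (29, 0, 0, 0, 0), (11, 0, 0, 0, 0)],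
  [(12, 0, 0, 0, 0), (13, 0, 0, 0, 0), (12, 0, 0, 0, 0), (30, 0, 0, 0, 0), (13, 0, 0, 0, 0), (30, 0, 0, 0, 0), (31, 0, 0, 0, 0), (32, 0, 0, 0, 0), (31, 0, 0, 0, 0), (33, 0, 0, 0, 0), (32, 0, 0, 0, 0), (33, 0, 0, 0, 0), (14, 0, 0, 0, 0), (34, 0, 0, 0, 0), (14, 0, 0, 0, 0), (15, 0, 0, 0, 0), (34, 0, 0, 0, 0), (15, 0, 0, 0, 0), (16, 0, 0, 0, 0), (35, 0, 0, 0, 0), (16, 0, 0, 0, 0), (17, 0, 0, 0, 0), (35, 0, 0, 0, 0), (17, 0, 0, 0, 0)],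
  [(11, 0, 0, 0, 0), (9, 0, 0, 0, 0), (11, 0, 0, 0, 0), (27, 0, 0, 0, 0), (9, 0, 0, 0, 0), (27, 0, 0, 0, 0), (29, 0, 0, 0, 0), (28, 0, 0, 0, 0), (29, 0, 0, 0, 0), (24, 0, 0, 0, 0), (28, 0, 0, 0, 0), (24, 0, 0, 0, 0), (10, 0, 0, 0, 0), (26, 0, 0, 0, 0), (10, 0, 0, 0, 0), (7, 0, 0, 0, 0), (26, 0, 0, 0, 0), (7, 0, 0, 0, 0), (8, 0, 0, 0, 0), (25, 0, 0, 0, 0), (8, 0, 0, 0, 0), (6, 0, 0, 0, 0), (25, 0, 0, 0, 0), (6, 0, 0, 0, 0)],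
  [(17, 0, 0, 0, 0), (15, 0, 0, 0, 0), (17, 0, 0, 0, 0), (33, 0, 0, 0, 0), (15, 0, 0, 0, 0), (33, 0, 0, 0, 0), (35, 0, 0, 0, 0), (34, 0, 0, 0, 0), (35, 0, 0, 0, 0), (30, 0, 0, 0, 0), (34, 0, 0, 0, 0), (30, 0, 0, 0, 0), (16, 0, 0, 0, 0), (32, 0, 0, 0, 0), (16, 0, 0, 0, 0), (13, 0, 0, 0, 0), (32, 0, 0, 0, 0), (13, 0, 0, 0, 0), (14, 0, 0, 0, 0), (31, 0, 0, 0, 0), (14, 0, 0, 0, 0), (12, 0, 0, 0, 0), (31, 0, 0, 0, 0), (12, 0, 0, 0, 0)],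
  [(5, 0, 0, 0, 0), (3, 0, 0, 0, 0), (5, 0, 0, 0, 0), (21, 0, 0, 0, 0), (3, 0, 0, 0, 0), (21, 0, 0, 0, 0), (23, 0, 0, 0, 0), (22, 0, 0, 0, 0), (23, 0, 0, 0, 0), (18, 0, 0, 0, 0), (22, 0, 0, 0, 0), (18, 0, 0, 0, 0), (4, 0, 0, 0, 0), (20, 0, 0, 0, 0), (4, 0, 0, 0, 0), (1, 0, 0, 0, 0), (20, 0, 0, 0, 0), (1, 0, 0, 0, 0), (2, 0, 0, 0, 0), (19, 0, 0, 0, 0), (2, 0, 0, 0, 0), (0, 0, 0, 0, 0), (19, 0, 0, 0, 0), (0, 0, 0, 0, 0)]]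

theorem tr19 : trK keys lk19 kl19 = true := by
  decide +kernel

theorem x19_0 : expB 3 4 dg13 dg7 m19_0 (l19_0 ++ z19_0) w19_0 = true := by
  decide +kernel

theorem t19_0_0 : chkS lk19 3 4 [(1, m19_0)] l19_0
  [(0, 513, 513, 5390595, 5440545), (6, 288, 288, 2176320, 2176320), (6, 513, 513, 3490050, 4411425), (7, 513, 513, 3416325, 283425), (7, 258, 33, 3428610, 3428385), (1, 513, 513, 4411650, 3489825), (3, 18, 18, 2163765, 136515), (5, 288, 288, 2176080, 1193280), (2, 528, 528, 2176080, 1193280), (7, 33, 258, 5309475, 5374275), (7, 258, 33, 2441235, 4392210), (4, 528, 528, 2176320, 2176320), (3, 528, 528, 2184240, 3282240), (2, 18, 18, 2163795, 1180995), (5, 288, 288, 5321760, 5386560), (7, 513, 513, 2437140, 4207890), (7, 288, 288, 5321760, 5386560),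 (4, 18, 18, 2164035, 2164035)]
  [(0, 128), (1, -128), (2, -128), (3, 128), (4, -128), (5, -128), (6, -256), (7, 512)] = true := by
  decide +kernel

section

variable {κ ι : Type*} [Fintype κ] [Fintype ι] [Inhabited κ] [Inhabited ι]

noncomputable def F19_0 (E : Env κ ι) : (Fin 3 → κ) → (Fin 4 → ι) → ℝ := op2 (P13 κ) (P7 ι) (fB E 3 4 m19_0)

def r19_0_0 : List (ℕ × ℤ) := [(0, 128), (1, -128), (2, -128), (3, 128), (4, -128), (5, -128), (6, -256), (7, 512)]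

theorem h19_0_0 (E : Env κ ι) : ip (F19_0 E) (F19_0 E) = dotS (ek E lk19) r19_0_0 :=
  op_entryZ E lk19 3 4 _ _ _ _ (pg13 κ) (pg7 ι) m19_0 m19_0 l19_0 z19_0 w19_0 x19_0 (by decide) _ (chkS_sound E lk19 3 4 _ _ _ _ t19_0_0)

theorem row19_0 (E : Env κ ι) : RowG (ek E lk19) (F19_0 E) [F19_0 E] [r19_0_0] :=
  rowG_cons _ _ _ _ _ _ (h19_0_0 E) (rowG_nil _ _)

def tab19 : List (List (List (ℕ × ℤ))) := [[r19_0_0]]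

theorem tri19 (E : Env κ ι) : TriG (ek E lk19) [F19_0 E] tab19 := by
  refine triG_cons _ _ _ _ _ (row19_0 E) ?_
  exact triG_nil _

end

def lk20 : List Key := [
  (3, 6, [(0, [0], [0, 1]), (0, [0], [0, 1]), (0, [1], [2, 3]), (0, [2], [4, 5]), (0, [2], [2, 4]), (0, [1], [3, 5])]),
  (3, 6, [(0, [0], [0, 1]), (0, [0], [0, 1]), (0, [1], [2, 3]), (0, [1], [4, 5]), (0, [2], [2, 4]), (0, [2], [3, 5])]),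
  (3, 6, [(0, [0], [0, 1]), (0, [1], [2, 3]), (0, [1], [4, 5]), (0, [0], [2, 4]), (0, [2], [0, 5]), (0, [2], [1, 3])]),
  (3, 6, [(0, [0], [0, 1]), (0, [1], [0, 2]), (0, [1], [3, 4]), (0, [0], [3, 4]), (0, [2], [2, 5]), (0, [2], [1, 5])]),
  (3, 6, [(0, [0], [0, 1]), (0, [0], [2, 3]), (0, [1], [0, 2]), (0, [2], [1, 3]), (0, [2], [4, 5]), (0, [1], [4, 5])]),
  (3, 6, [(0, [0], [0, 1]), (0, [0], [2, 0]), (0, [1], [3, 1]), (0, [2], [4, 5]), (0, [2], [2, 4]), (0, [1], [3, 5])]),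
  (3, 6, [(0, [0], [0, 1]), (0, [0], [2, 0]), (0, [1], [3, 1]), (0, [2], [4, 5]), (0, [2], [3, 4]), (0, [1], [2, 5])]),
  (3, 6, [(0, [0], [0, 1]), (0, [0], [2, 0]), (0, [1], [3, 1]), (0, [2], [2, 4]), (0, [2], [3, 5]), (0, [1], [4, 5])])]

def kl20 : List ℕ := [12, 13, 24, 25, 26, 37, 38, 39]

def m20_0 : Base := (0, 1, [(0, [0], [0, 4]), (0, [1], [1, 2]), (0, [2], [3, 4])])

def l20_0 : Cov := [(192, 0, 1, [(0, [0], [0, 4]), (0, [1], [1, 2]), (0, [2], [3, 4])]),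
  (-192, 0, 1, [(0, [0], [0, 4]), (0, [1], [1, 3]), (0, [2], [2, 4])]),
  (-192, 0, 1, [(0, [0], [2, 4]), (0, [1], [0, 1]), (0, [2], [3, 4])]),
  (192, 0, 1, [(0, [0], [2, 4]), (0, [1], [1, 3]), (0, [2], [0, 4])]),
  (192, 0, 1, [(0, [0], [3, 4]), (0, [1], [0, 1]), (0, [2], [2, 4])]),
  (-192, 0, 1, [(0, [0], [3, 4]), (0, [1], [1, 2]), (0, [2], [0, 4])]),
  (-192, 0, 1, [(0, [0], [0, 4]), (0, [2], [1, 2]), (0, [1], [3, 4])]),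
  (192, 0, 1, [(0, [0], [0, 4]), (0, [2], [1, 3]), (0, [1], [2, 4])]),
  (192, 0, 1, [(0, [0], [2, 4]), (0, [2], [0, 1]), (0, [1], [3, 4])]),
  (-192, 0, 1, [(0, [0], [2, 4]), (0, [2], [1, 3]), (0, [1], [0, 4])]),
  (-192, 0, 1, [(0, [0], [3, 4]), (0, [2], [0, 1]), (0, [1], [2, 4])]),
  (192, 0, 1, [(0, [0], [3, 4]), (0, [2], [1, 2]), (0, [1], [0, 4])]),
  (-192, 0, 1, [(0, [1], [0, 4]), (0, [0], [1, 2]), (0, [2], [3, 4])]),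
  (192, 0, 1, [(0, [1], [0, 4]), (0, [0], [1, 3]), (0, [2], [2, 4])]),
  (192, 0, 1, [(0, [1], [2, 4]), (0, [0], [0, 1]), (0, [2], [3, 4])]),
  (-192, 0, 1, [(0, [1], [2, 4]), (0, [0], [1, 3]), (0, [2], [0, 4])]),
  (-192, 0, 1, [(0, [1], [3, 4]), (0, [0], [0, 1]), (0, [2], [2, 4])]),
  (192, 0, 1, [(0, [1], [3, 4]), (0, [0], [1, 2]), (0, [2], [0, 4])])]

def z20_0 : Cov := [(0, 0, 1, [(0, [0], [0, 4]), (0, [1], [2, 3]), (0, [2], [1, 4])]),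
  (0, 0, 1, [(0, [0], [1, 4]), (0, [1], [0, 2]), (0, [2], [3, 4])]),
  (0, 0, 1, [(0, [0], [1, 4]), (0, [1], [0, 3]), (0, [2], [2, 4])]),
  (0, 0, 1, [(0, [0], [1, 4]), (0, [1], [2, 3]), (0, [2], [0, 4])]),
  (0, 0, 1, [(0, [0], [2, 4]), (0, [1], [0, 3]), (0, [2], [1, 4])]),
  (0, 0, 1, [(0, [0], [3, 4]), (0, [1], [0, 2]), (0, [2], [1, 4])]),
  (0, 0, 1, [(0, [0], [0, 4]), (0, [2], [2, 3]), (0, [1], [1, 4])]),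
  (0, 0, 1, [(0, [0], [1, 4]), (0, [2], [0, 2]), (0, [1], [3, 4])]),
  (0, 0, 1, [(0, [0], [1, 4]), (0, [2], [0, 3]), (0, [1], [2, 4])]),
  (0, 0, 1, [(0, [0], [1, 4]), (0, [2], [2, 3]), (0, [1], [0, 4])]),
  (0, 0, 1, [(0, [0], [2, 4]), (0, [2], [0, 3]), (0, [1], [1, 4])]),
  (0, 0, 1, [(0, [0], [3, 4]), (0, [2], [0, 2]), (0, [1], [1, 4])]),
  (0, 0, 1, [(0, [1], [0, 4]), (0, [0], [2, 3]), (0, [2], [1, 4])]),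
  (0, 0, 1, [(0, [1], [1, 4]), (0, [0], [0, 2]), (0, [2], [3, 4])]),
  (0, 0, 1, [(0, [1], [1, 4]), (0, [0], [0, 3]), (0, [2], [2, 4])]),
  (0, 0, 1, [(0, [1], [1, 4]), (0, [0], [2, 3]), (0, [2], [0, 4])]),
  (0, 0, 1, [(0, [1], [2, 4]), (0, [0], [0, 3]), (0, [2], [1, 4])]),
  (0, 0, 1, [(0, [1], [3, 4]), (0, [0], [0, 2]), (0, [2], [1, 4])])]

def w20_0 : List (List Wit) := [[(0, 0, 0, 0, 0), (1, 0, 0, 0, 0), (0, 0, 0, 0, 0), (18, 0, 0, 0, 0), (1, 0, 0, 0, 0), (18, 0, 0, 0, 0), (19, 0, 0, 0, 0), (20, 0, 0, 0, 0), (19, 0, 0, 0, 0), (21, 0, 0, 0, 0), (20, 0, 0, 0, 0), (21, 0, 0, 0, 0), (2, 0, 0, 0, 0), (22, 0, 0, 0, 0), (2, 0, 0, 0, 0), (3, 0, 0, 0, 0), (22, 0, 0, 0, 0), (3, 0, 0, 0, 0), (4, 0, 0, 0, 0), (23, 0, 0, 0, 0), (4, 0, 0, 0, 0), (5, 0, 0, 0, 0),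 (23, 0, 0, 0, 0), (5, 0, 0, 0, 0)],
  [(6, 0, 0, 0, 0), (7, 0, 0, 0, 0), (6, 0, 0, 0, 0), (24, 0, 0, 0, 0), (7, 0, 0, 0, 0), (24, 0, 0, 0, 0), (25, 0, 0, 0, 0), (26, 0, 0, 0, 0), (25, 0, 0, 0, 0), (27, 0, 0, 0, 0), (26, 0, 0, 0, 0), (27, 0, 0, 0, 0), (8, 0, 0, 0, 0), (28, 0, 0, 0, 0), (8, 0, 0, 0, 0), (9, 0, 0, 0, 0), (28, 0, 0, 0, 0), (9, 0, 0, 0, 0), (10, 0, 0, 0, 0), (29, 0, 0, 0, 0), (10, 0, 0, 0, 0), (11, 0, 0, 0, 0), (29, 0, 0, 0, 0), (11, 0, 0, 0, 0)],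
  [(12, 0, 0, 0, 0), (13, 0, 0, 0, 0), (12, 0, 0, 0, 0), (30, 0, 0, 0, 0), (13, 0, 0, 0, 0), (30, 0, 0, 0, 0), (31, 0, 0, 0, 0), (32, 0, 0, 0, 0), (31, 0, 0, 0, 0), (33, 0, 0, 0, 0), (32, 0, 0, 0, 0), (33, 0, 0, 0, 0), (14, 0, 0, 0, 0), (34, 0, 0, 0, 0), (14, 0, 0, 0, 0), (15, 0, 0, 0, 0), (34, 0, 0, 0, 0), (15, 0, 0, 0, 0), (16, 0, 0, 0, 0), (35, 0, 0, 0, 0), (16, 0, 0, 0, 0), (17, 0, 0, 0, 0), (35, 0, 0, 0, 0), (17, 0, 0, 0, 0)],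
  [(11, 0, 0, 0, 0), (9, 0, 0, 0, 0), (11, 0, 0, 0, 0), (27, 0, 0, 0, 0), (9, 0, 0, 0, 0), (27, 0, 0, 0, 0), (29, 0, 0, 0, 0), (28, 0, 0, 0, 0), (29, 0, 0, 0, 0), (24, 0, 0, 0, 0), (28, 0, 0, 0, 0), (24, 0, 0, 0, 0), (10, 0, 0, 0, 0), (26, 0, 0, 0, 0), (10, 0, 0, 0, 0), (7, 0, 0, 0, 0), (26, 0, 0, 0, 0), (7, 0, 0, 0, 0), (8, 0, 0, 0, 0), (25, 0, 0, 0, 0), (8, 0, 0, 0, 0), (6, 0, 0, 0, 0), (25, 0, 0, 0, 0), (6, 0, 0, 0, 0)],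
  [(17, 0, 0, 0, 0), (15, 0, 0, 0, 0), (17, 0, 0, 0, 0), (33, 0, 0, 0, 0), (15, 0, 0, 0, 0), (33, 0, 0, 0, 0), (35, 0, 0, 0, 0), (34, 0, 0, 0, 0), (35, 0, 0, 0, 0), (30, 0, 0, 0, 0), (34, 0, 0, 0, 0), (30, 0, 0, 0, 0), (16, 0, 0, 0, 0), (32, 0, 0, 0, 0), (16, 0, 0, 0, 0), (13, 0, 0, 0, 0), (32, 0, 0, 0, 0), (13, 0, 0, 0, 0), (14, 0, 0, 0, 0), (31, 0, 0, 0, 0), (14, 0, 0, 0, 0), (12, 0, 0, 0, 0), (31, 0, 0, 0, 0), (12, 0, 0, 0, 0)],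
  [(5, 0, 0, 0, 0), (3, 0, 0, 0, 0), (5, 0, 0, 0, 0), (21, 0, 0, 0, 0), (3, 0, 0, 0, 0), (21, 0, 0, 0, 0), (23, 0, 0, 0, 0), (22, 0, 0, 0, 0), (23, 0, 0, 0, 0), (18, 0, 0, 0, 0), (22, 0, 0, 0, 0), (18, 0, 0, 0, 0), (4, 0, 0, 0, 0), (20, 0, 0, 0, 0), (4, 0, 0, 0, 0), (1, 0, 0, 0, 0), (20, 0, 0, 0, 0), (1, 0, 0, 0, 0), (2, 0, 0, 0, 0), (19, 0, 0, 0, 0), (2, 0, 0, 0, 0), (0, 0, 0, 0, 0), (19, 0, 0, 0, 0), (0, 0, 0, 0, 0)]]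

theorem tr20 : trK keys lk20 kl20 = true := by
  decide +kernel

theorem x20_0 : expB 3 4 dg14 dg7 m20_0 (l20_0 ++ z20_0) w20_0 = true := by
  decide +kernel

theorem t20_0_0 : chkS lk20 3 4 [(1, m20_0)] l20_0
  [(0, 513, 513, 5390595, 5440545), (6, 288, 288, 2176320, 2176320), (6, 513, 513, 3490050, 4411425), (7, 513, 513, 3416325, 283425), (7, 258, 33, 3428610, 3428385), (1, 513, 513, 4411650, 3489825), (3, 18, 18, 2163765, 136515), (5, 288, 288, 2176080, 1193280), (2, 528, 528, 2176080, 1193280), (7, 33, 258, 5309475, 5374275), (7, 258, 33, 2441235, 4392210), (4, 528, 528, 2176320, 2176320), (3, 528, 528, 2184240, 3282240), (2, 18, 18, 2163795, 1180995), (5, 288, 288, 5321760, 5386560), (7, 513, 513, 2437140, 4207890), (7, 288, 288, 5321760, 5386560),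 (4, 18, 18, 2164035, 2164035)]
  [(0, 192), (1, -192), (2, 384), (3, -384), (4, 384), (5, 384), (6, -384), (7, -384)] = true := by
  decide +kernel

section

variable {κ ι : Type*} [Fintype κ] [Fintype ι] [Inhabited κ] [Inhabited ι]

noncomputable def F20_0 (E : Env κ ι) : (Fin 3 → κ) → (Fin 4 → ι) → ℝ := op2 (P14 κ) (P7 ι) (fB E 3 4 m20_0)

def r20_0_0 : List (ℕ × ℤ) := [(0, 192), (1, -192), (2, 384), (3, -384), (4, 384), (5, 384), (6, -384), (7, -384)]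

theorem h20_0_0 (E : Env κ ι) : ip (F20_0 E) (F20_0 E) = dotS (ek E lk20) r20_0_0 :=
  op_entryZ E lk20 3 4 _ _ _ _ (pg14 κ) (pg7 ι) m20_0 m20_0 l20_0 z20_0 w20_0 x20_0 (by decide) _ (chkS_sound E lk20 3 4 _ _ _ _ t20_0_0)

theorem row20_0 (E : Env κ ι) : RowG (ek E lk20) (F20_0 E) [F20_0 E] [r20_0_0] :=
  rowG_cons _ _ _ _ _ _ (h20_0_0 E) (rowG_nil _ _)

def tab20 : List (List (List (ℕ × ℤ))) := [[r20_0_0]]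

theorem tri20 (E : Env κ ι) : TriG (ek E lk20) [F20_0 E] tab20 := by
  refine triG_cons _ _ _ _ _ (row20_0 E) ?_
  exact triG_nil _

end

def lk21 : List Key := [
  (3, 6, [(0, [0], [0, 1]), (0, [0], [0, 1]), (0, [1], [2, 3]), (0, [2], [4, 5]), (0, [2], [2, 4]), (0, [1], [3, 5])]),
  (3, 6, [(0, [0], [0, 1]), (0, [1], [2, 3]), (0, [2], [4, 5]), (0, [0], [2, 4]), (0, [1], [0, 5]), (0, [2], [1, 3])]),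
  (3, 6, [(0, [0], [0, 1]), (0, [1], [0, 2]), (0, [1], [3, 4]), (0, [0], [3, 4]), (0, [2], [2, 5]), (0, [2], [1, 5])]),
  (3, 6, [(0, [0], [0, 1]), (0, [0], [0, 1]), (0, [1], [2, 3]), (0, [1], [2, 3]), (0, [2], [4, 5]), (0, [2], [4, 5])]),
  (3, 6, [(0, [0], [0, 1]), (0, [0], [0, 1]), (0, [1], [2, 3]), (0, [2], [4, 5]), (0, [1], [4, 5]), (0, [2], [2, 3])]),
  (3, 6, [(0, [0], [0, 1]), (0, [0], [2, 0]), (0, [1], [3, 1]), (0, [2], [4, 5]), (0, [2], [2, 4]), (0, [1], [3, 5])]),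
  (3, 6, [(0, [0], [0, 1]), (0, [0], [2, 0]), (0, [1], [3, 1]), (0, [2], [4, 5]), (0, [2], [3, 4]), (0, [1], [2, 5])]),
  (3, 6, [(0, [0], [0, 1]), (0, [0], [2, 3]), (0, [1], [0, 1]), (0, [2], [4, 5]), (0, [2], [2, 3]), (0, [1], [4, 5])])]

def kl21 : List ℕ := [12, 22, 25, 27, 30, 37, 38, 45]

def m21_0 : Base := (0, 0, [(0, [0], [0, 1]), (0, [1], [2, 3]), (0, [2], [4, 5])])

def l21_0 : Cov := [(11520, 0, 0, [(0, [0], [0, 1]), (0, [1], [2, 3]), (0, [2], [4, 5])]),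
  (11520, 0, 0, [(0, [0], [0, 1]), (0, [1], [2, 4]), (0, [2], [3, 5])]),
  (5760, 0, 0, [(0, [0], [0, 1]), (0, [1], [2, 5]), (0, [2], [3, 4])]),
  (11520, 0, 0, [(0, [0], [0, 1]), (0, [1], [3, 4]), (0, [2], [2, 5])]),
  (5760, 0, 0, [(0, [0], [0, 1]), (0, [1], [3, 5]), (0, [2], [2, 4])]),
  (5760, 0, 0, [(0, [0], [0, 1]), (0, [1], [4, 5]), (0, [2], [2, 3])]),
  (11520, 0, 0, [(0, [0], [0, 2]), (0, [1], [1, 3]), (0, [2], [4, 5])]),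
  (11520, 0, 0, [(0, [0], [0, 2]), (0, [1], [1, 4]), (0, [2], [3, 5])]),
  (5760, 0, 0, [(0, [0], [0, 2]), (0, [1], [1, 5]), (0, [2], [3, 4])]),
  (11520, 0, 0, [(0, [0], [0, 2]), (0, [1], [3, 4]), (0, [2], [1, 5])]),
  (5760, 0, 0, [(0, [0], [0, 2]), (0, [1], [3, 5]), (0, [2], [1, 4])]),
  (5760, 0, 0, [(0, [0], [0, 2]), (0, [1], [4, 5]), (0, [2], [1, 3])]),
  (11520, 0, 0, [(0, [0], [0, 3]), (0, [1], [1, 2]), (0, [2], [4, 5])]),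
  (11520, 0, 0, [(0, [0], [0, 3]), (0, [1], [1, 4]), (0, [2], [2, 5])]),
  (5760, 0, 0, [(0, [0], [0, 3]), (0, [1], [1, 5]), (0, [2], [2, 4])]),
  (11520, 0, 0, [(0, [0], [0, 3]), (0, [1], [2, 4]), (0, [2], [1, 5])]),
  (5760, 0, 0, [(0, [0], [0, 3]), (0, [1], [2, 5]), (0, [2], [1, 4])]),
  (5760, 0, 0, [(0, [0], [0, 3]), (0, [1], [4, 5]), (0, [2], [1, 2])]),
  (11520, 0, 0, [(0, [0], [0, 4]), (0, [1], [1, 2]), (0, [2], [3, 5])]),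
  (11520, 0, 0, [(0, [0], [0, 4]), (0, [1], [1, 3]), (0, [2], [2, 5])]),
  (5760, 0, 0, [(0, [0], [0, 4]), (0, [1], [1, 5]), (0, [2], [2, 3])]),
  (11520, 0, 0, [(0, [0], [0, 4]), (0, [1], [2, 3]), (0, [2], [1, 5])]),
  (5760, 0, 0, [(0, [0], [0, 4]), (0, [1], [2, 5]), (0, [2], [1, 3])]),
  (5760, 0, 0, [(0, [0], [0, 4]), (0, [1], [3, 5]), (0, [2], [1, 2])]),
  (5760, 0, 0, [(0, [0], [1, 2]), (0, [1], [0, 3]), (0, [2], [4, 5])]),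
  (5760, 0, 0, [(0, [0], [1, 2]), (0, [1], [0, 4]), (0, [2], [3, 5])]),
  (-5760, 0, 0, [(0, [0], [1, 2]), (0, [1], [3, 5]), (0, [2], [4, 0])]),
  (-5760, 0, 0, [(0, [0], [1, 2]), (0, [1], [4, 5]), (0, [2], [3, 0])]),
  (5760, 0, 0, [(0, [0], [1, 3]), (0, [1], [0, 2]), (0, [2], [4, 5])]),
  (5760, 0, 0, [(0, [0], [1, 3]), (0, [1], [0, 4]), (0, [2], [2, 5])]),
  (-5760, 0, 0, [(0, [0], [1, 3]), (0, [1], [2, 5]), (0, [2], [4, 0])]),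
  (-5760, 0, 0, [(0, [0], [1, 3]), (0, [1], [4, 5]), (0, [2], [2, 0])]),
  (5760, 0, 0, [(0, [0], [1, 4]), (0, [1], [0, 2]), (0, [2], [3, 5])]),
  (5760, 0, 0, [(0, [0], [1, 4]), (0, [1], [0, 3]), (0, [2], [2, 5])]),
  (-5760, 0, 0, [(0, [0], [1, 4]), (0, [1], [2, 5]), (0, [2], [3, 0])]),
  (-5760, 0, 0, [(0, [0], [1, 4]), (0, [1], [3, 5]), (0, [2], [2, 0])]),
  (-11520, 0, 0, [(0, [0], [1, 5]), (0, [1], [2, 3]), (0, [2], [4, 0])]),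
  (-11520, 0, 0, [(0, [0], [1, 5]), (0, [1], [2, 4]), (0, [2], [3, 0])]),
  (-11520, 0, 0, [(0, [0], [1, 5]), (0, [1], [3, 4]), (0, [2], [2, 0])]),
  (5760, 0, 0, [(0, [0], [2, 3]), (0, [1], [0, 1]), (0, [2], [4, 5])]),
  (5760, 0, 0, [(0, [0], [2, 3]), (0, [1], [0, 4]), (0, [2], [1, 5])]),
  (-5760, 0, 0, [(0, [0], [2, 3]), (0, [1], [1, 5]), (0, [2], [4, 0])]),
  (-5760, 0, 0, [(0, [0], [2, 3]), (0, [1], [4, 5]), (0, [2], [1, 0])]),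
  (5760, 0, 0, [(0, [0], [2, 4]), (0, [1], [0, 1]), (0, [2], [3, 5])]),
  (5760, 0, 0, [(0, [0], [2, 4]), (0, [1], [0, 3]), (0, [2], [1, 5])]),
  (-5760, 0, 0, [(0, [0], [2, 4]), (0, [1], [1, 5]), (0, [2], [3, 0])]),
  (-5760, 0, 0, [(0, [0], [2, 4]), (0, [1], [3, 5]), (0, [2], [1, 0])]),
  (-11520, 0, 0, [(0, [0], [2, 5]), (0, [1], [1, 3]), (0, [2], [4, 0])]),
  (-11520, 0, 0, [(0, [0], [2, 5]), (0, [1], [1, 4]), (0, [2], [3, 0])]),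
  (-11520, 0, 0, [(0, [0], [2, 5]), (0, [1], [3, 4]), (0, [2], [1, 0])]),
  (5760, 0, 0, [(0, [0], [3, 4]), (0, [1], [0, 1]), (0, [2], [2, 5])]),
  (5760, 0, 0, [(0, [0], [3, 4]), (0, [1], [0, 2]), (0, [2], [1, 5])]),
  (-5760, 0, 0, [(0, [0], [3, 4]), (0, [1], [1, 5]), (0, [2], [2, 0])]),
  (-5760, 0, 0, [(0, [0], [3, 4]), (0, [1], [2, 5]), (0, [2], [1, 0])]),
  (-11520, 0, 0, [(0, [0], [3, 5]), (0, [1], [1, 2]), (0, [2], [4, 0])]),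
  (-11520, 0, 0, [(0, [0], [3, 5]), (0, [1], [1, 4]), (0, [2], [2, 0])]),
  (-11520, 0, 0, [(0, [0], [3, 5]), (0, [1], [2, 4]), (0, [2], [1, 0])]),
  (-11520, 0, 0, [(0, [0], [4, 5]), (0, [1], [1, 2]), (0, [2], [3, 0])]),
  (-11520, 0, 0, [(0, [0], [4, 5]), (0, [1], [1, 3]), (0, [2], [2, 0])]),
  (-11520, 0, 0, [(0, [0], [4, 5]), (0, [1], [2, 3]), (0, [2], [1, 0])]),
  (-5760, 0, 0, [(0, [0], [5, 1]), (0, [1], [0, 2]), (0, [2], [3, 4])]),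
  (-5760, 0, 0, [(0, [0], [5, 1]), (0, [1], [0, 3]), (0, [2], [2, 4])]),
  (-5760, 0, 0, [(0, [0], [5, 1]), (0, [1], [0, 4]), (0, [2], [2, 3])]),
  (-5760, 0, 0, [(0, [0], [5, 2]), (0, [1], [0, 1]), (0, [2], [3, 4])]),
  (-5760, 0, 0, [(0, [0], [5, 2]), (0, [1], [0, 3]), (0, [2], [1, 4])]),
  (-5760, 0, 0, [(0, [0], [5, 2]), (0, [1], [0, 4]), (0, [2], [1, 3])]),
  (-5760, 0, 0, [(0, [0], [5, 3]), (0, [1], [0, 1]), (0, [2], [2, 4])]),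
  (-5760, 0, 0, [(0, [0], [5, 3]), (0, [1], [0, 2]), (0, [2], [1, 4])]),
  (-5760, 0, 0, [(0, [0], [5, 3]), (0, [1], [0, 4]), (0, [2], [1, 2])]),
  (-5760, 0, 0, [(0, [0], [5, 4]), (0, [1], [0, 1]), (0, [2], [2, 3])]),
  (-5760, 0, 0, [(0, [0], [5, 4]), (0, [1], [0, 2]), (0, [2], [1, 3])]),
  (-5760, 0, 0, [(0, [0], [5, 4]), (0, [1], [0, 3]), (0, [2], [1, 2])])]

def z21_0 : Cov := [(0, 0, 0, [(0, [0], [0, 5]), (0, [1], [1, 2]), (0, [2], [3, 4])]),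
  (0, 0, 0, [(0, [0], [0, 5]), (0, [1], [1, 3]), (0, [2], [2, 4])]),
  (0, 0, 0, [(0, [0], [0, 5]), (0, [1], [1, 4]), (0, [2], [2, 3])]),
  (0, 0, 0, [(0, [0], [0, 5]), (0, [1], [2, 3]), (0, [2], [1, 4])]),
  (0, 0, 0, [(0, [0], [0, 5]), (0, [1], [2, 4]), (0, [2], [1, 3])]),
  (0, 0, 0, [(0, [0], [0, 5]), (0, [1], [3, 4]), (0, [2], [1, 2])]),
  (0, 0, 0, [(0, [0], [1, 2]), (0, [1], [3, 4]), (0, [2], [0, 5])]),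
  (0, 0, 0, [(0, [0], [1, 3]), (0, [1], [2, 4]), (0, [2], [0, 5])]),
  (0, 0, 0, [(0, [0], [1, 4]), (0, [1], [2, 3]), (0, [2], [0, 5])]),
  (0, 0, 0, [(0, [0], [2, 3]), (0, [1], [1, 4]), (0, [2], [0, 5])]),
  (0, 0, 0, [(0, [0], [2, 4]), (0, [1], [1, 3]), (0, [2], [0, 5])]),
  (0, 0, 0, [(0, [0], [3, 4]), (0, [1], [1, 2]), (0, [2], [0, 5])]),
  (0, 0, 0, [(0, [0], [1, 2]), (0, [2], [3, 4]), (0, [1], [0, 5])]),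
  (0, 0, 0, [(0, [0], [1, 3]), (0, [2], [2, 4]), (0, [1], [0, 5])]),
  (0, 0, 0, [(0, [0], [1, 4]), (0, [2], [2, 3]), (0, [1], [0, 5])]),
  (0, 0, 0, [(0, [0], [2, 3]), (0, [2], [1, 4]), (0, [1], [0, 5])]),
  (0, 0, 0, [(0, [0], [2, 4]), (0, [2], [1, 3]), (0, [1], [0, 5])]),
  (0, 0, 0, [(0, [0], [3, 4]), (0, [2], [1, 2]), (0, [1], [0, 5])])]

def w21_0 : List (List Wit) := [[(0, 0, 0, 0, 0), (0, 0, 0, 0, 0), (1, 0, 0, 0, 0), (1, 0, 0, 0, 0), (2, 0, 0, 0, 0), (2, 0, 0, 0, 0), (0, 0, 0, 0, 0), (0, 0, 0, 0, 0), (3, 0, 0, 0, 0), (3, 0, 0, 0, 0), (4, 0, 0, 0, 0), (4, 0, 0, 0, 0), (1, 0, 0, 0, 0), (1, 0, 0, 0, 0), (3, 0, 0, 0, 0), (3, 0, 0, 0, 0), (5, 0, 0, 0, 0), (5, 0, 0, 0, 0), (2, 0, 0, 0, 0), (2, 0, 0, 0, 0), (4, 0, 0, 0, 0), (4, 0, 0, 0, 0), (5, 0, 0,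 0, 0), (5, 0, 0, 0, 0), (6, 0, 0, 0, 0), (6, 0, 0, 0, 0), (7, 0, 0, 0, 0), (7, 0, 0, 0, 0), (8, 0, 0, 0, 0), (8, 0, 0, 0, 0), (6, 0, 0, 0, 0), (6, 0, 0, 0, 0), (9, 0, 0, 0, 0), (9, 0, 0, 0, 0), (10, 0, 0, 0, 0), (10, 0, 0, 0, 0), (7, 0, 0, 0, 0), (7, 0, 0, 0, 0), (9, 0, 0, 0, 0), (9, 0, 0, 0, 0), (11, 0, 0, 0, 0), (11, 0, 0, 0, 0), (8, 0, 0, 0, 0), (8, 0, 0, 0, 0), (10, 0, 0, 0, 0), (10, 0, 0, 0, 0), (11, 0, 0, 0, 0), (11, 0, 0, 0, 0), (12, 0, 0, 0, 0), (12, 0, 0, 0, 0), (13, 0, 0, 0, 0), (13, 0, 0, 0, 0), (14, 0, 0, 0, 0), (14, 0, 0, 0, 0), (12, 0, 0, 0, 0), (12, 0, 0, 0, 0), (15, 0, 0, 0, 0), (15, 0, 0, 0, 0), (16, 0, 0, 0, 0), (16, 0, 0, 0, 0), (13, 0, 0, 0, 0), (13, 0, 0, 0, 0), (15, 0, 0, 0, 0), (15, 0, 0, 0, 0), (17, 0, 0, 0, 0), (17, 0, 0, 0, 0),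 (14, 0, 0, 0, 0), (14, 0, 0, 0, 0), (16, 0, 0, 0, 0), (16, 0, 0, 0, 0), (17, 0, 0, 0, 0), (17, 0, 0, 0, 0), (18, 0, 0, 0, 0), (18, 0, 0, 0, 0), (19, 0, 0, 0, 0), (19, 0, 0, 0, 0), (20, 0, 0, 0, 0), (20, 0, 0, 0, 0), (18, 0, 0, 0, 0), (18, 0, 0, 0, 0), (21, 0, 0, 0, 0), (21, 0, 0, 0, 0), (22, 0, 0, 0, 0), (22, 0, 0, 0, 0), (19, 0, 0, 0, 0), (19, 0, 0, 0, 0), (21, 0, 0, 0, 0), (21, 0, 0, 0, 0), (23, 0, 0, 0, 0), (23, 0, 0, 0, 0), (20, 0, 0, 0, 0), (20, 0, 0, 0, 0), (22, 0, 0, 0, 0), (22, 0, 0, 0, 0), (23, 0, 0, 0, 0), (23, 0, 0, 0, 0), (72, 0, 0, 0, 0), (72, 0, 0, 0, 0), (73, 0, 0, 0, 0), (73, 0, 0, 0, 0), (74, 0, 0, 0, 0), (74, 0, 0, 0, 0), (72, 0, 0, 0, 0), (72, 0, 0, 0, 0), (75, 0, 0, 0, 0), (75, 0, 0, 0, 0), (76, 0, 0, 0, 0), (76, 0, 0, 0, 0), (73,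 0, 0, 0, 0), (73, 0, 0, 0, 0), (75, 0, 0, 0, 0), (75, 0, 0, 0, 0), (77, 0, 0, 0, 0), (77, 0, 0, 0, 0), (74, 0, 0, 0, 0), (74, 0, 0, 0, 0), (76, 0, 0, 0, 0), (76, 0, 0, 0, 0), (77, 0, 0, 0, 0), (77, 0, 0, 0, 0), (0, 0, 0, 0, 0), (1, 0, 0, 0, 0), (0, 0, 0, 0, 0), (3, 0, 0, 0, 0), (1, 0, 0, 0, 0), (3, 0, 0, 0, 0), (24, 0, 0, 0, 0), (25, 0, 0, 0, 0), (24, 0, 0, 0, 0), (78, 0, 0, 0, 0), (78, 0, 0, 0, 0), (26, 0, 0, 0, 0), (25, 0, 0, 0, 0), (78, 0, 0, 0, 0), (78, 0, 0, 0, 0), (27, 0, 0, 0, 0), (26, 0, 0, 0, 0), (27, 0, 0, 0, 0), (28, 0, 0, 0, 0), (29, 0, 0, 0, 0), (28, 0, 0, 0, 0), (79, 0, 0, 0, 0), (79, 0, 0, 0, 0), (30, 0, 0, 0, 0), (29, 0, 0, 0, 0), (79, 0, 0, 0, 0), (79, 0, 0, 0, 0), (31, 0, 0, 0, 0), (30, 0, 0, 0, 0), (31, 0, 0, 0, 0), (32, 0, 0, 0, 0),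 (33, 0, 0, 0, 0), (32, 0, 0, 0, 0), (80, 0, 0, 0, 0), (80, 0, 0, 0, 0), (34, 0, 0, 0, 0), (33, 0, 0, 0, 0), (80, 0, 0, 0, 0), (80, 0, 0, 0, 0), (35, 0, 0, 0, 0), (34, 0, 0, 0, 0), (35, 0, 0, 0, 0), (36, 0, 0, 0, 0), (37, 0, 0, 0, 0), (36, 0, 0, 0, 0), (38, 0, 0, 0, 0), (37, 0, 0, 0, 0), (38, 0, 0, 0, 0), (6, 0, 0, 0, 0), (7, 0, 0, 0, 0), (6, 0, 0, 0, 0), (9, 0, 0, 0, 0), (7, 0, 0, 0, 0), (9, 0, 0, 0, 0), (24, 0, 0, 0, 0), (25, 0, 0, 0, 0), (24, 0, 0, 0, 0), (78, 0, 0, 0, 0), (78, 0, 0, 0, 0), (26, 0, 0, 0, 0), (25, 0, 0, 0, 0), (78, 0, 0, 0, 0), (78, 0, 0, 0, 0), (27, 0, 0, 0, 0), (26, 0, 0, 0, 0), (27, 0, 0, 0, 0), (39, 0, 0, 0, 0), (40, 0, 0, 0, 0), (39, 0, 0, 0, 0), (81, 0, 0, 0, 0), (81, 0, 0, 0, 0), (41, 0, 0, 0, 0), (40, 0, 0, 0, 0), (81, 0, 0,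 0, 0), (81, 0, 0, 0, 0), (42, 0, 0, 0, 0), (41, 0, 0, 0, 0), (42, 0, 0, 0, 0), (43, 0, 0, 0, 0), (44, 0, 0, 0, 0), (43, 0, 0, 0, 0), (82, 0, 0, 0, 0), (82, 0, 0, 0, 0), (45, 0, 0, 0, 0), (44, 0, 0, 0, 0), (82, 0, 0, 0, 0), (82, 0, 0, 0, 0), (46, 0, 0, 0, 0), (45, 0, 0, 0, 0), (46, 0, 0, 0, 0), (47, 0, 0, 0, 0), (48, 0, 0, 0, 0), (47, 0, 0, 0, 0), (49, 0, 0, 0, 0), (48, 0, 0, 0, 0), (49, 0, 0, 0, 0), (12, 0, 0, 0, 0), (13, 0, 0, 0, 0), (12, 0, 0, 0, 0), (15, 0, 0, 0, 0), (13, 0, 0, 0, 0), (15, 0, 0, 0, 0), (28, 0, 0, 0, 0), (29, 0, 0, 0, 0), (28, 0, 0, 0, 0), (79, 0, 0, 0, 0), (79, 0, 0, 0, 0), (30, 0, 0, 0, 0), (29, 0, 0, 0, 0), (79, 0, 0, 0, 0), (79, 0, 0, 0, 0), (31, 0, 0, 0, 0), (30, 0, 0, 0, 0), (31, 0, 0, 0, 0), (39, 0, 0, 0, 0), (40, 0, 0, 0, 0),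 (39, 0, 0, 0, 0), (81, 0, 0, 0, 0), (81, 0, 0, 0, 0), (41, 0, 0, 0, 0), (40, 0, 0, 0, 0), (81, 0, 0, 0, 0), (81, 0, 0, 0, 0), (42, 0, 0, 0, 0), (41, 0, 0, 0, 0), (42, 0, 0, 0, 0), (50, 0, 0, 0, 0), (51, 0, 0, 0, 0), (50, 0, 0, 0, 0), (83, 0, 0, 0, 0), (83, 0, 0, 0, 0), (52, 0, 0, 0, 0), (51, 0, 0, 0, 0), (83, 0, 0, 0, 0), (83, 0, 0, 0, 0), (53, 0, 0, 0, 0), (52, 0, 0, 0, 0), (53, 0, 0, 0, 0), (54, 0, 0, 0, 0), (55, 0, 0, 0, 0), (54, 0, 0, 0, 0), (56, 0, 0, 0, 0), (55, 0, 0, 0, 0), (56, 0, 0, 0, 0), (18, 0, 0, 0, 0), (19, 0, 0, 0, 0), (18, 0, 0, 0, 0), (21, 0, 0, 0, 0), (19, 0, 0, 0, 0), (21, 0, 0, 0, 0), (32, 0, 0, 0, 0), (33, 0, 0, 0, 0), (32, 0, 0, 0, 0), (80, 0, 0, 0, 0), (80, 0, 0, 0, 0), (34, 0, 0, 0, 0), (33, 0, 0, 0, 0), (80, 0, 0, 0, 0), (80,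 0, 0, 0, 0), (35, 0, 0, 0, 0), (34, 0, 0, 0, 0), (35, 0, 0, 0, 0), (43, 0, 0, 0, 0), (44, 0, 0, 0, 0), (43, 0, 0, 0, 0), (82, 0, 0, 0, 0), (82, 0, 0, 0, 0), (45, 0, 0, 0, 0), (44, 0, 0, 0, 0), (82, 0, 0, 0, 0), (82, 0, 0, 0, 0), (46, 0, 0, 0, 0), (45, 0, 0, 0, 0), (46, 0, 0, 0, 0), (50, 0, 0, 0, 0), (51, 0, 0, 0, 0), (50, 0, 0, 0, 0), (83, 0, 0, 0, 0), (83, 0, 0, 0, 0), (52, 0, 0, 0, 0), (51, 0, 0, 0, 0), (83, 0, 0, 0, 0), (83, 0, 0, 0, 0), (53, 0, 0, 0, 0), (52, 0, 0, 0, 0), (53, 0, 0, 0, 0), (57, 0, 0, 0, 0), (58, 0, 0, 0, 0), (57, 0, 0, 0, 0), (59, 0, 0, 0, 0), (58, 0, 0, 0, 0), (59, 0, 0, 0, 0), (72, 0, 0, 0, 0), (72, 0, 0, 0, 0), (73, 0, 0, 0, 0), (73, 0, 0, 0, 0), (74, 0, 0, 0, 0), (74, 0, 0, 0, 0), (72, 0, 0, 0, 0), (72, 0, 0, 0, 0), (75, 0, 0,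 0, 0), (75, 0, 0, 0, 0), (76, 0, 0, 0, 0), (76, 0, 0, 0, 0), (73, 0, 0, 0, 0), (73, 0, 0, 0, 0), (75, 0, 0, 0, 0), (75, 0, 0, 0, 0), (77, 0, 0, 0, 0), (77, 0, 0, 0, 0), (74, 0, 0, 0, 0), (74, 0, 0, 0, 0), (76, 0, 0, 0, 0), (76, 0, 0, 0, 0), (77, 0, 0, 0, 0), (77, 0, 0, 0, 0), (60, 0, 0, 0, 0), (60, 0, 0, 0, 0), (61, 0, 0, 0, 0), (61, 0, 0, 0, 0), (62, 0, 0, 0, 0), (62, 0, 0, 0, 0), (60, 0, 0, 0, 0), (60, 0, 0, 0, 0), (36, 0, 0, 0, 0), (36, 0, 0, 0, 0), (37, 0, 0, 0, 0), (37, 0, 0, 0, 0), (61, 0, 0, 0, 0), (61, 0, 0, 0, 0), (36, 0, 0, 0, 0), (36, 0, 0, 0, 0), (38, 0, 0, 0, 0), (38, 0, 0, 0, 0), (62, 0, 0, 0, 0), (62, 0, 0, 0, 0), (37, 0, 0, 0, 0), (37, 0, 0, 0, 0), (38, 0, 0, 0, 0), (38, 0, 0, 0, 0), (63, 0, 0, 0, 0), (63, 0, 0, 0, 0), (64, 0, 0, 0, 0),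 (64, 0, 0, 0, 0), (65, 0, 0, 0, 0), (65, 0, 0, 0, 0), (63, 0, 0, 0, 0), (63, 0, 0, 0, 0), (47, 0, 0, 0, 0), (47, 0, 0, 0, 0), (48, 0, 0, 0, 0), (48, 0, 0, 0, 0), (64, 0, 0, 0, 0), (64, 0, 0, 0, 0), (47, 0, 0, 0, 0), (47, 0, 0, 0, 0), (49, 0, 0, 0, 0), (49, 0, 0, 0, 0), (65, 0, 0, 0, 0), (65, 0, 0, 0, 0), (48, 0, 0, 0, 0), (48, 0, 0, 0, 0), (49, 0, 0, 0, 0), (49, 0, 0, 0, 0), (66, 0, 0, 0, 0), (66, 0, 0, 0, 0), (67, 0, 0, 0, 0), (67, 0, 0, 0, 0), (68, 0, 0, 0, 0), (68, 0, 0, 0, 0), (66, 0, 0, 0, 0), (66, 0, 0, 0, 0), (54, 0, 0, 0, 0), (54, 0, 0, 0, 0), (55, 0, 0, 0, 0), (55, 0, 0, 0, 0), (67, 0, 0, 0, 0), (67, 0, 0, 0, 0), (54, 0, 0, 0, 0), (54, 0, 0, 0, 0), (56, 0, 0, 0, 0), (56, 0, 0, 0, 0), (68, 0, 0, 0, 0), (68, 0, 0, 0, 0), (55, 0, 0, 0, 0), (55,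 0, 0, 0, 0), (56, 0, 0, 0, 0), (56, 0, 0, 0, 0), (69, 0, 0, 0, 0), (69, 0, 0, 0, 0), (70, 0, 0, 0, 0), (70, 0, 0, 0, 0), (71, 0, 0, 0, 0), (71, 0, 0, 0, 0), (69, 0, 0, 0, 0), (69, 0, 0, 0, 0), (57, 0, 0, 0, 0), (57, 0, 0, 0, 0), (58, 0, 0, 0, 0), (58, 0, 0, 0, 0), (70, 0, 0, 0, 0), (70, 0, 0, 0, 0), (57, 0, 0, 0, 0), (57, 0, 0, 0, 0), (59, 0, 0, 0, 0), (59, 0, 0, 0, 0), (71, 0, 0, 0, 0), (71, 0, 0, 0, 0), (58, 0, 0, 0, 0), (58, 0, 0, 0, 0), (59, 0, 0, 0, 0), (59, 0, 0, 0, 0)],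
  [(5, 0, 0, 0, 0), (5, 0, 0, 0, 0), (4, 0, 0, 0, 0), (4, 0, 0, 0, 0), (3, 0, 0, 0, 0), (3, 0, 0, 0, 0), (5, 0, 0, 0, 0), (5, 0, 0, 0, 0), (2, 0, 0, 0, 0), (2, 0, 0, 0, 0), (1, 0, 0, 0, 0), (1, 0, 0, 0, 0), (4, 0, 0, 0, 0), (4, 0, 0, 0, 0), (2, 0, 0, 0, 0), (2, 0, 0, 0, 0), (0, 0, 0, 0, 0), (0, 0, 0, 0, 0), (3, 0, 0, 0, 0), (3, 0, 0, 0, 0), (1, 0, 0, 0, 0), (1, 0, 0, 0, 0), (0, 0, 0, 0, 0), (0, 0, 0, 0, 0), (11, 0, 0, 0, 0), (11, 0, 0, 0, 0), (10, 0, 0, 0, 0), (10, 0, 0, 0, 0), (9, 0, 0, 0, 0), (9, 0, 0, 0, 0), (11, 0, 0, 0, 0), (11, 0, 0, 0, 0), (8, 0, 0, 0, 0), (8, 0, 0, 0, 0), (7, 0, 0, 0, 0), (7, 0, 0, 0, 0), (10, 0, 0, 0, 0), (10, 0, 0, 0, 0), (8, 0, 0, 0, 0), (8, 0, 0, 0, 0), (6, 0, 0, 0, 0), (6, 0, 0, 0, 0), (9, 0, 0, 0, 0), (9, 0, 0, 0, 0), (7,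 0, 0, 0, 0), (7, 0, 0, 0, 0), (6, 0, 0, 0, 0), (6, 0, 0, 0, 0), (17, 0, 0, 0, 0), (17, 0, 0, 0, 0), (16, 0, 0, 0, 0), (16, 0, 0, 0, 0), (15, 0, 0, 0, 0), (15, 0, 0, 0, 0), (17, 0, 0, 0, 0), (17, 0, 0, 0, 0), (14, 0, 0, 0, 0), (14, 0, 0, 0, 0), (13, 0, 0, 0, 0), (13, 0, 0, 0, 0), (16, 0, 0, 0, 0), (16, 0, 0, 0, 0), (14, 0, 0, 0, 0), (14, 0, 0, 0, 0), (12, 0, 0, 0, 0), (12, 0, 0, 0, 0), (15, 0, 0, 0, 0), (15, 0, 0, 0, 0), (13, 0, 0, 0, 0), (13, 0, 0, 0, 0), (12, 0, 0, 0, 0), (12, 0, 0, 0, 0), (23, 0, 0, 0, 0), (23, 0, 0, 0, 0), (22, 0, 0, 0, 0), (22, 0, 0, 0, 0), (21, 0, 0, 0, 0), (21, 0, 0, 0, 0), (23, 0, 0, 0, 0), (23, 0, 0, 0, 0), (20, 0, 0, 0, 0), (20, 0, 0, 0, 0), (19, 0, 0, 0, 0), (19, 0, 0, 0, 0), (22, 0, 0, 0, 0), (22, 0, 0, 0, 0), (20, 0, 0, 0,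 0), (20, 0, 0, 0, 0), (18, 0, 0, 0, 0), (18, 0, 0, 0, 0), (21, 0, 0, 0, 0), (21, 0, 0, 0, 0), (19, 0, 0, 0, 0), (19, 0, 0, 0, 0), (18, 0, 0, 0, 0), (18, 0, 0, 0, 0), (77, 0, 0, 0, 0), (77, 0, 0, 0, 0), (76, 0, 0, 0, 0), (76, 0, 0, 0, 0), (75, 0, 0, 0, 0), (75, 0, 0, 0, 0), (77, 0, 0, 0, 0), (77, 0, 0, 0, 0), (74, 0, 0, 0, 0), (74, 0, 0, 0, 0), (73, 0, 0, 0, 0), (73, 0, 0, 0, 0), (76, 0, 0, 0, 0), (76, 0, 0, 0, 0), (74, 0, 0, 0, 0), (74, 0, 0, 0, 0), (72, 0, 0, 0, 0), (72, 0, 0, 0, 0), (75, 0, 0, 0, 0), (75, 0, 0, 0, 0), (73, 0, 0, 0, 0), (73, 0, 0, 0, 0), (72, 0, 0, 0, 0), (72, 0, 0, 0, 0), (5, 0, 0, 0, 0), (4, 0, 0, 0, 0), (5, 0, 0, 0, 0), (2, 0, 0, 0, 0), (4, 0, 0, 0, 0), (2, 0, 0, 0, 0), (27, 0, 0, 0, 0), (26, 0, 0, 0, 0), (27, 0, 0, 0, 0), (84, 0,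 0, 0, 0), (84, 0, 0, 0, 0), (25, 0, 0, 0, 0), (26, 0, 0, 0, 0), (84, 0, 0, 0, 0), (84, 0, 0, 0, 0), (24, 0, 0, 0, 0), (25, 0, 0, 0, 0), (24, 0, 0, 0, 0), (31, 0, 0, 0, 0), (30, 0, 0, 0, 0), (31, 0, 0, 0, 0), (85, 0, 0, 0, 0), (85, 0, 0, 0, 0), (29, 0, 0, 0, 0), (30, 0, 0, 0, 0), (85, 0, 0, 0, 0), (85, 0, 0, 0, 0), (28, 0, 0, 0, 0), (29, 0, 0, 0, 0), (28, 0, 0, 0, 0), (35, 0, 0, 0, 0), (34, 0, 0, 0, 0), (35, 0, 0, 0, 0), (86, 0, 0, 0, 0), (86, 0, 0, 0, 0), (33, 0, 0, 0, 0), (34, 0, 0, 0, 0), (86, 0, 0, 0, 0), (86, 0, 0, 0, 0), (32, 0, 0, 0, 0), (33, 0, 0, 0, 0), (32, 0, 0, 0, 0), (62, 0, 0, 0, 0), (61, 0, 0, 0, 0), (62, 0, 0, 0, 0), (60, 0, 0, 0, 0), (61, 0, 0, 0, 0), (60, 0, 0, 0, 0), (11, 0, 0, 0, 0), (10, 0, 0, 0, 0), (11, 0, 0, 0, 0), (8, 0, 0, 0,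 0), (10, 0, 0, 0, 0), (8, 0, 0, 0, 0), (27, 0, 0, 0, 0), (26, 0, 0, 0, 0), (27, 0, 0, 0, 0), (84, 0, 0, 0, 0), (84, 0, 0, 0, 0), (25, 0, 0, 0, 0), (26, 0, 0, 0, 0), (84, 0, 0, 0, 0), (84, 0, 0, 0, 0), (24, 0, 0, 0, 0), (25, 0, 0, 0, 0), (24, 0, 0, 0, 0), (42, 0, 0, 0, 0), (41, 0, 0, 0, 0), (42, 0, 0, 0, 0), (87, 0, 0, 0, 0), (87, 0, 0, 0, 0), (40, 0, 0, 0, 0), (41, 0, 0, 0, 0), (87, 0, 0, 0, 0), (87, 0, 0, 0, 0), (39, 0, 0, 0, 0), (40, 0, 0, 0, 0), (39, 0, 0, 0, 0), (46, 0, 0, 0, 0), (45, 0, 0, 0, 0), (46, 0, 0, 0, 0), (88, 0, 0, 0, 0), (88, 0, 0, 0, 0), (44, 0, 0, 0, 0), (45, 0, 0, 0, 0), (88, 0, 0, 0, 0), (88, 0, 0, 0, 0), (43, 0, 0, 0, 0), (44, 0, 0, 0, 0), (43, 0, 0, 0, 0), (65, 0, 0, 0, 0), (64, 0, 0, 0, 0), (65, 0, 0, 0, 0), (63, 0, 0, 0, 0), (64,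 0, 0, 0, 0), (63, 0, 0, 0, 0), (17, 0, 0, 0, 0), (16, 0, 0, 0, 0), (17, 0, 0, 0, 0), (14, 0, 0, 0, 0), (16, 0, 0, 0, 0), (14, 0, 0, 0, 0), (31, 0, 0, 0, 0), (30, 0, 0, 0, 0), (31, 0, 0, 0, 0), (85, 0, 0, 0, 0), (85, 0, 0, 0, 0), (29, 0, 0, 0, 0), (30, 0, 0, 0, 0), (85, 0, 0, 0, 0), (85, 0, 0, 0, 0), (28, 0, 0, 0, 0), (29, 0, 0, 0, 0), (28, 0, 0, 0, 0), (42, 0, 0, 0, 0), (41, 0, 0, 0, 0), (42, 0, 0, 0, 0), (87, 0, 0, 0, 0), (87, 0, 0, 0, 0), (40, 0, 0, 0, 0), (41, 0, 0, 0, 0), (87, 0, 0, 0, 0), (87, 0, 0, 0, 0), (39, 0, 0, 0, 0), (40, 0, 0, 0, 0), (39, 0, 0, 0, 0), (53, 0, 0, 0, 0), (52, 0, 0, 0, 0), (53, 0, 0, 0, 0), (89, 0, 0, 0, 0), (89, 0, 0, 0, 0), (51, 0, 0, 0, 0), (52, 0, 0, 0, 0), (89, 0, 0, 0, 0), (89, 0, 0, 0, 0), (50, 0, 0, 0, 0), (51, 0, 0,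 0, 0), (50, 0, 0, 0, 0), (68, 0, 0, 0, 0), (67, 0, 0, 0, 0), (68, 0, 0, 0, 0), (66, 0, 0, 0, 0), (67, 0, 0, 0, 0), (66, 0, 0, 0, 0), (23, 0, 0, 0, 0), (22, 0, 0, 0, 0), (23, 0, 0, 0, 0), (20, 0, 0, 0, 0), (22, 0, 0, 0, 0), (20, 0, 0, 0, 0), (35, 0, 0, 0, 0), (34, 0, 0, 0, 0), (35, 0, 0, 0, 0), (86, 0, 0, 0, 0), (86, 0, 0, 0, 0), (33, 0, 0, 0, 0), (34, 0, 0, 0, 0), (86, 0, 0, 0, 0), (86, 0, 0, 0, 0), (32, 0, 0, 0, 0), (33, 0, 0, 0, 0), (32, 0, 0, 0, 0), (46, 0, 0, 0, 0), (45, 0, 0, 0, 0), (46, 0, 0, 0, 0), (88, 0, 0, 0, 0), (88, 0, 0, 0, 0), (44, 0, 0, 0, 0), (45, 0, 0, 0, 0), (88, 0, 0, 0, 0), (88, 0, 0, 0, 0), (43, 0, 0, 0, 0), (44, 0, 0, 0, 0), (43, 0, 0, 0, 0), (53, 0, 0, 0, 0), (52, 0, 0, 0, 0), (53, 0, 0, 0, 0), (89, 0, 0, 0, 0), (89, 0, 0, 0, 0),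 (51, 0, 0, 0, 0), (52, 0, 0, 0, 0), (89, 0, 0, 0, 0), (89, 0, 0, 0, 0), (50, 0, 0, 0, 0), (51, 0, 0, 0, 0), (50, 0, 0, 0, 0), (71, 0, 0, 0, 0), (70, 0, 0, 0, 0), (71, 0, 0, 0, 0), (69, 0, 0, 0, 0), (70, 0, 0, 0, 0), (69, 0, 0, 0, 0), (77, 0, 0, 0, 0), (77, 0, 0, 0, 0), (76, 0, 0, 0, 0), (76, 0, 0, 0, 0), (75, 0, 0, 0, 0), (75, 0, 0, 0, 0), (77, 0, 0, 0, 0), (77, 0, 0, 0, 0), (74, 0, 0, 0, 0), (74, 0, 0, 0, 0), (73, 0, 0, 0, 0), (73, 0, 0, 0, 0), (76, 0, 0, 0, 0), (76, 0, 0, 0, 0), (74, 0, 0, 0, 0), (74, 0, 0, 0, 0), (72, 0, 0, 0, 0), (72, 0, 0, 0, 0), (75, 0, 0, 0, 0), (75, 0, 0, 0, 0), (73, 0, 0, 0, 0), (73, 0, 0, 0, 0), (72, 0, 0, 0, 0), (72, 0, 0, 0, 0), (38, 0, 0, 0, 0), (38, 0, 0, 0, 0), (37, 0, 0, 0, 0), (37, 0, 0, 0, 0), (36, 0, 0, 0, 0), (36,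 0, 0, 0, 0), (38, 0, 0, 0, 0), (38, 0, 0, 0, 0), (62, 0, 0, 0, 0), (62, 0, 0, 0, 0), (61, 0, 0, 0, 0), (61, 0, 0, 0, 0), (37, 0, 0, 0, 0), (37, 0, 0, 0, 0), (62, 0, 0, 0, 0), (62, 0, 0, 0, 0), (60, 0, 0, 0, 0), (60, 0, 0, 0, 0), (36, 0, 0, 0, 0), (36, 0, 0, 0, 0), (61, 0, 0, 0, 0), (61, 0, 0, 0, 0), (60, 0, 0, 0, 0), (60, 0, 0, 0, 0), (49, 0, 0, 0, 0), (49, 0, 0, 0, 0), (48, 0, 0, 0, 0), (48, 0, 0, 0, 0), (47, 0, 0, 0, 0), (47, 0, 0, 0, 0), (49, 0, 0, 0, 0), (49, 0, 0, 0, 0), (65, 0, 0, 0, 0), (65, 0, 0, 0, 0), (64, 0, 0, 0, 0), (64, 0, 0, 0, 0), (48, 0, 0, 0, 0), (48, 0, 0, 0, 0), (65, 0, 0, 0, 0), (65, 0, 0, 0, 0), (63, 0, 0, 0, 0), (63, 0, 0, 0, 0), (47, 0, 0, 0, 0), (47, 0, 0, 0, 0), (64, 0, 0, 0, 0), (64, 0, 0, 0, 0), (63, 0, 0, 0, 0), (63, 0, 0,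 0, 0), (56, 0, 0, 0, 0), (56, 0, 0, 0, 0), (55, 0, 0, 0, 0), (55, 0, 0, 0, 0), (54, 0, 0, 0, 0), (54, 0, 0, 0, 0), (56, 0, 0, 0, 0), (56, 0, 0, 0, 0), (68, 0, 0, 0, 0), (68, 0, 0, 0, 0), (67, 0, 0, 0, 0), (67, 0, 0, 0, 0), (55, 0, 0, 0, 0), (55, 0, 0, 0, 0), (68, 0, 0, 0, 0), (68, 0, 0, 0, 0), (66, 0, 0, 0, 0), (66, 0, 0, 0, 0), (54, 0, 0, 0, 0), (54, 0, 0, 0, 0), (67, 0, 0, 0, 0), (67, 0, 0, 0, 0), (66, 0, 0, 0, 0), (66, 0, 0, 0, 0), (59, 0, 0, 0, 0), (59, 0, 0, 0, 0), (58, 0, 0, 0, 0), (58, 0, 0, 0, 0), (57, 0, 0, 0, 0), (57, 0, 0, 0, 0), (59, 0, 0, 0, 0), (59, 0, 0, 0, 0), (71, 0, 0, 0, 0), (71, 0, 0, 0, 0), (70, 0, 0, 0, 0), (70, 0, 0, 0, 0), (58, 0, 0, 0, 0), (58, 0, 0, 0, 0), (71, 0, 0, 0, 0), (71, 0, 0, 0, 0), (69, 0, 0, 0, 0), (69, 0, 0, 0, 0),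 (57, 0, 0, 0, 0), (57, 0, 0, 0, 0), (70, 0, 0, 0, 0), (70, 0, 0, 0, 0), (69, 0, 0, 0, 0), (69, 0, 0, 0, 0)],
  [(39, 0, 0, 0, 0), (39, 0, 0, 0, 0), (43, 0, 0, 0, 0), (43, 0, 0, 0, 0), (63, 0, 0, 0, 0), (63, 0, 0, 0, 0), (39, 0, 0, 0, 0), (39, 0, 0, 0, 0), (50, 0, 0, 0, 0), (50, 0, 0, 0, 0), (66, 0, 0, 0, 0), (66, 0, 0, 0, 0), (43, 0, 0, 0, 0), (43, 0, 0, 0, 0), (50, 0, 0, 0, 0), (50, 0, 0, 0, 0), (69, 0, 0, 0, 0), (69, 0, 0, 0, 0), (63, 0, 0, 0, 0), (63, 0, 0, 0, 0), (66, 0, 0, 0, 0), (66, 0, 0, 0, 0), (69, 0, 0, 0, 0), (69, 0, 0, 0, 0), (28, 0, 0, 0, 0), (28, 0, 0, 0, 0), (32, 0, 0, 0, 0), (32, 0, 0, 0, 0), (60, 0, 0, 0, 0), (60, 0, 0, 0, 0), (28, 0, 0, 0, 0), (28, 0, 0, 0, 0), (51, 0, 0, 0, 0), (51, 0, 0, 0, 0), (67, 0, 0, 0, 0), (67, 0, 0, 0, 0), (32,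 0, 0, 0, 0), (32, 0, 0, 0, 0), (51, 0, 0, 0, 0), (51, 0, 0, 0, 0), (70, 0, 0, 0, 0), (70, 0, 0, 0, 0), (60, 0, 0, 0, 0), (60, 0, 0, 0, 0), (67, 0, 0, 0, 0), (67, 0, 0, 0, 0), (70, 0, 0, 0, 0), (70, 0, 0, 0, 0), (24, 0, 0, 0, 0), (24, 0, 0, 0, 0), (33, 0, 0, 0, 0), (33, 0, 0, 0, 0), (61, 0, 0, 0, 0), (61, 0, 0, 0, 0), (24, 0, 0, 0, 0), (24, 0, 0, 0, 0), (44, 0, 0, 0, 0), (44, 0, 0, 0, 0), (64, 0, 0, 0, 0), (64, 0, 0, 0, 0), (33, 0, 0, 0, 0), (33, 0, 0, 0, 0), (44, 0, 0, 0, 0), (44, 0, 0, 0, 0), (71, 0, 0, 0, 0), (71, 0, 0, 0, 0), (61, 0, 0, 0, 0), (61, 0, 0, 0, 0), (64, 0, 0, 0, 0), (64, 0, 0, 0, 0), (71, 0, 0, 0, 0), (71, 0, 0, 0, 0), (25, 0, 0, 0, 0), (25, 0, 0, 0, 0), (29, 0, 0, 0, 0), (29, 0, 0, 0, 0), (62, 0, 0, 0, 0), (62, 0, 0, 0, 0), (25, 0, 0,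 0, 0), (25, 0, 0, 0, 0), (40, 0, 0, 0, 0), (40, 0, 0, 0, 0), (65, 0, 0, 0, 0), (65, 0, 0, 0, 0), (29, 0, 0, 0, 0), (29, 0, 0, 0, 0), (40, 0, 0, 0, 0), (40, 0, 0, 0, 0), (68, 0, 0, 0, 0), (68, 0, 0, 0, 0), (62, 0, 0, 0, 0), (62, 0, 0, 0, 0), (65, 0, 0, 0, 0), (65, 0, 0, 0, 0), (68, 0, 0, 0, 0), (68, 0, 0, 0, 0), (84, 0, 0, 0, 0), (84, 0, 0, 0, 0), (85, 0, 0, 0, 0), (85, 0, 0, 0, 0), (86, 0, 0, 0, 0), (86, 0, 0, 0, 0), (84, 0, 0, 0, 0), (84, 0, 0, 0, 0), (87, 0, 0, 0, 0), (87, 0, 0, 0, 0), (88, 0, 0, 0, 0), (88, 0, 0, 0, 0), (85, 0, 0, 0, 0), (85, 0, 0, 0, 0), (87, 0, 0, 0, 0), (87, 0, 0, 0, 0), (89, 0, 0, 0, 0), (89, 0, 0, 0, 0), (86, 0, 0, 0, 0), (86, 0, 0, 0, 0), (88, 0, 0, 0, 0), (88, 0, 0, 0, 0), (89, 0, 0, 0, 0), (89, 0, 0, 0, 0), (39, 0, 0, 0, 0),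 (43, 0, 0, 0, 0), (39, 0, 0, 0, 0), (50, 0, 0, 0, 0), (43, 0, 0, 0, 0), (50, 0, 0, 0, 0), (12, 0, 0, 0, 0), (18, 0, 0, 0, 0), (12, 0, 0, 0, 0), (83, 0, 0, 0, 0), (83, 0, 0, 0, 0), (54, 0, 0, 0, 0), (18, 0, 0, 0, 0), (83, 0, 0, 0, 0), (83, 0, 0, 0, 0), (57, 0, 0, 0, 0), (54, 0, 0, 0, 0), (57, 0, 0, 0, 0), (6, 0, 0, 0, 0), (19, 0, 0, 0, 0), (6, 0, 0, 0, 0), (82, 0, 0, 0, 0), (82, 0, 0, 0, 0), (47, 0, 0, 0, 0), (19, 0, 0, 0, 0), (82, 0, 0, 0, 0), (82, 0, 0, 0, 0), (58, 0, 0, 0, 0), (47, 0, 0, 0, 0), (58, 0, 0, 0, 0), (7, 0, 0, 0, 0), (13, 0, 0, 0, 0), (7, 0, 0, 0, 0), (81, 0, 0, 0, 0), (81, 0, 0, 0, 0), (48, 0, 0, 0, 0), (13, 0, 0, 0, 0), (81, 0, 0, 0, 0), (81, 0, 0, 0, 0), (55, 0, 0, 0, 0), (48, 0, 0, 0, 0), (55, 0, 0, 0, 0), (41, 0, 0, 0, 0), (45, 0, 0,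 0, 0), (41, 0, 0, 0, 0), (52, 0, 0, 0, 0), (45, 0, 0, 0, 0), (52, 0, 0, 0, 0), (28, 0, 0, 0, 0), (32, 0, 0, 0, 0), (28, 0, 0, 0, 0), (51, 0, 0, 0, 0), (32, 0, 0, 0, 0), (51, 0, 0, 0, 0), (12, 0, 0, 0, 0), (18, 0, 0, 0, 0), (12, 0, 0, 0, 0), (83, 0, 0, 0, 0), (83, 0, 0, 0, 0), (54, 0, 0, 0, 0), (18, 0, 0, 0, 0), (83, 0, 0, 0, 0), (83, 0, 0, 0, 0), (57, 0, 0, 0, 0), (54, 0, 0, 0, 0), (57, 0, 0, 0, 0), (0, 0, 0, 0, 0), (21, 0, 0, 0, 0), (0, 0, 0, 0, 0), (80, 0, 0, 0, 0), (80, 0, 0, 0, 0), (36, 0, 0, 0, 0), (21, 0, 0, 0, 0), (80, 0, 0, 0, 0), (80, 0, 0, 0, 0), (59, 0, 0, 0, 0), (36, 0, 0, 0, 0), (59, 0, 0, 0, 0), (1, 0, 0, 0, 0), (15, 0, 0, 0, 0), (1, 0, 0, 0, 0), (79, 0, 0, 0, 0), (79, 0, 0, 0, 0), (37, 0, 0, 0, 0), (15, 0, 0, 0, 0), (79, 0, 0, 0, 0), (79,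 0, 0, 0, 0), (56, 0, 0, 0, 0), (37, 0, 0, 0, 0), (56, 0, 0, 0, 0), (30, 0, 0, 0, 0), (34, 0, 0, 0, 0), (30, 0, 0, 0, 0), (53, 0, 0, 0, 0), (34, 0, 0, 0, 0), (53, 0, 0, 0, 0), (24, 0, 0, 0, 0), (33, 0, 0, 0, 0), (24, 0, 0, 0, 0), (44, 0, 0, 0, 0), (33, 0, 0, 0, 0), (44, 0, 0, 0, 0), (6, 0, 0, 0, 0), (19, 0, 0, 0, 0), (6, 0, 0, 0, 0), (82, 0, 0, 0, 0), (82, 0, 0, 0, 0), (47, 0, 0, 0, 0), (19, 0, 0, 0, 0), (82, 0, 0, 0, 0), (82, 0, 0, 0, 0), (58, 0, 0, 0, 0), (47, 0, 0, 0, 0), (58, 0, 0, 0, 0), (0, 0, 0, 0, 0), (21, 0, 0, 0, 0), (0, 0, 0, 0, 0), (80, 0, 0, 0, 0), (80, 0, 0, 0, 0), (36, 0, 0, 0, 0), (21, 0, 0, 0, 0), (80, 0, 0, 0, 0), (80, 0, 0, 0, 0), (59, 0, 0, 0, 0), (36, 0, 0, 0, 0), (59, 0, 0, 0, 0), (3, 0, 0, 0, 0), (9, 0, 0, 0, 0), (3, 0, 0, 0, 0),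 (78, 0, 0, 0, 0), (78, 0, 0, 0, 0), (38, 0, 0, 0, 0), (9, 0, 0, 0, 0), (78, 0, 0, 0, 0), (78, 0, 0, 0, 0), (49, 0, 0, 0, 0), (38, 0, 0, 0, 0), (49, 0, 0, 0, 0), (26, 0, 0, 0, 0), (35, 0, 0, 0, 0), (26, 0, 0, 0, 0), (46, 0, 0, 0, 0), (35, 0, 0, 0, 0), (46, 0, 0, 0, 0), (25, 0, 0, 0, 0), (29, 0, 0, 0, 0), (25, 0, 0, 0, 0), (40, 0, 0, 0, 0), (29, 0, 0, 0, 0), (40, 0, 0, 0, 0), (7, 0, 0, 0, 0), (13, 0, 0, 0, 0), (7, 0, 0, 0, 0), (81, 0, 0, 0, 0), (81, 0, 0, 0, 0), (48, 0, 0, 0, 0), (13, 0, 0, 0, 0), (81, 0, 0, 0, 0), (81, 0, 0, 0, 0), (55, 0, 0, 0, 0), (48, 0, 0, 0, 0), (55, 0, 0, 0, 0), (1, 0, 0, 0, 0), (15, 0, 0, 0, 0), (1, 0, 0, 0, 0), (79, 0, 0, 0, 0), (79, 0, 0, 0, 0), (37, 0, 0, 0, 0), (15, 0, 0, 0, 0), (79, 0, 0, 0, 0), (79, 0, 0, 0, 0), (56, 0, 0,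 0, 0), (37, 0, 0, 0, 0), (56, 0, 0, 0, 0), (3, 0, 0, 0, 0), (9, 0, 0, 0, 0), (3, 0, 0, 0, 0), (78, 0, 0, 0, 0), (78, 0, 0, 0, 0), (38, 0, 0, 0, 0), (9, 0, 0, 0, 0), (78, 0, 0, 0, 0), (78, 0, 0, 0, 0), (49, 0, 0, 0, 0), (38, 0, 0, 0, 0), (49, 0, 0, 0, 0), (27, 0, 0, 0, 0), (31, 0, 0, 0, 0), (27, 0, 0, 0, 0), (42, 0, 0, 0, 0), (31, 0, 0, 0, 0), (42, 0, 0, 0, 0), (84, 0, 0, 0, 0), (84, 0, 0, 0, 0), (85, 0, 0, 0, 0), (85, 0, 0, 0, 0), (86, 0, 0, 0, 0), (86, 0, 0, 0, 0), (84, 0, 0, 0, 0), (84, 0, 0, 0, 0), (87, 0, 0, 0, 0), (87, 0, 0, 0, 0), (88, 0, 0, 0, 0), (88, 0, 0, 0, 0), (85, 0, 0, 0, 0), (85, 0, 0, 0, 0), (87, 0, 0, 0, 0), (87, 0, 0, 0, 0), (89, 0, 0, 0, 0), (89, 0, 0, 0, 0), (86, 0, 0, 0, 0), (86, 0, 0, 0, 0), (88, 0, 0, 0, 0), (88, 0, 0, 0, 0), (89,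 0, 0, 0, 0), (89, 0, 0, 0, 0), (8, 0, 0, 0, 0), (8, 0, 0, 0, 0), (14, 0, 0, 0, 0), (14, 0, 0, 0, 0), (20, 0, 0, 0, 0), (20, 0, 0, 0, 0), (8, 0, 0, 0, 0), (8, 0, 0, 0, 0), (41, 0, 0, 0, 0), (41, 0, 0, 0, 0), (45, 0, 0, 0, 0), (45, 0, 0, 0, 0), (14, 0, 0, 0, 0), (14, 0, 0, 0, 0), (41, 0, 0, 0, 0), (41, 0, 0, 0, 0), (52, 0, 0, 0, 0), (52, 0, 0, 0, 0), (20, 0, 0, 0, 0), (20, 0, 0, 0, 0), (45, 0, 0, 0, 0), (45, 0, 0, 0, 0), (52, 0, 0, 0, 0), (52, 0, 0, 0, 0), (2, 0, 0, 0, 0), (2, 0, 0, 0, 0), (16, 0, 0, 0, 0), (16, 0, 0, 0, 0), (22, 0, 0, 0, 0), (22, 0, 0, 0, 0), (2, 0, 0, 0, 0), (2, 0, 0, 0, 0), (30, 0, 0, 0, 0), (30, 0, 0, 0, 0), (34, 0, 0, 0, 0), (34, 0, 0, 0, 0), (16, 0, 0, 0, 0), (16, 0, 0, 0, 0), (30, 0, 0, 0, 0), (30, 0, 0, 0, 0), (53, 0, 0, 0, 0),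 (53, 0, 0, 0, 0), (22, 0, 0, 0, 0), (22, 0, 0, 0, 0), (34, 0, 0, 0, 0), (34, 0, 0, 0, 0), (53, 0, 0, 0, 0), (53, 0, 0, 0, 0), (4, 0, 0, 0, 0), (4, 0, 0, 0, 0), (10, 0, 0, 0, 0), (10, 0, 0, 0, 0), (23, 0, 0, 0, 0), (23, 0, 0, 0, 0), (4, 0, 0, 0, 0), (4, 0, 0, 0, 0), (26, 0, 0, 0, 0), (26, 0, 0, 0, 0), (35, 0, 0, 0, 0), (35, 0, 0, 0, 0), (10, 0, 0, 0, 0), (10, 0, 0, 0, 0), (26, 0, 0, 0, 0), (26, 0, 0, 0, 0), (46, 0, 0, 0, 0), (46, 0, 0, 0, 0), (23, 0, 0, 0, 0), (23, 0, 0, 0, 0), (35, 0, 0, 0, 0), (35, 0, 0, 0, 0), (46, 0, 0, 0, 0), (46, 0, 0, 0, 0), (5, 0, 0, 0, 0), (5, 0, 0, 0, 0), (11, 0, 0, 0, 0), (11, 0, 0, 0, 0), (17, 0, 0, 0, 0), (17, 0, 0, 0, 0), (5, 0, 0, 0, 0), (5, 0, 0, 0, 0), (27, 0, 0, 0, 0), (27, 0, 0, 0, 0), (31, 0, 0, 0, 0), (31, 0, 0, 0,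 0), (11, 0, 0, 0, 0), (11, 0, 0, 0, 0), (27, 0, 0, 0, 0), (27, 0, 0, 0, 0), (42, 0, 0, 0, 0), (42, 0, 0, 0, 0), (17, 0, 0, 0, 0), (17, 0, 0, 0, 0), (31, 0, 0, 0, 0), (31, 0, 0, 0, 0), (42, 0, 0, 0, 0), (42, 0, 0, 0, 0)],
  [(69, 0, 0, 0, 0), (69, 0, 0, 0, 0), (66, 0, 0, 0, 0), (66, 0, 0, 0, 0), (50, 0, 0, 0, 0), (50, 0, 0, 0, 0), (69, 0, 0, 0, 0), (69, 0, 0, 0, 0), (63, 0, 0, 0, 0), (63, 0, 0, 0, 0), (43, 0, 0, 0, 0), (43, 0, 0, 0, 0), (66, 0, 0, 0, 0), (66, 0, 0, 0, 0), (63, 0, 0, 0, 0), (63, 0, 0, 0, 0), (39, 0, 0, 0, 0), (39, 0, 0, 0, 0), (50, 0, 0, 0, 0), (50, 0, 0, 0, 0), (43, 0, 0, 0, 0), (43, 0, 0, 0, 0), (39, 0, 0, 0, 0), (39, 0, 0, 0, 0), (70, 0, 0, 0, 0), (70, 0, 0, 0, 0), (67, 0, 0, 0, 0), (67, 0, 0, 0, 0), (51, 0, 0, 0, 0), (51, 0, 0, 0, 0),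 (70, 0, 0, 0, 0), (70, 0, 0, 0, 0), (60, 0, 0, 0, 0), (60, 0, 0, 0, 0), (32, 0, 0, 0, 0), (32, 0, 0, 0, 0), (67, 0, 0, 0, 0), (67, 0, 0, 0, 0), (60, 0, 0, 0, 0), (60, 0, 0, 0, 0), (28, 0, 0, 0, 0), (28, 0, 0, 0, 0), (51, 0, 0, 0, 0), (51, 0, 0, 0, 0), (32, 0, 0, 0, 0), (32, 0, 0, 0, 0), (28, 0, 0, 0, 0), (28, 0, 0, 0, 0), (71, 0, 0, 0, 0), (71, 0, 0, 0, 0), (64, 0, 0, 0, 0), (64, 0, 0, 0, 0), (44, 0, 0, 0, 0), (44, 0, 0, 0, 0), (71, 0, 0, 0, 0), (71, 0, 0, 0, 0), (61, 0, 0, 0, 0), (61, 0, 0, 0, 0), (33, 0, 0, 0, 0), (33, 0, 0, 0, 0), (64, 0, 0, 0, 0), (64, 0, 0, 0, 0), (61, 0, 0, 0, 0), (61, 0, 0, 0, 0), (24, 0, 0, 0, 0), (24, 0, 0, 0, 0), (44, 0, 0, 0, 0), (44, 0, 0, 0, 0), (33, 0, 0, 0, 0), (33, 0, 0, 0, 0), (24, 0, 0, 0, 0), (24, 0, 0, 0, 0), (68,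 0, 0, 0, 0), (68, 0, 0, 0, 0), (65, 0, 0, 0, 0), (65, 0, 0, 0, 0), (40, 0, 0, 0, 0), (40, 0, 0, 0, 0), (68, 0, 0, 0, 0), (68, 0, 0, 0, 0), (62, 0, 0, 0, 0), (62, 0, 0, 0, 0), (29, 0, 0, 0, 0), (29, 0, 0, 0, 0), (65, 0, 0, 0, 0), (65, 0, 0, 0, 0), (62, 0, 0, 0, 0), (62, 0, 0, 0, 0), (25, 0, 0, 0, 0), (25, 0, 0, 0, 0), (40, 0, 0, 0, 0), (40, 0, 0, 0, 0), (29, 0, 0, 0, 0), (29, 0, 0, 0, 0), (25, 0, 0, 0, 0), (25, 0, 0, 0, 0), (89, 0, 0, 0, 0), (89, 0, 0, 0, 0), (88, 0, 0, 0, 0), (88, 0, 0, 0, 0), (87, 0, 0, 0, 0), (87, 0, 0, 0, 0), (89, 0, 0, 0, 0), (89, 0, 0, 0, 0), (86, 0, 0, 0, 0), (86, 0, 0, 0, 0), (85, 0, 0, 0, 0), (85, 0, 0, 0, 0), (88, 0, 0, 0, 0), (88, 0, 0, 0, 0), (86, 0, 0, 0, 0), (86, 0, 0, 0, 0), (84, 0, 0, 0, 0), (84, 0, 0, 0, 0), (87, 0, 0,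 0, 0), (87, 0, 0, 0, 0), (85, 0, 0, 0, 0), (85, 0, 0, 0, 0), (84, 0, 0, 0, 0), (84, 0, 0, 0, 0), (69, 0, 0, 0, 0), (66, 0, 0, 0, 0), (69, 0, 0, 0, 0), (63, 0, 0, 0, 0), (66, 0, 0, 0, 0), (63, 0, 0, 0, 0), (57, 0, 0, 0, 0), (54, 0, 0, 0, 0), (57, 0, 0, 0, 0), (72, 0, 0, 0, 0), (72, 0, 0, 0, 0), (18, 0, 0, 0, 0), (54, 0, 0, 0, 0), (72, 0, 0, 0, 0), (72, 0, 0, 0, 0), (12, 0, 0, 0, 0), (18, 0, 0, 0, 0), (12, 0, 0, 0, 0), (58, 0, 0, 0, 0), (47, 0, 0, 0, 0), (58, 0, 0, 0, 0), (73, 0, 0, 0, 0), (73, 0, 0, 0, 0), (19, 0, 0, 0, 0), (47, 0, 0, 0, 0), (73, 0, 0, 0, 0), (73, 0, 0, 0, 0), (6, 0, 0, 0, 0), (19, 0, 0, 0, 0), (6, 0, 0, 0, 0), (55, 0, 0, 0, 0), (48, 0, 0, 0, 0), (55, 0, 0, 0, 0), (74, 0, 0, 0, 0), (74, 0, 0, 0, 0), (13, 0, 0, 0, 0), (48, 0, 0, 0, 0),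 (74, 0, 0, 0, 0), (74, 0, 0, 0, 0), (7, 0, 0, 0, 0), (13, 0, 0, 0, 0), (7, 0, 0, 0, 0), (20, 0, 0, 0, 0), (14, 0, 0, 0, 0), (20, 0, 0, 0, 0), (8, 0, 0, 0, 0), (14, 0, 0, 0, 0), (8, 0, 0, 0, 0), (70, 0, 0, 0, 0), (67, 0, 0, 0, 0), (70, 0, 0, 0, 0), (60, 0, 0, 0, 0), (67, 0, 0, 0, 0), (60, 0, 0, 0, 0), (57, 0, 0, 0, 0), (54, 0, 0, 0, 0), (57, 0, 0, 0, 0), (72, 0, 0, 0, 0), (72, 0, 0, 0, 0), (18, 0, 0, 0, 0), (54, 0, 0, 0, 0), (72, 0, 0, 0, 0), (72, 0, 0, 0, 0), (12, 0, 0, 0, 0), (18, 0, 0, 0, 0), (12, 0, 0, 0, 0), (59, 0, 0, 0, 0), (36, 0, 0, 0, 0), (59, 0, 0, 0, 0), (75, 0, 0, 0, 0), (75, 0, 0, 0, 0), (21, 0, 0, 0, 0), (36, 0, 0, 0, 0), (75, 0, 0, 0, 0), (75, 0, 0, 0, 0), (0, 0, 0, 0, 0), (21, 0, 0, 0, 0), (0, 0, 0, 0, 0), (56, 0, 0, 0, 0), (37, 0, 0,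 0, 0), (56, 0, 0, 0, 0), (76, 0, 0, 0, 0), (76, 0, 0, 0, 0), (15, 0, 0, 0, 0), (37, 0, 0, 0, 0), (76, 0, 0, 0, 0), (76, 0, 0, 0, 0), (1, 0, 0, 0, 0), (15, 0, 0, 0, 0), (1, 0, 0, 0, 0), (22, 0, 0, 0, 0), (16, 0, 0, 0, 0), (22, 0, 0, 0, 0), (2, 0, 0, 0, 0), (16, 0, 0, 0, 0), (2, 0, 0, 0, 0), (71, 0, 0, 0, 0), (64, 0, 0, 0, 0), (71, 0, 0, 0, 0), (61, 0, 0, 0, 0), (64, 0, 0, 0, 0), (61, 0, 0, 0, 0), (58, 0, 0, 0, 0), (47, 0, 0, 0, 0), (58, 0, 0, 0, 0), (73, 0, 0, 0, 0), (73, 0, 0, 0, 0), (19, 0, 0, 0, 0), (47, 0, 0, 0, 0), (73, 0, 0, 0, 0), (73, 0, 0, 0, 0), (6, 0, 0, 0, 0), (19, 0, 0, 0, 0), (6, 0, 0, 0, 0), (59, 0, 0, 0, 0), (36, 0, 0, 0, 0), (59, 0, 0, 0, 0), (75, 0, 0, 0, 0), (75, 0, 0, 0, 0), (21, 0, 0, 0, 0), (36, 0, 0, 0, 0), (75, 0, 0, 0, 0), (75,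 0, 0, 0, 0), (0, 0, 0, 0, 0), (21, 0, 0, 0, 0), (0, 0, 0, 0, 0), (49, 0, 0, 0, 0), (38, 0, 0, 0, 0), (49, 0, 0, 0, 0), (77, 0, 0, 0, 0), (77, 0, 0, 0, 0), (9, 0, 0, 0, 0), (38, 0, 0, 0, 0), (77, 0, 0, 0, 0), (77, 0, 0, 0, 0), (3, 0, 0, 0, 0), (9, 0, 0, 0, 0), (3, 0, 0, 0, 0), (23, 0, 0, 0, 0), (10, 0, 0, 0, 0), (23, 0, 0, 0, 0), (4, 0, 0, 0, 0), (10, 0, 0, 0, 0), (4, 0, 0, 0, 0), (68, 0, 0, 0, 0), (65, 0, 0, 0, 0), (68, 0, 0, 0, 0), (62, 0, 0, 0, 0), (65, 0, 0, 0, 0), (62, 0, 0, 0, 0), (55, 0, 0, 0, 0), (48, 0, 0, 0, 0), (55, 0, 0, 0, 0), (74, 0, 0, 0, 0), (74, 0, 0, 0, 0), (13, 0, 0, 0, 0), (48, 0, 0, 0, 0), (74, 0, 0, 0, 0), (74, 0, 0, 0, 0), (7, 0, 0, 0, 0), (13, 0, 0, 0, 0), (7, 0, 0, 0, 0), (56, 0, 0, 0, 0), (37, 0, 0, 0, 0), (56, 0, 0, 0, 0), (76,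 0, 0, 0, 0), (76, 0, 0, 0, 0), (15, 0, 0, 0, 0), (37, 0, 0, 0, 0), (76, 0, 0, 0, 0), (76, 0, 0, 0, 0), (1, 0, 0, 0, 0), (15, 0, 0, 0, 0), (1, 0, 0, 0, 0), (49, 0, 0, 0, 0), (38, 0, 0, 0, 0), (49, 0, 0, 0, 0), (77, 0, 0, 0, 0), (77, 0, 0, 0, 0), (9, 0, 0, 0, 0), (38, 0, 0, 0, 0), (77, 0, 0, 0, 0), (77, 0, 0, 0, 0), (3, 0, 0, 0, 0), (9, 0, 0, 0, 0), (3, 0, 0, 0, 0), (17, 0, 0, 0, 0), (11, 0, 0, 0, 0), (17, 0, 0, 0, 0), (5, 0, 0, 0, 0), (11, 0, 0, 0, 0), (5, 0, 0, 0, 0), (89, 0, 0, 0, 0), (89, 0, 0, 0, 0), (88, 0, 0, 0, 0), (88, 0, 0, 0, 0), (87, 0, 0, 0, 0), (87, 0, 0, 0, 0), (89, 0, 0, 0, 0), (89, 0, 0, 0, 0), (86, 0, 0, 0, 0), (86, 0, 0, 0, 0), (85, 0, 0, 0, 0), (85, 0, 0, 0, 0), (88, 0, 0, 0, 0), (88, 0, 0, 0, 0), (86, 0, 0, 0, 0), (86, 0, 0, 0, 0),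 (84, 0, 0, 0, 0), (84, 0, 0, 0, 0), (87, 0, 0, 0, 0), (87, 0, 0, 0, 0), (85, 0, 0, 0, 0), (85, 0, 0, 0, 0), (84, 0, 0, 0, 0), (84, 0, 0, 0, 0), (52, 0, 0, 0, 0), (52, 0, 0, 0, 0), (45, 0, 0, 0, 0), (45, 0, 0, 0, 0), (41, 0, 0, 0, 0), (41, 0, 0, 0, 0), (52, 0, 0, 0, 0), (52, 0, 0, 0, 0), (20, 0, 0, 0, 0), (20, 0, 0, 0, 0), (14, 0, 0, 0, 0), (14, 0, 0, 0, 0), (45, 0, 0, 0, 0), (45, 0, 0, 0, 0), (20, 0, 0, 0, 0), (20, 0, 0, 0, 0), (8, 0, 0, 0, 0), (8, 0, 0, 0, 0), (41, 0, 0, 0, 0), (41, 0, 0, 0, 0), (14, 0, 0, 0, 0), (14, 0, 0, 0, 0), (8, 0, 0, 0, 0), (8, 0, 0, 0, 0), (53, 0, 0, 0, 0), (53, 0, 0, 0, 0), (34, 0, 0, 0, 0), (34, 0, 0, 0, 0), (30, 0, 0, 0, 0), (30, 0, 0, 0, 0), (53, 0, 0, 0, 0), (53, 0, 0, 0, 0), (22, 0, 0, 0, 0), (22, 0, 0, 0, 0), (16, 0, 0,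 0, 0), (16, 0, 0, 0, 0), (34, 0, 0, 0, 0), (34, 0, 0, 0, 0), (22, 0, 0, 0, 0), (22, 0, 0, 0, 0), (2, 0, 0, 0, 0), (2, 0, 0, 0, 0), (30, 0, 0, 0, 0), (30, 0, 0, 0, 0), (16, 0, 0, 0, 0), (16, 0, 0, 0, 0), (2, 0, 0, 0, 0), (2, 0, 0, 0, 0), (46, 0, 0, 0, 0), (46, 0, 0, 0, 0), (35, 0, 0, 0, 0), (35, 0, 0, 0, 0), (26, 0, 0, 0, 0), (26, 0, 0, 0, 0), (46, 0, 0, 0, 0), (46, 0, 0, 0, 0), (23, 0, 0, 0, 0), (23, 0, 0, 0, 0), (10, 0, 0, 0, 0), (10, 0, 0, 0, 0), (35, 0, 0, 0, 0), (35, 0, 0, 0, 0), (23, 0, 0, 0, 0), (23, 0, 0, 0, 0), (4, 0, 0, 0, 0), (4, 0, 0, 0, 0), (26, 0, 0, 0, 0), (26, 0, 0, 0, 0), (10, 0, 0, 0, 0), (10, 0, 0, 0, 0), (4, 0, 0, 0, 0), (4, 0, 0, 0, 0), (42, 0, 0, 0, 0), (42, 0, 0, 0, 0), (31, 0, 0, 0, 0), (31, 0, 0, 0, 0), (27, 0, 0, 0, 0), (27, 0,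 0, 0, 0), (42, 0, 0, 0, 0), (42, 0, 0, 0, 0), (17, 0, 0, 0, 0), (17, 0, 0, 0, 0), (11, 0, 0, 0, 0), (11, 0, 0, 0, 0), (31, 0, 0, 0, 0), (31, 0, 0, 0, 0), (17, 0, 0, 0, 0), (17, 0, 0, 0, 0), (5, 0, 0, 0, 0), (5, 0, 0, 0, 0), (27, 0, 0, 0, 0), (27, 0, 0, 0, 0), (11, 0, 0, 0, 0), (11, 0, 0, 0, 0), (5, 0, 0, 0, 0), (5, 0, 0, 0, 0)],
  [(42, 0, 0, 0, 0), (42, 0, 0, 0, 0), (46, 0, 0, 0, 0), (46, 0, 0, 0, 0), (49, 0, 0, 0, 0), (49, 0, 0, 0, 0), (42, 0, 0, 0, 0), (42, 0, 0, 0, 0), (53, 0, 0, 0, 0), (53, 0, 0, 0, 0), (56, 0, 0, 0, 0), (56, 0, 0, 0, 0), (46, 0, 0, 0, 0), (46, 0, 0, 0, 0), (53, 0, 0, 0, 0), (53, 0, 0, 0, 0), (59, 0, 0, 0, 0), (59, 0, 0, 0, 0), (49, 0, 0, 0, 0), (49, 0, 0, 0, 0), (56, 0, 0, 0, 0), (56, 0, 0, 0, 0), (59, 0, 0, 0, 0), (59, 0, 0, 0,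 0), (31, 0, 0, 0, 0), (31, 0, 0, 0, 0), (35, 0, 0, 0, 0), (35, 0, 0, 0, 0), (38, 0, 0, 0, 0), (38, 0, 0, 0, 0), (31, 0, 0, 0, 0), (31, 0, 0, 0, 0), (52, 0, 0, 0, 0), (52, 0, 0, 0, 0), (55, 0, 0, 0, 0), (55, 0, 0, 0, 0), (35, 0, 0, 0, 0), (35, 0, 0, 0, 0), (52, 0, 0, 0, 0), (52, 0, 0, 0, 0), (58, 0, 0, 0, 0), (58, 0, 0, 0, 0), (38, 0, 0, 0, 0), (38, 0, 0, 0, 0), (55, 0, 0, 0, 0), (55, 0, 0, 0, 0), (58, 0, 0, 0, 0), (58, 0, 0, 0, 0), (27, 0, 0, 0, 0), (27, 0, 0, 0, 0), (34, 0, 0, 0, 0), (34, 0, 0, 0, 0), (37, 0, 0, 0, 0), (37, 0, 0, 0, 0), (27, 0, 0, 0, 0), (27, 0, 0, 0, 0), (45, 0, 0, 0, 0), (45, 0, 0, 0, 0), (48, 0, 0, 0, 0), (48, 0, 0, 0, 0), (34, 0, 0, 0, 0), (34, 0, 0, 0, 0), (45, 0, 0, 0, 0), (45, 0, 0, 0, 0), (57, 0, 0, 0, 0), (57, 0, 0, 0, 0), (37,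 0, 0, 0, 0), (37, 0, 0, 0, 0), (48, 0, 0, 0, 0), (48, 0, 0, 0, 0), (57, 0, 0, 0, 0), (57, 0, 0, 0, 0), (26, 0, 0, 0, 0), (26, 0, 0, 0, 0), (30, 0, 0, 0, 0), (30, 0, 0, 0, 0), (36, 0, 0, 0, 0), (36, 0, 0, 0, 0), (26, 0, 0, 0, 0), (26, 0, 0, 0, 0), (41, 0, 0, 0, 0), (41, 0, 0, 0, 0), (47, 0, 0, 0, 0), (47, 0, 0, 0, 0), (30, 0, 0, 0, 0), (30, 0, 0, 0, 0), (41, 0, 0, 0, 0), (41, 0, 0, 0, 0), (54, 0, 0, 0, 0), (54, 0, 0, 0, 0), (36, 0, 0, 0, 0), (36, 0, 0, 0, 0), (47, 0, 0, 0, 0), (47, 0, 0, 0, 0), (54, 0, 0, 0, 0), (54, 0, 0, 0, 0), (78, 0, 0, 0, 0), (78, 0, 0, 0, 0), (79, 0, 0, 0, 0), (79, 0, 0, 0, 0), (80, 0, 0, 0, 0), (80, 0, 0, 0, 0), (78, 0, 0, 0, 0), (78, 0, 0, 0, 0), (81, 0, 0, 0, 0), (81, 0, 0, 0, 0), (82, 0, 0, 0, 0), (82, 0, 0, 0, 0), (79, 0, 0,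 0, 0), (79, 0, 0, 0, 0), (81, 0, 0, 0, 0), (81, 0, 0, 0, 0), (83, 0, 0, 0, 0), (83, 0, 0, 0, 0), (80, 0, 0, 0, 0), (80, 0, 0, 0, 0), (82, 0, 0, 0, 0), (82, 0, 0, 0, 0), (83, 0, 0, 0, 0), (83, 0, 0, 0, 0), (42, 0, 0, 0, 0), (46, 0, 0, 0, 0), (42, 0, 0, 0, 0), (53, 0, 0, 0, 0), (46, 0, 0, 0, 0), (53, 0, 0, 0, 0), (17, 0, 0, 0, 0), (23, 0, 0, 0, 0), (17, 0, 0, 0, 0), (89, 0, 0, 0, 0), (89, 0, 0, 0, 0), (68, 0, 0, 0, 0), (23, 0, 0, 0, 0), (89, 0, 0, 0, 0), (89, 0, 0, 0, 0), (71, 0, 0, 0, 0), (68, 0, 0, 0, 0), (71, 0, 0, 0, 0), (11, 0, 0, 0, 0), (22, 0, 0, 0, 0), (11, 0, 0, 0, 0), (88, 0, 0, 0, 0), (88, 0, 0, 0, 0), (65, 0, 0, 0, 0), (22, 0, 0, 0, 0), (88, 0, 0, 0, 0), (88, 0, 0, 0, 0), (70, 0, 0, 0, 0), (65, 0, 0, 0, 0), (70, 0, 0, 0, 0), (10, 0, 0, 0, 0),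 (16, 0, 0, 0, 0), (10, 0, 0, 0, 0), (87, 0, 0, 0, 0), (87, 0, 0, 0, 0), (64, 0, 0, 0, 0), (16, 0, 0, 0, 0), (87, 0, 0, 0, 0), (87, 0, 0, 0, 0), (67, 0, 0, 0, 0), (64, 0, 0, 0, 0), (67, 0, 0, 0, 0), (40, 0, 0, 0, 0), (44, 0, 0, 0, 0), (40, 0, 0, 0, 0), (51, 0, 0, 0, 0), (44, 0, 0, 0, 0), (51, 0, 0, 0, 0), (31, 0, 0, 0, 0), (35, 0, 0, 0, 0), (31, 0, 0, 0, 0), (52, 0, 0, 0, 0), (35, 0, 0, 0, 0), (52, 0, 0, 0, 0), (17, 0, 0, 0, 0), (23, 0, 0, 0, 0), (17, 0, 0, 0, 0), (89, 0, 0, 0, 0), (89, 0, 0, 0, 0), (68, 0, 0, 0, 0), (23, 0, 0, 0, 0), (89, 0, 0, 0, 0), (89, 0, 0, 0, 0), (71, 0, 0, 0, 0), (68, 0, 0, 0, 0), (71, 0, 0, 0, 0), (5, 0, 0, 0, 0), (20, 0, 0, 0, 0), (5, 0, 0, 0, 0), (86, 0, 0, 0, 0), (86, 0, 0, 0, 0), (62, 0, 0, 0, 0), (20, 0, 0, 0, 0), (86, 0,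 0, 0, 0), (86, 0, 0, 0, 0), (69, 0, 0, 0, 0), (62, 0, 0, 0, 0), (69, 0, 0, 0, 0), (4, 0, 0, 0, 0), (14, 0, 0, 0, 0), (4, 0, 0, 0, 0), (85, 0, 0, 0, 0), (85, 0, 0, 0, 0), (61, 0, 0, 0, 0), (14, 0, 0, 0, 0), (85, 0, 0, 0, 0), (85, 0, 0, 0, 0), (66, 0, 0, 0, 0), (61, 0, 0, 0, 0), (66, 0, 0, 0, 0), (29, 0, 0, 0, 0), (33, 0, 0, 0, 0), (29, 0, 0, 0, 0), (50, 0, 0, 0, 0), (33, 0, 0, 0, 0), (50, 0, 0, 0, 0), (27, 0, 0, 0, 0), (34, 0, 0, 0, 0), (27, 0, 0, 0, 0), (45, 0, 0, 0, 0), (34, 0, 0, 0, 0), (45, 0, 0, 0, 0), (11, 0, 0, 0, 0), (22, 0, 0, 0, 0), (11, 0, 0, 0, 0), (88, 0, 0, 0, 0), (88, 0, 0, 0, 0), (65, 0, 0, 0, 0), (22, 0, 0, 0, 0), (88, 0, 0, 0, 0), (88, 0, 0, 0, 0), (70, 0, 0, 0, 0), (65, 0, 0, 0, 0), (70, 0, 0, 0, 0), (5, 0, 0, 0, 0), (20, 0, 0, 0, 0),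 (5, 0, 0, 0, 0), (86, 0, 0, 0, 0), (86, 0, 0, 0, 0), (62, 0, 0, 0, 0), (20, 0, 0, 0, 0), (86, 0, 0, 0, 0), (86, 0, 0, 0, 0), (69, 0, 0, 0, 0), (62, 0, 0, 0, 0), (69, 0, 0, 0, 0), (2, 0, 0, 0, 0), (8, 0, 0, 0, 0), (2, 0, 0, 0, 0), (84, 0, 0, 0, 0), (84, 0, 0, 0, 0), (60, 0, 0, 0, 0), (8, 0, 0, 0, 0), (84, 0, 0, 0, 0), (84, 0, 0, 0, 0), (63, 0, 0, 0, 0), (60, 0, 0, 0, 0), (63, 0, 0, 0, 0), (25, 0, 0, 0, 0), (32, 0, 0, 0, 0), (25, 0, 0, 0, 0), (43, 0, 0, 0, 0), (32, 0, 0, 0, 0), (43, 0, 0, 0, 0), (26, 0, 0, 0, 0), (30, 0, 0, 0, 0), (26, 0, 0, 0, 0), (41, 0, 0, 0, 0), (30, 0, 0, 0, 0), (41, 0, 0, 0, 0), (10, 0, 0, 0, 0), (16, 0, 0, 0, 0), (10, 0, 0, 0, 0), (87, 0, 0, 0, 0), (87, 0, 0, 0, 0), (64, 0, 0, 0, 0), (16, 0, 0, 0, 0), (87, 0, 0, 0, 0), (87, 0, 0,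 0, 0), (67, 0, 0, 0, 0), (64, 0, 0, 0, 0), (67, 0, 0, 0, 0), (4, 0, 0, 0, 0), (14, 0, 0, 0, 0), (4, 0, 0, 0, 0), (85, 0, 0, 0, 0), (85, 0, 0, 0, 0), (61, 0, 0, 0, 0), (14, 0, 0, 0, 0), (85, 0, 0, 0, 0), (85, 0, 0, 0, 0), (66, 0, 0, 0, 0), (61, 0, 0, 0, 0), (66, 0, 0, 0, 0), (2, 0, 0, 0, 0), (8, 0, 0, 0, 0), (2, 0, 0, 0, 0), (84, 0, 0, 0, 0), (84, 0, 0, 0, 0), (60, 0, 0, 0, 0), (8, 0, 0, 0, 0), (84, 0, 0, 0, 0), (84, 0, 0, 0, 0), (63, 0, 0, 0, 0), (60, 0, 0, 0, 0), (63, 0, 0, 0, 0), (24, 0, 0, 0, 0), (28, 0, 0, 0, 0), (24, 0, 0, 0, 0), (39, 0, 0, 0, 0), (28, 0, 0, 0, 0), (39, 0, 0, 0, 0), (78, 0, 0, 0, 0), (78, 0, 0, 0, 0), (79, 0, 0, 0, 0), (79, 0, 0, 0, 0), (80, 0, 0, 0, 0), (80, 0, 0, 0, 0), (78, 0, 0, 0, 0), (78, 0, 0, 0, 0), (81, 0, 0, 0, 0), (81,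 0, 0, 0, 0), (82, 0, 0, 0, 0), (82, 0, 0, 0, 0), (79, 0, 0, 0, 0), (79, 0, 0, 0, 0), (81, 0, 0, 0, 0), (81, 0, 0, 0, 0), (83, 0, 0, 0, 0), (83, 0, 0, 0, 0), (80, 0, 0, 0, 0), (80, 0, 0, 0, 0), (82, 0, 0, 0, 0), (82, 0, 0, 0, 0), (83, 0, 0, 0, 0), (83, 0, 0, 0, 0), (9, 0, 0, 0, 0), (9, 0, 0, 0, 0), (15, 0, 0, 0, 0), (15, 0, 0, 0, 0), (21, 0, 0, 0, 0), (21, 0, 0, 0, 0), (9, 0, 0, 0, 0), (9, 0, 0, 0, 0), (40, 0, 0, 0, 0), (40, 0, 0, 0, 0), (44, 0, 0, 0, 0), (44, 0, 0, 0, 0), (15, 0, 0, 0, 0), (15, 0, 0, 0, 0), (40, 0, 0, 0, 0), (40, 0, 0, 0, 0), (51, 0, 0, 0, 0), (51, 0, 0, 0, 0), (21, 0, 0, 0, 0), (21, 0, 0, 0, 0), (44, 0, 0, 0, 0), (44, 0, 0, 0, 0), (51, 0, 0, 0, 0), (51, 0, 0, 0, 0), (3, 0, 0, 0, 0), (3, 0, 0, 0, 0), (13, 0, 0, 0, 0), (13, 0, 0, 0, 0),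 (19, 0, 0, 0, 0), (19, 0, 0, 0, 0), (3, 0, 0, 0, 0), (3, 0, 0, 0, 0), (29, 0, 0, 0, 0), (29, 0, 0, 0, 0), (33, 0, 0, 0, 0), (33, 0, 0, 0, 0), (13, 0, 0, 0, 0), (13, 0, 0, 0, 0), (29, 0, 0, 0, 0), (29, 0, 0, 0, 0), (50, 0, 0, 0, 0), (50, 0, 0, 0, 0), (19, 0, 0, 0, 0), (19, 0, 0, 0, 0), (33, 0, 0, 0, 0), (33, 0, 0, 0, 0), (50, 0, 0, 0, 0), (50, 0, 0, 0, 0), (1, 0, 0, 0, 0), (1, 0, 0, 0, 0), (7, 0, 0, 0, 0), (7, 0, 0, 0, 0), (18, 0, 0, 0, 0), (18, 0, 0, 0, 0), (1, 0, 0, 0, 0), (1, 0, 0, 0, 0), (25, 0, 0, 0, 0), (25, 0, 0, 0, 0), (32, 0, 0, 0, 0), (32, 0, 0, 0, 0), (7, 0, 0, 0, 0), (7, 0, 0, 0, 0), (25, 0, 0, 0, 0), (25, 0, 0, 0, 0), (43, 0, 0, 0, 0), (43, 0, 0, 0, 0), (18, 0, 0, 0, 0), (18, 0, 0, 0, 0), (32, 0, 0, 0, 0), (32, 0, 0, 0, 0), (43, 0, 0, 0, 0),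 (43, 0, 0, 0, 0), (0, 0, 0, 0, 0), (0, 0, 0, 0, 0), (6, 0, 0, 0, 0), (6, 0, 0, 0, 0), (12, 0, 0, 0, 0), (12, 0, 0, 0, 0), (0, 0, 0, 0, 0), (0, 0, 0, 0, 0), (24, 0, 0, 0, 0), (24, 0, 0, 0, 0), (28, 0, 0, 0, 0), (28, 0, 0, 0, 0), (6, 0, 0, 0, 0), (6, 0, 0, 0, 0), (24, 0, 0, 0, 0), (24, 0, 0, 0, 0), (39, 0, 0, 0, 0), (39, 0, 0, 0, 0), (12, 0, 0, 0, 0), (12, 0, 0, 0, 0), (28, 0, 0, 0, 0), (28, 0, 0, 0, 0), (39, 0, 0, 0, 0), (39, 0, 0, 0, 0)],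
  [(59, 0, 0, 0, 0), (59, 0, 0, 0, 0), (56, 0, 0, 0, 0), (56, 0, 0, 0, 0), (53, 0, 0, 0, 0), (53, 0, 0, 0, 0), (59, 0, 0, 0, 0), (59, 0, 0, 0, 0), (49, 0, 0, 0, 0), (49, 0, 0, 0, 0), (46, 0, 0, 0, 0), (46, 0, 0, 0, 0), (56, 0, 0, 0, 0), (56, 0, 0, 0, 0), (49, 0, 0, 0, 0), (49, 0, 0, 0, 0), (42, 0, 0, 0, 0), (42, 0, 0, 0, 0), (53, 0, 0, 0, 0), (53, 0, 0, 0, 0), (46, 0, 0, 0, 0), (46, 0, 0, 0, 0), (42, 0, 0, 0, 0), (42, 0, 0, 0, 0), (58, 0, 0, 0, 0), (58, 0, 0, 0, 0), (55, 0, 0, 0, 0), (55, 0, 0, 0, 0), (52, 0, 0, 0, 0), (52, 0, 0, 0, 0), (58, 0, 0, 0, 0), (58, 0, 0, 0, 0), (38, 0, 0, 0, 0), (38, 0, 0, 0, 0), (35, 0, 0, 0, 0), (35, 0, 0, 0, 0), (55, 0, 0, 0, 0), (55, 0, 0, 0, 0), (38, 0, 0, 0, 0), (38, 0, 0, 0, 0), (31, 0, 0, 0, 0), (31, 0, 0, 0, 0), (52,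 0, 0, 0, 0), (52, 0, 0, 0, 0), (35, 0, 0, 0, 0), (35, 0, 0, 0, 0), (31, 0, 0, 0, 0), (31, 0, 0, 0, 0), (57, 0, 0, 0, 0), (57, 0, 0, 0, 0), (48, 0, 0, 0, 0), (48, 0, 0, 0, 0), (45, 0, 0, 0, 0), (45, 0, 0, 0, 0), (57, 0, 0, 0, 0), (57, 0, 0, 0, 0), (37, 0, 0, 0, 0), (37, 0, 0, 0, 0), (34, 0, 0, 0, 0), (34, 0, 0, 0, 0), (48, 0, 0, 0, 0), (48, 0, 0, 0, 0), (37, 0, 0, 0, 0), (37, 0, 0, 0, 0), (27, 0, 0, 0, 0), (27, 0, 0, 0, 0), (45, 0, 0, 0, 0), (45, 0, 0, 0, 0), (34, 0, 0, 0, 0), (34, 0, 0, 0, 0), (27, 0, 0, 0, 0), (27, 0, 0, 0, 0), (54, 0, 0, 0, 0), (54, 0, 0, 0, 0), (47, 0, 0, 0, 0), (47, 0, 0, 0, 0), (41, 0, 0, 0, 0), (41, 0, 0, 0, 0), (54, 0, 0, 0, 0), (54, 0, 0, 0, 0), (36, 0, 0, 0, 0), (36, 0, 0, 0, 0), (30, 0, 0, 0, 0), (30, 0, 0, 0, 0), (47, 0, 0,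 0, 0), (47, 0, 0, 0, 0), (36, 0, 0, 0, 0), (36, 0, 0, 0, 0), (26, 0, 0, 0, 0), (26, 0, 0, 0, 0), (41, 0, 0, 0, 0), (41, 0, 0, 0, 0), (30, 0, 0, 0, 0), (30, 0, 0, 0, 0), (26, 0, 0, 0, 0), (26, 0, 0, 0, 0), (83, 0, 0, 0, 0), (83, 0, 0, 0, 0), (82, 0, 0, 0, 0), (82, 0, 0, 0, 0), (81, 0, 0, 0, 0), (81, 0, 0, 0, 0), (83, 0, 0, 0, 0), (83, 0, 0, 0, 0), (80, 0, 0, 0, 0), (80, 0, 0, 0, 0), (79, 0, 0, 0, 0), (79, 0, 0, 0, 0), (82, 0, 0, 0, 0), (82, 0, 0, 0, 0), (80, 0, 0, 0, 0), (80, 0, 0, 0, 0), (78, 0, 0, 0, 0), (78, 0, 0, 0, 0), (81, 0, 0, 0, 0), (81, 0, 0, 0, 0), (79, 0, 0, 0, 0), (79, 0, 0, 0, 0), (78, 0, 0, 0, 0), (78, 0, 0, 0, 0), (59, 0, 0, 0, 0), (56, 0, 0, 0, 0), (59, 0, 0, 0, 0), (49, 0, 0, 0, 0), (56, 0, 0, 0, 0), (49, 0, 0, 0, 0), (71, 0, 0, 0, 0),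 (68, 0, 0, 0, 0), (71, 0, 0, 0, 0), (77, 0, 0, 0, 0), (77, 0, 0, 0, 0), (23, 0, 0, 0, 0), (68, 0, 0, 0, 0), (77, 0, 0, 0, 0), (77, 0, 0, 0, 0), (17, 0, 0, 0, 0), (23, 0, 0, 0, 0), (17, 0, 0, 0, 0), (70, 0, 0, 0, 0), (65, 0, 0, 0, 0), (70, 0, 0, 0, 0), (76, 0, 0, 0, 0), (76, 0, 0, 0, 0), (22, 0, 0, 0, 0), (65, 0, 0, 0, 0), (76, 0, 0, 0, 0), (76, 0, 0, 0, 0), (11, 0, 0, 0, 0), (22, 0, 0, 0, 0), (11, 0, 0, 0, 0), (67, 0, 0, 0, 0), (64, 0, 0, 0, 0), (67, 0, 0, 0, 0), (75, 0, 0, 0, 0), (75, 0, 0, 0, 0), (16, 0, 0, 0, 0), (64, 0, 0, 0, 0), (75, 0, 0, 0, 0), (75, 0, 0, 0, 0), (10, 0, 0, 0, 0), (16, 0, 0, 0, 0), (10, 0, 0, 0, 0), (21, 0, 0, 0, 0), (15, 0, 0, 0, 0), (21, 0, 0, 0, 0), (9, 0, 0, 0, 0), (15, 0, 0, 0, 0), (9, 0, 0, 0, 0), (58, 0, 0, 0, 0), (55, 0,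 0, 0, 0), (58, 0, 0, 0, 0), (38, 0, 0, 0, 0), (55, 0, 0, 0, 0), (38, 0, 0, 0, 0), (71, 0, 0, 0, 0), (68, 0, 0, 0, 0), (71, 0, 0, 0, 0), (77, 0, 0, 0, 0), (77, 0, 0, 0, 0), (23, 0, 0, 0, 0), (68, 0, 0, 0, 0), (77, 0, 0, 0, 0), (77, 0, 0, 0, 0), (17, 0, 0, 0, 0), (23, 0, 0, 0, 0), (17, 0, 0, 0, 0), (69, 0, 0, 0, 0), (62, 0, 0, 0, 0), (69, 0, 0, 0, 0), (74, 0, 0, 0, 0), (74, 0, 0, 0, 0), (20, 0, 0, 0, 0), (62, 0, 0, 0, 0), (74, 0, 0, 0, 0), (74, 0, 0, 0, 0), (5, 0, 0, 0, 0), (20, 0, 0, 0, 0), (5, 0, 0, 0, 0), (66, 0, 0, 0, 0), (61, 0, 0, 0, 0), (66, 0, 0, 0, 0), (73, 0, 0, 0, 0), (73, 0, 0, 0, 0), (14, 0, 0, 0, 0), (61, 0, 0, 0, 0), (73, 0, 0, 0, 0), (73, 0, 0, 0, 0), (4, 0, 0, 0, 0), (14, 0, 0, 0, 0), (4, 0, 0, 0, 0), (19, 0, 0, 0, 0), (13, 0, 0, 0, 0),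 (19, 0, 0, 0, 0), (3, 0, 0, 0, 0), (13, 0, 0, 0, 0), (3, 0, 0, 0, 0), (57, 0, 0, 0, 0), (48, 0, 0, 0, 0), (57, 0, 0, 0, 0), (37, 0, 0, 0, 0), (48, 0, 0, 0, 0), (37, 0, 0, 0, 0), (70, 0, 0, 0, 0), (65, 0, 0, 0, 0), (70, 0, 0, 0, 0), (76, 0, 0, 0, 0), (76, 0, 0, 0, 0), (22, 0, 0, 0, 0), (65, 0, 0, 0, 0), (76, 0, 0, 0, 0), (76, 0, 0, 0, 0), (11, 0, 0, 0, 0), (22, 0, 0, 0, 0), (11, 0, 0, 0, 0), (69, 0, 0, 0, 0), (62, 0, 0, 0, 0), (69, 0, 0, 0, 0), (74, 0, 0, 0, 0), (74, 0, 0, 0, 0), (20, 0, 0, 0, 0), (62, 0, 0, 0, 0), (74, 0, 0, 0, 0), (74, 0, 0, 0, 0), (5, 0, 0, 0, 0), (20, 0, 0, 0, 0), (5, 0, 0, 0, 0), (63, 0, 0, 0, 0), (60, 0, 0, 0, 0), (63, 0, 0, 0, 0), (72, 0, 0, 0, 0), (72, 0, 0, 0, 0), (8, 0, 0, 0, 0), (60, 0, 0, 0, 0), (72, 0, 0, 0, 0), (72, 0, 0,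 0, 0), (2, 0, 0, 0, 0), (8, 0, 0, 0, 0), (2, 0, 0, 0, 0), (18, 0, 0, 0, 0), (7, 0, 0, 0, 0), (18, 0, 0, 0, 0), (1, 0, 0, 0, 0), (7, 0, 0, 0, 0), (1, 0, 0, 0, 0), (54, 0, 0, 0, 0), (47, 0, 0, 0, 0), (54, 0, 0, 0, 0), (36, 0, 0, 0, 0), (47, 0, 0, 0, 0), (36, 0, 0, 0, 0), (67, 0, 0, 0, 0), (64, 0, 0, 0, 0), (67, 0, 0, 0, 0), (75, 0, 0, 0, 0), (75, 0, 0, 0, 0), (16, 0, 0, 0, 0), (64, 0, 0, 0, 0), (75, 0, 0, 0, 0), (75, 0, 0, 0, 0), (10, 0, 0, 0, 0), (16, 0, 0, 0, 0), (10, 0, 0, 0, 0), (66, 0, 0, 0, 0), (61, 0, 0, 0, 0), (66, 0, 0, 0, 0), (73, 0, 0, 0, 0), (73, 0, 0, 0, 0), (14, 0, 0, 0, 0), (61, 0, 0, 0, 0), (73, 0, 0, 0, 0), (73, 0, 0, 0, 0), (4, 0, 0, 0, 0), (14, 0, 0, 0, 0), (4, 0, 0, 0, 0), (63, 0, 0, 0, 0), (60, 0, 0, 0, 0), (63, 0, 0, 0, 0), (72, 0,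 0, 0, 0), (72, 0, 0, 0, 0), (8, 0, 0, 0, 0), (60, 0, 0, 0, 0), (72, 0, 0, 0, 0), (72, 0, 0, 0, 0), (2, 0, 0, 0, 0), (8, 0, 0, 0, 0), (2, 0, 0, 0, 0), (12, 0, 0, 0, 0), (6, 0, 0, 0, 0), (12, 0, 0, 0, 0), (0, 0, 0, 0, 0), (6, 0, 0, 0, 0), (0, 0, 0, 0, 0), (83, 0, 0, 0, 0), (83, 0, 0, 0, 0), (82, 0, 0, 0, 0), (82, 0, 0, 0, 0), (81, 0, 0, 0, 0), (81, 0, 0, 0, 0), (83, 0, 0, 0, 0), (83, 0, 0, 0, 0), (80, 0, 0, 0, 0), (80, 0, 0, 0, 0), (79, 0, 0, 0, 0), (79, 0, 0, 0, 0), (82, 0, 0, 0, 0), (82, 0, 0, 0, 0), (80, 0, 0, 0, 0), (80, 0, 0, 0, 0), (78, 0, 0, 0, 0), (78, 0, 0, 0, 0), (81, 0, 0, 0, 0), (81, 0, 0, 0, 0), (79, 0, 0, 0, 0), (79, 0, 0, 0, 0), (78, 0, 0, 0, 0), (78, 0, 0, 0, 0), (51, 0, 0, 0, 0), (51, 0, 0, 0, 0), (44, 0, 0, 0, 0), (44, 0, 0, 0, 0), (40,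 0, 0, 0, 0), (40, 0, 0, 0, 0), (51, 0, 0, 0, 0), (51, 0, 0, 0, 0), (21, 0, 0, 0, 0), (21, 0, 0, 0, 0), (15, 0, 0, 0, 0), (15, 0, 0, 0, 0), (44, 0, 0, 0, 0), (44, 0, 0, 0, 0), (21, 0, 0, 0, 0), (21, 0, 0, 0, 0), (9, 0, 0, 0, 0), (9, 0, 0, 0, 0), (40, 0, 0, 0, 0), (40, 0, 0, 0, 0), (15, 0, 0, 0, 0), (15, 0, 0, 0, 0), (9, 0, 0, 0, 0), (9, 0, 0, 0, 0), (50, 0, 0, 0, 0), (50, 0, 0, 0, 0), (33, 0, 0, 0, 0), (33, 0, 0, 0, 0), (29, 0, 0, 0, 0), (29, 0, 0, 0, 0), (50, 0, 0, 0, 0), (50, 0, 0, 0, 0), (19, 0, 0, 0, 0), (19, 0, 0, 0, 0), (13, 0, 0, 0, 0), (13, 0, 0, 0, 0), (33, 0, 0, 0, 0), (33, 0, 0, 0, 0), (19, 0, 0, 0, 0), (19, 0, 0, 0, 0), (3, 0, 0, 0, 0), (3, 0, 0, 0, 0), (29, 0, 0, 0, 0), (29, 0, 0, 0, 0), (13, 0, 0, 0, 0), (13, 0, 0, 0, 0), (3, 0, 0, 0, 0),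 (3, 0, 0, 0, 0), (43, 0, 0, 0, 0), (43, 0, 0, 0, 0), (32, 0, 0, 0, 0), (32, 0, 0, 0, 0), (25, 0, 0, 0, 0), (25, 0, 0, 0, 0), (43, 0, 0, 0, 0), (43, 0, 0, 0, 0), (18, 0, 0, 0, 0), (18, 0, 0, 0, 0), (7, 0, 0, 0, 0), (7, 0, 0, 0, 0), (32, 0, 0, 0, 0), (32, 0, 0, 0, 0), (18, 0, 0, 0, 0), (18, 0, 0, 0, 0), (1, 0, 0, 0, 0), (1, 0, 0, 0, 0), (25, 0, 0, 0, 0), (25, 0, 0, 0, 0), (7, 0, 0, 0, 0), (7, 0, 0, 0, 0), (1, 0, 0, 0, 0), (1, 0, 0, 0, 0), (39, 0, 0, 0, 0), (39, 0, 0, 0, 0), (28, 0, 0, 0, 0), (28, 0, 0, 0, 0), (24, 0, 0, 0, 0), (24, 0, 0, 0, 0), (39, 0, 0, 0, 0), (39, 0, 0, 0, 0), (12, 0, 0, 0, 0), (12, 0, 0, 0, 0), (6, 0, 0, 0, 0), (6, 0, 0, 0, 0), (28, 0, 0, 0, 0), (28, 0, 0, 0, 0), (12, 0, 0, 0, 0), (12, 0, 0, 0, 0), (0, 0, 0, 0, 0), (0, 0, 0, 0, 0),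 (24, 0, 0, 0, 0), (24, 0, 0, 0, 0), (6, 0, 0, 0, 0), (6, 0, 0, 0, 0), (0, 0, 0, 0, 0), (0, 0, 0, 0, 0)]]

theorem tr21 : trK keys lk21 kl21 = true := by
  decide +kernel

theorem x21_0 : expB 3 6 dg13 dg9 m21_0 (l21_0 ++ z21_0) w21_0 = true := by
  decide +kernel

theorem t21_0_0 : chkS lk21 3 6 [(1, m21_0)] l21_0
  [(3, 528, 528, 5517840, 5517840), (0, 528, 528, 4530960, 4530960), (0, 528, 528, 5514000, 5514000), (0, 528, 528, 4534800, 4534800), (0, 528, 528, 5517840, 5517840), (4, 528, 528, 5517840, 5517840), (0, 33, 258, 1066275, 2294100), (6, 528, 528, 4411920, 3490320), (6, 528, 528, 3428880, 3428880), (5, 288, 288, 3490320, 4411920), (5, 288, 288, 5456400, 5456400), (2, 258, 33, 4391205, 344355), (0, 33, 258, 1070115, 3277140), (6, 528, 528, 4400400,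 2442000), (6, 528, 528, 3417360, 2380560), (5, 288, 288, 3482640, 4346640), (5, 288, 288, 5448720, 5391120), (2, 258, 33, 4395045, 344370), (5, 528, 528, 4346640, 3482640), (5, 528, 528, 4338960, 2438160), (2, 18, 18, 82725, 205125), (0, 513, 513, 4526115, 4522290), (6, 288, 288, 5387280, 5387280), (6, 288, 288, 5391120, 5448720), (0, 33, 258, 1066290, 2297940), (6, 528, 528, 4411905, 3490305), (5, 288, 288, 5456385, 5456385), (2, 258, 33, 4391250, 1392675), (0, 33, 258, 1070130, 3280980), (6, 528, 528, 4400385, 2441985), (5, 288, 288, 5448705, 5391105), (2, 258, 33, 4395090, 1392690), (5, 528, 528, 4346625, 3482625), (5, 528, 528, 4338945, 2438145), (6, 288, 288, 5387265, 5387265), (6, 288, 288, 5391105, 5448705), (0, 513, 513, 5509170, 5509170), (6,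 288, 288, 2438145, 4338945), (6, 288, 288, 2441985, 4400385), (4, 33, 258, 1070130, 3280980), (2, 528, 528, 5391120, 5448720), (2, 528, 528, 2441985, 4400385), (7, 288, 288, 5517840, 5517840), (2, 513, 513, 5378115, 5309490), (6, 513, 513, 4391250, 1392675), (1, 288, 288, 3298320, 3298320), (2, 33, 258, 1069635, 3211860), (6, 513, 513, 3408165, 282915), (1, 288, 288, 2315280, 3294480), (2, 33, 258, 86595, 3211845), (2, 513, 513, 5374275, 5309475), (6, 513, 513, 4395090, 1392690), (1, 288, 288, 3294480, 2315280), (2, 33, 258, 1058115, 2163540), (6, 513, 513, 3412005, 282930), (1, 288, 288, 2311440, 2311440), (2, 33, 258, 75075, 2163525), (2, 288, 288, 4400400, 2442000), (2, 288, 288, 4411920, 3490320), (4, 513, 513, 5509170, 5509170), (5, 528, 528, 2380545,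 3417345), (5, 528, 528, 2372865, 2372865), (2, 18, 18, 1065810, 1253460), (2, 513, 513, 2428995, 4261170), (6, 513, 513, 3408210, 1331235), (1, 528, 528, 4534800, 4534800), (2, 513, 513, 2425155, 4261155), (6, 513, 513, 3412050, 1331250), (1, 528, 528, 4530960, 4530960), (7, 528, 528, 2315280, 3294480), (2, 288, 288, 4400385, 2441985), (2, 288, 288, 4411905, 3490305)]
  [(0, 69120), (1, -46080), (2, -69120), (3, 11520), (5, 46080), (7, -11520)] = true := by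
  decide +kernel

section

variable {κ ι : Type*} [Fintype κ] [Fintype ι] [Inhabited κ] [Inhabited ι]

noncomputable def F21_0 (E : Env κ ι) : (Fin 3 → κ) → (Fin 6 → ι) → ℝ := op2 (P13 κ) (P9 ι) (fB E 3 6 m21_0)

def r21_0_0 : List (ℕ × ℤ) := [(0, 69120), (1, -46080), (2, -69120), (3, 11520), (5, 46080), (7, -11520)]

theorem h21_0_0 (E : Env κ ι) : ip (F21_0 E) (F21_0 E) = dotS (ek E lk21) r21_0_0 :=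
  op_entryZ E lk21 3 6 _ _ _ _ (pg13 κ) (pg9 ι) m21_0 m21_0 l21_0 z21_0 w21_0 x21_0 (by decide) _ (chkS_sound E lk21 3 6 _ _ _ _ t21_0_0)

theorem row21_0 (E : Env κ ι) : RowG (ek E lk21) (F21_0 E) [F21_0 E] [r21_0_0] :=
  rowG_cons _ _ _ _ _ _ (h21_0_0 E) (rowG_nil _ _)

def tab21 : List (List (List (ℕ × ℤ))) := [[r21_0_0]]

theorem tri21 (E : Env κ ι) : TriG (ek E lk21) [F21_0 E] tab21 := by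
  refine triG_cons _ _ _ _ _ (row21_0 E) ?_
  exact triG_nil _

end

def lk22 : List Key := [
  (3, 6, [(0, [0], [0, 1]), (0, [0], [0, 1]), (0, [1], [2, 3]), (0, [2], [4, 5]), (0, [2], [2, 4]), (0, [1], [3, 5])]),
  (3, 6, [(0, [0], [0, 1]), (0, [1], [2, 3]), (0, [2], [4, 5]), (0, [0], [2, 4]), (0, [1], [0, 5]), (0, [2], [1, 3])]),
  (3, 6, [(0, [0], [0, 1]), (0, [1], [0, 2]), (0, [1], [3, 4]), (0, [0], [3, 4]), (0, [2], [2, 5]), (0, [2], [1, 5])]),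
  (3, 6, [(0, [0], [0, 1]), (0, [0], [0, 1]), (0, [1], [2, 3]), (0, [1], [2, 3]), (0, [2], [4, 5]), (0, [2], [4, 5])]),
  (3, 6, [(0, [0], [0, 1]), (0, [0], [0, 1]), (0, [1], [2, 3]), (0, [2], [4, 5]), (0, [1], [4, 5]), (0, [2], [2, 3])]),
  (3, 6, [(0, [0], [0, 1]), (0, [0], [2, 0]), (0, [1], [3, 1]), (0, [2], [4, 5]), (0, [2], [2, 4]), (0, [1], [3, 5])]),
  (3, 6, [(0, [0], [0, 1]), (0, [0], [2, 0]), (0, [1], [3, 1]), (0, [2], [4, 5]), (0, [2], [3, 4]), (0, [1], [2, 5])]),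
  (3, 6, [(0, [0], [0, 1]), (0, [0], [2, 3]), (0, [1], [0, 1]), (0, [2], [4, 5]), (0, [2], [2, 3]), (0, [1], [4, 5])])]

def kl22 : List ℕ := [12, 22, 25, 27, 30, 37, 38, 45]

def m22_0 : Base := (0, 0, [(0, [0], [0, 1]), (0, [1], [2, 4]), (0, [2], [3, 5])])

def l22_0 : Cov := [(4608, 0, 0, [(0, [0], [0, 1]), (0, [1], [2, 4]), (0, [2], [3, 5])]),
  (4608, 0, 0, [(0, [0], [0, 1]), (0, [1], [2, 5]), (0, [2], [3, 4])]),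
  (4608, 0, 0, [(0, [0], [0, 1]), (0, [1], [3, 4]), (0, [2], [2, 5])]),
  (4608, 0, 0, [(0, [0], [0, 1]), (0, [1], [3, 5]), (0, [2], [2, 4])]),
  (4608, 0, 0, [(0, [0], [0, 1]), (0, [1], [4, 5]), (0, [2], [2, 3])]),
  (-4608, 0, 0, [(0, [0], [0, 2]), (0, [1], [1, 3]), (0, [2], [4, 5])]),
  (4608, 0, 0, [(0, [0], [0, 2]), (0, [1], [3, 5]), (0, [2], [1, 4])]),
  (-4608, 0, 0, [(0, [0], [0, 3]), (0, [1], [1, 2]), (0, [2], [4, 5])]),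
  (4608, 0, 0, [(0, [0], [0, 3]), (0, [1], [2, 5]), (0, [2], [1, 4])]),
  (-4608, 0, 0, [(0, [0], [0, 5]), (0, [1], [1, 3]), (0, [2], [2, 4])]),
  (-4608, 0, 0, [(0, [0], [0, 5]), (0, [1], [1, 4]), (0, [2], [2, 3])]),
  (-4608, 0, 0, [(0, [0], [0, 5]), (0, [1], [1, 2]), (0, [2], [3, 4])]),
  (-4608, 0, 0, [(0, [0], [0, 5]), (0, [1], [2, 4]), (0, [2], [1, 3])]),
  (-4608, 0, 0, [(0, [0], [0, 5]), (0, [1], [3, 4]), (0, [2], [1, 2])]),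
  (-4608, 0, 0, [(0, [0], [1, 2]), (0, [1], [0, 3]), (0, [2], [5, 4])]),
  (4608, 0, 0, [(0, [0], [1, 2]), (0, [1], [3, 4]), (0, [2], [0, 5])]),
  (-4608, 0, 0, [(0, [0], [1, 3]), (0, [1], [0, 2]), (0, [2], [5, 4])]),
  (4608, 0, 0, [(0, [0], [1, 3]), (0, [1], [2, 4]), (0, [2], [0, 5])]),
  (-4608, 0, 0, [(0, [0], [1, 4]), (0, [1], [0, 3]), (0, [2], [2, 5])]),
  (-4608, 0, 0, [(0, [0], [1, 4]), (0, [1], [0, 5]), (0, [2], [2, 3])]),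
  (-4608, 0, 0, [(0, [0], [1, 4]), (0, [1], [0, 2]), (0, [2], [3, 5])]),
  (-4608, 0, 0, [(0, [0], [1, 4]), (0, [1], [2, 5]), (0, [2], [0, 3])]),
  (-4608, 0, 0, [(0, [0], [1, 4]), (0, [1], [3, 5]), (0, [2], [0, 2])]),
  (4608, 0, 0, [(0, [0], [2, 3]), (0, [1], [0, 5]), (0, [2], [1, 4])]),
  (-4608, 0, 0, [(0, [0], [2, 3]), (0, [1], [0, 1]), (0, [2], [5, 4])]),
  (4608, 0, 0, [(0, [0], [2, 3]), (0, [1], [1, 4]), (0, [2], [0, 5])]),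
  (-4608, 0, 0, [(0, [0], [2, 3]), (0, [1], [4, 5]), (0, [2], [1, 0])]),
  (4608, 0, 0, [(0, [0], [2, 4]), (0, [1], [3, 1]), (0, [2], [0, 5])]),
  (-4608, 0, 0, [(0, [0], [2, 4]), (0, [1], [3, 5]), (0, [2], [0, 1])]),
  (-4608, 0, 0, [(0, [0], [2, 5]), (0, [1], [3, 4]), (0, [2], [0, 1])]),
  (4608, 0, 0, [(0, [0], [2, 5]), (0, [1], [3, 0]), (0, [2], [1, 4])]),
  (4608, 0, 0, [(0, [0], [3, 4]), (0, [1], [2, 1]), (0, [2], [0, 5])]),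
  (-4608, 0, 0, [(0, [0], [3, 4]), (0, [1], [2, 5]), (0, [2], [0, 1])]),
  (-4608, 0, 0, [(0, [0], [3, 5]), (0, [1], [2, 4]), (0, [2], [0, 1])]),
  (4608, 0, 0, [(0, [0], [3, 5]), (0, [1], [2, 0]), (0, [2], [1, 4])]),
  (4608, 0, 0, [(0, [0], [4, 5]), (0, [1], [0, 2]), (0, [2], [1, 3])]),
  (4608, 0, 0, [(0, [0], [4, 5]), (0, [1], [0, 3]), (0, [2], [1, 2])]),
  (4608, 0, 0, [(0, [0], [4, 5]), (0, [1], [0, 1]), (0, [2], [2, 3])]),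
  (4608, 0, 0, [(0, [0], [4, 5]), (0, [1], [1, 2]), (0, [2], [0, 3])]),
  (4608, 0, 0, [(0, [0], [4, 5]), (0, [1], [1, 3]), (0, [2], [0, 2])])]

def z22_0 : Cov := [(0, 0, 0, [(0, [0], [0, 1]), (0, [1], [2, 3]), (0, [2], [4, 5])]),
  (0, 0, 0, [(0, [0], [0, 2]), (0, [1], [1, 4]), (0, [2], [3, 5])]),
  (0, 0, 0, [(0, [0], [0, 2]), (0, [1], [1, 5]), (0, [2], [3, 4])]),
  (0, 0, 0, [(0, [0], [0, 2]), (0, [1], [3, 4]), (0, [2], [1, 5])]),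
  (0, 0, 0, [(0, [0], [0, 2]), (0, [1], [4, 5]), (0, [2], [3, 1])]),
  (0, 0, 0, [(0, [0], [0, 3]), (0, [1], [1, 4]), (0, [2], [2, 5])]),
  (0, 0, 0, [(0, [0], [0, 3]), (0, [1], [1, 5]), (0, [2], [2, 4])]),
  (0, 0, 0, [(0, [0], [0, 3]), (0, [1], [2, 4]), (0, [2], [1, 5])]),
  (0, 0, 0, [(0, [0], [0, 3]), (0, [1], [4, 5]), (0, [2], [2, 1])]),
  (0, 0, 0, [(0, [0], [0, 4]), (0, [1], [1, 3]), (0, [2], [2, 5])]),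
  (0, 0, 0, [(0, [0], [0, 4]), (0, [1], [1, 5]), (0, [2], [2, 3])]),
  (0, 0, 0, [(0, [0], [0, 4]), (0, [1], [1, 2]), (0, [2], [3, 5])]),
  (0, 0, 0, [(0, [0], [0, 4]), (0, [1], [2, 3]), (0, [2], [1, 5])]),
  (0, 0, 0, [(0, [0], [0, 4]), (0, [1], [2, 5]), (0, [2], [1, 3])]),
  (0, 0, 0, [(0, [0], [0, 4]), (0, [1], [3, 5]), (0, [2], [1, 2])]),
  (0, 0, 0, [(0, [0], [0, 5]), (0, [1], [2, 3]), (0, [2], [1, 4])]),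
  (0, 0, 0, [(0, [0], [1, 2]), (0, [1], [0, 4]), (0, [2], [3, 5])]),
  (0, 0, 0, [(0, [0], [1, 2]), (0, [1], [0, 5]), (0, [2], [3, 4])]),
  (0, 0, 0, [(0, [0], [1, 2]), (0, [1], [3, 5]), (0, [2], [0, 4])]),
  (0, 0, 0, [(0, [0], [1, 2]), (0, [1], [4, 5]), (0, [2], [3, 0])]),
  (0, 0, 0, [(0, [0], [1, 3]), (0, [1], [0, 4]), (0, [2], [2, 5])]),
  (0, 0, 0, [(0, [0], [1, 3]), (0, [1], [0, 5]), (0, [2], [2, 4])]),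
  (0, 0, 0, [(0, [0], [1, 3]), (0, [1], [2, 5]), (0, [2], [0, 4])]),
  (0, 0, 0, [(0, [0], [1, 3]), (0, [1], [4, 5]), (0, [2], [2, 0])]),
  (0, 0, 0, [(0, [0], [1, 4]), (0, [1], [2, 3]), (0, [2], [0, 5])]),
  (0, 0, 0, [(0, [0], [1, 5]), (0, [1], [0, 3]), (0, [2], [2, 4])]),
  (0, 0, 0, [(0, [0], [1, 5]), (0, [1], [0, 4]), (0, [2], [2, 3])]),
  (0, 0, 0, [(0, [0], [1, 5]), (0, [1], [0, 2]), (0, [2], [3, 4])]),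
  (0, 0, 0, [(0, [0], [1, 5]), (0, [1], [2, 3]), (0, [2], [0, 4])]),
  (0, 0, 0, [(0, [0], [1, 5]), (0, [1], [2, 4]), (0, [2], [0, 3])]),
  (0, 0, 0, [(0, [0], [1, 5]), (0, [1], [3, 4]), (0, [2], [0, 2])]),
  (0, 0, 0, [(0, [0], [2, 3]), (0, [1], [0, 4]), (0, [2], [1, 5])]),
  (0, 0, 0, [(0, [0], [2, 3]), (0, [1], [1, 5]), (0, [2], [0, 4])]),
  (0, 0, 0, [(0, [0], [2, 4]), (0, [1], [0, 5]), (0, [2], [1, 3])]),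
  (0, 0, 0, [(0, [0], [2, 4]), (0, [1], [0, 1]), (0, [2], [3, 5])]),
  (0, 0, 0, [(0, [0], [2, 4]), (0, [1], [1, 5]), (0, [2], [0, 3])]),
  (0, 0, 0, [(0, [0], [2, 4]), (0, [1], [3, 0]), (0, [2], [1, 5])]),
  (0, 0, 0, [(0, [0], [2, 5]), (0, [1], [0, 4]), (0, [2], [1, 3])]),
  (0, 0, 0, [(0, [0], [2, 5]), (0, [1], [0, 1]), (0, [2], [3, 4])]),
  (0, 0, 0, [(0, [0], [2, 5]), (0, [1], [1, 4]), (0, [2], [0, 3])]),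
  (0, 0, 0, [(0, [0], [2, 5]), (0, [1], [3, 1]), (0, [2], [0, 4])]),
  (0, 0, 0, [(0, [0], [3, 4]), (0, [1], [0, 5]), (0, [2], [1, 2])]),
  (0, 0, 0, [(0, [0], [3, 4]), (0, [1], [0, 1]), (0, [2], [2, 5])]),
  (0, 0, 0, [(0, [0], [3, 4]), (0, [1], [1, 5]), (0, [2], [0, 2])]),
  (0, 0, 0, [(0, [0], [3, 4]), (0, [1], [2, 0]), (0, [2], [1, 5])]),
  (0, 0, 0, [(0, [0], [3, 5]), (0, [1], [0, 4]), (0, [2], [1, 2])]),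
  (0, 0, 0, [(0, [0], [3, 5]), (0, [1], [0, 1]), (0, [2], [2, 4])]),
  (0, 0, 0, [(0, [0], [3, 5]), (0, [1], [1, 4]), (0, [2], [0, 2])]),
  (0, 0, 0, [(0, [0], [3, 5]), (0, [1], [2, 1]), (0, [2], [0, 4])]),
  (0, 0, 0, [(0, [0], [4, 5]), (0, [1], [2, 3]), (0, [2], [0, 1])])]

def w22_0 : List (List Wit) := [[(0, 0, 0, 0, 0), (1, 0, 0, 0, 0), (40, 0, 0, 0, 0), (1, 0, 0, 0, 0), (40, 0, 0, 0, 0), (0, 0, 0, 0, 0), (2, 0, 0, 0, 0), (3, 0, 0, 0, 0), (40, 0, 0, 0, 0), (3, 0, 0, 0, 0), (40, 0, 0, 0, 0), (2, 0, 0, 0, 0), (2, 0, 0, 0, 0), (4, 0, 0, 0, 0), (0, 0, 0, 0, 0), (4, 0, 0, 0, 0), (0, 0, 0, 0, 0), (2, 0, 0, 0, 0), (3, 0, 0, 0, 0), (4, 0, 0, 0, 0), (1, 0, 0, 0, 0), (4, 0, 0, 0, 0), (1, 0, 0, 0, 0), (3, 0, 0, 0, 0), (41, 0, 0, 0, 0), (42, 0, 0, 0, 0), (5,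 0, 0, 0, 0), (43, 0, 0, 0, 0), (6, 0, 0, 0, 0), (5, 0, 0, 0, 0), (6, 0, 0, 0, 0), (5, 0, 0, 0, 0), (43, 0, 0, 0, 0), (43, 0, 0, 0, 0), (41, 0, 0, 0, 0), (44, 0, 0, 0, 0), (43, 0, 0, 0, 0), (42, 0, 0, 0, 0), (44, 0, 0, 0, 0), (6, 0, 0, 0, 0), (45, 0, 0, 0, 0), (46, 0, 0, 0, 0), (7, 0, 0, 0, 0), (47, 0, 0, 0, 0), (8, 0, 0, 0, 0), (7, 0, 0, 0, 0), (8, 0, 0, 0, 0), (7, 0, 0, 0, 0), (47, 0, 0, 0, 0), (47, 0, 0, 0, 0), (45, 0, 0, 0, 0), (48, 0, 0, 0, 0), (47, 0, 0, 0, 0), (46, 0, 0, 0, 0), (48, 0, 0, 0, 0), (8, 0, 0, 0, 0), (49, 0, 0, 0, 0), (50, 0, 0, 0, 0), (51, 0, 0, 0, 0), (50, 0, 0, 0, 0), (52, 0, 0, 0, 0), (53, 0, 0, 0, 0), (51, 0, 0, 0, 0), (53, 0, 0, 0, 0), (51, 0, 0, 0, 0), (52, 0, 0, 0, 0), (52, 0, 0, 0, 0), (54, 0, 0, 0, 0), (49, 0, 0, 0, 0), (54,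 0, 0, 0, 0), (49, 0, 0, 0, 0), (52, 0, 0, 0, 0), (50, 0, 0, 0, 0), (54, 0, 0, 0, 0), (50, 0, 0, 0, 0), (53, 0, 0, 0, 0), (9, 0, 0, 0, 0), (10, 0, 0, 0, 0), (11, 0, 0, 0, 0), (10, 0, 0, 0, 0), (11, 0, 0, 0, 0), (9, 0, 0, 0, 0), (55, 0, 0, 0, 0), (12, 0, 0, 0, 0), (11, 0, 0, 0, 0), (12, 0, 0, 0, 0), (11, 0, 0, 0, 0), (55, 0, 0, 0, 0), (55, 0, 0, 0, 0), (13, 0, 0, 0, 0), (9, 0, 0, 0, 0), (13, 0, 0, 0, 0), (9, 0, 0, 0, 0), (55, 0, 0, 0, 0), (12, 0, 0, 0, 0), (13, 0, 0, 0, 0), (10, 0, 0, 0, 0), (13, 0, 0, 0, 0), (10, 0, 0, 0, 0), (12, 0, 0, 0, 0), (0, 0, 0, 0, 0), (1, 0, 0, 0, 0), (40, 0, 0, 0, 0), (1, 0, 0, 0, 0), (40, 0, 0, 0, 0), (0, 0, 0, 0, 0), (2, 0, 0, 0, 0), (3, 0, 0, 0, 0), (40, 0, 0, 0, 0), (3, 0, 0, 0, 0), (40, 0, 0, 0, 0), (2, 0, 0, 0, 0), (2,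 0, 0, 0, 0), (4, 0, 0, 0, 0), (0, 0, 0, 0, 0), (4, 0, 0, 0, 0), (0, 0, 0, 0, 0), (2, 0, 0, 0, 0), (3, 0, 0, 0, 0), (4, 0, 0, 0, 0), (1, 0, 0, 0, 0), (4, 0, 0, 0, 0), (1, 0, 0, 0, 0), (3, 0, 0, 0, 0), (56, 0, 0, 0, 0), (57, 0, 0, 0, 0), (14, 0, 0, 0, 0), (15, 0, 0, 0, 0), (58, 0, 0, 0, 0), (14, 0, 0, 0, 0), (58, 0, 0, 0, 0), (14, 0, 0, 0, 0), (15, 0, 0, 0, 0), (56, 0, 0, 0, 0), (59, 0, 0, 0, 0), (15, 0, 0, 0, 0), (58, 0, 0, 0, 0), (57, 0, 0, 0, 0), (59, 0, 0, 0, 0), (58, 0, 0, 0, 0), (60, 0, 0, 0, 0), (61, 0, 0, 0, 0), (16, 0, 0, 0, 0), (17, 0, 0, 0, 0), (62, 0, 0, 0, 0), (16, 0, 0, 0, 0), (62, 0, 0, 0, 0), (16, 0, 0, 0, 0), (17, 0, 0, 0, 0), (60, 0, 0, 0, 0), (63, 0, 0, 0, 0), (17, 0, 0, 0, 0), (62, 0, 0, 0, 0), (61, 0, 0, 0, 0), (63, 0, 0, 0, 0), (62,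 0, 0, 0, 0), (18, 0, 0, 0, 0), (19, 0, 0, 0, 0), (20, 0, 0, 0, 0), (19, 0, 0, 0, 0), (20, 0, 0, 0, 0), (18, 0, 0, 0, 0), (64, 0, 0, 0, 0), (21, 0, 0, 0, 0), (20, 0, 0, 0, 0), (21, 0, 0, 0, 0), (20, 0, 0, 0, 0), (64, 0, 0, 0, 0), (64, 0, 0, 0, 0), (22, 0, 0, 0, 0), (18, 0, 0, 0, 0), (22, 0, 0, 0, 0), (18, 0, 0, 0, 0), (64, 0, 0, 0, 0), (21, 0, 0, 0, 0), (22, 0, 0, 0, 0), (19, 0, 0, 0, 0), (22, 0, 0, 0, 0), (19, 0, 0, 0, 0), (21, 0, 0, 0, 0), (65, 0, 0, 0, 0), (66, 0, 0, 0, 0), (67, 0, 0, 0, 0), (66, 0, 0, 0, 0), (68, 0, 0, 0, 0), (69, 0, 0, 0, 0), (67, 0, 0, 0, 0), (69, 0, 0, 0, 0), (67, 0, 0, 0, 0), (68, 0, 0, 0, 0), (68, 0, 0, 0, 0), (70, 0, 0, 0, 0), (65, 0, 0, 0, 0), (70, 0, 0, 0, 0), (65, 0, 0, 0, 0), (68, 0, 0, 0, 0), (66, 0, 0, 0, 0), (70, 0, 0,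 0, 0), (66, 0, 0, 0, 0), (69, 0, 0, 0, 0), (41, 0, 0, 0, 0), (42, 0, 0, 0, 0), (42, 0, 0, 0, 0), (43, 0, 0, 0, 0), (6, 0, 0, 0, 0), (5, 0, 0, 0, 0), (6, 0, 0, 0, 0), (5, 0, 0, 0, 0), (43, 0, 0, 0, 0), (44, 0, 0, 0, 0), (41, 0, 0, 0, 0), (44, 0, 0, 0, 0), (41, 0, 0, 0, 0), (42, 0, 0, 0, 0), (44, 0, 0, 0, 0), (42, 0, 0, 0, 0), (56, 0, 0, 0, 0), (57, 0, 0, 0, 0), (56, 0, 0, 0, 0), (15, 0, 0, 0, 0), (58, 0, 0, 0, 0), (14, 0, 0, 0, 0), (58, 0, 0, 0, 0), (14, 0, 0, 0, 0), (15, 0, 0, 0, 0), (56, 0, 0, 0, 0), (59, 0, 0, 0, 0), (56, 0, 0, 0, 0), (59, 0, 0, 0, 0), (57, 0, 0, 0, 0), (59, 0, 0, 0, 0), (57, 0, 0, 0, 0), (71, 0, 0, 0, 0), (23, 0, 0, 0, 0), (24, 0, 0, 0, 0), (71, 0, 0, 0, 0), (25, 0, 0, 0, 0), (72, 0, 0, 0, 0), (24, 0, 0, 0, 0), (72, 0, 0, 0, 0), (71,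 0, 0, 0, 0), (26, 0, 0, 0, 0), (71, 0, 0, 0, 0), (25, 0, 0, 0, 0), (72, 0, 0, 0, 0), (26, 0, 0, 0, 0), (23, 0, 0, 0, 0), (72, 0, 0, 0, 0), (73, 0, 0, 0, 0), (74, 0, 0, 0, 0), (73, 0, 0, 0, 0), (74, 0, 0, 0, 0), (75, 0, 0, 0, 0), (74, 0, 0, 0, 0), (75, 0, 0, 0, 0), (27, 0, 0, 0, 0), (28, 0, 0, 0, 0), (76, 0, 0, 0, 0), (28, 0, 0, 0, 0), (76, 0, 0, 0, 0), (27, 0, 0, 0, 0), (75, 0, 0, 0, 0), (73, 0, 0, 0, 0), (75, 0, 0, 0, 0), (77, 0, 0, 0, 0), (78, 0, 0, 0, 0), (77, 0, 0, 0, 0), (79, 0, 0, 0, 0), (78, 0, 0, 0, 0), (79, 0, 0, 0, 0), (78, 0, 0, 0, 0), (80, 0, 0, 0, 0), (29, 0, 0, 0, 0), (30, 0, 0, 0, 0), (29, 0, 0, 0, 0), (30, 0, 0, 0, 0), (80, 0, 0, 0, 0), (77, 0, 0, 0, 0), (77, 0, 0, 0, 0), (79, 0, 0, 0, 0), (45, 0, 0, 0, 0), (46, 0, 0, 0, 0), (46, 0, 0,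 0, 0), (47, 0, 0, 0, 0), (8, 0, 0, 0, 0), (7, 0, 0, 0, 0), (8, 0, 0, 0, 0), (7, 0, 0, 0, 0), (47, 0, 0, 0, 0), (48, 0, 0, 0, 0), (45, 0, 0, 0, 0), (48, 0, 0, 0, 0), (45, 0, 0, 0, 0), (46, 0, 0, 0, 0), (48, 0, 0, 0, 0), (46, 0, 0, 0, 0), (60, 0, 0, 0, 0), (61, 0, 0, 0, 0), (60, 0, 0, 0, 0), (17, 0, 0, 0, 0), (62, 0, 0, 0, 0), (16, 0, 0, 0, 0), (62, 0, 0, 0, 0), (16, 0, 0, 0, 0), (17, 0, 0, 0, 0), (60, 0, 0, 0, 0), (63, 0, 0, 0, 0), (60, 0, 0, 0, 0), (63, 0, 0, 0, 0), (61, 0, 0, 0, 0), (63, 0, 0, 0, 0), (61, 0, 0, 0, 0), (71, 0, 0, 0, 0), (23, 0, 0, 0, 0), (24, 0, 0, 0, 0), (71, 0, 0, 0, 0), (25, 0, 0, 0, 0), (72, 0, 0, 0, 0), (24, 0, 0, 0, 0), (72, 0, 0, 0, 0), (71, 0, 0, 0, 0), (26, 0, 0, 0, 0), (71, 0, 0, 0, 0), (25, 0, 0, 0, 0), (72, 0, 0, 0, 0), (26,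 0, 0, 0, 0), (23, 0, 0, 0, 0), (72, 0, 0, 0, 0), (81, 0, 0, 0, 0), (82, 0, 0, 0, 0), (81, 0, 0, 0, 0), (82, 0, 0, 0, 0), (83, 0, 0, 0, 0), (82, 0, 0, 0, 0), (83, 0, 0, 0, 0), (31, 0, 0, 0, 0), (32, 0, 0, 0, 0), (84, 0, 0, 0, 0), (32, 0, 0, 0, 0), (84, 0, 0, 0, 0), (31, 0, 0, 0, 0), (83, 0, 0, 0, 0), (81, 0, 0, 0, 0), (83, 0, 0, 0, 0), (85, 0, 0, 0, 0), (86, 0, 0, 0, 0), (85, 0, 0, 0, 0), (87, 0, 0, 0, 0), (86, 0, 0, 0, 0), (87, 0, 0, 0, 0), (86, 0, 0, 0, 0), (88, 0, 0, 0, 0), (33, 0, 0, 0, 0), (34, 0, 0, 0, 0), (33, 0, 0, 0, 0), (34, 0, 0, 0, 0), (88, 0, 0, 0, 0), (85, 0, 0, 0, 0), (85, 0, 0, 0, 0), (87, 0, 0, 0, 0), (49, 0, 0, 0, 0), (50, 0, 0, 0, 0), (51, 0, 0, 0, 0), (50, 0, 0, 0, 0), (52, 0, 0, 0, 0), (53, 0, 0, 0, 0), (51, 0, 0, 0, 0), (53, 0, 0,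 0, 0), (51, 0, 0, 0, 0), (52, 0, 0, 0, 0), (52, 0, 0, 0, 0), (54, 0, 0, 0, 0), (49, 0, 0, 0, 0), (54, 0, 0, 0, 0), (49, 0, 0, 0, 0), (52, 0, 0, 0, 0), (50, 0, 0, 0, 0), (54, 0, 0, 0, 0), (50, 0, 0, 0, 0), (53, 0, 0, 0, 0), (18, 0, 0, 0, 0), (19, 0, 0, 0, 0), (20, 0, 0, 0, 0), (19, 0, 0, 0, 0), (20, 0, 0, 0, 0), (18, 0, 0, 0, 0), (64, 0, 0, 0, 0), (21, 0, 0, 0, 0), (20, 0, 0, 0, 0), (21, 0, 0, 0, 0), (20, 0, 0, 0, 0), (64, 0, 0, 0, 0), (64, 0, 0, 0, 0), (22, 0, 0, 0, 0), (18, 0, 0, 0, 0), (22, 0, 0, 0, 0), (18, 0, 0, 0, 0), (64, 0, 0, 0, 0), (21, 0, 0, 0, 0), (22, 0, 0, 0, 0), (19, 0, 0, 0, 0), (22, 0, 0, 0, 0), (19, 0, 0, 0, 0), (21, 0, 0, 0, 0), (76, 0, 0, 0, 0), (74, 0, 0, 0, 0), (73, 0, 0, 0, 0), (76, 0, 0, 0, 0), (27, 0, 0, 0, 0), (74, 0, 0, 0, 0),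 (75, 0, 0, 0, 0), (27, 0, 0, 0, 0), (28, 0, 0, 0, 0), (76, 0, 0, 0, 0), (28, 0, 0, 0, 0), (76, 0, 0, 0, 0), (27, 0, 0, 0, 0), (28, 0, 0, 0, 0), (73, 0, 0, 0, 0), (75, 0, 0, 0, 0), (84, 0, 0, 0, 0), (82, 0, 0, 0, 0), (81, 0, 0, 0, 0), (84, 0, 0, 0, 0), (31, 0, 0, 0, 0), (82, 0, 0, 0, 0), (83, 0, 0, 0, 0), (31, 0, 0, 0, 0), (32, 0, 0, 0, 0), (84, 0, 0, 0, 0), (32, 0, 0, 0, 0), (84, 0, 0, 0, 0), (31, 0, 0, 0, 0), (32, 0, 0, 0, 0), (81, 0, 0, 0, 0), (83, 0, 0, 0, 0), (35, 0, 0, 0, 0), (36, 0, 0, 0, 0), (37, 0, 0, 0, 0), (36, 0, 0, 0, 0), (37, 0, 0, 0, 0), (35, 0, 0, 0, 0), (38, 0, 0, 0, 0), (39, 0, 0, 0, 0), (37, 0, 0, 0, 0), (39, 0, 0, 0, 0), (37, 0, 0, 0, 0), (38, 0, 0, 0, 0), (38, 0, 0, 0, 0), (89, 0, 0, 0, 0), (35, 0, 0, 0, 0), (89, 0, 0, 0, 0), (35,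 0, 0, 0, 0), (38, 0, 0, 0, 0), (39, 0, 0, 0, 0), (89, 0, 0, 0, 0), (36, 0, 0, 0, 0), (89, 0, 0, 0, 0), (36, 0, 0, 0, 0), (39, 0, 0, 0, 0), (9, 0, 0, 0, 0), (10, 0, 0, 0, 0), (11, 0, 0, 0, 0), (10, 0, 0, 0, 0), (11, 0, 0, 0, 0), (9, 0, 0, 0, 0), (55, 0, 0, 0, 0), (12, 0, 0, 0, 0), (11, 0, 0, 0, 0), (12, 0, 0, 0, 0), (11, 0, 0, 0, 0), (55, 0, 0, 0, 0), (55, 0, 0, 0, 0), (13, 0, 0, 0, 0), (9, 0, 0, 0, 0), (13, 0, 0, 0, 0), (9, 0, 0, 0, 0), (55, 0, 0, 0, 0), (12, 0, 0, 0, 0), (13, 0, 0, 0, 0), (10, 0, 0, 0, 0), (13, 0, 0, 0, 0), (10, 0, 0, 0, 0), (12, 0, 0, 0, 0), (65, 0, 0, 0, 0), (66, 0, 0, 0, 0), (67, 0, 0, 0, 0), (66, 0, 0, 0, 0), (68, 0, 0, 0, 0), (69, 0, 0, 0, 0), (67, 0, 0, 0, 0), (69, 0, 0, 0, 0), (67, 0, 0, 0, 0), (68, 0, 0, 0, 0), (68, 0, 0, 0,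 0), (70, 0, 0, 0, 0), (65, 0, 0, 0, 0), (70, 0, 0, 0, 0), (65, 0, 0, 0, 0), (68, 0, 0, 0, 0), (66, 0, 0, 0, 0), (70, 0, 0, 0, 0), (66, 0, 0, 0, 0), (69, 0, 0, 0, 0), (30, 0, 0, 0, 0), (78, 0, 0, 0, 0), (77, 0, 0, 0, 0), (80, 0, 0, 0, 0), (78, 0, 0, 0, 0), (79, 0, 0, 0, 0), (80, 0, 0, 0, 0), (80, 0, 0, 0, 0), (29, 0, 0, 0, 0), (30, 0, 0, 0, 0), (29, 0, 0, 0, 0), (30, 0, 0, 0, 0), (80, 0, 0, 0, 0), (29, 0, 0, 0, 0), (77, 0, 0, 0, 0), (79, 0, 0, 0, 0), (34, 0, 0, 0, 0), (86, 0, 0, 0, 0), (85, 0, 0, 0, 0), (88, 0, 0, 0, 0), (86, 0, 0, 0, 0), (87, 0, 0, 0, 0), (88, 0, 0, 0, 0), (88, 0, 0, 0, 0), (33, 0, 0, 0, 0), (34, 0, 0, 0, 0), (33, 0, 0, 0, 0), (34, 0, 0, 0, 0), (88, 0, 0, 0, 0), (33, 0, 0, 0, 0), (85, 0, 0, 0, 0), (87, 0, 0, 0, 0), (35, 0, 0, 0, 0), (36,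 0, 0, 0, 0), (37, 0, 0, 0, 0), (36, 0, 0, 0, 0), (37, 0, 0, 0, 0), (35, 0, 0, 0, 0), (38, 0, 0, 0, 0), (39, 0, 0, 0, 0), (37, 0, 0, 0, 0), (39, 0, 0, 0, 0), (37, 0, 0, 0, 0), (38, 0, 0, 0, 0), (38, 0, 0, 0, 0), (89, 0, 0, 0, 0), (35, 0, 0, 0, 0), (89, 0, 0, 0, 0), (35, 0, 0, 0, 0), (38, 0, 0, 0, 0), (39, 0, 0, 0, 0), (89, 0, 0, 0, 0), (36, 0, 0, 0, 0), (89, 0, 0, 0, 0), (36, 0, 0, 0, 0), (39, 0, 0, 0, 0)],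
  [(3, 0, 0, 0, 0), (2, 0, 0, 0, 0), (4, 0, 0, 0, 0), (2, 0, 0, 0, 0), (4, 0, 0, 0, 0), (3, 0, 0, 0, 0), (1, 0, 0, 0, 0), (0, 0, 0, 0, 0), (4, 0, 0, 0, 0), (0, 0, 0, 0, 0), (4, 0, 0, 0, 0), (1, 0, 0, 0, 0), (1, 0, 0, 0, 0), (40, 0, 0, 0, 0), (3, 0, 0, 0, 0), (40, 0, 0, 0, 0), (3, 0, 0, 0, 0), (1, 0, 0, 0, 0), (0, 0, 0, 0, 0), (40, 0, 0, 0, 0), (2, 0, 0, 0, 0), (40, 0, 0, 0, 0), (2, 0, 0, 0, 0), (0, 0, 0, 0, 0), (6, 0, 0, 0, 0), (43, 0, 0, 0, 0), (44, 0, 0, 0, 0), (42, 0, 0, 0, 0), (41, 0, 0, 0, 0), (44, 0, 0, 0, 0), (41, 0, 0, 0, 0), (44, 0, 0, 0, 0), (42, 0, 0, 0, 0), (42, 0, 0, 0, 0), (6, 0, 0, 0, 0), (5, 0, 0, 0, 0), (42, 0, 0, 0, 0), (43, 0, 0, 0, 0), (5, 0, 0, 0, 0), (41, 0, 0, 0, 0), (8, 0, 0, 0, 0), (47, 0, 0, 0, 0), (48, 0, 0, 0, 0), (46, 0, 0,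 0, 0), (45, 0, 0, 0, 0), (48, 0, 0, 0, 0), (45, 0, 0, 0, 0), (48, 0, 0, 0, 0), (46, 0, 0, 0, 0), (46, 0, 0, 0, 0), (8, 0, 0, 0, 0), (7, 0, 0, 0, 0), (46, 0, 0, 0, 0), (47, 0, 0, 0, 0), (7, 0, 0, 0, 0), (45, 0, 0, 0, 0), (53, 0, 0, 0, 0), (52, 0, 0, 0, 0), (54, 0, 0, 0, 0), (52, 0, 0, 0, 0), (50, 0, 0, 0, 0), (49, 0, 0, 0, 0), (54, 0, 0, 0, 0), (49, 0, 0, 0, 0), (54, 0, 0, 0, 0), (50, 0, 0, 0, 0), (50, 0, 0, 0, 0), (51, 0, 0, 0, 0), (53, 0, 0, 0, 0), (51, 0, 0, 0, 0), (53, 0, 0, 0, 0), (50, 0, 0, 0, 0), (52, 0, 0, 0, 0), (51, 0, 0, 0, 0), (52, 0, 0, 0, 0), (49, 0, 0, 0, 0), (12, 0, 0, 0, 0), (55, 0, 0, 0, 0), (13, 0, 0, 0, 0), (55, 0, 0, 0, 0), (13, 0, 0, 0, 0), (12, 0, 0, 0, 0), (10, 0, 0, 0, 0), (9, 0, 0, 0, 0), (13, 0, 0, 0, 0), (9, 0, 0, 0, 0), (13,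 0, 0, 0, 0), (10, 0, 0, 0, 0), (10, 0, 0, 0, 0), (11, 0, 0, 0, 0), (12, 0, 0, 0, 0), (11, 0, 0, 0, 0), (12, 0, 0, 0, 0), (10, 0, 0, 0, 0), (9, 0, 0, 0, 0), (11, 0, 0, 0, 0), (55, 0, 0, 0, 0), (11, 0, 0, 0, 0), (55, 0, 0, 0, 0), (9, 0, 0, 0, 0), (3, 0, 0, 0, 0), (2, 0, 0, 0, 0), (4, 0, 0, 0, 0), (2, 0, 0, 0, 0), (4, 0, 0, 0, 0), (3, 0, 0, 0, 0), (1, 0, 0, 0, 0), (0, 0, 0, 0, 0), (4, 0, 0, 0, 0), (0, 0, 0, 0, 0), (4, 0, 0, 0, 0), (1, 0, 0, 0, 0), (1, 0, 0, 0, 0), (40, 0, 0, 0, 0), (3, 0, 0, 0, 0), (40, 0, 0, 0, 0), (3, 0, 0, 0, 0), (1, 0, 0, 0, 0), (0, 0, 0, 0, 0), (40, 0, 0, 0, 0), (2, 0, 0, 0, 0), (40, 0, 0, 0, 0), (2, 0, 0, 0, 0), (0, 0, 0, 0, 0), (58, 0, 0, 0, 0), (15, 0, 0, 0, 0), (59, 0, 0, 0, 0), (57, 0, 0, 0, 0), (56, 0, 0, 0, 0), (59, 0, 0, 0,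 0), (56, 0, 0, 0, 0), (59, 0, 0, 0, 0), (57, 0, 0, 0, 0), (58, 0, 0, 0, 0), (14, 0, 0, 0, 0), (57, 0, 0, 0, 0), (56, 0, 0, 0, 0), (15, 0, 0, 0, 0), (14, 0, 0, 0, 0), (56, 0, 0, 0, 0), (62, 0, 0, 0, 0), (17, 0, 0, 0, 0), (63, 0, 0, 0, 0), (61, 0, 0, 0, 0), (60, 0, 0, 0, 0), (63, 0, 0, 0, 0), (60, 0, 0, 0, 0), (63, 0, 0, 0, 0), (61, 0, 0, 0, 0), (62, 0, 0, 0, 0), (16, 0, 0, 0, 0), (61, 0, 0, 0, 0), (60, 0, 0, 0, 0), (17, 0, 0, 0, 0), (16, 0, 0, 0, 0), (60, 0, 0, 0, 0), (21, 0, 0, 0, 0), (64, 0, 0, 0, 0), (22, 0, 0, 0, 0), (64, 0, 0, 0, 0), (22, 0, 0, 0, 0), (21, 0, 0, 0, 0), (19, 0, 0, 0, 0), (18, 0, 0, 0, 0), (22, 0, 0, 0, 0), (18, 0, 0, 0, 0), (22, 0, 0, 0, 0), (19, 0, 0, 0, 0), (19, 0, 0, 0, 0), (20, 0, 0, 0, 0), (21, 0, 0, 0, 0), (20, 0, 0, 0, 0), (21,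 0, 0, 0, 0), (19, 0, 0, 0, 0), (18, 0, 0, 0, 0), (20, 0, 0, 0, 0), (64, 0, 0, 0, 0), (20, 0, 0, 0, 0), (64, 0, 0, 0, 0), (18, 0, 0, 0, 0), (69, 0, 0, 0, 0), (68, 0, 0, 0, 0), (70, 0, 0, 0, 0), (68, 0, 0, 0, 0), (66, 0, 0, 0, 0), (65, 0, 0, 0, 0), (70, 0, 0, 0, 0), (65, 0, 0, 0, 0), (70, 0, 0, 0, 0), (66, 0, 0, 0, 0), (66, 0, 0, 0, 0), (67, 0, 0, 0, 0), (69, 0, 0, 0, 0), (67, 0, 0, 0, 0), (69, 0, 0, 0, 0), (66, 0, 0, 0, 0), (68, 0, 0, 0, 0), (67, 0, 0, 0, 0), (68, 0, 0, 0, 0), (65, 0, 0, 0, 0), (6, 0, 0, 0, 0), (43, 0, 0, 0, 0), (43, 0, 0, 0, 0), (42, 0, 0, 0, 0), (41, 0, 0, 0, 0), (44, 0, 0, 0, 0), (41, 0, 0, 0, 0), (44, 0, 0, 0, 0), (42, 0, 0, 0, 0), (5, 0, 0, 0, 0), (6, 0, 0, 0, 0), (5, 0, 0, 0, 0), (6, 0, 0, 0, 0), (43, 0, 0, 0, 0), (5, 0, 0, 0, 0),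 (43, 0, 0, 0, 0), (58, 0, 0, 0, 0), (15, 0, 0, 0, 0), (58, 0, 0, 0, 0), (57, 0, 0, 0, 0), (56, 0, 0, 0, 0), (59, 0, 0, 0, 0), (56, 0, 0, 0, 0), (59, 0, 0, 0, 0), (57, 0, 0, 0, 0), (58, 0, 0, 0, 0), (14, 0, 0, 0, 0), (58, 0, 0, 0, 0), (14, 0, 0, 0, 0), (15, 0, 0, 0, 0), (14, 0, 0, 0, 0), (15, 0, 0, 0, 0), (72, 0, 0, 0, 0), (25, 0, 0, 0, 0), (26, 0, 0, 0, 0), (72, 0, 0, 0, 0), (23, 0, 0, 0, 0), (71, 0, 0, 0, 0), (26, 0, 0, 0, 0), (71, 0, 0, 0, 0), (72, 0, 0, 0, 0), (24, 0, 0, 0, 0), (72, 0, 0, 0, 0), (23, 0, 0, 0, 0), (71, 0, 0, 0, 0), (24, 0, 0, 0, 0), (25, 0, 0, 0, 0), (71, 0, 0, 0, 0), (27, 0, 0, 0, 0), (28, 0, 0, 0, 0), (27, 0, 0, 0, 0), (28, 0, 0, 0, 0), (76, 0, 0, 0, 0), (28, 0, 0, 0, 0), (76, 0, 0, 0, 0), (73, 0, 0, 0, 0), (74, 0, 0, 0, 0), (75,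 0, 0, 0, 0), (74, 0, 0, 0, 0), (75, 0, 0, 0, 0), (73, 0, 0, 0, 0), (76, 0, 0, 0, 0), (27, 0, 0, 0, 0), (76, 0, 0, 0, 0), (80, 0, 0, 0, 0), (29, 0, 0, 0, 0), (80, 0, 0, 0, 0), (30, 0, 0, 0, 0), (29, 0, 0, 0, 0), (30, 0, 0, 0, 0), (29, 0, 0, 0, 0), (77, 0, 0, 0, 0), (78, 0, 0, 0, 0), (79, 0, 0, 0, 0), (78, 0, 0, 0, 0), (79, 0, 0, 0, 0), (77, 0, 0, 0, 0), (80, 0, 0, 0, 0), (80, 0, 0, 0, 0), (30, 0, 0, 0, 0), (8, 0, 0, 0, 0), (47, 0, 0, 0, 0), (47, 0, 0, 0, 0), (46, 0, 0, 0, 0), (45, 0, 0, 0, 0), (48, 0, 0, 0, 0), (45, 0, 0, 0, 0), (48, 0, 0, 0, 0), (46, 0, 0, 0, 0), (7, 0, 0, 0, 0), (8, 0, 0, 0, 0), (7, 0, 0, 0, 0), (8, 0, 0, 0, 0), (47, 0, 0, 0, 0), (7, 0, 0, 0, 0), (47, 0, 0, 0, 0), (62, 0, 0, 0, 0), (17, 0, 0, 0, 0), (62, 0, 0, 0, 0), (61, 0, 0, 0, 0),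 (60, 0, 0, 0, 0), (63, 0, 0, 0, 0), (60, 0, 0, 0, 0), (63, 0, 0, 0, 0), (61, 0, 0, 0, 0), (62, 0, 0, 0, 0), (16, 0, 0, 0, 0), (62, 0, 0, 0, 0), (16, 0, 0, 0, 0), (17, 0, 0, 0, 0), (16, 0, 0, 0, 0), (17, 0, 0, 0, 0), (72, 0, 0, 0, 0), (25, 0, 0, 0, 0), (26, 0, 0, 0, 0), (72, 0, 0, 0, 0), (23, 0, 0, 0, 0), (71, 0, 0, 0, 0), (26, 0, 0, 0, 0), (71, 0, 0, 0, 0), (72, 0, 0, 0, 0), (24, 0, 0, 0, 0), (72, 0, 0, 0, 0), (23, 0, 0, 0, 0), (71, 0, 0, 0, 0), (24, 0, 0, 0, 0), (25, 0, 0, 0, 0), (71, 0, 0, 0, 0), (31, 0, 0, 0, 0), (32, 0, 0, 0, 0), (31, 0, 0, 0, 0), (32, 0, 0, 0, 0), (84, 0, 0, 0, 0), (32, 0, 0, 0, 0), (84, 0, 0, 0, 0), (81, 0, 0, 0, 0), (82, 0, 0, 0, 0), (83, 0, 0, 0, 0), (82, 0, 0, 0, 0), (83, 0, 0, 0, 0), (81, 0, 0, 0, 0), (84, 0, 0, 0, 0), (31,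 0, 0, 0, 0), (84, 0, 0, 0, 0), (88, 0, 0, 0, 0), (33, 0, 0, 0, 0), (88, 0, 0, 0, 0), (34, 0, 0, 0, 0), (33, 0, 0, 0, 0), (34, 0, 0, 0, 0), (33, 0, 0, 0, 0), (85, 0, 0, 0, 0), (86, 0, 0, 0, 0), (87, 0, 0, 0, 0), (86, 0, 0, 0, 0), (87, 0, 0, 0, 0), (85, 0, 0, 0, 0), (88, 0, 0, 0, 0), (88, 0, 0, 0, 0), (34, 0, 0, 0, 0), (53, 0, 0, 0, 0), (52, 0, 0, 0, 0), (54, 0, 0, 0, 0), (52, 0, 0, 0, 0), (50, 0, 0, 0, 0), (49, 0, 0, 0, 0), (54, 0, 0, 0, 0), (49, 0, 0, 0, 0), (54, 0, 0, 0, 0), (50, 0, 0, 0, 0), (50, 0, 0, 0, 0), (51, 0, 0, 0, 0), (53, 0, 0, 0, 0), (51, 0, 0, 0, 0), (53, 0, 0, 0, 0), (50, 0, 0, 0, 0), (52, 0, 0, 0, 0), (51, 0, 0, 0, 0), (52, 0, 0, 0, 0), (49, 0, 0, 0, 0), (21, 0, 0, 0, 0), (64, 0, 0, 0, 0), (22, 0, 0, 0, 0), (64, 0, 0, 0, 0), (22, 0, 0,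 0, 0), (21, 0, 0, 0, 0), (19, 0, 0, 0, 0), (18, 0, 0, 0, 0), (22, 0, 0, 0, 0), (18, 0, 0, 0, 0), (22, 0, 0, 0, 0), (19, 0, 0, 0, 0), (19, 0, 0, 0, 0), (20, 0, 0, 0, 0), (21, 0, 0, 0, 0), (20, 0, 0, 0, 0), (21, 0, 0, 0, 0), (19, 0, 0, 0, 0), (18, 0, 0, 0, 0), (20, 0, 0, 0, 0), (64, 0, 0, 0, 0), (20, 0, 0, 0, 0), (64, 0, 0, 0, 0), (18, 0, 0, 0, 0), (75, 0, 0, 0, 0), (28, 0, 0, 0, 0), (27, 0, 0, 0, 0), (75, 0, 0, 0, 0), (73, 0, 0, 0, 0), (28, 0, 0, 0, 0), (76, 0, 0, 0, 0), (73, 0, 0, 0, 0), (74, 0, 0, 0, 0), (75, 0, 0, 0, 0), (74, 0, 0, 0, 0), (75, 0, 0, 0, 0), (73, 0, 0, 0, 0), (74, 0, 0, 0, 0), (27, 0, 0, 0, 0), (76, 0, 0, 0, 0), (83, 0, 0, 0, 0), (32, 0, 0, 0, 0), (31, 0, 0, 0, 0), (83, 0, 0, 0, 0), (81, 0, 0, 0, 0), (32, 0, 0, 0, 0), (84, 0, 0, 0, 0),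 (81, 0, 0, 0, 0), (82, 0, 0, 0, 0), (83, 0, 0, 0, 0), (82, 0, 0, 0, 0), (83, 0, 0, 0, 0), (81, 0, 0, 0, 0), (82, 0, 0, 0, 0), (31, 0, 0, 0, 0), (84, 0, 0, 0, 0), (39, 0, 0, 0, 0), (38, 0, 0, 0, 0), (89, 0, 0, 0, 0), (38, 0, 0, 0, 0), (89, 0, 0, 0, 0), (39, 0, 0, 0, 0), (36, 0, 0, 0, 0), (35, 0, 0, 0, 0), (89, 0, 0, 0, 0), (35, 0, 0, 0, 0), (89, 0, 0, 0, 0), (36, 0, 0, 0, 0), (36, 0, 0, 0, 0), (37, 0, 0, 0, 0), (39, 0, 0, 0, 0), (37, 0, 0, 0, 0), (39, 0, 0, 0, 0), (36, 0, 0, 0, 0), (35, 0, 0, 0, 0), (37, 0, 0, 0, 0), (38, 0, 0, 0, 0), (37, 0, 0, 0, 0), (38, 0, 0, 0, 0), (35, 0, 0, 0, 0), (12, 0, 0, 0, 0), (55, 0, 0, 0, 0), (13, 0, 0, 0, 0), (55, 0, 0, 0, 0), (13, 0, 0, 0, 0), (12, 0, 0, 0, 0), (10, 0, 0, 0, 0), (9, 0, 0, 0, 0), (13, 0, 0, 0, 0), (9, 0,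 0, 0, 0), (13, 0, 0, 0, 0), (10, 0, 0, 0, 0), (10, 0, 0, 0, 0), (11, 0, 0, 0, 0), (12, 0, 0, 0, 0), (11, 0, 0, 0, 0), (12, 0, 0, 0, 0), (10, 0, 0, 0, 0), (9, 0, 0, 0, 0), (11, 0, 0, 0, 0), (55, 0, 0, 0, 0), (11, 0, 0, 0, 0), (55, 0, 0, 0, 0), (9, 0, 0, 0, 0), (69, 0, 0, 0, 0), (68, 0, 0, 0, 0), (70, 0, 0, 0, 0), (68, 0, 0, 0, 0), (66, 0, 0, 0, 0), (65, 0, 0, 0, 0), (70, 0, 0, 0, 0), (65, 0, 0, 0, 0), (70, 0, 0, 0, 0), (66, 0, 0, 0, 0), (66, 0, 0, 0, 0), (67, 0, 0, 0, 0), (69, 0, 0, 0, 0), (67, 0, 0, 0, 0), (69, 0, 0, 0, 0), (66, 0, 0, 0, 0), (68, 0, 0, 0, 0), (67, 0, 0, 0, 0), (68, 0, 0, 0, 0), (65, 0, 0, 0, 0), (79, 0, 0, 0, 0), (29, 0, 0, 0, 0), (80, 0, 0, 0, 0), (77, 0, 0, 0, 0), (29, 0, 0, 0, 0), (30, 0, 0, 0, 0), (77, 0, 0, 0, 0), (77, 0, 0, 0, 0),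 (78, 0, 0, 0, 0), (79, 0, 0, 0, 0), (78, 0, 0, 0, 0), (79, 0, 0, 0, 0), (77, 0, 0, 0, 0), (78, 0, 0, 0, 0), (80, 0, 0, 0, 0), (30, 0, 0, 0, 0), (87, 0, 0, 0, 0), (33, 0, 0, 0, 0), (88, 0, 0, 0, 0), (85, 0, 0, 0, 0), (33, 0, 0, 0, 0), (34, 0, 0, 0, 0), (85, 0, 0, 0, 0), (85, 0, 0, 0, 0), (86, 0, 0, 0, 0), (87, 0, 0, 0, 0), (86, 0, 0, 0, 0), (87, 0, 0, 0, 0), (85, 0, 0, 0, 0), (86, 0, 0, 0, 0), (88, 0, 0, 0, 0), (34, 0, 0, 0, 0), (39, 0, 0, 0, 0), (38, 0, 0, 0, 0), (89, 0, 0, 0, 0), (38, 0, 0, 0, 0), (89, 0, 0, 0, 0), (39, 0, 0, 0, 0), (36, 0, 0, 0, 0), (35, 0, 0, 0, 0), (89, 0, 0, 0, 0), (35, 0, 0, 0, 0), (89, 0, 0, 0, 0), (36, 0, 0, 0, 0), (36, 0, 0, 0, 0), (37, 0, 0, 0, 0), (39, 0, 0, 0, 0), (37, 0, 0, 0, 0), (39, 0, 0, 0, 0), (36, 0, 0, 0, 0), (35,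 0, 0, 0, 0), (37, 0, 0, 0, 0), (38, 0, 0, 0, 0), (37, 0, 0, 0, 0), (38, 0, 0, 0, 0), (35, 0, 0, 0, 0)],
  [(74, 0, 0, 0, 0), (78, 0, 0, 0, 0), (24, 0, 0, 0, 0), (78, 0, 0, 0, 0), (24, 0, 0, 0, 0), (74, 0, 0, 0, 0), (82, 0, 0, 0, 0), (86, 0, 0, 0, 0), (24, 0, 0, 0, 0), (86, 0, 0, 0, 0), (24, 0, 0, 0, 0), (82, 0, 0, 0, 0), (82, 0, 0, 0, 0), (37, 0, 0, 0, 0), (74, 0, 0, 0, 0), (37, 0, 0, 0, 0), (74, 0, 0, 0, 0), (82, 0, 0, 0, 0), (86, 0, 0, 0, 0), (37, 0, 0, 0, 0), (78, 0, 0, 0, 0), (37, 0, 0, 0, 0), (78, 0, 0, 0, 0), (86, 0, 0, 0, 0), (20, 0, 0, 0, 0), (67, 0, 0, 0, 0), (16, 0, 0, 0, 0), (84, 0, 0, 0, 0), (34, 0, 0, 0, 0), (16, 0, 0, 0, 0), (34, 0, 0, 0, 0), (16, 0, 0, 0, 0), (84, 0, 0, 0, 0), (84, 0, 0, 0, 0), (20, 0, 0, 0, 0), (35, 0, 0, 0, 0), (84, 0,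 0, 0, 0), (67, 0, 0, 0, 0), (35, 0, 0, 0, 0), (34, 0, 0, 0, 0), (18, 0, 0, 0, 0), (65, 0, 0, 0, 0), (14, 0, 0, 0, 0), (76, 0, 0, 0, 0), (30, 0, 0, 0, 0), (14, 0, 0, 0, 0), (30, 0, 0, 0, 0), (14, 0, 0, 0, 0), (76, 0, 0, 0, 0), (76, 0, 0, 0, 0), (18, 0, 0, 0, 0), (36, 0, 0, 0, 0), (76, 0, 0, 0, 0), (65, 0, 0, 0, 0), (36, 0, 0, 0, 0), (30, 0, 0, 0, 0), (60, 0, 0, 0, 0), (66, 0, 0, 0, 0), (56, 0, 0, 0, 0), (66, 0, 0, 0, 0), (71, 0, 0, 0, 0), (77, 0, 0, 0, 0), (56, 0, 0, 0, 0), (77, 0, 0, 0, 0), (56, 0, 0, 0, 0), (71, 0, 0, 0, 0), (71, 0, 0, 0, 0), (85, 0, 0, 0, 0), (60, 0, 0, 0, 0), (85, 0, 0, 0, 0), (60, 0, 0, 0, 0), (71, 0, 0, 0, 0), (66, 0, 0, 0, 0), (85, 0, 0, 0, 0), (66, 0, 0, 0, 0), (77, 0, 0, 0, 0), (61, 0, 0, 0, 0), (19, 0, 0, 0, 0), (57, 0, 0, 0,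 0), (19, 0, 0, 0, 0), (57, 0, 0, 0, 0), (61, 0, 0, 0, 0), (23, 0, 0, 0, 0), (73, 0, 0, 0, 0), (57, 0, 0, 0, 0), (73, 0, 0, 0, 0), (57, 0, 0, 0, 0), (23, 0, 0, 0, 0), (23, 0, 0, 0, 0), (81, 0, 0, 0, 0), (61, 0, 0, 0, 0), (81, 0, 0, 0, 0), (61, 0, 0, 0, 0), (23, 0, 0, 0, 0), (73, 0, 0, 0, 0), (81, 0, 0, 0, 0), (19, 0, 0, 0, 0), (81, 0, 0, 0, 0), (19, 0, 0, 0, 0), (73, 0, 0, 0, 0), (74, 0, 0, 0, 0), (78, 0, 0, 0, 0), (24, 0, 0, 0, 0), (78, 0, 0, 0, 0), (24, 0, 0, 0, 0), (74, 0, 0, 0, 0), (82, 0, 0, 0, 0), (86, 0, 0, 0, 0), (24, 0, 0, 0, 0), (86, 0, 0, 0, 0), (24, 0, 0, 0, 0), (82, 0, 0, 0, 0), (82, 0, 0, 0, 0), (37, 0, 0, 0, 0), (74, 0, 0, 0, 0), (37, 0, 0, 0, 0), (74, 0, 0, 0, 0), (82, 0, 0, 0, 0), (86, 0, 0, 0, 0), (37, 0, 0, 0, 0), (78, 0, 0, 0, 0), (37,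 0, 0, 0, 0), (78, 0, 0, 0, 0), (86, 0, 0, 0, 0), (51, 0, 0, 0, 0), (11, 0, 0, 0, 0), (7, 0, 0, 0, 0), (31, 0, 0, 0, 0), (88, 0, 0, 0, 0), (7, 0, 0, 0, 0), (88, 0, 0, 0, 0), (7, 0, 0, 0, 0), (31, 0, 0, 0, 0), (51, 0, 0, 0, 0), (38, 0, 0, 0, 0), (31, 0, 0, 0, 0), (88, 0, 0, 0, 0), (11, 0, 0, 0, 0), (38, 0, 0, 0, 0), (88, 0, 0, 0, 0), (49, 0, 0, 0, 0), (9, 0, 0, 0, 0), (5, 0, 0, 0, 0), (27, 0, 0, 0, 0), (80, 0, 0, 0, 0), (5, 0, 0, 0, 0), (80, 0, 0, 0, 0), (5, 0, 0, 0, 0), (27, 0, 0, 0, 0), (49, 0, 0, 0, 0), (39, 0, 0, 0, 0), (27, 0, 0, 0, 0), (80, 0, 0, 0, 0), (9, 0, 0, 0, 0), (39, 0, 0, 0, 0), (80, 0, 0, 0, 0), (45, 0, 0, 0, 0), (10, 0, 0, 0, 0), (41, 0, 0, 0, 0), (10, 0, 0, 0, 0), (41, 0, 0, 0, 0), (45, 0, 0, 0, 0), (25, 0, 0, 0, 0), (79, 0, 0, 0, 0),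 (41, 0, 0, 0, 0), (79, 0, 0, 0, 0), (41, 0, 0, 0, 0), (25, 0, 0, 0, 0), (25, 0, 0, 0, 0), (87, 0, 0, 0, 0), (45, 0, 0, 0, 0), (87, 0, 0, 0, 0), (45, 0, 0, 0, 0), (25, 0, 0, 0, 0), (79, 0, 0, 0, 0), (87, 0, 0, 0, 0), (10, 0, 0, 0, 0), (87, 0, 0, 0, 0), (10, 0, 0, 0, 0), (79, 0, 0, 0, 0), (46, 0, 0, 0, 0), (50, 0, 0, 0, 0), (42, 0, 0, 0, 0), (50, 0, 0, 0, 0), (72, 0, 0, 0, 0), (75, 0, 0, 0, 0), (42, 0, 0, 0, 0), (75, 0, 0, 0, 0), (42, 0, 0, 0, 0), (72, 0, 0, 0, 0), (72, 0, 0, 0, 0), (83, 0, 0, 0, 0), (46, 0, 0, 0, 0), (83, 0, 0, 0, 0), (46, 0, 0, 0, 0), (72, 0, 0, 0, 0), (50, 0, 0, 0, 0), (83, 0, 0, 0, 0), (50, 0, 0, 0, 0), (75, 0, 0, 0, 0), (20, 0, 0, 0, 0), (67, 0, 0, 0, 0), (67, 0, 0, 0, 0), (84, 0, 0, 0, 0), (34, 0, 0, 0, 0), (16, 0, 0, 0, 0), (34,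 0, 0, 0, 0), (16, 0, 0, 0, 0), (84, 0, 0, 0, 0), (35, 0, 0, 0, 0), (20, 0, 0, 0, 0), (35, 0, 0, 0, 0), (20, 0, 0, 0, 0), (67, 0, 0, 0, 0), (35, 0, 0, 0, 0), (67, 0, 0, 0, 0), (51, 0, 0, 0, 0), (11, 0, 0, 0, 0), (51, 0, 0, 0, 0), (31, 0, 0, 0, 0), (88, 0, 0, 0, 0), (7, 0, 0, 0, 0), (88, 0, 0, 0, 0), (7, 0, 0, 0, 0), (31, 0, 0, 0, 0), (51, 0, 0, 0, 0), (38, 0, 0, 0, 0), (51, 0, 0, 0, 0), (38, 0, 0, 0, 0), (11, 0, 0, 0, 0), (38, 0, 0, 0, 0), (11, 0, 0, 0, 0), (52, 0, 0, 0, 0), (55, 0, 0, 0, 0), (40, 0, 0, 0, 0), (52, 0, 0, 0, 0), (64, 0, 0, 0, 0), (68, 0, 0, 0, 0), (40, 0, 0, 0, 0), (68, 0, 0, 0, 0), (52, 0, 0, 0, 0), (89, 0, 0, 0, 0), (52, 0, 0, 0, 0), (64, 0, 0, 0, 0), (68, 0, 0, 0, 0), (89, 0, 0, 0, 0), (55, 0, 0, 0, 0), (68, 0, 0, 0, 0), (12, 0, 0, 0,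 0), (0, 0, 0, 0, 0), (12, 0, 0, 0, 0), (0, 0, 0, 0, 0), (69, 0, 0, 0, 0), (0, 0, 0, 0, 0), (69, 0, 0, 0, 0), (17, 0, 0, 0, 0), (33, 0, 0, 0, 0), (47, 0, 0, 0, 0), (33, 0, 0, 0, 0), (47, 0, 0, 0, 0), (17, 0, 0, 0, 0), (69, 0, 0, 0, 0), (12, 0, 0, 0, 0), (69, 0, 0, 0, 0), (53, 0, 0, 0, 0), (1, 0, 0, 0, 0), (53, 0, 0, 0, 0), (21, 0, 0, 0, 0), (1, 0, 0, 0, 0), (21, 0, 0, 0, 0), (1, 0, 0, 0, 0), (62, 0, 0, 0, 0), (32, 0, 0, 0, 0), (8, 0, 0, 0, 0), (32, 0, 0, 0, 0), (8, 0, 0, 0, 0), (62, 0, 0, 0, 0), (53, 0, 0, 0, 0), (53, 0, 0, 0, 0), (21, 0, 0, 0, 0), (18, 0, 0, 0, 0), (65, 0, 0, 0, 0), (65, 0, 0, 0, 0), (76, 0, 0, 0, 0), (30, 0, 0, 0, 0), (14, 0, 0, 0, 0), (30, 0, 0, 0, 0), (14, 0, 0, 0, 0), (76, 0, 0, 0, 0), (36, 0, 0, 0, 0), (18, 0, 0, 0, 0), (36, 0, 0,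 0, 0), (18, 0, 0, 0, 0), (65, 0, 0, 0, 0), (36, 0, 0, 0, 0), (65, 0, 0, 0, 0), (49, 0, 0, 0, 0), (9, 0, 0, 0, 0), (49, 0, 0, 0, 0), (27, 0, 0, 0, 0), (80, 0, 0, 0, 0), (5, 0, 0, 0, 0), (80, 0, 0, 0, 0), (5, 0, 0, 0, 0), (27, 0, 0, 0, 0), (49, 0, 0, 0, 0), (39, 0, 0, 0, 0), (49, 0, 0, 0, 0), (39, 0, 0, 0, 0), (9, 0, 0, 0, 0), (39, 0, 0, 0, 0), (9, 0, 0, 0, 0), (52, 0, 0, 0, 0), (55, 0, 0, 0, 0), (40, 0, 0, 0, 0), (52, 0, 0, 0, 0), (64, 0, 0, 0, 0), (68, 0, 0, 0, 0), (40, 0, 0, 0, 0), (68, 0, 0, 0, 0), (52, 0, 0, 0, 0), (89, 0, 0, 0, 0), (52, 0, 0, 0, 0), (64, 0, 0, 0, 0), (68, 0, 0, 0, 0), (89, 0, 0, 0, 0), (55, 0, 0, 0, 0), (68, 0, 0, 0, 0), (13, 0, 0, 0, 0), (2, 0, 0, 0, 0), (13, 0, 0, 0, 0), (2, 0, 0, 0, 0), (70, 0, 0, 0, 0), (2, 0, 0, 0, 0), (70, 0,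 0, 0, 0), (15, 0, 0, 0, 0), (29, 0, 0, 0, 0), (43, 0, 0, 0, 0), (29, 0, 0, 0, 0), (43, 0, 0, 0, 0), (15, 0, 0, 0, 0), (70, 0, 0, 0, 0), (13, 0, 0, 0, 0), (70, 0, 0, 0, 0), (54, 0, 0, 0, 0), (3, 0, 0, 0, 0), (54, 0, 0, 0, 0), (22, 0, 0, 0, 0), (3, 0, 0, 0, 0), (22, 0, 0, 0, 0), (3, 0, 0, 0, 0), (58, 0, 0, 0, 0), (28, 0, 0, 0, 0), (6, 0, 0, 0, 0), (28, 0, 0, 0, 0), (6, 0, 0, 0, 0), (58, 0, 0, 0, 0), (54, 0, 0, 0, 0), (54, 0, 0, 0, 0), (22, 0, 0, 0, 0), (60, 0, 0, 0, 0), (66, 0, 0, 0, 0), (56, 0, 0, 0, 0), (66, 0, 0, 0, 0), (71, 0, 0, 0, 0), (77, 0, 0, 0, 0), (56, 0, 0, 0, 0), (77, 0, 0, 0, 0), (56, 0, 0, 0, 0), (71, 0, 0, 0, 0), (71, 0, 0, 0, 0), (85, 0, 0, 0, 0), (60, 0, 0, 0, 0), (85, 0, 0, 0, 0), (60, 0, 0, 0, 0), (71, 0, 0, 0, 0), (66, 0, 0, 0, 0),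 (85, 0, 0, 0, 0), (66, 0, 0, 0, 0), (77, 0, 0, 0, 0), (45, 0, 0, 0, 0), (10, 0, 0, 0, 0), (41, 0, 0, 0, 0), (10, 0, 0, 0, 0), (41, 0, 0, 0, 0), (45, 0, 0, 0, 0), (25, 0, 0, 0, 0), (79, 0, 0, 0, 0), (41, 0, 0, 0, 0), (79, 0, 0, 0, 0), (41, 0, 0, 0, 0), (25, 0, 0, 0, 0), (25, 0, 0, 0, 0), (87, 0, 0, 0, 0), (45, 0, 0, 0, 0), (87, 0, 0, 0, 0), (45, 0, 0, 0, 0), (25, 0, 0, 0, 0), (79, 0, 0, 0, 0), (87, 0, 0, 0, 0), (10, 0, 0, 0, 0), (87, 0, 0, 0, 0), (10, 0, 0, 0, 0), (79, 0, 0, 0, 0), (47, 0, 0, 0, 0), (0, 0, 0, 0, 0), (12, 0, 0, 0, 0), (47, 0, 0, 0, 0), (17, 0, 0, 0, 0), (0, 0, 0, 0, 0), (69, 0, 0, 0, 0), (17, 0, 0, 0, 0), (33, 0, 0, 0, 0), (47, 0, 0, 0, 0), (33, 0, 0, 0, 0), (47, 0, 0, 0, 0), (17, 0, 0, 0, 0), (33, 0, 0, 0, 0), (12, 0, 0, 0, 0), (69, 0,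 0, 0, 0), (43, 0, 0, 0, 0), (2, 0, 0, 0, 0), (13, 0, 0, 0, 0), (43, 0, 0, 0, 0), (15, 0, 0, 0, 0), (2, 0, 0, 0, 0), (70, 0, 0, 0, 0), (15, 0, 0, 0, 0), (29, 0, 0, 0, 0), (43, 0, 0, 0, 0), (29, 0, 0, 0, 0), (43, 0, 0, 0, 0), (15, 0, 0, 0, 0), (29, 0, 0, 0, 0), (13, 0, 0, 0, 0), (70, 0, 0, 0, 0), (44, 0, 0, 0, 0), (48, 0, 0, 0, 0), (4, 0, 0, 0, 0), (48, 0, 0, 0, 0), (4, 0, 0, 0, 0), (44, 0, 0, 0, 0), (59, 0, 0, 0, 0), (63, 0, 0, 0, 0), (4, 0, 0, 0, 0), (63, 0, 0, 0, 0), (4, 0, 0, 0, 0), (59, 0, 0, 0, 0), (59, 0, 0, 0, 0), (26, 0, 0, 0, 0), (44, 0, 0, 0, 0), (26, 0, 0, 0, 0), (44, 0, 0, 0, 0), (59, 0, 0, 0, 0), (63, 0, 0, 0, 0), (26, 0, 0, 0, 0), (48, 0, 0, 0, 0), (26, 0, 0, 0, 0), (48, 0, 0, 0, 0), (63, 0, 0, 0, 0), (61, 0, 0, 0, 0), (19, 0, 0, 0, 0), (57,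 0, 0, 0, 0), (19, 0, 0, 0, 0), (57, 0, 0, 0, 0), (61, 0, 0, 0, 0), (23, 0, 0, 0, 0), (73, 0, 0, 0, 0), (57, 0, 0, 0, 0), (73, 0, 0, 0, 0), (57, 0, 0, 0, 0), (23, 0, 0, 0, 0), (23, 0, 0, 0, 0), (81, 0, 0, 0, 0), (61, 0, 0, 0, 0), (81, 0, 0, 0, 0), (61, 0, 0, 0, 0), (23, 0, 0, 0, 0), (73, 0, 0, 0, 0), (81, 0, 0, 0, 0), (19, 0, 0, 0, 0), (81, 0, 0, 0, 0), (19, 0, 0, 0, 0), (73, 0, 0, 0, 0), (46, 0, 0, 0, 0), (50, 0, 0, 0, 0), (42, 0, 0, 0, 0), (50, 0, 0, 0, 0), (72, 0, 0, 0, 0), (75, 0, 0, 0, 0), (42, 0, 0, 0, 0), (75, 0, 0, 0, 0), (42, 0, 0, 0, 0), (72, 0, 0, 0, 0), (72, 0, 0, 0, 0), (83, 0, 0, 0, 0), (46, 0, 0, 0, 0), (83, 0, 0, 0, 0), (46, 0, 0, 0, 0), (72, 0, 0, 0, 0), (50, 0, 0, 0, 0), (83, 0, 0, 0, 0), (50, 0, 0, 0, 0), (75, 0, 0, 0, 0), (8, 0, 0,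 0, 0), (1, 0, 0, 0, 0), (53, 0, 0, 0, 0), (62, 0, 0, 0, 0), (1, 0, 0, 0, 0), (21, 0, 0, 0, 0), (62, 0, 0, 0, 0), (62, 0, 0, 0, 0), (32, 0, 0, 0, 0), (8, 0, 0, 0, 0), (32, 0, 0, 0, 0), (8, 0, 0, 0, 0), (62, 0, 0, 0, 0), (32, 0, 0, 0, 0), (53, 0, 0, 0, 0), (21, 0, 0, 0, 0), (6, 0, 0, 0, 0), (3, 0, 0, 0, 0), (54, 0, 0, 0, 0), (58, 0, 0, 0, 0), (3, 0, 0, 0, 0), (22, 0, 0, 0, 0), (58, 0, 0, 0, 0), (58, 0, 0, 0, 0), (28, 0, 0, 0, 0), (6, 0, 0, 0, 0), (28, 0, 0, 0, 0), (6, 0, 0, 0, 0), (58, 0, 0, 0, 0), (28, 0, 0, 0, 0), (54, 0, 0, 0, 0), (22, 0, 0, 0, 0), (44, 0, 0, 0, 0), (48, 0, 0, 0, 0), (4, 0, 0, 0, 0), (48, 0, 0, 0, 0), (4, 0, 0, 0, 0), (44, 0, 0, 0, 0), (59, 0, 0, 0, 0), (63, 0, 0, 0, 0), (4, 0, 0, 0, 0), (63, 0, 0, 0, 0), (4, 0, 0, 0, 0), (59, 0, 0,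 0, 0), (59, 0, 0, 0, 0), (26, 0, 0, 0, 0), (44, 0, 0, 0, 0), (26, 0, 0, 0, 0), (44, 0, 0, 0, 0), (59, 0, 0, 0, 0), (63, 0, 0, 0, 0), (26, 0, 0, 0, 0), (48, 0, 0, 0, 0), (26, 0, 0, 0, 0), (48, 0, 0, 0, 0), (63, 0, 0, 0, 0)],
  [(86, 0, 0, 0, 0), (82, 0, 0, 0, 0), (37, 0, 0, 0, 0), (82, 0, 0, 0, 0), (37, 0, 0, 0, 0), (86, 0, 0, 0, 0), (78, 0, 0, 0, 0), (74, 0, 0, 0, 0), (37, 0, 0, 0, 0), (74, 0, 0, 0, 0), (37, 0, 0, 0, 0), (78, 0, 0, 0, 0), (78, 0, 0, 0, 0), (24, 0, 0, 0, 0), (86, 0, 0, 0, 0), (24, 0, 0, 0, 0), (86, 0, 0, 0, 0), (78, 0, 0, 0, 0), (74, 0, 0, 0, 0), (24, 0, 0, 0, 0), (82, 0, 0, 0, 0), (24, 0, 0, 0, 0), (82, 0, 0, 0, 0), (74, 0, 0, 0, 0), (34, 0, 0, 0, 0), (84, 0, 0, 0, 0), (35, 0, 0, 0, 0), (67, 0, 0, 0, 0), (20, 0, 0, 0, 0), (35, 0, 0, 0,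 0), (20, 0, 0, 0, 0), (35, 0, 0, 0, 0), (67, 0, 0, 0, 0), (67, 0, 0, 0, 0), (34, 0, 0, 0, 0), (16, 0, 0, 0, 0), (67, 0, 0, 0, 0), (84, 0, 0, 0, 0), (16, 0, 0, 0, 0), (20, 0, 0, 0, 0), (30, 0, 0, 0, 0), (76, 0, 0, 0, 0), (36, 0, 0, 0, 0), (65, 0, 0, 0, 0), (18, 0, 0, 0, 0), (36, 0, 0, 0, 0), (18, 0, 0, 0, 0), (36, 0, 0, 0, 0), (65, 0, 0, 0, 0), (65, 0, 0, 0, 0), (30, 0, 0, 0, 0), (14, 0, 0, 0, 0), (65, 0, 0, 0, 0), (76, 0, 0, 0, 0), (14, 0, 0, 0, 0), (18, 0, 0, 0, 0), (77, 0, 0, 0, 0), (71, 0, 0, 0, 0), (85, 0, 0, 0, 0), (71, 0, 0, 0, 0), (66, 0, 0, 0, 0), (60, 0, 0, 0, 0), (85, 0, 0, 0, 0), (60, 0, 0, 0, 0), (85, 0, 0, 0, 0), (66, 0, 0, 0, 0), (66, 0, 0, 0, 0), (56, 0, 0, 0, 0), (77, 0, 0, 0, 0), (56, 0, 0, 0, 0), (77, 0, 0, 0, 0), (66, 0, 0, 0, 0), (71,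 0, 0, 0, 0), (56, 0, 0, 0, 0), (71, 0, 0, 0, 0), (60, 0, 0, 0, 0), (73, 0, 0, 0, 0), (23, 0, 0, 0, 0), (81, 0, 0, 0, 0), (23, 0, 0, 0, 0), (81, 0, 0, 0, 0), (73, 0, 0, 0, 0), (19, 0, 0, 0, 0), (61, 0, 0, 0, 0), (81, 0, 0, 0, 0), (61, 0, 0, 0, 0), (81, 0, 0, 0, 0), (19, 0, 0, 0, 0), (19, 0, 0, 0, 0), (57, 0, 0, 0, 0), (73, 0, 0, 0, 0), (57, 0, 0, 0, 0), (73, 0, 0, 0, 0), (19, 0, 0, 0, 0), (61, 0, 0, 0, 0), (57, 0, 0, 0, 0), (23, 0, 0, 0, 0), (57, 0, 0, 0, 0), (23, 0, 0, 0, 0), (61, 0, 0, 0, 0), (86, 0, 0, 0, 0), (82, 0, 0, 0, 0), (37, 0, 0, 0, 0), (82, 0, 0, 0, 0), (37, 0, 0, 0, 0), (86, 0, 0, 0, 0), (78, 0, 0, 0, 0), (74, 0, 0, 0, 0), (37, 0, 0, 0, 0), (74, 0, 0, 0, 0), (37, 0, 0, 0, 0), (78, 0, 0, 0, 0), (78, 0, 0, 0, 0), (24, 0, 0, 0, 0), (86, 0, 0,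 0, 0), (24, 0, 0, 0, 0), (86, 0, 0, 0, 0), (78, 0, 0, 0, 0), (74, 0, 0, 0, 0), (24, 0, 0, 0, 0), (82, 0, 0, 0, 0), (24, 0, 0, 0, 0), (82, 0, 0, 0, 0), (74, 0, 0, 0, 0), (88, 0, 0, 0, 0), (31, 0, 0, 0, 0), (38, 0, 0, 0, 0), (11, 0, 0, 0, 0), (51, 0, 0, 0, 0), (38, 0, 0, 0, 0), (51, 0, 0, 0, 0), (38, 0, 0, 0, 0), (11, 0, 0, 0, 0), (88, 0, 0, 0, 0), (7, 0, 0, 0, 0), (11, 0, 0, 0, 0), (51, 0, 0, 0, 0), (31, 0, 0, 0, 0), (7, 0, 0, 0, 0), (51, 0, 0, 0, 0), (80, 0, 0, 0, 0), (27, 0, 0, 0, 0), (39, 0, 0, 0, 0), (9, 0, 0, 0, 0), (49, 0, 0, 0, 0), (39, 0, 0, 0, 0), (49, 0, 0, 0, 0), (39, 0, 0, 0, 0), (9, 0, 0, 0, 0), (80, 0, 0, 0, 0), (5, 0, 0, 0, 0), (9, 0, 0, 0, 0), (49, 0, 0, 0, 0), (27, 0, 0, 0, 0), (5, 0, 0, 0, 0), (49, 0, 0, 0, 0), (79, 0, 0, 0, 0), (25,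 0, 0, 0, 0), (87, 0, 0, 0, 0), (25, 0, 0, 0, 0), (87, 0, 0, 0, 0), (79, 0, 0, 0, 0), (10, 0, 0, 0, 0), (45, 0, 0, 0, 0), (87, 0, 0, 0, 0), (45, 0, 0, 0, 0), (87, 0, 0, 0, 0), (10, 0, 0, 0, 0), (10, 0, 0, 0, 0), (41, 0, 0, 0, 0), (79, 0, 0, 0, 0), (41, 0, 0, 0, 0), (79, 0, 0, 0, 0), (10, 0, 0, 0, 0), (45, 0, 0, 0, 0), (41, 0, 0, 0, 0), (25, 0, 0, 0, 0), (41, 0, 0, 0, 0), (25, 0, 0, 0, 0), (45, 0, 0, 0, 0), (75, 0, 0, 0, 0), (72, 0, 0, 0, 0), (83, 0, 0, 0, 0), (72, 0, 0, 0, 0), (50, 0, 0, 0, 0), (46, 0, 0, 0, 0), (83, 0, 0, 0, 0), (46, 0, 0, 0, 0), (83, 0, 0, 0, 0), (50, 0, 0, 0, 0), (50, 0, 0, 0, 0), (42, 0, 0, 0, 0), (75, 0, 0, 0, 0), (42, 0, 0, 0, 0), (75, 0, 0, 0, 0), (50, 0, 0, 0, 0), (72, 0, 0, 0, 0), (42, 0, 0, 0, 0), (72, 0, 0, 0, 0), (46, 0, 0,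 0, 0), (34, 0, 0, 0, 0), (84, 0, 0, 0, 0), (84, 0, 0, 0, 0), (67, 0, 0, 0, 0), (20, 0, 0, 0, 0), (35, 0, 0, 0, 0), (20, 0, 0, 0, 0), (35, 0, 0, 0, 0), (67, 0, 0, 0, 0), (16, 0, 0, 0, 0), (34, 0, 0, 0, 0), (16, 0, 0, 0, 0), (34, 0, 0, 0, 0), (84, 0, 0, 0, 0), (16, 0, 0, 0, 0), (84, 0, 0, 0, 0), (88, 0, 0, 0, 0), (31, 0, 0, 0, 0), (88, 0, 0, 0, 0), (11, 0, 0, 0, 0), (51, 0, 0, 0, 0), (38, 0, 0, 0, 0), (51, 0, 0, 0, 0), (38, 0, 0, 0, 0), (11, 0, 0, 0, 0), (88, 0, 0, 0, 0), (7, 0, 0, 0, 0), (88, 0, 0, 0, 0), (7, 0, 0, 0, 0), (31, 0, 0, 0, 0), (7, 0, 0, 0, 0), (31, 0, 0, 0, 0), (68, 0, 0, 0, 0), (64, 0, 0, 0, 0), (89, 0, 0, 0, 0), (68, 0, 0, 0, 0), (55, 0, 0, 0, 0), (52, 0, 0, 0, 0), (89, 0, 0, 0, 0), (52, 0, 0, 0, 0), (68, 0, 0, 0, 0), (40, 0, 0, 0, 0), (68,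 0, 0, 0, 0), (55, 0, 0, 0, 0), (52, 0, 0, 0, 0), (40, 0, 0, 0, 0), (64, 0, 0, 0, 0), (52, 0, 0, 0, 0), (17, 0, 0, 0, 0), (33, 0, 0, 0, 0), (17, 0, 0, 0, 0), (33, 0, 0, 0, 0), (47, 0, 0, 0, 0), (33, 0, 0, 0, 0), (47, 0, 0, 0, 0), (12, 0, 0, 0, 0), (0, 0, 0, 0, 0), (69, 0, 0, 0, 0), (0, 0, 0, 0, 0), (69, 0, 0, 0, 0), (12, 0, 0, 0, 0), (47, 0, 0, 0, 0), (17, 0, 0, 0, 0), (47, 0, 0, 0, 0), (62, 0, 0, 0, 0), (32, 0, 0, 0, 0), (62, 0, 0, 0, 0), (8, 0, 0, 0, 0), (32, 0, 0, 0, 0), (8, 0, 0, 0, 0), (32, 0, 0, 0, 0), (53, 0, 0, 0, 0), (1, 0, 0, 0, 0), (21, 0, 0, 0, 0), (1, 0, 0, 0, 0), (21, 0, 0, 0, 0), (53, 0, 0, 0, 0), (62, 0, 0, 0, 0), (62, 0, 0, 0, 0), (8, 0, 0, 0, 0), (30, 0, 0, 0, 0), (76, 0, 0, 0, 0), (76, 0, 0, 0, 0), (65, 0, 0, 0, 0), (18, 0, 0, 0, 0),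 (36, 0, 0, 0, 0), (18, 0, 0, 0, 0), (36, 0, 0, 0, 0), (65, 0, 0, 0, 0), (14, 0, 0, 0, 0), (30, 0, 0, 0, 0), (14, 0, 0, 0, 0), (30, 0, 0, 0, 0), (76, 0, 0, 0, 0), (14, 0, 0, 0, 0), (76, 0, 0, 0, 0), (80, 0, 0, 0, 0), (27, 0, 0, 0, 0), (80, 0, 0, 0, 0), (9, 0, 0, 0, 0), (49, 0, 0, 0, 0), (39, 0, 0, 0, 0), (49, 0, 0, 0, 0), (39, 0, 0, 0, 0), (9, 0, 0, 0, 0), (80, 0, 0, 0, 0), (5, 0, 0, 0, 0), (80, 0, 0, 0, 0), (5, 0, 0, 0, 0), (27, 0, 0, 0, 0), (5, 0, 0, 0, 0), (27, 0, 0, 0, 0), (68, 0, 0, 0, 0), (64, 0, 0, 0, 0), (89, 0, 0, 0, 0), (68, 0, 0, 0, 0), (55, 0, 0, 0, 0), (52, 0, 0, 0, 0), (89, 0, 0, 0, 0), (52, 0, 0, 0, 0), (68, 0, 0, 0, 0), (40, 0, 0, 0, 0), (68, 0, 0, 0, 0), (55, 0, 0, 0, 0), (52, 0, 0, 0, 0), (40, 0, 0, 0, 0), (64, 0, 0, 0, 0), (52, 0, 0,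 0, 0), (15, 0, 0, 0, 0), (29, 0, 0, 0, 0), (15, 0, 0, 0, 0), (29, 0, 0, 0, 0), (43, 0, 0, 0, 0), (29, 0, 0, 0, 0), (43, 0, 0, 0, 0), (13, 0, 0, 0, 0), (2, 0, 0, 0, 0), (70, 0, 0, 0, 0), (2, 0, 0, 0, 0), (70, 0, 0, 0, 0), (13, 0, 0, 0, 0), (43, 0, 0, 0, 0), (15, 0, 0, 0, 0), (43, 0, 0, 0, 0), (58, 0, 0, 0, 0), (28, 0, 0, 0, 0), (58, 0, 0, 0, 0), (6, 0, 0, 0, 0), (28, 0, 0, 0, 0), (6, 0, 0, 0, 0), (28, 0, 0, 0, 0), (54, 0, 0, 0, 0), (3, 0, 0, 0, 0), (22, 0, 0, 0, 0), (3, 0, 0, 0, 0), (22, 0, 0, 0, 0), (54, 0, 0, 0, 0), (58, 0, 0, 0, 0), (58, 0, 0, 0, 0), (6, 0, 0, 0, 0), (77, 0, 0, 0, 0), (71, 0, 0, 0, 0), (85, 0, 0, 0, 0), (71, 0, 0, 0, 0), (66, 0, 0, 0, 0), (60, 0, 0, 0, 0), (85, 0, 0, 0, 0), (60, 0, 0, 0, 0), (85, 0, 0, 0, 0), (66, 0, 0, 0, 0), (66,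 0, 0, 0, 0), (56, 0, 0, 0, 0), (77, 0, 0, 0, 0), (56, 0, 0, 0, 0), (77, 0, 0, 0, 0), (66, 0, 0, 0, 0), (71, 0, 0, 0, 0), (56, 0, 0, 0, 0), (71, 0, 0, 0, 0), (60, 0, 0, 0, 0), (79, 0, 0, 0, 0), (25, 0, 0, 0, 0), (87, 0, 0, 0, 0), (25, 0, 0, 0, 0), (87, 0, 0, 0, 0), (79, 0, 0, 0, 0), (10, 0, 0, 0, 0), (45, 0, 0, 0, 0), (87, 0, 0, 0, 0), (45, 0, 0, 0, 0), (87, 0, 0, 0, 0), (10, 0, 0, 0, 0), (10, 0, 0, 0, 0), (41, 0, 0, 0, 0), (79, 0, 0, 0, 0), (41, 0, 0, 0, 0), (79, 0, 0, 0, 0), (10, 0, 0, 0, 0), (45, 0, 0, 0, 0), (41, 0, 0, 0, 0), (25, 0, 0, 0, 0), (41, 0, 0, 0, 0), (25, 0, 0, 0, 0), (45, 0, 0, 0, 0), (69, 0, 0, 0, 0), (33, 0, 0, 0, 0), (17, 0, 0, 0, 0), (69, 0, 0, 0, 0), (12, 0, 0, 0, 0), (33, 0, 0, 0, 0), (47, 0, 0, 0, 0), (12, 0, 0, 0, 0), (0, 0, 0,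 0, 0), (69, 0, 0, 0, 0), (0, 0, 0, 0, 0), (69, 0, 0, 0, 0), (12, 0, 0, 0, 0), (0, 0, 0, 0, 0), (17, 0, 0, 0, 0), (47, 0, 0, 0, 0), (70, 0, 0, 0, 0), (29, 0, 0, 0, 0), (15, 0, 0, 0, 0), (70, 0, 0, 0, 0), (13, 0, 0, 0, 0), (29, 0, 0, 0, 0), (43, 0, 0, 0, 0), (13, 0, 0, 0, 0), (2, 0, 0, 0, 0), (70, 0, 0, 0, 0), (2, 0, 0, 0, 0), (70, 0, 0, 0, 0), (13, 0, 0, 0, 0), (2, 0, 0, 0, 0), (15, 0, 0, 0, 0), (43, 0, 0, 0, 0), (63, 0, 0, 0, 0), (59, 0, 0, 0, 0), (26, 0, 0, 0, 0), (59, 0, 0, 0, 0), (26, 0, 0, 0, 0), (63, 0, 0, 0, 0), (48, 0, 0, 0, 0), (44, 0, 0, 0, 0), (26, 0, 0, 0, 0), (44, 0, 0, 0, 0), (26, 0, 0, 0, 0), (48, 0, 0, 0, 0), (48, 0, 0, 0, 0), (4, 0, 0, 0, 0), (63, 0, 0, 0, 0), (4, 0, 0, 0, 0), (63, 0, 0, 0, 0), (48, 0, 0, 0, 0), (44, 0, 0, 0, 0), (4, 0,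 0, 0, 0), (59, 0, 0, 0, 0), (4, 0, 0, 0, 0), (59, 0, 0, 0, 0), (44, 0, 0, 0, 0), (73, 0, 0, 0, 0), (23, 0, 0, 0, 0), (81, 0, 0, 0, 0), (23, 0, 0, 0, 0), (81, 0, 0, 0, 0), (73, 0, 0, 0, 0), (19, 0, 0, 0, 0), (61, 0, 0, 0, 0), (81, 0, 0, 0, 0), (61, 0, 0, 0, 0), (81, 0, 0, 0, 0), (19, 0, 0, 0, 0), (19, 0, 0, 0, 0), (57, 0, 0, 0, 0), (73, 0, 0, 0, 0), (57, 0, 0, 0, 0), (73, 0, 0, 0, 0), (19, 0, 0, 0, 0), (61, 0, 0, 0, 0), (57, 0, 0, 0, 0), (23, 0, 0, 0, 0), (57, 0, 0, 0, 0), (23, 0, 0, 0, 0), (61, 0, 0, 0, 0), (75, 0, 0, 0, 0), (72, 0, 0, 0, 0), (83, 0, 0, 0, 0), (72, 0, 0, 0, 0), (50, 0, 0, 0, 0), (46, 0, 0, 0, 0), (83, 0, 0, 0, 0), (46, 0, 0, 0, 0), (83, 0, 0, 0, 0), (50, 0, 0, 0, 0), (50, 0, 0, 0, 0), (42, 0, 0, 0, 0), (75, 0, 0, 0, 0), (42, 0, 0, 0,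 0), (75, 0, 0, 0, 0), (50, 0, 0, 0, 0), (72, 0, 0, 0, 0), (42, 0, 0, 0, 0), (72, 0, 0, 0, 0), (46, 0, 0, 0, 0), (21, 0, 0, 0, 0), (32, 0, 0, 0, 0), (62, 0, 0, 0, 0), (53, 0, 0, 0, 0), (32, 0, 0, 0, 0), (8, 0, 0, 0, 0), (53, 0, 0, 0, 0), (53, 0, 0, 0, 0), (1, 0, 0, 0, 0), (21, 0, 0, 0, 0), (1, 0, 0, 0, 0), (21, 0, 0, 0, 0), (53, 0, 0, 0, 0), (1, 0, 0, 0, 0), (62, 0, 0, 0, 0), (8, 0, 0, 0, 0), (22, 0, 0, 0, 0), (28, 0, 0, 0, 0), (58, 0, 0, 0, 0), (54, 0, 0, 0, 0), (28, 0, 0, 0, 0), (6, 0, 0, 0, 0), (54, 0, 0, 0, 0), (54, 0, 0, 0, 0), (3, 0, 0, 0, 0), (22, 0, 0, 0, 0), (3, 0, 0, 0, 0), (22, 0, 0, 0, 0), (54, 0, 0, 0, 0), (3, 0, 0, 0, 0), (58, 0, 0, 0, 0), (6, 0, 0, 0, 0), (63, 0, 0, 0, 0), (59, 0, 0, 0, 0), (26, 0, 0, 0, 0), (59, 0, 0, 0, 0), (26, 0, 0,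 0, 0), (63, 0, 0, 0, 0), (48, 0, 0, 0, 0), (44, 0, 0, 0, 0), (26, 0, 0, 0, 0), (44, 0, 0, 0, 0), (26, 0, 0, 0, 0), (48, 0, 0, 0, 0), (48, 0, 0, 0, 0), (4, 0, 0, 0, 0), (63, 0, 0, 0, 0), (4, 0, 0, 0, 0), (63, 0, 0, 0, 0), (48, 0, 0, 0, 0), (44, 0, 0, 0, 0), (4, 0, 0, 0, 0), (59, 0, 0, 0, 0), (4, 0, 0, 0, 0), (59, 0, 0, 0, 0), (44, 0, 0, 0, 0)],
  [(28, 0, 0, 0, 0), (29, 0, 0, 0, 0), (26, 0, 0, 0, 0), (29, 0, 0, 0, 0), (26, 0, 0, 0, 0), (28, 0, 0, 0, 0), (32, 0, 0, 0, 0), (33, 0, 0, 0, 0), (26, 0, 0, 0, 0), (33, 0, 0, 0, 0), (26, 0, 0, 0, 0), (32, 0, 0, 0, 0), (32, 0, 0, 0, 0), (89, 0, 0, 0, 0), (28, 0, 0, 0, 0), (89, 0, 0, 0, 0), (28, 0, 0, 0, 0), (32, 0, 0, 0, 0), (33, 0, 0, 0, 0), (89, 0, 0, 0, 0), (29, 0, 0, 0, 0), (89, 0, 0, 0, 0), (29, 0, 0, 0, 0),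 (33, 0, 0, 0, 0), (22, 0, 0, 0, 0), (70, 0, 0, 0, 0), (63, 0, 0, 0, 0), (83, 0, 0, 0, 0), (87, 0, 0, 0, 0), (63, 0, 0, 0, 0), (87, 0, 0, 0, 0), (63, 0, 0, 0, 0), (83, 0, 0, 0, 0), (83, 0, 0, 0, 0), (22, 0, 0, 0, 0), (39, 0, 0, 0, 0), (83, 0, 0, 0, 0), (70, 0, 0, 0, 0), (39, 0, 0, 0, 0), (87, 0, 0, 0, 0), (21, 0, 0, 0, 0), (69, 0, 0, 0, 0), (59, 0, 0, 0, 0), (75, 0, 0, 0, 0), (79, 0, 0, 0, 0), (59, 0, 0, 0, 0), (79, 0, 0, 0, 0), (59, 0, 0, 0, 0), (75, 0, 0, 0, 0), (75, 0, 0, 0, 0), (21, 0, 0, 0, 0), (38, 0, 0, 0, 0), (75, 0, 0, 0, 0), (69, 0, 0, 0, 0), (38, 0, 0, 0, 0), (79, 0, 0, 0, 0), (62, 0, 0, 0, 0), (68, 0, 0, 0, 0), (58, 0, 0, 0, 0), (68, 0, 0, 0, 0), (72, 0, 0, 0, 0), (80, 0, 0, 0, 0), (58, 0, 0, 0, 0), (80, 0, 0, 0, 0), (58, 0, 0, 0, 0), (72,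 0, 0, 0, 0), (72, 0, 0, 0, 0), (88, 0, 0, 0, 0), (62, 0, 0, 0, 0), (88, 0, 0, 0, 0), (62, 0, 0, 0, 0), (72, 0, 0, 0, 0), (68, 0, 0, 0, 0), (88, 0, 0, 0, 0), (68, 0, 0, 0, 0), (80, 0, 0, 0, 0), (17, 0, 0, 0, 0), (64, 0, 0, 0, 0), (15, 0, 0, 0, 0), (64, 0, 0, 0, 0), (15, 0, 0, 0, 0), (17, 0, 0, 0, 0), (25, 0, 0, 0, 0), (27, 0, 0, 0, 0), (15, 0, 0, 0, 0), (27, 0, 0, 0, 0), (15, 0, 0, 0, 0), (25, 0, 0, 0, 0), (25, 0, 0, 0, 0), (31, 0, 0, 0, 0), (17, 0, 0, 0, 0), (31, 0, 0, 0, 0), (17, 0, 0, 0, 0), (25, 0, 0, 0, 0), (27, 0, 0, 0, 0), (31, 0, 0, 0, 0), (64, 0, 0, 0, 0), (31, 0, 0, 0, 0), (64, 0, 0, 0, 0), (27, 0, 0, 0, 0), (28, 0, 0, 0, 0), (29, 0, 0, 0, 0), (26, 0, 0, 0, 0), (29, 0, 0, 0, 0), (26, 0, 0, 0, 0), (28, 0, 0, 0, 0), (32, 0, 0, 0, 0), (33, 0, 0,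 0, 0), (26, 0, 0, 0, 0), (33, 0, 0, 0, 0), (26, 0, 0, 0, 0), (32, 0, 0, 0, 0), (32, 0, 0, 0, 0), (89, 0, 0, 0, 0), (28, 0, 0, 0, 0), (89, 0, 0, 0, 0), (28, 0, 0, 0, 0), (32, 0, 0, 0, 0), (33, 0, 0, 0, 0), (89, 0, 0, 0, 0), (29, 0, 0, 0, 0), (89, 0, 0, 0, 0), (29, 0, 0, 0, 0), (33, 0, 0, 0, 0), (54, 0, 0, 0, 0), (13, 0, 0, 0, 0), (48, 0, 0, 0, 0), (81, 0, 0, 0, 0), (85, 0, 0, 0, 0), (48, 0, 0, 0, 0), (85, 0, 0, 0, 0), (48, 0, 0, 0, 0), (81, 0, 0, 0, 0), (54, 0, 0, 0, 0), (36, 0, 0, 0, 0), (81, 0, 0, 0, 0), (85, 0, 0, 0, 0), (13, 0, 0, 0, 0), (36, 0, 0, 0, 0), (85, 0, 0, 0, 0), (53, 0, 0, 0, 0), (12, 0, 0, 0, 0), (44, 0, 0, 0, 0), (73, 0, 0, 0, 0), (77, 0, 0, 0, 0), (44, 0, 0, 0, 0), (77, 0, 0, 0, 0), (44, 0, 0, 0, 0), (73, 0, 0, 0, 0), (53, 0, 0, 0, 0),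 (35, 0, 0, 0, 0), (73, 0, 0, 0, 0), (77, 0, 0, 0, 0), (12, 0, 0, 0, 0), (35, 0, 0, 0, 0), (77, 0, 0, 0, 0), (8, 0, 0, 0, 0), (55, 0, 0, 0, 0), (6, 0, 0, 0, 0), (55, 0, 0, 0, 0), (6, 0, 0, 0, 0), (8, 0, 0, 0, 0), (23, 0, 0, 0, 0), (30, 0, 0, 0, 0), (6, 0, 0, 0, 0), (30, 0, 0, 0, 0), (6, 0, 0, 0, 0), (23, 0, 0, 0, 0), (23, 0, 0, 0, 0), (34, 0, 0, 0, 0), (8, 0, 0, 0, 0), (34, 0, 0, 0, 0), (8, 0, 0, 0, 0), (23, 0, 0, 0, 0), (30, 0, 0, 0, 0), (34, 0, 0, 0, 0), (55, 0, 0, 0, 0), (34, 0, 0, 0, 0), (55, 0, 0, 0, 0), (30, 0, 0, 0, 0), (47, 0, 0, 0, 0), (52, 0, 0, 0, 0), (43, 0, 0, 0, 0), (52, 0, 0, 0, 0), (71, 0, 0, 0, 0), (76, 0, 0, 0, 0), (43, 0, 0, 0, 0), (76, 0, 0, 0, 0), (43, 0, 0, 0, 0), (71, 0, 0, 0, 0), (71, 0, 0, 0, 0), (84, 0, 0, 0, 0), (47, 0, 0, 0,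 0), (84, 0, 0, 0, 0), (47, 0, 0, 0, 0), (71, 0, 0, 0, 0), (52, 0, 0, 0, 0), (84, 0, 0, 0, 0), (52, 0, 0, 0, 0), (76, 0, 0, 0, 0), (22, 0, 0, 0, 0), (70, 0, 0, 0, 0), (70, 0, 0, 0, 0), (83, 0, 0, 0, 0), (87, 0, 0, 0, 0), (63, 0, 0, 0, 0), (87, 0, 0, 0, 0), (63, 0, 0, 0, 0), (83, 0, 0, 0, 0), (39, 0, 0, 0, 0), (22, 0, 0, 0, 0), (39, 0, 0, 0, 0), (22, 0, 0, 0, 0), (70, 0, 0, 0, 0), (39, 0, 0, 0, 0), (70, 0, 0, 0, 0), (54, 0, 0, 0, 0), (13, 0, 0, 0, 0), (54, 0, 0, 0, 0), (81, 0, 0, 0, 0), (85, 0, 0, 0, 0), (48, 0, 0, 0, 0), (85, 0, 0, 0, 0), (48, 0, 0, 0, 0), (81, 0, 0, 0, 0), (54, 0, 0, 0, 0), (36, 0, 0, 0, 0), (54, 0, 0, 0, 0), (36, 0, 0, 0, 0), (13, 0, 0, 0, 0), (36, 0, 0, 0, 0), (13, 0, 0, 0, 0), (50, 0, 0, 0, 0), (10, 0, 0, 0, 0), (4, 0, 0, 0, 0), (50,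 0, 0, 0, 0), (19, 0, 0, 0, 0), (66, 0, 0, 0, 0), (4, 0, 0, 0, 0), (66, 0, 0, 0, 0), (50, 0, 0, 0, 0), (37, 0, 0, 0, 0), (50, 0, 0, 0, 0), (19, 0, 0, 0, 0), (66, 0, 0, 0, 0), (37, 0, 0, 0, 0), (10, 0, 0, 0, 0), (66, 0, 0, 0, 0), (9, 0, 0, 0, 0), (3, 0, 0, 0, 0), (9, 0, 0, 0, 0), (3, 0, 0, 0, 0), (65, 0, 0, 0, 0), (3, 0, 0, 0, 0), (65, 0, 0, 0, 0), (61, 0, 0, 0, 0), (86, 0, 0, 0, 0), (46, 0, 0, 0, 0), (86, 0, 0, 0, 0), (46, 0, 0, 0, 0), (61, 0, 0, 0, 0), (65, 0, 0, 0, 0), (9, 0, 0, 0, 0), (65, 0, 0, 0, 0), (49, 0, 0, 0, 0), (2, 0, 0, 0, 0), (49, 0, 0, 0, 0), (18, 0, 0, 0, 0), (2, 0, 0, 0, 0), (18, 0, 0, 0, 0), (2, 0, 0, 0, 0), (60, 0, 0, 0, 0), (82, 0, 0, 0, 0), (45, 0, 0, 0, 0), (82, 0, 0, 0, 0), (45, 0, 0, 0, 0), (60, 0, 0, 0, 0), (49, 0, 0, 0, 0), (49,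 0, 0, 0, 0), (18, 0, 0, 0, 0), (21, 0, 0, 0, 0), (69, 0, 0, 0, 0), (69, 0, 0, 0, 0), (75, 0, 0, 0, 0), (79, 0, 0, 0, 0), (59, 0, 0, 0, 0), (79, 0, 0, 0, 0), (59, 0, 0, 0, 0), (75, 0, 0, 0, 0), (38, 0, 0, 0, 0), (21, 0, 0, 0, 0), (38, 0, 0, 0, 0), (21, 0, 0, 0, 0), (69, 0, 0, 0, 0), (38, 0, 0, 0, 0), (69, 0, 0, 0, 0), (53, 0, 0, 0, 0), (12, 0, 0, 0, 0), (53, 0, 0, 0, 0), (73, 0, 0, 0, 0), (77, 0, 0, 0, 0), (44, 0, 0, 0, 0), (77, 0, 0, 0, 0), (44, 0, 0, 0, 0), (73, 0, 0, 0, 0), (53, 0, 0, 0, 0), (35, 0, 0, 0, 0), (53, 0, 0, 0, 0), (35, 0, 0, 0, 0), (12, 0, 0, 0, 0), (35, 0, 0, 0, 0), (12, 0, 0, 0, 0), (50, 0, 0, 0, 0), (10, 0, 0, 0, 0), (4, 0, 0, 0, 0), (50, 0, 0, 0, 0), (19, 0, 0, 0, 0), (66, 0, 0, 0, 0), (4, 0, 0, 0, 0), (66, 0, 0, 0, 0), (50, 0, 0, 0,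 0), (37, 0, 0, 0, 0), (50, 0, 0, 0, 0), (19, 0, 0, 0, 0), (66, 0, 0, 0, 0), (37, 0, 0, 0, 0), (10, 0, 0, 0, 0), (66, 0, 0, 0, 0), (11, 0, 0, 0, 0), (1, 0, 0, 0, 0), (11, 0, 0, 0, 0), (1, 0, 0, 0, 0), (67, 0, 0, 0, 0), (1, 0, 0, 0, 0), (67, 0, 0, 0, 0), (57, 0, 0, 0, 0), (78, 0, 0, 0, 0), (42, 0, 0, 0, 0), (78, 0, 0, 0, 0), (42, 0, 0, 0, 0), (57, 0, 0, 0, 0), (67, 0, 0, 0, 0), (11, 0, 0, 0, 0), (67, 0, 0, 0, 0), (51, 0, 0, 0, 0), (0, 0, 0, 0, 0), (51, 0, 0, 0, 0), (20, 0, 0, 0, 0), (0, 0, 0, 0, 0), (20, 0, 0, 0, 0), (0, 0, 0, 0, 0), (56, 0, 0, 0, 0), (74, 0, 0, 0, 0), (41, 0, 0, 0, 0), (74, 0, 0, 0, 0), (41, 0, 0, 0, 0), (56, 0, 0, 0, 0), (51, 0, 0, 0, 0), (51, 0, 0, 0, 0), (20, 0, 0, 0, 0), (62, 0, 0, 0, 0), (68, 0, 0, 0, 0), (58, 0, 0, 0, 0), (68, 0,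 0, 0, 0), (72, 0, 0, 0, 0), (80, 0, 0, 0, 0), (58, 0, 0, 0, 0), (80, 0, 0, 0, 0), (58, 0, 0, 0, 0), (72, 0, 0, 0, 0), (72, 0, 0, 0, 0), (88, 0, 0, 0, 0), (62, 0, 0, 0, 0), (88, 0, 0, 0, 0), (62, 0, 0, 0, 0), (72, 0, 0, 0, 0), (68, 0, 0, 0, 0), (88, 0, 0, 0, 0), (68, 0, 0, 0, 0), (80, 0, 0, 0, 0), (8, 0, 0, 0, 0), (55, 0, 0, 0, 0), (6, 0, 0, 0, 0), (55, 0, 0, 0, 0), (6, 0, 0, 0, 0), (8, 0, 0, 0, 0), (23, 0, 0, 0, 0), (30, 0, 0, 0, 0), (6, 0, 0, 0, 0), (30, 0, 0, 0, 0), (6, 0, 0, 0, 0), (23, 0, 0, 0, 0), (23, 0, 0, 0, 0), (34, 0, 0, 0, 0), (8, 0, 0, 0, 0), (34, 0, 0, 0, 0), (8, 0, 0, 0, 0), (23, 0, 0, 0, 0), (30, 0, 0, 0, 0), (34, 0, 0, 0, 0), (55, 0, 0, 0, 0), (34, 0, 0, 0, 0), (55, 0, 0, 0, 0), (30, 0, 0, 0, 0), (46, 0, 0, 0, 0), (3, 0, 0, 0, 0), (9,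 0, 0, 0, 0), (46, 0, 0, 0, 0), (61, 0, 0, 0, 0), (3, 0, 0, 0, 0), (65, 0, 0, 0, 0), (61, 0, 0, 0, 0), (86, 0, 0, 0, 0), (46, 0, 0, 0, 0), (86, 0, 0, 0, 0), (46, 0, 0, 0, 0), (61, 0, 0, 0, 0), (86, 0, 0, 0, 0), (9, 0, 0, 0, 0), (65, 0, 0, 0, 0), (42, 0, 0, 0, 0), (1, 0, 0, 0, 0), (11, 0, 0, 0, 0), (42, 0, 0, 0, 0), (57, 0, 0, 0, 0), (1, 0, 0, 0, 0), (67, 0, 0, 0, 0), (57, 0, 0, 0, 0), (78, 0, 0, 0, 0), (42, 0, 0, 0, 0), (78, 0, 0, 0, 0), (42, 0, 0, 0, 0), (57, 0, 0, 0, 0), (78, 0, 0, 0, 0), (11, 0, 0, 0, 0), (67, 0, 0, 0, 0), (5, 0, 0, 0, 0), (7, 0, 0, 0, 0), (40, 0, 0, 0, 0), (7, 0, 0, 0, 0), (40, 0, 0, 0, 0), (5, 0, 0, 0, 0), (14, 0, 0, 0, 0), (16, 0, 0, 0, 0), (40, 0, 0, 0, 0), (16, 0, 0, 0, 0), (40, 0, 0, 0, 0), (14, 0, 0, 0, 0), (14, 0, 0, 0, 0),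 (24, 0, 0, 0, 0), (5, 0, 0, 0, 0), (24, 0, 0, 0, 0), (5, 0, 0, 0, 0), (14, 0, 0, 0, 0), (16, 0, 0, 0, 0), (24, 0, 0, 0, 0), (7, 0, 0, 0, 0), (24, 0, 0, 0, 0), (7, 0, 0, 0, 0), (16, 0, 0, 0, 0), (17, 0, 0, 0, 0), (64, 0, 0, 0, 0), (15, 0, 0, 0, 0), (64, 0, 0, 0, 0), (15, 0, 0, 0, 0), (17, 0, 0, 0, 0), (25, 0, 0, 0, 0), (27, 0, 0, 0, 0), (15, 0, 0, 0, 0), (27, 0, 0, 0, 0), (15, 0, 0, 0, 0), (25, 0, 0, 0, 0), (25, 0, 0, 0, 0), (31, 0, 0, 0, 0), (17, 0, 0, 0, 0), (31, 0, 0, 0, 0), (17, 0, 0, 0, 0), (25, 0, 0, 0, 0), (27, 0, 0, 0, 0), (31, 0, 0, 0, 0), (64, 0, 0, 0, 0), (31, 0, 0, 0, 0), (64, 0, 0, 0, 0), (27, 0, 0, 0, 0), (47, 0, 0, 0, 0), (52, 0, 0, 0, 0), (43, 0, 0, 0, 0), (52, 0, 0, 0, 0), (71, 0, 0, 0, 0), (76, 0, 0, 0, 0), (43, 0, 0, 0, 0), (76, 0, 0,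 0, 0), (43, 0, 0, 0, 0), (71, 0, 0, 0, 0), (71, 0, 0, 0, 0), (84, 0, 0, 0, 0), (47, 0, 0, 0, 0), (84, 0, 0, 0, 0), (47, 0, 0, 0, 0), (71, 0, 0, 0, 0), (52, 0, 0, 0, 0), (84, 0, 0, 0, 0), (52, 0, 0, 0, 0), (76, 0, 0, 0, 0), (45, 0, 0, 0, 0), (2, 0, 0, 0, 0), (49, 0, 0, 0, 0), (60, 0, 0, 0, 0), (2, 0, 0, 0, 0), (18, 0, 0, 0, 0), (60, 0, 0, 0, 0), (60, 0, 0, 0, 0), (82, 0, 0, 0, 0), (45, 0, 0, 0, 0), (82, 0, 0, 0, 0), (45, 0, 0, 0, 0), (60, 0, 0, 0, 0), (82, 0, 0, 0, 0), (49, 0, 0, 0, 0), (18, 0, 0, 0, 0), (41, 0, 0, 0, 0), (0, 0, 0, 0, 0), (51, 0, 0, 0, 0), (56, 0, 0, 0, 0), (0, 0, 0, 0, 0), (20, 0, 0, 0, 0), (56, 0, 0, 0, 0), (56, 0, 0, 0, 0), (74, 0, 0, 0, 0), (41, 0, 0, 0, 0), (74, 0, 0, 0, 0), (41, 0, 0, 0, 0), (56, 0, 0, 0, 0), (74, 0, 0, 0, 0), (51,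 0, 0, 0, 0), (20, 0, 0, 0, 0), (5, 0, 0, 0, 0), (7, 0, 0, 0, 0), (40, 0, 0, 0, 0), (7, 0, 0, 0, 0), (40, 0, 0, 0, 0), (5, 0, 0, 0, 0), (14, 0, 0, 0, 0), (16, 0, 0, 0, 0), (40, 0, 0, 0, 0), (16, 0, 0, 0, 0), (40, 0, 0, 0, 0), (14, 0, 0, 0, 0), (14, 0, 0, 0, 0), (24, 0, 0, 0, 0), (5, 0, 0, 0, 0), (24, 0, 0, 0, 0), (5, 0, 0, 0, 0), (14, 0, 0, 0, 0), (16, 0, 0, 0, 0), (24, 0, 0, 0, 0), (7, 0, 0, 0, 0), (24, 0, 0, 0, 0), (7, 0, 0, 0, 0), (16, 0, 0, 0, 0)],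
  [(33, 0, 0, 0, 0), (32, 0, 0, 0, 0), (89, 0, 0, 0, 0), (32, 0, 0, 0, 0), (89, 0, 0, 0, 0), (33, 0, 0, 0, 0), (29, 0, 0, 0, 0), (28, 0, 0, 0, 0), (89, 0, 0, 0, 0), (28, 0, 0, 0, 0), (89, 0, 0, 0, 0), (29, 0, 0, 0, 0), (29, 0, 0, 0, 0), (26, 0, 0, 0, 0), (33, 0, 0, 0, 0), (26, 0, 0, 0, 0), (33, 0, 0, 0, 0), (29, 0, 0, 0, 0), (28, 0, 0, 0, 0), (26, 0, 0, 0, 0), (32, 0, 0, 0, 0), (26, 0, 0, 0, 0), (32, 0, 0, 0, 0), (28, 0, 0, 0, 0), (87, 0, 0, 0, 0), (83, 0, 0, 0, 0), (39, 0, 0, 0, 0), (70, 0, 0, 0, 0), (22, 0, 0, 0, 0), (39, 0, 0, 0, 0), (22, 0, 0, 0, 0), (39, 0, 0, 0, 0), (70, 0, 0, 0, 0), (70, 0, 0, 0, 0), (87, 0, 0, 0, 0), (63, 0, 0, 0, 0), (70, 0, 0, 0, 0), (83, 0, 0, 0, 0), (63, 0, 0, 0, 0), (22, 0, 0, 0, 0), (79, 0, 0, 0, 0), (75, 0, 0, 0, 0), (38,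 0, 0, 0, 0), (69, 0, 0, 0, 0), (21, 0, 0, 0, 0), (38, 0, 0, 0, 0), (21, 0, 0, 0, 0), (38, 0, 0, 0, 0), (69, 0, 0, 0, 0), (69, 0, 0, 0, 0), (79, 0, 0, 0, 0), (59, 0, 0, 0, 0), (69, 0, 0, 0, 0), (75, 0, 0, 0, 0), (59, 0, 0, 0, 0), (21, 0, 0, 0, 0), (80, 0, 0, 0, 0), (72, 0, 0, 0, 0), (88, 0, 0, 0, 0), (72, 0, 0, 0, 0), (68, 0, 0, 0, 0), (62, 0, 0, 0, 0), (88, 0, 0, 0, 0), (62, 0, 0, 0, 0), (88, 0, 0, 0, 0), (68, 0, 0, 0, 0), (68, 0, 0, 0, 0), (58, 0, 0, 0, 0), (80, 0, 0, 0, 0), (58, 0, 0, 0, 0), (80, 0, 0, 0, 0), (68, 0, 0, 0, 0), (72, 0, 0, 0, 0), (58, 0, 0, 0, 0), (72, 0, 0, 0, 0), (62, 0, 0, 0, 0), (27, 0, 0, 0, 0), (25, 0, 0, 0, 0), (31, 0, 0, 0, 0), (25, 0, 0, 0, 0), (31, 0, 0, 0, 0), (27, 0, 0, 0, 0), (64, 0, 0, 0, 0), (17, 0, 0, 0, 0), (31, 0, 0,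 0, 0), (17, 0, 0, 0, 0), (31, 0, 0, 0, 0), (64, 0, 0, 0, 0), (64, 0, 0, 0, 0), (15, 0, 0, 0, 0), (27, 0, 0, 0, 0), (15, 0, 0, 0, 0), (27, 0, 0, 0, 0), (64, 0, 0, 0, 0), (17, 0, 0, 0, 0), (15, 0, 0, 0, 0), (25, 0, 0, 0, 0), (15, 0, 0, 0, 0), (25, 0, 0, 0, 0), (17, 0, 0, 0, 0), (33, 0, 0, 0, 0), (32, 0, 0, 0, 0), (89, 0, 0, 0, 0), (32, 0, 0, 0, 0), (89, 0, 0, 0, 0), (33, 0, 0, 0, 0), (29, 0, 0, 0, 0), (28, 0, 0, 0, 0), (89, 0, 0, 0, 0), (28, 0, 0, 0, 0), (89, 0, 0, 0, 0), (29, 0, 0, 0, 0), (29, 0, 0, 0, 0), (26, 0, 0, 0, 0), (33, 0, 0, 0, 0), (26, 0, 0, 0, 0), (33, 0, 0, 0, 0), (29, 0, 0, 0, 0), (28, 0, 0, 0, 0), (26, 0, 0, 0, 0), (32, 0, 0, 0, 0), (26, 0, 0, 0, 0), (32, 0, 0, 0, 0), (28, 0, 0, 0, 0), (85, 0, 0, 0, 0), (81, 0, 0, 0, 0), (36, 0, 0, 0, 0),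 (13, 0, 0, 0, 0), (54, 0, 0, 0, 0), (36, 0, 0, 0, 0), (54, 0, 0, 0, 0), (36, 0, 0, 0, 0), (13, 0, 0, 0, 0), (85, 0, 0, 0, 0), (48, 0, 0, 0, 0), (13, 0, 0, 0, 0), (54, 0, 0, 0, 0), (81, 0, 0, 0, 0), (48, 0, 0, 0, 0), (54, 0, 0, 0, 0), (77, 0, 0, 0, 0), (73, 0, 0, 0, 0), (35, 0, 0, 0, 0), (12, 0, 0, 0, 0), (53, 0, 0, 0, 0), (35, 0, 0, 0, 0), (53, 0, 0, 0, 0), (35, 0, 0, 0, 0), (12, 0, 0, 0, 0), (77, 0, 0, 0, 0), (44, 0, 0, 0, 0), (12, 0, 0, 0, 0), (53, 0, 0, 0, 0), (73, 0, 0, 0, 0), (44, 0, 0, 0, 0), (53, 0, 0, 0, 0), (30, 0, 0, 0, 0), (23, 0, 0, 0, 0), (34, 0, 0, 0, 0), (23, 0, 0, 0, 0), (34, 0, 0, 0, 0), (30, 0, 0, 0, 0), (55, 0, 0, 0, 0), (8, 0, 0, 0, 0), (34, 0, 0, 0, 0), (8, 0, 0, 0, 0), (34, 0, 0, 0, 0), (55, 0, 0, 0, 0), (55, 0, 0, 0, 0), (6, 0,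 0, 0, 0), (30, 0, 0, 0, 0), (6, 0, 0, 0, 0), (30, 0, 0, 0, 0), (55, 0, 0, 0, 0), (8, 0, 0, 0, 0), (6, 0, 0, 0, 0), (23, 0, 0, 0, 0), (6, 0, 0, 0, 0), (23, 0, 0, 0, 0), (8, 0, 0, 0, 0), (76, 0, 0, 0, 0), (71, 0, 0, 0, 0), (84, 0, 0, 0, 0), (71, 0, 0, 0, 0), (52, 0, 0, 0, 0), (47, 0, 0, 0, 0), (84, 0, 0, 0, 0), (47, 0, 0, 0, 0), (84, 0, 0, 0, 0), (52, 0, 0, 0, 0), (52, 0, 0, 0, 0), (43, 0, 0, 0, 0), (76, 0, 0, 0, 0), (43, 0, 0, 0, 0), (76, 0, 0, 0, 0), (52, 0, 0, 0, 0), (71, 0, 0, 0, 0), (43, 0, 0, 0, 0), (71, 0, 0, 0, 0), (47, 0, 0, 0, 0), (87, 0, 0, 0, 0), (83, 0, 0, 0, 0), (83, 0, 0, 0, 0), (70, 0, 0, 0, 0), (22, 0, 0, 0, 0), (39, 0, 0, 0, 0), (22, 0, 0, 0, 0), (39, 0, 0, 0, 0), (70, 0, 0, 0, 0), (63, 0, 0, 0, 0), (87, 0, 0, 0, 0), (63, 0, 0, 0, 0),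 (87, 0, 0, 0, 0), (83, 0, 0, 0, 0), (63, 0, 0, 0, 0), (83, 0, 0, 0, 0), (85, 0, 0, 0, 0), (81, 0, 0, 0, 0), (85, 0, 0, 0, 0), (13, 0, 0, 0, 0), (54, 0, 0, 0, 0), (36, 0, 0, 0, 0), (54, 0, 0, 0, 0), (36, 0, 0, 0, 0), (13, 0, 0, 0, 0), (85, 0, 0, 0, 0), (48, 0, 0, 0, 0), (85, 0, 0, 0, 0), (48, 0, 0, 0, 0), (81, 0, 0, 0, 0), (48, 0, 0, 0, 0), (81, 0, 0, 0, 0), (66, 0, 0, 0, 0), (19, 0, 0, 0, 0), (37, 0, 0, 0, 0), (66, 0, 0, 0, 0), (10, 0, 0, 0, 0), (50, 0, 0, 0, 0), (37, 0, 0, 0, 0), (50, 0, 0, 0, 0), (66, 0, 0, 0, 0), (4, 0, 0, 0, 0), (66, 0, 0, 0, 0), (10, 0, 0, 0, 0), (50, 0, 0, 0, 0), (4, 0, 0, 0, 0), (19, 0, 0, 0, 0), (50, 0, 0, 0, 0), (61, 0, 0, 0, 0), (86, 0, 0, 0, 0), (61, 0, 0, 0, 0), (86, 0, 0, 0, 0), (46, 0, 0, 0, 0), (86, 0, 0, 0, 0), (46, 0,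 0, 0, 0), (9, 0, 0, 0, 0), (3, 0, 0, 0, 0), (65, 0, 0, 0, 0), (3, 0, 0, 0, 0), (65, 0, 0, 0, 0), (9, 0, 0, 0, 0), (46, 0, 0, 0, 0), (61, 0, 0, 0, 0), (46, 0, 0, 0, 0), (60, 0, 0, 0, 0), (82, 0, 0, 0, 0), (60, 0, 0, 0, 0), (45, 0, 0, 0, 0), (82, 0, 0, 0, 0), (45, 0, 0, 0, 0), (82, 0, 0, 0, 0), (49, 0, 0, 0, 0), (2, 0, 0, 0, 0), (18, 0, 0, 0, 0), (2, 0, 0, 0, 0), (18, 0, 0, 0, 0), (49, 0, 0, 0, 0), (60, 0, 0, 0, 0), (60, 0, 0, 0, 0), (45, 0, 0, 0, 0), (79, 0, 0, 0, 0), (75, 0, 0, 0, 0), (75, 0, 0, 0, 0), (69, 0, 0, 0, 0), (21, 0, 0, 0, 0), (38, 0, 0, 0, 0), (21, 0, 0, 0, 0), (38, 0, 0, 0, 0), (69, 0, 0, 0, 0), (59, 0, 0, 0, 0), (79, 0, 0, 0, 0), (59, 0, 0, 0, 0), (79, 0, 0, 0, 0), (75, 0, 0, 0, 0), (59, 0, 0, 0, 0), (75, 0, 0, 0, 0), (77, 0, 0, 0, 0), (73,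 0, 0, 0, 0), (77, 0, 0, 0, 0), (12, 0, 0, 0, 0), (53, 0, 0, 0, 0), (35, 0, 0, 0, 0), (53, 0, 0, 0, 0), (35, 0, 0, 0, 0), (12, 0, 0, 0, 0), (77, 0, 0, 0, 0), (44, 0, 0, 0, 0), (77, 0, 0, 0, 0), (44, 0, 0, 0, 0), (73, 0, 0, 0, 0), (44, 0, 0, 0, 0), (73, 0, 0, 0, 0), (66, 0, 0, 0, 0), (19, 0, 0, 0, 0), (37, 0, 0, 0, 0), (66, 0, 0, 0, 0), (10, 0, 0, 0, 0), (50, 0, 0, 0, 0), (37, 0, 0, 0, 0), (50, 0, 0, 0, 0), (66, 0, 0, 0, 0), (4, 0, 0, 0, 0), (66, 0, 0, 0, 0), (10, 0, 0, 0, 0), (50, 0, 0, 0, 0), (4, 0, 0, 0, 0), (19, 0, 0, 0, 0), (50, 0, 0, 0, 0), (57, 0, 0, 0, 0), (78, 0, 0, 0, 0), (57, 0, 0, 0, 0), (78, 0, 0, 0, 0), (42, 0, 0, 0, 0), (78, 0, 0, 0, 0), (42, 0, 0, 0, 0), (11, 0, 0, 0, 0), (1, 0, 0, 0, 0), (67, 0, 0, 0, 0), (1, 0, 0, 0, 0), (67, 0, 0, 0,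 0), (11, 0, 0, 0, 0), (42, 0, 0, 0, 0), (57, 0, 0, 0, 0), (42, 0, 0, 0, 0), (56, 0, 0, 0, 0), (74, 0, 0, 0, 0), (56, 0, 0, 0, 0), (41, 0, 0, 0, 0), (74, 0, 0, 0, 0), (41, 0, 0, 0, 0), (74, 0, 0, 0, 0), (51, 0, 0, 0, 0), (0, 0, 0, 0, 0), (20, 0, 0, 0, 0), (0, 0, 0, 0, 0), (20, 0, 0, 0, 0), (51, 0, 0, 0, 0), (56, 0, 0, 0, 0), (56, 0, 0, 0, 0), (41, 0, 0, 0, 0), (80, 0, 0, 0, 0), (72, 0, 0, 0, 0), (88, 0, 0, 0, 0), (72, 0, 0, 0, 0), (68, 0, 0, 0, 0), (62, 0, 0, 0, 0), (88, 0, 0, 0, 0), (62, 0, 0, 0, 0), (88, 0, 0, 0, 0), (68, 0, 0, 0, 0), (68, 0, 0, 0, 0), (58, 0, 0, 0, 0), (80, 0, 0, 0, 0), (58, 0, 0, 0, 0), (80, 0, 0, 0, 0), (68, 0, 0, 0, 0), (72, 0, 0, 0, 0), (58, 0, 0, 0, 0), (72, 0, 0, 0, 0), (62, 0, 0, 0, 0), (30, 0, 0, 0, 0), (23, 0, 0, 0, 0), (34,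 0, 0, 0, 0), (23, 0, 0, 0, 0), (34, 0, 0, 0, 0), (30, 0, 0, 0, 0), (55, 0, 0, 0, 0), (8, 0, 0, 0, 0), (34, 0, 0, 0, 0), (8, 0, 0, 0, 0), (34, 0, 0, 0, 0), (55, 0, 0, 0, 0), (55, 0, 0, 0, 0), (6, 0, 0, 0, 0), (30, 0, 0, 0, 0), (6, 0, 0, 0, 0), (30, 0, 0, 0, 0), (55, 0, 0, 0, 0), (8, 0, 0, 0, 0), (6, 0, 0, 0, 0), (23, 0, 0, 0, 0), (6, 0, 0, 0, 0), (23, 0, 0, 0, 0), (8, 0, 0, 0, 0), (65, 0, 0, 0, 0), (86, 0, 0, 0, 0), (61, 0, 0, 0, 0), (65, 0, 0, 0, 0), (9, 0, 0, 0, 0), (86, 0, 0, 0, 0), (46, 0, 0, 0, 0), (9, 0, 0, 0, 0), (3, 0, 0, 0, 0), (65, 0, 0, 0, 0), (3, 0, 0, 0, 0), (65, 0, 0, 0, 0), (9, 0, 0, 0, 0), (3, 0, 0, 0, 0), (61, 0, 0, 0, 0), (46, 0, 0, 0, 0), (67, 0, 0, 0, 0), (78, 0, 0, 0, 0), (57, 0, 0, 0, 0), (67, 0, 0, 0, 0), (11, 0, 0, 0, 0), (78, 0,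 0, 0, 0), (42, 0, 0, 0, 0), (11, 0, 0, 0, 0), (1, 0, 0, 0, 0), (67, 0, 0, 0, 0), (1, 0, 0, 0, 0), (67, 0, 0, 0, 0), (11, 0, 0, 0, 0), (1, 0, 0, 0, 0), (57, 0, 0, 0, 0), (42, 0, 0, 0, 0), (16, 0, 0, 0, 0), (14, 0, 0, 0, 0), (24, 0, 0, 0, 0), (14, 0, 0, 0, 0), (24, 0, 0, 0, 0), (16, 0, 0, 0, 0), (7, 0, 0, 0, 0), (5, 0, 0, 0, 0), (24, 0, 0, 0, 0), (5, 0, 0, 0, 0), (24, 0, 0, 0, 0), (7, 0, 0, 0, 0), (7, 0, 0, 0, 0), (40, 0, 0, 0, 0), (16, 0, 0, 0, 0), (40, 0, 0, 0, 0), (16, 0, 0, 0, 0), (7, 0, 0, 0, 0), (5, 0, 0, 0, 0), (40, 0, 0, 0, 0), (14, 0, 0, 0, 0), (40, 0, 0, 0, 0), (14, 0, 0, 0, 0), (5, 0, 0, 0, 0), (27, 0, 0, 0, 0), (25, 0, 0, 0, 0), (31, 0, 0, 0, 0), (25, 0, 0, 0, 0), (31, 0, 0, 0, 0), (27, 0, 0, 0, 0), (64, 0, 0, 0, 0), (17, 0, 0, 0, 0), (31, 0,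 0, 0, 0), (17, 0, 0, 0, 0), (31, 0, 0, 0, 0), (64, 0, 0, 0, 0), (64, 0, 0, 0, 0), (15, 0, 0, 0, 0), (27, 0, 0, 0, 0), (15, 0, 0, 0, 0), (27, 0, 0, 0, 0), (64, 0, 0, 0, 0), (17, 0, 0, 0, 0), (15, 0, 0, 0, 0), (25, 0, 0, 0, 0), (15, 0, 0, 0, 0), (25, 0, 0, 0, 0), (17, 0, 0, 0, 0), (76, 0, 0, 0, 0), (71, 0, 0, 0, 0), (84, 0, 0, 0, 0), (71, 0, 0, 0, 0), (52, 0, 0, 0, 0), (47, 0, 0, 0, 0), (84, 0, 0, 0, 0), (47, 0, 0, 0, 0), (84, 0, 0, 0, 0), (52, 0, 0, 0, 0), (52, 0, 0, 0, 0), (43, 0, 0, 0, 0), (76, 0, 0, 0, 0), (43, 0, 0, 0, 0), (76, 0, 0, 0, 0), (52, 0, 0, 0, 0), (71, 0, 0, 0, 0), (43, 0, 0, 0, 0), (71, 0, 0, 0, 0), (47, 0, 0, 0, 0), (18, 0, 0, 0, 0), (82, 0, 0, 0, 0), (60, 0, 0, 0, 0), (49, 0, 0, 0, 0), (82, 0, 0, 0, 0), (45, 0, 0, 0, 0), (49, 0, 0, 0,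 0), (49, 0, 0, 0, 0), (2, 0, 0, 0, 0), (18, 0, 0, 0, 0), (2, 0, 0, 0, 0), (18, 0, 0, 0, 0), (49, 0, 0, 0, 0), (2, 0, 0, 0, 0), (60, 0, 0, 0, 0), (45, 0, 0, 0, 0), (20, 0, 0, 0, 0), (74, 0, 0, 0, 0), (56, 0, 0, 0, 0), (51, 0, 0, 0, 0), (74, 0, 0, 0, 0), (41, 0, 0, 0, 0), (51, 0, 0, 0, 0), (51, 0, 0, 0, 0), (0, 0, 0, 0, 0), (20, 0, 0, 0, 0), (0, 0, 0, 0, 0), (20, 0, 0, 0, 0), (51, 0, 0, 0, 0), (0, 0, 0, 0, 0), (56, 0, 0, 0, 0), (41, 0, 0, 0, 0), (16, 0, 0, 0, 0), (14, 0, 0, 0, 0), (24, 0, 0, 0, 0), (14, 0, 0, 0, 0), (24, 0, 0, 0, 0), (16, 0, 0, 0, 0), (7, 0, 0, 0, 0), (5, 0, 0, 0, 0), (24, 0, 0, 0, 0), (5, 0, 0, 0, 0), (24, 0, 0, 0, 0), (7, 0, 0, 0, 0), (7, 0, 0, 0, 0), (40, 0, 0, 0, 0), (16, 0, 0, 0, 0), (40, 0, 0, 0, 0), (16, 0, 0, 0, 0), (7, 0, 0, 0,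 0), (5, 0, 0, 0, 0), (40, 0, 0, 0, 0), (14, 0, 0, 0, 0), (40, 0, 0, 0, 0), (14, 0, 0, 0, 0), (5, 0, 0, 0, 0)]]

theorem tr22 : trK keys lk22 kl22 = true := by
  decide +kernel

theorem x22_0 : expB 3 6 dg13 dg10 m22_0 (l22_0 ++ z22_0) w22_0 = true := by
  decide +kernel

theorem t22_0_0 : chkS lk22 3 6 [(1, m22_0)] l22_0
  [(3, 528, 528, 5456400, 5456400), (0, 528, 528, 5391120, 5448720), (0, 528, 528, 4411920, 3490320), (4, 528, 528, 5456400, 5456400), (0, 528, 528, 5456400, 5456400), (6, 528, 528, 4534800, 4534800), (2, 258, 33, 4206885, 340260), (5, 528, 528, 4530960, 4530960), (6, 288, 288, 5448720, 5391120), (2, 18, 18, 1311525, 270675), (5, 528, 528, 2311440, 2311440), (5, 528, 528, 2442000, 4400400), (0, 513, 513, 5324835, 5439810), (6, 288, 288,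 2380560, 3417360), (6, 528, 528, 4534785, 4534785), (5, 288, 288, 3428865, 3428865), (5, 528, 528, 4530945, 4530945), (0, 513, 513, 4280370, 3477570), (6, 528, 528, 4338945, 2438145), (6, 528, 528, 3294465, 2315265), (0, 33, 258, 1377330, 4329555), (5, 288, 288, 5387265, 5387265), (2, 258, 33, 4272210, 1388610), (1, 528, 528, 5456400, 5456400), (2, 513, 513, 5316675, 5309250), (6, 513, 513, 4206885, 340260), (2, 33, 258, 1376835, 4260435), (2, 528, 528, 5513985, 5513985), (7, 288, 288, 5456400, 5456400), (2, 33, 258, 332355, 4260405), (1, 528, 528, 4411920, 3490320), (6, 513, 513, 4272165, 340290), (2, 33, 258, 1180995, 2163795), (4, 513, 513, 5324850, 5443650), (2, 288, 288, 4338945, 2438145), (6, 513, 513, 3227730, 1265730), (1, 528, 528, 4346640, 3482640),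 (2, 513, 513, 2117955, 3212580), (6, 513, 513, 3227685, 217410), (1, 288, 288, 2372880, 2372880)]
  [(0, 9216), (1, 18432), (2, -9216), (3, 4608), (5, -18432), (7, -4608)] = true := by
  decide +kernel

section

variable {κ ι : Type*} [Fintype κ] [Fintype ι] [Inhabited κ] [Inhabited ι]

noncomputable def F22_0 (E : Env κ ι) : (Fin 3 → κ) → (Fin 6 → ι) → ℝ := op2 (P13 κ) (P10 ι) (fB E 3 6 m22_0)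

def r22_0_0 : List (ℕ × ℤ) := [(0, 9216), (1, 18432), (2, -9216), (3, 4608), (5, -18432), (7, -4608)]

theorem h22_0_0 (E : Env κ ι) : ip (F22_0 E) (F22_0 E) = dotS (ek E lk22) r22_0_0 :=
  op_entryZ E lk22 3 6 _ _ _ _ (pg13 κ) (pg10 ι) m22_0 m22_0 l22_0 z22_0 w22_0 x22_0 (by decide) _ (chkS_sound E lk22 3 6 _ _ _ _ t22_0_0)

theorem row22_0 (E : Env κ ι) : RowG (ek E lk22) (F22_0 E) [F22_0 E] [r22_0_0] :=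
  rowG_cons _ _ _ _ _ _ (h22_0_0 E) (rowG_nil _ _)

def tab22 : List (List (List (ℕ × ℤ))) := [[r22_0_0]]

theorem tri22 (E : Env κ ι) : TriG (ek E lk22) [F22_0 E] tab22 := by
  refine triG_cons _ _ _ _ _ (row22_0 E) ?_
  exact triG_nil _

end

end YMBR
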