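import Pool.Agent.YM.BR.Ga3

set_option linter.unusedVariables false
set_option maxRecDepth 100000

open YMEng

namespace YMBR

def lk23 : List Key := [
  (3, 6, [(0, [0], [0, 1]), (0, [0], [0, 1]), (0, [1], [2, 3]), (0, [2], [4, 5]), (0, [2], [2, 4]), (0, [1], [3, 5])]),
  (3, 6, [(0, [0], [0, 1]), (0, [1], [2, 3]), (0, [2], [4, 5]), (0, [0], [2, 4]), (0, [1], [0, 5]), (0, [2], [1, 3])]),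
  (3, 6, [(0, [0], [0, 1]), (0, [1], [0, 2]), (0, [1], [3, 4]), (0, [0], [3, 4]), (0, [2], [2, 5]), (0, [2], [1, 5])]),
  (3, 6, [(0, [0], [0, 1]), (0, [0], [0, 1]), (0, [1], [2, 3]), (0, [1], [2, 3]), (0, [2], [4, 5]), (0, [2], [4, 5])]),
  (3, 6, [(0, [0], [0, 1]), (0, [0], [0, 1]), (0, [1], [2, 3]), (0, [2], [4, 5]), (0, [1], [4, 5]), (0, [2], [2, 3])]),
  (3, 6, [(0, [0], [0, 1]), (0, [0], [2, 0]), (0, [1], [3, 1]), (0, [2], [4, 5]), (0, [2], [2, 4]), (0, [1], [3, 5])]),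
  (3, 6, [(0, [0], [0, 1]), (0, [0], [2, 0]), (0, [1], [3, 1]), (0, [2], [4, 5]), (0, [2], [3, 4]), (0, [1], [2, 5])]),
  (3, 6, [(0, [0], [0, 1]), (0, [0], [2, 3]), (0, [1], [0, 1]), (0, [2], [4, 5]), (0, [2], [2, 3]), (0, [1], [4, 5])])]

def kl23 : List ℕ := [12, 22, 25, 27, 30, 37, 38, 45]

def m23_0 : Base := (0, 0, [(0, [0], [0, 1]), (0, [1], [2, 4]), (0, [2], [3, 5])])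

def l23_0 : Cov := [(10368, 0, 0, [(0, [0], [0, 1]), (0, [1], [2, 4]), (0, [2], [3, 5])]),
  (-10368, 0, 0, [(0, [0], [0, 1]), (0, [1], [2, 5]), (0, [2], [3, 4])]),
  (10368, 0, 0, [(0, [0], [0, 1]), (0, [1], [3, 4]), (0, [2], [2, 5])]),
  (-10368, 0, 0, [(0, [0], [0, 1]), (0, [1], [3, 5]), (0, [2], [2, 4])]),
  (10368, 0, 0, [(0, [0], [0, 2]), (0, [1], [1, 4]), (0, [2], [3, 5])]),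
  (-10368, 0, 0, [(0, [0], [0, 2]), (0, [1], [1, 5]), (0, [2], [3, 4])]),
  (10368, 0, 0, [(0, [0], [0, 2]), (0, [1], [3, 4]), (0, [2], [1, 5])]),
  (-10368, 0, 0, [(0, [0], [0, 2]), (0, [1], [3, 5]), (0, [2], [1, 4])]),
  (10368, 0, 0, [(0, [0], [0, 3]), (0, [1], [1, 4]), (0, [2], [2, 5])]),
  (-10368, 0, 0, [(0, [0], [0, 3]), (0, [1], [1, 5]), (0, [2], [2, 4])]),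
  (10368, 0, 0, [(0, [0], [0, 3]), (0, [1], [2, 4]), (0, [2], [1, 5])]),
  (-10368, 0, 0, [(0, [0], [0, 3]), (0, [1], [2, 5]), (0, [2], [1, 4])]),
  (-10368, 0, 0, [(0, [0], [1, 4]), (0, [1], [2, 0]), (0, [2], [3, 5])]),
  (10368, 0, 0, [(0, [0], [1, 4]), (0, [1], [2, 5]), (0, [2], [3, 0])]),
  (-10368, 0, 0, [(0, [0], [1, 4]), (0, [1], [3, 0]), (0, [2], [2, 5])]),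
  (10368, 0, 0, [(0, [0], [1, 4]), (0, [1], [3, 5]), (0, [2], [2, 0])]),
  (10368, 0, 0, [(0, [0], [1, 5]), (0, [1], [2, 0]), (0, [2], [3, 4])]),
  (-10368, 0, 0, [(0, [0], [1, 5]), (0, [1], [2, 4]), (0, [2], [3, 0])]),
  (10368, 0, 0, [(0, [0], [1, 5]), (0, [1], [3, 0]), (0, [2], [2, 4])]),
  (-10368, 0, 0, [(0, [0], [1, 5]), (0, [1], [3, 4]), (0, [2], [2, 0])]),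
  (-10368, 0, 0, [(0, [0], [2, 4]), (0, [1], [1, 0]), (0, [2], [3, 5])]),
  (10368, 0, 0, [(0, [0], [2, 4]), (0, [1], [1, 5]), (0, [2], [3, 0])]),
  (-10368, 0, 0, [(0, [0], [2, 4]), (0, [1], [3, 0]), (0, [2], [1, 5])]),
  (10368, 0, 0, [(0, [0], [2, 4]), (0, [1], [3, 5]), (0, [2], [1, 0])]),
  (10368, 0, 0, [(0, [0], [2, 5]), (0, [1], [1, 0]), (0, [2], [3, 4])]),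
  (-10368, 0, 0, [(0, [0], [2, 5]), (0, [1], [1, 4]), (0, [2], [3, 0])]),
  (10368, 0, 0, [(0, [0], [2, 5]), (0, [1], [3, 0]), (0, [2], [1, 4])]),
  (-10368, 0, 0, [(0, [0], [2, 5]), (0, [1], [3, 4]), (0, [2], [1, 0])]),
  (-10368, 0, 0, [(0, [0], [3, 4]), (0, [1], [1, 0]), (0, [2], [2, 5])]),
  (10368, 0, 0, [(0, [0], [3, 4]), (0, [1], [1, 5]), (0, [2], [2, 0])]),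
  (-10368, 0, 0, [(0, [0], [3, 4]), (0, [1], [2, 0]), (0, [2], [1, 5])]),
  (10368, 0, 0, [(0, [0], [3, 4]), (0, [1], [2, 5]), (0, [2], [1, 0])]),
  (10368, 0, 0, [(0, [0], [3, 5]), (0, [1], [1, 0]), (0, [2], [2, 4])]),
  (-10368, 0, 0, [(0, [0], [3, 5]), (0, [1], [1, 4]), (0, [2], [2, 0])]),
  (10368, 0, 0, [(0, [0], [3, 5]), (0, [1], [2, 0]), (0, [2], [1, 4])]),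
  (-10368, 0, 0, [(0, [0], [3, 5]), (0, [1], [2, 4]), (0, [2], [1, 0])])]

def z23_0 : Cov := [(0, 0, 0, [(0, [0], [0, 1]), (0, [1], [2, 3]), (0, [2], [4, 5])]),
  (0, 0, 0, [(0, [0], [0, 1]), (0, [1], [4, 5]), (0, [2], [2, 3])]),
  (0, 0, 0, [(0, [0], [0, 2]), (0, [1], [1, 3]), (0, [2], [4, 5])]),
  (0, 0, 0, [(0, [0], [0, 2]), (0, [1], [4, 5]), (0, [2], [1, 3])]),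
  (0, 0, 0, [(0, [0], [0, 3]), (0, [1], [1, 2]), (0, [2], [4, 5])]),
  (0, 0, 0, [(0, [0], [0, 3]), (0, [1], [4, 5]), (0, [2], [1, 2])]),
  (0, 0, 0, [(0, [0], [0, 4]), (0, [1], [1, 3]), (0, [2], [2, 5])]),
  (0, 0, 0, [(0, [0], [0, 4]), (0, [1], [1, 5]), (0, [2], [2, 3])]),
  (0, 0, 0, [(0, [0], [0, 4]), (0, [1], [1, 2]), (0, [2], [3, 5])]),
  (0, 0, 0, [(0, [0], [0, 4]), (0, [1], [2, 3]), (0, [2], [1, 5])]),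
  (0, 0, 0, [(0, [0], [0, 4]), (0, [1], [2, 5]), (0, [2], [1, 3])]),
  (0, 0, 0, [(0, [0], [0, 4]), (0, [1], [3, 5]), (0, [2], [1, 2])]),
  (0, 0, 0, [(0, [0], [0, 5]), (0, [1], [1, 3]), (0, [2], [2, 4])]),
  (0, 0, 0, [(0, [0], [0, 5]), (0, [1], [1, 4]), (0, [2], [2, 3])]),
  (0, 0, 0, [(0, [0], [0, 5]), (0, [1], [1, 2]), (0, [2], [3, 4])]),
  (0, 0, 0, [(0, [0], [0, 5]), (0, [1], [2, 3]), (0, [2], [1, 4])]),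
  (0, 0, 0, [(0, [0], [0, 5]), (0, [1], [2, 4]), (0, [2], [1, 3])]),
  (0, 0, 0, [(0, [0], [0, 5]), (0, [1], [3, 4]), (0, [2], [1, 2])]),
  (0, 0, 0, [(0, [0], [1, 2]), (0, [1], [0, 4]), (0, [2], [3, 5])]),
  (0, 0, 0, [(0, [0], [1, 2]), (0, [1], [0, 5]), (0, [2], [3, 4])]),
  (0, 0, 0, [(0, [0], [1, 2]), (0, [1], [3, 4]), (0, [2], [0, 5])]),
  (0, 0, 0, [(0, [0], [1, 2]), (0, [1], [3, 5]), (0, [2], [0, 4])]),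
  (0, 0, 0, [(0, [0], [1, 2]), (0, [1], [3, 0]), (0, [2], [4, 5])]),
  (0, 0, 0, [(0, [0], [1, 2]), (0, [1], [4, 5]), (0, [2], [3, 0])]),
  (0, 0, 0, [(0, [0], [1, 3]), (0, [1], [0, 4]), (0, [2], [2, 5])]),
  (0, 0, 0, [(0, [0], [1, 3]), (0, [1], [0, 5]), (0, [2], [2, 4])]),
  (0, 0, 0, [(0, [0], [1, 3]), (0, [1], [2, 4]), (0, [2], [0, 5])]),
  (0, 0, 0, [(0, [0], [1, 3]), (0, [1], [2, 5]), (0, [2], [0, 4])]),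
  (0, 0, 0, [(0, [0], [1, 3]), (0, [1], [2, 0]), (0, [2], [4, 5])]),
  (0, 0, 0, [(0, [0], [1, 3]), (0, [1], [4, 5]), (0, [2], [2, 0])]),
  (0, 0, 0, [(0, [0], [2, 3]), (0, [1], [0, 4]), (0, [2], [1, 5])]),
  (0, 0, 0, [(0, [0], [2, 3]), (0, [1], [0, 5]), (0, [2], [1, 4])]),
  (0, 0, 0, [(0, [0], [2, 3]), (0, [1], [1, 4]), (0, [2], [0, 5])]),
  (0, 0, 0, [(0, [0], [2, 3]), (0, [1], [1, 5]), (0, [2], [0, 4])]),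
  (0, 0, 0, [(0, [0], [2, 3]), (0, [1], [1, 0]), (0, [2], [4, 5])]),
  (0, 0, 0, [(0, [0], [2, 3]), (0, [1], [4, 5]), (0, [2], [1, 0])]),
  (0, 0, 0, [(0, [0], [4, 1]), (0, [1], [0, 5]), (0, [2], [2, 3])]),
  (0, 0, 0, [(0, [0], [4, 1]), (0, [1], [2, 3]), (0, [2], [0, 5])]),
  (0, 0, 0, [(0, [0], [4, 2]), (0, [1], [0, 5]), (0, [2], [1, 3])]),
  (0, 0, 0, [(0, [0], [4, 2]), (0, [1], [1, 3]), (0, [2], [0, 5])]),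
  (0, 0, 0, [(0, [0], [4, 3]), (0, [1], [0, 5]), (0, [2], [1, 2])]),
  (0, 0, 0, [(0, [0], [4, 3]), (0, [1], [1, 2]), (0, [2], [0, 5])]),
  (0, 0, 0, [(0, [0], [4, 5]), (0, [1], [1, 0]), (0, [2], [2, 3])]),
  (0, 0, 0, [(0, [0], [4, 5]), (0, [1], [1, 3]), (0, [2], [2, 0])]),
  (0, 0, 0, [(0, [0], [4, 5]), (0, [1], [1, 2]), (0, [2], [3, 0])]),
  (0, 0, 0, [(0, [0], [4, 5]), (0, [1], [2, 0]), (0, [2], [1, 3])]),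
  (0, 0, 0, [(0, [0], [4, 5]), (0, [1], [2, 3]), (0, [2], [1, 0])]),
  (0, 0, 0, [(0, [0], [4, 5]), (0, [1], [3, 0]), (0, [2], [1, 2])]),
  (0, 0, 0, [(0, [0], [5, 1]), (0, [1], [0, 4]), (0, [2], [2, 3])]),
  (0, 0, 0, [(0, [0], [5, 1]), (0, [1], [2, 3]), (0, [2], [0, 4])]),
  (0, 0, 0, [(0, [0], [5, 2]), (0, [1], [0, 4]), (0, [2], [1, 3])]),
  (0, 0, 0, [(0, [0], [5, 2]), (0, [1], [1, 3]), (0, [2], [0, 4])]),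
  (0, 0, 0, [(0, [0], [5, 3]), (0, [1], [0, 4]), (0, [2], [1, 2])]),
  (0, 0, 0, [(0, [0], [5, 3]), (0, [1], [1, 2]), (0, [2], [0, 4])])]

def w23_0 : List (List Wit) := [[(0, 0, 0, 0, 0), (1, 0, 0, 0, 0), (36, 0, 0, 0, 0), (1, 0, 0, 0, 0), (36, 0, 0, 0, 0), (0, 0, 0, 0, 0), (2, 0, 0, 0, 0), (3, 0, 0, 0, 0), (36, 0, 0, 0, 0), (3, 0, 0, 0, 0), (36, 0, 0, 0, 0), (2, 0, 0, 0, 0), (2, 0, 0, 0, 0), (37, 0, 0, 0, 0), (0, 0, 0, 0, 0), (37, 0, 0, 0, 0), (3, 0, 0, 0, 0), (37, 0, 0, 0, 0), (1, 0, 0, 0, 0), (37, 0, 0, 0, 0), (4, 0, 0, 0, 0), (5, 0, 0, 0, 0), (38, 0, 0, 0, 0), (5, 0, 0, 0, 0), (38, 0, 0, 0, 0), (4, 0, 0, 0, 0), (6, 0, 0, 0, 0), (7, 0, 0, 0, 0), (38, 0, 0, 0, 0), (7, 0, 0, 0, 0), (38, 0, 0, 0, 0), (6, 0, 0, 0, 0), (6, 0,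 0, 0, 0), (39, 0, 0, 0, 0), (4, 0, 0, 0, 0), (39, 0, 0, 0, 0), (7, 0, 0, 0, 0), (39, 0, 0, 0, 0), (5, 0, 0, 0, 0), (39, 0, 0, 0, 0), (8, 0, 0, 0, 0), (9, 0, 0, 0, 0), (40, 0, 0, 0, 0), (9, 0, 0, 0, 0), (40, 0, 0, 0, 0), (8, 0, 0, 0, 0), (10, 0, 0, 0, 0), (11, 0, 0, 0, 0), (40, 0, 0, 0, 0), (11, 0, 0, 0, 0), (40, 0, 0, 0, 0), (10, 0, 0, 0, 0), (10, 0, 0, 0, 0), (41, 0, 0, 0, 0), (8, 0, 0, 0, 0), (41, 0, 0, 0, 0), (11, 0, 0, 0, 0), (41, 0, 0, 0, 0), (9, 0, 0, 0, 0), (41, 0, 0, 0, 0), (42, 0, 0, 0, 0), (43, 0, 0, 0, 0), (44, 0, 0, 0, 0), (43, 0, 0, 0, 0), (45, 0, 0, 0, 0), (46, 0, 0, 0, 0), (44, 0, 0, 0, 0), (46, 0, 0, 0, 0), (45, 0, 0, 0, 0), (47, 0, 0, 0, 0), (42, 0, 0, 0, 0), (47, 0, 0, 0, 0), (48, 0, 0, 0, 0), (49, 0, 0, 0,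 0), (50, 0, 0, 0, 0), (49, 0, 0, 0, 0), (51, 0, 0, 0, 0), (52, 0, 0, 0, 0), (50, 0, 0, 0, 0), (52, 0, 0, 0, 0), (51, 0, 0, 0, 0), (53, 0, 0, 0, 0), (48, 0, 0, 0, 0), (53, 0, 0, 0, 0), (0, 0, 0, 0, 0), (1, 0, 0, 0, 0), (2, 0, 0, 0, 0), (3, 0, 0, 0, 0), (54, 0, 0, 0, 0), (55, 0, 0, 0, 0), (56, 0, 0, 0, 0), (57, 0, 0, 0, 0), (58, 0, 0, 0, 0), (57, 0, 0, 0, 0), (58, 0, 0, 0, 0), (56, 0, 0, 0, 0), (54, 0, 0, 0, 0), (59, 0, 0, 0, 0), (55, 0, 0, 0, 0), (59, 0, 0, 0, 0), (60, 0, 0, 0, 0), (61, 0, 0, 0, 0), (62, 0, 0, 0, 0), (63, 0, 0, 0, 0), (64, 0, 0, 0, 0), (63, 0, 0, 0, 0), (64, 0, 0, 0, 0), (62, 0, 0, 0, 0), (60, 0, 0, 0, 0), (65, 0, 0, 0, 0), (61, 0, 0, 0, 0), (65, 0, 0, 0, 0), (12, 0, 0, 0, 0), (13, 0, 0, 0, 0), (14, 0, 0, 0,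 0), (15, 0, 0, 0, 0), (16, 0, 0, 0, 0), (17, 0, 0, 0, 0), (18, 0, 0, 0, 0), (19, 0, 0, 0, 0), (4, 0, 0, 0, 0), (5, 0, 0, 0, 0), (6, 0, 0, 0, 0), (7, 0, 0, 0, 0), (54, 0, 0, 0, 0), (55, 0, 0, 0, 0), (56, 0, 0, 0, 0), (57, 0, 0, 0, 0), (58, 0, 0, 0, 0), (57, 0, 0, 0, 0), (58, 0, 0, 0, 0), (56, 0, 0, 0, 0), (54, 0, 0, 0, 0), (59, 0, 0, 0, 0), (55, 0, 0, 0, 0), (59, 0, 0, 0, 0), (66, 0, 0, 0, 0), (67, 0, 0, 0, 0), (68, 0, 0, 0, 0), (69, 0, 0, 0, 0), (70, 0, 0, 0, 0), (69, 0, 0, 0, 0), (70, 0, 0, 0, 0), (68, 0, 0, 0, 0), (66, 0, 0, 0, 0), (71, 0, 0, 0, 0), (67, 0, 0, 0, 0), (71, 0, 0, 0, 0), (20, 0, 0, 0, 0), (21, 0, 0, 0, 0), (22, 0, 0, 0, 0), (23, 0, 0, 0, 0), (24, 0, 0, 0, 0), (25, 0, 0, 0, 0), (26, 0, 0, 0, 0), (27, 0, 0, 0,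 0), (8, 0, 0, 0, 0), (9, 0, 0, 0, 0), (10, 0, 0, 0, 0), (11, 0, 0, 0, 0), (60, 0, 0, 0, 0), (61, 0, 0, 0, 0), (62, 0, 0, 0, 0), (63, 0, 0, 0, 0), (64, 0, 0, 0, 0), (63, 0, 0, 0, 0), (64, 0, 0, 0, 0), (62, 0, 0, 0, 0), (60, 0, 0, 0, 0), (65, 0, 0, 0, 0), (61, 0, 0, 0, 0), (65, 0, 0, 0, 0), (66, 0, 0, 0, 0), (67, 0, 0, 0, 0), (68, 0, 0, 0, 0), (69, 0, 0, 0, 0), (70, 0, 0, 0, 0), (69, 0, 0, 0, 0), (70, 0, 0, 0, 0), (68, 0, 0, 0, 0), (66, 0, 0, 0, 0), (71, 0, 0, 0, 0), (67, 0, 0, 0, 0), (71, 0, 0, 0, 0), (28, 0, 0, 0, 0), (29, 0, 0, 0, 0), (30, 0, 0, 0, 0), (31, 0, 0, 0, 0), (32, 0, 0, 0, 0), (33, 0, 0, 0, 0), (34, 0, 0, 0, 0), (35, 0, 0, 0, 0), (42, 0, 0, 0, 0), (43, 0, 0, 0, 0), (44, 0, 0, 0, 0), (43, 0, 0, 0, 0), (45, 0, 0,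 0, 0), (46, 0, 0, 0, 0), (44, 0, 0, 0, 0), (46, 0, 0, 0, 0), (45, 0, 0, 0, 0), (47, 0, 0, 0, 0), (42, 0, 0, 0, 0), (47, 0, 0, 0, 0), (14, 0, 0, 0, 0), (72, 0, 0, 0, 0), (12, 0, 0, 0, 0), (72, 0, 0, 0, 0), (73, 0, 0, 0, 0), (13, 0, 0, 0, 0), (12, 0, 0, 0, 0), (13, 0, 0, 0, 0), (12, 0, 0, 0, 0), (73, 0, 0, 0, 0), (73, 0, 0, 0, 0), (15, 0, 0, 0, 0), (14, 0, 0, 0, 0), (15, 0, 0, 0, 0), (14, 0, 0, 0, 0), (73, 0, 0, 0, 0), (72, 0, 0, 0, 0), (15, 0, 0, 0, 0), (72, 0, 0, 0, 0), (13, 0, 0, 0, 0), (22, 0, 0, 0, 0), (74, 0, 0, 0, 0), (20, 0, 0, 0, 0), (74, 0, 0, 0, 0), (75, 0, 0, 0, 0), (21, 0, 0, 0, 0), (20, 0, 0, 0, 0), (21, 0, 0, 0, 0), (20, 0, 0, 0, 0), (75, 0, 0, 0, 0), (75, 0, 0, 0, 0), (23, 0, 0, 0, 0), (22, 0, 0, 0, 0), (23, 0,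 0, 0, 0), (22, 0, 0, 0, 0), (75, 0, 0, 0, 0), (74, 0, 0, 0, 0), (23, 0, 0, 0, 0), (74, 0, 0, 0, 0), (21, 0, 0, 0, 0), (30, 0, 0, 0, 0), (76, 0, 0, 0, 0), (28, 0, 0, 0, 0), (76, 0, 0, 0, 0), (77, 0, 0, 0, 0), (29, 0, 0, 0, 0), (28, 0, 0, 0, 0), (29, 0, 0, 0, 0), (28, 0, 0, 0, 0), (77, 0, 0, 0, 0), (77, 0, 0, 0, 0), (31, 0, 0, 0, 0), (30, 0, 0, 0, 0), (31, 0, 0, 0, 0), (30, 0, 0, 0, 0), (77, 0, 0, 0, 0), (76, 0, 0, 0, 0), (31, 0, 0, 0, 0), (76, 0, 0, 0, 0), (29, 0, 0, 0, 0), (78, 0, 0, 0, 0), (79, 0, 0, 0, 0), (78, 0, 0, 0, 0), (80, 0, 0, 0, 0), (81, 0, 0, 0, 0), (82, 0, 0, 0, 0), (81, 0, 0, 0, 0), (80, 0, 0, 0, 0), (83, 0, 0, 0, 0), (82, 0, 0, 0, 0), (83, 0, 0, 0, 0), (79, 0, 0, 0, 0), (48, 0, 0, 0, 0), (49, 0, 0, 0, 0), (50,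 0, 0, 0, 0), (49, 0, 0, 0, 0), (51, 0, 0, 0, 0), (52, 0, 0, 0, 0), (50, 0, 0, 0, 0), (52, 0, 0, 0, 0), (51, 0, 0, 0, 0), (53, 0, 0, 0, 0), (48, 0, 0, 0, 0), (53, 0, 0, 0, 0), (18, 0, 0, 0, 0), (84, 0, 0, 0, 0), (16, 0, 0, 0, 0), (84, 0, 0, 0, 0), (85, 0, 0, 0, 0), (17, 0, 0, 0, 0), (16, 0, 0, 0, 0), (17, 0, 0, 0, 0), (16, 0, 0, 0, 0), (85, 0, 0, 0, 0), (85, 0, 0, 0, 0), (19, 0, 0, 0, 0), (18, 0, 0, 0, 0), (19, 0, 0, 0, 0), (18, 0, 0, 0, 0), (85, 0, 0, 0, 0), (84, 0, 0, 0, 0), (19, 0, 0, 0, 0), (84, 0, 0, 0, 0), (17, 0, 0, 0, 0), (26, 0, 0, 0, 0), (86, 0, 0, 0, 0), (24, 0, 0, 0, 0), (86, 0, 0, 0, 0), (87, 0, 0, 0, 0), (25, 0, 0, 0, 0), (24, 0, 0, 0, 0), (25, 0, 0, 0, 0), (24, 0, 0, 0, 0), (87, 0, 0, 0, 0), (87, 0, 0, 0, 0),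 (27, 0, 0, 0, 0), (26, 0, 0, 0, 0), (27, 0, 0, 0, 0), (26, 0, 0, 0, 0), (87, 0, 0, 0, 0), (86, 0, 0, 0, 0), (27, 0, 0, 0, 0), (86, 0, 0, 0, 0), (25, 0, 0, 0, 0), (34, 0, 0, 0, 0), (88, 0, 0, 0, 0), (32, 0, 0, 0, 0), (88, 0, 0, 0, 0), (89, 0, 0, 0, 0), (33, 0, 0, 0, 0), (32, 0, 0, 0, 0), (33, 0, 0, 0, 0), (32, 0, 0, 0, 0), (89, 0, 0, 0, 0), (89, 0, 0, 0, 0), (35, 0, 0, 0, 0), (34, 0, 0, 0, 0), (35, 0, 0, 0, 0), (34, 0, 0, 0, 0), (89, 0, 0, 0, 0), (88, 0, 0, 0, 0), (35, 0, 0, 0, 0), (88, 0, 0, 0, 0), (33, 0, 0, 0, 0), (78, 0, 0, 0, 0), (79, 0, 0, 0, 0), (78, 0, 0, 0, 0), (80, 0, 0, 0, 0), (81, 0, 0, 0, 0), (82, 0, 0, 0, 0), (81, 0, 0, 0, 0), (80, 0, 0, 0, 0), (83, 0, 0, 0, 0), (82, 0, 0, 0, 0), (83, 0, 0, 0, 0), (79, 0, 0, 0,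 0)],
  [(3, 0, 0, 0, 0), (2, 0, 0, 0, 0), (37, 0, 0, 0, 0), (2, 0, 0, 0, 0), (37, 0, 0, 0, 0), (3, 0, 0, 0, 0), (1, 0, 0, 0, 0), (0, 0, 0, 0, 0), (37, 0, 0, 0, 0), (0, 0, 0, 0, 0), (37, 0, 0, 0, 0), (1, 0, 0, 0, 0), (1, 0, 0, 0, 0), (36, 0, 0, 0, 0), (3, 0, 0, 0, 0), (36, 0, 0, 0, 0), (0, 0, 0, 0, 0), (36, 0, 0, 0, 0), (2, 0, 0, 0, 0), (36, 0, 0, 0, 0), (7, 0, 0, 0, 0), (6, 0, 0, 0, 0), (39, 0, 0, 0, 0), (6, 0, 0, 0, 0), (39, 0, 0, 0, 0), (7, 0, 0, 0, 0), (5, 0, 0, 0, 0), (4, 0, 0, 0, 0), (39, 0, 0, 0, 0), (4, 0, 0, 0, 0), (39, 0, 0, 0, 0), (5, 0, 0, 0, 0), (5, 0, 0, 0, 0), (38, 0, 0, 0, 0), (7, 0, 0, 0, 0), (38, 0, 0, 0, 0), (4, 0, 0, 0, 0), (38, 0, 0, 0, 0), (6, 0, 0, 0, 0), (38, 0, 0, 0, 0), (11, 0, 0, 0, 0), (10, 0, 0,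 0, 0), (41, 0, 0, 0, 0), (10, 0, 0, 0, 0), (41, 0, 0, 0, 0), (11, 0, 0, 0, 0), (9, 0, 0, 0, 0), (8, 0, 0, 0, 0), (41, 0, 0, 0, 0), (8, 0, 0, 0, 0), (41, 0, 0, 0, 0), (9, 0, 0, 0, 0), (9, 0, 0, 0, 0), (40, 0, 0, 0, 0), (11, 0, 0, 0, 0), (40, 0, 0, 0, 0), (8, 0, 0, 0, 0), (40, 0, 0, 0, 0), (10, 0, 0, 0, 0), (40, 0, 0, 0, 0), (46, 0, 0, 0, 0), (45, 0, 0, 0, 0), (47, 0, 0, 0, 0), (45, 0, 0, 0, 0), (43, 0, 0, 0, 0), (42, 0, 0, 0, 0), (47, 0, 0, 0, 0), (42, 0, 0, 0, 0), (43, 0, 0, 0, 0), (44, 0, 0, 0, 0), (46, 0, 0, 0, 0), (44, 0, 0, 0, 0), (52, 0, 0, 0, 0), (51, 0, 0, 0, 0), (53, 0, 0, 0, 0), (51, 0, 0, 0, 0), (49, 0, 0, 0, 0), (48, 0, 0, 0, 0), (53, 0, 0, 0, 0), (48, 0, 0, 0, 0), (49, 0, 0, 0, 0), (50, 0, 0, 0, 0), (52, 0, 0, 0,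 0), (50, 0, 0, 0, 0), (3, 0, 0, 0, 0), (2, 0, 0, 0, 0), (1, 0, 0, 0, 0), (0, 0, 0, 0, 0), (57, 0, 0, 0, 0), (56, 0, 0, 0, 0), (55, 0, 0, 0, 0), (54, 0, 0, 0, 0), (59, 0, 0, 0, 0), (54, 0, 0, 0, 0), (59, 0, 0, 0, 0), (55, 0, 0, 0, 0), (57, 0, 0, 0, 0), (58, 0, 0, 0, 0), (56, 0, 0, 0, 0), (58, 0, 0, 0, 0), (63, 0, 0, 0, 0), (62, 0, 0, 0, 0), (61, 0, 0, 0, 0), (60, 0, 0, 0, 0), (65, 0, 0, 0, 0), (60, 0, 0, 0, 0), (65, 0, 0, 0, 0), (61, 0, 0, 0, 0), (63, 0, 0, 0, 0), (64, 0, 0, 0, 0), (62, 0, 0, 0, 0), (64, 0, 0, 0, 0), (15, 0, 0, 0, 0), (14, 0, 0, 0, 0), (13, 0, 0, 0, 0), (12, 0, 0, 0, 0), (19, 0, 0, 0, 0), (18, 0, 0, 0, 0), (17, 0, 0, 0, 0), (16, 0, 0, 0, 0), (7, 0, 0, 0, 0), (6, 0, 0, 0, 0), (5, 0, 0, 0, 0), (4, 0, 0, 0, 0),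 (57, 0, 0, 0, 0), (56, 0, 0, 0, 0), (55, 0, 0, 0, 0), (54, 0, 0, 0, 0), (59, 0, 0, 0, 0), (54, 0, 0, 0, 0), (59, 0, 0, 0, 0), (55, 0, 0, 0, 0), (57, 0, 0, 0, 0), (58, 0, 0, 0, 0), (56, 0, 0, 0, 0), (58, 0, 0, 0, 0), (69, 0, 0, 0, 0), (68, 0, 0, 0, 0), (67, 0, 0, 0, 0), (66, 0, 0, 0, 0), (71, 0, 0, 0, 0), (66, 0, 0, 0, 0), (71, 0, 0, 0, 0), (67, 0, 0, 0, 0), (69, 0, 0, 0, 0), (70, 0, 0, 0, 0), (68, 0, 0, 0, 0), (70, 0, 0, 0, 0), (23, 0, 0, 0, 0), (22, 0, 0, 0, 0), (21, 0, 0, 0, 0), (20, 0, 0, 0, 0), (27, 0, 0, 0, 0), (26, 0, 0, 0, 0), (25, 0, 0, 0, 0), (24, 0, 0, 0, 0), (11, 0, 0, 0, 0), (10, 0, 0, 0, 0), (9, 0, 0, 0, 0), (8, 0, 0, 0, 0), (63, 0, 0, 0, 0), (62, 0, 0, 0, 0), (61, 0, 0, 0, 0), (60, 0, 0, 0, 0), (65, 0, 0, 0, 0),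 (60, 0, 0, 0, 0), (65, 0, 0, 0, 0), (61, 0, 0, 0, 0), (63, 0, 0, 0, 0), (64, 0, 0, 0, 0), (62, 0, 0, 0, 0), (64, 0, 0, 0, 0), (69, 0, 0, 0, 0), (68, 0, 0, 0, 0), (67, 0, 0, 0, 0), (66, 0, 0, 0, 0), (71, 0, 0, 0, 0), (66, 0, 0, 0, 0), (71, 0, 0, 0, 0), (67, 0, 0, 0, 0), (69, 0, 0, 0, 0), (70, 0, 0, 0, 0), (68, 0, 0, 0, 0), (70, 0, 0, 0, 0), (31, 0, 0, 0, 0), (30, 0, 0, 0, 0), (29, 0, 0, 0, 0), (28, 0, 0, 0, 0), (35, 0, 0, 0, 0), (34, 0, 0, 0, 0), (33, 0, 0, 0, 0), (32, 0, 0, 0, 0), (46, 0, 0, 0, 0), (45, 0, 0, 0, 0), (47, 0, 0, 0, 0), (45, 0, 0, 0, 0), (43, 0, 0, 0, 0), (42, 0, 0, 0, 0), (47, 0, 0, 0, 0), (42, 0, 0, 0, 0), (43, 0, 0, 0, 0), (44, 0, 0, 0, 0), (46, 0, 0, 0, 0), (44, 0, 0, 0, 0), (13, 0, 0, 0, 0), (73, 0, 0, 0,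 0), (15, 0, 0, 0, 0), (73, 0, 0, 0, 0), (72, 0, 0, 0, 0), (14, 0, 0, 0, 0), (15, 0, 0, 0, 0), (14, 0, 0, 0, 0), (15, 0, 0, 0, 0), (72, 0, 0, 0, 0), (72, 0, 0, 0, 0), (12, 0, 0, 0, 0), (13, 0, 0, 0, 0), (12, 0, 0, 0, 0), (13, 0, 0, 0, 0), (72, 0, 0, 0, 0), (73, 0, 0, 0, 0), (12, 0, 0, 0, 0), (73, 0, 0, 0, 0), (14, 0, 0, 0, 0), (21, 0, 0, 0, 0), (75, 0, 0, 0, 0), (23, 0, 0, 0, 0), (75, 0, 0, 0, 0), (74, 0, 0, 0, 0), (22, 0, 0, 0, 0), (23, 0, 0, 0, 0), (22, 0, 0, 0, 0), (23, 0, 0, 0, 0), (74, 0, 0, 0, 0), (74, 0, 0, 0, 0), (20, 0, 0, 0, 0), (21, 0, 0, 0, 0), (20, 0, 0, 0, 0), (21, 0, 0, 0, 0), (74, 0, 0, 0, 0), (75, 0, 0, 0, 0), (20, 0, 0, 0, 0), (75, 0, 0, 0, 0), (22, 0, 0, 0, 0), (29, 0, 0, 0, 0), (77, 0, 0, 0, 0), (31, 0, 0,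 0, 0), (77, 0, 0, 0, 0), (76, 0, 0, 0, 0), (30, 0, 0, 0, 0), (31, 0, 0, 0, 0), (30, 0, 0, 0, 0), (31, 0, 0, 0, 0), (76, 0, 0, 0, 0), (76, 0, 0, 0, 0), (28, 0, 0, 0, 0), (29, 0, 0, 0, 0), (28, 0, 0, 0, 0), (29, 0, 0, 0, 0), (76, 0, 0, 0, 0), (77, 0, 0, 0, 0), (28, 0, 0, 0, 0), (77, 0, 0, 0, 0), (30, 0, 0, 0, 0), (82, 0, 0, 0, 0), (81, 0, 0, 0, 0), (82, 0, 0, 0, 0), (83, 0, 0, 0, 0), (79, 0, 0, 0, 0), (78, 0, 0, 0, 0), (79, 0, 0, 0, 0), (83, 0, 0, 0, 0), (80, 0, 0, 0, 0), (78, 0, 0, 0, 0), (80, 0, 0, 0, 0), (81, 0, 0, 0, 0), (52, 0, 0, 0, 0), (51, 0, 0, 0, 0), (53, 0, 0, 0, 0), (51, 0, 0, 0, 0), (49, 0, 0, 0, 0), (48, 0, 0, 0, 0), (53, 0, 0, 0, 0), (48, 0, 0, 0, 0), (49, 0, 0, 0, 0), (50, 0, 0, 0, 0), (52, 0, 0, 0, 0), (50, 0,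 0, 0, 0), (17, 0, 0, 0, 0), (85, 0, 0, 0, 0), (19, 0, 0, 0, 0), (85, 0, 0, 0, 0), (84, 0, 0, 0, 0), (18, 0, 0, 0, 0), (19, 0, 0, 0, 0), (18, 0, 0, 0, 0), (19, 0, 0, 0, 0), (84, 0, 0, 0, 0), (84, 0, 0, 0, 0), (16, 0, 0, 0, 0), (17, 0, 0, 0, 0), (16, 0, 0, 0, 0), (17, 0, 0, 0, 0), (84, 0, 0, 0, 0), (85, 0, 0, 0, 0), (16, 0, 0, 0, 0), (85, 0, 0, 0, 0), (18, 0, 0, 0, 0), (25, 0, 0, 0, 0), (87, 0, 0, 0, 0), (27, 0, 0, 0, 0), (87, 0, 0, 0, 0), (86, 0, 0, 0, 0), (26, 0, 0, 0, 0), (27, 0, 0, 0, 0), (26, 0, 0, 0, 0), (27, 0, 0, 0, 0), (86, 0, 0, 0, 0), (86, 0, 0, 0, 0), (24, 0, 0, 0, 0), (25, 0, 0, 0, 0), (24, 0, 0, 0, 0), (25, 0, 0, 0, 0), (86, 0, 0, 0, 0), (87, 0, 0, 0, 0), (24, 0, 0, 0, 0), (87, 0, 0, 0, 0), (26, 0, 0, 0, 0), (33,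 0, 0, 0, 0), (89, 0, 0, 0, 0), (35, 0, 0, 0, 0), (89, 0, 0, 0, 0), (88, 0, 0, 0, 0), (34, 0, 0, 0, 0), (35, 0, 0, 0, 0), (34, 0, 0, 0, 0), (35, 0, 0, 0, 0), (88, 0, 0, 0, 0), (88, 0, 0, 0, 0), (32, 0, 0, 0, 0), (33, 0, 0, 0, 0), (32, 0, 0, 0, 0), (33, 0, 0, 0, 0), (88, 0, 0, 0, 0), (89, 0, 0, 0, 0), (32, 0, 0, 0, 0), (89, 0, 0, 0, 0), (34, 0, 0, 0, 0), (82, 0, 0, 0, 0), (81, 0, 0, 0, 0), (82, 0, 0, 0, 0), (83, 0, 0, 0, 0), (79, 0, 0, 0, 0), (78, 0, 0, 0, 0), (79, 0, 0, 0, 0), (83, 0, 0, 0, 0), (80, 0, 0, 0, 0), (78, 0, 0, 0, 0), (80, 0, 0, 0, 0), (81, 0, 0, 0, 0)],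
  [(20, 0, 0, 0, 0), (24, 0, 0, 0, 0), (70, 0, 0, 0, 0), (24, 0, 0, 0, 0), (70, 0, 0, 0, 0), (20, 0, 0, 0, 0), (28, 0, 0, 0, 0), (32, 0, 0, 0, 0), (70, 0, 0, 0, 0), (32, 0, 0, 0, 0), (70, 0, 0, 0, 0), (28, 0, 0, 0, 0), (28, 0, 0, 0, 0), (78, 0, 0, 0, 0), (20, 0, 0, 0, 0), (78, 0, 0, 0, 0), (32, 0, 0, 0, 0), (78, 0, 0, 0, 0), (24, 0, 0, 0, 0), (78, 0, 0, 0, 0), (12, 0, 0, 0, 0), (16, 0, 0, 0, 0), (64, 0, 0, 0, 0), (16, 0, 0, 0, 0), (64, 0, 0, 0, 0), (12, 0, 0, 0, 0), (30, 0, 0, 0, 0), (34, 0, 0, 0, 0), (64, 0, 0, 0, 0), (34, 0, 0, 0, 0), (64, 0, 0, 0, 0), (30, 0, 0, 0, 0), (30, 0, 0, 0, 0), (81, 0, 0, 0, 0), (12, 0, 0, 0, 0), (81, 0, 0, 0, 0), (34, 0, 0, 0, 0), (81, 0, 0, 0, 0), (16, 0, 0, 0, 0), (81, 0, 0, 0, 0), (14, 0, 0,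 0, 0), (18, 0, 0, 0, 0), (58, 0, 0, 0, 0), (18, 0, 0, 0, 0), (58, 0, 0, 0, 0), (14, 0, 0, 0, 0), (22, 0, 0, 0, 0), (26, 0, 0, 0, 0), (58, 0, 0, 0, 0), (26, 0, 0, 0, 0), (58, 0, 0, 0, 0), (22, 0, 0, 0, 0), (22, 0, 0, 0, 0), (83, 0, 0, 0, 0), (14, 0, 0, 0, 0), (83, 0, 0, 0, 0), (26, 0, 0, 0, 0), (83, 0, 0, 0, 0), (18, 0, 0, 0, 0), (83, 0, 0, 0, 0), (60, 0, 0, 0, 0), (84, 0, 0, 0, 0), (54, 0, 0, 0, 0), (84, 0, 0, 0, 0), (66, 0, 0, 0, 0), (86, 0, 0, 0, 0), (54, 0, 0, 0, 0), (86, 0, 0, 0, 0), (66, 0, 0, 0, 0), (88, 0, 0, 0, 0), (60, 0, 0, 0, 0), (88, 0, 0, 0, 0), (61, 0, 0, 0, 0), (72, 0, 0, 0, 0), (55, 0, 0, 0, 0), (72, 0, 0, 0, 0), (67, 0, 0, 0, 0), (74, 0, 0, 0, 0), (55, 0, 0, 0, 0), (74, 0, 0, 0, 0), (67, 0, 0, 0, 0), (76, 0,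 0, 0, 0), (61, 0, 0, 0, 0), (76, 0, 0, 0, 0), (20, 0, 0, 0, 0), (24, 0, 0, 0, 0), (28, 0, 0, 0, 0), (32, 0, 0, 0, 0), (44, 0, 0, 0, 0), (50, 0, 0, 0, 0), (77, 0, 0, 0, 0), (89, 0, 0, 0, 0), (40, 0, 0, 0, 0), (89, 0, 0, 0, 0), (40, 0, 0, 0, 0), (77, 0, 0, 0, 0), (44, 0, 0, 0, 0), (80, 0, 0, 0, 0), (50, 0, 0, 0, 0), (80, 0, 0, 0, 0), (42, 0, 0, 0, 0), (48, 0, 0, 0, 0), (75, 0, 0, 0, 0), (87, 0, 0, 0, 0), (38, 0, 0, 0, 0), (87, 0, 0, 0, 0), (38, 0, 0, 0, 0), (75, 0, 0, 0, 0), (42, 0, 0, 0, 0), (79, 0, 0, 0, 0), (48, 0, 0, 0, 0), (79, 0, 0, 0, 0), (4, 0, 0, 0, 0), (25, 0, 0, 0, 0), (8, 0, 0, 0, 0), (33, 0, 0, 0, 0), (5, 0, 0, 0, 0), (21, 0, 0, 0, 0), (9, 0, 0, 0, 0), (29, 0, 0, 0, 0), (12, 0, 0, 0, 0), (16, 0, 0, 0, 0), (30, 0,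 0, 0, 0), (34, 0, 0, 0, 0), (44, 0, 0, 0, 0), (50, 0, 0, 0, 0), (77, 0, 0, 0, 0), (89, 0, 0, 0, 0), (40, 0, 0, 0, 0), (89, 0, 0, 0, 0), (40, 0, 0, 0, 0), (77, 0, 0, 0, 0), (44, 0, 0, 0, 0), (80, 0, 0, 0, 0), (50, 0, 0, 0, 0), (80, 0, 0, 0, 0), (45, 0, 0, 0, 0), (51, 0, 0, 0, 0), (73, 0, 0, 0, 0), (85, 0, 0, 0, 0), (36, 0, 0, 0, 0), (85, 0, 0, 0, 0), (36, 0, 0, 0, 0), (73, 0, 0, 0, 0), (45, 0, 0, 0, 0), (82, 0, 0, 0, 0), (51, 0, 0, 0, 0), (82, 0, 0, 0, 0), (0, 0, 0, 0, 0), (17, 0, 0, 0, 0), (10, 0, 0, 0, 0), (35, 0, 0, 0, 0), (1, 0, 0, 0, 0), (13, 0, 0, 0, 0), (11, 0, 0, 0, 0), (31, 0, 0, 0, 0), (14, 0, 0, 0, 0), (18, 0, 0, 0, 0), (22, 0, 0, 0, 0), (26, 0, 0, 0, 0), (42, 0, 0, 0, 0), (48, 0, 0, 0, 0), (75, 0, 0, 0, 0), (87,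 0, 0, 0, 0), (38, 0, 0, 0, 0), (87, 0, 0, 0, 0), (38, 0, 0, 0, 0), (75, 0, 0, 0, 0), (42, 0, 0, 0, 0), (79, 0, 0, 0, 0), (48, 0, 0, 0, 0), (79, 0, 0, 0, 0), (45, 0, 0, 0, 0), (51, 0, 0, 0, 0), (73, 0, 0, 0, 0), (85, 0, 0, 0, 0), (36, 0, 0, 0, 0), (85, 0, 0, 0, 0), (36, 0, 0, 0, 0), (73, 0, 0, 0, 0), (45, 0, 0, 0, 0), (82, 0, 0, 0, 0), (51, 0, 0, 0, 0), (82, 0, 0, 0, 0), (2, 0, 0, 0, 0), (19, 0, 0, 0, 0), (6, 0, 0, 0, 0), (27, 0, 0, 0, 0), (3, 0, 0, 0, 0), (15, 0, 0, 0, 0), (7, 0, 0, 0, 0), (23, 0, 0, 0, 0), (60, 0, 0, 0, 0), (84, 0, 0, 0, 0), (54, 0, 0, 0, 0), (84, 0, 0, 0, 0), (66, 0, 0, 0, 0), (86, 0, 0, 0, 0), (54, 0, 0, 0, 0), (86, 0, 0, 0, 0), (66, 0, 0, 0, 0), (88, 0, 0, 0, 0), (60, 0, 0, 0, 0), (88, 0, 0, 0, 0), (8,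 0, 0, 0, 0), (49, 0, 0, 0, 0), (4, 0, 0, 0, 0), (49, 0, 0, 0, 0), (68, 0, 0, 0, 0), (25, 0, 0, 0, 0), (4, 0, 0, 0, 0), (25, 0, 0, 0, 0), (4, 0, 0, 0, 0), (68, 0, 0, 0, 0), (68, 0, 0, 0, 0), (33, 0, 0, 0, 0), (8, 0, 0, 0, 0), (33, 0, 0, 0, 0), (8, 0, 0, 0, 0), (68, 0, 0, 0, 0), (49, 0, 0, 0, 0), (33, 0, 0, 0, 0), (49, 0, 0, 0, 0), (25, 0, 0, 0, 0), (10, 0, 0, 0, 0), (52, 0, 0, 0, 0), (0, 0, 0, 0, 0), (52, 0, 0, 0, 0), (62, 0, 0, 0, 0), (17, 0, 0, 0, 0), (0, 0, 0, 0, 0), (17, 0, 0, 0, 0), (0, 0, 0, 0, 0), (62, 0, 0, 0, 0), (62, 0, 0, 0, 0), (35, 0, 0, 0, 0), (10, 0, 0, 0, 0), (35, 0, 0, 0, 0), (10, 0, 0, 0, 0), (62, 0, 0, 0, 0), (52, 0, 0, 0, 0), (35, 0, 0, 0, 0), (52, 0, 0, 0, 0), (17, 0, 0, 0, 0), (6, 0, 0, 0, 0), (53, 0, 0,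 0, 0), (2, 0, 0, 0, 0), (53, 0, 0, 0, 0), (56, 0, 0, 0, 0), (19, 0, 0, 0, 0), (2, 0, 0, 0, 0), (19, 0, 0, 0, 0), (2, 0, 0, 0, 0), (56, 0, 0, 0, 0), (56, 0, 0, 0, 0), (27, 0, 0, 0, 0), (6, 0, 0, 0, 0), (27, 0, 0, 0, 0), (6, 0, 0, 0, 0), (56, 0, 0, 0, 0), (53, 0, 0, 0, 0), (27, 0, 0, 0, 0), (53, 0, 0, 0, 0), (19, 0, 0, 0, 0), (37, 0, 0, 0, 0), (65, 0, 0, 0, 0), (37, 0, 0, 0, 0), (59, 0, 0, 0, 0), (39, 0, 0, 0, 0), (71, 0, 0, 0, 0), (39, 0, 0, 0, 0), (59, 0, 0, 0, 0), (41, 0, 0, 0, 0), (71, 0, 0, 0, 0), (41, 0, 0, 0, 0), (65, 0, 0, 0, 0), (61, 0, 0, 0, 0), (72, 0, 0, 0, 0), (55, 0, 0, 0, 0), (72, 0, 0, 0, 0), (67, 0, 0, 0, 0), (74, 0, 0, 0, 0), (55, 0, 0, 0, 0), (74, 0, 0, 0, 0), (67, 0, 0, 0, 0), (76, 0, 0, 0, 0), (61, 0, 0,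 0, 0), (76, 0, 0, 0, 0), (9, 0, 0, 0, 0), (43, 0, 0, 0, 0), (5, 0, 0, 0, 0), (43, 0, 0, 0, 0), (69, 0, 0, 0, 0), (21, 0, 0, 0, 0), (5, 0, 0, 0, 0), (21, 0, 0, 0, 0), (5, 0, 0, 0, 0), (69, 0, 0, 0, 0), (69, 0, 0, 0, 0), (29, 0, 0, 0, 0), (9, 0, 0, 0, 0), (29, 0, 0, 0, 0), (9, 0, 0, 0, 0), (69, 0, 0, 0, 0), (43, 0, 0, 0, 0), (29, 0, 0, 0, 0), (43, 0, 0, 0, 0), (21, 0, 0, 0, 0), (11, 0, 0, 0, 0), (46, 0, 0, 0, 0), (1, 0, 0, 0, 0), (46, 0, 0, 0, 0), (63, 0, 0, 0, 0), (13, 0, 0, 0, 0), (1, 0, 0, 0, 0), (13, 0, 0, 0, 0), (1, 0, 0, 0, 0), (63, 0, 0, 0, 0), (63, 0, 0, 0, 0), (31, 0, 0, 0, 0), (11, 0, 0, 0, 0), (31, 0, 0, 0, 0), (11, 0, 0, 0, 0), (63, 0, 0, 0, 0), (46, 0, 0, 0, 0), (31, 0, 0, 0, 0), (46, 0, 0, 0, 0), (13, 0, 0, 0, 0),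 (7, 0, 0, 0, 0), (47, 0, 0, 0, 0), (3, 0, 0, 0, 0), (47, 0, 0, 0, 0), (57, 0, 0, 0, 0), (15, 0, 0, 0, 0), (3, 0, 0, 0, 0), (15, 0, 0, 0, 0), (3, 0, 0, 0, 0), (57, 0, 0, 0, 0), (57, 0, 0, 0, 0), (23, 0, 0, 0, 0), (7, 0, 0, 0, 0), (23, 0, 0, 0, 0), (7, 0, 0, 0, 0), (57, 0, 0, 0, 0), (47, 0, 0, 0, 0), (23, 0, 0, 0, 0), (47, 0, 0, 0, 0), (15, 0, 0, 0, 0), (37, 0, 0, 0, 0), (65, 0, 0, 0, 0), (37, 0, 0, 0, 0), (59, 0, 0, 0, 0), (39, 0, 0, 0, 0), (71, 0, 0, 0, 0), (39, 0, 0, 0, 0), (59, 0, 0, 0, 0), (41, 0, 0, 0, 0), (71, 0, 0, 0, 0), (41, 0, 0, 0, 0), (65, 0, 0, 0, 0)],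
  [(32, 0, 0, 0, 0), (28, 0, 0, 0, 0), (78, 0, 0, 0, 0), (28, 0, 0, 0, 0), (78, 0, 0, 0, 0), (32, 0, 0, 0, 0), (24, 0, 0, 0, 0), (20, 0, 0, 0, 0), (78, 0, 0, 0, 0), (20, 0, 0, 0, 0), (78, 0, 0, 0, 0), (24, 0, 0, 0, 0), (24, 0, 0, 0, 0), (70, 0, 0, 0, 0), (32, 0, 0, 0, 0), (70, 0, 0, 0, 0), (20, 0, 0, 0, 0), (70, 0, 0, 0, 0), (28, 0, 0, 0, 0), (70, 0, 0, 0, 0), (34, 0, 0, 0, 0), (30, 0, 0, 0, 0), (81, 0, 0, 0, 0), (30, 0, 0, 0, 0), (81, 0, 0, 0, 0), (34, 0, 0, 0, 0), (16, 0, 0, 0, 0), (12, 0, 0, 0, 0), (81, 0, 0, 0, 0), (12, 0, 0, 0, 0), (81, 0, 0, 0, 0), (16, 0, 0, 0, 0), (16, 0, 0, 0, 0), (64, 0, 0, 0, 0), (34, 0, 0, 0, 0), (64, 0, 0, 0, 0), (12, 0, 0, 0, 0), (64, 0, 0, 0, 0), (30, 0, 0, 0, 0), (64, 0, 0, 0, 0), (26, 0, 0,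 0, 0), (22, 0, 0, 0, 0), (83, 0, 0, 0, 0), (22, 0, 0, 0, 0), (83, 0, 0, 0, 0), (26, 0, 0, 0, 0), (18, 0, 0, 0, 0), (14, 0, 0, 0, 0), (83, 0, 0, 0, 0), (14, 0, 0, 0, 0), (83, 0, 0, 0, 0), (18, 0, 0, 0, 0), (18, 0, 0, 0, 0), (58, 0, 0, 0, 0), (26, 0, 0, 0, 0), (58, 0, 0, 0, 0), (14, 0, 0, 0, 0), (58, 0, 0, 0, 0), (22, 0, 0, 0, 0), (58, 0, 0, 0, 0), (86, 0, 0, 0, 0), (66, 0, 0, 0, 0), (88, 0, 0, 0, 0), (66, 0, 0, 0, 0), (84, 0, 0, 0, 0), (60, 0, 0, 0, 0), (88, 0, 0, 0, 0), (60, 0, 0, 0, 0), (84, 0, 0, 0, 0), (54, 0, 0, 0, 0), (86, 0, 0, 0, 0), (54, 0, 0, 0, 0), (74, 0, 0, 0, 0), (67, 0, 0, 0, 0), (76, 0, 0, 0, 0), (67, 0, 0, 0, 0), (72, 0, 0, 0, 0), (61, 0, 0, 0, 0), (76, 0, 0, 0, 0), (61, 0, 0, 0, 0), (72, 0, 0, 0, 0), (55, 0,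 0, 0, 0), (74, 0, 0, 0, 0), (55, 0, 0, 0, 0), (32, 0, 0, 0, 0), (28, 0, 0, 0, 0), (24, 0, 0, 0, 0), (20, 0, 0, 0, 0), (89, 0, 0, 0, 0), (77, 0, 0, 0, 0), (50, 0, 0, 0, 0), (44, 0, 0, 0, 0), (80, 0, 0, 0, 0), (44, 0, 0, 0, 0), (80, 0, 0, 0, 0), (50, 0, 0, 0, 0), (89, 0, 0, 0, 0), (40, 0, 0, 0, 0), (77, 0, 0, 0, 0), (40, 0, 0, 0, 0), (87, 0, 0, 0, 0), (75, 0, 0, 0, 0), (48, 0, 0, 0, 0), (42, 0, 0, 0, 0), (79, 0, 0, 0, 0), (42, 0, 0, 0, 0), (79, 0, 0, 0, 0), (48, 0, 0, 0, 0), (87, 0, 0, 0, 0), (38, 0, 0, 0, 0), (75, 0, 0, 0, 0), (38, 0, 0, 0, 0), (33, 0, 0, 0, 0), (8, 0, 0, 0, 0), (25, 0, 0, 0, 0), (4, 0, 0, 0, 0), (29, 0, 0, 0, 0), (9, 0, 0, 0, 0), (21, 0, 0, 0, 0), (5, 0, 0, 0, 0), (34, 0, 0, 0, 0), (30, 0, 0, 0, 0), (16, 0,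 0, 0, 0), (12, 0, 0, 0, 0), (89, 0, 0, 0, 0), (77, 0, 0, 0, 0), (50, 0, 0, 0, 0), (44, 0, 0, 0, 0), (80, 0, 0, 0, 0), (44, 0, 0, 0, 0), (80, 0, 0, 0, 0), (50, 0, 0, 0, 0), (89, 0, 0, 0, 0), (40, 0, 0, 0, 0), (77, 0, 0, 0, 0), (40, 0, 0, 0, 0), (85, 0, 0, 0, 0), (73, 0, 0, 0, 0), (51, 0, 0, 0, 0), (45, 0, 0, 0, 0), (82, 0, 0, 0, 0), (45, 0, 0, 0, 0), (82, 0, 0, 0, 0), (51, 0, 0, 0, 0), (85, 0, 0, 0, 0), (36, 0, 0, 0, 0), (73, 0, 0, 0, 0), (36, 0, 0, 0, 0), (35, 0, 0, 0, 0), (10, 0, 0, 0, 0), (17, 0, 0, 0, 0), (0, 0, 0, 0, 0), (31, 0, 0, 0, 0), (11, 0, 0, 0, 0), (13, 0, 0, 0, 0), (1, 0, 0, 0, 0), (26, 0, 0, 0, 0), (22, 0, 0, 0, 0), (18, 0, 0, 0, 0), (14, 0, 0, 0, 0), (87, 0, 0, 0, 0), (75, 0, 0, 0, 0), (48, 0, 0, 0, 0), (42,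 0, 0, 0, 0), (79, 0, 0, 0, 0), (42, 0, 0, 0, 0), (79, 0, 0, 0, 0), (48, 0, 0, 0, 0), (87, 0, 0, 0, 0), (38, 0, 0, 0, 0), (75, 0, 0, 0, 0), (38, 0, 0, 0, 0), (85, 0, 0, 0, 0), (73, 0, 0, 0, 0), (51, 0, 0, 0, 0), (45, 0, 0, 0, 0), (82, 0, 0, 0, 0), (45, 0, 0, 0, 0), (82, 0, 0, 0, 0), (51, 0, 0, 0, 0), (85, 0, 0, 0, 0), (36, 0, 0, 0, 0), (73, 0, 0, 0, 0), (36, 0, 0, 0, 0), (27, 0, 0, 0, 0), (6, 0, 0, 0, 0), (19, 0, 0, 0, 0), (2, 0, 0, 0, 0), (23, 0, 0, 0, 0), (7, 0, 0, 0, 0), (15, 0, 0, 0, 0), (3, 0, 0, 0, 0), (86, 0, 0, 0, 0), (66, 0, 0, 0, 0), (88, 0, 0, 0, 0), (66, 0, 0, 0, 0), (84, 0, 0, 0, 0), (60, 0, 0, 0, 0), (88, 0, 0, 0, 0), (60, 0, 0, 0, 0), (84, 0, 0, 0, 0), (54, 0, 0, 0, 0), (86, 0, 0, 0, 0), (54, 0, 0, 0, 0), (25,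 0, 0, 0, 0), (68, 0, 0, 0, 0), (33, 0, 0, 0, 0), (68, 0, 0, 0, 0), (49, 0, 0, 0, 0), (8, 0, 0, 0, 0), (33, 0, 0, 0, 0), (8, 0, 0, 0, 0), (33, 0, 0, 0, 0), (49, 0, 0, 0, 0), (49, 0, 0, 0, 0), (4, 0, 0, 0, 0), (25, 0, 0, 0, 0), (4, 0, 0, 0, 0), (25, 0, 0, 0, 0), (49, 0, 0, 0, 0), (68, 0, 0, 0, 0), (4, 0, 0, 0, 0), (68, 0, 0, 0, 0), (8, 0, 0, 0, 0), (17, 0, 0, 0, 0), (62, 0, 0, 0, 0), (35, 0, 0, 0, 0), (62, 0, 0, 0, 0), (52, 0, 0, 0, 0), (10, 0, 0, 0, 0), (35, 0, 0, 0, 0), (10, 0, 0, 0, 0), (35, 0, 0, 0, 0), (52, 0, 0, 0, 0), (52, 0, 0, 0, 0), (0, 0, 0, 0, 0), (17, 0, 0, 0, 0), (0, 0, 0, 0, 0), (17, 0, 0, 0, 0), (52, 0, 0, 0, 0), (62, 0, 0, 0, 0), (0, 0, 0, 0, 0), (62, 0, 0, 0, 0), (10, 0, 0, 0, 0), (19, 0, 0, 0, 0), (56, 0, 0,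 0, 0), (27, 0, 0, 0, 0), (56, 0, 0, 0, 0), (53, 0, 0, 0, 0), (6, 0, 0, 0, 0), (27, 0, 0, 0, 0), (6, 0, 0, 0, 0), (27, 0, 0, 0, 0), (53, 0, 0, 0, 0), (53, 0, 0, 0, 0), (2, 0, 0, 0, 0), (19, 0, 0, 0, 0), (2, 0, 0, 0, 0), (19, 0, 0, 0, 0), (53, 0, 0, 0, 0), (56, 0, 0, 0, 0), (2, 0, 0, 0, 0), (56, 0, 0, 0, 0), (6, 0, 0, 0, 0), (71, 0, 0, 0, 0), (39, 0, 0, 0, 0), (71, 0, 0, 0, 0), (41, 0, 0, 0, 0), (65, 0, 0, 0, 0), (37, 0, 0, 0, 0), (65, 0, 0, 0, 0), (41, 0, 0, 0, 0), (59, 0, 0, 0, 0), (37, 0, 0, 0, 0), (59, 0, 0, 0, 0), (39, 0, 0, 0, 0), (74, 0, 0, 0, 0), (67, 0, 0, 0, 0), (76, 0, 0, 0, 0), (67, 0, 0, 0, 0), (72, 0, 0, 0, 0), (61, 0, 0, 0, 0), (76, 0, 0, 0, 0), (61, 0, 0, 0, 0), (72, 0, 0, 0, 0), (55, 0, 0, 0, 0), (74, 0, 0, 0,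 0), (55, 0, 0, 0, 0), (21, 0, 0, 0, 0), (69, 0, 0, 0, 0), (29, 0, 0, 0, 0), (69, 0, 0, 0, 0), (43, 0, 0, 0, 0), (9, 0, 0, 0, 0), (29, 0, 0, 0, 0), (9, 0, 0, 0, 0), (29, 0, 0, 0, 0), (43, 0, 0, 0, 0), (43, 0, 0, 0, 0), (5, 0, 0, 0, 0), (21, 0, 0, 0, 0), (5, 0, 0, 0, 0), (21, 0, 0, 0, 0), (43, 0, 0, 0, 0), (69, 0, 0, 0, 0), (5, 0, 0, 0, 0), (69, 0, 0, 0, 0), (9, 0, 0, 0, 0), (13, 0, 0, 0, 0), (63, 0, 0, 0, 0), (31, 0, 0, 0, 0), (63, 0, 0, 0, 0), (46, 0, 0, 0, 0), (11, 0, 0, 0, 0), (31, 0, 0, 0, 0), (11, 0, 0, 0, 0), (31, 0, 0, 0, 0), (46, 0, 0, 0, 0), (46, 0, 0, 0, 0), (1, 0, 0, 0, 0), (13, 0, 0, 0, 0), (1, 0, 0, 0, 0), (13, 0, 0, 0, 0), (46, 0, 0, 0, 0), (63, 0, 0, 0, 0), (1, 0, 0, 0, 0), (63, 0, 0, 0, 0), (11, 0, 0, 0, 0),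 (15, 0, 0, 0, 0), (57, 0, 0, 0, 0), (23, 0, 0, 0, 0), (57, 0, 0, 0, 0), (47, 0, 0, 0, 0), (7, 0, 0, 0, 0), (23, 0, 0, 0, 0), (7, 0, 0, 0, 0), (23, 0, 0, 0, 0), (47, 0, 0, 0, 0), (47, 0, 0, 0, 0), (3, 0, 0, 0, 0), (15, 0, 0, 0, 0), (3, 0, 0, 0, 0), (15, 0, 0, 0, 0), (47, 0, 0, 0, 0), (57, 0, 0, 0, 0), (3, 0, 0, 0, 0), (57, 0, 0, 0, 0), (7, 0, 0, 0, 0), (71, 0, 0, 0, 0), (39, 0, 0, 0, 0), (71, 0, 0, 0, 0), (41, 0, 0, 0, 0), (65, 0, 0, 0, 0), (37, 0, 0, 0, 0), (65, 0, 0, 0, 0), (41, 0, 0, 0, 0), (59, 0, 0, 0, 0), (37, 0, 0, 0, 0), (59, 0, 0, 0, 0), (39, 0, 0, 0, 0)],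
  [(23, 0, 0, 0, 0), (27, 0, 0, 0, 0), (71, 0, 0, 0, 0), (27, 0, 0, 0, 0), (71, 0, 0, 0, 0), (23, 0, 0, 0, 0), (31, 0, 0, 0, 0), (35, 0, 0, 0, 0), (71, 0, 0, 0, 0), (35, 0, 0, 0, 0), (71, 0, 0, 0, 0), (31, 0, 0, 0, 0), (31, 0, 0, 0, 0), (82, 0, 0, 0, 0), (23, 0, 0, 0, 0), (82, 0, 0, 0, 0), (35, 0, 0, 0, 0), (82, 0, 0, 0, 0), (27, 0, 0, 0, 0), (82, 0, 0, 0, 0), (15, 0, 0, 0, 0), (19, 0, 0, 0, 0), (65, 0, 0, 0, 0), (19, 0, 0, 0, 0), (65, 0, 0, 0, 0), (15, 0, 0, 0, 0), (29, 0, 0, 0, 0), (33, 0, 0, 0, 0), (65, 0, 0, 0, 0), (33, 0, 0, 0, 0), (65, 0, 0, 0, 0), (29, 0, 0, 0, 0), (29, 0, 0, 0, 0), (79, 0, 0, 0, 0), (15, 0, 0, 0, 0), (79, 0, 0, 0, 0), (33, 0, 0, 0, 0), (79, 0, 0, 0, 0), (19, 0, 0, 0, 0), (79, 0, 0, 0, 0), (13, 0, 0,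 0, 0), (17, 0, 0, 0, 0), (59, 0, 0, 0, 0), (17, 0, 0, 0, 0), (59, 0, 0, 0, 0), (13, 0, 0, 0, 0), (21, 0, 0, 0, 0), (25, 0, 0, 0, 0), (59, 0, 0, 0, 0), (25, 0, 0, 0, 0), (59, 0, 0, 0, 0), (21, 0, 0, 0, 0), (21, 0, 0, 0, 0), (80, 0, 0, 0, 0), (13, 0, 0, 0, 0), (80, 0, 0, 0, 0), (25, 0, 0, 0, 0), (80, 0, 0, 0, 0), (17, 0, 0, 0, 0), (80, 0, 0, 0, 0), (63, 0, 0, 0, 0), (85, 0, 0, 0, 0), (57, 0, 0, 0, 0), (85, 0, 0, 0, 0), (69, 0, 0, 0, 0), (87, 0, 0, 0, 0), (57, 0, 0, 0, 0), (87, 0, 0, 0, 0), (69, 0, 0, 0, 0), (89, 0, 0, 0, 0), (63, 0, 0, 0, 0), (89, 0, 0, 0, 0), (62, 0, 0, 0, 0), (73, 0, 0, 0, 0), (56, 0, 0, 0, 0), (73, 0, 0, 0, 0), (68, 0, 0, 0, 0), (75, 0, 0, 0, 0), (56, 0, 0, 0, 0), (75, 0, 0, 0, 0), (68, 0, 0, 0, 0), (77, 0,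 0, 0, 0), (62, 0, 0, 0, 0), (77, 0, 0, 0, 0), (23, 0, 0, 0, 0), (27, 0, 0, 0, 0), (31, 0, 0, 0, 0), (35, 0, 0, 0, 0), (47, 0, 0, 0, 0), (53, 0, 0, 0, 0), (76, 0, 0, 0, 0), (88, 0, 0, 0, 0), (41, 0, 0, 0, 0), (88, 0, 0, 0, 0), (41, 0, 0, 0, 0), (76, 0, 0, 0, 0), (47, 0, 0, 0, 0), (83, 0, 0, 0, 0), (53, 0, 0, 0, 0), (83, 0, 0, 0, 0), (46, 0, 0, 0, 0), (52, 0, 0, 0, 0), (74, 0, 0, 0, 0), (86, 0, 0, 0, 0), (39, 0, 0, 0, 0), (86, 0, 0, 0, 0), (39, 0, 0, 0, 0), (74, 0, 0, 0, 0), (46, 0, 0, 0, 0), (81, 0, 0, 0, 0), (52, 0, 0, 0, 0), (81, 0, 0, 0, 0), (7, 0, 0, 0, 0), (26, 0, 0, 0, 0), (11, 0, 0, 0, 0), (34, 0, 0, 0, 0), (6, 0, 0, 0, 0), (22, 0, 0, 0, 0), (10, 0, 0, 0, 0), (30, 0, 0, 0, 0), (15, 0, 0, 0, 0), (19, 0, 0, 0, 0), (29,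 0, 0, 0, 0), (33, 0, 0, 0, 0), (47, 0, 0, 0, 0), (53, 0, 0, 0, 0), (76, 0, 0, 0, 0), (88, 0, 0, 0, 0), (41, 0, 0, 0, 0), (88, 0, 0, 0, 0), (41, 0, 0, 0, 0), (76, 0, 0, 0, 0), (47, 0, 0, 0, 0), (83, 0, 0, 0, 0), (53, 0, 0, 0, 0), (83, 0, 0, 0, 0), (43, 0, 0, 0, 0), (49, 0, 0, 0, 0), (72, 0, 0, 0, 0), (84, 0, 0, 0, 0), (37, 0, 0, 0, 0), (84, 0, 0, 0, 0), (37, 0, 0, 0, 0), (72, 0, 0, 0, 0), (43, 0, 0, 0, 0), (78, 0, 0, 0, 0), (49, 0, 0, 0, 0), (78, 0, 0, 0, 0), (3, 0, 0, 0, 0), (18, 0, 0, 0, 0), (9, 0, 0, 0, 0), (32, 0, 0, 0, 0), (2, 0, 0, 0, 0), (14, 0, 0, 0, 0), (8, 0, 0, 0, 0), (28, 0, 0, 0, 0), (13, 0, 0, 0, 0), (17, 0, 0, 0, 0), (21, 0, 0, 0, 0), (25, 0, 0, 0, 0), (46, 0, 0, 0, 0), (52, 0, 0, 0, 0), (74, 0, 0, 0, 0), (86,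 0, 0, 0, 0), (39, 0, 0, 0, 0), (86, 0, 0, 0, 0), (39, 0, 0, 0, 0), (74, 0, 0, 0, 0), (46, 0, 0, 0, 0), (81, 0, 0, 0, 0), (52, 0, 0, 0, 0), (81, 0, 0, 0, 0), (43, 0, 0, 0, 0), (49, 0, 0, 0, 0), (72, 0, 0, 0, 0), (84, 0, 0, 0, 0), (37, 0, 0, 0, 0), (84, 0, 0, 0, 0), (37, 0, 0, 0, 0), (72, 0, 0, 0, 0), (43, 0, 0, 0, 0), (78, 0, 0, 0, 0), (49, 0, 0, 0, 0), (78, 0, 0, 0, 0), (1, 0, 0, 0, 0), (16, 0, 0, 0, 0), (5, 0, 0, 0, 0), (24, 0, 0, 0, 0), (0, 0, 0, 0, 0), (12, 0, 0, 0, 0), (4, 0, 0, 0, 0), (20, 0, 0, 0, 0), (63, 0, 0, 0, 0), (85, 0, 0, 0, 0), (57, 0, 0, 0, 0), (85, 0, 0, 0, 0), (69, 0, 0, 0, 0), (87, 0, 0, 0, 0), (57, 0, 0, 0, 0), (87, 0, 0, 0, 0), (69, 0, 0, 0, 0), (89, 0, 0, 0, 0), (63, 0, 0, 0, 0), (89, 0, 0, 0, 0), (11,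 0, 0, 0, 0), (51, 0, 0, 0, 0), (7, 0, 0, 0, 0), (51, 0, 0, 0, 0), (67, 0, 0, 0, 0), (26, 0, 0, 0, 0), (7, 0, 0, 0, 0), (26, 0, 0, 0, 0), (7, 0, 0, 0, 0), (67, 0, 0, 0, 0), (67, 0, 0, 0, 0), (34, 0, 0, 0, 0), (11, 0, 0, 0, 0), (34, 0, 0, 0, 0), (11, 0, 0, 0, 0), (67, 0, 0, 0, 0), (51, 0, 0, 0, 0), (34, 0, 0, 0, 0), (51, 0, 0, 0, 0), (26, 0, 0, 0, 0), (9, 0, 0, 0, 0), (48, 0, 0, 0, 0), (3, 0, 0, 0, 0), (48, 0, 0, 0, 0), (61, 0, 0, 0, 0), (18, 0, 0, 0, 0), (3, 0, 0, 0, 0), (18, 0, 0, 0, 0), (3, 0, 0, 0, 0), (61, 0, 0, 0, 0), (61, 0, 0, 0, 0), (32, 0, 0, 0, 0), (9, 0, 0, 0, 0), (32, 0, 0, 0, 0), (9, 0, 0, 0, 0), (61, 0, 0, 0, 0), (48, 0, 0, 0, 0), (32, 0, 0, 0, 0), (48, 0, 0, 0, 0), (18, 0, 0, 0, 0), (5, 0, 0, 0, 0), (50, 0, 0,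 0, 0), (1, 0, 0, 0, 0), (50, 0, 0, 0, 0), (55, 0, 0, 0, 0), (16, 0, 0, 0, 0), (1, 0, 0, 0, 0), (16, 0, 0, 0, 0), (1, 0, 0, 0, 0), (55, 0, 0, 0, 0), (55, 0, 0, 0, 0), (24, 0, 0, 0, 0), (5, 0, 0, 0, 0), (24, 0, 0, 0, 0), (5, 0, 0, 0, 0), (55, 0, 0, 0, 0), (50, 0, 0, 0, 0), (24, 0, 0, 0, 0), (50, 0, 0, 0, 0), (16, 0, 0, 0, 0), (36, 0, 0, 0, 0), (64, 0, 0, 0, 0), (36, 0, 0, 0, 0), (58, 0, 0, 0, 0), (38, 0, 0, 0, 0), (70, 0, 0, 0, 0), (38, 0, 0, 0, 0), (58, 0, 0, 0, 0), (40, 0, 0, 0, 0), (70, 0, 0, 0, 0), (40, 0, 0, 0, 0), (64, 0, 0, 0, 0), (62, 0, 0, 0, 0), (73, 0, 0, 0, 0), (56, 0, 0, 0, 0), (73, 0, 0, 0, 0), (68, 0, 0, 0, 0), (75, 0, 0, 0, 0), (56, 0, 0, 0, 0), (75, 0, 0, 0, 0), (68, 0, 0, 0, 0), (77, 0, 0, 0, 0), (62, 0, 0,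 0, 0), (77, 0, 0, 0, 0), (10, 0, 0, 0, 0), (45, 0, 0, 0, 0), (6, 0, 0, 0, 0), (45, 0, 0, 0, 0), (66, 0, 0, 0, 0), (22, 0, 0, 0, 0), (6, 0, 0, 0, 0), (22, 0, 0, 0, 0), (6, 0, 0, 0, 0), (66, 0, 0, 0, 0), (66, 0, 0, 0, 0), (30, 0, 0, 0, 0), (10, 0, 0, 0, 0), (30, 0, 0, 0, 0), (10, 0, 0, 0, 0), (66, 0, 0, 0, 0), (45, 0, 0, 0, 0), (30, 0, 0, 0, 0), (45, 0, 0, 0, 0), (22, 0, 0, 0, 0), (8, 0, 0, 0, 0), (42, 0, 0, 0, 0), (2, 0, 0, 0, 0), (42, 0, 0, 0, 0), (60, 0, 0, 0, 0), (14, 0, 0, 0, 0), (2, 0, 0, 0, 0), (14, 0, 0, 0, 0), (2, 0, 0, 0, 0), (60, 0, 0, 0, 0), (60, 0, 0, 0, 0), (28, 0, 0, 0, 0), (8, 0, 0, 0, 0), (28, 0, 0, 0, 0), (8, 0, 0, 0, 0), (60, 0, 0, 0, 0), (42, 0, 0, 0, 0), (28, 0, 0, 0, 0), (42, 0, 0, 0, 0), (14, 0, 0, 0, 0),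 (4, 0, 0, 0, 0), (44, 0, 0, 0, 0), (0, 0, 0, 0, 0), (44, 0, 0, 0, 0), (54, 0, 0, 0, 0), (12, 0, 0, 0, 0), (0, 0, 0, 0, 0), (12, 0, 0, 0, 0), (0, 0, 0, 0, 0), (54, 0, 0, 0, 0), (54, 0, 0, 0, 0), (20, 0, 0, 0, 0), (4, 0, 0, 0, 0), (20, 0, 0, 0, 0), (4, 0, 0, 0, 0), (54, 0, 0, 0, 0), (44, 0, 0, 0, 0), (20, 0, 0, 0, 0), (44, 0, 0, 0, 0), (12, 0, 0, 0, 0), (36, 0, 0, 0, 0), (64, 0, 0, 0, 0), (36, 0, 0, 0, 0), (58, 0, 0, 0, 0), (38, 0, 0, 0, 0), (70, 0, 0, 0, 0), (38, 0, 0, 0, 0), (58, 0, 0, 0, 0), (40, 0, 0, 0, 0), (70, 0, 0, 0, 0), (40, 0, 0, 0, 0), (64, 0, 0, 0, 0)],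
  [(35, 0, 0, 0, 0), (31, 0, 0, 0, 0), (82, 0, 0, 0, 0), (31, 0, 0, 0, 0), (82, 0, 0, 0, 0), (35, 0, 0, 0, 0), (27, 0, 0, 0, 0), (23, 0, 0, 0, 0), (82, 0, 0, 0, 0), (23, 0, 0, 0, 0), (82, 0, 0, 0, 0), (27, 0, 0, 0, 0), (27, 0, 0, 0, 0), (71, 0, 0, 0, 0), (35, 0, 0, 0, 0), (71, 0, 0, 0, 0), (23, 0, 0, 0, 0), (71, 0, 0, 0, 0), (31, 0, 0, 0, 0), (71, 0, 0, 0, 0), (33, 0, 0, 0, 0), (29, 0, 0, 0, 0), (79, 0, 0, 0, 0), (29, 0, 0, 0, 0), (79, 0, 0, 0, 0), (33, 0, 0, 0, 0), (19, 0, 0, 0, 0), (15, 0, 0, 0, 0), (79, 0, 0, 0, 0), (15, 0, 0, 0, 0), (79, 0, 0, 0, 0), (19, 0, 0, 0, 0), (19, 0, 0, 0, 0), (65, 0, 0, 0, 0), (33, 0, 0, 0, 0), (65, 0, 0, 0, 0), (15, 0, 0, 0, 0), (65, 0, 0, 0, 0), (29, 0, 0, 0, 0), (65, 0, 0, 0, 0), (25, 0, 0,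 0, 0), (21, 0, 0, 0, 0), (80, 0, 0, 0, 0), (21, 0, 0, 0, 0), (80, 0, 0, 0, 0), (25, 0, 0, 0, 0), (17, 0, 0, 0, 0), (13, 0, 0, 0, 0), (80, 0, 0, 0, 0), (13, 0, 0, 0, 0), (80, 0, 0, 0, 0), (17, 0, 0, 0, 0), (17, 0, 0, 0, 0), (59, 0, 0, 0, 0), (25, 0, 0, 0, 0), (59, 0, 0, 0, 0), (13, 0, 0, 0, 0), (59, 0, 0, 0, 0), (21, 0, 0, 0, 0), (59, 0, 0, 0, 0), (87, 0, 0, 0, 0), (69, 0, 0, 0, 0), (89, 0, 0, 0, 0), (69, 0, 0, 0, 0), (85, 0, 0, 0, 0), (63, 0, 0, 0, 0), (89, 0, 0, 0, 0), (63, 0, 0, 0, 0), (85, 0, 0, 0, 0), (57, 0, 0, 0, 0), (87, 0, 0, 0, 0), (57, 0, 0, 0, 0), (75, 0, 0, 0, 0), (68, 0, 0, 0, 0), (77, 0, 0, 0, 0), (68, 0, 0, 0, 0), (73, 0, 0, 0, 0), (62, 0, 0, 0, 0), (77, 0, 0, 0, 0), (62, 0, 0, 0, 0), (73, 0, 0, 0, 0), (56, 0,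 0, 0, 0), (75, 0, 0, 0, 0), (56, 0, 0, 0, 0), (35, 0, 0, 0, 0), (31, 0, 0, 0, 0), (27, 0, 0, 0, 0), (23, 0, 0, 0, 0), (88, 0, 0, 0, 0), (76, 0, 0, 0, 0), (53, 0, 0, 0, 0), (47, 0, 0, 0, 0), (83, 0, 0, 0, 0), (47, 0, 0, 0, 0), (83, 0, 0, 0, 0), (53, 0, 0, 0, 0), (88, 0, 0, 0, 0), (41, 0, 0, 0, 0), (76, 0, 0, 0, 0), (41, 0, 0, 0, 0), (86, 0, 0, 0, 0), (74, 0, 0, 0, 0), (52, 0, 0, 0, 0), (46, 0, 0, 0, 0), (81, 0, 0, 0, 0), (46, 0, 0, 0, 0), (81, 0, 0, 0, 0), (52, 0, 0, 0, 0), (86, 0, 0, 0, 0), (39, 0, 0, 0, 0), (74, 0, 0, 0, 0), (39, 0, 0, 0, 0), (34, 0, 0, 0, 0), (11, 0, 0, 0, 0), (26, 0, 0, 0, 0), (7, 0, 0, 0, 0), (30, 0, 0, 0, 0), (10, 0, 0, 0, 0), (22, 0, 0, 0, 0), (6, 0, 0, 0, 0), (33, 0, 0, 0, 0), (29, 0, 0, 0, 0), (19,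 0, 0, 0, 0), (15, 0, 0, 0, 0), (88, 0, 0, 0, 0), (76, 0, 0, 0, 0), (53, 0, 0, 0, 0), (47, 0, 0, 0, 0), (83, 0, 0, 0, 0), (47, 0, 0, 0, 0), (83, 0, 0, 0, 0), (53, 0, 0, 0, 0), (88, 0, 0, 0, 0), (41, 0, 0, 0, 0), (76, 0, 0, 0, 0), (41, 0, 0, 0, 0), (84, 0, 0, 0, 0), (72, 0, 0, 0, 0), (49, 0, 0, 0, 0), (43, 0, 0, 0, 0), (78, 0, 0, 0, 0), (43, 0, 0, 0, 0), (78, 0, 0, 0, 0), (49, 0, 0, 0, 0), (84, 0, 0, 0, 0), (37, 0, 0, 0, 0), (72, 0, 0, 0, 0), (37, 0, 0, 0, 0), (32, 0, 0, 0, 0), (9, 0, 0, 0, 0), (18, 0, 0, 0, 0), (3, 0, 0, 0, 0), (28, 0, 0, 0, 0), (8, 0, 0, 0, 0), (14, 0, 0, 0, 0), (2, 0, 0, 0, 0), (25, 0, 0, 0, 0), (21, 0, 0, 0, 0), (17, 0, 0, 0, 0), (13, 0, 0, 0, 0), (86, 0, 0, 0, 0), (74, 0, 0, 0, 0), (52, 0, 0, 0, 0), (46,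 0, 0, 0, 0), (81, 0, 0, 0, 0), (46, 0, 0, 0, 0), (81, 0, 0, 0, 0), (52, 0, 0, 0, 0), (86, 0, 0, 0, 0), (39, 0, 0, 0, 0), (74, 0, 0, 0, 0), (39, 0, 0, 0, 0), (84, 0, 0, 0, 0), (72, 0, 0, 0, 0), (49, 0, 0, 0, 0), (43, 0, 0, 0, 0), (78, 0, 0, 0, 0), (43, 0, 0, 0, 0), (78, 0, 0, 0, 0), (49, 0, 0, 0, 0), (84, 0, 0, 0, 0), (37, 0, 0, 0, 0), (72, 0, 0, 0, 0), (37, 0, 0, 0, 0), (24, 0, 0, 0, 0), (5, 0, 0, 0, 0), (16, 0, 0, 0, 0), (1, 0, 0, 0, 0), (20, 0, 0, 0, 0), (4, 0, 0, 0, 0), (12, 0, 0, 0, 0), (0, 0, 0, 0, 0), (87, 0, 0, 0, 0), (69, 0, 0, 0, 0), (89, 0, 0, 0, 0), (69, 0, 0, 0, 0), (85, 0, 0, 0, 0), (63, 0, 0, 0, 0), (89, 0, 0, 0, 0), (63, 0, 0, 0, 0), (85, 0, 0, 0, 0), (57, 0, 0, 0, 0), (87, 0, 0, 0, 0), (57, 0, 0, 0, 0), (26,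 0, 0, 0, 0), (67, 0, 0, 0, 0), (34, 0, 0, 0, 0), (67, 0, 0, 0, 0), (51, 0, 0, 0, 0), (11, 0, 0, 0, 0), (34, 0, 0, 0, 0), (11, 0, 0, 0, 0), (34, 0, 0, 0, 0), (51, 0, 0, 0, 0), (51, 0, 0, 0, 0), (7, 0, 0, 0, 0), (26, 0, 0, 0, 0), (7, 0, 0, 0, 0), (26, 0, 0, 0, 0), (51, 0, 0, 0, 0), (67, 0, 0, 0, 0), (7, 0, 0, 0, 0), (67, 0, 0, 0, 0), (11, 0, 0, 0, 0), (18, 0, 0, 0, 0), (61, 0, 0, 0, 0), (32, 0, 0, 0, 0), (61, 0, 0, 0, 0), (48, 0, 0, 0, 0), (9, 0, 0, 0, 0), (32, 0, 0, 0, 0), (9, 0, 0, 0, 0), (32, 0, 0, 0, 0), (48, 0, 0, 0, 0), (48, 0, 0, 0, 0), (3, 0, 0, 0, 0), (18, 0, 0, 0, 0), (3, 0, 0, 0, 0), (18, 0, 0, 0, 0), (48, 0, 0, 0, 0), (61, 0, 0, 0, 0), (3, 0, 0, 0, 0), (61, 0, 0, 0, 0), (9, 0, 0, 0, 0), (16, 0, 0, 0, 0), (55, 0, 0,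 0, 0), (24, 0, 0, 0, 0), (55, 0, 0, 0, 0), (50, 0, 0, 0, 0), (5, 0, 0, 0, 0), (24, 0, 0, 0, 0), (5, 0, 0, 0, 0), (24, 0, 0, 0, 0), (50, 0, 0, 0, 0), (50, 0, 0, 0, 0), (1, 0, 0, 0, 0), (16, 0, 0, 0, 0), (1, 0, 0, 0, 0), (16, 0, 0, 0, 0), (50, 0, 0, 0, 0), (55, 0, 0, 0, 0), (1, 0, 0, 0, 0), (55, 0, 0, 0, 0), (5, 0, 0, 0, 0), (70, 0, 0, 0, 0), (38, 0, 0, 0, 0), (70, 0, 0, 0, 0), (40, 0, 0, 0, 0), (64, 0, 0, 0, 0), (36, 0, 0, 0, 0), (64, 0, 0, 0, 0), (40, 0, 0, 0, 0), (58, 0, 0, 0, 0), (36, 0, 0, 0, 0), (58, 0, 0, 0, 0), (38, 0, 0, 0, 0), (75, 0, 0, 0, 0), (68, 0, 0, 0, 0), (77, 0, 0, 0, 0), (68, 0, 0, 0, 0), (73, 0, 0, 0, 0), (62, 0, 0, 0, 0), (77, 0, 0, 0, 0), (62, 0, 0, 0, 0), (73, 0, 0, 0, 0), (56, 0, 0, 0, 0), (75, 0, 0, 0,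 0), (56, 0, 0, 0, 0), (22, 0, 0, 0, 0), (66, 0, 0, 0, 0), (30, 0, 0, 0, 0), (66, 0, 0, 0, 0), (45, 0, 0, 0, 0), (10, 0, 0, 0, 0), (30, 0, 0, 0, 0), (10, 0, 0, 0, 0), (30, 0, 0, 0, 0), (45, 0, 0, 0, 0), (45, 0, 0, 0, 0), (6, 0, 0, 0, 0), (22, 0, 0, 0, 0), (6, 0, 0, 0, 0), (22, 0, 0, 0, 0), (45, 0, 0, 0, 0), (66, 0, 0, 0, 0), (6, 0, 0, 0, 0), (66, 0, 0, 0, 0), (10, 0, 0, 0, 0), (14, 0, 0, 0, 0), (60, 0, 0, 0, 0), (28, 0, 0, 0, 0), (60, 0, 0, 0, 0), (42, 0, 0, 0, 0), (8, 0, 0, 0, 0), (28, 0, 0, 0, 0), (8, 0, 0, 0, 0), (28, 0, 0, 0, 0), (42, 0, 0, 0, 0), (42, 0, 0, 0, 0), (2, 0, 0, 0, 0), (14, 0, 0, 0, 0), (2, 0, 0, 0, 0), (14, 0, 0, 0, 0), (42, 0, 0, 0, 0), (60, 0, 0, 0, 0), (2, 0, 0, 0, 0), (60, 0, 0, 0, 0), (8, 0, 0, 0, 0),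 (12, 0, 0, 0, 0), (54, 0, 0, 0, 0), (20, 0, 0, 0, 0), (54, 0, 0, 0, 0), (44, 0, 0, 0, 0), (4, 0, 0, 0, 0), (20, 0, 0, 0, 0), (4, 0, 0, 0, 0), (20, 0, 0, 0, 0), (44, 0, 0, 0, 0), (44, 0, 0, 0, 0), (0, 0, 0, 0, 0), (12, 0, 0, 0, 0), (0, 0, 0, 0, 0), (12, 0, 0, 0, 0), (44, 0, 0, 0, 0), (54, 0, 0, 0, 0), (0, 0, 0, 0, 0), (54, 0, 0, 0, 0), (4, 0, 0, 0, 0), (70, 0, 0, 0, 0), (38, 0, 0, 0, 0), (70, 0, 0, 0, 0), (40, 0, 0, 0, 0), (64, 0, 0, 0, 0), (36, 0, 0, 0, 0), (64, 0, 0, 0, 0), (40, 0, 0, 0, 0), (58, 0, 0, 0, 0), (36, 0, 0, 0, 0), (58, 0, 0, 0, 0), (38, 0, 0, 0, 0)]]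

theorem tr23 : trK keys lk23 kl23 = true := by
  decide +kernel

theorem x23_0 : expB 3 6 dg14 dg15 m23_0 (l23_0 ++ z23_0) w23_0 = true := by
  decide +kernel

theorem t23_0_0 : chkS lk23 3 6 [(1, m23_0)] l23_0
  [(3, 528, 528, 5456400, 5456400), (0, 528, 528, 5391120, 5448720), (0, 528, 528, 4411920, 3490320), (4, 528, 528, 5456400, 5456400), (0, 33, 258, 1312035, 2359635), (6, 528, 528, 3490320, 4411920), (5, 288, 288, 3428880, 3428880), (2, 258, 33, 4206885, 340260), (5, 528, 528, 4400400, 2442000), (2, 18, 18, 267045, 270645), (0, 513, 513, 4280355, 3473730), (6, 288, 288, 5448720, 5391120), (0, 33, 258, 1377330, 4329555), (5, 288, 288, 5387265, 5387265), (6, 528, 528, 4338945, 2438145), (2, 258, 33, 4272210, 1388610),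 (5, 528, 528, 2441985, 4400385), (0, 513, 513, 5324850, 5443650), (2, 18, 18, 1311570, 1318995), (6, 288, 288, 2380545, 3417345), (4, 33, 258, 1377330, 4329555), (2, 528, 528, 2380545, 3417345), (2, 528, 528, 5514000, 5514000), (7, 288, 288, 5456400, 5456400), (2, 513, 513, 2183235, 3212610), (6, 513, 513, 3162405, 217380), (1, 528, 528, 4411920, 3490320), (2, 33, 258, 332355, 4260405), (2, 513, 513, 5251395, 5309220), (1, 288, 288, 3417360, 2380560), (6, 513, 513, 4272210, 1388610), (2, 33, 258, 1180995, 2163795), (7, 528, 528, 3482640, 4346640), (2, 288, 288, 4534800, 4534800), (2, 288, 288, 4338945, 2438145), (4, 513, 513, 5324850, 5443650)]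
  [(1, 20736), (3, 10368), (4, -31104), (5, 41472), (6, -62208), (7, 20736)] = true := by
  decide +kernel

section

variable {κ ι : Type*} [Fintype κ] [Fintype ι] [Inhabited κ] [Inhabited ι]

noncomputable def F23_0 (E : Env κ ι) : (Fin 3 → κ) → (Fin 6 → ι) → ℝ := op2 (P14 κ) (P15 ι) (fB E 3 6 m23_0)

def r23_0_0 : List (ℕ × ℤ) := [(1, 20736), (3, 10368), (4, -31104), (5, 41472), (6, -62208), (7, 20736)]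

theorem h23_0_0 (E : Env κ ι) : ip (F23_0 E) (F23_0 E) = dotS (ek E lk23) r23_0_0 :=
  op_entryZ E lk23 3 6 _ _ _ _ (pg14 κ) (pg15 ι) m23_0 m23_0 l23_0 z23_0 w23_0 x23_0 (by decide) _ (chkS_sound E lk23 3 6 _ _ _ _ t23_0_0)

theorem row23_0 (E : Env κ ι) : RowG (ek E lk23) (F23_0 E) [F23_0 E] [r23_0_0] :=
  rowG_cons _ _ _ _ _ _ (h23_0_0 E) (rowG_nil _ _)

def tab23 : List (List (List (ℕ × ℤ))) := [[r23_0_0]]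

theorem tri23 (E : Env κ ι) : TriG (ek E lk23) [F23_0 E] tab23 := by
  refine triG_cons _ _ _ _ _ (row23_0 E) ?_
  exact triG_nil _

end

def lk24 : List Key := [
  (3, 6, [(0, [0], [0, 1]), (0, [0], [0, 1]), (0, [1], [2, 3]), (0, [2], [4, 5]), (0, [2], [2, 4]), (0, [1], [3, 5])]),
  (3, 6, [(0, [0], [0, 1]), (0, [1], [2, 3]), (0, [2], [4, 5]), (0, [0], [2, 4]), (0, [1], [0, 5]), (0, [2], [1, 3])]),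
  (3, 6, [(0, [0], [0, 1]), (0, [1], [0, 2]), (0, [1], [3, 4]), (0, [0], [3, 4]), (0, [2], [2, 5]), (0, [2], [1, 5])]),
  (3, 6, [(0, [0], [0, 1]), (0, [0], [0, 1]), (0, [1], [2, 3]), (0, [1], [2, 3]), (0, [2], [4, 5]), (0, [2], [4, 5])]),
  (3, 6, [(0, [0], [0, 1]), (0, [0], [0, 1]), (0, [1], [2, 3]), (0, [2], [4, 5]), (0, [1], [4, 5]), (0, [2], [2, 3])]),
  (3, 6, [(0, [0], [0, 1]), (0, [0], [2, 0]), (0, [1], [3, 1]), (0, [2], [4, 5]), (0, [2], [2, 4]), (0, [1], [3, 5])]),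
  (3, 6, [(0, [0], [0, 1]), (0, [0], [2, 0]), (0, [1], [3, 1]), (0, [2], [4, 5]), (0, [2], [3, 4]), (0, [1], [2, 5])]),
  (3, 6, [(0, [0], [0, 1]), (0, [0], [2, 3]), (0, [1], [0, 1]), (0, [2], [4, 5]), (0, [2], [2, 3]), (0, [1], [4, 5])])]

def kl24 : List ℕ := [12, 22, 25, 27, 30, 37, 38, 45]

def m24_0 : Base := (0, 0, [(0, [0], [0, 1]), (0, [1], [2, 3]), (0, [2], [4, 5])])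

def l24_0 : Cov := [(31104, 0, 0, [(0, [0], [0, 1]), (0, [1], [2, 3]), (0, [2], [4, 5])]),
  (31104, 0, 0, [(0, [0], [0, 1]), (0, [1], [2, 4]), (0, [2], [3, 5])]),
  (-31104, 0, 0, [(0, [0], [0, 1]), (0, [1], [3, 5]), (0, [2], [2, 4])]),
  (-31104, 0, 0, [(0, [0], [0, 1]), (0, [1], [4, 5]), (0, [2], [2, 3])]),
  (31104, 0, 0, [(0, [0], [0, 2]), (0, [1], [1, 3]), (0, [2], [4, 5])]),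
  (31104, 0, 0, [(0, [0], [0, 2]), (0, [1], [1, 5]), (0, [2], [3, 4])]),
  (-31104, 0, 0, [(0, [0], [0, 2]), (0, [1], [3, 4]), (0, [2], [1, 5])]),
  (-31104, 0, 0, [(0, [0], [0, 2]), (0, [1], [4, 5]), (0, [2], [1, 3])]),
  (-31104, 0, 0, [(0, [0], [0, 4]), (0, [1], [1, 2]), (0, [2], [3, 5])]),
  (31104, 0, 0, [(0, [0], [0, 4]), (0, [1], [1, 5]), (0, [2], [2, 3])]),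
  (-31104, 0, 0, [(0, [0], [0, 4]), (0, [1], [2, 3]), (0, [2], [1, 5])]),
  (31104, 0, 0, [(0, [0], [0, 4]), (0, [1], [3, 5]), (0, [2], [1, 2])]),
  (-31104, 0, 0, [(0, [0], [0, 5]), (0, [1], [1, 2]), (0, [2], [3, 4])]),
  (-31104, 0, 0, [(0, [0], [0, 5]), (0, [1], [1, 3]), (0, [2], [2, 4])]),
  (31104, 0, 0, [(0, [0], [0, 5]), (0, [1], [2, 4]), (0, [2], [1, 3])]),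
  (31104, 0, 0, [(0, [0], [0, 5]), (0, [1], [3, 4]), (0, [2], [1, 2])]),
  (31104, 0, 0, [(0, [0], [1, 2]), (0, [1], [0, 4]), (0, [2], [3, 5])]),
  (31104, 0, 0, [(0, [0], [1, 2]), (0, [1], [0, 5]), (0, [2], [3, 4])]),
  (-31104, 0, 0, [(0, [0], [1, 2]), (0, [1], [3, 4]), (0, [2], [0, 5])]),
  (-31104, 0, 0, [(0, [0], [1, 2]), (0, [1], [3, 5]), (0, [2], [0, 4])]),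
  (-31104, 0, 0, [(0, [0], [1, 3]), (0, [1], [0, 2]), (0, [2], [4, 5])]),
  (31104, 0, 0, [(0, [0], [1, 3]), (0, [1], [0, 5]), (0, [2], [2, 4])]),
  (-31104, 0, 0, [(0, [0], [1, 3]), (0, [1], [2, 4]), (0, [2], [0, 5])]),
  (31104, 0, 0, [(0, [0], [1, 3]), (0, [1], [4, 5]), (0, [2], [0, 2])]),
  (-31104, 0, 0, [(0, [0], [1, 5]), (0, [1], [0, 2]), (0, [2], [3, 4])]),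
  (-31104, 0, 0, [(0, [0], [1, 5]), (0, [1], [0, 4]), (0, [2], [2, 3])]),
  (31104, 0, 0, [(0, [0], [1, 5]), (0, [1], [2, 3]), (0, [2], [0, 4])]),
  (31104, 0, 0, [(0, [0], [1, 5]), (0, [1], [3, 4]), (0, [2], [0, 2])]),
  (-31104, 0, 0, [(0, [0], [2, 3]), (0, [1], [0, 1]), (0, [2], [4, 5])]),
  (31104, 0, 0, [(0, [0], [2, 3]), (0, [1], [0, 4]), (0, [2], [1, 5])]),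
  (-31104, 0, 0, [(0, [0], [2, 3]), (0, [1], [1, 5]), (0, [2], [0, 4])]),
  (31104, 0, 0, [(0, [0], [2, 3]), (0, [1], [4, 5]), (0, [2], [0, 1])]),
  (-31104, 0, 0, [(0, [0], [2, 4]), (0, [1], [0, 1]), (0, [2], [3, 5])]),
  (-31104, 0, 0, [(0, [0], [2, 4]), (0, [1], [0, 5]), (0, [2], [1, 3])]),
  (31104, 0, 0, [(0, [0], [2, 4]), (0, [1], [1, 3]), (0, [2], [0, 5])]),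
  (31104, 0, 0, [(0, [0], [2, 4]), (0, [1], [3, 5]), (0, [2], [0, 1])]),
  (31104, 0, 0, [(0, [0], [3, 4]), (0, [1], [0, 2]), (0, [2], [1, 5])]),
  (-31104, 0, 0, [(0, [0], [3, 4]), (0, [1], [0, 5]), (0, [2], [1, 2])]),
  (31104, 0, 0, [(0, [0], [3, 4]), (0, [1], [1, 2]), (0, [2], [0, 5])]),
  (-31104, 0, 0, [(0, [0], [3, 4]), (0, [1], [1, 5]), (0, [2], [0, 2])]),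
  (31104, 0, 0, [(0, [0], [3, 5]), (0, [1], [0, 1]), (0, [2], [2, 4])]),
  (-31104, 0, 0, [(0, [0], [3, 5]), (0, [1], [0, 4]), (0, [2], [1, 2])]),
  (31104, 0, 0, [(0, [0], [3, 5]), (0, [1], [1, 2]), (0, [2], [0, 4])]),
  (-31104, 0, 0, [(0, [0], [3, 5]), (0, [1], [2, 4]), (0, [2], [0, 1])]),
  (31104, 0, 0, [(0, [0], [4, 5]), (0, [1], [0, 1]), (0, [2], [2, 3])]),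
  (31104, 0, 0, [(0, [0], [4, 5]), (0, [1], [0, 2]), (0, [2], [1, 3])]),
  (-31104, 0, 0, [(0, [0], [4, 5]), (0, [1], [1, 3]), (0, [2], [0, 2])]),
  (-31104, 0, 0, [(0, [0], [4, 5]), (0, [1], [2, 3]), (0, [2], [0, 1])])]

def z24_0 : Cov := [(0, 0, 0, [(0, [0], [0, 1]), (0, [1], [2, 5]), (0, [2], [3, 4])]),
  (0, 0, 0, [(0, [0], [0, 1]), (0, [1], [3, 4]), (0, [2], [2, 5])]),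
  (0, 0, 0, [(0, [0], [0, 2]), (0, [1], [1, 4]), (0, [2], [3, 5])]),
  (0, 0, 0, [(0, [0], [0, 2]), (0, [1], [3, 5]), (0, [2], [1, 4])]),
  (0, 0, 0, [(0, [0], [0, 3]), (0, [1], [1, 2]), (0, [2], [4, 5])]),
  (0, 0, 0, [(0, [0], [0, 3]), (0, [1], [1, 4]), (0, [2], [2, 5])]),
  (0, 0, 0, [(0, [0], [0, 3]), (0, [1], [1, 5]), (0, [2], [2, 4])]),
  (0, 0, 0, [(0, [0], [0, 3]), (0, [1], [2, 4]), (0, [2], [1, 5])]),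
  (0, 0, 0, [(0, [0], [0, 3]), (0, [1], [2, 5]), (0, [2], [1, 4])]),
  (0, 0, 0, [(0, [0], [0, 3]), (0, [1], [4, 5]), (0, [2], [1, 2])]),
  (0, 0, 0, [(0, [0], [0, 4]), (0, [1], [1, 3]), (0, [2], [2, 5])]),
  (0, 0, 0, [(0, [0], [0, 4]), (0, [1], [2, 5]), (0, [2], [1, 3])]),
  (0, 0, 0, [(0, [0], [0, 5]), (0, [1], [1, 4]), (0, [2], [2, 3])]),
  (0, 0, 0, [(0, [0], [0, 5]), (0, [1], [2, 3]), (0, [2], [1, 4])]),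
  (0, 0, 0, [(0, [0], [1, 2]), (0, [1], [0, 3]), (0, [2], [4, 5])]),
  (0, 0, 0, [(0, [0], [1, 2]), (0, [1], [4, 5]), (0, [2], [0, 3])]),
  (0, 0, 0, [(0, [0], [1, 3]), (0, [1], [0, 4]), (0, [2], [2, 5])]),
  (0, 0, 0, [(0, [0], [1, 3]), (0, [1], [2, 5]), (0, [2], [0, 4])]),
  (0, 0, 0, [(0, [0], [1, 4]), (0, [1], [0, 2]), (0, [2], [3, 5])]),
  (0, 0, 0, [(0, [0], [1, 4]), (0, [1], [0, 3]), (0, [2], [2, 5])]),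
  (0, 0, 0, [(0, [0], [1, 4]), (0, [1], [0, 5]), (0, [2], [2, 3])]),
  (0, 0, 0, [(0, [0], [1, 4]), (0, [1], [2, 3]), (0, [2], [0, 5])]),
  (0, 0, 0, [(0, [0], [1, 4]), (0, [1], [2, 5]), (0, [2], [0, 3])]),
  (0, 0, 0, [(0, [0], [1, 4]), (0, [1], [3, 5]), (0, [2], [0, 2])]),
  (0, 0, 0, [(0, [0], [1, 5]), (0, [1], [0, 3]), (0, [2], [2, 4])]),
  (0, 0, 0, [(0, [0], [1, 5]), (0, [1], [2, 4]), (0, [2], [0, 3])]),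
  (0, 0, 0, [(0, [0], [2, 3]), (0, [1], [0, 5]), (0, [2], [1, 4])]),
  (0, 0, 0, [(0, [0], [2, 3]), (0, [1], [1, 4]), (0, [2], [0, 5])]),
  (0, 0, 0, [(0, [0], [2, 4]), (0, [1], [0, 3]), (0, [2], [1, 5])]),
  (0, 0, 0, [(0, [0], [2, 4]), (0, [1], [1, 5]), (0, [2], [0, 3])]),
  (0, 0, 0, [(0, [0], [2, 5]), (0, [1], [0, 1]), (0, [2], [3, 4])]),
  (0, 0, 0, [(0, [0], [2, 5]), (0, [1], [0, 3]), (0, [2], [1, 4])]),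
  (0, 0, 0, [(0, [0], [2, 5]), (0, [1], [0, 4]), (0, [2], [1, 3])]),
  (0, 0, 0, [(0, [0], [2, 5]), (0, [1], [1, 3]), (0, [2], [0, 4])]),
  (0, 0, 0, [(0, [0], [2, 5]), (0, [1], [1, 4]), (0, [2], [0, 3])]),
  (0, 0, 0, [(0, [0], [2, 5]), (0, [1], [3, 4]), (0, [2], [0, 1])]),
  (0, 0, 0, [(0, [0], [3, 4]), (0, [1], [0, 1]), (0, [2], [2, 5])]),
  (0, 0, 0, [(0, [0], [3, 4]), (0, [1], [2, 5]), (0, [2], [0, 1])]),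
  (0, 0, 0, [(0, [0], [3, 5]), (0, [1], [0, 2]), (0, [2], [1, 4])]),
  (0, 0, 0, [(0, [0], [3, 5]), (0, [1], [1, 4]), (0, [2], [0, 2])]),
  (0, 0, 0, [(0, [0], [4, 5]), (0, [1], [0, 3]), (0, [2], [1, 2])]),
  (0, 0, 0, [(0, [0], [4, 5]), (0, [1], [1, 2]), (0, [2], [0, 3])])]

def w24_0 : List (List Wit) := [[(0, 0, 0, 0, 0), (0, 0, 0, 0, 0), (1, 0, 0, 0, 0), (1, 0, 0, 0, 0), (48, 0, 0, 0, 0), (48, 0, 0, 0, 0), (0, 0, 0, 0, 0), (0, 0, 0, 0, 0), (49, 0, 0, 0, 0), (49, 0, 0, 0, 0), (2, 0, 0, 0, 0), (2, 0, 0, 0, 0), (1, 0, 0, 0, 0), (1, 0, 0, 0, 0), (49, 0, 0, 0, 0), (49, 0, 0, 0, 0), (3, 0, 0, 0, 0), (3, 0, 0, 0, 0), (48, 0, 0, 0, 0), (48, 0, 0, 0, 0), (2, 0, 0, 0, 0), (2, 0, 0, 0, 0), (3, 0, 0, 0, 0), (3, 0, 0, 0, 0), (4, 0,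 0, 0, 0), (4, 0, 0, 0, 0), (50, 0, 0, 0, 0), (50, 0, 0, 0, 0), (5, 0, 0, 0, 0), (5, 0, 0, 0, 0), (4, 0, 0, 0, 0), (4, 0, 0, 0, 0), (6, 0, 0, 0, 0), (6, 0, 0, 0, 0), (51, 0, 0, 0, 0), (51, 0, 0, 0, 0), (50, 0, 0, 0, 0), (50, 0, 0, 0, 0), (6, 0, 0, 0, 0), (6, 0, 0, 0, 0), (7, 0, 0, 0, 0), (7, 0, 0, 0, 0), (5, 0, 0, 0, 0), (5, 0, 0, 0, 0), (51, 0, 0, 0, 0), (51, 0, 0, 0, 0), (7, 0, 0, 0, 0), (7, 0, 0, 0, 0), (52, 0, 0, 0, 0), (52, 0, 0, 0, 0), (53, 0, 0, 0, 0), (53, 0, 0, 0, 0), (54, 0, 0, 0, 0), (54, 0, 0, 0, 0), (52, 0, 0, 0, 0), (52, 0, 0, 0, 0), (55, 0, 0, 0, 0), (55, 0, 0, 0, 0), (56, 0, 0, 0, 0), (56, 0, 0, 0, 0), (53, 0, 0, 0, 0), (53, 0, 0, 0, 0), (55, 0, 0, 0, 0), (55, 0, 0, 0, 0), (57, 0, 0, 0, 0), (57, 0, 0, 0, 0),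 (54, 0, 0, 0, 0), (54, 0, 0, 0, 0), (56, 0, 0, 0, 0), (56, 0, 0, 0, 0), (57, 0, 0, 0, 0), (57, 0, 0, 0, 0), (8, 0, 0, 0, 0), (8, 0, 0, 0, 0), (58, 0, 0, 0, 0), (58, 0, 0, 0, 0), (9, 0, 0, 0, 0), (9, 0, 0, 0, 0), (8, 0, 0, 0, 0), (8, 0, 0, 0, 0), (10, 0, 0, 0, 0), (10, 0, 0, 0, 0), (59, 0, 0, 0, 0), (59, 0, 0, 0, 0), (58, 0, 0, 0, 0), (58, 0, 0, 0, 0), (10, 0, 0, 0, 0), (10, 0, 0, 0, 0), (11, 0, 0, 0, 0), (11, 0, 0, 0, 0), (9, 0, 0, 0, 0), (9, 0, 0, 0, 0), (59, 0, 0, 0, 0), (59, 0, 0, 0, 0), (11, 0, 0, 0, 0), (11, 0, 0, 0, 0), (12, 0, 0, 0, 0), (12, 0, 0, 0, 0), (13, 0, 0, 0, 0), (13, 0, 0, 0, 0), (60, 0, 0, 0, 0), (60, 0, 0, 0, 0), (12, 0, 0, 0, 0), (12, 0, 0, 0, 0), (61, 0, 0, 0, 0), (61, 0, 0, 0, 0), (14, 0, 0, 0, 0), (14,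 0, 0, 0, 0), (13, 0, 0, 0, 0), (13, 0, 0, 0, 0), (61, 0, 0, 0, 0), (61, 0, 0, 0, 0), (15, 0, 0, 0, 0), (15, 0, 0, 0, 0), (60, 0, 0, 0, 0), (60, 0, 0, 0, 0), (14, 0, 0, 0, 0), (14, 0, 0, 0, 0), (15, 0, 0, 0, 0), (15, 0, 0, 0, 0), (0, 0, 0, 0, 0), (0, 0, 0, 0, 0), (1, 0, 0, 0, 0), (1, 0, 0, 0, 0), (48, 0, 0, 0, 0), (48, 0, 0, 0, 0), (0, 0, 0, 0, 0), (0, 0, 0, 0, 0), (49, 0, 0, 0, 0), (49, 0, 0, 0, 0), (2, 0, 0, 0, 0), (2, 0, 0, 0, 0), (1, 0, 0, 0, 0), (1, 0, 0, 0, 0), (49, 0, 0, 0, 0), (49, 0, 0, 0, 0), (3, 0, 0, 0, 0), (3, 0, 0, 0, 0), (48, 0, 0, 0, 0), (48, 0, 0, 0, 0), (2, 0, 0, 0, 0), (2, 0, 0, 0, 0), (3, 0, 0, 0, 0), (3, 0, 0, 0, 0), (62, 0, 0, 0, 0), (62, 0, 0, 0, 0), (16, 0, 0, 0, 0), (16, 0, 0, 0, 0), (17, 0, 0, 0, 0),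 (17, 0, 0, 0, 0), (62, 0, 0, 0, 0), (62, 0, 0, 0, 0), (18, 0, 0, 0, 0), (18, 0, 0, 0, 0), (19, 0, 0, 0, 0), (19, 0, 0, 0, 0), (16, 0, 0, 0, 0), (16, 0, 0, 0, 0), (18, 0, 0, 0, 0), (18, 0, 0, 0, 0), (63, 0, 0, 0, 0), (63, 0, 0, 0, 0), (17, 0, 0, 0, 0), (17, 0, 0, 0, 0), (19, 0, 0, 0, 0), (19, 0, 0, 0, 0), (63, 0, 0, 0, 0), (63, 0, 0, 0, 0), (20, 0, 0, 0, 0), (20, 0, 0, 0, 0), (64, 0, 0, 0, 0), (64, 0, 0, 0, 0), (21, 0, 0, 0, 0), (21, 0, 0, 0, 0), (20, 0, 0, 0, 0), (20, 0, 0, 0, 0), (22, 0, 0, 0, 0), (22, 0, 0, 0, 0), (65, 0, 0, 0, 0), (65, 0, 0, 0, 0), (64, 0, 0, 0, 0), (64, 0, 0, 0, 0), (22, 0, 0, 0, 0), (22, 0, 0, 0, 0), (23, 0, 0, 0, 0), (23, 0, 0, 0, 0), (21, 0, 0, 0, 0), (21, 0, 0, 0, 0), (65, 0, 0, 0, 0), (65, 0, 0, 0,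 0), (23, 0, 0, 0, 0), (23, 0, 0, 0, 0), (66, 0, 0, 0, 0), (66, 0, 0, 0, 0), (67, 0, 0, 0, 0), (67, 0, 0, 0, 0), (68, 0, 0, 0, 0), (68, 0, 0, 0, 0), (66, 0, 0, 0, 0), (66, 0, 0, 0, 0), (69, 0, 0, 0, 0), (69, 0, 0, 0, 0), (70, 0, 0, 0, 0), (70, 0, 0, 0, 0), (67, 0, 0, 0, 0), (67, 0, 0, 0, 0), (69, 0, 0, 0, 0), (69, 0, 0, 0, 0), (71, 0, 0, 0, 0), (71, 0, 0, 0, 0), (68, 0, 0, 0, 0), (68, 0, 0, 0, 0), (70, 0, 0, 0, 0), (70, 0, 0, 0, 0), (71, 0, 0, 0, 0), (71, 0, 0, 0, 0), (24, 0, 0, 0, 0), (24, 0, 0, 0, 0), (72, 0, 0, 0, 0), (72, 0, 0, 0, 0), (25, 0, 0, 0, 0), (25, 0, 0, 0, 0), (24, 0, 0, 0, 0), (24, 0, 0, 0, 0), (26, 0, 0, 0, 0), (26, 0, 0, 0, 0), (73, 0, 0, 0, 0), (73, 0, 0, 0, 0), (72, 0, 0, 0, 0), (72, 0, 0, 0, 0), (26, 0, 0,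 0, 0), (26, 0, 0, 0, 0), (27, 0, 0, 0, 0), (27, 0, 0, 0, 0), (25, 0, 0, 0, 0), (25, 0, 0, 0, 0), (73, 0, 0, 0, 0), (73, 0, 0, 0, 0), (27, 0, 0, 0, 0), (27, 0, 0, 0, 0), (4, 0, 0, 0, 0), (4, 0, 0, 0, 0), (50, 0, 0, 0, 0), (50, 0, 0, 0, 0), (5, 0, 0, 0, 0), (5, 0, 0, 0, 0), (4, 0, 0, 0, 0), (4, 0, 0, 0, 0), (6, 0, 0, 0, 0), (6, 0, 0, 0, 0), (51, 0, 0, 0, 0), (51, 0, 0, 0, 0), (50, 0, 0, 0, 0), (50, 0, 0, 0, 0), (6, 0, 0, 0, 0), (6, 0, 0, 0, 0), (7, 0, 0, 0, 0), (7, 0, 0, 0, 0), (5, 0, 0, 0, 0), (5, 0, 0, 0, 0), (51, 0, 0, 0, 0), (51, 0, 0, 0, 0), (7, 0, 0, 0, 0), (7, 0, 0, 0, 0), (62, 0, 0, 0, 0), (62, 0, 0, 0, 0), (16, 0, 0, 0, 0), (16, 0, 0, 0, 0), (17, 0, 0, 0, 0), (17, 0, 0, 0, 0), (62, 0, 0, 0, 0), (62, 0, 0, 0, 0), (18,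 0, 0, 0, 0), (18, 0, 0, 0, 0), (19, 0, 0, 0, 0), (19, 0, 0, 0, 0), (16, 0, 0, 0, 0), (16, 0, 0, 0, 0), (18, 0, 0, 0, 0), (18, 0, 0, 0, 0), (63, 0, 0, 0, 0), (63, 0, 0, 0, 0), (17, 0, 0, 0, 0), (17, 0, 0, 0, 0), (19, 0, 0, 0, 0), (19, 0, 0, 0, 0), (63, 0, 0, 0, 0), (63, 0, 0, 0, 0), (28, 0, 0, 0, 0), (28, 0, 0, 0, 0), (29, 0, 0, 0, 0), (29, 0, 0, 0, 0), (74, 0, 0, 0, 0), (74, 0, 0, 0, 0), (28, 0, 0, 0, 0), (28, 0, 0, 0, 0), (75, 0, 0, 0, 0), (75, 0, 0, 0, 0), (30, 0, 0, 0, 0), (30, 0, 0, 0, 0), (29, 0, 0, 0, 0), (29, 0, 0, 0, 0), (75, 0, 0, 0, 0), (75, 0, 0, 0, 0), (31, 0, 0, 0, 0), (31, 0, 0, 0, 0), (74, 0, 0, 0, 0), (74, 0, 0, 0, 0), (30, 0, 0, 0, 0), (30, 0, 0, 0, 0), (31, 0, 0, 0, 0), (31, 0, 0, 0, 0), (32, 0, 0, 0, 0),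 (32, 0, 0, 0, 0), (76, 0, 0, 0, 0), (76, 0, 0, 0, 0), (33, 0, 0, 0, 0), (33, 0, 0, 0, 0), (32, 0, 0, 0, 0), (32, 0, 0, 0, 0), (34, 0, 0, 0, 0), (34, 0, 0, 0, 0), (77, 0, 0, 0, 0), (77, 0, 0, 0, 0), (76, 0, 0, 0, 0), (76, 0, 0, 0, 0), (34, 0, 0, 0, 0), (34, 0, 0, 0, 0), (35, 0, 0, 0, 0), (35, 0, 0, 0, 0), (33, 0, 0, 0, 0), (33, 0, 0, 0, 0), (77, 0, 0, 0, 0), (77, 0, 0, 0, 0), (35, 0, 0, 0, 0), (35, 0, 0, 0, 0), (78, 0, 0, 0, 0), (78, 0, 0, 0, 0), (79, 0, 0, 0, 0), (79, 0, 0, 0, 0), (80, 0, 0, 0, 0), (80, 0, 0, 0, 0), (78, 0, 0, 0, 0), (78, 0, 0, 0, 0), (81, 0, 0, 0, 0), (81, 0, 0, 0, 0), (82, 0, 0, 0, 0), (82, 0, 0, 0, 0), (79, 0, 0, 0, 0), (79, 0, 0, 0, 0), (81, 0, 0, 0, 0), (81, 0, 0, 0, 0), (83, 0, 0, 0, 0), (83, 0, 0, 0,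 0), (80, 0, 0, 0, 0), (80, 0, 0, 0, 0), (82, 0, 0, 0, 0), (82, 0, 0, 0, 0), (83, 0, 0, 0, 0), (83, 0, 0, 0, 0), (52, 0, 0, 0, 0), (52, 0, 0, 0, 0), (53, 0, 0, 0, 0), (53, 0, 0, 0, 0), (54, 0, 0, 0, 0), (54, 0, 0, 0, 0), (52, 0, 0, 0, 0), (52, 0, 0, 0, 0), (55, 0, 0, 0, 0), (55, 0, 0, 0, 0), (56, 0, 0, 0, 0), (56, 0, 0, 0, 0), (53, 0, 0, 0, 0), (53, 0, 0, 0, 0), (55, 0, 0, 0, 0), (55, 0, 0, 0, 0), (57, 0, 0, 0, 0), (57, 0, 0, 0, 0), (54, 0, 0, 0, 0), (54, 0, 0, 0, 0), (56, 0, 0, 0, 0), (56, 0, 0, 0, 0), (57, 0, 0, 0, 0), (57, 0, 0, 0, 0), (20, 0, 0, 0, 0), (20, 0, 0, 0, 0), (64, 0, 0, 0, 0), (64, 0, 0, 0, 0), (21, 0, 0, 0, 0), (21, 0, 0, 0, 0), (20, 0, 0, 0, 0), (20, 0, 0, 0, 0), (22, 0, 0, 0, 0), (22, 0, 0, 0, 0), (65, 0, 0,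 0, 0), (65, 0, 0, 0, 0), (64, 0, 0, 0, 0), (64, 0, 0, 0, 0), (22, 0, 0, 0, 0), (22, 0, 0, 0, 0), (23, 0, 0, 0, 0), (23, 0, 0, 0, 0), (21, 0, 0, 0, 0), (21, 0, 0, 0, 0), (65, 0, 0, 0, 0), (65, 0, 0, 0, 0), (23, 0, 0, 0, 0), (23, 0, 0, 0, 0), (28, 0, 0, 0, 0), (28, 0, 0, 0, 0), (29, 0, 0, 0, 0), (29, 0, 0, 0, 0), (74, 0, 0, 0, 0), (74, 0, 0, 0, 0), (28, 0, 0, 0, 0), (28, 0, 0, 0, 0), (75, 0, 0, 0, 0), (75, 0, 0, 0, 0), (30, 0, 0, 0, 0), (30, 0, 0, 0, 0), (29, 0, 0, 0, 0), (29, 0, 0, 0, 0), (75, 0, 0, 0, 0), (75, 0, 0, 0, 0), (31, 0, 0, 0, 0), (31, 0, 0, 0, 0), (74, 0, 0, 0, 0), (74, 0, 0, 0, 0), (30, 0, 0, 0, 0), (30, 0, 0, 0, 0), (31, 0, 0, 0, 0), (31, 0, 0, 0, 0), (84, 0, 0, 0, 0), (84, 0, 0, 0, 0), (36, 0, 0, 0, 0), (36, 0,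 0, 0, 0), (37, 0, 0, 0, 0), (37, 0, 0, 0, 0), (84, 0, 0, 0, 0), (84, 0, 0, 0, 0), (38, 0, 0, 0, 0), (38, 0, 0, 0, 0), (39, 0, 0, 0, 0), (39, 0, 0, 0, 0), (36, 0, 0, 0, 0), (36, 0, 0, 0, 0), (38, 0, 0, 0, 0), (38, 0, 0, 0, 0), (85, 0, 0, 0, 0), (85, 0, 0, 0, 0), (37, 0, 0, 0, 0), (37, 0, 0, 0, 0), (39, 0, 0, 0, 0), (39, 0, 0, 0, 0), (85, 0, 0, 0, 0), (85, 0, 0, 0, 0), (40, 0, 0, 0, 0), (40, 0, 0, 0, 0), (86, 0, 0, 0, 0), (86, 0, 0, 0, 0), (41, 0, 0, 0, 0), (41, 0, 0, 0, 0), (40, 0, 0, 0, 0), (40, 0, 0, 0, 0), (42, 0, 0, 0, 0), (42, 0, 0, 0, 0), (87, 0, 0, 0, 0), (87, 0, 0, 0, 0), (86, 0, 0, 0, 0), (86, 0, 0, 0, 0), (42, 0, 0, 0, 0), (42, 0, 0, 0, 0), (43, 0, 0, 0, 0), (43, 0, 0, 0, 0), (41, 0, 0, 0, 0), (41, 0, 0, 0, 0), (87,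 0, 0, 0, 0), (87, 0, 0, 0, 0), (43, 0, 0, 0, 0), (43, 0, 0, 0, 0), (8, 0, 0, 0, 0), (8, 0, 0, 0, 0), (58, 0, 0, 0, 0), (58, 0, 0, 0, 0), (9, 0, 0, 0, 0), (9, 0, 0, 0, 0), (8, 0, 0, 0, 0), (8, 0, 0, 0, 0), (10, 0, 0, 0, 0), (10, 0, 0, 0, 0), (59, 0, 0, 0, 0), (59, 0, 0, 0, 0), (58, 0, 0, 0, 0), (58, 0, 0, 0, 0), (10, 0, 0, 0, 0), (10, 0, 0, 0, 0), (11, 0, 0, 0, 0), (11, 0, 0, 0, 0), (9, 0, 0, 0, 0), (9, 0, 0, 0, 0), (59, 0, 0, 0, 0), (59, 0, 0, 0, 0), (11, 0, 0, 0, 0), (11, 0, 0, 0, 0), (66, 0, 0, 0, 0), (66, 0, 0, 0, 0), (67, 0, 0, 0, 0), (67, 0, 0, 0, 0), (68, 0, 0, 0, 0), (68, 0, 0, 0, 0), (66, 0, 0, 0, 0), (66, 0, 0, 0, 0), (69, 0, 0, 0, 0), (69, 0, 0, 0, 0), (70, 0, 0, 0, 0), (70, 0, 0, 0, 0), (67, 0, 0, 0, 0), (67, 0,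 0, 0, 0), (69, 0, 0, 0, 0), (69, 0, 0, 0, 0), (71, 0, 0, 0, 0), (71, 0, 0, 0, 0), (68, 0, 0, 0, 0), (68, 0, 0, 0, 0), (70, 0, 0, 0, 0), (70, 0, 0, 0, 0), (71, 0, 0, 0, 0), (71, 0, 0, 0, 0), (32, 0, 0, 0, 0), (32, 0, 0, 0, 0), (76, 0, 0, 0, 0), (76, 0, 0, 0, 0), (33, 0, 0, 0, 0), (33, 0, 0, 0, 0), (32, 0, 0, 0, 0), (32, 0, 0, 0, 0), (34, 0, 0, 0, 0), (34, 0, 0, 0, 0), (77, 0, 0, 0, 0), (77, 0, 0, 0, 0), (76, 0, 0, 0, 0), (76, 0, 0, 0, 0), (34, 0, 0, 0, 0), (34, 0, 0, 0, 0), (35, 0, 0, 0, 0), (35, 0, 0, 0, 0), (33, 0, 0, 0, 0), (33, 0, 0, 0, 0), (77, 0, 0, 0, 0), (77, 0, 0, 0, 0), (35, 0, 0, 0, 0), (35, 0, 0, 0, 0), (84, 0, 0, 0, 0), (84, 0, 0, 0, 0), (36, 0, 0, 0, 0), (36, 0, 0, 0, 0), (37, 0, 0, 0, 0), (37, 0, 0, 0, 0), (84,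 0, 0, 0, 0), (84, 0, 0, 0, 0), (38, 0, 0, 0, 0), (38, 0, 0, 0, 0), (39, 0, 0, 0, 0), (39, 0, 0, 0, 0), (36, 0, 0, 0, 0), (36, 0, 0, 0, 0), (38, 0, 0, 0, 0), (38, 0, 0, 0, 0), (85, 0, 0, 0, 0), (85, 0, 0, 0, 0), (37, 0, 0, 0, 0), (37, 0, 0, 0, 0), (39, 0, 0, 0, 0), (39, 0, 0, 0, 0), (85, 0, 0, 0, 0), (85, 0, 0, 0, 0), (44, 0, 0, 0, 0), (44, 0, 0, 0, 0), (45, 0, 0, 0, 0), (45, 0, 0, 0, 0), (88, 0, 0, 0, 0), (88, 0, 0, 0, 0), (44, 0, 0, 0, 0), (44, 0, 0, 0, 0), (89, 0, 0, 0, 0), (89, 0, 0, 0, 0), (46, 0, 0, 0, 0), (46, 0, 0, 0, 0), (45, 0, 0, 0, 0), (45, 0, 0, 0, 0), (89, 0, 0, 0, 0), (89, 0, 0, 0, 0), (47, 0, 0, 0, 0), (47, 0, 0, 0, 0), (88, 0, 0, 0, 0), (88, 0, 0, 0, 0), (46, 0, 0, 0, 0), (46, 0, 0, 0, 0), (47, 0, 0, 0, 0),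 (47, 0, 0, 0, 0), (12, 0, 0, 0, 0), (12, 0, 0, 0, 0), (13, 0, 0, 0, 0), (13, 0, 0, 0, 0), (60, 0, 0, 0, 0), (60, 0, 0, 0, 0), (12, 0, 0, 0, 0), (12, 0, 0, 0, 0), (61, 0, 0, 0, 0), (61, 0, 0, 0, 0), (14, 0, 0, 0, 0), (14, 0, 0, 0, 0), (13, 0, 0, 0, 0), (13, 0, 0, 0, 0), (61, 0, 0, 0, 0), (61, 0, 0, 0, 0), (15, 0, 0, 0, 0), (15, 0, 0, 0, 0), (60, 0, 0, 0, 0), (60, 0, 0, 0, 0), (14, 0, 0, 0, 0), (14, 0, 0, 0, 0), (15, 0, 0, 0, 0), (15, 0, 0, 0, 0), (24, 0, 0, 0, 0), (24, 0, 0, 0, 0), (72, 0, 0, 0, 0), (72, 0, 0, 0, 0), (25, 0, 0, 0, 0), (25, 0, 0, 0, 0), (24, 0, 0, 0, 0), (24, 0, 0, 0, 0), (26, 0, 0, 0, 0), (26, 0, 0, 0, 0), (73, 0, 0, 0, 0), (73, 0, 0, 0, 0), (72, 0, 0, 0, 0), (72, 0, 0, 0, 0), (26, 0, 0, 0, 0), (26, 0, 0, 0,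 0), (27, 0, 0, 0, 0), (27, 0, 0, 0, 0), (25, 0, 0, 0, 0), (25, 0, 0, 0, 0), (73, 0, 0, 0, 0), (73, 0, 0, 0, 0), (27, 0, 0, 0, 0), (27, 0, 0, 0, 0), (78, 0, 0, 0, 0), (78, 0, 0, 0, 0), (79, 0, 0, 0, 0), (79, 0, 0, 0, 0), (80, 0, 0, 0, 0), (80, 0, 0, 0, 0), (78, 0, 0, 0, 0), (78, 0, 0, 0, 0), (81, 0, 0, 0, 0), (81, 0, 0, 0, 0), (82, 0, 0, 0, 0), (82, 0, 0, 0, 0), (79, 0, 0, 0, 0), (79, 0, 0, 0, 0), (81, 0, 0, 0, 0), (81, 0, 0, 0, 0), (83, 0, 0, 0, 0), (83, 0, 0, 0, 0), (80, 0, 0, 0, 0), (80, 0, 0, 0, 0), (82, 0, 0, 0, 0), (82, 0, 0, 0, 0), (83, 0, 0, 0, 0), (83, 0, 0, 0, 0), (40, 0, 0, 0, 0), (40, 0, 0, 0, 0), (86, 0, 0, 0, 0), (86, 0, 0, 0, 0), (41, 0, 0, 0, 0), (41, 0, 0, 0, 0), (40, 0, 0, 0, 0), (40, 0, 0, 0, 0), (42, 0, 0,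 0, 0), (42, 0, 0, 0, 0), (87, 0, 0, 0, 0), (87, 0, 0, 0, 0), (86, 0, 0, 0, 0), (86, 0, 0, 0, 0), (42, 0, 0, 0, 0), (42, 0, 0, 0, 0), (43, 0, 0, 0, 0), (43, 0, 0, 0, 0), (41, 0, 0, 0, 0), (41, 0, 0, 0, 0), (87, 0, 0, 0, 0), (87, 0, 0, 0, 0), (43, 0, 0, 0, 0), (43, 0, 0, 0, 0), (44, 0, 0, 0, 0), (44, 0, 0, 0, 0), (45, 0, 0, 0, 0), (45, 0, 0, 0, 0), (88, 0, 0, 0, 0), (88, 0, 0, 0, 0), (44, 0, 0, 0, 0), (44, 0, 0, 0, 0), (89, 0, 0, 0, 0), (89, 0, 0, 0, 0), (46, 0, 0, 0, 0), (46, 0, 0, 0, 0), (45, 0, 0, 0, 0), (45, 0, 0, 0, 0), (89, 0, 0, 0, 0), (89, 0, 0, 0, 0), (47, 0, 0, 0, 0), (47, 0, 0, 0, 0), (88, 0, 0, 0, 0), (88, 0, 0, 0, 0), (46, 0, 0, 0, 0), (46, 0, 0, 0, 0), (47, 0, 0, 0, 0), (47, 0, 0, 0, 0)],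
  [(3, 0, 0, 0, 0), (3, 0, 0, 0, 0), (2, 0, 0, 0, 0), (2, 0, 0, 0, 0), (49, 0, 0, 0, 0), (49, 0, 0, 0, 0), (3, 0, 0, 0, 0), (3, 0, 0, 0, 0), (48, 0, 0, 0, 0), (48, 0, 0, 0, 0), (1, 0, 0, 0, 0), (1, 0, 0, 0, 0), (2, 0, 0, 0, 0), (2, 0, 0, 0, 0), (48, 0, 0, 0, 0), (48, 0, 0, 0, 0), (0, 0, 0, 0, 0), (0, 0, 0, 0, 0), (49, 0, 0, 0, 0), (49, 0, 0, 0, 0), (1, 0, 0, 0, 0), (1, 0, 0, 0, 0), (0, 0, 0, 0, 0), (0, 0, 0, 0, 0), (7, 0, 0, 0, 0), (7, 0, 0, 0, 0), (51, 0, 0, 0, 0), (51, 0, 0, 0, 0), (6, 0, 0, 0, 0), (6, 0, 0, 0, 0), (7, 0, 0, 0, 0), (7, 0, 0, 0, 0), (5, 0, 0, 0, 0), (5, 0, 0, 0, 0), (50, 0, 0, 0, 0), (50, 0, 0, 0, 0), (51, 0, 0, 0, 0), (51, 0, 0, 0, 0), (5, 0, 0, 0, 0), (5, 0, 0, 0, 0), (4, 0, 0, 0, 0), (4, 0, 0, 0, 0), (6,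 0, 0, 0, 0), (6, 0, 0, 0, 0), (50, 0, 0, 0, 0), (50, 0, 0, 0, 0), (4, 0, 0, 0, 0), (4, 0, 0, 0, 0), (57, 0, 0, 0, 0), (57, 0, 0, 0, 0), (56, 0, 0, 0, 0), (56, 0, 0, 0, 0), (55, 0, 0, 0, 0), (55, 0, 0, 0, 0), (57, 0, 0, 0, 0), (57, 0, 0, 0, 0), (54, 0, 0, 0, 0), (54, 0, 0, 0, 0), (53, 0, 0, 0, 0), (53, 0, 0, 0, 0), (56, 0, 0, 0, 0), (56, 0, 0, 0, 0), (54, 0, 0, 0, 0), (54, 0, 0, 0, 0), (52, 0, 0, 0, 0), (52, 0, 0, 0, 0), (55, 0, 0, 0, 0), (55, 0, 0, 0, 0), (53, 0, 0, 0, 0), (53, 0, 0, 0, 0), (52, 0, 0, 0, 0), (52, 0, 0, 0, 0), (11, 0, 0, 0, 0), (11, 0, 0, 0, 0), (59, 0, 0, 0, 0), (59, 0, 0, 0, 0), (10, 0, 0, 0, 0), (10, 0, 0, 0, 0), (11, 0, 0, 0, 0), (11, 0, 0, 0, 0), (9, 0, 0, 0, 0), (9, 0, 0, 0, 0), (58, 0, 0, 0, 0), (58,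 0, 0, 0, 0), (59, 0, 0, 0, 0), (59, 0, 0, 0, 0), (9, 0, 0, 0, 0), (9, 0, 0, 0, 0), (8, 0, 0, 0, 0), (8, 0, 0, 0, 0), (10, 0, 0, 0, 0), (10, 0, 0, 0, 0), (58, 0, 0, 0, 0), (58, 0, 0, 0, 0), (8, 0, 0, 0, 0), (8, 0, 0, 0, 0), (15, 0, 0, 0, 0), (15, 0, 0, 0, 0), (14, 0, 0, 0, 0), (14, 0, 0, 0, 0), (61, 0, 0, 0, 0), (61, 0, 0, 0, 0), (15, 0, 0, 0, 0), (15, 0, 0, 0, 0), (60, 0, 0, 0, 0), (60, 0, 0, 0, 0), (13, 0, 0, 0, 0), (13, 0, 0, 0, 0), (14, 0, 0, 0, 0), (14, 0, 0, 0, 0), (60, 0, 0, 0, 0), (60, 0, 0, 0, 0), (12, 0, 0, 0, 0), (12, 0, 0, 0, 0), (61, 0, 0, 0, 0), (61, 0, 0, 0, 0), (13, 0, 0, 0, 0), (13, 0, 0, 0, 0), (12, 0, 0, 0, 0), (12, 0, 0, 0, 0), (3, 0, 0, 0, 0), (3, 0, 0, 0, 0), (2, 0, 0, 0, 0), (2, 0, 0, 0, 0), (49, 0, 0,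 0, 0), (49, 0, 0, 0, 0), (3, 0, 0, 0, 0), (3, 0, 0, 0, 0), (48, 0, 0, 0, 0), (48, 0, 0, 0, 0), (1, 0, 0, 0, 0), (1, 0, 0, 0, 0), (2, 0, 0, 0, 0), (2, 0, 0, 0, 0), (48, 0, 0, 0, 0), (48, 0, 0, 0, 0), (0, 0, 0, 0, 0), (0, 0, 0, 0, 0), (49, 0, 0, 0, 0), (49, 0, 0, 0, 0), (1, 0, 0, 0, 0), (1, 0, 0, 0, 0), (0, 0, 0, 0, 0), (0, 0, 0, 0, 0), (63, 0, 0, 0, 0), (63, 0, 0, 0, 0), (19, 0, 0, 0, 0), (19, 0, 0, 0, 0), (18, 0, 0, 0, 0), (18, 0, 0, 0, 0), (63, 0, 0, 0, 0), (63, 0, 0, 0, 0), (17, 0, 0, 0, 0), (17, 0, 0, 0, 0), (16, 0, 0, 0, 0), (16, 0, 0, 0, 0), (19, 0, 0, 0, 0), (19, 0, 0, 0, 0), (17, 0, 0, 0, 0), (17, 0, 0, 0, 0), (62, 0, 0, 0, 0), (62, 0, 0, 0, 0), (18, 0, 0, 0, 0), (18, 0, 0, 0, 0), (16, 0, 0, 0, 0), (16, 0, 0, 0, 0),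 (62, 0, 0, 0, 0), (62, 0, 0, 0, 0), (23, 0, 0, 0, 0), (23, 0, 0, 0, 0), (65, 0, 0, 0, 0), (65, 0, 0, 0, 0), (22, 0, 0, 0, 0), (22, 0, 0, 0, 0), (23, 0, 0, 0, 0), (23, 0, 0, 0, 0), (21, 0, 0, 0, 0), (21, 0, 0, 0, 0), (64, 0, 0, 0, 0), (64, 0, 0, 0, 0), (65, 0, 0, 0, 0), (65, 0, 0, 0, 0), (21, 0, 0, 0, 0), (21, 0, 0, 0, 0), (20, 0, 0, 0, 0), (20, 0, 0, 0, 0), (22, 0, 0, 0, 0), (22, 0, 0, 0, 0), (64, 0, 0, 0, 0), (64, 0, 0, 0, 0), (20, 0, 0, 0, 0), (20, 0, 0, 0, 0), (71, 0, 0, 0, 0), (71, 0, 0, 0, 0), (70, 0, 0, 0, 0), (70, 0, 0, 0, 0), (69, 0, 0, 0, 0), (69, 0, 0, 0, 0), (71, 0, 0, 0, 0), (71, 0, 0, 0, 0), (68, 0, 0, 0, 0), (68, 0, 0, 0, 0), (67, 0, 0, 0, 0), (67, 0, 0, 0, 0), (70, 0, 0, 0, 0), (70, 0, 0, 0, 0), (68, 0, 0, 0,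 0), (68, 0, 0, 0, 0), (66, 0, 0, 0, 0), (66, 0, 0, 0, 0), (69, 0, 0, 0, 0), (69, 0, 0, 0, 0), (67, 0, 0, 0, 0), (67, 0, 0, 0, 0), (66, 0, 0, 0, 0), (66, 0, 0, 0, 0), (27, 0, 0, 0, 0), (27, 0, 0, 0, 0), (73, 0, 0, 0, 0), (73, 0, 0, 0, 0), (26, 0, 0, 0, 0), (26, 0, 0, 0, 0), (27, 0, 0, 0, 0), (27, 0, 0, 0, 0), (25, 0, 0, 0, 0), (25, 0, 0, 0, 0), (72, 0, 0, 0, 0), (72, 0, 0, 0, 0), (73, 0, 0, 0, 0), (73, 0, 0, 0, 0), (25, 0, 0, 0, 0), (25, 0, 0, 0, 0), (24, 0, 0, 0, 0), (24, 0, 0, 0, 0), (26, 0, 0, 0, 0), (26, 0, 0, 0, 0), (72, 0, 0, 0, 0), (72, 0, 0, 0, 0), (24, 0, 0, 0, 0), (24, 0, 0, 0, 0), (7, 0, 0, 0, 0), (7, 0, 0, 0, 0), (51, 0, 0, 0, 0), (51, 0, 0, 0, 0), (6, 0, 0, 0, 0), (6, 0, 0, 0, 0), (7, 0, 0, 0, 0), (7, 0, 0, 0, 0),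 (5, 0, 0, 0, 0), (5, 0, 0, 0, 0), (50, 0, 0, 0, 0), (50, 0, 0, 0, 0), (51, 0, 0, 0, 0), (51, 0, 0, 0, 0), (5, 0, 0, 0, 0), (5, 0, 0, 0, 0), (4, 0, 0, 0, 0), (4, 0, 0, 0, 0), (6, 0, 0, 0, 0), (6, 0, 0, 0, 0), (50, 0, 0, 0, 0), (50, 0, 0, 0, 0), (4, 0, 0, 0, 0), (4, 0, 0, 0, 0), (63, 0, 0, 0, 0), (63, 0, 0, 0, 0), (19, 0, 0, 0, 0), (19, 0, 0, 0, 0), (18, 0, 0, 0, 0), (18, 0, 0, 0, 0), (63, 0, 0, 0, 0), (63, 0, 0, 0, 0), (17, 0, 0, 0, 0), (17, 0, 0, 0, 0), (16, 0, 0, 0, 0), (16, 0, 0, 0, 0), (19, 0, 0, 0, 0), (19, 0, 0, 0, 0), (17, 0, 0, 0, 0), (17, 0, 0, 0, 0), (62, 0, 0, 0, 0), (62, 0, 0, 0, 0), (18, 0, 0, 0, 0), (18, 0, 0, 0, 0), (16, 0, 0, 0, 0), (16, 0, 0, 0, 0), (62, 0, 0, 0, 0), (62, 0, 0, 0, 0), (31, 0, 0, 0, 0), (31,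 0, 0, 0, 0), (30, 0, 0, 0, 0), (30, 0, 0, 0, 0), (75, 0, 0, 0, 0), (75, 0, 0, 0, 0), (31, 0, 0, 0, 0), (31, 0, 0, 0, 0), (74, 0, 0, 0, 0), (74, 0, 0, 0, 0), (29, 0, 0, 0, 0), (29, 0, 0, 0, 0), (30, 0, 0, 0, 0), (30, 0, 0, 0, 0), (74, 0, 0, 0, 0), (74, 0, 0, 0, 0), (28, 0, 0, 0, 0), (28, 0, 0, 0, 0), (75, 0, 0, 0, 0), (75, 0, 0, 0, 0), (29, 0, 0, 0, 0), (29, 0, 0, 0, 0), (28, 0, 0, 0, 0), (28, 0, 0, 0, 0), (35, 0, 0, 0, 0), (35, 0, 0, 0, 0), (77, 0, 0, 0, 0), (77, 0, 0, 0, 0), (34, 0, 0, 0, 0), (34, 0, 0, 0, 0), (35, 0, 0, 0, 0), (35, 0, 0, 0, 0), (33, 0, 0, 0, 0), (33, 0, 0, 0, 0), (76, 0, 0, 0, 0), (76, 0, 0, 0, 0), (77, 0, 0, 0, 0), (77, 0, 0, 0, 0), (33, 0, 0, 0, 0), (33, 0, 0, 0, 0), (32, 0, 0, 0, 0), (32, 0, 0, 0, 0),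 (34, 0, 0, 0, 0), (34, 0, 0, 0, 0), (76, 0, 0, 0, 0), (76, 0, 0, 0, 0), (32, 0, 0, 0, 0), (32, 0, 0, 0, 0), (83, 0, 0, 0, 0), (83, 0, 0, 0, 0), (82, 0, 0, 0, 0), (82, 0, 0, 0, 0), (81, 0, 0, 0, 0), (81, 0, 0, 0, 0), (83, 0, 0, 0, 0), (83, 0, 0, 0, 0), (80, 0, 0, 0, 0), (80, 0, 0, 0, 0), (79, 0, 0, 0, 0), (79, 0, 0, 0, 0), (82, 0, 0, 0, 0), (82, 0, 0, 0, 0), (80, 0, 0, 0, 0), (80, 0, 0, 0, 0), (78, 0, 0, 0, 0), (78, 0, 0, 0, 0), (81, 0, 0, 0, 0), (81, 0, 0, 0, 0), (79, 0, 0, 0, 0), (79, 0, 0, 0, 0), (78, 0, 0, 0, 0), (78, 0, 0, 0, 0), (57, 0, 0, 0, 0), (57, 0, 0, 0, 0), (56, 0, 0, 0, 0), (56, 0, 0, 0, 0), (55, 0, 0, 0, 0), (55, 0, 0, 0, 0), (57, 0, 0, 0, 0), (57, 0, 0, 0, 0), (54, 0, 0, 0, 0), (54, 0, 0, 0, 0), (53, 0, 0, 0,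 0), (53, 0, 0, 0, 0), (56, 0, 0, 0, 0), (56, 0, 0, 0, 0), (54, 0, 0, 0, 0), (54, 0, 0, 0, 0), (52, 0, 0, 0, 0), (52, 0, 0, 0, 0), (55, 0, 0, 0, 0), (55, 0, 0, 0, 0), (53, 0, 0, 0, 0), (53, 0, 0, 0, 0), (52, 0, 0, 0, 0), (52, 0, 0, 0, 0), (23, 0, 0, 0, 0), (23, 0, 0, 0, 0), (65, 0, 0, 0, 0), (65, 0, 0, 0, 0), (22, 0, 0, 0, 0), (22, 0, 0, 0, 0), (23, 0, 0, 0, 0), (23, 0, 0, 0, 0), (21, 0, 0, 0, 0), (21, 0, 0, 0, 0), (64, 0, 0, 0, 0), (64, 0, 0, 0, 0), (65, 0, 0, 0, 0), (65, 0, 0, 0, 0), (21, 0, 0, 0, 0), (21, 0, 0, 0, 0), (20, 0, 0, 0, 0), (20, 0, 0, 0, 0), (22, 0, 0, 0, 0), (22, 0, 0, 0, 0), (64, 0, 0, 0, 0), (64, 0, 0, 0, 0), (20, 0, 0, 0, 0), (20, 0, 0, 0, 0), (31, 0, 0, 0, 0), (31, 0, 0, 0, 0), (30, 0, 0, 0, 0), (30, 0, 0,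 0, 0), (75, 0, 0, 0, 0), (75, 0, 0, 0, 0), (31, 0, 0, 0, 0), (31, 0, 0, 0, 0), (74, 0, 0, 0, 0), (74, 0, 0, 0, 0), (29, 0, 0, 0, 0), (29, 0, 0, 0, 0), (30, 0, 0, 0, 0), (30, 0, 0, 0, 0), (74, 0, 0, 0, 0), (74, 0, 0, 0, 0), (28, 0, 0, 0, 0), (28, 0, 0, 0, 0), (75, 0, 0, 0, 0), (75, 0, 0, 0, 0), (29, 0, 0, 0, 0), (29, 0, 0, 0, 0), (28, 0, 0, 0, 0), (28, 0, 0, 0, 0), (85, 0, 0, 0, 0), (85, 0, 0, 0, 0), (39, 0, 0, 0, 0), (39, 0, 0, 0, 0), (38, 0, 0, 0, 0), (38, 0, 0, 0, 0), (85, 0, 0, 0, 0), (85, 0, 0, 0, 0), (37, 0, 0, 0, 0), (37, 0, 0, 0, 0), (36, 0, 0, 0, 0), (36, 0, 0, 0, 0), (39, 0, 0, 0, 0), (39, 0, 0, 0, 0), (37, 0, 0, 0, 0), (37, 0, 0, 0, 0), (84, 0, 0, 0, 0), (84, 0, 0, 0, 0), (38, 0, 0, 0, 0), (38, 0, 0, 0, 0), (36, 0,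 0, 0, 0), (36, 0, 0, 0, 0), (84, 0, 0, 0, 0), (84, 0, 0, 0, 0), (43, 0, 0, 0, 0), (43, 0, 0, 0, 0), (87, 0, 0, 0, 0), (87, 0, 0, 0, 0), (42, 0, 0, 0, 0), (42, 0, 0, 0, 0), (43, 0, 0, 0, 0), (43, 0, 0, 0, 0), (41, 0, 0, 0, 0), (41, 0, 0, 0, 0), (86, 0, 0, 0, 0), (86, 0, 0, 0, 0), (87, 0, 0, 0, 0), (87, 0, 0, 0, 0), (41, 0, 0, 0, 0), (41, 0, 0, 0, 0), (40, 0, 0, 0, 0), (40, 0, 0, 0, 0), (42, 0, 0, 0, 0), (42, 0, 0, 0, 0), (86, 0, 0, 0, 0), (86, 0, 0, 0, 0), (40, 0, 0, 0, 0), (40, 0, 0, 0, 0), (11, 0, 0, 0, 0), (11, 0, 0, 0, 0), (59, 0, 0, 0, 0), (59, 0, 0, 0, 0), (10, 0, 0, 0, 0), (10, 0, 0, 0, 0), (11, 0, 0, 0, 0), (11, 0, 0, 0, 0), (9, 0, 0, 0, 0), (9, 0, 0, 0, 0), (58, 0, 0, 0, 0), (58, 0, 0, 0, 0), (59, 0, 0, 0, 0), (59,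 0, 0, 0, 0), (9, 0, 0, 0, 0), (9, 0, 0, 0, 0), (8, 0, 0, 0, 0), (8, 0, 0, 0, 0), (10, 0, 0, 0, 0), (10, 0, 0, 0, 0), (58, 0, 0, 0, 0), (58, 0, 0, 0, 0), (8, 0, 0, 0, 0), (8, 0, 0, 0, 0), (71, 0, 0, 0, 0), (71, 0, 0, 0, 0), (70, 0, 0, 0, 0), (70, 0, 0, 0, 0), (69, 0, 0, 0, 0), (69, 0, 0, 0, 0), (71, 0, 0, 0, 0), (71, 0, 0, 0, 0), (68, 0, 0, 0, 0), (68, 0, 0, 0, 0), (67, 0, 0, 0, 0), (67, 0, 0, 0, 0), (70, 0, 0, 0, 0), (70, 0, 0, 0, 0), (68, 0, 0, 0, 0), (68, 0, 0, 0, 0), (66, 0, 0, 0, 0), (66, 0, 0, 0, 0), (69, 0, 0, 0, 0), (69, 0, 0, 0, 0), (67, 0, 0, 0, 0), (67, 0, 0, 0, 0), (66, 0, 0, 0, 0), (66, 0, 0, 0, 0), (35, 0, 0, 0, 0), (35, 0, 0, 0, 0), (77, 0, 0, 0, 0), (77, 0, 0, 0, 0), (34, 0, 0, 0, 0), (34, 0, 0, 0, 0), (35, 0,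 0, 0, 0), (35, 0, 0, 0, 0), (33, 0, 0, 0, 0), (33, 0, 0, 0, 0), (76, 0, 0, 0, 0), (76, 0, 0, 0, 0), (77, 0, 0, 0, 0), (77, 0, 0, 0, 0), (33, 0, 0, 0, 0), (33, 0, 0, 0, 0), (32, 0, 0, 0, 0), (32, 0, 0, 0, 0), (34, 0, 0, 0, 0), (34, 0, 0, 0, 0), (76, 0, 0, 0, 0), (76, 0, 0, 0, 0), (32, 0, 0, 0, 0), (32, 0, 0, 0, 0), (85, 0, 0, 0, 0), (85, 0, 0, 0, 0), (39, 0, 0, 0, 0), (39, 0, 0, 0, 0), (38, 0, 0, 0, 0), (38, 0, 0, 0, 0), (85, 0, 0, 0, 0), (85, 0, 0, 0, 0), (37, 0, 0, 0, 0), (37, 0, 0, 0, 0), (36, 0, 0, 0, 0), (36, 0, 0, 0, 0), (39, 0, 0, 0, 0), (39, 0, 0, 0, 0), (37, 0, 0, 0, 0), (37, 0, 0, 0, 0), (84, 0, 0, 0, 0), (84, 0, 0, 0, 0), (38, 0, 0, 0, 0), (38, 0, 0, 0, 0), (36, 0, 0, 0, 0), (36, 0, 0, 0, 0), (84, 0, 0, 0, 0), (84,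 0, 0, 0, 0), (47, 0, 0, 0, 0), (47, 0, 0, 0, 0), (46, 0, 0, 0, 0), (46, 0, 0, 0, 0), (89, 0, 0, 0, 0), (89, 0, 0, 0, 0), (47, 0, 0, 0, 0), (47, 0, 0, 0, 0), (88, 0, 0, 0, 0), (88, 0, 0, 0, 0), (45, 0, 0, 0, 0), (45, 0, 0, 0, 0), (46, 0, 0, 0, 0), (46, 0, 0, 0, 0), (88, 0, 0, 0, 0), (88, 0, 0, 0, 0), (44, 0, 0, 0, 0), (44, 0, 0, 0, 0), (89, 0, 0, 0, 0), (89, 0, 0, 0, 0), (45, 0, 0, 0, 0), (45, 0, 0, 0, 0), (44, 0, 0, 0, 0), (44, 0, 0, 0, 0), (15, 0, 0, 0, 0), (15, 0, 0, 0, 0), (14, 0, 0, 0, 0), (14, 0, 0, 0, 0), (61, 0, 0, 0, 0), (61, 0, 0, 0, 0), (15, 0, 0, 0, 0), (15, 0, 0, 0, 0), (60, 0, 0, 0, 0), (60, 0, 0, 0, 0), (13, 0, 0, 0, 0), (13, 0, 0, 0, 0), (14, 0, 0, 0, 0), (14, 0, 0, 0, 0), (60, 0, 0, 0, 0), (60, 0, 0, 0, 0),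 (12, 0, 0, 0, 0), (12, 0, 0, 0, 0), (61, 0, 0, 0, 0), (61, 0, 0, 0, 0), (13, 0, 0, 0, 0), (13, 0, 0, 0, 0), (12, 0, 0, 0, 0), (12, 0, 0, 0, 0), (27, 0, 0, 0, 0), (27, 0, 0, 0, 0), (73, 0, 0, 0, 0), (73, 0, 0, 0, 0), (26, 0, 0, 0, 0), (26, 0, 0, 0, 0), (27, 0, 0, 0, 0), (27, 0, 0, 0, 0), (25, 0, 0, 0, 0), (25, 0, 0, 0, 0), (72, 0, 0, 0, 0), (72, 0, 0, 0, 0), (73, 0, 0, 0, 0), (73, 0, 0, 0, 0), (25, 0, 0, 0, 0), (25, 0, 0, 0, 0), (24, 0, 0, 0, 0), (24, 0, 0, 0, 0), (26, 0, 0, 0, 0), (26, 0, 0, 0, 0), (72, 0, 0, 0, 0), (72, 0, 0, 0, 0), (24, 0, 0, 0, 0), (24, 0, 0, 0, 0), (83, 0, 0, 0, 0), (83, 0, 0, 0, 0), (82, 0, 0, 0, 0), (82, 0, 0, 0, 0), (81, 0, 0, 0, 0), (81, 0, 0, 0, 0), (83, 0, 0, 0, 0), (83, 0, 0, 0, 0), (80, 0, 0, 0,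 0), (80, 0, 0, 0, 0), (79, 0, 0, 0, 0), (79, 0, 0, 0, 0), (82, 0, 0, 0, 0), (82, 0, 0, 0, 0), (80, 0, 0, 0, 0), (80, 0, 0, 0, 0), (78, 0, 0, 0, 0), (78, 0, 0, 0, 0), (81, 0, 0, 0, 0), (81, 0, 0, 0, 0), (79, 0, 0, 0, 0), (79, 0, 0, 0, 0), (78, 0, 0, 0, 0), (78, 0, 0, 0, 0), (43, 0, 0, 0, 0), (43, 0, 0, 0, 0), (87, 0, 0, 0, 0), (87, 0, 0, 0, 0), (42, 0, 0, 0, 0), (42, 0, 0, 0, 0), (43, 0, 0, 0, 0), (43, 0, 0, 0, 0), (41, 0, 0, 0, 0), (41, 0, 0, 0, 0), (86, 0, 0, 0, 0), (86, 0, 0, 0, 0), (87, 0, 0, 0, 0), (87, 0, 0, 0, 0), (41, 0, 0, 0, 0), (41, 0, 0, 0, 0), (40, 0, 0, 0, 0), (40, 0, 0, 0, 0), (42, 0, 0, 0, 0), (42, 0, 0, 0, 0), (86, 0, 0, 0, 0), (86, 0, 0, 0, 0), (40, 0, 0, 0, 0), (40, 0, 0, 0, 0), (47, 0, 0, 0, 0), (47, 0, 0,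 0, 0), (46, 0, 0, 0, 0), (46, 0, 0, 0, 0), (89, 0, 0, 0, 0), (89, 0, 0, 0, 0), (47, 0, 0, 0, 0), (47, 0, 0, 0, 0), (88, 0, 0, 0, 0), (88, 0, 0, 0, 0), (45, 0, 0, 0, 0), (45, 0, 0, 0, 0), (46, 0, 0, 0, 0), (46, 0, 0, 0, 0), (88, 0, 0, 0, 0), (88, 0, 0, 0, 0), (44, 0, 0, 0, 0), (44, 0, 0, 0, 0), (89, 0, 0, 0, 0), (89, 0, 0, 0, 0), (45, 0, 0, 0, 0), (45, 0, 0, 0, 0), (44, 0, 0, 0, 0), (44, 0, 0, 0, 0)],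
  [(28, 0, 0, 0, 0), (28, 0, 0, 0, 0), (32, 0, 0, 0, 0), (32, 0, 0, 0, 0), (78, 0, 0, 0, 0), (78, 0, 0, 0, 0), (28, 0, 0, 0, 0), (28, 0, 0, 0, 0), (84, 0, 0, 0, 0), (84, 0, 0, 0, 0), (40, 0, 0, 0, 0), (40, 0, 0, 0, 0), (32, 0, 0, 0, 0), (32, 0, 0, 0, 0), (84, 0, 0, 0, 0), (84, 0, 0, 0, 0), (44, 0, 0, 0, 0), (44, 0, 0, 0, 0), (78, 0, 0, 0, 0), (78, 0, 0, 0, 0), (40, 0, 0, 0, 0), (40, 0, 0, 0, 0), (44, 0, 0, 0, 0), (44, 0, 0, 0, 0), (20, 0, 0, 0, 0), (20, 0, 0, 0, 0), (66, 0, 0, 0, 0), (66, 0, 0, 0, 0), (24, 0, 0, 0, 0), (24, 0, 0, 0, 0), (20, 0, 0, 0, 0), (20, 0, 0, 0, 0), (36, 0, 0, 0, 0), (36, 0, 0, 0, 0), (86, 0, 0, 0, 0), (86, 0, 0, 0, 0), (66, 0, 0, 0, 0), (66, 0, 0, 0, 0), (36, 0, 0, 0, 0), (36, 0, 0, 0, 0), (45, 0, 0,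 0, 0), (45, 0, 0, 0, 0), (24, 0, 0, 0, 0), (24, 0, 0, 0, 0), (86, 0, 0, 0, 0), (86, 0, 0, 0, 0), (45, 0, 0, 0, 0), (45, 0, 0, 0, 0), (62, 0, 0, 0, 0), (62, 0, 0, 0, 0), (67, 0, 0, 0, 0), (67, 0, 0, 0, 0), (72, 0, 0, 0, 0), (72, 0, 0, 0, 0), (62, 0, 0, 0, 0), (62, 0, 0, 0, 0), (76, 0, 0, 0, 0), (76, 0, 0, 0, 0), (79, 0, 0, 0, 0), (79, 0, 0, 0, 0), (67, 0, 0, 0, 0), (67, 0, 0, 0, 0), (76, 0, 0, 0, 0), (76, 0, 0, 0, 0), (88, 0, 0, 0, 0), (88, 0, 0, 0, 0), (72, 0, 0, 0, 0), (72, 0, 0, 0, 0), (79, 0, 0, 0, 0), (79, 0, 0, 0, 0), (88, 0, 0, 0, 0), (88, 0, 0, 0, 0), (16, 0, 0, 0, 0), (16, 0, 0, 0, 0), (64, 0, 0, 0, 0), (64, 0, 0, 0, 0), (25, 0, 0, 0, 0), (25, 0, 0, 0, 0), (16, 0, 0, 0, 0), (16, 0, 0, 0, 0), (29, 0, 0, 0, 0), (29, 0,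 0, 0, 0), (80, 0, 0, 0, 0), (80, 0, 0, 0, 0), (64, 0, 0, 0, 0), (64, 0, 0, 0, 0), (29, 0, 0, 0, 0), (29, 0, 0, 0, 0), (41, 0, 0, 0, 0), (41, 0, 0, 0, 0), (25, 0, 0, 0, 0), (25, 0, 0, 0, 0), (80, 0, 0, 0, 0), (80, 0, 0, 0, 0), (41, 0, 0, 0, 0), (41, 0, 0, 0, 0), (17, 0, 0, 0, 0), (17, 0, 0, 0, 0), (21, 0, 0, 0, 0), (21, 0, 0, 0, 0), (68, 0, 0, 0, 0), (68, 0, 0, 0, 0), (17, 0, 0, 0, 0), (17, 0, 0, 0, 0), (74, 0, 0, 0, 0), (74, 0, 0, 0, 0), (33, 0, 0, 0, 0), (33, 0, 0, 0, 0), (21, 0, 0, 0, 0), (21, 0, 0, 0, 0), (74, 0, 0, 0, 0), (74, 0, 0, 0, 0), (37, 0, 0, 0, 0), (37, 0, 0, 0, 0), (68, 0, 0, 0, 0), (68, 0, 0, 0, 0), (33, 0, 0, 0, 0), (33, 0, 0, 0, 0), (37, 0, 0, 0, 0), (37, 0, 0, 0, 0), (28, 0, 0, 0, 0), (28, 0, 0, 0, 0), (32,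 0, 0, 0, 0), (32, 0, 0, 0, 0), (78, 0, 0, 0, 0), (78, 0, 0, 0, 0), (28, 0, 0, 0, 0), (28, 0, 0, 0, 0), (84, 0, 0, 0, 0), (84, 0, 0, 0, 0), (40, 0, 0, 0, 0), (40, 0, 0, 0, 0), (32, 0, 0, 0, 0), (32, 0, 0, 0, 0), (84, 0, 0, 0, 0), (84, 0, 0, 0, 0), (44, 0, 0, 0, 0), (44, 0, 0, 0, 0), (78, 0, 0, 0, 0), (78, 0, 0, 0, 0), (40, 0, 0, 0, 0), (40, 0, 0, 0, 0), (44, 0, 0, 0, 0), (44, 0, 0, 0, 0), (52, 0, 0, 0, 0), (52, 0, 0, 0, 0), (8, 0, 0, 0, 0), (8, 0, 0, 0, 0), (12, 0, 0, 0, 0), (12, 0, 0, 0, 0), (52, 0, 0, 0, 0), (52, 0, 0, 0, 0), (38, 0, 0, 0, 0), (38, 0, 0, 0, 0), (42, 0, 0, 0, 0), (42, 0, 0, 0, 0), (8, 0, 0, 0, 0), (8, 0, 0, 0, 0), (38, 0, 0, 0, 0), (38, 0, 0, 0, 0), (89, 0, 0, 0, 0), (89, 0, 0, 0, 0), (12, 0, 0, 0, 0), (12,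 0, 0, 0, 0), (42, 0, 0, 0, 0), (42, 0, 0, 0, 0), (89, 0, 0, 0, 0), (89, 0, 0, 0, 0), (4, 0, 0, 0, 0), (4, 0, 0, 0, 0), (58, 0, 0, 0, 0), (58, 0, 0, 0, 0), (13, 0, 0, 0, 0), (13, 0, 0, 0, 0), (4, 0, 0, 0, 0), (4, 0, 0, 0, 0), (34, 0, 0, 0, 0), (34, 0, 0, 0, 0), (81, 0, 0, 0, 0), (81, 0, 0, 0, 0), (58, 0, 0, 0, 0), (58, 0, 0, 0, 0), (34, 0, 0, 0, 0), (34, 0, 0, 0, 0), (46, 0, 0, 0, 0), (46, 0, 0, 0, 0), (13, 0, 0, 0, 0), (13, 0, 0, 0, 0), (81, 0, 0, 0, 0), (81, 0, 0, 0, 0), (46, 0, 0, 0, 0), (46, 0, 0, 0, 0), (50, 0, 0, 0, 0), (50, 0, 0, 0, 0), (53, 0, 0, 0, 0), (53, 0, 0, 0, 0), (60, 0, 0, 0, 0), (60, 0, 0, 0, 0), (50, 0, 0, 0, 0), (50, 0, 0, 0, 0), (75, 0, 0, 0, 0), (75, 0, 0, 0, 0), (82, 0, 0, 0, 0), (82, 0, 0, 0, 0), (53,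 0, 0, 0, 0), (53, 0, 0, 0, 0), (75, 0, 0, 0, 0), (75, 0, 0, 0, 0), (87, 0, 0, 0, 0), (87, 0, 0, 0, 0), (60, 0, 0, 0, 0), (60, 0, 0, 0, 0), (82, 0, 0, 0, 0), (82, 0, 0, 0, 0), (87, 0, 0, 0, 0), (87, 0, 0, 0, 0), (5, 0, 0, 0, 0), (5, 0, 0, 0, 0), (54, 0, 0, 0, 0), (54, 0, 0, 0, 0), (9, 0, 0, 0, 0), (9, 0, 0, 0, 0), (5, 0, 0, 0, 0), (5, 0, 0, 0, 0), (30, 0, 0, 0, 0), (30, 0, 0, 0, 0), (77, 0, 0, 0, 0), (77, 0, 0, 0, 0), (54, 0, 0, 0, 0), (54, 0, 0, 0, 0), (30, 0, 0, 0, 0), (30, 0, 0, 0, 0), (39, 0, 0, 0, 0), (39, 0, 0, 0, 0), (9, 0, 0, 0, 0), (9, 0, 0, 0, 0), (77, 0, 0, 0, 0), (77, 0, 0, 0, 0), (39, 0, 0, 0, 0), (39, 0, 0, 0, 0), (20, 0, 0, 0, 0), (20, 0, 0, 0, 0), (66, 0, 0, 0, 0), (66, 0, 0, 0, 0), (24, 0, 0, 0, 0), (24, 0,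 0, 0, 0), (20, 0, 0, 0, 0), (20, 0, 0, 0, 0), (36, 0, 0, 0, 0), (36, 0, 0, 0, 0), (86, 0, 0, 0, 0), (86, 0, 0, 0, 0), (66, 0, 0, 0, 0), (66, 0, 0, 0, 0), (36, 0, 0, 0, 0), (36, 0, 0, 0, 0), (45, 0, 0, 0, 0), (45, 0, 0, 0, 0), (24, 0, 0, 0, 0), (24, 0, 0, 0, 0), (86, 0, 0, 0, 0), (86, 0, 0, 0, 0), (45, 0, 0, 0, 0), (45, 0, 0, 0, 0), (52, 0, 0, 0, 0), (52, 0, 0, 0, 0), (8, 0, 0, 0, 0), (8, 0, 0, 0, 0), (12, 0, 0, 0, 0), (12, 0, 0, 0, 0), (52, 0, 0, 0, 0), (52, 0, 0, 0, 0), (38, 0, 0, 0, 0), (38, 0, 0, 0, 0), (42, 0, 0, 0, 0), (42, 0, 0, 0, 0), (8, 0, 0, 0, 0), (8, 0, 0, 0, 0), (38, 0, 0, 0, 0), (38, 0, 0, 0, 0), (89, 0, 0, 0, 0), (89, 0, 0, 0, 0), (12, 0, 0, 0, 0), (12, 0, 0, 0, 0), (42, 0, 0, 0, 0), (42, 0, 0, 0, 0), (89, 0,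 0, 0, 0), (89, 0, 0, 0, 0), (0, 0, 0, 0, 0), (0, 0, 0, 0, 0), (10, 0, 0, 0, 0), (10, 0, 0, 0, 0), (61, 0, 0, 0, 0), (61, 0, 0, 0, 0), (0, 0, 0, 0, 0), (0, 0, 0, 0, 0), (69, 0, 0, 0, 0), (69, 0, 0, 0, 0), (26, 0, 0, 0, 0), (26, 0, 0, 0, 0), (10, 0, 0, 0, 0), (10, 0, 0, 0, 0), (69, 0, 0, 0, 0), (69, 0, 0, 0, 0), (47, 0, 0, 0, 0), (47, 0, 0, 0, 0), (61, 0, 0, 0, 0), (61, 0, 0, 0, 0), (26, 0, 0, 0, 0), (26, 0, 0, 0, 0), (47, 0, 0, 0, 0), (47, 0, 0, 0, 0), (1, 0, 0, 0, 0), (1, 0, 0, 0, 0), (55, 0, 0, 0, 0), (55, 0, 0, 0, 0), (14, 0, 0, 0, 0), (14, 0, 0, 0, 0), (1, 0, 0, 0, 0), (1, 0, 0, 0, 0), (22, 0, 0, 0, 0), (22, 0, 0, 0, 0), (73, 0, 0, 0, 0), (73, 0, 0, 0, 0), (55, 0, 0, 0, 0), (55, 0, 0, 0, 0), (22, 0, 0, 0, 0), (22, 0, 0,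 0, 0), (43, 0, 0, 0, 0), (43, 0, 0, 0, 0), (14, 0, 0, 0, 0), (14, 0, 0, 0, 0), (73, 0, 0, 0, 0), (73, 0, 0, 0, 0), (43, 0, 0, 0, 0), (43, 0, 0, 0, 0), (48, 0, 0, 0, 0), (48, 0, 0, 0, 0), (56, 0, 0, 0, 0), (56, 0, 0, 0, 0), (59, 0, 0, 0, 0), (59, 0, 0, 0, 0), (48, 0, 0, 0, 0), (48, 0, 0, 0, 0), (65, 0, 0, 0, 0), (65, 0, 0, 0, 0), (70, 0, 0, 0, 0), (70, 0, 0, 0, 0), (56, 0, 0, 0, 0), (56, 0, 0, 0, 0), (65, 0, 0, 0, 0), (65, 0, 0, 0, 0), (85, 0, 0, 0, 0), (85, 0, 0, 0, 0), (59, 0, 0, 0, 0), (59, 0, 0, 0, 0), (70, 0, 0, 0, 0), (70, 0, 0, 0, 0), (85, 0, 0, 0, 0), (85, 0, 0, 0, 0), (62, 0, 0, 0, 0), (62, 0, 0, 0, 0), (67, 0, 0, 0, 0), (67, 0, 0, 0, 0), (72, 0, 0, 0, 0), (72, 0, 0, 0, 0), (62, 0, 0, 0, 0), (62, 0, 0, 0, 0), (76, 0,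 0, 0, 0), (76, 0, 0, 0, 0), (79, 0, 0, 0, 0), (79, 0, 0, 0, 0), (67, 0, 0, 0, 0), (67, 0, 0, 0, 0), (76, 0, 0, 0, 0), (76, 0, 0, 0, 0), (88, 0, 0, 0, 0), (88, 0, 0, 0, 0), (72, 0, 0, 0, 0), (72, 0, 0, 0, 0), (79, 0, 0, 0, 0), (79, 0, 0, 0, 0), (88, 0, 0, 0, 0), (88, 0, 0, 0, 0), (4, 0, 0, 0, 0), (4, 0, 0, 0, 0), (58, 0, 0, 0, 0), (58, 0, 0, 0, 0), (13, 0, 0, 0, 0), (13, 0, 0, 0, 0), (4, 0, 0, 0, 0), (4, 0, 0, 0, 0), (34, 0, 0, 0, 0), (34, 0, 0, 0, 0), (81, 0, 0, 0, 0), (81, 0, 0, 0, 0), (58, 0, 0, 0, 0), (58, 0, 0, 0, 0), (34, 0, 0, 0, 0), (34, 0, 0, 0, 0), (46, 0, 0, 0, 0), (46, 0, 0, 0, 0), (13, 0, 0, 0, 0), (13, 0, 0, 0, 0), (81, 0, 0, 0, 0), (81, 0, 0, 0, 0), (46, 0, 0, 0, 0), (46, 0, 0, 0, 0), (0, 0, 0, 0, 0), (0, 0, 0,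 0, 0), (10, 0, 0, 0, 0), (10, 0, 0, 0, 0), (61, 0, 0, 0, 0), (61, 0, 0, 0, 0), (0, 0, 0, 0, 0), (0, 0, 0, 0, 0), (69, 0, 0, 0, 0), (69, 0, 0, 0, 0), (26, 0, 0, 0, 0), (26, 0, 0, 0, 0), (10, 0, 0, 0, 0), (10, 0, 0, 0, 0), (69, 0, 0, 0, 0), (69, 0, 0, 0, 0), (47, 0, 0, 0, 0), (47, 0, 0, 0, 0), (61, 0, 0, 0, 0), (61, 0, 0, 0, 0), (26, 0, 0, 0, 0), (26, 0, 0, 0, 0), (47, 0, 0, 0, 0), (47, 0, 0, 0, 0), (49, 0, 0, 0, 0), (49, 0, 0, 0, 0), (6, 0, 0, 0, 0), (6, 0, 0, 0, 0), (15, 0, 0, 0, 0), (15, 0, 0, 0, 0), (49, 0, 0, 0, 0), (49, 0, 0, 0, 0), (18, 0, 0, 0, 0), (18, 0, 0, 0, 0), (27, 0, 0, 0, 0), (27, 0, 0, 0, 0), (6, 0, 0, 0, 0), (6, 0, 0, 0, 0), (18, 0, 0, 0, 0), (18, 0, 0, 0, 0), (83, 0, 0, 0, 0), (83, 0, 0, 0, 0), (15, 0, 0, 0,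 0), (15, 0, 0, 0, 0), (27, 0, 0, 0, 0), (27, 0, 0, 0, 0), (83, 0, 0, 0, 0), (83, 0, 0, 0, 0), (2, 0, 0, 0, 0), (2, 0, 0, 0, 0), (51, 0, 0, 0, 0), (51, 0, 0, 0, 0), (11, 0, 0, 0, 0), (11, 0, 0, 0, 0), (2, 0, 0, 0, 0), (2, 0, 0, 0, 0), (19, 0, 0, 0, 0), (19, 0, 0, 0, 0), (71, 0, 0, 0, 0), (71, 0, 0, 0, 0), (51, 0, 0, 0, 0), (51, 0, 0, 0, 0), (19, 0, 0, 0, 0), (19, 0, 0, 0, 0), (35, 0, 0, 0, 0), (35, 0, 0, 0, 0), (11, 0, 0, 0, 0), (11, 0, 0, 0, 0), (71, 0, 0, 0, 0), (71, 0, 0, 0, 0), (35, 0, 0, 0, 0), (35, 0, 0, 0, 0), (16, 0, 0, 0, 0), (16, 0, 0, 0, 0), (64, 0, 0, 0, 0), (64, 0, 0, 0, 0), (25, 0, 0, 0, 0), (25, 0, 0, 0, 0), (16, 0, 0, 0, 0), (16, 0, 0, 0, 0), (29, 0, 0, 0, 0), (29, 0, 0, 0, 0), (80, 0, 0, 0, 0), (80, 0, 0, 0,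 0), (64, 0, 0, 0, 0), (64, 0, 0, 0, 0), (29, 0, 0, 0, 0), (29, 0, 0, 0, 0), (41, 0, 0, 0, 0), (41, 0, 0, 0, 0), (25, 0, 0, 0, 0), (25, 0, 0, 0, 0), (80, 0, 0, 0, 0), (80, 0, 0, 0, 0), (41, 0, 0, 0, 0), (41, 0, 0, 0, 0), (50, 0, 0, 0, 0), (50, 0, 0, 0, 0), (53, 0, 0, 0, 0), (53, 0, 0, 0, 0), (60, 0, 0, 0, 0), (60, 0, 0, 0, 0), (50, 0, 0, 0, 0), (50, 0, 0, 0, 0), (75, 0, 0, 0, 0), (75, 0, 0, 0, 0), (82, 0, 0, 0, 0), (82, 0, 0, 0, 0), (53, 0, 0, 0, 0), (53, 0, 0, 0, 0), (75, 0, 0, 0, 0), (75, 0, 0, 0, 0), (87, 0, 0, 0, 0), (87, 0, 0, 0, 0), (60, 0, 0, 0, 0), (60, 0, 0, 0, 0), (82, 0, 0, 0, 0), (82, 0, 0, 0, 0), (87, 0, 0, 0, 0), (87, 0, 0, 0, 0), (1, 0, 0, 0, 0), (1, 0, 0, 0, 0), (55, 0, 0, 0, 0), (55, 0, 0, 0, 0), (14, 0, 0,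 0, 0), (14, 0, 0, 0, 0), (1, 0, 0, 0, 0), (1, 0, 0, 0, 0), (22, 0, 0, 0, 0), (22, 0, 0, 0, 0), (73, 0, 0, 0, 0), (73, 0, 0, 0, 0), (55, 0, 0, 0, 0), (55, 0, 0, 0, 0), (22, 0, 0, 0, 0), (22, 0, 0, 0, 0), (43, 0, 0, 0, 0), (43, 0, 0, 0, 0), (14, 0, 0, 0, 0), (14, 0, 0, 0, 0), (73, 0, 0, 0, 0), (73, 0, 0, 0, 0), (43, 0, 0, 0, 0), (43, 0, 0, 0, 0), (49, 0, 0, 0, 0), (49, 0, 0, 0, 0), (6, 0, 0, 0, 0), (6, 0, 0, 0, 0), (15, 0, 0, 0, 0), (15, 0, 0, 0, 0), (49, 0, 0, 0, 0), (49, 0, 0, 0, 0), (18, 0, 0, 0, 0), (18, 0, 0, 0, 0), (27, 0, 0, 0, 0), (27, 0, 0, 0, 0), (6, 0, 0, 0, 0), (6, 0, 0, 0, 0), (18, 0, 0, 0, 0), (18, 0, 0, 0, 0), (83, 0, 0, 0, 0), (83, 0, 0, 0, 0), (15, 0, 0, 0, 0), (15, 0, 0, 0, 0), (27, 0, 0, 0, 0), (27, 0, 0, 0,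 0), (83, 0, 0, 0, 0), (83, 0, 0, 0, 0), (3, 0, 0, 0, 0), (3, 0, 0, 0, 0), (7, 0, 0, 0, 0), (7, 0, 0, 0, 0), (57, 0, 0, 0, 0), (57, 0, 0, 0, 0), (3, 0, 0, 0, 0), (3, 0, 0, 0, 0), (63, 0, 0, 0, 0), (63, 0, 0, 0, 0), (23, 0, 0, 0, 0), (23, 0, 0, 0, 0), (7, 0, 0, 0, 0), (7, 0, 0, 0, 0), (63, 0, 0, 0, 0), (63, 0, 0, 0, 0), (31, 0, 0, 0, 0), (31, 0, 0, 0, 0), (57, 0, 0, 0, 0), (57, 0, 0, 0, 0), (23, 0, 0, 0, 0), (23, 0, 0, 0, 0), (31, 0, 0, 0, 0), (31, 0, 0, 0, 0), (17, 0, 0, 0, 0), (17, 0, 0, 0, 0), (21, 0, 0, 0, 0), (21, 0, 0, 0, 0), (68, 0, 0, 0, 0), (68, 0, 0, 0, 0), (17, 0, 0, 0, 0), (17, 0, 0, 0, 0), (74, 0, 0, 0, 0), (74, 0, 0, 0, 0), (33, 0, 0, 0, 0), (33, 0, 0, 0, 0), (21, 0, 0, 0, 0), (21, 0, 0, 0, 0), (74, 0, 0, 0, 0),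 (74, 0, 0, 0, 0), (37, 0, 0, 0, 0), (37, 0, 0, 0, 0), (68, 0, 0, 0, 0), (68, 0, 0, 0, 0), (33, 0, 0, 0, 0), (33, 0, 0, 0, 0), (37, 0, 0, 0, 0), (37, 0, 0, 0, 0), (5, 0, 0, 0, 0), (5, 0, 0, 0, 0), (54, 0, 0, 0, 0), (54, 0, 0, 0, 0), (9, 0, 0, 0, 0), (9, 0, 0, 0, 0), (5, 0, 0, 0, 0), (5, 0, 0, 0, 0), (30, 0, 0, 0, 0), (30, 0, 0, 0, 0), (77, 0, 0, 0, 0), (77, 0, 0, 0, 0), (54, 0, 0, 0, 0), (54, 0, 0, 0, 0), (30, 0, 0, 0, 0), (30, 0, 0, 0, 0), (39, 0, 0, 0, 0), (39, 0, 0, 0, 0), (9, 0, 0, 0, 0), (9, 0, 0, 0, 0), (77, 0, 0, 0, 0), (77, 0, 0, 0, 0), (39, 0, 0, 0, 0), (39, 0, 0, 0, 0), (48, 0, 0, 0, 0), (48, 0, 0, 0, 0), (56, 0, 0, 0, 0), (56, 0, 0, 0, 0), (59, 0, 0, 0, 0), (59, 0, 0, 0, 0), (48, 0, 0, 0, 0), (48, 0, 0, 0, 0), (65,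 0, 0, 0, 0), (65, 0, 0, 0, 0), (70, 0, 0, 0, 0), (70, 0, 0, 0, 0), (56, 0, 0, 0, 0), (56, 0, 0, 0, 0), (65, 0, 0, 0, 0), (65, 0, 0, 0, 0), (85, 0, 0, 0, 0), (85, 0, 0, 0, 0), (59, 0, 0, 0, 0), (59, 0, 0, 0, 0), (70, 0, 0, 0, 0), (70, 0, 0, 0, 0), (85, 0, 0, 0, 0), (85, 0, 0, 0, 0), (2, 0, 0, 0, 0), (2, 0, 0, 0, 0), (51, 0, 0, 0, 0), (51, 0, 0, 0, 0), (11, 0, 0, 0, 0), (11, 0, 0, 0, 0), (2, 0, 0, 0, 0), (2, 0, 0, 0, 0), (19, 0, 0, 0, 0), (19, 0, 0, 0, 0), (71, 0, 0, 0, 0), (71, 0, 0, 0, 0), (51, 0, 0, 0, 0), (51, 0, 0, 0, 0), (19, 0, 0, 0, 0), (19, 0, 0, 0, 0), (35, 0, 0, 0, 0), (35, 0, 0, 0, 0), (11, 0, 0, 0, 0), (11, 0, 0, 0, 0), (71, 0, 0, 0, 0), (71, 0, 0, 0, 0), (35, 0, 0, 0, 0), (35, 0, 0, 0, 0), (3, 0, 0, 0, 0), (3, 0,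 0, 0, 0), (7, 0, 0, 0, 0), (7, 0, 0, 0, 0), (57, 0, 0, 0, 0), (57, 0, 0, 0, 0), (3, 0, 0, 0, 0), (3, 0, 0, 0, 0), (63, 0, 0, 0, 0), (63, 0, 0, 0, 0), (23, 0, 0, 0, 0), (23, 0, 0, 0, 0), (7, 0, 0, 0, 0), (7, 0, 0, 0, 0), (63, 0, 0, 0, 0), (63, 0, 0, 0, 0), (31, 0, 0, 0, 0), (31, 0, 0, 0, 0), (57, 0, 0, 0, 0), (57, 0, 0, 0, 0), (23, 0, 0, 0, 0), (23, 0, 0, 0, 0), (31, 0, 0, 0, 0), (31, 0, 0, 0, 0)],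
  [(44, 0, 0, 0, 0), (44, 0, 0, 0, 0), (40, 0, 0, 0, 0), (40, 0, 0, 0, 0), (84, 0, 0, 0, 0), (84, 0, 0, 0, 0), (44, 0, 0, 0, 0), (44, 0, 0, 0, 0), (78, 0, 0, 0, 0), (78, 0, 0, 0, 0), (32, 0, 0, 0, 0), (32, 0, 0, 0, 0), (40, 0, 0, 0, 0), (40, 0, 0, 0, 0), (78, 0, 0, 0, 0), (78, 0, 0, 0, 0), (28, 0, 0, 0, 0), (28, 0, 0, 0, 0), (84, 0, 0, 0, 0), (84, 0, 0, 0, 0), (32, 0, 0, 0, 0), (32, 0, 0, 0, 0), (28, 0, 0, 0, 0), (28, 0, 0, 0, 0), (45, 0, 0, 0, 0), (45, 0, 0, 0, 0), (86, 0, 0, 0, 0), (86, 0, 0, 0, 0), (36, 0, 0, 0, 0), (36, 0, 0, 0, 0), (45, 0, 0, 0, 0), (45, 0, 0, 0, 0), (24, 0, 0, 0, 0), (24, 0, 0, 0, 0), (66, 0, 0, 0, 0), (66, 0, 0, 0, 0), (86, 0, 0, 0, 0), (86, 0, 0, 0, 0), (24, 0, 0, 0, 0), (24, 0, 0, 0, 0), (20, 0, 0,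 0, 0), (20, 0, 0, 0, 0), (36, 0, 0, 0, 0), (36, 0, 0, 0, 0), (66, 0, 0, 0, 0), (66, 0, 0, 0, 0), (20, 0, 0, 0, 0), (20, 0, 0, 0, 0), (88, 0, 0, 0, 0), (88, 0, 0, 0, 0), (79, 0, 0, 0, 0), (79, 0, 0, 0, 0), (76, 0, 0, 0, 0), (76, 0, 0, 0, 0), (88, 0, 0, 0, 0), (88, 0, 0, 0, 0), (72, 0, 0, 0, 0), (72, 0, 0, 0, 0), (67, 0, 0, 0, 0), (67, 0, 0, 0, 0), (79, 0, 0, 0, 0), (79, 0, 0, 0, 0), (72, 0, 0, 0, 0), (72, 0, 0, 0, 0), (62, 0, 0, 0, 0), (62, 0, 0, 0, 0), (76, 0, 0, 0, 0), (76, 0, 0, 0, 0), (67, 0, 0, 0, 0), (67, 0, 0, 0, 0), (62, 0, 0, 0, 0), (62, 0, 0, 0, 0), (41, 0, 0, 0, 0), (41, 0, 0, 0, 0), (80, 0, 0, 0, 0), (80, 0, 0, 0, 0), (29, 0, 0, 0, 0), (29, 0, 0, 0, 0), (41, 0, 0, 0, 0), (41, 0, 0, 0, 0), (25, 0, 0, 0, 0), (25, 0,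 0, 0, 0), (64, 0, 0, 0, 0), (64, 0, 0, 0, 0), (80, 0, 0, 0, 0), (80, 0, 0, 0, 0), (25, 0, 0, 0, 0), (25, 0, 0, 0, 0), (16, 0, 0, 0, 0), (16, 0, 0, 0, 0), (29, 0, 0, 0, 0), (29, 0, 0, 0, 0), (64, 0, 0, 0, 0), (64, 0, 0, 0, 0), (16, 0, 0, 0, 0), (16, 0, 0, 0, 0), (37, 0, 0, 0, 0), (37, 0, 0, 0, 0), (33, 0, 0, 0, 0), (33, 0, 0, 0, 0), (74, 0, 0, 0, 0), (74, 0, 0, 0, 0), (37, 0, 0, 0, 0), (37, 0, 0, 0, 0), (68, 0, 0, 0, 0), (68, 0, 0, 0, 0), (21, 0, 0, 0, 0), (21, 0, 0, 0, 0), (33, 0, 0, 0, 0), (33, 0, 0, 0, 0), (68, 0, 0, 0, 0), (68, 0, 0, 0, 0), (17, 0, 0, 0, 0), (17, 0, 0, 0, 0), (74, 0, 0, 0, 0), (74, 0, 0, 0, 0), (21, 0, 0, 0, 0), (21, 0, 0, 0, 0), (17, 0, 0, 0, 0), (17, 0, 0, 0, 0), (44, 0, 0, 0, 0), (44, 0, 0, 0, 0), (40,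 0, 0, 0, 0), (40, 0, 0, 0, 0), (84, 0, 0, 0, 0), (84, 0, 0, 0, 0), (44, 0, 0, 0, 0), (44, 0, 0, 0, 0), (78, 0, 0, 0, 0), (78, 0, 0, 0, 0), (32, 0, 0, 0, 0), (32, 0, 0, 0, 0), (40, 0, 0, 0, 0), (40, 0, 0, 0, 0), (78, 0, 0, 0, 0), (78, 0, 0, 0, 0), (28, 0, 0, 0, 0), (28, 0, 0, 0, 0), (84, 0, 0, 0, 0), (84, 0, 0, 0, 0), (32, 0, 0, 0, 0), (32, 0, 0, 0, 0), (28, 0, 0, 0, 0), (28, 0, 0, 0, 0), (89, 0, 0, 0, 0), (89, 0, 0, 0, 0), (42, 0, 0, 0, 0), (42, 0, 0, 0, 0), (38, 0, 0, 0, 0), (38, 0, 0, 0, 0), (89, 0, 0, 0, 0), (89, 0, 0, 0, 0), (12, 0, 0, 0, 0), (12, 0, 0, 0, 0), (8, 0, 0, 0, 0), (8, 0, 0, 0, 0), (42, 0, 0, 0, 0), (42, 0, 0, 0, 0), (12, 0, 0, 0, 0), (12, 0, 0, 0, 0), (52, 0, 0, 0, 0), (52, 0, 0, 0, 0), (38, 0, 0, 0, 0), (38,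 0, 0, 0, 0), (8, 0, 0, 0, 0), (8, 0, 0, 0, 0), (52, 0, 0, 0, 0), (52, 0, 0, 0, 0), (46, 0, 0, 0, 0), (46, 0, 0, 0, 0), (81, 0, 0, 0, 0), (81, 0, 0, 0, 0), (34, 0, 0, 0, 0), (34, 0, 0, 0, 0), (46, 0, 0, 0, 0), (46, 0, 0, 0, 0), (13, 0, 0, 0, 0), (13, 0, 0, 0, 0), (58, 0, 0, 0, 0), (58, 0, 0, 0, 0), (81, 0, 0, 0, 0), (81, 0, 0, 0, 0), (13, 0, 0, 0, 0), (13, 0, 0, 0, 0), (4, 0, 0, 0, 0), (4, 0, 0, 0, 0), (34, 0, 0, 0, 0), (34, 0, 0, 0, 0), (58, 0, 0, 0, 0), (58, 0, 0, 0, 0), (4, 0, 0, 0, 0), (4, 0, 0, 0, 0), (87, 0, 0, 0, 0), (87, 0, 0, 0, 0), (82, 0, 0, 0, 0), (82, 0, 0, 0, 0), (75, 0, 0, 0, 0), (75, 0, 0, 0, 0), (87, 0, 0, 0, 0), (87, 0, 0, 0, 0), (60, 0, 0, 0, 0), (60, 0, 0, 0, 0), (53, 0, 0, 0, 0), (53, 0, 0, 0, 0), (82, 0,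 0, 0, 0), (82, 0, 0, 0, 0), (60, 0, 0, 0, 0), (60, 0, 0, 0, 0), (50, 0, 0, 0, 0), (50, 0, 0, 0, 0), (75, 0, 0, 0, 0), (75, 0, 0, 0, 0), (53, 0, 0, 0, 0), (53, 0, 0, 0, 0), (50, 0, 0, 0, 0), (50, 0, 0, 0, 0), (39, 0, 0, 0, 0), (39, 0, 0, 0, 0), (77, 0, 0, 0, 0), (77, 0, 0, 0, 0), (30, 0, 0, 0, 0), (30, 0, 0, 0, 0), (39, 0, 0, 0, 0), (39, 0, 0, 0, 0), (9, 0, 0, 0, 0), (9, 0, 0, 0, 0), (54, 0, 0, 0, 0), (54, 0, 0, 0, 0), (77, 0, 0, 0, 0), (77, 0, 0, 0, 0), (9, 0, 0, 0, 0), (9, 0, 0, 0, 0), (5, 0, 0, 0, 0), (5, 0, 0, 0, 0), (30, 0, 0, 0, 0), (30, 0, 0, 0, 0), (54, 0, 0, 0, 0), (54, 0, 0, 0, 0), (5, 0, 0, 0, 0), (5, 0, 0, 0, 0), (45, 0, 0, 0, 0), (45, 0, 0, 0, 0), (86, 0, 0, 0, 0), (86, 0, 0, 0, 0), (36, 0, 0, 0, 0), (36, 0, 0,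 0, 0), (45, 0, 0, 0, 0), (45, 0, 0, 0, 0), (24, 0, 0, 0, 0), (24, 0, 0, 0, 0), (66, 0, 0, 0, 0), (66, 0, 0, 0, 0), (86, 0, 0, 0, 0), (86, 0, 0, 0, 0), (24, 0, 0, 0, 0), (24, 0, 0, 0, 0), (20, 0, 0, 0, 0), (20, 0, 0, 0, 0), (36, 0, 0, 0, 0), (36, 0, 0, 0, 0), (66, 0, 0, 0, 0), (66, 0, 0, 0, 0), (20, 0, 0, 0, 0), (20, 0, 0, 0, 0), (89, 0, 0, 0, 0), (89, 0, 0, 0, 0), (42, 0, 0, 0, 0), (42, 0, 0, 0, 0), (38, 0, 0, 0, 0), (38, 0, 0, 0, 0), (89, 0, 0, 0, 0), (89, 0, 0, 0, 0), (12, 0, 0, 0, 0), (12, 0, 0, 0, 0), (8, 0, 0, 0, 0), (8, 0, 0, 0, 0), (42, 0, 0, 0, 0), (42, 0, 0, 0, 0), (12, 0, 0, 0, 0), (12, 0, 0, 0, 0), (52, 0, 0, 0, 0), (52, 0, 0, 0, 0), (38, 0, 0, 0, 0), (38, 0, 0, 0, 0), (8, 0, 0, 0, 0), (8, 0, 0, 0, 0), (52, 0, 0,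 0, 0), (52, 0, 0, 0, 0), (47, 0, 0, 0, 0), (47, 0, 0, 0, 0), (26, 0, 0, 0, 0), (26, 0, 0, 0, 0), (69, 0, 0, 0, 0), (69, 0, 0, 0, 0), (47, 0, 0, 0, 0), (47, 0, 0, 0, 0), (61, 0, 0, 0, 0), (61, 0, 0, 0, 0), (10, 0, 0, 0, 0), (10, 0, 0, 0, 0), (26, 0, 0, 0, 0), (26, 0, 0, 0, 0), (61, 0, 0, 0, 0), (61, 0, 0, 0, 0), (0, 0, 0, 0, 0), (0, 0, 0, 0, 0), (69, 0, 0, 0, 0), (69, 0, 0, 0, 0), (10, 0, 0, 0, 0), (10, 0, 0, 0, 0), (0, 0, 0, 0, 0), (0, 0, 0, 0, 0), (43, 0, 0, 0, 0), (43, 0, 0, 0, 0), (73, 0, 0, 0, 0), (73, 0, 0, 0, 0), (22, 0, 0, 0, 0), (22, 0, 0, 0, 0), (43, 0, 0, 0, 0), (43, 0, 0, 0, 0), (14, 0, 0, 0, 0), (14, 0, 0, 0, 0), (55, 0, 0, 0, 0), (55, 0, 0, 0, 0), (73, 0, 0, 0, 0), (73, 0, 0, 0, 0), (14, 0, 0, 0, 0), (14, 0, 0,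 0, 0), (1, 0, 0, 0, 0), (1, 0, 0, 0, 0), (22, 0, 0, 0, 0), (22, 0, 0, 0, 0), (55, 0, 0, 0, 0), (55, 0, 0, 0, 0), (1, 0, 0, 0, 0), (1, 0, 0, 0, 0), (85, 0, 0, 0, 0), (85, 0, 0, 0, 0), (70, 0, 0, 0, 0), (70, 0, 0, 0, 0), (65, 0, 0, 0, 0), (65, 0, 0, 0, 0), (85, 0, 0, 0, 0), (85, 0, 0, 0, 0), (59, 0, 0, 0, 0), (59, 0, 0, 0, 0), (56, 0, 0, 0, 0), (56, 0, 0, 0, 0), (70, 0, 0, 0, 0), (70, 0, 0, 0, 0), (59, 0, 0, 0, 0), (59, 0, 0, 0, 0), (48, 0, 0, 0, 0), (48, 0, 0, 0, 0), (65, 0, 0, 0, 0), (65, 0, 0, 0, 0), (56, 0, 0, 0, 0), (56, 0, 0, 0, 0), (48, 0, 0, 0, 0), (48, 0, 0, 0, 0), (88, 0, 0, 0, 0), (88, 0, 0, 0, 0), (79, 0, 0, 0, 0), (79, 0, 0, 0, 0), (76, 0, 0, 0, 0), (76, 0, 0, 0, 0), (88, 0, 0, 0, 0), (88, 0, 0, 0, 0), (72, 0, 0,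 0, 0), (72, 0, 0, 0, 0), (67, 0, 0, 0, 0), (67, 0, 0, 0, 0), (79, 0, 0, 0, 0), (79, 0, 0, 0, 0), (72, 0, 0, 0, 0), (72, 0, 0, 0, 0), (62, 0, 0, 0, 0), (62, 0, 0, 0, 0), (76, 0, 0, 0, 0), (76, 0, 0, 0, 0), (67, 0, 0, 0, 0), (67, 0, 0, 0, 0), (62, 0, 0, 0, 0), (62, 0, 0, 0, 0), (46, 0, 0, 0, 0), (46, 0, 0, 0, 0), (81, 0, 0, 0, 0), (81, 0, 0, 0, 0), (34, 0, 0, 0, 0), (34, 0, 0, 0, 0), (46, 0, 0, 0, 0), (46, 0, 0, 0, 0), (13, 0, 0, 0, 0), (13, 0, 0, 0, 0), (58, 0, 0, 0, 0), (58, 0, 0, 0, 0), (81, 0, 0, 0, 0), (81, 0, 0, 0, 0), (13, 0, 0, 0, 0), (13, 0, 0, 0, 0), (4, 0, 0, 0, 0), (4, 0, 0, 0, 0), (34, 0, 0, 0, 0), (34, 0, 0, 0, 0), (58, 0, 0, 0, 0), (58, 0, 0, 0, 0), (4, 0, 0, 0, 0), (4, 0, 0, 0, 0), (47, 0, 0, 0, 0), (47, 0, 0,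 0, 0), (26, 0, 0, 0, 0), (26, 0, 0, 0, 0), (69, 0, 0, 0, 0), (69, 0, 0, 0, 0), (47, 0, 0, 0, 0), (47, 0, 0, 0, 0), (61, 0, 0, 0, 0), (61, 0, 0, 0, 0), (10, 0, 0, 0, 0), (10, 0, 0, 0, 0), (26, 0, 0, 0, 0), (26, 0, 0, 0, 0), (61, 0, 0, 0, 0), (61, 0, 0, 0, 0), (0, 0, 0, 0, 0), (0, 0, 0, 0, 0), (69, 0, 0, 0, 0), (69, 0, 0, 0, 0), (10, 0, 0, 0, 0), (10, 0, 0, 0, 0), (0, 0, 0, 0, 0), (0, 0, 0, 0, 0), (83, 0, 0, 0, 0), (83, 0, 0, 0, 0), (27, 0, 0, 0, 0), (27, 0, 0, 0, 0), (18, 0, 0, 0, 0), (18, 0, 0, 0, 0), (83, 0, 0, 0, 0), (83, 0, 0, 0, 0), (15, 0, 0, 0, 0), (15, 0, 0, 0, 0), (6, 0, 0, 0, 0), (6, 0, 0, 0, 0), (27, 0, 0, 0, 0), (27, 0, 0, 0, 0), (15, 0, 0, 0, 0), (15, 0, 0, 0, 0), (49, 0, 0, 0, 0), (49, 0, 0, 0, 0), (18, 0, 0, 0,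 0), (18, 0, 0, 0, 0), (6, 0, 0, 0, 0), (6, 0, 0, 0, 0), (49, 0, 0, 0, 0), (49, 0, 0, 0, 0), (35, 0, 0, 0, 0), (35, 0, 0, 0, 0), (71, 0, 0, 0, 0), (71, 0, 0, 0, 0), (19, 0, 0, 0, 0), (19, 0, 0, 0, 0), (35, 0, 0, 0, 0), (35, 0, 0, 0, 0), (11, 0, 0, 0, 0), (11, 0, 0, 0, 0), (51, 0, 0, 0, 0), (51, 0, 0, 0, 0), (71, 0, 0, 0, 0), (71, 0, 0, 0, 0), (11, 0, 0, 0, 0), (11, 0, 0, 0, 0), (2, 0, 0, 0, 0), (2, 0, 0, 0, 0), (19, 0, 0, 0, 0), (19, 0, 0, 0, 0), (51, 0, 0, 0, 0), (51, 0, 0, 0, 0), (2, 0, 0, 0, 0), (2, 0, 0, 0, 0), (41, 0, 0, 0, 0), (41, 0, 0, 0, 0), (80, 0, 0, 0, 0), (80, 0, 0, 0, 0), (29, 0, 0, 0, 0), (29, 0, 0, 0, 0), (41, 0, 0, 0, 0), (41, 0, 0, 0, 0), (25, 0, 0, 0, 0), (25, 0, 0, 0, 0), (64, 0, 0, 0, 0), (64, 0, 0, 0, 0),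 (80, 0, 0, 0, 0), (80, 0, 0, 0, 0), (25, 0, 0, 0, 0), (25, 0, 0, 0, 0), (16, 0, 0, 0, 0), (16, 0, 0, 0, 0), (29, 0, 0, 0, 0), (29, 0, 0, 0, 0), (64, 0, 0, 0, 0), (64, 0, 0, 0, 0), (16, 0, 0, 0, 0), (16, 0, 0, 0, 0), (87, 0, 0, 0, 0), (87, 0, 0, 0, 0), (82, 0, 0, 0, 0), (82, 0, 0, 0, 0), (75, 0, 0, 0, 0), (75, 0, 0, 0, 0), (87, 0, 0, 0, 0), (87, 0, 0, 0, 0), (60, 0, 0, 0, 0), (60, 0, 0, 0, 0), (53, 0, 0, 0, 0), (53, 0, 0, 0, 0), (82, 0, 0, 0, 0), (82, 0, 0, 0, 0), (60, 0, 0, 0, 0), (60, 0, 0, 0, 0), (50, 0, 0, 0, 0), (50, 0, 0, 0, 0), (75, 0, 0, 0, 0), (75, 0, 0, 0, 0), (53, 0, 0, 0, 0), (53, 0, 0, 0, 0), (50, 0, 0, 0, 0), (50, 0, 0, 0, 0), (43, 0, 0, 0, 0), (43, 0, 0, 0, 0), (73, 0, 0, 0, 0), (73, 0, 0, 0, 0), (22, 0, 0, 0,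 0), (22, 0, 0, 0, 0), (43, 0, 0, 0, 0), (43, 0, 0, 0, 0), (14, 0, 0, 0, 0), (14, 0, 0, 0, 0), (55, 0, 0, 0, 0), (55, 0, 0, 0, 0), (73, 0, 0, 0, 0), (73, 0, 0, 0, 0), (14, 0, 0, 0, 0), (14, 0, 0, 0, 0), (1, 0, 0, 0, 0), (1, 0, 0, 0, 0), (22, 0, 0, 0, 0), (22, 0, 0, 0, 0), (55, 0, 0, 0, 0), (55, 0, 0, 0, 0), (1, 0, 0, 0, 0), (1, 0, 0, 0, 0), (83, 0, 0, 0, 0), (83, 0, 0, 0, 0), (27, 0, 0, 0, 0), (27, 0, 0, 0, 0), (18, 0, 0, 0, 0), (18, 0, 0, 0, 0), (83, 0, 0, 0, 0), (83, 0, 0, 0, 0), (15, 0, 0, 0, 0), (15, 0, 0, 0, 0), (6, 0, 0, 0, 0), (6, 0, 0, 0, 0), (27, 0, 0, 0, 0), (27, 0, 0, 0, 0), (15, 0, 0, 0, 0), (15, 0, 0, 0, 0), (49, 0, 0, 0, 0), (49, 0, 0, 0, 0), (18, 0, 0, 0, 0), (18, 0, 0, 0, 0), (6, 0, 0, 0, 0), (6, 0, 0, 0, 0),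 (49, 0, 0, 0, 0), (49, 0, 0, 0, 0), (31, 0, 0, 0, 0), (31, 0, 0, 0, 0), (23, 0, 0, 0, 0), (23, 0, 0, 0, 0), (63, 0, 0, 0, 0), (63, 0, 0, 0, 0), (31, 0, 0, 0, 0), (31, 0, 0, 0, 0), (57, 0, 0, 0, 0), (57, 0, 0, 0, 0), (7, 0, 0, 0, 0), (7, 0, 0, 0, 0), (23, 0, 0, 0, 0), (23, 0, 0, 0, 0), (57, 0, 0, 0, 0), (57, 0, 0, 0, 0), (3, 0, 0, 0, 0), (3, 0, 0, 0, 0), (63, 0, 0, 0, 0), (63, 0, 0, 0, 0), (7, 0, 0, 0, 0), (7, 0, 0, 0, 0), (3, 0, 0, 0, 0), (3, 0, 0, 0, 0), (37, 0, 0, 0, 0), (37, 0, 0, 0, 0), (33, 0, 0, 0, 0), (33, 0, 0, 0, 0), (74, 0, 0, 0, 0), (74, 0, 0, 0, 0), (37, 0, 0, 0, 0), (37, 0, 0, 0, 0), (68, 0, 0, 0, 0), (68, 0, 0, 0, 0), (21, 0, 0, 0, 0), (21, 0, 0, 0, 0), (33, 0, 0, 0, 0), (33, 0, 0, 0, 0), (68, 0, 0, 0, 0), (68,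 0, 0, 0, 0), (17, 0, 0, 0, 0), (17, 0, 0, 0, 0), (74, 0, 0, 0, 0), (74, 0, 0, 0, 0), (21, 0, 0, 0, 0), (21, 0, 0, 0, 0), (17, 0, 0, 0, 0), (17, 0, 0, 0, 0), (39, 0, 0, 0, 0), (39, 0, 0, 0, 0), (77, 0, 0, 0, 0), (77, 0, 0, 0, 0), (30, 0, 0, 0, 0), (30, 0, 0, 0, 0), (39, 0, 0, 0, 0), (39, 0, 0, 0, 0), (9, 0, 0, 0, 0), (9, 0, 0, 0, 0), (54, 0, 0, 0, 0), (54, 0, 0, 0, 0), (77, 0, 0, 0, 0), (77, 0, 0, 0, 0), (9, 0, 0, 0, 0), (9, 0, 0, 0, 0), (5, 0, 0, 0, 0), (5, 0, 0, 0, 0), (30, 0, 0, 0, 0), (30, 0, 0, 0, 0), (54, 0, 0, 0, 0), (54, 0, 0, 0, 0), (5, 0, 0, 0, 0), (5, 0, 0, 0, 0), (85, 0, 0, 0, 0), (85, 0, 0, 0, 0), (70, 0, 0, 0, 0), (70, 0, 0, 0, 0), (65, 0, 0, 0, 0), (65, 0, 0, 0, 0), (85, 0, 0, 0, 0), (85, 0, 0, 0, 0), (59, 0,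 0, 0, 0), (59, 0, 0, 0, 0), (56, 0, 0, 0, 0), (56, 0, 0, 0, 0), (70, 0, 0, 0, 0), (70, 0, 0, 0, 0), (59, 0, 0, 0, 0), (59, 0, 0, 0, 0), (48, 0, 0, 0, 0), (48, 0, 0, 0, 0), (65, 0, 0, 0, 0), (65, 0, 0, 0, 0), (56, 0, 0, 0, 0), (56, 0, 0, 0, 0), (48, 0, 0, 0, 0), (48, 0, 0, 0, 0), (35, 0, 0, 0, 0), (35, 0, 0, 0, 0), (71, 0, 0, 0, 0), (71, 0, 0, 0, 0), (19, 0, 0, 0, 0), (19, 0, 0, 0, 0), (35, 0, 0, 0, 0), (35, 0, 0, 0, 0), (11, 0, 0, 0, 0), (11, 0, 0, 0, 0), (51, 0, 0, 0, 0), (51, 0, 0, 0, 0), (71, 0, 0, 0, 0), (71, 0, 0, 0, 0), (11, 0, 0, 0, 0), (11, 0, 0, 0, 0), (2, 0, 0, 0, 0), (2, 0, 0, 0, 0), (19, 0, 0, 0, 0), (19, 0, 0, 0, 0), (51, 0, 0, 0, 0), (51, 0, 0, 0, 0), (2, 0, 0, 0, 0), (2, 0, 0, 0, 0), (31, 0, 0, 0, 0), (31, 0,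 0, 0, 0), (23, 0, 0, 0, 0), (23, 0, 0, 0, 0), (63, 0, 0, 0, 0), (63, 0, 0, 0, 0), (31, 0, 0, 0, 0), (31, 0, 0, 0, 0), (57, 0, 0, 0, 0), (57, 0, 0, 0, 0), (7, 0, 0, 0, 0), (7, 0, 0, 0, 0), (23, 0, 0, 0, 0), (23, 0, 0, 0, 0), (57, 0, 0, 0, 0), (57, 0, 0, 0, 0), (3, 0, 0, 0, 0), (3, 0, 0, 0, 0), (63, 0, 0, 0, 0), (63, 0, 0, 0, 0), (7, 0, 0, 0, 0), (7, 0, 0, 0, 0), (3, 0, 0, 0, 0), (3, 0, 0, 0, 0)],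
  [(31, 0, 0, 0, 0), (31, 0, 0, 0, 0), (35, 0, 0, 0, 0), (35, 0, 0, 0, 0), (83, 0, 0, 0, 0), (83, 0, 0, 0, 0), (31, 0, 0, 0, 0), (31, 0, 0, 0, 0), (85, 0, 0, 0, 0), (85, 0, 0, 0, 0), (43, 0, 0, 0, 0), (43, 0, 0, 0, 0), (35, 0, 0, 0, 0), (35, 0, 0, 0, 0), (85, 0, 0, 0, 0), (85, 0, 0, 0, 0), (47, 0, 0, 0, 0), (47, 0, 0, 0, 0), (83, 0, 0, 0, 0), (83, 0, 0, 0, 0), (43, 0, 0, 0, 0), (43, 0, 0, 0, 0), (47, 0, 0, 0, 0), (47, 0, 0, 0, 0), (23, 0, 0, 0, 0), (23, 0, 0, 0, 0), (71, 0, 0, 0, 0), (71, 0, 0, 0, 0), (27, 0, 0, 0, 0), (27, 0, 0, 0, 0), (23, 0, 0, 0, 0), (23, 0, 0, 0, 0), (39, 0, 0, 0, 0), (39, 0, 0, 0, 0), (87, 0, 0, 0, 0), (87, 0, 0, 0, 0), (71, 0, 0, 0, 0), (71, 0, 0, 0, 0), (39, 0, 0, 0, 0), (39, 0, 0, 0, 0), (46, 0, 0,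 0, 0), (46, 0, 0, 0, 0), (27, 0, 0, 0, 0), (27, 0, 0, 0, 0), (87, 0, 0, 0, 0), (87, 0, 0, 0, 0), (46, 0, 0, 0, 0), (46, 0, 0, 0, 0), (63, 0, 0, 0, 0), (63, 0, 0, 0, 0), (70, 0, 0, 0, 0), (70, 0, 0, 0, 0), (73, 0, 0, 0, 0), (73, 0, 0, 0, 0), (63, 0, 0, 0, 0), (63, 0, 0, 0, 0), (77, 0, 0, 0, 0), (77, 0, 0, 0, 0), (82, 0, 0, 0, 0), (82, 0, 0, 0, 0), (70, 0, 0, 0, 0), (70, 0, 0, 0, 0), (77, 0, 0, 0, 0), (77, 0, 0, 0, 0), (89, 0, 0, 0, 0), (89, 0, 0, 0, 0), (73, 0, 0, 0, 0), (73, 0, 0, 0, 0), (82, 0, 0, 0, 0), (82, 0, 0, 0, 0), (89, 0, 0, 0, 0), (89, 0, 0, 0, 0), (19, 0, 0, 0, 0), (19, 0, 0, 0, 0), (65, 0, 0, 0, 0), (65, 0, 0, 0, 0), (26, 0, 0, 0, 0), (26, 0, 0, 0, 0), (19, 0, 0, 0, 0), (19, 0, 0, 0, 0), (30, 0, 0, 0, 0), (30, 0,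 0, 0, 0), (81, 0, 0, 0, 0), (81, 0, 0, 0, 0), (65, 0, 0, 0, 0), (65, 0, 0, 0, 0), (30, 0, 0, 0, 0), (30, 0, 0, 0, 0), (42, 0, 0, 0, 0), (42, 0, 0, 0, 0), (26, 0, 0, 0, 0), (26, 0, 0, 0, 0), (81, 0, 0, 0, 0), (81, 0, 0, 0, 0), (42, 0, 0, 0, 0), (42, 0, 0, 0, 0), (18, 0, 0, 0, 0), (18, 0, 0, 0, 0), (22, 0, 0, 0, 0), (22, 0, 0, 0, 0), (69, 0, 0, 0, 0), (69, 0, 0, 0, 0), (18, 0, 0, 0, 0), (18, 0, 0, 0, 0), (75, 0, 0, 0, 0), (75, 0, 0, 0, 0), (34, 0, 0, 0, 0), (34, 0, 0, 0, 0), (22, 0, 0, 0, 0), (22, 0, 0, 0, 0), (75, 0, 0, 0, 0), (75, 0, 0, 0, 0), (38, 0, 0, 0, 0), (38, 0, 0, 0, 0), (69, 0, 0, 0, 0), (69, 0, 0, 0, 0), (34, 0, 0, 0, 0), (34, 0, 0, 0, 0), (38, 0, 0, 0, 0), (38, 0, 0, 0, 0), (31, 0, 0, 0, 0), (31, 0, 0, 0, 0), (35,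 0, 0, 0, 0), (35, 0, 0, 0, 0), (83, 0, 0, 0, 0), (83, 0, 0, 0, 0), (31, 0, 0, 0, 0), (31, 0, 0, 0, 0), (85, 0, 0, 0, 0), (85, 0, 0, 0, 0), (43, 0, 0, 0, 0), (43, 0, 0, 0, 0), (35, 0, 0, 0, 0), (35, 0, 0, 0, 0), (85, 0, 0, 0, 0), (85, 0, 0, 0, 0), (47, 0, 0, 0, 0), (47, 0, 0, 0, 0), (83, 0, 0, 0, 0), (83, 0, 0, 0, 0), (43, 0, 0, 0, 0), (43, 0, 0, 0, 0), (47, 0, 0, 0, 0), (47, 0, 0, 0, 0), (57, 0, 0, 0, 0), (57, 0, 0, 0, 0), (11, 0, 0, 0, 0), (11, 0, 0, 0, 0), (15, 0, 0, 0, 0), (15, 0, 0, 0, 0), (57, 0, 0, 0, 0), (57, 0, 0, 0, 0), (37, 0, 0, 0, 0), (37, 0, 0, 0, 0), (41, 0, 0, 0, 0), (41, 0, 0, 0, 0), (11, 0, 0, 0, 0), (11, 0, 0, 0, 0), (37, 0, 0, 0, 0), (37, 0, 0, 0, 0), (88, 0, 0, 0, 0), (88, 0, 0, 0, 0), (15, 0, 0, 0, 0),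 (15, 0, 0, 0, 0), (41, 0, 0, 0, 0), (41, 0, 0, 0, 0), (88, 0, 0, 0, 0), (88, 0, 0, 0, 0), (7, 0, 0, 0, 0), (7, 0, 0, 0, 0), (59, 0, 0, 0, 0), (59, 0, 0, 0, 0), (14, 0, 0, 0, 0), (14, 0, 0, 0, 0), (7, 0, 0, 0, 0), (7, 0, 0, 0, 0), (33, 0, 0, 0, 0), (33, 0, 0, 0, 0), (80, 0, 0, 0, 0), (80, 0, 0, 0, 0), (59, 0, 0, 0, 0), (59, 0, 0, 0, 0), (33, 0, 0, 0, 0), (33, 0, 0, 0, 0), (45, 0, 0, 0, 0), (45, 0, 0, 0, 0), (14, 0, 0, 0, 0), (14, 0, 0, 0, 0), (80, 0, 0, 0, 0), (80, 0, 0, 0, 0), (45, 0, 0, 0, 0), (45, 0, 0, 0, 0), (51, 0, 0, 0, 0), (51, 0, 0, 0, 0), (56, 0, 0, 0, 0), (56, 0, 0, 0, 0), (61, 0, 0, 0, 0), (61, 0, 0, 0, 0), (51, 0, 0, 0, 0), (51, 0, 0, 0, 0), (74, 0, 0, 0, 0), (74, 0, 0, 0, 0), (79, 0, 0, 0, 0), (79, 0, 0, 0, 0),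 (56, 0, 0, 0, 0), (56, 0, 0, 0, 0), (74, 0, 0, 0, 0), (74, 0, 0, 0, 0), (86, 0, 0, 0, 0), (86, 0, 0, 0, 0), (61, 0, 0, 0, 0), (61, 0, 0, 0, 0), (79, 0, 0, 0, 0), (79, 0, 0, 0, 0), (86, 0, 0, 0, 0), (86, 0, 0, 0, 0), (6, 0, 0, 0, 0), (6, 0, 0, 0, 0), (55, 0, 0, 0, 0), (55, 0, 0, 0, 0), (10, 0, 0, 0, 0), (10, 0, 0, 0, 0), (6, 0, 0, 0, 0), (6, 0, 0, 0, 0), (29, 0, 0, 0, 0), (29, 0, 0, 0, 0), (76, 0, 0, 0, 0), (76, 0, 0, 0, 0), (55, 0, 0, 0, 0), (55, 0, 0, 0, 0), (29, 0, 0, 0, 0), (29, 0, 0, 0, 0), (36, 0, 0, 0, 0), (36, 0, 0, 0, 0), (10, 0, 0, 0, 0), (10, 0, 0, 0, 0), (76, 0, 0, 0, 0), (76, 0, 0, 0, 0), (36, 0, 0, 0, 0), (36, 0, 0, 0, 0), (23, 0, 0, 0, 0), (23, 0, 0, 0, 0), (71, 0, 0, 0, 0), (71, 0, 0, 0, 0), (27, 0, 0, 0, 0),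 (27, 0, 0, 0, 0), (23, 0, 0, 0, 0), (23, 0, 0, 0, 0), (39, 0, 0, 0, 0), (39, 0, 0, 0, 0), (87, 0, 0, 0, 0), (87, 0, 0, 0, 0), (71, 0, 0, 0, 0), (71, 0, 0, 0, 0), (39, 0, 0, 0, 0), (39, 0, 0, 0, 0), (46, 0, 0, 0, 0), (46, 0, 0, 0, 0), (27, 0, 0, 0, 0), (27, 0, 0, 0, 0), (87, 0, 0, 0, 0), (87, 0, 0, 0, 0), (46, 0, 0, 0, 0), (46, 0, 0, 0, 0), (57, 0, 0, 0, 0), (57, 0, 0, 0, 0), (11, 0, 0, 0, 0), (11, 0, 0, 0, 0), (15, 0, 0, 0, 0), (15, 0, 0, 0, 0), (57, 0, 0, 0, 0), (57, 0, 0, 0, 0), (37, 0, 0, 0, 0), (37, 0, 0, 0, 0), (41, 0, 0, 0, 0), (41, 0, 0, 0, 0), (11, 0, 0, 0, 0), (11, 0, 0, 0, 0), (37, 0, 0, 0, 0), (37, 0, 0, 0, 0), (88, 0, 0, 0, 0), (88, 0, 0, 0, 0), (15, 0, 0, 0, 0), (15, 0, 0, 0, 0), (41, 0, 0, 0, 0), (41, 0, 0, 0,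 0), (88, 0, 0, 0, 0), (88, 0, 0, 0, 0), (3, 0, 0, 0, 0), (3, 0, 0, 0, 0), (9, 0, 0, 0, 0), (9, 0, 0, 0, 0), (60, 0, 0, 0, 0), (60, 0, 0, 0, 0), (3, 0, 0, 0, 0), (3, 0, 0, 0, 0), (68, 0, 0, 0, 0), (68, 0, 0, 0, 0), (25, 0, 0, 0, 0), (25, 0, 0, 0, 0), (9, 0, 0, 0, 0), (9, 0, 0, 0, 0), (68, 0, 0, 0, 0), (68, 0, 0, 0, 0), (44, 0, 0, 0, 0), (44, 0, 0, 0, 0), (60, 0, 0, 0, 0), (60, 0, 0, 0, 0), (25, 0, 0, 0, 0), (25, 0, 0, 0, 0), (44, 0, 0, 0, 0), (44, 0, 0, 0, 0), (2, 0, 0, 0, 0), (2, 0, 0, 0, 0), (54, 0, 0, 0, 0), (54, 0, 0, 0, 0), (13, 0, 0, 0, 0), (13, 0, 0, 0, 0), (2, 0, 0, 0, 0), (2, 0, 0, 0, 0), (21, 0, 0, 0, 0), (21, 0, 0, 0, 0), (72, 0, 0, 0, 0), (72, 0, 0, 0, 0), (54, 0, 0, 0, 0), (54, 0, 0, 0, 0), (21, 0, 0, 0, 0), (21,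 0, 0, 0, 0), (40, 0, 0, 0, 0), (40, 0, 0, 0, 0), (13, 0, 0, 0, 0), (13, 0, 0, 0, 0), (72, 0, 0, 0, 0), (72, 0, 0, 0, 0), (40, 0, 0, 0, 0), (40, 0, 0, 0, 0), (49, 0, 0, 0, 0), (49, 0, 0, 0, 0), (53, 0, 0, 0, 0), (53, 0, 0, 0, 0), (58, 0, 0, 0, 0), (58, 0, 0, 0, 0), (49, 0, 0, 0, 0), (49, 0, 0, 0, 0), (64, 0, 0, 0, 0), (64, 0, 0, 0, 0), (67, 0, 0, 0, 0), (67, 0, 0, 0, 0), (53, 0, 0, 0, 0), (53, 0, 0, 0, 0), (64, 0, 0, 0, 0), (64, 0, 0, 0, 0), (84, 0, 0, 0, 0), (84, 0, 0, 0, 0), (58, 0, 0, 0, 0), (58, 0, 0, 0, 0), (67, 0, 0, 0, 0), (67, 0, 0, 0, 0), (84, 0, 0, 0, 0), (84, 0, 0, 0, 0), (63, 0, 0, 0, 0), (63, 0, 0, 0, 0), (70, 0, 0, 0, 0), (70, 0, 0, 0, 0), (73, 0, 0, 0, 0), (73, 0, 0, 0, 0), (63, 0, 0, 0, 0), (63, 0, 0, 0, 0),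 (77, 0, 0, 0, 0), (77, 0, 0, 0, 0), (82, 0, 0, 0, 0), (82, 0, 0, 0, 0), (70, 0, 0, 0, 0), (70, 0, 0, 0, 0), (77, 0, 0, 0, 0), (77, 0, 0, 0, 0), (89, 0, 0, 0, 0), (89, 0, 0, 0, 0), (73, 0, 0, 0, 0), (73, 0, 0, 0, 0), (82, 0, 0, 0, 0), (82, 0, 0, 0, 0), (89, 0, 0, 0, 0), (89, 0, 0, 0, 0), (7, 0, 0, 0, 0), (7, 0, 0, 0, 0), (59, 0, 0, 0, 0), (59, 0, 0, 0, 0), (14, 0, 0, 0, 0), (14, 0, 0, 0, 0), (7, 0, 0, 0, 0), (7, 0, 0, 0, 0), (33, 0, 0, 0, 0), (33, 0, 0, 0, 0), (80, 0, 0, 0, 0), (80, 0, 0, 0, 0), (59, 0, 0, 0, 0), (59, 0, 0, 0, 0), (33, 0, 0, 0, 0), (33, 0, 0, 0, 0), (45, 0, 0, 0, 0), (45, 0, 0, 0, 0), (14, 0, 0, 0, 0), (14, 0, 0, 0, 0), (80, 0, 0, 0, 0), (80, 0, 0, 0, 0), (45, 0, 0, 0, 0), (45, 0, 0, 0, 0), (3, 0, 0, 0, 0),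 (3, 0, 0, 0, 0), (9, 0, 0, 0, 0), (9, 0, 0, 0, 0), (60, 0, 0, 0, 0), (60, 0, 0, 0, 0), (3, 0, 0, 0, 0), (3, 0, 0, 0, 0), (68, 0, 0, 0, 0), (68, 0, 0, 0, 0), (25, 0, 0, 0, 0), (25, 0, 0, 0, 0), (9, 0, 0, 0, 0), (9, 0, 0, 0, 0), (68, 0, 0, 0, 0), (68, 0, 0, 0, 0), (44, 0, 0, 0, 0), (44, 0, 0, 0, 0), (60, 0, 0, 0, 0), (60, 0, 0, 0, 0), (25, 0, 0, 0, 0), (25, 0, 0, 0, 0), (44, 0, 0, 0, 0), (44, 0, 0, 0, 0), (48, 0, 0, 0, 0), (48, 0, 0, 0, 0), (5, 0, 0, 0, 0), (5, 0, 0, 0, 0), (12, 0, 0, 0, 0), (12, 0, 0, 0, 0), (48, 0, 0, 0, 0), (48, 0, 0, 0, 0), (17, 0, 0, 0, 0), (17, 0, 0, 0, 0), (24, 0, 0, 0, 0), (24, 0, 0, 0, 0), (5, 0, 0, 0, 0), (5, 0, 0, 0, 0), (17, 0, 0, 0, 0), (17, 0, 0, 0, 0), (78, 0, 0, 0, 0), (78, 0, 0, 0, 0), (12, 0,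 0, 0, 0), (12, 0, 0, 0, 0), (24, 0, 0, 0, 0), (24, 0, 0, 0, 0), (78, 0, 0, 0, 0), (78, 0, 0, 0, 0), (1, 0, 0, 0, 0), (1, 0, 0, 0, 0), (50, 0, 0, 0, 0), (50, 0, 0, 0, 0), (8, 0, 0, 0, 0), (8, 0, 0, 0, 0), (1, 0, 0, 0, 0), (1, 0, 0, 0, 0), (16, 0, 0, 0, 0), (16, 0, 0, 0, 0), (66, 0, 0, 0, 0), (66, 0, 0, 0, 0), (50, 0, 0, 0, 0), (50, 0, 0, 0, 0), (16, 0, 0, 0, 0), (16, 0, 0, 0, 0), (32, 0, 0, 0, 0), (32, 0, 0, 0, 0), (8, 0, 0, 0, 0), (8, 0, 0, 0, 0), (66, 0, 0, 0, 0), (66, 0, 0, 0, 0), (32, 0, 0, 0, 0), (32, 0, 0, 0, 0), (19, 0, 0, 0, 0), (19, 0, 0, 0, 0), (65, 0, 0, 0, 0), (65, 0, 0, 0, 0), (26, 0, 0, 0, 0), (26, 0, 0, 0, 0), (19, 0, 0, 0, 0), (19, 0, 0, 0, 0), (30, 0, 0, 0, 0), (30, 0, 0, 0, 0), (81, 0, 0, 0, 0), (81, 0, 0,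 0, 0), (65, 0, 0, 0, 0), (65, 0, 0, 0, 0), (30, 0, 0, 0, 0), (30, 0, 0, 0, 0), (42, 0, 0, 0, 0), (42, 0, 0, 0, 0), (26, 0, 0, 0, 0), (26, 0, 0, 0, 0), (81, 0, 0, 0, 0), (81, 0, 0, 0, 0), (42, 0, 0, 0, 0), (42, 0, 0, 0, 0), (51, 0, 0, 0, 0), (51, 0, 0, 0, 0), (56, 0, 0, 0, 0), (56, 0, 0, 0, 0), (61, 0, 0, 0, 0), (61, 0, 0, 0, 0), (51, 0, 0, 0, 0), (51, 0, 0, 0, 0), (74, 0, 0, 0, 0), (74, 0, 0, 0, 0), (79, 0, 0, 0, 0), (79, 0, 0, 0, 0), (56, 0, 0, 0, 0), (56, 0, 0, 0, 0), (74, 0, 0, 0, 0), (74, 0, 0, 0, 0), (86, 0, 0, 0, 0), (86, 0, 0, 0, 0), (61, 0, 0, 0, 0), (61, 0, 0, 0, 0), (79, 0, 0, 0, 0), (79, 0, 0, 0, 0), (86, 0, 0, 0, 0), (86, 0, 0, 0, 0), (2, 0, 0, 0, 0), (2, 0, 0, 0, 0), (54, 0, 0, 0, 0), (54, 0, 0, 0, 0), (13, 0,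 0, 0, 0), (13, 0, 0, 0, 0), (2, 0, 0, 0, 0), (2, 0, 0, 0, 0), (21, 0, 0, 0, 0), (21, 0, 0, 0, 0), (72, 0, 0, 0, 0), (72, 0, 0, 0, 0), (54, 0, 0, 0, 0), (54, 0, 0, 0, 0), (21, 0, 0, 0, 0), (21, 0, 0, 0, 0), (40, 0, 0, 0, 0), (40, 0, 0, 0, 0), (13, 0, 0, 0, 0), (13, 0, 0, 0, 0), (72, 0, 0, 0, 0), (72, 0, 0, 0, 0), (40, 0, 0, 0, 0), (40, 0, 0, 0, 0), (48, 0, 0, 0, 0), (48, 0, 0, 0, 0), (5, 0, 0, 0, 0), (5, 0, 0, 0, 0), (12, 0, 0, 0, 0), (12, 0, 0, 0, 0), (48, 0, 0, 0, 0), (48, 0, 0, 0, 0), (17, 0, 0, 0, 0), (17, 0, 0, 0, 0), (24, 0, 0, 0, 0), (24, 0, 0, 0, 0), (5, 0, 0, 0, 0), (5, 0, 0, 0, 0), (17, 0, 0, 0, 0), (17, 0, 0, 0, 0), (78, 0, 0, 0, 0), (78, 0, 0, 0, 0), (12, 0, 0, 0, 0), (12, 0, 0, 0, 0), (24, 0, 0, 0, 0), (24, 0, 0,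 0, 0), (78, 0, 0, 0, 0), (78, 0, 0, 0, 0), (0, 0, 0, 0, 0), (0, 0, 0, 0, 0), (4, 0, 0, 0, 0), (4, 0, 0, 0, 0), (52, 0, 0, 0, 0), (52, 0, 0, 0, 0), (0, 0, 0, 0, 0), (0, 0, 0, 0, 0), (62, 0, 0, 0, 0), (62, 0, 0, 0, 0), (20, 0, 0, 0, 0), (20, 0, 0, 0, 0), (4, 0, 0, 0, 0), (4, 0, 0, 0, 0), (62, 0, 0, 0, 0), (62, 0, 0, 0, 0), (28, 0, 0, 0, 0), (28, 0, 0, 0, 0), (52, 0, 0, 0, 0), (52, 0, 0, 0, 0), (20, 0, 0, 0, 0), (20, 0, 0, 0, 0), (28, 0, 0, 0, 0), (28, 0, 0, 0, 0), (18, 0, 0, 0, 0), (18, 0, 0, 0, 0), (22, 0, 0, 0, 0), (22, 0, 0, 0, 0), (69, 0, 0, 0, 0), (69, 0, 0, 0, 0), (18, 0, 0, 0, 0), (18, 0, 0, 0, 0), (75, 0, 0, 0, 0), (75, 0, 0, 0, 0), (34, 0, 0, 0, 0), (34, 0, 0, 0, 0), (22, 0, 0, 0, 0), (22, 0, 0, 0, 0), (75, 0, 0, 0,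 0), (75, 0, 0, 0, 0), (38, 0, 0, 0, 0), (38, 0, 0, 0, 0), (69, 0, 0, 0, 0), (69, 0, 0, 0, 0), (34, 0, 0, 0, 0), (34, 0, 0, 0, 0), (38, 0, 0, 0, 0), (38, 0, 0, 0, 0), (6, 0, 0, 0, 0), (6, 0, 0, 0, 0), (55, 0, 0, 0, 0), (55, 0, 0, 0, 0), (10, 0, 0, 0, 0), (10, 0, 0, 0, 0), (6, 0, 0, 0, 0), (6, 0, 0, 0, 0), (29, 0, 0, 0, 0), (29, 0, 0, 0, 0), (76, 0, 0, 0, 0), (76, 0, 0, 0, 0), (55, 0, 0, 0, 0), (55, 0, 0, 0, 0), (29, 0, 0, 0, 0), (29, 0, 0, 0, 0), (36, 0, 0, 0, 0), (36, 0, 0, 0, 0), (10, 0, 0, 0, 0), (10, 0, 0, 0, 0), (76, 0, 0, 0, 0), (76, 0, 0, 0, 0), (36, 0, 0, 0, 0), (36, 0, 0, 0, 0), (49, 0, 0, 0, 0), (49, 0, 0, 0, 0), (53, 0, 0, 0, 0), (53, 0, 0, 0, 0), (58, 0, 0, 0, 0), (58, 0, 0, 0, 0), (49, 0, 0, 0, 0), (49, 0, 0, 0,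 0), (64, 0, 0, 0, 0), (64, 0, 0, 0, 0), (67, 0, 0, 0, 0), (67, 0, 0, 0, 0), (53, 0, 0, 0, 0), (53, 0, 0, 0, 0), (64, 0, 0, 0, 0), (64, 0, 0, 0, 0), (84, 0, 0, 0, 0), (84, 0, 0, 0, 0), (58, 0, 0, 0, 0), (58, 0, 0, 0, 0), (67, 0, 0, 0, 0), (67, 0, 0, 0, 0), (84, 0, 0, 0, 0), (84, 0, 0, 0, 0), (1, 0, 0, 0, 0), (1, 0, 0, 0, 0), (50, 0, 0, 0, 0), (50, 0, 0, 0, 0), (8, 0, 0, 0, 0), (8, 0, 0, 0, 0), (1, 0, 0, 0, 0), (1, 0, 0, 0, 0), (16, 0, 0, 0, 0), (16, 0, 0, 0, 0), (66, 0, 0, 0, 0), (66, 0, 0, 0, 0), (50, 0, 0, 0, 0), (50, 0, 0, 0, 0), (16, 0, 0, 0, 0), (16, 0, 0, 0, 0), (32, 0, 0, 0, 0), (32, 0, 0, 0, 0), (8, 0, 0, 0, 0), (8, 0, 0, 0, 0), (66, 0, 0, 0, 0), (66, 0, 0, 0, 0), (32, 0, 0, 0, 0), (32, 0, 0, 0, 0), (0, 0, 0, 0, 0),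 (0, 0, 0, 0, 0), (4, 0, 0, 0, 0), (4, 0, 0, 0, 0), (52, 0, 0, 0, 0), (52, 0, 0, 0, 0), (0, 0, 0, 0, 0), (0, 0, 0, 0, 0), (62, 0, 0, 0, 0), (62, 0, 0, 0, 0), (20, 0, 0, 0, 0), (20, 0, 0, 0, 0), (4, 0, 0, 0, 0), (4, 0, 0, 0, 0), (62, 0, 0, 0, 0), (62, 0, 0, 0, 0), (28, 0, 0, 0, 0), (28, 0, 0, 0, 0), (52, 0, 0, 0, 0), (52, 0, 0, 0, 0), (20, 0, 0, 0, 0), (20, 0, 0, 0, 0), (28, 0, 0, 0, 0), (28, 0, 0, 0, 0)],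
  [(47, 0, 0, 0, 0), (47, 0, 0, 0, 0), (43, 0, 0, 0, 0), (43, 0, 0, 0, 0), (85, 0, 0, 0, 0), (85, 0, 0, 0, 0), (47, 0, 0, 0, 0), (47, 0, 0, 0, 0), (83, 0, 0, 0, 0), (83, 0, 0, 0, 0), (35, 0, 0, 0, 0), (35, 0, 0, 0, 0), (43, 0, 0, 0, 0), (43, 0, 0, 0, 0), (83, 0, 0, 0, 0), (83, 0, 0, 0, 0), (31, 0, 0, 0, 0), (31, 0, 0, 0, 0), (85, 0, 0, 0, 0), (85, 0, 0, 0, 0), (35, 0, 0, 0, 0), (35, 0, 0, 0, 0), (31, 0, 0, 0, 0), (31, 0, 0, 0, 0), (46, 0, 0, 0, 0), (46, 0, 0, 0, 0), (87, 0, 0, 0, 0), (87, 0, 0, 0, 0), (39, 0, 0, 0, 0), (39, 0, 0, 0, 0), (46, 0, 0, 0, 0), (46, 0, 0, 0, 0), (27, 0, 0, 0, 0), (27, 0, 0, 0, 0), (71, 0, 0, 0, 0), (71, 0, 0, 0, 0), (87, 0, 0, 0, 0), (87, 0, 0, 0, 0), (27, 0, 0, 0, 0), (27, 0, 0, 0, 0), (23, 0, 0,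 0, 0), (23, 0, 0, 0, 0), (39, 0, 0, 0, 0), (39, 0, 0, 0, 0), (71, 0, 0, 0, 0), (71, 0, 0, 0, 0), (23, 0, 0, 0, 0), (23, 0, 0, 0, 0), (89, 0, 0, 0, 0), (89, 0, 0, 0, 0), (82, 0, 0, 0, 0), (82, 0, 0, 0, 0), (77, 0, 0, 0, 0), (77, 0, 0, 0, 0), (89, 0, 0, 0, 0), (89, 0, 0, 0, 0), (73, 0, 0, 0, 0), (73, 0, 0, 0, 0), (70, 0, 0, 0, 0), (70, 0, 0, 0, 0), (82, 0, 0, 0, 0), (82, 0, 0, 0, 0), (73, 0, 0, 0, 0), (73, 0, 0, 0, 0), (63, 0, 0, 0, 0), (63, 0, 0, 0, 0), (77, 0, 0, 0, 0), (77, 0, 0, 0, 0), (70, 0, 0, 0, 0), (70, 0, 0, 0, 0), (63, 0, 0, 0, 0), (63, 0, 0, 0, 0), (42, 0, 0, 0, 0), (42, 0, 0, 0, 0), (81, 0, 0, 0, 0), (81, 0, 0, 0, 0), (30, 0, 0, 0, 0), (30, 0, 0, 0, 0), (42, 0, 0, 0, 0), (42, 0, 0, 0, 0), (26, 0, 0, 0, 0), (26, 0,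 0, 0, 0), (65, 0, 0, 0, 0), (65, 0, 0, 0, 0), (81, 0, 0, 0, 0), (81, 0, 0, 0, 0), (26, 0, 0, 0, 0), (26, 0, 0, 0, 0), (19, 0, 0, 0, 0), (19, 0, 0, 0, 0), (30, 0, 0, 0, 0), (30, 0, 0, 0, 0), (65, 0, 0, 0, 0), (65, 0, 0, 0, 0), (19, 0, 0, 0, 0), (19, 0, 0, 0, 0), (38, 0, 0, 0, 0), (38, 0, 0, 0, 0), (34, 0, 0, 0, 0), (34, 0, 0, 0, 0), (75, 0, 0, 0, 0), (75, 0, 0, 0, 0), (38, 0, 0, 0, 0), (38, 0, 0, 0, 0), (69, 0, 0, 0, 0), (69, 0, 0, 0, 0), (22, 0, 0, 0, 0), (22, 0, 0, 0, 0), (34, 0, 0, 0, 0), (34, 0, 0, 0, 0), (69, 0, 0, 0, 0), (69, 0, 0, 0, 0), (18, 0, 0, 0, 0), (18, 0, 0, 0, 0), (75, 0, 0, 0, 0), (75, 0, 0, 0, 0), (22, 0, 0, 0, 0), (22, 0, 0, 0, 0), (18, 0, 0, 0, 0), (18, 0, 0, 0, 0), (47, 0, 0, 0, 0), (47, 0, 0, 0, 0), (43,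 0, 0, 0, 0), (43, 0, 0, 0, 0), (85, 0, 0, 0, 0), (85, 0, 0, 0, 0), (47, 0, 0, 0, 0), (47, 0, 0, 0, 0), (83, 0, 0, 0, 0), (83, 0, 0, 0, 0), (35, 0, 0, 0, 0), (35, 0, 0, 0, 0), (43, 0, 0, 0, 0), (43, 0, 0, 0, 0), (83, 0, 0, 0, 0), (83, 0, 0, 0, 0), (31, 0, 0, 0, 0), (31, 0, 0, 0, 0), (85, 0, 0, 0, 0), (85, 0, 0, 0, 0), (35, 0, 0, 0, 0), (35, 0, 0, 0, 0), (31, 0, 0, 0, 0), (31, 0, 0, 0, 0), (88, 0, 0, 0, 0), (88, 0, 0, 0, 0), (41, 0, 0, 0, 0), (41, 0, 0, 0, 0), (37, 0, 0, 0, 0), (37, 0, 0, 0, 0), (88, 0, 0, 0, 0), (88, 0, 0, 0, 0), (15, 0, 0, 0, 0), (15, 0, 0, 0, 0), (11, 0, 0, 0, 0), (11, 0, 0, 0, 0), (41, 0, 0, 0, 0), (41, 0, 0, 0, 0), (15, 0, 0, 0, 0), (15, 0, 0, 0, 0), (57, 0, 0, 0, 0), (57, 0, 0, 0, 0), (37, 0, 0, 0, 0),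 (37, 0, 0, 0, 0), (11, 0, 0, 0, 0), (11, 0, 0, 0, 0), (57, 0, 0, 0, 0), (57, 0, 0, 0, 0), (45, 0, 0, 0, 0), (45, 0, 0, 0, 0), (80, 0, 0, 0, 0), (80, 0, 0, 0, 0), (33, 0, 0, 0, 0), (33, 0, 0, 0, 0), (45, 0, 0, 0, 0), (45, 0, 0, 0, 0), (14, 0, 0, 0, 0), (14, 0, 0, 0, 0), (59, 0, 0, 0, 0), (59, 0, 0, 0, 0), (80, 0, 0, 0, 0), (80, 0, 0, 0, 0), (14, 0, 0, 0, 0), (14, 0, 0, 0, 0), (7, 0, 0, 0, 0), (7, 0, 0, 0, 0), (33, 0, 0, 0, 0), (33, 0, 0, 0, 0), (59, 0, 0, 0, 0), (59, 0, 0, 0, 0), (7, 0, 0, 0, 0), (7, 0, 0, 0, 0), (86, 0, 0, 0, 0), (86, 0, 0, 0, 0), (79, 0, 0, 0, 0), (79, 0, 0, 0, 0), (74, 0, 0, 0, 0), (74, 0, 0, 0, 0), (86, 0, 0, 0, 0), (86, 0, 0, 0, 0), (61, 0, 0, 0, 0), (61, 0, 0, 0, 0), (56, 0, 0, 0, 0), (56, 0, 0, 0, 0),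 (79, 0, 0, 0, 0), (79, 0, 0, 0, 0), (61, 0, 0, 0, 0), (61, 0, 0, 0, 0), (51, 0, 0, 0, 0), (51, 0, 0, 0, 0), (74, 0, 0, 0, 0), (74, 0, 0, 0, 0), (56, 0, 0, 0, 0), (56, 0, 0, 0, 0), (51, 0, 0, 0, 0), (51, 0, 0, 0, 0), (36, 0, 0, 0, 0), (36, 0, 0, 0, 0), (76, 0, 0, 0, 0), (76, 0, 0, 0, 0), (29, 0, 0, 0, 0), (29, 0, 0, 0, 0), (36, 0, 0, 0, 0), (36, 0, 0, 0, 0), (10, 0, 0, 0, 0), (10, 0, 0, 0, 0), (55, 0, 0, 0, 0), (55, 0, 0, 0, 0), (76, 0, 0, 0, 0), (76, 0, 0, 0, 0), (10, 0, 0, 0, 0), (10, 0, 0, 0, 0), (6, 0, 0, 0, 0), (6, 0, 0, 0, 0), (29, 0, 0, 0, 0), (29, 0, 0, 0, 0), (55, 0, 0, 0, 0), (55, 0, 0, 0, 0), (6, 0, 0, 0, 0), (6, 0, 0, 0, 0), (46, 0, 0, 0, 0), (46, 0, 0, 0, 0), (87, 0, 0, 0, 0), (87, 0, 0, 0, 0), (39, 0, 0, 0, 0),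 (39, 0, 0, 0, 0), (46, 0, 0, 0, 0), (46, 0, 0, 0, 0), (27, 0, 0, 0, 0), (27, 0, 0, 0, 0), (71, 0, 0, 0, 0), (71, 0, 0, 0, 0), (87, 0, 0, 0, 0), (87, 0, 0, 0, 0), (27, 0, 0, 0, 0), (27, 0, 0, 0, 0), (23, 0, 0, 0, 0), (23, 0, 0, 0, 0), (39, 0, 0, 0, 0), (39, 0, 0, 0, 0), (71, 0, 0, 0, 0), (71, 0, 0, 0, 0), (23, 0, 0, 0, 0), (23, 0, 0, 0, 0), (88, 0, 0, 0, 0), (88, 0, 0, 0, 0), (41, 0, 0, 0, 0), (41, 0, 0, 0, 0), (37, 0, 0, 0, 0), (37, 0, 0, 0, 0), (88, 0, 0, 0, 0), (88, 0, 0, 0, 0), (15, 0, 0, 0, 0), (15, 0, 0, 0, 0), (11, 0, 0, 0, 0), (11, 0, 0, 0, 0), (41, 0, 0, 0, 0), (41, 0, 0, 0, 0), (15, 0, 0, 0, 0), (15, 0, 0, 0, 0), (57, 0, 0, 0, 0), (57, 0, 0, 0, 0), (37, 0, 0, 0, 0), (37, 0, 0, 0, 0), (11, 0, 0, 0, 0), (11, 0, 0, 0,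 0), (57, 0, 0, 0, 0), (57, 0, 0, 0, 0), (44, 0, 0, 0, 0), (44, 0, 0, 0, 0), (25, 0, 0, 0, 0), (25, 0, 0, 0, 0), (68, 0, 0, 0, 0), (68, 0, 0, 0, 0), (44, 0, 0, 0, 0), (44, 0, 0, 0, 0), (60, 0, 0, 0, 0), (60, 0, 0, 0, 0), (9, 0, 0, 0, 0), (9, 0, 0, 0, 0), (25, 0, 0, 0, 0), (25, 0, 0, 0, 0), (60, 0, 0, 0, 0), (60, 0, 0, 0, 0), (3, 0, 0, 0, 0), (3, 0, 0, 0, 0), (68, 0, 0, 0, 0), (68, 0, 0, 0, 0), (9, 0, 0, 0, 0), (9, 0, 0, 0, 0), (3, 0, 0, 0, 0), (3, 0, 0, 0, 0), (40, 0, 0, 0, 0), (40, 0, 0, 0, 0), (72, 0, 0, 0, 0), (72, 0, 0, 0, 0), (21, 0, 0, 0, 0), (21, 0, 0, 0, 0), (40, 0, 0, 0, 0), (40, 0, 0, 0, 0), (13, 0, 0, 0, 0), (13, 0, 0, 0, 0), (54, 0, 0, 0, 0), (54, 0, 0, 0, 0), (72, 0, 0, 0, 0), (72, 0, 0, 0, 0), (13, 0, 0, 0, 0),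 (13, 0, 0, 0, 0), (2, 0, 0, 0, 0), (2, 0, 0, 0, 0), (21, 0, 0, 0, 0), (21, 0, 0, 0, 0), (54, 0, 0, 0, 0), (54, 0, 0, 0, 0), (2, 0, 0, 0, 0), (2, 0, 0, 0, 0), (84, 0, 0, 0, 0), (84, 0, 0, 0, 0), (67, 0, 0, 0, 0), (67, 0, 0, 0, 0), (64, 0, 0, 0, 0), (64, 0, 0, 0, 0), (84, 0, 0, 0, 0), (84, 0, 0, 0, 0), (58, 0, 0, 0, 0), (58, 0, 0, 0, 0), (53, 0, 0, 0, 0), (53, 0, 0, 0, 0), (67, 0, 0, 0, 0), (67, 0, 0, 0, 0), (58, 0, 0, 0, 0), (58, 0, 0, 0, 0), (49, 0, 0, 0, 0), (49, 0, 0, 0, 0), (64, 0, 0, 0, 0), (64, 0, 0, 0, 0), (53, 0, 0, 0, 0), (53, 0, 0, 0, 0), (49, 0, 0, 0, 0), (49, 0, 0, 0, 0), (89, 0, 0, 0, 0), (89, 0, 0, 0, 0), (82, 0, 0, 0, 0), (82, 0, 0, 0, 0), (77, 0, 0, 0, 0), (77, 0, 0, 0, 0), (89, 0, 0, 0, 0), (89, 0, 0, 0, 0),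 (73, 0, 0, 0, 0), (73, 0, 0, 0, 0), (70, 0, 0, 0, 0), (70, 0, 0, 0, 0), (82, 0, 0, 0, 0), (82, 0, 0, 0, 0), (73, 0, 0, 0, 0), (73, 0, 0, 0, 0), (63, 0, 0, 0, 0), (63, 0, 0, 0, 0), (77, 0, 0, 0, 0), (77, 0, 0, 0, 0), (70, 0, 0, 0, 0), (70, 0, 0, 0, 0), (63, 0, 0, 0, 0), (63, 0, 0, 0, 0), (45, 0, 0, 0, 0), (45, 0, 0, 0, 0), (80, 0, 0, 0, 0), (80, 0, 0, 0, 0), (33, 0, 0, 0, 0), (33, 0, 0, 0, 0), (45, 0, 0, 0, 0), (45, 0, 0, 0, 0), (14, 0, 0, 0, 0), (14, 0, 0, 0, 0), (59, 0, 0, 0, 0), (59, 0, 0, 0, 0), (80, 0, 0, 0, 0), (80, 0, 0, 0, 0), (14, 0, 0, 0, 0), (14, 0, 0, 0, 0), (7, 0, 0, 0, 0), (7, 0, 0, 0, 0), (33, 0, 0, 0, 0), (33, 0, 0, 0, 0), (59, 0, 0, 0, 0), (59, 0, 0, 0, 0), (7, 0, 0, 0, 0), (7, 0, 0, 0, 0), (44, 0, 0, 0, 0),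 (44, 0, 0, 0, 0), (25, 0, 0, 0, 0), (25, 0, 0, 0, 0), (68, 0, 0, 0, 0), (68, 0, 0, 0, 0), (44, 0, 0, 0, 0), (44, 0, 0, 0, 0), (60, 0, 0, 0, 0), (60, 0, 0, 0, 0), (9, 0, 0, 0, 0), (9, 0, 0, 0, 0), (25, 0, 0, 0, 0), (25, 0, 0, 0, 0), (60, 0, 0, 0, 0), (60, 0, 0, 0, 0), (3, 0, 0, 0, 0), (3, 0, 0, 0, 0), (68, 0, 0, 0, 0), (68, 0, 0, 0, 0), (9, 0, 0, 0, 0), (9, 0, 0, 0, 0), (3, 0, 0, 0, 0), (3, 0, 0, 0, 0), (78, 0, 0, 0, 0), (78, 0, 0, 0, 0), (24, 0, 0, 0, 0), (24, 0, 0, 0, 0), (17, 0, 0, 0, 0), (17, 0, 0, 0, 0), (78, 0, 0, 0, 0), (78, 0, 0, 0, 0), (12, 0, 0, 0, 0), (12, 0, 0, 0, 0), (5, 0, 0, 0, 0), (5, 0, 0, 0, 0), (24, 0, 0, 0, 0), (24, 0, 0, 0, 0), (12, 0, 0, 0, 0), (12, 0, 0, 0, 0), (48, 0, 0, 0, 0), (48, 0, 0, 0, 0), (17,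 0, 0, 0, 0), (17, 0, 0, 0, 0), (5, 0, 0, 0, 0), (5, 0, 0, 0, 0), (48, 0, 0, 0, 0), (48, 0, 0, 0, 0), (32, 0, 0, 0, 0), (32, 0, 0, 0, 0), (66, 0, 0, 0, 0), (66, 0, 0, 0, 0), (16, 0, 0, 0, 0), (16, 0, 0, 0, 0), (32, 0, 0, 0, 0), (32, 0, 0, 0, 0), (8, 0, 0, 0, 0), (8, 0, 0, 0, 0), (50, 0, 0, 0, 0), (50, 0, 0, 0, 0), (66, 0, 0, 0, 0), (66, 0, 0, 0, 0), (8, 0, 0, 0, 0), (8, 0, 0, 0, 0), (1, 0, 0, 0, 0), (1, 0, 0, 0, 0), (16, 0, 0, 0, 0), (16, 0, 0, 0, 0), (50, 0, 0, 0, 0), (50, 0, 0, 0, 0), (1, 0, 0, 0, 0), (1, 0, 0, 0, 0), (42, 0, 0, 0, 0), (42, 0, 0, 0, 0), (81, 0, 0, 0, 0), (81, 0, 0, 0, 0), (30, 0, 0, 0, 0), (30, 0, 0, 0, 0), (42, 0, 0, 0, 0), (42, 0, 0, 0, 0), (26, 0, 0, 0, 0), (26, 0, 0, 0, 0), (65, 0, 0, 0, 0), (65, 0, 0,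 0, 0), (81, 0, 0, 0, 0), (81, 0, 0, 0, 0), (26, 0, 0, 0, 0), (26, 0, 0, 0, 0), (19, 0, 0, 0, 0), (19, 0, 0, 0, 0), (30, 0, 0, 0, 0), (30, 0, 0, 0, 0), (65, 0, 0, 0, 0), (65, 0, 0, 0, 0), (19, 0, 0, 0, 0), (19, 0, 0, 0, 0), (86, 0, 0, 0, 0), (86, 0, 0, 0, 0), (79, 0, 0, 0, 0), (79, 0, 0, 0, 0), (74, 0, 0, 0, 0), (74, 0, 0, 0, 0), (86, 0, 0, 0, 0), (86, 0, 0, 0, 0), (61, 0, 0, 0, 0), (61, 0, 0, 0, 0), (56, 0, 0, 0, 0), (56, 0, 0, 0, 0), (79, 0, 0, 0, 0), (79, 0, 0, 0, 0), (61, 0, 0, 0, 0), (61, 0, 0, 0, 0), (51, 0, 0, 0, 0), (51, 0, 0, 0, 0), (74, 0, 0, 0, 0), (74, 0, 0, 0, 0), (56, 0, 0, 0, 0), (56, 0, 0, 0, 0), (51, 0, 0, 0, 0), (51, 0, 0, 0, 0), (40, 0, 0, 0, 0), (40, 0, 0, 0, 0), (72, 0, 0, 0, 0), (72, 0, 0, 0, 0), (21, 0,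 0, 0, 0), (21, 0, 0, 0, 0), (40, 0, 0, 0, 0), (40, 0, 0, 0, 0), (13, 0, 0, 0, 0), (13, 0, 0, 0, 0), (54, 0, 0, 0, 0), (54, 0, 0, 0, 0), (72, 0, 0, 0, 0), (72, 0, 0, 0, 0), (13, 0, 0, 0, 0), (13, 0, 0, 0, 0), (2, 0, 0, 0, 0), (2, 0, 0, 0, 0), (21, 0, 0, 0, 0), (21, 0, 0, 0, 0), (54, 0, 0, 0, 0), (54, 0, 0, 0, 0), (2, 0, 0, 0, 0), (2, 0, 0, 0, 0), (78, 0, 0, 0, 0), (78, 0, 0, 0, 0), (24, 0, 0, 0, 0), (24, 0, 0, 0, 0), (17, 0, 0, 0, 0), (17, 0, 0, 0, 0), (78, 0, 0, 0, 0), (78, 0, 0, 0, 0), (12, 0, 0, 0, 0), (12, 0, 0, 0, 0), (5, 0, 0, 0, 0), (5, 0, 0, 0, 0), (24, 0, 0, 0, 0), (24, 0, 0, 0, 0), (12, 0, 0, 0, 0), (12, 0, 0, 0, 0), (48, 0, 0, 0, 0), (48, 0, 0, 0, 0), (17, 0, 0, 0, 0), (17, 0, 0, 0, 0), (5, 0, 0, 0, 0), (5, 0, 0,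 0, 0), (48, 0, 0, 0, 0), (48, 0, 0, 0, 0), (28, 0, 0, 0, 0), (28, 0, 0, 0, 0), (20, 0, 0, 0, 0), (20, 0, 0, 0, 0), (62, 0, 0, 0, 0), (62, 0, 0, 0, 0), (28, 0, 0, 0, 0), (28, 0, 0, 0, 0), (52, 0, 0, 0, 0), (52, 0, 0, 0, 0), (4, 0, 0, 0, 0), (4, 0, 0, 0, 0), (20, 0, 0, 0, 0), (20, 0, 0, 0, 0), (52, 0, 0, 0, 0), (52, 0, 0, 0, 0), (0, 0, 0, 0, 0), (0, 0, 0, 0, 0), (62, 0, 0, 0, 0), (62, 0, 0, 0, 0), (4, 0, 0, 0, 0), (4, 0, 0, 0, 0), (0, 0, 0, 0, 0), (0, 0, 0, 0, 0), (38, 0, 0, 0, 0), (38, 0, 0, 0, 0), (34, 0, 0, 0, 0), (34, 0, 0, 0, 0), (75, 0, 0, 0, 0), (75, 0, 0, 0, 0), (38, 0, 0, 0, 0), (38, 0, 0, 0, 0), (69, 0, 0, 0, 0), (69, 0, 0, 0, 0), (22, 0, 0, 0, 0), (22, 0, 0, 0, 0), (34, 0, 0, 0, 0), (34, 0, 0, 0, 0), (69, 0, 0, 0,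 0), (69, 0, 0, 0, 0), (18, 0, 0, 0, 0), (18, 0, 0, 0, 0), (75, 0, 0, 0, 0), (75, 0, 0, 0, 0), (22, 0, 0, 0, 0), (22, 0, 0, 0, 0), (18, 0, 0, 0, 0), (18, 0, 0, 0, 0), (36, 0, 0, 0, 0), (36, 0, 0, 0, 0), (76, 0, 0, 0, 0), (76, 0, 0, 0, 0), (29, 0, 0, 0, 0), (29, 0, 0, 0, 0), (36, 0, 0, 0, 0), (36, 0, 0, 0, 0), (10, 0, 0, 0, 0), (10, 0, 0, 0, 0), (55, 0, 0, 0, 0), (55, 0, 0, 0, 0), (76, 0, 0, 0, 0), (76, 0, 0, 0, 0), (10, 0, 0, 0, 0), (10, 0, 0, 0, 0), (6, 0, 0, 0, 0), (6, 0, 0, 0, 0), (29, 0, 0, 0, 0), (29, 0, 0, 0, 0), (55, 0, 0, 0, 0), (55, 0, 0, 0, 0), (6, 0, 0, 0, 0), (6, 0, 0, 0, 0), (84, 0, 0, 0, 0), (84, 0, 0, 0, 0), (67, 0, 0, 0, 0), (67, 0, 0, 0, 0), (64, 0, 0, 0, 0), (64, 0, 0, 0, 0), (84, 0, 0, 0, 0), (84, 0, 0, 0,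 0), (58, 0, 0, 0, 0), (58, 0, 0, 0, 0), (53, 0, 0, 0, 0), (53, 0, 0, 0, 0), (67, 0, 0, 0, 0), (67, 0, 0, 0, 0), (58, 0, 0, 0, 0), (58, 0, 0, 0, 0), (49, 0, 0, 0, 0), (49, 0, 0, 0, 0), (64, 0, 0, 0, 0), (64, 0, 0, 0, 0), (53, 0, 0, 0, 0), (53, 0, 0, 0, 0), (49, 0, 0, 0, 0), (49, 0, 0, 0, 0), (32, 0, 0, 0, 0), (32, 0, 0, 0, 0), (66, 0, 0, 0, 0), (66, 0, 0, 0, 0), (16, 0, 0, 0, 0), (16, 0, 0, 0, 0), (32, 0, 0, 0, 0), (32, 0, 0, 0, 0), (8, 0, 0, 0, 0), (8, 0, 0, 0, 0), (50, 0, 0, 0, 0), (50, 0, 0, 0, 0), (66, 0, 0, 0, 0), (66, 0, 0, 0, 0), (8, 0, 0, 0, 0), (8, 0, 0, 0, 0), (1, 0, 0, 0, 0), (1, 0, 0, 0, 0), (16, 0, 0, 0, 0), (16, 0, 0, 0, 0), (50, 0, 0, 0, 0), (50, 0, 0, 0, 0), (1, 0, 0, 0, 0), (1, 0, 0, 0, 0), (28, 0, 0, 0, 0),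 (28, 0, 0, 0, 0), (20, 0, 0, 0, 0), (20, 0, 0, 0, 0), (62, 0, 0, 0, 0), (62, 0, 0, 0, 0), (28, 0, 0, 0, 0), (28, 0, 0, 0, 0), (52, 0, 0, 0, 0), (52, 0, 0, 0, 0), (4, 0, 0, 0, 0), (4, 0, 0, 0, 0), (20, 0, 0, 0, 0), (20, 0, 0, 0, 0), (52, 0, 0, 0, 0), (52, 0, 0, 0, 0), (0, 0, 0, 0, 0), (0, 0, 0, 0, 0), (62, 0, 0, 0, 0), (62, 0, 0, 0, 0), (4, 0, 0, 0, 0), (4, 0, 0, 0, 0), (0, 0, 0, 0, 0), (0, 0, 0, 0, 0)]]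

theorem tr24 : trK keys lk24 kl24 = true := by
  decide +kernel

theorem x24_0 : expB 3 6 dg14 dg16 m24_0 (l24_0 ++ z24_0) w24_0 = true := by
  decide +kernel

theorem t24_0_0 : chkS lk24 3 6 [(1, m24_0)] l24_0
  [(3, 528, 528, 5517840, 5517840), (0, 528, 528, 4530960, 4530960), (0, 528, 528, 5517840, 5517840), (4, 528, 528, 5517840, 5517840), (0, 33, 258, 1066275, 2294100), (6, 528, 528, 3428880, 3428880), (5, 288, 288, 3490320, 4411920), (2, 258, 33, 4391205, 344355), (5, 528, 528, 4346640, 3482640), (2, 18, 18, 82725, 205125), (0, 513, 513, 4526115, 4522290), (6, 288, 288, 5391120, 5448720), (5, 528, 528, 2380560, 3417360), (5, 528, 528, 2372880, 2372880), (6, 288, 288, 2438160, 4338960), (6, 288, 288, 2442000, 4400400),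 (6, 528, 528, 4411905, 3490305), (6, 528, 528, 3428865, 3428865), (5, 288, 288, 3490305, 4411905), (5, 288, 288, 5456385, 5456385), (0, 33, 258, 1070130, 3280980), (6, 528, 528, 3417345, 2380545), (5, 288, 288, 3482625, 4346625), (2, 258, 33, 4395090, 1392690), (5, 528, 528, 2380545, 3417345), (2, 18, 18, 1065810, 1253460), (0, 513, 513, 5509170, 5509170), (6, 288, 288, 2441985, 4400385), (4, 33, 258, 1070130, 3280980), (2, 528, 528, 5391120, 5448720), (2, 528, 528, 2441985, 4400385), (7, 288, 288, 5517840, 5517840), (2, 513, 513, 5378115, 5309490), (1, 528, 528, 5517840, 5517840), (6, 513, 513, 4391205, 344355), (2, 33, 258, 1069635, 3211860), (6, 513, 513, 4395090, 1392690), (1, 528, 528, 5514000, 5514000), (6, 513, 513,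 4395045, 344370), (1, 288, 288, 3294480, 2315280), (2, 513, 513, 2425155, 4261155), (1, 528, 528, 4530960, 4530960), (6, 513, 513, 3412005, 282930), (2, 33, 258, 75075, 2163525), (7, 528, 528, 3298320, 3298320), (2, 288, 288, 4400385, 2441985), (2, 288, 288, 4411920, 3490320), (4, 513, 513, 5509170, 5509170)]
  [(1, -124416), (3, 31104), (4, -93312), (5, -248832), (6, 373248), (7, 62208)] = true := by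
  decide +kernel

section

variable {κ ι : Type*} [Fintype κ] [Fintype ι] [Inhabited κ] [Inhabited ι]

noncomputable def F24_0 (E : Env κ ι) : (Fin 3 → κ) → (Fin 6 → ι) → ℝ := op2 (P14 κ) (P16 ι) (fB E 3 6 m24_0)

def r24_0_0 : List (ℕ × ℤ) := [(1, -124416), (3, 31104), (4, -93312), (5, -248832), (6, 373248), (7, 62208)]

theorem h24_0_0 (E : Env κ ι) : ip (F24_0 E) (F24_0 E) = dotS (ek E lk24) r24_0_0 :=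
  op_entryZ E lk24 3 6 _ _ _ _ (pg14 κ) (pg16 ι) m24_0 m24_0 l24_0 z24_0 w24_0 x24_0 (by decide) _ (chkS_sound E lk24 3 6 _ _ _ _ t24_0_0)

theorem row24_0 (E : Env κ ι) : RowG (ek E lk24) (F24_0 E) [F24_0 E] [r24_0_0] :=
  rowG_cons _ _ _ _ _ _ (h24_0_0 E) (rowG_nil _ _)

def tab24 : List (List (List (ℕ × ℤ))) := [[r24_0_0]]

theorem tri24 (E : Env κ ι) : TriG (ek E lk24) [F24_0 E] tab24 := by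
  refine triG_cons _ _ _ _ _ (row24_0 E) ?_
  exact triG_nil _

end

end YMBR
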