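import Pool.Agent.YM.BR.Ga0
import Pool.Agent.YM.BR.Ga1
import Pool.Agent.YM.BR.Ga2
import Pool.Agent.YM.BR.Ga3

set_option linter.unusedVariables false
set_option maxRecDepth 100000

open YMEng

namespace YMBR

def lk25 : List Key := [
  (3, 6, [(0, [0], [0, 1]), (0, [0], [0, 1]), (0, [1], [2, 3]), (0, [2], [4, 5]), (0, [2], [2, 4]), (0, [1], [3, 5])]),
  (3, 6, [(0, [0], [0, 1]), (0, [1], [2, 3]), (0, [2], [4, 5]), (0, [0], [2, 4]), (0, [1], [0, 5]), (0, [2], [1, 3])]),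
  (3, 6, [(0, [0], [0, 1]), (0, [1], [0, 2]), (0, [1], [3, 4]), (0, [0], [3, 4]), (0, [2], [2, 5]), (0, [2], [1, 5])]),
  (3, 6, [(0, [0], [0, 1]), (0, [0], [0, 1]), (0, [1], [2, 3]), (0, [1], [2, 3]), (0, [2], [4, 5]), (0, [2], [4, 5])]),
  (3, 6, [(0, [0], [0, 1]), (0, [0], [0, 1]), (0, [1], [2, 3]), (0, [2], [4, 5]), (0, [1], [4, 5]), (0, [2], [2, 3])]),
  (3, 6, [(0, [0], [0, 1]), (0, [0], [2, 0]), (0, [1], [3, 1]), (0, [2], [4, 5]), (0, [2], [2, 4]), (0, [1], [3, 5])]),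
  (3, 6, [(0, [0], [0, 1]), (0, [0], [2, 0]), (0, [1], [3, 1]), (0, [2], [4, 5]), (0, [2], [3, 4]), (0, [1], [2, 5])]),
  (3, 6, [(0, [0], [0, 1]), (0, [0], [2, 3]), (0, [1], [0, 1]), (0, [2], [4, 5]), (0, [2], [2, 3]), (0, [1], [4, 5])])]

def kl25 : List ℕ := [12, 22, 25, 27, 30, 37, 38, 45]

def m25_0 : Base := (0, 0, [(0, [0], [0, 1]), (0, [1], [3, 4]), (0, [2], [2, 5])])

def l25_0 : Cov := [(3240, 0, 0, [(0, [0], [0, 1]), (0, [1], [3, 4]), (0, [2], [2, 5])]),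
  (-3240, 0, 0, [(0, [0], [0, 1]), (0, [1], [4, 5]), (0, [2], [2, 3])]),
  (3240, 0, 0, [(0, [0], [0, 2]), (0, [1], [3, 4]), (0, [2], [1, 5])]),
  (-3240, 0, 0, [(0, [0], [0, 2]), (0, [1], [4, 5]), (0, [2], [1, 3])]),
  (3240, 0, 0, [(0, [0], [0, 2]), (0, [1], [1, 5]), (0, [2], [3, 4])]),
  (-3240, 0, 0, [(0, [0], [0, 2]), (0, [1], [1, 3]), (0, [2], [4, 5])]),
  (-3240, 0, 0, [(0, [0], [0, 4]), (0, [1], [1, 3]), (0, [2], [2, 5])]),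
  (3240, 0, 0, [(0, [0], [0, 4]), (0, [1], [1, 5]), (0, [2], [2, 3])]),
  (3240, 0, 0, [(0, [0], [1, 3]), (0, [1], [5, 4]), (0, [2], [0, 2])]),
  (-3240, 0, 0, [(0, [0], [1, 3]), (0, [1], [0, 4]), (0, [2], [2, 5])]),
  (-3240, 0, 0, [(0, [0], [1, 5]), (0, [1], [3, 4]), (0, [2], [0, 2])]),
  (3240, 0, 0, [(0, [0], [1, 5]), (0, [1], [0, 4]), (0, [2], [2, 3])]),
  (-3240, 0, 0, [(0, [0], [2, 3]), (0, [1], [5, 1]), (0, [2], [0, 4])]),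
  (3240, 0, 0, [(0, [0], [2, 3]), (0, [1], [5, 4]), (0, [2], [0, 1])]),
  (-3240, 0, 0, [(0, [0], [2, 3]), (0, [1], [0, 4]), (0, [2], [1, 5])]),
  (3240, 0, 0, [(0, [0], [2, 3]), (0, [1], [0, 1]), (0, [2], [4, 5])]),
  (3240, 0, 0, [(0, [0], [2, 5]), (0, [1], [3, 1]), (0, [2], [0, 4])]),
  (-3240, 0, 0, [(0, [0], [2, 5]), (0, [1], [3, 4]), (0, [2], [0, 1])]),
  (3240, 0, 0, [(0, [0], [2, 5]), (0, [1], [0, 4]), (0, [2], [1, 3])]),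
  (-3240, 0, 0, [(0, [0], [2, 5]), (0, [1], [0, 1]), (0, [2], [3, 4])]),
  (-3240, 0, 0, [(0, [0], [3, 4]), (0, [1], [1, 5]), (0, [2], [0, 2])]),
  (3240, 0, 0, [(0, [0], [3, 4]), (0, [1], [0, 1]), (0, [2], [2, 5])]),
  (3240, 0, 0, [(0, [0], [4, 5]), (0, [1], [3, 1]), (0, [2], [0, 2])]),
  (-3240, 0, 0, [(0, [0], [4, 5]), (0, [1], [0, 1]), (0, [2], [2, 3])])]

def z25_0 : Cov := [(0, 0, 0, [(0, [0], [0, 1]), (0, [1], [3, 5]), (0, [2], [2, 4])]),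
  (0, 0, 0, [(0, [0], [0, 1]), (0, [1], [2, 4]), (0, [2], [3, 5])]),
  (0, 0, 0, [(0, [0], [0, 1]), (0, [1], [2, 5]), (0, [2], [3, 4])]),
  (0, 0, 0, [(0, [0], [0, 1]), (0, [1], [2, 3]), (0, [2], [4, 5])]),
  (0, 0, 0, [(0, [0], [0, 2]), (0, [1], [3, 5]), (0, [2], [1, 4])]),
  (0, 0, 0, [(0, [0], [0, 2]), (0, [1], [1, 4]), (0, [2], [3, 5])]),
  (0, 0, 0, [(0, [0], [0, 3]), (0, [1], [2, 4]), (0, [2], [1, 5])]),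
  (0, 0, 0, [(0, [0], [0, 3]), (0, [1], [2, 5]), (0, [2], [1, 4])]),
  (0, 0, 0, [(0, [0], [0, 3]), (0, [1], [4, 5]), (0, [2], [1, 2])]),
  (0, 0, 0, [(0, [0], [0, 3]), (0, [1], [1, 4]), (0, [2], [2, 5])]),
  (0, 0, 0, [(0, [0], [0, 3]), (0, [1], [1, 5]), (0, [2], [2, 4])]),
  (0, 0, 0, [(0, [0], [0, 3]), (0, [1], [1, 2]), (0, [2], [4, 5])]),
  (0, 0, 0, [(0, [0], [0, 4]), (0, [1], [2, 3]), (0, [2], [1, 5])]),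
  (0, 0, 0, [(0, [0], [0, 4]), (0, [1], [2, 5]), (0, [2], [1, 3])]),
  (0, 0, 0, [(0, [0], [0, 4]), (0, [1], [3, 5]), (0, [2], [1, 2])]),
  (0, 0, 0, [(0, [0], [0, 4]), (0, [1], [1, 2]), (0, [2], [3, 5])]),
  (0, 0, 0, [(0, [0], [0, 5]), (0, [1], [2, 3]), (0, [2], [1, 4])]),
  (0, 0, 0, [(0, [0], [0, 5]), (0, [1], [2, 4]), (0, [2], [1, 3])]),
  (0, 0, 0, [(0, [0], [0, 5]), (0, [1], [3, 4]), (0, [2], [1, 2])]),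
  (0, 0, 0, [(0, [0], [0, 5]), (0, [1], [1, 3]), (0, [2], [2, 4])]),
  (0, 0, 0, [(0, [0], [0, 5]), (0, [1], [1, 4]), (0, [2], [2, 3])]),
  (0, 0, 0, [(0, [0], [0, 5]), (0, [1], [1, 2]), (0, [2], [3, 4])]),
  (0, 0, 0, [(0, [0], [1, 2]), (0, [1], [3, 4]), (0, [2], [0, 5])]),
  (0, 0, 0, [(0, [0], [1, 2]), (0, [1], [3, 5]), (0, [2], [0, 4])]),
  (0, 0, 0, [(0, [0], [1, 2]), (0, [1], [4, 5]), (0, [2], [0, 3])]),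
  (0, 0, 0, [(0, [0], [1, 2]), (0, [1], [0, 4]), (0, [2], [3, 5])]),
  (0, 0, 0, [(0, [0], [1, 2]), (0, [1], [0, 5]), (0, [2], [3, 4])]),
  (0, 0, 0, [(0, [0], [1, 2]), (0, [1], [0, 3]), (0, [2], [4, 5])]),
  (0, 0, 0, [(0, [0], [1, 3]), (0, [1], [2, 4]), (0, [2], [0, 5])]),
  (0, 0, 0, [(0, [0], [1, 3]), (0, [1], [5, 2]), (0, [2], [0, 4])]),
  (0, 0, 0, [(0, [0], [1, 3]), (0, [1], [0, 5]), (0, [2], [2, 4])]),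
  (0, 0, 0, [(0, [0], [1, 3]), (0, [1], [0, 2]), (0, [2], [4, 5])]),
  (0, 0, 0, [(0, [0], [1, 4]), (0, [1], [2, 3]), (0, [2], [0, 5])]),
  (0, 0, 0, [(0, [0], [1, 4]), (0, [1], [2, 5]), (0, [2], [0, 3])]),
  (0, 0, 0, [(0, [0], [1, 4]), (0, [1], [3, 5]), (0, [2], [0, 2])]),
  (0, 0, 0, [(0, [0], [1, 4]), (0, [1], [0, 3]), (0, [2], [2, 5])]),
  (0, 0, 0, [(0, [0], [1, 4]), (0, [1], [0, 5]), (0, [2], [2, 3])]),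
  (0, 0, 0, [(0, [0], [1, 4]), (0, [1], [0, 2]), (0, [2], [3, 5])]),
  (0, 0, 0, [(0, [0], [1, 5]), (0, [1], [2, 4]), (0, [2], [0, 3])]),
  (0, 0, 0, [(0, [0], [1, 5]), (0, [1], [3, 2]), (0, [2], [0, 4])]),
  (0, 0, 0, [(0, [0], [1, 5]), (0, [1], [0, 3]), (0, [2], [2, 4])]),
  (0, 0, 0, [(0, [0], [1, 5]), (0, [1], [0, 2]), (0, [2], [3, 4])]),
  (0, 0, 0, [(0, [0], [2, 3]), (0, [1], [1, 4]), (0, [2], [0, 5])]),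
  (0, 0, 0, [(0, [0], [2, 3]), (0, [1], [0, 5]), (0, [2], [1, 4])]),
  (0, 0, 0, [(0, [0], [2, 4]), (0, [1], [1, 3]), (0, [2], [0, 5])]),
  (0, 0, 0, [(0, [0], [2, 4]), (0, [1], [1, 5]), (0, [2], [0, 3])]),
  (0, 0, 0, [(0, [0], [2, 4]), (0, [1], [3, 5]), (0, [2], [0, 1])]),
  (0, 0, 0, [(0, [0], [2, 4]), (0, [1], [0, 3]), (0, [2], [1, 5])]),
  (0, 0, 0, [(0, [0], [2, 4]), (0, [1], [0, 5]), (0, [2], [1, 3])]),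
  (0, 0, 0, [(0, [0], [2, 4]), (0, [1], [0, 1]), (0, [2], [3, 5])]),
  (0, 0, 0, [(0, [0], [2, 5]), (0, [1], [1, 4]), (0, [2], [0, 3])]),
  (0, 0, 0, [(0, [0], [2, 5]), (0, [1], [0, 3]), (0, [2], [1, 4])]),
  (0, 0, 0, [(0, [0], [3, 4]), (0, [1], [1, 2]), (0, [2], [0, 5])]),
  (0, 0, 0, [(0, [0], [3, 4]), (0, [1], [2, 5]), (0, [2], [0, 1])]),
  (0, 0, 0, [(0, [0], [3, 4]), (0, [1], [0, 2]), (0, [2], [1, 5])]),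
  (0, 0, 0, [(0, [0], [3, 4]), (0, [1], [0, 5]), (0, [2], [1, 2])]),
  (0, 0, 0, [(0, [0], [3, 5]), (0, [1], [1, 2]), (0, [2], [0, 4])]),
  (0, 0, 0, [(0, [0], [3, 5]), (0, [1], [1, 4]), (0, [2], [0, 2])]),
  (0, 0, 0, [(0, [0], [3, 5]), (0, [1], [2, 4]), (0, [2], [0, 1])]),
  (0, 0, 0, [(0, [0], [3, 5]), (0, [1], [0, 2]), (0, [2], [1, 4])]),
  (0, 0, 0, [(0, [0], [3, 5]), (0, [1], [0, 4]), (0, [2], [1, 2])]),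
  (0, 0, 0, [(0, [0], [3, 5]), (0, [1], [0, 1]), (0, [2], [2, 4])]),
  (0, 0, 0, [(0, [0], [4, 5]), (0, [1], [1, 2]), (0, [2], [0, 3])]),
  (0, 0, 0, [(0, [0], [4, 5]), (0, [1], [3, 2]), (0, [2], [0, 1])]),
  (0, 0, 0, [(0, [0], [4, 5]), (0, [1], [0, 2]), (0, [2], [1, 3])]),
  (0, 0, 0, [(0, [0], [4, 5]), (0, [1], [0, 3]), (0, [2], [1, 2])])]

def w25_0 : List (List Wit) := [[(0, 0, 0, 0, 0), (24, 0, 0, 0, 0), (0, 0, 0, 0, 0), (1, 0, 0, 0, 0), (24, 0, 0, 0, 0), (1, 0, 0, 0, 0), (25, 0, 0, 0, 0), (26, 0, 0, 0, 0), (25, 0, 0, 0, 0), (1, 0, 0, 0, 0), (26, 0, 0, 0, 0), (1, 0, 0, 0, 0), (27, 0, 0, 0, 0), (26, 0, 0, 0, 0), (27, 0, 0, 0, 0), (24, 0, 0, 0, 0), (26, 0, 0, 0, 0), (24, 0, 0, 0, 0), (27, 0, 0, 0, 0), (25, 0, 0, 0, 0), (27, 0, 0, 0, 0), (0, 0, 0, 0, 0), (25, 0,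 0, 0, 0), (0, 0, 0, 0, 0), (2, 0, 0, 0, 0), (28, 0, 0, 0, 0), (2, 0, 0, 0, 0), (3, 0, 0, 0, 0), (28, 0, 0, 0, 0), (3, 0, 0, 0, 0), (29, 0, 0, 0, 0), (4, 0, 0, 0, 0), (29, 0, 0, 0, 0), (3, 0, 0, 0, 0), (4, 0, 0, 0, 0), (3, 0, 0, 0, 0), (5, 0, 0, 0, 0), (4, 0, 0, 0, 0), (5, 0, 0, 0, 0), (28, 0, 0, 0, 0), (4, 0, 0, 0, 0), (28, 0, 0, 0, 0), (5, 0, 0, 0, 0), (29, 0, 0, 0, 0), (5, 0, 0, 0, 0), (2, 0, 0, 0, 0), (29, 0, 0, 0, 0), (2, 0, 0, 0, 0), (30, 0, 0, 0, 0), (31, 0, 0, 0, 0), (30, 0, 0, 0, 0), (32, 0, 0, 0, 0), (31, 0, 0, 0, 0), (32, 0, 0, 0, 0), (33, 0, 0, 0, 0), (34, 0, 0, 0, 0), (33, 0, 0, 0, 0), (32, 0, 0, 0, 0), (34, 0, 0, 0, 0), (32, 0, 0, 0, 0), (35, 0, 0, 0, 0), (34, 0, 0, 0, 0), (35, 0, 0, 0, 0), (31, 0, 0, 0, 0), (34, 0, 0, 0, 0), (31, 0, 0, 0, 0), (35, 0,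 0, 0, 0), (33, 0, 0, 0, 0), (35, 0, 0, 0, 0), (30, 0, 0, 0, 0), (33, 0, 0, 0, 0), (30, 0, 0, 0, 0), (36, 0, 0, 0, 0), (37, 0, 0, 0, 0), (36, 0, 0, 0, 0), (38, 0, 0, 0, 0), (37, 0, 0, 0, 0), (38, 0, 0, 0, 0), (6, 0, 0, 0, 0), (7, 0, 0, 0, 0), (6, 0, 0, 0, 0), (38, 0, 0, 0, 0), (7, 0, 0, 0, 0), (38, 0, 0, 0, 0), (39, 0, 0, 0, 0), (7, 0, 0, 0, 0), (39, 0, 0, 0, 0), (37, 0, 0, 0, 0), (7, 0, 0, 0, 0), (37, 0, 0, 0, 0), (39, 0, 0, 0, 0), (6, 0, 0, 0, 0), (39, 0, 0, 0, 0), (36, 0, 0, 0, 0), (6, 0, 0, 0, 0), (36, 0, 0, 0, 0), (40, 0, 0, 0, 0), (41, 0, 0, 0, 0), (40, 0, 0, 0, 0), (42, 0, 0, 0, 0), (41, 0, 0, 0, 0), (42, 0, 0, 0, 0), (43, 0, 0, 0, 0), (44, 0, 0, 0, 0), (43, 0, 0, 0, 0), (42, 0, 0, 0, 0), (44, 0, 0, 0, 0), (42, 0, 0, 0, 0), (45, 0, 0, 0, 0), (44, 0, 0, 0, 0),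 (45, 0, 0, 0, 0), (41, 0, 0, 0, 0), (44, 0, 0, 0, 0), (41, 0, 0, 0, 0), (45, 0, 0, 0, 0), (43, 0, 0, 0, 0), (45, 0, 0, 0, 0), (40, 0, 0, 0, 0), (43, 0, 0, 0, 0), (40, 0, 0, 0, 0), (0, 0, 0, 0, 0), (24, 0, 0, 0, 0), (0, 0, 0, 0, 0), (1, 0, 0, 0, 0), (24, 0, 0, 0, 0), (1, 0, 0, 0, 0), (25, 0, 0, 0, 0), (25, 0, 0, 0, 0), (26, 0, 0, 0, 0), (1, 0, 0, 0, 0), (27, 0, 0, 0, 0), (26, 0, 0, 0, 0), (27, 0, 0, 0, 0), (24, 0, 0, 0, 0), (26, 0, 0, 0, 0), (24, 0, 0, 0, 0), (25, 0, 0, 0, 0), (27, 0, 0, 0, 0), (0, 0, 0, 0, 0), (25, 0, 0, 0, 0), (46, 0, 0, 0, 0), (47, 0, 0, 0, 0), (46, 0, 0, 0, 0), (48, 0, 0, 0, 0), (47, 0, 0, 0, 0), (48, 0, 0, 0, 0), (49, 0, 0, 0, 0), (50, 0, 0, 0, 0), (49, 0, 0, 0, 0), (48, 0, 0, 0, 0), (50, 0, 0, 0, 0), (48, 0, 0, 0, 0), (51, 0, 0, 0, 0), (50, 0,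 0, 0, 0), (51, 0, 0, 0, 0), (47, 0, 0, 0, 0), (50, 0, 0, 0, 0), (47, 0, 0, 0, 0), (51, 0, 0, 0, 0), (49, 0, 0, 0, 0), (51, 0, 0, 0, 0), (46, 0, 0, 0, 0), (49, 0, 0, 0, 0), (46, 0, 0, 0, 0), (52, 0, 0, 0, 0), (52, 0, 0, 0, 0), (53, 0, 0, 0, 0), (8, 0, 0, 0, 0), (9, 0, 0, 0, 0), (54, 0, 0, 0, 0), (9, 0, 0, 0, 0), (8, 0, 0, 0, 0), (54, 0, 0, 0, 0), (8, 0, 0, 0, 0), (55, 0, 0, 0, 0), (54, 0, 0, 0, 0), (55, 0, 0, 0, 0), (53, 0, 0, 0, 0), (54, 0, 0, 0, 0), (53, 0, 0, 0, 0), (55, 0, 0, 0, 0), (9, 0, 0, 0, 0), (52, 0, 0, 0, 0), (52, 0, 0, 0, 0), (56, 0, 0, 0, 0), (57, 0, 0, 0, 0), (56, 0, 0, 0, 0), (58, 0, 0, 0, 0), (57, 0, 0, 0, 0), (58, 0, 0, 0, 0), (59, 0, 0, 0, 0), (60, 0, 0, 0, 0), (59, 0, 0, 0, 0), (58, 0, 0, 0, 0), (60, 0, 0, 0, 0), (58, 0, 0, 0, 0), (61, 0, 0, 0, 0),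 (60, 0, 0, 0, 0), (61, 0, 0, 0, 0), (57, 0, 0, 0, 0), (60, 0, 0, 0, 0), (57, 0, 0, 0, 0), (61, 0, 0, 0, 0), (59, 0, 0, 0, 0), (61, 0, 0, 0, 0), (56, 0, 0, 0, 0), (59, 0, 0, 0, 0), (56, 0, 0, 0, 0), (62, 0, 0, 0, 0), (63, 0, 0, 0, 0), (10, 0, 0, 0, 0), (62, 0, 0, 0, 0), (64, 0, 0, 0, 0), (11, 0, 0, 0, 0), (64, 0, 0, 0, 0), (10, 0, 0, 0, 0), (11, 0, 0, 0, 0), (10, 0, 0, 0, 0), (65, 0, 0, 0, 0), (11, 0, 0, 0, 0), (62, 0, 0, 0, 0), (62, 0, 0, 0, 0), (65, 0, 0, 0, 0), (64, 0, 0, 0, 0), (65, 0, 0, 0, 0), (63, 0, 0, 0, 0), (64, 0, 0, 0, 0), (63, 0, 0, 0, 0), (2, 0, 0, 0, 0), (28, 0, 0, 0, 0), (2, 0, 0, 0, 0), (3, 0, 0, 0, 0), (28, 0, 0, 0, 0), (3, 0, 0, 0, 0), (29, 0, 0, 0, 0), (29, 0, 0, 0, 0), (4, 0, 0, 0, 0), (3, 0, 0, 0, 0), (5, 0, 0, 0, 0), (4, 0, 0, 0, 0), (5, 0, 0,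 0, 0), (28, 0, 0, 0, 0), (4, 0, 0, 0, 0), (28, 0, 0, 0, 0), (29, 0, 0, 0, 0), (5, 0, 0, 0, 0), (2, 0, 0, 0, 0), (29, 0, 0, 0, 0), (46, 0, 0, 0, 0), (47, 0, 0, 0, 0), (46, 0, 0, 0, 0), (48, 0, 0, 0, 0), (47, 0, 0, 0, 0), (48, 0, 0, 0, 0), (49, 0, 0, 0, 0), (50, 0, 0, 0, 0), (49, 0, 0, 0, 0), (48, 0, 0, 0, 0), (50, 0, 0, 0, 0), (48, 0, 0, 0, 0), (51, 0, 0, 0, 0), (50, 0, 0, 0, 0), (51, 0, 0, 0, 0), (47, 0, 0, 0, 0), (50, 0, 0, 0, 0), (47, 0, 0, 0, 0), (51, 0, 0, 0, 0), (49, 0, 0, 0, 0), (51, 0, 0, 0, 0), (46, 0, 0, 0, 0), (49, 0, 0, 0, 0), (46, 0, 0, 0, 0), (66, 0, 0, 0, 0), (66, 0, 0, 0, 0), (12, 0, 0, 0, 0), (13, 0, 0, 0, 0), (14, 0, 0, 0, 0), (67, 0, 0, 0, 0), (14, 0, 0, 0, 0), (13, 0, 0, 0, 0), (67, 0, 0, 0, 0), (13, 0, 0, 0, 0), (15, 0, 0, 0, 0), (67, 0, 0, 0, 0),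 (15, 0, 0, 0, 0), (12, 0, 0, 0, 0), (67, 0, 0, 0, 0), (12, 0, 0, 0, 0), (15, 0, 0, 0, 0), (14, 0, 0, 0, 0), (66, 0, 0, 0, 0), (66, 0, 0, 0, 0), (68, 0, 0, 0, 0), (69, 0, 0, 0, 0), (68, 0, 0, 0, 0), (70, 0, 0, 0, 0), (69, 0, 0, 0, 0), (70, 0, 0, 0, 0), (71, 0, 0, 0, 0), (72, 0, 0, 0, 0), (71, 0, 0, 0, 0), (70, 0, 0, 0, 0), (72, 0, 0, 0, 0), (70, 0, 0, 0, 0), (73, 0, 0, 0, 0), (72, 0, 0, 0, 0), (73, 0, 0, 0, 0), (69, 0, 0, 0, 0), (72, 0, 0, 0, 0), (69, 0, 0, 0, 0), (73, 0, 0, 0, 0), (71, 0, 0, 0, 0), (73, 0, 0, 0, 0), (68, 0, 0, 0, 0), (71, 0, 0, 0, 0), (68, 0, 0, 0, 0), (74, 0, 0, 0, 0), (16, 0, 0, 0, 0), (17, 0, 0, 0, 0), (74, 0, 0, 0, 0), (75, 0, 0, 0, 0), (18, 0, 0, 0, 0), (75, 0, 0, 0, 0), (17, 0, 0, 0, 0), (18, 0, 0, 0, 0), (17, 0, 0, 0, 0), (19, 0, 0, 0, 0), (18,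 0, 0, 0, 0), (74, 0, 0, 0, 0), (74, 0, 0, 0, 0), (19, 0, 0, 0, 0), (75, 0, 0, 0, 0), (19, 0, 0, 0, 0), (16, 0, 0, 0, 0), (75, 0, 0, 0, 0), (16, 0, 0, 0, 0), (30, 0, 0, 0, 0), (31, 0, 0, 0, 0), (30, 0, 0, 0, 0), (32, 0, 0, 0, 0), (31, 0, 0, 0, 0), (32, 0, 0, 0, 0), (33, 0, 0, 0, 0), (34, 0, 0, 0, 0), (33, 0, 0, 0, 0), (32, 0, 0, 0, 0), (34, 0, 0, 0, 0), (32, 0, 0, 0, 0), (35, 0, 0, 0, 0), (34, 0, 0, 0, 0), (35, 0, 0, 0, 0), (31, 0, 0, 0, 0), (34, 0, 0, 0, 0), (31, 0, 0, 0, 0), (35, 0, 0, 0, 0), (33, 0, 0, 0, 0), (35, 0, 0, 0, 0), (30, 0, 0, 0, 0), (33, 0, 0, 0, 0), (30, 0, 0, 0, 0), (52, 0, 0, 0, 0), (53, 0, 0, 0, 0), (52, 0, 0, 0, 0), (8, 0, 0, 0, 0), (53, 0, 0, 0, 0), (8, 0, 0, 0, 0), (9, 0, 0, 0, 0), (54, 0, 0, 0, 0), (9, 0, 0, 0, 0), (8, 0, 0, 0, 0), (54, 0, 0,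 0, 0), (8, 0, 0, 0, 0), (55, 0, 0, 0, 0), (54, 0, 0, 0, 0), (55, 0, 0, 0, 0), (53, 0, 0, 0, 0), (54, 0, 0, 0, 0), (53, 0, 0, 0, 0), (55, 0, 0, 0, 0), (9, 0, 0, 0, 0), (55, 0, 0, 0, 0), (52, 0, 0, 0, 0), (9, 0, 0, 0, 0), (52, 0, 0, 0, 0), (66, 0, 0, 0, 0), (12, 0, 0, 0, 0), (66, 0, 0, 0, 0), (13, 0, 0, 0, 0), (12, 0, 0, 0, 0), (13, 0, 0, 0, 0), (14, 0, 0, 0, 0), (67, 0, 0, 0, 0), (14, 0, 0, 0, 0), (13, 0, 0, 0, 0), (67, 0, 0, 0, 0), (13, 0, 0, 0, 0), (15, 0, 0, 0, 0), (67, 0, 0, 0, 0), (15, 0, 0, 0, 0), (12, 0, 0, 0, 0), (67, 0, 0, 0, 0), (12, 0, 0, 0, 0), (15, 0, 0, 0, 0), (14, 0, 0, 0, 0), (15, 0, 0, 0, 0), (66, 0, 0, 0, 0), (14, 0, 0, 0, 0), (66, 0, 0, 0, 0), (76, 0, 0, 0, 0), (20, 0, 0, 0, 0), (76, 0, 0, 0, 0), (77, 0, 0, 0, 0), (20, 0, 0, 0, 0), (77, 0, 0, 0, 0),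 (78, 0, 0, 0, 0), (79, 0, 0, 0, 0), (78, 0, 0, 0, 0), (77, 0, 0, 0, 0), (79, 0, 0, 0, 0), (77, 0, 0, 0, 0), (21, 0, 0, 0, 0), (79, 0, 0, 0, 0), (21, 0, 0, 0, 0), (20, 0, 0, 0, 0), (79, 0, 0, 0, 0), (20, 0, 0, 0, 0), (21, 0, 0, 0, 0), (78, 0, 0, 0, 0), (21, 0, 0, 0, 0), (76, 0, 0, 0, 0), (78, 0, 0, 0, 0), (76, 0, 0, 0, 0), (80, 0, 0, 0, 0), (81, 0, 0, 0, 0), (80, 0, 0, 0, 0), (82, 0, 0, 0, 0), (81, 0, 0, 0, 0), (82, 0, 0, 0, 0), (83, 0, 0, 0, 0), (84, 0, 0, 0, 0), (83, 0, 0, 0, 0), (82, 0, 0, 0, 0), (84, 0, 0, 0, 0), (82, 0, 0, 0, 0), (85, 0, 0, 0, 0), (84, 0, 0, 0, 0), (85, 0, 0, 0, 0), (81, 0, 0, 0, 0), (84, 0, 0, 0, 0), (81, 0, 0, 0, 0), (85, 0, 0, 0, 0), (83, 0, 0, 0, 0), (85, 0, 0, 0, 0), (80, 0, 0, 0, 0), (83, 0, 0, 0, 0), (80, 0, 0, 0, 0), (36, 0, 0, 0, 0), (37,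 0, 0, 0, 0), (36, 0, 0, 0, 0), (38, 0, 0, 0, 0), (37, 0, 0, 0, 0), (38, 0, 0, 0, 0), (6, 0, 0, 0, 0), (7, 0, 0, 0, 0), (6, 0, 0, 0, 0), (38, 0, 0, 0, 0), (7, 0, 0, 0, 0), (38, 0, 0, 0, 0), (39, 0, 0, 0, 0), (39, 0, 0, 0, 0), (7, 0, 0, 0, 0), (37, 0, 0, 0, 0), (39, 0, 0, 0, 0), (39, 0, 0, 0, 0), (6, 0, 0, 0, 0), (36, 0, 0, 0, 0), (56, 0, 0, 0, 0), (57, 0, 0, 0, 0), (56, 0, 0, 0, 0), (58, 0, 0, 0, 0), (57, 0, 0, 0, 0), (58, 0, 0, 0, 0), (59, 0, 0, 0, 0), (60, 0, 0, 0, 0), (59, 0, 0, 0, 0), (58, 0, 0, 0, 0), (60, 0, 0, 0, 0), (58, 0, 0, 0, 0), (61, 0, 0, 0, 0), (60, 0, 0, 0, 0), (61, 0, 0, 0, 0), (57, 0, 0, 0, 0), (60, 0, 0, 0, 0), (57, 0, 0, 0, 0), (61, 0, 0, 0, 0), (59, 0, 0, 0, 0), (61, 0, 0, 0, 0), (56, 0, 0, 0, 0), (59, 0, 0, 0, 0), (56, 0, 0, 0, 0), (68, 0, 0, 0,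 0), (69, 0, 0, 0, 0), (68, 0, 0, 0, 0), (70, 0, 0, 0, 0), (69, 0, 0, 0, 0), (70, 0, 0, 0, 0), (71, 0, 0, 0, 0), (72, 0, 0, 0, 0), (71, 0, 0, 0, 0), (70, 0, 0, 0, 0), (72, 0, 0, 0, 0), (70, 0, 0, 0, 0), (73, 0, 0, 0, 0), (72, 0, 0, 0, 0), (73, 0, 0, 0, 0), (69, 0, 0, 0, 0), (72, 0, 0, 0, 0), (69, 0, 0, 0, 0), (73, 0, 0, 0, 0), (71, 0, 0, 0, 0), (73, 0, 0, 0, 0), (68, 0, 0, 0, 0), (71, 0, 0, 0, 0), (68, 0, 0, 0, 0), (76, 0, 0, 0, 0), (76, 0, 0, 0, 0), (20, 0, 0, 0, 0), (77, 0, 0, 0, 0), (78, 0, 0, 0, 0), (79, 0, 0, 0, 0), (78, 0, 0, 0, 0), (77, 0, 0, 0, 0), (79, 0, 0, 0, 0), (77, 0, 0, 0, 0), (21, 0, 0, 0, 0), (79, 0, 0, 0, 0), (21, 0, 0, 0, 0), (20, 0, 0, 0, 0), (79, 0, 0, 0, 0), (20, 0, 0, 0, 0), (21, 0, 0, 0, 0), (78, 0, 0, 0, 0), (76, 0, 0, 0, 0), (76, 0, 0, 0, 0),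 (86, 0, 0, 0, 0), (86, 0, 0, 0, 0), (22, 0, 0, 0, 0), (87, 0, 0, 0, 0), (88, 0, 0, 0, 0), (89, 0, 0, 0, 0), (88, 0, 0, 0, 0), (87, 0, 0, 0, 0), (89, 0, 0, 0, 0), (87, 0, 0, 0, 0), (23, 0, 0, 0, 0), (89, 0, 0, 0, 0), (23, 0, 0, 0, 0), (22, 0, 0, 0, 0), (89, 0, 0, 0, 0), (22, 0, 0, 0, 0), (23, 0, 0, 0, 0), (88, 0, 0, 0, 0), (86, 0, 0, 0, 0), (86, 0, 0, 0, 0), (40, 0, 0, 0, 0), (41, 0, 0, 0, 0), (40, 0, 0, 0, 0), (42, 0, 0, 0, 0), (41, 0, 0, 0, 0), (42, 0, 0, 0, 0), (43, 0, 0, 0, 0), (44, 0, 0, 0, 0), (43, 0, 0, 0, 0), (42, 0, 0, 0, 0), (44, 0, 0, 0, 0), (42, 0, 0, 0, 0), (45, 0, 0, 0, 0), (44, 0, 0, 0, 0), (45, 0, 0, 0, 0), (41, 0, 0, 0, 0), (44, 0, 0, 0, 0), (41, 0, 0, 0, 0), (45, 0, 0, 0, 0), (43, 0, 0, 0, 0), (45, 0, 0, 0, 0), (40, 0, 0, 0, 0), (43, 0, 0, 0, 0), (40,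 0, 0, 0, 0), (63, 0, 0, 0, 0), (62, 0, 0, 0, 0), (63, 0, 0, 0, 0), (10, 0, 0, 0, 0), (62, 0, 0, 0, 0), (10, 0, 0, 0, 0), (64, 0, 0, 0, 0), (11, 0, 0, 0, 0), (64, 0, 0, 0, 0), (10, 0, 0, 0, 0), (11, 0, 0, 0, 0), (10, 0, 0, 0, 0), (65, 0, 0, 0, 0), (11, 0, 0, 0, 0), (65, 0, 0, 0, 0), (62, 0, 0, 0, 0), (11, 0, 0, 0, 0), (62, 0, 0, 0, 0), (65, 0, 0, 0, 0), (64, 0, 0, 0, 0), (65, 0, 0, 0, 0), (63, 0, 0, 0, 0), (64, 0, 0, 0, 0), (63, 0, 0, 0, 0), (16, 0, 0, 0, 0), (74, 0, 0, 0, 0), (16, 0, 0, 0, 0), (17, 0, 0, 0, 0), (74, 0, 0, 0, 0), (17, 0, 0, 0, 0), (75, 0, 0, 0, 0), (18, 0, 0, 0, 0), (75, 0, 0, 0, 0), (17, 0, 0, 0, 0), (18, 0, 0, 0, 0), (17, 0, 0, 0, 0), (19, 0, 0, 0, 0), (18, 0, 0, 0, 0), (19, 0, 0, 0, 0), (74, 0, 0, 0, 0), (18, 0, 0, 0, 0), (74, 0, 0, 0, 0), (19, 0,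 0, 0, 0), (75, 0, 0, 0, 0), (19, 0, 0, 0, 0), (16, 0, 0, 0, 0), (75, 0, 0, 0, 0), (16, 0, 0, 0, 0), (80, 0, 0, 0, 0), (81, 0, 0, 0, 0), (80, 0, 0, 0, 0), (82, 0, 0, 0, 0), (81, 0, 0, 0, 0), (82, 0, 0, 0, 0), (83, 0, 0, 0, 0), (84, 0, 0, 0, 0), (83, 0, 0, 0, 0), (82, 0, 0, 0, 0), (84, 0, 0, 0, 0), (82, 0, 0, 0, 0), (85, 0, 0, 0, 0), (84, 0, 0, 0, 0), (85, 0, 0, 0, 0), (81, 0, 0, 0, 0), (84, 0, 0, 0, 0), (81, 0, 0, 0, 0), (85, 0, 0, 0, 0), (83, 0, 0, 0, 0), (85, 0, 0, 0, 0), (80, 0, 0, 0, 0), (83, 0, 0, 0, 0), (80, 0, 0, 0, 0), (86, 0, 0, 0, 0), (22, 0, 0, 0, 0), (86, 0, 0, 0, 0), (87, 0, 0, 0, 0), (22, 0, 0, 0, 0), (87, 0, 0, 0, 0), (88, 0, 0, 0, 0), (89, 0, 0, 0, 0), (88, 0, 0, 0, 0), (87, 0, 0, 0, 0), (89, 0, 0, 0, 0), (87, 0, 0, 0, 0), (23, 0, 0, 0, 0), (89, 0, 0,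 0, 0), (23, 0, 0, 0, 0), (22, 0, 0, 0, 0), (89, 0, 0, 0, 0), (22, 0, 0, 0, 0), (23, 0, 0, 0, 0), (88, 0, 0, 0, 0), (23, 0, 0, 0, 0), (86, 0, 0, 0, 0), (88, 0, 0, 0, 0), (86, 0, 0, 0, 0)],
  [(26, 0, 0, 0, 0), (25, 0, 0, 0, 0), (26, 0, 0, 0, 0), (27, 0, 0, 0, 0), (25, 0, 0, 0, 0), (27, 0, 0, 0, 0), (24, 0, 0, 0, 0), (0, 0, 0, 0, 0), (24, 0, 0, 0, 0), (27, 0, 0, 0, 0), (0, 0, 0, 0, 0), (27, 0, 0, 0, 0), (1, 0, 0, 0, 0), (0, 0, 0, 0, 0), (1, 0, 0, 0, 0), (25, 0, 0, 0, 0), (0, 0, 0, 0, 0), (25, 0, 0, 0, 0), (1, 0, 0, 0, 0), (24, 0, 0, 0, 0), (1, 0, 0, 0, 0), (26, 0, 0, 0, 0), (24, 0, 0, 0, 0), (26, 0, 0, 0, 0), (4, 0, 0, 0, 0), (29, 0, 0, 0, 0), (4, 0, 0, 0, 0), (5, 0, 0, 0, 0), (29, 0, 0, 0, 0), (5, 0, 0, 0, 0), (28, 0, 0, 0, 0), (2, 0, 0, 0, 0), (28, 0, 0, 0, 0), (5,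 0, 0, 0, 0), (2, 0, 0, 0, 0), (5, 0, 0, 0, 0), (3, 0, 0, 0, 0), (2, 0, 0, 0, 0), (3, 0, 0, 0, 0), (29, 0, 0, 0, 0), (2, 0, 0, 0, 0), (29, 0, 0, 0, 0), (3, 0, 0, 0, 0), (28, 0, 0, 0, 0), (3, 0, 0, 0, 0), (4, 0, 0, 0, 0), (28, 0, 0, 0, 0), (4, 0, 0, 0, 0), (34, 0, 0, 0, 0), (33, 0, 0, 0, 0), (34, 0, 0, 0, 0), (35, 0, 0, 0, 0), (33, 0, 0, 0, 0), (35, 0, 0, 0, 0), (31, 0, 0, 0, 0), (30, 0, 0, 0, 0), (31, 0, 0, 0, 0), (35, 0, 0, 0, 0), (30, 0, 0, 0, 0), (35, 0, 0, 0, 0), (32, 0, 0, 0, 0), (30, 0, 0, 0, 0), (32, 0, 0, 0, 0), (33, 0, 0, 0, 0), (30, 0, 0, 0, 0), (33, 0, 0, 0, 0), (32, 0, 0, 0, 0), (31, 0, 0, 0, 0), (32, 0, 0, 0, 0), (34, 0, 0, 0, 0), (31, 0, 0, 0, 0), (34, 0, 0, 0, 0), (7, 0, 0, 0, 0), (6, 0, 0, 0, 0), (7, 0, 0, 0, 0), (39, 0, 0, 0, 0), (6, 0, 0, 0, 0), (39,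 0, 0, 0, 0), (37, 0, 0, 0, 0), (36, 0, 0, 0, 0), (37, 0, 0, 0, 0), (39, 0, 0, 0, 0), (36, 0, 0, 0, 0), (39, 0, 0, 0, 0), (38, 0, 0, 0, 0), (36, 0, 0, 0, 0), (38, 0, 0, 0, 0), (6, 0, 0, 0, 0), (36, 0, 0, 0, 0), (6, 0, 0, 0, 0), (38, 0, 0, 0, 0), (37, 0, 0, 0, 0), (38, 0, 0, 0, 0), (7, 0, 0, 0, 0), (37, 0, 0, 0, 0), (7, 0, 0, 0, 0), (44, 0, 0, 0, 0), (43, 0, 0, 0, 0), (44, 0, 0, 0, 0), (45, 0, 0, 0, 0), (43, 0, 0, 0, 0), (45, 0, 0, 0, 0), (41, 0, 0, 0, 0), (40, 0, 0, 0, 0), (41, 0, 0, 0, 0), (45, 0, 0, 0, 0), (40, 0, 0, 0, 0), (45, 0, 0, 0, 0), (42, 0, 0, 0, 0), (40, 0, 0, 0, 0), (42, 0, 0, 0, 0), (43, 0, 0, 0, 0), (40, 0, 0, 0, 0), (43, 0, 0, 0, 0), (42, 0, 0, 0, 0), (41, 0, 0, 0, 0), (42, 0, 0, 0, 0), (44, 0, 0, 0, 0), (41, 0, 0, 0, 0), (44, 0, 0, 0, 0), (26, 0, 0,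 0, 0), (25, 0, 0, 0, 0), (26, 0, 0, 0, 0), (27, 0, 0, 0, 0), (25, 0, 0, 0, 0), (27, 0, 0, 0, 0), (24, 0, 0, 0, 0), (24, 0, 0, 0, 0), (0, 0, 0, 0, 0), (27, 0, 0, 0, 0), (1, 0, 0, 0, 0), (0, 0, 0, 0, 0), (1, 0, 0, 0, 0), (25, 0, 0, 0, 0), (0, 0, 0, 0, 0), (25, 0, 0, 0, 0), (24, 0, 0, 0, 0), (1, 0, 0, 0, 0), (26, 0, 0, 0, 0), (24, 0, 0, 0, 0), (50, 0, 0, 0, 0), (49, 0, 0, 0, 0), (50, 0, 0, 0, 0), (51, 0, 0, 0, 0), (49, 0, 0, 0, 0), (51, 0, 0, 0, 0), (47, 0, 0, 0, 0), (46, 0, 0, 0, 0), (47, 0, 0, 0, 0), (51, 0, 0, 0, 0), (46, 0, 0, 0, 0), (51, 0, 0, 0, 0), (48, 0, 0, 0, 0), (46, 0, 0, 0, 0), (48, 0, 0, 0, 0), (49, 0, 0, 0, 0), (46, 0, 0, 0, 0), (49, 0, 0, 0, 0), (48, 0, 0, 0, 0), (47, 0, 0, 0, 0), (48, 0, 0, 0, 0), (50, 0, 0, 0, 0), (47, 0, 0, 0, 0), (50, 0, 0, 0, 0),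 (54, 0, 0, 0, 0), (54, 0, 0, 0, 0), (9, 0, 0, 0, 0), (55, 0, 0, 0, 0), (53, 0, 0, 0, 0), (52, 0, 0, 0, 0), (53, 0, 0, 0, 0), (55, 0, 0, 0, 0), (52, 0, 0, 0, 0), (55, 0, 0, 0, 0), (8, 0, 0, 0, 0), (52, 0, 0, 0, 0), (8, 0, 0, 0, 0), (9, 0, 0, 0, 0), (52, 0, 0, 0, 0), (9, 0, 0, 0, 0), (8, 0, 0, 0, 0), (53, 0, 0, 0, 0), (54, 0, 0, 0, 0), (54, 0, 0, 0, 0), (60, 0, 0, 0, 0), (59, 0, 0, 0, 0), (60, 0, 0, 0, 0), (61, 0, 0, 0, 0), (59, 0, 0, 0, 0), (61, 0, 0, 0, 0), (57, 0, 0, 0, 0), (56, 0, 0, 0, 0), (57, 0, 0, 0, 0), (61, 0, 0, 0, 0), (56, 0, 0, 0, 0), (61, 0, 0, 0, 0), (58, 0, 0, 0, 0), (56, 0, 0, 0, 0), (58, 0, 0, 0, 0), (59, 0, 0, 0, 0), (56, 0, 0, 0, 0), (59, 0, 0, 0, 0), (58, 0, 0, 0, 0), (57, 0, 0, 0, 0), (58, 0, 0, 0, 0), (60, 0, 0, 0, 0), (57, 0, 0, 0, 0), (60, 0,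 0, 0, 0), (64, 0, 0, 0, 0), (11, 0, 0, 0, 0), (65, 0, 0, 0, 0), (64, 0, 0, 0, 0), (62, 0, 0, 0, 0), (63, 0, 0, 0, 0), (62, 0, 0, 0, 0), (65, 0, 0, 0, 0), (63, 0, 0, 0, 0), (65, 0, 0, 0, 0), (10, 0, 0, 0, 0), (63, 0, 0, 0, 0), (64, 0, 0, 0, 0), (64, 0, 0, 0, 0), (10, 0, 0, 0, 0), (62, 0, 0, 0, 0), (10, 0, 0, 0, 0), (11, 0, 0, 0, 0), (62, 0, 0, 0, 0), (11, 0, 0, 0, 0), (4, 0, 0, 0, 0), (29, 0, 0, 0, 0), (4, 0, 0, 0, 0), (5, 0, 0, 0, 0), (29, 0, 0, 0, 0), (5, 0, 0, 0, 0), (28, 0, 0, 0, 0), (28, 0, 0, 0, 0), (2, 0, 0, 0, 0), (5, 0, 0, 0, 0), (3, 0, 0, 0, 0), (2, 0, 0, 0, 0), (3, 0, 0, 0, 0), (29, 0, 0, 0, 0), (2, 0, 0, 0, 0), (29, 0, 0, 0, 0), (28, 0, 0, 0, 0), (3, 0, 0, 0, 0), (4, 0, 0, 0, 0), (28, 0, 0, 0, 0), (50, 0, 0, 0, 0), (49, 0, 0, 0, 0), (50, 0, 0, 0, 0), (51,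 0, 0, 0, 0), (49, 0, 0, 0, 0), (51, 0, 0, 0, 0), (47, 0, 0, 0, 0), (46, 0, 0, 0, 0), (47, 0, 0, 0, 0), (51, 0, 0, 0, 0), (46, 0, 0, 0, 0), (51, 0, 0, 0, 0), (48, 0, 0, 0, 0), (46, 0, 0, 0, 0), (48, 0, 0, 0, 0), (49, 0, 0, 0, 0), (46, 0, 0, 0, 0), (49, 0, 0, 0, 0), (48, 0, 0, 0, 0), (47, 0, 0, 0, 0), (48, 0, 0, 0, 0), (50, 0, 0, 0, 0), (47, 0, 0, 0, 0), (50, 0, 0, 0, 0), (67, 0, 0, 0, 0), (67, 0, 0, 0, 0), (14, 0, 0, 0, 0), (15, 0, 0, 0, 0), (12, 0, 0, 0, 0), (66, 0, 0, 0, 0), (12, 0, 0, 0, 0), (15, 0, 0, 0, 0), (66, 0, 0, 0, 0), (15, 0, 0, 0, 0), (13, 0, 0, 0, 0), (66, 0, 0, 0, 0), (13, 0, 0, 0, 0), (14, 0, 0, 0, 0), (66, 0, 0, 0, 0), (14, 0, 0, 0, 0), (13, 0, 0, 0, 0), (12, 0, 0, 0, 0), (67, 0, 0, 0, 0), (67, 0, 0, 0, 0), (72, 0, 0, 0, 0), (71, 0, 0, 0, 0), (72, 0,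 0, 0, 0), (73, 0, 0, 0, 0), (71, 0, 0, 0, 0), (73, 0, 0, 0, 0), (69, 0, 0, 0, 0), (68, 0, 0, 0, 0), (69, 0, 0, 0, 0), (73, 0, 0, 0, 0), (68, 0, 0, 0, 0), (73, 0, 0, 0, 0), (70, 0, 0, 0, 0), (68, 0, 0, 0, 0), (70, 0, 0, 0, 0), (71, 0, 0, 0, 0), (68, 0, 0, 0, 0), (71, 0, 0, 0, 0), (70, 0, 0, 0, 0), (69, 0, 0, 0, 0), (70, 0, 0, 0, 0), (72, 0, 0, 0, 0), (69, 0, 0, 0, 0), (72, 0, 0, 0, 0), (75, 0, 0, 0, 0), (18, 0, 0, 0, 0), (19, 0, 0, 0, 0), (75, 0, 0, 0, 0), (74, 0, 0, 0, 0), (16, 0, 0, 0, 0), (74, 0, 0, 0, 0), (19, 0, 0, 0, 0), (16, 0, 0, 0, 0), (19, 0, 0, 0, 0), (17, 0, 0, 0, 0), (16, 0, 0, 0, 0), (75, 0, 0, 0, 0), (75, 0, 0, 0, 0), (17, 0, 0, 0, 0), (74, 0, 0, 0, 0), (17, 0, 0, 0, 0), (18, 0, 0, 0, 0), (74, 0, 0, 0, 0), (18, 0, 0, 0, 0), (34, 0, 0, 0, 0), (33, 0, 0,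 0, 0), (34, 0, 0, 0, 0), (35, 0, 0, 0, 0), (33, 0, 0, 0, 0), (35, 0, 0, 0, 0), (31, 0, 0, 0, 0), (30, 0, 0, 0, 0), (31, 0, 0, 0, 0), (35, 0, 0, 0, 0), (30, 0, 0, 0, 0), (35, 0, 0, 0, 0), (32, 0, 0, 0, 0), (30, 0, 0, 0, 0), (32, 0, 0, 0, 0), (33, 0, 0, 0, 0), (30, 0, 0, 0, 0), (33, 0, 0, 0, 0), (32, 0, 0, 0, 0), (31, 0, 0, 0, 0), (32, 0, 0, 0, 0), (34, 0, 0, 0, 0), (31, 0, 0, 0, 0), (34, 0, 0, 0, 0), (54, 0, 0, 0, 0), (9, 0, 0, 0, 0), (54, 0, 0, 0, 0), (55, 0, 0, 0, 0), (9, 0, 0, 0, 0), (55, 0, 0, 0, 0), (53, 0, 0, 0, 0), (52, 0, 0, 0, 0), (53, 0, 0, 0, 0), (55, 0, 0, 0, 0), (52, 0, 0, 0, 0), (55, 0, 0, 0, 0), (8, 0, 0, 0, 0), (52, 0, 0, 0, 0), (8, 0, 0, 0, 0), (9, 0, 0, 0, 0), (52, 0, 0, 0, 0), (9, 0, 0, 0, 0), (8, 0, 0, 0, 0), (53, 0, 0, 0, 0), (8, 0, 0, 0, 0), (54,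 0, 0, 0, 0), (53, 0, 0, 0, 0), (54, 0, 0, 0, 0), (67, 0, 0, 0, 0), (14, 0, 0, 0, 0), (67, 0, 0, 0, 0), (15, 0, 0, 0, 0), (14, 0, 0, 0, 0), (15, 0, 0, 0, 0), (12, 0, 0, 0, 0), (66, 0, 0, 0, 0), (12, 0, 0, 0, 0), (15, 0, 0, 0, 0), (66, 0, 0, 0, 0), (15, 0, 0, 0, 0), (13, 0, 0, 0, 0), (66, 0, 0, 0, 0), (13, 0, 0, 0, 0), (14, 0, 0, 0, 0), (66, 0, 0, 0, 0), (14, 0, 0, 0, 0), (13, 0, 0, 0, 0), (12, 0, 0, 0, 0), (13, 0, 0, 0, 0), (67, 0, 0, 0, 0), (12, 0, 0, 0, 0), (67, 0, 0, 0, 0), (79, 0, 0, 0, 0), (78, 0, 0, 0, 0), (79, 0, 0, 0, 0), (21, 0, 0, 0, 0), (78, 0, 0, 0, 0), (21, 0, 0, 0, 0), (20, 0, 0, 0, 0), (76, 0, 0, 0, 0), (20, 0, 0, 0, 0), (21, 0, 0, 0, 0), (76, 0, 0, 0, 0), (21, 0, 0, 0, 0), (77, 0, 0, 0, 0), (76, 0, 0, 0, 0), (77, 0, 0, 0, 0), (78, 0, 0, 0, 0), (76, 0,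 0, 0, 0), (78, 0, 0, 0, 0), (77, 0, 0, 0, 0), (20, 0, 0, 0, 0), (77, 0, 0, 0, 0), (79, 0, 0, 0, 0), (20, 0, 0, 0, 0), (79, 0, 0, 0, 0), (84, 0, 0, 0, 0), (83, 0, 0, 0, 0), (84, 0, 0, 0, 0), (85, 0, 0, 0, 0), (83, 0, 0, 0, 0), (85, 0, 0, 0, 0), (81, 0, 0, 0, 0), (80, 0, 0, 0, 0), (81, 0, 0, 0, 0), (85, 0, 0, 0, 0), (80, 0, 0, 0, 0), (85, 0, 0, 0, 0), (82, 0, 0, 0, 0), (80, 0, 0, 0, 0), (82, 0, 0, 0, 0), (83, 0, 0, 0, 0), (80, 0, 0, 0, 0), (83, 0, 0, 0, 0), (82, 0, 0, 0, 0), (81, 0, 0, 0, 0), (82, 0, 0, 0, 0), (84, 0, 0, 0, 0), (81, 0, 0, 0, 0), (84, 0, 0, 0, 0), (7, 0, 0, 0, 0), (6, 0, 0, 0, 0), (7, 0, 0, 0, 0), (39, 0, 0, 0, 0), (6, 0, 0, 0, 0), (39, 0, 0, 0, 0), (37, 0, 0, 0, 0), (36, 0, 0, 0, 0), (37, 0, 0, 0, 0), (39, 0, 0, 0, 0), (36, 0, 0, 0, 0), (39, 0, 0, 0,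 0), (38, 0, 0, 0, 0), (38, 0, 0, 0, 0), (36, 0, 0, 0, 0), (6, 0, 0, 0, 0), (38, 0, 0, 0, 0), (38, 0, 0, 0, 0), (37, 0, 0, 0, 0), (7, 0, 0, 0, 0), (60, 0, 0, 0, 0), (59, 0, 0, 0, 0), (60, 0, 0, 0, 0), (61, 0, 0, 0, 0), (59, 0, 0, 0, 0), (61, 0, 0, 0, 0), (57, 0, 0, 0, 0), (56, 0, 0, 0, 0), (57, 0, 0, 0, 0), (61, 0, 0, 0, 0), (56, 0, 0, 0, 0), (61, 0, 0, 0, 0), (58, 0, 0, 0, 0), (56, 0, 0, 0, 0), (58, 0, 0, 0, 0), (59, 0, 0, 0, 0), (56, 0, 0, 0, 0), (59, 0, 0, 0, 0), (58, 0, 0, 0, 0), (57, 0, 0, 0, 0), (58, 0, 0, 0, 0), (60, 0, 0, 0, 0), (57, 0, 0, 0, 0), (60, 0, 0, 0, 0), (72, 0, 0, 0, 0), (71, 0, 0, 0, 0), (72, 0, 0, 0, 0), (73, 0, 0, 0, 0), (71, 0, 0, 0, 0), (73, 0, 0, 0, 0), (69, 0, 0, 0, 0), (68, 0, 0, 0, 0), (69, 0, 0, 0, 0), (73, 0, 0, 0, 0), (68, 0, 0, 0, 0),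 (73, 0, 0, 0, 0), (70, 0, 0, 0, 0), (68, 0, 0, 0, 0), (70, 0, 0, 0, 0), (71, 0, 0, 0, 0), (68, 0, 0, 0, 0), (71, 0, 0, 0, 0), (70, 0, 0, 0, 0), (69, 0, 0, 0, 0), (70, 0, 0, 0, 0), (72, 0, 0, 0, 0), (69, 0, 0, 0, 0), (72, 0, 0, 0, 0), (79, 0, 0, 0, 0), (79, 0, 0, 0, 0), (78, 0, 0, 0, 0), (21, 0, 0, 0, 0), (20, 0, 0, 0, 0), (76, 0, 0, 0, 0), (20, 0, 0, 0, 0), (21, 0, 0, 0, 0), (76, 0, 0, 0, 0), (21, 0, 0, 0, 0), (77, 0, 0, 0, 0), (76, 0, 0, 0, 0), (77, 0, 0, 0, 0), (78, 0, 0, 0, 0), (76, 0, 0, 0, 0), (78, 0, 0, 0, 0), (77, 0, 0, 0, 0), (20, 0, 0, 0, 0), (79, 0, 0, 0, 0), (79, 0, 0, 0, 0), (89, 0, 0, 0, 0), (89, 0, 0, 0, 0), (88, 0, 0, 0, 0), (23, 0, 0, 0, 0), (22, 0, 0, 0, 0), (86, 0, 0, 0, 0), (22, 0, 0, 0, 0), (23, 0, 0, 0, 0), (86, 0, 0, 0, 0), (23, 0, 0, 0, 0), (87,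 0, 0, 0, 0), (86, 0, 0, 0, 0), (87, 0, 0, 0, 0), (88, 0, 0, 0, 0), (86, 0, 0, 0, 0), (88, 0, 0, 0, 0), (87, 0, 0, 0, 0), (22, 0, 0, 0, 0), (89, 0, 0, 0, 0), (89, 0, 0, 0, 0), (44, 0, 0, 0, 0), (43, 0, 0, 0, 0), (44, 0, 0, 0, 0), (45, 0, 0, 0, 0), (43, 0, 0, 0, 0), (45, 0, 0, 0, 0), (41, 0, 0, 0, 0), (40, 0, 0, 0, 0), (41, 0, 0, 0, 0), (45, 0, 0, 0, 0), (40, 0, 0, 0, 0), (45, 0, 0, 0, 0), (42, 0, 0, 0, 0), (40, 0, 0, 0, 0), (42, 0, 0, 0, 0), (43, 0, 0, 0, 0), (40, 0, 0, 0, 0), (43, 0, 0, 0, 0), (42, 0, 0, 0, 0), (41, 0, 0, 0, 0), (42, 0, 0, 0, 0), (44, 0, 0, 0, 0), (41, 0, 0, 0, 0), (44, 0, 0, 0, 0), (11, 0, 0, 0, 0), (64, 0, 0, 0, 0), (11, 0, 0, 0, 0), (65, 0, 0, 0, 0), (64, 0, 0, 0, 0), (65, 0, 0, 0, 0), (62, 0, 0, 0, 0), (63, 0, 0, 0, 0), (62, 0, 0, 0, 0), (65, 0,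 0, 0, 0), (63, 0, 0, 0, 0), (65, 0, 0, 0, 0), (10, 0, 0, 0, 0), (63, 0, 0, 0, 0), (10, 0, 0, 0, 0), (64, 0, 0, 0, 0), (63, 0, 0, 0, 0), (64, 0, 0, 0, 0), (10, 0, 0, 0, 0), (62, 0, 0, 0, 0), (10, 0, 0, 0, 0), (11, 0, 0, 0, 0), (62, 0, 0, 0, 0), (11, 0, 0, 0, 0), (18, 0, 0, 0, 0), (75, 0, 0, 0, 0), (18, 0, 0, 0, 0), (19, 0, 0, 0, 0), (75, 0, 0, 0, 0), (19, 0, 0, 0, 0), (74, 0, 0, 0, 0), (16, 0, 0, 0, 0), (74, 0, 0, 0, 0), (19, 0, 0, 0, 0), (16, 0, 0, 0, 0), (19, 0, 0, 0, 0), (17, 0, 0, 0, 0), (16, 0, 0, 0, 0), (17, 0, 0, 0, 0), (75, 0, 0, 0, 0), (16, 0, 0, 0, 0), (75, 0, 0, 0, 0), (17, 0, 0, 0, 0), (74, 0, 0, 0, 0), (17, 0, 0, 0, 0), (18, 0, 0, 0, 0), (74, 0, 0, 0, 0), (18, 0, 0, 0, 0), (84, 0, 0, 0, 0), (83, 0, 0, 0, 0), (84, 0, 0, 0, 0), (85, 0, 0, 0, 0), (83, 0, 0,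 0, 0), (85, 0, 0, 0, 0), (81, 0, 0, 0, 0), (80, 0, 0, 0, 0), (81, 0, 0, 0, 0), (85, 0, 0, 0, 0), (80, 0, 0, 0, 0), (85, 0, 0, 0, 0), (82, 0, 0, 0, 0), (80, 0, 0, 0, 0), (82, 0, 0, 0, 0), (83, 0, 0, 0, 0), (80, 0, 0, 0, 0), (83, 0, 0, 0, 0), (82, 0, 0, 0, 0), (81, 0, 0, 0, 0), (82, 0, 0, 0, 0), (84, 0, 0, 0, 0), (81, 0, 0, 0, 0), (84, 0, 0, 0, 0), (89, 0, 0, 0, 0), (88, 0, 0, 0, 0), (89, 0, 0, 0, 0), (23, 0, 0, 0, 0), (88, 0, 0, 0, 0), (23, 0, 0, 0, 0), (22, 0, 0, 0, 0), (86, 0, 0, 0, 0), (22, 0, 0, 0, 0), (23, 0, 0, 0, 0), (86, 0, 0, 0, 0), (23, 0, 0, 0, 0), (87, 0, 0, 0, 0), (86, 0, 0, 0, 0), (87, 0, 0, 0, 0), (88, 0, 0, 0, 0), (86, 0, 0, 0, 0), (88, 0, 0, 0, 0), (87, 0, 0, 0, 0), (22, 0, 0, 0, 0), (87, 0, 0, 0, 0), (89, 0, 0, 0, 0), (22, 0, 0, 0, 0), (89, 0, 0, 0,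 0)],
  [(21, 0, 0, 0, 0), (85, 0, 0, 0, 0), (21, 0, 0, 0, 0), (23, 0, 0, 0, 0), (85, 0, 0, 0, 0), (23, 0, 0, 0, 0), (73, 0, 0, 0, 0), (19, 0, 0, 0, 0), (73, 0, 0, 0, 0), (23, 0, 0, 0, 0), (19, 0, 0, 0, 0), (23, 0, 0, 0, 0), (15, 0, 0, 0, 0), (19, 0, 0, 0, 0), (15, 0, 0, 0, 0), (85, 0, 0, 0, 0), (19, 0, 0, 0, 0), (85, 0, 0, 0, 0), (15, 0, 0, 0, 0), (73, 0, 0, 0, 0), (15, 0, 0, 0, 0), (21, 0, 0, 0, 0), (73, 0, 0, 0, 0), (21, 0, 0, 0, 0), (78, 0, 0, 0, 0), (83, 0, 0, 0, 0), (78, 0, 0, 0, 0), (88, 0, 0, 0, 0), (83, 0, 0, 0, 0), (88, 0, 0, 0, 0), (61, 0, 0, 0, 0), (65, 0, 0, 0, 0), (61, 0, 0, 0, 0), (88, 0, 0, 0, 0), (65, 0, 0, 0, 0), (88, 0, 0, 0, 0), (55, 0, 0, 0, 0), (65, 0, 0, 0, 0), (55, 0, 0, 0, 0), (83, 0, 0, 0, 0), (65, 0, 0, 0, 0), (83, 0, 0, 0, 0), (55, 0, 0,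 0, 0), (61, 0, 0, 0, 0), (55, 0, 0, 0, 0), (78, 0, 0, 0, 0), (61, 0, 0, 0, 0), (78, 0, 0, 0, 0), (71, 0, 0, 0, 0), (75, 0, 0, 0, 0), (71, 0, 0, 0, 0), (89, 0, 0, 0, 0), (75, 0, 0, 0, 0), (89, 0, 0, 0, 0), (59, 0, 0, 0, 0), (64, 0, 0, 0, 0), (59, 0, 0, 0, 0), (89, 0, 0, 0, 0), (64, 0, 0, 0, 0), (89, 0, 0, 0, 0), (51, 0, 0, 0, 0), (64, 0, 0, 0, 0), (51, 0, 0, 0, 0), (75, 0, 0, 0, 0), (64, 0, 0, 0, 0), (75, 0, 0, 0, 0), (51, 0, 0, 0, 0), (59, 0, 0, 0, 0), (51, 0, 0, 0, 0), (71, 0, 0, 0, 0), (59, 0, 0, 0, 0), (71, 0, 0, 0, 0), (14, 0, 0, 0, 0), (18, 0, 0, 0, 0), (14, 0, 0, 0, 0), (84, 0, 0, 0, 0), (18, 0, 0, 0, 0), (84, 0, 0, 0, 0), (9, 0, 0, 0, 0), (11, 0, 0, 0, 0), (9, 0, 0, 0, 0), (84, 0, 0, 0, 0), (11, 0, 0, 0, 0), (84, 0, 0, 0, 0), (49, 0, 0, 0, 0), (11, 0, 0, 0,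 0), (49, 0, 0, 0, 0), (18, 0, 0, 0, 0), (11, 0, 0, 0, 0), (18, 0, 0, 0, 0), (49, 0, 0, 0, 0), (9, 0, 0, 0, 0), (49, 0, 0, 0, 0), (14, 0, 0, 0, 0), (9, 0, 0, 0, 0), (14, 0, 0, 0, 0), (67, 0, 0, 0, 0), (72, 0, 0, 0, 0), (67, 0, 0, 0, 0), (79, 0, 0, 0, 0), (72, 0, 0, 0, 0), (79, 0, 0, 0, 0), (54, 0, 0, 0, 0), (60, 0, 0, 0, 0), (54, 0, 0, 0, 0), (79, 0, 0, 0, 0), (60, 0, 0, 0, 0), (79, 0, 0, 0, 0), (50, 0, 0, 0, 0), (60, 0, 0, 0, 0), (50, 0, 0, 0, 0), (72, 0, 0, 0, 0), (60, 0, 0, 0, 0), (72, 0, 0, 0, 0), (50, 0, 0, 0, 0), (54, 0, 0, 0, 0), (50, 0, 0, 0, 0), (67, 0, 0, 0, 0), (54, 0, 0, 0, 0), (67, 0, 0, 0, 0), (21, 0, 0, 0, 0), (85, 0, 0, 0, 0), (21, 0, 0, 0, 0), (23, 0, 0, 0, 0), (85, 0, 0, 0, 0), (23, 0, 0, 0, 0), (73, 0, 0, 0, 0), (73, 0, 0, 0, 0), (19, 0, 0, 0, 0),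 (23, 0, 0, 0, 0), (15, 0, 0, 0, 0), (19, 0, 0, 0, 0), (15, 0, 0, 0, 0), (85, 0, 0, 0, 0), (19, 0, 0, 0, 0), (85, 0, 0, 0, 0), (73, 0, 0, 0, 0), (15, 0, 0, 0, 0), (21, 0, 0, 0, 0), (73, 0, 0, 0, 0), (76, 0, 0, 0, 0), (80, 0, 0, 0, 0), (76, 0, 0, 0, 0), (86, 0, 0, 0, 0), (80, 0, 0, 0, 0), (86, 0, 0, 0, 0), (39, 0, 0, 0, 0), (45, 0, 0, 0, 0), (39, 0, 0, 0, 0), (86, 0, 0, 0, 0), (45, 0, 0, 0, 0), (86, 0, 0, 0, 0), (35, 0, 0, 0, 0), (45, 0, 0, 0, 0), (35, 0, 0, 0, 0), (80, 0, 0, 0, 0), (45, 0, 0, 0, 0), (80, 0, 0, 0, 0), (35, 0, 0, 0, 0), (39, 0, 0, 0, 0), (35, 0, 0, 0, 0), (76, 0, 0, 0, 0), (39, 0, 0, 0, 0), (76, 0, 0, 0, 0), (68, 0, 0, 0, 0), (68, 0, 0, 0, 0), (16, 0, 0, 0, 0), (22, 0, 0, 0, 0), (6, 0, 0, 0, 0), (43, 0, 0, 0, 0), (6, 0, 0, 0, 0), (22, 0, 0, 0, 0), (43,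 0, 0, 0, 0), (22, 0, 0, 0, 0), (5, 0, 0, 0, 0), (43, 0, 0, 0, 0), (5, 0, 0, 0, 0), (16, 0, 0, 0, 0), (43, 0, 0, 0, 0), (16, 0, 0, 0, 0), (5, 0, 0, 0, 0), (6, 0, 0, 0, 0), (68, 0, 0, 0, 0), (68, 0, 0, 0, 0), (66, 0, 0, 0, 0), (74, 0, 0, 0, 0), (66, 0, 0, 0, 0), (81, 0, 0, 0, 0), (74, 0, 0, 0, 0), (81, 0, 0, 0, 0), (33, 0, 0, 0, 0), (44, 0, 0, 0, 0), (33, 0, 0, 0, 0), (81, 0, 0, 0, 0), (44, 0, 0, 0, 0), (81, 0, 0, 0, 0), (29, 0, 0, 0, 0), (44, 0, 0, 0, 0), (29, 0, 0, 0, 0), (74, 0, 0, 0, 0), (44, 0, 0, 0, 0), (74, 0, 0, 0, 0), (29, 0, 0, 0, 0), (33, 0, 0, 0, 0), (29, 0, 0, 0, 0), (66, 0, 0, 0, 0), (33, 0, 0, 0, 0), (66, 0, 0, 0, 0), (69, 0, 0, 0, 0), (12, 0, 0, 0, 0), (20, 0, 0, 0, 0), (69, 0, 0, 0, 0), (34, 0, 0, 0, 0), (7, 0, 0, 0, 0), (34, 0, 0, 0, 0), (20, 0, 0,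 0, 0), (7, 0, 0, 0, 0), (20, 0, 0, 0, 0), (4, 0, 0, 0, 0), (7, 0, 0, 0, 0), (69, 0, 0, 0, 0), (69, 0, 0, 0, 0), (4, 0, 0, 0, 0), (34, 0, 0, 0, 0), (4, 0, 0, 0, 0), (12, 0, 0, 0, 0), (34, 0, 0, 0, 0), (12, 0, 0, 0, 0), (78, 0, 0, 0, 0), (83, 0, 0, 0, 0), (78, 0, 0, 0, 0), (88, 0, 0, 0, 0), (83, 0, 0, 0, 0), (88, 0, 0, 0, 0), (61, 0, 0, 0, 0), (61, 0, 0, 0, 0), (65, 0, 0, 0, 0), (88, 0, 0, 0, 0), (55, 0, 0, 0, 0), (65, 0, 0, 0, 0), (55, 0, 0, 0, 0), (83, 0, 0, 0, 0), (65, 0, 0, 0, 0), (83, 0, 0, 0, 0), (61, 0, 0, 0, 0), (55, 0, 0, 0, 0), (78, 0, 0, 0, 0), (61, 0, 0, 0, 0), (76, 0, 0, 0, 0), (80, 0, 0, 0, 0), (76, 0, 0, 0, 0), (86, 0, 0, 0, 0), (80, 0, 0, 0, 0), (86, 0, 0, 0, 0), (39, 0, 0, 0, 0), (45, 0, 0, 0, 0), (39, 0, 0, 0, 0), (86, 0, 0, 0, 0), (45, 0, 0, 0, 0),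 (86, 0, 0, 0, 0), (35, 0, 0, 0, 0), (45, 0, 0, 0, 0), (35, 0, 0, 0, 0), (80, 0, 0, 0, 0), (45, 0, 0, 0, 0), (80, 0, 0, 0, 0), (35, 0, 0, 0, 0), (39, 0, 0, 0, 0), (35, 0, 0, 0, 0), (76, 0, 0, 0, 0), (39, 0, 0, 0, 0), (76, 0, 0, 0, 0), (56, 0, 0, 0, 0), (56, 0, 0, 0, 0), (63, 0, 0, 0, 0), (87, 0, 0, 0, 0), (36, 0, 0, 0, 0), (40, 0, 0, 0, 0), (36, 0, 0, 0, 0), (87, 0, 0, 0, 0), (40, 0, 0, 0, 0), (87, 0, 0, 0, 0), (27, 0, 0, 0, 0), (40, 0, 0, 0, 0), (27, 0, 0, 0, 0), (63, 0, 0, 0, 0), (40, 0, 0, 0, 0), (63, 0, 0, 0, 0), (27, 0, 0, 0, 0), (36, 0, 0, 0, 0), (56, 0, 0, 0, 0), (56, 0, 0, 0, 0), (52, 0, 0, 0, 0), (62, 0, 0, 0, 0), (52, 0, 0, 0, 0), (82, 0, 0, 0, 0), (62, 0, 0, 0, 0), (82, 0, 0, 0, 0), (30, 0, 0, 0, 0), (41, 0, 0, 0, 0), (30, 0, 0, 0, 0), (82, 0, 0, 0, 0), (41,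 0, 0, 0, 0), (82, 0, 0, 0, 0), (25, 0, 0, 0, 0), (41, 0, 0, 0, 0), (25, 0, 0, 0, 0), (62, 0, 0, 0, 0), (41, 0, 0, 0, 0), (62, 0, 0, 0, 0), (25, 0, 0, 0, 0), (30, 0, 0, 0, 0), (25, 0, 0, 0, 0), (52, 0, 0, 0, 0), (30, 0, 0, 0, 0), (52, 0, 0, 0, 0), (57, 0, 0, 0, 0), (53, 0, 0, 0, 0), (77, 0, 0, 0, 0), (57, 0, 0, 0, 0), (31, 0, 0, 0, 0), (37, 0, 0, 0, 0), (31, 0, 0, 0, 0), (77, 0, 0, 0, 0), (37, 0, 0, 0, 0), (77, 0, 0, 0, 0), (26, 0, 0, 0, 0), (37, 0, 0, 0, 0), (57, 0, 0, 0, 0), (57, 0, 0, 0, 0), (26, 0, 0, 0, 0), (31, 0, 0, 0, 0), (26, 0, 0, 0, 0), (53, 0, 0, 0, 0), (31, 0, 0, 0, 0), (53, 0, 0, 0, 0), (71, 0, 0, 0, 0), (75, 0, 0, 0, 0), (71, 0, 0, 0, 0), (89, 0, 0, 0, 0), (75, 0, 0, 0, 0), (89, 0, 0, 0, 0), (59, 0, 0, 0, 0), (64, 0, 0, 0, 0), (59, 0, 0, 0, 0), (89, 0,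 0, 0, 0), (64, 0, 0, 0, 0), (89, 0, 0, 0, 0), (51, 0, 0, 0, 0), (64, 0, 0, 0, 0), (51, 0, 0, 0, 0), (75, 0, 0, 0, 0), (64, 0, 0, 0, 0), (75, 0, 0, 0, 0), (51, 0, 0, 0, 0), (59, 0, 0, 0, 0), (51, 0, 0, 0, 0), (71, 0, 0, 0, 0), (59, 0, 0, 0, 0), (71, 0, 0, 0, 0), (68, 0, 0, 0, 0), (16, 0, 0, 0, 0), (68, 0, 0, 0, 0), (22, 0, 0, 0, 0), (16, 0, 0, 0, 0), (22, 0, 0, 0, 0), (6, 0, 0, 0, 0), (43, 0, 0, 0, 0), (6, 0, 0, 0, 0), (22, 0, 0, 0, 0), (43, 0, 0, 0, 0), (22, 0, 0, 0, 0), (5, 0, 0, 0, 0), (43, 0, 0, 0, 0), (5, 0, 0, 0, 0), (16, 0, 0, 0, 0), (43, 0, 0, 0, 0), (16, 0, 0, 0, 0), (5, 0, 0, 0, 0), (6, 0, 0, 0, 0), (5, 0, 0, 0, 0), (68, 0, 0, 0, 0), (6, 0, 0, 0, 0), (68, 0, 0, 0, 0), (56, 0, 0, 0, 0), (63, 0, 0, 0, 0), (56, 0, 0, 0, 0), (87, 0, 0, 0, 0), (63, 0, 0, 0, 0),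 (87, 0, 0, 0, 0), (36, 0, 0, 0, 0), (40, 0, 0, 0, 0), (36, 0, 0, 0, 0), (87, 0, 0, 0, 0), (40, 0, 0, 0, 0), (87, 0, 0, 0, 0), (27, 0, 0, 0, 0), (40, 0, 0, 0, 0), (27, 0, 0, 0, 0), (63, 0, 0, 0, 0), (40, 0, 0, 0, 0), (63, 0, 0, 0, 0), (27, 0, 0, 0, 0), (36, 0, 0, 0, 0), (27, 0, 0, 0, 0), (56, 0, 0, 0, 0), (36, 0, 0, 0, 0), (56, 0, 0, 0, 0), (46, 0, 0, 0, 0), (10, 0, 0, 0, 0), (46, 0, 0, 0, 0), (17, 0, 0, 0, 0), (10, 0, 0, 0, 0), (17, 0, 0, 0, 0), (2, 0, 0, 0, 0), (42, 0, 0, 0, 0), (2, 0, 0, 0, 0), (17, 0, 0, 0, 0), (42, 0, 0, 0, 0), (17, 0, 0, 0, 0), (0, 0, 0, 0, 0), (42, 0, 0, 0, 0), (0, 0, 0, 0, 0), (10, 0, 0, 0, 0), (42, 0, 0, 0, 0), (10, 0, 0, 0, 0), (0, 0, 0, 0, 0), (2, 0, 0, 0, 0), (0, 0, 0, 0, 0), (46, 0, 0, 0, 0), (2, 0, 0, 0, 0), (46, 0, 0, 0, 0), (47, 0, 0,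 0, 0), (58, 0, 0, 0, 0), (47, 0, 0, 0, 0), (70, 0, 0, 0, 0), (58, 0, 0, 0, 0), (70, 0, 0, 0, 0), (28, 0, 0, 0, 0), (38, 0, 0, 0, 0), (28, 0, 0, 0, 0), (70, 0, 0, 0, 0), (38, 0, 0, 0, 0), (70, 0, 0, 0, 0), (24, 0, 0, 0, 0), (38, 0, 0, 0, 0), (24, 0, 0, 0, 0), (58, 0, 0, 0, 0), (38, 0, 0, 0, 0), (58, 0, 0, 0, 0), (24, 0, 0, 0, 0), (28, 0, 0, 0, 0), (24, 0, 0, 0, 0), (47, 0, 0, 0, 0), (28, 0, 0, 0, 0), (47, 0, 0, 0, 0), (14, 0, 0, 0, 0), (18, 0, 0, 0, 0), (14, 0, 0, 0, 0), (84, 0, 0, 0, 0), (18, 0, 0, 0, 0), (84, 0, 0, 0, 0), (9, 0, 0, 0, 0), (11, 0, 0, 0, 0), (9, 0, 0, 0, 0), (84, 0, 0, 0, 0), (11, 0, 0, 0, 0), (84, 0, 0, 0, 0), (49, 0, 0, 0, 0), (49, 0, 0, 0, 0), (11, 0, 0, 0, 0), (18, 0, 0, 0, 0), (49, 0, 0, 0, 0), (49, 0, 0, 0, 0), (9, 0, 0, 0, 0), (14, 0, 0, 0, 0),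 (66, 0, 0, 0, 0), (74, 0, 0, 0, 0), (66, 0, 0, 0, 0), (81, 0, 0, 0, 0), (74, 0, 0, 0, 0), (81, 0, 0, 0, 0), (33, 0, 0, 0, 0), (44, 0, 0, 0, 0), (33, 0, 0, 0, 0), (81, 0, 0, 0, 0), (44, 0, 0, 0, 0), (81, 0, 0, 0, 0), (29, 0, 0, 0, 0), (44, 0, 0, 0, 0), (29, 0, 0, 0, 0), (74, 0, 0, 0, 0), (44, 0, 0, 0, 0), (74, 0, 0, 0, 0), (29, 0, 0, 0, 0), (33, 0, 0, 0, 0), (29, 0, 0, 0, 0), (66, 0, 0, 0, 0), (33, 0, 0, 0, 0), (66, 0, 0, 0, 0), (52, 0, 0, 0, 0), (62, 0, 0, 0, 0), (52, 0, 0, 0, 0), (82, 0, 0, 0, 0), (62, 0, 0, 0, 0), (82, 0, 0, 0, 0), (30, 0, 0, 0, 0), (41, 0, 0, 0, 0), (30, 0, 0, 0, 0), (82, 0, 0, 0, 0), (41, 0, 0, 0, 0), (82, 0, 0, 0, 0), (25, 0, 0, 0, 0), (41, 0, 0, 0, 0), (25, 0, 0, 0, 0), (62, 0, 0, 0, 0), (41, 0, 0, 0, 0), (62, 0, 0, 0, 0), (25, 0, 0, 0, 0), (30,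 0, 0, 0, 0), (25, 0, 0, 0, 0), (52, 0, 0, 0, 0), (30, 0, 0, 0, 0), (52, 0, 0, 0, 0), (46, 0, 0, 0, 0), (46, 0, 0, 0, 0), (10, 0, 0, 0, 0), (17, 0, 0, 0, 0), (2, 0, 0, 0, 0), (42, 0, 0, 0, 0), (2, 0, 0, 0, 0), (17, 0, 0, 0, 0), (42, 0, 0, 0, 0), (17, 0, 0, 0, 0), (0, 0, 0, 0, 0), (42, 0, 0, 0, 0), (0, 0, 0, 0, 0), (10, 0, 0, 0, 0), (42, 0, 0, 0, 0), (10, 0, 0, 0, 0), (0, 0, 0, 0, 0), (2, 0, 0, 0, 0), (46, 0, 0, 0, 0), (46, 0, 0, 0, 0), (48, 0, 0, 0, 0), (48, 0, 0, 0, 0), (8, 0, 0, 0, 0), (13, 0, 0, 0, 0), (3, 0, 0, 0, 0), (32, 0, 0, 0, 0), (3, 0, 0, 0, 0), (13, 0, 0, 0, 0), (32, 0, 0, 0, 0), (13, 0, 0, 0, 0), (1, 0, 0, 0, 0), (32, 0, 0, 0, 0), (1, 0, 0, 0, 0), (8, 0, 0, 0, 0), (32, 0, 0, 0, 0), (8, 0, 0, 0, 0), (1, 0, 0, 0, 0), (3, 0, 0, 0, 0), (48, 0, 0, 0, 0), (48,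 0, 0, 0, 0), (67, 0, 0, 0, 0), (72, 0, 0, 0, 0), (67, 0, 0, 0, 0), (79, 0, 0, 0, 0), (72, 0, 0, 0, 0), (79, 0, 0, 0, 0), (54, 0, 0, 0, 0), (60, 0, 0, 0, 0), (54, 0, 0, 0, 0), (79, 0, 0, 0, 0), (60, 0, 0, 0, 0), (79, 0, 0, 0, 0), (50, 0, 0, 0, 0), (60, 0, 0, 0, 0), (50, 0, 0, 0, 0), (72, 0, 0, 0, 0), (60, 0, 0, 0, 0), (72, 0, 0, 0, 0), (50, 0, 0, 0, 0), (54, 0, 0, 0, 0), (50, 0, 0, 0, 0), (67, 0, 0, 0, 0), (54, 0, 0, 0, 0), (67, 0, 0, 0, 0), (12, 0, 0, 0, 0), (69, 0, 0, 0, 0), (12, 0, 0, 0, 0), (20, 0, 0, 0, 0), (69, 0, 0, 0, 0), (20, 0, 0, 0, 0), (34, 0, 0, 0, 0), (7, 0, 0, 0, 0), (34, 0, 0, 0, 0), (20, 0, 0, 0, 0), (7, 0, 0, 0, 0), (20, 0, 0, 0, 0), (4, 0, 0, 0, 0), (7, 0, 0, 0, 0), (4, 0, 0, 0, 0), (69, 0, 0, 0, 0), (7, 0, 0, 0, 0), (69, 0, 0, 0, 0), (4, 0, 0, 0,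 0), (34, 0, 0, 0, 0), (4, 0, 0, 0, 0), (12, 0, 0, 0, 0), (34, 0, 0, 0, 0), (12, 0, 0, 0, 0), (53, 0, 0, 0, 0), (57, 0, 0, 0, 0), (53, 0, 0, 0, 0), (77, 0, 0, 0, 0), (57, 0, 0, 0, 0), (77, 0, 0, 0, 0), (31, 0, 0, 0, 0), (37, 0, 0, 0, 0), (31, 0, 0, 0, 0), (77, 0, 0, 0, 0), (37, 0, 0, 0, 0), (77, 0, 0, 0, 0), (26, 0, 0, 0, 0), (37, 0, 0, 0, 0), (26, 0, 0, 0, 0), (57, 0, 0, 0, 0), (37, 0, 0, 0, 0), (57, 0, 0, 0, 0), (26, 0, 0, 0, 0), (31, 0, 0, 0, 0), (26, 0, 0, 0, 0), (53, 0, 0, 0, 0), (31, 0, 0, 0, 0), (53, 0, 0, 0, 0), (47, 0, 0, 0, 0), (58, 0, 0, 0, 0), (47, 0, 0, 0, 0), (70, 0, 0, 0, 0), (58, 0, 0, 0, 0), (70, 0, 0, 0, 0), (28, 0, 0, 0, 0), (38, 0, 0, 0, 0), (28, 0, 0, 0, 0), (70, 0, 0, 0, 0), (38, 0, 0, 0, 0), (70, 0, 0, 0, 0), (24, 0, 0, 0, 0), (38, 0, 0, 0, 0),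 (24, 0, 0, 0, 0), (58, 0, 0, 0, 0), (38, 0, 0, 0, 0), (58, 0, 0, 0, 0), (24, 0, 0, 0, 0), (28, 0, 0, 0, 0), (24, 0, 0, 0, 0), (47, 0, 0, 0, 0), (28, 0, 0, 0, 0), (47, 0, 0, 0, 0), (48, 0, 0, 0, 0), (8, 0, 0, 0, 0), (48, 0, 0, 0, 0), (13, 0, 0, 0, 0), (8, 0, 0, 0, 0), (13, 0, 0, 0, 0), (3, 0, 0, 0, 0), (32, 0, 0, 0, 0), (3, 0, 0, 0, 0), (13, 0, 0, 0, 0), (32, 0, 0, 0, 0), (13, 0, 0, 0, 0), (1, 0, 0, 0, 0), (32, 0, 0, 0, 0), (1, 0, 0, 0, 0), (8, 0, 0, 0, 0), (32, 0, 0, 0, 0), (8, 0, 0, 0, 0), (1, 0, 0, 0, 0), (3, 0, 0, 0, 0), (1, 0, 0, 0, 0), (48, 0, 0, 0, 0), (3, 0, 0, 0, 0), (48, 0, 0, 0, 0)],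
  [(19, 0, 0, 0, 0), (73, 0, 0, 0, 0), (19, 0, 0, 0, 0), (15, 0, 0, 0, 0), (73, 0, 0, 0, 0), (15, 0, 0, 0, 0), (85, 0, 0, 0, 0), (21, 0, 0, 0, 0), (85, 0, 0, 0, 0), (15, 0, 0, 0, 0), (21, 0, 0, 0, 0), (15, 0, 0, 0, 0), (23, 0, 0, 0, 0), (21, 0, 0, 0, 0), (23, 0, 0, 0, 0), (73, 0, 0, 0, 0), (21, 0, 0, 0, 0), (73, 0, 0, 0, 0), (23, 0, 0, 0, 0), (85, 0, 0, 0, 0), (23, 0, 0, 0, 0), (19, 0, 0, 0, 0), (85, 0, 0, 0, 0), (19, 0, 0, 0, 0), (65, 0, 0, 0, 0), (61, 0, 0, 0, 0), (65, 0, 0, 0, 0), (55, 0, 0, 0, 0), (61, 0, 0, 0, 0), (55, 0, 0, 0, 0), (83, 0, 0, 0, 0), (78, 0, 0, 0, 0), (83, 0, 0, 0, 0), (55, 0, 0, 0, 0), (78, 0, 0, 0, 0), (55, 0, 0, 0, 0), (88, 0, 0, 0, 0), (78, 0, 0, 0, 0), (88, 0, 0, 0, 0), (61, 0, 0, 0, 0), (78, 0, 0, 0, 0), (61, 0, 0, 0, 0), (88, 0, 0, 0, 0),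 (83, 0, 0, 0, 0), (88, 0, 0, 0, 0), (65, 0, 0, 0, 0), (83, 0, 0, 0, 0), (65, 0, 0, 0, 0), (64, 0, 0, 0, 0), (59, 0, 0, 0, 0), (64, 0, 0, 0, 0), (51, 0, 0, 0, 0), (59, 0, 0, 0, 0), (51, 0, 0, 0, 0), (75, 0, 0, 0, 0), (71, 0, 0, 0, 0), (75, 0, 0, 0, 0), (51, 0, 0, 0, 0), (71, 0, 0, 0, 0), (51, 0, 0, 0, 0), (89, 0, 0, 0, 0), (71, 0, 0, 0, 0), (89, 0, 0, 0, 0), (59, 0, 0, 0, 0), (71, 0, 0, 0, 0), (59, 0, 0, 0, 0), (89, 0, 0, 0, 0), (75, 0, 0, 0, 0), (89, 0, 0, 0, 0), (64, 0, 0, 0, 0), (75, 0, 0, 0, 0), (64, 0, 0, 0, 0), (11, 0, 0, 0, 0), (9, 0, 0, 0, 0), (11, 0, 0, 0, 0), (49, 0, 0, 0, 0), (9, 0, 0, 0, 0), (49, 0, 0, 0, 0), (18, 0, 0, 0, 0), (14, 0, 0, 0, 0), (18, 0, 0, 0, 0), (49, 0, 0, 0, 0), (14, 0, 0, 0, 0), (49, 0, 0, 0, 0), (84, 0, 0, 0, 0), (14, 0, 0, 0, 0), (84,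 0, 0, 0, 0), (9, 0, 0, 0, 0), (14, 0, 0, 0, 0), (9, 0, 0, 0, 0), (84, 0, 0, 0, 0), (18, 0, 0, 0, 0), (84, 0, 0, 0, 0), (11, 0, 0, 0, 0), (18, 0, 0, 0, 0), (11, 0, 0, 0, 0), (60, 0, 0, 0, 0), (54, 0, 0, 0, 0), (60, 0, 0, 0, 0), (50, 0, 0, 0, 0), (54, 0, 0, 0, 0), (50, 0, 0, 0, 0), (72, 0, 0, 0, 0), (67, 0, 0, 0, 0), (72, 0, 0, 0, 0), (50, 0, 0, 0, 0), (67, 0, 0, 0, 0), (50, 0, 0, 0, 0), (79, 0, 0, 0, 0), (67, 0, 0, 0, 0), (79, 0, 0, 0, 0), (54, 0, 0, 0, 0), (67, 0, 0, 0, 0), (54, 0, 0, 0, 0), (79, 0, 0, 0, 0), (72, 0, 0, 0, 0), (79, 0, 0, 0, 0), (60, 0, 0, 0, 0), (72, 0, 0, 0, 0), (60, 0, 0, 0, 0), (19, 0, 0, 0, 0), (73, 0, 0, 0, 0), (19, 0, 0, 0, 0), (15, 0, 0, 0, 0), (73, 0, 0, 0, 0), (15, 0, 0, 0, 0), (85, 0, 0, 0, 0), (85, 0, 0, 0, 0), (21, 0, 0, 0, 0), (15, 0,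 0, 0, 0), (23, 0, 0, 0, 0), (21, 0, 0, 0, 0), (23, 0, 0, 0, 0), (73, 0, 0, 0, 0), (21, 0, 0, 0, 0), (73, 0, 0, 0, 0), (85, 0, 0, 0, 0), (23, 0, 0, 0, 0), (19, 0, 0, 0, 0), (85, 0, 0, 0, 0), (45, 0, 0, 0, 0), (39, 0, 0, 0, 0), (45, 0, 0, 0, 0), (35, 0, 0, 0, 0), (39, 0, 0, 0, 0), (35, 0, 0, 0, 0), (80, 0, 0, 0, 0), (76, 0, 0, 0, 0), (80, 0, 0, 0, 0), (35, 0, 0, 0, 0), (76, 0, 0, 0, 0), (35, 0, 0, 0, 0), (86, 0, 0, 0, 0), (76, 0, 0, 0, 0), (86, 0, 0, 0, 0), (39, 0, 0, 0, 0), (76, 0, 0, 0, 0), (39, 0, 0, 0, 0), (86, 0, 0, 0, 0), (80, 0, 0, 0, 0), (86, 0, 0, 0, 0), (45, 0, 0, 0, 0), (80, 0, 0, 0, 0), (45, 0, 0, 0, 0), (43, 0, 0, 0, 0), (43, 0, 0, 0, 0), (6, 0, 0, 0, 0), (5, 0, 0, 0, 0), (16, 0, 0, 0, 0), (68, 0, 0, 0, 0), (16, 0, 0, 0, 0), (5, 0, 0, 0, 0), (68, 0, 0, 0,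 0), (5, 0, 0, 0, 0), (22, 0, 0, 0, 0), (68, 0, 0, 0, 0), (22, 0, 0, 0, 0), (6, 0, 0, 0, 0), (68, 0, 0, 0, 0), (6, 0, 0, 0, 0), (22, 0, 0, 0, 0), (16, 0, 0, 0, 0), (43, 0, 0, 0, 0), (43, 0, 0, 0, 0), (44, 0, 0, 0, 0), (33, 0, 0, 0, 0), (44, 0, 0, 0, 0), (29, 0, 0, 0, 0), (33, 0, 0, 0, 0), (29, 0, 0, 0, 0), (74, 0, 0, 0, 0), (66, 0, 0, 0, 0), (74, 0, 0, 0, 0), (29, 0, 0, 0, 0), (66, 0, 0, 0, 0), (29, 0, 0, 0, 0), (81, 0, 0, 0, 0), (66, 0, 0, 0, 0), (81, 0, 0, 0, 0), (33, 0, 0, 0, 0), (66, 0, 0, 0, 0), (33, 0, 0, 0, 0), (81, 0, 0, 0, 0), (74, 0, 0, 0, 0), (81, 0, 0, 0, 0), (44, 0, 0, 0, 0), (74, 0, 0, 0, 0), (44, 0, 0, 0, 0), (34, 0, 0, 0, 0), (7, 0, 0, 0, 0), (4, 0, 0, 0, 0), (34, 0, 0, 0, 0), (69, 0, 0, 0, 0), (12, 0, 0, 0, 0), (69, 0, 0, 0, 0), (4, 0, 0, 0, 0), (12,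 0, 0, 0, 0), (4, 0, 0, 0, 0), (20, 0, 0, 0, 0), (12, 0, 0, 0, 0), (34, 0, 0, 0, 0), (34, 0, 0, 0, 0), (20, 0, 0, 0, 0), (69, 0, 0, 0, 0), (20, 0, 0, 0, 0), (7, 0, 0, 0, 0), (69, 0, 0, 0, 0), (7, 0, 0, 0, 0), (65, 0, 0, 0, 0), (61, 0, 0, 0, 0), (65, 0, 0, 0, 0), (55, 0, 0, 0, 0), (61, 0, 0, 0, 0), (55, 0, 0, 0, 0), (83, 0, 0, 0, 0), (83, 0, 0, 0, 0), (78, 0, 0, 0, 0), (55, 0, 0, 0, 0), (88, 0, 0, 0, 0), (78, 0, 0, 0, 0), (88, 0, 0, 0, 0), (61, 0, 0, 0, 0), (78, 0, 0, 0, 0), (61, 0, 0, 0, 0), (83, 0, 0, 0, 0), (88, 0, 0, 0, 0), (65, 0, 0, 0, 0), (83, 0, 0, 0, 0), (45, 0, 0, 0, 0), (39, 0, 0, 0, 0), (45, 0, 0, 0, 0), (35, 0, 0, 0, 0), (39, 0, 0, 0, 0), (35, 0, 0, 0, 0), (80, 0, 0, 0, 0), (76, 0, 0, 0, 0), (80, 0, 0, 0, 0), (35, 0, 0, 0, 0), (76, 0, 0, 0, 0), (35, 0, 0,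 0, 0), (86, 0, 0, 0, 0), (76, 0, 0, 0, 0), (86, 0, 0, 0, 0), (39, 0, 0, 0, 0), (76, 0, 0, 0, 0), (39, 0, 0, 0, 0), (86, 0, 0, 0, 0), (80, 0, 0, 0, 0), (86, 0, 0, 0, 0), (45, 0, 0, 0, 0), (80, 0, 0, 0, 0), (45, 0, 0, 0, 0), (40, 0, 0, 0, 0), (40, 0, 0, 0, 0), (36, 0, 0, 0, 0), (27, 0, 0, 0, 0), (63, 0, 0, 0, 0), (56, 0, 0, 0, 0), (63, 0, 0, 0, 0), (27, 0, 0, 0, 0), (56, 0, 0, 0, 0), (27, 0, 0, 0, 0), (87, 0, 0, 0, 0), (56, 0, 0, 0, 0), (87, 0, 0, 0, 0), (36, 0, 0, 0, 0), (56, 0, 0, 0, 0), (36, 0, 0, 0, 0), (87, 0, 0, 0, 0), (63, 0, 0, 0, 0), (40, 0, 0, 0, 0), (40, 0, 0, 0, 0), (41, 0, 0, 0, 0), (30, 0, 0, 0, 0), (41, 0, 0, 0, 0), (25, 0, 0, 0, 0), (30, 0, 0, 0, 0), (25, 0, 0, 0, 0), (62, 0, 0, 0, 0), (52, 0, 0, 0, 0), (62, 0, 0, 0, 0), (25, 0, 0, 0, 0), (52, 0, 0, 0,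 0), (25, 0, 0, 0, 0), (82, 0, 0, 0, 0), (52, 0, 0, 0, 0), (82, 0, 0, 0, 0), (30, 0, 0, 0, 0), (52, 0, 0, 0, 0), (30, 0, 0, 0, 0), (82, 0, 0, 0, 0), (62, 0, 0, 0, 0), (82, 0, 0, 0, 0), (41, 0, 0, 0, 0), (62, 0, 0, 0, 0), (41, 0, 0, 0, 0), (31, 0, 0, 0, 0), (37, 0, 0, 0, 0), (26, 0, 0, 0, 0), (31, 0, 0, 0, 0), (57, 0, 0, 0, 0), (53, 0, 0, 0, 0), (57, 0, 0, 0, 0), (26, 0, 0, 0, 0), (53, 0, 0, 0, 0), (26, 0, 0, 0, 0), (77, 0, 0, 0, 0), (53, 0, 0, 0, 0), (31, 0, 0, 0, 0), (31, 0, 0, 0, 0), (77, 0, 0, 0, 0), (57, 0, 0, 0, 0), (77, 0, 0, 0, 0), (37, 0, 0, 0, 0), (57, 0, 0, 0, 0), (37, 0, 0, 0, 0), (64, 0, 0, 0, 0), (59, 0, 0, 0, 0), (64, 0, 0, 0, 0), (51, 0, 0, 0, 0), (59, 0, 0, 0, 0), (51, 0, 0, 0, 0), (75, 0, 0, 0, 0), (71, 0, 0, 0, 0), (75, 0, 0, 0, 0), (51, 0, 0, 0, 0),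 (71, 0, 0, 0, 0), (51, 0, 0, 0, 0), (89, 0, 0, 0, 0), (71, 0, 0, 0, 0), (89, 0, 0, 0, 0), (59, 0, 0, 0, 0), (71, 0, 0, 0, 0), (59, 0, 0, 0, 0), (89, 0, 0, 0, 0), (75, 0, 0, 0, 0), (89, 0, 0, 0, 0), (64, 0, 0, 0, 0), (75, 0, 0, 0, 0), (64, 0, 0, 0, 0), (43, 0, 0, 0, 0), (6, 0, 0, 0, 0), (43, 0, 0, 0, 0), (5, 0, 0, 0, 0), (6, 0, 0, 0, 0), (5, 0, 0, 0, 0), (16, 0, 0, 0, 0), (68, 0, 0, 0, 0), (16, 0, 0, 0, 0), (5, 0, 0, 0, 0), (68, 0, 0, 0, 0), (5, 0, 0, 0, 0), (22, 0, 0, 0, 0), (68, 0, 0, 0, 0), (22, 0, 0, 0, 0), (6, 0, 0, 0, 0), (68, 0, 0, 0, 0), (6, 0, 0, 0, 0), (22, 0, 0, 0, 0), (16, 0, 0, 0, 0), (22, 0, 0, 0, 0), (43, 0, 0, 0, 0), (16, 0, 0, 0, 0), (43, 0, 0, 0, 0), (40, 0, 0, 0, 0), (36, 0, 0, 0, 0), (40, 0, 0, 0, 0), (27, 0, 0, 0, 0), (36, 0, 0, 0, 0), (27, 0, 0,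 0, 0), (63, 0, 0, 0, 0), (56, 0, 0, 0, 0), (63, 0, 0, 0, 0), (27, 0, 0, 0, 0), (56, 0, 0, 0, 0), (27, 0, 0, 0, 0), (87, 0, 0, 0, 0), (56, 0, 0, 0, 0), (87, 0, 0, 0, 0), (36, 0, 0, 0, 0), (56, 0, 0, 0, 0), (36, 0, 0, 0, 0), (87, 0, 0, 0, 0), (63, 0, 0, 0, 0), (87, 0, 0, 0, 0), (40, 0, 0, 0, 0), (63, 0, 0, 0, 0), (40, 0, 0, 0, 0), (42, 0, 0, 0, 0), (2, 0, 0, 0, 0), (42, 0, 0, 0, 0), (0, 0, 0, 0, 0), (2, 0, 0, 0, 0), (0, 0, 0, 0, 0), (10, 0, 0, 0, 0), (46, 0, 0, 0, 0), (10, 0, 0, 0, 0), (0, 0, 0, 0, 0), (46, 0, 0, 0, 0), (0, 0, 0, 0, 0), (17, 0, 0, 0, 0), (46, 0, 0, 0, 0), (17, 0, 0, 0, 0), (2, 0, 0, 0, 0), (46, 0, 0, 0, 0), (2, 0, 0, 0, 0), (17, 0, 0, 0, 0), (10, 0, 0, 0, 0), (17, 0, 0, 0, 0), (42, 0, 0, 0, 0), (10, 0, 0, 0, 0), (42, 0, 0, 0, 0), (38, 0, 0, 0, 0), (28,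 0, 0, 0, 0), (38, 0, 0, 0, 0), (24, 0, 0, 0, 0), (28, 0, 0, 0, 0), (24, 0, 0, 0, 0), (58, 0, 0, 0, 0), (47, 0, 0, 0, 0), (58, 0, 0, 0, 0), (24, 0, 0, 0, 0), (47, 0, 0, 0, 0), (24, 0, 0, 0, 0), (70, 0, 0, 0, 0), (47, 0, 0, 0, 0), (70, 0, 0, 0, 0), (28, 0, 0, 0, 0), (47, 0, 0, 0, 0), (28, 0, 0, 0, 0), (70, 0, 0, 0, 0), (58, 0, 0, 0, 0), (70, 0, 0, 0, 0), (38, 0, 0, 0, 0), (58, 0, 0, 0, 0), (38, 0, 0, 0, 0), (11, 0, 0, 0, 0), (9, 0, 0, 0, 0), (11, 0, 0, 0, 0), (49, 0, 0, 0, 0), (9, 0, 0, 0, 0), (49, 0, 0, 0, 0), (18, 0, 0, 0, 0), (14, 0, 0, 0, 0), (18, 0, 0, 0, 0), (49, 0, 0, 0, 0), (14, 0, 0, 0, 0), (49, 0, 0, 0, 0), (84, 0, 0, 0, 0), (84, 0, 0, 0, 0), (14, 0, 0, 0, 0), (9, 0, 0, 0, 0), (84, 0, 0, 0, 0), (84, 0, 0, 0, 0), (18, 0, 0, 0, 0), (11, 0, 0, 0, 0), (44, 0, 0,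 0, 0), (33, 0, 0, 0, 0), (44, 0, 0, 0, 0), (29, 0, 0, 0, 0), (33, 0, 0, 0, 0), (29, 0, 0, 0, 0), (74, 0, 0, 0, 0), (66, 0, 0, 0, 0), (74, 0, 0, 0, 0), (29, 0, 0, 0, 0), (66, 0, 0, 0, 0), (29, 0, 0, 0, 0), (81, 0, 0, 0, 0), (66, 0, 0, 0, 0), (81, 0, 0, 0, 0), (33, 0, 0, 0, 0), (66, 0, 0, 0, 0), (33, 0, 0, 0, 0), (81, 0, 0, 0, 0), (74, 0, 0, 0, 0), (81, 0, 0, 0, 0), (44, 0, 0, 0, 0), (74, 0, 0, 0, 0), (44, 0, 0, 0, 0), (41, 0, 0, 0, 0), (30, 0, 0, 0, 0), (41, 0, 0, 0, 0), (25, 0, 0, 0, 0), (30, 0, 0, 0, 0), (25, 0, 0, 0, 0), (62, 0, 0, 0, 0), (52, 0, 0, 0, 0), (62, 0, 0, 0, 0), (25, 0, 0, 0, 0), (52, 0, 0, 0, 0), (25, 0, 0, 0, 0), (82, 0, 0, 0, 0), (52, 0, 0, 0, 0), (82, 0, 0, 0, 0), (30, 0, 0, 0, 0), (52, 0, 0, 0, 0), (30, 0, 0, 0, 0), (82, 0, 0, 0, 0), (62, 0, 0, 0,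 0), (82, 0, 0, 0, 0), (41, 0, 0, 0, 0), (62, 0, 0, 0, 0), (41, 0, 0, 0, 0), (42, 0, 0, 0, 0), (42, 0, 0, 0, 0), (2, 0, 0, 0, 0), (0, 0, 0, 0, 0), (10, 0, 0, 0, 0), (46, 0, 0, 0, 0), (10, 0, 0, 0, 0), (0, 0, 0, 0, 0), (46, 0, 0, 0, 0), (0, 0, 0, 0, 0), (17, 0, 0, 0, 0), (46, 0, 0, 0, 0), (17, 0, 0, 0, 0), (2, 0, 0, 0, 0), (46, 0, 0, 0, 0), (2, 0, 0, 0, 0), (17, 0, 0, 0, 0), (10, 0, 0, 0, 0), (42, 0, 0, 0, 0), (42, 0, 0, 0, 0), (32, 0, 0, 0, 0), (32, 0, 0, 0, 0), (3, 0, 0, 0, 0), (1, 0, 0, 0, 0), (8, 0, 0, 0, 0), (48, 0, 0, 0, 0), (8, 0, 0, 0, 0), (1, 0, 0, 0, 0), (48, 0, 0, 0, 0), (1, 0, 0, 0, 0), (13, 0, 0, 0, 0), (48, 0, 0, 0, 0), (13, 0, 0, 0, 0), (3, 0, 0, 0, 0), (48, 0, 0, 0, 0), (3, 0, 0, 0, 0), (13, 0, 0, 0, 0), (8, 0, 0, 0, 0), (32, 0, 0, 0, 0), (32, 0, 0, 0,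 0), (60, 0, 0, 0, 0), (54, 0, 0, 0, 0), (60, 0, 0, 0, 0), (50, 0, 0, 0, 0), (54, 0, 0, 0, 0), (50, 0, 0, 0, 0), (72, 0, 0, 0, 0), (67, 0, 0, 0, 0), (72, 0, 0, 0, 0), (50, 0, 0, 0, 0), (67, 0, 0, 0, 0), (50, 0, 0, 0, 0), (79, 0, 0, 0, 0), (67, 0, 0, 0, 0), (79, 0, 0, 0, 0), (54, 0, 0, 0, 0), (67, 0, 0, 0, 0), (54, 0, 0, 0, 0), (79, 0, 0, 0, 0), (72, 0, 0, 0, 0), (79, 0, 0, 0, 0), (60, 0, 0, 0, 0), (72, 0, 0, 0, 0), (60, 0, 0, 0, 0), (7, 0, 0, 0, 0), (34, 0, 0, 0, 0), (7, 0, 0, 0, 0), (4, 0, 0, 0, 0), (34, 0, 0, 0, 0), (4, 0, 0, 0, 0), (69, 0, 0, 0, 0), (12, 0, 0, 0, 0), (69, 0, 0, 0, 0), (4, 0, 0, 0, 0), (12, 0, 0, 0, 0), (4, 0, 0, 0, 0), (20, 0, 0, 0, 0), (12, 0, 0, 0, 0), (20, 0, 0, 0, 0), (34, 0, 0, 0, 0), (12, 0, 0, 0, 0), (34, 0, 0, 0, 0), (20, 0, 0, 0, 0), (69,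 0, 0, 0, 0), (20, 0, 0, 0, 0), (7, 0, 0, 0, 0), (69, 0, 0, 0, 0), (7, 0, 0, 0, 0), (37, 0, 0, 0, 0), (31, 0, 0, 0, 0), (37, 0, 0, 0, 0), (26, 0, 0, 0, 0), (31, 0, 0, 0, 0), (26, 0, 0, 0, 0), (57, 0, 0, 0, 0), (53, 0, 0, 0, 0), (57, 0, 0, 0, 0), (26, 0, 0, 0, 0), (53, 0, 0, 0, 0), (26, 0, 0, 0, 0), (77, 0, 0, 0, 0), (53, 0, 0, 0, 0), (77, 0, 0, 0, 0), (31, 0, 0, 0, 0), (53, 0, 0, 0, 0), (31, 0, 0, 0, 0), (77, 0, 0, 0, 0), (57, 0, 0, 0, 0), (77, 0, 0, 0, 0), (37, 0, 0, 0, 0), (57, 0, 0, 0, 0), (37, 0, 0, 0, 0), (38, 0, 0, 0, 0), (28, 0, 0, 0, 0), (38, 0, 0, 0, 0), (24, 0, 0, 0, 0), (28, 0, 0, 0, 0), (24, 0, 0, 0, 0), (58, 0, 0, 0, 0), (47, 0, 0, 0, 0), (58, 0, 0, 0, 0), (24, 0, 0, 0, 0), (47, 0, 0, 0, 0), (24, 0, 0, 0, 0), (70, 0, 0, 0, 0), (47, 0, 0, 0, 0), (70, 0,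 0, 0, 0), (28, 0, 0, 0, 0), (47, 0, 0, 0, 0), (28, 0, 0, 0, 0), (70, 0, 0, 0, 0), (58, 0, 0, 0, 0), (70, 0, 0, 0, 0), (38, 0, 0, 0, 0), (58, 0, 0, 0, 0), (38, 0, 0, 0, 0), (32, 0, 0, 0, 0), (3, 0, 0, 0, 0), (32, 0, 0, 0, 0), (1, 0, 0, 0, 0), (3, 0, 0, 0, 0), (1, 0, 0, 0, 0), (8, 0, 0, 0, 0), (48, 0, 0, 0, 0), (8, 0, 0, 0, 0), (1, 0, 0, 0, 0), (48, 0, 0, 0, 0), (1, 0, 0, 0, 0), (13, 0, 0, 0, 0), (48, 0, 0, 0, 0), (13, 0, 0, 0, 0), (3, 0, 0, 0, 0), (48, 0, 0, 0, 0), (3, 0, 0, 0, 0), (13, 0, 0, 0, 0), (8, 0, 0, 0, 0), (13, 0, 0, 0, 0), (32, 0, 0, 0, 0), (8, 0, 0, 0, 0), (32, 0, 0, 0, 0)],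
  [(77, 0, 0, 0, 0), (82, 0, 0, 0, 0), (77, 0, 0, 0, 0), (87, 0, 0, 0, 0), (82, 0, 0, 0, 0), (87, 0, 0, 0, 0), (70, 0, 0, 0, 0), (17, 0, 0, 0, 0), (70, 0, 0, 0, 0), (87, 0, 0, 0, 0), (17, 0, 0, 0, 0), (87, 0, 0, 0, 0), (13, 0, 0, 0, 0), (17, 0, 0, 0, 0), (13, 0, 0, 0, 0), (82, 0, 0, 0, 0), (17, 0, 0, 0, 0), (82, 0, 0, 0, 0), (13, 0, 0, 0, 0), (70, 0, 0, 0, 0), (13, 0, 0, 0, 0), (77, 0, 0, 0, 0), (70, 0, 0, 0, 0), (77, 0, 0, 0, 0), (20, 0, 0, 0, 0), (81, 0, 0, 0, 0), (20, 0, 0, 0, 0), (22, 0, 0, 0, 0), (81, 0, 0, 0, 0), (22, 0, 0, 0, 0), (58, 0, 0, 0, 0), (10, 0, 0, 0, 0), (58, 0, 0, 0, 0), (22, 0, 0, 0, 0), (10, 0, 0, 0, 0), (22, 0, 0, 0, 0), (8, 0, 0, 0, 0), (10, 0, 0, 0, 0), (8, 0, 0, 0, 0), (81, 0, 0, 0, 0), (10, 0, 0, 0, 0), (81, 0, 0, 0, 0), (8, 0, 0, 0, 0), (58,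 0, 0, 0, 0), (8, 0, 0, 0, 0), (20, 0, 0, 0, 0), (58, 0, 0, 0, 0), (20, 0, 0, 0, 0), (69, 0, 0, 0, 0), (74, 0, 0, 0, 0), (69, 0, 0, 0, 0), (86, 0, 0, 0, 0), (74, 0, 0, 0, 0), (86, 0, 0, 0, 0), (57, 0, 0, 0, 0), (62, 0, 0, 0, 0), (57, 0, 0, 0, 0), (86, 0, 0, 0, 0), (62, 0, 0, 0, 0), (86, 0, 0, 0, 0), (48, 0, 0, 0, 0), (62, 0, 0, 0, 0), (48, 0, 0, 0, 0), (74, 0, 0, 0, 0), (62, 0, 0, 0, 0), (74, 0, 0, 0, 0), (48, 0, 0, 0, 0), (57, 0, 0, 0, 0), (48, 0, 0, 0, 0), (69, 0, 0, 0, 0), (57, 0, 0, 0, 0), (69, 0, 0, 0, 0), (12, 0, 0, 0, 0), (16, 0, 0, 0, 0), (12, 0, 0, 0, 0), (80, 0, 0, 0, 0), (16, 0, 0, 0, 0), (80, 0, 0, 0, 0), (53, 0, 0, 0, 0), (63, 0, 0, 0, 0), (53, 0, 0, 0, 0), (80, 0, 0, 0, 0), (63, 0, 0, 0, 0), (80, 0, 0, 0, 0), (47, 0, 0, 0, 0), (63, 0, 0, 0, 0), (47, 0,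 0, 0, 0), (16, 0, 0, 0, 0), (63, 0, 0, 0, 0), (16, 0, 0, 0, 0), (47, 0, 0, 0, 0), (53, 0, 0, 0, 0), (47, 0, 0, 0, 0), (12, 0, 0, 0, 0), (53, 0, 0, 0, 0), (12, 0, 0, 0, 0), (66, 0, 0, 0, 0), (68, 0, 0, 0, 0), (66, 0, 0, 0, 0), (76, 0, 0, 0, 0), (68, 0, 0, 0, 0), (76, 0, 0, 0, 0), (52, 0, 0, 0, 0), (56, 0, 0, 0, 0), (52, 0, 0, 0, 0), (76, 0, 0, 0, 0), (56, 0, 0, 0, 0), (76, 0, 0, 0, 0), (46, 0, 0, 0, 0), (56, 0, 0, 0, 0), (46, 0, 0, 0, 0), (68, 0, 0, 0, 0), (56, 0, 0, 0, 0), (68, 0, 0, 0, 0), (46, 0, 0, 0, 0), (52, 0, 0, 0, 0), (46, 0, 0, 0, 0), (66, 0, 0, 0, 0), (52, 0, 0, 0, 0), (66, 0, 0, 0, 0), (77, 0, 0, 0, 0), (82, 0, 0, 0, 0), (77, 0, 0, 0, 0), (87, 0, 0, 0, 0), (82, 0, 0, 0, 0), (87, 0, 0, 0, 0), (70, 0, 0, 0, 0), (70, 0, 0, 0, 0), (17, 0, 0, 0, 0), (87, 0, 0,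 0, 0), (13, 0, 0, 0, 0), (17, 0, 0, 0, 0), (13, 0, 0, 0, 0), (82, 0, 0, 0, 0), (17, 0, 0, 0, 0), (82, 0, 0, 0, 0), (70, 0, 0, 0, 0), (13, 0, 0, 0, 0), (77, 0, 0, 0, 0), (70, 0, 0, 0, 0), (79, 0, 0, 0, 0), (84, 0, 0, 0, 0), (79, 0, 0, 0, 0), (89, 0, 0, 0, 0), (84, 0, 0, 0, 0), (89, 0, 0, 0, 0), (38, 0, 0, 0, 0), (42, 0, 0, 0, 0), (38, 0, 0, 0, 0), (89, 0, 0, 0, 0), (42, 0, 0, 0, 0), (89, 0, 0, 0, 0), (32, 0, 0, 0, 0), (42, 0, 0, 0, 0), (32, 0, 0, 0, 0), (84, 0, 0, 0, 0), (42, 0, 0, 0, 0), (84, 0, 0, 0, 0), (32, 0, 0, 0, 0), (38, 0, 0, 0, 0), (32, 0, 0, 0, 0), (79, 0, 0, 0, 0), (38, 0, 0, 0, 0), (79, 0, 0, 0, 0), (72, 0, 0, 0, 0), (72, 0, 0, 0, 0), (18, 0, 0, 0, 0), (88, 0, 0, 0, 0), (37, 0, 0, 0, 0), (41, 0, 0, 0, 0), (37, 0, 0, 0, 0), (88, 0, 0, 0, 0), (41, 0, 0, 0,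 0), (88, 0, 0, 0, 0), (3, 0, 0, 0, 0), (41, 0, 0, 0, 0), (3, 0, 0, 0, 0), (18, 0, 0, 0, 0), (41, 0, 0, 0, 0), (18, 0, 0, 0, 0), (3, 0, 0, 0, 0), (37, 0, 0, 0, 0), (72, 0, 0, 0, 0), (72, 0, 0, 0, 0), (67, 0, 0, 0, 0), (75, 0, 0, 0, 0), (67, 0, 0, 0, 0), (83, 0, 0, 0, 0), (75, 0, 0, 0, 0), (83, 0, 0, 0, 0), (31, 0, 0, 0, 0), (40, 0, 0, 0, 0), (31, 0, 0, 0, 0), (83, 0, 0, 0, 0), (40, 0, 0, 0, 0), (83, 0, 0, 0, 0), (28, 0, 0, 0, 0), (40, 0, 0, 0, 0), (28, 0, 0, 0, 0), (75, 0, 0, 0, 0), (40, 0, 0, 0, 0), (75, 0, 0, 0, 0), (28, 0, 0, 0, 0), (31, 0, 0, 0, 0), (28, 0, 0, 0, 0), (67, 0, 0, 0, 0), (31, 0, 0, 0, 0), (67, 0, 0, 0, 0), (71, 0, 0, 0, 0), (14, 0, 0, 0, 0), (78, 0, 0, 0, 0), (71, 0, 0, 0, 0), (30, 0, 0, 0, 0), (36, 0, 0, 0, 0), (30, 0, 0, 0, 0), (78, 0, 0, 0, 0),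 (36, 0, 0, 0, 0), (78, 0, 0, 0, 0), (2, 0, 0, 0, 0), (36, 0, 0, 0, 0), (71, 0, 0, 0, 0), (71, 0, 0, 0, 0), (2, 0, 0, 0, 0), (30, 0, 0, 0, 0), (2, 0, 0, 0, 0), (14, 0, 0, 0, 0), (30, 0, 0, 0, 0), (14, 0, 0, 0, 0), (20, 0, 0, 0, 0), (81, 0, 0, 0, 0), (20, 0, 0, 0, 0), (22, 0, 0, 0, 0), (81, 0, 0, 0, 0), (22, 0, 0, 0, 0), (58, 0, 0, 0, 0), (58, 0, 0, 0, 0), (10, 0, 0, 0, 0), (22, 0, 0, 0, 0), (8, 0, 0, 0, 0), (10, 0, 0, 0, 0), (8, 0, 0, 0, 0), (81, 0, 0, 0, 0), (10, 0, 0, 0, 0), (81, 0, 0, 0, 0), (58, 0, 0, 0, 0), (8, 0, 0, 0, 0), (20, 0, 0, 0, 0), (58, 0, 0, 0, 0), (79, 0, 0, 0, 0), (84, 0, 0, 0, 0), (79, 0, 0, 0, 0), (89, 0, 0, 0, 0), (84, 0, 0, 0, 0), (89, 0, 0, 0, 0), (38, 0, 0, 0, 0), (42, 0, 0, 0, 0), (38, 0, 0, 0, 0), (89, 0, 0, 0, 0), (42, 0, 0, 0, 0), (89, 0,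 0, 0, 0), (32, 0, 0, 0, 0), (42, 0, 0, 0, 0), (32, 0, 0, 0, 0), (84, 0, 0, 0, 0), (42, 0, 0, 0, 0), (84, 0, 0, 0, 0), (32, 0, 0, 0, 0), (38, 0, 0, 0, 0), (32, 0, 0, 0, 0), (79, 0, 0, 0, 0), (38, 0, 0, 0, 0), (79, 0, 0, 0, 0), (60, 0, 0, 0, 0), (60, 0, 0, 0, 0), (11, 0, 0, 0, 0), (23, 0, 0, 0, 0), (7, 0, 0, 0, 0), (44, 0, 0, 0, 0), (7, 0, 0, 0, 0), (23, 0, 0, 0, 0), (44, 0, 0, 0, 0), (23, 0, 0, 0, 0), (1, 0, 0, 0, 0), (44, 0, 0, 0, 0), (1, 0, 0, 0, 0), (11, 0, 0, 0, 0), (44, 0, 0, 0, 0), (11, 0, 0, 0, 0), (1, 0, 0, 0, 0), (7, 0, 0, 0, 0), (60, 0, 0, 0, 0), (60, 0, 0, 0, 0), (54, 0, 0, 0, 0), (64, 0, 0, 0, 0), (54, 0, 0, 0, 0), (85, 0, 0, 0, 0), (64, 0, 0, 0, 0), (85, 0, 0, 0, 0), (34, 0, 0, 0, 0), (43, 0, 0, 0, 0), (34, 0, 0, 0, 0), (85, 0, 0, 0, 0), (43, 0, 0, 0, 0),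 (85, 0, 0, 0, 0), (24, 0, 0, 0, 0), (43, 0, 0, 0, 0), (24, 0, 0, 0, 0), (64, 0, 0, 0, 0), (43, 0, 0, 0, 0), (64, 0, 0, 0, 0), (24, 0, 0, 0, 0), (34, 0, 0, 0, 0), (24, 0, 0, 0, 0), (54, 0, 0, 0, 0), (34, 0, 0, 0, 0), (54, 0, 0, 0, 0), (59, 0, 0, 0, 0), (9, 0, 0, 0, 0), (21, 0, 0, 0, 0), (59, 0, 0, 0, 0), (33, 0, 0, 0, 0), (6, 0, 0, 0, 0), (33, 0, 0, 0, 0), (21, 0, 0, 0, 0), (6, 0, 0, 0, 0), (21, 0, 0, 0, 0), (0, 0, 0, 0, 0), (6, 0, 0, 0, 0), (59, 0, 0, 0, 0), (59, 0, 0, 0, 0), (0, 0, 0, 0, 0), (33, 0, 0, 0, 0), (0, 0, 0, 0, 0), (9, 0, 0, 0, 0), (33, 0, 0, 0, 0), (9, 0, 0, 0, 0), (69, 0, 0, 0, 0), (74, 0, 0, 0, 0), (69, 0, 0, 0, 0), (86, 0, 0, 0, 0), (74, 0, 0, 0, 0), (86, 0, 0, 0, 0), (57, 0, 0, 0, 0), (62, 0, 0, 0, 0), (57, 0, 0, 0, 0), (86, 0, 0, 0, 0), (62, 0, 0,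 0, 0), (86, 0, 0, 0, 0), (48, 0, 0, 0, 0), (62, 0, 0, 0, 0), (48, 0, 0, 0, 0), (74, 0, 0, 0, 0), (62, 0, 0, 0, 0), (74, 0, 0, 0, 0), (48, 0, 0, 0, 0), (57, 0, 0, 0, 0), (48, 0, 0, 0, 0), (69, 0, 0, 0, 0), (57, 0, 0, 0, 0), (69, 0, 0, 0, 0), (72, 0, 0, 0, 0), (18, 0, 0, 0, 0), (72, 0, 0, 0, 0), (88, 0, 0, 0, 0), (18, 0, 0, 0, 0), (88, 0, 0, 0, 0), (37, 0, 0, 0, 0), (41, 0, 0, 0, 0), (37, 0, 0, 0, 0), (88, 0, 0, 0, 0), (41, 0, 0, 0, 0), (88, 0, 0, 0, 0), (3, 0, 0, 0, 0), (41, 0, 0, 0, 0), (3, 0, 0, 0, 0), (18, 0, 0, 0, 0), (41, 0, 0, 0, 0), (18, 0, 0, 0, 0), (3, 0, 0, 0, 0), (37, 0, 0, 0, 0), (3, 0, 0, 0, 0), (72, 0, 0, 0, 0), (37, 0, 0, 0, 0), (72, 0, 0, 0, 0), (60, 0, 0, 0, 0), (11, 0, 0, 0, 0), (60, 0, 0, 0, 0), (23, 0, 0, 0, 0), (11, 0, 0, 0, 0), (23, 0, 0, 0, 0),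 (7, 0, 0, 0, 0), (44, 0, 0, 0, 0), (7, 0, 0, 0, 0), (23, 0, 0, 0, 0), (44, 0, 0, 0, 0), (23, 0, 0, 0, 0), (1, 0, 0, 0, 0), (44, 0, 0, 0, 0), (1, 0, 0, 0, 0), (11, 0, 0, 0, 0), (44, 0, 0, 0, 0), (11, 0, 0, 0, 0), (1, 0, 0, 0, 0), (7, 0, 0, 0, 0), (1, 0, 0, 0, 0), (60, 0, 0, 0, 0), (7, 0, 0, 0, 0), (60, 0, 0, 0, 0), (50, 0, 0, 0, 0), (65, 0, 0, 0, 0), (50, 0, 0, 0, 0), (19, 0, 0, 0, 0), (65, 0, 0, 0, 0), (19, 0, 0, 0, 0), (4, 0, 0, 0, 0), (45, 0, 0, 0, 0), (4, 0, 0, 0, 0), (19, 0, 0, 0, 0), (45, 0, 0, 0, 0), (19, 0, 0, 0, 0), (26, 0, 0, 0, 0), (45, 0, 0, 0, 0), (26, 0, 0, 0, 0), (65, 0, 0, 0, 0), (45, 0, 0, 0, 0), (65, 0, 0, 0, 0), (26, 0, 0, 0, 0), (4, 0, 0, 0, 0), (26, 0, 0, 0, 0), (50, 0, 0, 0, 0), (4, 0, 0, 0, 0), (50, 0, 0, 0, 0), (49, 0, 0, 0, 0), (61, 0, 0, 0,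 0), (49, 0, 0, 0, 0), (73, 0, 0, 0, 0), (61, 0, 0, 0, 0), (73, 0, 0, 0, 0), (29, 0, 0, 0, 0), (39, 0, 0, 0, 0), (29, 0, 0, 0, 0), (73, 0, 0, 0, 0), (39, 0, 0, 0, 0), (73, 0, 0, 0, 0), (25, 0, 0, 0, 0), (39, 0, 0, 0, 0), (25, 0, 0, 0, 0), (61, 0, 0, 0, 0), (39, 0, 0, 0, 0), (61, 0, 0, 0, 0), (25, 0, 0, 0, 0), (29, 0, 0, 0, 0), (25, 0, 0, 0, 0), (49, 0, 0, 0, 0), (29, 0, 0, 0, 0), (49, 0, 0, 0, 0), (12, 0, 0, 0, 0), (16, 0, 0, 0, 0), (12, 0, 0, 0, 0), (80, 0, 0, 0, 0), (16, 0, 0, 0, 0), (80, 0, 0, 0, 0), (53, 0, 0, 0, 0), (63, 0, 0, 0, 0), (53, 0, 0, 0, 0), (80, 0, 0, 0, 0), (63, 0, 0, 0, 0), (80, 0, 0, 0, 0), (47, 0, 0, 0, 0), (47, 0, 0, 0, 0), (63, 0, 0, 0, 0), (16, 0, 0, 0, 0), (47, 0, 0, 0, 0), (47, 0, 0, 0, 0), (53, 0, 0, 0, 0), (12, 0, 0, 0, 0), (67, 0, 0, 0, 0),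 (75, 0, 0, 0, 0), (67, 0, 0, 0, 0), (83, 0, 0, 0, 0), (75, 0, 0, 0, 0), (83, 0, 0, 0, 0), (31, 0, 0, 0, 0), (40, 0, 0, 0, 0), (31, 0, 0, 0, 0), (83, 0, 0, 0, 0), (40, 0, 0, 0, 0), (83, 0, 0, 0, 0), (28, 0, 0, 0, 0), (40, 0, 0, 0, 0), (28, 0, 0, 0, 0), (75, 0, 0, 0, 0), (40, 0, 0, 0, 0), (75, 0, 0, 0, 0), (28, 0, 0, 0, 0), (31, 0, 0, 0, 0), (28, 0, 0, 0, 0), (67, 0, 0, 0, 0), (31, 0, 0, 0, 0), (67, 0, 0, 0, 0), (54, 0, 0, 0, 0), (64, 0, 0, 0, 0), (54, 0, 0, 0, 0), (85, 0, 0, 0, 0), (64, 0, 0, 0, 0), (85, 0, 0, 0, 0), (34, 0, 0, 0, 0), (43, 0, 0, 0, 0), (34, 0, 0, 0, 0), (85, 0, 0, 0, 0), (43, 0, 0, 0, 0), (85, 0, 0, 0, 0), (24, 0, 0, 0, 0), (43, 0, 0, 0, 0), (24, 0, 0, 0, 0), (64, 0, 0, 0, 0), (43, 0, 0, 0, 0), (64, 0, 0, 0, 0), (24, 0, 0, 0, 0), (34, 0, 0, 0, 0), (24,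 0, 0, 0, 0), (54, 0, 0, 0, 0), (34, 0, 0, 0, 0), (54, 0, 0, 0, 0), (50, 0, 0, 0, 0), (50, 0, 0, 0, 0), (65, 0, 0, 0, 0), (19, 0, 0, 0, 0), (4, 0, 0, 0, 0), (45, 0, 0, 0, 0), (4, 0, 0, 0, 0), (19, 0, 0, 0, 0), (45, 0, 0, 0, 0), (19, 0, 0, 0, 0), (26, 0, 0, 0, 0), (45, 0, 0, 0, 0), (26, 0, 0, 0, 0), (65, 0, 0, 0, 0), (45, 0, 0, 0, 0), (65, 0, 0, 0, 0), (26, 0, 0, 0, 0), (4, 0, 0, 0, 0), (50, 0, 0, 0, 0), (50, 0, 0, 0, 0), (51, 0, 0, 0, 0), (51, 0, 0, 0, 0), (55, 0, 0, 0, 0), (15, 0, 0, 0, 0), (5, 0, 0, 0, 0), (35, 0, 0, 0, 0), (5, 0, 0, 0, 0), (15, 0, 0, 0, 0), (35, 0, 0, 0, 0), (15, 0, 0, 0, 0), (27, 0, 0, 0, 0), (35, 0, 0, 0, 0), (27, 0, 0, 0, 0), (55, 0, 0, 0, 0), (35, 0, 0, 0, 0), (55, 0, 0, 0, 0), (27, 0, 0, 0, 0), (5, 0, 0, 0, 0), (51, 0, 0, 0, 0), (51, 0, 0, 0,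 0), (66, 0, 0, 0, 0), (68, 0, 0, 0, 0), (66, 0, 0, 0, 0), (76, 0, 0, 0, 0), (68, 0, 0, 0, 0), (76, 0, 0, 0, 0), (52, 0, 0, 0, 0), (56, 0, 0, 0, 0), (52, 0, 0, 0, 0), (76, 0, 0, 0, 0), (56, 0, 0, 0, 0), (76, 0, 0, 0, 0), (46, 0, 0, 0, 0), (56, 0, 0, 0, 0), (46, 0, 0, 0, 0), (68, 0, 0, 0, 0), (56, 0, 0, 0, 0), (68, 0, 0, 0, 0), (46, 0, 0, 0, 0), (52, 0, 0, 0, 0), (46, 0, 0, 0, 0), (66, 0, 0, 0, 0), (52, 0, 0, 0, 0), (66, 0, 0, 0, 0), (14, 0, 0, 0, 0), (71, 0, 0, 0, 0), (14, 0, 0, 0, 0), (78, 0, 0, 0, 0), (71, 0, 0, 0, 0), (78, 0, 0, 0, 0), (30, 0, 0, 0, 0), (36, 0, 0, 0, 0), (30, 0, 0, 0, 0), (78, 0, 0, 0, 0), (36, 0, 0, 0, 0), (78, 0, 0, 0, 0), (2, 0, 0, 0, 0), (36, 0, 0, 0, 0), (2, 0, 0, 0, 0), (71, 0, 0, 0, 0), (36, 0, 0, 0, 0), (71, 0, 0, 0, 0), (2, 0, 0, 0, 0),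 (30, 0, 0, 0, 0), (2, 0, 0, 0, 0), (14, 0, 0, 0, 0), (30, 0, 0, 0, 0), (14, 0, 0, 0, 0), (9, 0, 0, 0, 0), (59, 0, 0, 0, 0), (9, 0, 0, 0, 0), (21, 0, 0, 0, 0), (59, 0, 0, 0, 0), (21, 0, 0, 0, 0), (33, 0, 0, 0, 0), (6, 0, 0, 0, 0), (33, 0, 0, 0, 0), (21, 0, 0, 0, 0), (6, 0, 0, 0, 0), (21, 0, 0, 0, 0), (0, 0, 0, 0, 0), (6, 0, 0, 0, 0), (0, 0, 0, 0, 0), (59, 0, 0, 0, 0), (6, 0, 0, 0, 0), (59, 0, 0, 0, 0), (0, 0, 0, 0, 0), (33, 0, 0, 0, 0), (0, 0, 0, 0, 0), (9, 0, 0, 0, 0), (33, 0, 0, 0, 0), (9, 0, 0, 0, 0), (49, 0, 0, 0, 0), (61, 0, 0, 0, 0), (49, 0, 0, 0, 0), (73, 0, 0, 0, 0), (61, 0, 0, 0, 0), (73, 0, 0, 0, 0), (29, 0, 0, 0, 0), (39, 0, 0, 0, 0), (29, 0, 0, 0, 0), (73, 0, 0, 0, 0), (39, 0, 0, 0, 0), (73, 0, 0, 0, 0), (25, 0, 0, 0, 0), (39, 0, 0, 0, 0), (25, 0, 0, 0,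 0), (61, 0, 0, 0, 0), (39, 0, 0, 0, 0), (61, 0, 0, 0, 0), (25, 0, 0, 0, 0), (29, 0, 0, 0, 0), (25, 0, 0, 0, 0), (49, 0, 0, 0, 0), (29, 0, 0, 0, 0), (49, 0, 0, 0, 0), (51, 0, 0, 0, 0), (55, 0, 0, 0, 0), (51, 0, 0, 0, 0), (15, 0, 0, 0, 0), (55, 0, 0, 0, 0), (15, 0, 0, 0, 0), (5, 0, 0, 0, 0), (35, 0, 0, 0, 0), (5, 0, 0, 0, 0), (15, 0, 0, 0, 0), (35, 0, 0, 0, 0), (15, 0, 0, 0, 0), (27, 0, 0, 0, 0), (35, 0, 0, 0, 0), (27, 0, 0, 0, 0), (55, 0, 0, 0, 0), (35, 0, 0, 0, 0), (55, 0, 0, 0, 0), (27, 0, 0, 0, 0), (5, 0, 0, 0, 0), (27, 0, 0, 0, 0), (51, 0, 0, 0, 0), (5, 0, 0, 0, 0), (51, 0, 0, 0, 0)],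
  [(17, 0, 0, 0, 0), (70, 0, 0, 0, 0), (17, 0, 0, 0, 0), (13, 0, 0, 0, 0), (70, 0, 0, 0, 0), (13, 0, 0, 0, 0), (82, 0, 0, 0, 0), (77, 0, 0, 0, 0), (82, 0, 0, 0, 0), (13, 0, 0, 0, 0), (77, 0, 0, 0, 0), (13, 0, 0, 0, 0), (87, 0, 0, 0, 0), (77, 0, 0, 0, 0), (87, 0, 0, 0, 0), (70, 0, 0, 0, 0), (77, 0, 0, 0, 0), (70, 0, 0, 0, 0), (87, 0, 0, 0, 0), (82, 0, 0, 0, 0), (87, 0, 0, 0, 0), (17, 0, 0, 0, 0), (82, 0, 0, 0, 0), (17, 0, 0, 0, 0), (10, 0, 0, 0, 0), (58, 0, 0, 0, 0), (10, 0, 0, 0, 0), (8, 0, 0, 0, 0), (58, 0, 0, 0, 0), (8, 0, 0, 0, 0), (81, 0, 0, 0, 0), (20, 0, 0, 0, 0), (81, 0, 0, 0, 0), (8, 0, 0, 0, 0), (20, 0, 0, 0, 0), (8, 0, 0, 0, 0), (22, 0, 0, 0, 0), (20, 0, 0, 0, 0), (22, 0, 0, 0, 0), (58, 0, 0, 0, 0), (20, 0, 0, 0, 0), (58, 0, 0, 0, 0), (22, 0, 0, 0, 0), (81,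 0, 0, 0, 0), (22, 0, 0, 0, 0), (10, 0, 0, 0, 0), (81, 0, 0, 0, 0), (10, 0, 0, 0, 0), (62, 0, 0, 0, 0), (57, 0, 0, 0, 0), (62, 0, 0, 0, 0), (48, 0, 0, 0, 0), (57, 0, 0, 0, 0), (48, 0, 0, 0, 0), (74, 0, 0, 0, 0), (69, 0, 0, 0, 0), (74, 0, 0, 0, 0), (48, 0, 0, 0, 0), (69, 0, 0, 0, 0), (48, 0, 0, 0, 0), (86, 0, 0, 0, 0), (69, 0, 0, 0, 0), (86, 0, 0, 0, 0), (57, 0, 0, 0, 0), (69, 0, 0, 0, 0), (57, 0, 0, 0, 0), (86, 0, 0, 0, 0), (74, 0, 0, 0, 0), (86, 0, 0, 0, 0), (62, 0, 0, 0, 0), (74, 0, 0, 0, 0), (62, 0, 0, 0, 0), (63, 0, 0, 0, 0), (53, 0, 0, 0, 0), (63, 0, 0, 0, 0), (47, 0, 0, 0, 0), (53, 0, 0, 0, 0), (47, 0, 0, 0, 0), (16, 0, 0, 0, 0), (12, 0, 0, 0, 0), (16, 0, 0, 0, 0), (47, 0, 0, 0, 0), (12, 0, 0, 0, 0), (47, 0, 0, 0, 0), (80, 0, 0, 0, 0), (12, 0, 0, 0, 0), (80, 0,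 0, 0, 0), (53, 0, 0, 0, 0), (12, 0, 0, 0, 0), (53, 0, 0, 0, 0), (80, 0, 0, 0, 0), (16, 0, 0, 0, 0), (80, 0, 0, 0, 0), (63, 0, 0, 0, 0), (16, 0, 0, 0, 0), (63, 0, 0, 0, 0), (56, 0, 0, 0, 0), (52, 0, 0, 0, 0), (56, 0, 0, 0, 0), (46, 0, 0, 0, 0), (52, 0, 0, 0, 0), (46, 0, 0, 0, 0), (68, 0, 0, 0, 0), (66, 0, 0, 0, 0), (68, 0, 0, 0, 0), (46, 0, 0, 0, 0), (66, 0, 0, 0, 0), (46, 0, 0, 0, 0), (76, 0, 0, 0, 0), (66, 0, 0, 0, 0), (76, 0, 0, 0, 0), (52, 0, 0, 0, 0), (66, 0, 0, 0, 0), (52, 0, 0, 0, 0), (76, 0, 0, 0, 0), (68, 0, 0, 0, 0), (76, 0, 0, 0, 0), (56, 0, 0, 0, 0), (68, 0, 0, 0, 0), (56, 0, 0, 0, 0), (17, 0, 0, 0, 0), (70, 0, 0, 0, 0), (17, 0, 0, 0, 0), (13, 0, 0, 0, 0), (70, 0, 0, 0, 0), (13, 0, 0, 0, 0), (82, 0, 0, 0, 0), (82, 0, 0, 0, 0), (77, 0, 0, 0, 0), (13, 0, 0,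 0, 0), (87, 0, 0, 0, 0), (77, 0, 0, 0, 0), (87, 0, 0, 0, 0), (70, 0, 0, 0, 0), (77, 0, 0, 0, 0), (70, 0, 0, 0, 0), (82, 0, 0, 0, 0), (87, 0, 0, 0, 0), (17, 0, 0, 0, 0), (82, 0, 0, 0, 0), (42, 0, 0, 0, 0), (38, 0, 0, 0, 0), (42, 0, 0, 0, 0), (32, 0, 0, 0, 0), (38, 0, 0, 0, 0), (32, 0, 0, 0, 0), (84, 0, 0, 0, 0), (79, 0, 0, 0, 0), (84, 0, 0, 0, 0), (32, 0, 0, 0, 0), (79, 0, 0, 0, 0), (32, 0, 0, 0, 0), (89, 0, 0, 0, 0), (79, 0, 0, 0, 0), (89, 0, 0, 0, 0), (38, 0, 0, 0, 0), (79, 0, 0, 0, 0), (38, 0, 0, 0, 0), (89, 0, 0, 0, 0), (84, 0, 0, 0, 0), (89, 0, 0, 0, 0), (42, 0, 0, 0, 0), (84, 0, 0, 0, 0), (42, 0, 0, 0, 0), (41, 0, 0, 0, 0), (41, 0, 0, 0, 0), (37, 0, 0, 0, 0), (3, 0, 0, 0, 0), (18, 0, 0, 0, 0), (72, 0, 0, 0, 0), (18, 0, 0, 0, 0), (3, 0, 0, 0, 0), (72, 0, 0, 0,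 0), (3, 0, 0, 0, 0), (88, 0, 0, 0, 0), (72, 0, 0, 0, 0), (88, 0, 0, 0, 0), (37, 0, 0, 0, 0), (72, 0, 0, 0, 0), (37, 0, 0, 0, 0), (88, 0, 0, 0, 0), (18, 0, 0, 0, 0), (41, 0, 0, 0, 0), (41, 0, 0, 0, 0), (40, 0, 0, 0, 0), (31, 0, 0, 0, 0), (40, 0, 0, 0, 0), (28, 0, 0, 0, 0), (31, 0, 0, 0, 0), (28, 0, 0, 0, 0), (75, 0, 0, 0, 0), (67, 0, 0, 0, 0), (75, 0, 0, 0, 0), (28, 0, 0, 0, 0), (67, 0, 0, 0, 0), (28, 0, 0, 0, 0), (83, 0, 0, 0, 0), (67, 0, 0, 0, 0), (83, 0, 0, 0, 0), (31, 0, 0, 0, 0), (67, 0, 0, 0, 0), (31, 0, 0, 0, 0), (83, 0, 0, 0, 0), (75, 0, 0, 0, 0), (83, 0, 0, 0, 0), (40, 0, 0, 0, 0), (75, 0, 0, 0, 0), (40, 0, 0, 0, 0), (30, 0, 0, 0, 0), (36, 0, 0, 0, 0), (2, 0, 0, 0, 0), (30, 0, 0, 0, 0), (71, 0, 0, 0, 0), (14, 0, 0, 0, 0), (71, 0, 0, 0, 0), (2, 0, 0, 0, 0),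 (14, 0, 0, 0, 0), (2, 0, 0, 0, 0), (78, 0, 0, 0, 0), (14, 0, 0, 0, 0), (30, 0, 0, 0, 0), (30, 0, 0, 0, 0), (78, 0, 0, 0, 0), (71, 0, 0, 0, 0), (78, 0, 0, 0, 0), (36, 0, 0, 0, 0), (71, 0, 0, 0, 0), (36, 0, 0, 0, 0), (10, 0, 0, 0, 0), (58, 0, 0, 0, 0), (10, 0, 0, 0, 0), (8, 0, 0, 0, 0), (58, 0, 0, 0, 0), (8, 0, 0, 0, 0), (81, 0, 0, 0, 0), (81, 0, 0, 0, 0), (20, 0, 0, 0, 0), (8, 0, 0, 0, 0), (22, 0, 0, 0, 0), (20, 0, 0, 0, 0), (22, 0, 0, 0, 0), (58, 0, 0, 0, 0), (20, 0, 0, 0, 0), (58, 0, 0, 0, 0), (81, 0, 0, 0, 0), (22, 0, 0, 0, 0), (10, 0, 0, 0, 0), (81, 0, 0, 0, 0), (42, 0, 0, 0, 0), (38, 0, 0, 0, 0), (42, 0, 0, 0, 0), (32, 0, 0, 0, 0), (38, 0, 0, 0, 0), (32, 0, 0, 0, 0), (84, 0, 0, 0, 0), (79, 0, 0, 0, 0), (84, 0, 0, 0, 0), (32, 0, 0, 0, 0), (79, 0, 0, 0, 0), (32,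 0, 0, 0, 0), (89, 0, 0, 0, 0), (79, 0, 0, 0, 0), (89, 0, 0, 0, 0), (38, 0, 0, 0, 0), (79, 0, 0, 0, 0), (38, 0, 0, 0, 0), (89, 0, 0, 0, 0), (84, 0, 0, 0, 0), (89, 0, 0, 0, 0), (42, 0, 0, 0, 0), (84, 0, 0, 0, 0), (42, 0, 0, 0, 0), (44, 0, 0, 0, 0), (44, 0, 0, 0, 0), (7, 0, 0, 0, 0), (1, 0, 0, 0, 0), (11, 0, 0, 0, 0), (60, 0, 0, 0, 0), (11, 0, 0, 0, 0), (1, 0, 0, 0, 0), (60, 0, 0, 0, 0), (1, 0, 0, 0, 0), (23, 0, 0, 0, 0), (60, 0, 0, 0, 0), (23, 0, 0, 0, 0), (7, 0, 0, 0, 0), (60, 0, 0, 0, 0), (7, 0, 0, 0, 0), (23, 0, 0, 0, 0), (11, 0, 0, 0, 0), (44, 0, 0, 0, 0), (44, 0, 0, 0, 0), (43, 0, 0, 0, 0), (34, 0, 0, 0, 0), (43, 0, 0, 0, 0), (24, 0, 0, 0, 0), (34, 0, 0, 0, 0), (24, 0, 0, 0, 0), (64, 0, 0, 0, 0), (54, 0, 0, 0, 0), (64, 0, 0, 0, 0), (24, 0, 0, 0, 0), (54, 0, 0, 0,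 0), (24, 0, 0, 0, 0), (85, 0, 0, 0, 0), (54, 0, 0, 0, 0), (85, 0, 0, 0, 0), (34, 0, 0, 0, 0), (54, 0, 0, 0, 0), (34, 0, 0, 0, 0), (85, 0, 0, 0, 0), (64, 0, 0, 0, 0), (85, 0, 0, 0, 0), (43, 0, 0, 0, 0), (64, 0, 0, 0, 0), (43, 0, 0, 0, 0), (33, 0, 0, 0, 0), (6, 0, 0, 0, 0), (0, 0, 0, 0, 0), (33, 0, 0, 0, 0), (59, 0, 0, 0, 0), (9, 0, 0, 0, 0), (59, 0, 0, 0, 0), (0, 0, 0, 0, 0), (9, 0, 0, 0, 0), (0, 0, 0, 0, 0), (21, 0, 0, 0, 0), (9, 0, 0, 0, 0), (33, 0, 0, 0, 0), (33, 0, 0, 0, 0), (21, 0, 0, 0, 0), (59, 0, 0, 0, 0), (21, 0, 0, 0, 0), (6, 0, 0, 0, 0), (59, 0, 0, 0, 0), (6, 0, 0, 0, 0), (62, 0, 0, 0, 0), (57, 0, 0, 0, 0), (62, 0, 0, 0, 0), (48, 0, 0, 0, 0), (57, 0, 0, 0, 0), (48, 0, 0, 0, 0), (74, 0, 0, 0, 0), (69, 0, 0, 0, 0), (74, 0, 0, 0, 0), (48, 0, 0, 0, 0), (69, 0,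 0, 0, 0), (48, 0, 0, 0, 0), (86, 0, 0, 0, 0), (69, 0, 0, 0, 0), (86, 0, 0, 0, 0), (57, 0, 0, 0, 0), (69, 0, 0, 0, 0), (57, 0, 0, 0, 0), (86, 0, 0, 0, 0), (74, 0, 0, 0, 0), (86, 0, 0, 0, 0), (62, 0, 0, 0, 0), (74, 0, 0, 0, 0), (62, 0, 0, 0, 0), (41, 0, 0, 0, 0), (37, 0, 0, 0, 0), (41, 0, 0, 0, 0), (3, 0, 0, 0, 0), (37, 0, 0, 0, 0), (3, 0, 0, 0, 0), (18, 0, 0, 0, 0), (72, 0, 0, 0, 0), (18, 0, 0, 0, 0), (3, 0, 0, 0, 0), (72, 0, 0, 0, 0), (3, 0, 0, 0, 0), (88, 0, 0, 0, 0), (72, 0, 0, 0, 0), (88, 0, 0, 0, 0), (37, 0, 0, 0, 0), (72, 0, 0, 0, 0), (37, 0, 0, 0, 0), (88, 0, 0, 0, 0), (18, 0, 0, 0, 0), (88, 0, 0, 0, 0), (41, 0, 0, 0, 0), (18, 0, 0, 0, 0), (41, 0, 0, 0, 0), (44, 0, 0, 0, 0), (7, 0, 0, 0, 0), (44, 0, 0, 0, 0), (1, 0, 0, 0, 0), (7, 0, 0, 0, 0), (1, 0, 0, 0, 0),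 (11, 0, 0, 0, 0), (60, 0, 0, 0, 0), (11, 0, 0, 0, 0), (1, 0, 0, 0, 0), (60, 0, 0, 0, 0), (1, 0, 0, 0, 0), (23, 0, 0, 0, 0), (60, 0, 0, 0, 0), (23, 0, 0, 0, 0), (7, 0, 0, 0, 0), (60, 0, 0, 0, 0), (7, 0, 0, 0, 0), (23, 0, 0, 0, 0), (11, 0, 0, 0, 0), (23, 0, 0, 0, 0), (44, 0, 0, 0, 0), (11, 0, 0, 0, 0), (44, 0, 0, 0, 0), (45, 0, 0, 0, 0), (4, 0, 0, 0, 0), (45, 0, 0, 0, 0), (26, 0, 0, 0, 0), (4, 0, 0, 0, 0), (26, 0, 0, 0, 0), (65, 0, 0, 0, 0), (50, 0, 0, 0, 0), (65, 0, 0, 0, 0), (26, 0, 0, 0, 0), (50, 0, 0, 0, 0), (26, 0, 0, 0, 0), (19, 0, 0, 0, 0), (50, 0, 0, 0, 0), (19, 0, 0, 0, 0), (4, 0, 0, 0, 0), (50, 0, 0, 0, 0), (4, 0, 0, 0, 0), (19, 0, 0, 0, 0), (65, 0, 0, 0, 0), (19, 0, 0, 0, 0), (45, 0, 0, 0, 0), (65, 0, 0, 0, 0), (45, 0, 0, 0, 0), (39, 0, 0, 0, 0), (29, 0, 0,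 0, 0), (39, 0, 0, 0, 0), (25, 0, 0, 0, 0), (29, 0, 0, 0, 0), (25, 0, 0, 0, 0), (61, 0, 0, 0, 0), (49, 0, 0, 0, 0), (61, 0, 0, 0, 0), (25, 0, 0, 0, 0), (49, 0, 0, 0, 0), (25, 0, 0, 0, 0), (73, 0, 0, 0, 0), (49, 0, 0, 0, 0), (73, 0, 0, 0, 0), (29, 0, 0, 0, 0), (49, 0, 0, 0, 0), (29, 0, 0, 0, 0), (73, 0, 0, 0, 0), (61, 0, 0, 0, 0), (73, 0, 0, 0, 0), (39, 0, 0, 0, 0), (61, 0, 0, 0, 0), (39, 0, 0, 0, 0), (63, 0, 0, 0, 0), (53, 0, 0, 0, 0), (63, 0, 0, 0, 0), (47, 0, 0, 0, 0), (53, 0, 0, 0, 0), (47, 0, 0, 0, 0), (16, 0, 0, 0, 0), (12, 0, 0, 0, 0), (16, 0, 0, 0, 0), (47, 0, 0, 0, 0), (12, 0, 0, 0, 0), (47, 0, 0, 0, 0), (80, 0, 0, 0, 0), (80, 0, 0, 0, 0), (12, 0, 0, 0, 0), (53, 0, 0, 0, 0), (80, 0, 0, 0, 0), (80, 0, 0, 0, 0), (16, 0, 0, 0, 0), (63, 0, 0, 0, 0), (40, 0, 0, 0,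 0), (31, 0, 0, 0, 0), (40, 0, 0, 0, 0), (28, 0, 0, 0, 0), (31, 0, 0, 0, 0), (28, 0, 0, 0, 0), (75, 0, 0, 0, 0), (67, 0, 0, 0, 0), (75, 0, 0, 0, 0), (28, 0, 0, 0, 0), (67, 0, 0, 0, 0), (28, 0, 0, 0, 0), (83, 0, 0, 0, 0), (67, 0, 0, 0, 0), (83, 0, 0, 0, 0), (31, 0, 0, 0, 0), (67, 0, 0, 0, 0), (31, 0, 0, 0, 0), (83, 0, 0, 0, 0), (75, 0, 0, 0, 0), (83, 0, 0, 0, 0), (40, 0, 0, 0, 0), (75, 0, 0, 0, 0), (40, 0, 0, 0, 0), (43, 0, 0, 0, 0), (34, 0, 0, 0, 0), (43, 0, 0, 0, 0), (24, 0, 0, 0, 0), (34, 0, 0, 0, 0), (24, 0, 0, 0, 0), (64, 0, 0, 0, 0), (54, 0, 0, 0, 0), (64, 0, 0, 0, 0), (24, 0, 0, 0, 0), (54, 0, 0, 0, 0), (24, 0, 0, 0, 0), (85, 0, 0, 0, 0), (54, 0, 0, 0, 0), (85, 0, 0, 0, 0), (34, 0, 0, 0, 0), (54, 0, 0, 0, 0), (34, 0, 0, 0, 0), (85, 0, 0, 0, 0), (64, 0, 0, 0, 0),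 (85, 0, 0, 0, 0), (43, 0, 0, 0, 0), (64, 0, 0, 0, 0), (43, 0, 0, 0, 0), (45, 0, 0, 0, 0), (45, 0, 0, 0, 0), (4, 0, 0, 0, 0), (26, 0, 0, 0, 0), (65, 0, 0, 0, 0), (50, 0, 0, 0, 0), (65, 0, 0, 0, 0), (26, 0, 0, 0, 0), (50, 0, 0, 0, 0), (26, 0, 0, 0, 0), (19, 0, 0, 0, 0), (50, 0, 0, 0, 0), (19, 0, 0, 0, 0), (4, 0, 0, 0, 0), (50, 0, 0, 0, 0), (4, 0, 0, 0, 0), (19, 0, 0, 0, 0), (65, 0, 0, 0, 0), (45, 0, 0, 0, 0), (45, 0, 0, 0, 0), (35, 0, 0, 0, 0), (35, 0, 0, 0, 0), (5, 0, 0, 0, 0), (27, 0, 0, 0, 0), (55, 0, 0, 0, 0), (51, 0, 0, 0, 0), (55, 0, 0, 0, 0), (27, 0, 0, 0, 0), (51, 0, 0, 0, 0), (27, 0, 0, 0, 0), (15, 0, 0, 0, 0), (51, 0, 0, 0, 0), (15, 0, 0, 0, 0), (5, 0, 0, 0, 0), (51, 0, 0, 0, 0), (5, 0, 0, 0, 0), (15, 0, 0, 0, 0), (55, 0, 0, 0, 0), (35, 0, 0, 0, 0), (35, 0,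 0, 0, 0), (56, 0, 0, 0, 0), (52, 0, 0, 0, 0), (56, 0, 0, 0, 0), (46, 0, 0, 0, 0), (52, 0, 0, 0, 0), (46, 0, 0, 0, 0), (68, 0, 0, 0, 0), (66, 0, 0, 0, 0), (68, 0, 0, 0, 0), (46, 0, 0, 0, 0), (66, 0, 0, 0, 0), (46, 0, 0, 0, 0), (76, 0, 0, 0, 0), (66, 0, 0, 0, 0), (76, 0, 0, 0, 0), (52, 0, 0, 0, 0), (66, 0, 0, 0, 0), (52, 0, 0, 0, 0), (76, 0, 0, 0, 0), (68, 0, 0, 0, 0), (76, 0, 0, 0, 0), (56, 0, 0, 0, 0), (68, 0, 0, 0, 0), (56, 0, 0, 0, 0), (36, 0, 0, 0, 0), (30, 0, 0, 0, 0), (36, 0, 0, 0, 0), (2, 0, 0, 0, 0), (30, 0, 0, 0, 0), (2, 0, 0, 0, 0), (71, 0, 0, 0, 0), (14, 0, 0, 0, 0), (71, 0, 0, 0, 0), (2, 0, 0, 0, 0), (14, 0, 0, 0, 0), (2, 0, 0, 0, 0), (78, 0, 0, 0, 0), (14, 0, 0, 0, 0), (78, 0, 0, 0, 0), (30, 0, 0, 0, 0), (14, 0, 0, 0, 0), (30, 0, 0, 0, 0), (78, 0, 0, 0,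 0), (71, 0, 0, 0, 0), (78, 0, 0, 0, 0), (36, 0, 0, 0, 0), (71, 0, 0, 0, 0), (36, 0, 0, 0, 0), (6, 0, 0, 0, 0), (33, 0, 0, 0, 0), (6, 0, 0, 0, 0), (0, 0, 0, 0, 0), (33, 0, 0, 0, 0), (0, 0, 0, 0, 0), (59, 0, 0, 0, 0), (9, 0, 0, 0, 0), (59, 0, 0, 0, 0), (0, 0, 0, 0, 0), (9, 0, 0, 0, 0), (0, 0, 0, 0, 0), (21, 0, 0, 0, 0), (9, 0, 0, 0, 0), (21, 0, 0, 0, 0), (33, 0, 0, 0, 0), (9, 0, 0, 0, 0), (33, 0, 0, 0, 0), (21, 0, 0, 0, 0), (59, 0, 0, 0, 0), (21, 0, 0, 0, 0), (6, 0, 0, 0, 0), (59, 0, 0, 0, 0), (6, 0, 0, 0, 0), (39, 0, 0, 0, 0), (29, 0, 0, 0, 0), (39, 0, 0, 0, 0), (25, 0, 0, 0, 0), (29, 0, 0, 0, 0), (25, 0, 0, 0, 0), (61, 0, 0, 0, 0), (49, 0, 0, 0, 0), (61, 0, 0, 0, 0), (25, 0, 0, 0, 0), (49, 0, 0, 0, 0), (25, 0, 0, 0, 0), (73, 0, 0, 0, 0), (49, 0, 0, 0, 0), (73, 0, 0,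 0, 0), (29, 0, 0, 0, 0), (49, 0, 0, 0, 0), (29, 0, 0, 0, 0), (73, 0, 0, 0, 0), (61, 0, 0, 0, 0), (73, 0, 0, 0, 0), (39, 0, 0, 0, 0), (61, 0, 0, 0, 0), (39, 0, 0, 0, 0), (35, 0, 0, 0, 0), (5, 0, 0, 0, 0), (35, 0, 0, 0, 0), (27, 0, 0, 0, 0), (5, 0, 0, 0, 0), (27, 0, 0, 0, 0), (55, 0, 0, 0, 0), (51, 0, 0, 0, 0), (55, 0, 0, 0, 0), (27, 0, 0, 0, 0), (51, 0, 0, 0, 0), (27, 0, 0, 0, 0), (15, 0, 0, 0, 0), (51, 0, 0, 0, 0), (15, 0, 0, 0, 0), (5, 0, 0, 0, 0), (51, 0, 0, 0, 0), (5, 0, 0, 0, 0), (15, 0, 0, 0, 0), (55, 0, 0, 0, 0), (15, 0, 0, 0, 0), (35, 0, 0, 0, 0), (55, 0, 0, 0, 0), (35, 0, 0, 0, 0)]]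

theorem tr25 : trK keys lk25 kl25 = true := by
  decide +kernel

theorem x25_0 : expB 3 6 dg13 dg11 m25_0 (l25_0 ++ z25_0) w25_0 = true := by
  decide +kernel

theorem t25_0_0 : chkS lk25 3 6 [(1, m25_0)] l25_0
  [(3, 528, 528, 5448720, 5391120), (0, 528, 528, 5448720, 5391120), (0, 513, 513, 4261155, 2425155), (6, 288, 288, 5517840, 5517840), (2, 18, 18, 274725, 274725), (5, 528, 528, 4534800, 4534800), (0, 33, 258, 1392675, 4391250), (6, 528, 528, 3298320, 3298320), (5, 288, 288, 5513985, 5513985), (0, 33, 258, 1331250, 3412050), (0, 513, 513, 5309490, 5378115), (5, 528, 528, 2315265, 3294465), (1, 288, 288, 3490320, 4411920), (2, 33, 258, 1384515, 4260690), (6, 513, 513, 4199250, 1384500), (2, 513, 513, 5308995, 5308995), (2, 288, 288, 4346640, 3482640), (4, 513,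 513, 5309490, 5378115), (2, 288, 288, 4530945, 4530945), (7, 528, 528, 3490320, 4411920), (2, 528, 528, 2372865, 2372865), (4, 33, 258, 1392690, 4395090), (6, 513, 513, 3212325, 151875), (2, 513, 513, 2102595, 2164020)]
  [(0, -9720), (1, -3240), (2, 9720), (3, 3240), (5, 3240), (7, -3240)] = true := by
  decide +kernel

section

variable {κ ι : Type*} [Fintype κ] [Fintype ι] [Inhabited κ] [Inhabited ι]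

noncomputable def F25_0 (E : Env κ ι) : (Fin 3 → κ) → (Fin 6 → ι) → ℝ := op2 (P13 κ) (P11 ι) (fB E 3 6 m25_0)

def r25_0_0 : List (ℕ × ℤ) := [(0, -9720), (1, -3240), (2, 9720), (3, 3240), (5, 3240), (7, -3240)]

theorem h25_0_0 (E : Env κ ι) : ip (F25_0 E) (F25_0 E) = dotS (ek E lk25) r25_0_0 :=
  op_entryZ E lk25 3 6 _ _ _ _ (pg13 κ) (pg11 ι) m25_0 m25_0 l25_0 z25_0 w25_0 x25_0 (by decide) _ (chkS_sound E lk25 3 6 _ _ _ _ t25_0_0)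

theorem row25_0 (E : Env κ ι) : RowG (ek E lk25) (F25_0 E) [F25_0 E] [r25_0_0] :=
  rowG_cons _ _ _ _ _ _ (h25_0_0 E) (rowG_nil _ _)

def tab25 : List (List (List (ℕ × ℤ))) := [[r25_0_0]]

theorem tri25 (E : Env κ ι) : TriG (ek E lk25) [F25_0 E] tab25 := by
  refine triG_cons _ _ _ _ _ (row25_0 E) ?_
  exact triG_nil _

end

def lk26 : List Key := [
  (2, 4, [(0, [0], [0, 1]), (0, [0], [0, 1]), (0, [1], [2, 3]), (0, [1], [2, 3])]),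
  (2, 5, [(0, [0], [0, 1]), (0, [0], [0, 1]), (0, [1], [2, 3]), (0, [1], [2, 4]), (1, [], [3, 4])]),
  (2, 6, [(0, [0], [0, 1]), (0, [0], [2, 1]), (0, [1], [3, 4]), (0, [1], [3, 5]), (1, [], [4, 5]), (1, [], [0, 2])])]

def kl26 : List ℕ := [8, 36, 63]

def m26_0 : Base := (1, 2, [(0, [0], [0, 1]), (0, [0], [0, 1])])

def l26_0 : Cov := [(1, 1, 2, [(0, [0], [0, 1]), (0, [0], [0, 1])])]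

def z26_0 : Cov := []

def w26_0 : List (List Wit) := [[(0, 0, 0, 16, 16)]]

def m26_1 : Base := (1, 3, [(0, [0], [0, 1]), (0, [0], [0, 2]), (1, [], [1, 2])])

def l26_1 : Cov := [(1, 1, 3, [(0, [0], [0, 1]), (0, [0], [0, 2]), (1, [], [1, 2])])]

def z26_1 : Cov := []

def w26_1 : List (List Wit) := [[(0, 0, 0, 528, 528)]]

theorem tr26 : trK keys lk26 kl26 = true := by
  decide +kernel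

theorem x26_0 : expB 0 0 dg1 dg1 m26_0 (l26_0 ++ z26_0) w26_0 = true := by
  decide +kernel

theorem x26_1 : expB 0 0 dg1 dg1 m26_1 (l26_1 ++ z26_1) w26_1 = true := by
  decide +kernel

theorem t26_0_0 : chkS lk26 0 0 [(1, m26_0)] l26_0
  [(0, 16, 16, 12816, 12816)]
  [(0, 1)] = true := by
  decide +kernel

theorem t26_0_1 : chkS lk26 0 0 [(1, m26_0)] l26_1
  [(1, 16, 16, 274960, 274960)]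
  [(1, 1)] = true := by
  decide +kernel

theorem t26_1_1 : chkS lk26 0 0 [(1, m26_1)] l26_1
  [(2, 16, 16, 5517825, 5517825)]
  [(2, 1)] = true := by
  decide +kernel

section

variable {κ ι : Type*} [Fintype κ] [Fintype ι] [Inhabited κ] [Inhabited ι]

noncomputable def F26_0 (E : Env κ ι) : (Fin 0 → κ) → (Fin 0 → ι) → ℝ := op2 (P1 κ) (P1 ι) (fB E 0 0 m26_0)

noncomputable def F26_1 (E : Env κ ι) : (Fin 0 → κ) → (Fin 0 → ι) → ℝ := op2 (P1 κ) (P1 ι) (fB E 0 0 m26_1)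

def r26_0_0 : List (ℕ × ℤ) := [(0, 1)]

theorem h26_0_0 (E : Env κ ι) : ip (F26_0 E) (F26_0 E) = dotS (ek E lk26) r26_0_0 :=
  op_entryZ E lk26 0 0 _ _ _ _ (pg1 κ) (pg1 ι) m26_0 m26_0 l26_0 z26_0 w26_0 x26_0 (by decide) _ (chkS_sound E lk26 0 0 _ _ _ _ t26_0_0)

def r26_0_1 : List (ℕ × ℤ) := [(1, 1)]

theorem h26_0_1 (E : Env κ ι) : ip (F26_0 E) (F26_1 E) = dotS (ek E lk26) r26_0_1 :=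
  op_entryZ E lk26 0 0 _ _ _ _ (pg1 κ) (pg1 ι) m26_0 m26_1 l26_1 z26_1 w26_1 x26_1 (by decide) _ (chkS_sound E lk26 0 0 _ _ _ _ t26_0_1)

def r26_1_1 : List (ℕ × ℤ) := [(2, 1)]

theorem h26_1_1 (E : Env κ ι) : ip (F26_1 E) (F26_1 E) = dotS (ek E lk26) r26_1_1 :=
  op_entryZ E lk26 0 0 _ _ _ _ (pg1 κ) (pg1 ι) m26_1 m26_1 l26_1 z26_1 w26_1 x26_1 (by decide) _ (chkS_sound E lk26 0 0 _ _ _ _ t26_1_1)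

theorem row26_0 (E : Env κ ι) : RowG (ek E lk26) (F26_0 E) [F26_0 E, F26_1 E] [r26_0_0, r26_0_1] :=
  rowG_cons _ _ _ _ _ _ (h26_0_0 E) (rowG_cons _ _ _ _ _ _ (h26_0_1 E) (rowG_nil _ _))

theorem row26_1 (E : Env κ ι) : RowG (ek E lk26) (F26_1 E) [F26_1 E] [r26_1_1] :=
  rowG_cons _ _ _ _ _ _ (h26_1_1 E) (rowG_nil _ _)

def tab26 : List (List (List (ℕ × ℤ))) := [[r26_0_0, r26_0_1], [r26_1_1]]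

theorem tri26 (E : Env κ ι) : TriG (ek E lk26) [F26_0 E, F26_1 E] tab26 := by
  refine triG_cons _ _ _ _ _ (row26_0 E) ?_
  refine triG_cons _ _ _ _ _ (row26_1 E) ?_
  exact triG_nil _

end

def lk27 : List Key := [
  (2, 4, [(0, [0], [0, 1]), (0, [1], [2, 3]), (0, [1], [0, 2]), (0, [0], [1, 3])]),
  (2, 6, [(0, [0], [0, 1]), (0, [0], [0, 1]), (0, [1], [2, 3]), (0, [1], [2, 3]), (1, [], [4, 5]), (1, [], [4, 5])]),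
  (2, 6, [(0, [0], [0, 1]), (0, [0], [0, 1]), (0, [1], [2, 3]), (0, [1], [2, 4]), (1, [], [4, 5]), (1, [], [3, 5])]),
  (2, 6, [(0, [0], [0, 1]), (0, [0], [0, 1]), (0, [1], [2, 3]), (0, [1], [4, 5]), (1, [], [2, 4]), (1, [], [3, 5])]),
  (2, 6, [(0, [0], [0, 1]), (0, [0], [0, 1]), (0, [1], [2, 3]), (0, [1], [4, 5]), (1, [], [4, 5]), (1, [], [2, 3])]),
  (2, 6, [(0, [0], [0, 1]), (0, [1], [2, 3]), (0, [0], [2, 4]), (0, [1], [0, 5]), (1, [], [3, 5]), (1, [], [1, 4])]),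
  (2, 5, [(0, [0], [0, 1]), (0, [0], [2, 3]), (0, [1], [2, 4]), (0, [1], [0, 4]), (1, [], [1, 3])]),
  (2, 5, [(0, [0], [0, 1]), (0, [0], [0, 2]), (0, [1], [1, 2]), (0, [1], [3, 4]), (1, [], [3, 4])]),
  (2, 5, [(0, [0], [0, 1]), (0, [0], [0, 1]), (0, [1], [2, 3]), (0, [1], [2, 4]), (1, [], [3, 4])]),
  (2, 6, [(0, [0], [0, 1]), (0, [0], [2, 0]), (0, [1], [3, 1]), (0, [1], [4, 5]), (1, [], [4, 5]), (1, [], [2, 3])]),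
  (2, 6, [(0, [0], [0, 1]), (0, [0], [2, 0]), (0, [1], [3, 1]), (0, [1], [4, 5]), (1, [], [2, 4]), (1, [], [3, 5])]),
  (2, 6, [(0, [0], [0, 1]), (0, [0], [2, 0]), (0, [1], [3, 1]), (0, [1], [3, 4]), (1, [], [4, 5]), (1, [], [2, 5])]),
  (2, 5, [(0, [0], [0, 1]), (0, [0], [2, 0]), (0, [1], [3, 1]), (0, [1], [3, 4]), (1, [], [2, 4])]),
  (2, 6, [(0, [0], [0, 1]), (0, [0], [2, 3]), (0, [1], [0, 1]), (0, [1], [4, 5]), (1, [], [4, 5]), (1, [], [2, 3])]),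
  (2, 6, [(0, [0], [0, 1]), (0, [0], [2, 3]), (0, [1], [1, 3]), (0, [1], [4, 5]), (1, [], [4, 5]), (1, [], [0, 2])]),
  (2, 6, [(0, [0], [0, 1]), (0, [0], [2, 1]), (0, [1], [3, 4]), (0, [1], [3, 5]), (1, [], [0, 5]), (1, [], [2, 4])])]

def kl27 : List ℕ := [5, 9, 10, 11, 14, 23, 29, 32, 36, 40, 41, 43, 44, 46, 50, 62]

def m27_0 : Base := (1, 2, [(0, [0], [2, 3]), (0, [0], [2, 3]), (1, [], [0, 1])])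

def l27_0 : Cov := [(4, 1, 2, [(0, [0], [2, 3]), (0, [0], [2, 3]), (1, [], [0, 1])])]

def z27_0 : Cov := []

def w27_0 : List (List Wit) := [[(0, 0, 0, 16, 16), (0, 0, 0, 16, 16)]]

def m27_1 : Base := (1, 2, [(0, [0], [2, 3]), (0, [0], [0, 2]), (1, [], [1, 3])])

def l27_1 : Cov := [(2, 1, 2, [(0, [0], [2, 3]), (0, [0], [0, 2]), (1, [], [1, 3])]),
  (2, 1, 2, [(0, [0], [2, 3]), (0, [0], [1, 2]), (1, [], [0, 3])])]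

def z27_1 : Cov := []

def w27_1 : List (List Wit) := [[(0, 0, 0, 16, 16), (1, 0, 0, 16, 16)]]

def m27_2 : Base := (1, 2, [(0, [0], [2, 3]), (0, [0], [0, 1]), (1, [], [2, 3])])

def l27_2 : Cov := [(4, 1, 2, [(0, [0], [2, 3]), (0, [0], [0, 1]), (1, [], [2, 3])])]

def z27_2 : Cov := []

def w27_2 : List (List Wit) := [[(0, 0, 0, 16, 16), (0, 0, 0, 16, 16)]]

def m27_3 : Base := (1, 1, [(0, [0], [0, 2]), (0, [0], [1, 2])])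

def l27_3 : Cov := [(4, 1, 1, [(0, [0], [0, 2]), (0, [0], [1, 2])])]

def z27_3 : Cov := []

def w27_3 : List (List Wit) := [[(0, 0, 0, 0, 0), (0, 0, 0, 0, 0)]]

def m27_4 : Base := (1, 2, [(0, [0], [0, 2]), (0, [0], [1, 3]), (1, [], [2, 3])])

def l27_4 : Cov := [(4, 1, 2, [(0, [0], [0, 2]), (0, [0], [1, 3]), (1, [], [2, 3])])]

def z27_4 : Cov := []

def w27_4 : List (List Wit) := [[(0, 0, 0, 16, 16), (0, 0, 0, 1, 1)]]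

theorem tr27 : trK keys lk27 kl27 = true := by
  decide +kernel

theorem x27_0 : expB 0 2 dg1 dg2 m27_0 (l27_0 ++ z27_0) w27_0 = true := by
  decide +kernel

theorem x27_1 : expB 0 2 dg1 dg2 m27_1 (l27_1 ++ z27_1) w27_1 = true := by
  decide +kernel

theorem x27_2 : expB 0 2 dg1 dg2 m27_2 (l27_2 ++ z27_2) w27_2 = true := by
  decide +kernel

theorem x27_3 : expB 0 2 dg1 dg2 m27_3 (l27_3 ++ z27_3) w27_3 = true := by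
  decide +kernel

theorem x27_4 : expB 0 2 dg1 dg2 m27_4 (l27_4 ++ z27_4) w27_4 = true := by
  decide +kernel

theorem t27_0_0 : chkS lk27 0 2 [(1, m27_0)] l27_0
  [(1, 16, 16, 3280980, 1070130)]
  [(1, 4)] = true := by
  decide +kernel

theorem t27_0_1 : chkS lk27 0 2 [(1, m27_0)] l27_1
  [(2, 16, 16, 3280980, 1070130), (2, 16, 16, 3280965, 87090)]
  [(2, 4)] = true := by
  decide +kernel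

theorem t27_0_2 : chkS lk27 0 2 [(1, m27_0)] l27_2
  [(4, 16, 16, 3280980, 1070130)]
  [(4, 4)] = true := by
  decide +kernel

theorem t27_0_3 : chkS lk27 0 2 [(1, m27_0)] l27_3
  [(8, 16, 16, 135235, 66610)]
  [(8, 4)] = true := by
  decide +kernel

theorem t27_0_4 : chkS lk27 0 2 [(1, m27_0)] l27_4
  [(3, 16, 16, 5443650, 5324850)]
  [(3, 4)] = true := by
  decide +kernel

theorem t27_1_1 : chkS lk27 0 2 [(1, m27_1)] l27_1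
  [(11, 16, 16, 4399185, 1393410), (15, 16, 16, 4391250, 1392675)]
  [(11, 2), (15, 2)] = true := by
  decide +kernel

theorem t27_1_2 : chkS lk27 0 2 [(1, m27_1)] l27_2
  [(9, 16, 16, 5513265, 5509890)]
  [(9, 4)] = true := by
  decide +kernel

theorem t27_1_3 : chkS lk27 0 2 [(1, m27_1)] l27_3
  [(12, 16, 16, 204865, 82690)]
  [(12, 4)] = true := by
  decide +kernel

theorem t27_1_4 : chkS lk27 0 2 [(1, m27_1)] l27_4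
  [(10, 16, 16, 5447745, 5325570)]
  [(10, 4)] = true := by
  decide +kernel

theorem t27_2_2 : chkS lk27 0 2 [(1, m27_2)] l27_2
  [(13, 16, 16, 5517840, 5517840)]
  [(13, 4)] = true := by
  decide +kernel

theorem t27_2_3 : chkS lk27 0 2 [(1, m27_2)] l27_3
  [(7, 1, 1, 17185, 205060)]
  [(7, 4)] = true := by
  decide +kernel

theorem t27_2_4 : chkS lk27 0 2 [(1, m27_2)] l27_4
  [(14, 1, 1, 2118705, 3282180)]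
  [(14, 4)] = true := by
  decide +kernel

theorem t27_3_3 : chkS lk27 0 2 [(1, m27_3)] l27_3
  [(0, 16, 16, 8496, 4896)]
  [(0, 4)] = true := by
  decide +kernel

theorem t27_3_4 : chkS lk27 0 2 [(1, m27_3)] l27_4
  [(6, 1, 1, 201760, 147760)]
  [(6, 4)] = true := by
  decide +kernel

theorem t27_4_4 : chkS lk27 0 2 [(1, m27_4)] l27_4
  [(5, 16, 16, 3490080, 4411680)]
  [(5, 4)] = true := by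
  decide +kernel

section

variable {κ ι : Type*} [Fintype κ] [Fintype ι] [Inhabited κ] [Inhabited ι]

noncomputable def F27_0 (E : Env κ ι) : (Fin 0 → κ) → (Fin 2 → ι) → ℝ := op2 (P1 κ) (P2 ι) (fB E 0 2 m27_0)

noncomputable def F27_1 (E : Env κ ι) : (Fin 0 → κ) → (Fin 2 → ι) → ℝ := op2 (P1 κ) (P2 ι) (fB E 0 2 m27_1)

noncomputable def F27_2 (E : Env κ ι) : (Fin 0 → κ) → (Fin 2 → ι) → ℝ := op2 (P1 κ) (P2 ι) (fB E 0 2 m27_2)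

noncomputable def F27_3 (E : Env κ ι) : (Fin 0 → κ) → (Fin 2 → ι) → ℝ := op2 (P1 κ) (P2 ι) (fB E 0 2 m27_3)

noncomputable def F27_4 (E : Env κ ι) : (Fin 0 → κ) → (Fin 2 → ι) → ℝ := op2 (P1 κ) (P2 ι) (fB E 0 2 m27_4)

def r27_0_0 : List (ℕ × ℤ) := [(1, 4)]

theorem h27_0_0 (E : Env κ ι) : ip (F27_0 E) (F27_0 E) = dotS (ek E lk27) r27_0_0 :=
  op_entryZ E lk27 0 2 _ _ _ _ (pg1 κ) (pg2 ι) m27_0 m27_0 l27_0 z27_0 w27_0 x27_0 (by decide) _ (chkS_sound E lk27 0 2 _ _ _ _ t27_0_0)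

def r27_0_1 : List (ℕ × ℤ) := [(2, 4)]

theorem h27_0_1 (E : Env κ ι) : ip (F27_0 E) (F27_1 E) = dotS (ek E lk27) r27_0_1 :=
  op_entryZ E lk27 0 2 _ _ _ _ (pg1 κ) (pg2 ι) m27_0 m27_1 l27_1 z27_1 w27_1 x27_1 (by decide) _ (chkS_sound E lk27 0 2 _ _ _ _ t27_0_1)

def r27_0_2 : List (ℕ × ℤ) := [(4, 4)]

theorem h27_0_2 (E : Env κ ι) : ip (F27_0 E) (F27_2 E) = dotS (ek E lk27) r27_0_2 :=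
  op_entryZ E lk27 0 2 _ _ _ _ (pg1 κ) (pg2 ι) m27_0 m27_2 l27_2 z27_2 w27_2 x27_2 (by decide) _ (chkS_sound E lk27 0 2 _ _ _ _ t27_0_2)

def r27_0_3 : List (ℕ × ℤ) := [(8, 4)]

theorem h27_0_3 (E : Env κ ι) : ip (F27_0 E) (F27_3 E) = dotS (ek E lk27) r27_0_3 :=
  op_entryZ E lk27 0 2 _ _ _ _ (pg1 κ) (pg2 ι) m27_0 m27_3 l27_3 z27_3 w27_3 x27_3 (by decide) _ (chkS_sound E lk27 0 2 _ _ _ _ t27_0_3)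

def r27_0_4 : List (ℕ × ℤ) := [(3, 4)]

theorem h27_0_4 (E : Env κ ι) : ip (F27_0 E) (F27_4 E) = dotS (ek E lk27) r27_0_4 :=
  op_entryZ E lk27 0 2 _ _ _ _ (pg1 κ) (pg2 ι) m27_0 m27_4 l27_4 z27_4 w27_4 x27_4 (by decide) _ (chkS_sound E lk27 0 2 _ _ _ _ t27_0_4)

def r27_1_1 : List (ℕ × ℤ) := [(11, 2), (15, 2)]

theorem h27_1_1 (E : Env κ ι) : ip (F27_1 E) (F27_1 E) = dotS (ek E lk27) r27_1_1 :=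
  op_entryZ E lk27 0 2 _ _ _ _ (pg1 κ) (pg2 ι) m27_1 m27_1 l27_1 z27_1 w27_1 x27_1 (by decide) _ (chkS_sound E lk27 0 2 _ _ _ _ t27_1_1)

def r27_1_2 : List (ℕ × ℤ) := [(9, 4)]

theorem h27_1_2 (E : Env κ ι) : ip (F27_1 E) (F27_2 E) = dotS (ek E lk27) r27_1_2 :=
  op_entryZ E lk27 0 2 _ _ _ _ (pg1 κ) (pg2 ι) m27_1 m27_2 l27_2 z27_2 w27_2 x27_2 (by decide) _ (chkS_sound E lk27 0 2 _ _ _ _ t27_1_2)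

def r27_1_3 : List (ℕ × ℤ) := [(12, 4)]

theorem h27_1_3 (E : Env κ ι) : ip (F27_1 E) (F27_3 E) = dotS (ek E lk27) r27_1_3 :=
  op_entryZ E lk27 0 2 _ _ _ _ (pg1 κ) (pg2 ι) m27_1 m27_3 l27_3 z27_3 w27_3 x27_3 (by decide) _ (chkS_sound E lk27 0 2 _ _ _ _ t27_1_3)

def r27_1_4 : List (ℕ × ℤ) := [(10, 4)]

theorem h27_1_4 (E : Env κ ι) : ip (F27_1 E) (F27_4 E) = dotS (ek E lk27) r27_1_4 :=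
  op_entryZ E lk27 0 2 _ _ _ _ (pg1 κ) (pg2 ι) m27_1 m27_4 l27_4 z27_4 w27_4 x27_4 (by decide) _ (chkS_sound E lk27 0 2 _ _ _ _ t27_1_4)

def r27_2_2 : List (ℕ × ℤ) := [(13, 4)]

theorem h27_2_2 (E : Env κ ι) : ip (F27_2 E) (F27_2 E) = dotS (ek E lk27) r27_2_2 :=
  op_entryZ E lk27 0 2 _ _ _ _ (pg1 κ) (pg2 ι) m27_2 m27_2 l27_2 z27_2 w27_2 x27_2 (by decide) _ (chkS_sound E lk27 0 2 _ _ _ _ t27_2_2)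

def r27_2_3 : List (ℕ × ℤ) := [(7, 4)]

theorem h27_2_3 (E : Env κ ι) : ip (F27_2 E) (F27_3 E) = dotS (ek E lk27) r27_2_3 :=
  op_entryZ E lk27 0 2 _ _ _ _ (pg1 κ) (pg2 ι) m27_2 m27_3 l27_3 z27_3 w27_3 x27_3 (by decide) _ (chkS_sound E lk27 0 2 _ _ _ _ t27_2_3)

def r27_2_4 : List (ℕ × ℤ) := [(14, 4)]

theorem h27_2_4 (E : Env κ ι) : ip (F27_2 E) (F27_4 E) = dotS (ek E lk27) r27_2_4 :=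
  op_entryZ E lk27 0 2 _ _ _ _ (pg1 κ) (pg2 ι) m27_2 m27_4 l27_4 z27_4 w27_4 x27_4 (by decide) _ (chkS_sound E lk27 0 2 _ _ _ _ t27_2_4)

def r27_3_3 : List (ℕ × ℤ) := [(0, 4)]

theorem h27_3_3 (E : Env κ ι) : ip (F27_3 E) (F27_3 E) = dotS (ek E lk27) r27_3_3 :=
  op_entryZ E lk27 0 2 _ _ _ _ (pg1 κ) (pg2 ι) m27_3 m27_3 l27_3 z27_3 w27_3 x27_3 (by decide) _ (chkS_sound E lk27 0 2 _ _ _ _ t27_3_3)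

def r27_3_4 : List (ℕ × ℤ) := [(6, 4)]

theorem h27_3_4 (E : Env κ ι) : ip (F27_3 E) (F27_4 E) = dotS (ek E lk27) r27_3_4 :=
  op_entryZ E lk27 0 2 _ _ _ _ (pg1 κ) (pg2 ι) m27_3 m27_4 l27_4 z27_4 w27_4 x27_4 (by decide) _ (chkS_sound E lk27 0 2 _ _ _ _ t27_3_4)

def r27_4_4 : List (ℕ × ℤ) := [(5, 4)]

theorem h27_4_4 (E : Env κ ι) : ip (F27_4 E) (F27_4 E) = dotS (ek E lk27) r27_4_4 :=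
  op_entryZ E lk27 0 2 _ _ _ _ (pg1 κ) (pg2 ι) m27_4 m27_4 l27_4 z27_4 w27_4 x27_4 (by decide) _ (chkS_sound E lk27 0 2 _ _ _ _ t27_4_4)

theorem row27_0 (E : Env κ ι) : RowG (ek E lk27) (F27_0 E) [F27_0 E, F27_1 E, F27_2 E, F27_3 E, F27_4 E] [r27_0_0, r27_0_1, r27_0_2, r27_0_3, r27_0_4] :=
  rowG_cons _ _ _ _ _ _ (h27_0_0 E) (rowG_cons _ _ _ _ _ _ (h27_0_1 E) (rowG_cons _ _ _ _ _ _ (h27_0_2 E) (rowG_cons _ _ _ _ _ _ (h27_0_3 E) (rowG_cons _ _ _ _ _ _ (h27_0_4 E) (rowG_nil _ _)))))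

theorem row27_1 (E : Env κ ι) : RowG (ek E lk27) (F27_1 E) [F27_1 E, F27_2 E, F27_3 E, F27_4 E] [r27_1_1, r27_1_2, r27_1_3, r27_1_4] :=
  rowG_cons _ _ _ _ _ _ (h27_1_1 E) (rowG_cons _ _ _ _ _ _ (h27_1_2 E) (rowG_cons _ _ _ _ _ _ (h27_1_3 E) (rowG_cons _ _ _ _ _ _ (h27_1_4 E) (rowG_nil _ _))))

theorem row27_2 (E : Env κ ι) : RowG (ek E lk27) (F27_2 E) [F27_2 E, F27_3 E, F27_4 E] [r27_2_2, r27_2_3, r27_2_4] :=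
  rowG_cons _ _ _ _ _ _ (h27_2_2 E) (rowG_cons _ _ _ _ _ _ (h27_2_3 E) (rowG_cons _ _ _ _ _ _ (h27_2_4 E) (rowG_nil _ _)))

theorem row27_3 (E : Env κ ι) : RowG (ek E lk27) (F27_3 E) [F27_3 E, F27_4 E] [r27_3_3, r27_3_4] :=
  rowG_cons _ _ _ _ _ _ (h27_3_3 E) (rowG_cons _ _ _ _ _ _ (h27_3_4 E) (rowG_nil _ _))

theorem row27_4 (E : Env κ ι) : RowG (ek E lk27) (F27_4 E) [F27_4 E] [r27_4_4] :=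
  rowG_cons _ _ _ _ _ _ (h27_4_4 E) (rowG_nil _ _)

def tab27 : List (List (List (ℕ × ℤ))) := [[r27_0_0, r27_0_1, r27_0_2, r27_0_3, r27_0_4], [r27_1_1, r27_1_2, r27_1_3, r27_1_4], [r27_2_2, r27_2_3, r27_2_4], [r27_3_3, r27_3_4], [r27_4_4]]

theorem tri27 (E : Env κ ι) : TriG (ek E lk27) [F27_0 E, F27_1 E, F27_2 E, F27_3 E, F27_4 E] tab27 := by
  refine triG_cons _ _ _ _ _ (row27_0 E) ?_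
  refine triG_cons _ _ _ _ _ (row27_1 E) ?_
  refine triG_cons _ _ _ _ _ (row27_2 E) ?_
  refine triG_cons _ _ _ _ _ (row27_3 E) ?_
  refine triG_cons _ _ _ _ _ (row27_4 E) ?_
  exact triG_nil _

end

def lk28 : List Key := [
  (2, 6, [(0, [0], [0, 1]), (0, [0], [2, 0]), (0, [1], [3, 1]), (0, [1], [3, 4]), (1, [], [4, 5]), (1, [], [2, 5])]),
  (2, 6, [(0, [0], [0, 1]), (0, [0], [2, 1]), (0, [1], [3, 4]), (0, [1], [3, 5]), (1, [], [0, 5]), (1, [], [2, 4])])]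

def kl28 : List ℕ := [43, 62]

def m28_0 : Base := (1, 2, [(0, [0], [2, 3]), (0, [0], [0, 2]), (1, [], [1, 3])])

def l28_0 : Cov := [(2, 1, 2, [(0, [0], [2, 3]), (0, [0], [0, 2]), (1, [], [1, 3])]),
  (-2, 1, 2, [(0, [0], [2, 3]), (0, [0], [1, 2]), (1, [], [0, 3])])]

def z28_0 : Cov := []

def w28_0 : List (List Wit) := [[(0, 0, 0, 16, 16), (1, 0, 0, 16, 16)]]

theorem tr28 : trK keys lk28 kl28 = true := by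
  decide +kernel

theorem x28_0 : expB 0 2 dg1 dg3 m28_0 (l28_0 ++ z28_0) w28_0 = true := by
  decide +kernel

theorem t28_0_0 : chkS lk28 0 2 [(1, m28_0)] l28_0
  [(0, 16, 16, 4399185, 1393410), (1, 16, 16, 4391250, 1392675)]
  [(0, 2), (1, -2)] = true := by
  decide +kernel

section

variable {κ ι : Type*} [Fintype κ] [Fintype ι] [Inhabited κ] [Inhabited ι]

noncomputable def F28_0 (E : Env κ ι) : (Fin 0 → κ) → (Fin 2 → ι) → ℝ := op2 (P1 κ) (P3 ι) (fB E 0 2 m28_0)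

def r28_0_0 : List (ℕ × ℤ) := [(0, 2), (1, -2)]

theorem h28_0_0 (E : Env κ ι) : ip (F28_0 E) (F28_0 E) = dotS (ek E lk28) r28_0_0 :=
  op_entryZ E lk28 0 2 _ _ _ _ (pg1 κ) (pg3 ι) m28_0 m28_0 l28_0 z28_0 w28_0 x28_0 (by decide) _ (chkS_sound E lk28 0 2 _ _ _ _ t28_0_0)

theorem row28_0 (E : Env κ ι) : RowG (ek E lk28) (F28_0 E) [F28_0 E] [r28_0_0] :=
  rowG_cons _ _ _ _ _ _ (h28_0_0 E) (rowG_nil _ _)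

def tab28 : List (List (List (ℕ × ℤ))) := [[r28_0_0]]

theorem tri28 (E : Env κ ι) : TriG (ek E lk28) [F28_0 E] tab28 := by
  refine triG_cons _ _ _ _ _ (row28_0 E) ?_
  exact triG_nil _

end

def lk29 : List Key := [
  (2, 4, [(0, [0], [0, 1]), (0, [1], [2, 3]), (0, [0], [2, 3]), (0, [1], [0, 1])]),
  (2, 4, [(0, [0], [0, 1]), (0, [0], [2, 3]), (0, [1], [0, 2]), (0, [1], [1, 3])]),
  (2, 6, [(0, [0], [0, 1]), (0, [1], [2, 3]), (0, [1], [0, 2]), (0, [0], [1, 3]), (1, [], [4, 5]), (1, [], [4, 5])]),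
  (2, 6, [(0, [0], [0, 1]), (0, [1], [2, 3]), (0, [0], [2, 4]), (0, [1], [0, 5]), (1, [], [4, 5]), (1, [], [1, 3])]),
  (2, 5, [(0, [0], [0, 1]), (0, [1], [0, 2]), (0, [0], [2, 3]), (0, [1], [1, 4]), (1, [], [3, 4])]),
  (2, 5, [(0, [0], [0, 1]), (0, [0], [2, 3]), (0, [1], [2, 4]), (0, [1], [0, 4]), (1, [], [1, 3])]),
  (2, 5, [(0, [0], [0, 1]), (0, [0], [0, 2]), (0, [1], [1, 2]), (0, [1], [3, 4]), (1, [], [3, 4])]),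
  (2, 6, [(0, [0], [0, 1]), (0, [0], [0, 2]), (0, [1], [1, 2]), (0, [1], [3, 4]), (1, [], [3, 5]), (1, [], [4, 5])]),
  (2, 6, [(0, [0], [0, 1]), (0, [0], [2, 0]), (0, [1], [3, 1]), (0, [1], [4, 5]), (1, [], [4, 5]), (1, [], [2, 3])]),
  (2, 6, [(0, [0], [0, 1]), (0, [0], [2, 0]), (0, [1], [3, 1]), (0, [1], [4, 5]), (1, [], [2, 4]), (1, [], [3, 5])]),
  (2, 6, [(0, [0], [0, 1]), (0, [0], [2, 0]), (0, [1], [3, 1]), (0, [1], [2, 4]), (1, [], [4, 5]), (1, [], [3, 5])]),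
  (2, 6, [(0, [0], [0, 1]), (0, [0], [2, 0]), (0, [1], [3, 1]), (0, [1], [3, 4]), (1, [], [4, 5]), (1, [], [2, 5])]),
  (2, 6, [(0, [0], [0, 1]), (0, [0], [2, 3]), (0, [1], [0, 1]), (0, [1], [4, 5]), (1, [], [2, 4]), (1, [], [3, 5])]),
  (2, 6, [(0, [0], [0, 1]), (0, [0], [2, 3]), (0, [1], [0, 1]), (0, [1], [2, 4]), (1, [], [4, 5]), (1, [], [3, 5])]),
  (2, 5, [(0, [0], [0, 1]), (0, [0], [2, 3]), (0, [1], [0, 1]), (0, [1], [2, 4]), (1, [], [3, 4])]),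
  (2, 6, [(0, [0], [0, 1]), (0, [0], [2, 3]), (0, [1], [1, 3]), (0, [1], [4, 5]), (1, [], [0, 4]), (1, [], [2, 5])]),
  (2, 6, [(0, [0], [0, 1]), (0, [0], [2, 3]), (0, [1], [1, 3]), (0, [1], [0, 4]), (1, [], [4, 5]), (1, [], [2, 5])]),
  (2, 6, [(0, [0], [0, 1]), (0, [0], [2, 1]), (0, [1], [3, 4]), (0, [1], [3, 5]), (1, [], [4, 5]), (1, [], [0, 2])]),
  (2, 6, [(0, [0], [0, 1]), (0, [0], [2, 3]), (0, [1], [4, 1]), (0, [1], [2, 5]), (1, [], [3, 5]), (1, [], [0, 4])])]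

def kl29 : List ℕ := [2, 6, 19, 21, 28, 29, 32, 33, 40, 41, 42, 43, 47, 48, 49, 51, 52, 63, 65]

def m29_0 : Base := (1, 1, [(0, [0], [0, 4]), (0, [0], [1, 4]), (1, [], [2, 3])])

def l29_0 : Cov := [(96, 1, 1, [(0, [0], [0, 4]), (0, [0], [1, 4]), (1, [], [2, 3])]),
  (96, 1, 1, [(0, [0], [0, 4]), (0, [0], [2, 4]), (1, [], [1, 3])]),
  (96, 1, 1, [(0, [0], [0, 4]), (0, [0], [3, 4]), (1, [], [1, 2])]),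
  (96, 1, 1, [(0, [0], [1, 4]), (0, [0], [2, 4]), (1, [], [0, 3])]),
  (96, 1, 1, [(0, [0], [1, 4]), (0, [0], [3, 4]), (1, [], [0, 2])]),
  (96, 1, 1, [(0, [0], [2, 4]), (0, [0], [3, 4]), (1, [], [0, 1])])]

def z29_0 : Cov := []

def w29_0 : List (List Wit) := [[(0, 0, 0, 0, 0), (0, 0, 0, 0, 0), (1, 0, 0, 0, 0), (1, 0, 0, 0, 0), (2, 0, 0, 0, 0), (2, 0, 0, 0, 0), (0, 0, 0, 0, 0), (0, 0, 0, 0, 0), (3, 0, 0, 0, 0), (3, 0, 0, 0, 0), (4, 0, 0, 0, 0), (4, 0, 0, 0, 0), (1, 0, 0, 0, 0), (1, 0, 0, 0, 0), (3, 0, 0, 0, 0), (3, 0, 0, 0, 0), (5, 0, 0, 0, 0), (5, 0, 0, 0, 0), (2, 0, 0, 0, 0), (2, 0, 0, 0, 0), (4, 0, 0, 0, 0), (4, 0, 0, 0, 0), (5, 0, 0, 0, 0), (5, 0, 0, 0, 0)]]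

def m29_1 : Base := (1, 1, [(0, [0], [0, 4]), (0, [0], [1, 2]), (1, [], [3, 4])])

def l29_1 : Cov := [(48, 1, 1, [(0, [0], [0, 4]), (0, [0], [1, 2]), (1, [], [3, 4])]),
  (48, 1, 1, [(0, [0], [0, 4]), (0, [0], [1, 3]), (1, [], [2, 4])]),
  (48, 1, 1, [(0, [0], [0, 4]), (0, [0], [2, 3]), (1, [], [1, 4])]),
  (48, 1, 1, [(0, [0], [1, 4]), (0, [0], [0, 2]), (1, [], [3, 4])]),
  (48, 1, 1, [(0, [0], [1, 4]), (0, [0], [0, 3]), (1, [], [2, 4])]),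
  (48, 1, 1, [(0, [0], [1, 4]), (0, [0], [2, 3]), (1, [], [0, 4])]),
  (48, 1, 1, [(0, [0], [2, 4]), (0, [0], [0, 1]), (1, [], [3, 4])]),
  (48, 1, 1, [(0, [0], [2, 4]), (0, [0], [0, 3]), (1, [], [1, 4])]),
  (48, 1, 1, [(0, [0], [2, 4]), (0, [0], [1, 3]), (1, [], [0, 4])]),
  (48, 1, 1, [(0, [0], [3, 4]), (0, [0], [0, 1]), (1, [], [2, 4])]),
  (48, 1, 1, [(0, [0], [3, 4]), (0, [0], [0, 2]), (1, [], [1, 4])]),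
  (48, 1, 1, [(0, [0], [3, 4]), (0, [0], [1, 2]), (1, [], [0, 4])])]

def z29_1 : Cov := []

def w29_1 : List (List Wit) := [[(0, 0, 0, 0, 0), (1, 0, 0, 0, 0), (0, 0, 0, 0, 0), (2, 0, 0, 0, 0), (1, 0, 0, 0, 0), (2, 0, 0, 0, 0), (3, 0, 0, 0, 0), (4, 0, 0, 0, 0), (3, 0, 0, 0, 0), (5, 0, 0, 0, 0), (4, 0, 0, 0, 0), (5, 0, 0, 0, 0), (6, 0, 0, 0, 0), (7, 0, 0, 0, 0), (6, 0, 0, 0, 0), (8, 0, 0, 0, 0), (7, 0, 0, 0, 0), (8, 0, 0, 0, 0), (9, 0, 0, 0, 0), (10, 0, 0, 0, 0), (9, 0, 0, 0, 0), (11, 0, 0, 0, 0), (10, 0, 0, 0, 0), (11, 0, 0, 0, 0)]]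

def m29_2 : Base := (1, 0, [(0, [0], [0, 1]), (0, [0], [2, 3])])

def l29_2 : Cov := [(192, 1, 0, [(0, [0], [0, 1]), (0, [0], [2, 3])]),
  (192, 1, 0, [(0, [0], [0, 2]), (0, [0], [1, 3])]),
  (192, 1, 0, [(0, [0], [0, 3]), (0, [0], [1, 2])])]

def z29_2 : Cov := []

def w29_2 : List (List Wit) := [[(0, 0, 0, 0, 0), (0, 0, 0, 0, 0), (1, 0, 0, 0, 0), (1, 0, 0, 0, 0), (2, 0, 0, 0, 0), (2, 0, 0, 0, 0), (0, 0, 0, 0, 0), (0, 0, 0, 0, 0), (2, 0, 0, 0, 0), (2, 0, 0, 0, 0), (1, 0, 0, 0, 0), (1, 0, 0, 0, 0), (1, 0, 0, 0, 0), (1, 0, 0, 0, 0), (2, 0, 0, 0, 0), (2, 0, 0, 0, 0), (0, 0, 0, 0, 0), (0, 0, 0, 0, 0), (2, 0, 0, 0, 0), (2, 0, 0, 0, 0), (1, 0, 0, 0, 0), (1, 0, 0, 0, 0), (0, 0, 0, 0, 0), (0, 0, 0, 0, 0)]]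

theorem tr29 : trK keys lk29 kl29 = true := by
  decide +kernel

theorem x29_0 : expB 0 4 dg1 dg4 m29_0 (l29_0 ++ z29_0) w29_0 = true := by
  decide +kernel

theorem x29_1 : expB 0 4 dg1 dg4 m29_1 (l29_1 ++ z29_1) w29_1 = true := by
  decide +kernel

theorem x29_2 : expB 0 4 dg1 dg4 m29_2 (l29_2 ++ z29_2) w29_2 = true := by
  decide +kernel

theorem t29_0_0 : chkS lk29 0 4 [(1, m29_0)] l29_0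
  [(2, 16, 16, 2184240, 3282240), (11, 16, 16, 3167265, 3297540), (11, 16, 16, 3163425, 2314500), (11, 16, 16, 3167250, 3297300), (11, 16, 16, 3163410, 2314260), (17, 16, 16, 3232800, 3297600)]
  [(2, 96), (11, 384), (17, 96)] = true := by
  decide +kernel

theorem t29_0_1 : chkS lk29 0 4 [(1, m29_0)] l29_1
  [(10, 16, 16, 3167265, 3297540), (10, 16, 16, 3163425, 2314500), (8, 16, 16, 3167265, 3297540), (10, 16, 16, 4215585, 3481860), (10, 16, 16, 4207905, 2437380), (8, 16, 16, 3167250, 3297300), (7, 16, 16, 4215585, 3481860), (9, 16, 16, 4207905, 2437380), (9, 16, 16, 4207890, 2437140), (7, 16, 16, 4207905, 2437380), (9, 16, 16, 4215585, 3481860), (9, 16, 16, 4215570, 3481620)]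
  [(7, 96), (8, 96), (9, 192), (10, 192)] = true := by
  decide +kernel

theorem t29_0_2 : chkS lk29 0 4 [(1, m29_0)] l29_2
  [(6, 16, 16, 17185, 205060), (5, 1, 1, 274720, 274720), (5, 1, 1, 267040, 270640)]
  [(5, 384), (6, 192)] = true := by
  decide +kernel

theorem t29_1_1 : chkS lk29 0 4 [(1, m29_1)] l29_1
  [(13, 16, 16, 4411650, 3489825), (3, 16, 16, 5321760, 5386560), (3, 16, 16, 5321280, 5321280), (16, 16, 16, 4346115, 3474465), (18, 16, 16, 5260065, 5447940), (15, 1, 1, 336660, 4203285), (16, 16, 16, 4345875, 3474450), (18, 16, 16, 5259825, 5444100), (15, 1, 1, 336180, 4199205), (15, 16, 16, 5259825, 5444100), (15, 16, 16, 5260065, 5447940), (12, 16, 16, 4411650, 3489825)]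
  [(3, 96), (12, 48), (13, 48), (15, 192), (16, 96), (18, 96)] = true := by
  decide +kernel

theorem t29_1_2 : chkS lk29 0 4 [(1, m29_1)] l29_2
  [(4, 16, 16, 213250, 213025), (4, 16, 16, 213010, 213010), (14, 16, 16, 213250, 213025)]
  [(4, 384), (14, 192)] = true := by
  decide +kernel

theorem t29_2_2 : chkS lk29 0 4 [(1, m29_2)] l29_2
  [(0, 16, 16, 12816, 12816), (1, 16, 16, 12816, 12816), (1, 16, 16, 8976, 8976)]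
  [(0, 192), (1, 384)] = true := by
  decide +kernel

section

variable {κ ι : Type*} [Fintype κ] [Fintype ι] [Inhabited κ] [Inhabited ι]

noncomputable def F29_0 (E : Env κ ι) : (Fin 0 → κ) → (Fin 4 → ι) → ℝ := op2 (P1 κ) (P4 ι) (fB E 0 4 m29_0)

noncomputable def F29_1 (E : Env κ ι) : (Fin 0 → κ) → (Fin 4 → ι) → ℝ := op2 (P1 κ) (P4 ι) (fB E 0 4 m29_1)

noncomputable def F29_2 (E : Env κ ι) : (Fin 0 → κ) → (Fin 4 → ι) → ℝ := op2 (P1 κ) (P4 ι) (fB E 0 4 m29_2)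

def r29_0_0 : List (ℕ × ℤ) := [(2, 96), (11, 384), (17, 96)]

theorem h29_0_0 (E : Env κ ι) : ip (F29_0 E) (F29_0 E) = dotS (ek E lk29) r29_0_0 :=
  op_entryZ E lk29 0 4 _ _ _ _ (pg1 κ) (pg4 ι) m29_0 m29_0 l29_0 z29_0 w29_0 x29_0 (by decide) _ (chkS_sound E lk29 0 4 _ _ _ _ t29_0_0)

def r29_0_1 : List (ℕ × ℤ) := [(7, 96), (8, 96), (9, 192), (10, 192)]

theorem h29_0_1 (E : Env κ ι) : ip (F29_0 E) (F29_1 E) = dotS (ek E lk29) r29_0_1 :=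
  op_entryZ E lk29 0 4 _ _ _ _ (pg1 κ) (pg4 ι) m29_0 m29_1 l29_1 z29_1 w29_1 x29_1 (by decide) _ (chkS_sound E lk29 0 4 _ _ _ _ t29_0_1)

def r29_0_2 : List (ℕ × ℤ) := [(5, 384), (6, 192)]

theorem h29_0_2 (E : Env κ ι) : ip (F29_0 E) (F29_2 E) = dotS (ek E lk29) r29_0_2 :=
  op_entryZ E lk29 0 4 _ _ _ _ (pg1 κ) (pg4 ι) m29_0 m29_2 l29_2 z29_2 w29_2 x29_2 (by decide) _ (chkS_sound E lk29 0 4 _ _ _ _ t29_0_2)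

def r29_1_1 : List (ℕ × ℤ) := [(3, 96), (12, 48), (13, 48), (15, 192), (16, 96), (18, 96)]

theorem h29_1_1 (E : Env κ ι) : ip (F29_1 E) (F29_1 E) = dotS (ek E lk29) r29_1_1 :=
  op_entryZ E lk29 0 4 _ _ _ _ (pg1 κ) (pg4 ι) m29_1 m29_1 l29_1 z29_1 w29_1 x29_1 (by decide) _ (chkS_sound E lk29 0 4 _ _ _ _ t29_1_1)

def r29_1_2 : List (ℕ × ℤ) := [(4, 384), (14, 192)]

theorem h29_1_2 (E : Env κ ι) : ip (F29_1 E) (F29_2 E) = dotS (ek E lk29) r29_1_2 :=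
  op_entryZ E lk29 0 4 _ _ _ _ (pg1 κ) (pg4 ι) m29_1 m29_2 l29_2 z29_2 w29_2 x29_2 (by decide) _ (chkS_sound E lk29 0 4 _ _ _ _ t29_1_2)

def r29_2_2 : List (ℕ × ℤ) := [(0, 192), (1, 384)]

theorem h29_2_2 (E : Env κ ι) : ip (F29_2 E) (F29_2 E) = dotS (ek E lk29) r29_2_2 :=
  op_entryZ E lk29 0 4 _ _ _ _ (pg1 κ) (pg4 ι) m29_2 m29_2 l29_2 z29_2 w29_2 x29_2 (by decide) _ (chkS_sound E lk29 0 4 _ _ _ _ t29_2_2)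

theorem row29_0 (E : Env κ ι) : RowG (ek E lk29) (F29_0 E) [F29_0 E, F29_1 E, F29_2 E] [r29_0_0, r29_0_1, r29_0_2] :=
  rowG_cons _ _ _ _ _ _ (h29_0_0 E) (rowG_cons _ _ _ _ _ _ (h29_0_1 E) (rowG_cons _ _ _ _ _ _ (h29_0_2 E) (rowG_nil _ _)))

theorem row29_1 (E : Env κ ι) : RowG (ek E lk29) (F29_1 E) [F29_1 E, F29_2 E] [r29_1_1, r29_1_2] :=
  rowG_cons _ _ _ _ _ _ (h29_1_1 E) (rowG_cons _ _ _ _ _ _ (h29_1_2 E) (rowG_nil _ _))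

theorem row29_2 (E : Env κ ι) : RowG (ek E lk29) (F29_2 E) [F29_2 E] [r29_2_2] :=
  rowG_cons _ _ _ _ _ _ (h29_2_2 E) (rowG_nil _ _)

def tab29 : List (List (List (ℕ × ℤ))) := [[r29_0_0, r29_0_1, r29_0_2], [r29_1_1, r29_1_2], [r29_2_2]]

theorem tri29 (E : Env κ ι) : TriG (ek E lk29) [F29_0 E, F29_1 E, F29_2 E] tab29 := by
  refine triG_cons _ _ _ _ _ (row29_0 E) ?_
  refine triG_cons _ _ _ _ _ (row29_1 E) ?_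
  refine triG_cons _ _ _ _ _ (row29_2 E) ?_
  exact triG_nil _

end

def lk30 : List Key := [
  (2, 6, [(0, [0], [0, 1]), (0, [1], [2, 3]), (0, [1], [0, 2]), (0, [0], [1, 3]), (1, [], [4, 5]), (1, [], [4, 5])]),
  (2, 6, [(0, [0], [0, 1]), (0, [1], [2, 3]), (0, [0], [2, 4]), (0, [1], [0, 5]), (1, [], [4, 5]), (1, [], [1, 3])]),
  (2, 6, [(0, [0], [0, 1]), (0, [0], [0, 2]), (0, [1], [1, 2]), (0, [1], [3, 4]), (1, [], [3, 5]), (1, [], [4, 5])]),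
  (2, 6, [(0, [0], [0, 1]), (0, [0], [2, 0]), (0, [1], [3, 1]), (0, [1], [4, 5]), (1, [], [4, 5]), (1, [], [2, 3])]),
  (2, 6, [(0, [0], [0, 1]), (0, [0], [2, 0]), (0, [1], [3, 1]), (0, [1], [4, 5]), (1, [], [2, 4]), (1, [], [3, 5])]),
  (2, 6, [(0, [0], [0, 1]), (0, [0], [2, 0]), (0, [1], [3, 1]), (0, [1], [2, 4]), (1, [], [4, 5]), (1, [], [3, 5])]),
  (2, 6, [(0, [0], [0, 1]), (0, [0], [2, 0]), (0, [1], [3, 1]), (0, [1], [3, 4]), (1, [], [4, 5]), (1, [], [2, 5])]),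
  (2, 6, [(0, [0], [0, 1]), (0, [0], [2, 3]), (0, [1], [0, 1]), (0, [1], [4, 5]), (1, [], [2, 4]), (1, [], [3, 5])]),
  (2, 6, [(0, [0], [0, 1]), (0, [0], [2, 3]), (0, [1], [0, 1]), (0, [1], [2, 4]), (1, [], [4, 5]), (1, [], [3, 5])]),
  (2, 6, [(0, [0], [0, 1]), (0, [0], [2, 3]), (0, [1], [1, 3]), (0, [1], [4, 5]), (1, [], [0, 4]), (1, [], [2, 5])]),
  (2, 6, [(0, [0], [0, 1]), (0, [0], [2, 3]), (0, [1], [1, 3]), (0, [1], [0, 4]), (1, [], [4, 5]), (1, [], [2, 5])]),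
  (2, 6, [(0, [0], [0, 1]), (0, [0], [2, 1]), (0, [1], [3, 4]), (0, [1], [3, 5]), (1, [], [4, 5]), (1, [], [0, 2])]),
  (2, 6, [(0, [0], [0, 1]), (0, [0], [2, 3]), (0, [1], [4, 1]), (0, [1], [2, 5]), (1, [], [3, 5]), (1, [], [0, 4])])]

def kl30 : List ℕ := [19, 21, 33, 40, 41, 42, 43, 47, 48, 51, 52, 63, 65]

def m30_0 : Base := (1, 1, [(0, [0], [0, 4]), (0, [0], [1, 4]), (1, [], [2, 3])])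

def l30_0 : Cov := [(24, 1, 1, [(0, [0], [0, 4]), (0, [0], [1, 4]), (1, [], [2, 3])]),
  (24, 1, 1, [(0, [0], [0, 4]), (0, [0], [2, 4]), (1, [], [1, 3])]),
  (-24, 1, 1, [(0, [0], [1, 4]), (0, [0], [3, 4]), (1, [], [2, 0])]),
  (-24, 1, 1, [(0, [0], [2, 4]), (0, [0], [3, 4]), (1, [], [1, 0])])]

def z30_0 : Cov := [(0, 1, 1, [(0, [0], [0, 4]), (0, [0], [3, 4]), (1, [], [1, 2])]),
  (0, 1, 1, [(0, [0], [1, 4]), (0, [0], [2, 4]), (1, [], [0, 3])])]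

def w30_0 : List (List Wit) := [[(0, 0, 0, 0, 0), (0, 0, 0, 0, 0), (1, 0, 0, 0, 0), (1, 0, 0, 0, 0), (4, 0, 0, 0, 0), (4, 0, 0, 0, 0), (0, 0, 0, 0, 0), (5, 0, 0, 0, 0), (5, 0, 0, 0, 0), (2, 0, 0, 0, 0), (1, 0, 0, 0, 0), (5, 0, 0, 0, 0), (5, 0, 0, 0, 0), (3, 0, 0, 0, 0), (4, 0, 0, 0, 0), (4, 0, 0, 0, 0), (2, 0, 0, 0, 0), (2, 0, 0, 0, 0), (3, 0, 0, 0, 0), (3, 0, 0, 0, 0)]]

def m30_1 : Base := (1, 1, [(0, [0], [0, 4]), (0, [0], [1, 2]), (1, [], [3, 4])])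

def l30_1 : Cov := [(24, 1, 1, [(0, [0], [0, 4]), (0, [0], [1, 2]), (1, [], [3, 4])]),
  (12, 1, 1, [(0, [0], [0, 4]), (0, [0], [1, 3]), (1, [], [2, 4])]),
  (12, 1, 1, [(0, [0], [0, 4]), (0, [0], [2, 3]), (1, [], [1, 4])]),
  (12, 1, 1, [(0, [0], [1, 4]), (0, [0], [0, 2]), (1, [], [3, 4])]),
  (-12, 1, 1, [(0, [0], [1, 4]), (0, [0], [2, 3]), (1, [], [0, 4])]),
  (12, 1, 1, [(0, [0], [2, 4]), (0, [0], [0, 1]), (1, [], [3, 4])]),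
  (-12, 1, 1, [(0, [0], [2, 4]), (0, [0], [1, 3]), (1, [], [0, 4])]),
  (-12, 1, 1, [(0, [0], [3, 4]), (0, [0], [0, 1]), (1, [], [2, 4])]),
  (-12, 1, 1, [(0, [0], [3, 4]), (0, [0], [0, 2]), (1, [], [1, 4])]),
  (-24, 1, 1, [(0, [0], [3, 4]), (0, [0], [1, 2]), (1, [], [0, 4])])]

def z30_1 : Cov := []

def w30_1 : List (List Wit) := [[(0, 0, 0, 0, 0), (1, 0, 0, 0, 0), (0, 0, 0, 0, 0), (2, 0, 0, 0, 0), (1, 0, 0, 0, 0), (2, 0, 0, 0, 0), (3, 0, 0, 0, 0), (3, 0, 0, 0, 0), (4, 0, 0, 0, 0), (4, 0, 0, 0, 0), (5, 0, 0, 0, 0), (5, 0, 0, 0, 0), (6, 0, 0, 0, 0), (6, 0, 0, 0, 0), (7, 0, 0, 0, 0), (8, 0, 0, 0, 0), (7, 0, 0, 0, 0), (9, 0, 0, 0, 0), (8, 0, 0, 0, 0), (9, 0, 0, 0, 0)]]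

def m30_2 : Base := (1, 1, [(0, [0], [0, 4]), (0, [0], [1, 3]), (1, [], [2, 4])])

def l30_2 : Cov := [(18, 1, 1, [(0, [0], [0, 4]), (0, [0], [1, 3]), (1, [], [2, 4])]),
  (12, 1, 1, [(0, [0], [0, 4]), (0, [0], [1, 2]), (1, [], [3, 4])]),
  (18, 1, 1, [(0, [0], [0, 4]), (0, [0], [2, 3]), (1, [], [1, 4])]),
  (6, 1, 1, [(0, [0], [1, 4]), (0, [0], [2, 3]), (1, [], [0, 4])]),
  (-6, 1, 1, [(0, [0], [1, 4]), (0, [0], [2, 0]), (1, [], [3, 4])]),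
  (6, 1, 1, [(0, [0], [2, 4]), (0, [0], [1, 3]), (1, [], [0, 4])]),
  (-6, 1, 1, [(0, [0], [2, 4]), (0, [0], [1, 0]), (1, [], [3, 4])]),
  (-18, 1, 1, [(0, [0], [3, 4]), (0, [0], [0, 2]), (1, [], [1, 4])]),
  (-18, 1, 1, [(0, [0], [3, 4]), (0, [0], [0, 1]), (1, [], [2, 4])]),
  (-12, 1, 1, [(0, [0], [3, 4]), (0, [0], [1, 2]), (1, [], [0, 4])])]

def z30_2 : Cov := [(0, 1, 1, [(0, [0], [1, 4]), (0, [0], [0, 3]), (1, [], [2, 4])]),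
  (0, 1, 1, [(0, [0], [2, 4]), (0, [0], [0, 3]), (1, [], [1, 4])])]

def w30_2 : List (List Wit) := [[(0, 0, 0, 0, 0), (1, 0, 0, 0, 0), (2, 0, 0, 0, 0), (1, 0, 0, 0, 0), (2, 0, 0, 0, 0), (0, 0, 0, 0, 0), (10, 0, 0, 0, 0), (3, 0, 0, 0, 0), (4, 0, 0, 0, 0), (10, 0, 0, 0, 0), (11, 0, 0, 0, 0), (5, 0, 0, 0, 0), (6, 0, 0, 0, 0), (11, 0, 0, 0, 0), (7, 0, 0, 0, 0), (8, 0, 0, 0, 0), (9, 0, 0, 0, 0), (8, 0, 0, 0, 0), (9, 0, 0, 0, 0), (7, 0, 0, 0, 0)]]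

theorem tr30 : trK keys lk30 kl30 = true := by
  decide +kernel

theorem x30_0 : expB 0 4 dg1 dg5 m30_0 (l30_0 ++ z30_0) w30_0 = true := by
  decide +kernel

theorem x30_1 : expB 0 4 dg1 dg5 m30_1 (l30_1 ++ z30_1) w30_1 = true := by
  decide +kernel

theorem x30_2 : expB 0 4 dg1 dg5 m30_2 (l30_2 ++ z30_2) w30_2 = true := by
  decide +kernel

theorem t30_0_0 : chkS lk30 0 4 [(1, m30_0)] l30_0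
  [(0, 16, 16, 2184240, 3282240), (6, 16, 16, 3167265, 3297540), (6, 16, 16, 3163410, 2314260), (11, 16, 16, 3232800, 3297600)]
  [(0, 24), (11, -24)] = true := by
  decide +kernel

theorem t30_0_1 : chkS lk30 0 4 [(1, m30_0)] l30_1
  [(5, 16, 16, 3167265, 3297540), (5, 16, 16, 3163425, 2314500), (3, 16, 16, 3167265, 3297540), (5, 16, 16, 4215585, 3481860), (3, 16, 16, 3167250, 3297300), (2, 16, 16, 4215585, 3481860), (4, 16, 16, 4207890, 2437140), (2, 16, 16, 4207905, 2437380), (4, 16, 16, 4215585, 3481860), (4, 16, 16, 4215570, 3481620)]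
  [(4, -48), (5, 48)] = true := by
  decide +kernel

theorem t30_0_2 : chkS lk30 0 4 [(1, m30_0)] l30_2
  [(5, 16, 16, 3163425, 2314500), (5, 16, 16, 3167265, 3297540), (3, 16, 16, 3167265, 3297540), (3, 16, 16, 3167250, 3297300), (5, 16, 16, 4215585, 3481860), (4, 16, 16, 4207890, 2437140), (2, 16, 16, 4215585, 3481860), (4, 16, 16, 4215585, 3481860), (2, 16, 16, 4207905, 2437380), (4, 16, 16, 4215570, 3481620)]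
  [(2, -24), (3, 24), (4, -24), (5, 24)] = true := by
  decide +kernel

theorem t30_1_1 : chkS lk30 0 4 [(1, m30_1)] l30_1
  [(8, 16, 16, 4411650, 3489825), (1, 16, 16, 5321760, 5386560), (1, 16, 16, 5321280, 5321280), (10, 16, 16, 4346115, 3474465), (9, 1, 1, 336660, 4203285), (10, 16, 16, 4345875, 3474450), (9, 1, 1, 336180, 4199205), (9, 16, 16, 5259825, 5444100), (9, 16, 16, 5260065, 5447940), (7, 16, 16, 4411650, 3489825)]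
  [(1, 24), (7, -24), (8, 24), (9, -48), (10, 24)] = true := by
  decide +kernel

theorem t30_1_2 : chkS lk30 0 4 [(1, m30_1)] l30_2
  [(1, 16, 16, 5321760, 5386560), (8, 16, 16, 4411650, 3489825), (1, 16, 16, 5321280, 5321280), (9, 1, 1, 336660, 4203285), (10, 16, 16, 4346115, 3474465), (9, 1, 1, 336180, 4199205), (10, 16, 16, 4345875, 3474450), (9, 16, 16, 5260065, 5447940), (9, 16, 16, 5259825, 5444100), (7, 16, 16, 4411650, 3489825)]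
  [(1, 36), (7, -12), (8, 12), (9, -24), (10, -12)] = true := by
  decide +kernel

theorem t30_2_2 : chkS lk30 0 4 [(1, m30_2)] l30_2
  [(8, 16, 16, 4396290, 2441265), (1, 16, 16, 5325600, 5448000), (1, 16, 16, 5317440, 5317440), (9, 1, 1, 340500, 4207125), (12, 16, 16, 5256225, 5386500), (7, 16, 16, 4396290, 2441265), (9, 16, 16, 5252145, 5378820), (12, 16, 16, 5252145, 5378820), (10, 16, 16, 4326675, 2425875), (9, 1, 1, 332340, 4198965)]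
  [(1, 30), (7, 6), (8, 18), (9, -12), (10, -18), (12, -24)] = true := by
  decide +kernel

section

variable {κ ι : Type*} [Fintype κ] [Fintype ι] [Inhabited κ] [Inhabited ι]

noncomputable def F30_0 (E : Env κ ι) : (Fin 0 → κ) → (Fin 4 → ι) → ℝ := op2 (P1 κ) (P5 ι) (fB E 0 4 m30_0)

noncomputable def F30_1 (E : Env κ ι) : (Fin 0 → κ) → (Fin 4 → ι) → ℝ := op2 (P1 κ) (P5 ι) (fB E 0 4 m30_1)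

noncomputable def F30_2 (E : Env κ ι) : (Fin 0 → κ) → (Fin 4 → ι) → ℝ := op2 (P1 κ) (P5 ι) (fB E 0 4 m30_2)

def r30_0_0 : List (ℕ × ℤ) := [(0, 24), (11, -24)]

theorem h30_0_0 (E : Env κ ι) : ip (F30_0 E) (F30_0 E) = dotS (ek E lk30) r30_0_0 :=
  op_entryZ E lk30 0 4 _ _ _ _ (pg1 κ) (pg5 ι) m30_0 m30_0 l30_0 z30_0 w30_0 x30_0 (by decide) _ (chkS_sound E lk30 0 4 _ _ _ _ t30_0_0)

def r30_0_1 : List (ℕ × ℤ) := [(4, -48), (5, 48)]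

theorem h30_0_1 (E : Env κ ι) : ip (F30_0 E) (F30_1 E) = dotS (ek E lk30) r30_0_1 :=
  op_entryZ E lk30 0 4 _ _ _ _ (pg1 κ) (pg5 ι) m30_0 m30_1 l30_1 z30_1 w30_1 x30_1 (by decide) _ (chkS_sound E lk30 0 4 _ _ _ _ t30_0_1)

def r30_0_2 : List (ℕ × ℤ) := [(2, -24), (3, 24), (4, -24), (5, 24)]

theorem h30_0_2 (E : Env κ ι) : ip (F30_0 E) (F30_2 E) = dotS (ek E lk30) r30_0_2 :=
  op_entryZ E lk30 0 4 _ _ _ _ (pg1 κ) (pg5 ι) m30_0 m30_2 l30_2 z30_2 w30_2 x30_2 (by decide) _ (chkS_sound E lk30 0 4 _ _ _ _ t30_0_2)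

def r30_1_1 : List (ℕ × ℤ) := [(1, 24), (7, -24), (8, 24), (9, -48), (10, 24)]

theorem h30_1_1 (E : Env κ ι) : ip (F30_1 E) (F30_1 E) = dotS (ek E lk30) r30_1_1 :=
  op_entryZ E lk30 0 4 _ _ _ _ (pg1 κ) (pg5 ι) m30_1 m30_1 l30_1 z30_1 w30_1 x30_1 (by decide) _ (chkS_sound E lk30 0 4 _ _ _ _ t30_1_1)

def r30_1_2 : List (ℕ × ℤ) := [(1, 36), (7, -12), (8, 12), (9, -24), (10, -12)]

theorem h30_1_2 (E : Env κ ι) : ip (F30_1 E) (F30_2 E) = dotS (ek E lk30) r30_1_2 :=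
  op_entryZ E lk30 0 4 _ _ _ _ (pg1 κ) (pg5 ι) m30_1 m30_2 l30_2 z30_2 w30_2 x30_2 (by decide) _ (chkS_sound E lk30 0 4 _ _ _ _ t30_1_2)

def r30_2_2 : List (ℕ × ℤ) := [(1, 30), (7, 6), (8, 18), (9, -12), (10, -18), (12, -24)]

theorem h30_2_2 (E : Env κ ι) : ip (F30_2 E) (F30_2 E) = dotS (ek E lk30) r30_2_2 :=
  op_entryZ E lk30 0 4 _ _ _ _ (pg1 κ) (pg5 ι) m30_2 m30_2 l30_2 z30_2 w30_2 x30_2 (by decide) _ (chkS_sound E lk30 0 4 _ _ _ _ t30_2_2)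

theorem row30_0 (E : Env κ ι) : RowG (ek E lk30) (F30_0 E) [F30_0 E, F30_1 E, F30_2 E] [r30_0_0, r30_0_1, r30_0_2] :=
  rowG_cons _ _ _ _ _ _ (h30_0_0 E) (rowG_cons _ _ _ _ _ _ (h30_0_1 E) (rowG_cons _ _ _ _ _ _ (h30_0_2 E) (rowG_nil _ _)))

theorem row30_1 (E : Env κ ι) : RowG (ek E lk30) (F30_1 E) [F30_1 E, F30_2 E] [r30_1_1, r30_1_2] :=
  rowG_cons _ _ _ _ _ _ (h30_1_1 E) (rowG_cons _ _ _ _ _ _ (h30_1_2 E) (rowG_nil _ _))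

theorem row30_2 (E : Env κ ι) : RowG (ek E lk30) (F30_2 E) [F30_2 E] [r30_2_2] :=
  rowG_cons _ _ _ _ _ _ (h30_2_2 E) (rowG_nil _ _)

def tab30 : List (List (List (ℕ × ℤ))) := [[r30_0_0, r30_0_1, r30_0_2], [r30_1_1, r30_1_2], [r30_2_2]]

theorem tri30 (E : Env κ ι) : TriG (ek E lk30) [F30_0 E, F30_1 E, F30_2 E] tab30 := by
  refine triG_cons _ _ _ _ _ (row30_0 E) ?_
  refine triG_cons _ _ _ _ _ (row30_1 E) ?_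
  refine triG_cons _ _ _ _ _ (row30_2 E) ?_
  exact triG_nil _

end

def lk31 : List Key := [
  (2, 4, [(0, [0], [0, 1]), (0, [1], [2, 3]), (0, [0], [2, 3]), (0, [1], [0, 1])]),
  (2, 4, [(0, [0], [0, 1]), (0, [0], [2, 3]), (0, [1], [0, 2]), (0, [1], [1, 3])]),
  (2, 6, [(0, [0], [0, 1]), (0, [1], [2, 3]), (0, [1], [0, 2]), (0, [0], [1, 3]), (1, [], [4, 5]), (1, [], [4, 5])]),
  (2, 6, [(0, [0], [0, 1]), (0, [1], [2, 3]), (0, [0], [2, 4]), (0, [1], [0, 5]), (1, [], [4, 5]), (1, [], [1, 3])]),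
  (2, 5, [(0, [0], [0, 1]), (0, [1], [0, 2]), (0, [0], [2, 3]), (0, [1], [1, 4]), (1, [], [3, 4])]),
  (2, 5, [(0, [0], [0, 1]), (0, [0], [2, 3]), (0, [1], [2, 4]), (0, [1], [0, 4]), (1, [], [1, 3])]),
  (2, 5, [(0, [0], [0, 1]), (0, [0], [0, 2]), (0, [1], [1, 2]), (0, [1], [3, 4]), (1, [], [3, 4])]),
  (2, 6, [(0, [0], [0, 1]), (0, [0], [0, 2]), (0, [1], [1, 2]), (0, [1], [3, 4]), (1, [], [3, 5]), (1, [], [4, 5])]),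
  (2, 6, [(0, [0], [0, 1]), (0, [0], [2, 0]), (0, [1], [3, 1]), (0, [1], [4, 5]), (1, [], [4, 5]), (1, [], [2, 3])]),
  (2, 6, [(0, [0], [0, 1]), (0, [0], [2, 0]), (0, [1], [3, 1]), (0, [1], [4, 5]), (1, [], [2, 4]), (1, [], [3, 5])]),
  (2, 6, [(0, [0], [0, 1]), (0, [0], [2, 0]), (0, [1], [3, 1]), (0, [1], [2, 4]), (1, [], [4, 5]), (1, [], [3, 5])]),
  (2, 6, [(0, [0], [0, 1]), (0, [0], [2, 0]), (0, [1], [3, 1]), (0, [1], [3, 4]), (1, [], [4, 5]), (1, [], [2, 5])]),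
  (2, 6, [(0, [0], [0, 1]), (0, [0], [2, 3]), (0, [1], [0, 1]), (0, [1], [4, 5]), (1, [], [2, 4]), (1, [], [3, 5])]),
  (2, 6, [(0, [0], [0, 1]), (0, [0], [2, 3]), (0, [1], [0, 1]), (0, [1], [2, 4]), (1, [], [4, 5]), (1, [], [3, 5])]),
  (2, 5, [(0, [0], [0, 1]), (0, [0], [2, 3]), (0, [1], [0, 1]), (0, [1], [2, 4]), (1, [], [3, 4])]),
  (2, 6, [(0, [0], [0, 1]), (0, [0], [2, 3]), (0, [1], [1, 3]), (0, [1], [4, 5]), (1, [], [0, 4]), (1, [], [2, 5])]),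
  (2, 6, [(0, [0], [0, 1]), (0, [0], [2, 3]), (0, [1], [1, 3]), (0, [1], [0, 4]), (1, [], [4, 5]), (1, [], [2, 5])]),
  (2, 6, [(0, [0], [0, 1]), (0, [0], [2, 1]), (0, [1], [3, 4]), (0, [1], [3, 5]), (1, [], [4, 5]), (1, [], [0, 2])]),
  (2, 6, [(0, [0], [0, 1]), (0, [0], [2, 3]), (0, [1], [4, 1]), (0, [1], [2, 5]), (1, [], [3, 5]), (1, [], [0, 4])])]

def kl31 : List ℕ := [2, 6, 19, 21, 28, 29, 32, 33, 40, 41, 42, 43, 47, 48, 49, 51, 52, 63, 65]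

def m31_0 : Base := (1, 1, [(0, [0], [0, 4]), (0, [0], [1, 4]), (1, [], [2, 3])])

def l31_0 : Cov := [(48, 1, 1, [(0, [0], [0, 4]), (0, [0], [1, 4]), (1, [], [2, 3])]),
  (-48, 1, 1, [(0, [0], [0, 4]), (0, [0], [3, 4]), (1, [], [1, 2])]),
  (-48, 1, 1, [(0, [0], [1, 4]), (0, [0], [2, 4]), (1, [], [0, 3])]),
  (48, 1, 1, [(0, [0], [2, 4]), (0, [0], [3, 4]), (1, [], [0, 1])])]

def z31_0 : Cov := [(0, 1, 1, [(0, [0], [0, 4]), (0, [0], [2, 4]), (1, [], [1, 3])]),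
  (0, 1, 1, [(0, [0], [1, 4]), (0, [0], [3, 4]), (1, [], [0, 2])])]

def w31_0 : List (List Wit) := [[(0, 0, 0, 0, 0), (0, 0, 0, 0, 0), (4, 0, 0, 0, 0), (4, 0, 0, 0, 0), (1, 0, 0, 0, 0), (1, 0, 0, 0, 0), (0, 0, 0, 0, 0), (0, 0, 0, 0, 0), (2, 0, 0, 0, 0), (2, 0, 0, 0, 0), (5, 0, 0, 0, 0), (5, 0, 0, 0, 0), (4, 0, 0, 0, 0), (4, 0, 0, 0, 0), (2, 0, 0, 0, 0), (2, 0, 0, 0, 0), (3, 0, 0, 0, 0), (3, 0, 0, 0, 0), (1, 0, 0, 0, 0), (1, 0, 0, 0, 0), (5, 0, 0, 0, 0), (5, 0, 0, 0, 0), (3, 0, 0, 0, 0), (3, 0, 0, 0, 0)]]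

def m31_1 : Base := (1, 1, [(0, [0], [0, 4]), (0, [0], [1, 2]), (1, [], [3, 4])])

def l31_1 : Cov := [(24, 1, 1, [(0, [0], [0, 4]), (0, [0], [1, 2]), (1, [], [3, 4])]),
  (-24, 1, 1, [(0, [0], [0, 4]), (0, [0], [2, 3]), (1, [], [1, 4])]),
  (24, 1, 1, [(0, [0], [1, 4]), (0, [0], [0, 3]), (1, [], [2, 4])]),
  (-24, 1, 1, [(0, [0], [1, 4]), (0, [0], [2, 3]), (1, [], [0, 4])]),
  (-24, 1, 1, [(0, [0], [2, 4]), (0, [0], [0, 1]), (1, [], [3, 4])]),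
  (24, 1, 1, [(0, [0], [2, 4]), (0, [0], [0, 3]), (1, [], [1, 4])]),
  (-24, 1, 1, [(0, [0], [3, 4]), (0, [0], [0, 1]), (1, [], [2, 4])]),
  (24, 1, 1, [(0, [0], [3, 4]), (0, [0], [1, 2]), (1, [], [0, 4])])]

def z31_1 : Cov := [(0, 1, 1, [(0, [0], [0, 4]), (0, [0], [1, 3]), (1, [], [2, 4])]),
  (0, 1, 1, [(0, [0], [1, 4]), (0, [0], [0, 2]), (1, [], [3, 4])]),
  (0, 1, 1, [(0, [0], [2, 4]), (0, [0], [1, 3]), (1, [], [0, 4])]),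
  (0, 1, 1, [(0, [0], [3, 4]), (0, [0], [0, 2]), (1, [], [1, 4])])]

def w31_1 : List (List Wit) := [[(0, 0, 0, 0, 0), (8, 0, 0, 0, 0), (0, 0, 0, 0, 0), (1, 0, 0, 0, 0), (8, 0, 0, 0, 0), (1, 0, 0, 0, 0), (9, 0, 0, 0, 0), (2, 0, 0, 0, 0), (9, 0, 0, 0, 0), (3, 0, 0, 0, 0), (2, 0, 0, 0, 0), (3, 0, 0, 0, 0), (4, 0, 0, 0, 0), (5, 0, 0, 0, 0), (4, 0, 0, 0, 0), (10, 0, 0, 0, 0), (5, 0, 0, 0, 0), (10, 0, 0, 0, 0), (6, 0, 0, 0, 0), (11, 0, 0, 0, 0), (6, 0, 0, 0, 0), (7, 0, 0, 0, 0), (11, 0, 0, 0, 0), (7, 0, 0, 0, 0)]]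

def m31_2 : Base := (1, 0, [(0, [0], [0, 1]), (0, [0], [2, 3])])

def l31_2 : Cov := [(96, 1, 0, [(0, [0], [0, 1]), (0, [0], [2, 3])]),
  (-96, 1, 0, [(0, [0], [0, 3]), (0, [0], [1, 2])])]

def z31_2 : Cov := [(0, 1, 0, [(0, [0], [0, 2]), (0, [0], [1, 3])])]

def w31_2 : List (List Wit) := [[(0, 0, 0, 0, 0), (0, 0, 0, 0, 0), (2, 0, 0, 0, 0), (2, 0, 0, 0, 0), (1, 0, 0, 0, 0), (1, 0, 0, 0, 0), (0, 0, 0, 0, 0), (0, 0, 0, 0, 0), (1, 0, 0, 0, 0), (1, 0, 0, 0, 0), (2, 0, 0, 0, 0), (2, 0, 0, 0, 0), (2, 0, 0, 0, 0), (2, 0, 0, 0, 0), (1, 0, 0, 0, 0), (1, 0, 0, 0, 0), (0, 0, 0, 0, 0), (0, 0, 0, 0, 0), (1, 0, 0, 0, 0), (1, 0, 0, 0, 0), (2, 0, 0, 0, 0), (2, 0, 0, 0, 0), (0, 0, 0, 0, 0), (0, 0, 0, 0, 0)]]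

theorem tr31 : trK keys lk31 kl31 = true := by
  decide +kernel

theorem x31_0 : expB 0 4 dg1 dg6 m31_0 (l31_0 ++ z31_0) w31_0 = true := by
  decide +kernel

theorem x31_1 : expB 0 4 dg1 dg6 m31_1 (l31_1 ++ z31_1) w31_1 = true := by
  decide +kernel

theorem x31_2 : expB 0 4 dg1 dg6 m31_2 (l31_2 ++ z31_2) w31_2 = true := by
  decide +kernel

theorem t31_0_0 : chkS lk31 0 4 [(1, m31_0)] l31_0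
  [(2, 16, 16, 2184240, 3282240), (11, 16, 16, 3163425, 2314500), (11, 16, 16, 3167250, 3297300), (17, 16, 16, 3232800, 3297600)]
  [(2, 48), (11, -96), (17, 48)] = true := by
  decide +kernel

theorem t31_0_1 : chkS lk31 0 4 [(1, m31_0)] l31_1
  [(10, 16, 16, 3167265, 3297540), (8, 16, 16, 3167265, 3297540), (10, 16, 16, 4207905, 2437380), (8, 16, 16, 3167250, 3297300), (7, 16, 16, 4215585, 3481860), (9, 16, 16, 4207905, 2437380), (7, 16, 16, 4207905, 2437380), (9, 16, 16, 4215570, 3481620)]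
  [(7, -48), (8, -48), (9, 48), (10, 48)] = true := by
  decide +kernel

theorem t31_0_2 : chkS lk31 0 4 [(1, m31_0)] l31_2
  [(6, 16, 16, 17185, 205060), (5, 1, 1, 267040, 270640)]
  [(5, -96), (6, 96)] = true := by
  decide +kernel

theorem t31_1_1 : chkS lk31 0 4 [(1, m31_1)] l31_1
  [(13, 16, 16, 4411650, 3489825), (3, 16, 16, 5321280, 5321280), (18, 16, 16, 5260065, 5447940), (15, 1, 1, 336660, 4203285), (16, 16, 16, 4345875, 3474450), (18, 16, 16, 5259825, 5444100), (15, 16, 16, 5259825, 5444100), (12, 16, 16, 4411650, 3489825)]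
  [(3, -24), (12, 24), (13, 24), (15, -48), (16, -24), (18, 48)] = true := by
  decide +kernel

theorem t31_1_2 : chkS lk31 0 4 [(1, m31_1)] l31_2
  [(4, 16, 16, 213250, 213025), (14, 16, 16, 213250, 213025)]
  [(4, 96), (14, -96)] = true := by
  decide +kernel

theorem t31_2_2 : chkS lk31 0 4 [(1, m31_2)] l31_2
  [(0, 16, 16, 12816, 12816), (1, 16, 16, 8976, 8976)]
  [(0, 96), (1, -96)] = true := by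
  decide +kernel

section

variable {κ ι : Type*} [Fintype κ] [Fintype ι] [Inhabited κ] [Inhabited ι]

noncomputable def F31_0 (E : Env κ ι) : (Fin 0 → κ) → (Fin 4 → ι) → ℝ := op2 (P1 κ) (P6 ι) (fB E 0 4 m31_0)

noncomputable def F31_1 (E : Env κ ι) : (Fin 0 → κ) → (Fin 4 → ι) → ℝ := op2 (P1 κ) (P6 ι) (fB E 0 4 m31_1)

noncomputable def F31_2 (E : Env κ ι) : (Fin 0 → κ) → (Fin 4 → ι) → ℝ := op2 (P1 κ) (P6 ι) (fB E 0 4 m31_2)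

def r31_0_0 : List (ℕ × ℤ) := [(2, 48), (11, -96), (17, 48)]

theorem h31_0_0 (E : Env κ ι) : ip (F31_0 E) (F31_0 E) = dotS (ek E lk31) r31_0_0 :=
  op_entryZ E lk31 0 4 _ _ _ _ (pg1 κ) (pg6 ι) m31_0 m31_0 l31_0 z31_0 w31_0 x31_0 (by decide) _ (chkS_sound E lk31 0 4 _ _ _ _ t31_0_0)

def r31_0_1 : List (ℕ × ℤ) := [(7, -48), (8, -48), (9, 48), (10, 48)]

theorem h31_0_1 (E : Env κ ι) : ip (F31_0 E) (F31_1 E) = dotS (ek E lk31) r31_0_1 :=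
  op_entryZ E lk31 0 4 _ _ _ _ (pg1 κ) (pg6 ι) m31_0 m31_1 l31_1 z31_1 w31_1 x31_1 (by decide) _ (chkS_sound E lk31 0 4 _ _ _ _ t31_0_1)

def r31_0_2 : List (ℕ × ℤ) := [(5, -96), (6, 96)]

theorem h31_0_2 (E : Env κ ι) : ip (F31_0 E) (F31_2 E) = dotS (ek E lk31) r31_0_2 :=
  op_entryZ E lk31 0 4 _ _ _ _ (pg1 κ) (pg6 ι) m31_0 m31_2 l31_2 z31_2 w31_2 x31_2 (by decide) _ (chkS_sound E lk31 0 4 _ _ _ _ t31_0_2)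

def r31_1_1 : List (ℕ × ℤ) := [(3, -24), (12, 24), (13, 24), (15, -48), (16, -24), (18, 48)]

theorem h31_1_1 (E : Env κ ι) : ip (F31_1 E) (F31_1 E) = dotS (ek E lk31) r31_1_1 :=
  op_entryZ E lk31 0 4 _ _ _ _ (pg1 κ) (pg6 ι) m31_1 m31_1 l31_1 z31_1 w31_1 x31_1 (by decide) _ (chkS_sound E lk31 0 4 _ _ _ _ t31_1_1)

def r31_1_2 : List (ℕ × ℤ) := [(4, 96), (14, -96)]

theorem h31_1_2 (E : Env κ ι) : ip (F31_1 E) (F31_2 E) = dotS (ek E lk31) r31_1_2 :=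
  op_entryZ E lk31 0 4 _ _ _ _ (pg1 κ) (pg6 ι) m31_1 m31_2 l31_2 z31_2 w31_2 x31_2 (by decide) _ (chkS_sound E lk31 0 4 _ _ _ _ t31_1_2)

def r31_2_2 : List (ℕ × ℤ) := [(0, 96), (1, -96)]

theorem h31_2_2 (E : Env κ ι) : ip (F31_2 E) (F31_2 E) = dotS (ek E lk31) r31_2_2 :=
  op_entryZ E lk31 0 4 _ _ _ _ (pg1 κ) (pg6 ι) m31_2 m31_2 l31_2 z31_2 w31_2 x31_2 (by decide) _ (chkS_sound E lk31 0 4 _ _ _ _ t31_2_2)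

theorem row31_0 (E : Env κ ι) : RowG (ek E lk31) (F31_0 E) [F31_0 E, F31_1 E, F31_2 E] [r31_0_0, r31_0_1, r31_0_2] :=
  rowG_cons _ _ _ _ _ _ (h31_0_0 E) (rowG_cons _ _ _ _ _ _ (h31_0_1 E) (rowG_cons _ _ _ _ _ _ (h31_0_2 E) (rowG_nil _ _)))

theorem row31_1 (E : Env κ ι) : RowG (ek E lk31) (F31_1 E) [F31_1 E, F31_2 E] [r31_1_1, r31_1_2] :=
  rowG_cons _ _ _ _ _ _ (h31_1_1 E) (rowG_cons _ _ _ _ _ _ (h31_1_2 E) (rowG_nil _ _))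

theorem row31_2 (E : Env κ ι) : RowG (ek E lk31) (F31_2 E) [F31_2 E] [r31_2_2] :=
  rowG_cons _ _ _ _ _ _ (h31_2_2 E) (rowG_nil _ _)

def tab31 : List (List (List (ℕ × ℤ))) := [[r31_0_0, r31_0_1, r31_0_2], [r31_1_1, r31_1_2], [r31_2_2]]

theorem tri31 (E : Env κ ι) : TriG (ek E lk31) [F31_0 E, F31_1 E, F31_2 E] tab31 := by
  refine triG_cons _ _ _ _ _ (row31_0 E) ?_
  refine triG_cons _ _ _ _ _ (row31_1 E) ?_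
  refine triG_cons _ _ _ _ _ (row31_2 E) ?_
  exact triG_nil _

end

def lk32 : List Key := [
  (2, 6, [(0, [0], [0, 1]), (0, [1], [2, 3]), (0, [0], [2, 4]), (0, [1], [0, 5]), (1, [], [4, 5]), (1, [], [1, 3])]),
  (2, 6, [(0, [0], [0, 1]), (0, [0], [2, 3]), (0, [1], [0, 1]), (0, [1], [4, 5]), (1, [], [2, 4]), (1, [], [3, 5])]),
  (2, 6, [(0, [0], [0, 1]), (0, [0], [2, 3]), (0, [1], [0, 1]), (0, [1], [2, 4]), (1, [], [4, 5]), (1, [], [3, 5])]),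
  (2, 6, [(0, [0], [0, 1]), (0, [0], [2, 3]), (0, [1], [1, 3]), (0, [1], [4, 5]), (1, [], [0, 4]), (1, [], [2, 5])]),
  (2, 6, [(0, [0], [0, 1]), (0, [0], [2, 3]), (0, [1], [1, 3]), (0, [1], [0, 4]), (1, [], [4, 5]), (1, [], [2, 5])])]

def kl32 : List ℕ := [21, 47, 48, 51, 52]

def m32_0 : Base := (1, 1, [(0, [0], [0, 4]), (0, [0], [1, 2]), (1, [], [3, 4])])

def l32_0 : Cov := [(16, 1, 1, [(0, [0], [0, 4]), (0, [0], [1, 2]), (1, [], [3, 4])]),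
  (-16, 1, 1, [(0, [0], [0, 4]), (0, [0], [1, 3]), (1, [], [2, 4])]),
  (-16, 1, 1, [(0, [0], [2, 4]), (0, [0], [0, 1]), (1, [], [3, 4])]),
  (16, 1, 1, [(0, [0], [2, 4]), (0, [0], [1, 3]), (1, [], [0, 4])]),
  (16, 1, 1, [(0, [0], [3, 4]), (0, [0], [0, 1]), (1, [], [2, 4])]),
  (-16, 1, 1, [(0, [0], [3, 4]), (0, [0], [1, 2]), (1, [], [0, 4])])]

def z32_0 : Cov := [(0, 1, 1, [(0, [0], [0, 4]), (0, [0], [2, 3]), (1, [], [1, 4])]),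
  (0, 1, 1, [(0, [0], [1, 4]), (0, [0], [0, 2]), (1, [], [3, 4])]),
  (0, 1, 1, [(0, [0], [1, 4]), (0, [0], [0, 3]), (1, [], [2, 4])]),
  (0, 1, 1, [(0, [0], [1, 4]), (0, [0], [2, 3]), (1, [], [0, 4])]),
  (0, 1, 1, [(0, [0], [2, 4]), (0, [0], [0, 3]), (1, [], [1, 4])]),
  (0, 1, 1, [(0, [0], [3, 4]), (0, [0], [0, 2]), (1, [], [1, 4])])]

def w32_0 : List (List Wit) := [[(0, 0, 0, 0, 0), (1, 0, 0, 0, 0), (0, 0, 0, 0, 0), (6, 0, 0, 0, 0), (1, 0, 0, 0, 0), (6, 0, 0, 0, 0), (7, 0, 0, 0, 0), (8, 0, 0, 0, 0), (7, 0, 0, 0, 0), (9, 0, 0, 0, 0), (8, 0, 0, 0, 0), (9, 0, 0, 0, 0), (2, 0, 0, 0, 0), (10, 0, 0, 0, 0), (2, 0, 0, 0, 0), (3, 0, 0, 0, 0), (10, 0, 0, 0, 0), (3, 0, 0, 0, 0), (4, 0, 0, 0, 0), (11, 0, 0, 0, 0), (4, 0, 0, 0, 0), (5, 0, 0, 0, 0), (11, 0, 0, 0, 0), (5, 0,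 0, 0, 0)]]

theorem tr32 : trK keys lk32 kl32 = true := by
  decide +kernel

theorem x32_0 : expB 0 4 dg1 dg7 m32_0 (l32_0 ++ z32_0) w32_0 = true := by
  decide +kernel

theorem t32_0_0 : chkS lk32 0 4 [(1, m32_0)] l32_0
  [(2, 16, 16, 4411650, 3489825), (0, 16, 16, 5321760, 5386560), (4, 16, 16, 4345875, 3474450), (3, 1, 1, 336180, 4199205), (3, 16, 16, 5259825, 5444100), (1, 16, 16, 4411650, 3489825)]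
  [(0, -16), (1, -16), (2, 16), (3, 32), (4, -16)] = true := by
  decide +kernel

section

variable {κ ι : Type*} [Fintype κ] [Fintype ι] [Inhabited κ] [Inhabited ι]

noncomputable def F32_0 (E : Env κ ι) : (Fin 0 → κ) → (Fin 4 → ι) → ℝ := op2 (P1 κ) (P7 ι) (fB E 0 4 m32_0)

def r32_0_0 : List (ℕ × ℤ) := [(0, -16), (1, -16), (2, 16), (3, 32), (4, -16)]

theorem h32_0_0 (E : Env κ ι) : ip (F32_0 E) (F32_0 E) = dotS (ek E lk32) r32_0_0 :=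
  op_entryZ E lk32 0 4 _ _ _ _ (pg1 κ) (pg7 ι) m32_0 m32_0 l32_0 z32_0 w32_0 x32_0 (by decide) _ (chkS_sound E lk32 0 4 _ _ _ _ t32_0_0)

theorem row32_0 (E : Env κ ι) : RowG (ek E lk32) (F32_0 E) [F32_0 E] [r32_0_0] :=
  rowG_cons _ _ _ _ _ _ (h32_0_0 E) (rowG_nil _ _)

def tab32 : List (List (List (ℕ × ℤ))) := [[r32_0_0]]

theorem tri32 (E : Env κ ι) : TriG (ek E lk32) [F32_0 E] tab32 := by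
  refine triG_cons _ _ _ _ _ (row32_0 E) ?_
  exact triG_nil _

end

def lk33 : List Key := [
  (2, 6, [(0, [0], [0, 1]), (0, [1], [2, 3]), (0, [0], [2, 3]), (0, [1], [0, 1]), (1, [], [4, 5]), (1, [], [4, 5])]),
  (2, 6, [(0, [0], [0, 1]), (0, [0], [2, 3]), (0, [1], [0, 2]), (0, [1], [1, 3]), (1, [], [4, 5]), (1, [], [4, 5])]),
  (2, 6, [(0, [0], [0, 1]), (0, [1], [2, 3]), (0, [0], [2, 4]), (0, [1], [0, 5]), (1, [], [3, 5]), (1, [], [1, 4])]),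
  (2, 6, [(0, [0], [0, 1]), (0, [0], [2, 3]), (0, [1], [0, 1]), (0, [1], [4, 5]), (1, [], [4, 5]), (1, [], [2, 3])]),
  (2, 6, [(0, [0], [0, 1]), (0, [0], [2, 3]), (0, [1], [0, 1]), (0, [1], [2, 4]), (1, [], [4, 5]), (1, [], [3, 5])]),
  (2, 6, [(0, [0], [0, 1]), (0, [0], [2, 3]), (0, [1], [1, 3]), (0, [1], [4, 5]), (1, [], [4, 5]), (1, [], [0, 2])]),
  (2, 6, [(0, [0], [0, 1]), (0, [0], [2, 3]), (0, [1], [1, 3]), (0, [1], [0, 4]), (1, [], [4, 5]), (1, [], [2, 5])])]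

def kl33 : List ℕ := [16, 20, 23, 46, 48, 50, 52]

def m33_0 : Base := (1, 0, [(0, [0], [0, 1]), (0, [0], [2, 3]), (1, [], [4, 5])])

def l33_0 : Cov := [(11520, 1, 0, [(0, [0], [0, 1]), (0, [0], [2, 3]), (1, [], [4, 5])]),
  (11520, 1, 0, [(0, [0], [0, 1]), (0, [0], [2, 4]), (1, [], [3, 5])]),
  (11520, 1, 0, [(0, [0], [0, 1]), (0, [0], [2, 5]), (1, [], [3, 4])]),
  (11520, 1, 0, [(0, [0], [0, 1]), (0, [0], [3, 4]), (1, [], [2, 5])]),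
  (11520, 1, 0, [(0, [0], [0, 1]), (0, [0], [3, 5]), (1, [], [2, 4])]),
  (11520, 1, 0, [(0, [0], [0, 1]), (0, [0], [4, 5]), (1, [], [2, 3])]),
  (11520, 1, 0, [(0, [0], [0, 2]), (0, [0], [1, 3]), (1, [], [4, 5])]),
  (11520, 1, 0, [(0, [0], [0, 2]), (0, [0], [1, 4]), (1, [], [3, 5])]),
  (11520, 1, 0, [(0, [0], [0, 2]), (0, [0], [1, 5]), (1, [], [3, 4])]),
  (11520, 1, 0, [(0, [0], [0, 2]), (0, [0], [3, 4]), (1, [], [1, 5])]),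
  (11520, 1, 0, [(0, [0], [0, 2]), (0, [0], [3, 5]), (1, [], [1, 4])]),
  (11520, 1, 0, [(0, [0], [0, 2]), (0, [0], [4, 5]), (1, [], [1, 3])]),
  (11520, 1, 0, [(0, [0], [0, 3]), (0, [0], [1, 2]), (1, [], [4, 5])]),
  (11520, 1, 0, [(0, [0], [0, 3]), (0, [0], [1, 4]), (1, [], [2, 5])]),
  (11520, 1, 0, [(0, [0], [0, 3]), (0, [0], [1, 5]), (1, [], [2, 4])]),
  (11520, 1, 0, [(0, [0], [0, 3]), (0, [0], [2, 4]), (1, [], [1, 5])]),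
  (11520, 1, 0, [(0, [0], [0, 3]), (0, [0], [2, 5]), (1, [], [1, 4])]),
  (11520, 1, 0, [(0, [0], [0, 3]), (0, [0], [4, 5]), (1, [], [1, 2])]),
  (11520, 1, 0, [(0, [0], [0, 4]), (0, [0], [1, 2]), (1, [], [3, 5])]),
  (11520, 1, 0, [(0, [0], [0, 4]), (0, [0], [1, 3]), (1, [], [2, 5])]),
  (11520, 1, 0, [(0, [0], [0, 4]), (0, [0], [1, 5]), (1, [], [2, 3])]),
  (11520, 1, 0, [(0, [0], [0, 4]), (0, [0], [2, 3]), (1, [], [1, 5])]),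
  (11520, 1, 0, [(0, [0], [0, 4]), (0, [0], [2, 5]), (1, [], [1, 3])]),
  (11520, 1, 0, [(0, [0], [0, 4]), (0, [0], [3, 5]), (1, [], [1, 2])]),
  (11520, 1, 0, [(0, [0], [0, 5]), (0, [0], [1, 2]), (1, [], [3, 4])]),
  (11520, 1, 0, [(0, [0], [0, 5]), (0, [0], [1, 3]), (1, [], [2, 4])]),
  (11520, 1, 0, [(0, [0], [0, 5]), (0, [0], [1, 4]), (1, [], [2, 3])]),
  (11520, 1, 0, [(0, [0], [0, 5]), (0, [0], [2, 3]), (1, [], [1, 4])]),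
  (11520, 1, 0, [(0, [0], [0, 5]), (0, [0], [2, 4]), (1, [], [1, 3])]),
  (11520, 1, 0, [(0, [0], [0, 5]), (0, [0], [3, 4]), (1, [], [1, 2])]),
  (11520, 1, 0, [(0, [0], [1, 2]), (0, [0], [3, 4]), (1, [], [0, 5])]),
  (11520, 1, 0, [(0, [0], [1, 2]), (0, [0], [3, 5]), (1, [], [0, 4])]),
  (11520, 1, 0, [(0, [0], [1, 2]), (0, [0], [4, 5]), (1, [], [0, 3])]),
  (11520, 1, 0, [(0, [0], [1, 3]), (0, [0], [2, 4]), (1, [], [0, 5])]),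
  (11520, 1, 0, [(0, [0], [1, 3]), (0, [0], [2, 5]), (1, [], [0, 4])]),
  (11520, 1, 0, [(0, [0], [1, 3]), (0, [0], [4, 5]), (1, [], [0, 2])]),
  (11520, 1, 0, [(0, [0], [1, 4]), (0, [0], [2, 3]), (1, [], [0, 5])]),
  (11520, 1, 0, [(0, [0], [1, 4]), (0, [0], [2, 5]), (1, [], [0, 3])]),
  (11520, 1, 0, [(0, [0], [1, 4]), (0, [0], [3, 5]), (1, [], [0, 2])]),
  (11520, 1, 0, [(0, [0], [1, 5]), (0, [0], [2, 3]), (1, [], [0, 4])]),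
  (11520, 1, 0, [(0, [0], [1, 5]), (0, [0], [2, 4]), (1, [], [0, 3])]),
  (11520, 1, 0, [(0, [0], [1, 5]), (0, [0], [3, 4]), (1, [], [0, 2])]),
  (11520, 1, 0, [(0, [0], [2, 3]), (0, [0], [4, 5]), (1, [], [0, 1])]),
  (11520, 1, 0, [(0, [0], [2, 4]), (0, [0], [3, 5]), (1, [], [0, 1])]),
  (11520, 1, 0, [(0, [0], [2, 5]), (0, [0], [3, 4]), (1, [], [0, 1])])]

def z33_0 : Cov := []

def w33_0 : List (List Wit) := [[(0, 0, 0, 0, 0), (0, 0, 0, 0, 0), (1, 0, 0, 0, 0), (1, 0, 0, 0, 0), (2, 0, 0, 0, 0), (2, 0, 0, 0, 0), (0, 0, 0, 0, 0), (0, 0, 0, 0, 0), (3, 0, 0, 0, 0), (3, 0, 0, 0, 0), (4, 0, 0, 0, 0), (4, 0, 0, 0, 0), (1, 0, 0, 0, 0), (1, 0, 0, 0, 0), (3, 0, 0, 0, 0), (3, 0, 0, 0, 0), (5, 0, 0, 0, 0), (5, 0, 0, 0, 0), (2, 0, 0, 0, 0), (2, 0, 0, 0, 0), (4, 0, 0, 0, 0), (4,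 0, 0, 0, 0), (5, 0, 0, 0, 0), (5, 0, 0, 0, 0), (6, 0, 0, 0, 0), (6, 0, 0, 0, 0), (7, 0, 0, 0, 0), (7, 0, 0, 0, 0), (8, 0, 0, 0, 0), (8, 0, 0, 0, 0), (6, 0, 0, 0, 0), (6, 0, 0, 0, 0), (9, 0, 0, 0, 0), (9, 0, 0, 0, 0), (10, 0, 0, 0, 0), (10, 0, 0, 0, 0), (7, 0, 0, 0, 0), (7, 0, 0, 0, 0), (9, 0, 0, 0, 0), (9, 0, 0, 0, 0), (11, 0, 0, 0, 0), (11, 0, 0, 0, 0), (8, 0, 0, 0, 0), (8, 0, 0, 0, 0), (10, 0, 0, 0, 0), (10, 0, 0, 0, 0), (11, 0, 0, 0, 0), (11, 0, 0, 0, 0), (12, 0, 0, 0, 0), (12, 0, 0, 0, 0), (13, 0, 0, 0, 0), (13, 0, 0, 0, 0), (14, 0, 0, 0, 0), (14, 0, 0, 0, 0), (12, 0, 0, 0, 0), (12, 0, 0, 0, 0), (15, 0, 0, 0, 0), (15, 0, 0, 0, 0), (16, 0, 0, 0, 0), (16, 0, 0, 0, 0), (13, 0, 0, 0, 0), (13, 0, 0, 0, 0), (15, 0, 0, 0, 0), (15, 0, 0, 0, 0), (17, 0, 0, 0, 0), (17, 0,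 0, 0, 0), (14, 0, 0, 0, 0), (14, 0, 0, 0, 0), (16, 0, 0, 0, 0), (16, 0, 0, 0, 0), (17, 0, 0, 0, 0), (17, 0, 0, 0, 0), (18, 0, 0, 0, 0), (18, 0, 0, 0, 0), (19, 0, 0, 0, 0), (19, 0, 0, 0, 0), (20, 0, 0, 0, 0), (20, 0, 0, 0, 0), (18, 0, 0, 0, 0), (18, 0, 0, 0, 0), (21, 0, 0, 0, 0), (21, 0, 0, 0, 0), (22, 0, 0, 0, 0), (22, 0, 0, 0, 0), (19, 0, 0, 0, 0), (19, 0, 0, 0, 0), (21, 0, 0, 0, 0), (21, 0, 0, 0, 0), (23, 0, 0, 0, 0), (23, 0, 0, 0, 0), (20, 0, 0, 0, 0), (20, 0, 0, 0, 0), (22, 0, 0, 0, 0), (22, 0, 0, 0, 0), (23, 0, 0, 0, 0), (23, 0, 0, 0, 0), (24, 0, 0, 0, 0), (24, 0, 0, 0, 0), (25, 0, 0, 0, 0), (25, 0, 0, 0, 0), (26, 0, 0, 0, 0), (26, 0, 0, 0, 0), (24, 0, 0, 0, 0), (24, 0, 0, 0, 0), (27, 0, 0, 0, 0), (27, 0, 0, 0, 0), (28, 0, 0, 0, 0), (28, 0, 0, 0, 0), (25, 0, 0,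 0, 0), (25, 0, 0, 0, 0), (27, 0, 0, 0, 0), (27, 0, 0, 0, 0), (29, 0, 0, 0, 0), (29, 0, 0, 0, 0), (26, 0, 0, 0, 0), (26, 0, 0, 0, 0), (28, 0, 0, 0, 0), (28, 0, 0, 0, 0), (29, 0, 0, 0, 0), (29, 0, 0, 0, 0), (0, 0, 0, 0, 0), (0, 0, 0, 0, 0), (1, 0, 0, 0, 0), (1, 0, 0, 0, 0), (2, 0, 0, 0, 0), (2, 0, 0, 0, 0), (0, 0, 0, 0, 0), (0, 0, 0, 0, 0), (3, 0, 0, 0, 0), (3, 0, 0, 0, 0), (4, 0, 0, 0, 0), (4, 0, 0, 0, 0), (1, 0, 0, 0, 0), (1, 0, 0, 0, 0), (3, 0, 0, 0, 0), (3, 0, 0, 0, 0), (5, 0, 0, 0, 0), (5, 0, 0, 0, 0), (2, 0, 0, 0, 0), (2, 0, 0, 0, 0), (4, 0, 0, 0, 0), (4, 0, 0, 0, 0), (5, 0, 0, 0, 0), (5, 0, 0, 0, 0), (12, 0, 0, 0, 0), (12, 0, 0, 0, 0), (18, 0, 0, 0, 0), (18, 0, 0, 0, 0), (24, 0, 0, 0, 0), (24, 0, 0, 0, 0), (12, 0, 0, 0, 0), (12, 0, 0, 0, 0), (30, 0, 0, 0, 0),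 (30, 0, 0, 0, 0), (31, 0, 0, 0, 0), (31, 0, 0, 0, 0), (18, 0, 0, 0, 0), (18, 0, 0, 0, 0), (30, 0, 0, 0, 0), (30, 0, 0, 0, 0), (32, 0, 0, 0, 0), (32, 0, 0, 0, 0), (24, 0, 0, 0, 0), (24, 0, 0, 0, 0), (31, 0, 0, 0, 0), (31, 0, 0, 0, 0), (32, 0, 0, 0, 0), (32, 0, 0, 0, 0), (6, 0, 0, 0, 0), (6, 0, 0, 0, 0), (19, 0, 0, 0, 0), (19, 0, 0, 0, 0), (25, 0, 0, 0, 0), (25, 0, 0, 0, 0), (6, 0, 0, 0, 0), (6, 0, 0, 0, 0), (33, 0, 0, 0, 0), (33, 0, 0, 0, 0), (34, 0, 0, 0, 0), (34, 0, 0, 0, 0), (19, 0, 0, 0, 0), (19, 0, 0, 0, 0), (33, 0, 0, 0, 0), (33, 0, 0, 0, 0), (35, 0, 0, 0, 0), (35, 0, 0, 0, 0), (25, 0, 0, 0, 0), (25, 0, 0, 0, 0), (34, 0, 0, 0, 0), (34, 0, 0, 0, 0), (35, 0, 0, 0, 0), (35, 0, 0, 0, 0), (7, 0, 0, 0, 0), (7, 0, 0, 0, 0), (13, 0, 0, 0, 0), (13, 0, 0, 0, 0), (26, 0,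 0, 0, 0), (26, 0, 0, 0, 0), (7, 0, 0, 0, 0), (7, 0, 0, 0, 0), (36, 0, 0, 0, 0), (36, 0, 0, 0, 0), (37, 0, 0, 0, 0), (37, 0, 0, 0, 0), (13, 0, 0, 0, 0), (13, 0, 0, 0, 0), (36, 0, 0, 0, 0), (36, 0, 0, 0, 0), (38, 0, 0, 0, 0), (38, 0, 0, 0, 0), (26, 0, 0, 0, 0), (26, 0, 0, 0, 0), (37, 0, 0, 0, 0), (37, 0, 0, 0, 0), (38, 0, 0, 0, 0), (38, 0, 0, 0, 0), (8, 0, 0, 0, 0), (8, 0, 0, 0, 0), (14, 0, 0, 0, 0), (14, 0, 0, 0, 0), (20, 0, 0, 0, 0), (20, 0, 0, 0, 0), (8, 0, 0, 0, 0), (8, 0, 0, 0, 0), (39, 0, 0, 0, 0), (39, 0, 0, 0, 0), (40, 0, 0, 0, 0), (40, 0, 0, 0, 0), (14, 0, 0, 0, 0), (14, 0, 0, 0, 0), (39, 0, 0, 0, 0), (39, 0, 0, 0, 0), (41, 0, 0, 0, 0), (41, 0, 0, 0, 0), (20, 0, 0, 0, 0), (20, 0, 0, 0, 0), (40, 0, 0, 0, 0), (40, 0, 0, 0, 0), (41, 0, 0, 0, 0), (41, 0, 0, 0, 0),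 (6, 0, 0, 0, 0), (6, 0, 0, 0, 0), (7, 0, 0, 0, 0), (7, 0, 0, 0, 0), (8, 0, 0, 0, 0), (8, 0, 0, 0, 0), (6, 0, 0, 0, 0), (6, 0, 0, 0, 0), (9, 0, 0, 0, 0), (9, 0, 0, 0, 0), (10, 0, 0, 0, 0), (10, 0, 0, 0, 0), (7, 0, 0, 0, 0), (7, 0, 0, 0, 0), (9, 0, 0, 0, 0), (9, 0, 0, 0, 0), (11, 0, 0, 0, 0), (11, 0, 0, 0, 0), (8, 0, 0, 0, 0), (8, 0, 0, 0, 0), (10, 0, 0, 0, 0), (10, 0, 0, 0, 0), (11, 0, 0, 0, 0), (11, 0, 0, 0, 0), (12, 0, 0, 0, 0), (12, 0, 0, 0, 0), (18, 0, 0, 0, 0), (18, 0, 0, 0, 0), (24, 0, 0, 0, 0), (24, 0, 0, 0, 0), (12, 0, 0, 0, 0), (12, 0, 0, 0, 0), (30, 0, 0, 0, 0), (30, 0, 0, 0, 0), (31, 0, 0, 0, 0), (31, 0, 0, 0, 0), (18, 0, 0, 0, 0), (18, 0, 0, 0, 0), (30, 0, 0, 0, 0), (30, 0, 0, 0, 0), (32, 0, 0, 0, 0), (32, 0, 0, 0, 0), (24, 0, 0, 0, 0), (24, 0, 0, 0, 0),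 (31, 0, 0, 0, 0), (31, 0, 0, 0, 0), (32, 0, 0, 0, 0), (32, 0, 0, 0, 0), (0, 0, 0, 0, 0), (0, 0, 0, 0, 0), (21, 0, 0, 0, 0), (21, 0, 0, 0, 0), (27, 0, 0, 0, 0), (27, 0, 0, 0, 0), (0, 0, 0, 0, 0), (0, 0, 0, 0, 0), (36, 0, 0, 0, 0), (36, 0, 0, 0, 0), (39, 0, 0, 0, 0), (39, 0, 0, 0, 0), (21, 0, 0, 0, 0), (21, 0, 0, 0, 0), (36, 0, 0, 0, 0), (36, 0, 0, 0, 0), (42, 0, 0, 0, 0), (42, 0, 0, 0, 0), (27, 0, 0, 0, 0), (27, 0, 0, 0, 0), (39, 0, 0, 0, 0), (39, 0, 0, 0, 0), (42, 0, 0, 0, 0), (42, 0, 0, 0, 0), (1, 0, 0, 0, 0), (1, 0, 0, 0, 0), (15, 0, 0, 0, 0), (15, 0, 0, 0, 0), (28, 0, 0, 0, 0), (28, 0, 0, 0, 0), (1, 0, 0, 0, 0), (1, 0, 0, 0, 0), (33, 0, 0, 0, 0), (33, 0, 0, 0, 0), (40, 0, 0, 0, 0), (40, 0, 0, 0, 0), (15, 0, 0, 0, 0), (15, 0, 0, 0, 0), (33, 0, 0, 0, 0), (33, 0, 0,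 0, 0), (43, 0, 0, 0, 0), (43, 0, 0, 0, 0), (28, 0, 0, 0, 0), (28, 0, 0, 0, 0), (40, 0, 0, 0, 0), (40, 0, 0, 0, 0), (43, 0, 0, 0, 0), (43, 0, 0, 0, 0), (2, 0, 0, 0, 0), (2, 0, 0, 0, 0), (16, 0, 0, 0, 0), (16, 0, 0, 0, 0), (22, 0, 0, 0, 0), (22, 0, 0, 0, 0), (2, 0, 0, 0, 0), (2, 0, 0, 0, 0), (34, 0, 0, 0, 0), (34, 0, 0, 0, 0), (37, 0, 0, 0, 0), (37, 0, 0, 0, 0), (16, 0, 0, 0, 0), (16, 0, 0, 0, 0), (34, 0, 0, 0, 0), (34, 0, 0, 0, 0), (44, 0, 0, 0, 0), (44, 0, 0, 0, 0), (22, 0, 0, 0, 0), (22, 0, 0, 0, 0), (37, 0, 0, 0, 0), (37, 0, 0, 0, 0), (44, 0, 0, 0, 0), (44, 0, 0, 0, 0), (12, 0, 0, 0, 0), (12, 0, 0, 0, 0), (13, 0, 0, 0, 0), (13, 0, 0, 0, 0), (14, 0, 0, 0, 0), (14, 0, 0, 0, 0), (12, 0, 0, 0, 0), (12, 0, 0, 0, 0), (15, 0, 0, 0, 0), (15, 0, 0, 0, 0), (16, 0, 0, 0, 0),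 (16, 0, 0, 0, 0), (13, 0, 0, 0, 0), (13, 0, 0, 0, 0), (15, 0, 0, 0, 0), (15, 0, 0, 0, 0), (17, 0, 0, 0, 0), (17, 0, 0, 0, 0), (14, 0, 0, 0, 0), (14, 0, 0, 0, 0), (16, 0, 0, 0, 0), (16, 0, 0, 0, 0), (17, 0, 0, 0, 0), (17, 0, 0, 0, 0), (6, 0, 0, 0, 0), (6, 0, 0, 0, 0), (19, 0, 0, 0, 0), (19, 0, 0, 0, 0), (25, 0, 0, 0, 0), (25, 0, 0, 0, 0), (6, 0, 0, 0, 0), (6, 0, 0, 0, 0), (33, 0, 0, 0, 0), (33, 0, 0, 0, 0), (34, 0, 0, 0, 0), (34, 0, 0, 0, 0), (19, 0, 0, 0, 0), (19, 0, 0, 0, 0), (33, 0, 0, 0, 0), (33, 0, 0, 0, 0), (35, 0, 0, 0, 0), (35, 0, 0, 0, 0), (25, 0, 0, 0, 0), (25, 0, 0, 0, 0), (34, 0, 0, 0, 0), (34, 0, 0, 0, 0), (35, 0, 0, 0, 0), (35, 0, 0, 0, 0), (0, 0, 0, 0, 0), (0, 0, 0, 0, 0), (21, 0, 0, 0, 0), (21, 0, 0, 0, 0), (27, 0, 0, 0, 0), (27, 0, 0, 0, 0), (0, 0,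 0, 0, 0), (0, 0, 0, 0, 0), (36, 0, 0, 0, 0), (36, 0, 0, 0, 0), (39, 0, 0, 0, 0), (39, 0, 0, 0, 0), (21, 0, 0, 0, 0), (21, 0, 0, 0, 0), (36, 0, 0, 0, 0), (36, 0, 0, 0, 0), (42, 0, 0, 0, 0), (42, 0, 0, 0, 0), (27, 0, 0, 0, 0), (27, 0, 0, 0, 0), (39, 0, 0, 0, 0), (39, 0, 0, 0, 0), (42, 0, 0, 0, 0), (42, 0, 0, 0, 0), (3, 0, 0, 0, 0), (3, 0, 0, 0, 0), (9, 0, 0, 0, 0), (9, 0, 0, 0, 0), (29, 0, 0, 0, 0), (29, 0, 0, 0, 0), (3, 0, 0, 0, 0), (3, 0, 0, 0, 0), (30, 0, 0, 0, 0), (30, 0, 0, 0, 0), (41, 0, 0, 0, 0), (41, 0, 0, 0, 0), (9, 0, 0, 0, 0), (9, 0, 0, 0, 0), (30, 0, 0, 0, 0), (30, 0, 0, 0, 0), (44, 0, 0, 0, 0), (44, 0, 0, 0, 0), (29, 0, 0, 0, 0), (29, 0, 0, 0, 0), (41, 0, 0, 0, 0), (41, 0, 0, 0, 0), (44, 0, 0, 0, 0), (44, 0, 0, 0, 0), (4, 0, 0, 0, 0), (4, 0, 0, 0, 0), (10,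 0, 0, 0, 0), (10, 0, 0, 0, 0), (23, 0, 0, 0, 0), (23, 0, 0, 0, 0), (4, 0, 0, 0, 0), (4, 0, 0, 0, 0), (31, 0, 0, 0, 0), (31, 0, 0, 0, 0), (38, 0, 0, 0, 0), (38, 0, 0, 0, 0), (10, 0, 0, 0, 0), (10, 0, 0, 0, 0), (31, 0, 0, 0, 0), (31, 0, 0, 0, 0), (43, 0, 0, 0, 0), (43, 0, 0, 0, 0), (23, 0, 0, 0, 0), (23, 0, 0, 0, 0), (38, 0, 0, 0, 0), (38, 0, 0, 0, 0), (43, 0, 0, 0, 0), (43, 0, 0, 0, 0), (18, 0, 0, 0, 0), (18, 0, 0, 0, 0), (19, 0, 0, 0, 0), (19, 0, 0, 0, 0), (20, 0, 0, 0, 0), (20, 0, 0, 0, 0), (18, 0, 0, 0, 0), (18, 0, 0, 0, 0), (21, 0, 0, 0, 0), (21, 0, 0, 0, 0), (22, 0, 0, 0, 0), (22, 0, 0, 0, 0), (19, 0, 0, 0, 0), (19, 0, 0, 0, 0), (21, 0, 0, 0, 0), (21, 0, 0, 0, 0), (23, 0, 0, 0, 0), (23, 0, 0, 0, 0), (20, 0, 0, 0, 0), (20, 0, 0, 0, 0), (22, 0, 0, 0, 0), (22, 0,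 0, 0, 0), (23, 0, 0, 0, 0), (23, 0, 0, 0, 0), (7, 0, 0, 0, 0), (7, 0, 0, 0, 0), (13, 0, 0, 0, 0), (13, 0, 0, 0, 0), (26, 0, 0, 0, 0), (26, 0, 0, 0, 0), (7, 0, 0, 0, 0), (7, 0, 0, 0, 0), (36, 0, 0, 0, 0), (36, 0, 0, 0, 0), (37, 0, 0, 0, 0), (37, 0, 0, 0, 0), (13, 0, 0, 0, 0), (13, 0, 0, 0, 0), (36, 0, 0, 0, 0), (36, 0, 0, 0, 0), (38, 0, 0, 0, 0), (38, 0, 0, 0, 0), (26, 0, 0, 0, 0), (26, 0, 0, 0, 0), (37, 0, 0, 0, 0), (37, 0, 0, 0, 0), (38, 0, 0, 0, 0), (38, 0, 0, 0, 0), (1, 0, 0, 0, 0), (1, 0, 0, 0, 0), (15, 0, 0, 0, 0), (15, 0, 0, 0, 0), (28, 0, 0, 0, 0), (28, 0, 0, 0, 0), (1, 0, 0, 0, 0), (1, 0, 0, 0, 0), (33, 0, 0, 0, 0), (33, 0, 0, 0, 0), (40, 0, 0, 0, 0), (40, 0, 0, 0, 0), (15, 0, 0, 0, 0), (15, 0, 0, 0, 0), (33, 0, 0, 0, 0), (33, 0, 0, 0, 0), (43, 0, 0, 0, 0),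 (43, 0, 0, 0, 0), (28, 0, 0, 0, 0), (28, 0, 0, 0, 0), (40, 0, 0, 0, 0), (40, 0, 0, 0, 0), (43, 0, 0, 0, 0), (43, 0, 0, 0, 0), (3, 0, 0, 0, 0), (3, 0, 0, 0, 0), (9, 0, 0, 0, 0), (9, 0, 0, 0, 0), (29, 0, 0, 0, 0), (29, 0, 0, 0, 0), (3, 0, 0, 0, 0), (3, 0, 0, 0, 0), (30, 0, 0, 0, 0), (30, 0, 0, 0, 0), (41, 0, 0, 0, 0), (41, 0, 0, 0, 0), (9, 0, 0, 0, 0), (9, 0, 0, 0, 0), (30, 0, 0, 0, 0), (30, 0, 0, 0, 0), (44, 0, 0, 0, 0), (44, 0, 0, 0, 0), (29, 0, 0, 0, 0), (29, 0, 0, 0, 0), (41, 0, 0, 0, 0), (41, 0, 0, 0, 0), (44, 0, 0, 0, 0), (44, 0, 0, 0, 0), (5, 0, 0, 0, 0), (5, 0, 0, 0, 0), (11, 0, 0, 0, 0), (11, 0, 0, 0, 0), (17, 0, 0, 0, 0), (17, 0, 0, 0, 0), (5, 0, 0, 0, 0), (5, 0, 0, 0, 0), (32, 0, 0, 0, 0), (32, 0, 0, 0, 0), (35, 0, 0, 0, 0), (35, 0, 0, 0, 0), (11, 0, 0, 0,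 0), (11, 0, 0, 0, 0), (32, 0, 0, 0, 0), (32, 0, 0, 0, 0), (42, 0, 0, 0, 0), (42, 0, 0, 0, 0), (17, 0, 0, 0, 0), (17, 0, 0, 0, 0), (35, 0, 0, 0, 0), (35, 0, 0, 0, 0), (42, 0, 0, 0, 0), (42, 0, 0, 0, 0), (24, 0, 0, 0, 0), (24, 0, 0, 0, 0), (25, 0, 0, 0, 0), (25, 0, 0, 0, 0), (26, 0, 0, 0, 0), (26, 0, 0, 0, 0), (24, 0, 0, 0, 0), (24, 0, 0, 0, 0), (27, 0, 0, 0, 0), (27, 0, 0, 0, 0), (28, 0, 0, 0, 0), (28, 0, 0, 0, 0), (25, 0, 0, 0, 0), (25, 0, 0, 0, 0), (27, 0, 0, 0, 0), (27, 0, 0, 0, 0), (29, 0, 0, 0, 0), (29, 0, 0, 0, 0), (26, 0, 0, 0, 0), (26, 0, 0, 0, 0), (28, 0, 0, 0, 0), (28, 0, 0, 0, 0), (29, 0, 0, 0, 0), (29, 0, 0, 0, 0), (8, 0, 0, 0, 0), (8, 0, 0, 0, 0), (14, 0, 0, 0, 0), (14, 0, 0, 0, 0), (20, 0, 0, 0, 0), (20, 0, 0, 0, 0), (8, 0, 0, 0, 0), (8, 0, 0, 0, 0), (39,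 0, 0, 0, 0), (39, 0, 0, 0, 0), (40, 0, 0, 0, 0), (40, 0, 0, 0, 0), (14, 0, 0, 0, 0), (14, 0, 0, 0, 0), (39, 0, 0, 0, 0), (39, 0, 0, 0, 0), (41, 0, 0, 0, 0), (41, 0, 0, 0, 0), (20, 0, 0, 0, 0), (20, 0, 0, 0, 0), (40, 0, 0, 0, 0), (40, 0, 0, 0, 0), (41, 0, 0, 0, 0), (41, 0, 0, 0, 0), (2, 0, 0, 0, 0), (2, 0, 0, 0, 0), (16, 0, 0, 0, 0), (16, 0, 0, 0, 0), (22, 0, 0, 0, 0), (22, 0, 0, 0, 0), (2, 0, 0, 0, 0), (2, 0, 0, 0, 0), (34, 0, 0, 0, 0), (34, 0, 0, 0, 0), (37, 0, 0, 0, 0), (37, 0, 0, 0, 0), (16, 0, 0, 0, 0), (16, 0, 0, 0, 0), (34, 0, 0, 0, 0), (34, 0, 0, 0, 0), (44, 0, 0, 0, 0), (44, 0, 0, 0, 0), (22, 0, 0, 0, 0), (22, 0, 0, 0, 0), (37, 0, 0, 0, 0), (37, 0, 0, 0, 0), (44, 0, 0, 0, 0), (44, 0, 0, 0, 0), (4, 0, 0, 0, 0), (4, 0, 0, 0, 0), (10, 0, 0, 0, 0), (10, 0, 0, 0,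 0), (23, 0, 0, 0, 0), (23, 0, 0, 0, 0), (4, 0, 0, 0, 0), (4, 0, 0, 0, 0), (31, 0, 0, 0, 0), (31, 0, 0, 0, 0), (38, 0, 0, 0, 0), (38, 0, 0, 0, 0), (10, 0, 0, 0, 0), (10, 0, 0, 0, 0), (31, 0, 0, 0, 0), (31, 0, 0, 0, 0), (43, 0, 0, 0, 0), (43, 0, 0, 0, 0), (23, 0, 0, 0, 0), (23, 0, 0, 0, 0), (38, 0, 0, 0, 0), (38, 0, 0, 0, 0), (43, 0, 0, 0, 0), (43, 0, 0, 0, 0), (5, 0, 0, 0, 0), (5, 0, 0, 0, 0), (11, 0, 0, 0, 0), (11, 0, 0, 0, 0), (17, 0, 0, 0, 0), (17, 0, 0, 0, 0), (5, 0, 0, 0, 0), (5, 0, 0, 0, 0), (32, 0, 0, 0, 0), (32, 0, 0, 0, 0), (35, 0, 0, 0, 0), (35, 0, 0, 0, 0), (11, 0, 0, 0, 0), (11, 0, 0, 0, 0), (32, 0, 0, 0, 0), (32, 0, 0, 0, 0), (42, 0, 0, 0, 0), (42, 0, 0, 0, 0), (17, 0, 0, 0, 0), (17, 0, 0, 0, 0), (35, 0, 0, 0, 0), (35, 0, 0, 0, 0), (42, 0, 0, 0, 0), (42,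 0, 0, 0, 0)]]

theorem tr33 : trK keys lk33 kl33 = true := by
  decide +kernel

theorem x33_0 : expB 0 6 dg1 dg8 m33_0 (l33_0 ++ z33_0) w33_0 = true := by
  decide +kernel

theorem t33_0_0 : chkS lk33 0 6 [(1, m33_0)] l33_0
  [(0, 16, 16, 5517840, 5517840), (4, 16, 16, 5517840, 5517840), (4, 16, 16, 4534800, 4534800), (4, 16, 16, 5514000, 5514000), (4, 16, 16, 4530960, 4530960), (3, 16, 16, 5517840, 5517840), (1, 16, 16, 5517840, 5517840), (6, 16, 16, 5513985, 5513985), (6, 16, 16, 4530945, 4530945), (6, 16, 16, 5505315, 5505315), (6, 16, 16, 4522275, 4522275), (5, 16, 16, 5513985, 5513985), (1, 16, 16, 5514000, 5514000), (6, 16, 16, 5517825, 5517825), (6, 16, 16, 4534785, 4534785), (6, 16, 16, 5509155, 5505330), (6, 16, 16, 4526115, 4522290), (5, 16, 16, 5517825,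 5517825), (6, 16, 16, 5514000, 5514000), (6, 16, 16, 5517840, 5517840), (5, 1, 1, 2118705, 3282180), (4, 16, 16, 5509170, 5509170), (2, 16, 16, 3490320, 4411920), (2, 16, 16, 3482640, 4346640), (6, 16, 16, 4530960, 4530960), (6, 16, 16, 4534800, 4534800), (5, 1, 1, 152625, 3281925), (4, 16, 16, 4526130, 4526130), (2, 16, 16, 5456400, 5456400), (2, 16, 16, 5448720, 5391120), (6, 16, 16, 5505330, 5509155), (6, 16, 16, 4522290, 4526115), (5, 16, 16, 5514000, 5514000), (6, 16, 16, 5509170, 5509170), (6, 16, 16, 4526130, 4526130), (5, 16, 16, 5517840, 5517840), (4, 16, 16, 5509155, 5505330), (2, 16, 16, 3490305, 4411905), (2, 16, 16, 3482625, 4346625), (4, 16, 16, 4526115, 4522290), (2, 16, 16, 5456385, 5456385), (2, 16, 16, 5448705, 5391105), (3, 16, 16, 5509170, 5509170),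 (5, 1, 1, 2109780, 1062180), (5, 1, 1, 143700, 1061925)]
  [(0, 11520), (1, 23040), (2, 92160), (3, 23040), (4, 92160), (5, 92160), (6, 184320)] = true := by
  decide +kernel

section

variable {κ ι : Type*} [Fintype κ] [Fintype ι] [Inhabited κ] [Inhabited ι]

noncomputable def F33_0 (E : Env κ ι) : (Fin 0 → κ) → (Fin 6 → ι) → ℝ := op2 (P1 κ) (P8 ι) (fB E 0 6 m33_0)

def r33_0_0 : List (ℕ × ℤ) := [(0, 11520), (1, 23040), (2, 92160), (3, 23040), (4, 92160), (5, 92160), (6, 184320)]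

theorem h33_0_0 (E : Env κ ι) : ip (F33_0 E) (F33_0 E) = dotS (ek E lk33) r33_0_0 :=
  op_entryZ E lk33 0 6 _ _ _ _ (pg1 κ) (pg8 ι) m33_0 m33_0 l33_0 z33_0 w33_0 x33_0 (by decide) _ (chkS_sound E lk33 0 6 _ _ _ _ t33_0_0)

theorem row33_0 (E : Env κ ι) : RowG (ek E lk33) (F33_0 E) [F33_0 E] [r33_0_0] :=
  rowG_cons _ _ _ _ _ _ (h33_0_0 E) (rowG_nil _ _)

def tab33 : List (List (List (ℕ × ℤ))) := [[r33_0_0]]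

theorem tri33 (E : Env κ ι) : TriG (ek E lk33) [F33_0 E] tab33 := by
  refine triG_cons _ _ _ _ _ (row33_0 E) ?_
  exact triG_nil _

end

def lk34 : List Key := [
  (2, 6, [(0, [0], [0, 1]), (0, [1], [2, 3]), (0, [0], [2, 3]), (0, [1], [0, 1]), (1, [], [4, 5]), (1, [], [4, 5])]),
  (2, 6, [(0, [0], [0, 1]), (0, [0], [2, 3]), (0, [1], [0, 2]), (0, [1], [1, 3]), (1, [], [4, 5]), (1, [], [4, 5])]),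
  (2, 6, [(0, [0], [0, 1]), (0, [1], [2, 3]), (0, [0], [2, 4]), (0, [1], [0, 5]), (1, [], [3, 5]), (1, [], [1, 4])]),
  (2, 6, [(0, [0], [0, 1]), (0, [0], [2, 3]), (0, [1], [0, 1]), (0, [1], [4, 5]), (1, [], [4, 5]), (1, [], [2, 3])]),
  (2, 6, [(0, [0], [0, 1]), (0, [0], [2, 3]), (0, [1], [0, 1]), (0, [1], [2, 4]), (1, [], [4, 5]), (1, [], [3, 5])]),
  (2, 6, [(0, [0], [0, 1]), (0, [0], [2, 3]), (0, [1], [1, 3]), (0, [1], [4, 5]), (1, [], [4, 5]), (1, [], [0, 2])]),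
  (2, 6, [(0, [0], [0, 1]), (0, [0], [2, 3]), (0, [1], [1, 3]), (0, [1], [0, 4]), (1, [], [4, 5]), (1, [], [2, 5])])]

def kl34 : List ℕ := [16, 20, 23, 46, 48, 50, 52]

def m34_0 : Base := (1, 0, [(0, [0], [0, 1]), (0, [0], [2, 3]), (1, [], [4, 5])])

def l34_0 : Cov := [(1440, 1, 0, [(0, [0], [0, 1]), (0, [0], [2, 3]), (1, [], [4, 5])]),
  (1440, 1, 0, [(0, [0], [0, 1]), (0, [0], [2, 4]), (1, [], [3, 5])]),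
  (1440, 1, 0, [(0, [0], [0, 1]), (0, [0], [3, 4]), (1, [], [2, 5])]),
  (1440, 1, 0, [(0, [0], [0, 2]), (0, [0], [1, 3]), (1, [], [4, 5])]),
  (1440, 1, 0, [(0, [0], [0, 2]), (0, [0], [1, 4]), (1, [], [3, 5])]),
  (1440, 1, 0, [(0, [0], [0, 2]), (0, [0], [3, 4]), (1, [], [1, 5])]),
  (1440, 1, 0, [(0, [0], [0, 3]), (0, [0], [1, 2]), (1, [], [4, 5])]),
  (1440, 1, 0, [(0, [0], [0, 3]), (0, [0], [1, 4]), (1, [], [2, 5])]),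
  (1440, 1, 0, [(0, [0], [0, 3]), (0, [0], [2, 4]), (1, [], [1, 5])]),
  (1440, 1, 0, [(0, [0], [0, 4]), (0, [0], [1, 2]), (1, [], [3, 5])]),
  (1440, 1, 0, [(0, [0], [0, 4]), (0, [0], [1, 3]), (1, [], [2, 5])]),
  (1440, 1, 0, [(0, [0], [0, 4]), (0, [0], [2, 3]), (1, [], [1, 5])]),
  (-1440, 1, 0, [(0, [0], [1, 2]), (0, [0], [3, 5]), (1, [], [4, 0])]),
  (-1440, 1, 0, [(0, [0], [1, 2]), (0, [0], [4, 5]), (1, [], [3, 0])]),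
  (-1440, 1, 0, [(0, [0], [1, 3]), (0, [0], [2, 5]), (1, [], [4, 0])]),
  (-1440, 1, 0, [(0, [0], [1, 3]), (0, [0], [4, 5]), (1, [], [2, 0])]),
  (-1440, 1, 0, [(0, [0], [1, 4]), (0, [0], [2, 5]), (1, [], [3, 0])]),
  (-1440, 1, 0, [(0, [0], [1, 4]), (0, [0], [3, 5]), (1, [], [2, 0])]),
  (-1440, 1, 0, [(0, [0], [1, 5]), (0, [0], [2, 3]), (1, [], [4, 0])]),
  (-1440, 1, 0, [(0, [0], [1, 5]), (0, [0], [2, 4]), (1, [], [3, 0])]),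
  (-1440, 1, 0, [(0, [0], [1, 5]), (0, [0], [3, 4]), (1, [], [2, 0])]),
  (-1440, 1, 0, [(0, [0], [2, 3]), (0, [0], [4, 5]), (1, [], [1, 0])]),
  (-1440, 1, 0, [(0, [0], [2, 4]), (0, [0], [3, 5]), (1, [], [1, 0])]),
  (-1440, 1, 0, [(0, [0], [2, 5]), (0, [0], [3, 4]), (1, [], [1, 0])])]

def z34_0 : Cov := [(0, 1, 0, [(0, [0], [0, 1]), (0, [0], [2, 5]), (1, [], [3, 4])]),
  (0, 1, 0, [(0, [0], [0, 1]), (0, [0], [3, 5]), (1, [], [2, 4])]),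
  (0, 1, 0, [(0, [0], [0, 1]), (0, [0], [4, 5]), (1, [], [2, 3])]),
  (0, 1, 0, [(0, [0], [0, 2]), (0, [0], [1, 5]), (1, [], [3, 4])]),
  (0, 1, 0, [(0, [0], [0, 2]), (0, [0], [3, 5]), (1, [], [1, 4])]),
  (0, 1, 0, [(0, [0], [0, 2]), (0, [0], [4, 5]), (1, [], [1, 3])]),
  (0, 1, 0, [(0, [0], [0, 3]), (0, [0], [1, 5]), (1, [], [2, 4])]),
  (0, 1, 0, [(0, [0], [0, 3]), (0, [0], [2, 5]), (1, [], [1, 4])]),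
  (0, 1, 0, [(0, [0], [0, 3]), (0, [0], [4, 5]), (1, [], [1, 2])]),
  (0, 1, 0, [(0, [0], [0, 4]), (0, [0], [1, 5]), (1, [], [2, 3])]),
  (0, 1, 0, [(0, [0], [0, 4]), (0, [0], [2, 5]), (1, [], [1, 3])]),
  (0, 1, 0, [(0, [0], [0, 4]), (0, [0], [3, 5]), (1, [], [1, 2])]),
  (0, 1, 0, [(0, [0], [0, 5]), (0, [0], [1, 2]), (1, [], [3, 4])]),
  (0, 1, 0, [(0, [0], [0, 5]), (0, [0], [1, 3]), (1, [], [2, 4])]),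
  (0, 1, 0, [(0, [0], [0, 5]), (0, [0], [1, 4]), (1, [], [2, 3])]),
  (0, 1, 0, [(0, [0], [0, 5]), (0, [0], [2, 3]), (1, [], [1, 4])]),
  (0, 1, 0, [(0, [0], [0, 5]), (0, [0], [2, 4]), (1, [], [1, 3])]),
  (0, 1, 0, [(0, [0], [0, 5]), (0, [0], [3, 4]), (1, [], [1, 2])]),
  (0, 1, 0, [(0, [0], [1, 2]), (0, [0], [3, 4]), (1, [], [0, 5])]),
  (0, 1, 0, [(0, [0], [1, 3]), (0, [0], [2, 4]), (1, [], [0, 5])]),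
  (0, 1, 0, [(0, [0], [1, 4]), (0, [0], [2, 3]), (1, [], [0, 5])])]

def w34_0 : List (List Wit) := [[(0, 0, 0, 0, 0), (0, 0, 0, 0, 0), (1, 0, 0, 0, 0), (1, 0, 0, 0, 0), (24, 0, 0, 0, 0), (24, 0, 0, 0, 0), (0, 0, 0, 0, 0), (0, 0, 0, 0, 0), (2, 0, 0, 0, 0), (2, 0, 0, 0, 0), (25, 0, 0, 0, 0), (25, 0, 0, 0, 0), (1, 0, 0, 0, 0), (1, 0, 0, 0, 0), (2, 0, 0, 0, 0), (2, 0, 0, 0, 0), (26, 0, 0, 0, 0), (26, 0, 0, 0, 0), (24, 0, 0, 0, 0), (24, 0, 0, 0, 0), (25, 0, 0, 0, 0), (25, 0, 0, 0, 0), (26, 0, 0, 0, 0), (26, 0, 0, 0, 0), (3, 0, 0, 0, 0), (3, 0, 0, 0, 0), (4, 0, 0, 0, 0), (4, 0, 0, 0, 0), (27, 0, 0, 0, 0), (27, 0, 0, 0, 0), (3, 0, 0, 0, 0), (3, 0, 0, 0, 0), (5, 0, 0, 0, 0), (5, 0, 0, 0, 0), (28, 0, 0, 0, 0), (28, 0, 0, 0, 0), (4, 0, 0, 0, 0), (4, 0, 0, 0, 0), (5, 0, 0, 0,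 0), (5, 0, 0, 0, 0), (29, 0, 0, 0, 0), (29, 0, 0, 0, 0), (27, 0, 0, 0, 0), (27, 0, 0, 0, 0), (28, 0, 0, 0, 0), (28, 0, 0, 0, 0), (29, 0, 0, 0, 0), (29, 0, 0, 0, 0), (6, 0, 0, 0, 0), (6, 0, 0, 0, 0), (7, 0, 0, 0, 0), (7, 0, 0, 0, 0), (30, 0, 0, 0, 0), (30, 0, 0, 0, 0), (6, 0, 0, 0, 0), (6, 0, 0, 0, 0), (8, 0, 0, 0, 0), (8, 0, 0, 0, 0), (31, 0, 0, 0, 0), (31, 0, 0, 0, 0), (7, 0, 0, 0, 0), (7, 0, 0, 0, 0), (8, 0, 0, 0, 0), (8, 0, 0, 0, 0), (32, 0, 0, 0, 0), (32, 0, 0, 0, 0), (30, 0, 0, 0, 0), (30, 0, 0, 0, 0), (31, 0, 0, 0, 0), (31, 0, 0, 0, 0), (32, 0, 0, 0, 0), (32, 0, 0, 0, 0), (9, 0, 0, 0, 0), (9, 0, 0, 0, 0), (10, 0, 0, 0, 0), (10, 0, 0, 0, 0), (33, 0, 0, 0, 0), (33, 0, 0, 0, 0), (9, 0, 0, 0, 0), (9, 0, 0, 0, 0), (11, 0, 0, 0, 0), (11, 0, 0, 0, 0), (34, 0, 0, 0,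 0), (34, 0, 0, 0, 0), (10, 0, 0, 0, 0), (10, 0, 0, 0, 0), (11, 0, 0, 0, 0), (11, 0, 0, 0, 0), (35, 0, 0, 0, 0), (35, 0, 0, 0, 0), (33, 0, 0, 0, 0), (33, 0, 0, 0, 0), (34, 0, 0, 0, 0), (34, 0, 0, 0, 0), (35, 0, 0, 0, 0), (35, 0, 0, 0, 0), (36, 0, 0, 0, 0), (36, 0, 0, 0, 0), (37, 0, 0, 0, 0), (37, 0, 0, 0, 0), (38, 0, 0, 0, 0), (38, 0, 0, 0, 0), (36, 0, 0, 0, 0), (36, 0, 0, 0, 0), (39, 0, 0, 0, 0), (39, 0, 0, 0, 0), (40, 0, 0, 0, 0), (40, 0, 0, 0, 0), (37, 0, 0, 0, 0), (37, 0, 0, 0, 0), (39, 0, 0, 0, 0), (39, 0, 0, 0, 0), (41, 0, 0, 0, 0), (41, 0, 0, 0, 0), (38, 0, 0, 0, 0), (38, 0, 0, 0, 0), (40, 0, 0, 0, 0), (40, 0, 0, 0, 0), (41, 0, 0, 0, 0), (41, 0, 0, 0, 0), (0, 0, 0, 0, 0), (1, 0, 0, 0, 0), (0, 0, 0, 0, 0), (2, 0, 0, 0, 0), (1, 0, 0, 0, 0), (2, 0, 0, 0, 0), (6,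 0, 0, 0, 0), (9, 0, 0, 0, 0), (6, 0, 0, 0, 0), (42, 0, 0, 0, 0), (42, 0, 0, 0, 0), (12, 0, 0, 0, 0), (9, 0, 0, 0, 0), (42, 0, 0, 0, 0), (42, 0, 0, 0, 0), (13, 0, 0, 0, 0), (12, 0, 0, 0, 0), (13, 0, 0, 0, 0), (3, 0, 0, 0, 0), (10, 0, 0, 0, 0), (3, 0, 0, 0, 0), (43, 0, 0, 0, 0), (43, 0, 0, 0, 0), (14, 0, 0, 0, 0), (10, 0, 0, 0, 0), (43, 0, 0, 0, 0), (43, 0, 0, 0, 0), (15, 0, 0, 0, 0), (14, 0, 0, 0, 0), (15, 0, 0, 0, 0), (4, 0, 0, 0, 0), (7, 0, 0, 0, 0), (4, 0, 0, 0, 0), (44, 0, 0, 0, 0), (44, 0, 0, 0, 0), (16, 0, 0, 0, 0), (7, 0, 0, 0, 0), (44, 0, 0, 0, 0), (44, 0, 0, 0, 0), (17, 0, 0, 0, 0), (16, 0, 0, 0, 0), (17, 0, 0, 0, 0), (18, 0, 0, 0, 0), (19, 0, 0, 0, 0), (18, 0, 0, 0, 0), (20, 0, 0, 0, 0), (19, 0, 0, 0, 0), (20, 0, 0, 0, 0), (3, 0, 0, 0, 0), (4, 0, 0, 0, 0),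 (3, 0, 0, 0, 0), (5, 0, 0, 0, 0), (4, 0, 0, 0, 0), (5, 0, 0, 0, 0), (6, 0, 0, 0, 0), (9, 0, 0, 0, 0), (6, 0, 0, 0, 0), (42, 0, 0, 0, 0), (42, 0, 0, 0, 0), (12, 0, 0, 0, 0), (9, 0, 0, 0, 0), (42, 0, 0, 0, 0), (42, 0, 0, 0, 0), (13, 0, 0, 0, 0), (12, 0, 0, 0, 0), (13, 0, 0, 0, 0), (0, 0, 0, 0, 0), (11, 0, 0, 0, 0), (0, 0, 0, 0, 0), (44, 0, 0, 0, 0), (44, 0, 0, 0, 0), (18, 0, 0, 0, 0), (11, 0, 0, 0, 0), (44, 0, 0, 0, 0), (44, 0, 0, 0, 0), (21, 0, 0, 0, 0), (18, 0, 0, 0, 0), (21, 0, 0, 0, 0), (1, 0, 0, 0, 0), (8, 0, 0, 0, 0), (1, 0, 0, 0, 0), (43, 0, 0, 0, 0), (43, 0, 0, 0, 0), (19, 0, 0, 0, 0), (8, 0, 0, 0, 0), (43, 0, 0, 0, 0), (43, 0, 0, 0, 0), (22, 0, 0, 0, 0), (19, 0, 0, 0, 0), (22, 0, 0, 0, 0), (14, 0, 0, 0, 0), (16, 0, 0, 0, 0), (14, 0, 0, 0, 0), (23, 0, 0, 0, 0),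 (16, 0, 0, 0, 0), (23, 0, 0, 0, 0), (6, 0, 0, 0, 0), (7, 0, 0, 0, 0), (6, 0, 0, 0, 0), (8, 0, 0, 0, 0), (7, 0, 0, 0, 0), (8, 0, 0, 0, 0), (3, 0, 0, 0, 0), (10, 0, 0, 0, 0), (3, 0, 0, 0, 0), (43, 0, 0, 0, 0), (43, 0, 0, 0, 0), (14, 0, 0, 0, 0), (10, 0, 0, 0, 0), (43, 0, 0, 0, 0), (43, 0, 0, 0, 0), (15, 0, 0, 0, 0), (14, 0, 0, 0, 0), (15, 0, 0, 0, 0), (0, 0, 0, 0, 0), (11, 0, 0, 0, 0), (0, 0, 0, 0, 0), (44, 0, 0, 0, 0), (44, 0, 0, 0, 0), (18, 0, 0, 0, 0), (11, 0, 0, 0, 0), (44, 0, 0, 0, 0), (44, 0, 0, 0, 0), (21, 0, 0, 0, 0), (18, 0, 0, 0, 0), (21, 0, 0, 0, 0), (2, 0, 0, 0, 0), (5, 0, 0, 0, 0), (2, 0, 0, 0, 0), (42, 0, 0, 0, 0), (42, 0, 0, 0, 0), (20, 0, 0, 0, 0), (5, 0, 0, 0, 0), (42, 0, 0, 0, 0), (42, 0, 0, 0, 0), (23, 0, 0, 0, 0), (20, 0, 0, 0, 0), (23, 0, 0, 0, 0),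 (12, 0, 0, 0, 0), (17, 0, 0, 0, 0), (12, 0, 0, 0, 0), (22, 0, 0, 0, 0), (17, 0, 0, 0, 0), (22, 0, 0, 0, 0), (9, 0, 0, 0, 0), (10, 0, 0, 0, 0), (9, 0, 0, 0, 0), (11, 0, 0, 0, 0), (10, 0, 0, 0, 0), (11, 0, 0, 0, 0), (4, 0, 0, 0, 0), (7, 0, 0, 0, 0), (4, 0, 0, 0, 0), (44, 0, 0, 0, 0), (44, 0, 0, 0, 0), (16, 0, 0, 0, 0), (7, 0, 0, 0, 0), (44, 0, 0, 0, 0), (44, 0, 0, 0, 0), (17, 0, 0, 0, 0), (16, 0, 0, 0, 0), (17, 0, 0, 0, 0), (1, 0, 0, 0, 0), (8, 0, 0, 0, 0), (1, 0, 0, 0, 0), (43, 0, 0, 0, 0), (43, 0, 0, 0, 0), (19, 0, 0, 0, 0), (8, 0, 0, 0, 0), (43, 0, 0, 0, 0), (43, 0, 0, 0, 0), (22, 0, 0, 0, 0), (19, 0, 0, 0, 0), (22, 0, 0, 0, 0), (2, 0, 0, 0, 0), (5, 0, 0, 0, 0), (2, 0, 0, 0, 0), (42, 0, 0, 0, 0), (42, 0, 0, 0, 0), (20, 0, 0, 0, 0), (5, 0, 0, 0, 0), (42, 0, 0, 0, 0),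 (42, 0, 0, 0, 0), (23, 0, 0, 0, 0), (20, 0, 0, 0, 0), (23, 0, 0, 0, 0), (13, 0, 0, 0, 0), (15, 0, 0, 0, 0), (13, 0, 0, 0, 0), (21, 0, 0, 0, 0), (15, 0, 0, 0, 0), (21, 0, 0, 0, 0), (36, 0, 0, 0, 0), (36, 0, 0, 0, 0), (37, 0, 0, 0, 0), (37, 0, 0, 0, 0), (38, 0, 0, 0, 0), (38, 0, 0, 0, 0), (36, 0, 0, 0, 0), (36, 0, 0, 0, 0), (39, 0, 0, 0, 0), (39, 0, 0, 0, 0), (40, 0, 0, 0, 0), (40, 0, 0, 0, 0), (37, 0, 0, 0, 0), (37, 0, 0, 0, 0), (39, 0, 0, 0, 0), (39, 0, 0, 0, 0), (41, 0, 0, 0, 0), (41, 0, 0, 0, 0), (38, 0, 0, 0, 0), (38, 0, 0, 0, 0), (40, 0, 0, 0, 0), (40, 0, 0, 0, 0), (41, 0, 0, 0, 0), (41, 0, 0, 0, 0), (27, 0, 0, 0, 0), (27, 0, 0, 0, 0), (30, 0, 0, 0, 0), (30, 0, 0, 0, 0), (33, 0, 0, 0, 0), (33, 0, 0, 0, 0), (27, 0, 0, 0, 0), (27, 0, 0, 0, 0), (18, 0, 0, 0, 0), (18,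 0, 0, 0, 0), (19, 0, 0, 0, 0), (19, 0, 0, 0, 0), (30, 0, 0, 0, 0), (30, 0, 0, 0, 0), (18, 0, 0, 0, 0), (18, 0, 0, 0, 0), (20, 0, 0, 0, 0), (20, 0, 0, 0, 0), (33, 0, 0, 0, 0), (33, 0, 0, 0, 0), (19, 0, 0, 0, 0), (19, 0, 0, 0, 0), (20, 0, 0, 0, 0), (20, 0, 0, 0, 0), (24, 0, 0, 0, 0), (24, 0, 0, 0, 0), (31, 0, 0, 0, 0), (31, 0, 0, 0, 0), (34, 0, 0, 0, 0), (34, 0, 0, 0, 0), (24, 0, 0, 0, 0), (24, 0, 0, 0, 0), (14, 0, 0, 0, 0), (14, 0, 0, 0, 0), (16, 0, 0, 0, 0), (16, 0, 0, 0, 0), (31, 0, 0, 0, 0), (31, 0, 0, 0, 0), (14, 0, 0, 0, 0), (14, 0, 0, 0, 0), (23, 0, 0, 0, 0), (23, 0, 0, 0, 0), (34, 0, 0, 0, 0), (34, 0, 0, 0, 0), (16, 0, 0, 0, 0), (16, 0, 0, 0, 0), (23, 0, 0, 0, 0), (23, 0, 0, 0, 0), (25, 0, 0, 0, 0), (25, 0, 0, 0, 0), (28, 0, 0, 0, 0), (28, 0, 0, 0, 0), (35, 0,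 0, 0, 0), (35, 0, 0, 0, 0), (25, 0, 0, 0, 0), (25, 0, 0, 0, 0), (12, 0, 0, 0, 0), (12, 0, 0, 0, 0), (17, 0, 0, 0, 0), (17, 0, 0, 0, 0), (28, 0, 0, 0, 0), (28, 0, 0, 0, 0), (12, 0, 0, 0, 0), (12, 0, 0, 0, 0), (22, 0, 0, 0, 0), (22, 0, 0, 0, 0), (35, 0, 0, 0, 0), (35, 0, 0, 0, 0), (17, 0, 0, 0, 0), (17, 0, 0, 0, 0), (22, 0, 0, 0, 0), (22, 0, 0, 0, 0), (26, 0, 0, 0, 0), (26, 0, 0, 0, 0), (29, 0, 0, 0, 0), (29, 0, 0, 0, 0), (32, 0, 0, 0, 0), (32, 0, 0, 0, 0), (26, 0, 0, 0, 0), (26, 0, 0, 0, 0), (13, 0, 0, 0, 0), (13, 0, 0, 0, 0), (15, 0, 0, 0, 0), (15, 0, 0, 0, 0), (29, 0, 0, 0, 0), (29, 0, 0, 0, 0), (13, 0, 0, 0, 0), (13, 0, 0, 0, 0), (21, 0, 0, 0, 0), (21, 0, 0, 0, 0), (32, 0, 0, 0, 0), (32, 0, 0, 0, 0), (15, 0, 0, 0, 0), (15, 0, 0, 0, 0), (21, 0, 0, 0, 0), (21, 0, 0,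 0, 0)]]

theorem tr34 : trK keys lk34 kl34 = true := by
  decide +kernel

theorem x34_0 : expB 0 6 dg1 dg9 m34_0 (l34_0 ++ z34_0) w34_0 = true := by
  decide +kernel

theorem t34_0_0 : chkS lk34 0 6 [(1, m34_0)] l34_0
  [(0, 16, 16, 5517840, 5517840), (4, 16, 16, 5517840, 5517840), (4, 16, 16, 5514000, 5514000), (1, 16, 16, 5517840, 5517840), (6, 16, 16, 5513985, 5513985), (6, 16, 16, 5505315, 5505315), (1, 16, 16, 5514000, 5514000), (6, 16, 16, 5517825, 5517825), (6, 16, 16, 5509155, 5505330), (6, 16, 16, 5514000, 5514000), (6, 16, 16, 5517840, 5517840), (4, 16, 16, 5509170, 5509170), (6, 16, 16, 4522290, 4526115), (5, 16, 16, 5514000, 5514000), (6, 16, 16, 4526130, 4526130), (5, 16, 16, 5517840, 5517840), (2, 16, 16, 3490305, 4411905), (2, 16, 16, 3482625, 4346625),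 (4, 16, 16, 4526115, 4522290), (2, 16, 16, 5456385, 5456385), (2, 16, 16, 5448705, 5391105), (3, 16, 16, 5509170, 5509170), (5, 1, 1, 2109780, 1062180), (5, 1, 1, 143700, 1061925)]
  [(0, 1440), (1, 2880), (2, -5760), (3, -1440), (4, 2880), (5, -5760), (6, 5760)] = true := by
  decide +kernel

section

variable {κ ι : Type*} [Fintype κ] [Fintype ι] [Inhabited κ] [Inhabited ι]

noncomputable def F34_0 (E : Env κ ι) : (Fin 0 → κ) → (Fin 6 → ι) → ℝ := op2 (P1 κ) (P9 ι) (fB E 0 6 m34_0)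

def r34_0_0 : List (ℕ × ℤ) := [(0, 1440), (1, 2880), (2, -5760), (3, -1440), (4, 2880), (5, -5760), (6, 5760)]

theorem h34_0_0 (E : Env κ ι) : ip (F34_0 E) (F34_0 E) = dotS (ek E lk34) r34_0_0 :=
  op_entryZ E lk34 0 6 _ _ _ _ (pg1 κ) (pg9 ι) m34_0 m34_0 l34_0 z34_0 w34_0 x34_0 (by decide) _ (chkS_sound E lk34 0 6 _ _ _ _ t34_0_0)

theorem row34_0 (E : Env κ ι) : RowG (ek E lk34) (F34_0 E) [F34_0 E] [r34_0_0] :=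
  rowG_cons _ _ _ _ _ _ (h34_0_0 E) (rowG_nil _ _)

def tab34 : List (List (List (ℕ × ℤ))) := [[r34_0_0]]

theorem tri34 (E : Env κ ι) : TriG (ek E lk34) [F34_0 E] tab34 := by
  refine triG_cons _ _ _ _ _ (row34_0 E) ?_
  exact triG_nil _

end

def lk35 : List Key := [
  (2, 6, [(0, [0], [0, 1]), (0, [1], [2, 3]), (0, [0], [2, 3]), (0, [1], [0, 1]), (1, [], [4, 5]), (1, [], [4, 5])]),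
  (2, 6, [(0, [0], [0, 1]), (0, [0], [2, 3]), (0, [1], [0, 2]), (0, [1], [1, 3]), (1, [], [4, 5]), (1, [], [4, 5])]),
  (2, 6, [(0, [0], [0, 1]), (0, [1], [2, 3]), (0, [0], [2, 4]), (0, [1], [0, 5]), (1, [], [3, 5]), (1, [], [1, 4])]),
  (2, 6, [(0, [0], [0, 1]), (0, [0], [2, 3]), (0, [1], [0, 1]), (0, [1], [4, 5]), (1, [], [4, 5]), (1, [], [2, 3])]),
  (2, 6, [(0, [0], [0, 1]), (0, [0], [2, 3]), (0, [1], [0, 1]), (0, [1], [2, 4]), (1, [], [4, 5]), (1, [], [3, 5])]),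
  (2, 6, [(0, [0], [0, 1]), (0, [0], [2, 3]), (0, [1], [1, 3]), (0, [1], [4, 5]), (1, [], [4, 5]), (1, [], [0, 2])]),
  (2, 6, [(0, [0], [0, 1]), (0, [0], [2, 3]), (0, [1], [1, 3]), (0, [1], [0, 4]), (1, [], [4, 5]), (1, [], [2, 5])])]

def kl35 : List ℕ := [16, 20, 23, 46, 48, 50, 52]

def m35_0 : Base := (1, 0, [(0, [0], [0, 1]), (0, [0], [2, 3]), (1, [], [4, 5])])

def l35_0 : Cov := [(1536, 1, 0, [(0, [0], [0, 1]), (0, [0], [2, 3]), (1, [], [4, 5])]),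
  (384, 1, 0, [(0, [0], [0, 1]), (0, [0], [2, 4]), (1, [], [3, 5])]),
  (384, 1, 0, [(0, [0], [0, 1]), (0, [0], [2, 5]), (1, [], [3, 4])]),
  (384, 1, 0, [(0, [0], [0, 1]), (0, [0], [3, 4]), (1, [], [2, 5])]),
  (384, 1, 0, [(0, [0], [0, 1]), (0, [0], [3, 5]), (1, [], [2, 4])]),
  (768, 1, 0, [(0, [0], [0, 1]), (0, [0], [4, 5]), (1, [], [2, 3])]),
  (1152, 1, 0, [(0, [0], [0, 2]), (0, [0], [1, 3]), (1, [], [4, 5])]),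
  (-384, 1, 0, [(0, [0], [0, 2]), (0, [0], [1, 4]), (1, [], [3, 5])]),
  (-1152, 1, 0, [(0, [0], [0, 2]), (0, [0], [3, 5]), (1, [], [1, 4])]),
  (384, 1, 0, [(0, [0], [0, 2]), (0, [0], [4, 5]), (1, [], [3, 1])]),
  (1152, 1, 0, [(0, [0], [0, 3]), (0, [0], [1, 2]), (1, [], [4, 5])]),
  (-384, 1, 0, [(0, [0], [0, 3]), (0, [0], [1, 4]), (1, [], [2, 5])]),
  (-1152, 1, 0, [(0, [0], [0, 3]), (0, [0], [2, 5]), (1, [], [1, 4])]),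
  (384, 1, 0, [(0, [0], [0, 3]), (0, [0], [4, 5]), (1, [], [2, 1])]),
  (-384, 1, 0, [(0, [0], [0, 5]), (0, [0], [1, 2]), (1, [], [3, 4])]),
  (-384, 1, 0, [(0, [0], [0, 5]), (0, [0], [1, 3]), (1, [], [2, 4])]),
  (-768, 1, 0, [(0, [0], [0, 5]), (0, [0], [1, 4]), (1, [], [2, 3])]),
  (-1536, 1, 0, [(0, [0], [0, 5]), (0, [0], [2, 3]), (1, [], [1, 4])]),
  (-384, 1, 0, [(0, [0], [0, 5]), (0, [0], [2, 4]), (1, [], [1, 3])]),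
  (-384, 1, 0, [(0, [0], [0, 5]), (0, [0], [3, 4]), (1, [], [1, 2])]),
  (-1152, 1, 0, [(0, [0], [1, 2]), (0, [0], [3, 4]), (1, [], [0, 5])]),
  (384, 1, 0, [(0, [0], [1, 2]), (0, [0], [4, 5]), (1, [], [3, 0])]),
  (-1152, 1, 0, [(0, [0], [1, 3]), (0, [0], [2, 4]), (1, [], [0, 5])]),
  (384, 1, 0, [(0, [0], [1, 3]), (0, [0], [4, 5]), (1, [], [2, 0])]),
  (-1536, 1, 0, [(0, [0], [1, 4]), (0, [0], [2, 3]), (1, [], [0, 5])]),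
  (-384, 1, 0, [(0, [0], [1, 4]), (0, [0], [2, 5]), (1, [], [0, 3])]),
  (-384, 1, 0, [(0, [0], [1, 4]), (0, [0], [3, 5]), (1, [], [0, 2])]),
  (1536, 1, 0, [(0, [0], [2, 3]), (0, [0], [4, 5]), (1, [], [0, 1])]),
  (1152, 1, 0, [(0, [0], [2, 4]), (0, [0], [3, 5]), (1, [], [0, 1])]),
  (1152, 1, 0, [(0, [0], [2, 5]), (0, [0], [3, 4]), (1, [], [0, 1])])]

def z35_0 : Cov := [(0, 1, 0, [(0, [0], [0, 2]), (0, [0], [3, 4]), (1, [], [1, 5])]),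
  (0, 1, 0, [(0, [0], [0, 3]), (0, [0], [2, 4]), (1, [], [1, 5])]),
  (0, 1, 0, [(0, [0], [0, 4]), (0, [0], [1, 2]), (1, [], [3, 5])]),
  (0, 1, 0, [(0, [0], [0, 4]), (0, [0], [1, 3]), (1, [], [2, 5])]),
  (0, 1, 0, [(0, [0], [0, 4]), (0, [0], [2, 3]), (1, [], [1, 5])]),
  (0, 1, 0, [(0, [0], [0, 4]), (0, [0], [2, 5]), (1, [], [1, 3])]),
  (0, 1, 0, [(0, [0], [0, 4]), (0, [0], [3, 5]), (1, [], [1, 2])]),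
  (0, 1, 0, [(0, [0], [1, 2]), (0, [0], [3, 5]), (1, [], [0, 4])]),
  (0, 1, 0, [(0, [0], [1, 3]), (0, [0], [2, 5]), (1, [], [0, 4])]),
  (0, 1, 0, [(0, [0], [1, 5]), (0, [0], [0, 2]), (1, [], [3, 4])]),
  (0, 1, 0, [(0, [0], [1, 5]), (0, [0], [0, 3]), (1, [], [2, 4])]),
  (0, 1, 0, [(0, [0], [1, 5]), (0, [0], [2, 3]), (1, [], [0, 4])]),
  (0, 1, 0, [(0, [0], [1, 5]), (0, [0], [2, 4]), (1, [], [0, 3])]),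
  (0, 1, 0, [(0, [0], [1, 5]), (0, [0], [3, 4]), (1, [], [0, 2])])]

def w35_0 : List (List Wit) := [[(0, 0, 0, 0, 0), (0, 0, 0, 0, 0), (1, 0, 0, 0, 0), (1, 0, 0, 0, 0), (2, 0, 0, 0, 0), (2, 0, 0, 0, 0), (0, 0, 0, 0, 0), (0, 0, 0, 0, 0), (3, 0, 0, 0, 0), (3, 0, 0, 0, 0), (4, 0, 0, 0, 0), (4, 0, 0, 0, 0), (1, 0, 0, 0, 0), (1, 0, 0, 0, 0), (3, 0, 0, 0, 0), (3, 0, 0, 0, 0), (5, 0, 0, 0, 0), (5, 0, 0, 0, 0), (2, 0, 0, 0, 0), (2, 0, 0, 0, 0), (4, 0, 0, 0, 0), (4, 0, 0, 0, 0), (5, 0, 0, 0, 0), (5, 0, 0, 0, 0), (6, 0, 0, 0, 0), (6, 0, 0, 0, 0), (7, 0, 0, 0, 0), (6, 0, 0, 0, 0), (6, 0, 0, 0, 0), (30, 0, 0, 0, 0), (30, 0, 0, 0, 0), (8, 0, 0, 0, 0), (8, 0, 0, 0, 0), (7, 0, 0, 0, 0), (30, 0, 0, 0, 0), (30, 0, 0, 0, 0), (9, 0, 0, 0, 0), (8, 0, 0, 0, 0), (8, 0, 0, 0, 0), (9, 0,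 0, 0, 0), (10, 0, 0, 0, 0), (10, 0, 0, 0, 0), (11, 0, 0, 0, 0), (10, 0, 0, 0, 0), (10, 0, 0, 0, 0), (31, 0, 0, 0, 0), (31, 0, 0, 0, 0), (12, 0, 0, 0, 0), (12, 0, 0, 0, 0), (11, 0, 0, 0, 0), (31, 0, 0, 0, 0), (31, 0, 0, 0, 0), (13, 0, 0, 0, 0), (12, 0, 0, 0, 0), (12, 0, 0, 0, 0), (13, 0, 0, 0, 0), (32, 0, 0, 0, 0), (32, 0, 0, 0, 0), (33, 0, 0, 0, 0), (33, 0, 0, 0, 0), (32, 0, 0, 0, 0), (32, 0, 0, 0, 0), (34, 0, 0, 0, 0), (34, 0, 0, 0, 0), (35, 0, 0, 0, 0), (35, 0, 0, 0, 0), (33, 0, 0, 0, 0), (33, 0, 0, 0, 0), (34, 0, 0, 0, 0), (34, 0, 0, 0, 0), (36, 0, 0, 0, 0), (36, 0, 0, 0, 0), (35, 0, 0, 0, 0), (35, 0, 0, 0, 0), (36, 0, 0, 0, 0), (36, 0, 0, 0, 0), (14, 0, 0, 0, 0), (14, 0, 0, 0, 0), (15, 0, 0, 0, 0), (15, 0, 0, 0, 0), (16, 0, 0, 0, 0), (16, 0, 0, 0, 0), (14, 0, 0,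 0, 0), (14, 0, 0, 0, 0), (17, 0, 0, 0, 0), (17, 0, 0, 0, 0), (18, 0, 0, 0, 0), (18, 0, 0, 0, 0), (15, 0, 0, 0, 0), (15, 0, 0, 0, 0), (17, 0, 0, 0, 0), (17, 0, 0, 0, 0), (19, 0, 0, 0, 0), (19, 0, 0, 0, 0), (16, 0, 0, 0, 0), (16, 0, 0, 0, 0), (18, 0, 0, 0, 0), (18, 0, 0, 0, 0), (19, 0, 0, 0, 0), (19, 0, 0, 0, 0), (0, 0, 0, 0, 0), (0, 0, 0, 0, 0), (1, 0, 0, 0, 0), (1, 0, 0, 0, 0), (2, 0, 0, 0, 0), (2, 0, 0, 0, 0), (0, 0, 0, 0, 0), (0, 0, 0, 0, 0), (3, 0, 0, 0, 0), (3, 0, 0, 0, 0), (4, 0, 0, 0, 0), (4, 0, 0, 0, 0), (1, 0, 0, 0, 0), (1, 0, 0, 0, 0), (3, 0, 0, 0, 0), (3, 0, 0, 0, 0), (5, 0, 0, 0, 0), (5, 0, 0, 0, 0), (2, 0, 0, 0, 0), (2, 0, 0, 0, 0), (4, 0, 0, 0, 0), (4, 0, 0, 0, 0), (5, 0, 0, 0, 0), (5, 0, 0, 0, 0), (10, 0, 0, 0, 0), (10, 0, 0, 0, 0), (14, 0, 0, 0, 0),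 (10, 0, 0, 0, 0), (10, 0, 0, 0, 0), (20, 0, 0, 0, 0), (20, 0, 0, 0, 0), (37, 0, 0, 0, 0), (37, 0, 0, 0, 0), (20, 0, 0, 0, 0), (20, 0, 0, 0, 0), (21, 0, 0, 0, 0), (14, 0, 0, 0, 0), (37, 0, 0, 0, 0), (37, 0, 0, 0, 0), (21, 0, 0, 0, 0), (6, 0, 0, 0, 0), (6, 0, 0, 0, 0), (15, 0, 0, 0, 0), (6, 0, 0, 0, 0), (6, 0, 0, 0, 0), (22, 0, 0, 0, 0), (22, 0, 0, 0, 0), (38, 0, 0, 0, 0), (38, 0, 0, 0, 0), (22, 0, 0, 0, 0), (22, 0, 0, 0, 0), (23, 0, 0, 0, 0), (15, 0, 0, 0, 0), (38, 0, 0, 0, 0), (38, 0, 0, 0, 0), (23, 0, 0, 0, 0), (7, 0, 0, 0, 0), (7, 0, 0, 0, 0), (11, 0, 0, 0, 0), (11, 0, 0, 0, 0), (16, 0, 0, 0, 0), (16, 0, 0, 0, 0), (7, 0, 0, 0, 0), (7, 0, 0, 0, 0), (24, 0, 0, 0, 0), (24, 0, 0, 0, 0), (25, 0, 0, 0, 0), (25, 0, 0, 0, 0), (11, 0, 0, 0, 0), (11, 0, 0, 0, 0), (24, 0, 0,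 0, 0), (24, 0, 0, 0, 0), (26, 0, 0, 0, 0), (26, 0, 0, 0, 0), (16, 0, 0, 0, 0), (16, 0, 0, 0, 0), (25, 0, 0, 0, 0), (25, 0, 0, 0, 0), (26, 0, 0, 0, 0), (26, 0, 0, 0, 0), (39, 0, 0, 0, 0), (39, 0, 0, 0, 0), (40, 0, 0, 0, 0), (40, 0, 0, 0, 0), (39, 0, 0, 0, 0), (39, 0, 0, 0, 0), (41, 0, 0, 0, 0), (41, 0, 0, 0, 0), (42, 0, 0, 0, 0), (42, 0, 0, 0, 0), (40, 0, 0, 0, 0), (40, 0, 0, 0, 0), (41, 0, 0, 0, 0), (41, 0, 0, 0, 0), (43, 0, 0, 0, 0), (43, 0, 0, 0, 0), (42, 0, 0, 0, 0), (42, 0, 0, 0, 0), (43, 0, 0, 0, 0), (43, 0, 0, 0, 0), (6, 0, 0, 0, 0), (6, 0, 0, 0, 0), (7, 0, 0, 0, 0), (6, 0, 0, 0, 0), (6, 0, 0, 0, 0), (30, 0, 0, 0, 0), (30, 0, 0, 0, 0), (8, 0, 0, 0, 0), (8, 0, 0, 0, 0), (7, 0, 0, 0, 0), (30, 0, 0, 0, 0), (30, 0, 0, 0, 0), (9, 0, 0, 0, 0), (8, 0, 0, 0, 0), (8,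 0, 0, 0, 0), (9, 0, 0, 0, 0), (10, 0, 0, 0, 0), (10, 0, 0, 0, 0), (14, 0, 0, 0, 0), (10, 0, 0, 0, 0), (10, 0, 0, 0, 0), (20, 0, 0, 0, 0), (20, 0, 0, 0, 0), (37, 0, 0, 0, 0), (37, 0, 0, 0, 0), (20, 0, 0, 0, 0), (20, 0, 0, 0, 0), (21, 0, 0, 0, 0), (14, 0, 0, 0, 0), (37, 0, 0, 0, 0), (37, 0, 0, 0, 0), (21, 0, 0, 0, 0), (0, 0, 0, 0, 0), (0, 0, 0, 0, 0), (17, 0, 0, 0, 0), (17, 0, 0, 0, 0), (0, 0, 0, 0, 0), (0, 0, 0, 0, 0), (24, 0, 0, 0, 0), (24, 0, 0, 0, 0), (24, 0, 0, 0, 0), (24, 0, 0, 0, 0), (27, 0, 0, 0, 0), (27, 0, 0, 0, 0), (17, 0, 0, 0, 0), (17, 0, 0, 0, 0), (27, 0, 0, 0, 0), (27, 0, 0, 0, 0), (1, 0, 0, 0, 0), (31, 0, 0, 0, 0), (31, 0, 0, 0, 0), (18, 0, 0, 0, 0), (1, 0, 0, 0, 0), (22, 0, 0, 0, 0), (22, 0, 0, 0, 0), (31, 0, 0, 0, 0), (31, 0, 0, 0, 0), (22, 0, 0, 0,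 0), (22, 0, 0, 0, 0), (28, 0, 0, 0, 0), (28, 0, 0, 0, 0), (18, 0, 0, 0, 0), (28, 0, 0, 0, 0), (28, 0, 0, 0, 0), (2, 0, 0, 0, 0), (12, 0, 0, 0, 0), (12, 0, 0, 0, 0), (2, 0, 0, 0, 0), (38, 0, 0, 0, 0), (38, 0, 0, 0, 0), (25, 0, 0, 0, 0), (12, 0, 0, 0, 0), (12, 0, 0, 0, 0), (38, 0, 0, 0, 0), (38, 0, 0, 0, 0), (29, 0, 0, 0, 0), (29, 0, 0, 0, 0), (25, 0, 0, 0, 0), (29, 0, 0, 0, 0), (29, 0, 0, 0, 0), (10, 0, 0, 0, 0), (10, 0, 0, 0, 0), (11, 0, 0, 0, 0), (10, 0, 0, 0, 0), (10, 0, 0, 0, 0), (31, 0, 0, 0, 0), (31, 0, 0, 0, 0), (12, 0, 0, 0, 0), (12, 0, 0, 0, 0), (11, 0, 0, 0, 0), (31, 0, 0, 0, 0), (31, 0, 0, 0, 0), (13, 0, 0, 0, 0), (12, 0, 0, 0, 0), (12, 0, 0, 0, 0), (13, 0, 0, 0, 0), (6, 0, 0, 0, 0), (6, 0, 0, 0, 0), (15, 0, 0, 0, 0), (6, 0, 0, 0, 0), (6, 0, 0, 0, 0), (22,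 0, 0, 0, 0), (22, 0, 0, 0, 0), (38, 0, 0, 0, 0), (38, 0, 0, 0, 0), (22, 0, 0, 0, 0), (22, 0, 0, 0, 0), (23, 0, 0, 0, 0), (15, 0, 0, 0, 0), (38, 0, 0, 0, 0), (38, 0, 0, 0, 0), (23, 0, 0, 0, 0), (0, 0, 0, 0, 0), (0, 0, 0, 0, 0), (17, 0, 0, 0, 0), (17, 0, 0, 0, 0), (0, 0, 0, 0, 0), (0, 0, 0, 0, 0), (24, 0, 0, 0, 0), (24, 0, 0, 0, 0), (24, 0, 0, 0, 0), (24, 0, 0, 0, 0), (27, 0, 0, 0, 0), (27, 0, 0, 0, 0), (17, 0, 0, 0, 0), (17, 0, 0, 0, 0), (27, 0, 0, 0, 0), (27, 0, 0, 0, 0), (3, 0, 0, 0, 0), (30, 0, 0, 0, 0), (30, 0, 0, 0, 0), (19, 0, 0, 0, 0), (3, 0, 0, 0, 0), (20, 0, 0, 0, 0), (20, 0, 0, 0, 0), (30, 0, 0, 0, 0), (30, 0, 0, 0, 0), (20, 0, 0, 0, 0), (20, 0, 0, 0, 0), (29, 0, 0, 0, 0), (29, 0, 0, 0, 0), (19, 0, 0, 0, 0), (29, 0, 0, 0, 0), (29, 0, 0, 0, 0), (4, 0, 0, 0,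 0), (8, 0, 0, 0, 0), (8, 0, 0, 0, 0), (4, 0, 0, 0, 0), (37, 0, 0, 0, 0), (37, 0, 0, 0, 0), (26, 0, 0, 0, 0), (8, 0, 0, 0, 0), (8, 0, 0, 0, 0), (37, 0, 0, 0, 0), (37, 0, 0, 0, 0), (28, 0, 0, 0, 0), (28, 0, 0, 0, 0), (26, 0, 0, 0, 0), (28, 0, 0, 0, 0), (28, 0, 0, 0, 0), (32, 0, 0, 0, 0), (32, 0, 0, 0, 0), (33, 0, 0, 0, 0), (33, 0, 0, 0, 0), (32, 0, 0, 0, 0), (32, 0, 0, 0, 0), (34, 0, 0, 0, 0), (34, 0, 0, 0, 0), (35, 0, 0, 0, 0), (35, 0, 0, 0, 0), (33, 0, 0, 0, 0), (33, 0, 0, 0, 0), (34, 0, 0, 0, 0), (34, 0, 0, 0, 0), (36, 0, 0, 0, 0), (36, 0, 0, 0, 0), (35, 0, 0, 0, 0), (35, 0, 0, 0, 0), (36, 0, 0, 0, 0), (36, 0, 0, 0, 0), (7, 0, 0, 0, 0), (7, 0, 0, 0, 0), (11, 0, 0, 0, 0), (11, 0, 0, 0, 0), (16, 0, 0, 0, 0), (16, 0, 0, 0, 0), (7, 0, 0, 0, 0), (7, 0, 0, 0, 0), (24, 0,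 0, 0, 0), (24, 0, 0, 0, 0), (25, 0, 0, 0, 0), (25, 0, 0, 0, 0), (11, 0, 0, 0, 0), (11, 0, 0, 0, 0), (24, 0, 0, 0, 0), (24, 0, 0, 0, 0), (26, 0, 0, 0, 0), (26, 0, 0, 0, 0), (16, 0, 0, 0, 0), (16, 0, 0, 0, 0), (25, 0, 0, 0, 0), (25, 0, 0, 0, 0), (26, 0, 0, 0, 0), (26, 0, 0, 0, 0), (1, 0, 0, 0, 0), (31, 0, 0, 0, 0), (31, 0, 0, 0, 0), (18, 0, 0, 0, 0), (1, 0, 0, 0, 0), (22, 0, 0, 0, 0), (22, 0, 0, 0, 0), (31, 0, 0, 0, 0), (31, 0, 0, 0, 0), (22, 0, 0, 0, 0), (22, 0, 0, 0, 0), (28, 0, 0, 0, 0), (28, 0, 0, 0, 0), (18, 0, 0, 0, 0), (28, 0, 0, 0, 0), (28, 0, 0, 0, 0), (3, 0, 0, 0, 0), (30, 0, 0, 0, 0), (30, 0, 0, 0, 0), (19, 0, 0, 0, 0), (3, 0, 0, 0, 0), (20, 0, 0, 0, 0), (20, 0, 0, 0, 0), (30, 0, 0, 0, 0), (30, 0, 0, 0, 0), (20, 0, 0, 0, 0), (20, 0, 0, 0, 0), (29, 0, 0, 0,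 0), (29, 0, 0, 0, 0), (19, 0, 0, 0, 0), (29, 0, 0, 0, 0), (29, 0, 0, 0, 0), (5, 0, 0, 0, 0), (5, 0, 0, 0, 0), (9, 0, 0, 0, 0), (9, 0, 0, 0, 0), (13, 0, 0, 0, 0), (13, 0, 0, 0, 0), (5, 0, 0, 0, 0), (5, 0, 0, 0, 0), (21, 0, 0, 0, 0), (21, 0, 0, 0, 0), (23, 0, 0, 0, 0), (23, 0, 0, 0, 0), (9, 0, 0, 0, 0), (9, 0, 0, 0, 0), (21, 0, 0, 0, 0), (21, 0, 0, 0, 0), (27, 0, 0, 0, 0), (27, 0, 0, 0, 0), (13, 0, 0, 0, 0), (13, 0, 0, 0, 0), (23, 0, 0, 0, 0), (23, 0, 0, 0, 0), (27, 0, 0, 0, 0), (27, 0, 0, 0, 0), (14, 0, 0, 0, 0), (14, 0, 0, 0, 0), (15, 0, 0, 0, 0), (15, 0, 0, 0, 0), (16, 0, 0, 0, 0), (16, 0, 0, 0, 0), (14, 0, 0, 0, 0), (14, 0, 0, 0, 0), (17, 0, 0, 0, 0), (17, 0, 0, 0, 0), (18, 0, 0, 0, 0), (18, 0, 0, 0, 0), (15, 0, 0, 0, 0), (15, 0, 0, 0, 0), (17, 0, 0, 0, 0), (17,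 0, 0, 0, 0), (19, 0, 0, 0, 0), (19, 0, 0, 0, 0), (16, 0, 0, 0, 0), (16, 0, 0, 0, 0), (18, 0, 0, 0, 0), (18, 0, 0, 0, 0), (19, 0, 0, 0, 0), (19, 0, 0, 0, 0), (39, 0, 0, 0, 0), (39, 0, 0, 0, 0), (40, 0, 0, 0, 0), (40, 0, 0, 0, 0), (39, 0, 0, 0, 0), (39, 0, 0, 0, 0), (41, 0, 0, 0, 0), (41, 0, 0, 0, 0), (42, 0, 0, 0, 0), (42, 0, 0, 0, 0), (40, 0, 0, 0, 0), (40, 0, 0, 0, 0), (41, 0, 0, 0, 0), (41, 0, 0, 0, 0), (43, 0, 0, 0, 0), (43, 0, 0, 0, 0), (42, 0, 0, 0, 0), (42, 0, 0, 0, 0), (43, 0, 0, 0, 0), (43, 0, 0, 0, 0), (2, 0, 0, 0, 0), (12, 0, 0, 0, 0), (12, 0, 0, 0, 0), (2, 0, 0, 0, 0), (38, 0, 0, 0, 0), (38, 0, 0, 0, 0), (25, 0, 0, 0, 0), (12, 0, 0, 0, 0), (12, 0, 0, 0, 0), (38, 0, 0, 0, 0), (38, 0, 0, 0, 0), (29, 0, 0, 0, 0), (29, 0, 0, 0, 0), (25, 0, 0, 0, 0), (29, 0,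 0, 0, 0), (29, 0, 0, 0, 0), (4, 0, 0, 0, 0), (8, 0, 0, 0, 0), (8, 0, 0, 0, 0), (4, 0, 0, 0, 0), (37, 0, 0, 0, 0), (37, 0, 0, 0, 0), (26, 0, 0, 0, 0), (8, 0, 0, 0, 0), (8, 0, 0, 0, 0), (37, 0, 0, 0, 0), (37, 0, 0, 0, 0), (28, 0, 0, 0, 0), (28, 0, 0, 0, 0), (26, 0, 0, 0, 0), (28, 0, 0, 0, 0), (28, 0, 0, 0, 0), (5, 0, 0, 0, 0), (5, 0, 0, 0, 0), (9, 0, 0, 0, 0), (9, 0, 0, 0, 0), (13, 0, 0, 0, 0), (13, 0, 0, 0, 0), (5, 0, 0, 0, 0), (5, 0, 0, 0, 0), (21, 0, 0, 0, 0), (21, 0, 0, 0, 0), (23, 0, 0, 0, 0), (23, 0, 0, 0, 0), (9, 0, 0, 0, 0), (9, 0, 0, 0, 0), (21, 0, 0, 0, 0), (21, 0, 0, 0, 0), (27, 0, 0, 0, 0), (27, 0, 0, 0, 0), (13, 0, 0, 0, 0), (13, 0, 0, 0, 0), (23, 0, 0, 0, 0), (23, 0, 0, 0, 0), (27, 0, 0, 0, 0), (27, 0, 0, 0, 0)]]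

def m35_1 : Base := (1, 0, [(0, [0], [0, 1]), (0, [0], [2, 4]), (1, [], [3, 5])])

def l35_1 : Cov := [(576, 1, 0, [(0, [0], [0, 1]), (0, [0], [2, 4]), (1, [], [3, 5])]),
  (576, 1, 0, [(0, [0], [0, 1]), (0, [0], [2, 5]), (1, [], [3, 4])]),
  (384, 1, 0, [(0, [0], [0, 1]), (0, [0], [2, 3]), (1, [], [4, 5])]),
  (576, 1, 0, [(0, [0], [0, 1]), (0, [0], [3, 4]), (1, [], [2, 5])]),
  (576, 1, 0, [(0, [0], [0, 1]), (0, [0], [3, 5]), (1, [], [2, 4])]),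
  (1152, 1, 0, [(0, [0], [0, 1]), (0, [0], [4, 5]), (1, [], [2, 3])]),
  (-576, 1, 0, [(0, [0], [0, 2]), (0, [0], [1, 4]), (1, [], [3, 5])]),
  (-192, 1, 0, [(0, [0], [0, 2]), (0, [0], [1, 3]), (1, [], [4, 5])]),
  (192, 1, 0, [(0, [0], [0, 2]), (0, [0], [3, 5]), (1, [], [1, 4])]),
  (576, 1, 0, [(0, [0], [0, 2]), (0, [0], [4, 5]), (1, [], [3, 1])]),
  (-576, 1, 0, [(0, [0], [0, 3]), (0, [0], [1, 4]), (1, [], [2, 5])]),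
  (-192, 1, 0, [(0, [0], [0, 3]), (0, [0], [1, 2]), (1, [], [4, 5])]),
  (192, 1, 0, [(0, [0], [0, 3]), (0, [0], [2, 5]), (1, [], [1, 4])]),
  (576, 1, 0, [(0, [0], [0, 3]), (0, [0], [4, 5]), (1, [], [2, 1])]),
  (-576, 1, 0, [(0, [0], [0, 5]), (0, [0], [1, 3]), (1, [], [2, 4])]),
  (-1152, 1, 0, [(0, [0], [0, 5]), (0, [0], [1, 4]), (1, [], [2, 3])]),
  (-576, 1, 0, [(0, [0], [0, 5]), (0, [0], [1, 2]), (1, [], [3, 4])]),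
  (-384, 1, 0, [(0, [0], [0, 5]), (0, [0], [2, 3]), (1, [], [1, 4])]),
  (-576, 1, 0, [(0, [0], [0, 5]), (0, [0], [2, 4]), (1, [], [1, 3])]),
  (-576, 1, 0, [(0, [0], [0, 5]), (0, [0], [3, 4]), (1, [], [1, 2])]),
  (192, 1, 0, [(0, [0], [1, 2]), (0, [0], [3, 4]), (1, [], [0, 5])]),
  (576, 1, 0, [(0, [0], [1, 2]), (0, [0], [4, 5]), (1, [], [3, 0])]),
  (192, 1, 0, [(0, [0], [1, 3]), (0, [0], [2, 4]), (1, [], [0, 5])]),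
  (576, 1, 0, [(0, [0], [1, 3]), (0, [0], [4, 5]), (1, [], [2, 0])]),
  (-384, 1, 0, [(0, [0], [1, 4]), (0, [0], [2, 3]), (1, [], [0, 5])]),
  (-576, 1, 0, [(0, [0], [1, 4]), (0, [0], [2, 5]), (1, [], [0, 3])]),
  (-576, 1, 0, [(0, [0], [1, 4]), (0, [0], [3, 5]), (1, [], [0, 2])]),
  (384, 1, 0, [(0, [0], [2, 3]), (0, [0], [4, 5]), (1, [], [1, 0])]),
  (-192, 1, 0, [(0, [0], [2, 4]), (0, [0], [3, 5]), (1, [], [0, 1])]),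
  (-192, 1, 0, [(0, [0], [2, 5]), (0, [0], [3, 4]), (1, [], [0, 1])])]

def z35_1 : Cov := [(0, 1, 0, [(0, [0], [0, 2]), (0, [0], [1, 5]), (1, [], [3, 4])]),
  (0, 1, 0, [(0, [0], [0, 2]), (0, [0], [3, 4]), (1, [], [1, 5])]),
  (0, 1, 0, [(0, [0], [0, 3]), (0, [0], [1, 5]), (1, [], [2, 4])]),
  (0, 1, 0, [(0, [0], [0, 3]), (0, [0], [2, 4]), (1, [], [1, 5])]),
  (0, 1, 0, [(0, [0], [0, 4]), (0, [0], [1, 3]), (1, [], [2, 5])]),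
  (0, 1, 0, [(0, [0], [0, 4]), (0, [0], [1, 5]), (1, [], [2, 3])]),
  (0, 1, 0, [(0, [0], [0, 4]), (0, [0], [1, 2]), (1, [], [3, 5])]),
  (0, 1, 0, [(0, [0], [0, 4]), (0, [0], [2, 3]), (1, [], [1, 5])]),
  (0, 1, 0, [(0, [0], [0, 4]), (0, [0], [2, 5]), (1, [], [1, 3])]),
  (0, 1, 0, [(0, [0], [0, 4]), (0, [0], [3, 5]), (1, [], [1, 2])]),
  (0, 1, 0, [(0, [0], [1, 2]), (0, [0], [3, 5]), (1, [], [0, 4])]),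
  (0, 1, 0, [(0, [0], [1, 3]), (0, [0], [2, 5]), (1, [], [0, 4])]),
  (0, 1, 0, [(0, [0], [1, 5]), (0, [0], [2, 3]), (1, [], [0, 4])]),
  (0, 1, 0, [(0, [0], [1, 5]), (0, [0], [2, 4]), (1, [], [0, 3])]),
  (0, 1, 0, [(0, [0], [1, 5]), (0, [0], [3, 4]), (1, [], [0, 2])])]

def w35_1 : List (List Wit) := [[(0, 0, 0, 0, 0), (1, 0, 0, 0, 0), (2, 0, 0, 0, 0), (1, 0, 0, 0, 0), (2, 0, 0, 0, 0), (0, 0, 0, 0, 0), (3, 0, 0, 0, 0), (4, 0, 0, 0, 0), (2, 0, 0, 0, 0), (4, 0, 0, 0, 0), (2, 0, 0, 0, 0), (3, 0, 0, 0, 0), (3, 0, 0, 0, 0), (5, 0, 0, 0, 0), (0, 0, 0, 0, 0), (5, 0, 0, 0, 0), (0, 0, 0, 0, 0), (3, 0, 0, 0, 0), (4, 0, 0, 0, 0), (5, 0, 0, 0, 0), (1, 0, 0, 0, 0), (5, 0, 0, 0, 0), (1, 0, 0, 0, 0), (4, 0, 0, 0, 0), (6, 0, 0, 0, 0), (30, 0, 0, 0, 0), (7, 0, 0, 0, 0), (31, 0, 0,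 0, 0), (8, 0, 0, 0, 0), (7, 0, 0, 0, 0), (8, 0, 0, 0, 0), (7, 0, 0, 0, 0), (31, 0, 0, 0, 0), (31, 0, 0, 0, 0), (6, 0, 0, 0, 0), (9, 0, 0, 0, 0), (31, 0, 0, 0, 0), (30, 0, 0, 0, 0), (9, 0, 0, 0, 0), (8, 0, 0, 0, 0), (10, 0, 0, 0, 0), (32, 0, 0, 0, 0), (11, 0, 0, 0, 0), (33, 0, 0, 0, 0), (12, 0, 0, 0, 0), (11, 0, 0, 0, 0), (12, 0, 0, 0, 0), (11, 0, 0, 0, 0), (33, 0, 0, 0, 0), (33, 0, 0, 0, 0), (10, 0, 0, 0, 0), (13, 0, 0, 0, 0), (33, 0, 0, 0, 0), (32, 0, 0, 0, 0), (13, 0, 0, 0, 0), (12, 0, 0, 0, 0), (34, 0, 0, 0, 0), (35, 0, 0, 0, 0), (36, 0, 0, 0, 0), (35, 0, 0, 0, 0), (37, 0, 0, 0, 0), (38, 0, 0, 0, 0), (36, 0, 0, 0, 0), (38, 0, 0, 0, 0), (36, 0, 0, 0, 0), (37, 0, 0, 0, 0), (37, 0, 0, 0, 0), (39, 0, 0, 0, 0), (34, 0, 0, 0, 0), (39, 0, 0, 0, 0), (34, 0, 0, 0, 0), (37,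 0, 0, 0, 0), (35, 0, 0, 0, 0), (39, 0, 0, 0, 0), (35, 0, 0, 0, 0), (38, 0, 0, 0, 0), (14, 0, 0, 0, 0), (15, 0, 0, 0, 0), (16, 0, 0, 0, 0), (15, 0, 0, 0, 0), (16, 0, 0, 0, 0), (14, 0, 0, 0, 0), (17, 0, 0, 0, 0), (18, 0, 0, 0, 0), (16, 0, 0, 0, 0), (18, 0, 0, 0, 0), (16, 0, 0, 0, 0), (17, 0, 0, 0, 0), (17, 0, 0, 0, 0), (19, 0, 0, 0, 0), (14, 0, 0, 0, 0), (19, 0, 0, 0, 0), (14, 0, 0, 0, 0), (17, 0, 0, 0, 0), (18, 0, 0, 0, 0), (19, 0, 0, 0, 0), (15, 0, 0, 0, 0), (19, 0, 0, 0, 0), (15, 0, 0, 0, 0), (18, 0, 0, 0, 0), (0, 0, 0, 0, 0), (1, 0, 0, 0, 0), (2, 0, 0, 0, 0), (1, 0, 0, 0, 0), (2, 0, 0, 0, 0), (0, 0, 0, 0, 0), (3, 0, 0, 0, 0), (4, 0, 0, 0, 0), (2, 0, 0, 0, 0), (4, 0, 0, 0, 0), (2, 0, 0, 0, 0), (3, 0, 0, 0, 0), (3, 0, 0, 0, 0), (5, 0, 0, 0, 0), (0, 0, 0, 0, 0), (5,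 0, 0, 0, 0), (0, 0, 0, 0, 0), (3, 0, 0, 0, 0), (4, 0, 0, 0, 0), (5, 0, 0, 0, 0), (1, 0, 0, 0, 0), (5, 0, 0, 0, 0), (1, 0, 0, 0, 0), (4, 0, 0, 0, 0), (36, 0, 0, 0, 0), (16, 0, 0, 0, 0), (11, 0, 0, 0, 0), (20, 0, 0, 0, 0), (40, 0, 0, 0, 0), (11, 0, 0, 0, 0), (40, 0, 0, 0, 0), (11, 0, 0, 0, 0), (20, 0, 0, 0, 0), (36, 0, 0, 0, 0), (21, 0, 0, 0, 0), (20, 0, 0, 0, 0), (40, 0, 0, 0, 0), (16, 0, 0, 0, 0), (21, 0, 0, 0, 0), (40, 0, 0, 0, 0), (34, 0, 0, 0, 0), (14, 0, 0, 0, 0), (7, 0, 0, 0, 0), (22, 0, 0, 0, 0), (41, 0, 0, 0, 0), (7, 0, 0, 0, 0), (41, 0, 0, 0, 0), (7, 0, 0, 0, 0), (22, 0, 0, 0, 0), (34, 0, 0, 0, 0), (23, 0, 0, 0, 0), (22, 0, 0, 0, 0), (41, 0, 0, 0, 0), (14, 0, 0, 0, 0), (23, 0, 0, 0, 0), (41, 0, 0, 0, 0), (10, 0, 0, 0, 0), (15, 0, 0, 0, 0), (6, 0, 0, 0, 0),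 (15, 0, 0, 0, 0), (6, 0, 0, 0, 0), (10, 0, 0, 0, 0), (24, 0, 0, 0, 0), (25, 0, 0, 0, 0), (6, 0, 0, 0, 0), (25, 0, 0, 0, 0), (6, 0, 0, 0, 0), (24, 0, 0, 0, 0), (24, 0, 0, 0, 0), (26, 0, 0, 0, 0), (10, 0, 0, 0, 0), (26, 0, 0, 0, 0), (10, 0, 0, 0, 0), (24, 0, 0, 0, 0), (25, 0, 0, 0, 0), (26, 0, 0, 0, 0), (15, 0, 0, 0, 0), (26, 0, 0, 0, 0), (15, 0, 0, 0, 0), (25, 0, 0, 0, 0), (32, 0, 0, 0, 0), (35, 0, 0, 0, 0), (30, 0, 0, 0, 0), (35, 0, 0, 0, 0), (42, 0, 0, 0, 0), (43, 0, 0, 0, 0), (30, 0, 0, 0, 0), (43, 0, 0, 0, 0), (30, 0, 0, 0, 0), (42, 0, 0, 0, 0), (42, 0, 0, 0, 0), (44, 0, 0, 0, 0), (32, 0, 0, 0, 0), (44, 0, 0, 0, 0), (32, 0, 0, 0, 0), (42, 0, 0, 0, 0), (35, 0, 0, 0, 0), (44, 0, 0, 0, 0), (35, 0, 0, 0, 0), (43, 0, 0, 0, 0), (6, 0, 0, 0, 0), (30, 0, 0, 0, 0), (30,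 0, 0, 0, 0), (31, 0, 0, 0, 0), (8, 0, 0, 0, 0), (7, 0, 0, 0, 0), (8, 0, 0, 0, 0), (7, 0, 0, 0, 0), (31, 0, 0, 0, 0), (9, 0, 0, 0, 0), (6, 0, 0, 0, 0), (9, 0, 0, 0, 0), (6, 0, 0, 0, 0), (30, 0, 0, 0, 0), (9, 0, 0, 0, 0), (30, 0, 0, 0, 0), (36, 0, 0, 0, 0), (16, 0, 0, 0, 0), (36, 0, 0, 0, 0), (20, 0, 0, 0, 0), (40, 0, 0, 0, 0), (11, 0, 0, 0, 0), (40, 0, 0, 0, 0), (11, 0, 0, 0, 0), (20, 0, 0, 0, 0), (36, 0, 0, 0, 0), (21, 0, 0, 0, 0), (36, 0, 0, 0, 0), (21, 0, 0, 0, 0), (16, 0, 0, 0, 0), (21, 0, 0, 0, 0), (16, 0, 0, 0, 0), (37, 0, 0, 0, 0), (17, 0, 0, 0, 0), (2, 0, 0, 0, 0), (37, 0, 0, 0, 0), (24, 0, 0, 0, 0), (42, 0, 0, 0, 0), (2, 0, 0, 0, 0), (42, 0, 0, 0, 0), (37, 0, 0, 0, 0), (27, 0, 0, 0, 0), (37, 0, 0, 0, 0), (24, 0, 0, 0, 0), (42, 0, 0, 0, 0), (27, 0, 0, 0, 0),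 (17, 0, 0, 0, 0), (42, 0, 0, 0, 0), (18, 0, 0, 0, 0), (0, 0, 0, 0, 0), (18, 0, 0, 0, 0), (0, 0, 0, 0, 0), (43, 0, 0, 0, 0), (0, 0, 0, 0, 0), (43, 0, 0, 0, 0), (22, 0, 0, 0, 0), (28, 0, 0, 0, 0), (33, 0, 0, 0, 0), (28, 0, 0, 0, 0), (33, 0, 0, 0, 0), (22, 0, 0, 0, 0), (43, 0, 0, 0, 0), (18, 0, 0, 0, 0), (43, 0, 0, 0, 0), (38, 0, 0, 0, 0), (1, 0, 0, 0, 0), (38, 0, 0, 0, 0), (25, 0, 0, 0, 0), (1, 0, 0, 0, 0), (25, 0, 0, 0, 0), (1, 0, 0, 0, 0), (41, 0, 0, 0, 0), (29, 0, 0, 0, 0), (12, 0, 0, 0, 0), (29, 0, 0, 0, 0), (12, 0, 0, 0, 0), (41, 0, 0, 0, 0), (38, 0, 0, 0, 0), (38, 0, 0, 0, 0), (25, 0, 0, 0, 0), (10, 0, 0, 0, 0), (32, 0, 0, 0, 0), (32, 0, 0, 0, 0), (33, 0, 0, 0, 0), (12, 0, 0, 0, 0), (11, 0, 0, 0, 0), (12, 0, 0, 0, 0), (11, 0, 0, 0, 0), (33, 0, 0, 0, 0), (13, 0,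 0, 0, 0), (10, 0, 0, 0, 0), (13, 0, 0, 0, 0), (10, 0, 0, 0, 0), (32, 0, 0, 0, 0), (13, 0, 0, 0, 0), (32, 0, 0, 0, 0), (34, 0, 0, 0, 0), (14, 0, 0, 0, 0), (34, 0, 0, 0, 0), (22, 0, 0, 0, 0), (41, 0, 0, 0, 0), (7, 0, 0, 0, 0), (41, 0, 0, 0, 0), (7, 0, 0, 0, 0), (22, 0, 0, 0, 0), (34, 0, 0, 0, 0), (23, 0, 0, 0, 0), (34, 0, 0, 0, 0), (23, 0, 0, 0, 0), (14, 0, 0, 0, 0), (23, 0, 0, 0, 0), (14, 0, 0, 0, 0), (37, 0, 0, 0, 0), (17, 0, 0, 0, 0), (2, 0, 0, 0, 0), (37, 0, 0, 0, 0), (24, 0, 0, 0, 0), (42, 0, 0, 0, 0), (2, 0, 0, 0, 0), (42, 0, 0, 0, 0), (37, 0, 0, 0, 0), (27, 0, 0, 0, 0), (37, 0, 0, 0, 0), (24, 0, 0, 0, 0), (42, 0, 0, 0, 0), (27, 0, 0, 0, 0), (17, 0, 0, 0, 0), (42, 0, 0, 0, 0), (19, 0, 0, 0, 0), (3, 0, 0, 0, 0), (19, 0, 0, 0, 0), (3, 0, 0, 0, 0), (44, 0, 0, 0, 0),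 (3, 0, 0, 0, 0), (44, 0, 0, 0, 0), (20, 0, 0, 0, 0), (29, 0, 0, 0, 0), (31, 0, 0, 0, 0), (29, 0, 0, 0, 0), (31, 0, 0, 0, 0), (20, 0, 0, 0, 0), (44, 0, 0, 0, 0), (19, 0, 0, 0, 0), (44, 0, 0, 0, 0), (39, 0, 0, 0, 0), (4, 0, 0, 0, 0), (39, 0, 0, 0, 0), (26, 0, 0, 0, 0), (4, 0, 0, 0, 0), (26, 0, 0, 0, 0), (4, 0, 0, 0, 0), (40, 0, 0, 0, 0), (28, 0, 0, 0, 0), (8, 0, 0, 0, 0), (28, 0, 0, 0, 0), (8, 0, 0, 0, 0), (40, 0, 0, 0, 0), (39, 0, 0, 0, 0), (39, 0, 0, 0, 0), (26, 0, 0, 0, 0), (34, 0, 0, 0, 0), (35, 0, 0, 0, 0), (36, 0, 0, 0, 0), (35, 0, 0, 0, 0), (37, 0, 0, 0, 0), (38, 0, 0, 0, 0), (36, 0, 0, 0, 0), (38, 0, 0, 0, 0), (36, 0, 0, 0, 0), (37, 0, 0, 0, 0), (37, 0, 0, 0, 0), (39, 0, 0, 0, 0), (34, 0, 0, 0, 0), (39, 0, 0, 0, 0), (34, 0, 0, 0, 0), (37, 0, 0, 0, 0), (35, 0,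 0, 0, 0), (39, 0, 0, 0, 0), (35, 0, 0, 0, 0), (38, 0, 0, 0, 0), (10, 0, 0, 0, 0), (15, 0, 0, 0, 0), (6, 0, 0, 0, 0), (15, 0, 0, 0, 0), (6, 0, 0, 0, 0), (10, 0, 0, 0, 0), (24, 0, 0, 0, 0), (25, 0, 0, 0, 0), (6, 0, 0, 0, 0), (25, 0, 0, 0, 0), (6, 0, 0, 0, 0), (24, 0, 0, 0, 0), (24, 0, 0, 0, 0), (26, 0, 0, 0, 0), (10, 0, 0, 0, 0), (26, 0, 0, 0, 0), (10, 0, 0, 0, 0), (24, 0, 0, 0, 0), (25, 0, 0, 0, 0), (26, 0, 0, 0, 0), (15, 0, 0, 0, 0), (26, 0, 0, 0, 0), (15, 0, 0, 0, 0), (25, 0, 0, 0, 0), (33, 0, 0, 0, 0), (0, 0, 0, 0, 0), (18, 0, 0, 0, 0), (33, 0, 0, 0, 0), (22, 0, 0, 0, 0), (0, 0, 0, 0, 0), (43, 0, 0, 0, 0), (22, 0, 0, 0, 0), (28, 0, 0, 0, 0), (33, 0, 0, 0, 0), (28, 0, 0, 0, 0), (33, 0, 0, 0, 0), (22, 0, 0, 0, 0), (28, 0, 0, 0, 0), (18, 0, 0, 0, 0), (43, 0, 0, 0, 0),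 (31, 0, 0, 0, 0), (3, 0, 0, 0, 0), (19, 0, 0, 0, 0), (31, 0, 0, 0, 0), (20, 0, 0, 0, 0), (3, 0, 0, 0, 0), (44, 0, 0, 0, 0), (20, 0, 0, 0, 0), (29, 0, 0, 0, 0), (31, 0, 0, 0, 0), (29, 0, 0, 0, 0), (31, 0, 0, 0, 0), (20, 0, 0, 0, 0), (29, 0, 0, 0, 0), (19, 0, 0, 0, 0), (44, 0, 0, 0, 0), (9, 0, 0, 0, 0), (13, 0, 0, 0, 0), (5, 0, 0, 0, 0), (13, 0, 0, 0, 0), (5, 0, 0, 0, 0), (9, 0, 0, 0, 0), (21, 0, 0, 0, 0), (23, 0, 0, 0, 0), (5, 0, 0, 0, 0), (23, 0, 0, 0, 0), (5, 0, 0, 0, 0), (21, 0, 0, 0, 0), (21, 0, 0, 0, 0), (27, 0, 0, 0, 0), (9, 0, 0, 0, 0), (27, 0, 0, 0, 0), (9, 0, 0, 0, 0), (21, 0, 0, 0, 0), (23, 0, 0, 0, 0), (27, 0, 0, 0, 0), (13, 0, 0, 0, 0), (27, 0, 0, 0, 0), (13, 0, 0, 0, 0), (23, 0, 0, 0, 0), (14, 0, 0, 0, 0), (15, 0, 0, 0, 0), (16, 0, 0, 0, 0), (15, 0, 0,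 0, 0), (16, 0, 0, 0, 0), (14, 0, 0, 0, 0), (17, 0, 0, 0, 0), (18, 0, 0, 0, 0), (16, 0, 0, 0, 0), (18, 0, 0, 0, 0), (16, 0, 0, 0, 0), (17, 0, 0, 0, 0), (17, 0, 0, 0, 0), (19, 0, 0, 0, 0), (14, 0, 0, 0, 0), (19, 0, 0, 0, 0), (14, 0, 0, 0, 0), (17, 0, 0, 0, 0), (18, 0, 0, 0, 0), (19, 0, 0, 0, 0), (15, 0, 0, 0, 0), (19, 0, 0, 0, 0), (15, 0, 0, 0, 0), (18, 0, 0, 0, 0), (32, 0, 0, 0, 0), (35, 0, 0, 0, 0), (30, 0, 0, 0, 0), (35, 0, 0, 0, 0), (42, 0, 0, 0, 0), (43, 0, 0, 0, 0), (30, 0, 0, 0, 0), (43, 0, 0, 0, 0), (30, 0, 0, 0, 0), (42, 0, 0, 0, 0), (42, 0, 0, 0, 0), (44, 0, 0, 0, 0), (32, 0, 0, 0, 0), (44, 0, 0, 0, 0), (32, 0, 0, 0, 0), (42, 0, 0, 0, 0), (35, 0, 0, 0, 0), (44, 0, 0, 0, 0), (35, 0, 0, 0, 0), (43, 0, 0, 0, 0), (12, 0, 0, 0, 0), (1, 0, 0, 0, 0), (38, 0, 0, 0,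 0), (41, 0, 0, 0, 0), (1, 0, 0, 0, 0), (25, 0, 0, 0, 0), (41, 0, 0, 0, 0), (41, 0, 0, 0, 0), (29, 0, 0, 0, 0), (12, 0, 0, 0, 0), (29, 0, 0, 0, 0), (12, 0, 0, 0, 0), (41, 0, 0, 0, 0), (29, 0, 0, 0, 0), (38, 0, 0, 0, 0), (25, 0, 0, 0, 0), (8, 0, 0, 0, 0), (4, 0, 0, 0, 0), (39, 0, 0, 0, 0), (40, 0, 0, 0, 0), (4, 0, 0, 0, 0), (26, 0, 0, 0, 0), (40, 0, 0, 0, 0), (40, 0, 0, 0, 0), (28, 0, 0, 0, 0), (8, 0, 0, 0, 0), (28, 0, 0, 0, 0), (8, 0, 0, 0, 0), (40, 0, 0, 0, 0), (28, 0, 0, 0, 0), (39, 0, 0, 0, 0), (26, 0, 0, 0, 0), (9, 0, 0, 0, 0), (13, 0, 0, 0, 0), (5, 0, 0, 0, 0), (13, 0, 0, 0, 0), (5, 0, 0, 0, 0), (9, 0, 0, 0, 0), (21, 0, 0, 0, 0), (23, 0, 0, 0, 0), (5, 0, 0, 0, 0), (23, 0, 0, 0, 0), (5, 0, 0, 0, 0), (21, 0, 0, 0, 0), (21, 0, 0, 0, 0), (27, 0, 0, 0, 0), (9, 0, 0,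 0, 0), (27, 0, 0, 0, 0), (9, 0, 0, 0, 0), (21, 0, 0, 0, 0), (23, 0, 0, 0, 0), (27, 0, 0, 0, 0), (13, 0, 0, 0, 0), (27, 0, 0, 0, 0), (13, 0, 0, 0, 0), (23, 0, 0, 0, 0)]]

theorem tr35 : trK keys lk35 kl35 = true := by
  decide +kernel

theorem x35_0 : expB 0 6 dg1 dg10 m35_0 (l35_0 ++ z35_0) w35_0 = true := by
  decide +kernel

theorem x35_1 : expB 0 6 dg1 dg10 m35_1 (l35_1 ++ z35_1) w35_1 = true := by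
  decide +kernel

theorem t35_0_0 : chkS lk35 0 6 [(1, m35_0)] l35_0
  [(0, 16, 16, 5517840, 5517840), (4, 16, 16, 5517840, 5517840), (4, 16, 16, 4534800, 4534800), (4, 16, 16, 5514000, 5514000), (4, 16, 16, 4530960, 4530960), (3, 16, 16, 5517840, 5517840), (1, 16, 16, 5517840, 5517840), (6, 16, 16, 5513985, 5513985), (6, 16, 16, 4522275, 4522275), (5, 16, 16, 5513985, 5513985), (1, 16, 16, 5514000, 5514000), (6, 16, 16, 5517825, 5517825), (6, 16, 16, 4526115, 4522290), (5, 16, 16, 5517825, 5517825), (6, 16, 16, 4530960, 4530960), (6, 16, 16, 4534800, 4534800), (5, 1, 1, 152625, 3281925), (4, 16, 16, 4526130, 4526130), (2, 16, 16, 5456400, 5456400), (2, 16, 16, 5448720, 5391120), (6, 16, 16, 5505330, 5509155), (5, 16, 16, 5514000, 5514000), (6, 16, 16, 5509170, 5509170),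 (5, 16, 16, 5517840, 5517840), (4, 16, 16, 5509155, 5505330), (2, 16, 16, 3490305, 4411905), (2, 16, 16, 3482625, 4346625), (3, 16, 16, 5509170, 5509170), (5, 1, 1, 2109780, 1062180), (5, 1, 1, 143700, 1061925)]
  [(0, 1536), (1, 2304), (2, -1536), (3, 2304), (4, -1536), (5, 3072), (6, -6144)] = true := by
  decide +kernel

theorem t35_0_1 : chkS lk35 0 6 [(1, m35_0)] l35_1
  [(4, 16, 16, 5517840, 5517840), (4, 16, 16, 4534800, 4534800), (0, 16, 16, 5517840, 5517840), (4, 16, 16, 5514000, 5514000), (4, 16, 16, 4530960, 4530960), (3, 16, 16, 5517840, 5517840), (6, 16, 16, 5513985, 5513985), (1, 16, 16, 5517840, 5517840), (6, 16, 16, 4522275, 4522275), (5, 16, 16, 5513985, 5513985), (6, 16, 16, 5517825, 5517825), (1, 16, 16, 5514000, 5514000), (6, 16, 16, 4526115, 4522290),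 (5, 16, 16, 5517825, 5517825), (6, 16, 16, 4534800, 4534800), (5, 1, 1, 152625, 3281925), (6, 16, 16, 4530960, 4530960), (4, 16, 16, 4526130, 4526130), (2, 16, 16, 5456400, 5456400), (2, 16, 16, 5448720, 5391120), (6, 16, 16, 5505330, 5509155), (5, 16, 16, 5514000, 5514000), (6, 16, 16, 5509170, 5509170), (5, 16, 16, 5517840, 5517840), (4, 16, 16, 5509155, 5505330), (2, 16, 16, 3490305, 4411905), (2, 16, 16, 3482625, 4346625), (3, 16, 16, 5509170, 5509170), (5, 1, 1, 2109780, 1062180), (5, 1, 1, 143700, 1061925)]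
  [(0, 384), (1, -384), (2, -2304), (3, 1536), (4, 1536), (5, 768), (6, -1536)] = true := by
  decide +kernel

theorem t35_1_1 : chkS lk35 0 6 [(1, m35_1)] l35_1
  [(0, 16, 16, 5456400, 5456400), (4, 16, 16, 4411920, 3490320), (4, 16, 16, 5456400, 5456400), (4, 16, 16, 5391120, 5448720), (3, 16, 16, 5456400, 5456400), (4, 16, 16, 4346640, 3482640), (1, 16, 16, 5456400, 5456400), (6, 16, 16, 5391105, 5448705), (5, 16, 16, 5391105, 5448705), (6, 16, 16, 4215075, 3473700), (6, 16, 16, 5456400, 5456400), (6, 16, 16, 5391120, 5448720), (2, 16, 16, 3428880, 3428880), (2, 16, 16, 3298320, 3298320), (5, 1, 1, 336945, 4330245), (6, 16, 16, 4411920, 3490320), (6, 16, 16, 4346640, 3482640), (2, 16, 16, 5517840, 5517840), (4, 16, 16, 4280370, 3477570), (2, 16, 16, 5387280, 5387280),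 (6, 16, 16, 5259570, 5443620), (6, 16, 16, 4215090, 3477540), (4, 16, 16, 5324835, 5439810), (2, 16, 16, 3298305, 3298305), (6, 16, 16, 5324850, 5443650), (6, 16, 16, 4280370, 3477570), (5, 16, 16, 5456400, 5456400), (5, 1, 1, 2294100, 1066275), (3, 16, 16, 5324850, 5443650), (5, 1, 1, 205140, 1065765)]
  [(0, 576), (1, -576), (2, 384), (3, 384), (4, 2304), (5, -768), (6, -2304)] = true := by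
  decide +kernel

section

variable {κ ι : Type*} [Fintype κ] [Fintype ι] [Inhabited κ] [Inhabited ι]

noncomputable def F35_0 (E : Env κ ι) : (Fin 0 → κ) → (Fin 6 → ι) → ℝ := op2 (P1 κ) (P10 ι) (fB E 0 6 m35_0)

noncomputable def F35_1 (E : Env κ ι) : (Fin 0 → κ) → (Fin 6 → ι) → ℝ := op2 (P1 κ) (P10 ι) (fB E 0 6 m35_1)

def r35_0_0 : List (ℕ × ℤ) := [(0, 1536), (1, 2304), (2, -1536), (3, 2304), (4, -1536), (5, 3072), (6, -6144)]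

theorem h35_0_0 (E : Env κ ι) : ip (F35_0 E) (F35_0 E) = dotS (ek E lk35) r35_0_0 :=
  op_entryZ E lk35 0 6 _ _ _ _ (pg1 κ) (pg10 ι) m35_0 m35_0 l35_0 z35_0 w35_0 x35_0 (by decide) _ (chkS_sound E lk35 0 6 _ _ _ _ t35_0_0)

def r35_0_1 : List (ℕ × ℤ) := [(0, 384), (1, -384), (2, -2304), (3, 1536), (4, 1536), (5, 768), (6, -1536)]

theorem h35_0_1 (E : Env κ ι) : ip (F35_0 E) (F35_1 E) = dotS (ek E lk35) r35_0_1 :=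
  op_entryZ E lk35 0 6 _ _ _ _ (pg1 κ) (pg10 ι) m35_0 m35_1 l35_1 z35_1 w35_1 x35_1 (by decide) _ (chkS_sound E lk35 0 6 _ _ _ _ t35_0_1)

def r35_1_1 : List (ℕ × ℤ) := [(0, 576), (1, -576), (2, 384), (3, 384), (4, 2304), (5, -768), (6, -2304)]

theorem h35_1_1 (E : Env κ ι) : ip (F35_1 E) (F35_1 E) = dotS (ek E lk35) r35_1_1 :=
  op_entryZ E lk35 0 6 _ _ _ _ (pg1 κ) (pg10 ι) m35_1 m35_1 l35_1 z35_1 w35_1 x35_1 (by decide) _ (chkS_sound E lk35 0 6 _ _ _ _ t35_1_1)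

theorem row35_0 (E : Env κ ι) : RowG (ek E lk35) (F35_0 E) [F35_0 E, F35_1 E] [r35_0_0, r35_0_1] :=
  rowG_cons _ _ _ _ _ _ (h35_0_0 E) (rowG_cons _ _ _ _ _ _ (h35_0_1 E) (rowG_nil _ _))

theorem row35_1 (E : Env κ ι) : RowG (ek E lk35) (F35_1 E) [F35_1 E] [r35_1_1] :=
  rowG_cons _ _ _ _ _ _ (h35_1_1 E) (rowG_nil _ _)

def tab35 : List (List (List (ℕ × ℤ))) := [[r35_0_0, r35_0_1], [r35_1_1]]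

theorem tri35 (E : Env κ ι) : TriG (ek E lk35) [F35_0 E, F35_1 E] tab35 := by
  refine triG_cons _ _ _ _ _ (row35_0 E) ?_
  refine triG_cons _ _ _ _ _ (row35_1 E) ?_
  exact triG_nil _

end

def lk36 : List Key := [
  (2, 6, [(0, [0], [0, 1]), (0, [1], [2, 3]), (0, [0], [2, 3]), (0, [1], [0, 1]), (1, [], [4, 5]), (1, [], [4, 5])]),
  (2, 6, [(0, [0], [0, 1]), (0, [0], [2, 3]), (0, [1], [0, 2]), (0, [1], [1, 3]), (1, [], [4, 5]), (1, [], [4, 5])]),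
  (2, 6, [(0, [0], [0, 1]), (0, [1], [2, 3]), (0, [0], [2, 4]), (0, [1], [0, 5]), (1, [], [3, 5]), (1, [], [1, 4])]),
  (2, 6, [(0, [0], [0, 1]), (0, [0], [2, 3]), (0, [1], [0, 1]), (0, [1], [4, 5]), (1, [], [4, 5]), (1, [], [2, 3])]),
  (2, 6, [(0, [0], [0, 1]), (0, [0], [2, 3]), (0, [1], [0, 1]), (0, [1], [2, 4]), (1, [], [4, 5]), (1, [], [3, 5])]),
  (2, 6, [(0, [0], [0, 1]), (0, [0], [2, 3]), (0, [1], [1, 3]), (0, [1], [4, 5]), (1, [], [4, 5]), (1, [], [0, 2])]),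
  (2, 6, [(0, [0], [0, 1]), (0, [0], [2, 3]), (0, [1], [1, 3]), (0, [1], [0, 4]), (1, [], [4, 5]), (1, [], [2, 5])])]

def kl36 : List ℕ := [16, 20, 23, 46, 48, 50, 52]

def m36_0 : Base := (1, 0, [(0, [0], [0, 1]), (0, [0], [2, 3]), (1, [], [4, 5])])

def l36_0 : Cov := [(180, 1, 0, [(0, [0], [0, 1]), (0, [0], [2, 3]), (1, [], [4, 5])]),
  (-180, 1, 0, [(0, [0], [0, 1]), (0, [0], [2, 5]), (1, [], [3, 4])]),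
  (360, 1, 0, [(0, [0], [0, 1]), (0, [0], [3, 4]), (1, [], [2, 5])]),
  (-360, 1, 0, [(0, [0], [0, 1]), (0, [0], [4, 5]), (1, [], [2, 3])]),
  (-180, 1, 0, [(0, [0], [0, 2]), (0, [0], [1, 3]), (1, [], [4, 5])]),
  (180, 1, 0, [(0, [0], [0, 2]), (0, [0], [1, 5]), (1, [], [3, 4])]),
  (180, 1, 0, [(0, [0], [0, 2]), (0, [0], [3, 4]), (1, [], [1, 5])]),
  (-180, 1, 0, [(0, [0], [0, 2]), (0, [0], [4, 5]), (1, [], [1, 3])]),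
  (-360, 1, 0, [(0, [0], [0, 4]), (0, [0], [1, 3]), (1, [], [2, 5])]),
  (360, 1, 0, [(0, [0], [0, 4]), (0, [0], [1, 5]), (1, [], [2, 3])]),
  (-180, 1, 0, [(0, [0], [0, 4]), (0, [0], [2, 3]), (1, [], [1, 5])]),
  (180, 1, 0, [(0, [0], [0, 4]), (0, [0], [2, 5]), (1, [], [1, 3])]),
  (180, 1, 0, [(0, [0], [1, 3]), (0, [0], [2, 5]), (1, [], [0, 4])]),
  (360, 1, 0, [(0, [0], [1, 3]), (0, [0], [4, 5]), (1, [], [0, 2])]),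
  (-180, 1, 0, [(0, [0], [1, 5]), (0, [0], [2, 3]), (1, [], [0, 4])]),
  (-360, 1, 0, [(0, [0], [1, 5]), (0, [0], [3, 4]), (1, [], [2, 0])]),
  (180, 1, 0, [(0, [0], [2, 3]), (0, [0], [4, 5]), (1, [], [0, 1])]),
  (-180, 1, 0, [(0, [0], [2, 5]), (0, [0], [3, 4]), (1, [], [1, 0])])]

def z36_0 : Cov := [(0, 1, 0, [(0, [0], [0, 1]), (0, [0], [2, 4]), (1, [], [3, 5])]),
  (0, 1, 0, [(0, [0], [0, 1]), (0, [0], [3, 5]), (1, [], [2, 4])]),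
  (0, 1, 0, [(0, [0], [0, 2]), (0, [0], [1, 4]), (1, [], [3, 5])]),
  (0, 1, 0, [(0, [0], [0, 2]), (0, [0], [3, 5]), (1, [], [1, 4])]),
  (0, 1, 0, [(0, [0], [0, 3]), (0, [0], [1, 2]), (1, [], [4, 5])]),
  (0, 1, 0, [(0, [0], [0, 3]), (0, [0], [1, 4]), (1, [], [2, 5])]),
  (0, 1, 0, [(0, [0], [0, 3]), (0, [0], [1, 5]), (1, [], [2, 4])]),
  (0, 1, 0, [(0, [0], [0, 3]), (0, [0], [2, 4]), (1, [], [1, 5])]),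
  (0, 1, 0, [(0, [0], [0, 3]), (0, [0], [2, 5]), (1, [], [1, 4])]),
  (0, 1, 0, [(0, [0], [0, 3]), (0, [0], [4, 5]), (1, [], [1, 2])]),
  (0, 1, 0, [(0, [0], [0, 4]), (0, [0], [1, 2]), (1, [], [3, 5])]),
  (0, 1, 0, [(0, [0], [0, 4]), (0, [0], [3, 5]), (1, [], [1, 2])]),
  (0, 1, 0, [(0, [0], [0, 5]), (0, [0], [1, 2]), (1, [], [3, 4])]),
  (0, 1, 0, [(0, [0], [0, 5]), (0, [0], [1, 3]), (1, [], [2, 4])]),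
  (0, 1, 0, [(0, [0], [0, 5]), (0, [0], [1, 4]), (1, [], [2, 3])]),
  (0, 1, 0, [(0, [0], [0, 5]), (0, [0], [2, 3]), (1, [], [1, 4])]),
  (0, 1, 0, [(0, [0], [0, 5]), (0, [0], [2, 4]), (1, [], [1, 3])]),
  (0, 1, 0, [(0, [0], [0, 5]), (0, [0], [3, 4]), (1, [], [1, 2])]),
  (0, 1, 0, [(0, [0], [1, 2]), (0, [0], [3, 4]), (1, [], [0, 5])]),
  (0, 1, 0, [(0, [0], [1, 2]), (0, [0], [3, 5]), (1, [], [0, 4])]),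
  (0, 1, 0, [(0, [0], [1, 2]), (0, [0], [4, 5]), (1, [], [0, 3])]),
  (0, 1, 0, [(0, [0], [1, 3]), (0, [0], [2, 4]), (1, [], [0, 5])]),
  (0, 1, 0, [(0, [0], [1, 4]), (0, [0], [2, 3]), (1, [], [0, 5])]),
  (0, 1, 0, [(0, [0], [1, 4]), (0, [0], [2, 5]), (1, [], [0, 3])]),
  (0, 1, 0, [(0, [0], [1, 4]), (0, [0], [3, 5]), (1, [], [0, 2])]),
  (0, 1, 0, [(0, [0], [1, 5]), (0, [0], [2, 4]), (1, [], [0, 3])]),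
  (0, 1, 0, [(0, [0], [2, 4]), (0, [0], [3, 5]), (1, [], [0, 1])])]

def w36_0 : List (List Wit) := [[(0, 0, 0, 0, 0), (0, 0, 0, 0, 0), (18, 0, 0, 0, 0), (18, 0, 0, 0, 0), (1, 0, 0, 0, 0), (1, 0, 0, 0, 0), (0, 0, 0, 0, 0), (0, 0, 0, 0, 0), (2, 0, 0, 0, 0), (2, 0, 0, 0, 0), (19, 0, 0, 0, 0), (19, 0, 0, 0, 0), (18, 0, 0, 0, 0), (18, 0, 0, 0, 0), (2, 0, 0, 0, 0), (2, 0, 0, 0, 0), (3, 0, 0, 0, 0), (3, 0, 0, 0, 0), (1, 0, 0, 0, 0), (1, 0, 0, 0, 0), (19, 0, 0, 0, 0), (19, 0, 0, 0, 0), (3, 0, 0, 0, 0), (3, 0, 0, 0, 0), (4, 0, 0, 0, 0), (4, 0, 0, 0, 0), (20, 0, 0, 0, 0), (20, 0, 0, 0, 0), (5, 0, 0, 0, 0), (5, 0, 0, 0, 0), (4, 0, 0, 0, 0), (4, 0, 0, 0, 0), (6, 0, 0, 0, 0), (6, 0, 0, 0, 0), (21, 0, 0, 0, 0), (21, 0, 0, 0, 0), (20, 0, 0, 0, 0), (20, 0, 0, 0, 0), (6, 0, 0, 0,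 0), (6, 0, 0, 0, 0), (7, 0, 0, 0, 0), (7, 0, 0, 0, 0), (5, 0, 0, 0, 0), (5, 0, 0, 0, 0), (21, 0, 0, 0, 0), (21, 0, 0, 0, 0), (7, 0, 0, 0, 0), (7, 0, 0, 0, 0), (22, 0, 0, 0, 0), (22, 0, 0, 0, 0), (23, 0, 0, 0, 0), (23, 0, 0, 0, 0), (24, 0, 0, 0, 0), (24, 0, 0, 0, 0), (22, 0, 0, 0, 0), (22, 0, 0, 0, 0), (25, 0, 0, 0, 0), (25, 0, 0, 0, 0), (26, 0, 0, 0, 0), (26, 0, 0, 0, 0), (23, 0, 0, 0, 0), (23, 0, 0, 0, 0), (25, 0, 0, 0, 0), (25, 0, 0, 0, 0), (27, 0, 0, 0, 0), (27, 0, 0, 0, 0), (24, 0, 0, 0, 0), (24, 0, 0, 0, 0), (26, 0, 0, 0, 0), (26, 0, 0, 0, 0), (27, 0, 0, 0, 0), (27, 0, 0, 0, 0), (28, 0, 0, 0, 0), (28, 0, 0, 0, 0), (8, 0, 0, 0, 0), (8, 0, 0, 0, 0), (9, 0, 0, 0, 0), (9, 0, 0, 0, 0), (28, 0, 0, 0, 0), (28, 0, 0, 0, 0), (10, 0, 0, 0, 0), (10, 0, 0, 0, 0), (11, 0,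 0, 0, 0), (11, 0, 0, 0, 0), (8, 0, 0, 0, 0), (8, 0, 0, 0, 0), (10, 0, 0, 0, 0), (10, 0, 0, 0, 0), (29, 0, 0, 0, 0), (29, 0, 0, 0, 0), (9, 0, 0, 0, 0), (9, 0, 0, 0, 0), (11, 0, 0, 0, 0), (11, 0, 0, 0, 0), (29, 0, 0, 0, 0), (29, 0, 0, 0, 0), (30, 0, 0, 0, 0), (30, 0, 0, 0, 0), (31, 0, 0, 0, 0), (31, 0, 0, 0, 0), (32, 0, 0, 0, 0), (32, 0, 0, 0, 0), (30, 0, 0, 0, 0), (30, 0, 0, 0, 0), (33, 0, 0, 0, 0), (33, 0, 0, 0, 0), (34, 0, 0, 0, 0), (34, 0, 0, 0, 0), (31, 0, 0, 0, 0), (31, 0, 0, 0, 0), (33, 0, 0, 0, 0), (33, 0, 0, 0, 0), (35, 0, 0, 0, 0), (35, 0, 0, 0, 0), (32, 0, 0, 0, 0), (32, 0, 0, 0, 0), (34, 0, 0, 0, 0), (34, 0, 0, 0, 0), (35, 0, 0, 0, 0), (35, 0, 0, 0, 0), (0, 0, 0, 0, 0), (0, 0, 0, 0, 0), (18, 0, 0, 0, 0), (18, 0, 0, 0, 0), (1, 0, 0, 0, 0), (1, 0, 0, 0, 0),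 (0, 0, 0, 0, 0), (2, 0, 0, 0, 0), (19, 0, 0, 0, 0), (19, 0, 0, 0, 0), (18, 0, 0, 0, 0), (18, 0, 0, 0, 0), (2, 0, 0, 0, 0), (2, 0, 0, 0, 0), (3, 0, 0, 0, 0), (3, 0, 0, 0, 0), (1, 0, 0, 0, 0), (19, 0, 0, 0, 0), (19, 0, 0, 0, 0), (3, 0, 0, 0, 0), (22, 0, 0, 0, 0), (22, 0, 0, 0, 0), (28, 0, 0, 0, 0), (28, 0, 0, 0, 0), (30, 0, 0, 0, 0), (30, 0, 0, 0, 0), (22, 0, 0, 0, 0), (22, 0, 0, 0, 0), (36, 0, 0, 0, 0), (36, 0, 0, 0, 0), (37, 0, 0, 0, 0), (37, 0, 0, 0, 0), (28, 0, 0, 0, 0), (28, 0, 0, 0, 0), (36, 0, 0, 0, 0), (36, 0, 0, 0, 0), (38, 0, 0, 0, 0), (38, 0, 0, 0, 0), (30, 0, 0, 0, 0), (30, 0, 0, 0, 0), (37, 0, 0, 0, 0), (37, 0, 0, 0, 0), (38, 0, 0, 0, 0), (38, 0, 0, 0, 0), (4, 0, 0, 0, 0), (8, 0, 0, 0, 0), (31, 0, 0, 0, 0), (31, 0, 0, 0, 0), (4, 0, 0, 0, 0), (4, 0, 0, 0,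 0), (39, 0, 0, 0, 0), (39, 0, 0, 0, 0), (12, 0, 0, 0, 0), (12, 0, 0, 0, 0), (8, 0, 0, 0, 0), (8, 0, 0, 0, 0), (39, 0, 0, 0, 0), (39, 0, 0, 0, 0), (13, 0, 0, 0, 0), (13, 0, 0, 0, 0), (31, 0, 0, 0, 0), (31, 0, 0, 0, 0), (12, 0, 0, 0, 0), (13, 0, 0, 0, 0), (20, 0, 0, 0, 0), (20, 0, 0, 0, 0), (23, 0, 0, 0, 0), (23, 0, 0, 0, 0), (32, 0, 0, 0, 0), (32, 0, 0, 0, 0), (20, 0, 0, 0, 0), (20, 0, 0, 0, 0), (40, 0, 0, 0, 0), (40, 0, 0, 0, 0), (41, 0, 0, 0, 0), (41, 0, 0, 0, 0), (23, 0, 0, 0, 0), (23, 0, 0, 0, 0), (40, 0, 0, 0, 0), (40, 0, 0, 0, 0), (42, 0, 0, 0, 0), (42, 0, 0, 0, 0), (32, 0, 0, 0, 0), (32, 0, 0, 0, 0), (41, 0, 0, 0, 0), (41, 0, 0, 0, 0), (42, 0, 0, 0, 0), (42, 0, 0, 0, 0), (5, 0, 0, 0, 0), (24, 0, 0, 0, 0), (24, 0, 0, 0, 0), (9, 0, 0, 0, 0), (5, 0, 0, 0, 0), (5,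 0, 0, 0, 0), (14, 0, 0, 0, 0), (14, 0, 0, 0, 0), (43, 0, 0, 0, 0), (43, 0, 0, 0, 0), (24, 0, 0, 0, 0), (24, 0, 0, 0, 0), (14, 0, 0, 0, 0), (15, 0, 0, 0, 0), (9, 0, 0, 0, 0), (9, 0, 0, 0, 0), (43, 0, 0, 0, 0), (43, 0, 0, 0, 0), (15, 0, 0, 0, 0), (15, 0, 0, 0, 0), (4, 0, 0, 0, 0), (4, 0, 0, 0, 0), (20, 0, 0, 0, 0), (20, 0, 0, 0, 0), (5, 0, 0, 0, 0), (5, 0, 0, 0, 0), (4, 0, 0, 0, 0), (6, 0, 0, 0, 0), (21, 0, 0, 0, 0), (21, 0, 0, 0, 0), (20, 0, 0, 0, 0), (20, 0, 0, 0, 0), (6, 0, 0, 0, 0), (6, 0, 0, 0, 0), (7, 0, 0, 0, 0), (7, 0, 0, 0, 0), (5, 0, 0, 0, 0), (21, 0, 0, 0, 0), (21, 0, 0, 0, 0), (7, 0, 0, 0, 0), (22, 0, 0, 0, 0), (22, 0, 0, 0, 0), (28, 0, 0, 0, 0), (28, 0, 0, 0, 0), (30, 0, 0, 0, 0), (30, 0, 0, 0, 0), (22, 0, 0, 0, 0), (22, 0, 0, 0, 0), (36, 0, 0, 0, 0), (36,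 0, 0, 0, 0), (37, 0, 0, 0, 0), (37, 0, 0, 0, 0), (28, 0, 0, 0, 0), (28, 0, 0, 0, 0), (36, 0, 0, 0, 0), (36, 0, 0, 0, 0), (38, 0, 0, 0, 0), (38, 0, 0, 0, 0), (30, 0, 0, 0, 0), (30, 0, 0, 0, 0), (37, 0, 0, 0, 0), (37, 0, 0, 0, 0), (38, 0, 0, 0, 0), (38, 0, 0, 0, 0), (0, 0, 0, 0, 0), (10, 0, 0, 0, 0), (33, 0, 0, 0, 0), (33, 0, 0, 0, 0), (0, 0, 0, 0, 0), (0, 0, 0, 0, 0), (40, 0, 0, 0, 0), (40, 0, 0, 0, 0), (14, 0, 0, 0, 0), (14, 0, 0, 0, 0), (10, 0, 0, 0, 0), (10, 0, 0, 0, 0), (40, 0, 0, 0, 0), (40, 0, 0, 0, 0), (16, 0, 0, 0, 0), (16, 0, 0, 0, 0), (33, 0, 0, 0, 0), (33, 0, 0, 0, 0), (14, 0, 0, 0, 0), (16, 0, 0, 0, 0), (18, 0, 0, 0, 0), (18, 0, 0, 0, 0), (25, 0, 0, 0, 0), (25, 0, 0, 0, 0), (34, 0, 0, 0, 0), (34, 0, 0, 0, 0), (18, 0, 0, 0, 0), (18, 0, 0, 0, 0), (39, 0, 0,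 0, 0), (39, 0, 0, 0, 0), (43, 0, 0, 0, 0), (43, 0, 0, 0, 0), (25, 0, 0, 0, 0), (25, 0, 0, 0, 0), (39, 0, 0, 0, 0), (39, 0, 0, 0, 0), (44, 0, 0, 0, 0), (44, 0, 0, 0, 0), (34, 0, 0, 0, 0), (34, 0, 0, 0, 0), (43, 0, 0, 0, 0), (43, 0, 0, 0, 0), (44, 0, 0, 0, 0), (44, 0, 0, 0, 0), (1, 0, 0, 0, 0), (26, 0, 0, 0, 0), (26, 0, 0, 0, 0), (11, 0, 0, 0, 0), (1, 0, 0, 0, 0), (1, 0, 0, 0, 0), (12, 0, 0, 0, 0), (12, 0, 0, 0, 0), (41, 0, 0, 0, 0), (41, 0, 0, 0, 0), (26, 0, 0, 0, 0), (26, 0, 0, 0, 0), (12, 0, 0, 0, 0), (17, 0, 0, 0, 0), (11, 0, 0, 0, 0), (11, 0, 0, 0, 0), (41, 0, 0, 0, 0), (41, 0, 0, 0, 0), (17, 0, 0, 0, 0), (17, 0, 0, 0, 0), (22, 0, 0, 0, 0), (22, 0, 0, 0, 0), (23, 0, 0, 0, 0), (23, 0, 0, 0, 0), (24, 0, 0, 0, 0), (24, 0, 0, 0, 0), (22, 0, 0, 0, 0), (22, 0, 0, 0, 0),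 (25, 0, 0, 0, 0), (25, 0, 0, 0, 0), (26, 0, 0, 0, 0), (26, 0, 0, 0, 0), (23, 0, 0, 0, 0), (23, 0, 0, 0, 0), (25, 0, 0, 0, 0), (25, 0, 0, 0, 0), (27, 0, 0, 0, 0), (27, 0, 0, 0, 0), (24, 0, 0, 0, 0), (24, 0, 0, 0, 0), (26, 0, 0, 0, 0), (26, 0, 0, 0, 0), (27, 0, 0, 0, 0), (27, 0, 0, 0, 0), (4, 0, 0, 0, 0), (4, 0, 0, 0, 0), (8, 0, 0, 0, 0), (8, 0, 0, 0, 0), (31, 0, 0, 0, 0), (31, 0, 0, 0, 0), (4, 0, 0, 0, 0), (4, 0, 0, 0, 0), (39, 0, 0, 0, 0), (39, 0, 0, 0, 0), (12, 0, 0, 0, 0), (12, 0, 0, 0, 0), (8, 0, 0, 0, 0), (8, 0, 0, 0, 0), (39, 0, 0, 0, 0), (39, 0, 0, 0, 0), (13, 0, 0, 0, 0), (13, 0, 0, 0, 0), (31, 0, 0, 0, 0), (31, 0, 0, 0, 0), (12, 0, 0, 0, 0), (12, 0, 0, 0, 0), (13, 0, 0, 0, 0), (13, 0, 0, 0, 0), (0, 0, 0, 0, 0), (0, 0, 0, 0, 0), (10, 0, 0, 0, 0), (10, 0, 0,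 0, 0), (33, 0, 0, 0, 0), (33, 0, 0, 0, 0), (0, 0, 0, 0, 0), (0, 0, 0, 0, 0), (40, 0, 0, 0, 0), (40, 0, 0, 0, 0), (14, 0, 0, 0, 0), (14, 0, 0, 0, 0), (10, 0, 0, 0, 0), (10, 0, 0, 0, 0), (40, 0, 0, 0, 0), (40, 0, 0, 0, 0), (16, 0, 0, 0, 0), (16, 0, 0, 0, 0), (33, 0, 0, 0, 0), (33, 0, 0, 0, 0), (14, 0, 0, 0, 0), (14, 0, 0, 0, 0), (16, 0, 0, 0, 0), (16, 0, 0, 0, 0), (2, 0, 0, 0, 0), (2, 0, 0, 0, 0), (6, 0, 0, 0, 0), (6, 0, 0, 0, 0), (35, 0, 0, 0, 0), (35, 0, 0, 0, 0), (2, 0, 0, 0, 0), (2, 0, 0, 0, 0), (36, 0, 0, 0, 0), (36, 0, 0, 0, 0), (15, 0, 0, 0, 0), (15, 0, 0, 0, 0), (6, 0, 0, 0, 0), (6, 0, 0, 0, 0), (36, 0, 0, 0, 0), (36, 0, 0, 0, 0), (17, 0, 0, 0, 0), (17, 0, 0, 0, 0), (35, 0, 0, 0, 0), (35, 0, 0, 0, 0), (15, 0, 0, 0, 0), (15, 0, 0, 0, 0), (17, 0, 0, 0, 0), (17,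 0, 0, 0, 0), (19, 0, 0, 0, 0), (19, 0, 0, 0, 0), (21, 0, 0, 0, 0), (21, 0, 0, 0, 0), (29, 0, 0, 0, 0), (29, 0, 0, 0, 0), (19, 0, 0, 0, 0), (19, 0, 0, 0, 0), (37, 0, 0, 0, 0), (37, 0, 0, 0, 0), (42, 0, 0, 0, 0), (42, 0, 0, 0, 0), (21, 0, 0, 0, 0), (21, 0, 0, 0, 0), (37, 0, 0, 0, 0), (37, 0, 0, 0, 0), (44, 0, 0, 0, 0), (44, 0, 0, 0, 0), (29, 0, 0, 0, 0), (29, 0, 0, 0, 0), (42, 0, 0, 0, 0), (42, 0, 0, 0, 0), (44, 0, 0, 0, 0), (44, 0, 0, 0, 0), (28, 0, 0, 0, 0), (28, 0, 0, 0, 0), (8, 0, 0, 0, 0), (8, 0, 0, 0, 0), (9, 0, 0, 0, 0), (9, 0, 0, 0, 0), (28, 0, 0, 0, 0), (28, 0, 0, 0, 0), (10, 0, 0, 0, 0), (10, 0, 0, 0, 0), (11, 0, 0, 0, 0), (11, 0, 0, 0, 0), (8, 0, 0, 0, 0), (10, 0, 0, 0, 0), (29, 0, 0, 0, 0), (29, 0, 0, 0, 0), (9, 0, 0, 0, 0), (11, 0, 0, 0, 0), (29, 0, 0, 0,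 0), (29, 0, 0, 0, 0), (20, 0, 0, 0, 0), (20, 0, 0, 0, 0), (23, 0, 0, 0, 0), (23, 0, 0, 0, 0), (32, 0, 0, 0, 0), (32, 0, 0, 0, 0), (20, 0, 0, 0, 0), (20, 0, 0, 0, 0), (40, 0, 0, 0, 0), (40, 0, 0, 0, 0), (41, 0, 0, 0, 0), (41, 0, 0, 0, 0), (23, 0, 0, 0, 0), (23, 0, 0, 0, 0), (40, 0, 0, 0, 0), (40, 0, 0, 0, 0), (42, 0, 0, 0, 0), (42, 0, 0, 0, 0), (32, 0, 0, 0, 0), (32, 0, 0, 0, 0), (41, 0, 0, 0, 0), (41, 0, 0, 0, 0), (42, 0, 0, 0, 0), (42, 0, 0, 0, 0), (18, 0, 0, 0, 0), (18, 0, 0, 0, 0), (25, 0, 0, 0, 0), (25, 0, 0, 0, 0), (34, 0, 0, 0, 0), (34, 0, 0, 0, 0), (18, 0, 0, 0, 0), (18, 0, 0, 0, 0), (39, 0, 0, 0, 0), (39, 0, 0, 0, 0), (43, 0, 0, 0, 0), (43, 0, 0, 0, 0), (25, 0, 0, 0, 0), (25, 0, 0, 0, 0), (39, 0, 0, 0, 0), (39, 0, 0, 0, 0), (44, 0, 0, 0, 0), (44, 0, 0, 0, 0),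 (34, 0, 0, 0, 0), (34, 0, 0, 0, 0), (43, 0, 0, 0, 0), (43, 0, 0, 0, 0), (44, 0, 0, 0, 0), (44, 0, 0, 0, 0), (2, 0, 0, 0, 0), (6, 0, 0, 0, 0), (35, 0, 0, 0, 0), (35, 0, 0, 0, 0), (2, 0, 0, 0, 0), (2, 0, 0, 0, 0), (36, 0, 0, 0, 0), (36, 0, 0, 0, 0), (15, 0, 0, 0, 0), (15, 0, 0, 0, 0), (6, 0, 0, 0, 0), (6, 0, 0, 0, 0), (36, 0, 0, 0, 0), (36, 0, 0, 0, 0), (17, 0, 0, 0, 0), (17, 0, 0, 0, 0), (35, 0, 0, 0, 0), (35, 0, 0, 0, 0), (15, 0, 0, 0, 0), (17, 0, 0, 0, 0), (3, 0, 0, 0, 0), (7, 0, 0, 0, 0), (27, 0, 0, 0, 0), (27, 0, 0, 0, 0), (3, 0, 0, 0, 0), (3, 0, 0, 0, 0), (38, 0, 0, 0, 0), (38, 0, 0, 0, 0), (13, 0, 0, 0, 0), (13, 0, 0, 0, 0), (7, 0, 0, 0, 0), (7, 0, 0, 0, 0), (38, 0, 0, 0, 0), (38, 0, 0, 0, 0), (16, 0, 0, 0, 0), (16, 0, 0, 0, 0), (27, 0, 0, 0, 0), (27, 0, 0, 0,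 0), (13, 0, 0, 0, 0), (16, 0, 0, 0, 0), (30, 0, 0, 0, 0), (30, 0, 0, 0, 0), (31, 0, 0, 0, 0), (31, 0, 0, 0, 0), (32, 0, 0, 0, 0), (32, 0, 0, 0, 0), (30, 0, 0, 0, 0), (30, 0, 0, 0, 0), (33, 0, 0, 0, 0), (33, 0, 0, 0, 0), (34, 0, 0, 0, 0), (34, 0, 0, 0, 0), (31, 0, 0, 0, 0), (31, 0, 0, 0, 0), (33, 0, 0, 0, 0), (33, 0, 0, 0, 0), (35, 0, 0, 0, 0), (35, 0, 0, 0, 0), (32, 0, 0, 0, 0), (32, 0, 0, 0, 0), (34, 0, 0, 0, 0), (34, 0, 0, 0, 0), (35, 0, 0, 0, 0), (35, 0, 0, 0, 0), (5, 0, 0, 0, 0), (5, 0, 0, 0, 0), (24, 0, 0, 0, 0), (24, 0, 0, 0, 0), (9, 0, 0, 0, 0), (9, 0, 0, 0, 0), (5, 0, 0, 0, 0), (5, 0, 0, 0, 0), (14, 0, 0, 0, 0), (14, 0, 0, 0, 0), (43, 0, 0, 0, 0), (43, 0, 0, 0, 0), (24, 0, 0, 0, 0), (24, 0, 0, 0, 0), (14, 0, 0, 0, 0), (14, 0, 0, 0, 0), (15, 0, 0, 0, 0), (15,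 0, 0, 0, 0), (9, 0, 0, 0, 0), (9, 0, 0, 0, 0), (43, 0, 0, 0, 0), (43, 0, 0, 0, 0), (15, 0, 0, 0, 0), (15, 0, 0, 0, 0), (1, 0, 0, 0, 0), (1, 0, 0, 0, 0), (26, 0, 0, 0, 0), (26, 0, 0, 0, 0), (11, 0, 0, 0, 0), (11, 0, 0, 0, 0), (1, 0, 0, 0, 0), (1, 0, 0, 0, 0), (12, 0, 0, 0, 0), (12, 0, 0, 0, 0), (41, 0, 0, 0, 0), (41, 0, 0, 0, 0), (26, 0, 0, 0, 0), (26, 0, 0, 0, 0), (12, 0, 0, 0, 0), (12, 0, 0, 0, 0), (17, 0, 0, 0, 0), (17, 0, 0, 0, 0), (11, 0, 0, 0, 0), (11, 0, 0, 0, 0), (41, 0, 0, 0, 0), (41, 0, 0, 0, 0), (17, 0, 0, 0, 0), (17, 0, 0, 0, 0), (19, 0, 0, 0, 0), (19, 0, 0, 0, 0), (21, 0, 0, 0, 0), (21, 0, 0, 0, 0), (29, 0, 0, 0, 0), (29, 0, 0, 0, 0), (19, 0, 0, 0, 0), (19, 0, 0, 0, 0), (37, 0, 0, 0, 0), (37, 0, 0, 0, 0), (42, 0, 0, 0, 0), (42, 0, 0, 0, 0), (21, 0, 0, 0,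 0), (21, 0, 0, 0, 0), (37, 0, 0, 0, 0), (37, 0, 0, 0, 0), (44, 0, 0, 0, 0), (44, 0, 0, 0, 0), (29, 0, 0, 0, 0), (29, 0, 0, 0, 0), (42, 0, 0, 0, 0), (42, 0, 0, 0, 0), (44, 0, 0, 0, 0), (44, 0, 0, 0, 0), (3, 0, 0, 0, 0), (3, 0, 0, 0, 0), (7, 0, 0, 0, 0), (7, 0, 0, 0, 0), (27, 0, 0, 0, 0), (27, 0, 0, 0, 0), (3, 0, 0, 0, 0), (3, 0, 0, 0, 0), (38, 0, 0, 0, 0), (38, 0, 0, 0, 0), (13, 0, 0, 0, 0), (13, 0, 0, 0, 0), (7, 0, 0, 0, 0), (7, 0, 0, 0, 0), (38, 0, 0, 0, 0), (38, 0, 0, 0, 0), (16, 0, 0, 0, 0), (16, 0, 0, 0, 0), (27, 0, 0, 0, 0), (27, 0, 0, 0, 0), (13, 0, 0, 0, 0), (13, 0, 0, 0, 0), (16, 0, 0, 0, 0), (16, 0, 0, 0, 0)]]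

theorem tr36 : trK keys lk36 kl36 = true := by
  decide +kernel

theorem x36_0 : expB 0 6 dg1 dg11 m36_0 (l36_0 ++ z36_0) w36_0 = true := by
  decide +kernel

theorem t36_0_0 : chkS lk36 0 6 [(1, m36_0)] l36_0
  [(0, 16, 16, 5517840, 5517840), (4, 16, 16, 4534800, 4534800), (4, 16, 16, 5514000, 5514000), (3, 16, 16, 5517840, 5517840), (1, 16, 16, 5517840, 5517840), (6, 16, 16, 4530945, 4530945), (6, 16, 16, 5505315, 5505315), (5, 16, 16, 5513985, 5513985), (6, 16, 16, 5517840, 5517840), (5, 1, 1, 2118705, 3282180), (4, 16, 16, 5509170, 5509170), (2, 16, 16, 3490320, 4411920), (6, 16, 16, 4526130, 4526130), (5, 16, 16, 5517840, 5517840), (4, 16, 16, 4526115, 4522290), (2, 16, 16, 5448705, 5391105), (3, 16, 16, 5509170, 5509170), (5, 1, 1, 143700, 1061925)]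
  [(0, 180), (1, -180), (2, -180), (3, -180), (4, -180), (5, 360), (6, 180)] = true := by
  decide +kernel

section

variable {κ ι : Type*} [Fintype κ] [Fintype ι] [Inhabited κ] [Inhabited ι]

noncomputable def F36_0 (E : Env κ ι) : (Fin 0 → κ) → (Fin 6 → ι) → ℝ := op2 (P1 κ) (P11 ι) (fB E 0 6 m36_0)

def r36_0_0 : List (ℕ × ℤ) := [(0, 180), (1, -180), (2, -180), (3, -180), (4, -180), (5, 360), (6, 180)]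

theorem h36_0_0 (E : Env κ ι) : ip (F36_0 E) (F36_0 E) = dotS (ek E lk36) r36_0_0 :=
  op_entryZ E lk36 0 6 _ _ _ _ (pg1 κ) (pg11 ι) m36_0 m36_0 l36_0 z36_0 w36_0 x36_0 (by decide) _ (chkS_sound E lk36 0 6 _ _ _ _ t36_0_0)

theorem row36_0 (E : Env κ ι) : RowG (ek E lk36) (F36_0 E) [F36_0 E] [r36_0_0] :=
  rowG_cons _ _ _ _ _ _ (h36_0_0 E) (rowG_nil _ _)

def tab36 : List (List (List (ℕ × ℤ))) := [[r36_0_0]]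

theorem tri36 (E : Env κ ι) : TriG (ek E lk36) [F36_0 E] tab36 := by
  refine triG_cons _ _ _ _ _ (row36_0 E) ?_
  exact triG_nil _

end

def lk37 : List Key := [
  (2, 6, [(0, [0], [0, 1]), (0, [1], [2, 3]), (0, [0], [2, 3]), (0, [1], [0, 1]), (1, [], [4, 5]), (1, [], [4, 5])]),
  (2, 6, [(0, [0], [0, 1]), (0, [0], [2, 3]), (0, [1], [0, 2]), (0, [1], [1, 3]), (1, [], [4, 5]), (1, [], [4, 5])]),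
  (2, 6, [(0, [0], [0, 1]), (0, [1], [2, 3]), (0, [0], [2, 4]), (0, [1], [0, 5]), (1, [], [3, 5]), (1, [], [1, 4])]),
  (2, 6, [(0, [0], [0, 1]), (0, [0], [2, 3]), (0, [1], [0, 1]), (0, [1], [4, 5]), (1, [], [4, 5]), (1, [], [2, 3])]),
  (2, 6, [(0, [0], [0, 1]), (0, [0], [2, 3]), (0, [1], [0, 1]), (0, [1], [2, 4]), (1, [], [4, 5]), (1, [], [3, 5])]),
  (2, 6, [(0, [0], [0, 1]), (0, [0], [2, 3]), (0, [1], [1, 3]), (0, [1], [4, 5]), (1, [], [4, 5]), (1, [], [0, 2])]),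
  (2, 6, [(0, [0], [0, 1]), (0, [0], [2, 3]), (0, [1], [1, 3]), (0, [1], [0, 4]), (1, [], [4, 5]), (1, [], [2, 5])])]

def kl37 : List ℕ := [16, 20, 23, 46, 48, 50, 52]

def m37_0 : Base := (1, 0, [(0, [0], [0, 1]), (0, [0], [2, 3]), (1, [], [4, 5])])

def l37_0 : Cov := [(2304, 1, 0, [(0, [0], [0, 1]), (0, [0], [2, 3]), (1, [], [4, 5])]),
  (-2304, 1, 0, [(0, [0], [0, 1]), (0, [0], [2, 5]), (1, [], [3, 4])]),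
  (-2304, 1, 0, [(0, [0], [0, 1]), (0, [0], [3, 4]), (1, [], [2, 5])]),
  (2304, 1, 0, [(0, [0], [0, 1]), (0, [0], [4, 5]), (1, [], [2, 3])]),
  (-2304, 1, 0, [(0, [0], [0, 3]), (0, [0], [1, 2]), (1, [], [4, 5])]),
  (2304, 1, 0, [(0, [0], [0, 3]), (0, [0], [1, 4]), (1, [], [2, 5])]),
  (2304, 1, 0, [(0, [0], [0, 3]), (0, [0], [2, 5]), (1, [], [1, 4])]),
  (-2304, 1, 0, [(0, [0], [0, 3]), (0, [0], [4, 5]), (1, [], [1, 2])]),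
  (2304, 1, 0, [(0, [0], [0, 5]), (0, [0], [1, 2]), (1, [], [3, 4])]),
  (-2304, 1, 0, [(0, [0], [0, 5]), (0, [0], [1, 4]), (1, [], [2, 3])]),
  (-2304, 1, 0, [(0, [0], [0, 5]), (0, [0], [2, 3]), (1, [], [1, 4])]),
  (2304, 1, 0, [(0, [0], [0, 5]), (0, [0], [3, 4]), (1, [], [1, 2])]),
  (2304, 1, 0, [(0, [0], [1, 2]), (0, [0], [3, 4]), (1, [], [0, 5])]),
  (-2304, 1, 0, [(0, [0], [1, 2]), (0, [0], [4, 5]), (1, [], [0, 3])]),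
  (-2304, 1, 0, [(0, [0], [1, 4]), (0, [0], [2, 3]), (1, [], [0, 5])]),
  (2304, 1, 0, [(0, [0], [1, 4]), (0, [0], [2, 5]), (1, [], [0, 3])]),
  (2304, 1, 0, [(0, [0], [2, 3]), (0, [0], [4, 5]), (1, [], [0, 1])]),
  (-2304, 1, 0, [(0, [0], [2, 5]), (0, [0], [3, 4]), (1, [], [0, 1])])]

def z37_0 : Cov := [(0, 1, 0, [(0, [0], [0, 1]), (0, [0], [2, 4]), (1, [], [3, 5])]),
  (0, 1, 0, [(0, [0], [0, 1]), (0, [0], [3, 5]), (1, [], [2, 4])]),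
  (0, 1, 0, [(0, [0], [0, 2]), (0, [0], [1, 3]), (1, [], [4, 5])]),
  (0, 1, 0, [(0, [0], [0, 2]), (0, [0], [1, 4]), (1, [], [3, 5])]),
  (0, 1, 0, [(0, [0], [0, 2]), (0, [0], [1, 5]), (1, [], [3, 4])]),
  (0, 1, 0, [(0, [0], [0, 2]), (0, [0], [3, 4]), (1, [], [1, 5])]),
  (0, 1, 0, [(0, [0], [0, 2]), (0, [0], [3, 5]), (1, [], [1, 4])]),
  (0, 1, 0, [(0, [0], [0, 2]), (0, [0], [4, 5]), (1, [], [1, 3])]),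
  (0, 1, 0, [(0, [0], [0, 3]), (0, [0], [1, 5]), (1, [], [2, 4])]),
  (0, 1, 0, [(0, [0], [0, 3]), (0, [0], [2, 4]), (1, [], [1, 5])]),
  (0, 1, 0, [(0, [0], [0, 4]), (0, [0], [1, 2]), (1, [], [3, 5])]),
  (0, 1, 0, [(0, [0], [0, 4]), (0, [0], [1, 3]), (1, [], [2, 5])]),
  (0, 1, 0, [(0, [0], [0, 4]), (0, [0], [1, 5]), (1, [], [2, 3])]),
  (0, 1, 0, [(0, [0], [0, 4]), (0, [0], [2, 3]), (1, [], [1, 5])]),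
  (0, 1, 0, [(0, [0], [0, 4]), (0, [0], [2, 5]), (1, [], [1, 3])]),
  (0, 1, 0, [(0, [0], [0, 4]), (0, [0], [3, 5]), (1, [], [1, 2])]),
  (0, 1, 0, [(0, [0], [0, 5]), (0, [0], [1, 3]), (1, [], [2, 4])]),
  (0, 1, 0, [(0, [0], [0, 5]), (0, [0], [2, 4]), (1, [], [1, 3])]),
  (0, 1, 0, [(0, [0], [1, 2]), (0, [0], [3, 5]), (1, [], [0, 4])]),
  (0, 1, 0, [(0, [0], [1, 3]), (0, [0], [2, 4]), (1, [], [0, 5])]),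
  (0, 1, 0, [(0, [0], [1, 3]), (0, [0], [2, 5]), (1, [], [0, 4])]),
  (0, 1, 0, [(0, [0], [1, 3]), (0, [0], [4, 5]), (1, [], [0, 2])]),
  (0, 1, 0, [(0, [0], [1, 4]), (0, [0], [3, 5]), (1, [], [0, 2])]),
  (0, 1, 0, [(0, [0], [1, 5]), (0, [0], [2, 3]), (1, [], [0, 4])]),
  (0, 1, 0, [(0, [0], [1, 5]), (0, [0], [2, 4]), (1, [], [0, 3])]),
  (0, 1, 0, [(0, [0], [1, 5]), (0, [0], [3, 4]), (1, [], [0, 2])]),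
  (0, 1, 0, [(0, [0], [2, 4]), (0, [0], [3, 5]), (1, [], [0, 1])])]

def w37_0 : List (List Wit) := [[(0, 0, 0, 0, 0), (0, 0, 0, 0, 0), (18, 0, 0, 0, 0), (18, 0, 0, 0, 0), (1, 0, 0, 0, 0), (1, 0, 0, 0, 0), (0, 0, 0, 0, 0), (0, 0, 0, 0, 0), (2, 0, 0, 0, 0), (2, 0, 0, 0, 0), (19, 0, 0, 0, 0), (19, 0, 0, 0, 0), (18, 0, 0, 0, 0), (18, 0, 0, 0, 0), (2, 0, 0, 0, 0), (2, 0, 0, 0, 0), (3, 0, 0, 0, 0), (3, 0, 0, 0, 0), (1, 0, 0, 0, 0), (1, 0, 0, 0, 0), (19, 0, 0, 0, 0), (19, 0, 0, 0, 0), (3, 0, 0, 0, 0), (3, 0, 0, 0, 0), (20, 0, 0, 0, 0), (20, 0, 0, 0, 0), (21, 0, 0, 0, 0), (21, 0, 0, 0, 0), (22, 0, 0, 0, 0), (22, 0, 0, 0, 0), (20, 0, 0, 0, 0), (20, 0, 0, 0, 0), (23, 0, 0, 0, 0), (23, 0, 0, 0, 0), (24, 0, 0, 0, 0), (24, 0, 0, 0, 0), (21, 0, 0, 0, 0), (21, 0, 0, 0, 0), (23,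 0, 0, 0, 0), (23, 0, 0, 0, 0), (25, 0, 0, 0, 0), (25, 0, 0, 0, 0), (22, 0, 0, 0, 0), (22, 0, 0, 0, 0), (24, 0, 0, 0, 0), (24, 0, 0, 0, 0), (25, 0, 0, 0, 0), (25, 0, 0, 0, 0), (4, 0, 0, 0, 0), (4, 0, 0, 0, 0), (5, 0, 0, 0, 0), (5, 0, 0, 0, 0), (26, 0, 0, 0, 0), (26, 0, 0, 0, 0), (4, 0, 0, 0, 0), (4, 0, 0, 0, 0), (27, 0, 0, 0, 0), (27, 0, 0, 0, 0), (6, 0, 0, 0, 0), (6, 0, 0, 0, 0), (5, 0, 0, 0, 0), (5, 0, 0, 0, 0), (27, 0, 0, 0, 0), (27, 0, 0, 0, 0), (7, 0, 0, 0, 0), (7, 0, 0, 0, 0), (26, 0, 0, 0, 0), (26, 0, 0, 0, 0), (6, 0, 0, 0, 0), (6, 0, 0, 0, 0), (7, 0, 0, 0, 0), (7, 0, 0, 0, 0), (28, 0, 0, 0, 0), (28, 0, 0, 0, 0), (29, 0, 0, 0, 0), (29, 0, 0, 0, 0), (30, 0, 0, 0, 0), (30, 0, 0, 0, 0), (28, 0, 0, 0, 0), (28, 0, 0, 0, 0), (31, 0, 0, 0, 0), (31, 0, 0, 0, 0), (32,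 0, 0, 0, 0), (32, 0, 0, 0, 0), (29, 0, 0, 0, 0), (29, 0, 0, 0, 0), (31, 0, 0, 0, 0), (31, 0, 0, 0, 0), (33, 0, 0, 0, 0), (33, 0, 0, 0, 0), (30, 0, 0, 0, 0), (30, 0, 0, 0, 0), (32, 0, 0, 0, 0), (32, 0, 0, 0, 0), (33, 0, 0, 0, 0), (33, 0, 0, 0, 0), (8, 0, 0, 0, 0), (8, 0, 0, 0, 0), (34, 0, 0, 0, 0), (34, 0, 0, 0, 0), (9, 0, 0, 0, 0), (9, 0, 0, 0, 0), (8, 0, 0, 0, 0), (8, 0, 0, 0, 0), (10, 0, 0, 0, 0), (10, 0, 0, 0, 0), (35, 0, 0, 0, 0), (35, 0, 0, 0, 0), (34, 0, 0, 0, 0), (34, 0, 0, 0, 0), (10, 0, 0, 0, 0), (10, 0, 0, 0, 0), (11, 0, 0, 0, 0), (11, 0, 0, 0, 0), (9, 0, 0, 0, 0), (9, 0, 0, 0, 0), (35, 0, 0, 0, 0), (35, 0, 0, 0, 0), (11, 0, 0, 0, 0), (11, 0, 0, 0, 0), (0, 0, 0, 0, 0), (0, 0, 0, 0, 0), (18, 0, 0, 0, 0), (18, 0, 0, 0, 0), (1, 0, 0, 0, 0), (1, 0, 0, 0, 0),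 (0, 0, 0, 0, 0), (0, 0, 0, 0, 0), (2, 0, 0, 0, 0), (2, 0, 0, 0, 0), (19, 0, 0, 0, 0), (19, 0, 0, 0, 0), (18, 0, 0, 0, 0), (18, 0, 0, 0, 0), (2, 0, 0, 0, 0), (2, 0, 0, 0, 0), (3, 0, 0, 0, 0), (3, 0, 0, 0, 0), (1, 0, 0, 0, 0), (1, 0, 0, 0, 0), (19, 0, 0, 0, 0), (19, 0, 0, 0, 0), (3, 0, 0, 0, 0), (3, 0, 0, 0, 0), (4, 0, 0, 0, 0), (4, 0, 0, 0, 0), (28, 0, 0, 0, 0), (28, 0, 0, 0, 0), (8, 0, 0, 0, 0), (8, 0, 0, 0, 0), (4, 0, 0, 0, 0), (4, 0, 0, 0, 0), (12, 0, 0, 0, 0), (12, 0, 0, 0, 0), (36, 0, 0, 0, 0), (36, 0, 0, 0, 0), (28, 0, 0, 0, 0), (28, 0, 0, 0, 0), (12, 0, 0, 0, 0), (12, 0, 0, 0, 0), (13, 0, 0, 0, 0), (13, 0, 0, 0, 0), (8, 0, 0, 0, 0), (8, 0, 0, 0, 0), (36, 0, 0, 0, 0), (36, 0, 0, 0, 0), (13, 0, 0, 0, 0), (13, 0, 0, 0, 0), (20, 0, 0, 0, 0), (20, 0, 0, 0, 0), (29,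 0, 0, 0, 0), (29, 0, 0, 0, 0), (34, 0, 0, 0, 0), (34, 0, 0, 0, 0), (20, 0, 0, 0, 0), (20, 0, 0, 0, 0), (37, 0, 0, 0, 0), (37, 0, 0, 0, 0), (38, 0, 0, 0, 0), (38, 0, 0, 0, 0), (29, 0, 0, 0, 0), (29, 0, 0, 0, 0), (37, 0, 0, 0, 0), (37, 0, 0, 0, 0), (39, 0, 0, 0, 0), (39, 0, 0, 0, 0), (34, 0, 0, 0, 0), (34, 0, 0, 0, 0), (38, 0, 0, 0, 0), (38, 0, 0, 0, 0), (39, 0, 0, 0, 0), (39, 0, 0, 0, 0), (21, 0, 0, 0, 0), (21, 0, 0, 0, 0), (5, 0, 0, 0, 0), (5, 0, 0, 0, 0), (9, 0, 0, 0, 0), (9, 0, 0, 0, 0), (21, 0, 0, 0, 0), (21, 0, 0, 0, 0), (14, 0, 0, 0, 0), (14, 0, 0, 0, 0), (15, 0, 0, 0, 0), (15, 0, 0, 0, 0), (5, 0, 0, 0, 0), (5, 0, 0, 0, 0), (14, 0, 0, 0, 0), (14, 0, 0, 0, 0), (40, 0, 0, 0, 0), (40, 0, 0, 0, 0), (9, 0, 0, 0, 0), (9, 0, 0, 0, 0), (15, 0, 0, 0, 0), (15, 0, 0, 0,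 0), (40, 0, 0, 0, 0), (40, 0, 0, 0, 0), (22, 0, 0, 0, 0), (22, 0, 0, 0, 0), (26, 0, 0, 0, 0), (26, 0, 0, 0, 0), (30, 0, 0, 0, 0), (30, 0, 0, 0, 0), (22, 0, 0, 0, 0), (22, 0, 0, 0, 0), (41, 0, 0, 0, 0), (41, 0, 0, 0, 0), (42, 0, 0, 0, 0), (42, 0, 0, 0, 0), (26, 0, 0, 0, 0), (26, 0, 0, 0, 0), (41, 0, 0, 0, 0), (41, 0, 0, 0, 0), (43, 0, 0, 0, 0), (43, 0, 0, 0, 0), (30, 0, 0, 0, 0), (30, 0, 0, 0, 0), (42, 0, 0, 0, 0), (42, 0, 0, 0, 0), (43, 0, 0, 0, 0), (43, 0, 0, 0, 0), (20, 0, 0, 0, 0), (20, 0, 0, 0, 0), (21, 0, 0, 0, 0), (21, 0, 0, 0, 0), (22, 0, 0, 0, 0), (22, 0, 0, 0, 0), (20, 0, 0, 0, 0), (20, 0, 0, 0, 0), (23, 0, 0, 0, 0), (23, 0, 0, 0, 0), (24, 0, 0, 0, 0), (24, 0, 0, 0, 0), (21, 0, 0, 0, 0), (21, 0, 0, 0, 0), (23, 0, 0, 0, 0), (23, 0, 0, 0, 0), (25, 0, 0, 0, 0),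 (25, 0, 0, 0, 0), (22, 0, 0, 0, 0), (22, 0, 0, 0, 0), (24, 0, 0, 0, 0), (24, 0, 0, 0, 0), (25, 0, 0, 0, 0), (25, 0, 0, 0, 0), (4, 0, 0, 0, 0), (4, 0, 0, 0, 0), (28, 0, 0, 0, 0), (28, 0, 0, 0, 0), (8, 0, 0, 0, 0), (8, 0, 0, 0, 0), (4, 0, 0, 0, 0), (4, 0, 0, 0, 0), (12, 0, 0, 0, 0), (12, 0, 0, 0, 0), (36, 0, 0, 0, 0), (36, 0, 0, 0, 0), (28, 0, 0, 0, 0), (28, 0, 0, 0, 0), (12, 0, 0, 0, 0), (12, 0, 0, 0, 0), (13, 0, 0, 0, 0), (13, 0, 0, 0, 0), (8, 0, 0, 0, 0), (8, 0, 0, 0, 0), (36, 0, 0, 0, 0), (36, 0, 0, 0, 0), (13, 0, 0, 0, 0), (13, 0, 0, 0, 0), (0, 0, 0, 0, 0), (0, 0, 0, 0, 0), (31, 0, 0, 0, 0), (31, 0, 0, 0, 0), (10, 0, 0, 0, 0), (10, 0, 0, 0, 0), (0, 0, 0, 0, 0), (0, 0, 0, 0, 0), (14, 0, 0, 0, 0), (14, 0, 0, 0, 0), (41, 0, 0, 0, 0), (41, 0, 0, 0, 0), (31, 0, 0, 0,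 0), (31, 0, 0, 0, 0), (14, 0, 0, 0, 0), (14, 0, 0, 0, 0), (16, 0, 0, 0, 0), (16, 0, 0, 0, 0), (10, 0, 0, 0, 0), (10, 0, 0, 0, 0), (41, 0, 0, 0, 0), (41, 0, 0, 0, 0), (16, 0, 0, 0, 0), (16, 0, 0, 0, 0), (18, 0, 0, 0, 0), (18, 0, 0, 0, 0), (27, 0, 0, 0, 0), (27, 0, 0, 0, 0), (35, 0, 0, 0, 0), (35, 0, 0, 0, 0), (18, 0, 0, 0, 0), (18, 0, 0, 0, 0), (37, 0, 0, 0, 0), (37, 0, 0, 0, 0), (42, 0, 0, 0, 0), (42, 0, 0, 0, 0), (27, 0, 0, 0, 0), (27, 0, 0, 0, 0), (37, 0, 0, 0, 0), (37, 0, 0, 0, 0), (44, 0, 0, 0, 0), (44, 0, 0, 0, 0), (35, 0, 0, 0, 0), (35, 0, 0, 0, 0), (42, 0, 0, 0, 0), (42, 0, 0, 0, 0), (44, 0, 0, 0, 0), (44, 0, 0, 0, 0), (1, 0, 0, 0, 0), (1, 0, 0, 0, 0), (6, 0, 0, 0, 0), (6, 0, 0, 0, 0), (32, 0, 0, 0, 0), (32, 0, 0, 0, 0), (1, 0, 0, 0, 0), (1, 0, 0, 0, 0), (38,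 0, 0, 0, 0), (38, 0, 0, 0, 0), (15, 0, 0, 0, 0), (15, 0, 0, 0, 0), (6, 0, 0, 0, 0), (6, 0, 0, 0, 0), (38, 0, 0, 0, 0), (38, 0, 0, 0, 0), (17, 0, 0, 0, 0), (17, 0, 0, 0, 0), (32, 0, 0, 0, 0), (32, 0, 0, 0, 0), (15, 0, 0, 0, 0), (15, 0, 0, 0, 0), (17, 0, 0, 0, 0), (17, 0, 0, 0, 0), (4, 0, 0, 0, 0), (4, 0, 0, 0, 0), (5, 0, 0, 0, 0), (5, 0, 0, 0, 0), (26, 0, 0, 0, 0), (26, 0, 0, 0, 0), (4, 0, 0, 0, 0), (4, 0, 0, 0, 0), (27, 0, 0, 0, 0), (27, 0, 0, 0, 0), (6, 0, 0, 0, 0), (6, 0, 0, 0, 0), (5, 0, 0, 0, 0), (5, 0, 0, 0, 0), (27, 0, 0, 0, 0), (27, 0, 0, 0, 0), (7, 0, 0, 0, 0), (7, 0, 0, 0, 0), (26, 0, 0, 0, 0), (26, 0, 0, 0, 0), (6, 0, 0, 0, 0), (6, 0, 0, 0, 0), (7, 0, 0, 0, 0), (7, 0, 0, 0, 0), (20, 0, 0, 0, 0), (20, 0, 0, 0, 0), (29, 0, 0, 0, 0), (29, 0, 0, 0, 0), (34, 0,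 0, 0, 0), (34, 0, 0, 0, 0), (20, 0, 0, 0, 0), (20, 0, 0, 0, 0), (37, 0, 0, 0, 0), (37, 0, 0, 0, 0), (38, 0, 0, 0, 0), (38, 0, 0, 0, 0), (29, 0, 0, 0, 0), (29, 0, 0, 0, 0), (37, 0, 0, 0, 0), (37, 0, 0, 0, 0), (39, 0, 0, 0, 0), (39, 0, 0, 0, 0), (34, 0, 0, 0, 0), (34, 0, 0, 0, 0), (38, 0, 0, 0, 0), (38, 0, 0, 0, 0), (39, 0, 0, 0, 0), (39, 0, 0, 0, 0), (0, 0, 0, 0, 0), (0, 0, 0, 0, 0), (31, 0, 0, 0, 0), (31, 0, 0, 0, 0), (10, 0, 0, 0, 0), (10, 0, 0, 0, 0), (0, 0, 0, 0, 0), (0, 0, 0, 0, 0), (14, 0, 0, 0, 0), (14, 0, 0, 0, 0), (41, 0, 0, 0, 0), (41, 0, 0, 0, 0), (31, 0, 0, 0, 0), (31, 0, 0, 0, 0), (14, 0, 0, 0, 0), (14, 0, 0, 0, 0), (16, 0, 0, 0, 0), (16, 0, 0, 0, 0), (10, 0, 0, 0, 0), (10, 0, 0, 0, 0), (41, 0, 0, 0, 0), (41, 0, 0, 0, 0), (16, 0, 0, 0, 0), (16, 0, 0, 0,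 0), (2, 0, 0, 0, 0), (2, 0, 0, 0, 0), (23, 0, 0, 0, 0), (23, 0, 0, 0, 0), (11, 0, 0, 0, 0), (11, 0, 0, 0, 0), (2, 0, 0, 0, 0), (2, 0, 0, 0, 0), (12, 0, 0, 0, 0), (12, 0, 0, 0, 0), (43, 0, 0, 0, 0), (43, 0, 0, 0, 0), (23, 0, 0, 0, 0), (23, 0, 0, 0, 0), (12, 0, 0, 0, 0), (12, 0, 0, 0, 0), (17, 0, 0, 0, 0), (17, 0, 0, 0, 0), (11, 0, 0, 0, 0), (11, 0, 0, 0, 0), (43, 0, 0, 0, 0), (43, 0, 0, 0, 0), (17, 0, 0, 0, 0), (17, 0, 0, 0, 0), (19, 0, 0, 0, 0), (19, 0, 0, 0, 0), (24, 0, 0, 0, 0), (24, 0, 0, 0, 0), (33, 0, 0, 0, 0), (33, 0, 0, 0, 0), (19, 0, 0, 0, 0), (19, 0, 0, 0, 0), (36, 0, 0, 0, 0), (36, 0, 0, 0, 0), (40, 0, 0, 0, 0), (40, 0, 0, 0, 0), (24, 0, 0, 0, 0), (24, 0, 0, 0, 0), (36, 0, 0, 0, 0), (36, 0, 0, 0, 0), (44, 0, 0, 0, 0), (44, 0, 0, 0, 0), (33, 0, 0, 0, 0), (33,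 0, 0, 0, 0), (40, 0, 0, 0, 0), (40, 0, 0, 0, 0), (44, 0, 0, 0, 0), (44, 0, 0, 0, 0), (28, 0, 0, 0, 0), (28, 0, 0, 0, 0), (29, 0, 0, 0, 0), (29, 0, 0, 0, 0), (30, 0, 0, 0, 0), (30, 0, 0, 0, 0), (28, 0, 0, 0, 0), (28, 0, 0, 0, 0), (31, 0, 0, 0, 0), (31, 0, 0, 0, 0), (32, 0, 0, 0, 0), (32, 0, 0, 0, 0), (29, 0, 0, 0, 0), (29, 0, 0, 0, 0), (31, 0, 0, 0, 0), (31, 0, 0, 0, 0), (33, 0, 0, 0, 0), (33, 0, 0, 0, 0), (30, 0, 0, 0, 0), (30, 0, 0, 0, 0), (32, 0, 0, 0, 0), (32, 0, 0, 0, 0), (33, 0, 0, 0, 0), (33, 0, 0, 0, 0), (21, 0, 0, 0, 0), (21, 0, 0, 0, 0), (5, 0, 0, 0, 0), (5, 0, 0, 0, 0), (9, 0, 0, 0, 0), (9, 0, 0, 0, 0), (21, 0, 0, 0, 0), (21, 0, 0, 0, 0), (14, 0, 0, 0, 0), (14, 0, 0, 0, 0), (15, 0, 0, 0, 0), (15, 0, 0, 0, 0), (5, 0, 0, 0, 0), (5, 0, 0, 0, 0), (14, 0, 0, 0,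 0), (14, 0, 0, 0, 0), (40, 0, 0, 0, 0), (40, 0, 0, 0, 0), (9, 0, 0, 0, 0), (9, 0, 0, 0, 0), (15, 0, 0, 0, 0), (15, 0, 0, 0, 0), (40, 0, 0, 0, 0), (40, 0, 0, 0, 0), (18, 0, 0, 0, 0), (18, 0, 0, 0, 0), (27, 0, 0, 0, 0), (27, 0, 0, 0, 0), (35, 0, 0, 0, 0), (35, 0, 0, 0, 0), (18, 0, 0, 0, 0), (18, 0, 0, 0, 0), (37, 0, 0, 0, 0), (37, 0, 0, 0, 0), (42, 0, 0, 0, 0), (42, 0, 0, 0, 0), (27, 0, 0, 0, 0), (27, 0, 0, 0, 0), (37, 0, 0, 0, 0), (37, 0, 0, 0, 0), (44, 0, 0, 0, 0), (44, 0, 0, 0, 0), (35, 0, 0, 0, 0), (35, 0, 0, 0, 0), (42, 0, 0, 0, 0), (42, 0, 0, 0, 0), (44, 0, 0, 0, 0), (44, 0, 0, 0, 0), (2, 0, 0, 0, 0), (2, 0, 0, 0, 0), (23, 0, 0, 0, 0), (23, 0, 0, 0, 0), (11, 0, 0, 0, 0), (11, 0, 0, 0, 0), (2, 0, 0, 0, 0), (2, 0, 0, 0, 0), (12, 0, 0, 0, 0), (12, 0, 0, 0, 0), (43,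 0, 0, 0, 0), (43, 0, 0, 0, 0), (23, 0, 0, 0, 0), (23, 0, 0, 0, 0), (12, 0, 0, 0, 0), (12, 0, 0, 0, 0), (17, 0, 0, 0, 0), (17, 0, 0, 0, 0), (11, 0, 0, 0, 0), (11, 0, 0, 0, 0), (43, 0, 0, 0, 0), (43, 0, 0, 0, 0), (17, 0, 0, 0, 0), (17, 0, 0, 0, 0), (3, 0, 0, 0, 0), (3, 0, 0, 0, 0), (25, 0, 0, 0, 0), (25, 0, 0, 0, 0), (7, 0, 0, 0, 0), (7, 0, 0, 0, 0), (3, 0, 0, 0, 0), (3, 0, 0, 0, 0), (13, 0, 0, 0, 0), (13, 0, 0, 0, 0), (39, 0, 0, 0, 0), (39, 0, 0, 0, 0), (25, 0, 0, 0, 0), (25, 0, 0, 0, 0), (13, 0, 0, 0, 0), (13, 0, 0, 0, 0), (16, 0, 0, 0, 0), (16, 0, 0, 0, 0), (7, 0, 0, 0, 0), (7, 0, 0, 0, 0), (39, 0, 0, 0, 0), (39, 0, 0, 0, 0), (16, 0, 0, 0, 0), (16, 0, 0, 0, 0), (8, 0, 0, 0, 0), (8, 0, 0, 0, 0), (34, 0, 0, 0, 0), (34, 0, 0, 0, 0), (9, 0, 0, 0, 0), (9, 0, 0, 0, 0),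 (8, 0, 0, 0, 0), (8, 0, 0, 0, 0), (10, 0, 0, 0, 0), (10, 0, 0, 0, 0), (35, 0, 0, 0, 0), (35, 0, 0, 0, 0), (34, 0, 0, 0, 0), (34, 0, 0, 0, 0), (10, 0, 0, 0, 0), (10, 0, 0, 0, 0), (11, 0, 0, 0, 0), (11, 0, 0, 0, 0), (9, 0, 0, 0, 0), (9, 0, 0, 0, 0), (35, 0, 0, 0, 0), (35, 0, 0, 0, 0), (11, 0, 0, 0, 0), (11, 0, 0, 0, 0), (22, 0, 0, 0, 0), (22, 0, 0, 0, 0), (26, 0, 0, 0, 0), (26, 0, 0, 0, 0), (30, 0, 0, 0, 0), (30, 0, 0, 0, 0), (22, 0, 0, 0, 0), (22, 0, 0, 0, 0), (41, 0, 0, 0, 0), (41, 0, 0, 0, 0), (42, 0, 0, 0, 0), (42, 0, 0, 0, 0), (26, 0, 0, 0, 0), (26, 0, 0, 0, 0), (41, 0, 0, 0, 0), (41, 0, 0, 0, 0), (43, 0, 0, 0, 0), (43, 0, 0, 0, 0), (30, 0, 0, 0, 0), (30, 0, 0, 0, 0), (42, 0, 0, 0, 0), (42, 0, 0, 0, 0), (43, 0, 0, 0, 0), (43, 0, 0, 0, 0), (1, 0, 0, 0, 0), (1, 0,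 0, 0, 0), (6, 0, 0, 0, 0), (6, 0, 0, 0, 0), (32, 0, 0, 0, 0), (32, 0, 0, 0, 0), (1, 0, 0, 0, 0), (1, 0, 0, 0, 0), (38, 0, 0, 0, 0), (38, 0, 0, 0, 0), (15, 0, 0, 0, 0), (15, 0, 0, 0, 0), (6, 0, 0, 0, 0), (6, 0, 0, 0, 0), (38, 0, 0, 0, 0), (38, 0, 0, 0, 0), (17, 0, 0, 0, 0), (17, 0, 0, 0, 0), (32, 0, 0, 0, 0), (32, 0, 0, 0, 0), (15, 0, 0, 0, 0), (15, 0, 0, 0, 0), (17, 0, 0, 0, 0), (17, 0, 0, 0, 0), (19, 0, 0, 0, 0), (19, 0, 0, 0, 0), (24, 0, 0, 0, 0), (24, 0, 0, 0, 0), (33, 0, 0, 0, 0), (33, 0, 0, 0, 0), (19, 0, 0, 0, 0), (19, 0, 0, 0, 0), (36, 0, 0, 0, 0), (36, 0, 0, 0, 0), (40, 0, 0, 0, 0), (40, 0, 0, 0, 0), (24, 0, 0, 0, 0), (24, 0, 0, 0, 0), (36, 0, 0, 0, 0), (36, 0, 0, 0, 0), (44, 0, 0, 0, 0), (44, 0, 0, 0, 0), (33, 0, 0, 0, 0), (33, 0, 0, 0, 0), (40, 0, 0, 0, 0),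 (40, 0, 0, 0, 0), (44, 0, 0, 0, 0), (44, 0, 0, 0, 0), (3, 0, 0, 0, 0), (3, 0, 0, 0, 0), (25, 0, 0, 0, 0), (25, 0, 0, 0, 0), (7, 0, 0, 0, 0), (7, 0, 0, 0, 0), (3, 0, 0, 0, 0), (3, 0, 0, 0, 0), (13, 0, 0, 0, 0), (13, 0, 0, 0, 0), (39, 0, 0, 0, 0), (39, 0, 0, 0, 0), (25, 0, 0, 0, 0), (25, 0, 0, 0, 0), (13, 0, 0, 0, 0), (13, 0, 0, 0, 0), (16, 0, 0, 0, 0), (16, 0, 0, 0, 0), (7, 0, 0, 0, 0), (7, 0, 0, 0, 0), (39, 0, 0, 0, 0), (39, 0, 0, 0, 0), (16, 0, 0, 0, 0), (16, 0, 0, 0, 0)]]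

theorem tr37 : trK keys lk37 kl37 = true := by
  decide +kernel

theorem x37_0 : expB 0 6 dg1 dg12 m37_0 (l37_0 ++ z37_0) w37_0 = true := by
  decide +kernel

theorem t37_0_0 : chkS lk37 0 6 [(1, m37_0)] l37_0
  [(0, 16, 16, 5517840, 5517840), (4, 16, 16, 4534800, 4534800), (4, 16, 16, 5514000, 5514000), (3, 16, 16, 5517840, 5517840), (1, 16, 16, 5514000, 5514000), (6, 16, 16, 5517825, 5517825), (6, 16, 16, 4526115, 4522290), (5, 16, 16, 5517825, 5517825), (6, 16, 16, 4530960, 4530960), (5, 1, 1, 152625, 3281925), (4, 16, 16, 4526130, 4526130), (2, 16, 16, 5448720, 5391120), (6, 16, 16, 5505330, 5509155), (5, 16, 16, 5514000, 5514000), (4, 16, 16, 5509155, 5505330), (2, 16, 16, 3490305, 4411905), (3, 16, 16, 5509170, 5509170), (5, 1, 1, 143700, 1061925)]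
  [(0, 2304), (1, -2304), (2, 4608), (3, 4608), (4, -9216), (5, -9216), (6, 9216)] = true := by
  decide +kernel

section

variable {κ ι : Type*} [Fintype κ] [Fintype ι] [Inhabited κ] [Inhabited ι]

noncomputable def F37_0 (E : Env κ ι) : (Fin 0 → κ) → (Fin 6 → ι) → ℝ := op2 (P1 κ) (P12 ι) (fB E 0 6 m37_0)

def r37_0_0 : List (ℕ × ℤ) := [(0, 2304), (1, -2304), (2, 4608), (3, 4608), (4, -9216), (5, -9216), (6, 9216)]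

theorem h37_0_0 (E : Env κ ι) : ip (F37_0 E) (F37_0 E) = dotS (ek E lk37) r37_0_0 :=
  op_entryZ E lk37 0 6 _ _ _ _ (pg1 κ) (pg12 ι) m37_0 m37_0 l37_0 z37_0 w37_0 x37_0 (by decide) _ (chkS_sound E lk37 0 6 _ _ _ _ t37_0_0)

theorem row37_0 (E : Env κ ι) : RowG (ek E lk37) (F37_0 E) [F37_0 E] [r37_0_0] :=
  rowG_cons _ _ _ _ _ _ (h37_0_0 E) (rowG_nil _ _)

def tab37 : List (List (List (ℕ × ℤ))) := [[r37_0_0]]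

theorem tri37 (E : Env κ ι) : TriG (ek E lk37) [F37_0 E] tab37 := by
  refine triG_cons _ _ _ _ _ (row37_0 E) ?_
  exact triG_nil _

end

def lk38 : List Key := [
  (2, 4, [(0, [0], [0, 1]), (0, [1], [2, 3]), (0, [0], [2, 3]), (0, [1], [0, 1])]),
  (2, 5, [(0, [0], [0, 1]), (0, [0], [2, 3]), (0, [1], [0, 1]), (0, [1], [2, 4]), (1, [], [3, 4])]),
  (2, 6, [(0, [0], [0, 1]), (0, [0], [2, 3]), (0, [1], [4, 1]), (0, [1], [2, 5]), (1, [], [3, 5]), (1, [], [0, 4])])]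

def kl38 : List ℕ := [2, 49, 65]

def m38_0 : Base := (0, 2, [(0, [0], [0, 1]), (0, [1], [0, 1])])

def l38_0 : Cov := [(4, 0, 2, [(0, [0], [0, 1]), (0, [1], [0, 1])])]

def z38_0 : Cov := []

def w38_0 : List (List Wit) := [[(0, 0, 0, 16, 16)],
  [(0, 0, 0, 16, 16)]]

def m38_1 : Base := (0, 3, [(0, [0], [0, 1]), (0, [1], [0, 2]), (1, [], [1, 2])])

def l38_1 : Cov := [(4, 0, 3, [(0, [0], [0, 1]), (0, [1], [0, 2]), (1, [], [1, 2])])]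

def z38_1 : Cov := []

def w38_1 : List (List Wit) := [[(0, 0, 0, 528, 528)],
  [(0, 0, 0, 288, 288)]]

theorem tr38 : trK keys lk38 kl38 = true := by
  decide +kernel

theorem x38_0 : expB 2 0 dg2 dg1 m38_0 (l38_0 ++ z38_0) w38_0 = true := by
  decide +kernel

theorem x38_1 : expB 2 0 dg2 dg1 m38_1 (l38_1 ++ z38_1) w38_1 = true := by
  decide +kernel

theorem t38_0_0 : chkS lk38 2 0 [(1, m38_0)] l38_0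
  [(0, 16, 16, 12816, 12816)]
  [(0, 4)] = true := by
  decide +kernel

theorem t38_0_1 : chkS lk38 2 0 [(1, m38_0)] l38_1
  [(1, 16, 16, 274960, 274960)]
  [(1, 4)] = true := by
  decide +kernel

theorem t38_1_1 : chkS lk38 2 0 [(1, m38_1)] l38_1
  [(2, 16, 16, 5448705, 5391105)]
  [(2, 4)] = true := by
  decide +kernel

section

variable {κ ι : Type*} [Fintype κ] [Fintype ι] [Inhabited κ] [Inhabited ι]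

noncomputable def F38_0 (E : Env κ ι) : (Fin 2 → κ) → (Fin 0 → ι) → ℝ := op2 (P2 κ) (P1 ι) (fB E 2 0 m38_0)

noncomputable def F38_1 (E : Env κ ι) : (Fin 2 → κ) → (Fin 0 → ι) → ℝ := op2 (P2 κ) (P1 ι) (fB E 2 0 m38_1)

def r38_0_0 : List (ℕ × ℤ) := [(0, 4)]

theorem h38_0_0 (E : Env κ ι) : ip (F38_0 E) (F38_0 E) = dotS (ek E lk38) r38_0_0 :=
  op_entryZ E lk38 2 0 _ _ _ _ (pg2 κ) (pg1 ι) m38_0 m38_0 l38_0 z38_0 w38_0 x38_0 (by decide) _ (chkS_sound E lk38 2 0 _ _ _ _ t38_0_0)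

def r38_0_1 : List (ℕ × ℤ) := [(1, 4)]

theorem h38_0_1 (E : Env κ ι) : ip (F38_0 E) (F38_1 E) = dotS (ek E lk38) r38_0_1 :=
  op_entryZ E lk38 2 0 _ _ _ _ (pg2 κ) (pg1 ι) m38_0 m38_1 l38_1 z38_1 w38_1 x38_1 (by decide) _ (chkS_sound E lk38 2 0 _ _ _ _ t38_0_1)

def r38_1_1 : List (ℕ × ℤ) := [(2, 4)]

theorem h38_1_1 (E : Env κ ι) : ip (F38_1 E) (F38_1 E) = dotS (ek E lk38) r38_1_1 :=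
  op_entryZ E lk38 2 0 _ _ _ _ (pg2 κ) (pg1 ι) m38_1 m38_1 l38_1 z38_1 w38_1 x38_1 (by decide) _ (chkS_sound E lk38 2 0 _ _ _ _ t38_1_1)

theorem row38_0 (E : Env κ ι) : RowG (ek E lk38) (F38_0 E) [F38_0 E, F38_1 E] [r38_0_0, r38_0_1] :=
  rowG_cons _ _ _ _ _ _ (h38_0_0 E) (rowG_cons _ _ _ _ _ _ (h38_0_1 E) (rowG_nil _ _))

theorem row38_1 (E : Env κ ι) : RowG (ek E lk38) (F38_1 E) [F38_1 E] [r38_1_1] :=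
  rowG_cons _ _ _ _ _ _ (h38_1_1 E) (rowG_nil _ _)

def tab38 : List (List (List (ℕ × ℤ))) := [[r38_0_0, r38_0_1], [r38_1_1]]

theorem tri38 (E : Env κ ι) : TriG (ek E lk38) [F38_0 E, F38_1 E] tab38 := by
  refine triG_cons _ _ _ _ _ (row38_0 E) ?_
  refine triG_cons _ _ _ _ _ (row38_1 E) ?_
  exact triG_nil _

end

def lk39 : List Key := [
  (2, 4, [(0, [0], [0, 1]), (0, [1], [2, 3]), (0, [1], [0, 2]), (0, [0], [1, 3])]),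
  (2, 4, [(0, [0], [0, 1]), (0, [0], [2, 3]), (0, [1], [0, 2]), (0, [1], [1, 3])]),
  (2, 6, [(0, [0], [0, 1]), (0, [0], [0, 1]), (0, [1], [2, 3]), (0, [1], [4, 5]), (1, [], [4, 5]), (1, [], [2, 3])]),
  (2, 6, [(0, [0], [0, 1]), (0, [1], [2, 3]), (0, [0], [2, 3]), (0, [1], [0, 1]), (1, [], [4, 5]), (1, [], [4, 5])]),
  (2, 6, [(0, [0], [0, 1]), (0, [1], [2, 3]), (0, [0], [2, 4]), (0, [1], [0, 5]), (1, [], [4, 5]), (1, [], [1, 3])]),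
  (2, 6, [(0, [0], [0, 1]), (0, [1], [2, 3]), (0, [0], [2, 4]), (0, [1], [0, 5]), (1, [], [3, 5]), (1, [], [1, 4])]),
  (2, 5, [(0, [0], [0, 1]), (0, [1], [0, 2]), (0, [0], [2, 3]), (0, [1], [1, 4]), (1, [], [3, 4])]),
  (2, 5, [(0, [0], [0, 1]), (0, [0], [2, 3]), (0, [1], [2, 4]), (0, [1], [0, 4]), (1, [], [1, 3])]),
  (2, 5, [(0, [0], [0, 1]), (0, [0], [0, 2]), (0, [1], [1, 2]), (0, [1], [3, 4]), (1, [], [3, 4])]),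
  (2, 6, [(0, [0], [0, 1]), (0, [0], [2, 0]), (0, [1], [3, 1]), (0, [1], [4, 5]), (1, [], [4, 5]), (1, [], [2, 3])]),
  (2, 6, [(0, [0], [0, 1]), (0, [0], [2, 0]), (0, [1], [3, 1]), (0, [1], [4, 5]), (1, [], [2, 4]), (1, [], [3, 5])]),
  (2, 6, [(0, [0], [0, 1]), (0, [0], [2, 0]), (0, [1], [3, 1]), (0, [1], [2, 4]), (1, [], [4, 5]), (1, [], [3, 5])]),
  (2, 5, [(0, [0], [0, 1]), (0, [0], [2, 0]), (0, [1], [3, 1]), (0, [1], [3, 4]), (1, [], [2, 4])]),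
  (2, 6, [(0, [0], [0, 1]), (0, [0], [2, 3]), (0, [1], [0, 1]), (0, [1], [4, 5]), (1, [], [4, 5]), (1, [], [2, 3])]),
  (2, 6, [(0, [0], [0, 1]), (0, [0], [2, 3]), (0, [1], [0, 1]), (0, [1], [4, 5]), (1, [], [2, 4]), (1, [], [3, 5])]),
  (2, 6, [(0, [0], [0, 1]), (0, [0], [2, 3]), (0, [1], [0, 1]), (0, [1], [2, 4]), (1, [], [4, 5]), (1, [], [3, 5])]),
  (2, 5, [(0, [0], [0, 1]), (0, [0], [2, 3]), (0, [1], [0, 1]), (0, [1], [2, 4]), (1, [], [3, 4])]),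
  (2, 6, [(0, [0], [0, 1]), (0, [0], [2, 3]), (0, [1], [1, 3]), (0, [1], [4, 5]), (1, [], [4, 5]), (1, [], [0, 2])]),
  (2, 6, [(0, [0], [0, 1]), (0, [0], [2, 3]), (0, [1], [1, 3]), (0, [1], [4, 5]), (1, [], [0, 4]), (1, [], [2, 5])]),
  (2, 6, [(0, [0], [0, 1]), (0, [0], [2, 3]), (0, [1], [1, 3]), (0, [1], [0, 4]), (1, [], [4, 5]), (1, [], [2, 5])]),
  (2, 6, [(0, [0], [0, 1]), (0, [0], [2, 1]), (0, [1], [3, 4]), (0, [1], [3, 5]), (1, [], [0, 5]), (1, [], [2, 4])])]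

def kl39 : List ℕ := [5, 6, 14, 16, 21, 23, 28, 29, 32, 40, 41, 42, 44, 46, 47, 48, 49, 50, 51, 52, 62]

def m39_0 : Base := (0, 2, [(0, [0], [2, 3]), (0, [1], [2, 3]), (1, [], [0, 1])])

def l39_0 : Cov := [(16, 0, 2, [(0, [0], [2, 3]), (0, [1], [2, 3]), (1, [], [0, 1])])]

def z39_0 : Cov := []

def w39_0 : List (List Wit) := [[(0, 0, 0, 16, 16), (0, 0, 0, 16, 16)],
  [(0, 0, 0, 16, 16), (0, 0, 0, 16, 16)]]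

def m39_1 : Base := (0, 2, [(0, [0], [2, 3]), (0, [1], [0, 2]), (1, [], [1, 3])])

def l39_1 : Cov := [(4, 0, 2, [(0, [0], [2, 3]), (0, [1], [0, 2]), (1, [], [1, 3])]),
  (4, 0, 2, [(0, [0], [2, 3]), (0, [1], [1, 2]), (1, [], [0, 3])]),
  (4, 0, 2, [(0, [1], [2, 3]), (0, [0], [0, 2]), (1, [], [1, 3])]),
  (4, 0, 2, [(0, [1], [2, 3]), (0, [0], [1, 2]), (1, [], [0, 3])])]

def z39_1 : Cov := []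

def w39_1 : List (List Wit) := [[(0, 0, 0, 16, 16), (1, 0, 0, 16, 16)],
  [(2, 0, 0, 16, 16), (3, 0, 0, 16, 16)]]

def m39_2 : Base := (0, 2, [(0, [0], [2, 3]), (0, [1], [0, 1]), (1, [], [2, 3])])

def l39_2 : Cov := [(8, 0, 2, [(0, [0], [2, 3]), (0, [1], [0, 1]), (1, [], [2, 3])]),
  (8, 0, 2, [(0, [1], [2, 3]), (0, [0], [0, 1]), (1, [], [2, 3])])]

def z39_2 : Cov := []

def w39_2 : List (List Wit) := [[(0, 0, 0, 16, 16), (0, 0, 0, 16, 16)],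
  [(1, 0, 0, 16, 16), (1, 0, 0, 16, 16)]]

def m39_3 : Base := (0, 1, [(0, [0], [0, 2]), (0, [1], [1, 2])])

def l39_3 : Cov := [(8, 0, 1, [(0, [0], [0, 2]), (0, [1], [1, 2])]),
  (8, 0, 1, [(0, [0], [1, 2]), (0, [1], [0, 2])])]

def z39_3 : Cov := []

def w39_3 : List (List Wit) := [[(0, 0, 0, 0, 0), (1, 0, 0, 0, 0)],
  [(1, 0, 0, 0, 0), (0, 0, 0, 0, 0)]]

def m39_4 : Base := (0, 2, [(0, [0], [0, 2]), (0, [1], [1, 3]), (1, [], [2, 3])])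

def l39_4 : Cov := [(8, 0, 2, [(0, [0], [0, 2]), (0, [1], [1, 3]), (1, [], [2, 3])]),
  (8, 0, 2, [(0, [0], [1, 2]), (0, [1], [0, 3]), (1, [], [2, 3])])]

def z39_4 : Cov := []

def w39_4 : List (List Wit) := [[(0, 0, 0, 16, 16), (1, 0, 0, 16, 16)],
  [(1, 0, 0, 1, 1), (0, 0, 0, 1, 1)]]

theorem tr39 : trK keys lk39 kl39 = true := by
  decide +kernel

theorem x39_0 : expB 2 2 dg2 dg2 m39_0 (l39_0 ++ z39_0) w39_0 = true := by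
  decide +kernel

theorem x39_1 : expB 2 2 dg2 dg2 m39_1 (l39_1 ++ z39_1) w39_1 = true := by
  decide +kernel

theorem x39_2 : expB 2 2 dg2 dg2 m39_2 (l39_2 ++ z39_2) w39_2 = true := by
  decide +kernel

theorem x39_3 : expB 2 2 dg2 dg2 m39_3 (l39_3 ++ z39_3) w39_3 = true := by
  decide +kernel

theorem x39_4 : expB 2 2 dg2 dg2 m39_4 (l39_4 ++ z39_4) w39_4 = true := by
  decide +kernel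

theorem t39_0_0 : chkS lk39 2 2 [(1, m39_0)] l39_0
  [(3, 16, 16, 3280980, 1070130)]
  [(3, 16)] = true := by
  decide +kernel

theorem t39_0_1 : chkS lk39 2 2 [(1, m39_0)] l39_1
  [(15, 16, 16, 3280980, 1070130), (15, 16, 16, 3280965, 87090), (15, 16, 16, 4329555, 1377330), (15, 16, 16, 4329525, 332850)]
  [(15, 16)] = true := by
  decide +kernel

theorem t39_0_2 : chkS lk39 2 2 [(1, m39_0)] l39_2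
  [(13, 16, 16, 3280980, 1070130), (13, 16, 16, 5509170, 5509170)]
  [(13, 16)] = true := by
  decide +kernel

theorem t39_0_3 : chkS lk39 2 2 [(1, m39_0)] l39_3
  [(16, 16, 16, 135235, 66610), (16, 16, 16, 135220, 5170)]
  [(16, 16)] = true := by
  decide +kernel

theorem t39_0_4 : chkS lk39 2 2 [(1, m39_0)] l39_4
  [(14, 16, 16, 5443650, 5324850), (14, 16, 16, 5443620, 5259570)]
  [(14, 16)] = true := by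
  decide +kernel

theorem t39_1_1 : chkS lk39 2 2 [(1, m39_1)] l39_1
  [(11, 1, 1, 4338000, 1389600), (4, 16, 16, 4329525, 332850), (19, 1, 1, 2310225, 1262850), (5, 16, 16, 3280965, 87090)]
  [(4, 4), (5, 4), (11, 4), (19, 4)] = true := by
  decide +kernel

theorem t39_1_2 : chkS lk39 2 2 [(1, m39_1)] l39_2
  [(9, 1, 1, 5517600, 5517600), (17, 16, 16, 5505315, 5505315)]
  [(9, 8), (17, 8)] = true := by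
  decide +kernel

theorem t39_1_3 : chkS lk39 2 2 [(1, m39_1)] l39_3
  [(6, 1, 1, 147760, 201760), (7, 16, 16, 135220, 5170)]
  [(6, 8), (7, 8)] = true := by
  decide +kernel

theorem t39_1_4 : chkS lk39 2 2 [(1, m39_1)] l39_4
  [(18, 16, 16, 5374275, 5309475), (10, 1, 1, 2371920, 1324320)]
  [(10, 8), (18, 8)] = true := by
  decide +kernel

theorem t39_2_2 : chkS lk39 2 2 [(1, m39_2)] l39_2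
  [(2, 1, 1, 5517840, 5517840), (13, 1, 1, 3298320, 3298320)]
  [(2, 8), (13, 8)] = true := by
  decide +kernel

theorem t39_2_3 : chkS lk39 2 2 [(1, m39_2)] l39_3
  [(8, 1, 1, 148225, 205825), (8, 1, 1, 148240, 205840)]
  [(8, 16)] = true := by
  decide +kernel

theorem t39_2_4 : chkS lk39 2 2 [(1, m39_2)] l39_4
  [(9, 1, 1, 2315265, 3294465), (9, 1, 1, 2315280, 3294480)]
  [(9, 16)] = true := by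
  decide +kernel

theorem t39_3_3 : chkS lk39 2 2 [(1, m39_3)] l39_3
  [(0, 16, 16, 12321, 12546), (1, 16, 16, 8496, 4896)]
  [(0, 8), (1, 8)] = true := by
  decide +kernel

theorem t39_3_4 : chkS lk39 2 2 [(1, m39_3)] l39_4
  [(12, 16, 16, 270640, 267040), (6, 16, 16, 274465, 274690)]
  [(6, 8), (12, 8)] = true := by
  decide +kernel

theorem t39_4_4 : chkS lk39 2 2 [(1, m39_4)] l39_4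
  [(20, 16, 16, 4345905, 3478530), (4, 16, 16, 5517600, 5517600)]
  [(4, 8), (20, 8)] = true := by
  decide +kernel

section

variable {κ ι : Type*} [Fintype κ] [Fintype ι] [Inhabited κ] [Inhabited ι]

noncomputable def F39_0 (E : Env κ ι) : (Fin 2 → κ) → (Fin 2 → ι) → ℝ := op2 (P2 κ) (P2 ι) (fB E 2 2 m39_0)

noncomputable def F39_1 (E : Env κ ι) : (Fin 2 → κ) → (Fin 2 → ι) → ℝ := op2 (P2 κ) (P2 ι) (fB E 2 2 m39_1)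

noncomputable def F39_2 (E : Env κ ι) : (Fin 2 → κ) → (Fin 2 → ι) → ℝ := op2 (P2 κ) (P2 ι) (fB E 2 2 m39_2)

noncomputable def F39_3 (E : Env κ ι) : (Fin 2 → κ) → (Fin 2 → ι) → ℝ := op2 (P2 κ) (P2 ι) (fB E 2 2 m39_3)

noncomputable def F39_4 (E : Env κ ι) : (Fin 2 → κ) → (Fin 2 → ι) → ℝ := op2 (P2 κ) (P2 ι) (fB E 2 2 m39_4)

def r39_0_0 : List (ℕ × ℤ) := [(3, 16)]

theorem h39_0_0 (E : Env κ ι) : ip (F39_0 E) (F39_0 E) = dotS (ek E lk39) r39_0_0 :=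
  op_entryZ E lk39 2 2 _ _ _ _ (pg2 κ) (pg2 ι) m39_0 m39_0 l39_0 z39_0 w39_0 x39_0 (by decide) _ (chkS_sound E lk39 2 2 _ _ _ _ t39_0_0)

def r39_0_1 : List (ℕ × ℤ) := [(15, 16)]

theorem h39_0_1 (E : Env κ ι) : ip (F39_0 E) (F39_1 E) = dotS (ek E lk39) r39_0_1 :=
  op_entryZ E lk39 2 2 _ _ _ _ (pg2 κ) (pg2 ι) m39_0 m39_1 l39_1 z39_1 w39_1 x39_1 (by decide) _ (chkS_sound E lk39 2 2 _ _ _ _ t39_0_1)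

def r39_0_2 : List (ℕ × ℤ) := [(13, 16)]

theorem h39_0_2 (E : Env κ ι) : ip (F39_0 E) (F39_2 E) = dotS (ek E lk39) r39_0_2 :=
  op_entryZ E lk39 2 2 _ _ _ _ (pg2 κ) (pg2 ι) m39_0 m39_2 l39_2 z39_2 w39_2 x39_2 (by decide) _ (chkS_sound E lk39 2 2 _ _ _ _ t39_0_2)

def r39_0_3 : List (ℕ × ℤ) := [(16, 16)]

theorem h39_0_3 (E : Env κ ι) : ip (F39_0 E) (F39_3 E) = dotS (ek E lk39) r39_0_3 :=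
  op_entryZ E lk39 2 2 _ _ _ _ (pg2 κ) (pg2 ι) m39_0 m39_3 l39_3 z39_3 w39_3 x39_3 (by decide) _ (chkS_sound E lk39 2 2 _ _ _ _ t39_0_3)

def r39_0_4 : List (ℕ × ℤ) := [(14, 16)]

theorem h39_0_4 (E : Env κ ι) : ip (F39_0 E) (F39_4 E) = dotS (ek E lk39) r39_0_4 :=
  op_entryZ E lk39 2 2 _ _ _ _ (pg2 κ) (pg2 ι) m39_0 m39_4 l39_4 z39_4 w39_4 x39_4 (by decide) _ (chkS_sound E lk39 2 2 _ _ _ _ t39_0_4)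

def r39_1_1 : List (ℕ × ℤ) := [(4, 4), (5, 4), (11, 4), (19, 4)]

theorem h39_1_1 (E : Env κ ι) : ip (F39_1 E) (F39_1 E) = dotS (ek E lk39) r39_1_1 :=
  op_entryZ E lk39 2 2 _ _ _ _ (pg2 κ) (pg2 ι) m39_1 m39_1 l39_1 z39_1 w39_1 x39_1 (by decide) _ (chkS_sound E lk39 2 2 _ _ _ _ t39_1_1)

def r39_1_2 : List (ℕ × ℤ) := [(9, 8), (17, 8)]

theorem h39_1_2 (E : Env κ ι) : ip (F39_1 E) (F39_2 E) = dotS (ek E lk39) r39_1_2 :=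
  op_entryZ E lk39 2 2 _ _ _ _ (pg2 κ) (pg2 ι) m39_1 m39_2 l39_2 z39_2 w39_2 x39_2 (by decide) _ (chkS_sound E lk39 2 2 _ _ _ _ t39_1_2)

def r39_1_3 : List (ℕ × ℤ) := [(6, 8), (7, 8)]

theorem h39_1_3 (E : Env κ ι) : ip (F39_1 E) (F39_3 E) = dotS (ek E lk39) r39_1_3 :=
  op_entryZ E lk39 2 2 _ _ _ _ (pg2 κ) (pg2 ι) m39_1 m39_3 l39_3 z39_3 w39_3 x39_3 (by decide) _ (chkS_sound E lk39 2 2 _ _ _ _ t39_1_3)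

def r39_1_4 : List (ℕ × ℤ) := [(10, 8), (18, 8)]

theorem h39_1_4 (E : Env κ ι) : ip (F39_1 E) (F39_4 E) = dotS (ek E lk39) r39_1_4 :=
  op_entryZ E lk39 2 2 _ _ _ _ (pg2 κ) (pg2 ι) m39_1 m39_4 l39_4 z39_4 w39_4 x39_4 (by decide) _ (chkS_sound E lk39 2 2 _ _ _ _ t39_1_4)

def r39_2_2 : List (ℕ × ℤ) := [(2, 8), (13, 8)]

theorem h39_2_2 (E : Env κ ι) : ip (F39_2 E) (F39_2 E) = dotS (ek E lk39) r39_2_2 :=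
  op_entryZ E lk39 2 2 _ _ _ _ (pg2 κ) (pg2 ι) m39_2 m39_2 l39_2 z39_2 w39_2 x39_2 (by decide) _ (chkS_sound E lk39 2 2 _ _ _ _ t39_2_2)

def r39_2_3 : List (ℕ × ℤ) := [(8, 16)]

theorem h39_2_3 (E : Env κ ι) : ip (F39_2 E) (F39_3 E) = dotS (ek E lk39) r39_2_3 :=
  op_entryZ E lk39 2 2 _ _ _ _ (pg2 κ) (pg2 ι) m39_2 m39_3 l39_3 z39_3 w39_3 x39_3 (by decide) _ (chkS_sound E lk39 2 2 _ _ _ _ t39_2_3)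

def r39_2_4 : List (ℕ × ℤ) := [(9, 16)]

theorem h39_2_4 (E : Env κ ι) : ip (F39_2 E) (F39_4 E) = dotS (ek E lk39) r39_2_4 :=
  op_entryZ E lk39 2 2 _ _ _ _ (pg2 κ) (pg2 ι) m39_2 m39_4 l39_4 z39_4 w39_4 x39_4 (by decide) _ (chkS_sound E lk39 2 2 _ _ _ _ t39_2_4)

def r39_3_3 : List (ℕ × ℤ) := [(0, 8), (1, 8)]

theorem h39_3_3 (E : Env κ ι) : ip (F39_3 E) (F39_3 E) = dotS (ek E lk39) r39_3_3 :=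
  op_entryZ E lk39 2 2 _ _ _ _ (pg2 κ) (pg2 ι) m39_3 m39_3 l39_3 z39_3 w39_3 x39_3 (by decide) _ (chkS_sound E lk39 2 2 _ _ _ _ t39_3_3)

def r39_3_4 : List (ℕ × ℤ) := [(6, 8), (12, 8)]

theorem h39_3_4 (E : Env κ ι) : ip (F39_3 E) (F39_4 E) = dotS (ek E lk39) r39_3_4 :=
  op_entryZ E lk39 2 2 _ _ _ _ (pg2 κ) (pg2 ι) m39_3 m39_4 l39_4 z39_4 w39_4 x39_4 (by decide) _ (chkS_sound E lk39 2 2 _ _ _ _ t39_3_4)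

def r39_4_4 : List (ℕ × ℤ) := [(4, 8), (20, 8)]

theorem h39_4_4 (E : Env κ ι) : ip (F39_4 E) (F39_4 E) = dotS (ek E lk39) r39_4_4 :=
  op_entryZ E lk39 2 2 _ _ _ _ (pg2 κ) (pg2 ι) m39_4 m39_4 l39_4 z39_4 w39_4 x39_4 (by decide) _ (chkS_sound E lk39 2 2 _ _ _ _ t39_4_4)

theorem row39_0 (E : Env κ ι) : RowG (ek E lk39) (F39_0 E) [F39_0 E, F39_1 E, F39_2 E, F39_3 E, F39_4 E] [r39_0_0, r39_0_1, r39_0_2, r39_0_3, r39_0_4] :=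
  rowG_cons _ _ _ _ _ _ (h39_0_0 E) (rowG_cons _ _ _ _ _ _ (h39_0_1 E) (rowG_cons _ _ _ _ _ _ (h39_0_2 E) (rowG_cons _ _ _ _ _ _ (h39_0_3 E) (rowG_cons _ _ _ _ _ _ (h39_0_4 E) (rowG_nil _ _)))))

theorem row39_1 (E : Env κ ι) : RowG (ek E lk39) (F39_1 E) [F39_1 E, F39_2 E, F39_3 E, F39_4 E] [r39_1_1, r39_1_2, r39_1_3, r39_1_4] :=
  rowG_cons _ _ _ _ _ _ (h39_1_1 E) (rowG_cons _ _ _ _ _ _ (h39_1_2 E) (rowG_cons _ _ _ _ _ _ (h39_1_3 E) (rowG_cons _ _ _ _ _ _ (h39_1_4 E) (rowG_nil _ _))))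

theorem row39_2 (E : Env κ ι) : RowG (ek E lk39) (F39_2 E) [F39_2 E, F39_3 E, F39_4 E] [r39_2_2, r39_2_3, r39_2_4] :=
  rowG_cons _ _ _ _ _ _ (h39_2_2 E) (rowG_cons _ _ _ _ _ _ (h39_2_3 E) (rowG_cons _ _ _ _ _ _ (h39_2_4 E) (rowG_nil _ _)))

theorem row39_3 (E : Env κ ι) : RowG (ek E lk39) (F39_3 E) [F39_3 E, F39_4 E] [r39_3_3, r39_3_4] :=
  rowG_cons _ _ _ _ _ _ (h39_3_3 E) (rowG_cons _ _ _ _ _ _ (h39_3_4 E) (rowG_nil _ _))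

theorem row39_4 (E : Env κ ι) : RowG (ek E lk39) (F39_4 E) [F39_4 E] [r39_4_4] :=
  rowG_cons _ _ _ _ _ _ (h39_4_4 E) (rowG_nil _ _)

def tab39 : List (List (List (ℕ × ℤ))) := [[r39_0_0, r39_0_1, r39_0_2, r39_0_3, r39_0_4], [r39_1_1, r39_1_2, r39_1_3, r39_1_4], [r39_2_2, r39_2_3, r39_2_4], [r39_3_3, r39_3_4], [r39_4_4]]

theorem tri39 (E : Env κ ι) : TriG (ek E lk39) [F39_0 E, F39_1 E, F39_2 E, F39_3 E, F39_4 E] tab39 := by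
  refine triG_cons _ _ _ _ _ (row39_0 E) ?_
  refine triG_cons _ _ _ _ _ (row39_1 E) ?_
  refine triG_cons _ _ _ _ _ (row39_2 E) ?_
  refine triG_cons _ _ _ _ _ (row39_3 E) ?_
  refine triG_cons _ _ _ _ _ (row39_4 E) ?_
  exact triG_nil _

end

def lk40 : List Key := [
  (2, 6, [(0, [0], [0, 1]), (0, [0], [0, 1]), (0, [1], [2, 3]), (0, [1], [4, 5]), (1, [], [4, 5]), (1, [], [2, 3])]),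
  (2, 6, [(0, [0], [0, 1]), (0, [1], [2, 3]), (0, [0], [2, 4]), (0, [1], [0, 5]), (1, [], [4, 5]), (1, [], [1, 3])]),
  (2, 6, [(0, [0], [0, 1]), (0, [1], [2, 3]), (0, [0], [2, 4]), (0, [1], [0, 5]), (1, [], [3, 5]), (1, [], [1, 4])]),
  (2, 6, [(0, [0], [0, 1]), (0, [0], [2, 0]), (0, [1], [3, 1]), (0, [1], [4, 5]), (1, [], [4, 5]), (1, [], [2, 3])]),
  (2, 6, [(0, [0], [0, 1]), (0, [0], [2, 0]), (0, [1], [3, 1]), (0, [1], [2, 4]), (1, [], [4, 5]), (1, [], [3, 5])]),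
  (2, 6, [(0, [0], [0, 1]), (0, [0], [2, 3]), (0, [1], [0, 1]), (0, [1], [4, 5]), (1, [], [4, 5]), (1, [], [2, 3])]),
  (2, 6, [(0, [0], [0, 1]), (0, [0], [2, 3]), (0, [1], [1, 3]), (0, [1], [4, 5]), (1, [], [4, 5]), (1, [], [0, 2])]),
  (2, 6, [(0, [0], [0, 1]), (0, [0], [2, 3]), (0, [1], [1, 3]), (0, [1], [0, 4]), (1, [], [4, 5]), (1, [], [2, 5])])]

def kl40 : List ℕ := [14, 21, 23, 40, 42, 46, 50, 52]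

def m40_0 : Base := (0, 2, [(0, [0], [2, 3]), (0, [1], [0, 2]), (1, [], [1, 3])])

def l40_0 : Cov := [(4, 0, 2, [(0, [0], [2, 3]), (0, [1], [0, 2]), (1, [], [1, 3])]),
  (4, 0, 2, [(0, [0], [2, 3]), (0, [1], [1, 2]), (1, [], [0, 3])]),
  (-4, 0, 2, [(0, [1], [2, 3]), (0, [0], [0, 2]), (1, [], [1, 3])]),
  (-4, 0, 2, [(0, [1], [2, 3]), (0, [0], [1, 2]), (1, [], [0, 3])])]

def z40_0 : Cov := []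

def w40_0 : List (List Wit) := [[(0, 0, 0, 16, 16), (1, 0, 0, 16, 16)],
  [(2, 0, 0, 16, 16), (3, 0, 0, 16, 16)]]

def m40_1 : Base := (0, 2, [(0, [0], [2, 3]), (0, [1], [0, 1]), (1, [], [2, 3])])

def l40_1 : Cov := [(8, 0, 2, [(0, [0], [2, 3]), (0, [1], [0, 1]), (1, [], [2, 3])]),
  (-8, 0, 2, [(0, [1], [2, 3]), (0, [0], [0, 1]), (1, [], [2, 3])])]

def z40_1 : Cov := []

def w40_1 : List (List Wit) := [[(0, 0, 0, 16, 16), (0, 0, 0, 16, 16)],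
  [(1, 0, 0, 16, 16), (1, 0, 0, 16, 16)]]

theorem tr40 : trK keys lk40 kl40 = true := by
  decide +kernel

theorem x40_0 : expB 2 2 dg3 dg2 m40_0 (l40_0 ++ z40_0) w40_0 = true := by
  decide +kernel

theorem x40_1 : expB 2 2 dg3 dg2 m40_1 (l40_1 ++ z40_1) w40_1 = true := by
  decide +kernel

theorem t40_0_0 : chkS lk40 2 2 [(1, m40_0)] l40_0
  [(4, 1, 1, 4338000, 1389600), (1, 16, 16, 4329525, 332850), (7, 1, 1, 2310225, 1262850), (2, 16, 16, 3280965, 87090)]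
  [(1, 4), (2, -4), (4, 4), (7, -4)] = true := by
  decide +kernel

theorem t40_0_1 : chkS lk40 2 2 [(1, m40_0)] l40_1
  [(3, 1, 1, 5517600, 5517600), (6, 16, 16, 5505315, 5505315)]
  [(3, 8), (6, -8)] = true := by
  decide +kernel

theorem t40_1_1 : chkS lk40 2 2 [(1, m40_1)] l40_1
  [(0, 1, 1, 5517840, 5517840), (5, 1, 1, 3298320, 3298320)]
  [(0, 8), (5, -8)] = true := by
  decide +kernel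

section

variable {κ ι : Type*} [Fintype κ] [Fintype ι] [Inhabited κ] [Inhabited ι]

noncomputable def F40_0 (E : Env κ ι) : (Fin 2 → κ) → (Fin 2 → ι) → ℝ := op2 (P3 κ) (P2 ι) (fB E 2 2 m40_0)

noncomputable def F40_1 (E : Env κ ι) : (Fin 2 → κ) → (Fin 2 → ι) → ℝ := op2 (P3 κ) (P2 ι) (fB E 2 2 m40_1)

def r40_0_0 : List (ℕ × ℤ) := [(1, 4), (2, -4), (4, 4), (7, -4)]

theorem h40_0_0 (E : Env κ ι) : ip (F40_0 E) (F40_0 E) = dotS (ek E lk40) r40_0_0 :=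
  op_entryZ E lk40 2 2 _ _ _ _ (pg3 κ) (pg2 ι) m40_0 m40_0 l40_0 z40_0 w40_0 x40_0 (by decide) _ (chkS_sound E lk40 2 2 _ _ _ _ t40_0_0)

def r40_0_1 : List (ℕ × ℤ) := [(3, 8), (6, -8)]

theorem h40_0_1 (E : Env κ ι) : ip (F40_0 E) (F40_1 E) = dotS (ek E lk40) r40_0_1 :=
  op_entryZ E lk40 2 2 _ _ _ _ (pg3 κ) (pg2 ι) m40_0 m40_1 l40_1 z40_1 w40_1 x40_1 (by decide) _ (chkS_sound E lk40 2 2 _ _ _ _ t40_0_1)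

def r40_1_1 : List (ℕ × ℤ) := [(0, 8), (5, -8)]

theorem h40_1_1 (E : Env κ ι) : ip (F40_1 E) (F40_1 E) = dotS (ek E lk40) r40_1_1 :=
  op_entryZ E lk40 2 2 _ _ _ _ (pg3 κ) (pg2 ι) m40_1 m40_1 l40_1 z40_1 w40_1 x40_1 (by decide) _ (chkS_sound E lk40 2 2 _ _ _ _ t40_1_1)

theorem row40_0 (E : Env κ ι) : RowG (ek E lk40) (F40_0 E) [F40_0 E, F40_1 E] [r40_0_0, r40_0_1] :=
  rowG_cons _ _ _ _ _ _ (h40_0_0 E) (rowG_cons _ _ _ _ _ _ (h40_0_1 E) (rowG_nil _ _))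

theorem row40_1 (E : Env κ ι) : RowG (ek E lk40) (F40_1 E) [F40_1 E] [r40_1_1] :=
  rowG_cons _ _ _ _ _ _ (h40_1_1 E) (rowG_nil _ _)

def tab40 : List (List (List (ℕ × ℤ))) := [[r40_0_0, r40_0_1], [r40_1_1]]

theorem tri40 (E : Env κ ι) : TriG (ek E lk40) [F40_0 E, F40_1 E] tab40 := by
  refine triG_cons _ _ _ _ _ (row40_0 E) ?_
  refine triG_cons _ _ _ _ _ (row40_1 E) ?_
  exact triG_nil _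

end

def lk41 : List Key := [
  (2, 6, [(0, [0], [0, 1]), (0, [1], [2, 3]), (0, [0], [2, 4]), (0, [1], [0, 5]), (1, [], [4, 5]), (1, [], [1, 3])]),
  (2, 6, [(0, [0], [0, 1]), (0, [1], [2, 3]), (0, [0], [2, 4]), (0, [1], [0, 5]), (1, [], [3, 5]), (1, [], [1, 4])]),
  (2, 6, [(0, [0], [0, 1]), (0, [0], [2, 0]), (0, [1], [3, 1]), (0, [1], [2, 4]), (1, [], [4, 5]), (1, [], [3, 5])]),
  (2, 6, [(0, [0], [0, 1]), (0, [0], [2, 3]), (0, [1], [1, 3]), (0, [1], [0, 4]), (1, [], [4, 5]), (1, [], [2, 5])])]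

def kl41 : List ℕ := [21, 23, 42, 52]

def m41_0 : Base := (0, 2, [(0, [0], [2, 3]), (0, [1], [0, 2]), (1, [], [1, 3])])

def l41_0 : Cov := [(4, 0, 2, [(0, [0], [2, 3]), (0, [1], [0, 2]), (1, [], [1, 3])]),
  (-4, 0, 2, [(0, [0], [2, 3]), (0, [1], [1, 2]), (1, [], [0, 3])]),
  (4, 0, 2, [(0, [1], [2, 3]), (0, [0], [0, 2]), (1, [], [1, 3])]),
  (-4, 0, 2, [(0, [1], [2, 3]), (0, [0], [1, 2]), (1, [], [0, 3])])]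

def z41_0 : Cov := []

def w41_0 : List (List Wit) := [[(0, 0, 0, 16, 16), (1, 0, 0, 16, 16)],
  [(2, 0, 0, 16, 16), (3, 0, 0, 16, 16)]]

theorem tr41 : trK keys lk41 kl41 = true := by
  decide +kernel

theorem x41_0 : expB 2 2 dg2 dg3 m41_0 (l41_0 ++ z41_0) w41_0 = true := by
  decide +kernel

theorem t41_0_0 : chkS lk41 2 2 [(1, m41_0)] l41_0
  [(2, 1, 1, 4338000, 1389600), (0, 16, 16, 4329525, 332850), (3, 1, 1, 2310225, 1262850), (1, 16, 16, 3280965, 87090)]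
  [(0, -4), (1, -4), (2, 4), (3, 4)] = true := by
  decide +kernel

section

variable {κ ι : Type*} [Fintype κ] [Fintype ι] [Inhabited κ] [Inhabited ι]

noncomputable def F41_0 (E : Env κ ι) : (Fin 2 → κ) → (Fin 2 → ι) → ℝ := op2 (P2 κ) (P3 ι) (fB E 2 2 m41_0)

def r41_0_0 : List (ℕ × ℤ) := [(0, -4), (1, -4), (2, 4), (3, 4)]

theorem h41_0_0 (E : Env κ ι) : ip (F41_0 E) (F41_0 E) = dotS (ek E lk41) r41_0_0 :=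
  op_entryZ E lk41 2 2 _ _ _ _ (pg2 κ) (pg3 ι) m41_0 m41_0 l41_0 z41_0 w41_0 x41_0 (by decide) _ (chkS_sound E lk41 2 2 _ _ _ _ t41_0_0)

theorem row41_0 (E : Env κ ι) : RowG (ek E lk41) (F41_0 E) [F41_0 E] [r41_0_0] :=
  rowG_cons _ _ _ _ _ _ (h41_0_0 E) (rowG_nil _ _)

def tab41 : List (List (List (ℕ × ℤ))) := [[r41_0_0]]

theorem tri41 (E : Env κ ι) : TriG (ek E lk41) [F41_0 E] tab41 := by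
  refine triG_cons _ _ _ _ _ (row41_0 E) ?_
  exact triG_nil _

end

def lk42 : List Key := [
  (2, 4, [(0, [0], [0, 1]), (0, [1], [2, 3]), (0, [1], [0, 2]), (0, [0], [1, 3])]),
  (2, 4, [(0, [0], [0, 1]), (0, [0], [2, 3]), (0, [1], [0, 2]), (0, [1], [1, 3])]),
  (2, 6, [(0, [0], [0, 1]), (0, [1], [2, 3]), (0, [0], [2, 4]), (0, [1], [0, 5]), (1, [], [4, 5]), (1, [], [1, 3])]),
  (2, 6, [(0, [0], [0, 1]), (0, [1], [2, 3]), (0, [0], [2, 4]), (0, [1], [0, 5]), (1, [], [3, 5]), (1, [], [1, 4])]),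
  (2, 5, [(0, [0], [0, 1]), (0, [1], [0, 2]), (0, [0], [2, 3]), (0, [1], [1, 4]), (1, [], [3, 4])]),
  (2, 5, [(0, [0], [0, 1]), (0, [0], [2, 3]), (0, [1], [2, 4]), (0, [1], [0, 4]), (1, [], [1, 3])]),
  (2, 6, [(0, [0], [0, 1]), (0, [0], [2, 0]), (0, [1], [3, 1]), (0, [1], [4, 5]), (1, [], [2, 4]), (1, [], [3, 5])]),
  (2, 6, [(0, [0], [0, 1]), (0, [0], [2, 0]), (0, [1], [3, 1]), (0, [1], [2, 4]), (1, [], [4, 5]), (1, [], [3, 5])]),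
  (2, 5, [(0, [0], [0, 1]), (0, [0], [2, 0]), (0, [1], [3, 1]), (0, [1], [3, 4]), (1, [], [2, 4])]),
  (2, 6, [(0, [0], [0, 1]), (0, [0], [2, 3]), (0, [1], [1, 3]), (0, [1], [4, 5]), (1, [], [0, 4]), (1, [], [2, 5])]),
  (2, 6, [(0, [0], [0, 1]), (0, [0], [2, 3]), (0, [1], [1, 3]), (0, [1], [0, 4]), (1, [], [4, 5]), (1, [], [2, 5])]),
  (2, 6, [(0, [0], [0, 1]), (0, [0], [2, 1]), (0, [1], [3, 4]), (0, [1], [3, 5]), (1, [], [0, 5]), (1, [], [2, 4])])]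

def kl42 : List ℕ := [5, 6, 21, 23, 28, 29, 41, 42, 44, 51, 52, 62]

def m42_0 : Base := (0, 2, [(0, [0], [2, 3]), (0, [1], [0, 2]), (1, [], [1, 3])])

def l42_0 : Cov := [(4, 0, 2, [(0, [0], [2, 3]), (0, [1], [0, 2]), (1, [], [1, 3])]),
  (-4, 0, 2, [(0, [0], [2, 3]), (0, [1], [1, 2]), (1, [], [0, 3])]),
  (-4, 0, 2, [(0, [1], [2, 3]), (0, [0], [0, 2]), (1, [], [1, 3])]),
  (4, 0, 2, [(0, [1], [2, 3]), (0, [0], [1, 2]), (1, [], [0, 3])])]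

def z42_0 : Cov := []

def w42_0 : List (List Wit) := [[(0, 0, 0, 16, 16), (1, 0, 0, 16, 16)],
  [(2, 0, 0, 16, 16), (3, 0, 0, 16, 16)]]

def m42_1 : Base := (0, 1, [(0, [0], [0, 2]), (0, [1], [1, 2])])

def l42_1 : Cov := [(8, 0, 1, [(0, [0], [0, 2]), (0, [1], [1, 2])]),
  (-8, 0, 1, [(0, [0], [1, 2]), (0, [1], [0, 2])])]

def z42_1 : Cov := []

def w42_1 : List (List Wit) := [[(0, 0, 0, 0, 0), (1, 0, 0, 0, 0)],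
  [(1, 0, 0, 0, 0), (0, 0, 0, 0, 0)]]

def m42_2 : Base := (0, 2, [(0, [0], [0, 2]), (0, [1], [1, 3]), (1, [], [2, 3])])

def l42_2 : Cov := [(8, 0, 2, [(0, [0], [0, 2]), (0, [1], [1, 3]), (1, [], [2, 3])]),
  (-8, 0, 2, [(0, [0], [1, 2]), (0, [1], [0, 3]), (1, [], [2, 3])])]

def z42_2 : Cov := []

def w42_2 : List (List Wit) := [[(0, 0, 0, 16, 16), (1, 0, 0, 16, 16)],
  [(1, 0, 0, 1, 1), (0, 0, 0, 1, 1)]]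

theorem tr42 : trK keys lk42 kl42 = true := by
  decide +kernel

theorem x42_0 : expB 2 2 dg3 dg3 m42_0 (l42_0 ++ z42_0) w42_0 = true := by
  decide +kernel

theorem x42_1 : expB 2 2 dg3 dg3 m42_1 (l42_1 ++ z42_1) w42_1 = true := by
  decide +kernel

theorem x42_2 : expB 2 2 dg3 dg3 m42_2 (l42_2 ++ z42_2) w42_2 = true := by
  decide +kernel

theorem t42_0_0 : chkS lk42 2 2 [(1, m42_0)] l42_0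
  [(7, 1, 1, 4338000, 1389600), (2, 16, 16, 4329525, 332850), (10, 1, 1, 2310225, 1262850), (3, 16, 16, 3280965, 87090)]
  [(2, -4), (3, 4), (7, 4), (10, -4)] = true := by
  decide +kernel

theorem t42_0_1 : chkS lk42 2 2 [(1, m42_0)] l42_1
  [(4, 1, 1, 147760, 201760), (5, 16, 16, 135220, 5170)]
  [(4, 8), (5, -8)] = true := by
  decide +kernel

theorem t42_0_2 : chkS lk42 2 2 [(1, m42_0)] l42_2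
  [(9, 16, 16, 5374275, 5309475), (6, 1, 1, 2371920, 1324320)]
  [(6, -8), (9, 8)] = true := by
  decide +kernel

theorem t42_1_1 : chkS lk42 2 2 [(1, m42_1)] l42_1
  [(0, 16, 16, 12321, 12546), (1, 16, 16, 8496, 4896)]
  [(0, 8), (1, -8)] = true := by
  decide +kernel

theorem t42_1_2 : chkS lk42 2 2 [(1, m42_1)] l42_2
  [(8, 16, 16, 270640, 267040), (4, 16, 16, 274465, 274690)]
  [(4, -8), (8, 8)] = true := by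
  decide +kernel

theorem t42_2_2 : chkS lk42 2 2 [(1, m42_2)] l42_2
  [(11, 16, 16, 4345905, 3478530), (2, 16, 16, 5517600, 5517600)]
  [(2, -8), (11, 8)] = true := by
  decide +kernel

section

variable {κ ι : Type*} [Fintype κ] [Fintype ι] [Inhabited κ] [Inhabited ι]

noncomputable def F42_0 (E : Env κ ι) : (Fin 2 → κ) → (Fin 2 → ι) → ℝ := op2 (P3 κ) (P3 ι) (fB E 2 2 m42_0)

noncomputable def F42_1 (E : Env κ ι) : (Fin 2 → κ) → (Fin 2 → ι) → ℝ := op2 (P3 κ) (P3 ι) (fB E 2 2 m42_1)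

noncomputable def F42_2 (E : Env κ ι) : (Fin 2 → κ) → (Fin 2 → ι) → ℝ := op2 (P3 κ) (P3 ι) (fB E 2 2 m42_2)

def r42_0_0 : List (ℕ × ℤ) := [(2, -4), (3, 4), (7, 4), (10, -4)]

theorem h42_0_0 (E : Env κ ι) : ip (F42_0 E) (F42_0 E) = dotS (ek E lk42) r42_0_0 :=
  op_entryZ E lk42 2 2 _ _ _ _ (pg3 κ) (pg3 ι) m42_0 m42_0 l42_0 z42_0 w42_0 x42_0 (by decide) _ (chkS_sound E lk42 2 2 _ _ _ _ t42_0_0)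

def r42_0_1 : List (ℕ × ℤ) := [(4, 8), (5, -8)]

theorem h42_0_1 (E : Env κ ι) : ip (F42_0 E) (F42_1 E) = dotS (ek E lk42) r42_0_1 :=
  op_entryZ E lk42 2 2 _ _ _ _ (pg3 κ) (pg3 ι) m42_0 m42_1 l42_1 z42_1 w42_1 x42_1 (by decide) _ (chkS_sound E lk42 2 2 _ _ _ _ t42_0_1)

def r42_0_2 : List (ℕ × ℤ) := [(6, -8), (9, 8)]

theorem h42_0_2 (E : Env κ ι) : ip (F42_0 E) (F42_2 E) = dotS (ek E lk42) r42_0_2 :=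
  op_entryZ E lk42 2 2 _ _ _ _ (pg3 κ) (pg3 ι) m42_0 m42_2 l42_2 z42_2 w42_2 x42_2 (by decide) _ (chkS_sound E lk42 2 2 _ _ _ _ t42_0_2)

def r42_1_1 : List (ℕ × ℤ) := [(0, 8), (1, -8)]

theorem h42_1_1 (E : Env κ ι) : ip (F42_1 E) (F42_1 E) = dotS (ek E lk42) r42_1_1 :=
  op_entryZ E lk42 2 2 _ _ _ _ (pg3 κ) (pg3 ι) m42_1 m42_1 l42_1 z42_1 w42_1 x42_1 (by decide) _ (chkS_sound E lk42 2 2 _ _ _ _ t42_1_1)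

def r42_1_2 : List (ℕ × ℤ) := [(4, -8), (8, 8)]

theorem h42_1_2 (E : Env κ ι) : ip (F42_1 E) (F42_2 E) = dotS (ek E lk42) r42_1_2 :=
  op_entryZ E lk42 2 2 _ _ _ _ (pg3 κ) (pg3 ι) m42_1 m42_2 l42_2 z42_2 w42_2 x42_2 (by decide) _ (chkS_sound E lk42 2 2 _ _ _ _ t42_1_2)

def r42_2_2 : List (ℕ × ℤ) := [(2, -8), (11, 8)]

theorem h42_2_2 (E : Env κ ι) : ip (F42_2 E) (F42_2 E) = dotS (ek E lk42) r42_2_2 :=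
  op_entryZ E lk42 2 2 _ _ _ _ (pg3 κ) (pg3 ι) m42_2 m42_2 l42_2 z42_2 w42_2 x42_2 (by decide) _ (chkS_sound E lk42 2 2 _ _ _ _ t42_2_2)

theorem row42_0 (E : Env κ ι) : RowG (ek E lk42) (F42_0 E) [F42_0 E, F42_1 E, F42_2 E] [r42_0_0, r42_0_1, r42_0_2] :=
  rowG_cons _ _ _ _ _ _ (h42_0_0 E) (rowG_cons _ _ _ _ _ _ (h42_0_1 E) (rowG_cons _ _ _ _ _ _ (h42_0_2 E) (rowG_nil _ _)))

theorem row42_1 (E : Env κ ι) : RowG (ek E lk42) (F42_1 E) [F42_1 E, F42_2 E] [r42_1_1, r42_1_2] :=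
  rowG_cons _ _ _ _ _ _ (h42_1_1 E) (rowG_cons _ _ _ _ _ _ (h42_1_2 E) (rowG_nil _ _))

theorem row42_2 (E : Env κ ι) : RowG (ek E lk42) (F42_2 E) [F42_2 E] [r42_2_2] :=
  rowG_cons _ _ _ _ _ _ (h42_2_2 E) (rowG_nil _ _)

def tab42 : List (List (List (ℕ × ℤ))) := [[r42_0_0, r42_0_1, r42_0_2], [r42_1_1, r42_1_2], [r42_2_2]]

theorem tri42 (E : Env κ ι) : TriG (ek E lk42) [F42_0 E, F42_1 E, F42_2 E] tab42 := by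
  refine triG_cons _ _ _ _ _ (row42_0 E) ?_
  refine triG_cons _ _ _ _ _ (row42_1 E) ?_
  refine triG_cons _ _ _ _ _ (row42_2 E) ?_
  exact triG_nil _

end

def lk43 : List Key := [
  (2, 4, [(0, [0], [0, 1]), (0, [1], [2, 3]), (0, [0], [2, 3]), (0, [1], [0, 1])]),
  (2, 4, [(0, [0], [0, 1]), (0, [1], [2, 3]), (0, [1], [0, 2]), (0, [0], [1, 3])]),
  (2, 4, [(0, [0], [0, 1]), (0, [0], [0, 1]), (0, [1], [2, 3]), (0, [1], [2, 3])]),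
  (2, 6, [(0, [0], [0, 1]), (0, [0], [0, 1]), (0, [1], [2, 3]), (0, [1], [2, 4]), (1, [], [4, 5]), (1, [], [3, 5])]),
  (2, 6, [(0, [0], [0, 1]), (0, [0], [0, 1]), (0, [1], [2, 3]), (0, [1], [4, 5]), (1, [], [2, 4]), (1, [], [3, 5])]),
  (2, 6, [(0, [0], [0, 1]), (0, [1], [2, 3]), (0, [1], [0, 2]), (0, [0], [1, 3]), (1, [], [4, 5]), (1, [], [4, 5])]),
  (2, 6, [(0, [0], [0, 1]), (0, [0], [2, 3]), (0, [1], [0, 2]), (0, [1], [1, 3]), (1, [], [4, 5]), (1, [], [4, 5])]),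
  (2, 6, [(0, [0], [0, 1]), (0, [1], [2, 3]), (0, [0], [2, 4]), (0, [1], [0, 5]), (1, [], [3, 5]), (1, [], [1, 4])]),
  (2, 5, [(0, [0], [0, 1]), (0, [1], [0, 2]), (0, [0], [2, 3]), (0, [1], [1, 4]), (1, [], [3, 4])]),
  (2, 5, [(0, [0], [0, 1]), (0, [0], [2, 3]), (0, [1], [2, 4]), (0, [1], [0, 4]), (1, [], [1, 3])]),
  (2, 5, [(0, [0], [0, 1]), (0, [0], [0, 2]), (0, [1], [1, 2]), (0, [1], [3, 4]), (1, [], [3, 4])]),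
  (2, 6, [(0, [0], [0, 1]), (0, [0], [0, 2]), (0, [1], [1, 2]), (0, [1], [3, 4]), (1, [], [3, 5]), (1, [], [4, 5])]),
  (2, 5, [(0, [0], [0, 1]), (0, [0], [0, 1]), (0, [1], [2, 3]), (0, [1], [2, 4]), (1, [], [3, 4])]),
  (2, 6, [(0, [0], [0, 1]), (0, [0], [2, 0]), (0, [1], [3, 1]), (0, [1], [4, 5]), (1, [], [4, 5]), (1, [], [2, 3])]),
  (2, 6, [(0, [0], [0, 1]), (0, [0], [2, 0]), (0, [1], [3, 1]), (0, [1], [4, 5]), (1, [], [2, 4]), (1, [], [3, 5])]),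
  (2, 6, [(0, [0], [0, 1]), (0, [0], [2, 0]), (0, [1], [3, 1]), (0, [1], [2, 4]), (1, [], [4, 5]), (1, [], [3, 5])]),
  (2, 6, [(0, [0], [0, 1]), (0, [0], [2, 0]), (0, [1], [3, 1]), (0, [1], [3, 4]), (1, [], [4, 5]), (1, [], [2, 5])]),
  (2, 5, [(0, [0], [0, 1]), (0, [0], [2, 0]), (0, [1], [3, 1]), (0, [1], [3, 4]), (1, [], [2, 4])]),
  (2, 6, [(0, [0], [0, 1]), (0, [0], [2, 3]), (0, [1], [0, 1]), (0, [1], [4, 5]), (1, [], [2, 4]), (1, [], [3, 5])]),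
  (2, 6, [(0, [0], [0, 1]), (0, [0], [2, 3]), (0, [1], [0, 1]), (0, [1], [2, 4]), (1, [], [4, 5]), (1, [], [3, 5])]),
  (2, 5, [(0, [0], [0, 1]), (0, [0], [2, 3]), (0, [1], [0, 1]), (0, [1], [2, 4]), (1, [], [3, 4])]),
  (2, 6, [(0, [0], [0, 1]), (0, [0], [2, 3]), (0, [1], [1, 3]), (0, [1], [4, 5]), (1, [], [4, 5]), (1, [], [0, 2])]),
  (2, 6, [(0, [0], [0, 1]), (0, [0], [2, 3]), (0, [1], [1, 3]), (0, [1], [4, 5]), (1, [], [0, 4]), (1, [], [2, 5])]),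
  (2, 6, [(0, [0], [0, 1]), (0, [0], [2, 3]), (0, [1], [1, 3]), (0, [1], [0, 4]), (1, [], [4, 5]), (1, [], [2, 5])]),
  (2, 6, [(0, [0], [0, 1]), (0, [0], [2, 1]), (0, [1], [3, 4]), (0, [1], [3, 5]), (1, [], [0, 5]), (1, [], [2, 4])]),
  (2, 6, [(0, [0], [0, 1]), (0, [0], [2, 1]), (0, [1], [3, 4]), (0, [1], [3, 5]), (1, [], [4, 5]), (1, [], [0, 2])]),
  (2, 6, [(0, [0], [0, 1]), (0, [0], [2, 3]), (0, [1], [4, 1]), (0, [1], [2, 5]), (1, [], [3, 5]), (1, [], [0, 4])])]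

def kl43 : List ℕ := [2, 5, 8, 10, 11, 19, 20, 23, 28, 29, 32, 33, 36, 40, 41, 42, 43, 44, 47, 48, 49, 50, 51, 52, 62, 63, 65]

def m43_0 : Base := (0, 1, [(0, [0], [0, 4]), (0, [1], [1, 4]), (1, [], [2, 3])])

def l43_0 : Cov := [(192, 0, 1, [(0, [0], [0, 4]), (0, [1], [1, 4]), (1, [], [2, 3])]),
  (192, 0, 1, [(0, [0], [0, 4]), (0, [1], [2, 4]), (1, [], [1, 3])]),
  (192, 0, 1, [(0, [0], [0, 4]), (0, [1], [3, 4]), (1, [], [1, 2])]),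
  (192, 0, 1, [(0, [0], [1, 4]), (0, [1], [0, 4]), (1, [], [2, 3])]),
  (192, 0, 1, [(0, [0], [1, 4]), (0, [1], [2, 4]), (1, [], [0, 3])]),
  (192, 0, 1, [(0, [0], [1, 4]), (0, [1], [3, 4]), (1, [], [0, 2])]),
  (192, 0, 1, [(0, [0], [2, 4]), (0, [1], [0, 4]), (1, [], [1, 3])]),
  (192, 0, 1, [(0, [0], [2, 4]), (0, [1], [1, 4]), (1, [], [0, 3])]),
  (192, 0, 1, [(0, [0], [2, 4]), (0, [1], [3, 4]), (1, [], [0, 1])]),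
  (192, 0, 1, [(0, [0], [3, 4]), (0, [1], [0, 4]), (1, [], [1, 2])]),
  (192, 0, 1, [(0, [0], [3, 4]), (0, [1], [1, 4]), (1, [], [0, 2])]),
  (192, 0, 1, [(0, [0], [3, 4]), (0, [1], [2, 4]), (1, [], [0, 1])])]

def z43_0 : Cov := []

def w43_0 : List (List Wit) := [[(0, 0, 0, 0, 0), (0, 0, 0, 0, 0), (1, 0, 0, 0, 0), (1, 0, 0, 0, 0), (2, 0, 0, 0, 0), (2, 0, 0, 0, 0), (3, 0, 0, 0, 0), (3, 0, 0, 0, 0), (4, 0, 0, 0, 0), (4, 0, 0, 0, 0), (5, 0, 0, 0, 0), (5, 0, 0, 0, 0), (6, 0, 0, 0, 0), (6, 0, 0, 0, 0), (7, 0, 0, 0, 0), (7, 0, 0, 0, 0), (8, 0, 0, 0, 0), (8, 0, 0, 0, 0), (9, 0, 0, 0, 0), (9, 0, 0, 0, 0), (10, 0, 0, 0, 0), (10, 0, 0, 0, 0), (11, 0, 0, 0, 0), (11, 0, 0, 0, 0)],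
  [(3, 0, 0, 0, 0), (3, 0, 0, 0, 0), (6, 0, 0, 0, 0), (6, 0, 0, 0, 0), (9, 0, 0, 0, 0), (9, 0, 0, 0, 0), (0, 0, 0, 0, 0), (0, 0, 0, 0, 0), (7, 0, 0, 0, 0), (7, 0, 0, 0, 0), (10, 0, 0, 0, 0), (10, 0, 0, 0, 0), (1, 0, 0, 0, 0), (1, 0, 0, 0, 0), (4, 0, 0, 0, 0), (4, 0, 0, 0, 0), (11, 0, 0, 0, 0), (11, 0, 0, 0, 0), (2, 0, 0, 0, 0), (2, 0, 0, 0, 0), (5, 0, 0, 0, 0), (5, 0, 0, 0, 0), (8, 0, 0, 0, 0), (8, 0, 0, 0, 0)]]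

def m43_1 : Base := (0, 1, [(0, [0], [0, 4]), (0, [1], [1, 2]), (1, [], [3, 4])])

def l43_1 : Cov := [(96, 0, 1, [(0, [0], [0, 4]), (0, [1], [1, 2]), (1, [], [3, 4])]),
  (96, 0, 1, [(0, [0], [0, 4]), (0, [1], [1, 3]), (1, [], [2, 4])]),
  (96, 0, 1, [(0, [0], [0, 4]), (0, [1], [2, 3]), (1, [], [1, 4])]),
  (96, 0, 1, [(0, [0], [1, 4]), (0, [1], [0, 2]), (1, [], [3, 4])]),
  (96, 0, 1, [(0, [0], [1, 4]), (0, [1], [0, 3]), (1, [], [2, 4])]),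
  (96, 0, 1, [(0, [0], [1, 4]), (0, [1], [2, 3]), (1, [], [0, 4])]),
  (96, 0, 1, [(0, [0], [2, 4]), (0, [1], [0, 1]), (1, [], [3, 4])]),
  (96, 0, 1, [(0, [0], [2, 4]), (0, [1], [0, 3]), (1, [], [1, 4])]),
  (96, 0, 1, [(0, [0], [2, 4]), (0, [1], [1, 3]), (1, [], [0, 4])]),
  (96, 0, 1, [(0, [0], [3, 4]), (0, [1], [0, 1]), (1, [], [2, 4])]),
  (96, 0, 1, [(0, [0], [3, 4]), (0, [1], [0, 2]), (1, [], [1, 4])]),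
  (96, 0, 1, [(0, [0], [3, 4]), (0, [1], [1, 2]), (1, [], [0, 4])]),
  (96, 0, 1, [(0, [1], [0, 4]), (0, [0], [1, 2]), (1, [], [3, 4])]),
  (96, 0, 1, [(0, [1], [0, 4]), (0, [0], [1, 3]), (1, [], [2, 4])]),
  (96, 0, 1, [(0, [1], [0, 4]), (0, [0], [2, 3]), (1, [], [1, 4])]),
  (96, 0, 1, [(0, [1], [1, 4]), (0, [0], [0, 2]), (1, [], [3, 4])]),
  (96, 0, 1, [(0, [1], [1, 4]), (0, [0], [0, 3]), (1, [], [2, 4])]),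
  (96, 0, 1, [(0, [1], [1, 4]), (0, [0], [2, 3]), (1, [], [0, 4])]),
  (96, 0, 1, [(0, [1], [2, 4]), (0, [0], [0, 1]), (1, [], [3, 4])]),
  (96, 0, 1, [(0, [1], [2, 4]), (0, [0], [0, 3]), (1, [], [1, 4])]),
  (96, 0, 1, [(0, [1], [2, 4]), (0, [0], [1, 3]), (1, [], [0, 4])]),
  (96, 0, 1, [(0, [1], [3, 4]), (0, [0], [0, 1]), (1, [], [2, 4])]),
  (96, 0, 1, [(0, [1], [3, 4]), (0, [0], [0, 2]), (1, [], [1, 4])]),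
  (96, 0, 1, [(0, [1], [3, 4]), (0, [0], [1, 2]), (1, [], [0, 4])])]

def z43_1 : Cov := []

def w43_1 : List (List Wit) := [[(0, 0, 0, 0, 0), (1, 0, 0, 0, 0), (0, 0, 0, 0, 0), (2, 0, 0, 0, 0), (1, 0, 0, 0, 0), (2, 0, 0, 0, 0), (3, 0, 0, 0, 0), (4, 0, 0, 0, 0), (3, 0, 0, 0, 0), (5, 0, 0, 0, 0), (4, 0, 0, 0, 0), (5, 0, 0, 0, 0), (6, 0, 0, 0, 0), (7, 0, 0, 0, 0), (6, 0, 0, 0, 0), (8, 0, 0, 0, 0), (7, 0, 0, 0, 0), (8, 0, 0, 0, 0), (9, 0, 0, 0, 0), (10, 0, 0, 0, 0), (9, 0, 0, 0, 0), (11, 0, 0, 0, 0), (10, 0, 0, 0, 0), (11, 0, 0, 0, 0)],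
  [(12, 0, 0, 0, 0), (13, 0, 0, 0, 0), (12, 0, 0, 0, 0), (14, 0, 0, 0, 0), (13, 0, 0, 0, 0), (14, 0, 0, 0, 0), (15, 0, 0, 0, 0), (16, 0, 0, 0, 0), (15, 0, 0, 0, 0), (17, 0, 0, 0, 0), (16, 0, 0, 0, 0), (17, 0, 0, 0, 0), (18, 0, 0, 0, 0), (19, 0, 0, 0, 0), (18, 0, 0, 0, 0), (20, 0, 0, 0, 0), (19, 0, 0, 0, 0), (20, 0, 0, 0, 0), (21, 0, 0, 0, 0), (22, 0, 0, 0, 0), (21, 0, 0, 0, 0), (23, 0, 0, 0, 0), (22, 0, 0, 0, 0), (23, 0, 0, 0, 0)]]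

def m43_2 : Base := (0, 0, [(0, [0], [0, 1]), (0, [1], [2, 3])])

def l43_2 : Cov := [(384, 0, 0, [(0, [0], [0, 1]), (0, [1], [2, 3])]),
  (384, 0, 0, [(0, [0], [0, 2]), (0, [1], [1, 3])]),
  (384, 0, 0, [(0, [0], [0, 3]), (0, [1], [1, 2])]),
  (384, 0, 0, [(0, [0], [1, 2]), (0, [1], [0, 3])]),
  (384, 0, 0, [(0, [0], [1, 3]), (0, [1], [0, 2])]),
  (384, 0, 0, [(0, [0], [2, 3]), (0, [1], [0, 1])])]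

def z43_2 : Cov := []

def w43_2 : List (List Wit) := [[(0, 0, 0, 0, 0), (0, 0, 0, 0, 0), (1, 0, 0, 0, 0), (1, 0, 0, 0, 0), (2, 0, 0, 0, 0), (2, 0, 0, 0, 0), (0, 0, 0, 0, 0), (0, 0, 0, 0, 0), (3, 0, 0, 0, 0), (3, 0, 0, 0, 0), (4, 0, 0, 0, 0), (4, 0, 0, 0, 0), (1, 0, 0, 0, 0), (1, 0, 0, 0, 0), (3, 0, 0, 0, 0), (3, 0, 0, 0, 0), (5, 0, 0, 0, 0), (5, 0, 0, 0, 0), (2, 0, 0, 0, 0), (2, 0, 0, 0, 0), (4, 0, 0, 0, 0), (4, 0, 0, 0, 0), (5, 0, 0, 0, 0), (5, 0, 0, 0, 0)],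
  [(5, 0, 0, 0, 0), (5, 0, 0, 0, 0), (4, 0, 0, 0, 0), (4, 0, 0, 0, 0), (3, 0, 0, 0, 0), (3, 0, 0, 0, 0), (5, 0, 0, 0, 0), (5, 0, 0, 0, 0), (2, 0, 0, 0, 0), (2, 0, 0, 0, 0), (1, 0, 0, 0, 0), (1, 0, 0, 0, 0), (4, 0, 0, 0, 0), (4, 0, 0, 0, 0), (2, 0, 0, 0, 0), (2, 0, 0, 0, 0), (0, 0, 0, 0, 0), (0, 0, 0, 0, 0), (3, 0, 0, 0, 0), (3, 0, 0, 0, 0), (1, 0, 0, 0, 0), (1, 0, 0, 0, 0), (0, 0, 0, 0, 0), (0, 0, 0, 0, 0)]]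

theorem tr43 : trK keys lk43 kl43 = true := by
  decide +kernel

theorem x43_0 : expB 2 4 dg2 dg4 m43_0 (l43_0 ++ z43_0) w43_0 = true := by
  decide +kernel

theorem x43_1 : expB 2 4 dg2 dg4 m43_1 (l43_1 ++ z43_1) w43_1 = true := by
  decide +kernel

theorem x43_2 : expB 2 4 dg2 dg4 m43_2 (l43_2 ++ z43_2) w43_2 = true := by
  decide +kernel

theorem t43_0_0 : chkS lk43 2 4 [(1, m43_0)] l43_0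
  [(5, 16, 16, 3167265, 3297540), (15, 16, 16, 2184240, 3282240), (15, 16, 16, 2180400, 2299200), (6, 16, 16, 2184240, 3282240), (23, 1, 1, 3166740, 3166740), (23, 1, 1, 3155220, 2118420), (23, 16, 16, 3166785, 3232260), (15, 1, 1, 2184195, 3278145), (26, 16, 16, 2184000, 3220800), (23, 16, 16, 3155265, 2183940), (15, 1, 1, 2180355, 2295105), (26, 16, 16, 2176320, 2176320)]
  [(5, 192), (6, 192), (15, 768), (23, 768), (26, 384)] = true := by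
  decide +kernel

theorem t43_0_1 : chkS lk43 2 4 [(1, m43_0)] l43_1
  [(16, 16, 16, 2184240, 3282240), (16, 16, 16, 2180400, 2299200), (13, 16, 16, 2184240, 3282240), (23, 16, 16, 2184240, 3282240), (23, 16, 16, 2180400, 2299200), (21, 16, 16, 2184240, 3282240), (11, 1, 1, 4281090, 3481665), (22, 1, 1, 4269315, 2425665), (14, 1, 1, 5317635, 5374785), (11, 1, 1, 4273410, 2437185), (22, 1, 1, 4280835, 3473985), (14, 1, 1, 5325315, 5440065), (23, 16, 16, 4280880, 3478080), (23, 16, 16, 4269360, 2429760), (21, 1, 1, 2184195, 3278145), (16, 16, 16, 4280880, 3478080), (16, 16, 16, 4269360, 2429760), (13, 1, 1, 2184195, 3278145), (11, 16, 16, 4281120, 3481920), (14, 16, 16, 5317680, 5378880), (22, 16, 16, 4269360, 2429760), (11, 16, 16, 4273440, 2437440), (14, 16, 16, 5325360,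 5444160), (22, 16, 16, 4280880, 3478080)]
  [(11, 384), (13, 192), (14, 384), (16, 384), (21, 192), (22, 384), (23, 384)] = true := by
  decide +kernel

theorem t43_0_2 : chkS lk43 2 4 [(1, m43_0)] l43_2
  [(10, 16, 16, 82720, 205120), (17, 16, 16, 82480, 201280), (17, 16, 16, 74800, 136000), (8, 16, 16, 17185, 205060), (8, 16, 16, 13345, 143620), (10, 1, 1, 82690, 204865)]
  [(8, 768), (10, 768), (17, 768)] = true := by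
  decide +kernel

theorem t43_1_1 : chkS lk43 2 4 [(1, m43_1)] l43_1
  [(3, 1, 1, 4411650, 3489825), (24, 16, 16, 2118705, 3282180), (24, 16, 16, 2118465, 3220740), (15, 1, 1, 3428370, 3428370), (26, 16, 16, 3163425, 2314500), (14, 1, 1, 3416085, 283410), (15, 1, 1, 3428610, 3428385), (26, 16, 16, 3162705, 1266180), (14, 1, 1, 3416325, 283425), (14, 1, 1, 4411905, 3490305), (14, 1, 1, 4411425, 3490050), (4, 1, 1, 4411650, 3489825), (19, 1, 1, 3428610, 3428385), (7, 16, 16, 5325600, 5448000), (7, 16, 16, 5325360, 5444160), (16, 1, 1, 2380035, 3409185), (25, 16, 16, 5252145, 5378820), (14, 1, 1, 2437380, 4207905), (16, 1, 1, 2379795, 3409170), (25, 16, 16, 5251905, 5317380), (14, 1, 1, 2437140, 4207890), (14, 16, 16, 5391120, 5448720), (14, 16, 16, 5390640, 5444640),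 (18, 1, 1, 3416325, 283425)]
  [(3, 96), (4, 96), (7, 192), (14, 768), (15, 192), (16, 192), (18, 96), (19, 96), (24, 192), (25, 192), (26, 192)] = true := by
  decide +kernel

theorem t43_1_2 : chkS lk43 2 4 [(1, m43_1)] l43_2
  [(17, 1, 1, 270355, 262930), (17, 1, 1, 270595, 262945), (12, 1, 1, 213250, 213025), (20, 1, 1, 274690, 274465), (9, 16, 16, 78880, 143680), (9, 16, 16, 78400, 78400)]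
  [(9, 768), (12, 384), (17, 768), (20, 384)] = true := by
  decide +kernel

theorem t43_2_2 : chkS lk43 2 4 [(1, m43_2)] l43_2
  [(2, 16, 16, 12816, 12816), (1, 16, 16, 8961, 8961), (1, 16, 16, 12801, 12801), (1, 16, 16, 8976, 8976), (1, 16, 16, 12816, 12816), (0, 16, 16, 12816, 12816)]
  [(0, 384), (1, 1536), (2, 384)] = true := by
  decide +kernel

section

variable {κ ι : Type*} [Fintype κ] [Fintype ι] [Inhabited κ] [Inhabited ι]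

noncomputable def F43_0 (E : Env κ ι) : (Fin 2 → κ) → (Fin 4 → ι) → ℝ := op2 (P2 κ) (P4 ι) (fB E 2 4 m43_0)

noncomputable def F43_1 (E : Env κ ι) : (Fin 2 → κ) → (Fin 4 → ι) → ℝ := op2 (P2 κ) (P4 ι) (fB E 2 4 m43_1)

noncomputable def F43_2 (E : Env κ ι) : (Fin 2 → κ) → (Fin 4 → ι) → ℝ := op2 (P2 κ) (P4 ι) (fB E 2 4 m43_2)

def r43_0_0 : List (ℕ × ℤ) := [(5, 192), (6, 192), (15, 768), (23, 768), (26, 384)]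

theorem h43_0_0 (E : Env κ ι) : ip (F43_0 E) (F43_0 E) = dotS (ek E lk43) r43_0_0 :=
  op_entryZ E lk43 2 4 _ _ _ _ (pg2 κ) (pg4 ι) m43_0 m43_0 l43_0 z43_0 w43_0 x43_0 (by decide) _ (chkS_sound E lk43 2 4 _ _ _ _ t43_0_0)

def r43_0_1 : List (ℕ × ℤ) := [(11, 384), (13, 192), (14, 384), (16, 384), (21, 192), (22, 384), (23, 384)]

theorem h43_0_1 (E : Env κ ι) : ip (F43_0 E) (F43_1 E) = dotS (ek E lk43) r43_0_1 :=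
  op_entryZ E lk43 2 4 _ _ _ _ (pg2 κ) (pg4 ι) m43_0 m43_1 l43_1 z43_1 w43_1 x43_1 (by decide) _ (chkS_sound E lk43 2 4 _ _ _ _ t43_0_1)

def r43_0_2 : List (ℕ × ℤ) := [(8, 768), (10, 768), (17, 768)]

theorem h43_0_2 (E : Env κ ι) : ip (F43_0 E) (F43_2 E) = dotS (ek E lk43) r43_0_2 :=
  op_entryZ E lk43 2 4 _ _ _ _ (pg2 κ) (pg4 ι) m43_0 m43_2 l43_2 z43_2 w43_2 x43_2 (by decide) _ (chkS_sound E lk43 2 4 _ _ _ _ t43_0_2)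

def r43_1_1 : List (ℕ × ℤ) := [(3, 96), (4, 96), (7, 192), (14, 768), (15, 192), (16, 192), (18, 96), (19, 96), (24, 192), (25, 192), (26, 192)]

theorem h43_1_1 (E : Env κ ι) : ip (F43_1 E) (F43_1 E) = dotS (ek E lk43) r43_1_1 :=
  op_entryZ E lk43 2 4 _ _ _ _ (pg2 κ) (pg4 ι) m43_1 m43_1 l43_1 z43_1 w43_1 x43_1 (by decide) _ (chkS_sound E lk43 2 4 _ _ _ _ t43_1_1)

def r43_1_2 : List (ℕ × ℤ) := [(9, 768), (12, 384), (17, 768), (20, 384)]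

theorem h43_1_2 (E : Env κ ι) : ip (F43_1 E) (F43_2 E) = dotS (ek E lk43) r43_1_2 :=
  op_entryZ E lk43 2 4 _ _ _ _ (pg2 κ) (pg4 ι) m43_1 m43_2 l43_2 z43_2 w43_2 x43_2 (by decide) _ (chkS_sound E lk43 2 4 _ _ _ _ t43_1_2)

def r43_2_2 : List (ℕ × ℤ) := [(0, 384), (1, 1536), (2, 384)]

theorem h43_2_2 (E : Env κ ι) : ip (F43_2 E) (F43_2 E) = dotS (ek E lk43) r43_2_2 :=
  op_entryZ E lk43 2 4 _ _ _ _ (pg2 κ) (pg4 ι) m43_2 m43_2 l43_2 z43_2 w43_2 x43_2 (by decide) _ (chkS_sound E lk43 2 4 _ _ _ _ t43_2_2)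

theorem row43_0 (E : Env κ ι) : RowG (ek E lk43) (F43_0 E) [F43_0 E, F43_1 E, F43_2 E] [r43_0_0, r43_0_1, r43_0_2] :=
  rowG_cons _ _ _ _ _ _ (h43_0_0 E) (rowG_cons _ _ _ _ _ _ (h43_0_1 E) (rowG_cons _ _ _ _ _ _ (h43_0_2 E) (rowG_nil _ _)))

theorem row43_1 (E : Env κ ι) : RowG (ek E lk43) (F43_1 E) [F43_1 E, F43_2 E] [r43_1_1, r43_1_2] :=
  rowG_cons _ _ _ _ _ _ (h43_1_1 E) (rowG_cons _ _ _ _ _ _ (h43_1_2 E) (rowG_nil _ _))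

theorem row43_2 (E : Env κ ι) : RowG (ek E lk43) (F43_2 E) [F43_2 E] [r43_2_2] :=
  rowG_cons _ _ _ _ _ _ (h43_2_2 E) (rowG_nil _ _)

def tab43 : List (List (List (ℕ × ℤ))) := [[r43_0_0, r43_0_1, r43_0_2], [r43_1_1, r43_1_2], [r43_2_2]]

theorem tri43 (E : Env κ ι) : TriG (ek E lk43) [F43_0 E, F43_1 E, F43_2 E] tab43 := by
  refine triG_cons _ _ _ _ _ (row43_0 E) ?_
  refine triG_cons _ _ _ _ _ (row43_1 E) ?_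
  refine triG_cons _ _ _ _ _ (row43_2 E) ?_
  exact triG_nil _

end

end YMBR
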