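import Pool.Agent.YM.BR.Ga0
import Pool.Agent.YM.BR.Ga1

set_option linter.unusedVariables false
set_option maxRecDepth 100000

open YMEng

namespace YMBR

def lk44 : List Key := [
  (2, 6, [(0, [0], [0, 1]), (0, [0], [0, 1]), (0, [1], [2, 3]), (0, [1], [2, 4]), (1, [], [4, 5]), (1, [], [3, 5])]),
  (2, 6, [(0, [0], [0, 1]), (0, [0], [0, 1]), (0, [1], [2, 3]), (0, [1], [4, 5]), (1, [], [2, 4]), (1, [], [3, 5])]),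
  (2, 6, [(0, [0], [0, 1]), (0, [1], [2, 3]), (0, [0], [2, 4]), (0, [1], [0, 5]), (1, [], [3, 5]), (1, [], [1, 4])]),
  (2, 6, [(0, [0], [0, 1]), (0, [0], [2, 0]), (0, [1], [3, 1]), (0, [1], [4, 5]), (1, [], [2, 4]), (1, [], [3, 5])]),
  (2, 6, [(0, [0], [0, 1]), (0, [0], [2, 0]), (0, [1], [3, 1]), (0, [1], [2, 4]), (1, [], [4, 5]), (1, [], [3, 5])]),
  (2, 6, [(0, [0], [0, 1]), (0, [0], [2, 0]), (0, [1], [3, 1]), (0, [1], [3, 4]), (1, [], [4, 5]), (1, [], [2, 5])]),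
  (2, 6, [(0, [0], [0, 1]), (0, [0], [2, 3]), (0, [1], [0, 1]), (0, [1], [4, 5]), (1, [], [2, 4]), (1, [], [3, 5])]),
  (2, 6, [(0, [0], [0, 1]), (0, [0], [2, 3]), (0, [1], [0, 1]), (0, [1], [2, 4]), (1, [], [4, 5]), (1, [], [3, 5])]),
  (2, 6, [(0, [0], [0, 1]), (0, [0], [2, 1]), (0, [1], [3, 4]), (0, [1], [3, 5]), (1, [], [0, 5]), (1, [], [2, 4])]),
  (2, 6, [(0, [0], [0, 1]), (0, [0], [2, 1]), (0, [1], [3, 4]), (0, [1], [3, 5]), (1, [], [4, 5]), (1, [], [0, 2])]),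
  (2, 6, [(0, [0], [0, 1]), (0, [0], [2, 3]), (0, [1], [4, 1]), (0, [1], [2, 5]), (1, [], [3, 5]), (1, [], [0, 4])])]

def kl44 : List ℕ := [10, 11, 23, 41, 42, 43, 47, 48, 62, 63, 65]

def m44_0 : Base := (0, 1, [(0, [0], [0, 4]), (0, [1], [1, 2]), (1, [], [3, 4])])

def l44_0 : Cov := [(96, 0, 1, [(0, [0], [0, 4]), (0, [1], [1, 2]), (1, [], [3, 4])]),
  (96, 0, 1, [(0, [0], [0, 4]), (0, [1], [1, 3]), (1, [], [2, 4])]),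
  (96, 0, 1, [(0, [0], [0, 4]), (0, [1], [2, 3]), (1, [], [1, 4])]),
  (96, 0, 1, [(0, [0], [1, 4]), (0, [1], [0, 2]), (1, [], [3, 4])]),
  (96, 0, 1, [(0, [0], [1, 4]), (0, [1], [0, 3]), (1, [], [2, 4])]),
  (96, 0, 1, [(0, [0], [1, 4]), (0, [1], [2, 3]), (1, [], [0, 4])]),
  (96, 0, 1, [(0, [0], [2, 4]), (0, [1], [0, 1]), (1, [], [3, 4])]),
  (96, 0, 1, [(0, [0], [2, 4]), (0, [1], [0, 3]), (1, [], [1, 4])]),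
  (96, 0, 1, [(0, [0], [2, 4]), (0, [1], [1, 3]), (1, [], [0, 4])]),
  (96, 0, 1, [(0, [0], [3, 4]), (0, [1], [0, 1]), (1, [], [2, 4])]),
  (96, 0, 1, [(0, [0], [3, 4]), (0, [1], [0, 2]), (1, [], [1, 4])]),
  (96, 0, 1, [(0, [0], [3, 4]), (0, [1], [1, 2]), (1, [], [0, 4])]),
  (-96, 0, 1, [(0, [1], [0, 4]), (0, [0], [1, 2]), (1, [], [3, 4])]),
  (-96, 0, 1, [(0, [1], [0, 4]), (0, [0], [1, 3]), (1, [], [2, 4])]),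
  (-96, 0, 1, [(0, [1], [0, 4]), (0, [0], [2, 3]), (1, [], [1, 4])]),
  (-96, 0, 1, [(0, [1], [1, 4]), (0, [0], [0, 2]), (1, [], [3, 4])]),
  (-96, 0, 1, [(0, [1], [1, 4]), (0, [0], [0, 3]), (1, [], [2, 4])]),
  (-96, 0, 1, [(0, [1], [1, 4]), (0, [0], [2, 3]), (1, [], [0, 4])]),
  (-96, 0, 1, [(0, [1], [2, 4]), (0, [0], [0, 1]), (1, [], [3, 4])]),
  (-96, 0, 1, [(0, [1], [2, 4]), (0, [0], [0, 3]), (1, [], [1, 4])]),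
  (-96, 0, 1, [(0, [1], [2, 4]), (0, [0], [1, 3]), (1, [], [0, 4])]),
  (-96, 0, 1, [(0, [1], [3, 4]), (0, [0], [0, 1]), (1, [], [2, 4])]),
  (-96, 0, 1, [(0, [1], [3, 4]), (0, [0], [0, 2]), (1, [], [1, 4])]),
  (-96, 0, 1, [(0, [1], [3, 4]), (0, [0], [1, 2]), (1, [], [0, 4])])]

def z44_0 : Cov := []

def w44_0 : List (List Wit) := [[(0, 0, 0, 0, 0), (1, 0, 0, 0, 0), (0, 0, 0, 0, 0), (2, 0, 0, 0, 0), (1, 0, 0, 0, 0), (2, 0, 0, 0, 0), (3, 0, 0, 0, 0), (4, 0, 0, 0, 0), (3, 0, 0, 0, 0), (5, 0, 0, 0, 0), (4, 0, 0, 0, 0), (5, 0, 0, 0, 0), (6, 0, 0, 0, 0), (7, 0, 0, 0, 0), (6, 0, 0, 0, 0), (8, 0, 0, 0, 0), (7, 0, 0, 0, 0), (8, 0, 0, 0, 0), (9, 0, 0, 0, 0), (10, 0, 0, 0, 0), (9, 0, 0, 0, 0), (11, 0, 0, 0, 0), (10, 0, 0, 0, 0), (11, 0, 0, 0, 0)],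
  [(12, 0, 0, 0, 0), (13, 0, 0, 0, 0), (12, 0, 0, 0, 0), (14, 0, 0, 0, 0), (13, 0, 0, 0, 0), (14, 0, 0, 0, 0), (15, 0, 0, 0, 0), (16, 0, 0, 0, 0), (15, 0, 0, 0, 0), (17, 0, 0, 0, 0), (16, 0, 0, 0, 0), (17, 0, 0, 0, 0), (18, 0, 0, 0, 0), (19, 0, 0, 0, 0), (18, 0, 0, 0, 0), (20, 0, 0, 0, 0), (19, 0, 0, 0, 0), (20, 0, 0, 0, 0), (21, 0, 0, 0, 0), (22, 0, 0, 0, 0), (21, 0, 0, 0, 0), (23, 0, 0, 0, 0), (22, 0, 0, 0, 0), (23, 0, 0, 0, 0)]]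

theorem tr44 : trK keys lk44 kl44 = true := by
  decide +kernel

theorem x44_0 : expB 2 4 dg3 dg4 m44_0 (l44_0 ++ z44_0) w44_0 = true := by
  decide +kernel

theorem t44_0_0 : chkS lk44 2 4 [(1, m44_0)] l44_0
  [(0, 1, 1, 4411650, 3489825), (8, 16, 16, 2118705, 3282180), (8, 16, 16, 2118465, 3220740), (4, 1, 1, 3428370, 3428370), (10, 16, 16, 3163425, 2314500), (3, 1, 1, 3416085, 283410), (4, 1, 1, 3428610, 3428385), (10, 16, 16, 3162705, 1266180), (3, 1, 1, 3416325, 283425), (3, 1, 1, 4411905, 3490305), (3, 1, 1, 4411425, 3490050), (1, 1, 1, 4411650, 3489825), (7, 1, 1, 3428610, 3428385), (2, 16, 16, 5325600, 5448000), (2, 16, 16, 5325360, 5444160), (5, 1, 1, 2380035, 3409185), (9, 16, 16, 5252145, 5378820), (3, 1, 1, 2437380, 4207905), (5, 1, 1, 2379795, 3409170), (9,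 16, 16, 5251905, 5317380), (3, 1, 1, 2437140, 4207890), (3, 16, 16, 5391120, 5448720), (3, 16, 16, 5390640, 5444640), (6, 1, 1, 3416325, 283425)]
  [(0, 96), (1, 96), (2, -192), (4, 192), (5, -192), (6, -96), (7, -96), (8, 192), (9, -192), (10, 192)] = true := by
  decide +kernel

section

variable {κ ι : Type*} [Fintype κ] [Fintype ι] [Inhabited κ] [Inhabited ι]

noncomputable def F44_0 (E : Env κ ι) : (Fin 2 → κ) → (Fin 4 → ι) → ℝ := op2 (P3 κ) (P4 ι) (fB E 2 4 m44_0)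

def r44_0_0 : List (ℕ × ℤ) := [(0, 96), (1, 96), (2, -192), (4, 192), (5, -192), (6, -96), (7, -96), (8, 192), (9, -192), (10, 192)]

theorem h44_0_0 (E : Env κ ι) : ip (F44_0 E) (F44_0 E) = dotS (ek E lk44) r44_0_0 :=
  op_entryZ E lk44 2 4 _ _ _ _ (pg3 κ) (pg4 ι) m44_0 m44_0 l44_0 z44_0 w44_0 x44_0 (by decide) _ (chkS_sound E lk44 2 4 _ _ _ _ t44_0_0)

theorem row44_0 (E : Env κ ι) : RowG (ek E lk44) (F44_0 E) [F44_0 E] [r44_0_0] :=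
  rowG_cons _ _ _ _ _ _ (h44_0_0 E) (rowG_nil _ _)

def tab44 : List (List (List (ℕ × ℤ))) := [[r44_0_0]]

theorem tri44 (E : Env κ ι) : TriG (ek E lk44) [F44_0 E] tab44 := by
  refine triG_cons _ _ _ _ _ (row44_0 E) ?_
  exact triG_nil _

end

def lk45 : List Key := [
  (2, 6, [(0, [0], [0, 1]), (0, [0], [0, 1]), (0, [1], [2, 3]), (0, [1], [2, 4]), (1, [], [4, 5]), (1, [], [3, 5])]),
  (2, 6, [(0, [0], [0, 1]), (0, [0], [0, 1]), (0, [1], [2, 3]), (0, [1], [4, 5]), (1, [], [2, 4]), (1, [], [3, 5])]),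
  (2, 6, [(0, [0], [0, 1]), (0, [1], [2, 3]), (0, [1], [0, 2]), (0, [0], [1, 3]), (1, [], [4, 5]), (1, [], [4, 5])]),
  (2, 6, [(0, [0], [0, 1]), (0, [0], [2, 3]), (0, [1], [0, 2]), (0, [1], [1, 3]), (1, [], [4, 5]), (1, [], [4, 5])]),
  (2, 6, [(0, [0], [0, 1]), (0, [1], [2, 3]), (0, [0], [2, 4]), (0, [1], [0, 5]), (1, [], [3, 5]), (1, [], [1, 4])]),
  (2, 6, [(0, [0], [0, 1]), (0, [0], [0, 2]), (0, [1], [1, 2]), (0, [1], [3, 4]), (1, [], [3, 5]), (1, [], [4, 5])]),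
  (2, 6, [(0, [0], [0, 1]), (0, [0], [2, 0]), (0, [1], [3, 1]), (0, [1], [4, 5]), (1, [], [4, 5]), (1, [], [2, 3])]),
  (2, 6, [(0, [0], [0, 1]), (0, [0], [2, 0]), (0, [1], [3, 1]), (0, [1], [4, 5]), (1, [], [2, 4]), (1, [], [3, 5])]),
  (2, 6, [(0, [0], [0, 1]), (0, [0], [2, 0]), (0, [1], [3, 1]), (0, [1], [2, 4]), (1, [], [4, 5]), (1, [], [3, 5])]),
  (2, 6, [(0, [0], [0, 1]), (0, [0], [2, 0]), (0, [1], [3, 1]), (0, [1], [3, 4]), (1, [], [4, 5]), (1, [], [2, 5])]),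
  (2, 6, [(0, [0], [0, 1]), (0, [0], [2, 3]), (0, [1], [0, 1]), (0, [1], [4, 5]), (1, [], [2, 4]), (1, [], [3, 5])]),
  (2, 6, [(0, [0], [0, 1]), (0, [0], [2, 3]), (0, [1], [0, 1]), (0, [1], [2, 4]), (1, [], [4, 5]), (1, [], [3, 5])]),
  (2, 6, [(0, [0], [0, 1]), (0, [0], [2, 3]), (0, [1], [1, 3]), (0, [1], [4, 5]), (1, [], [4, 5]), (1, [], [0, 2])]),
  (2, 6, [(0, [0], [0, 1]), (0, [0], [2, 3]), (0, [1], [1, 3]), (0, [1], [4, 5]), (1, [], [0, 4]), (1, [], [2, 5])]),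
  (2, 6, [(0, [0], [0, 1]), (0, [0], [2, 3]), (0, [1], [1, 3]), (0, [1], [0, 4]), (1, [], [4, 5]), (1, [], [2, 5])]),
  (2, 6, [(0, [0], [0, 1]), (0, [0], [2, 1]), (0, [1], [3, 4]), (0, [1], [3, 5]), (1, [], [0, 5]), (1, [], [2, 4])]),
  (2, 6, [(0, [0], [0, 1]), (0, [0], [2, 1]), (0, [1], [3, 4]), (0, [1], [3, 5]), (1, [], [4, 5]), (1, [], [0, 2])]),
  (2, 6, [(0, [0], [0, 1]), (0, [0], [2, 3]), (0, [1], [4, 1]), (0, [1], [2, 5]), (1, [], [3, 5]), (1, [], [0, 4])])]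

def kl45 : List ℕ := [10, 11, 19, 20, 23, 33, 40, 41, 42, 43, 47, 48, 50, 51, 52, 62, 63, 65]

def m45_0 : Base := (0, 1, [(0, [0], [0, 4]), (0, [1], [1, 4]), (1, [], [2, 3])])

def l45_0 : Cov := [(48, 0, 1, [(0, [0], [0, 4]), (0, [1], [1, 4]), (1, [], [2, 3])]),
  (48, 0, 1, [(0, [0], [0, 4]), (0, [1], [2, 4]), (1, [], [1, 3])]),
  (48, 0, 1, [(0, [0], [1, 4]), (0, [1], [0, 4]), (1, [], [2, 3])]),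
  (-48, 0, 1, [(0, [0], [1, 4]), (0, [1], [3, 4]), (1, [], [2, 0])]),
  (48, 0, 1, [(0, [0], [2, 4]), (0, [1], [0, 4]), (1, [], [1, 3])]),
  (-48, 0, 1, [(0, [0], [2, 4]), (0, [1], [3, 4]), (1, [], [1, 0])]),
  (-48, 0, 1, [(0, [0], [3, 4]), (0, [1], [1, 4]), (1, [], [0, 2])]),
  (-48, 0, 1, [(0, [0], [3, 4]), (0, [1], [2, 4]), (1, [], [0, 1])])]

def z45_0 : Cov := [(0, 0, 1, [(0, [0], [0, 4]), (0, [1], [3, 4]), (1, [], [1, 2])]),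
  (0, 0, 1, [(0, [0], [1, 4]), (0, [1], [2, 4]), (1, [], [0, 3])]),
  (0, 0, 1, [(0, [0], [2, 4]), (0, [1], [1, 4]), (1, [], [0, 3])]),
  (0, 0, 1, [(0, [0], [3, 4]), (0, [1], [0, 4]), (1, [], [1, 2])])]

def w45_0 : List (List Wit) := [[(0, 0, 0, 0, 0), (0, 0, 0, 0, 0), (1, 0, 0, 0, 0), (1, 0, 0, 0, 0), (8, 0, 0, 0, 0), (8, 0, 0, 0, 0), (2, 0, 0, 0, 0), (9, 0, 0, 0, 0), (9, 0, 0, 0, 0), (3, 0, 0, 0, 0), (4, 0, 0, 0, 0), (10, 0, 0, 0, 0), (10, 0, 0, 0, 0), (5, 0, 0, 0, 0), (11, 0, 0, 0, 0), (11, 0, 0, 0, 0), (6, 0, 0, 0, 0), (6, 0, 0, 0, 0), (7, 0, 0, 0, 0), (7, 0, 0, 0, 0)],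
  [(2, 0, 0, 0, 0), (2, 0, 0, 0, 0), (4, 0, 0, 0, 0), (4, 0, 0, 0, 0), (11, 0, 0, 0, 0), (11, 0, 0, 0, 0), (0, 0, 0, 0, 0), (10, 0, 0, 0, 0), (10, 0, 0, 0, 0), (6, 0, 0, 0, 0), (1, 0, 0, 0, 0), (9, 0, 0, 0, 0), (9, 0, 0, 0, 0), (7, 0, 0, 0, 0), (8, 0, 0, 0, 0), (8, 0, 0, 0, 0), (3, 0, 0, 0, 0), (3, 0, 0, 0, 0), (5, 0, 0, 0, 0), (5, 0, 0, 0, 0)]]

def m45_1 : Base := (0, 1, [(0, [0], [0, 4]), (0, [1], [1, 2]), (1, [], [3, 4])])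

def l45_1 : Cov := [(48, 0, 1, [(0, [0], [0, 4]), (0, [1], [1, 2]), (1, [], [3, 4])]),
  (24, 0, 1, [(0, [0], [0, 4]), (0, [1], [1, 3]), (1, [], [2, 4])]),
  (24, 0, 1, [(0, [0], [0, 4]), (0, [1], [2, 3]), (1, [], [1, 4])]),
  (24, 0, 1, [(0, [0], [1, 4]), (0, [1], [0, 2]), (1, [], [3, 4])]),
  (-24, 0, 1, [(0, [0], [1, 4]), (0, [1], [2, 3]), (1, [], [0, 4])]),
  (24, 0, 1, [(0, [0], [2, 4]), (0, [1], [0, 1]), (1, [], [3, 4])]),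
  (-24, 0, 1, [(0, [0], [2, 4]), (0, [1], [1, 3]), (1, [], [0, 4])]),
  (-24, 0, 1, [(0, [0], [3, 4]), (0, [1], [0, 1]), (1, [], [2, 4])]),
  (-24, 0, 1, [(0, [0], [3, 4]), (0, [1], [0, 2]), (1, [], [1, 4])]),
  (-48, 0, 1, [(0, [0], [3, 4]), (0, [1], [1, 2]), (1, [], [0, 4])]),
  (48, 0, 1, [(0, [1], [0, 4]), (0, [0], [1, 2]), (1, [], [3, 4])]),
  (24, 0, 1, [(0, [1], [0, 4]), (0, [0], [1, 3]), (1, [], [2, 4])]),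
  (24, 0, 1, [(0, [1], [0, 4]), (0, [0], [2, 3]), (1, [], [1, 4])]),
  (24, 0, 1, [(0, [1], [1, 4]), (0, [0], [0, 2]), (1, [], [3, 4])]),
  (-24, 0, 1, [(0, [1], [1, 4]), (0, [0], [2, 3]), (1, [], [0, 4])]),
  (24, 0, 1, [(0, [1], [2, 4]), (0, [0], [0, 1]), (1, [], [3, 4])]),
  (-24, 0, 1, [(0, [1], [2, 4]), (0, [0], [1, 3]), (1, [], [0, 4])]),
  (-24, 0, 1, [(0, [1], [3, 4]), (0, [0], [0, 1]), (1, [], [2, 4])]),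
  (-24, 0, 1, [(0, [1], [3, 4]), (0, [0], [0, 2]), (1, [], [1, 4])]),
  (-48, 0, 1, [(0, [1], [3, 4]), (0, [0], [1, 2]), (1, [], [0, 4])])]

def z45_1 : Cov := []

def w45_1 : List (List Wit) := [[(0, 0, 0, 0, 0), (1, 0, 0, 0, 0), (0, 0, 0, 0, 0), (2, 0, 0, 0, 0), (1, 0, 0, 0, 0), (2, 0, 0, 0, 0), (3, 0, 0, 0, 0), (3, 0, 0, 0, 0), (4, 0, 0, 0, 0), (4, 0, 0, 0, 0), (5, 0, 0, 0, 0), (5, 0, 0, 0, 0), (6, 0, 0, 0, 0), (6, 0, 0, 0, 0), (7, 0, 0, 0, 0), (8, 0, 0, 0, 0), (7, 0, 0, 0, 0), (9, 0, 0, 0, 0), (8, 0, 0, 0, 0), (9, 0, 0, 0, 0)],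
  [(10, 0, 0, 0, 0), (11, 0, 0, 0, 0), (10, 0, 0, 0, 0), (12, 0, 0, 0, 0), (11, 0, 0, 0, 0), (12, 0, 0, 0, 0), (13, 0, 0, 0, 0), (13, 0, 0, 0, 0), (14, 0, 0, 0, 0), (14, 0, 0, 0, 0), (15, 0, 0, 0, 0), (15, 0, 0, 0, 0), (16, 0, 0, 0, 0), (16, 0, 0, 0, 0), (17, 0, 0, 0, 0), (18, 0, 0, 0, 0), (17, 0, 0, 0, 0), (19, 0, 0, 0, 0), (18, 0, 0, 0, 0), (19, 0, 0, 0, 0)]]

def m45_2 : Base := (0, 1, [(0, [0], [0, 4]), (0, [1], [1, 3]), (1, [], [2, 4])])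

def l45_2 : Cov := [(36, 0, 1, [(0, [0], [0, 4]), (0, [1], [1, 3]), (1, [], [2, 4])]),
  (24, 0, 1, [(0, [0], [0, 4]), (0, [1], [1, 2]), (1, [], [3, 4])]),
  (36, 0, 1, [(0, [0], [0, 4]), (0, [1], [2, 3]), (1, [], [1, 4])]),
  (12, 0, 1, [(0, [0], [1, 4]), (0, [1], [2, 3]), (1, [], [0, 4])]),
  (-12, 0, 1, [(0, [0], [1, 4]), (0, [1], [2, 0]), (1, [], [3, 4])]),
  (12, 0, 1, [(0, [0], [2, 4]), (0, [1], [1, 3]), (1, [], [0, 4])]),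
  (-12, 0, 1, [(0, [0], [2, 4]), (0, [1], [1, 0]), (1, [], [3, 4])]),
  (-36, 0, 1, [(0, [0], [3, 4]), (0, [1], [0, 2]), (1, [], [1, 4])]),
  (-36, 0, 1, [(0, [0], [3, 4]), (0, [1], [0, 1]), (1, [], [2, 4])]),
  (-24, 0, 1, [(0, [0], [3, 4]), (0, [1], [1, 2]), (1, [], [0, 4])]),
  (36, 0, 1, [(0, [1], [0, 4]), (0, [0], [1, 3]), (1, [], [2, 4])]),
  (24, 0, 1, [(0, [1], [0, 4]), (0, [0], [1, 2]), (1, [], [3, 4])]),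
  (36, 0, 1, [(0, [1], [0, 4]), (0, [0], [2, 3]), (1, [], [1, 4])]),
  (12, 0, 1, [(0, [1], [1, 4]), (0, [0], [2, 3]), (1, [], [0, 4])]),
  (-12, 0, 1, [(0, [1], [1, 4]), (0, [0], [2, 0]), (1, [], [3, 4])]),
  (12, 0, 1, [(0, [1], [2, 4]), (0, [0], [1, 3]), (1, [], [0, 4])]),
  (-12, 0, 1, [(0, [1], [2, 4]), (0, [0], [1, 0]), (1, [], [3, 4])]),
  (-36, 0, 1, [(0, [1], [3, 4]), (0, [0], [0, 2]), (1, [], [1, 4])]),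
  (-36, 0, 1, [(0, [1], [3, 4]), (0, [0], [0, 1]), (1, [], [2, 4])]),
  (-24, 0, 1, [(0, [1], [3, 4]), (0, [0], [1, 2]), (1, [], [0, 4])])]

def z45_2 : Cov := [(0, 0, 1, [(0, [0], [1, 4]), (0, [1], [0, 3]), (1, [], [2, 4])]),
  (0, 0, 1, [(0, [0], [2, 4]), (0, [1], [0, 3]), (1, [], [1, 4])]),
  (0, 0, 1, [(0, [1], [1, 4]), (0, [0], [0, 3]), (1, [], [2, 4])]),
  (0, 0, 1, [(0, [1], [2, 4]), (0, [0], [0, 3]), (1, [], [1, 4])])]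

def w45_2 : List (List Wit) := [[(0, 0, 0, 0, 0), (1, 0, 0, 0, 0), (2, 0, 0, 0, 0), (1, 0, 0, 0, 0), (2, 0, 0, 0, 0), (0, 0, 0, 0, 0), (20, 0, 0, 0, 0), (3, 0, 0, 0, 0), (4, 0, 0, 0, 0), (20, 0, 0, 0, 0), (21, 0, 0, 0, 0), (5, 0, 0, 0, 0), (6, 0, 0, 0, 0), (21, 0, 0, 0, 0), (7, 0, 0, 0, 0), (8, 0, 0, 0, 0), (9, 0, 0, 0, 0), (8, 0, 0, 0, 0), (9, 0, 0, 0, 0), (7, 0, 0, 0, 0)],
  [(10, 0, 0, 0, 0), (11, 0, 0, 0, 0), (12, 0, 0, 0, 0), (11, 0, 0, 0, 0), (12, 0, 0, 0, 0), (10, 0, 0, 0, 0), (22, 0, 0, 0, 0), (13, 0, 0, 0, 0), (14, 0, 0, 0, 0), (22, 0, 0, 0, 0), (23, 0, 0, 0, 0), (15, 0, 0, 0, 0), (16, 0, 0, 0, 0), (23, 0, 0, 0, 0), (17, 0, 0, 0, 0), (18, 0, 0, 0, 0), (19, 0, 0, 0, 0), (18, 0, 0, 0, 0), (19, 0, 0, 0, 0), (17, 0, 0, 0, 0)]]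

theorem tr45 : trK keys lk45 kl45 = true := by
  decide +kernel

theorem x45_0 : expB 2 4 dg2 dg5 m45_0 (l45_0 ++ z45_0) w45_0 = true := by
  decide +kernel

theorem x45_1 : expB 2 4 dg2 dg5 m45_1 (l45_1 ++ z45_1) w45_1 = true := by
  decide +kernel

theorem x45_2 : expB 2 4 dg2 dg5 m45_2 (l45_2 ++ z45_2) w45_2 = true := by
  decide +kernel

theorem t45_0_0 : chkS lk45 2 4 [(1, m45_0)] l45_0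
  [(2, 16, 16, 3167265, 3297540), (8, 16, 16, 2184240, 3282240), (3, 16, 16, 2184240, 3282240), (14, 1, 1, 3155220, 2118420), (14, 16, 16, 3166785, 3232260), (17, 16, 16, 2184000, 3220800), (8, 1, 1, 2180355, 2295105), (17, 16, 16, 2176320, 2176320)]
  [(2, 48), (3, 48), (17, -96)] = true := by
  decide +kernel

theorem t45_0_1 : chkS lk45 2 4 [(1, m45_0)] l45_1
  [(9, 16, 16, 2184240, 3282240), (9, 16, 16, 2180400, 2299200), (6, 16, 16, 2184240, 3282240), (14, 16, 16, 2184240, 3282240), (12, 16, 16, 2184240, 3282240), (5, 1, 1, 4281090, 3481665), (7, 1, 1, 5317635, 5374785), (5, 1, 1, 4273410, 2437185), (13, 1, 1, 4280835, 3473985), (7, 1, 1, 5325315, 5440065), (14, 16, 16, 4280880, 3478080), (14, 16, 16, 4269360, 2429760), (12, 1, 1, 2184195, 3278145), (9, 16, 16, 4280880,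 3478080), (6, 1, 1, 2184195, 3278145), (5, 16, 16, 4281120, 3481920), (13, 16, 16, 4269360, 2429760), (5, 16, 16, 4273440, 2437440), (7, 16, 16, 5325360, 5444160), (13, 16, 16, 4280880, 3478080)]
  [(7, -96), (9, 96), (13, -96), (14, 96)] = true := by
  decide +kernel

theorem t45_0_2 : chkS lk45 2 4 [(1, m45_0)] l45_2
  [(9, 16, 16, 2180400, 2299200), (9, 16, 16, 2184240, 3282240), (6, 16, 16, 2184240, 3282240), (12, 16, 16, 2184240, 3282240), (14, 16, 16, 2184240, 3282240), (7, 1, 1, 5317635, 5374785), (5, 1, 1, 4281090, 3481665), (13, 1, 1, 4280835, 3473985), (5, 1, 1, 4273410, 2437185), (7, 1, 1, 5325315, 5440065), (14, 16, 16, 4269360, 2429760), (14, 16, 16, 4280880, 3478080), (12, 1, 1, 2184195, 3278145), (6, 1, 1, 2184195, 3278145), (9, 16, 16, 4280880, 3478080),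 (13, 16, 16, 4269360, 2429760), (5, 16, 16, 4281120, 3481920), (7, 16, 16, 5325360, 5444160), (5, 16, 16, 4273440, 2437440), (13, 16, 16, 4280880, 3478080)]
  [(5, -96), (6, 48), (7, -48), (9, 48), (12, 48), (13, -48), (14, 48)] = true := by
  decide +kernel

theorem t45_1_1 : chkS lk45 2 4 [(1, m45_1)] l45_1
  [(0, 1, 1, 4411650, 3489825), (15, 16, 16, 2118705, 3282180), (15, 16, 16, 2118465, 3220740), (8, 1, 1, 3428370, 3428370), (7, 1, 1, 3416085, 283410), (8, 1, 1, 3428610, 3428385), (7, 1, 1, 3416325, 283425), (7, 1, 1, 4411905, 3490305), (7, 1, 1, 4411425, 3490050), (1, 1, 1, 4411650, 3489825), (11, 1, 1, 3428610, 3428385), (4, 16, 16, 5325600, 5448000), (4, 16, 16, 5325360, 5444160), (9, 1, 1, 2380035, 3409185), (7, 1, 1, 2437380, 4207905), (9, 1, 1, 2379795, 3409170),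 (7, 1, 1, 2437140, 4207890), (7, 16, 16, 5391120, 5448720), (7, 16, 16, 5390640, 5444640), (10, 1, 1, 3416325, 283425)]
  [(0, 48), (1, -48), (4, 48), (7, -192), (8, 48), (9, 48), (10, -48), (11, 48), (15, 48)] = true := by
  decide +kernel

theorem t45_1_2 : chkS lk45 2 4 [(1, m45_1)] l45_2
  [(15, 16, 16, 2118705, 3282180), (0, 1, 1, 4411650, 3489825), (15, 16, 16, 2118465, 3220740), (7, 1, 1, 3416085, 283410), (8, 1, 1, 3428370, 3428370), (7, 1, 1, 3416325, 283425), (8, 1, 1, 3428610, 3428385), (7, 1, 1, 4411425, 3490050), (7, 1, 1, 4411905, 3490305), (1, 1, 1, 4411650, 3489825), (4, 16, 16, 5325600, 5448000), (11, 1, 1, 3428610, 3428385), (4, 16, 16, 5325360, 5444160), (7, 1, 1, 2437380, 4207905), (9, 1, 1, 2380035, 3409185), (7, 1, 1, 2437140, 4207890), (9, 1, 1, 2379795,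 3409170), (7, 16, 16, 5390640, 5444640), (7, 16, 16, 5391120, 5448720), (10, 1, 1, 3416325, 283425)]
  [(0, 24), (1, -24), (4, 72), (7, -96), (8, -24), (9, -24), (10, -24), (11, 24), (15, 72)] = true := by
  decide +kernel

theorem t45_2_2 : chkS lk45 2 4 [(1, m45_2)] l45_2
  [(0, 1, 1, 4396290, 2441265), (15, 16, 16, 2114865, 2299140), (15, 16, 16, 2110785, 2176260), (7, 1, 1, 3408405, 283155), (17, 16, 16, 3167265, 3297540), (1, 1, 1, 4396290, 2441265), (7, 1, 1, 4400385, 2441985), (17, 16, 16, 3155025, 1200900), (8, 1, 1, 3413250, 2379825), (7, 1, 1, 3412485, 283185), (11, 1, 1, 3413250, 2379825), (4, 16, 16, 5321760, 5386560), (4, 16, 16, 5317680, 5378880), (7, 1, 1, 2429700, 4203825), (16, 16, 16, 5259825, 5444100), (10, 1, 1, 3412485, 283185), (7, 16, 16, 5387280,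 5387280), (16, 16, 16, 5255745, 5321220), (9, 1, 1, 2360595, 2360595), (7, 1, 1, 2425620, 4203795)]
  [(0, 36), (1, 12), (4, 60), (7, -48), (8, -36), (9, -36), (10, 12), (11, 36), (15, 60), (16, -48), (17, -48)] = true := by
  decide +kernel

section

variable {κ ι : Type*} [Fintype κ] [Fintype ι] [Inhabited κ] [Inhabited ι]

noncomputable def F45_0 (E : Env κ ι) : (Fin 2 → κ) → (Fin 4 → ι) → ℝ := op2 (P2 κ) (P5 ι) (fB E 2 4 m45_0)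

noncomputable def F45_1 (E : Env κ ι) : (Fin 2 → κ) → (Fin 4 → ι) → ℝ := op2 (P2 κ) (P5 ι) (fB E 2 4 m45_1)

noncomputable def F45_2 (E : Env κ ι) : (Fin 2 → κ) → (Fin 4 → ι) → ℝ := op2 (P2 κ) (P5 ι) (fB E 2 4 m45_2)

def r45_0_0 : List (ℕ × ℤ) := [(2, 48), (3, 48), (17, -96)]

theorem h45_0_0 (E : Env κ ι) : ip (F45_0 E) (F45_0 E) = dotS (ek E lk45) r45_0_0 :=
  op_entryZ E lk45 2 4 _ _ _ _ (pg2 κ) (pg5 ι) m45_0 m45_0 l45_0 z45_0 w45_0 x45_0 (by decide) _ (chkS_sound E lk45 2 4 _ _ _ _ t45_0_0)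

def r45_0_1 : List (ℕ × ℤ) := [(7, -96), (9, 96), (13, -96), (14, 96)]

theorem h45_0_1 (E : Env κ ι) : ip (F45_0 E) (F45_1 E) = dotS (ek E lk45) r45_0_1 :=
  op_entryZ E lk45 2 4 _ _ _ _ (pg2 κ) (pg5 ι) m45_0 m45_1 l45_1 z45_1 w45_1 x45_1 (by decide) _ (chkS_sound E lk45 2 4 _ _ _ _ t45_0_1)

def r45_0_2 : List (ℕ × ℤ) := [(5, -96), (6, 48), (7, -48), (9, 48), (12, 48), (13, -48), (14, 48)]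

theorem h45_0_2 (E : Env κ ι) : ip (F45_0 E) (F45_2 E) = dotS (ek E lk45) r45_0_2 :=
  op_entryZ E lk45 2 4 _ _ _ _ (pg2 κ) (pg5 ι) m45_0 m45_2 l45_2 z45_2 w45_2 x45_2 (by decide) _ (chkS_sound E lk45 2 4 _ _ _ _ t45_0_2)

def r45_1_1 : List (ℕ × ℤ) := [(0, 48), (1, -48), (4, 48), (7, -192), (8, 48), (9, 48), (10, -48), (11, 48), (15, 48)]

theorem h45_1_1 (E : Env κ ι) : ip (F45_1 E) (F45_1 E) = dotS (ek E lk45) r45_1_1 :=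
  op_entryZ E lk45 2 4 _ _ _ _ (pg2 κ) (pg5 ι) m45_1 m45_1 l45_1 z45_1 w45_1 x45_1 (by decide) _ (chkS_sound E lk45 2 4 _ _ _ _ t45_1_1)

def r45_1_2 : List (ℕ × ℤ) := [(0, 24), (1, -24), (4, 72), (7, -96), (8, -24), (9, -24), (10, -24), (11, 24), (15, 72)]

theorem h45_1_2 (E : Env κ ι) : ip (F45_1 E) (F45_2 E) = dotS (ek E lk45) r45_1_2 :=
  op_entryZ E lk45 2 4 _ _ _ _ (pg2 κ) (pg5 ι) m45_1 m45_2 l45_2 z45_2 w45_2 x45_2 (by decide) _ (chkS_sound E lk45 2 4 _ _ _ _ t45_1_2)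

def r45_2_2 : List (ℕ × ℤ) := [(0, 36), (1, 12), (4, 60), (7, -48), (8, -36), (9, -36), (10, 12), (11, 36), (15, 60), (16, -48), (17, -48)]

theorem h45_2_2 (E : Env κ ι) : ip (F45_2 E) (F45_2 E) = dotS (ek E lk45) r45_2_2 :=
  op_entryZ E lk45 2 4 _ _ _ _ (pg2 κ) (pg5 ι) m45_2 m45_2 l45_2 z45_2 w45_2 x45_2 (by decide) _ (chkS_sound E lk45 2 4 _ _ _ _ t45_2_2)

theorem row45_0 (E : Env κ ι) : RowG (ek E lk45) (F45_0 E) [F45_0 E, F45_1 E, F45_2 E] [r45_0_0, r45_0_1, r45_0_2] :=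
  rowG_cons _ _ _ _ _ _ (h45_0_0 E) (rowG_cons _ _ _ _ _ _ (h45_0_1 E) (rowG_cons _ _ _ _ _ _ (h45_0_2 E) (rowG_nil _ _)))

theorem row45_1 (E : Env κ ι) : RowG (ek E lk45) (F45_1 E) [F45_1 E, F45_2 E] [r45_1_1, r45_1_2] :=
  rowG_cons _ _ _ _ _ _ (h45_1_1 E) (rowG_cons _ _ _ _ _ _ (h45_1_2 E) (rowG_nil _ _))

theorem row45_2 (E : Env κ ι) : RowG (ek E lk45) (F45_2 E) [F45_2 E] [r45_2_2] :=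
  rowG_cons _ _ _ _ _ _ (h45_2_2 E) (rowG_nil _ _)

def tab45 : List (List (List (ℕ × ℤ))) := [[r45_0_0, r45_0_1, r45_0_2], [r45_1_1, r45_1_2], [r45_2_2]]

theorem tri45 (E : Env κ ι) : TriG (ek E lk45) [F45_0 E, F45_1 E, F45_2 E] tab45 := by
  refine triG_cons _ _ _ _ _ (row45_0 E) ?_
  refine triG_cons _ _ _ _ _ (row45_1 E) ?_
  refine triG_cons _ _ _ _ _ (row45_2 E) ?_
  exact triG_nil _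

end

def lk46 : List Key := [
  (2, 4, [(0, [0], [0, 1]), (0, [1], [2, 3]), (0, [0], [2, 3]), (0, [1], [0, 1])]),
  (2, 4, [(0, [0], [0, 1]), (0, [1], [2, 3]), (0, [1], [0, 2]), (0, [0], [1, 3])]),
  (2, 4, [(0, [0], [0, 1]), (0, [0], [0, 1]), (0, [1], [2, 3]), (0, [1], [2, 3])]),
  (2, 6, [(0, [0], [0, 1]), (0, [0], [0, 1]), (0, [1], [2, 3]), (0, [1], [2, 4]), (1, [], [4, 5]), (1, [], [3, 5])]),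
  (2, 6, [(0, [0], [0, 1]), (0, [0], [0, 1]), (0, [1], [2, 3]), (0, [1], [4, 5]), (1, [], [2, 4]), (1, [], [3, 5])]),
  (2, 6, [(0, [0], [0, 1]), (0, [1], [2, 3]), (0, [1], [0, 2]), (0, [0], [1, 3]), (1, [], [4, 5]), (1, [], [4, 5])]),
  (2, 6, [(0, [0], [0, 1]), (0, [0], [2, 3]), (0, [1], [0, 2]), (0, [1], [1, 3]), (1, [], [4, 5]), (1, [], [4, 5])]),
  (2, 6, [(0, [0], [0, 1]), (0, [1], [2, 3]), (0, [0], [2, 4]), (0, [1], [0, 5]), (1, [], [3, 5]), (1, [], [1, 4])]),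
  (2, 5, [(0, [0], [0, 1]), (0, [1], [0, 2]), (0, [0], [2, 3]), (0, [1], [1, 4]), (1, [], [3, 4])]),
  (2, 5, [(0, [0], [0, 1]), (0, [0], [2, 3]), (0, [1], [2, 4]), (0, [1], [0, 4]), (1, [], [1, 3])]),
  (2, 5, [(0, [0], [0, 1]), (0, [0], [0, 2]), (0, [1], [1, 2]), (0, [1], [3, 4]), (1, [], [3, 4])]),
  (2, 6, [(0, [0], [0, 1]), (0, [0], [0, 2]), (0, [1], [1, 2]), (0, [1], [3, 4]), (1, [], [3, 5]), (1, [], [4, 5])]),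
  (2, 5, [(0, [0], [0, 1]), (0, [0], [0, 1]), (0, [1], [2, 3]), (0, [1], [2, 4]), (1, [], [3, 4])]),
  (2, 6, [(0, [0], [0, 1]), (0, [0], [2, 0]), (0, [1], [3, 1]), (0, [1], [4, 5]), (1, [], [4, 5]), (1, [], [2, 3])]),
  (2, 6, [(0, [0], [0, 1]), (0, [0], [2, 0]), (0, [1], [3, 1]), (0, [1], [4, 5]), (1, [], [2, 4]), (1, [], [3, 5])]),
  (2, 6, [(0, [0], [0, 1]), (0, [0], [2, 0]), (0, [1], [3, 1]), (0, [1], [2, 4]), (1, [], [4, 5]), (1, [], [3, 5])]),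
  (2, 6, [(0, [0], [0, 1]), (0, [0], [2, 0]), (0, [1], [3, 1]), (0, [1], [3, 4]), (1, [], [4, 5]), (1, [], [2, 5])]),
  (2, 5, [(0, [0], [0, 1]), (0, [0], [2, 0]), (0, [1], [3, 1]), (0, [1], [3, 4]), (1, [], [2, 4])]),
  (2, 6, [(0, [0], [0, 1]), (0, [0], [2, 3]), (0, [1], [0, 1]), (0, [1], [4, 5]), (1, [], [2, 4]), (1, [], [3, 5])]),
  (2, 6, [(0, [0], [0, 1]), (0, [0], [2, 3]), (0, [1], [0, 1]), (0, [1], [2, 4]), (1, [], [4, 5]), (1, [], [3, 5])]),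
  (2, 5, [(0, [0], [0, 1]), (0, [0], [2, 3]), (0, [1], [0, 1]), (0, [1], [2, 4]), (1, [], [3, 4])]),
  (2, 6, [(0, [0], [0, 1]), (0, [0], [2, 3]), (0, [1], [1, 3]), (0, [1], [4, 5]), (1, [], [4, 5]), (1, [], [0, 2])]),
  (2, 6, [(0, [0], [0, 1]), (0, [0], [2, 3]), (0, [1], [1, 3]), (0, [1], [4, 5]), (1, [], [0, 4]), (1, [], [2, 5])]),
  (2, 6, [(0, [0], [0, 1]), (0, [0], [2, 3]), (0, [1], [1, 3]), (0, [1], [0, 4]), (1, [], [4, 5]), (1, [], [2, 5])]),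
  (2, 6, [(0, [0], [0, 1]), (0, [0], [2, 1]), (0, [1], [3, 4]), (0, [1], [3, 5]), (1, [], [0, 5]), (1, [], [2, 4])]),
  (2, 6, [(0, [0], [0, 1]), (0, [0], [2, 1]), (0, [1], [3, 4]), (0, [1], [3, 5]), (1, [], [4, 5]), (1, [], [0, 2])]),
  (2, 6, [(0, [0], [0, 1]), (0, [0], [2, 3]), (0, [1], [4, 1]), (0, [1], [2, 5]), (1, [], [3, 5]), (1, [], [0, 4])])]

def kl46 : List ℕ := [2, 5, 8, 10, 11, 19, 20, 23, 28, 29, 32, 33, 36, 40, 41, 42, 43, 44, 47, 48, 49, 50, 51, 52, 62, 63, 65]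

def m46_0 : Base := (0, 1, [(0, [0], [0, 4]), (0, [1], [1, 4]), (1, [], [2, 3])])

def l46_0 : Cov := [(24, 0, 1, [(0, [0], [0, 4]), (0, [1], [1, 4]), (1, [], [2, 3])]),
  (24, 0, 1, [(0, [0], [0, 4]), (0, [1], [2, 4]), (1, [], [1, 3])]),
  (48, 0, 1, [(0, [0], [0, 4]), (0, [1], [3, 4]), (1, [], [1, 2])]),
  (-24, 0, 1, [(0, [0], [1, 4]), (0, [1], [0, 4]), (1, [], [2, 3])]),
  (24, 0, 1, [(0, [0], [1, 4]), (0, [1], [3, 4]), (1, [], [2, 0])]),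
  (-24, 0, 1, [(0, [0], [2, 4]), (0, [1], [0, 4]), (1, [], [1, 3])]),
  (24, 0, 1, [(0, [0], [2, 4]), (0, [1], [3, 4]), (1, [], [1, 0])]),
  (-48, 0, 1, [(0, [0], [3, 4]), (0, [1], [0, 4]), (1, [], [1, 2])]),
  (-24, 0, 1, [(0, [0], [3, 4]), (0, [1], [1, 4]), (1, [], [0, 2])]),
  (-24, 0, 1, [(0, [0], [3, 4]), (0, [1], [2, 4]), (1, [], [0, 1])])]

def z46_0 : Cov := [(0, 0, 1, [(0, [0], [1, 4]), (0, [1], [2, 4]), (1, [], [0, 3])]),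
  (0, 0, 1, [(0, [0], [2, 4]), (0, [1], [1, 4]), (1, [], [0, 3])])]

def w46_0 : List (List Wit) := [[(0, 0, 0, 0, 0), (0, 0, 0, 0, 0), (1, 0, 0, 0, 0), (1, 0, 0, 0, 0), (2, 0, 0, 0, 0), (2, 0, 0, 0, 0), (3, 0, 0, 0, 0), (10, 0, 0, 0, 0), (10, 0, 0, 0, 0), (4, 0, 0, 0, 0), (5, 0, 0, 0, 0), (11, 0, 0, 0, 0), (11, 0, 0, 0, 0), (6, 0, 0, 0, 0), (7, 0, 0, 0, 0), (7, 0, 0, 0, 0), (8, 0, 0, 0, 0), (8, 0, 0, 0, 0), (9, 0, 0, 0, 0), (9, 0, 0, 0, 0)],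
  [(3, 0, 0, 0, 0), (3, 0, 0, 0, 0), (5, 0, 0, 0, 0), (5, 0, 0, 0, 0), (7, 0, 0, 0, 0), (7, 0, 0, 0, 0), (0, 0, 0, 0, 0), (11, 0, 0, 0, 0), (11, 0, 0, 0, 0), (8, 0, 0, 0, 0), (1, 0, 0, 0, 0), (10, 0, 0, 0, 0), (10, 0, 0, 0, 0), (9, 0, 0, 0, 0), (2, 0, 0, 0, 0), (2, 0, 0, 0, 0), (4, 0, 0, 0, 0), (4, 0, 0, 0, 0), (6, 0, 0, 0, 0), (6, 0, 0, 0, 0)]]

def m46_1 : Base := (0, 1, [(0, [0], [0, 4]), (0, [1], [1, 2]), (1, [], [3, 4])])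

def l46_1 : Cov := [(48, 0, 1, [(0, [0], [0, 4]), (0, [1], [1, 2]), (1, [], [3, 4])]),
  (24, 0, 1, [(0, [0], [0, 4]), (0, [1], [1, 3]), (1, [], [2, 4])]),
  (24, 0, 1, [(0, [0], [0, 4]), (0, [1], [2, 3]), (1, [], [1, 4])]),
  (24, 0, 1, [(0, [0], [1, 4]), (0, [1], [0, 2]), (1, [], [3, 4])]),
  (-24, 0, 1, [(0, [0], [1, 4]), (0, [1], [2, 3]), (1, [], [0, 4])]),
  (24, 0, 1, [(0, [0], [2, 4]), (0, [1], [0, 1]), (1, [], [3, 4])]),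
  (-24, 0, 1, [(0, [0], [2, 4]), (0, [1], [1, 3]), (1, [], [0, 4])]),
  (-24, 0, 1, [(0, [0], [3, 4]), (0, [1], [0, 1]), (1, [], [2, 4])]),
  (-24, 0, 1, [(0, [0], [3, 4]), (0, [1], [0, 2]), (1, [], [1, 4])]),
  (-48, 0, 1, [(0, [0], [3, 4]), (0, [1], [1, 2]), (1, [], [0, 4])]),
  (-48, 0, 1, [(0, [1], [0, 4]), (0, [0], [1, 2]), (1, [], [3, 4])]),
  (-24, 0, 1, [(0, [1], [0, 4]), (0, [0], [1, 3]), (1, [], [2, 4])]),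
  (-24, 0, 1, [(0, [1], [0, 4]), (0, [0], [2, 3]), (1, [], [1, 4])]),
  (-24, 0, 1, [(0, [1], [1, 4]), (0, [0], [0, 2]), (1, [], [3, 4])]),
  (24, 0, 1, [(0, [1], [1, 4]), (0, [0], [2, 3]), (1, [], [0, 4])]),
  (-24, 0, 1, [(0, [1], [2, 4]), (0, [0], [0, 1]), (1, [], [3, 4])]),
  (24, 0, 1, [(0, [1], [2, 4]), (0, [0], [1, 3]), (1, [], [0, 4])]),
  (24, 0, 1, [(0, [1], [3, 4]), (0, [0], [0, 1]), (1, [], [2, 4])]),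
  (24, 0, 1, [(0, [1], [3, 4]), (0, [0], [0, 2]), (1, [], [1, 4])]),
  (48, 0, 1, [(0, [1], [3, 4]), (0, [0], [1, 2]), (1, [], [0, 4])])]

def z46_1 : Cov := []

def w46_1 : List (List Wit) := [[(0, 0, 0, 0, 0), (1, 0, 0, 0, 0), (0, 0, 0, 0, 0), (2, 0, 0, 0, 0), (1, 0, 0, 0, 0), (2, 0, 0, 0, 0), (3, 0, 0, 0, 0), (3, 0, 0, 0, 0), (4, 0, 0, 0, 0), (4, 0, 0, 0, 0), (5, 0, 0, 0, 0), (5, 0, 0, 0, 0), (6, 0, 0, 0, 0), (6, 0, 0, 0, 0), (7, 0, 0, 0, 0), (8, 0, 0, 0, 0), (7, 0, 0, 0, 0), (9, 0, 0, 0, 0), (8, 0, 0, 0, 0), (9, 0, 0, 0, 0)],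
  [(10, 0, 0, 0, 0), (11, 0, 0, 0, 0), (10, 0, 0, 0, 0), (12, 0, 0, 0, 0), (11, 0, 0, 0, 0), (12, 0, 0, 0, 0), (13, 0, 0, 0, 0), (13, 0, 0, 0, 0), (14, 0, 0, 0, 0), (14, 0, 0, 0, 0), (15, 0, 0, 0, 0), (15, 0, 0, 0, 0), (16, 0, 0, 0, 0), (16, 0, 0, 0, 0), (17, 0, 0, 0, 0), (18, 0, 0, 0, 0), (17, 0, 0, 0, 0), (19, 0, 0, 0, 0), (18, 0, 0, 0, 0), (19, 0, 0, 0, 0)]]

def m46_2 : Base := (0, 1, [(0, [0], [0, 4]), (0, [1], [1, 3]), (1, [], [2, 4])])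

def l46_2 : Cov := [(36, 0, 1, [(0, [0], [0, 4]), (0, [1], [1, 3]), (1, [], [2, 4])]),
  (24, 0, 1, [(0, [0], [0, 4]), (0, [1], [1, 2]), (1, [], [3, 4])]),
  (36, 0, 1, [(0, [0], [0, 4]), (0, [1], [2, 3]), (1, [], [1, 4])]),
  (12, 0, 1, [(0, [0], [1, 4]), (0, [1], [2, 3]), (1, [], [0, 4])]),
  (-12, 0, 1, [(0, [0], [1, 4]), (0, [1], [2, 0]), (1, [], [3, 4])]),
  (12, 0, 1, [(0, [0], [2, 4]), (0, [1], [1, 3]), (1, [], [0, 4])]),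
  (-12, 0, 1, [(0, [0], [2, 4]), (0, [1], [1, 0]), (1, [], [3, 4])]),
  (-36, 0, 1, [(0, [0], [3, 4]), (0, [1], [0, 2]), (1, [], [1, 4])]),
  (-36, 0, 1, [(0, [0], [3, 4]), (0, [1], [0, 1]), (1, [], [2, 4])]),
  (-24, 0, 1, [(0, [0], [3, 4]), (0, [1], [1, 2]), (1, [], [0, 4])]),
  (-36, 0, 1, [(0, [1], [0, 4]), (0, [0], [1, 3]), (1, [], [2, 4])]),
  (-24, 0, 1, [(0, [1], [0, 4]), (0, [0], [1, 2]), (1, [], [3, 4])]),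
  (-36, 0, 1, [(0, [1], [0, 4]), (0, [0], [2, 3]), (1, [], [1, 4])]),
  (-12, 0, 1, [(0, [1], [1, 4]), (0, [0], [2, 3]), (1, [], [0, 4])]),
  (12, 0, 1, [(0, [1], [1, 4]), (0, [0], [2, 0]), (1, [], [3, 4])]),
  (-12, 0, 1, [(0, [1], [2, 4]), (0, [0], [1, 3]), (1, [], [0, 4])]),
  (12, 0, 1, [(0, [1], [2, 4]), (0, [0], [1, 0]), (1, [], [3, 4])]),
  (36, 0, 1, [(0, [1], [3, 4]), (0, [0], [0, 2]), (1, [], [1, 4])]),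
  (36, 0, 1, [(0, [1], [3, 4]), (0, [0], [0, 1]), (1, [], [2, 4])]),
  (24, 0, 1, [(0, [1], [3, 4]), (0, [0], [1, 2]), (1, [], [0, 4])])]

def z46_2 : Cov := [(0, 0, 1, [(0, [0], [1, 4]), (0, [1], [0, 3]), (1, [], [2, 4])]),
  (0, 0, 1, [(0, [0], [2, 4]), (0, [1], [0, 3]), (1, [], [1, 4])]),
  (0, 0, 1, [(0, [1], [1, 4]), (0, [0], [0, 3]), (1, [], [2, 4])]),
  (0, 0, 1, [(0, [1], [2, 4]), (0, [0], [0, 3]), (1, [], [1, 4])])]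

def w46_2 : List (List Wit) := [[(0, 0, 0, 0, 0), (1, 0, 0, 0, 0), (2, 0, 0, 0, 0), (1, 0, 0, 0, 0), (2, 0, 0, 0, 0), (0, 0, 0, 0, 0), (20, 0, 0, 0, 0), (3, 0, 0, 0, 0), (4, 0, 0, 0, 0), (20, 0, 0, 0, 0), (21, 0, 0, 0, 0), (5, 0, 0, 0, 0), (6, 0, 0, 0, 0), (21, 0, 0, 0, 0), (7, 0, 0, 0, 0), (8, 0, 0, 0, 0), (9, 0, 0, 0, 0), (8, 0, 0, 0, 0), (9, 0, 0, 0, 0), (7, 0, 0, 0, 0)],
  [(10, 0, 0, 0, 0), (11, 0, 0, 0, 0), (12, 0, 0, 0, 0), (11, 0, 0, 0, 0), (12, 0, 0, 0, 0), (10, 0, 0, 0, 0), (22, 0, 0, 0, 0), (13, 0, 0, 0, 0), (14, 0, 0, 0, 0), (22, 0, 0, 0, 0), (23, 0, 0, 0, 0), (15, 0, 0, 0, 0), (16, 0, 0, 0, 0), (23, 0, 0, 0, 0), (17, 0, 0, 0, 0), (18, 0, 0, 0, 0), (19, 0, 0, 0, 0), (18, 0, 0, 0, 0), (19, 0, 0, 0, 0), (17, 0, 0, 0, 0)]]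

def m46_3 : Base := (0, 0, [(0, [0], [0, 1]), (0, [1], [2, 3])])

def l46_3 : Cov := [(96, 0, 0, [(0, [0], [0, 1]), (0, [1], [2, 3])]),
  (96, 0, 0, [(0, [0], [0, 2]), (0, [1], [1, 3])]),
  (-96, 0, 0, [(0, [0], [1, 3]), (0, [1], [2, 0])]),
  (-96, 0, 0, [(0, [0], [2, 3]), (0, [1], [1, 0])])]

def z46_3 : Cov := [(0, 0, 0, [(0, [0], [0, 3]), (0, [1], [1, 2])]),
  (0, 0, 0, [(0, [0], [1, 2]), (0, [1], [0, 3])])]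

def w46_3 : List (List Wit) := [[(0, 0, 0, 0, 0), (0, 0, 0, 0, 0), (1, 0, 0, 0, 0), (1, 0, 0, 0, 0), (4, 0, 0, 0, 0), (4, 0, 0, 0, 0), (0, 0, 0, 0, 0), (5, 0, 0, 0, 0), (5, 0, 0, 0, 0), (2, 0, 0, 0, 0), (1, 0, 0, 0, 0), (5, 0, 0, 0, 0), (5, 0, 0, 0, 0), (3, 0, 0, 0, 0), (4, 0, 0, 0, 0), (4, 0, 0, 0, 0), (2, 0, 0, 0, 0), (2, 0, 0, 0, 0), (3, 0, 0, 0, 0), (3, 0, 0, 0, 0)],
  [(3, 0, 0, 0, 0), (3, 0, 0, 0, 0), (2, 0, 0, 0, 0), (2, 0, 0, 0, 0), (5, 0, 0, 0, 0), (5, 0, 0, 0, 0), (3, 0, 0, 0, 0), (4, 0, 0, 0, 0), (4, 0, 0, 0, 0), (1, 0, 0, 0, 0), (2, 0, 0, 0, 0), (4, 0, 0, 0, 0), (4, 0, 0, 0, 0), (0, 0, 0, 0, 0), (5, 0, 0, 0, 0), (5, 0, 0, 0, 0), (1, 0, 0, 0, 0), (1, 0, 0, 0, 0), (0, 0, 0, 0, 0), (0, 0, 0, 0, 0)]]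

theorem tr46 : trK keys lk46 kl46 = true := by
  decide +kernel

theorem x46_0 : expB 2 4 dg3 dg5 m46_0 (l46_0 ++ z46_0) w46_0 = true := by
  decide +kernel

theorem x46_1 : expB 2 4 dg3 dg5 m46_1 (l46_1 ++ z46_1) w46_1 = true := by
  decide +kernel

theorem x46_2 : expB 2 4 dg3 dg5 m46_2 (l46_2 ++ z46_2) w46_2 = true := by
  decide +kernel

theorem x46_3 : expB 2 4 dg3 dg5 m46_3 (l46_3 ++ z46_3) w46_3 = true := by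
  decide +kernel

theorem t46_0_0 : chkS lk46 2 4 [(1, m46_0)] l46_0
  [(5, 16, 16, 3167265, 3297540), (15, 16, 16, 2184240, 3282240), (15, 16, 16, 2180400, 2299200), (6, 16, 16, 2184240, 3282240), (23, 1, 1, 3155220, 2118420), (23, 16, 16, 3166785, 3232260), (26, 16, 16, 2184000, 3220800), (23, 16, 16, 3155265, 2183940), (15, 1, 1, 2180355, 2295105), (26, 16, 16, 2176320, 2176320)]
  [(5, 24), (6, -24), (15, 48), (23, -48), (26, 0)] = true := by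
  decide +kernel

theorem t46_0_1 : chkS lk46 2 4 [(1, m46_0)] l46_1
  [(16, 16, 16, 2184240, 3282240), (16, 16, 16, 2180400, 2299200), (13, 16, 16, 2184240, 3282240), (23, 16, 16, 2184240, 3282240), (21, 16, 16, 2184240, 3282240), (11, 1, 1, 4281090, 3481665), (14, 1, 1, 5317635, 5374785), (11, 1, 1, 4273410, 2437185), (22, 1, 1, 4280835, 3473985), (14, 1, 1, 5325315, 5440065), (23, 16, 16, 4280880, 3478080), (23, 16, 16, 4269360, 2429760), (21, 1, 1, 2184195, 3278145), (16, 16, 16, 4280880, 3478080), (13, 1, 1, 2184195, 3278145), (11, 16, 16, 4281120, 3481920), (22, 16, 16, 4269360, 2429760), (11, 16, 16, 4273440, 2437440), (14, 16, 16, 5325360, 5444160), (22, 16, 16, 4280880, 3478080)]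
  [(13, 48), (14, -48), (16, 48), (21, -48), (22, 48), (23, -48)] = true := by
  decide +kernel

theorem t46_0_2 : chkS lk46 2 4 [(1, m46_0)] l46_2
  [(16, 16, 16, 2180400, 2299200), (16, 16, 16, 2184240, 3282240), (13, 16, 16, 2184240, 3282240), (21, 16, 16, 2184240, 3282240), (23, 16, 16, 2184240, 3282240), (14, 1, 1, 5317635, 5374785), (11, 1, 1, 4281090, 3481665), (22, 1, 1, 4280835, 3473985), (11, 1, 1, 4273410, 2437185), (14, 1, 1, 5325315, 5440065), (23, 16, 16, 4269360, 2429760), (23, 16, 16, 4280880, 3478080), (21, 1, 1, 2184195, 3278145), (13, 1, 1, 2184195, 3278145), (16, 16, 16, 4280880, 3478080), (22, 16, 16, 4269360, 2429760), (11, 16, 16, 4281120, 3481920), (14, 16, 16, 5325360, 5444160), (11, 16, 16, 4273440, 2437440), (22, 16, 16, 4280880, 3478080)]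
  [(13, 24), (14, 24), (16, 72), (21, -24), (22, -24), (23, -72)] = true := by
  decide +kernel

theorem t46_0_3 : chkS lk46 2 4 [(1, m46_0)] l46_3
  [(10, 16, 16, 82720, 205120), (17, 16, 16, 82480, 201280), (8, 16, 16, 13345, 143620), (10, 1, 1, 82690, 204865)]
  [(8, -96), (17, 96)] = true := by
  decide +kernel

theorem t46_1_1 : chkS lk46 2 4 [(1, m46_1)] l46_1
  [(3, 1, 1, 4411650, 3489825), (24, 16, 16, 2118705, 3282180), (24, 16, 16, 2118465, 3220740), (15, 1, 1, 3428370, 3428370), (14, 1, 1, 3416085, 283410), (15, 1, 1, 3428610, 3428385), (14, 1, 1, 3416325, 283425), (14, 1, 1, 4411905, 3490305), (14, 1, 1, 4411425, 3490050), (4, 1, 1, 4411650, 3489825), (19, 1, 1, 3428610, 3428385), (7, 16, 16, 5325600, 5448000), (7, 16, 16, 5325360, 5444160), (16, 1, 1, 2380035,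 3409185), (14, 1, 1, 2437380, 4207905), (16, 1, 1, 2379795, 3409170), (14, 1, 1, 2437140, 4207890), (14, 16, 16, 5391120, 5448720), (14, 16, 16, 5390640, 5444640), (18, 1, 1, 3416325, 283425)]
  [(3, 48), (4, -48), (7, -48), (15, 48), (16, -48), (18, 48), (19, -48), (24, 48)] = true := by
  decide +kernel

theorem t46_1_2 : chkS lk46 2 4 [(1, m46_1)] l46_2
  [(24, 16, 16, 2118705, 3282180), (3, 1, 1, 4411650, 3489825), (24, 16, 16, 2118465, 3220740), (14, 1, 1, 3416085, 283410), (15, 1, 1, 3428370, 3428370), (14, 1, 1, 3416325, 283425), (15, 1, 1, 3428610, 3428385), (14, 1, 1, 4411425, 3490050), (14, 1, 1, 4411905, 3490305), (4, 1, 1, 4411650, 3489825), (7, 16, 16, 5325600, 5448000), (19, 1, 1, 3428610, 3428385), (7, 16, 16, 5325360, 5444160), (14, 1, 1, 2437380, 4207905),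 (16, 1, 1, 2380035, 3409185), (14, 1, 1, 2437140, 4207890), (16, 1, 1, 2379795, 3409170), (14, 16, 16, 5390640, 5444640), (14, 16, 16, 5391120, 5448720), (18, 1, 1, 3416325, 283425)]
  [(3, 24), (4, -24), (7, -72), (15, -24), (16, 24), (18, 24), (19, -24), (24, 72)] = true := by
  decide +kernel

theorem t46_1_3 : chkS lk46 2 4 [(1, m46_1)] l46_3
  [(17, 1, 1, 270355, 262930), (17, 1, 1, 270595, 262945), (9, 16, 16, 78880, 143680), (9, 16, 16, 78400, 78400)]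
  [(9, -192), (17, 192)] = true := by
  decide +kernel

theorem t46_2_2 : chkS lk46 2 4 [(1, m46_2)] l46_2
  [(3, 1, 1, 4396290, 2441265), (24, 16, 16, 2114865, 2299140), (24, 16, 16, 2110785, 2176260), (14, 1, 1, 3408405, 283155), (26, 16, 16, 3167265, 3297540), (4, 1, 1, 4396290, 2441265), (14, 1, 1, 4400385, 2441985), (26, 16, 16, 3155025, 1200900), (15, 1, 1, 3413250, 2379825), (14, 1, 1, 3412485, 283185), (19, 1, 1, 3413250, 2379825), (7, 16, 16, 5321760, 5386560), (7, 16, 16, 5317680, 5378880), (14, 1, 1, 2429700, 4203825), (25, 16, 16, 5259825, 5444100), (18, 1, 1, 3412485, 283185), (14, 16, 16, 5387280, 5387280), (25, 16, 16, 5255745, 5321220), (16, 1, 1, 2360595, 2360595), (14, 1, 1, 2425620, 4203795)]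
  [(3, 36), (4, 12), (7, -60), (15, -36), (16, 36), (18, -12), (19, -36), (24, 60), (25, 48), (26, -48)] = true := by
  decide +kernel

theorem t46_2_3 : chkS lk46 2 4 [(1, m46_2)] l46_3
  [(17, 1, 1, 262675, 262675), (12, 1, 1, 201730, 147505), (20, 1, 1, 267010, 270385), (9, 16, 16, 74560, 74560)]
  [(9, -96), (12, 96), (17, 96), (20, -96)] = true := by
  decide +kernel

theorem t46_3_3 : chkS lk46 2 4 [(1, m46_3)] l46_3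
  [(2, 16, 16, 12816, 12816), (1, 16, 16, 8961, 8961), (1, 16, 16, 12816, 12816), (0, 16, 16, 12816, 12816)]
  [(0, -96), (2, 96)] = true := by
  decide +kernel

section

variable {κ ι : Type*} [Fintype κ] [Fintype ι] [Inhabited κ] [Inhabited ι]

noncomputable def F46_0 (E : Env κ ι) : (Fin 2 → κ) → (Fin 4 → ι) → ℝ := op2 (P3 κ) (P5 ι) (fB E 2 4 m46_0)

noncomputable def F46_1 (E : Env κ ι) : (Fin 2 → κ) → (Fin 4 → ι) → ℝ := op2 (P3 κ) (P5 ι) (fB E 2 4 m46_1)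

noncomputable def F46_2 (E : Env κ ι) : (Fin 2 → κ) → (Fin 4 → ι) → ℝ := op2 (P3 κ) (P5 ι) (fB E 2 4 m46_2)

noncomputable def F46_3 (E : Env κ ι) : (Fin 2 → κ) → (Fin 4 → ι) → ℝ := op2 (P3 κ) (P5 ι) (fB E 2 4 m46_3)

def r46_0_0 : List (ℕ × ℤ) := [(5, 24), (6, -24), (15, 48), (23, -48), (26, 0)]

theorem h46_0_0 (E : Env κ ι) : ip (F46_0 E) (F46_0 E) = dotS (ek E lk46) r46_0_0 :=
  op_entryZ E lk46 2 4 _ _ _ _ (pg3 κ) (pg5 ι) m46_0 m46_0 l46_0 z46_0 w46_0 x46_0 (by decide) _ (chkS_sound E lk46 2 4 _ _ _ _ t46_0_0)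

def r46_0_1 : List (ℕ × ℤ) := [(13, 48), (14, -48), (16, 48), (21, -48), (22, 48), (23, -48)]

theorem h46_0_1 (E : Env κ ι) : ip (F46_0 E) (F46_1 E) = dotS (ek E lk46) r46_0_1 :=
  op_entryZ E lk46 2 4 _ _ _ _ (pg3 κ) (pg5 ι) m46_0 m46_1 l46_1 z46_1 w46_1 x46_1 (by decide) _ (chkS_sound E lk46 2 4 _ _ _ _ t46_0_1)

def r46_0_2 : List (ℕ × ℤ) := [(13, 24), (14, 24), (16, 72), (21, -24), (22, -24), (23, -72)]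

theorem h46_0_2 (E : Env κ ι) : ip (F46_0 E) (F46_2 E) = dotS (ek E lk46) r46_0_2 :=
  op_entryZ E lk46 2 4 _ _ _ _ (pg3 κ) (pg5 ι) m46_0 m46_2 l46_2 z46_2 w46_2 x46_2 (by decide) _ (chkS_sound E lk46 2 4 _ _ _ _ t46_0_2)

def r46_0_3 : List (ℕ × ℤ) := [(8, -96), (17, 96)]

theorem h46_0_3 (E : Env κ ι) : ip (F46_0 E) (F46_3 E) = dotS (ek E lk46) r46_0_3 :=
  op_entryZ E lk46 2 4 _ _ _ _ (pg3 κ) (pg5 ι) m46_0 m46_3 l46_3 z46_3 w46_3 x46_3 (by decide) _ (chkS_sound E lk46 2 4 _ _ _ _ t46_0_3)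

def r46_1_1 : List (ℕ × ℤ) := [(3, 48), (4, -48), (7, -48), (15, 48), (16, -48), (18, 48), (19, -48), (24, 48)]

theorem h46_1_1 (E : Env κ ι) : ip (F46_1 E) (F46_1 E) = dotS (ek E lk46) r46_1_1 :=
  op_entryZ E lk46 2 4 _ _ _ _ (pg3 κ) (pg5 ι) m46_1 m46_1 l46_1 z46_1 w46_1 x46_1 (by decide) _ (chkS_sound E lk46 2 4 _ _ _ _ t46_1_1)

def r46_1_2 : List (ℕ × ℤ) := [(3, 24), (4, -24), (7, -72), (15, -24), (16, 24), (18, 24), (19, -24), (24, 72)]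

theorem h46_1_2 (E : Env κ ι) : ip (F46_1 E) (F46_2 E) = dotS (ek E lk46) r46_1_2 :=
  op_entryZ E lk46 2 4 _ _ _ _ (pg3 κ) (pg5 ι) m46_1 m46_2 l46_2 z46_2 w46_2 x46_2 (by decide) _ (chkS_sound E lk46 2 4 _ _ _ _ t46_1_2)

def r46_1_3 : List (ℕ × ℤ) := [(9, -192), (17, 192)]

theorem h46_1_3 (E : Env κ ι) : ip (F46_1 E) (F46_3 E) = dotS (ek E lk46) r46_1_3 :=
  op_entryZ E lk46 2 4 _ _ _ _ (pg3 κ) (pg5 ι) m46_1 m46_3 l46_3 z46_3 w46_3 x46_3 (by decide) _ (chkS_sound E lk46 2 4 _ _ _ _ t46_1_3)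

def r46_2_2 : List (ℕ × ℤ) := [(3, 36), (4, 12), (7, -60), (15, -36), (16, 36), (18, -12), (19, -36), (24, 60), (25, 48), (26, -48)]

theorem h46_2_2 (E : Env κ ι) : ip (F46_2 E) (F46_2 E) = dotS (ek E lk46) r46_2_2 :=
  op_entryZ E lk46 2 4 _ _ _ _ (pg3 κ) (pg5 ι) m46_2 m46_2 l46_2 z46_2 w46_2 x46_2 (by decide) _ (chkS_sound E lk46 2 4 _ _ _ _ t46_2_2)

def r46_2_3 : List (ℕ × ℤ) := [(9, -96), (12, 96), (17, 96), (20, -96)]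

theorem h46_2_3 (E : Env κ ι) : ip (F46_2 E) (F46_3 E) = dotS (ek E lk46) r46_2_3 :=
  op_entryZ E lk46 2 4 _ _ _ _ (pg3 κ) (pg5 ι) m46_2 m46_3 l46_3 z46_3 w46_3 x46_3 (by decide) _ (chkS_sound E lk46 2 4 _ _ _ _ t46_2_3)

def r46_3_3 : List (ℕ × ℤ) := [(0, -96), (2, 96)]

theorem h46_3_3 (E : Env κ ι) : ip (F46_3 E) (F46_3 E) = dotS (ek E lk46) r46_3_3 :=
  op_entryZ E lk46 2 4 _ _ _ _ (pg3 κ) (pg5 ι) m46_3 m46_3 l46_3 z46_3 w46_3 x46_3 (by decide) _ (chkS_sound E lk46 2 4 _ _ _ _ t46_3_3)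

theorem row46_0 (E : Env κ ι) : RowG (ek E lk46) (F46_0 E) [F46_0 E, F46_1 E, F46_2 E, F46_3 E] [r46_0_0, r46_0_1, r46_0_2, r46_0_3] :=
  rowG_cons _ _ _ _ _ _ (h46_0_0 E) (rowG_cons _ _ _ _ _ _ (h46_0_1 E) (rowG_cons _ _ _ _ _ _ (h46_0_2 E) (rowG_cons _ _ _ _ _ _ (h46_0_3 E) (rowG_nil _ _))))

theorem row46_1 (E : Env κ ι) : RowG (ek E lk46) (F46_1 E) [F46_1 E, F46_2 E, F46_3 E] [r46_1_1, r46_1_2, r46_1_3] :=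
  rowG_cons _ _ _ _ _ _ (h46_1_1 E) (rowG_cons _ _ _ _ _ _ (h46_1_2 E) (rowG_cons _ _ _ _ _ _ (h46_1_3 E) (rowG_nil _ _)))

theorem row46_2 (E : Env κ ι) : RowG (ek E lk46) (F46_2 E) [F46_2 E, F46_3 E] [r46_2_2, r46_2_3] :=
  rowG_cons _ _ _ _ _ _ (h46_2_2 E) (rowG_cons _ _ _ _ _ _ (h46_2_3 E) (rowG_nil _ _))

theorem row46_3 (E : Env κ ι) : RowG (ek E lk46) (F46_3 E) [F46_3 E] [r46_3_3] :=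
  rowG_cons _ _ _ _ _ _ (h46_3_3 E) (rowG_nil _ _)

def tab46 : List (List (List (ℕ × ℤ))) := [[r46_0_0, r46_0_1, r46_0_2, r46_0_3], [r46_1_1, r46_1_2, r46_1_3], [r46_2_2, r46_2_3], [r46_3_3]]

theorem tri46 (E : Env κ ι) : TriG (ek E lk46) [F46_0 E, F46_1 E, F46_2 E, F46_3 E] tab46 := by
  refine triG_cons _ _ _ _ _ (row46_0 E) ?_
  refine triG_cons _ _ _ _ _ (row46_1 E) ?_
  refine triG_cons _ _ _ _ _ (row46_2 E) ?_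
  refine triG_cons _ _ _ _ _ (row46_3 E) ?_
  exact triG_nil _

end

def lk47 : List Key := [
  (2, 4, [(0, [0], [0, 1]), (0, [1], [2, 3]), (0, [0], [2, 3]), (0, [1], [0, 1])]),
  (2, 4, [(0, [0], [0, 1]), (0, [1], [2, 3]), (0, [1], [0, 2]), (0, [0], [1, 3])]),
  (2, 4, [(0, [0], [0, 1]), (0, [0], [0, 1]), (0, [1], [2, 3]), (0, [1], [2, 3])]),
  (2, 6, [(0, [0], [0, 1]), (0, [0], [0, 1]), (0, [1], [2, 3]), (0, [1], [2, 4]), (1, [], [4, 5]), (1, [], [3, 5])]),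
  (2, 6, [(0, [0], [0, 1]), (0, [0], [0, 1]), (0, [1], [2, 3]), (0, [1], [4, 5]), (1, [], [2, 4]), (1, [], [3, 5])]),
  (2, 6, [(0, [0], [0, 1]), (0, [1], [2, 3]), (0, [1], [0, 2]), (0, [0], [1, 3]), (1, [], [4, 5]), (1, [], [4, 5])]),
  (2, 6, [(0, [0], [0, 1]), (0, [0], [2, 3]), (0, [1], [0, 2]), (0, [1], [1, 3]), (1, [], [4, 5]), (1, [], [4, 5])]),
  (2, 6, [(0, [0], [0, 1]), (0, [1], [2, 3]), (0, [0], [2, 4]), (0, [1], [0, 5]), (1, [], [3, 5]), (1, [], [1, 4])]),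
  (2, 5, [(0, [0], [0, 1]), (0, [1], [0, 2]), (0, [0], [2, 3]), (0, [1], [1, 4]), (1, [], [3, 4])]),
  (2, 5, [(0, [0], [0, 1]), (0, [0], [2, 3]), (0, [1], [2, 4]), (0, [1], [0, 4]), (1, [], [1, 3])]),
  (2, 5, [(0, [0], [0, 1]), (0, [0], [0, 2]), (0, [1], [1, 2]), (0, [1], [3, 4]), (1, [], [3, 4])]),
  (2, 6, [(0, [0], [0, 1]), (0, [0], [0, 2]), (0, [1], [1, 2]), (0, [1], [3, 4]), (1, [], [3, 5]), (1, [], [4, 5])]),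
  (2, 5, [(0, [0], [0, 1]), (0, [0], [0, 1]), (0, [1], [2, 3]), (0, [1], [2, 4]), (1, [], [3, 4])]),
  (2, 6, [(0, [0], [0, 1]), (0, [0], [2, 0]), (0, [1], [3, 1]), (0, [1], [4, 5]), (1, [], [4, 5]), (1, [], [2, 3])]),
  (2, 6, [(0, [0], [0, 1]), (0, [0], [2, 0]), (0, [1], [3, 1]), (0, [1], [4, 5]), (1, [], [2, 4]), (1, [], [3, 5])]),
  (2, 6, [(0, [0], [0, 1]), (0, [0], [2, 0]), (0, [1], [3, 1]), (0, [1], [2, 4]), (1, [], [4, 5]), (1, [], [3, 5])]),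
  (2, 6, [(0, [0], [0, 1]), (0, [0], [2, 0]), (0, [1], [3, 1]), (0, [1], [3, 4]), (1, [], [4, 5]), (1, [], [2, 5])]),
  (2, 5, [(0, [0], [0, 1]), (0, [0], [2, 0]), (0, [1], [3, 1]), (0, [1], [3, 4]), (1, [], [2, 4])]),
  (2, 6, [(0, [0], [0, 1]), (0, [0], [2, 3]), (0, [1], [0, 1]), (0, [1], [4, 5]), (1, [], [2, 4]), (1, [], [3, 5])]),
  (2, 6, [(0, [0], [0, 1]), (0, [0], [2, 3]), (0, [1], [0, 1]), (0, [1], [2, 4]), (1, [], [4, 5]), (1, [], [3, 5])]),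
  (2, 5, [(0, [0], [0, 1]), (0, [0], [2, 3]), (0, [1], [0, 1]), (0, [1], [2, 4]), (1, [], [3, 4])]),
  (2, 6, [(0, [0], [0, 1]), (0, [0], [2, 3]), (0, [1], [1, 3]), (0, [1], [4, 5]), (1, [], [4, 5]), (1, [], [0, 2])]),
  (2, 6, [(0, [0], [0, 1]), (0, [0], [2, 3]), (0, [1], [1, 3]), (0, [1], [4, 5]), (1, [], [0, 4]), (1, [], [2, 5])]),
  (2, 6, [(0, [0], [0, 1]), (0, [0], [2, 3]), (0, [1], [1, 3]), (0, [1], [0, 4]), (1, [], [4, 5]), (1, [], [2, 5])]),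
  (2, 6, [(0, [0], [0, 1]), (0, [0], [2, 1]), (0, [1], [3, 4]), (0, [1], [3, 5]), (1, [], [0, 5]), (1, [], [2, 4])]),
  (2, 6, [(0, [0], [0, 1]), (0, [0], [2, 1]), (0, [1], [3, 4]), (0, [1], [3, 5]), (1, [], [4, 5]), (1, [], [0, 2])]),
  (2, 6, [(0, [0], [0, 1]), (0, [0], [2, 3]), (0, [1], [4, 1]), (0, [1], [2, 5]), (1, [], [3, 5]), (1, [], [0, 4])])]

def kl47 : List ℕ := [2, 5, 8, 10, 11, 19, 20, 23, 28, 29, 32, 33, 36, 40, 41, 42, 43, 44, 47, 48, 49, 50, 51, 52, 62, 63, 65]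

def m47_0 : Base := (0, 1, [(0, [0], [0, 4]), (0, [1], [1, 4]), (1, [], [2, 3])])

def l47_0 : Cov := [(96, 0, 1, [(0, [0], [0, 4]), (0, [1], [1, 4]), (1, [], [2, 3])]),
  (-96, 0, 1, [(0, [0], [0, 4]), (0, [1], [3, 4]), (1, [], [1, 2])]),
  (96, 0, 1, [(0, [0], [1, 4]), (0, [1], [0, 4]), (1, [], [2, 3])]),
  (-96, 0, 1, [(0, [0], [1, 4]), (0, [1], [2, 4]), (1, [], [0, 3])]),
  (-96, 0, 1, [(0, [0], [2, 4]), (0, [1], [1, 4]), (1, [], [0, 3])]),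
  (96, 0, 1, [(0, [0], [2, 4]), (0, [1], [3, 4]), (1, [], [0, 1])]),
  (-96, 0, 1, [(0, [0], [3, 4]), (0, [1], [0, 4]), (1, [], [1, 2])]),
  (96, 0, 1, [(0, [0], [3, 4]), (0, [1], [2, 4]), (1, [], [0, 1])])]

def z47_0 : Cov := [(0, 0, 1, [(0, [0], [0, 4]), (0, [1], [2, 4]), (1, [], [1, 3])]),
  (0, 0, 1, [(0, [0], [1, 4]), (0, [1], [3, 4]), (1, [], [0, 2])]),
  (0, 0, 1, [(0, [0], [2, 4]), (0, [1], [0, 4]), (1, [], [1, 3])]),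
  (0, 0, 1, [(0, [0], [3, 4]), (0, [1], [1, 4]), (1, [], [0, 2])])]

def w47_0 : List (List Wit) := [[(0, 0, 0, 0, 0), (0, 0, 0, 0, 0), (8, 0, 0, 0, 0), (8, 0, 0, 0, 0), (1, 0, 0, 0, 0), (1, 0, 0, 0, 0), (2, 0, 0, 0, 0), (2, 0, 0, 0, 0), (3, 0, 0, 0, 0), (3, 0, 0, 0, 0), (9, 0, 0, 0, 0), (9, 0, 0, 0, 0), (10, 0, 0, 0, 0), (10, 0, 0, 0, 0), (4, 0, 0, 0, 0), (4, 0, 0, 0, 0), (5, 0, 0, 0, 0), (5, 0, 0, 0, 0), (6, 0, 0, 0, 0), (6, 0, 0, 0, 0), (11, 0, 0, 0, 0), (11, 0, 0, 0, 0), (7, 0, 0, 0, 0), (7, 0, 0, 0, 0)],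
  [(2, 0, 0, 0, 0), (2, 0, 0, 0, 0), (10, 0, 0, 0, 0), (10, 0, 0, 0, 0), (6, 0, 0, 0, 0), (6, 0, 0, 0, 0), (0, 0, 0, 0, 0), (0, 0, 0, 0, 0), (4, 0, 0, 0, 0), (4, 0, 0, 0, 0), (11, 0, 0, 0, 0), (11, 0, 0, 0, 0), (8, 0, 0, 0, 0), (8, 0, 0, 0, 0), (3, 0, 0, 0, 0), (3, 0, 0, 0, 0), (7, 0, 0, 0, 0), (7, 0, 0, 0, 0), (1, 0, 0, 0, 0), (1, 0, 0, 0, 0), (9, 0, 0, 0, 0), (9, 0, 0, 0, 0), (5, 0, 0, 0, 0), (5, 0, 0, 0, 0)]]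

def m47_1 : Base := (0, 1, [(0, [0], [0, 4]), (0, [1], [1, 2]), (1, [], [3, 4])])

def l47_1 : Cov := [(48, 0, 1, [(0, [0], [0, 4]), (0, [1], [1, 2]), (1, [], [3, 4])]),
  (-48, 0, 1, [(0, [0], [0, 4]), (0, [1], [2, 3]), (1, [], [1, 4])]),
  (48, 0, 1, [(0, [0], [1, 4]), (0, [1], [0, 3]), (1, [], [2, 4])]),
  (-48, 0, 1, [(0, [0], [1, 4]), (0, [1], [2, 3]), (1, [], [0, 4])]),
  (-48, 0, 1, [(0, [0], [2, 4]), (0, [1], [0, 1]), (1, [], [3, 4])]),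
  (48, 0, 1, [(0, [0], [2, 4]), (0, [1], [0, 3]), (1, [], [1, 4])]),
  (-48, 0, 1, [(0, [0], [3, 4]), (0, [1], [0, 1]), (1, [], [2, 4])]),
  (48, 0, 1, [(0, [0], [3, 4]), (0, [1], [1, 2]), (1, [], [0, 4])]),
  (48, 0, 1, [(0, [1], [0, 4]), (0, [0], [1, 2]), (1, [], [3, 4])]),
  (-48, 0, 1, [(0, [1], [0, 4]), (0, [0], [2, 3]), (1, [], [1, 4])]),
  (48, 0, 1, [(0, [1], [1, 4]), (0, [0], [0, 3]), (1, [], [2, 4])]),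
  (-48, 0, 1, [(0, [1], [1, 4]), (0, [0], [2, 3]), (1, [], [0, 4])]),
  (-48, 0, 1, [(0, [1], [2, 4]), (0, [0], [0, 1]), (1, [], [3, 4])]),
  (48, 0, 1, [(0, [1], [2, 4]), (0, [0], [0, 3]), (1, [], [1, 4])]),
  (-48, 0, 1, [(0, [1], [3, 4]), (0, [0], [0, 1]), (1, [], [2, 4])]),
  (48, 0, 1, [(0, [1], [3, 4]), (0, [0], [1, 2]), (1, [], [0, 4])])]

def z47_1 : Cov := [(0, 0, 1, [(0, [0], [0, 4]), (0, [1], [1, 3]), (1, [], [2, 4])]),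
  (0, 0, 1, [(0, [0], [1, 4]), (0, [1], [0, 2]), (1, [], [3, 4])]),
  (0, 0, 1, [(0, [0], [2, 4]), (0, [1], [1, 3]), (1, [], [0, 4])]),
  (0, 0, 1, [(0, [0], [3, 4]), (0, [1], [0, 2]), (1, [], [1, 4])]),
  (0, 0, 1, [(0, [1], [0, 4]), (0, [0], [1, 3]), (1, [], [2, 4])]),
  (0, 0, 1, [(0, [1], [1, 4]), (0, [0], [0, 2]), (1, [], [3, 4])]),
  (0, 0, 1, [(0, [1], [2, 4]), (0, [0], [1, 3]), (1, [], [0, 4])]),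
  (0, 0, 1, [(0, [1], [3, 4]), (0, [0], [0, 2]), (1, [], [1, 4])])]

def w47_1 : List (List Wit) := [[(0, 0, 0, 0, 0), (16, 0, 0, 0, 0), (0, 0, 0, 0, 0), (1, 0, 0, 0, 0), (16, 0, 0, 0, 0), (1, 0, 0, 0, 0), (17, 0, 0, 0, 0), (2, 0, 0, 0, 0), (17, 0, 0, 0, 0), (3, 0, 0, 0, 0), (2, 0, 0, 0, 0), (3, 0, 0, 0, 0), (4, 0, 0, 0, 0), (5, 0, 0, 0, 0), (4, 0, 0, 0, 0), (18, 0, 0, 0, 0), (5, 0, 0, 0, 0), (18, 0, 0, 0, 0), (6, 0, 0, 0, 0), (19, 0, 0, 0, 0), (6, 0, 0, 0, 0), (7, 0, 0, 0, 0), (19, 0, 0, 0, 0), (7, 0, 0, 0, 0)],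
  [(8, 0, 0, 0, 0), (20, 0, 0, 0, 0), (8, 0, 0, 0, 0), (9, 0, 0, 0, 0), (20, 0, 0, 0, 0), (9, 0, 0, 0, 0), (21, 0, 0, 0, 0), (10, 0, 0, 0, 0), (21, 0, 0, 0, 0), (11, 0, 0, 0, 0), (10, 0, 0, 0, 0), (11, 0, 0, 0, 0), (12, 0, 0, 0, 0), (13, 0, 0, 0, 0), (12, 0, 0, 0, 0), (22, 0, 0, 0, 0), (13, 0, 0, 0, 0), (22, 0, 0, 0, 0), (14, 0, 0, 0, 0), (23, 0, 0, 0, 0), (14, 0, 0, 0, 0), (15, 0, 0, 0, 0), (23, 0, 0, 0, 0), (15, 0, 0, 0, 0)]]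

def m47_2 : Base := (0, 0, [(0, [0], [0, 1]), (0, [1], [2, 3])])

def l47_2 : Cov := [(192, 0, 0, [(0, [0], [0, 1]), (0, [1], [2, 3])]),
  (-192, 0, 0, [(0, [0], [0, 3]), (0, [1], [1, 2])]),
  (-192, 0, 0, [(0, [0], [1, 2]), (0, [1], [0, 3])]),
  (192, 0, 0, [(0, [0], [2, 3]), (0, [1], [0, 1])])]

def z47_2 : Cov := [(0, 0, 0, [(0, [0], [0, 2]), (0, [1], [1, 3])]),
  (0, 0, 0, [(0, [0], [1, 3]), (0, [1], [0, 2])])]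

def w47_2 : List (List Wit) := [[(0, 0, 0, 0, 0), (0, 0, 0, 0, 0), (4, 0, 0, 0, 0), (4, 0, 0, 0, 0), (1, 0, 0, 0, 0), (1, 0, 0, 0, 0), (0, 0, 0, 0, 0), (0, 0, 0, 0, 0), (2, 0, 0, 0, 0), (2, 0, 0, 0, 0), (5, 0, 0, 0, 0), (5, 0, 0, 0, 0), (4, 0, 0, 0, 0), (4, 0, 0, 0, 0), (2, 0, 0, 0, 0), (2, 0, 0, 0, 0), (3, 0, 0, 0, 0), (3, 0, 0, 0, 0), (1, 0, 0, 0, 0), (1, 0, 0, 0, 0), (5, 0, 0, 0, 0), (5, 0, 0, 0, 0), (3, 0, 0, 0, 0), (3, 0, 0, 0, 0)],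
  [(3, 0, 0, 0, 0), (3, 0, 0, 0, 0), (5, 0, 0, 0, 0), (5, 0, 0, 0, 0), (2, 0, 0, 0, 0), (2, 0, 0, 0, 0), (3, 0, 0, 0, 0), (3, 0, 0, 0, 0), (1, 0, 0, 0, 0), (1, 0, 0, 0, 0), (4, 0, 0, 0, 0), (4, 0, 0, 0, 0), (5, 0, 0, 0, 0), (5, 0, 0, 0, 0), (1, 0, 0, 0, 0), (1, 0, 0, 0, 0), (0, 0, 0, 0, 0), (0, 0, 0, 0, 0), (2, 0, 0, 0, 0), (2, 0, 0, 0, 0), (4, 0, 0, 0, 0), (4, 0, 0, 0, 0), (0, 0, 0, 0, 0), (0, 0, 0, 0, 0)]]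

theorem tr47 : trK keys lk47 kl47 = true := by
  decide +kernel

theorem x47_0 : expB 2 4 dg2 dg6 m47_0 (l47_0 ++ z47_0) w47_0 = true := by
  decide +kernel

theorem x47_1 : expB 2 4 dg2 dg6 m47_1 (l47_1 ++ z47_1) w47_1 = true := by
  decide +kernel

theorem x47_2 : expB 2 4 dg2 dg6 m47_2 (l47_2 ++ z47_2) w47_2 = true := by
  decide +kernel

theorem t47_0_0 : chkS lk47 2 4 [(1, m47_0)] l47_0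
  [(5, 16, 16, 3167265, 3297540), (15, 16, 16, 2180400, 2299200), (6, 16, 16, 2184240, 3282240), (23, 1, 1, 3166740, 3166740), (15, 1, 1, 2184195, 3278145), (26, 16, 16, 2184000, 3220800), (23, 16, 16, 3155265, 2183940), (26, 16, 16, 2176320, 2176320)]
  [(5, 96), (6, 96), (15, -192), (23, -192), (26, 192)] = true := by
  decide +kernel

theorem t47_0_1 : chkS lk47 2 4 [(1, m47_0)] l47_1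
  [(16, 16, 16, 2184240, 3282240), (13, 16, 16, 2184240, 3282240), (23, 16, 16, 2180400, 2299200), (21, 16, 16, 2184240, 3282240), (11, 1, 1, 4281090, 3481665), (22, 1, 1, 4269315, 2425665), (11, 1, 1, 4273410, 2437185), (14, 1, 1, 5325315, 5440065), (23, 16, 16, 4280880, 3478080), (21, 1, 1, 2184195, 3278145), (16, 16, 16, 4269360, 2429760), (13, 1, 1, 2184195, 3278145), (11, 16, 16, 4281120, 3481920), (14, 16, 16, 5317680, 5378880), (11, 16, 16, 4273440, 2437440), (22, 16, 16, 4280880, 3478080)]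
  [(11, -192), (13, -96), (14, 96), (16, 96), (21, -96), (22, 96), (23, 96)] = true := by
  decide +kernel

theorem t47_0_2 : chkS lk47 2 4 [(1, m47_0)] l47_2
  [(10, 16, 16, 82720, 205120), (17, 16, 16, 74800, 136000), (8, 16, 16, 17185, 205060), (10, 1, 1, 82690, 204865)]
  [(8, -192), (10, 384), (17, -192)] = true := by
  decide +kernel

theorem t47_1_1 : chkS lk47 2 4 [(1, m47_1)] l47_1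
  [(3, 1, 1, 4411650, 3489825), (24, 16, 16, 2118465, 3220740), (26, 16, 16, 3163425, 2314500), (14, 1, 1, 3416085, 283410), (15, 1, 1, 3428610, 3428385), (26, 16, 16, 3162705, 1266180), (14, 1, 1, 4411905, 3490305), (4, 1, 1, 4411650, 3489825), (19, 1, 1, 3428610, 3428385), (7, 16, 16, 5325360, 5444160), (25, 16, 16, 5252145, 5378820), (14, 1, 1, 2437380, 4207905), (16, 1, 1, 2379795, 3409170), (25, 16, 16, 5251905, 5317380), (14, 16, 16, 5391120, 5448720), (18, 1, 1, 3416325, 283425)]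
  [(3, 48), (4, 48), (7, -48), (14, -192), (15, -48), (16, -48), (18, 48), (19, 48), (24, -48), (25, 96), (26, 96)] = true := by
  decide +kernel

theorem t47_1_2 : chkS lk47 2 4 [(1, m47_1)] l47_2
  [(17, 1, 1, 270355, 262930), (12, 1, 1, 213250, 213025), (20, 1, 1, 274690, 274465), (9, 16, 16, 78400, 78400)]
  [(9, 192), (12, -192), (17, 192), (20, -192)] = true := by
  decide +kernel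

theorem t47_2_2 : chkS lk47 2 4 [(1, m47_2)] l47_2
  [(2, 16, 16, 12816, 12816), (1, 16, 16, 12801, 12801), (1, 16, 16, 8976, 8976), (0, 16, 16, 12816, 12816)]
  [(0, 192), (1, -384), (2, 192)] = true := by
  decide +kernel

section

variable {κ ι : Type*} [Fintype κ] [Fintype ι] [Inhabited κ] [Inhabited ι]

noncomputable def F47_0 (E : Env κ ι) : (Fin 2 → κ) → (Fin 4 → ι) → ℝ := op2 (P2 κ) (P6 ι) (fB E 2 4 m47_0)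

noncomputable def F47_1 (E : Env κ ι) : (Fin 2 → κ) → (Fin 4 → ι) → ℝ := op2 (P2 κ) (P6 ι) (fB E 2 4 m47_1)

noncomputable def F47_2 (E : Env κ ι) : (Fin 2 → κ) → (Fin 4 → ι) → ℝ := op2 (P2 κ) (P6 ι) (fB E 2 4 m47_2)

def r47_0_0 : List (ℕ × ℤ) := [(5, 96), (6, 96), (15, -192), (23, -192), (26, 192)]

theorem h47_0_0 (E : Env κ ι) : ip (F47_0 E) (F47_0 E) = dotS (ek E lk47) r47_0_0 :=
  op_entryZ E lk47 2 4 _ _ _ _ (pg2 κ) (pg6 ι) m47_0 m47_0 l47_0 z47_0 w47_0 x47_0 (by decide) _ (chkS_sound E lk47 2 4 _ _ _ _ t47_0_0)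

def r47_0_1 : List (ℕ × ℤ) := [(11, -192), (13, -96), (14, 96), (16, 96), (21, -96), (22, 96), (23, 96)]

theorem h47_0_1 (E : Env κ ι) : ip (F47_0 E) (F47_1 E) = dotS (ek E lk47) r47_0_1 :=
  op_entryZ E lk47 2 4 _ _ _ _ (pg2 κ) (pg6 ι) m47_0 m47_1 l47_1 z47_1 w47_1 x47_1 (by decide) _ (chkS_sound E lk47 2 4 _ _ _ _ t47_0_1)

def r47_0_2 : List (ℕ × ℤ) := [(8, -192), (10, 384), (17, -192)]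

theorem h47_0_2 (E : Env κ ι) : ip (F47_0 E) (F47_2 E) = dotS (ek E lk47) r47_0_2 :=
  op_entryZ E lk47 2 4 _ _ _ _ (pg2 κ) (pg6 ι) m47_0 m47_2 l47_2 z47_2 w47_2 x47_2 (by decide) _ (chkS_sound E lk47 2 4 _ _ _ _ t47_0_2)

def r47_1_1 : List (ℕ × ℤ) := [(3, 48), (4, 48), (7, -48), (14, -192), (15, -48), (16, -48), (18, 48), (19, 48), (24, -48), (25, 96), (26, 96)]

theorem h47_1_1 (E : Env κ ι) : ip (F47_1 E) (F47_1 E) = dotS (ek E lk47) r47_1_1 :=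
  op_entryZ E lk47 2 4 _ _ _ _ (pg2 κ) (pg6 ι) m47_1 m47_1 l47_1 z47_1 w47_1 x47_1 (by decide) _ (chkS_sound E lk47 2 4 _ _ _ _ t47_1_1)

def r47_1_2 : List (ℕ × ℤ) := [(9, 192), (12, -192), (17, 192), (20, -192)]

theorem h47_1_2 (E : Env κ ι) : ip (F47_1 E) (F47_2 E) = dotS (ek E lk47) r47_1_2 :=
  op_entryZ E lk47 2 4 _ _ _ _ (pg2 κ) (pg6 ι) m47_1 m47_2 l47_2 z47_2 w47_2 x47_2 (by decide) _ (chkS_sound E lk47 2 4 _ _ _ _ t47_1_2)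

def r47_2_2 : List (ℕ × ℤ) := [(0, 192), (1, -384), (2, 192)]

theorem h47_2_2 (E : Env κ ι) : ip (F47_2 E) (F47_2 E) = dotS (ek E lk47) r47_2_2 :=
  op_entryZ E lk47 2 4 _ _ _ _ (pg2 κ) (pg6 ι) m47_2 m47_2 l47_2 z47_2 w47_2 x47_2 (by decide) _ (chkS_sound E lk47 2 4 _ _ _ _ t47_2_2)

theorem row47_0 (E : Env κ ι) : RowG (ek E lk47) (F47_0 E) [F47_0 E, F47_1 E, F47_2 E] [r47_0_0, r47_0_1, r47_0_2] :=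
  rowG_cons _ _ _ _ _ _ (h47_0_0 E) (rowG_cons _ _ _ _ _ _ (h47_0_1 E) (rowG_cons _ _ _ _ _ _ (h47_0_2 E) (rowG_nil _ _)))

theorem row47_1 (E : Env κ ι) : RowG (ek E lk47) (F47_1 E) [F47_1 E, F47_2 E] [r47_1_1, r47_1_2] :=
  rowG_cons _ _ _ _ _ _ (h47_1_1 E) (rowG_cons _ _ _ _ _ _ (h47_1_2 E) (rowG_nil _ _))

theorem row47_2 (E : Env κ ι) : RowG (ek E lk47) (F47_2 E) [F47_2 E] [r47_2_2] :=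
  rowG_cons _ _ _ _ _ _ (h47_2_2 E) (rowG_nil _ _)

def tab47 : List (List (List (ℕ × ℤ))) := [[r47_0_0, r47_0_1, r47_0_2], [r47_1_1, r47_1_2], [r47_2_2]]

theorem tri47 (E : Env κ ι) : TriG (ek E lk47) [F47_0 E, F47_1 E, F47_2 E] tab47 := by
  refine triG_cons _ _ _ _ _ (row47_0 E) ?_
  refine triG_cons _ _ _ _ _ (row47_1 E) ?_
  refine triG_cons _ _ _ _ _ (row47_2 E) ?_
  exact triG_nil _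

end

def lk48 : List Key := [
  (2, 6, [(0, [0], [0, 1]), (0, [0], [0, 1]), (0, [1], [2, 3]), (0, [1], [2, 4]), (1, [], [4, 5]), (1, [], [3, 5])]),
  (2, 6, [(0, [0], [0, 1]), (0, [0], [0, 1]), (0, [1], [2, 3]), (0, [1], [4, 5]), (1, [], [2, 4]), (1, [], [3, 5])]),
  (2, 6, [(0, [0], [0, 1]), (0, [1], [2, 3]), (0, [0], [2, 4]), (0, [1], [0, 5]), (1, [], [3, 5]), (1, [], [1, 4])]),
  (2, 6, [(0, [0], [0, 1]), (0, [0], [2, 0]), (0, [1], [3, 1]), (0, [1], [4, 5]), (1, [], [2, 4]), (1, [], [3, 5])]),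
  (2, 6, [(0, [0], [0, 1]), (0, [0], [2, 0]), (0, [1], [3, 1]), (0, [1], [2, 4]), (1, [], [4, 5]), (1, [], [3, 5])]),
  (2, 6, [(0, [0], [0, 1]), (0, [0], [2, 0]), (0, [1], [3, 1]), (0, [1], [3, 4]), (1, [], [4, 5]), (1, [], [2, 5])]),
  (2, 6, [(0, [0], [0, 1]), (0, [0], [2, 3]), (0, [1], [0, 1]), (0, [1], [4, 5]), (1, [], [2, 4]), (1, [], [3, 5])]),
  (2, 6, [(0, [0], [0, 1]), (0, [0], [2, 3]), (0, [1], [0, 1]), (0, [1], [2, 4]), (1, [], [4, 5]), (1, [], [3, 5])]),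
  (2, 6, [(0, [0], [0, 1]), (0, [0], [2, 1]), (0, [1], [3, 4]), (0, [1], [3, 5]), (1, [], [0, 5]), (1, [], [2, 4])]),
  (2, 6, [(0, [0], [0, 1]), (0, [0], [2, 1]), (0, [1], [3, 4]), (0, [1], [3, 5]), (1, [], [4, 5]), (1, [], [0, 2])]),
  (2, 6, [(0, [0], [0, 1]), (0, [0], [2, 3]), (0, [1], [4, 1]), (0, [1], [2, 5]), (1, [], [3, 5]), (1, [], [0, 4])])]

def kl48 : List ℕ := [10, 11, 23, 41, 42, 43, 47, 48, 62, 63, 65]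

def m48_0 : Base := (0, 1, [(0, [0], [0, 4]), (0, [1], [1, 2]), (1, [], [3, 4])])

def l48_0 : Cov := [(48, 0, 1, [(0, [0], [0, 4]), (0, [1], [1, 2]), (1, [], [3, 4])]),
  (-48, 0, 1, [(0, [0], [0, 4]), (0, [1], [2, 3]), (1, [], [1, 4])]),
  (48, 0, 1, [(0, [0], [1, 4]), (0, [1], [0, 3]), (1, [], [2, 4])]),
  (-48, 0, 1, [(0, [0], [1, 4]), (0, [1], [2, 3]), (1, [], [0, 4])]),
  (-48, 0, 1, [(0, [0], [2, 4]), (0, [1], [0, 1]), (1, [], [3, 4])]),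
  (48, 0, 1, [(0, [0], [2, 4]), (0, [1], [0, 3]), (1, [], [1, 4])]),
  (-48, 0, 1, [(0, [0], [3, 4]), (0, [1], [0, 1]), (1, [], [2, 4])]),
  (48, 0, 1, [(0, [0], [3, 4]), (0, [1], [1, 2]), (1, [], [0, 4])]),
  (-48, 0, 1, [(0, [1], [0, 4]), (0, [0], [1, 2]), (1, [], [3, 4])]),
  (48, 0, 1, [(0, [1], [0, 4]), (0, [0], [2, 3]), (1, [], [1, 4])]),
  (-48, 0, 1, [(0, [1], [1, 4]), (0, [0], [0, 3]), (1, [], [2, 4])]),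
  (48, 0, 1, [(0, [1], [1, 4]), (0, [0], [2, 3]), (1, [], [0, 4])]),
  (48, 0, 1, [(0, [1], [2, 4]), (0, [0], [0, 1]), (1, [], [3, 4])]),
  (-48, 0, 1, [(0, [1], [2, 4]), (0, [0], [0, 3]), (1, [], [1, 4])]),
  (48, 0, 1, [(0, [1], [3, 4]), (0, [0], [0, 1]), (1, [], [2, 4])]),
  (-48, 0, 1, [(0, [1], [3, 4]), (0, [0], [1, 2]), (1, [], [0, 4])])]

def z48_0 : Cov := [(0, 0, 1, [(0, [0], [0, 4]), (0, [1], [1, 3]), (1, [], [2, 4])]),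
  (0, 0, 1, [(0, [0], [1, 4]), (0, [1], [0, 2]), (1, [], [3, 4])]),
  (0, 0, 1, [(0, [0], [2, 4]), (0, [1], [1, 3]), (1, [], [0, 4])]),
  (0, 0, 1, [(0, [0], [3, 4]), (0, [1], [0, 2]), (1, [], [1, 4])]),
  (0, 0, 1, [(0, [1], [0, 4]), (0, [0], [1, 3]), (1, [], [2, 4])]),
  (0, 0, 1, [(0, [1], [1, 4]), (0, [0], [0, 2]), (1, [], [3, 4])]),
  (0, 0, 1, [(0, [1], [2, 4]), (0, [0], [1, 3]), (1, [], [0, 4])]),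
  (0, 0, 1, [(0, [1], [3, 4]), (0, [0], [0, 2]), (1, [], [1, 4])])]

def w48_0 : List (List Wit) := [[(0, 0, 0, 0, 0), (16, 0, 0, 0, 0), (0, 0, 0, 0, 0), (1, 0, 0, 0, 0), (16, 0, 0, 0, 0), (1, 0, 0, 0, 0), (17, 0, 0, 0, 0), (2, 0, 0, 0, 0), (17, 0, 0, 0, 0), (3, 0, 0, 0, 0), (2, 0, 0, 0, 0), (3, 0, 0, 0, 0), (4, 0, 0, 0, 0), (5, 0, 0, 0, 0), (4, 0, 0, 0, 0), (18, 0, 0, 0, 0), (5, 0, 0, 0, 0), (18, 0, 0, 0, 0), (6, 0, 0, 0, 0), (19, 0, 0, 0, 0), (6, 0, 0, 0, 0), (7, 0, 0, 0, 0), (19, 0, 0, 0, 0), (7, 0, 0, 0, 0)],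
  [(8, 0, 0, 0, 0), (20, 0, 0, 0, 0), (8, 0, 0, 0, 0), (9, 0, 0, 0, 0), (20, 0, 0, 0, 0), (9, 0, 0, 0, 0), (21, 0, 0, 0, 0), (10, 0, 0, 0, 0), (21, 0, 0, 0, 0), (11, 0, 0, 0, 0), (10, 0, 0, 0, 0), (11, 0, 0, 0, 0), (12, 0, 0, 0, 0), (13, 0, 0, 0, 0), (12, 0, 0, 0, 0), (22, 0, 0, 0, 0), (13, 0, 0, 0, 0), (22, 0, 0, 0, 0), (14, 0, 0, 0, 0), (23, 0, 0, 0, 0), (14, 0, 0, 0, 0), (15, 0, 0, 0, 0), (23, 0, 0, 0, 0), (15, 0, 0, 0, 0)]]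

theorem tr48 : trK keys lk48 kl48 = true := by
  decide +kernel

theorem x48_0 : expB 2 4 dg3 dg6 m48_0 (l48_0 ++ z48_0) w48_0 = true := by
  decide +kernel

theorem t48_0_0 : chkS lk48 2 4 [(1, m48_0)] l48_0
  [(0, 1, 1, 4411650, 3489825), (8, 16, 16, 2118465, 3220740), (10, 16, 16, 3163425, 2314500), (3, 1, 1, 3416085, 283410), (4, 1, 1, 3428610, 3428385), (10, 16, 16, 3162705, 1266180), (3, 1, 1, 4411905, 3490305), (1, 1, 1, 4411650, 3489825), (7, 1, 1, 3428610, 3428385), (2, 16, 16, 5325360, 5444160), (9, 16, 16, 5252145, 5378820), (3, 1, 1, 2437380, 4207905), (5, 1, 1, 2379795, 3409170), (9, 16, 16, 5251905, 5317380), (3, 16, 16, 5391120, 5448720), (6, 1, 1, 3416325, 283425)]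
  [(0, 48), (1, 48), (2, 48), (4, -48), (5, 48), (6, -48), (7, -48), (8, -48), (9, -96), (10, 96)] = true := by
  decide +kernel

section

variable {κ ι : Type*} [Fintype κ] [Fintype ι] [Inhabited κ] [Inhabited ι]

noncomputable def F48_0 (E : Env κ ι) : (Fin 2 → κ) → (Fin 4 → ι) → ℝ := op2 (P3 κ) (P6 ι) (fB E 2 4 m48_0)

def r48_0_0 : List (ℕ × ℤ) := [(0, 48), (1, 48), (2, 48), (4, -48), (5, 48), (6, -48), (7, -48), (8, -48), (9, -96), (10, 96)]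

theorem h48_0_0 (E : Env κ ι) : ip (F48_0 E) (F48_0 E) = dotS (ek E lk48) r48_0_0 :=
  op_entryZ E lk48 2 4 _ _ _ _ (pg3 κ) (pg6 ι) m48_0 m48_0 l48_0 z48_0 w48_0 x48_0 (by decide) _ (chkS_sound E lk48 2 4 _ _ _ _ t48_0_0)

theorem row48_0 (E : Env κ ι) : RowG (ek E lk48) (F48_0 E) [F48_0 E] [r48_0_0] :=
  rowG_cons _ _ _ _ _ _ (h48_0_0 E) (rowG_nil _ _)

def tab48 : List (List (List (ℕ × ℤ))) := [[r48_0_0]]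

theorem tri48 (E : Env κ ι) : TriG (ek E lk48) [F48_0 E] tab48 := by
  refine triG_cons _ _ _ _ _ (row48_0 E) ?_
  exact triG_nil _

end

def lk49 : List Key := [
  (2, 6, [(0, [0], [0, 1]), (0, [0], [0, 1]), (0, [1], [2, 3]), (0, [1], [2, 4]), (1, [], [4, 5]), (1, [], [3, 5])]),
  (2, 6, [(0, [0], [0, 1]), (0, [0], [0, 1]), (0, [1], [2, 3]), (0, [1], [4, 5]), (1, [], [2, 4]), (1, [], [3, 5])]),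
  (2, 6, [(0, [0], [0, 1]), (0, [1], [2, 3]), (0, [0], [2, 4]), (0, [1], [0, 5]), (1, [], [3, 5]), (1, [], [1, 4])]),
  (2, 6, [(0, [0], [0, 1]), (0, [0], [2, 0]), (0, [1], [3, 1]), (0, [1], [4, 5]), (1, [], [2, 4]), (1, [], [3, 5])]),
  (2, 6, [(0, [0], [0, 1]), (0, [0], [2, 0]), (0, [1], [3, 1]), (0, [1], [2, 4]), (1, [], [4, 5]), (1, [], [3, 5])]),
  (2, 6, [(0, [0], [0, 1]), (0, [0], [2, 0]), (0, [1], [3, 1]), (0, [1], [3, 4]), (1, [], [4, 5]), (1, [], [2, 5])]),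
  (2, 6, [(0, [0], [0, 1]), (0, [0], [2, 3]), (0, [1], [0, 1]), (0, [1], [4, 5]), (1, [], [2, 4]), (1, [], [3, 5])]),
  (2, 6, [(0, [0], [0, 1]), (0, [0], [2, 3]), (0, [1], [0, 1]), (0, [1], [2, 4]), (1, [], [4, 5]), (1, [], [3, 5])]),
  (2, 6, [(0, [0], [0, 1]), (0, [0], [2, 1]), (0, [1], [3, 4]), (0, [1], [3, 5]), (1, [], [0, 5]), (1, [], [2, 4])])]

def kl49 : List ℕ := [10, 11, 23, 41, 42, 43, 47, 48, 62]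

def m49_0 : Base := (0, 1, [(0, [0], [0, 4]), (0, [1], [1, 2]), (1, [], [3, 4])])

def l49_0 : Cov := [(32, 0, 1, [(0, [0], [0, 4]), (0, [1], [1, 2]), (1, [], [3, 4])]),
  (-32, 0, 1, [(0, [0], [0, 4]), (0, [1], [1, 3]), (1, [], [2, 4])]),
  (-32, 0, 1, [(0, [0], [2, 4]), (0, [1], [0, 1]), (1, [], [3, 4])]),
  (32, 0, 1, [(0, [0], [2, 4]), (0, [1], [1, 3]), (1, [], [0, 4])]),
  (32, 0, 1, [(0, [0], [3, 4]), (0, [1], [0, 1]), (1, [], [2, 4])]),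
  (-32, 0, 1, [(0, [0], [3, 4]), (0, [1], [1, 2]), (1, [], [0, 4])]),
  (32, 0, 1, [(0, [1], [0, 4]), (0, [0], [1, 2]), (1, [], [3, 4])]),
  (-32, 0, 1, [(0, [1], [0, 4]), (0, [0], [1, 3]), (1, [], [2, 4])]),
  (-32, 0, 1, [(0, [1], [2, 4]), (0, [0], [0, 1]), (1, [], [3, 4])]),
  (32, 0, 1, [(0, [1], [2, 4]), (0, [0], [1, 3]), (1, [], [0, 4])]),
  (32, 0, 1, [(0, [1], [3, 4]), (0, [0], [0, 1]), (1, [], [2, 4])]),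
  (-32, 0, 1, [(0, [1], [3, 4]), (0, [0], [1, 2]), (1, [], [0, 4])])]

def z49_0 : Cov := [(0, 0, 1, [(0, [0], [0, 4]), (0, [1], [2, 3]), (1, [], [1, 4])]),
  (0, 0, 1, [(0, [0], [1, 4]), (0, [1], [0, 2]), (1, [], [3, 4])]),
  (0, 0, 1, [(0, [0], [1, 4]), (0, [1], [0, 3]), (1, [], [2, 4])]),
  (0, 0, 1, [(0, [0], [1, 4]), (0, [1], [2, 3]), (1, [], [0, 4])]),
  (0, 0, 1, [(0, [0], [2, 4]), (0, [1], [0, 3]), (1, [], [1, 4])]),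
  (0, 0, 1, [(0, [0], [3, 4]), (0, [1], [0, 2]), (1, [], [1, 4])]),
  (0, 0, 1, [(0, [1], [0, 4]), (0, [0], [2, 3]), (1, [], [1, 4])]),
  (0, 0, 1, [(0, [1], [1, 4]), (0, [0], [0, 2]), (1, [], [3, 4])]),
  (0, 0, 1, [(0, [1], [1, 4]), (0, [0], [0, 3]), (1, [], [2, 4])]),
  (0, 0, 1, [(0, [1], [1, 4]), (0, [0], [2, 3]), (1, [], [0, 4])]),
  (0, 0, 1, [(0, [1], [2, 4]), (0, [0], [0, 3]), (1, [], [1, 4])]),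
  (0, 0, 1, [(0, [1], [3, 4]), (0, [0], [0, 2]), (1, [], [1, 4])])]

def w49_0 : List (List Wit) := [[(0, 0, 0, 0, 0), (1, 0, 0, 0, 0), (0, 0, 0, 0, 0), (12, 0, 0, 0, 0), (1, 0, 0, 0, 0), (12, 0, 0, 0, 0), (13, 0, 0, 0, 0), (14, 0, 0, 0, 0), (13, 0, 0, 0, 0), (15, 0, 0, 0, 0), (14, 0, 0, 0, 0), (15, 0, 0, 0, 0), (2, 0, 0, 0, 0), (16, 0, 0, 0, 0), (2, 0, 0, 0, 0), (3, 0, 0, 0, 0), (16, 0, 0, 0, 0), (3, 0, 0, 0, 0), (4, 0, 0, 0, 0), (17, 0, 0, 0, 0), (4, 0, 0, 0, 0), (5, 0, 0, 0, 0), (17, 0, 0, 0, 0), (5, 0, 0, 0, 0)],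
  [(6, 0, 0, 0, 0), (7, 0, 0, 0, 0), (6, 0, 0, 0, 0), (18, 0, 0, 0, 0), (7, 0, 0, 0, 0), (18, 0, 0, 0, 0), (19, 0, 0, 0, 0), (20, 0, 0, 0, 0), (19, 0, 0, 0, 0), (21, 0, 0, 0, 0), (20, 0, 0, 0, 0), (21, 0, 0, 0, 0), (8, 0, 0, 0, 0), (22, 0, 0, 0, 0), (8, 0, 0, 0, 0), (9, 0, 0, 0, 0), (22, 0, 0, 0, 0), (9, 0, 0, 0, 0), (10, 0, 0, 0, 0), (23, 0, 0, 0, 0), (10, 0, 0, 0, 0), (11, 0, 0, 0, 0), (23, 0, 0, 0, 0), (11, 0, 0, 0, 0)]]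

theorem tr49 : trK keys lk49 kl49 = true := by
  decide +kernel

theorem x49_0 : expB 2 4 dg2 dg7 m49_0 (l49_0 ++ z49_0) w49_0 = true := by
  decide +kernel

theorem t49_0_0 : chkS lk49 2 4 [(1, m49_0)] l49_0
  [(0, 1, 1, 4411650, 3489825), (8, 16, 16, 2118705, 3282180), (4, 1, 1, 3428610, 3428385), (3, 1, 1, 3416325, 283425), (3, 1, 1, 4411905, 3490305), (1, 1, 1, 4411650, 3489825), (7, 1, 1, 3428610, 3428385), (2, 16, 16, 5325600, 5448000), (5, 1, 1, 2379795, 3409170), (3, 1, 1, 2437140, 4207890), (3, 16, 16, 5391120, 5448720), (6, 1, 1, 3416325, 283425)]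
  [(0, 32), (1, -32), (2, -32), (3, 128), (4, -32), (5, -32), (6, -32), (7, 32), (8, -32)] = true := by
  decide +kernel

section

variable {κ ι : Type*} [Fintype κ] [Fintype ι] [Inhabited κ] [Inhabited ι]

noncomputable def F49_0 (E : Env κ ι) : (Fin 2 → κ) → (Fin 4 → ι) → ℝ := op2 (P2 κ) (P7 ι) (fB E 2 4 m49_0)

def r49_0_0 : List (ℕ × ℤ) := [(0, 32), (1, -32), (2, -32), (3, 128), (4, -32), (5, -32), (6, -32), (7, 32), (8, -32)]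

theorem h49_0_0 (E : Env κ ι) : ip (F49_0 E) (F49_0 E) = dotS (ek E lk49) r49_0_0 :=
  op_entryZ E lk49 2 4 _ _ _ _ (pg2 κ) (pg7 ι) m49_0 m49_0 l49_0 z49_0 w49_0 x49_0 (by decide) _ (chkS_sound E lk49 2 4 _ _ _ _ t49_0_0)

theorem row49_0 (E : Env κ ι) : RowG (ek E lk49) (F49_0 E) [F49_0 E] [r49_0_0] :=
  rowG_cons _ _ _ _ _ _ (h49_0_0 E) (rowG_nil _ _)

def tab49 : List (List (List (ℕ × ℤ))) := [[r49_0_0]]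

theorem tri49 (E : Env κ ι) : TriG (ek E lk49) [F49_0 E] tab49 := by
  refine triG_cons _ _ _ _ _ (row49_0 E) ?_
  exact triG_nil _

end

def lk50 : List Key := [
  (2, 6, [(0, [0], [0, 1]), (0, [0], [0, 1]), (0, [1], [2, 3]), (0, [1], [2, 4]), (1, [], [4, 5]), (1, [], [3, 5])]),
  (2, 6, [(0, [0], [0, 1]), (0, [0], [0, 1]), (0, [1], [2, 3]), (0, [1], [4, 5]), (1, [], [2, 4]), (1, [], [3, 5])]),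
  (2, 6, [(0, [0], [0, 1]), (0, [1], [2, 3]), (0, [1], [0, 2]), (0, [0], [1, 3]), (1, [], [4, 5]), (1, [], [4, 5])]),
  (2, 6, [(0, [0], [0, 1]), (0, [0], [2, 3]), (0, [1], [0, 2]), (0, [1], [1, 3]), (1, [], [4, 5]), (1, [], [4, 5])]),
  (2, 6, [(0, [0], [0, 1]), (0, [1], [2, 3]), (0, [0], [2, 4]), (0, [1], [0, 5]), (1, [], [3, 5]), (1, [], [1, 4])]),
  (2, 6, [(0, [0], [0, 1]), (0, [0], [2, 0]), (0, [1], [3, 1]), (0, [1], [4, 5]), (1, [], [4, 5]), (1, [], [2, 3])]),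
  (2, 6, [(0, [0], [0, 1]), (0, [0], [2, 0]), (0, [1], [3, 1]), (0, [1], [4, 5]), (1, [], [2, 4]), (1, [], [3, 5])]),
  (2, 6, [(0, [0], [0, 1]), (0, [0], [2, 0]), (0, [1], [3, 1]), (0, [1], [2, 4]), (1, [], [4, 5]), (1, [], [3, 5])]),
  (2, 6, [(0, [0], [0, 1]), (0, [0], [2, 0]), (0, [1], [3, 1]), (0, [1], [3, 4]), (1, [], [4, 5]), (1, [], [2, 5])]),
  (2, 6, [(0, [0], [0, 1]), (0, [0], [2, 3]), (0, [1], [0, 1]), (0, [1], [4, 5]), (1, [], [2, 4]), (1, [], [3, 5])]),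
  (2, 6, [(0, [0], [0, 1]), (0, [0], [2, 3]), (0, [1], [0, 1]), (0, [1], [2, 4]), (1, [], [4, 5]), (1, [], [3, 5])]),
  (2, 6, [(0, [0], [0, 1]), (0, [0], [2, 3]), (0, [1], [1, 3]), (0, [1], [4, 5]), (1, [], [4, 5]), (1, [], [0, 2])]),
  (2, 6, [(0, [0], [0, 1]), (0, [0], [2, 3]), (0, [1], [1, 3]), (0, [1], [4, 5]), (1, [], [0, 4]), (1, [], [2, 5])]),
  (2, 6, [(0, [0], [0, 1]), (0, [0], [2, 3]), (0, [1], [1, 3]), (0, [1], [0, 4]), (1, [], [4, 5]), (1, [], [2, 5])]),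
  (2, 6, [(0, [0], [0, 1]), (0, [0], [2, 1]), (0, [1], [3, 4]), (0, [1], [3, 5]), (1, [], [0, 5]), (1, [], [2, 4])])]

def kl50 : List ℕ := [10, 11, 19, 20, 23, 40, 41, 42, 43, 47, 48, 50, 51, 52, 62]

def m50_0 : Base := (0, 1, [(0, [0], [0, 4]), (0, [1], [1, 2]), (1, [], [3, 4])])

def l50_0 : Cov := [(32, 0, 1, [(0, [0], [0, 4]), (0, [1], [1, 2]), (1, [], [3, 4])]),
  (-32, 0, 1, [(0, [0], [0, 4]), (0, [1], [1, 3]), (1, [], [2, 4])]),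
  (-32, 0, 1, [(0, [0], [2, 4]), (0, [1], [0, 1]), (1, [], [3, 4])]),
  (32, 0, 1, [(0, [0], [2, 4]), (0, [1], [1, 3]), (1, [], [0, 4])]),
  (32, 0, 1, [(0, [0], [3, 4]), (0, [1], [0, 1]), (1, [], [2, 4])]),
  (-32, 0, 1, [(0, [0], [3, 4]), (0, [1], [1, 2]), (1, [], [0, 4])]),
  (-32, 0, 1, [(0, [1], [0, 4]), (0, [0], [1, 2]), (1, [], [3, 4])]),
  (32, 0, 1, [(0, [1], [0, 4]), (0, [0], [1, 3]), (1, [], [2, 4])]),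
  (32, 0, 1, [(0, [1], [2, 4]), (0, [0], [0, 1]), (1, [], [3, 4])]),
  (-32, 0, 1, [(0, [1], [2, 4]), (0, [0], [1, 3]), (1, [], [0, 4])]),
  (-32, 0, 1, [(0, [1], [3, 4]), (0, [0], [0, 1]), (1, [], [2, 4])]),
  (32, 0, 1, [(0, [1], [3, 4]), (0, [0], [1, 2]), (1, [], [0, 4])])]

def z50_0 : Cov := [(0, 0, 1, [(0, [0], [0, 4]), (0, [1], [2, 3]), (1, [], [1, 4])]),
  (0, 0, 1, [(0, [0], [1, 4]), (0, [1], [0, 2]), (1, [], [3, 4])]),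
  (0, 0, 1, [(0, [0], [1, 4]), (0, [1], [0, 3]), (1, [], [2, 4])]),
  (0, 0, 1, [(0, [0], [1, 4]), (0, [1], [2, 3]), (1, [], [0, 4])]),
  (0, 0, 1, [(0, [0], [2, 4]), (0, [1], [0, 3]), (1, [], [1, 4])]),
  (0, 0, 1, [(0, [0], [3, 4]), (0, [1], [0, 2]), (1, [], [1, 4])]),
  (0, 0, 1, [(0, [1], [0, 4]), (0, [0], [2, 3]), (1, [], [1, 4])]),
  (0, 0, 1, [(0, [1], [1, 4]), (0, [0], [0, 2]), (1, [], [3, 4])]),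
  (0, 0, 1, [(0, [1], [1, 4]), (0, [0], [0, 3]), (1, [], [2, 4])]),
  (0, 0, 1, [(0, [1], [1, 4]), (0, [0], [2, 3]), (1, [], [0, 4])]),
  (0, 0, 1, [(0, [1], [2, 4]), (0, [0], [0, 3]), (1, [], [1, 4])]),
  (0, 0, 1, [(0, [1], [3, 4]), (0, [0], [0, 2]), (1, [], [1, 4])])]

def w50_0 : List (List Wit) := [[(0, 0, 0, 0, 0), (1, 0, 0, 0, 0), (0, 0, 0, 0, 0), (12, 0, 0, 0, 0), (1, 0, 0, 0, 0), (12, 0, 0, 0, 0), (13, 0, 0, 0, 0), (14, 0, 0, 0, 0), (13, 0, 0, 0, 0), (15, 0, 0, 0, 0), (14, 0, 0, 0, 0), (15, 0, 0, 0, 0), (2, 0, 0, 0, 0), (16, 0, 0, 0, 0), (2, 0, 0, 0, 0), (3, 0, 0, 0, 0), (16, 0, 0, 0, 0), (3, 0, 0, 0, 0), (4, 0, 0, 0, 0), (17, 0, 0, 0, 0), (4, 0, 0, 0, 0), (5, 0, 0, 0, 0), (17, 0, 0, 0, 0), (5, 0, 0, 0, 0)],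
  [(6, 0, 0, 0, 0), (7, 0, 0, 0, 0), (6, 0, 0, 0, 0), (18, 0, 0, 0, 0), (7, 0, 0, 0, 0), (18, 0, 0, 0, 0), (19, 0, 0, 0, 0), (20, 0, 0, 0, 0), (19, 0, 0, 0, 0), (21, 0, 0, 0, 0), (20, 0, 0, 0, 0), (21, 0, 0, 0, 0), (8, 0, 0, 0, 0), (22, 0, 0, 0, 0), (8, 0, 0, 0, 0), (9, 0, 0, 0, 0), (22, 0, 0, 0, 0), (9, 0, 0, 0, 0), (10, 0, 0, 0, 0), (23, 0, 0, 0, 0), (10, 0, 0, 0, 0), (11, 0, 0, 0, 0), (23, 0, 0, 0, 0), (11, 0, 0, 0, 0)]]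

def m50_1 : Base := (0, 1, [(0, [0], [0, 4]), (0, [1], [2, 4]), (1, [], [1, 3])])

def l50_1 : Cov := [(64, 0, 1, [(0, [0], [0, 4]), (0, [1], [2, 4]), (1, [], [1, 3])]),
  (-64, 0, 1, [(0, [0], [0, 4]), (0, [1], [3, 4]), (1, [], [1, 2])]),
  (64, 0, 1, [(0, [0], [2, 4]), (0, [1], [3, 4]), (1, [], [0, 1])]),
  (-64, 0, 1, [(0, [0], [2, 4]), (0, [1], [0, 4]), (1, [], [1, 3])]),
  (-64, 0, 1, [(0, [0], [3, 4]), (0, [1], [2, 4]), (1, [], [0, 1])]),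
  (64, 0, 1, [(0, [0], [3, 4]), (0, [1], [0, 4]), (1, [], [1, 2])])]

def z50_1 : Cov := [(0, 0, 1, [(0, [0], [0, 4]), (0, [1], [1, 4]), (1, [], [2, 3])]),
  (0, 0, 1, [(0, [0], [1, 4]), (0, [1], [2, 4]), (1, [], [0, 3])]),
  (0, 0, 1, [(0, [0], [1, 4]), (0, [1], [3, 4]), (1, [], [0, 2])]),
  (0, 0, 1, [(0, [0], [1, 4]), (0, [1], [0, 4]), (1, [], [2, 3])]),
  (0, 0, 1, [(0, [0], [2, 4]), (0, [1], [1, 4]), (1, [], [0, 3])]),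
  (0, 0, 1, [(0, [0], [3, 4]), (0, [1], [1, 4]), (1, [], [0, 2])])]

def w50_1 : List (List Wit) := [[(0, 0, 0, 0, 0), (1, 0, 0, 0, 0), (6, 0, 0, 0, 0), (1, 0, 0, 0, 0), (6, 0, 0, 0, 0), (0, 0, 0, 0, 0), (7, 0, 0, 0, 0), (8, 0, 0, 0, 0), (9, 0, 0, 0, 0), (8, 0, 0, 0, 0), (9, 0, 0, 0, 0), (7, 0, 0, 0, 0), (10, 0, 0, 0, 0), (2, 0, 0, 0, 0), (3, 0, 0, 0, 0), (2, 0, 0, 0, 0), (3, 0, 0, 0, 0), (10, 0, 0, 0, 0), (11, 0, 0, 0, 0), (4, 0, 0, 0, 0), (5, 0, 0, 0, 0), (4, 0, 0, 0, 0), (5, 0, 0, 0, 0), (11, 0, 0, 0, 0)],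
  [(3, 0, 0, 0, 0), (5, 0, 0, 0, 0), (9, 0, 0, 0, 0), (5, 0, 0, 0, 0), (9, 0, 0, 0, 0), (3, 0, 0, 0, 0), (10, 0, 0, 0, 0), (11, 0, 0, 0, 0), (6, 0, 0, 0, 0), (11, 0, 0, 0, 0), (6, 0, 0, 0, 0), (10, 0, 0, 0, 0), (7, 0, 0, 0, 0), (4, 0, 0, 0, 0), (0, 0, 0, 0, 0), (4, 0, 0, 0, 0), (0, 0, 0, 0, 0), (7, 0, 0, 0, 0), (8, 0, 0, 0, 0), (2, 0, 0, 0, 0), (1, 0, 0, 0, 0), (2, 0, 0, 0, 0), (1, 0, 0, 0, 0), (8, 0, 0, 0, 0)]]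

theorem tr50 : trK keys lk50 kl50 = true := by
  decide +kernel

theorem x50_0 : expB 2 4 dg3 dg7 m50_0 (l50_0 ++ z50_0) w50_0 = true := by
  decide +kernel

theorem x50_1 : expB 2 4 dg3 dg7 m50_1 (l50_1 ++ z50_1) w50_1 = true := by
  decide +kernel

theorem t50_0_0 : chkS lk50 2 4 [(1, m50_0)] l50_0
  [(0, 1, 1, 4411650, 3489825), (14, 16, 16, 2118705, 3282180), (7, 1, 1, 3428610, 3428385), (6, 1, 1, 3416325, 283425), (6, 1, 1, 4411905, 3490305), (1, 1, 1, 4411650, 3489825), (10, 1, 1, 3428610, 3428385), (4, 16, 16, 5325600, 5448000), (8, 1, 1, 2379795, 3409170), (6, 1, 1, 2437140, 4207890), (6, 16, 16, 5391120, 5448720), (9, 1, 1, 3416325, 283425)]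
  [(0, 32), (1, -32), (4, 32), (7, -32), (8, 32), (9, 32), (10, -32), (14, -32)] = true := by
  decide +kernel

theorem t50_0_1 : chkS lk50 2 4 [(1, m50_0)] l50_1
  [(8, 16, 16, 1200960, 3220560), (5, 16, 16, 1193280, 2176080), (12, 1, 1, 3481860, 4215585), (13, 16, 16, 1200195, 3212370), (6, 1, 1, 1388580, 4206930), (11, 16, 16, 3155265, 2183940)]
  [(5, -64), (6, -64), (8, 64), (11, 64), (12, 64), (13, -64)] = true := by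
  decide +kernel

theorem t50_1_1 : chkS lk50 2 4 [(1, m50_1)] l50_1
  [(2, 16, 16, 3166785, 3232260), (7, 16, 16, 2179920, 1254720), (13, 1, 1, 3154260, 1069860), (3, 16, 16, 2184000, 3220800), (7, 1, 1, 2179155, 1246530), (13, 16, 16, 3155025, 1200900)]
  [(2, 64), (3, -64), (7, -128), (13, 128)] = true := by
  decide +kernel

section

variable {κ ι : Type*} [Fintype κ] [Fintype ι] [Inhabited κ] [Inhabited ι]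

noncomputable def F50_0 (E : Env κ ι) : (Fin 2 → κ) → (Fin 4 → ι) → ℝ := op2 (P3 κ) (P7 ι) (fB E 2 4 m50_0)

noncomputable def F50_1 (E : Env κ ι) : (Fin 2 → κ) → (Fin 4 → ι) → ℝ := op2 (P3 κ) (P7 ι) (fB E 2 4 m50_1)

def r50_0_0 : List (ℕ × ℤ) := [(0, 32), (1, -32), (4, 32), (7, -32), (8, 32), (9, 32), (10, -32), (14, -32)]

theorem h50_0_0 (E : Env κ ι) : ip (F50_0 E) (F50_0 E) = dotS (ek E lk50) r50_0_0 :=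
  op_entryZ E lk50 2 4 _ _ _ _ (pg3 κ) (pg7 ι) m50_0 m50_0 l50_0 z50_0 w50_0 x50_0 (by decide) _ (chkS_sound E lk50 2 4 _ _ _ _ t50_0_0)

def r50_0_1 : List (ℕ × ℤ) := [(5, -64), (6, -64), (8, 64), (11, 64), (12, 64), (13, -64)]

theorem h50_0_1 (E : Env κ ι) : ip (F50_0 E) (F50_1 E) = dotS (ek E lk50) r50_0_1 :=
  op_entryZ E lk50 2 4 _ _ _ _ (pg3 κ) (pg7 ι) m50_0 m50_1 l50_1 z50_1 w50_1 x50_1 (by decide) _ (chkS_sound E lk50 2 4 _ _ _ _ t50_0_1)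

def r50_1_1 : List (ℕ × ℤ) := [(2, 64), (3, -64), (7, -128), (13, 128)]

theorem h50_1_1 (E : Env κ ι) : ip (F50_1 E) (F50_1 E) = dotS (ek E lk50) r50_1_1 :=
  op_entryZ E lk50 2 4 _ _ _ _ (pg3 κ) (pg7 ι) m50_1 m50_1 l50_1 z50_1 w50_1 x50_1 (by decide) _ (chkS_sound E lk50 2 4 _ _ _ _ t50_1_1)

theorem row50_0 (E : Env κ ι) : RowG (ek E lk50) (F50_0 E) [F50_0 E, F50_1 E] [r50_0_0, r50_0_1] :=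
  rowG_cons _ _ _ _ _ _ (h50_0_0 E) (rowG_cons _ _ _ _ _ _ (h50_0_1 E) (rowG_nil _ _))

theorem row50_1 (E : Env κ ι) : RowG (ek E lk50) (F50_1 E) [F50_1 E] [r50_1_1] :=
  rowG_cons _ _ _ _ _ _ (h50_1_1 E) (rowG_nil _ _)

def tab50 : List (List (List (ℕ × ℤ))) := [[r50_0_0, r50_0_1], [r50_1_1]]

theorem tri50 (E : Env κ ι) : TriG (ek E lk50) [F50_0 E, F50_1 E] tab50 := by
  refine triG_cons _ _ _ _ _ (row50_0 E) ?_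
  refine triG_cons _ _ _ _ _ (row50_1 E) ?_
  exact triG_nil _

end

def lk51 : List Key := [
  (2, 6, [(0, [0], [0, 1]), (0, [0], [0, 1]), (0, [1], [2, 3]), (0, [1], [2, 3]), (1, [], [4, 5]), (1, [], [4, 5])]),
  (2, 6, [(0, [0], [0, 1]), (0, [0], [0, 1]), (0, [1], [2, 3]), (0, [1], [2, 4]), (1, [], [4, 5]), (1, [], [3, 5])]),
  (2, 6, [(0, [0], [0, 1]), (0, [0], [0, 1]), (0, [1], [2, 3]), (0, [1], [4, 5]), (1, [], [4, 5]), (1, [], [2, 3])]),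
  (2, 6, [(0, [0], [0, 1]), (0, [1], [2, 3]), (0, [0], [2, 3]), (0, [1], [0, 1]), (1, [], [4, 5]), (1, [], [4, 5])]),
  (2, 6, [(0, [0], [0, 1]), (0, [1], [2, 3]), (0, [1], [0, 2]), (0, [0], [1, 3]), (1, [], [4, 5]), (1, [], [4, 5])]),
  (2, 6, [(0, [0], [0, 1]), (0, [1], [2, 3]), (0, [0], [2, 4]), (0, [1], [0, 5]), (1, [], [4, 5]), (1, [], [1, 3])]),
  (2, 6, [(0, [0], [0, 1]), (0, [0], [2, 0]), (0, [1], [3, 1]), (0, [1], [4, 5]), (1, [], [4, 5]), (1, [], [2, 3])]),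
  (2, 6, [(0, [0], [0, 1]), (0, [0], [2, 0]), (0, [1], [3, 1]), (0, [1], [2, 4]), (1, [], [4, 5]), (1, [], [3, 5])]),
  (2, 6, [(0, [0], [0, 1]), (0, [0], [2, 0]), (0, [1], [3, 1]), (0, [1], [3, 4]), (1, [], [4, 5]), (1, [], [2, 5])]),
  (2, 6, [(0, [0], [0, 1]), (0, [0], [2, 3]), (0, [1], [0, 1]), (0, [1], [4, 5]), (1, [], [4, 5]), (1, [], [2, 3])]),
  (2, 6, [(0, [0], [0, 1]), (0, [0], [2, 3]), (0, [1], [0, 1]), (0, [1], [2, 4]), (1, [], [4, 5]), (1, [], [3, 5])]),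
  (2, 6, [(0, [0], [0, 1]), (0, [0], [2, 1]), (0, [1], [3, 4]), (0, [1], [3, 5]), (1, [], [0, 5]), (1, [], [2, 4])])]

def kl51 : List ℕ := [9, 10, 14, 16, 19, 21, 40, 42, 43, 46, 48, 62]

def m51_0 : Base := (0, 0, [(0, [0], [0, 1]), (0, [1], [2, 3]), (1, [], [4, 5])])

def l51_0 : Cov := [(23040, 0, 0, [(0, [0], [0, 1]), (0, [1], [2, 3]), (1, [], [4, 5])]),
  (23040, 0, 0, [(0, [0], [0, 1]), (0, [1], [2, 4]), (1, [], [3, 5])]),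
  (23040, 0, 0, [(0, [0], [0, 1]), (0, [1], [2, 5]), (1, [], [3, 4])]),
  (23040, 0, 0, [(0, [0], [0, 1]), (0, [1], [3, 4]), (1, [], [2, 5])]),
  (23040, 0, 0, [(0, [0], [0, 1]), (0, [1], [3, 5]), (1, [], [2, 4])]),
  (23040, 0, 0, [(0, [0], [0, 1]), (0, [1], [4, 5]), (1, [], [2, 3])]),
  (23040, 0, 0, [(0, [0], [0, 2]), (0, [1], [1, 3]), (1, [], [4, 5])]),
  (23040, 0, 0, [(0, [0], [0, 2]), (0, [1], [1, 4]), (1, [], [3, 5])]),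
  (23040, 0, 0, [(0, [0], [0, 2]), (0, [1], [1, 5]), (1, [], [3, 4])]),
  (23040, 0, 0, [(0, [0], [0, 2]), (0, [1], [3, 4]), (1, [], [1, 5])]),
  (23040, 0, 0, [(0, [0], [0, 2]), (0, [1], [3, 5]), (1, [], [1, 4])]),
  (23040, 0, 0, [(0, [0], [0, 2]), (0, [1], [4, 5]), (1, [], [1, 3])]),
  (23040, 0, 0, [(0, [0], [0, 3]), (0, [1], [1, 2]), (1, [], [4, 5])]),
  (23040, 0, 0, [(0, [0], [0, 3]), (0, [1], [1, 4]), (1, [], [2, 5])]),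
  (23040, 0, 0, [(0, [0], [0, 3]), (0, [1], [1, 5]), (1, [], [2, 4])]),
  (23040, 0, 0, [(0, [0], [0, 3]), (0, [1], [2, 4]), (1, [], [1, 5])]),
  (23040, 0, 0, [(0, [0], [0, 3]), (0, [1], [2, 5]), (1, [], [1, 4])]),
  (23040, 0, 0, [(0, [0], [0, 3]), (0, [1], [4, 5]), (1, [], [1, 2])]),
  (23040, 0, 0, [(0, [0], [0, 4]), (0, [1], [1, 2]), (1, [], [3, 5])]),
  (23040, 0, 0, [(0, [0], [0, 4]), (0, [1], [1, 3]), (1, [], [2, 5])]),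
  (23040, 0, 0, [(0, [0], [0, 4]), (0, [1], [1, 5]), (1, [], [2, 3])]),
  (23040, 0, 0, [(0, [0], [0, 4]), (0, [1], [2, 3]), (1, [], [1, 5])]),
  (23040, 0, 0, [(0, [0], [0, 4]), (0, [1], [2, 5]), (1, [], [1, 3])]),
  (23040, 0, 0, [(0, [0], [0, 4]), (0, [1], [3, 5]), (1, [], [1, 2])]),
  (23040, 0, 0, [(0, [0], [0, 5]), (0, [1], [1, 2]), (1, [], [3, 4])]),
  (23040, 0, 0, [(0, [0], [0, 5]), (0, [1], [1, 3]), (1, [], [2, 4])]),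
  (23040, 0, 0, [(0, [0], [0, 5]), (0, [1], [1, 4]), (1, [], [2, 3])]),
  (23040, 0, 0, [(0, [0], [0, 5]), (0, [1], [2, 3]), (1, [], [1, 4])]),
  (23040, 0, 0, [(0, [0], [0, 5]), (0, [1], [2, 4]), (1, [], [1, 3])]),
  (23040, 0, 0, [(0, [0], [0, 5]), (0, [1], [3, 4]), (1, [], [1, 2])]),
  (23040, 0, 0, [(0, [0], [1, 2]), (0, [1], [0, 3]), (1, [], [4, 5])]),
  (23040, 0, 0, [(0, [0], [1, 2]), (0, [1], [0, 4]), (1, [], [3, 5])]),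
  (23040, 0, 0, [(0, [0], [1, 2]), (0, [1], [0, 5]), (1, [], [3, 4])]),
  (23040, 0, 0, [(0, [0], [1, 2]), (0, [1], [3, 4]), (1, [], [0, 5])]),
  (23040, 0, 0, [(0, [0], [1, 2]), (0, [1], [3, 5]), (1, [], [0, 4])]),
  (23040, 0, 0, [(0, [0], [1, 2]), (0, [1], [4, 5]), (1, [], [0, 3])]),
  (23040, 0, 0, [(0, [0], [1, 3]), (0, [1], [0, 2]), (1, [], [4, 5])]),
  (23040, 0, 0, [(0, [0], [1, 3]), (0, [1], [0, 4]), (1, [], [2, 5])]),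
  (23040, 0, 0, [(0, [0], [1, 3]), (0, [1], [0, 5]), (1, [], [2, 4])]),
  (23040, 0, 0, [(0, [0], [1, 3]), (0, [1], [2, 4]), (1, [], [0, 5])]),
  (23040, 0, 0, [(0, [0], [1, 3]), (0, [1], [2, 5]), (1, [], [0, 4])]),
  (23040, 0, 0, [(0, [0], [1, 3]), (0, [1], [4, 5]), (1, [], [0, 2])]),
  (23040, 0, 0, [(0, [0], [1, 4]), (0, [1], [0, 2]), (1, [], [3, 5])]),
  (23040, 0, 0, [(0, [0], [1, 4]), (0, [1], [0, 3]), (1, [], [2, 5])]),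
  (23040, 0, 0, [(0, [0], [1, 4]), (0, [1], [0, 5]), (1, [], [2, 3])]),
  (23040, 0, 0, [(0, [0], [1, 4]), (0, [1], [2, 3]), (1, [], [0, 5])]),
  (23040, 0, 0, [(0, [0], [1, 4]), (0, [1], [2, 5]), (1, [], [0, 3])]),
  (23040, 0, 0, [(0, [0], [1, 4]), (0, [1], [3, 5]), (1, [], [0, 2])]),
  (23040, 0, 0, [(0, [0], [1, 5]), (0, [1], [0, 2]), (1, [], [3, 4])]),
  (23040, 0, 0, [(0, [0], [1, 5]), (0, [1], [0, 3]), (1, [], [2, 4])]),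
  (23040, 0, 0, [(0, [0], [1, 5]), (0, [1], [0, 4]), (1, [], [2, 3])]),
  (23040, 0, 0, [(0, [0], [1, 5]), (0, [1], [2, 3]), (1, [], [0, 4])]),
  (23040, 0, 0, [(0, [0], [1, 5]), (0, [1], [2, 4]), (1, [], [0, 3])]),
  (23040, 0, 0, [(0, [0], [1, 5]), (0, [1], [3, 4]), (1, [], [0, 2])]),
  (23040, 0, 0, [(0, [0], [2, 3]), (0, [1], [0, 1]), (1, [], [4, 5])]),
  (23040, 0, 0, [(0, [0], [2, 3]), (0, [1], [0, 4]), (1, [], [1, 5])]),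
  (23040, 0, 0, [(0, [0], [2, 3]), (0, [1], [0, 5]), (1, [], [1, 4])]),
  (23040, 0, 0, [(0, [0], [2, 3]), (0, [1], [1, 4]), (1, [], [0, 5])]),
  (23040, 0, 0, [(0, [0], [2, 3]), (0, [1], [1, 5]), (1, [], [0, 4])]),
  (23040, 0, 0, [(0, [0], [2, 3]), (0, [1], [4, 5]), (1, [], [0, 1])]),
  (23040, 0, 0, [(0, [0], [2, 4]), (0, [1], [0, 1]), (1, [], [3, 5])]),
  (23040, 0, 0, [(0, [0], [2, 4]), (0, [1], [0, 3]), (1, [], [1, 5])]),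
  (23040, 0, 0, [(0, [0], [2, 4]), (0, [1], [0, 5]), (1, [], [1, 3])]),
  (23040, 0, 0, [(0, [0], [2, 4]), (0, [1], [1, 3]), (1, [], [0, 5])]),
  (23040, 0, 0, [(0, [0], [2, 4]), (0, [1], [1, 5]), (1, [], [0, 3])]),
  (23040, 0, 0, [(0, [0], [2, 4]), (0, [1], [3, 5]), (1, [], [0, 1])]),
  (23040, 0, 0, [(0, [0], [2, 5]), (0, [1], [0, 1]), (1, [], [3, 4])]),
  (23040, 0, 0, [(0, [0], [2, 5]), (0, [1], [0, 3]), (1, [], [1, 4])]),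
  (23040, 0, 0, [(0, [0], [2, 5]), (0, [1], [0, 4]), (1, [], [1, 3])]),
  (23040, 0, 0, [(0, [0], [2, 5]), (0, [1], [1, 3]), (1, [], [0, 4])]),
  (23040, 0, 0, [(0, [0], [2, 5]), (0, [1], [1, 4]), (1, [], [0, 3])]),
  (23040, 0, 0, [(0, [0], [2, 5]), (0, [1], [3, 4]), (1, [], [0, 1])]),
  (23040, 0, 0, [(0, [0], [3, 4]), (0, [1], [0, 1]), (1, [], [2, 5])]),
  (23040, 0, 0, [(0, [0], [3, 4]), (0, [1], [0, 2]), (1, [], [1, 5])]),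
  (23040, 0, 0, [(0, [0], [3, 4]), (0, [1], [0, 5]), (1, [], [1, 2])]),
  (23040, 0, 0, [(0, [0], [3, 4]), (0, [1], [1, 2]), (1, [], [0, 5])]),
  (23040, 0, 0, [(0, [0], [3, 4]), (0, [1], [1, 5]), (1, [], [0, 2])]),
  (23040, 0, 0, [(0, [0], [3, 4]), (0, [1], [2, 5]), (1, [], [0, 1])]),
  (23040, 0, 0, [(0, [0], [3, 5]), (0, [1], [0, 1]), (1, [], [2, 4])]),
  (23040, 0, 0, [(0, [0], [3, 5]), (0, [1], [0, 2]), (1, [], [1, 4])]),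
  (23040, 0, 0, [(0, [0], [3, 5]), (0, [1], [0, 4]), (1, [], [1, 2])]),
  (23040, 0, 0, [(0, [0], [3, 5]), (0, [1], [1, 2]), (1, [], [0, 4])]),
  (23040, 0, 0, [(0, [0], [3, 5]), (0, [1], [1, 4]), (1, [], [0, 2])]),
  (23040, 0, 0, [(0, [0], [3, 5]), (0, [1], [2, 4]), (1, [], [0, 1])]),
  (23040, 0, 0, [(0, [0], [4, 5]), (0, [1], [0, 1]), (1, [], [2, 3])]),
  (23040, 0, 0, [(0, [0], [4, 5]), (0, [1], [0, 2]), (1, [], [1, 3])]),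
  (23040, 0, 0, [(0, [0], [4, 5]), (0, [1], [0, 3]), (1, [], [1, 2])]),
  (23040, 0, 0, [(0, [0], [4, 5]), (0, [1], [1, 2]), (1, [], [0, 3])]),
  (23040, 0, 0, [(0, [0], [4, 5]), (0, [1], [1, 3]), (1, [], [0, 2])]),
  (23040, 0, 0, [(0, [0], [4, 5]), (0, [1], [2, 3]), (1, [], [0, 1])])]

def z51_0 : Cov := []

def w51_0 : List (List Wit) := [[(0, 0, 0, 0, 0), (0, 0, 0, 0, 0), (1, 0, 0, 0, 0), (1, 0, 0, 0, 0), (2, 0, 0, 0, 0), (2, 0, 0, 0, 0), (0, 0, 0, 0, 0), (0, 0, 0, 0, 0), (3, 0, 0, 0, 0), (3, 0, 0, 0, 0), (4, 0, 0, 0, 0), (4, 0, 0, 0, 0), (1, 0, 0, 0, 0), (1, 0, 0, 0, 0), (3, 0, 0, 0, 0), (3, 0, 0, 0, 0), (5, 0, 0, 0, 0), (5, 0, 0, 0, 0), (2, 0, 0, 0, 0), (2, 0, 0, 0, 0), (4, 0, 0, 0, 0), (4, 0, 0, 0, 0), (5, 0, 0, 0, 0), (5, 0, 0, 0, 0), (6, 0, 0, 0, 0), (6, 0, 0,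 0, 0), (7, 0, 0, 0, 0), (7, 0, 0, 0, 0), (8, 0, 0, 0, 0), (8, 0, 0, 0, 0), (6, 0, 0, 0, 0), (6, 0, 0, 0, 0), (9, 0, 0, 0, 0), (9, 0, 0, 0, 0), (10, 0, 0, 0, 0), (10, 0, 0, 0, 0), (7, 0, 0, 0, 0), (7, 0, 0, 0, 0), (9, 0, 0, 0, 0), (9, 0, 0, 0, 0), (11, 0, 0, 0, 0), (11, 0, 0, 0, 0), (8, 0, 0, 0, 0), (8, 0, 0, 0, 0), (10, 0, 0, 0, 0), (10, 0, 0, 0, 0), (11, 0, 0, 0, 0), (11, 0, 0, 0, 0), (12, 0, 0, 0, 0), (12, 0, 0, 0, 0), (13, 0, 0, 0, 0), (13, 0, 0, 0, 0), (14, 0, 0, 0, 0), (14, 0, 0, 0, 0), (12, 0, 0, 0, 0), (12, 0, 0, 0, 0), (15, 0, 0, 0, 0), (15, 0, 0, 0, 0), (16, 0, 0, 0, 0), (16, 0, 0, 0, 0), (13, 0, 0, 0, 0), (13, 0, 0, 0, 0), (15, 0, 0, 0, 0), (15, 0, 0, 0, 0), (17, 0, 0, 0, 0), (17, 0, 0, 0, 0), (14, 0, 0, 0, 0), (14, 0, 0, 0, 0), (16, 0, 0, 0, 0), (16, 0, 0, 0,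 0), (17, 0, 0, 0, 0), (17, 0, 0, 0, 0), (18, 0, 0, 0, 0), (18, 0, 0, 0, 0), (19, 0, 0, 0, 0), (19, 0, 0, 0, 0), (20, 0, 0, 0, 0), (20, 0, 0, 0, 0), (18, 0, 0, 0, 0), (18, 0, 0, 0, 0), (21, 0, 0, 0, 0), (21, 0, 0, 0, 0), (22, 0, 0, 0, 0), (22, 0, 0, 0, 0), (19, 0, 0, 0, 0), (19, 0, 0, 0, 0), (21, 0, 0, 0, 0), (21, 0, 0, 0, 0), (23, 0, 0, 0, 0), (23, 0, 0, 0, 0), (20, 0, 0, 0, 0), (20, 0, 0, 0, 0), (22, 0, 0, 0, 0), (22, 0, 0, 0, 0), (23, 0, 0, 0, 0), (23, 0, 0, 0, 0), (24, 0, 0, 0, 0), (24, 0, 0, 0, 0), (25, 0, 0, 0, 0), (25, 0, 0, 0, 0), (26, 0, 0, 0, 0), (26, 0, 0, 0, 0), (24, 0, 0, 0, 0), (24, 0, 0, 0, 0), (27, 0, 0, 0, 0), (27, 0, 0, 0, 0), (28, 0, 0, 0, 0), (28, 0, 0, 0, 0), (25, 0, 0, 0, 0), (25, 0, 0, 0, 0), (27, 0, 0, 0, 0), (27, 0, 0, 0, 0), (29, 0, 0, 0, 0), (29,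 0, 0, 0, 0), (26, 0, 0, 0, 0), (26, 0, 0, 0, 0), (28, 0, 0, 0, 0), (28, 0, 0, 0, 0), (29, 0, 0, 0, 0), (29, 0, 0, 0, 0), (0, 0, 0, 0, 0), (0, 0, 0, 0, 0), (1, 0, 0, 0, 0), (1, 0, 0, 0, 0), (2, 0, 0, 0, 0), (2, 0, 0, 0, 0), (0, 0, 0, 0, 0), (0, 0, 0, 0, 0), (3, 0, 0, 0, 0), (3, 0, 0, 0, 0), (4, 0, 0, 0, 0), (4, 0, 0, 0, 0), (1, 0, 0, 0, 0), (1, 0, 0, 0, 0), (3, 0, 0, 0, 0), (3, 0, 0, 0, 0), (5, 0, 0, 0, 0), (5, 0, 0, 0, 0), (2, 0, 0, 0, 0), (2, 0, 0, 0, 0), (4, 0, 0, 0, 0), (4, 0, 0, 0, 0), (5, 0, 0, 0, 0), (5, 0, 0, 0, 0), (30, 0, 0, 0, 0), (30, 0, 0, 0, 0), (31, 0, 0, 0, 0), (31, 0, 0, 0, 0), (32, 0, 0, 0, 0), (32, 0, 0, 0, 0), (30, 0, 0, 0, 0), (30, 0, 0, 0, 0), (33, 0, 0, 0, 0), (33, 0, 0, 0, 0), (34, 0, 0, 0, 0), (34, 0, 0, 0, 0), (31, 0, 0, 0, 0), (31, 0, 0, 0, 0),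 (33, 0, 0, 0, 0), (33, 0, 0, 0, 0), (35, 0, 0, 0, 0), (35, 0, 0, 0, 0), (32, 0, 0, 0, 0), (32, 0, 0, 0, 0), (34, 0, 0, 0, 0), (34, 0, 0, 0, 0), (35, 0, 0, 0, 0), (35, 0, 0, 0, 0), (36, 0, 0, 0, 0), (36, 0, 0, 0, 0), (37, 0, 0, 0, 0), (37, 0, 0, 0, 0), (38, 0, 0, 0, 0), (38, 0, 0, 0, 0), (36, 0, 0, 0, 0), (36, 0, 0, 0, 0), (39, 0, 0, 0, 0), (39, 0, 0, 0, 0), (40, 0, 0, 0, 0), (40, 0, 0, 0, 0), (37, 0, 0, 0, 0), (37, 0, 0, 0, 0), (39, 0, 0, 0, 0), (39, 0, 0, 0, 0), (41, 0, 0, 0, 0), (41, 0, 0, 0, 0), (38, 0, 0, 0, 0), (38, 0, 0, 0, 0), (40, 0, 0, 0, 0), (40, 0, 0, 0, 0), (41, 0, 0, 0, 0), (41, 0, 0, 0, 0), (42, 0, 0, 0, 0), (42, 0, 0, 0, 0), (43, 0, 0, 0, 0), (43, 0, 0, 0, 0), (44, 0, 0, 0, 0), (44, 0, 0, 0, 0), (42, 0, 0, 0, 0), (42, 0, 0, 0, 0), (45, 0, 0, 0, 0), (45, 0,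 0, 0, 0), (46, 0, 0, 0, 0), (46, 0, 0, 0, 0), (43, 0, 0, 0, 0), (43, 0, 0, 0, 0), (45, 0, 0, 0, 0), (45, 0, 0, 0, 0), (47, 0, 0, 0, 0), (47, 0, 0, 0, 0), (44, 0, 0, 0, 0), (44, 0, 0, 0, 0), (46, 0, 0, 0, 0), (46, 0, 0, 0, 0), (47, 0, 0, 0, 0), (47, 0, 0, 0, 0), (48, 0, 0, 0, 0), (48, 0, 0, 0, 0), (49, 0, 0, 0, 0), (49, 0, 0, 0, 0), (50, 0, 0, 0, 0), (50, 0, 0, 0, 0), (48, 0, 0, 0, 0), (48, 0, 0, 0, 0), (51, 0, 0, 0, 0), (51, 0, 0, 0, 0), (52, 0, 0, 0, 0), (52, 0, 0, 0, 0), (49, 0, 0, 0, 0), (49, 0, 0, 0, 0), (51, 0, 0, 0, 0), (51, 0, 0, 0, 0), (53, 0, 0, 0, 0), (53, 0, 0, 0, 0), (50, 0, 0, 0, 0), (50, 0, 0, 0, 0), (52, 0, 0, 0, 0), (52, 0, 0, 0, 0), (53, 0, 0, 0, 0), (53, 0, 0, 0, 0), (6, 0, 0, 0, 0), (6, 0, 0, 0, 0), (7, 0, 0, 0, 0), (7, 0, 0, 0, 0), (8, 0, 0, 0, 0), (8,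 0, 0, 0, 0), (6, 0, 0, 0, 0), (6, 0, 0, 0, 0), (9, 0, 0, 0, 0), (9, 0, 0, 0, 0), (10, 0, 0, 0, 0), (10, 0, 0, 0, 0), (7, 0, 0, 0, 0), (7, 0, 0, 0, 0), (9, 0, 0, 0, 0), (9, 0, 0, 0, 0), (11, 0, 0, 0, 0), (11, 0, 0, 0, 0), (8, 0, 0, 0, 0), (8, 0, 0, 0, 0), (10, 0, 0, 0, 0), (10, 0, 0, 0, 0), (11, 0, 0, 0, 0), (11, 0, 0, 0, 0), (30, 0, 0, 0, 0), (30, 0, 0, 0, 0), (31, 0, 0, 0, 0), (31, 0, 0, 0, 0), (32, 0, 0, 0, 0), (32, 0, 0, 0, 0), (30, 0, 0, 0, 0), (30, 0, 0, 0, 0), (33, 0, 0, 0, 0), (33, 0, 0, 0, 0), (34, 0, 0, 0, 0), (34, 0, 0, 0, 0), (31, 0, 0, 0, 0), (31, 0, 0, 0, 0), (33, 0, 0, 0, 0), (33, 0, 0, 0, 0), (35, 0, 0, 0, 0), (35, 0, 0, 0, 0), (32, 0, 0, 0, 0), (32, 0, 0, 0, 0), (34, 0, 0, 0, 0), (34, 0, 0, 0, 0), (35, 0, 0, 0, 0), (35, 0, 0, 0, 0), (54, 0, 0, 0, 0), (54,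 0, 0, 0, 0), (55, 0, 0, 0, 0), (55, 0, 0, 0, 0), (56, 0, 0, 0, 0), (56, 0, 0, 0, 0), (54, 0, 0, 0, 0), (54, 0, 0, 0, 0), (57, 0, 0, 0, 0), (57, 0, 0, 0, 0), (58, 0, 0, 0, 0), (58, 0, 0, 0, 0), (55, 0, 0, 0, 0), (55, 0, 0, 0, 0), (57, 0, 0, 0, 0), (57, 0, 0, 0, 0), (59, 0, 0, 0, 0), (59, 0, 0, 0, 0), (56, 0, 0, 0, 0), (56, 0, 0, 0, 0), (58, 0, 0, 0, 0), (58, 0, 0, 0, 0), (59, 0, 0, 0, 0), (59, 0, 0, 0, 0), (60, 0, 0, 0, 0), (60, 0, 0, 0, 0), (61, 0, 0, 0, 0), (61, 0, 0, 0, 0), (62, 0, 0, 0, 0), (62, 0, 0, 0, 0), (60, 0, 0, 0, 0), (60, 0, 0, 0, 0), (63, 0, 0, 0, 0), (63, 0, 0, 0, 0), (64, 0, 0, 0, 0), (64, 0, 0, 0, 0), (61, 0, 0, 0, 0), (61, 0, 0, 0, 0), (63, 0, 0, 0, 0), (63, 0, 0, 0, 0), (65, 0, 0, 0, 0), (65, 0, 0, 0, 0), (62, 0, 0, 0, 0), (62, 0, 0, 0, 0), (64, 0, 0,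 0, 0), (64, 0, 0, 0, 0), (65, 0, 0, 0, 0), (65, 0, 0, 0, 0), (66, 0, 0, 0, 0), (66, 0, 0, 0, 0), (67, 0, 0, 0, 0), (67, 0, 0, 0, 0), (68, 0, 0, 0, 0), (68, 0, 0, 0, 0), (66, 0, 0, 0, 0), (66, 0, 0, 0, 0), (69, 0, 0, 0, 0), (69, 0, 0, 0, 0), (70, 0, 0, 0, 0), (70, 0, 0, 0, 0), (67, 0, 0, 0, 0), (67, 0, 0, 0, 0), (69, 0, 0, 0, 0), (69, 0, 0, 0, 0), (71, 0, 0, 0, 0), (71, 0, 0, 0, 0), (68, 0, 0, 0, 0), (68, 0, 0, 0, 0), (70, 0, 0, 0, 0), (70, 0, 0, 0, 0), (71, 0, 0, 0, 0), (71, 0, 0, 0, 0), (12, 0, 0, 0, 0), (12, 0, 0, 0, 0), (13, 0, 0, 0, 0), (13, 0, 0, 0, 0), (14, 0, 0, 0, 0), (14, 0, 0, 0, 0), (12, 0, 0, 0, 0), (12, 0, 0, 0, 0), (15, 0, 0, 0, 0), (15, 0, 0, 0, 0), (16, 0, 0, 0, 0), (16, 0, 0, 0, 0), (13, 0, 0, 0, 0), (13, 0, 0, 0, 0), (15, 0, 0, 0, 0), (15, 0, 0, 0, 0),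 (17, 0, 0, 0, 0), (17, 0, 0, 0, 0), (14, 0, 0, 0, 0), (14, 0, 0, 0, 0), (16, 0, 0, 0, 0), (16, 0, 0, 0, 0), (17, 0, 0, 0, 0), (17, 0, 0, 0, 0), (36, 0, 0, 0, 0), (36, 0, 0, 0, 0), (37, 0, 0, 0, 0), (37, 0, 0, 0, 0), (38, 0, 0, 0, 0), (38, 0, 0, 0, 0), (36, 0, 0, 0, 0), (36, 0, 0, 0, 0), (39, 0, 0, 0, 0), (39, 0, 0, 0, 0), (40, 0, 0, 0, 0), (40, 0, 0, 0, 0), (37, 0, 0, 0, 0), (37, 0, 0, 0, 0), (39, 0, 0, 0, 0), (39, 0, 0, 0, 0), (41, 0, 0, 0, 0), (41, 0, 0, 0, 0), (38, 0, 0, 0, 0), (38, 0, 0, 0, 0), (40, 0, 0, 0, 0), (40, 0, 0, 0, 0), (41, 0, 0, 0, 0), (41, 0, 0, 0, 0), (54, 0, 0, 0, 0), (54, 0, 0, 0, 0), (55, 0, 0, 0, 0), (55, 0, 0, 0, 0), (56, 0, 0, 0, 0), (56, 0, 0, 0, 0), (54, 0, 0, 0, 0), (54, 0, 0, 0, 0), (57, 0, 0, 0, 0), (57, 0, 0, 0, 0), (58, 0, 0, 0, 0), (58, 0,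 0, 0, 0), (55, 0, 0, 0, 0), (55, 0, 0, 0, 0), (57, 0, 0, 0, 0), (57, 0, 0, 0, 0), (59, 0, 0, 0, 0), (59, 0, 0, 0, 0), (56, 0, 0, 0, 0), (56, 0, 0, 0, 0), (58, 0, 0, 0, 0), (58, 0, 0, 0, 0), (59, 0, 0, 0, 0), (59, 0, 0, 0, 0), (72, 0, 0, 0, 0), (72, 0, 0, 0, 0), (73, 0, 0, 0, 0), (73, 0, 0, 0, 0), (74, 0, 0, 0, 0), (74, 0, 0, 0, 0), (72, 0, 0, 0, 0), (72, 0, 0, 0, 0), (75, 0, 0, 0, 0), (75, 0, 0, 0, 0), (76, 0, 0, 0, 0), (76, 0, 0, 0, 0), (73, 0, 0, 0, 0), (73, 0, 0, 0, 0), (75, 0, 0, 0, 0), (75, 0, 0, 0, 0), (77, 0, 0, 0, 0), (77, 0, 0, 0, 0), (74, 0, 0, 0, 0), (74, 0, 0, 0, 0), (76, 0, 0, 0, 0), (76, 0, 0, 0, 0), (77, 0, 0, 0, 0), (77, 0, 0, 0, 0), (78, 0, 0, 0, 0), (78, 0, 0, 0, 0), (79, 0, 0, 0, 0), (79, 0, 0, 0, 0), (80, 0, 0, 0, 0), (80, 0, 0, 0, 0), (78, 0, 0, 0,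 0), (78, 0, 0, 0, 0), (81, 0, 0, 0, 0), (81, 0, 0, 0, 0), (82, 0, 0, 0, 0), (82, 0, 0, 0, 0), (79, 0, 0, 0, 0), (79, 0, 0, 0, 0), (81, 0, 0, 0, 0), (81, 0, 0, 0, 0), (83, 0, 0, 0, 0), (83, 0, 0, 0, 0), (80, 0, 0, 0, 0), (80, 0, 0, 0, 0), (82, 0, 0, 0, 0), (82, 0, 0, 0, 0), (83, 0, 0, 0, 0), (83, 0, 0, 0, 0), (18, 0, 0, 0, 0), (18, 0, 0, 0, 0), (19, 0, 0, 0, 0), (19, 0, 0, 0, 0), (20, 0, 0, 0, 0), (20, 0, 0, 0, 0), (18, 0, 0, 0, 0), (18, 0, 0, 0, 0), (21, 0, 0, 0, 0), (21, 0, 0, 0, 0), (22, 0, 0, 0, 0), (22, 0, 0, 0, 0), (19, 0, 0, 0, 0), (19, 0, 0, 0, 0), (21, 0, 0, 0, 0), (21, 0, 0, 0, 0), (23, 0, 0, 0, 0), (23, 0, 0, 0, 0), (20, 0, 0, 0, 0), (20, 0, 0, 0, 0), (22, 0, 0, 0, 0), (22, 0, 0, 0, 0), (23, 0, 0, 0, 0), (23, 0, 0, 0, 0), (42, 0, 0, 0, 0), (42, 0, 0, 0, 0), (43,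 0, 0, 0, 0), (43, 0, 0, 0, 0), (44, 0, 0, 0, 0), (44, 0, 0, 0, 0), (42, 0, 0, 0, 0), (42, 0, 0, 0, 0), (45, 0, 0, 0, 0), (45, 0, 0, 0, 0), (46, 0, 0, 0, 0), (46, 0, 0, 0, 0), (43, 0, 0, 0, 0), (43, 0, 0, 0, 0), (45, 0, 0, 0, 0), (45, 0, 0, 0, 0), (47, 0, 0, 0, 0), (47, 0, 0, 0, 0), (44, 0, 0, 0, 0), (44, 0, 0, 0, 0), (46, 0, 0, 0, 0), (46, 0, 0, 0, 0), (47, 0, 0, 0, 0), (47, 0, 0, 0, 0), (60, 0, 0, 0, 0), (60, 0, 0, 0, 0), (61, 0, 0, 0, 0), (61, 0, 0, 0, 0), (62, 0, 0, 0, 0), (62, 0, 0, 0, 0), (60, 0, 0, 0, 0), (60, 0, 0, 0, 0), (63, 0, 0, 0, 0), (63, 0, 0, 0, 0), (64, 0, 0, 0, 0), (64, 0, 0, 0, 0), (61, 0, 0, 0, 0), (61, 0, 0, 0, 0), (63, 0, 0, 0, 0), (63, 0, 0, 0, 0), (65, 0, 0, 0, 0), (65, 0, 0, 0, 0), (62, 0, 0, 0, 0), (62, 0, 0, 0, 0), (64, 0, 0, 0, 0), (64, 0, 0,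 0, 0), (65, 0, 0, 0, 0), (65, 0, 0, 0, 0), (72, 0, 0, 0, 0), (72, 0, 0, 0, 0), (73, 0, 0, 0, 0), (73, 0, 0, 0, 0), (74, 0, 0, 0, 0), (74, 0, 0, 0, 0), (72, 0, 0, 0, 0), (72, 0, 0, 0, 0), (75, 0, 0, 0, 0), (75, 0, 0, 0, 0), (76, 0, 0, 0, 0), (76, 0, 0, 0, 0), (73, 0, 0, 0, 0), (73, 0, 0, 0, 0), (75, 0, 0, 0, 0), (75, 0, 0, 0, 0), (77, 0, 0, 0, 0), (77, 0, 0, 0, 0), (74, 0, 0, 0, 0), (74, 0, 0, 0, 0), (76, 0, 0, 0, 0), (76, 0, 0, 0, 0), (77, 0, 0, 0, 0), (77, 0, 0, 0, 0), (84, 0, 0, 0, 0), (84, 0, 0, 0, 0), (85, 0, 0, 0, 0), (85, 0, 0, 0, 0), (86, 0, 0, 0, 0), (86, 0, 0, 0, 0), (84, 0, 0, 0, 0), (84, 0, 0, 0, 0), (87, 0, 0, 0, 0), (87, 0, 0, 0, 0), (88, 0, 0, 0, 0), (88, 0, 0, 0, 0), (85, 0, 0, 0, 0), (85, 0, 0, 0, 0), (87, 0, 0, 0, 0), (87, 0, 0, 0, 0), (89, 0, 0, 0, 0),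 (89, 0, 0, 0, 0), (86, 0, 0, 0, 0), (86, 0, 0, 0, 0), (88, 0, 0, 0, 0), (88, 0, 0, 0, 0), (89, 0, 0, 0, 0), (89, 0, 0, 0, 0), (24, 0, 0, 0, 0), (24, 0, 0, 0, 0), (25, 0, 0, 0, 0), (25, 0, 0, 0, 0), (26, 0, 0, 0, 0), (26, 0, 0, 0, 0), (24, 0, 0, 0, 0), (24, 0, 0, 0, 0), (27, 0, 0, 0, 0), (27, 0, 0, 0, 0), (28, 0, 0, 0, 0), (28, 0, 0, 0, 0), (25, 0, 0, 0, 0), (25, 0, 0, 0, 0), (27, 0, 0, 0, 0), (27, 0, 0, 0, 0), (29, 0, 0, 0, 0), (29, 0, 0, 0, 0), (26, 0, 0, 0, 0), (26, 0, 0, 0, 0), (28, 0, 0, 0, 0), (28, 0, 0, 0, 0), (29, 0, 0, 0, 0), (29, 0, 0, 0, 0), (48, 0, 0, 0, 0), (48, 0, 0, 0, 0), (49, 0, 0, 0, 0), (49, 0, 0, 0, 0), (50, 0, 0, 0, 0), (50, 0, 0, 0, 0), (48, 0, 0, 0, 0), (48, 0, 0, 0, 0), (51, 0, 0, 0, 0), (51, 0, 0, 0, 0), (52, 0, 0, 0, 0), (52, 0, 0, 0, 0), (49, 0,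 0, 0, 0), (49, 0, 0, 0, 0), (51, 0, 0, 0, 0), (51, 0, 0, 0, 0), (53, 0, 0, 0, 0), (53, 0, 0, 0, 0), (50, 0, 0, 0, 0), (50, 0, 0, 0, 0), (52, 0, 0, 0, 0), (52, 0, 0, 0, 0), (53, 0, 0, 0, 0), (53, 0, 0, 0, 0), (66, 0, 0, 0, 0), (66, 0, 0, 0, 0), (67, 0, 0, 0, 0), (67, 0, 0, 0, 0), (68, 0, 0, 0, 0), (68, 0, 0, 0, 0), (66, 0, 0, 0, 0), (66, 0, 0, 0, 0), (69, 0, 0, 0, 0), (69, 0, 0, 0, 0), (70, 0, 0, 0, 0), (70, 0, 0, 0, 0), (67, 0, 0, 0, 0), (67, 0, 0, 0, 0), (69, 0, 0, 0, 0), (69, 0, 0, 0, 0), (71, 0, 0, 0, 0), (71, 0, 0, 0, 0), (68, 0, 0, 0, 0), (68, 0, 0, 0, 0), (70, 0, 0, 0, 0), (70, 0, 0, 0, 0), (71, 0, 0, 0, 0), (71, 0, 0, 0, 0), (78, 0, 0, 0, 0), (78, 0, 0, 0, 0), (79, 0, 0, 0, 0), (79, 0, 0, 0, 0), (80, 0, 0, 0, 0), (80, 0, 0, 0, 0), (78, 0, 0, 0, 0), (78, 0, 0, 0,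 0), (81, 0, 0, 0, 0), (81, 0, 0, 0, 0), (82, 0, 0, 0, 0), (82, 0, 0, 0, 0), (79, 0, 0, 0, 0), (79, 0, 0, 0, 0), (81, 0, 0, 0, 0), (81, 0, 0, 0, 0), (83, 0, 0, 0, 0), (83, 0, 0, 0, 0), (80, 0, 0, 0, 0), (80, 0, 0, 0, 0), (82, 0, 0, 0, 0), (82, 0, 0, 0, 0), (83, 0, 0, 0, 0), (83, 0, 0, 0, 0), (84, 0, 0, 0, 0), (84, 0, 0, 0, 0), (85, 0, 0, 0, 0), (85, 0, 0, 0, 0), (86, 0, 0, 0, 0), (86, 0, 0, 0, 0), (84, 0, 0, 0, 0), (84, 0, 0, 0, 0), (87, 0, 0, 0, 0), (87, 0, 0, 0, 0), (88, 0, 0, 0, 0), (88, 0, 0, 0, 0), (85, 0, 0, 0, 0), (85, 0, 0, 0, 0), (87, 0, 0, 0, 0), (87, 0, 0, 0, 0), (89, 0, 0, 0, 0), (89, 0, 0, 0, 0), (86, 0, 0, 0, 0), (86, 0, 0, 0, 0), (88, 0, 0, 0, 0), (88, 0, 0, 0, 0), (89, 0, 0, 0, 0), (89, 0, 0, 0, 0)],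
  [(54, 0, 0, 0, 0), (54, 0, 0, 0, 0), (60, 0, 0, 0, 0), (60, 0, 0, 0, 0), (66, 0, 0, 0, 0), (66, 0, 0, 0, 0), (54, 0, 0, 0, 0), (54, 0, 0, 0, 0), (72, 0, 0, 0, 0), (72, 0, 0, 0, 0), (78, 0, 0, 0, 0), (78, 0, 0, 0, 0), (60, 0, 0, 0, 0), (60, 0, 0, 0, 0), (72, 0, 0, 0, 0), (72, 0, 0, 0, 0), (84, 0, 0, 0, 0), (84, 0, 0, 0, 0), (66, 0, 0, 0, 0), (66, 0, 0, 0, 0), (78, 0, 0, 0, 0), (78, 0, 0, 0, 0), (84, 0, 0, 0, 0), (84, 0, 0, 0, 0), (36, 0, 0, 0, 0), (36, 0, 0, 0, 0), (42, 0, 0, 0, 0), (42, 0, 0, 0, 0), (48, 0, 0, 0, 0), (48, 0, 0, 0, 0), (36, 0, 0, 0, 0), (36, 0, 0, 0, 0), (73, 0, 0, 0, 0), (73, 0, 0, 0, 0), (79, 0, 0, 0, 0), (79, 0, 0, 0, 0), (42, 0, 0, 0, 0), (42, 0, 0, 0, 0), (73, 0, 0, 0, 0), (73, 0, 0, 0, 0), (85, 0, 0, 0, 0), (85, 0, 0, 0, 0), (48, 0, 0, 0, 0), (48,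 0, 0, 0, 0), (79, 0, 0, 0, 0), (79, 0, 0, 0, 0), (85, 0, 0, 0, 0), (85, 0, 0, 0, 0), (30, 0, 0, 0, 0), (30, 0, 0, 0, 0), (43, 0, 0, 0, 0), (43, 0, 0, 0, 0), (49, 0, 0, 0, 0), (49, 0, 0, 0, 0), (30, 0, 0, 0, 0), (30, 0, 0, 0, 0), (61, 0, 0, 0, 0), (61, 0, 0, 0, 0), (67, 0, 0, 0, 0), (67, 0, 0, 0, 0), (43, 0, 0, 0, 0), (43, 0, 0, 0, 0), (61, 0, 0, 0, 0), (61, 0, 0, 0, 0), (86, 0, 0, 0, 0), (86, 0, 0, 0, 0), (49, 0, 0, 0, 0), (49, 0, 0, 0, 0), (67, 0, 0, 0, 0), (67, 0, 0, 0, 0), (86, 0, 0, 0, 0), (86, 0, 0, 0, 0), (31, 0, 0, 0, 0), (31, 0, 0, 0, 0), (37, 0, 0, 0, 0), (37, 0, 0, 0, 0), (50, 0, 0, 0, 0), (50, 0, 0, 0, 0), (31, 0, 0, 0, 0), (31, 0, 0, 0, 0), (55, 0, 0, 0, 0), (55, 0, 0, 0, 0), (68, 0, 0, 0, 0), (68, 0, 0, 0, 0), (37, 0, 0, 0, 0), (37, 0, 0, 0, 0), (55, 0, 0,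 0, 0), (55, 0, 0, 0, 0), (80, 0, 0, 0, 0), (80, 0, 0, 0, 0), (50, 0, 0, 0, 0), (50, 0, 0, 0, 0), (68, 0, 0, 0, 0), (68, 0, 0, 0, 0), (80, 0, 0, 0, 0), (80, 0, 0, 0, 0), (32, 0, 0, 0, 0), (32, 0, 0, 0, 0), (38, 0, 0, 0, 0), (38, 0, 0, 0, 0), (44, 0, 0, 0, 0), (44, 0, 0, 0, 0), (32, 0, 0, 0, 0), (32, 0, 0, 0, 0), (56, 0, 0, 0, 0), (56, 0, 0, 0, 0), (62, 0, 0, 0, 0), (62, 0, 0, 0, 0), (38, 0, 0, 0, 0), (38, 0, 0, 0, 0), (56, 0, 0, 0, 0), (56, 0, 0, 0, 0), (74, 0, 0, 0, 0), (74, 0, 0, 0, 0), (44, 0, 0, 0, 0), (44, 0, 0, 0, 0), (62, 0, 0, 0, 0), (62, 0, 0, 0, 0), (74, 0, 0, 0, 0), (74, 0, 0, 0, 0), (54, 0, 0, 0, 0), (54, 0, 0, 0, 0), (60, 0, 0, 0, 0), (60, 0, 0, 0, 0), (66, 0, 0, 0, 0), (66, 0, 0, 0, 0), (54, 0, 0, 0, 0), (54, 0, 0, 0, 0), (72, 0, 0, 0, 0), (72, 0, 0, 0, 0),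 (78, 0, 0, 0, 0), (78, 0, 0, 0, 0), (60, 0, 0, 0, 0), (60, 0, 0, 0, 0), (72, 0, 0, 0, 0), (72, 0, 0, 0, 0), (84, 0, 0, 0, 0), (84, 0, 0, 0, 0), (66, 0, 0, 0, 0), (66, 0, 0, 0, 0), (78, 0, 0, 0, 0), (78, 0, 0, 0, 0), (84, 0, 0, 0, 0), (84, 0, 0, 0, 0), (12, 0, 0, 0, 0), (12, 0, 0, 0, 0), (18, 0, 0, 0, 0), (18, 0, 0, 0, 0), (24, 0, 0, 0, 0), (24, 0, 0, 0, 0), (12, 0, 0, 0, 0), (12, 0, 0, 0, 0), (75, 0, 0, 0, 0), (75, 0, 0, 0, 0), (81, 0, 0, 0, 0), (81, 0, 0, 0, 0), (18, 0, 0, 0, 0), (18, 0, 0, 0, 0), (75, 0, 0, 0, 0), (75, 0, 0, 0, 0), (87, 0, 0, 0, 0), (87, 0, 0, 0, 0), (24, 0, 0, 0, 0), (24, 0, 0, 0, 0), (81, 0, 0, 0, 0), (81, 0, 0, 0, 0), (87, 0, 0, 0, 0), (87, 0, 0, 0, 0), (6, 0, 0, 0, 0), (6, 0, 0, 0, 0), (19, 0, 0, 0, 0), (19, 0, 0, 0, 0), (25, 0, 0, 0, 0), (25, 0,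 0, 0, 0), (6, 0, 0, 0, 0), (6, 0, 0, 0, 0), (63, 0, 0, 0, 0), (63, 0, 0, 0, 0), (69, 0, 0, 0, 0), (69, 0, 0, 0, 0), (19, 0, 0, 0, 0), (19, 0, 0, 0, 0), (63, 0, 0, 0, 0), (63, 0, 0, 0, 0), (88, 0, 0, 0, 0), (88, 0, 0, 0, 0), (25, 0, 0, 0, 0), (25, 0, 0, 0, 0), (69, 0, 0, 0, 0), (69, 0, 0, 0, 0), (88, 0, 0, 0, 0), (88, 0, 0, 0, 0), (7, 0, 0, 0, 0), (7, 0, 0, 0, 0), (13, 0, 0, 0, 0), (13, 0, 0, 0, 0), (26, 0, 0, 0, 0), (26, 0, 0, 0, 0), (7, 0, 0, 0, 0), (7, 0, 0, 0, 0), (57, 0, 0, 0, 0), (57, 0, 0, 0, 0), (70, 0, 0, 0, 0), (70, 0, 0, 0, 0), (13, 0, 0, 0, 0), (13, 0, 0, 0, 0), (57, 0, 0, 0, 0), (57, 0, 0, 0, 0), (82, 0, 0, 0, 0), (82, 0, 0, 0, 0), (26, 0, 0, 0, 0), (26, 0, 0, 0, 0), (70, 0, 0, 0, 0), (70, 0, 0, 0, 0), (82, 0, 0, 0, 0), (82, 0, 0, 0, 0), (8, 0, 0, 0, 0), (8,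 0, 0, 0, 0), (14, 0, 0, 0, 0), (14, 0, 0, 0, 0), (20, 0, 0, 0, 0), (20, 0, 0, 0, 0), (8, 0, 0, 0, 0), (8, 0, 0, 0, 0), (58, 0, 0, 0, 0), (58, 0, 0, 0, 0), (64, 0, 0, 0, 0), (64, 0, 0, 0, 0), (14, 0, 0, 0, 0), (14, 0, 0, 0, 0), (58, 0, 0, 0, 0), (58, 0, 0, 0, 0), (76, 0, 0, 0, 0), (76, 0, 0, 0, 0), (20, 0, 0, 0, 0), (20, 0, 0, 0, 0), (64, 0, 0, 0, 0), (64, 0, 0, 0, 0), (76, 0, 0, 0, 0), (76, 0, 0, 0, 0), (36, 0, 0, 0, 0), (36, 0, 0, 0, 0), (42, 0, 0, 0, 0), (42, 0, 0, 0, 0), (48, 0, 0, 0, 0), (48, 0, 0, 0, 0), (36, 0, 0, 0, 0), (36, 0, 0, 0, 0), (73, 0, 0, 0, 0), (73, 0, 0, 0, 0), (79, 0, 0, 0, 0), (79, 0, 0, 0, 0), (42, 0, 0, 0, 0), (42, 0, 0, 0, 0), (73, 0, 0, 0, 0), (73, 0, 0, 0, 0), (85, 0, 0, 0, 0), (85, 0, 0, 0, 0), (48, 0, 0, 0, 0), (48, 0, 0, 0, 0), (79, 0, 0, 0,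 0), (79, 0, 0, 0, 0), (85, 0, 0, 0, 0), (85, 0, 0, 0, 0), (12, 0, 0, 0, 0), (12, 0, 0, 0, 0), (18, 0, 0, 0, 0), (18, 0, 0, 0, 0), (24, 0, 0, 0, 0), (24, 0, 0, 0, 0), (12, 0, 0, 0, 0), (12, 0, 0, 0, 0), (75, 0, 0, 0, 0), (75, 0, 0, 0, 0), (81, 0, 0, 0, 0), (81, 0, 0, 0, 0), (18, 0, 0, 0, 0), (18, 0, 0, 0, 0), (75, 0, 0, 0, 0), (75, 0, 0, 0, 0), (87, 0, 0, 0, 0), (87, 0, 0, 0, 0), (24, 0, 0, 0, 0), (24, 0, 0, 0, 0), (81, 0, 0, 0, 0), (81, 0, 0, 0, 0), (87, 0, 0, 0, 0), (87, 0, 0, 0, 0), (0, 0, 0, 0, 0), (0, 0, 0, 0, 0), (21, 0, 0, 0, 0), (21, 0, 0, 0, 0), (27, 0, 0, 0, 0), (27, 0, 0, 0, 0), (0, 0, 0, 0, 0), (0, 0, 0, 0, 0), (45, 0, 0, 0, 0), (45, 0, 0, 0, 0), (51, 0, 0, 0, 0), (51, 0, 0, 0, 0), (21, 0, 0, 0, 0), (21, 0, 0, 0, 0), (45, 0, 0, 0, 0), (45, 0, 0, 0, 0), (89, 0,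 0, 0, 0), (89, 0, 0, 0, 0), (27, 0, 0, 0, 0), (27, 0, 0, 0, 0), (51, 0, 0, 0, 0), (51, 0, 0, 0, 0), (89, 0, 0, 0, 0), (89, 0, 0, 0, 0), (1, 0, 0, 0, 0), (1, 0, 0, 0, 0), (15, 0, 0, 0, 0), (15, 0, 0, 0, 0), (28, 0, 0, 0, 0), (28, 0, 0, 0, 0), (1, 0, 0, 0, 0), (1, 0, 0, 0, 0), (39, 0, 0, 0, 0), (39, 0, 0, 0, 0), (52, 0, 0, 0, 0), (52, 0, 0, 0, 0), (15, 0, 0, 0, 0), (15, 0, 0, 0, 0), (39, 0, 0, 0, 0), (39, 0, 0, 0, 0), (83, 0, 0, 0, 0), (83, 0, 0, 0, 0), (28, 0, 0, 0, 0), (28, 0, 0, 0, 0), (52, 0, 0, 0, 0), (52, 0, 0, 0, 0), (83, 0, 0, 0, 0), (83, 0, 0, 0, 0), (2, 0, 0, 0, 0), (2, 0, 0, 0, 0), (16, 0, 0, 0, 0), (16, 0, 0, 0, 0), (22, 0, 0, 0, 0), (22, 0, 0, 0, 0), (2, 0, 0, 0, 0), (2, 0, 0, 0, 0), (40, 0, 0, 0, 0), (40, 0, 0, 0, 0), (46, 0, 0, 0, 0), (46, 0, 0, 0, 0), (16,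 0, 0, 0, 0), (16, 0, 0, 0, 0), (40, 0, 0, 0, 0), (40, 0, 0, 0, 0), (77, 0, 0, 0, 0), (77, 0, 0, 0, 0), (22, 0, 0, 0, 0), (22, 0, 0, 0, 0), (46, 0, 0, 0, 0), (46, 0, 0, 0, 0), (77, 0, 0, 0, 0), (77, 0, 0, 0, 0), (30, 0, 0, 0, 0), (30, 0, 0, 0, 0), (43, 0, 0, 0, 0), (43, 0, 0, 0, 0), (49, 0, 0, 0, 0), (49, 0, 0, 0, 0), (30, 0, 0, 0, 0), (30, 0, 0, 0, 0), (61, 0, 0, 0, 0), (61, 0, 0, 0, 0), (67, 0, 0, 0, 0), (67, 0, 0, 0, 0), (43, 0, 0, 0, 0), (43, 0, 0, 0, 0), (61, 0, 0, 0, 0), (61, 0, 0, 0, 0), (86, 0, 0, 0, 0), (86, 0, 0, 0, 0), (49, 0, 0, 0, 0), (49, 0, 0, 0, 0), (67, 0, 0, 0, 0), (67, 0, 0, 0, 0), (86, 0, 0, 0, 0), (86, 0, 0, 0, 0), (6, 0, 0, 0, 0), (6, 0, 0, 0, 0), (19, 0, 0, 0, 0), (19, 0, 0, 0, 0), (25, 0, 0, 0, 0), (25, 0, 0, 0, 0), (6, 0, 0, 0, 0), (6, 0, 0, 0, 0),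 (63, 0, 0, 0, 0), (63, 0, 0, 0, 0), (69, 0, 0, 0, 0), (69, 0, 0, 0, 0), (19, 0, 0, 0, 0), (19, 0, 0, 0, 0), (63, 0, 0, 0, 0), (63, 0, 0, 0, 0), (88, 0, 0, 0, 0), (88, 0, 0, 0, 0), (25, 0, 0, 0, 0), (25, 0, 0, 0, 0), (69, 0, 0, 0, 0), (69, 0, 0, 0, 0), (88, 0, 0, 0, 0), (88, 0, 0, 0, 0), (0, 0, 0, 0, 0), (0, 0, 0, 0, 0), (21, 0, 0, 0, 0), (21, 0, 0, 0, 0), (27, 0, 0, 0, 0), (27, 0, 0, 0, 0), (0, 0, 0, 0, 0), (0, 0, 0, 0, 0), (45, 0, 0, 0, 0), (45, 0, 0, 0, 0), (51, 0, 0, 0, 0), (51, 0, 0, 0, 0), (21, 0, 0, 0, 0), (21, 0, 0, 0, 0), (45, 0, 0, 0, 0), (45, 0, 0, 0, 0), (89, 0, 0, 0, 0), (89, 0, 0, 0, 0), (27, 0, 0, 0, 0), (27, 0, 0, 0, 0), (51, 0, 0, 0, 0), (51, 0, 0, 0, 0), (89, 0, 0, 0, 0), (89, 0, 0, 0, 0), (3, 0, 0, 0, 0), (3, 0, 0, 0, 0), (9, 0, 0, 0, 0), (9, 0, 0, 0,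 0), (29, 0, 0, 0, 0), (29, 0, 0, 0, 0), (3, 0, 0, 0, 0), (3, 0, 0, 0, 0), (33, 0, 0, 0, 0), (33, 0, 0, 0, 0), (53, 0, 0, 0, 0), (53, 0, 0, 0, 0), (9, 0, 0, 0, 0), (9, 0, 0, 0, 0), (33, 0, 0, 0, 0), (33, 0, 0, 0, 0), (71, 0, 0, 0, 0), (71, 0, 0, 0, 0), (29, 0, 0, 0, 0), (29, 0, 0, 0, 0), (53, 0, 0, 0, 0), (53, 0, 0, 0, 0), (71, 0, 0, 0, 0), (71, 0, 0, 0, 0), (4, 0, 0, 0, 0), (4, 0, 0, 0, 0), (10, 0, 0, 0, 0), (10, 0, 0, 0, 0), (23, 0, 0, 0, 0), (23, 0, 0, 0, 0), (4, 0, 0, 0, 0), (4, 0, 0, 0, 0), (34, 0, 0, 0, 0), (34, 0, 0, 0, 0), (47, 0, 0, 0, 0), (47, 0, 0, 0, 0), (10, 0, 0, 0, 0), (10, 0, 0, 0, 0), (34, 0, 0, 0, 0), (34, 0, 0, 0, 0), (65, 0, 0, 0, 0), (65, 0, 0, 0, 0), (23, 0, 0, 0, 0), (23, 0, 0, 0, 0), (47, 0, 0, 0, 0), (47, 0, 0, 0, 0), (65, 0, 0, 0, 0), (65, 0, 0,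 0, 0), (31, 0, 0, 0, 0), (31, 0, 0, 0, 0), (37, 0, 0, 0, 0), (37, 0, 0, 0, 0), (50, 0, 0, 0, 0), (50, 0, 0, 0, 0), (31, 0, 0, 0, 0), (31, 0, 0, 0, 0), (55, 0, 0, 0, 0), (55, 0, 0, 0, 0), (68, 0, 0, 0, 0), (68, 0, 0, 0, 0), (37, 0, 0, 0, 0), (37, 0, 0, 0, 0), (55, 0, 0, 0, 0), (55, 0, 0, 0, 0), (80, 0, 0, 0, 0), (80, 0, 0, 0, 0), (50, 0, 0, 0, 0), (50, 0, 0, 0, 0), (68, 0, 0, 0, 0), (68, 0, 0, 0, 0), (80, 0, 0, 0, 0), (80, 0, 0, 0, 0), (7, 0, 0, 0, 0), (7, 0, 0, 0, 0), (13, 0, 0, 0, 0), (13, 0, 0, 0, 0), (26, 0, 0, 0, 0), (26, 0, 0, 0, 0), (7, 0, 0, 0, 0), (7, 0, 0, 0, 0), (57, 0, 0, 0, 0), (57, 0, 0, 0, 0), (70, 0, 0, 0, 0), (70, 0, 0, 0, 0), (13, 0, 0, 0, 0), (13, 0, 0, 0, 0), (57, 0, 0, 0, 0), (57, 0, 0, 0, 0), (82, 0, 0, 0, 0), (82, 0, 0, 0, 0), (26, 0, 0, 0, 0), (26,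 0, 0, 0, 0), (70, 0, 0, 0, 0), (70, 0, 0, 0, 0), (82, 0, 0, 0, 0), (82, 0, 0, 0, 0), (1, 0, 0, 0, 0), (1, 0, 0, 0, 0), (15, 0, 0, 0, 0), (15, 0, 0, 0, 0), (28, 0, 0, 0, 0), (28, 0, 0, 0, 0), (1, 0, 0, 0, 0), (1, 0, 0, 0, 0), (39, 0, 0, 0, 0), (39, 0, 0, 0, 0), (52, 0, 0, 0, 0), (52, 0, 0, 0, 0), (15, 0, 0, 0, 0), (15, 0, 0, 0, 0), (39, 0, 0, 0, 0), (39, 0, 0, 0, 0), (83, 0, 0, 0, 0), (83, 0, 0, 0, 0), (28, 0, 0, 0, 0), (28, 0, 0, 0, 0), (52, 0, 0, 0, 0), (52, 0, 0, 0, 0), (83, 0, 0, 0, 0), (83, 0, 0, 0, 0), (3, 0, 0, 0, 0), (3, 0, 0, 0, 0), (9, 0, 0, 0, 0), (9, 0, 0, 0, 0), (29, 0, 0, 0, 0), (29, 0, 0, 0, 0), (3, 0, 0, 0, 0), (3, 0, 0, 0, 0), (33, 0, 0, 0, 0), (33, 0, 0, 0, 0), (53, 0, 0, 0, 0), (53, 0, 0, 0, 0), (9, 0, 0, 0, 0), (9, 0, 0, 0, 0), (33, 0, 0, 0, 0), (33,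 0, 0, 0, 0), (71, 0, 0, 0, 0), (71, 0, 0, 0, 0), (29, 0, 0, 0, 0), (29, 0, 0, 0, 0), (53, 0, 0, 0, 0), (53, 0, 0, 0, 0), (71, 0, 0, 0, 0), (71, 0, 0, 0, 0), (5, 0, 0, 0, 0), (5, 0, 0, 0, 0), (11, 0, 0, 0, 0), (11, 0, 0, 0, 0), (17, 0, 0, 0, 0), (17, 0, 0, 0, 0), (5, 0, 0, 0, 0), (5, 0, 0, 0, 0), (35, 0, 0, 0, 0), (35, 0, 0, 0, 0), (41, 0, 0, 0, 0), (41, 0, 0, 0, 0), (11, 0, 0, 0, 0), (11, 0, 0, 0, 0), (35, 0, 0, 0, 0), (35, 0, 0, 0, 0), (59, 0, 0, 0, 0), (59, 0, 0, 0, 0), (17, 0, 0, 0, 0), (17, 0, 0, 0, 0), (41, 0, 0, 0, 0), (41, 0, 0, 0, 0), (59, 0, 0, 0, 0), (59, 0, 0, 0, 0), (32, 0, 0, 0, 0), (32, 0, 0, 0, 0), (38, 0, 0, 0, 0), (38, 0, 0, 0, 0), (44, 0, 0, 0, 0), (44, 0, 0, 0, 0), (32, 0, 0, 0, 0), (32, 0, 0, 0, 0), (56, 0, 0, 0, 0), (56, 0, 0, 0, 0), (62, 0, 0, 0, 0),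 (62, 0, 0, 0, 0), (38, 0, 0, 0, 0), (38, 0, 0, 0, 0), (56, 0, 0, 0, 0), (56, 0, 0, 0, 0), (74, 0, 0, 0, 0), (74, 0, 0, 0, 0), (44, 0, 0, 0, 0), (44, 0, 0, 0, 0), (62, 0, 0, 0, 0), (62, 0, 0, 0, 0), (74, 0, 0, 0, 0), (74, 0, 0, 0, 0), (8, 0, 0, 0, 0), (8, 0, 0, 0, 0), (14, 0, 0, 0, 0), (14, 0, 0, 0, 0), (20, 0, 0, 0, 0), (20, 0, 0, 0, 0), (8, 0, 0, 0, 0), (8, 0, 0, 0, 0), (58, 0, 0, 0, 0), (58, 0, 0, 0, 0), (64, 0, 0, 0, 0), (64, 0, 0, 0, 0), (14, 0, 0, 0, 0), (14, 0, 0, 0, 0), (58, 0, 0, 0, 0), (58, 0, 0, 0, 0), (76, 0, 0, 0, 0), (76, 0, 0, 0, 0), (20, 0, 0, 0, 0), (20, 0, 0, 0, 0), (64, 0, 0, 0, 0), (64, 0, 0, 0, 0), (76, 0, 0, 0, 0), (76, 0, 0, 0, 0), (2, 0, 0, 0, 0), (2, 0, 0, 0, 0), (16, 0, 0, 0, 0), (16, 0, 0, 0, 0), (22, 0, 0, 0, 0), (22, 0, 0, 0, 0), (2, 0, 0, 0,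 0), (2, 0, 0, 0, 0), (40, 0, 0, 0, 0), (40, 0, 0, 0, 0), (46, 0, 0, 0, 0), (46, 0, 0, 0, 0), (16, 0, 0, 0, 0), (16, 0, 0, 0, 0), (40, 0, 0, 0, 0), (40, 0, 0, 0, 0), (77, 0, 0, 0, 0), (77, 0, 0, 0, 0), (22, 0, 0, 0, 0), (22, 0, 0, 0, 0), (46, 0, 0, 0, 0), (46, 0, 0, 0, 0), (77, 0, 0, 0, 0), (77, 0, 0, 0, 0), (4, 0, 0, 0, 0), (4, 0, 0, 0, 0), (10, 0, 0, 0, 0), (10, 0, 0, 0, 0), (23, 0, 0, 0, 0), (23, 0, 0, 0, 0), (4, 0, 0, 0, 0), (4, 0, 0, 0, 0), (34, 0, 0, 0, 0), (34, 0, 0, 0, 0), (47, 0, 0, 0, 0), (47, 0, 0, 0, 0), (10, 0, 0, 0, 0), (10, 0, 0, 0, 0), (34, 0, 0, 0, 0), (34, 0, 0, 0, 0), (65, 0, 0, 0, 0), (65, 0, 0, 0, 0), (23, 0, 0, 0, 0), (23, 0, 0, 0, 0), (47, 0, 0, 0, 0), (47, 0, 0, 0, 0), (65, 0, 0, 0, 0), (65, 0, 0, 0, 0), (5, 0, 0, 0, 0), (5, 0, 0, 0, 0), (11, 0, 0,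 0, 0), (11, 0, 0, 0, 0), (17, 0, 0, 0, 0), (17, 0, 0, 0, 0), (5, 0, 0, 0, 0), (5, 0, 0, 0, 0), (35, 0, 0, 0, 0), (35, 0, 0, 0, 0), (41, 0, 0, 0, 0), (41, 0, 0, 0, 0), (11, 0, 0, 0, 0), (11, 0, 0, 0, 0), (35, 0, 0, 0, 0), (35, 0, 0, 0, 0), (59, 0, 0, 0, 0), (59, 0, 0, 0, 0), (17, 0, 0, 0, 0), (17, 0, 0, 0, 0), (41, 0, 0, 0, 0), (41, 0, 0, 0, 0), (59, 0, 0, 0, 0), (59, 0, 0, 0, 0)]]

theorem tr51 : trK keys lk51 kl51 = true := by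
  decide +kernel

theorem x51_0 : expB 2 6 dg2 dg8 m51_0 (l51_0 ++ z51_0) w51_0 = true := by
  decide +kernel

theorem t51_0_0 : chkS lk51 2 6 [(1, m51_0)] l51_0
  [(0, 16, 16, 5517840, 5517840), (1, 16, 16, 5517840, 5517840), (1, 16, 16, 4534800, 4534800), (1, 16, 16, 5514000, 5514000), (1, 16, 16, 4530960, 4530960), (2, 16, 16, 5517840, 5517840), (4, 16, 16, 5513985, 5513985), (7, 16, 16, 5456400, 5456400), (7, 16, 16, 3490320, 4411920), (8, 1, 1, 5374275, 5309475), (8, 1, 1, 2425155, 4261155), (6, 16, 16, 5517600, 5517600), (4, 16, 16, 5517825, 5517825), (7, 16, 16, 5448720, 5391120), (7, 16, 16, 3482640, 4346640), (8, 1, 1, 5378115, 5309490), (8, 1, 1, 2428995, 4261170), (6, 16, 16, 5509920, 5513520), (8, 16, 16, 5391120, 5448720), (8, 16, 16, 5387280, 5387280), (6,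 16, 16, 3298320, 3298320), (1, 1, 1, 5509170, 5509170), (11, 16, 16, 4346625, 3482625), (11, 16, 16, 4338945, 2438145), (8, 16, 16, 2442000, 4400400), (8, 16, 16, 2438160, 4338960), (6, 16, 16, 2315280, 3294480), (1, 1, 1, 4526130, 4526130), (11, 16, 16, 2380545, 3417345), (11, 16, 16, 2372865, 2372865), (4, 16, 16, 5514000, 5514000), (7, 16, 16, 5456385, 5456385), (7, 16, 16, 3490305, 4411905), (8, 1, 1, 5374260, 5248035), (8, 1, 1, 2425140, 4199715), (6, 16, 16, 5517570, 5517345), (4, 16, 16, 5517840, 5517840), (7, 16, 16, 5448705, 5391105), (7, 16, 16, 3482625, 4346625), (8, 1, 1, 5378100, 5248050), (8, 1, 1, 2428980, 4199730), (6, 16, 16, 5509890, 5513265), (8, 16, 16, 5391105, 5448705), (8, 16, 16, 5387265, 5387265), (6, 16, 16, 3298305, 3298305), (1, 1, 1, 5509155,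 5505330), (11, 16, 16, 4346640, 3482640), (11, 16, 16, 4338960, 2438160), (8, 16, 16, 2441985, 4400385), (8, 16, 16, 2438145, 4338945), (6, 16, 16, 2315265, 3294465), (1, 1, 1, 4526115, 4522290), (11, 16, 16, 2380560, 3417360), (11, 16, 16, 2372880, 2372880), (3, 16, 16, 5517840, 5517840), (10, 1, 1, 5443650, 5324850), (10, 1, 1, 3477570, 4280370), (10, 1, 1, 5443620, 5259570), (10, 1, 1, 3477540, 4215090), (9, 1, 1, 3280980, 1070130), (10, 16, 16, 5456400, 5456400), (7, 1, 1, 5439810, 5324835), (5, 16, 16, 5517840, 5517840), (7, 1, 1, 5439780, 5259555), (5, 16, 16, 5517825, 5517825), (6, 1, 1, 2294100, 1066275), (10, 16, 16, 3490320, 4411920), (7, 1, 1, 3473730, 4280355), (5, 16, 16, 4534800, 4534800), (7, 1, 1, 3473700, 4215075), (5, 16, 16, 4534785, 4534785), (6, 1,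 1, 3277140, 1070115), (10, 16, 16, 5448720, 5391120), (7, 1, 1, 5443650, 5324850), (5, 16, 16, 5514000, 5514000), (7, 1, 1, 5443620, 5259570), (5, 16, 16, 5513985, 5513985), (6, 1, 1, 2297940, 1066290), (10, 16, 16, 3482640, 4346640), (7, 1, 1, 3477570, 4280370), (5, 16, 16, 4530960, 4530960), (7, 1, 1, 3477540, 4215090), (5, 16, 16, 4530945, 4530945), (6, 1, 1, 3280980, 1070130), (9, 16, 16, 3298320, 3298320), (6, 1, 1, 5513265, 5509890), (6, 1, 1, 5505585, 5509635), (6, 1, 1, 5513235, 5505810), (6, 1, 1, 5505555, 5505555), (2, 1, 1, 5509170, 5509170)]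
  [(0, 23040), (1, 184320), (2, 46080), (3, 23040), (4, 92160), (5, 184320), (6, 368640), (7, 368640), (8, 368640), (9, 46080), (10, 184320), (11, 184320)] = true := by
  decide +kernel

section

variable {κ ι : Type*} [Fintype κ] [Fintype ι] [Inhabited κ] [Inhabited ι]

noncomputable def F51_0 (E : Env κ ι) : (Fin 2 → κ) → (Fin 6 → ι) → ℝ := op2 (P2 κ) (P8 ι) (fB E 2 6 m51_0)

def r51_0_0 : List (ℕ × ℤ) := [(0, 23040), (1, 184320), (2, 46080), (3, 23040), (4, 92160), (5, 184320), (6, 368640), (7, 368640), (8, 368640), (9, 46080), (10, 184320), (11, 184320)]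

theorem h51_0_0 (E : Env κ ι) : ip (F51_0 E) (F51_0 E) = dotS (ek E lk51) r51_0_0 :=
  op_entryZ E lk51 2 6 _ _ _ _ (pg2 κ) (pg8 ι) m51_0 m51_0 l51_0 z51_0 w51_0 x51_0 (by decide) _ (chkS_sound E lk51 2 6 _ _ _ _ t51_0_0)

theorem row51_0 (E : Env κ ι) : RowG (ek E lk51) (F51_0 E) [F51_0 E] [r51_0_0] :=
  rowG_cons _ _ _ _ _ _ (h51_0_0 E) (rowG_nil _ _)

def tab51 : List (List (List (ℕ × ℤ))) := [[r51_0_0]]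

theorem tri51 (E : Env κ ι) : TriG (ek E lk51) [F51_0 E] tab51 := by
  refine triG_cons _ _ _ _ _ (row51_0 E) ?_
  exact triG_nil _

end

def lk52 : List Key := [
  (2, 6, [(0, [0], [0, 1]), (0, [0], [0, 1]), (0, [1], [2, 3]), (0, [1], [2, 3]), (1, [], [4, 5]), (1, [], [4, 5])]),
  (2, 6, [(0, [0], [0, 1]), (0, [0], [0, 1]), (0, [1], [2, 3]), (0, [1], [2, 4]), (1, [], [4, 5]), (1, [], [3, 5])]),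
  (2, 6, [(0, [0], [0, 1]), (0, [0], [0, 1]), (0, [1], [2, 3]), (0, [1], [4, 5]), (1, [], [4, 5]), (1, [], [2, 3])]),
  (2, 6, [(0, [0], [0, 1]), (0, [1], [2, 3]), (0, [0], [2, 3]), (0, [1], [0, 1]), (1, [], [4, 5]), (1, [], [4, 5])]),
  (2, 6, [(0, [0], [0, 1]), (0, [1], [2, 3]), (0, [1], [0, 2]), (0, [0], [1, 3]), (1, [], [4, 5]), (1, [], [4, 5])]),
  (2, 6, [(0, [0], [0, 1]), (0, [1], [2, 3]), (0, [0], [2, 4]), (0, [1], [0, 5]), (1, [], [4, 5]), (1, [], [1, 3])]),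
  (2, 6, [(0, [0], [0, 1]), (0, [0], [2, 0]), (0, [1], [3, 1]), (0, [1], [4, 5]), (1, [], [4, 5]), (1, [], [2, 3])]),
  (2, 6, [(0, [0], [0, 1]), (0, [0], [2, 0]), (0, [1], [3, 1]), (0, [1], [2, 4]), (1, [], [4, 5]), (1, [], [3, 5])]),
  (2, 6, [(0, [0], [0, 1]), (0, [0], [2, 0]), (0, [1], [3, 1]), (0, [1], [3, 4]), (1, [], [4, 5]), (1, [], [2, 5])]),
  (2, 6, [(0, [0], [0, 1]), (0, [0], [2, 3]), (0, [1], [0, 1]), (0, [1], [4, 5]), (1, [], [4, 5]), (1, [], [2, 3])]),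
  (2, 6, [(0, [0], [0, 1]), (0, [0], [2, 3]), (0, [1], [0, 1]), (0, [1], [2, 4]), (1, [], [4, 5]), (1, [], [3, 5])]),
  (2, 6, [(0, [0], [0, 1]), (0, [0], [2, 1]), (0, [1], [3, 4]), (0, [1], [3, 5]), (1, [], [0, 5]), (1, [], [2, 4])])]

def kl52 : List ℕ := [9, 10, 14, 16, 19, 21, 40, 42, 43, 46, 48, 62]

def m52_0 : Base := (0, 0, [(0, [0], [0, 1]), (0, [1], [2, 3]), (1, [], [4, 5])])

def l52_0 : Cov := [(2880, 0, 0, [(0, [0], [0, 1]), (0, [1], [2, 3]), (1, [], [4, 5])]),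
  (2880, 0, 0, [(0, [0], [0, 1]), (0, [1], [2, 4]), (1, [], [3, 5])]),
  (2880, 0, 0, [(0, [0], [0, 1]), (0, [1], [3, 4]), (1, [], [2, 5])]),
  (2880, 0, 0, [(0, [0], [0, 2]), (0, [1], [1, 3]), (1, [], [4, 5])]),
  (2880, 0, 0, [(0, [0], [0, 2]), (0, [1], [1, 4]), (1, [], [3, 5])]),
  (2880, 0, 0, [(0, [0], [0, 2]), (0, [1], [3, 4]), (1, [], [1, 5])]),
  (2880, 0, 0, [(0, [0], [0, 3]), (0, [1], [1, 2]), (1, [], [4, 5])]),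
  (2880, 0, 0, [(0, [0], [0, 3]), (0, [1], [1, 4]), (1, [], [2, 5])]),
  (2880, 0, 0, [(0, [0], [0, 3]), (0, [1], [2, 4]), (1, [], [1, 5])]),
  (2880, 0, 0, [(0, [0], [0, 4]), (0, [1], [1, 2]), (1, [], [3, 5])]),
  (2880, 0, 0, [(0, [0], [0, 4]), (0, [1], [1, 3]), (1, [], [2, 5])]),
  (2880, 0, 0, [(0, [0], [0, 4]), (0, [1], [2, 3]), (1, [], [1, 5])]),
  (2880, 0, 0, [(0, [0], [1, 2]), (0, [1], [0, 3]), (1, [], [4, 5])]),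
  (2880, 0, 0, [(0, [0], [1, 2]), (0, [1], [0, 4]), (1, [], [3, 5])]),
  (-2880, 0, 0, [(0, [0], [1, 2]), (0, [1], [3, 5]), (1, [], [4, 0])]),
  (-2880, 0, 0, [(0, [0], [1, 2]), (0, [1], [4, 5]), (1, [], [3, 0])]),
  (2880, 0, 0, [(0, [0], [1, 3]), (0, [1], [0, 2]), (1, [], [4, 5])]),
  (2880, 0, 0, [(0, [0], [1, 3]), (0, [1], [0, 4]), (1, [], [2, 5])]),
  (-2880, 0, 0, [(0, [0], [1, 3]), (0, [1], [2, 5]), (1, [], [4, 0])]),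
  (-2880, 0, 0, [(0, [0], [1, 3]), (0, [1], [4, 5]), (1, [], [2, 0])]),
  (2880, 0, 0, [(0, [0], [1, 4]), (0, [1], [0, 2]), (1, [], [3, 5])]),
  (2880, 0, 0, [(0, [0], [1, 4]), (0, [1], [0, 3]), (1, [], [2, 5])]),
  (-2880, 0, 0, [(0, [0], [1, 4]), (0, [1], [2, 5]), (1, [], [3, 0])]),
  (-2880, 0, 0, [(0, [0], [1, 4]), (0, [1], [3, 5]), (1, [], [2, 0])]),
  (-2880, 0, 0, [(0, [0], [1, 5]), (0, [1], [2, 3]), (1, [], [4, 0])]),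
  (-2880, 0, 0, [(0, [0], [1, 5]), (0, [1], [2, 4]), (1, [], [3, 0])]),
  (-2880, 0, 0, [(0, [0], [1, 5]), (0, [1], [3, 4]), (1, [], [2, 0])]),
  (2880, 0, 0, [(0, [0], [2, 3]), (0, [1], [0, 1]), (1, [], [4, 5])]),
  (2880, 0, 0, [(0, [0], [2, 3]), (0, [1], [0, 4]), (1, [], [1, 5])]),
  (-2880, 0, 0, [(0, [0], [2, 3]), (0, [1], [1, 5]), (1, [], [4, 0])]),
  (-2880, 0, 0, [(0, [0], [2, 3]), (0, [1], [4, 5]), (1, [], [1, 0])]),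
  (2880, 0, 0, [(0, [0], [2, 4]), (0, [1], [0, 1]), (1, [], [3, 5])]),
  (2880, 0, 0, [(0, [0], [2, 4]), (0, [1], [0, 3]), (1, [], [1, 5])]),
  (-2880, 0, 0, [(0, [0], [2, 4]), (0, [1], [1, 5]), (1, [], [3, 0])]),
  (-2880, 0, 0, [(0, [0], [2, 4]), (0, [1], [3, 5]), (1, [], [1, 0])]),
  (-2880, 0, 0, [(0, [0], [2, 5]), (0, [1], [1, 3]), (1, [], [4, 0])]),
  (-2880, 0, 0, [(0, [0], [2, 5]), (0, [1], [1, 4]), (1, [], [3, 0])]),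
  (-2880, 0, 0, [(0, [0], [2, 5]), (0, [1], [3, 4]), (1, [], [1, 0])]),
  (2880, 0, 0, [(0, [0], [3, 4]), (0, [1], [0, 1]), (1, [], [2, 5])]),
  (2880, 0, 0, [(0, [0], [3, 4]), (0, [1], [0, 2]), (1, [], [1, 5])]),
  (-2880, 0, 0, [(0, [0], [3, 4]), (0, [1], [1, 5]), (1, [], [2, 0])]),
  (-2880, 0, 0, [(0, [0], [3, 4]), (0, [1], [2, 5]), (1, [], [1, 0])]),
  (-2880, 0, 0, [(0, [0], [3, 5]), (0, [1], [1, 2]), (1, [], [4, 0])]),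
  (-2880, 0, 0, [(0, [0], [3, 5]), (0, [1], [1, 4]), (1, [], [2, 0])]),
  (-2880, 0, 0, [(0, [0], [3, 5]), (0, [1], [2, 4]), (1, [], [1, 0])]),
  (-2880, 0, 0, [(0, [0], [4, 5]), (0, [1], [1, 2]), (1, [], [3, 0])]),
  (-2880, 0, 0, [(0, [0], [4, 5]), (0, [1], [1, 3]), (1, [], [2, 0])]),
  (-2880, 0, 0, [(0, [0], [4, 5]), (0, [1], [2, 3]), (1, [], [1, 0])])]

def z52_0 : Cov := [(0, 0, 0, [(0, [0], [0, 1]), (0, [1], [2, 5]), (1, [], [3, 4])]),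
  (0, 0, 0, [(0, [0], [0, 1]), (0, [1], [3, 5]), (1, [], [2, 4])]),
  (0, 0, 0, [(0, [0], [0, 1]), (0, [1], [4, 5]), (1, [], [2, 3])]),
  (0, 0, 0, [(0, [0], [0, 2]), (0, [1], [1, 5]), (1, [], [3, 4])]),
  (0, 0, 0, [(0, [0], [0, 2]), (0, [1], [3, 5]), (1, [], [1, 4])]),
  (0, 0, 0, [(0, [0], [0, 2]), (0, [1], [4, 5]), (1, [], [1, 3])]),
  (0, 0, 0, [(0, [0], [0, 3]), (0, [1], [1, 5]), (1, [], [2, 4])]),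
  (0, 0, 0, [(0, [0], [0, 3]), (0, [1], [2, 5]), (1, [], [1, 4])]),
  (0, 0, 0, [(0, [0], [0, 3]), (0, [1], [4, 5]), (1, [], [1, 2])]),
  (0, 0, 0, [(0, [0], [0, 4]), (0, [1], [1, 5]), (1, [], [2, 3])]),
  (0, 0, 0, [(0, [0], [0, 4]), (0, [1], [2, 5]), (1, [], [1, 3])]),
  (0, 0, 0, [(0, [0], [0, 4]), (0, [1], [3, 5]), (1, [], [1, 2])]),
  (0, 0, 0, [(0, [0], [0, 5]), (0, [1], [1, 2]), (1, [], [3, 4])]),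
  (0, 0, 0, [(0, [0], [0, 5]), (0, [1], [1, 3]), (1, [], [2, 4])]),
  (0, 0, 0, [(0, [0], [0, 5]), (0, [1], [1, 4]), (1, [], [2, 3])]),
  (0, 0, 0, [(0, [0], [0, 5]), (0, [1], [2, 3]), (1, [], [1, 4])]),
  (0, 0, 0, [(0, [0], [0, 5]), (0, [1], [2, 4]), (1, [], [1, 3])]),
  (0, 0, 0, [(0, [0], [0, 5]), (0, [1], [3, 4]), (1, [], [1, 2])]),
  (0, 0, 0, [(0, [0], [1, 2]), (0, [1], [3, 4]), (1, [], [0, 5])]),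
  (0, 0, 0, [(0, [0], [1, 3]), (0, [1], [2, 4]), (1, [], [0, 5])]),
  (0, 0, 0, [(0, [0], [1, 4]), (0, [1], [2, 3]), (1, [], [0, 5])]),
  (0, 0, 0, [(0, [0], [2, 3]), (0, [1], [1, 4]), (1, [], [0, 5])]),
  (0, 0, 0, [(0, [0], [2, 4]), (0, [1], [1, 3]), (1, [], [0, 5])]),
  (0, 0, 0, [(0, [0], [3, 4]), (0, [1], [1, 2]), (1, [], [0, 5])]),
  (0, 0, 0, [(0, [0], [5, 1]), (0, [1], [0, 2]), (1, [], [3, 4])]),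
  (0, 0, 0, [(0, [0], [5, 1]), (0, [1], [0, 3]), (1, [], [2, 4])]),
  (0, 0, 0, [(0, [0], [5, 1]), (0, [1], [0, 4]), (1, [], [2, 3])]),
  (0, 0, 0, [(0, [0], [5, 2]), (0, [1], [0, 1]), (1, [], [3, 4])]),
  (0, 0, 0, [(0, [0], [5, 2]), (0, [1], [0, 3]), (1, [], [1, 4])]),
  (0, 0, 0, [(0, [0], [5, 2]), (0, [1], [0, 4]), (1, [], [1, 3])]),
  (0, 0, 0, [(0, [0], [5, 3]), (0, [1], [0, 1]), (1, [], [2, 4])]),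
  (0, 0, 0, [(0, [0], [5, 3]), (0, [1], [0, 2]), (1, [], [1, 4])]),
  (0, 0, 0, [(0, [0], [5, 3]), (0, [1], [0, 4]), (1, [], [1, 2])]),
  (0, 0, 0, [(0, [0], [5, 4]), (0, [1], [0, 1]), (1, [], [2, 3])]),
  (0, 0, 0, [(0, [0], [5, 4]), (0, [1], [0, 2]), (1, [], [1, 3])]),
  (0, 0, 0, [(0, [0], [5, 4]), (0, [1], [0, 3]), (1, [], [1, 2])]),
  (0, 0, 0, [(0, [1], [0, 5]), (0, [0], [1, 2]), (1, [], [3, 4])]),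
  (0, 0, 0, [(0, [1], [0, 5]), (0, [0], [1, 3]), (1, [], [2, 4])]),
  (0, 0, 0, [(0, [1], [0, 5]), (0, [0], [1, 4]), (1, [], [2, 3])]),
  (0, 0, 0, [(0, [1], [0, 5]), (0, [0], [2, 3]), (1, [], [1, 4])]),
  (0, 0, 0, [(0, [1], [0, 5]), (0, [0], [2, 4]), (1, [], [1, 3])]),
  (0, 0, 0, [(0, [1], [0, 5]), (0, [0], [3, 4]), (1, [], [1, 2])])]

def w52_0 : List (List Wit) := [[(0, 0, 0, 0, 0), (0, 0, 0, 0, 0), (1, 0, 0, 0, 0), (1, 0, 0, 0, 0), (48, 0, 0, 0, 0), (48, 0, 0, 0, 0), (0, 0, 0, 0, 0), (0, 0, 0, 0, 0), (2, 0, 0, 0, 0), (2, 0, 0, 0, 0), (49, 0, 0, 0, 0), (49, 0, 0, 0, 0), (1, 0, 0, 0, 0), (1, 0, 0, 0, 0), (2, 0, 0, 0, 0), (2, 0, 0, 0, 0), (50, 0, 0, 0, 0), (50, 0, 0, 0, 0), (48, 0, 0, 0, 0), (48, 0, 0, 0, 0), (49, 0, 0, 0, 0), (49, 0, 0, 0, 0), (50, 0, 0, 0, 0), (50,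 0, 0, 0, 0), (3, 0, 0, 0, 0), (3, 0, 0, 0, 0), (4, 0, 0, 0, 0), (4, 0, 0, 0, 0), (51, 0, 0, 0, 0), (51, 0, 0, 0, 0), (3, 0, 0, 0, 0), (3, 0, 0, 0, 0), (5, 0, 0, 0, 0), (5, 0, 0, 0, 0), (52, 0, 0, 0, 0), (52, 0, 0, 0, 0), (4, 0, 0, 0, 0), (4, 0, 0, 0, 0), (5, 0, 0, 0, 0), (5, 0, 0, 0, 0), (53, 0, 0, 0, 0), (53, 0, 0, 0, 0), (51, 0, 0, 0, 0), (51, 0, 0, 0, 0), (52, 0, 0, 0, 0), (52, 0, 0, 0, 0), (53, 0, 0, 0, 0), (53, 0, 0, 0, 0), (6, 0, 0, 0, 0), (6, 0, 0, 0, 0), (7, 0, 0, 0, 0), (7, 0, 0, 0, 0), (54, 0, 0, 0, 0), (54, 0, 0, 0, 0), (6, 0, 0, 0, 0), (6, 0, 0, 0, 0), (8, 0, 0, 0, 0), (8, 0, 0, 0, 0), (55, 0, 0, 0, 0), (55, 0, 0, 0, 0), (7, 0, 0, 0, 0), (7, 0, 0, 0, 0), (8, 0, 0, 0, 0), (8, 0, 0, 0, 0), (56, 0, 0, 0, 0), (56, 0, 0, 0, 0), (54, 0, 0, 0, 0), (54, 0, 0, 0, 0),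 (55, 0, 0, 0, 0), (55, 0, 0, 0, 0), (56, 0, 0, 0, 0), (56, 0, 0, 0, 0), (9, 0, 0, 0, 0), (9, 0, 0, 0, 0), (10, 0, 0, 0, 0), (10, 0, 0, 0, 0), (57, 0, 0, 0, 0), (57, 0, 0, 0, 0), (9, 0, 0, 0, 0), (9, 0, 0, 0, 0), (11, 0, 0, 0, 0), (11, 0, 0, 0, 0), (58, 0, 0, 0, 0), (58, 0, 0, 0, 0), (10, 0, 0, 0, 0), (10, 0, 0, 0, 0), (11, 0, 0, 0, 0), (11, 0, 0, 0, 0), (59, 0, 0, 0, 0), (59, 0, 0, 0, 0), (57, 0, 0, 0, 0), (57, 0, 0, 0, 0), (58, 0, 0, 0, 0), (58, 0, 0, 0, 0), (59, 0, 0, 0, 0), (59, 0, 0, 0, 0), (60, 0, 0, 0, 0), (60, 0, 0, 0, 0), (61, 0, 0, 0, 0), (61, 0, 0, 0, 0), (62, 0, 0, 0, 0), (62, 0, 0, 0, 0), (60, 0, 0, 0, 0), (60, 0, 0, 0, 0), (63, 0, 0, 0, 0), (63, 0, 0, 0, 0), (64, 0, 0, 0, 0), (64, 0, 0, 0, 0), (61, 0, 0, 0, 0), (61, 0, 0, 0, 0), (63, 0, 0, 0, 0), (63, 0, 0,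 0, 0), (65, 0, 0, 0, 0), (65, 0, 0, 0, 0), (62, 0, 0, 0, 0), (62, 0, 0, 0, 0), (64, 0, 0, 0, 0), (64, 0, 0, 0, 0), (65, 0, 0, 0, 0), (65, 0, 0, 0, 0), (0, 0, 0, 0, 0), (1, 0, 0, 0, 0), (0, 0, 0, 0, 0), (2, 0, 0, 0, 0), (1, 0, 0, 0, 0), (2, 0, 0, 0, 0), (12, 0, 0, 0, 0), (13, 0, 0, 0, 0), (12, 0, 0, 0, 0), (66, 0, 0, 0, 0), (66, 0, 0, 0, 0), (14, 0, 0, 0, 0), (13, 0, 0, 0, 0), (66, 0, 0, 0, 0), (66, 0, 0, 0, 0), (15, 0, 0, 0, 0), (14, 0, 0, 0, 0), (15, 0, 0, 0, 0), (16, 0, 0, 0, 0), (17, 0, 0, 0, 0), (16, 0, 0, 0, 0), (67, 0, 0, 0, 0), (67, 0, 0, 0, 0), (18, 0, 0, 0, 0), (17, 0, 0, 0, 0), (67, 0, 0, 0, 0), (67, 0, 0, 0, 0), (19, 0, 0, 0, 0), (18, 0, 0, 0, 0), (19, 0, 0, 0, 0), (20, 0, 0, 0, 0), (21, 0, 0, 0, 0), (20, 0, 0, 0, 0), (68, 0, 0, 0, 0), (68, 0, 0, 0, 0), (22,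 0, 0, 0, 0), (21, 0, 0, 0, 0), (68, 0, 0, 0, 0), (68, 0, 0, 0, 0), (23, 0, 0, 0, 0), (22, 0, 0, 0, 0), (23, 0, 0, 0, 0), (24, 0, 0, 0, 0), (25, 0, 0, 0, 0), (24, 0, 0, 0, 0), (26, 0, 0, 0, 0), (25, 0, 0, 0, 0), (26, 0, 0, 0, 0), (3, 0, 0, 0, 0), (4, 0, 0, 0, 0), (3, 0, 0, 0, 0), (5, 0, 0, 0, 0), (4, 0, 0, 0, 0), (5, 0, 0, 0, 0), (12, 0, 0, 0, 0), (13, 0, 0, 0, 0), (12, 0, 0, 0, 0), (66, 0, 0, 0, 0), (66, 0, 0, 0, 0), (14, 0, 0, 0, 0), (13, 0, 0, 0, 0), (66, 0, 0, 0, 0), (66, 0, 0, 0, 0), (15, 0, 0, 0, 0), (14, 0, 0, 0, 0), (15, 0, 0, 0, 0), (27, 0, 0, 0, 0), (28, 0, 0, 0, 0), (27, 0, 0, 0, 0), (69, 0, 0, 0, 0), (69, 0, 0, 0, 0), (29, 0, 0, 0, 0), (28, 0, 0, 0, 0), (69, 0, 0, 0, 0), (69, 0, 0, 0, 0), (30, 0, 0, 0, 0), (29, 0, 0, 0, 0), (30, 0, 0, 0, 0), (31, 0, 0, 0, 0),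 (32, 0, 0, 0, 0), (31, 0, 0, 0, 0), (70, 0, 0, 0, 0), (70, 0, 0, 0, 0), (33, 0, 0, 0, 0), (32, 0, 0, 0, 0), (70, 0, 0, 0, 0), (70, 0, 0, 0, 0), (34, 0, 0, 0, 0), (33, 0, 0, 0, 0), (34, 0, 0, 0, 0), (35, 0, 0, 0, 0), (36, 0, 0, 0, 0), (35, 0, 0, 0, 0), (37, 0, 0, 0, 0), (36, 0, 0, 0, 0), (37, 0, 0, 0, 0), (6, 0, 0, 0, 0), (7, 0, 0, 0, 0), (6, 0, 0, 0, 0), (8, 0, 0, 0, 0), (7, 0, 0, 0, 0), (8, 0, 0, 0, 0), (16, 0, 0, 0, 0), (17, 0, 0, 0, 0), (16, 0, 0, 0, 0), (67, 0, 0, 0, 0), (67, 0, 0, 0, 0), (18, 0, 0, 0, 0), (17, 0, 0, 0, 0), (67, 0, 0, 0, 0), (67, 0, 0, 0, 0), (19, 0, 0, 0, 0), (18, 0, 0, 0, 0), (19, 0, 0, 0, 0), (27, 0, 0, 0, 0), (28, 0, 0, 0, 0), (27, 0, 0, 0, 0), (69, 0, 0, 0, 0), (69, 0, 0, 0, 0), (29, 0, 0, 0, 0), (28, 0, 0, 0, 0), (69, 0, 0, 0, 0), (69, 0, 0, 0,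 0), (30, 0, 0, 0, 0), (29, 0, 0, 0, 0), (30, 0, 0, 0, 0), (38, 0, 0, 0, 0), (39, 0, 0, 0, 0), (38, 0, 0, 0, 0), (71, 0, 0, 0, 0), (71, 0, 0, 0, 0), (40, 0, 0, 0, 0), (39, 0, 0, 0, 0), (71, 0, 0, 0, 0), (71, 0, 0, 0, 0), (41, 0, 0, 0, 0), (40, 0, 0, 0, 0), (41, 0, 0, 0, 0), (42, 0, 0, 0, 0), (43, 0, 0, 0, 0), (42, 0, 0, 0, 0), (44, 0, 0, 0, 0), (43, 0, 0, 0, 0), (44, 0, 0, 0, 0), (9, 0, 0, 0, 0), (10, 0, 0, 0, 0), (9, 0, 0, 0, 0), (11, 0, 0, 0, 0), (10, 0, 0, 0, 0), (11, 0, 0, 0, 0), (20, 0, 0, 0, 0), (21, 0, 0, 0, 0), (20, 0, 0, 0, 0), (68, 0, 0, 0, 0), (68, 0, 0, 0, 0), (22, 0, 0, 0, 0), (21, 0, 0, 0, 0), (68, 0, 0, 0, 0), (68, 0, 0, 0, 0), (23, 0, 0, 0, 0), (22, 0, 0, 0, 0), (23, 0, 0, 0, 0), (31, 0, 0, 0, 0), (32, 0, 0, 0, 0), (31, 0, 0, 0, 0), (70, 0, 0, 0, 0), (70,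 0, 0, 0, 0), (33, 0, 0, 0, 0), (32, 0, 0, 0, 0), (70, 0, 0, 0, 0), (70, 0, 0, 0, 0), (34, 0, 0, 0, 0), (33, 0, 0, 0, 0), (34, 0, 0, 0, 0), (38, 0, 0, 0, 0), (39, 0, 0, 0, 0), (38, 0, 0, 0, 0), (71, 0, 0, 0, 0), (71, 0, 0, 0, 0), (40, 0, 0, 0, 0), (39, 0, 0, 0, 0), (71, 0, 0, 0, 0), (71, 0, 0, 0, 0), (41, 0, 0, 0, 0), (40, 0, 0, 0, 0), (41, 0, 0, 0, 0), (45, 0, 0, 0, 0), (46, 0, 0, 0, 0), (45, 0, 0, 0, 0), (47, 0, 0, 0, 0), (46, 0, 0, 0, 0), (47, 0, 0, 0, 0), (60, 0, 0, 0, 0), (60, 0, 0, 0, 0), (61, 0, 0, 0, 0), (61, 0, 0, 0, 0), (62, 0, 0, 0, 0), (62, 0, 0, 0, 0), (60, 0, 0, 0, 0), (60, 0, 0, 0, 0), (63, 0, 0, 0, 0), (63, 0, 0, 0, 0), (64, 0, 0, 0, 0), (64, 0, 0, 0, 0), (61, 0, 0, 0, 0), (61, 0, 0, 0, 0), (63, 0, 0, 0, 0), (63, 0, 0, 0, 0), (65, 0, 0, 0, 0), (65, 0, 0,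 0, 0), (62, 0, 0, 0, 0), (62, 0, 0, 0, 0), (64, 0, 0, 0, 0), (64, 0, 0, 0, 0), (65, 0, 0, 0, 0), (65, 0, 0, 0, 0), (72, 0, 0, 0, 0), (72, 0, 0, 0, 0), (73, 0, 0, 0, 0), (73, 0, 0, 0, 0), (74, 0, 0, 0, 0), (74, 0, 0, 0, 0), (72, 0, 0, 0, 0), (72, 0, 0, 0, 0), (24, 0, 0, 0, 0), (24, 0, 0, 0, 0), (25, 0, 0, 0, 0), (25, 0, 0, 0, 0), (73, 0, 0, 0, 0), (73, 0, 0, 0, 0), (24, 0, 0, 0, 0), (24, 0, 0, 0, 0), (26, 0, 0, 0, 0), (26, 0, 0, 0, 0), (74, 0, 0, 0, 0), (74, 0, 0, 0, 0), (25, 0, 0, 0, 0), (25, 0, 0, 0, 0), (26, 0, 0, 0, 0), (26, 0, 0, 0, 0), (75, 0, 0, 0, 0), (75, 0, 0, 0, 0), (76, 0, 0, 0, 0), (76, 0, 0, 0, 0), (77, 0, 0, 0, 0), (77, 0, 0, 0, 0), (75, 0, 0, 0, 0), (75, 0, 0, 0, 0), (35, 0, 0, 0, 0), (35, 0, 0, 0, 0), (36, 0, 0, 0, 0), (36, 0, 0, 0, 0), (76, 0, 0, 0, 0),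 (76, 0, 0, 0, 0), (35, 0, 0, 0, 0), (35, 0, 0, 0, 0), (37, 0, 0, 0, 0), (37, 0, 0, 0, 0), (77, 0, 0, 0, 0), (77, 0, 0, 0, 0), (36, 0, 0, 0, 0), (36, 0, 0, 0, 0), (37, 0, 0, 0, 0), (37, 0, 0, 0, 0), (78, 0, 0, 0, 0), (78, 0, 0, 0, 0), (79, 0, 0, 0, 0), (79, 0, 0, 0, 0), (80, 0, 0, 0, 0), (80, 0, 0, 0, 0), (78, 0, 0, 0, 0), (78, 0, 0, 0, 0), (42, 0, 0, 0, 0), (42, 0, 0, 0, 0), (43, 0, 0, 0, 0), (43, 0, 0, 0, 0), (79, 0, 0, 0, 0), (79, 0, 0, 0, 0), (42, 0, 0, 0, 0), (42, 0, 0, 0, 0), (44, 0, 0, 0, 0), (44, 0, 0, 0, 0), (80, 0, 0, 0, 0), (80, 0, 0, 0, 0), (43, 0, 0, 0, 0), (43, 0, 0, 0, 0), (44, 0, 0, 0, 0), (44, 0, 0, 0, 0), (81, 0, 0, 0, 0), (81, 0, 0, 0, 0), (82, 0, 0, 0, 0), (82, 0, 0, 0, 0), (83, 0, 0, 0, 0), (83, 0, 0, 0, 0), (81, 0, 0, 0, 0), (81, 0, 0, 0, 0), (45, 0,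 0, 0, 0), (45, 0, 0, 0, 0), (46, 0, 0, 0, 0), (46, 0, 0, 0, 0), (82, 0, 0, 0, 0), (82, 0, 0, 0, 0), (45, 0, 0, 0, 0), (45, 0, 0, 0, 0), (47, 0, 0, 0, 0), (47, 0, 0, 0, 0), (83, 0, 0, 0, 0), (83, 0, 0, 0, 0), (46, 0, 0, 0, 0), (46, 0, 0, 0, 0), (47, 0, 0, 0, 0), (47, 0, 0, 0, 0)],
  [(27, 0, 0, 0, 0), (27, 0, 0, 0, 0), (31, 0, 0, 0, 0), (31, 0, 0, 0, 0), (75, 0, 0, 0, 0), (75, 0, 0, 0, 0), (27, 0, 0, 0, 0), (27, 0, 0, 0, 0), (38, 0, 0, 0, 0), (38, 0, 0, 0, 0), (78, 0, 0, 0, 0), (78, 0, 0, 0, 0), (31, 0, 0, 0, 0), (31, 0, 0, 0, 0), (38, 0, 0, 0, 0), (38, 0, 0, 0, 0), (81, 0, 0, 0, 0), (81, 0, 0, 0, 0), (75, 0, 0, 0, 0), (75, 0, 0, 0, 0), (78, 0, 0, 0, 0), (78, 0, 0, 0, 0), (81, 0, 0, 0, 0), (81, 0, 0, 0, 0), (16, 0, 0, 0, 0), (16, 0, 0, 0, 0), (20, 0, 0, 0, 0), (20, 0, 0,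 0, 0), (72, 0, 0, 0, 0), (72, 0, 0, 0, 0), (16, 0, 0, 0, 0), (16, 0, 0, 0, 0), (39, 0, 0, 0, 0), (39, 0, 0, 0, 0), (79, 0, 0, 0, 0), (79, 0, 0, 0, 0), (20, 0, 0, 0, 0), (20, 0, 0, 0, 0), (39, 0, 0, 0, 0), (39, 0, 0, 0, 0), (82, 0, 0, 0, 0), (82, 0, 0, 0, 0), (72, 0, 0, 0, 0), (72, 0, 0, 0, 0), (79, 0, 0, 0, 0), (79, 0, 0, 0, 0), (82, 0, 0, 0, 0), (82, 0, 0, 0, 0), (12, 0, 0, 0, 0), (12, 0, 0, 0, 0), (21, 0, 0, 0, 0), (21, 0, 0, 0, 0), (73, 0, 0, 0, 0), (73, 0, 0, 0, 0), (12, 0, 0, 0, 0), (12, 0, 0, 0, 0), (32, 0, 0, 0, 0), (32, 0, 0, 0, 0), (76, 0, 0, 0, 0), (76, 0, 0, 0, 0), (21, 0, 0, 0, 0), (21, 0, 0, 0, 0), (32, 0, 0, 0, 0), (32, 0, 0, 0, 0), (83, 0, 0, 0, 0), (83, 0, 0, 0, 0), (73, 0, 0, 0, 0), (73, 0, 0, 0, 0), (76, 0, 0, 0, 0), (76, 0, 0, 0, 0), (83, 0, 0, 0, 0),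 (83, 0, 0, 0, 0), (13, 0, 0, 0, 0), (13, 0, 0, 0, 0), (17, 0, 0, 0, 0), (17, 0, 0, 0, 0), (74, 0, 0, 0, 0), (74, 0, 0, 0, 0), (13, 0, 0, 0, 0), (13, 0, 0, 0, 0), (28, 0, 0, 0, 0), (28, 0, 0, 0, 0), (77, 0, 0, 0, 0), (77, 0, 0, 0, 0), (17, 0, 0, 0, 0), (17, 0, 0, 0, 0), (28, 0, 0, 0, 0), (28, 0, 0, 0, 0), (80, 0, 0, 0, 0), (80, 0, 0, 0, 0), (74, 0, 0, 0, 0), (74, 0, 0, 0, 0), (77, 0, 0, 0, 0), (77, 0, 0, 0, 0), (80, 0, 0, 0, 0), (80, 0, 0, 0, 0), (84, 0, 0, 0, 0), (84, 0, 0, 0, 0), (85, 0, 0, 0, 0), (85, 0, 0, 0, 0), (86, 0, 0, 0, 0), (86, 0, 0, 0, 0), (84, 0, 0, 0, 0), (84, 0, 0, 0, 0), (87, 0, 0, 0, 0), (87, 0, 0, 0, 0), (88, 0, 0, 0, 0), (88, 0, 0, 0, 0), (85, 0, 0, 0, 0), (85, 0, 0, 0, 0), (87, 0, 0, 0, 0), (87, 0, 0, 0, 0), (89, 0, 0, 0, 0), (89, 0, 0, 0, 0), (86, 0,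 0, 0, 0), (86, 0, 0, 0, 0), (88, 0, 0, 0, 0), (88, 0, 0, 0, 0), (89, 0, 0, 0, 0), (89, 0, 0, 0, 0), (27, 0, 0, 0, 0), (31, 0, 0, 0, 0), (27, 0, 0, 0, 0), (38, 0, 0, 0, 0), (31, 0, 0, 0, 0), (38, 0, 0, 0, 0), (6, 0, 0, 0, 0), (9, 0, 0, 0, 0), (6, 0, 0, 0, 0), (71, 0, 0, 0, 0), (71, 0, 0, 0, 0), (42, 0, 0, 0, 0), (9, 0, 0, 0, 0), (71, 0, 0, 0, 0), (71, 0, 0, 0, 0), (45, 0, 0, 0, 0), (42, 0, 0, 0, 0), (45, 0, 0, 0, 0), (3, 0, 0, 0, 0), (10, 0, 0, 0, 0), (3, 0, 0, 0, 0), (70, 0, 0, 0, 0), (70, 0, 0, 0, 0), (35, 0, 0, 0, 0), (10, 0, 0, 0, 0), (70, 0, 0, 0, 0), (70, 0, 0, 0, 0), (46, 0, 0, 0, 0), (35, 0, 0, 0, 0), (46, 0, 0, 0, 0), (4, 0, 0, 0, 0), (7, 0, 0, 0, 0), (4, 0, 0, 0, 0), (69, 0, 0, 0, 0), (69, 0, 0, 0, 0), (36, 0, 0, 0, 0), (7, 0, 0, 0, 0), (69, 0, 0, 0, 0), (69, 0,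 0, 0, 0), (43, 0, 0, 0, 0), (36, 0, 0, 0, 0), (43, 0, 0, 0, 0), (29, 0, 0, 0, 0), (33, 0, 0, 0, 0), (29, 0, 0, 0, 0), (40, 0, 0, 0, 0), (33, 0, 0, 0, 0), (40, 0, 0, 0, 0), (16, 0, 0, 0, 0), (20, 0, 0, 0, 0), (16, 0, 0, 0, 0), (39, 0, 0, 0, 0), (20, 0, 0, 0, 0), (39, 0, 0, 0, 0), (6, 0, 0, 0, 0), (9, 0, 0, 0, 0), (6, 0, 0, 0, 0), (71, 0, 0, 0, 0), (71, 0, 0, 0, 0), (42, 0, 0, 0, 0), (9, 0, 0, 0, 0), (71, 0, 0, 0, 0), (71, 0, 0, 0, 0), (45, 0, 0, 0, 0), (42, 0, 0, 0, 0), (45, 0, 0, 0, 0), (0, 0, 0, 0, 0), (11, 0, 0, 0, 0), (0, 0, 0, 0, 0), (68, 0, 0, 0, 0), (68, 0, 0, 0, 0), (24, 0, 0, 0, 0), (11, 0, 0, 0, 0), (68, 0, 0, 0, 0), (68, 0, 0, 0, 0), (47, 0, 0, 0, 0), (24, 0, 0, 0, 0), (47, 0, 0, 0, 0), (1, 0, 0, 0, 0), (8, 0, 0, 0, 0), (1, 0, 0, 0, 0), (67, 0, 0, 0, 0), (67,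 0, 0, 0, 0), (25, 0, 0, 0, 0), (8, 0, 0, 0, 0), (67, 0, 0, 0, 0), (67, 0, 0, 0, 0), (44, 0, 0, 0, 0), (25, 0, 0, 0, 0), (44, 0, 0, 0, 0), (18, 0, 0, 0, 0), (22, 0, 0, 0, 0), (18, 0, 0, 0, 0), (41, 0, 0, 0, 0), (22, 0, 0, 0, 0), (41, 0, 0, 0, 0), (12, 0, 0, 0, 0), (21, 0, 0, 0, 0), (12, 0, 0, 0, 0), (32, 0, 0, 0, 0), (21, 0, 0, 0, 0), (32, 0, 0, 0, 0), (3, 0, 0, 0, 0), (10, 0, 0, 0, 0), (3, 0, 0, 0, 0), (70, 0, 0, 0, 0), (70, 0, 0, 0, 0), (35, 0, 0, 0, 0), (10, 0, 0, 0, 0), (70, 0, 0, 0, 0), (70, 0, 0, 0, 0), (46, 0, 0, 0, 0), (35, 0, 0, 0, 0), (46, 0, 0, 0, 0), (0, 0, 0, 0, 0), (11, 0, 0, 0, 0), (0, 0, 0, 0, 0), (68, 0, 0, 0, 0), (68, 0, 0, 0, 0), (24, 0, 0, 0, 0), (11, 0, 0, 0, 0), (68, 0, 0, 0, 0), (68, 0, 0, 0, 0), (47, 0, 0, 0, 0), (24, 0, 0, 0, 0), (47, 0, 0, 0, 0),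 (2, 0, 0, 0, 0), (5, 0, 0, 0, 0), (2, 0, 0, 0, 0), (66, 0, 0, 0, 0), (66, 0, 0, 0, 0), (26, 0, 0, 0, 0), (5, 0, 0, 0, 0), (66, 0, 0, 0, 0), (66, 0, 0, 0, 0), (37, 0, 0, 0, 0), (26, 0, 0, 0, 0), (37, 0, 0, 0, 0), (14, 0, 0, 0, 0), (23, 0, 0, 0, 0), (14, 0, 0, 0, 0), (34, 0, 0, 0, 0), (23, 0, 0, 0, 0), (34, 0, 0, 0, 0), (13, 0, 0, 0, 0), (17, 0, 0, 0, 0), (13, 0, 0, 0, 0), (28, 0, 0, 0, 0), (17, 0, 0, 0, 0), (28, 0, 0, 0, 0), (4, 0, 0, 0, 0), (7, 0, 0, 0, 0), (4, 0, 0, 0, 0), (69, 0, 0, 0, 0), (69, 0, 0, 0, 0), (36, 0, 0, 0, 0), (7, 0, 0, 0, 0), (69, 0, 0, 0, 0), (69, 0, 0, 0, 0), (43, 0, 0, 0, 0), (36, 0, 0, 0, 0), (43, 0, 0, 0, 0), (1, 0, 0, 0, 0), (8, 0, 0, 0, 0), (1, 0, 0, 0, 0), (67, 0, 0, 0, 0), (67, 0, 0, 0, 0), (25, 0, 0, 0, 0), (8, 0, 0, 0, 0), (67, 0, 0, 0, 0),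 (67, 0, 0, 0, 0), (44, 0, 0, 0, 0), (25, 0, 0, 0, 0), (44, 0, 0, 0, 0), (2, 0, 0, 0, 0), (5, 0, 0, 0, 0), (2, 0, 0, 0, 0), (66, 0, 0, 0, 0), (66, 0, 0, 0, 0), (26, 0, 0, 0, 0), (5, 0, 0, 0, 0), (66, 0, 0, 0, 0), (66, 0, 0, 0, 0), (37, 0, 0, 0, 0), (26, 0, 0, 0, 0), (37, 0, 0, 0, 0), (15, 0, 0, 0, 0), (19, 0, 0, 0, 0), (15, 0, 0, 0, 0), (30, 0, 0, 0, 0), (19, 0, 0, 0, 0), (30, 0, 0, 0, 0), (84, 0, 0, 0, 0), (84, 0, 0, 0, 0), (85, 0, 0, 0, 0), (85, 0, 0, 0, 0), (86, 0, 0, 0, 0), (86, 0, 0, 0, 0), (84, 0, 0, 0, 0), (84, 0, 0, 0, 0), (87, 0, 0, 0, 0), (87, 0, 0, 0, 0), (88, 0, 0, 0, 0), (88, 0, 0, 0, 0), (85, 0, 0, 0, 0), (85, 0, 0, 0, 0), (87, 0, 0, 0, 0), (87, 0, 0, 0, 0), (89, 0, 0, 0, 0), (89, 0, 0, 0, 0), (86, 0, 0, 0, 0), (86, 0, 0, 0, 0), (88, 0, 0, 0, 0), (88, 0, 0,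 0, 0), (89, 0, 0, 0, 0), (89, 0, 0, 0, 0), (51, 0, 0, 0, 0), (51, 0, 0, 0, 0), (54, 0, 0, 0, 0), (54, 0, 0, 0, 0), (57, 0, 0, 0, 0), (57, 0, 0, 0, 0), (51, 0, 0, 0, 0), (51, 0, 0, 0, 0), (29, 0, 0, 0, 0), (29, 0, 0, 0, 0), (33, 0, 0, 0, 0), (33, 0, 0, 0, 0), (54, 0, 0, 0, 0), (54, 0, 0, 0, 0), (29, 0, 0, 0, 0), (29, 0, 0, 0, 0), (40, 0, 0, 0, 0), (40, 0, 0, 0, 0), (57, 0, 0, 0, 0), (57, 0, 0, 0, 0), (33, 0, 0, 0, 0), (33, 0, 0, 0, 0), (40, 0, 0, 0, 0), (40, 0, 0, 0, 0), (48, 0, 0, 0, 0), (48, 0, 0, 0, 0), (55, 0, 0, 0, 0), (55, 0, 0, 0, 0), (58, 0, 0, 0, 0), (58, 0, 0, 0, 0), (48, 0, 0, 0, 0), (48, 0, 0, 0, 0), (18, 0, 0, 0, 0), (18, 0, 0, 0, 0), (22, 0, 0, 0, 0), (22, 0, 0, 0, 0), (55, 0, 0, 0, 0), (55, 0, 0, 0, 0), (18, 0, 0, 0, 0), (18, 0, 0, 0, 0), (41, 0, 0, 0, 0),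 (41, 0, 0, 0, 0), (58, 0, 0, 0, 0), (58, 0, 0, 0, 0), (22, 0, 0, 0, 0), (22, 0, 0, 0, 0), (41, 0, 0, 0, 0), (41, 0, 0, 0, 0), (49, 0, 0, 0, 0), (49, 0, 0, 0, 0), (52, 0, 0, 0, 0), (52, 0, 0, 0, 0), (59, 0, 0, 0, 0), (59, 0, 0, 0, 0), (49, 0, 0, 0, 0), (49, 0, 0, 0, 0), (14, 0, 0, 0, 0), (14, 0, 0, 0, 0), (23, 0, 0, 0, 0), (23, 0, 0, 0, 0), (52, 0, 0, 0, 0), (52, 0, 0, 0, 0), (14, 0, 0, 0, 0), (14, 0, 0, 0, 0), (34, 0, 0, 0, 0), (34, 0, 0, 0, 0), (59, 0, 0, 0, 0), (59, 0, 0, 0, 0), (23, 0, 0, 0, 0), (23, 0, 0, 0, 0), (34, 0, 0, 0, 0), (34, 0, 0, 0, 0), (50, 0, 0, 0, 0), (50, 0, 0, 0, 0), (53, 0, 0, 0, 0), (53, 0, 0, 0, 0), (56, 0, 0, 0, 0), (56, 0, 0, 0, 0), (50, 0, 0, 0, 0), (50, 0, 0, 0, 0), (15, 0, 0, 0, 0), (15, 0, 0, 0, 0), (19, 0, 0, 0, 0), (19, 0, 0, 0, 0), (53, 0,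 0, 0, 0), (53, 0, 0, 0, 0), (15, 0, 0, 0, 0), (15, 0, 0, 0, 0), (30, 0, 0, 0, 0), (30, 0, 0, 0, 0), (56, 0, 0, 0, 0), (56, 0, 0, 0, 0), (19, 0, 0, 0, 0), (19, 0, 0, 0, 0), (30, 0, 0, 0, 0), (30, 0, 0, 0, 0)]]

theorem tr52 : trK keys lk52 kl52 = true := by
  decide +kernel

theorem x52_0 : expB 2 6 dg2 dg9 m52_0 (l52_0 ++ z52_0) w52_0 = true := by
  decide +kernel

theorem t52_0_0 : chkS lk52 2 6 [(1, m52_0)] l52_0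
  [(0, 16, 16, 5517840, 5517840), (1, 16, 16, 5517840, 5517840), (1, 16, 16, 5514000, 5514000), (4, 16, 16, 5513985, 5513985), (7, 16, 16, 5456400, 5456400), (8, 1, 1, 5374275, 5309475), (4, 16, 16, 5517825, 5517825), (7, 16, 16, 5448720, 5391120), (8, 1, 1, 5378115, 5309490), (8, 16, 16, 5391120, 5448720), (8, 16, 16, 5387280, 5387280), (1, 1, 1, 5509170, 5509170), (4, 16, 16, 5514000, 5514000), (7, 16, 16, 5456385, 5456385), (8, 1, 1, 2425140, 4199715), (6, 16, 16, 5517570, 5517345), (4, 16, 16, 5517840, 5517840), (7, 16, 16, 5448705, 5391105), (8, 1, 1, 2428980, 4199730), (6, 16, 16, 5509890, 5513265), (8, 16, 16, 5391105, 5448705), (8, 16, 16, 5387265, 5387265), (11, 16, 16, 4346640, 3482640), (11, 16, 16, 4338960, 2438160), (1, 1, 1, 4526115, 4522290), (11, 16, 16,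 2380560, 3417360), (11, 16, 16, 2372880, 2372880), (3, 16, 16, 5517840, 5517840), (10, 1, 1, 5443650, 5324850), (10, 1, 1, 3477540, 4215090), (9, 1, 1, 3280980, 1070130), (10, 16, 16, 5456400, 5456400), (7, 1, 1, 5439810, 5324835), (5, 16, 16, 5517825, 5517825), (6, 1, 1, 2294100, 1066275), (7, 1, 1, 3473700, 4215075), (5, 16, 16, 4534785, 4534785), (6, 1, 1, 3277140, 1070115), (10, 16, 16, 5448720, 5391120), (7, 1, 1, 5443650, 5324850), (5, 16, 16, 5513985, 5513985), (6, 1, 1, 2297940, 1066290), (7, 1, 1, 3477540, 4215090), (5, 16, 16, 4530945, 4530945), (6, 1, 1, 3280980, 1070130), (6, 1, 1, 5513235, 5505810), (6, 1, 1, 5505555, 5505555), (2, 1, 1, 5509170, 5509170)]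
  [(0, 2880), (1, 5760), (2, -2880), (3, 2880), (4, 11520), (5, -11520), (6, -23040), (7, 11520), (8, 11520), (9, -2880), (10, 5760), (11, -11520)] = true := by
  decide +kernel

section

variable {κ ι : Type*} [Fintype κ] [Fintype ι] [Inhabited κ] [Inhabited ι]

noncomputable def F52_0 (E : Env κ ι) : (Fin 2 → κ) → (Fin 6 → ι) → ℝ := op2 (P2 κ) (P9 ι) (fB E 2 6 m52_0)

def r52_0_0 : List (ℕ × ℤ) := [(0, 2880), (1, 5760), (2, -2880), (3, 2880), (4, 11520), (5, -11520), (6, -23040), (7, 11520), (8, 11520), (9, -2880), (10, 5760), (11, -11520)]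

theorem h52_0_0 (E : Env κ ι) : ip (F52_0 E) (F52_0 E) = dotS (ek E lk52) r52_0_0 :=
  op_entryZ E lk52 2 6 _ _ _ _ (pg2 κ) (pg9 ι) m52_0 m52_0 l52_0 z52_0 w52_0 x52_0 (by decide) _ (chkS_sound E lk52 2 6 _ _ _ _ t52_0_0)

theorem row52_0 (E : Env κ ι) : RowG (ek E lk52) (F52_0 E) [F52_0 E] [r52_0_0] :=
  rowG_cons _ _ _ _ _ _ (h52_0_0 E) (rowG_nil _ _)

def tab52 : List (List (List (ℕ × ℤ))) := [[r52_0_0]]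

theorem tri52 (E : Env κ ι) : TriG (ek E lk52) [F52_0 E] tab52 := by
  refine triG_cons _ _ _ _ _ (row52_0 E) ?_
  exact triG_nil _

end

def lk53 : List Key := [
  (2, 6, [(0, [0], [0, 1]), (0, [0], [0, 1]), (0, [1], [2, 3]), (0, [1], [2, 3]), (1, [], [4, 5]), (1, [], [4, 5])]),
  (2, 6, [(0, [0], [0, 1]), (0, [0], [0, 1]), (0, [1], [2, 3]), (0, [1], [2, 4]), (1, [], [4, 5]), (1, [], [3, 5])]),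
  (2, 6, [(0, [0], [0, 1]), (0, [0], [0, 1]), (0, [1], [2, 3]), (0, [1], [4, 5]), (1, [], [4, 5]), (1, [], [2, 3])]),
  (2, 6, [(0, [0], [0, 1]), (0, [1], [2, 3]), (0, [0], [2, 3]), (0, [1], [0, 1]), (1, [], [4, 5]), (1, [], [4, 5])]),
  (2, 6, [(0, [0], [0, 1]), (0, [1], [2, 3]), (0, [1], [0, 2]), (0, [0], [1, 3]), (1, [], [4, 5]), (1, [], [4, 5])]),
  (2, 6, [(0, [0], [0, 1]), (0, [1], [2, 3]), (0, [0], [2, 4]), (0, [1], [0, 5]), (1, [], [4, 5]), (1, [], [1, 3])]),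
  (2, 6, [(0, [0], [0, 1]), (0, [0], [2, 0]), (0, [1], [3, 1]), (0, [1], [4, 5]), (1, [], [4, 5]), (1, [], [2, 3])]),
  (2, 6, [(0, [0], [0, 1]), (0, [0], [2, 0]), (0, [1], [3, 1]), (0, [1], [2, 4]), (1, [], [4, 5]), (1, [], [3, 5])]),
  (2, 6, [(0, [0], [0, 1]), (0, [0], [2, 0]), (0, [1], [3, 1]), (0, [1], [3, 4]), (1, [], [4, 5]), (1, [], [2, 5])]),
  (2, 6, [(0, [0], [0, 1]), (0, [0], [2, 3]), (0, [1], [0, 1]), (0, [1], [4, 5]), (1, [], [4, 5]), (1, [], [2, 3])]),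
  (2, 6, [(0, [0], [0, 1]), (0, [0], [2, 3]), (0, [1], [0, 1]), (0, [1], [2, 4]), (1, [], [4, 5]), (1, [], [3, 5])]),
  (2, 6, [(0, [0], [0, 1]), (0, [0], [2, 1]), (0, [1], [3, 4]), (0, [1], [3, 5]), (1, [], [0, 5]), (1, [], [2, 4])])]

def kl53 : List ℕ := [9, 10, 14, 16, 19, 21, 40, 42, 43, 46, 48, 62]

def m53_0 : Base := (0, 0, [(0, [0], [0, 1]), (0, [1], [2, 3]), (1, [], [4, 5])])

def l53_0 : Cov := [(960, 0, 0, [(0, [0], [0, 1]), (0, [1], [2, 3]), (1, [], [4, 5])]),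
  (960, 0, 0, [(0, [0], [0, 1]), (0, [1], [2, 4]), (1, [], [3, 5])]),
  (1920, 0, 0, [(0, [0], [0, 1]), (0, [1], [2, 5]), (1, [], [3, 4])]),
  (960, 0, 0, [(0, [0], [0, 1]), (0, [1], [3, 4]), (1, [], [2, 5])]),
  (1920, 0, 0, [(0, [0], [0, 1]), (0, [1], [3, 5]), (1, [], [2, 4])]),
  (1920, 0, 0, [(0, [0], [0, 1]), (0, [1], [4, 5]), (1, [], [2, 3])]),
  (960, 0, 0, [(0, [0], [0, 2]), (0, [1], [1, 3]), (1, [], [4, 5])]),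
  (960, 0, 0, [(0, [0], [0, 2]), (0, [1], [1, 4]), (1, [], [3, 5])]),
  (1920, 0, 0, [(0, [0], [0, 2]), (0, [1], [1, 5]), (1, [], [3, 4])]),
  (960, 0, 0, [(0, [0], [0, 2]), (0, [1], [3, 4]), (1, [], [1, 5])]),
  (1920, 0, 0, [(0, [0], [0, 2]), (0, [1], [3, 5]), (1, [], [1, 4])]),
  (1920, 0, 0, [(0, [0], [0, 2]), (0, [1], [4, 5]), (1, [], [1, 3])]),
  (960, 0, 0, [(0, [0], [0, 3]), (0, [1], [1, 2]), (1, [], [4, 5])]),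
  (960, 0, 0, [(0, [0], [0, 3]), (0, [1], [1, 4]), (1, [], [2, 5])]),
  (1920, 0, 0, [(0, [0], [0, 3]), (0, [1], [1, 5]), (1, [], [2, 4])]),
  (960, 0, 0, [(0, [0], [0, 3]), (0, [1], [2, 4]), (1, [], [1, 5])]),
  (1920, 0, 0, [(0, [0], [0, 3]), (0, [1], [2, 5]), (1, [], [1, 4])]),
  (1920, 0, 0, [(0, [0], [0, 3]), (0, [1], [4, 5]), (1, [], [1, 2])]),
  (960, 0, 0, [(0, [0], [0, 4]), (0, [1], [1, 2]), (1, [], [3, 5])]),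
  (960, 0, 0, [(0, [0], [0, 4]), (0, [1], [1, 3]), (1, [], [2, 5])]),
  (1920, 0, 0, [(0, [0], [0, 4]), (0, [1], [1, 5]), (1, [], [2, 3])]),
  (960, 0, 0, [(0, [0], [0, 4]), (0, [1], [2, 3]), (1, [], [1, 5])]),
  (1920, 0, 0, [(0, [0], [0, 4]), (0, [1], [2, 5]), (1, [], [1, 3])]),
  (1920, 0, 0, [(0, [0], [0, 4]), (0, [1], [3, 5]), (1, [], [1, 2])]),
  (-960, 0, 0, [(0, [0], [1, 2]), (0, [1], [0, 3]), (1, [], [4, 5])]),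
  (-960, 0, 0, [(0, [0], [1, 2]), (0, [1], [0, 4]), (1, [], [3, 5])]),
  (960, 0, 0, [(0, [0], [1, 2]), (0, [1], [3, 5]), (1, [], [4, 0])]),
  (960, 0, 0, [(0, [0], [1, 2]), (0, [1], [4, 5]), (1, [], [3, 0])]),
  (-960, 0, 0, [(0, [0], [1, 3]), (0, [1], [0, 2]), (1, [], [4, 5])]),
  (-960, 0, 0, [(0, [0], [1, 3]), (0, [1], [0, 4]), (1, [], [2, 5])]),
  (960, 0, 0, [(0, [0], [1, 3]), (0, [1], [2, 5]), (1, [], [4, 0])]),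
  (960, 0, 0, [(0, [0], [1, 3]), (0, [1], [4, 5]), (1, [], [2, 0])]),
  (-960, 0, 0, [(0, [0], [1, 4]), (0, [1], [0, 2]), (1, [], [3, 5])]),
  (-960, 0, 0, [(0, [0], [1, 4]), (0, [1], [0, 3]), (1, [], [2, 5])]),
  (960, 0, 0, [(0, [0], [1, 4]), (0, [1], [2, 5]), (1, [], [3, 0])]),
  (960, 0, 0, [(0, [0], [1, 4]), (0, [1], [3, 5]), (1, [], [2, 0])]),
  (-960, 0, 0, [(0, [0], [1, 5]), (0, [1], [2, 3]), (1, [], [4, 0])]),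
  (-960, 0, 0, [(0, [0], [1, 5]), (0, [1], [2, 4]), (1, [], [3, 0])]),
  (-960, 0, 0, [(0, [0], [1, 5]), (0, [1], [3, 4]), (1, [], [2, 0])]),
  (-960, 0, 0, [(0, [0], [2, 3]), (0, [1], [0, 1]), (1, [], [4, 5])]),
  (-960, 0, 0, [(0, [0], [2, 3]), (0, [1], [0, 4]), (1, [], [1, 5])]),
  (960, 0, 0, [(0, [0], [2, 3]), (0, [1], [1, 5]), (1, [], [4, 0])]),
  (960, 0, 0, [(0, [0], [2, 3]), (0, [1], [4, 5]), (1, [], [1, 0])]),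
  (-960, 0, 0, [(0, [0], [2, 4]), (0, [1], [0, 1]), (1, [], [3, 5])]),
  (-960, 0, 0, [(0, [0], [2, 4]), (0, [1], [0, 3]), (1, [], [1, 5])]),
  (960, 0, 0, [(0, [0], [2, 4]), (0, [1], [1, 5]), (1, [], [3, 0])]),
  (960, 0, 0, [(0, [0], [2, 4]), (0, [1], [3, 5]), (1, [], [1, 0])]),
  (-960, 0, 0, [(0, [0], [2, 5]), (0, [1], [1, 3]), (1, [], [4, 0])]),
  (-960, 0, 0, [(0, [0], [2, 5]), (0, [1], [1, 4]), (1, [], [3, 0])]),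
  (-960, 0, 0, [(0, [0], [2, 5]), (0, [1], [3, 4]), (1, [], [1, 0])]),
  (-960, 0, 0, [(0, [0], [3, 4]), (0, [1], [0, 1]), (1, [], [2, 5])]),
  (-960, 0, 0, [(0, [0], [3, 4]), (0, [1], [0, 2]), (1, [], [1, 5])]),
  (960, 0, 0, [(0, [0], [3, 4]), (0, [1], [1, 5]), (1, [], [2, 0])]),
  (960, 0, 0, [(0, [0], [3, 4]), (0, [1], [2, 5]), (1, [], [1, 0])]),
  (-960, 0, 0, [(0, [0], [3, 5]), (0, [1], [1, 2]), (1, [], [4, 0])]),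
  (-960, 0, 0, [(0, [0], [3, 5]), (0, [1], [1, 4]), (1, [], [2, 0])]),
  (-960, 0, 0, [(0, [0], [3, 5]), (0, [1], [2, 4]), (1, [], [1, 0])]),
  (-960, 0, 0, [(0, [0], [4, 5]), (0, [1], [1, 2]), (1, [], [3, 0])]),
  (-960, 0, 0, [(0, [0], [4, 5]), (0, [1], [1, 3]), (1, [], [2, 0])]),
  (-960, 0, 0, [(0, [0], [4, 5]), (0, [1], [2, 3]), (1, [], [1, 0])]),
  (-1920, 0, 0, [(0, [0], [5, 1]), (0, [1], [0, 2]), (1, [], [3, 4])]),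
  (-1920, 0, 0, [(0, [0], [5, 1]), (0, [1], [0, 3]), (1, [], [2, 4])]),
  (-1920, 0, 0, [(0, [0], [5, 1]), (0, [1], [0, 4]), (1, [], [2, 3])]),
  (-1920, 0, 0, [(0, [0], [5, 2]), (0, [1], [0, 1]), (1, [], [3, 4])]),
  (-1920, 0, 0, [(0, [0], [5, 2]), (0, [1], [0, 3]), (1, [], [1, 4])]),
  (-1920, 0, 0, [(0, [0], [5, 2]), (0, [1], [0, 4]), (1, [], [1, 3])]),
  (-1920, 0, 0, [(0, [0], [5, 3]), (0, [1], [0, 1]), (1, [], [2, 4])]),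
  (-1920, 0, 0, [(0, [0], [5, 3]), (0, [1], [0, 2]), (1, [], [1, 4])]),
  (-1920, 0, 0, [(0, [0], [5, 3]), (0, [1], [0, 4]), (1, [], [1, 2])]),
  (-1920, 0, 0, [(0, [0], [5, 4]), (0, [1], [0, 1]), (1, [], [2, 3])]),
  (-1920, 0, 0, [(0, [0], [5, 4]), (0, [1], [0, 2]), (1, [], [1, 3])]),
  (-1920, 0, 0, [(0, [0], [5, 4]), (0, [1], [0, 3]), (1, [], [1, 2])])]

def z53_0 : Cov := [(0, 0, 0, [(0, [0], [0, 5]), (0, [1], [1, 2]), (1, [], [3, 4])]),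
  (0, 0, 0, [(0, [0], [0, 5]), (0, [1], [1, 3]), (1, [], [2, 4])]),
  (0, 0, 0, [(0, [0], [0, 5]), (0, [1], [1, 4]), (1, [], [2, 3])]),
  (0, 0, 0, [(0, [0], [0, 5]), (0, [1], [2, 3]), (1, [], [1, 4])]),
  (0, 0, 0, [(0, [0], [0, 5]), (0, [1], [2, 4]), (1, [], [1, 3])]),
  (0, 0, 0, [(0, [0], [0, 5]), (0, [1], [3, 4]), (1, [], [1, 2])]),
  (0, 0, 0, [(0, [0], [1, 2]), (0, [1], [3, 4]), (1, [], [0, 5])]),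
  (0, 0, 0, [(0, [0], [1, 3]), (0, [1], [2, 4]), (1, [], [0, 5])]),
  (0, 0, 0, [(0, [0], [1, 4]), (0, [1], [2, 3]), (1, [], [0, 5])]),
  (0, 0, 0, [(0, [0], [2, 3]), (0, [1], [1, 4]), (1, [], [0, 5])]),
  (0, 0, 0, [(0, [0], [2, 4]), (0, [1], [1, 3]), (1, [], [0, 5])]),
  (0, 0, 0, [(0, [0], [3, 4]), (0, [1], [1, 2]), (1, [], [0, 5])]),
  (0, 0, 0, [(0, [1], [0, 5]), (0, [0], [1, 2]), (1, [], [3, 4])]),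
  (0, 0, 0, [(0, [1], [0, 5]), (0, [0], [1, 3]), (1, [], [2, 4])]),
  (0, 0, 0, [(0, [1], [0, 5]), (0, [0], [1, 4]), (1, [], [2, 3])]),
  (0, 0, 0, [(0, [1], [0, 5]), (0, [0], [2, 3]), (1, [], [1, 4])]),
  (0, 0, 0, [(0, [1], [0, 5]), (0, [0], [2, 4]), (1, [], [1, 3])]),
  (0, 0, 0, [(0, [1], [0, 5]), (0, [0], [3, 4]), (1, [], [1, 2])])]

def w53_0 : List (List Wit) := [[(0, 0, 0, 0, 0), (0, 0, 0, 0, 0), (1, 0, 0, 0, 0), (1, 0, 0, 0, 0), (2, 0, 0, 0, 0), (2, 0, 0, 0, 0), (0, 0, 0, 0, 0), (0, 0, 0, 0, 0), (3, 0, 0, 0, 0), (3, 0, 0, 0, 0), (4, 0, 0, 0, 0), (4, 0, 0, 0, 0), (1, 0, 0, 0, 0), (1, 0, 0, 0, 0), (3, 0, 0, 0, 0), (3, 0, 0, 0, 0), (5, 0, 0, 0, 0), (5, 0, 0, 0, 0), (2, 0, 0, 0, 0), (2, 0, 0, 0, 0), (4, 0, 0, 0, 0), (4, 0, 0, 0, 0), (5, 0, 0, 0, 0), (5, 0, 0, 0, 0),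 (6, 0, 0, 0, 0), (6, 0, 0, 0, 0), (7, 0, 0, 0, 0), (7, 0, 0, 0, 0), (8, 0, 0, 0, 0), (8, 0, 0, 0, 0), (6, 0, 0, 0, 0), (6, 0, 0, 0, 0), (9, 0, 0, 0, 0), (9, 0, 0, 0, 0), (10, 0, 0, 0, 0), (10, 0, 0, 0, 0), (7, 0, 0, 0, 0), (7, 0, 0, 0, 0), (9, 0, 0, 0, 0), (9, 0, 0, 0, 0), (11, 0, 0, 0, 0), (11, 0, 0, 0, 0), (8, 0, 0, 0, 0), (8, 0, 0, 0, 0), (10, 0, 0, 0, 0), (10, 0, 0, 0, 0), (11, 0, 0, 0, 0), (11, 0, 0, 0, 0), (12, 0, 0, 0, 0), (12, 0, 0, 0, 0), (13, 0, 0, 0, 0), (13, 0, 0, 0, 0), (14, 0, 0, 0, 0), (14, 0, 0, 0, 0), (12, 0, 0, 0, 0), (12, 0, 0, 0, 0), (15, 0, 0, 0, 0), (15, 0, 0, 0, 0), (16, 0, 0, 0, 0), (16, 0, 0, 0, 0), (13, 0, 0, 0, 0), (13, 0, 0, 0, 0), (15, 0, 0, 0, 0), (15, 0, 0, 0, 0), (17, 0, 0, 0, 0), (17, 0, 0, 0, 0), (14, 0, 0, 0, 0), (14, 0, 0, 0, 0), (16,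 0, 0, 0, 0), (16, 0, 0, 0, 0), (17, 0, 0, 0, 0), (17, 0, 0, 0, 0), (18, 0, 0, 0, 0), (18, 0, 0, 0, 0), (19, 0, 0, 0, 0), (19, 0, 0, 0, 0), (20, 0, 0, 0, 0), (20, 0, 0, 0, 0), (18, 0, 0, 0, 0), (18, 0, 0, 0, 0), (21, 0, 0, 0, 0), (21, 0, 0, 0, 0), (22, 0, 0, 0, 0), (22, 0, 0, 0, 0), (19, 0, 0, 0, 0), (19, 0, 0, 0, 0), (21, 0, 0, 0, 0), (21, 0, 0, 0, 0), (23, 0, 0, 0, 0), (23, 0, 0, 0, 0), (20, 0, 0, 0, 0), (20, 0, 0, 0, 0), (22, 0, 0, 0, 0), (22, 0, 0, 0, 0), (23, 0, 0, 0, 0), (23, 0, 0, 0, 0), (72, 0, 0, 0, 0), (72, 0, 0, 0, 0), (73, 0, 0, 0, 0), (73, 0, 0, 0, 0), (74, 0, 0, 0, 0), (74, 0, 0, 0, 0), (72, 0, 0, 0, 0), (72, 0, 0, 0, 0), (75, 0, 0, 0, 0), (75, 0, 0, 0, 0), (76, 0, 0, 0, 0), (76, 0, 0, 0, 0), (73, 0, 0, 0, 0), (73, 0, 0, 0, 0), (75, 0, 0, 0, 0), (75, 0, 0,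 0, 0), (77, 0, 0, 0, 0), (77, 0, 0, 0, 0), (74, 0, 0, 0, 0), (74, 0, 0, 0, 0), (76, 0, 0, 0, 0), (76, 0, 0, 0, 0), (77, 0, 0, 0, 0), (77, 0, 0, 0, 0), (0, 0, 0, 0, 0), (1, 0, 0, 0, 0), (0, 0, 0, 0, 0), (3, 0, 0, 0, 0), (1, 0, 0, 0, 0), (3, 0, 0, 0, 0), (24, 0, 0, 0, 0), (25, 0, 0, 0, 0), (24, 0, 0, 0, 0), (78, 0, 0, 0, 0), (78, 0, 0, 0, 0), (26, 0, 0, 0, 0), (25, 0, 0, 0, 0), (78, 0, 0, 0, 0), (78, 0, 0, 0, 0), (27, 0, 0, 0, 0), (26, 0, 0, 0, 0), (27, 0, 0, 0, 0), (28, 0, 0, 0, 0), (29, 0, 0, 0, 0), (28, 0, 0, 0, 0), (79, 0, 0, 0, 0), (79, 0, 0, 0, 0), (30, 0, 0, 0, 0), (29, 0, 0, 0, 0), (79, 0, 0, 0, 0), (79, 0, 0, 0, 0), (31, 0, 0, 0, 0), (30, 0, 0, 0, 0), (31, 0, 0, 0, 0), (32, 0, 0, 0, 0), (33, 0, 0, 0, 0), (32, 0, 0, 0, 0), (80, 0, 0, 0, 0), (80, 0, 0, 0, 0), (34,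 0, 0, 0, 0), (33, 0, 0, 0, 0), (80, 0, 0, 0, 0), (80, 0, 0, 0, 0), (35, 0, 0, 0, 0), (34, 0, 0, 0, 0), (35, 0, 0, 0, 0), (36, 0, 0, 0, 0), (37, 0, 0, 0, 0), (36, 0, 0, 0, 0), (38, 0, 0, 0, 0), (37, 0, 0, 0, 0), (38, 0, 0, 0, 0), (6, 0, 0, 0, 0), (7, 0, 0, 0, 0), (6, 0, 0, 0, 0), (9, 0, 0, 0, 0), (7, 0, 0, 0, 0), (9, 0, 0, 0, 0), (24, 0, 0, 0, 0), (25, 0, 0, 0, 0), (24, 0, 0, 0, 0), (78, 0, 0, 0, 0), (78, 0, 0, 0, 0), (26, 0, 0, 0, 0), (25, 0, 0, 0, 0), (78, 0, 0, 0, 0), (78, 0, 0, 0, 0), (27, 0, 0, 0, 0), (26, 0, 0, 0, 0), (27, 0, 0, 0, 0), (39, 0, 0, 0, 0), (40, 0, 0, 0, 0), (39, 0, 0, 0, 0), (81, 0, 0, 0, 0), (81, 0, 0, 0, 0), (41, 0, 0, 0, 0), (40, 0, 0, 0, 0), (81, 0, 0, 0, 0), (81, 0, 0, 0, 0), (42, 0, 0, 0, 0), (41, 0, 0, 0, 0), (42, 0, 0, 0, 0), (43, 0, 0, 0, 0),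 (44, 0, 0, 0, 0), (43, 0, 0, 0, 0), (82, 0, 0, 0, 0), (82, 0, 0, 0, 0), (45, 0, 0, 0, 0), (44, 0, 0, 0, 0), (82, 0, 0, 0, 0), (82, 0, 0, 0, 0), (46, 0, 0, 0, 0), (45, 0, 0, 0, 0), (46, 0, 0, 0, 0), (47, 0, 0, 0, 0), (48, 0, 0, 0, 0), (47, 0, 0, 0, 0), (49, 0, 0, 0, 0), (48, 0, 0, 0, 0), (49, 0, 0, 0, 0), (12, 0, 0, 0, 0), (13, 0, 0, 0, 0), (12, 0, 0, 0, 0), (15, 0, 0, 0, 0), (13, 0, 0, 0, 0), (15, 0, 0, 0, 0), (28, 0, 0, 0, 0), (29, 0, 0, 0, 0), (28, 0, 0, 0, 0), (79, 0, 0, 0, 0), (79, 0, 0, 0, 0), (30, 0, 0, 0, 0), (29, 0, 0, 0, 0), (79, 0, 0, 0, 0), (79, 0, 0, 0, 0), (31, 0, 0, 0, 0), (30, 0, 0, 0, 0), (31, 0, 0, 0, 0), (39, 0, 0, 0, 0), (40, 0, 0, 0, 0), (39, 0, 0, 0, 0), (81, 0, 0, 0, 0), (81, 0, 0, 0, 0), (41, 0, 0, 0, 0), (40, 0, 0, 0, 0), (81, 0, 0, 0, 0), (81, 0,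 0, 0, 0), (42, 0, 0, 0, 0), (41, 0, 0, 0, 0), (42, 0, 0, 0, 0), (50, 0, 0, 0, 0), (51, 0, 0, 0, 0), (50, 0, 0, 0, 0), (83, 0, 0, 0, 0), (83, 0, 0, 0, 0), (52, 0, 0, 0, 0), (51, 0, 0, 0, 0), (83, 0, 0, 0, 0), (83, 0, 0, 0, 0), (53, 0, 0, 0, 0), (52, 0, 0, 0, 0), (53, 0, 0, 0, 0), (54, 0, 0, 0, 0), (55, 0, 0, 0, 0), (54, 0, 0, 0, 0), (56, 0, 0, 0, 0), (55, 0, 0, 0, 0), (56, 0, 0, 0, 0), (18, 0, 0, 0, 0), (19, 0, 0, 0, 0), (18, 0, 0, 0, 0), (21, 0, 0, 0, 0), (19, 0, 0, 0, 0), (21, 0, 0, 0, 0), (32, 0, 0, 0, 0), (33, 0, 0, 0, 0), (32, 0, 0, 0, 0), (80, 0, 0, 0, 0), (80, 0, 0, 0, 0), (34, 0, 0, 0, 0), (33, 0, 0, 0, 0), (80, 0, 0, 0, 0), (80, 0, 0, 0, 0), (35, 0, 0, 0, 0), (34, 0, 0, 0, 0), (35, 0, 0, 0, 0), (43, 0, 0, 0, 0), (44, 0, 0, 0, 0), (43, 0, 0, 0, 0), (82, 0, 0, 0,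 0), (82, 0, 0, 0, 0), (45, 0, 0, 0, 0), (44, 0, 0, 0, 0), (82, 0, 0, 0, 0), (82, 0, 0, 0, 0), (46, 0, 0, 0, 0), (45, 0, 0, 0, 0), (46, 0, 0, 0, 0), (50, 0, 0, 0, 0), (51, 0, 0, 0, 0), (50, 0, 0, 0, 0), (83, 0, 0, 0, 0), (83, 0, 0, 0, 0), (52, 0, 0, 0, 0), (51, 0, 0, 0, 0), (83, 0, 0, 0, 0), (83, 0, 0, 0, 0), (53, 0, 0, 0, 0), (52, 0, 0, 0, 0), (53, 0, 0, 0, 0), (57, 0, 0, 0, 0), (58, 0, 0, 0, 0), (57, 0, 0, 0, 0), (59, 0, 0, 0, 0), (58, 0, 0, 0, 0), (59, 0, 0, 0, 0), (72, 0, 0, 0, 0), (72, 0, 0, 0, 0), (73, 0, 0, 0, 0), (73, 0, 0, 0, 0), (74, 0, 0, 0, 0), (74, 0, 0, 0, 0), (72, 0, 0, 0, 0), (72, 0, 0, 0, 0), (75, 0, 0, 0, 0), (75, 0, 0, 0, 0), (76, 0, 0, 0, 0), (76, 0, 0, 0, 0), (73, 0, 0, 0, 0), (73, 0, 0, 0, 0), (75, 0, 0, 0, 0), (75, 0, 0, 0, 0), (77, 0, 0, 0, 0), (77,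 0, 0, 0, 0), (74, 0, 0, 0, 0), (74, 0, 0, 0, 0), (76, 0, 0, 0, 0), (76, 0, 0, 0, 0), (77, 0, 0, 0, 0), (77, 0, 0, 0, 0), (60, 0, 0, 0, 0), (60, 0, 0, 0, 0), (61, 0, 0, 0, 0), (61, 0, 0, 0, 0), (62, 0, 0, 0, 0), (62, 0, 0, 0, 0), (60, 0, 0, 0, 0), (60, 0, 0, 0, 0), (36, 0, 0, 0, 0), (36, 0, 0, 0, 0), (37, 0, 0, 0, 0), (37, 0, 0, 0, 0), (61, 0, 0, 0, 0), (61, 0, 0, 0, 0), (36, 0, 0, 0, 0), (36, 0, 0, 0, 0), (38, 0, 0, 0, 0), (38, 0, 0, 0, 0), (62, 0, 0, 0, 0), (62, 0, 0, 0, 0), (37, 0, 0, 0, 0), (37, 0, 0, 0, 0), (38, 0, 0, 0, 0), (38, 0, 0, 0, 0), (63, 0, 0, 0, 0), (63, 0, 0, 0, 0), (64, 0, 0, 0, 0), (64, 0, 0, 0, 0), (65, 0, 0, 0, 0), (65, 0, 0, 0, 0), (63, 0, 0, 0, 0), (63, 0, 0, 0, 0), (47, 0, 0, 0, 0), (47, 0, 0, 0, 0), (48, 0, 0, 0, 0), (48, 0, 0, 0, 0), (64, 0, 0,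 0, 0), (64, 0, 0, 0, 0), (47, 0, 0, 0, 0), (47, 0, 0, 0, 0), (49, 0, 0, 0, 0), (49, 0, 0, 0, 0), (65, 0, 0, 0, 0), (65, 0, 0, 0, 0), (48, 0, 0, 0, 0), (48, 0, 0, 0, 0), (49, 0, 0, 0, 0), (49, 0, 0, 0, 0), (66, 0, 0, 0, 0), (66, 0, 0, 0, 0), (67, 0, 0, 0, 0), (67, 0, 0, 0, 0), (68, 0, 0, 0, 0), (68, 0, 0, 0, 0), (66, 0, 0, 0, 0), (66, 0, 0, 0, 0), (54, 0, 0, 0, 0), (54, 0, 0, 0, 0), (55, 0, 0, 0, 0), (55, 0, 0, 0, 0), (67, 0, 0, 0, 0), (67, 0, 0, 0, 0), (54, 0, 0, 0, 0), (54, 0, 0, 0, 0), (56, 0, 0, 0, 0), (56, 0, 0, 0, 0), (68, 0, 0, 0, 0), (68, 0, 0, 0, 0), (55, 0, 0, 0, 0), (55, 0, 0, 0, 0), (56, 0, 0, 0, 0), (56, 0, 0, 0, 0), (69, 0, 0, 0, 0), (69, 0, 0, 0, 0), (70, 0, 0, 0, 0), (70, 0, 0, 0, 0), (71, 0, 0, 0, 0), (71, 0, 0, 0, 0), (69, 0, 0, 0, 0), (69, 0, 0, 0, 0),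 (57, 0, 0, 0, 0), (57, 0, 0, 0, 0), (58, 0, 0, 0, 0), (58, 0, 0, 0, 0), (70, 0, 0, 0, 0), (70, 0, 0, 0, 0), (57, 0, 0, 0, 0), (57, 0, 0, 0, 0), (59, 0, 0, 0, 0), (59, 0, 0, 0, 0), (71, 0, 0, 0, 0), (71, 0, 0, 0, 0), (58, 0, 0, 0, 0), (58, 0, 0, 0, 0), (59, 0, 0, 0, 0), (59, 0, 0, 0, 0)],
  [(39, 0, 0, 0, 0), (39, 0, 0, 0, 0), (43, 0, 0, 0, 0), (43, 0, 0, 0, 0), (63, 0, 0, 0, 0), (63, 0, 0, 0, 0), (39, 0, 0, 0, 0), (39, 0, 0, 0, 0), (50, 0, 0, 0, 0), (50, 0, 0, 0, 0), (66, 0, 0, 0, 0), (66, 0, 0, 0, 0), (43, 0, 0, 0, 0), (43, 0, 0, 0, 0), (50, 0, 0, 0, 0), (50, 0, 0, 0, 0), (69, 0, 0, 0, 0), (69, 0, 0, 0, 0), (63, 0, 0, 0, 0), (63, 0, 0, 0, 0), (66, 0, 0, 0, 0), (66, 0, 0, 0, 0), (69, 0, 0, 0, 0), (69, 0, 0, 0, 0), (28, 0, 0, 0, 0), (28, 0, 0, 0, 0), (32, 0, 0, 0, 0), (32,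 0, 0, 0, 0), (60, 0, 0, 0, 0), (60, 0, 0, 0, 0), (28, 0, 0, 0, 0), (28, 0, 0, 0, 0), (51, 0, 0, 0, 0), (51, 0, 0, 0, 0), (67, 0, 0, 0, 0), (67, 0, 0, 0, 0), (32, 0, 0, 0, 0), (32, 0, 0, 0, 0), (51, 0, 0, 0, 0), (51, 0, 0, 0, 0), (70, 0, 0, 0, 0), (70, 0, 0, 0, 0), (60, 0, 0, 0, 0), (60, 0, 0, 0, 0), (67, 0, 0, 0, 0), (67, 0, 0, 0, 0), (70, 0, 0, 0, 0), (70, 0, 0, 0, 0), (24, 0, 0, 0, 0), (24, 0, 0, 0, 0), (33, 0, 0, 0, 0), (33, 0, 0, 0, 0), (61, 0, 0, 0, 0), (61, 0, 0, 0, 0), (24, 0, 0, 0, 0), (24, 0, 0, 0, 0), (44, 0, 0, 0, 0), (44, 0, 0, 0, 0), (64, 0, 0, 0, 0), (64, 0, 0, 0, 0), (33, 0, 0, 0, 0), (33, 0, 0, 0, 0), (44, 0, 0, 0, 0), (44, 0, 0, 0, 0), (71, 0, 0, 0, 0), (71, 0, 0, 0, 0), (61, 0, 0, 0, 0), (61, 0, 0, 0, 0), (64, 0, 0, 0, 0), (64, 0, 0, 0, 0), (71, 0, 0,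 0, 0), (71, 0, 0, 0, 0), (25, 0, 0, 0, 0), (25, 0, 0, 0, 0), (29, 0, 0, 0, 0), (29, 0, 0, 0, 0), (62, 0, 0, 0, 0), (62, 0, 0, 0, 0), (25, 0, 0, 0, 0), (25, 0, 0, 0, 0), (40, 0, 0, 0, 0), (40, 0, 0, 0, 0), (65, 0, 0, 0, 0), (65, 0, 0, 0, 0), (29, 0, 0, 0, 0), (29, 0, 0, 0, 0), (40, 0, 0, 0, 0), (40, 0, 0, 0, 0), (68, 0, 0, 0, 0), (68, 0, 0, 0, 0), (62, 0, 0, 0, 0), (62, 0, 0, 0, 0), (65, 0, 0, 0, 0), (65, 0, 0, 0, 0), (68, 0, 0, 0, 0), (68, 0, 0, 0, 0), (84, 0, 0, 0, 0), (84, 0, 0, 0, 0), (85, 0, 0, 0, 0), (85, 0, 0, 0, 0), (86, 0, 0, 0, 0), (86, 0, 0, 0, 0), (84, 0, 0, 0, 0), (84, 0, 0, 0, 0), (87, 0, 0, 0, 0), (87, 0, 0, 0, 0), (88, 0, 0, 0, 0), (88, 0, 0, 0, 0), (85, 0, 0, 0, 0), (85, 0, 0, 0, 0), (87, 0, 0, 0, 0), (87, 0, 0, 0, 0), (89, 0, 0, 0, 0), (89, 0, 0, 0, 0),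 (86, 0, 0, 0, 0), (86, 0, 0, 0, 0), (88, 0, 0, 0, 0), (88, 0, 0, 0, 0), (89, 0, 0, 0, 0), (89, 0, 0, 0, 0), (39, 0, 0, 0, 0), (43, 0, 0, 0, 0), (39, 0, 0, 0, 0), (50, 0, 0, 0, 0), (43, 0, 0, 0, 0), (50, 0, 0, 0, 0), (12, 0, 0, 0, 0), (18, 0, 0, 0, 0), (12, 0, 0, 0, 0), (83, 0, 0, 0, 0), (83, 0, 0, 0, 0), (54, 0, 0, 0, 0), (18, 0, 0, 0, 0), (83, 0, 0, 0, 0), (83, 0, 0, 0, 0), (57, 0, 0, 0, 0), (54, 0, 0, 0, 0), (57, 0, 0, 0, 0), (6, 0, 0, 0, 0), (19, 0, 0, 0, 0), (6, 0, 0, 0, 0), (82, 0, 0, 0, 0), (82, 0, 0, 0, 0), (47, 0, 0, 0, 0), (19, 0, 0, 0, 0), (82, 0, 0, 0, 0), (82, 0, 0, 0, 0), (58, 0, 0, 0, 0), (47, 0, 0, 0, 0), (58, 0, 0, 0, 0), (7, 0, 0, 0, 0), (13, 0, 0, 0, 0), (7, 0, 0, 0, 0), (81, 0, 0, 0, 0), (81, 0, 0, 0, 0), (48, 0, 0, 0, 0), (13, 0, 0, 0, 0), (81, 0, 0,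 0, 0), (81, 0, 0, 0, 0), (55, 0, 0, 0, 0), (48, 0, 0, 0, 0), (55, 0, 0, 0, 0), (41, 0, 0, 0, 0), (45, 0, 0, 0, 0), (41, 0, 0, 0, 0), (52, 0, 0, 0, 0), (45, 0, 0, 0, 0), (52, 0, 0, 0, 0), (28, 0, 0, 0, 0), (32, 0, 0, 0, 0), (28, 0, 0, 0, 0), (51, 0, 0, 0, 0), (32, 0, 0, 0, 0), (51, 0, 0, 0, 0), (12, 0, 0, 0, 0), (18, 0, 0, 0, 0), (12, 0, 0, 0, 0), (83, 0, 0, 0, 0), (83, 0, 0, 0, 0), (54, 0, 0, 0, 0), (18, 0, 0, 0, 0), (83, 0, 0, 0, 0), (83, 0, 0, 0, 0), (57, 0, 0, 0, 0), (54, 0, 0, 0, 0), (57, 0, 0, 0, 0), (0, 0, 0, 0, 0), (21, 0, 0, 0, 0), (0, 0, 0, 0, 0), (80, 0, 0, 0, 0), (80, 0, 0, 0, 0), (36, 0, 0, 0, 0), (21, 0, 0, 0, 0), (80, 0, 0, 0, 0), (80, 0, 0, 0, 0), (59, 0, 0, 0, 0), (36, 0, 0, 0, 0), (59, 0, 0, 0, 0), (1, 0, 0, 0, 0), (15, 0, 0, 0, 0), (1, 0, 0, 0, 0), (79,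 0, 0, 0, 0), (79, 0, 0, 0, 0), (37, 0, 0, 0, 0), (15, 0, 0, 0, 0), (79, 0, 0, 0, 0), (79, 0, 0, 0, 0), (56, 0, 0, 0, 0), (37, 0, 0, 0, 0), (56, 0, 0, 0, 0), (30, 0, 0, 0, 0), (34, 0, 0, 0, 0), (30, 0, 0, 0, 0), (53, 0, 0, 0, 0), (34, 0, 0, 0, 0), (53, 0, 0, 0, 0), (24, 0, 0, 0, 0), (33, 0, 0, 0, 0), (24, 0, 0, 0, 0), (44, 0, 0, 0, 0), (33, 0, 0, 0, 0), (44, 0, 0, 0, 0), (6, 0, 0, 0, 0), (19, 0, 0, 0, 0), (6, 0, 0, 0, 0), (82, 0, 0, 0, 0), (82, 0, 0, 0, 0), (47, 0, 0, 0, 0), (19, 0, 0, 0, 0), (82, 0, 0, 0, 0), (82, 0, 0, 0, 0), (58, 0, 0, 0, 0), (47, 0, 0, 0, 0), (58, 0, 0, 0, 0), (0, 0, 0, 0, 0), (21, 0, 0, 0, 0), (0, 0, 0, 0, 0), (80, 0, 0, 0, 0), (80, 0, 0, 0, 0), (36, 0, 0, 0, 0), (21, 0, 0, 0, 0), (80, 0, 0, 0, 0), (80, 0, 0, 0, 0), (59, 0, 0, 0, 0), (36, 0, 0, 0, 0),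 (59, 0, 0, 0, 0), (3, 0, 0, 0, 0), (9, 0, 0, 0, 0), (3, 0, 0, 0, 0), (78, 0, 0, 0, 0), (78, 0, 0, 0, 0), (38, 0, 0, 0, 0), (9, 0, 0, 0, 0), (78, 0, 0, 0, 0), (78, 0, 0, 0, 0), (49, 0, 0, 0, 0), (38, 0, 0, 0, 0), (49, 0, 0, 0, 0), (26, 0, 0, 0, 0), (35, 0, 0, 0, 0), (26, 0, 0, 0, 0), (46, 0, 0, 0, 0), (35, 0, 0, 0, 0), (46, 0, 0, 0, 0), (25, 0, 0, 0, 0), (29, 0, 0, 0, 0), (25, 0, 0, 0, 0), (40, 0, 0, 0, 0), (29, 0, 0, 0, 0), (40, 0, 0, 0, 0), (7, 0, 0, 0, 0), (13, 0, 0, 0, 0), (7, 0, 0, 0, 0), (81, 0, 0, 0, 0), (81, 0, 0, 0, 0), (48, 0, 0, 0, 0), (13, 0, 0, 0, 0), (81, 0, 0, 0, 0), (81, 0, 0, 0, 0), (55, 0, 0, 0, 0), (48, 0, 0, 0, 0), (55, 0, 0, 0, 0), (1, 0, 0, 0, 0), (15, 0, 0, 0, 0), (1, 0, 0, 0, 0), (79, 0, 0, 0, 0), (79, 0, 0, 0, 0), (37, 0, 0, 0, 0), (15, 0, 0, 0,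 0), (79, 0, 0, 0, 0), (79, 0, 0, 0, 0), (56, 0, 0, 0, 0), (37, 0, 0, 0, 0), (56, 0, 0, 0, 0), (3, 0, 0, 0, 0), (9, 0, 0, 0, 0), (3, 0, 0, 0, 0), (78, 0, 0, 0, 0), (78, 0, 0, 0, 0), (38, 0, 0, 0, 0), (9, 0, 0, 0, 0), (78, 0, 0, 0, 0), (78, 0, 0, 0, 0), (49, 0, 0, 0, 0), (38, 0, 0, 0, 0), (49, 0, 0, 0, 0), (27, 0, 0, 0, 0), (31, 0, 0, 0, 0), (27, 0, 0, 0, 0), (42, 0, 0, 0, 0), (31, 0, 0, 0, 0), (42, 0, 0, 0, 0), (84, 0, 0, 0, 0), (84, 0, 0, 0, 0), (85, 0, 0, 0, 0), (85, 0, 0, 0, 0), (86, 0, 0, 0, 0), (86, 0, 0, 0, 0), (84, 0, 0, 0, 0), (84, 0, 0, 0, 0), (87, 0, 0, 0, 0), (87, 0, 0, 0, 0), (88, 0, 0, 0, 0), (88, 0, 0, 0, 0), (85, 0, 0, 0, 0), (85, 0, 0, 0, 0), (87, 0, 0, 0, 0), (87, 0, 0, 0, 0), (89, 0, 0, 0, 0), (89, 0, 0, 0, 0), (86, 0, 0, 0, 0), (86, 0, 0, 0, 0), (88, 0,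 0, 0, 0), (88, 0, 0, 0, 0), (89, 0, 0, 0, 0), (89, 0, 0, 0, 0), (8, 0, 0, 0, 0), (8, 0, 0, 0, 0), (14, 0, 0, 0, 0), (14, 0, 0, 0, 0), (20, 0, 0, 0, 0), (20, 0, 0, 0, 0), (8, 0, 0, 0, 0), (8, 0, 0, 0, 0), (41, 0, 0, 0, 0), (41, 0, 0, 0, 0), (45, 0, 0, 0, 0), (45, 0, 0, 0, 0), (14, 0, 0, 0, 0), (14, 0, 0, 0, 0), (41, 0, 0, 0, 0), (41, 0, 0, 0, 0), (52, 0, 0, 0, 0), (52, 0, 0, 0, 0), (20, 0, 0, 0, 0), (20, 0, 0, 0, 0), (45, 0, 0, 0, 0), (45, 0, 0, 0, 0), (52, 0, 0, 0, 0), (52, 0, 0, 0, 0), (2, 0, 0, 0, 0), (2, 0, 0, 0, 0), (16, 0, 0, 0, 0), (16, 0, 0, 0, 0), (22, 0, 0, 0, 0), (22, 0, 0, 0, 0), (2, 0, 0, 0, 0), (2, 0, 0, 0, 0), (30, 0, 0, 0, 0), (30, 0, 0, 0, 0), (34, 0, 0, 0, 0), (34, 0, 0, 0, 0), (16, 0, 0, 0, 0), (16, 0, 0, 0, 0), (30, 0, 0, 0, 0), (30, 0, 0, 0, 0), (53,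 0, 0, 0, 0), (53, 0, 0, 0, 0), (22, 0, 0, 0, 0), (22, 0, 0, 0, 0), (34, 0, 0, 0, 0), (34, 0, 0, 0, 0), (53, 0, 0, 0, 0), (53, 0, 0, 0, 0), (4, 0, 0, 0, 0), (4, 0, 0, 0, 0), (10, 0, 0, 0, 0), (10, 0, 0, 0, 0), (23, 0, 0, 0, 0), (23, 0, 0, 0, 0), (4, 0, 0, 0, 0), (4, 0, 0, 0, 0), (26, 0, 0, 0, 0), (26, 0, 0, 0, 0), (35, 0, 0, 0, 0), (35, 0, 0, 0, 0), (10, 0, 0, 0, 0), (10, 0, 0, 0, 0), (26, 0, 0, 0, 0), (26, 0, 0, 0, 0), (46, 0, 0, 0, 0), (46, 0, 0, 0, 0), (23, 0, 0, 0, 0), (23, 0, 0, 0, 0), (35, 0, 0, 0, 0), (35, 0, 0, 0, 0), (46, 0, 0, 0, 0), (46, 0, 0, 0, 0), (5, 0, 0, 0, 0), (5, 0, 0, 0, 0), (11, 0, 0, 0, 0), (11, 0, 0, 0, 0), (17, 0, 0, 0, 0), (17, 0, 0, 0, 0), (5, 0, 0, 0, 0), (5, 0, 0, 0, 0), (27, 0, 0, 0, 0), (27, 0, 0, 0, 0), (31, 0, 0, 0, 0), (31, 0, 0, 0, 0), (11,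 0, 0, 0, 0), (11, 0, 0, 0, 0), (27, 0, 0, 0, 0), (27, 0, 0, 0, 0), (42, 0, 0, 0, 0), (42, 0, 0, 0, 0), (17, 0, 0, 0, 0), (17, 0, 0, 0, 0), (31, 0, 0, 0, 0), (31, 0, 0, 0, 0), (42, 0, 0, 0, 0), (42, 0, 0, 0, 0)]]

theorem tr53 : trK keys lk53 kl53 = true := by
  decide +kernel

theorem x53_0 : expB 2 6 dg3 dg9 m53_0 (l53_0 ++ z53_0) w53_0 = true := by
  decide +kernel

theorem t53_0_0 : chkS lk53 2 6 [(1, m53_0)] l53_0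
  [(0, 16, 16, 5517840, 5517840), (1, 16, 16, 5517840, 5517840), (1, 16, 16, 4534800, 4534800), (1, 16, 16, 5514000, 5514000), (1, 16, 16, 4530960, 4530960), (2, 16, 16, 5517840, 5517840), (4, 16, 16, 5513985, 5513985), (7, 16, 16, 5456400, 5456400), (7, 16, 16, 3490320, 4411920), (8, 1, 1, 5374275, 5309475), (8, 1, 1, 2425155, 4261155), (6, 16, 16, 5517600, 5517600), (4, 16, 16, 5517825, 5517825), (7, 16, 16, 5448720, 5391120), (7, 16, 16, 3482640, 4346640), (8, 1, 1, 5378115, 5309490), (8, 1, 1, 2428995, 4261170), (6, 16, 16, 5509920, 5513520), (8, 16, 16, 5391120, 5448720), (8, 16, 16, 5387280, 5387280), (6, 16, 16, 3298320, 3298320), (1, 1, 1, 5509170, 5509170), (11, 16, 16, 4346625, 3482625), (11, 16, 16, 4338945, 2438145), (4, 16, 16, 5514000, 5514000), (7, 16, 16,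 5456385, 5456385), (8, 1, 1, 2425140, 4199715), (6, 16, 16, 5517570, 5517345), (4, 16, 16, 5517840, 5517840), (7, 16, 16, 5448705, 5391105), (8, 1, 1, 2428980, 4199730), (6, 16, 16, 5509890, 5513265), (8, 16, 16, 5391105, 5448705), (8, 16, 16, 5387265, 5387265), (11, 16, 16, 4346640, 3482640), (11, 16, 16, 4338960, 2438160), (1, 1, 1, 4526115, 4522290), (11, 16, 16, 2380560, 3417360), (11, 16, 16, 2372880, 2372880), (3, 16, 16, 5517840, 5517840), (10, 1, 1, 5443650, 5324850), (10, 1, 1, 3477540, 4215090), (9, 1, 1, 3280980, 1070130), (10, 16, 16, 5456400, 5456400), (7, 1, 1, 5439810, 5324835), (5, 16, 16, 5517825, 5517825), (6, 1, 1, 2294100, 1066275), (7, 1, 1, 3473700, 4215075), (5, 16, 16, 4534785, 4534785), (6, 1, 1, 3277140, 1070115), (10, 16, 16, 5448720, 5391120),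 (7, 1, 1, 5443650, 5324850), (5, 16, 16, 5513985, 5513985), (6, 1, 1, 2297940, 1066290), (7, 1, 1, 3477540, 4215090), (5, 16, 16, 4530945, 4530945), (6, 1, 1, 3280980, 1070130), (6, 1, 1, 5513235, 5505810), (6, 1, 1, 5505555, 5505555), (2, 1, 1, 5509170, 5509170), (8, 16, 16, 2441985, 4400385), (8, 16, 16, 2438145, 4338945), (6, 16, 16, 2315265, 3294465), (10, 16, 16, 3490320, 4411920), (7, 1, 1, 3473730, 4280355), (5, 16, 16, 4534800, 4534800), (10, 16, 16, 3482640, 4346640), (7, 1, 1, 3477570, 4280370), (5, 16, 16, 4530960, 4530960), (9, 16, 16, 2315280, 3294480), (6, 1, 1, 4530225, 4526850), (6, 1, 1, 4522545, 4526595)]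
  [(0, 960), (1, 5760), (2, 960), (3, -960), (5, -3840), (7, -3840), (8, 3840), (9, -960), (10, -5760), (11, 3840)] = true := by
  decide +kernel

section

variable {κ ι : Type*} [Fintype κ] [Fintype ι] [Inhabited κ] [Inhabited ι]

noncomputable def F53_0 (E : Env κ ι) : (Fin 2 → κ) → (Fin 6 → ι) → ℝ := op2 (P3 κ) (P9 ι) (fB E 2 6 m53_0)

def r53_0_0 : List (ℕ × ℤ) := [(0, 960), (1, 5760), (2, 960), (3, -960), (5, -3840), (7, -3840), (8, 3840), (9, -960), (10, -5760), (11, 3840)]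

theorem h53_0_0 (E : Env κ ι) : ip (F53_0 E) (F53_0 E) = dotS (ek E lk53) r53_0_0 :=
  op_entryZ E lk53 2 6 _ _ _ _ (pg3 κ) (pg9 ι) m53_0 m53_0 l53_0 z53_0 w53_0 x53_0 (by decide) _ (chkS_sound E lk53 2 6 _ _ _ _ t53_0_0)

theorem row53_0 (E : Env κ ι) : RowG (ek E lk53) (F53_0 E) [F53_0 E] [r53_0_0] :=
  rowG_cons _ _ _ _ _ _ (h53_0_0 E) (rowG_nil _ _)

def tab53 : List (List (List (ℕ × ℤ))) := [[r53_0_0]]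

theorem tri53 (E : Env κ ι) : TriG (ek E lk53) [F53_0 E] tab53 := by
  refine triG_cons _ _ _ _ _ (row53_0 E) ?_
  exact triG_nil _

end

def lk54 : List Key := [
  (2, 6, [(0, [0], [0, 1]), (0, [0], [0, 1]), (0, [1], [2, 3]), (0, [1], [2, 3]), (1, [], [4, 5]), (1, [], [4, 5])]),
  (2, 6, [(0, [0], [0, 1]), (0, [0], [0, 1]), (0, [1], [2, 3]), (0, [1], [2, 4]), (1, [], [4, 5]), (1, [], [3, 5])]),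
  (2, 6, [(0, [0], [0, 1]), (0, [0], [0, 1]), (0, [1], [2, 3]), (0, [1], [4, 5]), (1, [], [4, 5]), (1, [], [2, 3])]),
  (2, 6, [(0, [0], [0, 1]), (0, [1], [2, 3]), (0, [0], [2, 3]), (0, [1], [0, 1]), (1, [], [4, 5]), (1, [], [4, 5])]),
  (2, 6, [(0, [0], [0, 1]), (0, [1], [2, 3]), (0, [1], [0, 2]), (0, [0], [1, 3]), (1, [], [4, 5]), (1, [], [4, 5])]),
  (2, 6, [(0, [0], [0, 1]), (0, [1], [2, 3]), (0, [0], [2, 4]), (0, [1], [0, 5]), (1, [], [4, 5]), (1, [], [1, 3])]),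
  (2, 6, [(0, [0], [0, 1]), (0, [0], [2, 0]), (0, [1], [3, 1]), (0, [1], [4, 5]), (1, [], [4, 5]), (1, [], [2, 3])]),
  (2, 6, [(0, [0], [0, 1]), (0, [0], [2, 0]), (0, [1], [3, 1]), (0, [1], [2, 4]), (1, [], [4, 5]), (1, [], [3, 5])]),
  (2, 6, [(0, [0], [0, 1]), (0, [0], [2, 0]), (0, [1], [3, 1]), (0, [1], [3, 4]), (1, [], [4, 5]), (1, [], [2, 5])]),
  (2, 6, [(0, [0], [0, 1]), (0, [0], [2, 3]), (0, [1], [0, 1]), (0, [1], [4, 5]), (1, [], [4, 5]), (1, [], [2, 3])]),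
  (2, 6, [(0, [0], [0, 1]), (0, [0], [2, 3]), (0, [1], [0, 1]), (0, [1], [2, 4]), (1, [], [4, 5]), (1, [], [3, 5])]),
  (2, 6, [(0, [0], [0, 1]), (0, [0], [2, 1]), (0, [1], [3, 4]), (0, [1], [3, 5]), (1, [], [0, 5]), (1, [], [2, 4])])]

def kl54 : List ℕ := [9, 10, 14, 16, 19, 21, 40, 42, 43, 46, 48, 62]

def m54_0 : Base := (0, 0, [(0, [0], [0, 1]), (0, [1], [2, 3]), (1, [], [4, 5])])

def l54_0 : Cov := [(3072, 0, 0, [(0, [0], [0, 1]), (0, [1], [2, 3]), (1, [], [4, 5])]),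
  (768, 0, 0, [(0, [0], [0, 1]), (0, [1], [2, 4]), (1, [], [3, 5])]),
  (768, 0, 0, [(0, [0], [0, 1]), (0, [1], [2, 5]), (1, [], [3, 4])]),
  (768, 0, 0, [(0, [0], [0, 1]), (0, [1], [3, 4]), (1, [], [2, 5])]),
  (768, 0, 0, [(0, [0], [0, 1]), (0, [1], [3, 5]), (1, [], [2, 4])]),
  (1536, 0, 0, [(0, [0], [0, 1]), (0, [1], [4, 5]), (1, [], [2, 3])]),
  (2304, 0, 0, [(0, [0], [0, 2]), (0, [1], [1, 3]), (1, [], [4, 5])]),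
  (-768, 0, 0, [(0, [0], [0, 2]), (0, [1], [1, 4]), (1, [], [3, 5])]),
  (-2304, 0, 0, [(0, [0], [0, 2]), (0, [1], [3, 5]), (1, [], [1, 4])]),
  (768, 0, 0, [(0, [0], [0, 2]), (0, [1], [4, 5]), (1, [], [3, 1])]),
  (2304, 0, 0, [(0, [0], [0, 3]), (0, [1], [1, 2]), (1, [], [4, 5])]),
  (-768, 0, 0, [(0, [0], [0, 3]), (0, [1], [1, 4]), (1, [], [2, 5])]),
  (-2304, 0, 0, [(0, [0], [0, 3]), (0, [1], [2, 5]), (1, [], [1, 4])]),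
  (768, 0, 0, [(0, [0], [0, 3]), (0, [1], [4, 5]), (1, [], [2, 1])]),
  (-768, 0, 0, [(0, [0], [0, 5]), (0, [1], [1, 2]), (1, [], [3, 4])]),
  (-768, 0, 0, [(0, [0], [0, 5]), (0, [1], [1, 3]), (1, [], [2, 4])]),
  (-1536, 0, 0, [(0, [0], [0, 5]), (0, [1], [1, 4]), (1, [], [2, 3])]),
  (-3072, 0, 0, [(0, [0], [0, 5]), (0, [1], [2, 3]), (1, [], [1, 4])]),
  (-768, 0, 0, [(0, [0], [0, 5]), (0, [1], [2, 4]), (1, [], [1, 3])]),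
  (-768, 0, 0, [(0, [0], [0, 5]), (0, [1], [3, 4]), (1, [], [1, 2])]),
  (2304, 0, 0, [(0, [0], [1, 2]), (0, [1], [0, 3]), (1, [], [4, 5])]),
  (-768, 0, 0, [(0, [0], [1, 2]), (0, [1], [0, 5]), (1, [], [3, 4])]),
  (-2304, 0, 0, [(0, [0], [1, 2]), (0, [1], [3, 4]), (1, [], [0, 5])]),
  (768, 0, 0, [(0, [0], [1, 2]), (0, [1], [4, 5]), (1, [], [3, 0])]),
  (2304, 0, 0, [(0, [0], [1, 3]), (0, [1], [0, 2]), (1, [], [4, 5])]),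
  (-768, 0, 0, [(0, [0], [1, 3]), (0, [1], [0, 5]), (1, [], [2, 4])]),
  (-2304, 0, 0, [(0, [0], [1, 3]), (0, [1], [2, 4]), (1, [], [0, 5])]),
  (768, 0, 0, [(0, [0], [1, 3]), (0, [1], [4, 5]), (1, [], [2, 0])]),
  (-768, 0, 0, [(0, [0], [1, 4]), (0, [1], [0, 2]), (1, [], [3, 5])]),
  (-768, 0, 0, [(0, [0], [1, 4]), (0, [1], [0, 3]), (1, [], [2, 5])]),
  (-1536, 0, 0, [(0, [0], [1, 4]), (0, [1], [0, 5]), (1, [], [2, 3])]),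
  (-3072, 0, 0, [(0, [0], [1, 4]), (0, [1], [2, 3]), (1, [], [0, 5])]),
  (-768, 0, 0, [(0, [0], [1, 4]), (0, [1], [2, 5]), (1, [], [0, 3])]),
  (-768, 0, 0, [(0, [0], [1, 4]), (0, [1], [3, 5]), (1, [], [0, 2])]),
  (3072, 0, 0, [(0, [0], [2, 3]), (0, [1], [0, 1]), (1, [], [4, 5])]),
  (-3072, 0, 0, [(0, [0], [2, 3]), (0, [1], [0, 5]), (1, [], [1, 4])]),
  (-3072, 0, 0, [(0, [0], [2, 3]), (0, [1], [1, 4]), (1, [], [0, 5])]),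
  (3072, 0, 0, [(0, [0], [2, 3]), (0, [1], [4, 5]), (1, [], [0, 1])]),
  (768, 0, 0, [(0, [0], [2, 4]), (0, [1], [0, 1]), (1, [], [5, 3])]),
  (-768, 0, 0, [(0, [0], [2, 4]), (0, [1], [0, 5]), (1, [], [1, 3])]),
  (-2304, 0, 0, [(0, [0], [2, 4]), (0, [1], [1, 3]), (1, [], [0, 5])]),
  (2304, 0, 0, [(0, [0], [2, 4]), (0, [1], [3, 5]), (1, [], [0, 1])]),
  (768, 0, 0, [(0, [0], [2, 5]), (0, [1], [0, 1]), (1, [], [4, 3])]),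
  (-2304, 0, 0, [(0, [0], [2, 5]), (0, [1], [0, 3]), (1, [], [1, 4])]),
  (-768, 0, 0, [(0, [0], [2, 5]), (0, [1], [1, 4]), (1, [], [0, 3])]),
  (2304, 0, 0, [(0, [0], [2, 5]), (0, [1], [3, 4]), (1, [], [0, 1])]),
  (768, 0, 0, [(0, [0], [3, 4]), (0, [1], [0, 1]), (1, [], [5, 2])]),
  (-768, 0, 0, [(0, [0], [3, 4]), (0, [1], [0, 5]), (1, [], [1, 2])]),
  (-2304, 0, 0, [(0, [0], [3, 4]), (0, [1], [1, 2]), (1, [], [0, 5])]),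
  (2304, 0, 0, [(0, [0], [3, 4]), (0, [1], [2, 5]), (1, [], [0, 1])]),
  (768, 0, 0, [(0, [0], [3, 5]), (0, [1], [0, 1]), (1, [], [4, 2])]),
  (-2304, 0, 0, [(0, [0], [3, 5]), (0, [1], [0, 2]), (1, [], [1, 4])]),
  (-768, 0, 0, [(0, [0], [3, 5]), (0, [1], [1, 4]), (1, [], [0, 2])]),
  (2304, 0, 0, [(0, [0], [3, 5]), (0, [1], [2, 4]), (1, [], [0, 1])]),
  (1536, 0, 0, [(0, [0], [4, 5]), (0, [1], [0, 1]), (1, [], [2, 3])]),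
  (768, 0, 0, [(0, [0], [4, 5]), (0, [1], [0, 2]), (1, [], [1, 3])]),
  (768, 0, 0, [(0, [0], [4, 5]), (0, [1], [0, 3]), (1, [], [1, 2])]),
  (768, 0, 0, [(0, [0], [4, 5]), (0, [1], [1, 2]), (1, [], [0, 3])]),
  (768, 0, 0, [(0, [0], [4, 5]), (0, [1], [1, 3]), (1, [], [0, 2])]),
  (3072, 0, 0, [(0, [0], [4, 5]), (0, [1], [2, 3]), (1, [], [0, 1])])]

def z54_0 : Cov := [(0, 0, 0, [(0, [0], [0, 2]), (0, [1], [3, 4]), (1, [], [1, 5])]),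
  (0, 0, 0, [(0, [0], [0, 3]), (0, [1], [2, 4]), (1, [], [1, 5])]),
  (0, 0, 0, [(0, [0], [0, 4]), (0, [1], [1, 2]), (1, [], [3, 5])]),
  (0, 0, 0, [(0, [0], [0, 4]), (0, [1], [1, 3]), (1, [], [2, 5])]),
  (0, 0, 0, [(0, [0], [0, 4]), (0, [1], [2, 3]), (1, [], [1, 5])]),
  (0, 0, 0, [(0, [0], [0, 4]), (0, [1], [2, 5]), (1, [], [1, 3])]),
  (0, 0, 0, [(0, [0], [0, 4]), (0, [1], [3, 5]), (1, [], [1, 2])]),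
  (0, 0, 0, [(0, [0], [1, 2]), (0, [1], [3, 5]), (1, [], [0, 4])]),
  (0, 0, 0, [(0, [0], [1, 3]), (0, [1], [2, 5]), (1, [], [0, 4])]),
  (0, 0, 0, [(0, [0], [1, 5]), (0, [1], [0, 2]), (1, [], [3, 4])]),
  (0, 0, 0, [(0, [0], [1, 5]), (0, [1], [0, 3]), (1, [], [2, 4])]),
  (0, 0, 0, [(0, [0], [1, 5]), (0, [1], [2, 3]), (1, [], [0, 4])]),
  (0, 0, 0, [(0, [0], [1, 5]), (0, [1], [2, 4]), (1, [], [0, 3])]),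
  (0, 0, 0, [(0, [0], [1, 5]), (0, [1], [3, 4]), (1, [], [0, 2])]),
  (0, 0, 0, [(0, [0], [2, 4]), (0, [1], [0, 3]), (1, [], [1, 5])]),
  (0, 0, 0, [(0, [0], [2, 5]), (0, [1], [1, 3]), (1, [], [0, 4])]),
  (0, 0, 0, [(0, [0], [3, 4]), (0, [1], [0, 2]), (1, [], [1, 5])]),
  (0, 0, 0, [(0, [0], [3, 5]), (0, [1], [1, 2]), (1, [], [0, 4])]),
  (0, 0, 0, [(0, [1], [0, 4]), (0, [0], [1, 2]), (1, [], [3, 5])]),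
  (0, 0, 0, [(0, [1], [0, 4]), (0, [0], [1, 3]), (1, [], [2, 5])]),
  (0, 0, 0, [(0, [1], [0, 4]), (0, [0], [2, 3]), (1, [], [1, 5])]),
  (0, 0, 0, [(0, [1], [0, 4]), (0, [0], [2, 5]), (1, [], [1, 3])]),
  (0, 0, 0, [(0, [1], [0, 4]), (0, [0], [3, 5]), (1, [], [1, 2])]),
  (0, 0, 0, [(0, [1], [1, 5]), (0, [0], [0, 2]), (1, [], [3, 4])]),
  (0, 0, 0, [(0, [1], [1, 5]), (0, [0], [0, 3]), (1, [], [2, 4])]),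
  (0, 0, 0, [(0, [1], [1, 5]), (0, [0], [2, 3]), (1, [], [0, 4])]),
  (0, 0, 0, [(0, [1], [1, 5]), (0, [0], [2, 4]), (1, [], [0, 3])]),
  (0, 0, 0, [(0, [1], [1, 5]), (0, [0], [3, 4]), (1, [], [0, 2])])]

def w54_0 : List (List Wit) := [[(0, 0, 0, 0, 0), (0, 0, 0, 0, 0), (1, 0, 0, 0, 0), (1, 0, 0, 0, 0), (2, 0, 0, 0, 0), (2, 0, 0, 0, 0), (0, 0, 0, 0, 0), (0, 0, 0, 0, 0), (3, 0, 0, 0, 0), (3, 0, 0, 0, 0), (4, 0, 0, 0, 0), (4, 0, 0, 0, 0), (1, 0, 0, 0, 0), (1, 0, 0, 0, 0), (3, 0, 0, 0, 0), (3, 0, 0, 0, 0), (5, 0, 0, 0, 0), (5, 0, 0, 0, 0), (2, 0, 0, 0, 0), (2, 0, 0, 0, 0), (4, 0, 0, 0, 0), (4, 0, 0, 0, 0), (5, 0, 0, 0, 0), (5, 0, 0, 0, 0), (6, 0, 0, 0, 0), (6, 0, 0, 0, 0), (7, 0, 0, 0, 0), (6, 0, 0, 0, 0), (6, 0, 0, 0, 0), (60, 0, 0, 0, 0), (60, 0, 0, 0, 0), (8, 0, 0, 0,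 0), (8, 0, 0, 0, 0), (7, 0, 0, 0, 0), (60, 0, 0, 0, 0), (60, 0, 0, 0, 0), (9, 0, 0, 0, 0), (8, 0, 0, 0, 0), (8, 0, 0, 0, 0), (9, 0, 0, 0, 0), (10, 0, 0, 0, 0), (10, 0, 0, 0, 0), (11, 0, 0, 0, 0), (10, 0, 0, 0, 0), (10, 0, 0, 0, 0), (61, 0, 0, 0, 0), (61, 0, 0, 0, 0), (12, 0, 0, 0, 0), (12, 0, 0, 0, 0), (11, 0, 0, 0, 0), (61, 0, 0, 0, 0), (61, 0, 0, 0, 0), (13, 0, 0, 0, 0), (12, 0, 0, 0, 0), (12, 0, 0, 0, 0), (13, 0, 0, 0, 0), (62, 0, 0, 0, 0), (62, 0, 0, 0, 0), (63, 0, 0, 0, 0), (63, 0, 0, 0, 0), (62, 0, 0, 0, 0), (62, 0, 0, 0, 0), (64, 0, 0, 0, 0), (64, 0, 0, 0, 0), (65, 0, 0, 0, 0), (65, 0, 0, 0, 0), (63, 0, 0, 0, 0), (63, 0, 0, 0, 0), (64, 0, 0, 0, 0), (64, 0, 0, 0, 0), (66, 0, 0, 0, 0), (66, 0, 0, 0, 0), (65, 0, 0, 0, 0), (65, 0, 0, 0, 0), (66, 0, 0, 0, 0), (66, 0,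 0, 0, 0), (14, 0, 0, 0, 0), (14, 0, 0, 0, 0), (15, 0, 0, 0, 0), (15, 0, 0, 0, 0), (16, 0, 0, 0, 0), (16, 0, 0, 0, 0), (14, 0, 0, 0, 0), (14, 0, 0, 0, 0), (17, 0, 0, 0, 0), (17, 0, 0, 0, 0), (18, 0, 0, 0, 0), (18, 0, 0, 0, 0), (15, 0, 0, 0, 0), (15, 0, 0, 0, 0), (17, 0, 0, 0, 0), (17, 0, 0, 0, 0), (19, 0, 0, 0, 0), (19, 0, 0, 0, 0), (16, 0, 0, 0, 0), (16, 0, 0, 0, 0), (18, 0, 0, 0, 0), (18, 0, 0, 0, 0), (19, 0, 0, 0, 0), (19, 0, 0, 0, 0), (0, 0, 0, 0, 0), (0, 0, 0, 0, 0), (1, 0, 0, 0, 0), (1, 0, 0, 0, 0), (2, 0, 0, 0, 0), (2, 0, 0, 0, 0), (0, 0, 0, 0, 0), (0, 0, 0, 0, 0), (3, 0, 0, 0, 0), (3, 0, 0, 0, 0), (4, 0, 0, 0, 0), (4, 0, 0, 0, 0), (1, 0, 0, 0, 0), (1, 0, 0, 0, 0), (3, 0, 0, 0, 0), (3, 0, 0, 0, 0), (5, 0, 0, 0, 0), (5, 0, 0, 0, 0), (2, 0, 0, 0, 0), (2, 0, 0, 0, 0),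 (4, 0, 0, 0, 0), (4, 0, 0, 0, 0), (5, 0, 0, 0, 0), (5, 0, 0, 0, 0), (20, 0, 0, 0, 0), (20, 0, 0, 0, 0), (21, 0, 0, 0, 0), (20, 0, 0, 0, 0), (20, 0, 0, 0, 0), (22, 0, 0, 0, 0), (22, 0, 0, 0, 0), (67, 0, 0, 0, 0), (67, 0, 0, 0, 0), (22, 0, 0, 0, 0), (22, 0, 0, 0, 0), (23, 0, 0, 0, 0), (21, 0, 0, 0, 0), (67, 0, 0, 0, 0), (67, 0, 0, 0, 0), (23, 0, 0, 0, 0), (24, 0, 0, 0, 0), (24, 0, 0, 0, 0), (25, 0, 0, 0, 0), (24, 0, 0, 0, 0), (24, 0, 0, 0, 0), (26, 0, 0, 0, 0), (26, 0, 0, 0, 0), (68, 0, 0, 0, 0), (68, 0, 0, 0, 0), (26, 0, 0, 0, 0), (26, 0, 0, 0, 0), (27, 0, 0, 0, 0), (25, 0, 0, 0, 0), (68, 0, 0, 0, 0), (68, 0, 0, 0, 0), (27, 0, 0, 0, 0), (28, 0, 0, 0, 0), (28, 0, 0, 0, 0), (29, 0, 0, 0, 0), (29, 0, 0, 0, 0), (30, 0, 0, 0, 0), (30, 0, 0, 0, 0), (28, 0, 0, 0, 0), (28, 0, 0,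 0, 0), (31, 0, 0, 0, 0), (31, 0, 0, 0, 0), (32, 0, 0, 0, 0), (32, 0, 0, 0, 0), (29, 0, 0, 0, 0), (29, 0, 0, 0, 0), (31, 0, 0, 0, 0), (31, 0, 0, 0, 0), (33, 0, 0, 0, 0), (33, 0, 0, 0, 0), (30, 0, 0, 0, 0), (30, 0, 0, 0, 0), (32, 0, 0, 0, 0), (32, 0, 0, 0, 0), (33, 0, 0, 0, 0), (33, 0, 0, 0, 0), (69, 0, 0, 0, 0), (69, 0, 0, 0, 0), (70, 0, 0, 0, 0), (70, 0, 0, 0, 0), (69, 0, 0, 0, 0), (69, 0, 0, 0, 0), (71, 0, 0, 0, 0), (71, 0, 0, 0, 0), (72, 0, 0, 0, 0), (72, 0, 0, 0, 0), (70, 0, 0, 0, 0), (70, 0, 0, 0, 0), (71, 0, 0, 0, 0), (71, 0, 0, 0, 0), (73, 0, 0, 0, 0), (73, 0, 0, 0, 0), (72, 0, 0, 0, 0), (72, 0, 0, 0, 0), (73, 0, 0, 0, 0), (73, 0, 0, 0, 0), (6, 0, 0, 0, 0), (6, 0, 0, 0, 0), (7, 0, 0, 0, 0), (6, 0, 0, 0, 0), (6, 0, 0, 0, 0), (60, 0, 0, 0, 0), (60, 0, 0, 0, 0), (8,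 0, 0, 0, 0), (8, 0, 0, 0, 0), (7, 0, 0, 0, 0), (60, 0, 0, 0, 0), (60, 0, 0, 0, 0), (9, 0, 0, 0, 0), (8, 0, 0, 0, 0), (8, 0, 0, 0, 0), (9, 0, 0, 0, 0), (20, 0, 0, 0, 0), (20, 0, 0, 0, 0), (21, 0, 0, 0, 0), (20, 0, 0, 0, 0), (20, 0, 0, 0, 0), (22, 0, 0, 0, 0), (22, 0, 0, 0, 0), (67, 0, 0, 0, 0), (67, 0, 0, 0, 0), (22, 0, 0, 0, 0), (22, 0, 0, 0, 0), (23, 0, 0, 0, 0), (21, 0, 0, 0, 0), (67, 0, 0, 0, 0), (67, 0, 0, 0, 0), (23, 0, 0, 0, 0), (34, 0, 0, 0, 0), (34, 0, 0, 0, 0), (35, 0, 0, 0, 0), (35, 0, 0, 0, 0), (34, 0, 0, 0, 0), (34, 0, 0, 0, 0), (36, 0, 0, 0, 0), (36, 0, 0, 0, 0), (36, 0, 0, 0, 0), (36, 0, 0, 0, 0), (37, 0, 0, 0, 0), (37, 0, 0, 0, 0), (35, 0, 0, 0, 0), (35, 0, 0, 0, 0), (37, 0, 0, 0, 0), (37, 0, 0, 0, 0), (38, 0, 0, 0, 0), (74, 0, 0, 0, 0), (74, 0, 0, 0, 0),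 (39, 0, 0, 0, 0), (38, 0, 0, 0, 0), (40, 0, 0, 0, 0), (40, 0, 0, 0, 0), (74, 0, 0, 0, 0), (74, 0, 0, 0, 0), (40, 0, 0, 0, 0), (40, 0, 0, 0, 0), (41, 0, 0, 0, 0), (41, 0, 0, 0, 0), (39, 0, 0, 0, 0), (41, 0, 0, 0, 0), (41, 0, 0, 0, 0), (42, 0, 0, 0, 0), (43, 0, 0, 0, 0), (43, 0, 0, 0, 0), (42, 0, 0, 0, 0), (75, 0, 0, 0, 0), (75, 0, 0, 0, 0), (44, 0, 0, 0, 0), (43, 0, 0, 0, 0), (43, 0, 0, 0, 0), (75, 0, 0, 0, 0), (75, 0, 0, 0, 0), (45, 0, 0, 0, 0), (45, 0, 0, 0, 0), (44, 0, 0, 0, 0), (45, 0, 0, 0, 0), (45, 0, 0, 0, 0), (10, 0, 0, 0, 0), (10, 0, 0, 0, 0), (11, 0, 0, 0, 0), (10, 0, 0, 0, 0), (10, 0, 0, 0, 0), (61, 0, 0, 0, 0), (61, 0, 0, 0, 0), (12, 0, 0, 0, 0), (12, 0, 0, 0, 0), (11, 0, 0, 0, 0), (61, 0, 0, 0, 0), (61, 0, 0, 0, 0), (13, 0, 0, 0, 0), (12, 0, 0, 0, 0), (12, 0,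 0, 0, 0), (13, 0, 0, 0, 0), (24, 0, 0, 0, 0), (24, 0, 0, 0, 0), (25, 0, 0, 0, 0), (24, 0, 0, 0, 0), (24, 0, 0, 0, 0), (26, 0, 0, 0, 0), (26, 0, 0, 0, 0), (68, 0, 0, 0, 0), (68, 0, 0, 0, 0), (26, 0, 0, 0, 0), (26, 0, 0, 0, 0), (27, 0, 0, 0, 0), (25, 0, 0, 0, 0), (68, 0, 0, 0, 0), (68, 0, 0, 0, 0), (27, 0, 0, 0, 0), (34, 0, 0, 0, 0), (34, 0, 0, 0, 0), (35, 0, 0, 0, 0), (35, 0, 0, 0, 0), (34, 0, 0, 0, 0), (34, 0, 0, 0, 0), (36, 0, 0, 0, 0), (36, 0, 0, 0, 0), (36, 0, 0, 0, 0), (36, 0, 0, 0, 0), (37, 0, 0, 0, 0), (37, 0, 0, 0, 0), (35, 0, 0, 0, 0), (35, 0, 0, 0, 0), (37, 0, 0, 0, 0), (37, 0, 0, 0, 0), (46, 0, 0, 0, 0), (76, 0, 0, 0, 0), (76, 0, 0, 0, 0), (47, 0, 0, 0, 0), (46, 0, 0, 0, 0), (48, 0, 0, 0, 0), (48, 0, 0, 0, 0), (76, 0, 0, 0, 0), (76, 0, 0, 0, 0), (48, 0, 0, 0,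 0), (48, 0, 0, 0, 0), (49, 0, 0, 0, 0), (49, 0, 0, 0, 0), (47, 0, 0, 0, 0), (49, 0, 0, 0, 0), (49, 0, 0, 0, 0), (50, 0, 0, 0, 0), (51, 0, 0, 0, 0), (51, 0, 0, 0, 0), (50, 0, 0, 0, 0), (77, 0, 0, 0, 0), (77, 0, 0, 0, 0), (52, 0, 0, 0, 0), (51, 0, 0, 0, 0), (51, 0, 0, 0, 0), (77, 0, 0, 0, 0), (77, 0, 0, 0, 0), (53, 0, 0, 0, 0), (53, 0, 0, 0, 0), (52, 0, 0, 0, 0), (53, 0, 0, 0, 0), (53, 0, 0, 0, 0), (62, 0, 0, 0, 0), (62, 0, 0, 0, 0), (63, 0, 0, 0, 0), (63, 0, 0, 0, 0), (62, 0, 0, 0, 0), (62, 0, 0, 0, 0), (64, 0, 0, 0, 0), (64, 0, 0, 0, 0), (65, 0, 0, 0, 0), (65, 0, 0, 0, 0), (63, 0, 0, 0, 0), (63, 0, 0, 0, 0), (64, 0, 0, 0, 0), (64, 0, 0, 0, 0), (66, 0, 0, 0, 0), (66, 0, 0, 0, 0), (65, 0, 0, 0, 0), (65, 0, 0, 0, 0), (66, 0, 0, 0, 0), (66, 0, 0, 0, 0), (28, 0, 0, 0, 0), (28,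 0, 0, 0, 0), (29, 0, 0, 0, 0), (29, 0, 0, 0, 0), (30, 0, 0, 0, 0), (30, 0, 0, 0, 0), (28, 0, 0, 0, 0), (28, 0, 0, 0, 0), (31, 0, 0, 0, 0), (31, 0, 0, 0, 0), (32, 0, 0, 0, 0), (32, 0, 0, 0, 0), (29, 0, 0, 0, 0), (29, 0, 0, 0, 0), (31, 0, 0, 0, 0), (31, 0, 0, 0, 0), (33, 0, 0, 0, 0), (33, 0, 0, 0, 0), (30, 0, 0, 0, 0), (30, 0, 0, 0, 0), (32, 0, 0, 0, 0), (32, 0, 0, 0, 0), (33, 0, 0, 0, 0), (33, 0, 0, 0, 0), (38, 0, 0, 0, 0), (74, 0, 0, 0, 0), (74, 0, 0, 0, 0), (39, 0, 0, 0, 0), (38, 0, 0, 0, 0), (40, 0, 0, 0, 0), (40, 0, 0, 0, 0), (74, 0, 0, 0, 0), (74, 0, 0, 0, 0), (40, 0, 0, 0, 0), (40, 0, 0, 0, 0), (41, 0, 0, 0, 0), (41, 0, 0, 0, 0), (39, 0, 0, 0, 0), (41, 0, 0, 0, 0), (41, 0, 0, 0, 0), (46, 0, 0, 0, 0), (76, 0, 0, 0, 0), (76, 0, 0, 0, 0), (47, 0, 0, 0, 0), (46, 0, 0,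 0, 0), (48, 0, 0, 0, 0), (48, 0, 0, 0, 0), (76, 0, 0, 0, 0), (76, 0, 0, 0, 0), (48, 0, 0, 0, 0), (48, 0, 0, 0, 0), (49, 0, 0, 0, 0), (49, 0, 0, 0, 0), (47, 0, 0, 0, 0), (49, 0, 0, 0, 0), (49, 0, 0, 0, 0), (54, 0, 0, 0, 0), (54, 0, 0, 0, 0), (55, 0, 0, 0, 0), (55, 0, 0, 0, 0), (56, 0, 0, 0, 0), (56, 0, 0, 0, 0), (54, 0, 0, 0, 0), (54, 0, 0, 0, 0), (57, 0, 0, 0, 0), (57, 0, 0, 0, 0), (58, 0, 0, 0, 0), (58, 0, 0, 0, 0), (55, 0, 0, 0, 0), (55, 0, 0, 0, 0), (57, 0, 0, 0, 0), (57, 0, 0, 0, 0), (59, 0, 0, 0, 0), (59, 0, 0, 0, 0), (56, 0, 0, 0, 0), (56, 0, 0, 0, 0), (58, 0, 0, 0, 0), (58, 0, 0, 0, 0), (59, 0, 0, 0, 0), (59, 0, 0, 0, 0), (14, 0, 0, 0, 0), (14, 0, 0, 0, 0), (15, 0, 0, 0, 0), (15, 0, 0, 0, 0), (16, 0, 0, 0, 0), (16, 0, 0, 0, 0), (14, 0, 0, 0, 0), (14, 0, 0, 0, 0),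 (17, 0, 0, 0, 0), (17, 0, 0, 0, 0), (18, 0, 0, 0, 0), (18, 0, 0, 0, 0), (15, 0, 0, 0, 0), (15, 0, 0, 0, 0), (17, 0, 0, 0, 0), (17, 0, 0, 0, 0), (19, 0, 0, 0, 0), (19, 0, 0, 0, 0), (16, 0, 0, 0, 0), (16, 0, 0, 0, 0), (18, 0, 0, 0, 0), (18, 0, 0, 0, 0), (19, 0, 0, 0, 0), (19, 0, 0, 0, 0), (69, 0, 0, 0, 0), (69, 0, 0, 0, 0), (70, 0, 0, 0, 0), (70, 0, 0, 0, 0), (69, 0, 0, 0, 0), (69, 0, 0, 0, 0), (71, 0, 0, 0, 0), (71, 0, 0, 0, 0), (72, 0, 0, 0, 0), (72, 0, 0, 0, 0), (70, 0, 0, 0, 0), (70, 0, 0, 0, 0), (71, 0, 0, 0, 0), (71, 0, 0, 0, 0), (73, 0, 0, 0, 0), (73, 0, 0, 0, 0), (72, 0, 0, 0, 0), (72, 0, 0, 0, 0), (73, 0, 0, 0, 0), (73, 0, 0, 0, 0), (42, 0, 0, 0, 0), (43, 0, 0, 0, 0), (43, 0, 0, 0, 0), (42, 0, 0, 0, 0), (75, 0, 0, 0, 0), (75, 0, 0, 0, 0), (44, 0, 0, 0, 0), (43, 0,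 0, 0, 0), (43, 0, 0, 0, 0), (75, 0, 0, 0, 0), (75, 0, 0, 0, 0), (45, 0, 0, 0, 0), (45, 0, 0, 0, 0), (44, 0, 0, 0, 0), (45, 0, 0, 0, 0), (45, 0, 0, 0, 0), (50, 0, 0, 0, 0), (51, 0, 0, 0, 0), (51, 0, 0, 0, 0), (50, 0, 0, 0, 0), (77, 0, 0, 0, 0), (77, 0, 0, 0, 0), (52, 0, 0, 0, 0), (51, 0, 0, 0, 0), (51, 0, 0, 0, 0), (77, 0, 0, 0, 0), (77, 0, 0, 0, 0), (53, 0, 0, 0, 0), (53, 0, 0, 0, 0), (52, 0, 0, 0, 0), (53, 0, 0, 0, 0), (53, 0, 0, 0, 0), (54, 0, 0, 0, 0), (54, 0, 0, 0, 0), (55, 0, 0, 0, 0), (55, 0, 0, 0, 0), (56, 0, 0, 0, 0), (56, 0, 0, 0, 0), (54, 0, 0, 0, 0), (54, 0, 0, 0, 0), (57, 0, 0, 0, 0), (57, 0, 0, 0, 0), (58, 0, 0, 0, 0), (58, 0, 0, 0, 0), (55, 0, 0, 0, 0), (55, 0, 0, 0, 0), (57, 0, 0, 0, 0), (57, 0, 0, 0, 0), (59, 0, 0, 0, 0), (59, 0, 0, 0, 0), (56, 0, 0, 0,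 0), (56, 0, 0, 0, 0), (58, 0, 0, 0, 0), (58, 0, 0, 0, 0), (59, 0, 0, 0, 0), (59, 0, 0, 0, 0)],
  [(34, 0, 0, 0, 0), (34, 0, 0, 0, 0), (38, 0, 0, 0, 0), (38, 0, 0, 0, 0), (42, 0, 0, 0, 0), (42, 0, 0, 0, 0), (34, 0, 0, 0, 0), (34, 0, 0, 0, 0), (46, 0, 0, 0, 0), (46, 0, 0, 0, 0), (50, 0, 0, 0, 0), (50, 0, 0, 0, 0), (38, 0, 0, 0, 0), (38, 0, 0, 0, 0), (46, 0, 0, 0, 0), (46, 0, 0, 0, 0), (54, 0, 0, 0, 0), (54, 0, 0, 0, 0), (42, 0, 0, 0, 0), (42, 0, 0, 0, 0), (50, 0, 0, 0, 0), (50, 0, 0, 0, 0), (54, 0, 0, 0, 0), (54, 0, 0, 0, 0), (24, 0, 0, 0, 0), (24, 0, 0, 0, 0), (28, 0, 0, 0, 0), (24, 0, 0, 0, 0), (24, 0, 0, 0, 0), (76, 0, 0, 0, 0), (76, 0, 0, 0, 0), (51, 0, 0, 0, 0), (51, 0, 0, 0, 0), (28, 0, 0, 0, 0), (76, 0, 0, 0, 0), (76, 0, 0, 0, 0), (55, 0, 0, 0, 0), (51, 0, 0, 0, 0),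 (51, 0, 0, 0, 0), (55, 0, 0, 0, 0), (20, 0, 0, 0, 0), (20, 0, 0, 0, 0), (29, 0, 0, 0, 0), (20, 0, 0, 0, 0), (20, 0, 0, 0, 0), (74, 0, 0, 0, 0), (74, 0, 0, 0, 0), (43, 0, 0, 0, 0), (43, 0, 0, 0, 0), (29, 0, 0, 0, 0), (74, 0, 0, 0, 0), (74, 0, 0, 0, 0), (56, 0, 0, 0, 0), (43, 0, 0, 0, 0), (43, 0, 0, 0, 0), (56, 0, 0, 0, 0), (78, 0, 0, 0, 0), (78, 0, 0, 0, 0), (79, 0, 0, 0, 0), (79, 0, 0, 0, 0), (78, 0, 0, 0, 0), (78, 0, 0, 0, 0), (80, 0, 0, 0, 0), (80, 0, 0, 0, 0), (81, 0, 0, 0, 0), (81, 0, 0, 0, 0), (79, 0, 0, 0, 0), (79, 0, 0, 0, 0), (80, 0, 0, 0, 0), (80, 0, 0, 0, 0), (82, 0, 0, 0, 0), (82, 0, 0, 0, 0), (81, 0, 0, 0, 0), (81, 0, 0, 0, 0), (82, 0, 0, 0, 0), (82, 0, 0, 0, 0), (21, 0, 0, 0, 0), (21, 0, 0, 0, 0), (25, 0, 0, 0, 0), (25, 0, 0, 0, 0), (30, 0, 0, 0, 0), (30, 0,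 0, 0, 0), (21, 0, 0, 0, 0), (21, 0, 0, 0, 0), (35, 0, 0, 0, 0), (35, 0, 0, 0, 0), (39, 0, 0, 0, 0), (39, 0, 0, 0, 0), (25, 0, 0, 0, 0), (25, 0, 0, 0, 0), (35, 0, 0, 0, 0), (35, 0, 0, 0, 0), (47, 0, 0, 0, 0), (47, 0, 0, 0, 0), (30, 0, 0, 0, 0), (30, 0, 0, 0, 0), (39, 0, 0, 0, 0), (39, 0, 0, 0, 0), (47, 0, 0, 0, 0), (47, 0, 0, 0, 0), (34, 0, 0, 0, 0), (34, 0, 0, 0, 0), (38, 0, 0, 0, 0), (38, 0, 0, 0, 0), (42, 0, 0, 0, 0), (42, 0, 0, 0, 0), (34, 0, 0, 0, 0), (34, 0, 0, 0, 0), (46, 0, 0, 0, 0), (46, 0, 0, 0, 0), (50, 0, 0, 0, 0), (50, 0, 0, 0, 0), (38, 0, 0, 0, 0), (38, 0, 0, 0, 0), (46, 0, 0, 0, 0), (46, 0, 0, 0, 0), (54, 0, 0, 0, 0), (54, 0, 0, 0, 0), (42, 0, 0, 0, 0), (42, 0, 0, 0, 0), (50, 0, 0, 0, 0), (50, 0, 0, 0, 0), (54, 0, 0, 0, 0), (54, 0, 0, 0, 0), (10, 0, 0, 0,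 0), (10, 0, 0, 0, 0), (14, 0, 0, 0, 0), (10, 0, 0, 0, 0), (10, 0, 0, 0, 0), (48, 0, 0, 0, 0), (48, 0, 0, 0, 0), (77, 0, 0, 0, 0), (77, 0, 0, 0, 0), (48, 0, 0, 0, 0), (48, 0, 0, 0, 0), (57, 0, 0, 0, 0), (14, 0, 0, 0, 0), (77, 0, 0, 0, 0), (77, 0, 0, 0, 0), (57, 0, 0, 0, 0), (6, 0, 0, 0, 0), (6, 0, 0, 0, 0), (15, 0, 0, 0, 0), (6, 0, 0, 0, 0), (6, 0, 0, 0, 0), (40, 0, 0, 0, 0), (40, 0, 0, 0, 0), (75, 0, 0, 0, 0), (75, 0, 0, 0, 0), (40, 0, 0, 0, 0), (40, 0, 0, 0, 0), (58, 0, 0, 0, 0), (15, 0, 0, 0, 0), (75, 0, 0, 0, 0), (75, 0, 0, 0, 0), (58, 0, 0, 0, 0), (7, 0, 0, 0, 0), (7, 0, 0, 0, 0), (11, 0, 0, 0, 0), (11, 0, 0, 0, 0), (16, 0, 0, 0, 0), (16, 0, 0, 0, 0), (7, 0, 0, 0, 0), (7, 0, 0, 0, 0), (36, 0, 0, 0, 0), (36, 0, 0, 0, 0), (44, 0, 0, 0, 0), (44, 0, 0, 0, 0), (11, 0, 0,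 0, 0), (11, 0, 0, 0, 0), (36, 0, 0, 0, 0), (36, 0, 0, 0, 0), (52, 0, 0, 0, 0), (52, 0, 0, 0, 0), (16, 0, 0, 0, 0), (16, 0, 0, 0, 0), (44, 0, 0, 0, 0), (44, 0, 0, 0, 0), (52, 0, 0, 0, 0), (52, 0, 0, 0, 0), (83, 0, 0, 0, 0), (83, 0, 0, 0, 0), (84, 0, 0, 0, 0), (84, 0, 0, 0, 0), (83, 0, 0, 0, 0), (83, 0, 0, 0, 0), (85, 0, 0, 0, 0), (85, 0, 0, 0, 0), (86, 0, 0, 0, 0), (86, 0, 0, 0, 0), (84, 0, 0, 0, 0), (84, 0, 0, 0, 0), (85, 0, 0, 0, 0), (85, 0, 0, 0, 0), (87, 0, 0, 0, 0), (87, 0, 0, 0, 0), (86, 0, 0, 0, 0), (86, 0, 0, 0, 0), (87, 0, 0, 0, 0), (87, 0, 0, 0, 0), (24, 0, 0, 0, 0), (24, 0, 0, 0, 0), (28, 0, 0, 0, 0), (24, 0, 0, 0, 0), (24, 0, 0, 0, 0), (76, 0, 0, 0, 0), (76, 0, 0, 0, 0), (51, 0, 0, 0, 0), (51, 0, 0, 0, 0), (28, 0, 0, 0, 0), (76, 0, 0, 0, 0), (76, 0, 0, 0, 0),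 (55, 0, 0, 0, 0), (51, 0, 0, 0, 0), (51, 0, 0, 0, 0), (55, 0, 0, 0, 0), (10, 0, 0, 0, 0), (10, 0, 0, 0, 0), (14, 0, 0, 0, 0), (10, 0, 0, 0, 0), (10, 0, 0, 0, 0), (48, 0, 0, 0, 0), (48, 0, 0, 0, 0), (77, 0, 0, 0, 0), (77, 0, 0, 0, 0), (48, 0, 0, 0, 0), (48, 0, 0, 0, 0), (57, 0, 0, 0, 0), (14, 0, 0, 0, 0), (77, 0, 0, 0, 0), (77, 0, 0, 0, 0), (57, 0, 0, 0, 0), (0, 0, 0, 0, 0), (0, 0, 0, 0, 0), (17, 0, 0, 0, 0), (17, 0, 0, 0, 0), (0, 0, 0, 0, 0), (0, 0, 0, 0, 0), (31, 0, 0, 0, 0), (31, 0, 0, 0, 0), (31, 0, 0, 0, 0), (31, 0, 0, 0, 0), (59, 0, 0, 0, 0), (59, 0, 0, 0, 0), (17, 0, 0, 0, 0), (17, 0, 0, 0, 0), (59, 0, 0, 0, 0), (59, 0, 0, 0, 0), (1, 0, 0, 0, 0), (61, 0, 0, 0, 0), (61, 0, 0, 0, 0), (18, 0, 0, 0, 0), (1, 0, 0, 0, 0), (26, 0, 0, 0, 0), (26, 0, 0, 0, 0), (61, 0, 0, 0,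 0), (61, 0, 0, 0, 0), (26, 0, 0, 0, 0), (26, 0, 0, 0, 0), (53, 0, 0, 0, 0), (53, 0, 0, 0, 0), (18, 0, 0, 0, 0), (53, 0, 0, 0, 0), (53, 0, 0, 0, 0), (2, 0, 0, 0, 0), (12, 0, 0, 0, 0), (12, 0, 0, 0, 0), (2, 0, 0, 0, 0), (68, 0, 0, 0, 0), (68, 0, 0, 0, 0), (32, 0, 0, 0, 0), (12, 0, 0, 0, 0), (12, 0, 0, 0, 0), (68, 0, 0, 0, 0), (68, 0, 0, 0, 0), (49, 0, 0, 0, 0), (49, 0, 0, 0, 0), (32, 0, 0, 0, 0), (49, 0, 0, 0, 0), (49, 0, 0, 0, 0), (20, 0, 0, 0, 0), (20, 0, 0, 0, 0), (29, 0, 0, 0, 0), (20, 0, 0, 0, 0), (20, 0, 0, 0, 0), (74, 0, 0, 0, 0), (74, 0, 0, 0, 0), (43, 0, 0, 0, 0), (43, 0, 0, 0, 0), (29, 0, 0, 0, 0), (74, 0, 0, 0, 0), (74, 0, 0, 0, 0), (56, 0, 0, 0, 0), (43, 0, 0, 0, 0), (43, 0, 0, 0, 0), (56, 0, 0, 0, 0), (6, 0, 0, 0, 0), (6, 0, 0, 0, 0), (15, 0, 0, 0, 0), (6, 0,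 0, 0, 0), (6, 0, 0, 0, 0), (40, 0, 0, 0, 0), (40, 0, 0, 0, 0), (75, 0, 0, 0, 0), (75, 0, 0, 0, 0), (40, 0, 0, 0, 0), (40, 0, 0, 0, 0), (58, 0, 0, 0, 0), (15, 0, 0, 0, 0), (75, 0, 0, 0, 0), (75, 0, 0, 0, 0), (58, 0, 0, 0, 0), (0, 0, 0, 0, 0), (0, 0, 0, 0, 0), (17, 0, 0, 0, 0), (17, 0, 0, 0, 0), (0, 0, 0, 0, 0), (0, 0, 0, 0, 0), (31, 0, 0, 0, 0), (31, 0, 0, 0, 0), (31, 0, 0, 0, 0), (31, 0, 0, 0, 0), (59, 0, 0, 0, 0), (59, 0, 0, 0, 0), (17, 0, 0, 0, 0), (17, 0, 0, 0, 0), (59, 0, 0, 0, 0), (59, 0, 0, 0, 0), (3, 0, 0, 0, 0), (60, 0, 0, 0, 0), (60, 0, 0, 0, 0), (19, 0, 0, 0, 0), (3, 0, 0, 0, 0), (22, 0, 0, 0, 0), (22, 0, 0, 0, 0), (60, 0, 0, 0, 0), (60, 0, 0, 0, 0), (22, 0, 0, 0, 0), (22, 0, 0, 0, 0), (45, 0, 0, 0, 0), (45, 0, 0, 0, 0), (19, 0, 0, 0, 0), (45, 0, 0, 0, 0), (45,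 0, 0, 0, 0), (4, 0, 0, 0, 0), (8, 0, 0, 0, 0), (8, 0, 0, 0, 0), (4, 0, 0, 0, 0), (67, 0, 0, 0, 0), (67, 0, 0, 0, 0), (33, 0, 0, 0, 0), (8, 0, 0, 0, 0), (8, 0, 0, 0, 0), (67, 0, 0, 0, 0), (67, 0, 0, 0, 0), (41, 0, 0, 0, 0), (41, 0, 0, 0, 0), (33, 0, 0, 0, 0), (41, 0, 0, 0, 0), (41, 0, 0, 0, 0), (78, 0, 0, 0, 0), (78, 0, 0, 0, 0), (79, 0, 0, 0, 0), (79, 0, 0, 0, 0), (78, 0, 0, 0, 0), (78, 0, 0, 0, 0), (80, 0, 0, 0, 0), (80, 0, 0, 0, 0), (81, 0, 0, 0, 0), (81, 0, 0, 0, 0), (79, 0, 0, 0, 0), (79, 0, 0, 0, 0), (80, 0, 0, 0, 0), (80, 0, 0, 0, 0), (82, 0, 0, 0, 0), (82, 0, 0, 0, 0), (81, 0, 0, 0, 0), (81, 0, 0, 0, 0), (82, 0, 0, 0, 0), (82, 0, 0, 0, 0), (7, 0, 0, 0, 0), (7, 0, 0, 0, 0), (11, 0, 0, 0, 0), (11, 0, 0, 0, 0), (16, 0, 0, 0, 0), (16, 0, 0, 0, 0), (7, 0, 0, 0, 0), (7,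 0, 0, 0, 0), (36, 0, 0, 0, 0), (36, 0, 0, 0, 0), (44, 0, 0, 0, 0), (44, 0, 0, 0, 0), (11, 0, 0, 0, 0), (11, 0, 0, 0, 0), (36, 0, 0, 0, 0), (36, 0, 0, 0, 0), (52, 0, 0, 0, 0), (52, 0, 0, 0, 0), (16, 0, 0, 0, 0), (16, 0, 0, 0, 0), (44, 0, 0, 0, 0), (44, 0, 0, 0, 0), (52, 0, 0, 0, 0), (52, 0, 0, 0, 0), (1, 0, 0, 0, 0), (61, 0, 0, 0, 0), (61, 0, 0, 0, 0), (18, 0, 0, 0, 0), (1, 0, 0, 0, 0), (26, 0, 0, 0, 0), (26, 0, 0, 0, 0), (61, 0, 0, 0, 0), (61, 0, 0, 0, 0), (26, 0, 0, 0, 0), (26, 0, 0, 0, 0), (53, 0, 0, 0, 0), (53, 0, 0, 0, 0), (18, 0, 0, 0, 0), (53, 0, 0, 0, 0), (53, 0, 0, 0, 0), (3, 0, 0, 0, 0), (60, 0, 0, 0, 0), (60, 0, 0, 0, 0), (19, 0, 0, 0, 0), (3, 0, 0, 0, 0), (22, 0, 0, 0, 0), (22, 0, 0, 0, 0), (60, 0, 0, 0, 0), (60, 0, 0, 0, 0), (22, 0, 0, 0, 0), (22, 0, 0, 0, 0),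 (45, 0, 0, 0, 0), (45, 0, 0, 0, 0), (19, 0, 0, 0, 0), (45, 0, 0, 0, 0), (45, 0, 0, 0, 0), (5, 0, 0, 0, 0), (5, 0, 0, 0, 0), (9, 0, 0, 0, 0), (9, 0, 0, 0, 0), (13, 0, 0, 0, 0), (13, 0, 0, 0, 0), (5, 0, 0, 0, 0), (5, 0, 0, 0, 0), (23, 0, 0, 0, 0), (23, 0, 0, 0, 0), (27, 0, 0, 0, 0), (27, 0, 0, 0, 0), (9, 0, 0, 0, 0), (9, 0, 0, 0, 0), (23, 0, 0, 0, 0), (23, 0, 0, 0, 0), (37, 0, 0, 0, 0), (37, 0, 0, 0, 0), (13, 0, 0, 0, 0), (13, 0, 0, 0, 0), (27, 0, 0, 0, 0), (27, 0, 0, 0, 0), (37, 0, 0, 0, 0), (37, 0, 0, 0, 0), (21, 0, 0, 0, 0), (21, 0, 0, 0, 0), (25, 0, 0, 0, 0), (25, 0, 0, 0, 0), (30, 0, 0, 0, 0), (30, 0, 0, 0, 0), (21, 0, 0, 0, 0), (21, 0, 0, 0, 0), (35, 0, 0, 0, 0), (35, 0, 0, 0, 0), (39, 0, 0, 0, 0), (39, 0, 0, 0, 0), (25, 0, 0, 0, 0), (25, 0, 0, 0, 0), (35, 0, 0, 0,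 0), (35, 0, 0, 0, 0), (47, 0, 0, 0, 0), (47, 0, 0, 0, 0), (30, 0, 0, 0, 0), (30, 0, 0, 0, 0), (39, 0, 0, 0, 0), (39, 0, 0, 0, 0), (47, 0, 0, 0, 0), (47, 0, 0, 0, 0), (83, 0, 0, 0, 0), (83, 0, 0, 0, 0), (84, 0, 0, 0, 0), (84, 0, 0, 0, 0), (83, 0, 0, 0, 0), (83, 0, 0, 0, 0), (85, 0, 0, 0, 0), (85, 0, 0, 0, 0), (86, 0, 0, 0, 0), (86, 0, 0, 0, 0), (84, 0, 0, 0, 0), (84, 0, 0, 0, 0), (85, 0, 0, 0, 0), (85, 0, 0, 0, 0), (87, 0, 0, 0, 0), (87, 0, 0, 0, 0), (86, 0, 0, 0, 0), (86, 0, 0, 0, 0), (87, 0, 0, 0, 0), (87, 0, 0, 0, 0), (2, 0, 0, 0, 0), (12, 0, 0, 0, 0), (12, 0, 0, 0, 0), (2, 0, 0, 0, 0), (68, 0, 0, 0, 0), (68, 0, 0, 0, 0), (32, 0, 0, 0, 0), (12, 0, 0, 0, 0), (12, 0, 0, 0, 0), (68, 0, 0, 0, 0), (68, 0, 0, 0, 0), (49, 0, 0, 0, 0), (49, 0, 0, 0, 0), (32, 0, 0, 0, 0), (49,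 0, 0, 0, 0), (49, 0, 0, 0, 0), (4, 0, 0, 0, 0), (8, 0, 0, 0, 0), (8, 0, 0, 0, 0), (4, 0, 0, 0, 0), (67, 0, 0, 0, 0), (67, 0, 0, 0, 0), (33, 0, 0, 0, 0), (8, 0, 0, 0, 0), (8, 0, 0, 0, 0), (67, 0, 0, 0, 0), (67, 0, 0, 0, 0), (41, 0, 0, 0, 0), (41, 0, 0, 0, 0), (33, 0, 0, 0, 0), (41, 0, 0, 0, 0), (41, 0, 0, 0, 0), (5, 0, 0, 0, 0), (5, 0, 0, 0, 0), (9, 0, 0, 0, 0), (9, 0, 0, 0, 0), (13, 0, 0, 0, 0), (13, 0, 0, 0, 0), (5, 0, 0, 0, 0), (5, 0, 0, 0, 0), (23, 0, 0, 0, 0), (23, 0, 0, 0, 0), (27, 0, 0, 0, 0), (27, 0, 0, 0, 0), (9, 0, 0, 0, 0), (9, 0, 0, 0, 0), (23, 0, 0, 0, 0), (23, 0, 0, 0, 0), (37, 0, 0, 0, 0), (37, 0, 0, 0, 0), (13, 0, 0, 0, 0), (13, 0, 0, 0, 0), (27, 0, 0, 0, 0), (27, 0, 0, 0, 0), (37, 0, 0, 0, 0), (37, 0, 0, 0, 0)]]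

def m54_1 : Base := (0, 0, [(0, [0], [0, 1]), (0, [1], [2, 4]), (1, [], [3, 5])])

def l54_1 : Cov := [(1152, 0, 0, [(0, [0], [0, 1]), (0, [1], [2, 4]), (1, [], [3, 5])]),
  (1152, 0, 0, [(0, [0], [0, 1]), (0, [1], [2, 5]), (1, [], [3, 4])]),
  (768, 0, 0, [(0, [0], [0, 1]), (0, [1], [2, 3]), (1, [], [4, 5])]),
  (1152, 0, 0, [(0, [0], [0, 1]), (0, [1], [3, 4]), (1, [], [2, 5])]),
  (1152, 0, 0, [(0, [0], [0, 1]), (0, [1], [3, 5]), (1, [], [2, 4])]),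
  (2304, 0, 0, [(0, [0], [0, 1]), (0, [1], [4, 5]), (1, [], [2, 3])]),
  (-1152, 0, 0, [(0, [0], [0, 2]), (0, [1], [1, 4]), (1, [], [3, 5])]),
  (-384, 0, 0, [(0, [0], [0, 2]), (0, [1], [1, 3]), (1, [], [4, 5])]),
  (384, 0, 0, [(0, [0], [0, 2]), (0, [1], [3, 5]), (1, [], [1, 4])]),
  (1152, 0, 0, [(0, [0], [0, 2]), (0, [1], [4, 5]), (1, [], [3, 1])]),
  (-1152, 0, 0, [(0, [0], [0, 3]), (0, [1], [1, 4]), (1, [], [2, 5])]),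
  (-384, 0, 0, [(0, [0], [0, 3]), (0, [1], [1, 2]), (1, [], [4, 5])]),
  (384, 0, 0, [(0, [0], [0, 3]), (0, [1], [2, 5]), (1, [], [1, 4])]),
  (1152, 0, 0, [(0, [0], [0, 3]), (0, [1], [4, 5]), (1, [], [2, 1])]),
  (-1152, 0, 0, [(0, [0], [0, 5]), (0, [1], [1, 3]), (1, [], [2, 4])]),
  (-2304, 0, 0, [(0, [0], [0, 5]), (0, [1], [1, 4]), (1, [], [2, 3])]),
  (-1152, 0, 0, [(0, [0], [0, 5]), (0, [1], [1, 2]), (1, [], [3, 4])]),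
  (-768, 0, 0, [(0, [0], [0, 5]), (0, [1], [2, 3]), (1, [], [1, 4])]),
  (-1152, 0, 0, [(0, [0], [0, 5]), (0, [1], [2, 4]), (1, [], [1, 3])]),
  (-1152, 0, 0, [(0, [0], [0, 5]), (0, [1], [3, 4]), (1, [], [1, 2])]),
  (-1152, 0, 0, [(0, [0], [1, 2]), (0, [1], [0, 5]), (1, [], [3, 4])]),
  (-384, 0, 0, [(0, [0], [1, 2]), (0, [1], [0, 3]), (1, [], [5, 4])]),
  (384, 0, 0, [(0, [0], [1, 2]), (0, [1], [3, 4]), (1, [], [0, 5])]),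
  (1152, 0, 0, [(0, [0], [1, 2]), (0, [1], [4, 5]), (1, [], [3, 0])]),
  (-1152, 0, 0, [(0, [0], [1, 3]), (0, [1], [0, 5]), (1, [], [2, 4])]),
  (-384, 0, 0, [(0, [0], [1, 3]), (0, [1], [0, 2]), (1, [], [5, 4])]),
  (384, 0, 0, [(0, [0], [1, 3]), (0, [1], [2, 4]), (1, [], [0, 5])]),
  (1152, 0, 0, [(0, [0], [1, 3]), (0, [1], [4, 5]), (1, [], [2, 0])]),
  (-1152, 0, 0, [(0, [0], [1, 4]), (0, [1], [0, 3]), (1, [], [2, 5])]),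
  (-2304, 0, 0, [(0, [0], [1, 4]), (0, [1], [0, 5]), (1, [], [2, 3])]),
  (-1152, 0, 0, [(0, [0], [1, 4]), (0, [1], [0, 2]), (1, [], [3, 5])]),
  (-768, 0, 0, [(0, [0], [1, 4]), (0, [1], [2, 3]), (1, [], [0, 5])]),
  (-1152, 0, 0, [(0, [0], [1, 4]), (0, [1], [2, 5]), (1, [], [0, 3])]),
  (-1152, 0, 0, [(0, [0], [1, 4]), (0, [1], [3, 5]), (1, [], [0, 2])]),
  (-768, 0, 0, [(0, [0], [2, 3]), (0, [1], [0, 5]), (1, [], [1, 4])]),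
  (768, 0, 0, [(0, [0], [2, 3]), (0, [1], [0, 1]), (1, [], [5, 4])]),
  (-768, 0, 0, [(0, [0], [2, 3]), (0, [1], [1, 4]), (1, [], [0, 5])]),
  (768, 0, 0, [(0, [0], [2, 3]), (0, [1], [4, 5]), (1, [], [1, 0])]),
  (-1152, 0, 0, [(0, [0], [2, 4]), (0, [1], [0, 5]), (1, [], [1, 3])]),
  (1152, 0, 0, [(0, [0], [2, 4]), (0, [1], [0, 1]), (1, [], [3, 5])]),
  (384, 0, 0, [(0, [0], [2, 4]), (0, [1], [3, 1]), (1, [], [0, 5])]),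
  (-384, 0, 0, [(0, [0], [2, 4]), (0, [1], [3, 5]), (1, [], [0, 1])]),
  (1152, 0, 0, [(0, [0], [2, 5]), (0, [1], [0, 1]), (1, [], [3, 4])]),
  (-1152, 0, 0, [(0, [0], [2, 5]), (0, [1], [1, 4]), (1, [], [0, 3])]),
  (-384, 0, 0, [(0, [0], [2, 5]), (0, [1], [3, 4]), (1, [], [0, 1])]),
  (384, 0, 0, [(0, [0], [2, 5]), (0, [1], [3, 0]), (1, [], [1, 4])]),
  (-1152, 0, 0, [(0, [0], [3, 4]), (0, [1], [0, 5]), (1, [], [1, 2])]),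
  (1152, 0, 0, [(0, [0], [3, 4]), (0, [1], [0, 1]), (1, [], [2, 5])]),
  (384, 0, 0, [(0, [0], [3, 4]), (0, [1], [2, 1]), (1, [], [0, 5])]),
  (-384, 0, 0, [(0, [0], [3, 4]), (0, [1], [2, 5]), (1, [], [0, 1])]),
  (1152, 0, 0, [(0, [0], [3, 5]), (0, [1], [0, 1]), (1, [], [2, 4])]),
  (-1152, 0, 0, [(0, [0], [3, 5]), (0, [1], [1, 4]), (1, [], [0, 2])]),
  (-384, 0, 0, [(0, [0], [3, 5]), (0, [1], [2, 4]), (1, [], [0, 1])]),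
  (384, 0, 0, [(0, [0], [3, 5]), (0, [1], [2, 0]), (1, [], [1, 4])]),
  (1152, 0, 0, [(0, [0], [4, 5]), (0, [1], [0, 2]), (1, [], [1, 3])]),
  (1152, 0, 0, [(0, [0], [4, 5]), (0, [1], [0, 3]), (1, [], [1, 2])]),
  (2304, 0, 0, [(0, [0], [4, 5]), (0, [1], [0, 1]), (1, [], [2, 3])]),
  (1152, 0, 0, [(0, [0], [4, 5]), (0, [1], [1, 2]), (1, [], [0, 3])]),
  (1152, 0, 0, [(0, [0], [4, 5]), (0, [1], [1, 3]), (1, [], [0, 2])]),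
  (768, 0, 0, [(0, [0], [4, 5]), (0, [1], [2, 3]), (1, [], [0, 1])])]

def z54_1 : Cov := [(0, 0, 0, [(0, [0], [0, 2]), (0, [1], [1, 5]), (1, [], [3, 4])]),
  (0, 0, 0, [(0, [0], [0, 2]), (0, [1], [3, 4]), (1, [], [1, 5])]),
  (0, 0, 0, [(0, [0], [0, 3]), (0, [1], [1, 5]), (1, [], [2, 4])]),
  (0, 0, 0, [(0, [0], [0, 3]), (0, [1], [2, 4]), (1, [], [1, 5])]),
  (0, 0, 0, [(0, [0], [0, 4]), (0, [1], [1, 3]), (1, [], [2, 5])]),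
  (0, 0, 0, [(0, [0], [0, 4]), (0, [1], [1, 5]), (1, [], [2, 3])]),
  (0, 0, 0, [(0, [0], [0, 4]), (0, [1], [1, 2]), (1, [], [3, 5])]),
  (0, 0, 0, [(0, [0], [0, 4]), (0, [1], [2, 3]), (1, [], [1, 5])]),
  (0, 0, 0, [(0, [0], [0, 4]), (0, [1], [2, 5]), (1, [], [1, 3])]),
  (0, 0, 0, [(0, [0], [0, 4]), (0, [1], [3, 5]), (1, [], [1, 2])]),
  (0, 0, 0, [(0, [0], [1, 2]), (0, [1], [0, 4]), (1, [], [3, 5])]),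
  (0, 0, 0, [(0, [0], [1, 2]), (0, [1], [3, 5]), (1, [], [0, 4])]),
  (0, 0, 0, [(0, [0], [1, 3]), (0, [1], [0, 4]), (1, [], [2, 5])]),
  (0, 0, 0, [(0, [0], [1, 3]), (0, [1], [2, 5]), (1, [], [0, 4])]),
  (0, 0, 0, [(0, [0], [1, 5]), (0, [1], [0, 3]), (1, [], [2, 4])]),
  (0, 0, 0, [(0, [0], [1, 5]), (0, [1], [0, 4]), (1, [], [2, 3])]),
  (0, 0, 0, [(0, [0], [1, 5]), (0, [1], [0, 2]), (1, [], [3, 4])]),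
  (0, 0, 0, [(0, [0], [1, 5]), (0, [1], [2, 3]), (1, [], [0, 4])]),
  (0, 0, 0, [(0, [0], [1, 5]), (0, [1], [2, 4]), (1, [], [0, 3])]),
  (0, 0, 0, [(0, [0], [1, 5]), (0, [1], [3, 4]), (1, [], [0, 2])]),
  (0, 0, 0, [(0, [0], [2, 3]), (0, [1], [0, 4]), (1, [], [1, 5])]),
  (0, 0, 0, [(0, [0], [2, 3]), (0, [1], [1, 5]), (1, [], [0, 4])]),
  (0, 0, 0, [(0, [0], [2, 4]), (0, [1], [1, 5]), (1, [], [0, 3])]),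
  (0, 0, 0, [(0, [0], [2, 4]), (0, [1], [3, 0]), (1, [], [1, 5])]),
  (0, 0, 0, [(0, [0], [2, 5]), (0, [1], [0, 4]), (1, [], [1, 3])]),
  (0, 0, 0, [(0, [0], [2, 5]), (0, [1], [3, 1]), (1, [], [0, 4])]),
  (0, 0, 0, [(0, [0], [3, 4]), (0, [1], [1, 5]), (1, [], [0, 2])]),
  (0, 0, 0, [(0, [0], [3, 4]), (0, [1], [2, 0]), (1, [], [1, 5])]),
  (0, 0, 0, [(0, [0], [3, 5]), (0, [1], [0, 4]), (1, [], [1, 2])]),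
  (0, 0, 0, [(0, [0], [3, 5]), (0, [1], [2, 1]), (1, [], [0, 4])])]

def w54_1 : List (List Wit) := [[(0, 0, 0, 0, 0), (1, 0, 0, 0, 0), (2, 0, 0, 0, 0), (1, 0, 0, 0, 0), (2, 0, 0, 0, 0), (0, 0, 0, 0, 0), (3, 0, 0, 0, 0), (4, 0, 0, 0, 0), (2, 0, 0, 0, 0), (4, 0, 0, 0, 0), (2, 0, 0, 0, 0), (3, 0, 0, 0, 0), (3, 0, 0, 0, 0), (5, 0, 0, 0, 0), (0, 0, 0, 0, 0), (5, 0, 0, 0, 0), (0, 0, 0, 0, 0), (3, 0, 0, 0, 0), (4, 0, 0, 0, 0), (5, 0, 0, 0, 0), (1, 0, 0, 0, 0), (5, 0, 0, 0, 0), (1, 0, 0, 0, 0), (4, 0, 0, 0, 0), (6, 0, 0, 0, 0), (60, 0, 0, 0, 0), (7, 0, 0, 0, 0), (61, 0, 0, 0, 0), (8, 0, 0, 0, 0), (7, 0, 0, 0, 0), (8, 0, 0, 0, 0), (7, 0, 0, 0, 0), (61, 0, 0, 0, 0), (61, 0, 0, 0, 0), (6, 0, 0, 0, 0), (9, 0, 0, 0, 0), (61, 0, 0, 0, 0), (60, 0, 0, 0, 0), (9, 0, 0, 0, 0), (8, 0, 0,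 0, 0), (10, 0, 0, 0, 0), (62, 0, 0, 0, 0), (11, 0, 0, 0, 0), (63, 0, 0, 0, 0), (12, 0, 0, 0, 0), (11, 0, 0, 0, 0), (12, 0, 0, 0, 0), (11, 0, 0, 0, 0), (63, 0, 0, 0, 0), (63, 0, 0, 0, 0), (10, 0, 0, 0, 0), (13, 0, 0, 0, 0), (63, 0, 0, 0, 0), (62, 0, 0, 0, 0), (13, 0, 0, 0, 0), (12, 0, 0, 0, 0), (64, 0, 0, 0, 0), (65, 0, 0, 0, 0), (66, 0, 0, 0, 0), (65, 0, 0, 0, 0), (67, 0, 0, 0, 0), (68, 0, 0, 0, 0), (66, 0, 0, 0, 0), (68, 0, 0, 0, 0), (66, 0, 0, 0, 0), (67, 0, 0, 0, 0), (67, 0, 0, 0, 0), (69, 0, 0, 0, 0), (64, 0, 0, 0, 0), (69, 0, 0, 0, 0), (64, 0, 0, 0, 0), (67, 0, 0, 0, 0), (65, 0, 0, 0, 0), (69, 0, 0, 0, 0), (65, 0, 0, 0, 0), (68, 0, 0, 0, 0), (14, 0, 0, 0, 0), (15, 0, 0, 0, 0), (16, 0, 0, 0, 0), (15, 0, 0, 0, 0), (16, 0, 0, 0, 0), (14, 0, 0, 0, 0), (17, 0, 0, 0, 0),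 (18, 0, 0, 0, 0), (16, 0, 0, 0, 0), (18, 0, 0, 0, 0), (16, 0, 0, 0, 0), (17, 0, 0, 0, 0), (17, 0, 0, 0, 0), (19, 0, 0, 0, 0), (14, 0, 0, 0, 0), (19, 0, 0, 0, 0), (14, 0, 0, 0, 0), (17, 0, 0, 0, 0), (18, 0, 0, 0, 0), (19, 0, 0, 0, 0), (15, 0, 0, 0, 0), (19, 0, 0, 0, 0), (15, 0, 0, 0, 0), (18, 0, 0, 0, 0), (0, 0, 0, 0, 0), (1, 0, 0, 0, 0), (2, 0, 0, 0, 0), (1, 0, 0, 0, 0), (2, 0, 0, 0, 0), (0, 0, 0, 0, 0), (3, 0, 0, 0, 0), (4, 0, 0, 0, 0), (2, 0, 0, 0, 0), (4, 0, 0, 0, 0), (2, 0, 0, 0, 0), (3, 0, 0, 0, 0), (3, 0, 0, 0, 0), (5, 0, 0, 0, 0), (0, 0, 0, 0, 0), (5, 0, 0, 0, 0), (0, 0, 0, 0, 0), (3, 0, 0, 0, 0), (4, 0, 0, 0, 0), (5, 0, 0, 0, 0), (1, 0, 0, 0, 0), (5, 0, 0, 0, 0), (1, 0, 0, 0, 0), (4, 0, 0, 0, 0), (70, 0, 0, 0, 0), (20, 0, 0, 0, 0), (21, 0, 0, 0, 0), (22, 0, 0, 0,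 0), (71, 0, 0, 0, 0), (21, 0, 0, 0, 0), (71, 0, 0, 0, 0), (21, 0, 0, 0, 0), (22, 0, 0, 0, 0), (70, 0, 0, 0, 0), (23, 0, 0, 0, 0), (22, 0, 0, 0, 0), (71, 0, 0, 0, 0), (20, 0, 0, 0, 0), (23, 0, 0, 0, 0), (71, 0, 0, 0, 0), (72, 0, 0, 0, 0), (24, 0, 0, 0, 0), (25, 0, 0, 0, 0), (26, 0, 0, 0, 0), (73, 0, 0, 0, 0), (25, 0, 0, 0, 0), (73, 0, 0, 0, 0), (25, 0, 0, 0, 0), (26, 0, 0, 0, 0), (72, 0, 0, 0, 0), (27, 0, 0, 0, 0), (26, 0, 0, 0, 0), (73, 0, 0, 0, 0), (24, 0, 0, 0, 0), (27, 0, 0, 0, 0), (73, 0, 0, 0, 0), (28, 0, 0, 0, 0), (29, 0, 0, 0, 0), (30, 0, 0, 0, 0), (29, 0, 0, 0, 0), (30, 0, 0, 0, 0), (28, 0, 0, 0, 0), (31, 0, 0, 0, 0), (32, 0, 0, 0, 0), (30, 0, 0, 0, 0), (32, 0, 0, 0, 0), (30, 0, 0, 0, 0), (31, 0, 0, 0, 0), (31, 0, 0, 0, 0), (33, 0, 0, 0, 0), (28, 0, 0, 0, 0), (33,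 0, 0, 0, 0), (28, 0, 0, 0, 0), (31, 0, 0, 0, 0), (32, 0, 0, 0, 0), (33, 0, 0, 0, 0), (29, 0, 0, 0, 0), (33, 0, 0, 0, 0), (29, 0, 0, 0, 0), (32, 0, 0, 0, 0), (74, 0, 0, 0, 0), (75, 0, 0, 0, 0), (76, 0, 0, 0, 0), (75, 0, 0, 0, 0), (77, 0, 0, 0, 0), (78, 0, 0, 0, 0), (76, 0, 0, 0, 0), (78, 0, 0, 0, 0), (76, 0, 0, 0, 0), (77, 0, 0, 0, 0), (77, 0, 0, 0, 0), (79, 0, 0, 0, 0), (74, 0, 0, 0, 0), (79, 0, 0, 0, 0), (74, 0, 0, 0, 0), (77, 0, 0, 0, 0), (75, 0, 0, 0, 0), (79, 0, 0, 0, 0), (75, 0, 0, 0, 0), (78, 0, 0, 0, 0), (6, 0, 0, 0, 0), (60, 0, 0, 0, 0), (60, 0, 0, 0, 0), (61, 0, 0, 0, 0), (8, 0, 0, 0, 0), (7, 0, 0, 0, 0), (8, 0, 0, 0, 0), (7, 0, 0, 0, 0), (61, 0, 0, 0, 0), (9, 0, 0, 0, 0), (6, 0, 0, 0, 0), (9, 0, 0, 0, 0), (6, 0, 0, 0, 0), (60, 0, 0, 0, 0), (9, 0, 0, 0, 0), (60,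 0, 0, 0, 0), (70, 0, 0, 0, 0), (20, 0, 0, 0, 0), (70, 0, 0, 0, 0), (22, 0, 0, 0, 0), (71, 0, 0, 0, 0), (21, 0, 0, 0, 0), (71, 0, 0, 0, 0), (21, 0, 0, 0, 0), (22, 0, 0, 0, 0), (70, 0, 0, 0, 0), (23, 0, 0, 0, 0), (70, 0, 0, 0, 0), (23, 0, 0, 0, 0), (20, 0, 0, 0, 0), (23, 0, 0, 0, 0), (20, 0, 0, 0, 0), (80, 0, 0, 0, 0), (34, 0, 0, 0, 0), (35, 0, 0, 0, 0), (80, 0, 0, 0, 0), (36, 0, 0, 0, 0), (81, 0, 0, 0, 0), (35, 0, 0, 0, 0), (81, 0, 0, 0, 0), (80, 0, 0, 0, 0), (37, 0, 0, 0, 0), (80, 0, 0, 0, 0), (36, 0, 0, 0, 0), (81, 0, 0, 0, 0), (37, 0, 0, 0, 0), (34, 0, 0, 0, 0), (81, 0, 0, 0, 0), (38, 0, 0, 0, 0), (39, 0, 0, 0, 0), (38, 0, 0, 0, 0), (39, 0, 0, 0, 0), (82, 0, 0, 0, 0), (39, 0, 0, 0, 0), (82, 0, 0, 0, 0), (40, 0, 0, 0, 0), (41, 0, 0, 0, 0), (83, 0, 0, 0, 0), (41, 0, 0,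 0, 0), (83, 0, 0, 0, 0), (40, 0, 0, 0, 0), (82, 0, 0, 0, 0), (38, 0, 0, 0, 0), (82, 0, 0, 0, 0), (84, 0, 0, 0, 0), (42, 0, 0, 0, 0), (84, 0, 0, 0, 0), (43, 0, 0, 0, 0), (42, 0, 0, 0, 0), (43, 0, 0, 0, 0), (42, 0, 0, 0, 0), (85, 0, 0, 0, 0), (44, 0, 0, 0, 0), (45, 0, 0, 0, 0), (44, 0, 0, 0, 0), (45, 0, 0, 0, 0), (85, 0, 0, 0, 0), (84, 0, 0, 0, 0), (84, 0, 0, 0, 0), (43, 0, 0, 0, 0), (10, 0, 0, 0, 0), (62, 0, 0, 0, 0), (62, 0, 0, 0, 0), (63, 0, 0, 0, 0), (12, 0, 0, 0, 0), (11, 0, 0, 0, 0), (12, 0, 0, 0, 0), (11, 0, 0, 0, 0), (63, 0, 0, 0, 0), (13, 0, 0, 0, 0), (10, 0, 0, 0, 0), (13, 0, 0, 0, 0), (10, 0, 0, 0, 0), (62, 0, 0, 0, 0), (13, 0, 0, 0, 0), (62, 0, 0, 0, 0), (72, 0, 0, 0, 0), (24, 0, 0, 0, 0), (72, 0, 0, 0, 0), (26, 0, 0, 0, 0), (73, 0, 0, 0, 0), (25, 0, 0, 0, 0),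 (73, 0, 0, 0, 0), (25, 0, 0, 0, 0), (26, 0, 0, 0, 0), (72, 0, 0, 0, 0), (27, 0, 0, 0, 0), (72, 0, 0, 0, 0), (27, 0, 0, 0, 0), (24, 0, 0, 0, 0), (27, 0, 0, 0, 0), (24, 0, 0, 0, 0), (80, 0, 0, 0, 0), (34, 0, 0, 0, 0), (35, 0, 0, 0, 0), (80, 0, 0, 0, 0), (36, 0, 0, 0, 0), (81, 0, 0, 0, 0), (35, 0, 0, 0, 0), (81, 0, 0, 0, 0), (80, 0, 0, 0, 0), (37, 0, 0, 0, 0), (80, 0, 0, 0, 0), (36, 0, 0, 0, 0), (81, 0, 0, 0, 0), (37, 0, 0, 0, 0), (34, 0, 0, 0, 0), (81, 0, 0, 0, 0), (46, 0, 0, 0, 0), (47, 0, 0, 0, 0), (46, 0, 0, 0, 0), (47, 0, 0, 0, 0), (86, 0, 0, 0, 0), (47, 0, 0, 0, 0), (86, 0, 0, 0, 0), (48, 0, 0, 0, 0), (49, 0, 0, 0, 0), (87, 0, 0, 0, 0), (49, 0, 0, 0, 0), (87, 0, 0, 0, 0), (48, 0, 0, 0, 0), (86, 0, 0, 0, 0), (46, 0, 0, 0, 0), (86, 0, 0, 0, 0), (88, 0, 0, 0, 0), (50, 0,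 0, 0, 0), (88, 0, 0, 0, 0), (51, 0, 0, 0, 0), (50, 0, 0, 0, 0), (51, 0, 0, 0, 0), (50, 0, 0, 0, 0), (89, 0, 0, 0, 0), (52, 0, 0, 0, 0), (53, 0, 0, 0, 0), (52, 0, 0, 0, 0), (53, 0, 0, 0, 0), (89, 0, 0, 0, 0), (88, 0, 0, 0, 0), (88, 0, 0, 0, 0), (51, 0, 0, 0, 0), (64, 0, 0, 0, 0), (65, 0, 0, 0, 0), (66, 0, 0, 0, 0), (65, 0, 0, 0, 0), (67, 0, 0, 0, 0), (68, 0, 0, 0, 0), (66, 0, 0, 0, 0), (68, 0, 0, 0, 0), (66, 0, 0, 0, 0), (67, 0, 0, 0, 0), (67, 0, 0, 0, 0), (69, 0, 0, 0, 0), (64, 0, 0, 0, 0), (69, 0, 0, 0, 0), (64, 0, 0, 0, 0), (67, 0, 0, 0, 0), (65, 0, 0, 0, 0), (69, 0, 0, 0, 0), (65, 0, 0, 0, 0), (68, 0, 0, 0, 0), (28, 0, 0, 0, 0), (29, 0, 0, 0, 0), (30, 0, 0, 0, 0), (29, 0, 0, 0, 0), (30, 0, 0, 0, 0), (28, 0, 0, 0, 0), (31, 0, 0, 0, 0), (32, 0, 0, 0, 0), (30, 0, 0, 0,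 0), (32, 0, 0, 0, 0), (30, 0, 0, 0, 0), (31, 0, 0, 0, 0), (31, 0, 0, 0, 0), (33, 0, 0, 0, 0), (28, 0, 0, 0, 0), (33, 0, 0, 0, 0), (28, 0, 0, 0, 0), (31, 0, 0, 0, 0), (32, 0, 0, 0, 0), (33, 0, 0, 0, 0), (29, 0, 0, 0, 0), (33, 0, 0, 0, 0), (29, 0, 0, 0, 0), (32, 0, 0, 0, 0), (83, 0, 0, 0, 0), (39, 0, 0, 0, 0), (38, 0, 0, 0, 0), (83, 0, 0, 0, 0), (40, 0, 0, 0, 0), (39, 0, 0, 0, 0), (82, 0, 0, 0, 0), (40, 0, 0, 0, 0), (41, 0, 0, 0, 0), (83, 0, 0, 0, 0), (41, 0, 0, 0, 0), (83, 0, 0, 0, 0), (40, 0, 0, 0, 0), (41, 0, 0, 0, 0), (38, 0, 0, 0, 0), (82, 0, 0, 0, 0), (87, 0, 0, 0, 0), (47, 0, 0, 0, 0), (46, 0, 0, 0, 0), (87, 0, 0, 0, 0), (48, 0, 0, 0, 0), (47, 0, 0, 0, 0), (86, 0, 0, 0, 0), (48, 0, 0, 0, 0), (49, 0, 0, 0, 0), (87, 0, 0, 0, 0), (49, 0, 0, 0, 0), (87, 0, 0, 0, 0), (48,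 0, 0, 0, 0), (49, 0, 0, 0, 0), (46, 0, 0, 0, 0), (86, 0, 0, 0, 0), (54, 0, 0, 0, 0), (55, 0, 0, 0, 0), (56, 0, 0, 0, 0), (55, 0, 0, 0, 0), (56, 0, 0, 0, 0), (54, 0, 0, 0, 0), (57, 0, 0, 0, 0), (58, 0, 0, 0, 0), (56, 0, 0, 0, 0), (58, 0, 0, 0, 0), (56, 0, 0, 0, 0), (57, 0, 0, 0, 0), (57, 0, 0, 0, 0), (59, 0, 0, 0, 0), (54, 0, 0, 0, 0), (59, 0, 0, 0, 0), (54, 0, 0, 0, 0), (57, 0, 0, 0, 0), (58, 0, 0, 0, 0), (59, 0, 0, 0, 0), (55, 0, 0, 0, 0), (59, 0, 0, 0, 0), (55, 0, 0, 0, 0), (58, 0, 0, 0, 0), (14, 0, 0, 0, 0), (15, 0, 0, 0, 0), (16, 0, 0, 0, 0), (15, 0, 0, 0, 0), (16, 0, 0, 0, 0), (14, 0, 0, 0, 0), (17, 0, 0, 0, 0), (18, 0, 0, 0, 0), (16, 0, 0, 0, 0), (18, 0, 0, 0, 0), (16, 0, 0, 0, 0), (17, 0, 0, 0, 0), (17, 0, 0, 0, 0), (19, 0, 0, 0, 0), (14, 0, 0, 0, 0), (19, 0, 0,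 0, 0), (14, 0, 0, 0, 0), (17, 0, 0, 0, 0), (18, 0, 0, 0, 0), (19, 0, 0, 0, 0), (15, 0, 0, 0, 0), (19, 0, 0, 0, 0), (15, 0, 0, 0, 0), (18, 0, 0, 0, 0), (74, 0, 0, 0, 0), (75, 0, 0, 0, 0), (76, 0, 0, 0, 0), (75, 0, 0, 0, 0), (77, 0, 0, 0, 0), (78, 0, 0, 0, 0), (76, 0, 0, 0, 0), (78, 0, 0, 0, 0), (76, 0, 0, 0, 0), (77, 0, 0, 0, 0), (77, 0, 0, 0, 0), (79, 0, 0, 0, 0), (74, 0, 0, 0, 0), (79, 0, 0, 0, 0), (74, 0, 0, 0, 0), (77, 0, 0, 0, 0), (75, 0, 0, 0, 0), (79, 0, 0, 0, 0), (75, 0, 0, 0, 0), (78, 0, 0, 0, 0), (45, 0, 0, 0, 0), (42, 0, 0, 0, 0), (84, 0, 0, 0, 0), (85, 0, 0, 0, 0), (42, 0, 0, 0, 0), (43, 0, 0, 0, 0), (85, 0, 0, 0, 0), (85, 0, 0, 0, 0), (44, 0, 0, 0, 0), (45, 0, 0, 0, 0), (44, 0, 0, 0, 0), (45, 0, 0, 0, 0), (85, 0, 0, 0, 0), (44, 0, 0, 0, 0), (84, 0, 0, 0, 0),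 (43, 0, 0, 0, 0), (53, 0, 0, 0, 0), (50, 0, 0, 0, 0), (88, 0, 0, 0, 0), (89, 0, 0, 0, 0), (50, 0, 0, 0, 0), (51, 0, 0, 0, 0), (89, 0, 0, 0, 0), (89, 0, 0, 0, 0), (52, 0, 0, 0, 0), (53, 0, 0, 0, 0), (52, 0, 0, 0, 0), (53, 0, 0, 0, 0), (89, 0, 0, 0, 0), (52, 0, 0, 0, 0), (88, 0, 0, 0, 0), (51, 0, 0, 0, 0), (54, 0, 0, 0, 0), (55, 0, 0, 0, 0), (56, 0, 0, 0, 0), (55, 0, 0, 0, 0), (56, 0, 0, 0, 0), (54, 0, 0, 0, 0), (57, 0, 0, 0, 0), (58, 0, 0, 0, 0), (56, 0, 0, 0, 0), (58, 0, 0, 0, 0), (56, 0, 0, 0, 0), (57, 0, 0, 0, 0), (57, 0, 0, 0, 0), (59, 0, 0, 0, 0), (54, 0, 0, 0, 0), (59, 0, 0, 0, 0), (54, 0, 0, 0, 0), (57, 0, 0, 0, 0), (58, 0, 0, 0, 0), (59, 0, 0, 0, 0), (55, 0, 0, 0, 0), (59, 0, 0, 0, 0), (55, 0, 0, 0, 0), (58, 0, 0, 0, 0)],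
  [(39, 0, 0, 0, 0), (42, 0, 0, 0, 0), (35, 0, 0, 0, 0), (42, 0, 0, 0, 0), (35, 0, 0, 0, 0), (39, 0, 0, 0, 0), (47, 0, 0, 0, 0), (50, 0, 0, 0, 0), (35, 0, 0, 0, 0), (50, 0, 0, 0, 0), (35, 0, 0, 0, 0), (47, 0, 0, 0, 0), (47, 0, 0, 0, 0), (56, 0, 0, 0, 0), (39, 0, 0, 0, 0), (56, 0, 0, 0, 0), (39, 0, 0, 0, 0), (47, 0, 0, 0, 0), (50, 0, 0, 0, 0), (56, 0, 0, 0, 0), (42, 0, 0, 0, 0), (56, 0, 0, 0, 0), (42, 0, 0, 0, 0), (50, 0, 0, 0, 0), (30, 0, 0, 0, 0), (76, 0, 0, 0, 0), (25, 0, 0, 0, 0), (87, 0, 0, 0, 0), (53, 0, 0, 0, 0), (25, 0, 0, 0, 0), (53, 0, 0, 0, 0), (25, 0, 0, 0, 0), (87, 0, 0, 0, 0), (87, 0, 0, 0, 0), (30, 0, 0, 0, 0), (54, 0, 0, 0, 0), (87, 0, 0, 0, 0), (76, 0, 0, 0, 0), (54, 0, 0, 0, 0), (53, 0, 0, 0, 0), (28, 0, 0, 0, 0), (74, 0, 0, 0, 0), (21, 0, 0, 0, 0), (83,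 0, 0, 0, 0), (45, 0, 0, 0, 0), (21, 0, 0, 0, 0), (45, 0, 0, 0, 0), (21, 0, 0, 0, 0), (83, 0, 0, 0, 0), (83, 0, 0, 0, 0), (28, 0, 0, 0, 0), (55, 0, 0, 0, 0), (83, 0, 0, 0, 0), (74, 0, 0, 0, 0), (55, 0, 0, 0, 0), (45, 0, 0, 0, 0), (72, 0, 0, 0, 0), (75, 0, 0, 0, 0), (70, 0, 0, 0, 0), (75, 0, 0, 0, 0), (80, 0, 0, 0, 0), (84, 0, 0, 0, 0), (70, 0, 0, 0, 0), (84, 0, 0, 0, 0), (70, 0, 0, 0, 0), (80, 0, 0, 0, 0), (80, 0, 0, 0, 0), (88, 0, 0, 0, 0), (72, 0, 0, 0, 0), (88, 0, 0, 0, 0), (72, 0, 0, 0, 0), (80, 0, 0, 0, 0), (75, 0, 0, 0, 0), (88, 0, 0, 0, 0), (75, 0, 0, 0, 0), (84, 0, 0, 0, 0), (24, 0, 0, 0, 0), (29, 0, 0, 0, 0), (20, 0, 0, 0, 0), (29, 0, 0, 0, 0), (20, 0, 0, 0, 0), (24, 0, 0, 0, 0), (34, 0, 0, 0, 0), (38, 0, 0, 0, 0), (20, 0, 0, 0, 0), (38, 0, 0, 0, 0), (20, 0, 0,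 0, 0), (34, 0, 0, 0, 0), (34, 0, 0, 0, 0), (46, 0, 0, 0, 0), (24, 0, 0, 0, 0), (46, 0, 0, 0, 0), (24, 0, 0, 0, 0), (34, 0, 0, 0, 0), (38, 0, 0, 0, 0), (46, 0, 0, 0, 0), (29, 0, 0, 0, 0), (46, 0, 0, 0, 0), (29, 0, 0, 0, 0), (38, 0, 0, 0, 0), (39, 0, 0, 0, 0), (42, 0, 0, 0, 0), (35, 0, 0, 0, 0), (42, 0, 0, 0, 0), (35, 0, 0, 0, 0), (39, 0, 0, 0, 0), (47, 0, 0, 0, 0), (50, 0, 0, 0, 0), (35, 0, 0, 0, 0), (50, 0, 0, 0, 0), (35, 0, 0, 0, 0), (47, 0, 0, 0, 0), (47, 0, 0, 0, 0), (56, 0, 0, 0, 0), (39, 0, 0, 0, 0), (56, 0, 0, 0, 0), (39, 0, 0, 0, 0), (47, 0, 0, 0, 0), (50, 0, 0, 0, 0), (56, 0, 0, 0, 0), (42, 0, 0, 0, 0), (56, 0, 0, 0, 0), (42, 0, 0, 0, 0), (50, 0, 0, 0, 0), (66, 0, 0, 0, 0), (16, 0, 0, 0, 0), (11, 0, 0, 0, 0), (48, 0, 0, 0, 0), (89, 0, 0, 0, 0), (11, 0, 0, 0, 0),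 (89, 0, 0, 0, 0), (11, 0, 0, 0, 0), (48, 0, 0, 0, 0), (66, 0, 0, 0, 0), (57, 0, 0, 0, 0), (48, 0, 0, 0, 0), (89, 0, 0, 0, 0), (16, 0, 0, 0, 0), (57, 0, 0, 0, 0), (89, 0, 0, 0, 0), (64, 0, 0, 0, 0), (14, 0, 0, 0, 0), (7, 0, 0, 0, 0), (40, 0, 0, 0, 0), (85, 0, 0, 0, 0), (7, 0, 0, 0, 0), (85, 0, 0, 0, 0), (7, 0, 0, 0, 0), (40, 0, 0, 0, 0), (64, 0, 0, 0, 0), (58, 0, 0, 0, 0), (40, 0, 0, 0, 0), (85, 0, 0, 0, 0), (14, 0, 0, 0, 0), (58, 0, 0, 0, 0), (85, 0, 0, 0, 0), (10, 0, 0, 0, 0), (15, 0, 0, 0, 0), (6, 0, 0, 0, 0), (15, 0, 0, 0, 0), (6, 0, 0, 0, 0), (10, 0, 0, 0, 0), (36, 0, 0, 0, 0), (43, 0, 0, 0, 0), (6, 0, 0, 0, 0), (43, 0, 0, 0, 0), (6, 0, 0, 0, 0), (36, 0, 0, 0, 0), (36, 0, 0, 0, 0), (51, 0, 0, 0, 0), (10, 0, 0, 0, 0), (51, 0, 0, 0, 0), (10, 0, 0, 0, 0), (36, 0, 0, 0,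 0), (43, 0, 0, 0, 0), (51, 0, 0, 0, 0), (15, 0, 0, 0, 0), (51, 0, 0, 0, 0), (15, 0, 0, 0, 0), (43, 0, 0, 0, 0), (62, 0, 0, 0, 0), (65, 0, 0, 0, 0), (60, 0, 0, 0, 0), (65, 0, 0, 0, 0), (81, 0, 0, 0, 0), (82, 0, 0, 0, 0), (60, 0, 0, 0, 0), (82, 0, 0, 0, 0), (60, 0, 0, 0, 0), (81, 0, 0, 0, 0), (81, 0, 0, 0, 0), (86, 0, 0, 0, 0), (62, 0, 0, 0, 0), (86, 0, 0, 0, 0), (62, 0, 0, 0, 0), (81, 0, 0, 0, 0), (65, 0, 0, 0, 0), (86, 0, 0, 0, 0), (65, 0, 0, 0, 0), (82, 0, 0, 0, 0), (30, 0, 0, 0, 0), (76, 0, 0, 0, 0), (76, 0, 0, 0, 0), (87, 0, 0, 0, 0), (53, 0, 0, 0, 0), (25, 0, 0, 0, 0), (53, 0, 0, 0, 0), (25, 0, 0, 0, 0), (87, 0, 0, 0, 0), (54, 0, 0, 0, 0), (30, 0, 0, 0, 0), (54, 0, 0, 0, 0), (30, 0, 0, 0, 0), (76, 0, 0, 0, 0), (54, 0, 0, 0, 0), (76, 0, 0, 0, 0), (66, 0, 0, 0, 0), (16,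 0, 0, 0, 0), (66, 0, 0, 0, 0), (48, 0, 0, 0, 0), (89, 0, 0, 0, 0), (11, 0, 0, 0, 0), (89, 0, 0, 0, 0), (11, 0, 0, 0, 0), (48, 0, 0, 0, 0), (66, 0, 0, 0, 0), (57, 0, 0, 0, 0), (66, 0, 0, 0, 0), (57, 0, 0, 0, 0), (16, 0, 0, 0, 0), (57, 0, 0, 0, 0), (16, 0, 0, 0, 0), (67, 0, 0, 0, 0), (17, 0, 0, 0, 0), (2, 0, 0, 0, 0), (67, 0, 0, 0, 0), (31, 0, 0, 0, 0), (77, 0, 0, 0, 0), (2, 0, 0, 0, 0), (77, 0, 0, 0, 0), (67, 0, 0, 0, 0), (59, 0, 0, 0, 0), (67, 0, 0, 0, 0), (31, 0, 0, 0, 0), (77, 0, 0, 0, 0), (59, 0, 0, 0, 0), (17, 0, 0, 0, 0), (77, 0, 0, 0, 0), (18, 0, 0, 0, 0), (0, 0, 0, 0, 0), (18, 0, 0, 0, 0), (0, 0, 0, 0, 0), (78, 0, 0, 0, 0), (0, 0, 0, 0, 0), (78, 0, 0, 0, 0), (26, 0, 0, 0, 0), (52, 0, 0, 0, 0), (63, 0, 0, 0, 0), (52, 0, 0, 0, 0), (63, 0, 0, 0, 0), (26, 0, 0, 0, 0),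 (78, 0, 0, 0, 0), (18, 0, 0, 0, 0), (78, 0, 0, 0, 0), (68, 0, 0, 0, 0), (1, 0, 0, 0, 0), (68, 0, 0, 0, 0), (32, 0, 0, 0, 0), (1, 0, 0, 0, 0), (32, 0, 0, 0, 0), (1, 0, 0, 0, 0), (73, 0, 0, 0, 0), (49, 0, 0, 0, 0), (12, 0, 0, 0, 0), (49, 0, 0, 0, 0), (12, 0, 0, 0, 0), (73, 0, 0, 0, 0), (68, 0, 0, 0, 0), (68, 0, 0, 0, 0), (32, 0, 0, 0, 0), (28, 0, 0, 0, 0), (74, 0, 0, 0, 0), (74, 0, 0, 0, 0), (83, 0, 0, 0, 0), (45, 0, 0, 0, 0), (21, 0, 0, 0, 0), (45, 0, 0, 0, 0), (21, 0, 0, 0, 0), (83, 0, 0, 0, 0), (55, 0, 0, 0, 0), (28, 0, 0, 0, 0), (55, 0, 0, 0, 0), (28, 0, 0, 0, 0), (74, 0, 0, 0, 0), (55, 0, 0, 0, 0), (74, 0, 0, 0, 0), (64, 0, 0, 0, 0), (14, 0, 0, 0, 0), (64, 0, 0, 0, 0), (40, 0, 0, 0, 0), (85, 0, 0, 0, 0), (7, 0, 0, 0, 0), (85, 0, 0, 0, 0), (7, 0, 0, 0, 0), (40, 0, 0,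 0, 0), (64, 0, 0, 0, 0), (58, 0, 0, 0, 0), (64, 0, 0, 0, 0), (58, 0, 0, 0, 0), (14, 0, 0, 0, 0), (58, 0, 0, 0, 0), (14, 0, 0, 0, 0), (67, 0, 0, 0, 0), (17, 0, 0, 0, 0), (2, 0, 0, 0, 0), (67, 0, 0, 0, 0), (31, 0, 0, 0, 0), (77, 0, 0, 0, 0), (2, 0, 0, 0, 0), (77, 0, 0, 0, 0), (67, 0, 0, 0, 0), (59, 0, 0, 0, 0), (67, 0, 0, 0, 0), (31, 0, 0, 0, 0), (77, 0, 0, 0, 0), (59, 0, 0, 0, 0), (17, 0, 0, 0, 0), (77, 0, 0, 0, 0), (19, 0, 0, 0, 0), (3, 0, 0, 0, 0), (19, 0, 0, 0, 0), (3, 0, 0, 0, 0), (79, 0, 0, 0, 0), (3, 0, 0, 0, 0), (79, 0, 0, 0, 0), (22, 0, 0, 0, 0), (44, 0, 0, 0, 0), (61, 0, 0, 0, 0), (44, 0, 0, 0, 0), (61, 0, 0, 0, 0), (22, 0, 0, 0, 0), (79, 0, 0, 0, 0), (19, 0, 0, 0, 0), (79, 0, 0, 0, 0), (69, 0, 0, 0, 0), (4, 0, 0, 0, 0), (69, 0, 0, 0, 0), (33, 0, 0, 0, 0), (4, 0,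 0, 0, 0), (33, 0, 0, 0, 0), (4, 0, 0, 0, 0), (71, 0, 0, 0, 0), (41, 0, 0, 0, 0), (8, 0, 0, 0, 0), (41, 0, 0, 0, 0), (8, 0, 0, 0, 0), (71, 0, 0, 0, 0), (69, 0, 0, 0, 0), (69, 0, 0, 0, 0), (33, 0, 0, 0, 0), (72, 0, 0, 0, 0), (75, 0, 0, 0, 0), (70, 0, 0, 0, 0), (75, 0, 0, 0, 0), (80, 0, 0, 0, 0), (84, 0, 0, 0, 0), (70, 0, 0, 0, 0), (84, 0, 0, 0, 0), (70, 0, 0, 0, 0), (80, 0, 0, 0, 0), (80, 0, 0, 0, 0), (88, 0, 0, 0, 0), (72, 0, 0, 0, 0), (88, 0, 0, 0, 0), (72, 0, 0, 0, 0), (80, 0, 0, 0, 0), (75, 0, 0, 0, 0), (88, 0, 0, 0, 0), (75, 0, 0, 0, 0), (84, 0, 0, 0, 0), (10, 0, 0, 0, 0), (15, 0, 0, 0, 0), (6, 0, 0, 0, 0), (15, 0, 0, 0, 0), (6, 0, 0, 0, 0), (10, 0, 0, 0, 0), (36, 0, 0, 0, 0), (43, 0, 0, 0, 0), (6, 0, 0, 0, 0), (43, 0, 0, 0, 0), (6, 0, 0, 0, 0), (36, 0, 0, 0, 0), (36,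 0, 0, 0, 0), (51, 0, 0, 0, 0), (10, 0, 0, 0, 0), (51, 0, 0, 0, 0), (10, 0, 0, 0, 0), (36, 0, 0, 0, 0), (43, 0, 0, 0, 0), (51, 0, 0, 0, 0), (15, 0, 0, 0, 0), (51, 0, 0, 0, 0), (15, 0, 0, 0, 0), (43, 0, 0, 0, 0), (63, 0, 0, 0, 0), (0, 0, 0, 0, 0), (18, 0, 0, 0, 0), (63, 0, 0, 0, 0), (26, 0, 0, 0, 0), (0, 0, 0, 0, 0), (78, 0, 0, 0, 0), (26, 0, 0, 0, 0), (52, 0, 0, 0, 0), (63, 0, 0, 0, 0), (52, 0, 0, 0, 0), (63, 0, 0, 0, 0), (26, 0, 0, 0, 0), (52, 0, 0, 0, 0), (18, 0, 0, 0, 0), (78, 0, 0, 0, 0), (61, 0, 0, 0, 0), (3, 0, 0, 0, 0), (19, 0, 0, 0, 0), (61, 0, 0, 0, 0), (22, 0, 0, 0, 0), (3, 0, 0, 0, 0), (79, 0, 0, 0, 0), (22, 0, 0, 0, 0), (44, 0, 0, 0, 0), (61, 0, 0, 0, 0), (44, 0, 0, 0, 0), (61, 0, 0, 0, 0), (22, 0, 0, 0, 0), (44, 0, 0, 0, 0), (19, 0, 0, 0, 0), (79, 0, 0, 0, 0),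 (9, 0, 0, 0, 0), (13, 0, 0, 0, 0), (5, 0, 0, 0, 0), (13, 0, 0, 0, 0), (5, 0, 0, 0, 0), (9, 0, 0, 0, 0), (23, 0, 0, 0, 0), (27, 0, 0, 0, 0), (5, 0, 0, 0, 0), (27, 0, 0, 0, 0), (5, 0, 0, 0, 0), (23, 0, 0, 0, 0), (23, 0, 0, 0, 0), (37, 0, 0, 0, 0), (9, 0, 0, 0, 0), (37, 0, 0, 0, 0), (9, 0, 0, 0, 0), (23, 0, 0, 0, 0), (27, 0, 0, 0, 0), (37, 0, 0, 0, 0), (13, 0, 0, 0, 0), (37, 0, 0, 0, 0), (13, 0, 0, 0, 0), (27, 0, 0, 0, 0), (24, 0, 0, 0, 0), (29, 0, 0, 0, 0), (20, 0, 0, 0, 0), (29, 0, 0, 0, 0), (20, 0, 0, 0, 0), (24, 0, 0, 0, 0), (34, 0, 0, 0, 0), (38, 0, 0, 0, 0), (20, 0, 0, 0, 0), (38, 0, 0, 0, 0), (20, 0, 0, 0, 0), (34, 0, 0, 0, 0), (34, 0, 0, 0, 0), (46, 0, 0, 0, 0), (24, 0, 0, 0, 0), (46, 0, 0, 0, 0), (24, 0, 0, 0, 0), (34, 0, 0, 0, 0), (38, 0, 0, 0, 0), (46, 0, 0, 0,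 0), (29, 0, 0, 0, 0), (46, 0, 0, 0, 0), (29, 0, 0, 0, 0), (38, 0, 0, 0, 0), (62, 0, 0, 0, 0), (65, 0, 0, 0, 0), (60, 0, 0, 0, 0), (65, 0, 0, 0, 0), (81, 0, 0, 0, 0), (82, 0, 0, 0, 0), (60, 0, 0, 0, 0), (82, 0, 0, 0, 0), (60, 0, 0, 0, 0), (81, 0, 0, 0, 0), (81, 0, 0, 0, 0), (86, 0, 0, 0, 0), (62, 0, 0, 0, 0), (86, 0, 0, 0, 0), (62, 0, 0, 0, 0), (81, 0, 0, 0, 0), (65, 0, 0, 0, 0), (86, 0, 0, 0, 0), (65, 0, 0, 0, 0), (82, 0, 0, 0, 0), (12, 0, 0, 0, 0), (1, 0, 0, 0, 0), (68, 0, 0, 0, 0), (73, 0, 0, 0, 0), (1, 0, 0, 0, 0), (32, 0, 0, 0, 0), (73, 0, 0, 0, 0), (73, 0, 0, 0, 0), (49, 0, 0, 0, 0), (12, 0, 0, 0, 0), (49, 0, 0, 0, 0), (12, 0, 0, 0, 0), (73, 0, 0, 0, 0), (49, 0, 0, 0, 0), (68, 0, 0, 0, 0), (32, 0, 0, 0, 0), (8, 0, 0, 0, 0), (4, 0, 0, 0, 0), (69, 0, 0, 0, 0), (71, 0,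 0, 0, 0), (4, 0, 0, 0, 0), (33, 0, 0, 0, 0), (71, 0, 0, 0, 0), (71, 0, 0, 0, 0), (41, 0, 0, 0, 0), (8, 0, 0, 0, 0), (41, 0, 0, 0, 0), (8, 0, 0, 0, 0), (71, 0, 0, 0, 0), (41, 0, 0, 0, 0), (69, 0, 0, 0, 0), (33, 0, 0, 0, 0), (9, 0, 0, 0, 0), (13, 0, 0, 0, 0), (5, 0, 0, 0, 0), (13, 0, 0, 0, 0), (5, 0, 0, 0, 0), (9, 0, 0, 0, 0), (23, 0, 0, 0, 0), (27, 0, 0, 0, 0), (5, 0, 0, 0, 0), (27, 0, 0, 0, 0), (5, 0, 0, 0, 0), (23, 0, 0, 0, 0), (23, 0, 0, 0, 0), (37, 0, 0, 0, 0), (9, 0, 0, 0, 0), (37, 0, 0, 0, 0), (9, 0, 0, 0, 0), (23, 0, 0, 0, 0), (27, 0, 0, 0, 0), (37, 0, 0, 0, 0), (13, 0, 0, 0, 0), (37, 0, 0, 0, 0), (13, 0, 0, 0, 0), (27, 0, 0, 0, 0)]]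

theorem tr54 : trK keys lk54 kl54 = true := by
  decide +kernel

theorem x54_0 : expB 2 6 dg2 dg10 m54_0 (l54_0 ++ z54_0) w54_0 = true := by
  decide +kernel

theorem x54_1 : expB 2 6 dg2 dg10 m54_1 (l54_1 ++ z54_1) w54_1 = true := by
  decide +kernel

theorem t54_0_0 : chkS lk54 2 6 [(1, m54_0)] l54_0
  [(0, 16, 16, 5517840, 5517840), (1, 16, 16, 5517840, 5517840), (1, 16, 16, 4534800, 4534800), (1, 16, 16, 5514000, 5514000), (1, 16, 16, 4530960, 4530960), (2, 16, 16, 5517840, 5517840), (4, 16, 16, 5513985, 5513985), (7, 16, 16, 5456400, 5456400), (8, 1, 1, 2425155, 4261155), (6, 16, 16, 5517600, 5517600), (4, 16, 16, 5517825, 5517825), (7, 16, 16, 5448720, 5391120), (8, 1, 1, 2428995, 4261170), (6, 16, 16, 5509920, 5513520), (8, 16, 16, 2442000, 4400400), (8, 16, 16,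 2438160, 4338960), (6, 16, 16, 2315280, 3294480), (1, 1, 1, 4526130, 4526130), (11, 16, 16, 2380545, 3417345), (11, 16, 16, 2372865, 2372865), (4, 16, 16, 5514000, 5514000), (7, 16, 16, 3490305, 4411905), (8, 1, 1, 5374260, 5248035), (6, 16, 16, 5517570, 5517345), (4, 16, 16, 5517840, 5517840), (7, 16, 16, 3482625, 4346625), (8, 1, 1, 5378100, 5248050), (6, 16, 16, 5509890, 5513265), (8, 16, 16, 5391105, 5448705), (8, 16, 16, 5387265, 5387265), (6, 16, 16, 3298305, 3298305), (1, 1, 1, 5509155, 5505330), (11, 16, 16, 4346640, 3482640), (11, 16, 16, 4338960, 2438160), (3, 16, 16, 5517840, 5517840), (10, 1, 1, 3477570, 4280370), (10, 1, 1, 5443620, 5259570), (9, 1, 1, 3280980, 1070130), (10, 16, 16, 5456400, 5456400), (5, 16, 16, 5517840, 5517840), (7, 1, 1, 5439780, 5259555),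 (6, 1, 1, 2294100, 1066275), (10, 16, 16, 3490320, 4411920), (7, 1, 1, 3473730, 4280355), (5, 16, 16, 4534785, 4534785), (6, 1, 1, 3277140, 1070115), (10, 16, 16, 5448720, 5391120), (5, 16, 16, 5514000, 5514000), (7, 1, 1, 5443620, 5259570), (6, 1, 1, 2297940, 1066290), (10, 16, 16, 3482640, 4346640), (7, 1, 1, 3477570, 4280370), (5, 16, 16, 4530945, 4530945), (6, 1, 1, 3280980, 1070130), (9, 16, 16, 3298320, 3298320), (6, 1, 1, 5513265, 5509890), (6, 1, 1, 5505585, 5509635), (6, 1, 1, 5513235, 5505810), (6, 1, 1, 5505555, 5505555), (2, 1, 1, 5509170, 5509170)]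
  [(0, 3072), (1, -3072), (2, 4608), (3, 3072), (4, 9216), (5, -3072), (6, 12288), (7, -12288), (8, -12288), (9, 4608), (10, -3072), (11, -3072)] = true := by
  decide +kernel

theorem t54_0_1 : chkS lk54 2 6 [(1, m54_0)] l54_1
  [(1, 16, 16, 5517840, 5517840), (1, 16, 16, 4534800, 4534800), (0, 16, 16, 5517840, 5517840), (1, 16, 16, 5514000, 5514000), (1, 16, 16, 4530960, 4530960), (2, 16, 16, 5517840, 5517840), (7, 16, 16, 5456400, 5456400), (4, 16, 16, 5513985, 5513985), (8, 1, 1, 2425155, 4261155), (6, 16, 16, 5517600, 5517600), (7, 16, 16, 5448720, 5391120), (4, 16, 16, 5517825, 5517825), (8, 1, 1, 2428995, 4261170), (6, 16, 16, 5509920, 5513520), (8, 16, 16, 2438160, 4338960), (6, 16, 16, 2315280, 3294480), (8, 16, 16, 2442000, 4400400), (1, 1, 1, 4526130, 4526130),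 (11, 16, 16, 2380545, 3417345), (11, 16, 16, 2372865, 2372865), (7, 16, 16, 3490305, 4411905), (4, 16, 16, 5514000, 5514000), (8, 1, 1, 5374260, 5248035), (6, 16, 16, 5517570, 5517345), (7, 16, 16, 3482625, 4346625), (4, 16, 16, 5517840, 5517840), (8, 1, 1, 5378100, 5248050), (6, 16, 16, 5509890, 5513265), (8, 16, 16, 5387265, 5387265), (6, 16, 16, 3298305, 3298305), (8, 16, 16, 5391105, 5448705), (1, 1, 1, 5509155, 5505330), (11, 16, 16, 4346640, 3482640), (11, 16, 16, 4338960, 2438160), (10, 1, 1, 3477570, 4280370), (3, 16, 16, 5517840, 5517840), (10, 1, 1, 5443620, 5259570), (9, 1, 1, 3280980, 1070130), (5, 16, 16, 5517840, 5517840), (10, 16, 16, 5456400, 5456400), (7, 1, 1, 5439780, 5259555), (6, 1, 1, 2294100, 1066275), (10, 16, 16, 3490320, 4411920), (5, 16, 16, 4534785,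 4534785), (6, 1, 1, 3277140, 1070115), (7, 1, 1, 3473730, 4280355), (5, 16, 16, 5514000, 5514000), (10, 16, 16, 5448720, 5391120), (7, 1, 1, 5443620, 5259570), (6, 1, 1, 2297940, 1066290), (10, 16, 16, 3482640, 4346640), (5, 16, 16, 4530945, 4530945), (6, 1, 1, 3280980, 1070130), (7, 1, 1, 3477570, 4280370), (6, 1, 1, 5513265, 5509890), (6, 1, 1, 5505585, 5509635), (9, 16, 16, 3298320, 3298320), (6, 1, 1, 5513235, 5505810), (6, 1, 1, 5505555, 5505555), (2, 1, 1, 5509170, 5509170)]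
  [(0, 768), (1, 3072), (2, 3072), (3, 768), (4, -1536), (5, -4608), (6, 3072), (7, -3072), (8, -3072), (9, 3072), (10, 3072), (11, -4608)] = true := by
  decide +kernel

theorem t54_1_1 : chkS lk54 2 6 [(1, m54_1)] l54_1
  [(0, 16, 16, 5456400, 5456400), (1, 16, 16, 4411920, 3490320), (1, 16, 16, 5456400, 5456400), (1, 16, 16, 5391120, 5448720), (2, 16, 16, 5456400, 5456400), (1, 16, 16, 4346640, 3482640), (4, 16, 16, 5391105, 5448705), (7, 16, 16, 5517840, 5517840), (6, 16, 16, 5456160, 5456160), (8, 1, 1, 2117955, 3212580), (8, 16, 16, 5448720, 5391120), (8, 16, 16, 5514000, 5514000), (11, 16, 16, 4530945, 4530945), (11, 16, 16, 4400385, 2441985), (6, 16, 16, 2438160, 4338960), (8, 16, 16, 2315280, 3294480), (8, 16, 16, 2380560, 3417360), (11, 16, 16, 2441985, 4400385),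 (1, 1, 1, 4280370, 3477570), (11, 16, 16, 2311425, 2311425), (7, 16, 16, 3428865, 3428865), (7, 16, 16, 5517825, 5517825), (8, 1, 1, 5251380, 5247780), (8, 1, 1, 2117940, 3151140), (6, 16, 16, 3482625, 4346625), (8, 16, 16, 5513985, 5513985), (1, 1, 1, 5324835, 5439810), (11, 16, 16, 4400400, 2442000), (7, 16, 16, 5387265, 5387265), (7, 16, 16, 3298305, 3298305), (4, 16, 16, 5456400, 5456400), (8, 1, 1, 5316660, 5247810), (8, 1, 1, 2183220, 3151170), (6, 16, 16, 5325570, 5447745), (5, 16, 16, 5456400, 5456400), (10, 16, 16, 5517840, 5517840), (7, 1, 1, 5255460, 5255460), (6, 1, 1, 2109780, 1062180), (10, 1, 1, 3231810, 3231810), (3, 16, 16, 5456400, 5456400), (10, 1, 1, 5320740, 5255490), (9, 1, 1, 3219540, 1069890), (10, 16, 16, 3428880, 3428880), (7, 1, 1, 3166500, 3166500),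 (6, 1, 1, 3154260, 1069860), (5, 16, 16, 4411920, 3490320), (5, 16, 16, 5391120, 5448720), (10, 16, 16, 5387280, 5387280), (7, 1, 1, 5320740, 5255490), (6, 1, 1, 2175060, 1062210), (9, 16, 16, 3482640, 4346640), (6, 1, 1, 5259795, 5440020), (2, 1, 1, 5324850, 5443650), (6, 1, 1, 5390385, 5444610), (7, 1, 1, 3231810, 3231810), (5, 16, 16, 4346640, 3482640), (10, 16, 16, 3298320, 3298320), (7, 1, 1, 3231780, 3166530), (5, 16, 16, 4346625, 3482625), (6, 1, 1, 3219540, 1069890)]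
  [(0, 1152), (1, 4608), (2, 768), (3, 1152), (4, -2304), (5, 768), (6, -3072), (7, -4608), (8, -4608), (9, 768), (10, 4608), (11, 768)] = true := by
  decide +kernel

section

variable {κ ι : Type*} [Fintype κ] [Fintype ι] [Inhabited κ] [Inhabited ι]

noncomputable def F54_0 (E : Env κ ι) : (Fin 2 → κ) → (Fin 6 → ι) → ℝ := op2 (P2 κ) (P10 ι) (fB E 2 6 m54_0)

noncomputable def F54_1 (E : Env κ ι) : (Fin 2 → κ) → (Fin 6 → ι) → ℝ := op2 (P2 κ) (P10 ι) (fB E 2 6 m54_1)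

def r54_0_0 : List (ℕ × ℤ) := [(0, 3072), (1, -3072), (2, 4608), (3, 3072), (4, 9216), (5, -3072), (6, 12288), (7, -12288), (8, -12288), (9, 4608), (10, -3072), (11, -3072)]

theorem h54_0_0 (E : Env κ ι) : ip (F54_0 E) (F54_0 E) = dotS (ek E lk54) r54_0_0 :=
  op_entryZ E lk54 2 6 _ _ _ _ (pg2 κ) (pg10 ι) m54_0 m54_0 l54_0 z54_0 w54_0 x54_0 (by decide) _ (chkS_sound E lk54 2 6 _ _ _ _ t54_0_0)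

def r54_0_1 : List (ℕ × ℤ) := [(0, 768), (1, 3072), (2, 3072), (3, 768), (4, -1536), (5, -4608), (6, 3072), (7, -3072), (8, -3072), (9, 3072), (10, 3072), (11, -4608)]

theorem h54_0_1 (E : Env κ ι) : ip (F54_0 E) (F54_1 E) = dotS (ek E lk54) r54_0_1 :=
  op_entryZ E lk54 2 6 _ _ _ _ (pg2 κ) (pg10 ι) m54_0 m54_1 l54_1 z54_1 w54_1 x54_1 (by decide) _ (chkS_sound E lk54 2 6 _ _ _ _ t54_0_1)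

def r54_1_1 : List (ℕ × ℤ) := [(0, 1152), (1, 4608), (2, 768), (3, 1152), (4, -2304), (5, 768), (6, -3072), (7, -4608), (8, -4608), (9, 768), (10, 4608), (11, 768)]

theorem h54_1_1 (E : Env κ ι) : ip (F54_1 E) (F54_1 E) = dotS (ek E lk54) r54_1_1 :=
  op_entryZ E lk54 2 6 _ _ _ _ (pg2 κ) (pg10 ι) m54_1 m54_1 l54_1 z54_1 w54_1 x54_1 (by decide) _ (chkS_sound E lk54 2 6 _ _ _ _ t54_1_1)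

theorem row54_0 (E : Env κ ι) : RowG (ek E lk54) (F54_0 E) [F54_0 E, F54_1 E] [r54_0_0, r54_0_1] :=
  rowG_cons _ _ _ _ _ _ (h54_0_0 E) (rowG_cons _ _ _ _ _ _ (h54_0_1 E) (rowG_nil _ _))

theorem row54_1 (E : Env κ ι) : RowG (ek E lk54) (F54_1 E) [F54_1 E] [r54_1_1] :=
  rowG_cons _ _ _ _ _ _ (h54_1_1 E) (rowG_nil _ _)

def tab54 : List (List (List (ℕ × ℤ))) := [[r54_0_0, r54_0_1], [r54_1_1]]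

theorem tri54 (E : Env κ ι) : TriG (ek E lk54) [F54_0 E, F54_1 E] tab54 := by
  refine triG_cons _ _ _ _ _ (row54_0 E) ?_
  refine triG_cons _ _ _ _ _ (row54_1 E) ?_
  exact triG_nil _

end

def lk55 : List Key := [
  (2, 6, [(0, [0], [0, 1]), (0, [0], [0, 1]), (0, [1], [2, 3]), (0, [1], [2, 3]), (1, [], [4, 5]), (1, [], [4, 5])]),
  (2, 6, [(0, [0], [0, 1]), (0, [0], [0, 1]), (0, [1], [2, 3]), (0, [1], [2, 4]), (1, [], [4, 5]), (1, [], [3, 5])]),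
  (2, 6, [(0, [0], [0, 1]), (0, [0], [0, 1]), (0, [1], [2, 3]), (0, [1], [4, 5]), (1, [], [4, 5]), (1, [], [2, 3])]),
  (2, 6, [(0, [0], [0, 1]), (0, [1], [2, 3]), (0, [0], [2, 3]), (0, [1], [0, 1]), (1, [], [4, 5]), (1, [], [4, 5])]),
  (2, 6, [(0, [0], [0, 1]), (0, [1], [2, 3]), (0, [0], [2, 4]), (0, [1], [0, 5]), (1, [], [4, 5]), (1, [], [1, 3])]),
  (2, 6, [(0, [0], [0, 1]), (0, [0], [2, 0]), (0, [1], [3, 1]), (0, [1], [4, 5]), (1, [], [4, 5]), (1, [], [2, 3])]),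
  (2, 6, [(0, [0], [0, 1]), (0, [0], [2, 0]), (0, [1], [3, 1]), (0, [1], [2, 4]), (1, [], [4, 5]), (1, [], [3, 5])]),
  (2, 6, [(0, [0], [0, 1]), (0, [0], [2, 0]), (0, [1], [3, 1]), (0, [1], [3, 4]), (1, [], [4, 5]), (1, [], [2, 5])]),
  (2, 6, [(0, [0], [0, 1]), (0, [0], [2, 3]), (0, [1], [0, 1]), (0, [1], [4, 5]), (1, [], [4, 5]), (1, [], [2, 3])]),
  (2, 6, [(0, [0], [0, 1]), (0, [0], [2, 3]), (0, [1], [0, 1]), (0, [1], [2, 4]), (1, [], [4, 5]), (1, [], [3, 5])]),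
  (2, 6, [(0, [0], [0, 1]), (0, [0], [2, 1]), (0, [1], [3, 4]), (0, [1], [3, 5]), (1, [], [0, 5]), (1, [], [2, 4])])]

def kl55 : List ℕ := [9, 10, 14, 16, 21, 40, 42, 43, 46, 48, 62]

def m55_0 : Base := (0, 0, [(0, [0], [0, 1]), (0, [1], [2, 3]), (1, [], [4, 5])])

def l55_0 : Cov := [(1536, 0, 0, [(0, [0], [0, 1]), (0, [1], [2, 3]), (1, [], [4, 5])]),
  (1536, 0, 0, [(0, [0], [0, 1]), (0, [1], [2, 4]), (1, [], [3, 5])]),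
  (1536, 0, 0, [(0, [0], [0, 1]), (0, [1], [2, 5]), (1, [], [3, 4])]),
  (1536, 0, 0, [(0, [0], [0, 1]), (0, [1], [3, 4]), (1, [], [2, 5])]),
  (1536, 0, 0, [(0, [0], [0, 1]), (0, [1], [3, 5]), (1, [], [2, 4])]),
  (1536, 0, 0, [(0, [0], [0, 2]), (0, [1], [1, 4]), (1, [], [3, 5])]),
  (-1536, 0, 0, [(0, [0], [0, 2]), (0, [1], [4, 5]), (1, [], [3, 1])]),
  (1536, 0, 0, [(0, [0], [0, 3]), (0, [1], [1, 4]), (1, [], [2, 5])]),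
  (-1536, 0, 0, [(0, [0], [0, 3]), (0, [1], [4, 5]), (1, [], [2, 1])]),
  (-1536, 0, 0, [(0, [0], [0, 5]), (0, [1], [1, 2]), (1, [], [3, 4])]),
  (-1536, 0, 0, [(0, [0], [0, 5]), (0, [1], [1, 3]), (1, [], [2, 4])]),
  (-1536, 0, 0, [(0, [0], [0, 5]), (0, [1], [2, 3]), (1, [], [1, 4])]),
  (-1536, 0, 0, [(0, [0], [0, 5]), (0, [1], [2, 4]), (1, [], [1, 3])]),
  (-1536, 0, 0, [(0, [0], [0, 5]), (0, [1], [3, 4]), (1, [], [1, 2])]),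
  (1536, 0, 0, [(0, [0], [1, 2]), (0, [1], [0, 5]), (1, [], [3, 4])]),
  (-1536, 0, 0, [(0, [0], [1, 2]), (0, [1], [4, 5]), (1, [], [3, 0])]),
  (1536, 0, 0, [(0, [0], [1, 3]), (0, [1], [0, 5]), (1, [], [2, 4])]),
  (-1536, 0, 0, [(0, [0], [1, 3]), (0, [1], [4, 5]), (1, [], [2, 0])]),
  (-1536, 0, 0, [(0, [0], [1, 4]), (0, [1], [0, 2]), (1, [], [3, 5])]),
  (-1536, 0, 0, [(0, [0], [1, 4]), (0, [1], [0, 3]), (1, [], [2, 5])]),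
  (-1536, 0, 0, [(0, [0], [1, 4]), (0, [1], [2, 3]), (1, [], [0, 5])]),
  (-1536, 0, 0, [(0, [0], [1, 4]), (0, [1], [2, 5]), (1, [], [0, 3])]),
  (-1536, 0, 0, [(0, [0], [1, 4]), (0, [1], [3, 5]), (1, [], [0, 2])]),
  (-1536, 0, 0, [(0, [0], [2, 3]), (0, [1], [0, 1]), (1, [], [4, 5])]),
  (1536, 0, 0, [(0, [0], [2, 3]), (0, [1], [0, 5]), (1, [], [1, 4])]),
  (1536, 0, 0, [(0, [0], [2, 3]), (0, [1], [1, 4]), (1, [], [0, 5])]),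
  (-1536, 0, 0, [(0, [0], [2, 3]), (0, [1], [4, 5]), (1, [], [0, 1])]),
  (-1536, 0, 0, [(0, [0], [2, 4]), (0, [1], [0, 1]), (1, [], [5, 3])]),
  (1536, 0, 0, [(0, [0], [2, 4]), (0, [1], [0, 5]), (1, [], [1, 3])]),
  (-1536, 0, 0, [(0, [0], [2, 5]), (0, [1], [0, 1]), (1, [], [4, 3])]),
  (1536, 0, 0, [(0, [0], [2, 5]), (0, [1], [1, 4]), (1, [], [0, 3])]),
  (-1536, 0, 0, [(0, [0], [3, 4]), (0, [1], [0, 1]), (1, [], [5, 2])]),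
  (1536, 0, 0, [(0, [0], [3, 4]), (0, [1], [0, 5]), (1, [], [1, 2])]),
  (-1536, 0, 0, [(0, [0], [3, 5]), (0, [1], [0, 1]), (1, [], [4, 2])]),
  (1536, 0, 0, [(0, [0], [3, 5]), (0, [1], [1, 4]), (1, [], [0, 2])]),
  (1536, 0, 0, [(0, [0], [4, 5]), (0, [1], [0, 2]), (1, [], [1, 3])]),
  (1536, 0, 0, [(0, [0], [4, 5]), (0, [1], [0, 3]), (1, [], [1, 2])]),
  (1536, 0, 0, [(0, [0], [4, 5]), (0, [1], [1, 2]), (1, [], [0, 3])]),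
  (1536, 0, 0, [(0, [0], [4, 5]), (0, [1], [1, 3]), (1, [], [0, 2])]),
  (1536, 0, 0, [(0, [0], [4, 5]), (0, [1], [2, 3]), (1, [], [0, 1])])]

def z55_0 : Cov := [(0, 0, 0, [(0, [0], [0, 1]), (0, [1], [4, 5]), (1, [], [2, 3])]),
  (0, 0, 0, [(0, [0], [0, 2]), (0, [1], [1, 3]), (1, [], [4, 5])]),
  (0, 0, 0, [(0, [0], [0, 2]), (0, [1], [3, 4]), (1, [], [1, 5])]),
  (0, 0, 0, [(0, [0], [0, 2]), (0, [1], [3, 5]), (1, [], [1, 4])]),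
  (0, 0, 0, [(0, [0], [0, 3]), (0, [1], [1, 2]), (1, [], [4, 5])]),
  (0, 0, 0, [(0, [0], [0, 3]), (0, [1], [2, 4]), (1, [], [1, 5])]),
  (0, 0, 0, [(0, [0], [0, 3]), (0, [1], [2, 5]), (1, [], [1, 4])]),
  (0, 0, 0, [(0, [0], [0, 4]), (0, [1], [1, 2]), (1, [], [3, 5])]),
  (0, 0, 0, [(0, [0], [0, 4]), (0, [1], [1, 3]), (1, [], [2, 5])]),
  (0, 0, 0, [(0, [0], [0, 4]), (0, [1], [2, 3]), (1, [], [1, 5])]),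
  (0, 0, 0, [(0, [0], [0, 4]), (0, [1], [2, 5]), (1, [], [1, 3])]),
  (0, 0, 0, [(0, [0], [0, 4]), (0, [1], [3, 5]), (1, [], [1, 2])]),
  (0, 0, 0, [(0, [0], [0, 5]), (0, [1], [1, 4]), (1, [], [2, 3])]),
  (0, 0, 0, [(0, [0], [1, 2]), (0, [1], [0, 3]), (1, [], [4, 5])]),
  (0, 0, 0, [(0, [0], [1, 2]), (0, [1], [3, 4]), (1, [], [0, 5])]),
  (0, 0, 0, [(0, [0], [1, 2]), (0, [1], [3, 5]), (1, [], [0, 4])]),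
  (0, 0, 0, [(0, [0], [1, 3]), (0, [1], [0, 2]), (1, [], [4, 5])]),
  (0, 0, 0, [(0, [0], [1, 3]), (0, [1], [2, 4]), (1, [], [0, 5])]),
  (0, 0, 0, [(0, [0], [1, 3]), (0, [1], [2, 5]), (1, [], [0, 4])]),
  (0, 0, 0, [(0, [0], [1, 4]), (0, [1], [0, 5]), (1, [], [2, 3])]),
  (0, 0, 0, [(0, [0], [1, 5]), (0, [1], [0, 2]), (1, [], [3, 4])]),
  (0, 0, 0, [(0, [0], [1, 5]), (0, [1], [0, 3]), (1, [], [2, 4])]),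
  (0, 0, 0, [(0, [0], [1, 5]), (0, [1], [2, 3]), (1, [], [0, 4])]),
  (0, 0, 0, [(0, [0], [1, 5]), (0, [1], [2, 4]), (1, [], [0, 3])]),
  (0, 0, 0, [(0, [0], [1, 5]), (0, [1], [3, 4]), (1, [], [0, 2])]),
  (0, 0, 0, [(0, [0], [2, 4]), (0, [1], [0, 3]), (1, [], [1, 5])]),
  (0, 0, 0, [(0, [0], [2, 4]), (0, [1], [1, 3]), (1, [], [0, 5])]),
  (0, 0, 0, [(0, [0], [2, 4]), (0, [1], [3, 5]), (1, [], [0, 1])]),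
  (0, 0, 0, [(0, [0], [2, 5]), (0, [1], [0, 3]), (1, [], [1, 4])]),
  (0, 0, 0, [(0, [0], [2, 5]), (0, [1], [1, 3]), (1, [], [0, 4])]),
  (0, 0, 0, [(0, [0], [2, 5]), (0, [1], [3, 4]), (1, [], [0, 1])]),
  (0, 0, 0, [(0, [0], [3, 4]), (0, [1], [0, 2]), (1, [], [1, 5])]),
  (0, 0, 0, [(0, [0], [3, 4]), (0, [1], [1, 2]), (1, [], [0, 5])]),
  (0, 0, 0, [(0, [0], [3, 4]), (0, [1], [2, 5]), (1, [], [0, 1])]),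
  (0, 0, 0, [(0, [0], [3, 5]), (0, [1], [0, 2]), (1, [], [1, 4])]),
  (0, 0, 0, [(0, [0], [3, 5]), (0, [1], [1, 2]), (1, [], [0, 4])]),
  (0, 0, 0, [(0, [0], [3, 5]), (0, [1], [2, 4]), (1, [], [0, 1])]),
  (0, 0, 0, [(0, [0], [4, 5]), (0, [1], [0, 1]), (1, [], [2, 3])]),
  (0, 0, 0, [(0, [1], [0, 4]), (0, [0], [1, 2]), (1, [], [3, 5])]),
  (0, 0, 0, [(0, [1], [0, 4]), (0, [0], [1, 3]), (1, [], [2, 5])]),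
  (0, 0, 0, [(0, [1], [0, 4]), (0, [0], [2, 3]), (1, [], [1, 5])]),
  (0, 0, 0, [(0, [1], [0, 4]), (0, [0], [2, 5]), (1, [], [1, 3])]),
  (0, 0, 0, [(0, [1], [0, 4]), (0, [0], [3, 5]), (1, [], [1, 2])]),
  (0, 0, 0, [(0, [1], [1, 5]), (0, [0], [0, 2]), (1, [], [3, 4])]),
  (0, 0, 0, [(0, [1], [1, 5]), (0, [0], [0, 3]), (1, [], [2, 4])]),
  (0, 0, 0, [(0, [1], [1, 5]), (0, [0], [2, 3]), (1, [], [0, 4])]),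
  (0, 0, 0, [(0, [1], [1, 5]), (0, [0], [2, 4]), (1, [], [0, 3])]),
  (0, 0, 0, [(0, [1], [1, 5]), (0, [0], [3, 4]), (1, [], [0, 2])])]

def w55_0 : List (List Wit) := [[(0, 0, 0, 0, 0), (0, 0, 0, 0, 0), (1, 0, 0, 0, 0), (1, 0, 0, 0, 0), (2, 0, 0, 0, 0), (2, 0, 0, 0, 0), (0, 0, 0, 0, 0), (0, 0, 0, 0, 0), (3, 0, 0, 0, 0), (3, 0, 0, 0, 0), (4, 0, 0, 0, 0), (4, 0, 0, 0, 0), (1, 0, 0, 0, 0), (1, 0, 0, 0, 0), (3, 0, 0, 0, 0), (3, 0, 0, 0, 0), (40, 0, 0, 0, 0), (40, 0, 0, 0, 0), (2, 0, 0, 0, 0), (2, 0, 0, 0, 0), (4, 0, 0, 0, 0), (4, 0, 0, 0, 0), (40, 0, 0, 0, 0), (40, 0, 0, 0, 0), (41, 0, 0, 0, 0), (41, 0, 0, 0, 0), (5, 0, 0, 0, 0), (41, 0, 0, 0, 0), (41, 0, 0, 0, 0), (42, 0, 0, 0, 0), (42, 0, 0, 0, 0), (43, 0, 0, 0, 0), (43, 0, 0, 0, 0), (5, 0, 0, 0, 0), (42, 0, 0, 0, 0), (42,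 0, 0, 0, 0), (6, 0, 0, 0, 0), (43, 0, 0, 0, 0), (43, 0, 0, 0, 0), (6, 0, 0, 0, 0), (44, 0, 0, 0, 0), (44, 0, 0, 0, 0), (7, 0, 0, 0, 0), (44, 0, 0, 0, 0), (44, 0, 0, 0, 0), (45, 0, 0, 0, 0), (45, 0, 0, 0, 0), (46, 0, 0, 0, 0), (46, 0, 0, 0, 0), (7, 0, 0, 0, 0), (45, 0, 0, 0, 0), (45, 0, 0, 0, 0), (8, 0, 0, 0, 0), (46, 0, 0, 0, 0), (46, 0, 0, 0, 0), (8, 0, 0, 0, 0), (47, 0, 0, 0, 0), (47, 0, 0, 0, 0), (48, 0, 0, 0, 0), (48, 0, 0, 0, 0), (47, 0, 0, 0, 0), (47, 0, 0, 0, 0), (49, 0, 0, 0, 0), (49, 0, 0, 0, 0), (50, 0, 0, 0, 0), (50, 0, 0, 0, 0), (48, 0, 0, 0, 0), (48, 0, 0, 0, 0), (49, 0, 0, 0, 0), (49, 0, 0, 0, 0), (51, 0, 0, 0, 0), (51, 0, 0, 0, 0), (50, 0, 0, 0, 0), (50, 0, 0, 0, 0), (51, 0, 0, 0, 0), (51, 0, 0, 0, 0), (9, 0, 0, 0, 0), (9, 0, 0, 0, 0), (10, 0, 0, 0, 0), (10,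 0, 0, 0, 0), (52, 0, 0, 0, 0), (52, 0, 0, 0, 0), (9, 0, 0, 0, 0), (9, 0, 0, 0, 0), (11, 0, 0, 0, 0), (11, 0, 0, 0, 0), (12, 0, 0, 0, 0), (12, 0, 0, 0, 0), (10, 0, 0, 0, 0), (10, 0, 0, 0, 0), (11, 0, 0, 0, 0), (11, 0, 0, 0, 0), (13, 0, 0, 0, 0), (13, 0, 0, 0, 0), (52, 0, 0, 0, 0), (52, 0, 0, 0, 0), (12, 0, 0, 0, 0), (12, 0, 0, 0, 0), (13, 0, 0, 0, 0), (13, 0, 0, 0, 0), (0, 0, 0, 0, 0), (0, 0, 0, 0, 0), (1, 0, 0, 0, 0), (1, 0, 0, 0, 0), (2, 0, 0, 0, 0), (2, 0, 0, 0, 0), (0, 0, 0, 0, 0), (0, 0, 0, 0, 0), (3, 0, 0, 0, 0), (3, 0, 0, 0, 0), (4, 0, 0, 0, 0), (4, 0, 0, 0, 0), (1, 0, 0, 0, 0), (1, 0, 0, 0, 0), (3, 0, 0, 0, 0), (3, 0, 0, 0, 0), (40, 0, 0, 0, 0), (40, 0, 0, 0, 0), (2, 0, 0, 0, 0), (2, 0, 0, 0, 0), (4, 0, 0, 0, 0), (4, 0, 0, 0, 0), (40, 0, 0, 0, 0), (40, 0, 0, 0, 0),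 (53, 0, 0, 0, 0), (53, 0, 0, 0, 0), (14, 0, 0, 0, 0), (53, 0, 0, 0, 0), (53, 0, 0, 0, 0), (54, 0, 0, 0, 0), (54, 0, 0, 0, 0), (55, 0, 0, 0, 0), (55, 0, 0, 0, 0), (54, 0, 0, 0, 0), (54, 0, 0, 0, 0), (15, 0, 0, 0, 0), (14, 0, 0, 0, 0), (55, 0, 0, 0, 0), (55, 0, 0, 0, 0), (15, 0, 0, 0, 0), (56, 0, 0, 0, 0), (56, 0, 0, 0, 0), (16, 0, 0, 0, 0), (56, 0, 0, 0, 0), (56, 0, 0, 0, 0), (57, 0, 0, 0, 0), (57, 0, 0, 0, 0), (58, 0, 0, 0, 0), (58, 0, 0, 0, 0), (57, 0, 0, 0, 0), (57, 0, 0, 0, 0), (17, 0, 0, 0, 0), (16, 0, 0, 0, 0), (58, 0, 0, 0, 0), (58, 0, 0, 0, 0), (17, 0, 0, 0, 0), (18, 0, 0, 0, 0), (18, 0, 0, 0, 0), (19, 0, 0, 0, 0), (19, 0, 0, 0, 0), (59, 0, 0, 0, 0), (59, 0, 0, 0, 0), (18, 0, 0, 0, 0), (18, 0, 0, 0, 0), (20, 0, 0, 0, 0), (20, 0, 0, 0, 0), (21, 0, 0, 0, 0), (21, 0,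 0, 0, 0), (19, 0, 0, 0, 0), (19, 0, 0, 0, 0), (20, 0, 0, 0, 0), (20, 0, 0, 0, 0), (22, 0, 0, 0, 0), (22, 0, 0, 0, 0), (59, 0, 0, 0, 0), (59, 0, 0, 0, 0), (21, 0, 0, 0, 0), (21, 0, 0, 0, 0), (22, 0, 0, 0, 0), (22, 0, 0, 0, 0), (60, 0, 0, 0, 0), (60, 0, 0, 0, 0), (61, 0, 0, 0, 0), (61, 0, 0, 0, 0), (60, 0, 0, 0, 0), (60, 0, 0, 0, 0), (62, 0, 0, 0, 0), (62, 0, 0, 0, 0), (63, 0, 0, 0, 0), (63, 0, 0, 0, 0), (61, 0, 0, 0, 0), (61, 0, 0, 0, 0), (62, 0, 0, 0, 0), (62, 0, 0, 0, 0), (64, 0, 0, 0, 0), (64, 0, 0, 0, 0), (63, 0, 0, 0, 0), (63, 0, 0, 0, 0), (64, 0, 0, 0, 0), (64, 0, 0, 0, 0), (41, 0, 0, 0, 0), (41, 0, 0, 0, 0), (5, 0, 0, 0, 0), (41, 0, 0, 0, 0), (41, 0, 0, 0, 0), (42, 0, 0, 0, 0), (42, 0, 0, 0, 0), (43, 0, 0, 0, 0), (43, 0, 0, 0, 0), (5, 0, 0, 0, 0), (42, 0, 0, 0, 0),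 (42, 0, 0, 0, 0), (6, 0, 0, 0, 0), (43, 0, 0, 0, 0), (43, 0, 0, 0, 0), (6, 0, 0, 0, 0), (53, 0, 0, 0, 0), (53, 0, 0, 0, 0), (14, 0, 0, 0, 0), (53, 0, 0, 0, 0), (53, 0, 0, 0, 0), (54, 0, 0, 0, 0), (54, 0, 0, 0, 0), (55, 0, 0, 0, 0), (55, 0, 0, 0, 0), (54, 0, 0, 0, 0), (54, 0, 0, 0, 0), (15, 0, 0, 0, 0), (14, 0, 0, 0, 0), (55, 0, 0, 0, 0), (55, 0, 0, 0, 0), (15, 0, 0, 0, 0), (23, 0, 0, 0, 0), (23, 0, 0, 0, 0), (24, 0, 0, 0, 0), (24, 0, 0, 0, 0), (23, 0, 0, 0, 0), (23, 0, 0, 0, 0), (25, 0, 0, 0, 0), (25, 0, 0, 0, 0), (25, 0, 0, 0, 0), (25, 0, 0, 0, 0), (26, 0, 0, 0, 0), (26, 0, 0, 0, 0), (24, 0, 0, 0, 0), (24, 0, 0, 0, 0), (26, 0, 0, 0, 0), (26, 0, 0, 0, 0), (27, 0, 0, 0, 0), (65, 0, 0, 0, 0), (65, 0, 0, 0, 0), (28, 0, 0, 0, 0), (27, 0, 0, 0, 0), (66, 0, 0, 0, 0), (66, 0,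 0, 0, 0), (65, 0, 0, 0, 0), (65, 0, 0, 0, 0), (66, 0, 0, 0, 0), (66, 0, 0, 0, 0), (67, 0, 0, 0, 0), (67, 0, 0, 0, 0), (28, 0, 0, 0, 0), (67, 0, 0, 0, 0), (67, 0, 0, 0, 0), (29, 0, 0, 0, 0), (68, 0, 0, 0, 0), (68, 0, 0, 0, 0), (29, 0, 0, 0, 0), (69, 0, 0, 0, 0), (69, 0, 0, 0, 0), (30, 0, 0, 0, 0), (68, 0, 0, 0, 0), (68, 0, 0, 0, 0), (69, 0, 0, 0, 0), (69, 0, 0, 0, 0), (70, 0, 0, 0, 0), (70, 0, 0, 0, 0), (30, 0, 0, 0, 0), (70, 0, 0, 0, 0), (70, 0, 0, 0, 0), (44, 0, 0, 0, 0), (44, 0, 0, 0, 0), (7, 0, 0, 0, 0), (44, 0, 0, 0, 0), (44, 0, 0, 0, 0), (45, 0, 0, 0, 0), (45, 0, 0, 0, 0), (46, 0, 0, 0, 0), (46, 0, 0, 0, 0), (7, 0, 0, 0, 0), (45, 0, 0, 0, 0), (45, 0, 0, 0, 0), (8, 0, 0, 0, 0), (46, 0, 0, 0, 0), (46, 0, 0, 0, 0), (8, 0, 0, 0, 0), (56, 0, 0, 0, 0), (56, 0, 0, 0, 0),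 (16, 0, 0, 0, 0), (56, 0, 0, 0, 0), (56, 0, 0, 0, 0), (57, 0, 0, 0, 0), (57, 0, 0, 0, 0), (58, 0, 0, 0, 0), (58, 0, 0, 0, 0), (57, 0, 0, 0, 0), (57, 0, 0, 0, 0), (17, 0, 0, 0, 0), (16, 0, 0, 0, 0), (58, 0, 0, 0, 0), (58, 0, 0, 0, 0), (17, 0, 0, 0, 0), (23, 0, 0, 0, 0), (23, 0, 0, 0, 0), (24, 0, 0, 0, 0), (24, 0, 0, 0, 0), (23, 0, 0, 0, 0), (23, 0, 0, 0, 0), (25, 0, 0, 0, 0), (25, 0, 0, 0, 0), (25, 0, 0, 0, 0), (25, 0, 0, 0, 0), (26, 0, 0, 0, 0), (26, 0, 0, 0, 0), (24, 0, 0, 0, 0), (24, 0, 0, 0, 0), (26, 0, 0, 0, 0), (26, 0, 0, 0, 0), (31, 0, 0, 0, 0), (71, 0, 0, 0, 0), (71, 0, 0, 0, 0), (32, 0, 0, 0, 0), (31, 0, 0, 0, 0), (72, 0, 0, 0, 0), (72, 0, 0, 0, 0), (71, 0, 0, 0, 0), (71, 0, 0, 0, 0), (72, 0, 0, 0, 0), (72, 0, 0, 0, 0), (73, 0, 0, 0, 0), (73, 0, 0, 0, 0), (32, 0,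 0, 0, 0), (73, 0, 0, 0, 0), (73, 0, 0, 0, 0), (33, 0, 0, 0, 0), (74, 0, 0, 0, 0), (74, 0, 0, 0, 0), (33, 0, 0, 0, 0), (75, 0, 0, 0, 0), (75, 0, 0, 0, 0), (34, 0, 0, 0, 0), (74, 0, 0, 0, 0), (74, 0, 0, 0, 0), (75, 0, 0, 0, 0), (75, 0, 0, 0, 0), (76, 0, 0, 0, 0), (76, 0, 0, 0, 0), (34, 0, 0, 0, 0), (76, 0, 0, 0, 0), (76, 0, 0, 0, 0), (47, 0, 0, 0, 0), (47, 0, 0, 0, 0), (48, 0, 0, 0, 0), (48, 0, 0, 0, 0), (47, 0, 0, 0, 0), (47, 0, 0, 0, 0), (49, 0, 0, 0, 0), (49, 0, 0, 0, 0), (50, 0, 0, 0, 0), (50, 0, 0, 0, 0), (48, 0, 0, 0, 0), (48, 0, 0, 0, 0), (49, 0, 0, 0, 0), (49, 0, 0, 0, 0), (51, 0, 0, 0, 0), (51, 0, 0, 0, 0), (50, 0, 0, 0, 0), (50, 0, 0, 0, 0), (51, 0, 0, 0, 0), (51, 0, 0, 0, 0), (18, 0, 0, 0, 0), (18, 0, 0, 0, 0), (19, 0, 0, 0, 0), (19, 0, 0, 0, 0), (59, 0, 0, 0,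 0), (59, 0, 0, 0, 0), (18, 0, 0, 0, 0), (18, 0, 0, 0, 0), (20, 0, 0, 0, 0), (20, 0, 0, 0, 0), (21, 0, 0, 0, 0), (21, 0, 0, 0, 0), (19, 0, 0, 0, 0), (19, 0, 0, 0, 0), (20, 0, 0, 0, 0), (20, 0, 0, 0, 0), (22, 0, 0, 0, 0), (22, 0, 0, 0, 0), (59, 0, 0, 0, 0), (59, 0, 0, 0, 0), (21, 0, 0, 0, 0), (21, 0, 0, 0, 0), (22, 0, 0, 0, 0), (22, 0, 0, 0, 0), (27, 0, 0, 0, 0), (65, 0, 0, 0, 0), (65, 0, 0, 0, 0), (28, 0, 0, 0, 0), (27, 0, 0, 0, 0), (66, 0, 0, 0, 0), (66, 0, 0, 0, 0), (65, 0, 0, 0, 0), (65, 0, 0, 0, 0), (66, 0, 0, 0, 0), (66, 0, 0, 0, 0), (67, 0, 0, 0, 0), (67, 0, 0, 0, 0), (28, 0, 0, 0, 0), (67, 0, 0, 0, 0), (67, 0, 0, 0, 0), (31, 0, 0, 0, 0), (71, 0, 0, 0, 0), (71, 0, 0, 0, 0), (32, 0, 0, 0, 0), (31, 0, 0, 0, 0), (72, 0, 0, 0, 0), (72, 0, 0, 0, 0), (71, 0, 0, 0, 0), (71,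 0, 0, 0, 0), (72, 0, 0, 0, 0), (72, 0, 0, 0, 0), (73, 0, 0, 0, 0), (73, 0, 0, 0, 0), (32, 0, 0, 0, 0), (73, 0, 0, 0, 0), (73, 0, 0, 0, 0), (77, 0, 0, 0, 0), (77, 0, 0, 0, 0), (35, 0, 0, 0, 0), (35, 0, 0, 0, 0), (36, 0, 0, 0, 0), (36, 0, 0, 0, 0), (77, 0, 0, 0, 0), (77, 0, 0, 0, 0), (37, 0, 0, 0, 0), (37, 0, 0, 0, 0), (38, 0, 0, 0, 0), (38, 0, 0, 0, 0), (35, 0, 0, 0, 0), (35, 0, 0, 0, 0), (37, 0, 0, 0, 0), (37, 0, 0, 0, 0), (39, 0, 0, 0, 0), (39, 0, 0, 0, 0), (36, 0, 0, 0, 0), (36, 0, 0, 0, 0), (38, 0, 0, 0, 0), (38, 0, 0, 0, 0), (39, 0, 0, 0, 0), (39, 0, 0, 0, 0), (9, 0, 0, 0, 0), (9, 0, 0, 0, 0), (10, 0, 0, 0, 0), (10, 0, 0, 0, 0), (52, 0, 0, 0, 0), (52, 0, 0, 0, 0), (9, 0, 0, 0, 0), (9, 0, 0, 0, 0), (11, 0, 0, 0, 0), (11, 0, 0, 0, 0), (12, 0, 0, 0, 0), (12, 0, 0, 0, 0),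 (10, 0, 0, 0, 0), (10, 0, 0, 0, 0), (11, 0, 0, 0, 0), (11, 0, 0, 0, 0), (13, 0, 0, 0, 0), (13, 0, 0, 0, 0), (52, 0, 0, 0, 0), (52, 0, 0, 0, 0), (12, 0, 0, 0, 0), (12, 0, 0, 0, 0), (13, 0, 0, 0, 0), (13, 0, 0, 0, 0), (60, 0, 0, 0, 0), (60, 0, 0, 0, 0), (61, 0, 0, 0, 0), (61, 0, 0, 0, 0), (60, 0, 0, 0, 0), (60, 0, 0, 0, 0), (62, 0, 0, 0, 0), (62, 0, 0, 0, 0), (63, 0, 0, 0, 0), (63, 0, 0, 0, 0), (61, 0, 0, 0, 0), (61, 0, 0, 0, 0), (62, 0, 0, 0, 0), (62, 0, 0, 0, 0), (64, 0, 0, 0, 0), (64, 0, 0, 0, 0), (63, 0, 0, 0, 0), (63, 0, 0, 0, 0), (64, 0, 0, 0, 0), (64, 0, 0, 0, 0), (29, 0, 0, 0, 0), (68, 0, 0, 0, 0), (68, 0, 0, 0, 0), (29, 0, 0, 0, 0), (69, 0, 0, 0, 0), (69, 0, 0, 0, 0), (30, 0, 0, 0, 0), (68, 0, 0, 0, 0), (68, 0, 0, 0, 0), (69, 0, 0, 0, 0), (69, 0, 0, 0, 0), (70, 0,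 0, 0, 0), (70, 0, 0, 0, 0), (30, 0, 0, 0, 0), (70, 0, 0, 0, 0), (70, 0, 0, 0, 0), (33, 0, 0, 0, 0), (74, 0, 0, 0, 0), (74, 0, 0, 0, 0), (33, 0, 0, 0, 0), (75, 0, 0, 0, 0), (75, 0, 0, 0, 0), (34, 0, 0, 0, 0), (74, 0, 0, 0, 0), (74, 0, 0, 0, 0), (75, 0, 0, 0, 0), (75, 0, 0, 0, 0), (76, 0, 0, 0, 0), (76, 0, 0, 0, 0), (34, 0, 0, 0, 0), (76, 0, 0, 0, 0), (76, 0, 0, 0, 0), (77, 0, 0, 0, 0), (77, 0, 0, 0, 0), (35, 0, 0, 0, 0), (35, 0, 0, 0, 0), (36, 0, 0, 0, 0), (36, 0, 0, 0, 0), (77, 0, 0, 0, 0), (77, 0, 0, 0, 0), (37, 0, 0, 0, 0), (37, 0, 0, 0, 0), (38, 0, 0, 0, 0), (38, 0, 0, 0, 0), (35, 0, 0, 0, 0), (35, 0, 0, 0, 0), (37, 0, 0, 0, 0), (37, 0, 0, 0, 0), (39, 0, 0, 0, 0), (39, 0, 0, 0, 0), (36, 0, 0, 0, 0), (36, 0, 0, 0, 0), (38, 0, 0, 0, 0), (38, 0, 0, 0, 0), (39, 0, 0, 0,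 0), (39, 0, 0, 0, 0)],
  [(23, 0, 0, 0, 0), (23, 0, 0, 0, 0), (27, 0, 0, 0, 0), (27, 0, 0, 0, 0), (29, 0, 0, 0, 0), (29, 0, 0, 0, 0), (23, 0, 0, 0, 0), (23, 0, 0, 0, 0), (31, 0, 0, 0, 0), (31, 0, 0, 0, 0), (33, 0, 0, 0, 0), (33, 0, 0, 0, 0), (27, 0, 0, 0, 0), (27, 0, 0, 0, 0), (31, 0, 0, 0, 0), (31, 0, 0, 0, 0), (77, 0, 0, 0, 0), (77, 0, 0, 0, 0), (29, 0, 0, 0, 0), (29, 0, 0, 0, 0), (33, 0, 0, 0, 0), (33, 0, 0, 0, 0), (77, 0, 0, 0, 0), (77, 0, 0, 0, 0), (56, 0, 0, 0, 0), (56, 0, 0, 0, 0), (18, 0, 0, 0, 0), (56, 0, 0, 0, 0), (56, 0, 0, 0, 0), (71, 0, 0, 0, 0), (71, 0, 0, 0, 0), (74, 0, 0, 0, 0), (74, 0, 0, 0, 0), (18, 0, 0, 0, 0), (71, 0, 0, 0, 0), (71, 0, 0, 0, 0), (35, 0, 0, 0, 0), (74, 0, 0, 0, 0), (74, 0, 0, 0, 0), (35, 0, 0, 0, 0), (53, 0, 0, 0, 0), (53, 0, 0, 0, 0),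 (19, 0, 0, 0, 0), (53, 0, 0, 0, 0), (53, 0, 0, 0, 0), (65, 0, 0, 0, 0), (65, 0, 0, 0, 0), (68, 0, 0, 0, 0), (68, 0, 0, 0, 0), (19, 0, 0, 0, 0), (65, 0, 0, 0, 0), (65, 0, 0, 0, 0), (36, 0, 0, 0, 0), (68, 0, 0, 0, 0), (68, 0, 0, 0, 0), (36, 0, 0, 0, 0), (78, 0, 0, 0, 0), (78, 0, 0, 0, 0), (79, 0, 0, 0, 0), (79, 0, 0, 0, 0), (78, 0, 0, 0, 0), (78, 0, 0, 0, 0), (80, 0, 0, 0, 0), (80, 0, 0, 0, 0), (81, 0, 0, 0, 0), (81, 0, 0, 0, 0), (79, 0, 0, 0, 0), (79, 0, 0, 0, 0), (80, 0, 0, 0, 0), (80, 0, 0, 0, 0), (82, 0, 0, 0, 0), (82, 0, 0, 0, 0), (81, 0, 0, 0, 0), (81, 0, 0, 0, 0), (82, 0, 0, 0, 0), (82, 0, 0, 0, 0), (14, 0, 0, 0, 0), (14, 0, 0, 0, 0), (16, 0, 0, 0, 0), (16, 0, 0, 0, 0), (59, 0, 0, 0, 0), (59, 0, 0, 0, 0), (14, 0, 0, 0, 0), (14, 0, 0, 0, 0), (24, 0, 0, 0, 0), (24, 0,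 0, 0, 0), (28, 0, 0, 0, 0), (28, 0, 0, 0, 0), (16, 0, 0, 0, 0), (16, 0, 0, 0, 0), (24, 0, 0, 0, 0), (24, 0, 0, 0, 0), (32, 0, 0, 0, 0), (32, 0, 0, 0, 0), (59, 0, 0, 0, 0), (59, 0, 0, 0, 0), (28, 0, 0, 0, 0), (28, 0, 0, 0, 0), (32, 0, 0, 0, 0), (32, 0, 0, 0, 0), (23, 0, 0, 0, 0), (23, 0, 0, 0, 0), (27, 0, 0, 0, 0), (27, 0, 0, 0, 0), (29, 0, 0, 0, 0), (29, 0, 0, 0, 0), (23, 0, 0, 0, 0), (23, 0, 0, 0, 0), (31, 0, 0, 0, 0), (31, 0, 0, 0, 0), (33, 0, 0, 0, 0), (33, 0, 0, 0, 0), (27, 0, 0, 0, 0), (27, 0, 0, 0, 0), (31, 0, 0, 0, 0), (31, 0, 0, 0, 0), (77, 0, 0, 0, 0), (77, 0, 0, 0, 0), (29, 0, 0, 0, 0), (29, 0, 0, 0, 0), (33, 0, 0, 0, 0), (33, 0, 0, 0, 0), (77, 0, 0, 0, 0), (77, 0, 0, 0, 0), (44, 0, 0, 0, 0), (44, 0, 0, 0, 0), (9, 0, 0, 0, 0), (44, 0, 0, 0, 0), (44, 0, 0, 0, 0),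 (72, 0, 0, 0, 0), (72, 0, 0, 0, 0), (75, 0, 0, 0, 0), (75, 0, 0, 0, 0), (72, 0, 0, 0, 0), (72, 0, 0, 0, 0), (37, 0, 0, 0, 0), (9, 0, 0, 0, 0), (75, 0, 0, 0, 0), (75, 0, 0, 0, 0), (37, 0, 0, 0, 0), (41, 0, 0, 0, 0), (41, 0, 0, 0, 0), (10, 0, 0, 0, 0), (41, 0, 0, 0, 0), (41, 0, 0, 0, 0), (66, 0, 0, 0, 0), (66, 0, 0, 0, 0), (69, 0, 0, 0, 0), (69, 0, 0, 0, 0), (66, 0, 0, 0, 0), (66, 0, 0, 0, 0), (38, 0, 0, 0, 0), (10, 0, 0, 0, 0), (69, 0, 0, 0, 0), (69, 0, 0, 0, 0), (38, 0, 0, 0, 0), (5, 0, 0, 0, 0), (5, 0, 0, 0, 0), (7, 0, 0, 0, 0), (7, 0, 0, 0, 0), (52, 0, 0, 0, 0), (52, 0, 0, 0, 0), (5, 0, 0, 0, 0), (5, 0, 0, 0, 0), (25, 0, 0, 0, 0), (25, 0, 0, 0, 0), (30, 0, 0, 0, 0), (30, 0, 0, 0, 0), (7, 0, 0, 0, 0), (7, 0, 0, 0, 0), (25, 0, 0, 0, 0), (25, 0, 0, 0, 0), (34, 0, 0, 0, 0),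 (34, 0, 0, 0, 0), (52, 0, 0, 0, 0), (52, 0, 0, 0, 0), (30, 0, 0, 0, 0), (30, 0, 0, 0, 0), (34, 0, 0, 0, 0), (34, 0, 0, 0, 0), (83, 0, 0, 0, 0), (83, 0, 0, 0, 0), (84, 0, 0, 0, 0), (84, 0, 0, 0, 0), (83, 0, 0, 0, 0), (83, 0, 0, 0, 0), (85, 0, 0, 0, 0), (85, 0, 0, 0, 0), (86, 0, 0, 0, 0), (86, 0, 0, 0, 0), (84, 0, 0, 0, 0), (84, 0, 0, 0, 0), (85, 0, 0, 0, 0), (85, 0, 0, 0, 0), (87, 0, 0, 0, 0), (87, 0, 0, 0, 0), (86, 0, 0, 0, 0), (86, 0, 0, 0, 0), (87, 0, 0, 0, 0), (87, 0, 0, 0, 0), (56, 0, 0, 0, 0), (56, 0, 0, 0, 0), (18, 0, 0, 0, 0), (56, 0, 0, 0, 0), (56, 0, 0, 0, 0), (71, 0, 0, 0, 0), (71, 0, 0, 0, 0), (74, 0, 0, 0, 0), (74, 0, 0, 0, 0), (18, 0, 0, 0, 0), (71, 0, 0, 0, 0), (71, 0, 0, 0, 0), (35, 0, 0, 0, 0), (74, 0, 0, 0, 0), (74, 0, 0, 0, 0), (35, 0, 0, 0, 0), (44, 0,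 0, 0, 0), (44, 0, 0, 0, 0), (9, 0, 0, 0, 0), (44, 0, 0, 0, 0), (44, 0, 0, 0, 0), (72, 0, 0, 0, 0), (72, 0, 0, 0, 0), (75, 0, 0, 0, 0), (75, 0, 0, 0, 0), (72, 0, 0, 0, 0), (72, 0, 0, 0, 0), (37, 0, 0, 0, 0), (9, 0, 0, 0, 0), (75, 0, 0, 0, 0), (75, 0, 0, 0, 0), (37, 0, 0, 0, 0), (0, 0, 0, 0, 0), (0, 0, 0, 0, 0), (11, 0, 0, 0, 0), (11, 0, 0, 0, 0), (0, 0, 0, 0, 0), (0, 0, 0, 0, 0), (20, 0, 0, 0, 0), (20, 0, 0, 0, 0), (20, 0, 0, 0, 0), (20, 0, 0, 0, 0), (39, 0, 0, 0, 0), (39, 0, 0, 0, 0), (11, 0, 0, 0, 0), (11, 0, 0, 0, 0), (39, 0, 0, 0, 0), (39, 0, 0, 0, 0), (1, 0, 0, 0, 0), (45, 0, 0, 0, 0), (45, 0, 0, 0, 0), (12, 0, 0, 0, 0), (1, 0, 0, 0, 0), (57, 0, 0, 0, 0), (57, 0, 0, 0, 0), (45, 0, 0, 0, 0), (45, 0, 0, 0, 0), (57, 0, 0, 0, 0), (57, 0, 0, 0, 0), (76, 0, 0, 0, 0), (76,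 0, 0, 0, 0), (12, 0, 0, 0, 0), (76, 0, 0, 0, 0), (76, 0, 0, 0, 0), (2, 0, 0, 0, 0), (46, 0, 0, 0, 0), (46, 0, 0, 0, 0), (2, 0, 0, 0, 0), (58, 0, 0, 0, 0), (58, 0, 0, 0, 0), (21, 0, 0, 0, 0), (46, 0, 0, 0, 0), (46, 0, 0, 0, 0), (58, 0, 0, 0, 0), (58, 0, 0, 0, 0), (73, 0, 0, 0, 0), (73, 0, 0, 0, 0), (21, 0, 0, 0, 0), (73, 0, 0, 0, 0), (73, 0, 0, 0, 0), (53, 0, 0, 0, 0), (53, 0, 0, 0, 0), (19, 0, 0, 0, 0), (53, 0, 0, 0, 0), (53, 0, 0, 0, 0), (65, 0, 0, 0, 0), (65, 0, 0, 0, 0), (68, 0, 0, 0, 0), (68, 0, 0, 0, 0), (19, 0, 0, 0, 0), (65, 0, 0, 0, 0), (65, 0, 0, 0, 0), (36, 0, 0, 0, 0), (68, 0, 0, 0, 0), (68, 0, 0, 0, 0), (36, 0, 0, 0, 0), (41, 0, 0, 0, 0), (41, 0, 0, 0, 0), (10, 0, 0, 0, 0), (41, 0, 0, 0, 0), (41, 0, 0, 0, 0), (66, 0, 0, 0, 0), (66, 0, 0, 0, 0), (69, 0, 0, 0,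 0), (69, 0, 0, 0, 0), (66, 0, 0, 0, 0), (66, 0, 0, 0, 0), (38, 0, 0, 0, 0), (10, 0, 0, 0, 0), (69, 0, 0, 0, 0), (69, 0, 0, 0, 0), (38, 0, 0, 0, 0), (0, 0, 0, 0, 0), (0, 0, 0, 0, 0), (11, 0, 0, 0, 0), (11, 0, 0, 0, 0), (0, 0, 0, 0, 0), (0, 0, 0, 0, 0), (20, 0, 0, 0, 0), (20, 0, 0, 0, 0), (20, 0, 0, 0, 0), (20, 0, 0, 0, 0), (39, 0, 0, 0, 0), (39, 0, 0, 0, 0), (11, 0, 0, 0, 0), (11, 0, 0, 0, 0), (39, 0, 0, 0, 0), (39, 0, 0, 0, 0), (3, 0, 0, 0, 0), (42, 0, 0, 0, 0), (42, 0, 0, 0, 0), (13, 0, 0, 0, 0), (3, 0, 0, 0, 0), (54, 0, 0, 0, 0), (54, 0, 0, 0, 0), (42, 0, 0, 0, 0), (42, 0, 0, 0, 0), (54, 0, 0, 0, 0), (54, 0, 0, 0, 0), (70, 0, 0, 0, 0), (70, 0, 0, 0, 0), (13, 0, 0, 0, 0), (70, 0, 0, 0, 0), (70, 0, 0, 0, 0), (4, 0, 0, 0, 0), (43, 0, 0, 0, 0), (43, 0, 0, 0, 0), (4, 0, 0,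 0, 0), (55, 0, 0, 0, 0), (55, 0, 0, 0, 0), (22, 0, 0, 0, 0), (43, 0, 0, 0, 0), (43, 0, 0, 0, 0), (55, 0, 0, 0, 0), (55, 0, 0, 0, 0), (67, 0, 0, 0, 0), (67, 0, 0, 0, 0), (22, 0, 0, 0, 0), (67, 0, 0, 0, 0), (67, 0, 0, 0, 0), (78, 0, 0, 0, 0), (78, 0, 0, 0, 0), (79, 0, 0, 0, 0), (79, 0, 0, 0, 0), (78, 0, 0, 0, 0), (78, 0, 0, 0, 0), (80, 0, 0, 0, 0), (80, 0, 0, 0, 0), (81, 0, 0, 0, 0), (81, 0, 0, 0, 0), (79, 0, 0, 0, 0), (79, 0, 0, 0, 0), (80, 0, 0, 0, 0), (80, 0, 0, 0, 0), (82, 0, 0, 0, 0), (82, 0, 0, 0, 0), (81, 0, 0, 0, 0), (81, 0, 0, 0, 0), (82, 0, 0, 0, 0), (82, 0, 0, 0, 0), (5, 0, 0, 0, 0), (5, 0, 0, 0, 0), (7, 0, 0, 0, 0), (7, 0, 0, 0, 0), (52, 0, 0, 0, 0), (52, 0, 0, 0, 0), (5, 0, 0, 0, 0), (5, 0, 0, 0, 0), (25, 0, 0, 0, 0), (25, 0, 0, 0, 0), (30, 0, 0, 0, 0), (30,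 0, 0, 0, 0), (7, 0, 0, 0, 0), (7, 0, 0, 0, 0), (25, 0, 0, 0, 0), (25, 0, 0, 0, 0), (34, 0, 0, 0, 0), (34, 0, 0, 0, 0), (52, 0, 0, 0, 0), (52, 0, 0, 0, 0), (30, 0, 0, 0, 0), (30, 0, 0, 0, 0), (34, 0, 0, 0, 0), (34, 0, 0, 0, 0), (1, 0, 0, 0, 0), (45, 0, 0, 0, 0), (45, 0, 0, 0, 0), (12, 0, 0, 0, 0), (1, 0, 0, 0, 0), (57, 0, 0, 0, 0), (57, 0, 0, 0, 0), (45, 0, 0, 0, 0), (45, 0, 0, 0, 0), (57, 0, 0, 0, 0), (57, 0, 0, 0, 0), (76, 0, 0, 0, 0), (76, 0, 0, 0, 0), (12, 0, 0, 0, 0), (76, 0, 0, 0, 0), (76, 0, 0, 0, 0), (3, 0, 0, 0, 0), (42, 0, 0, 0, 0), (42, 0, 0, 0, 0), (13, 0, 0, 0, 0), (3, 0, 0, 0, 0), (54, 0, 0, 0, 0), (54, 0, 0, 0, 0), (42, 0, 0, 0, 0), (42, 0, 0, 0, 0), (54, 0, 0, 0, 0), (54, 0, 0, 0, 0), (70, 0, 0, 0, 0), (70, 0, 0, 0, 0), (13, 0, 0, 0, 0), (70, 0, 0, 0, 0),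 (70, 0, 0, 0, 0), (40, 0, 0, 0, 0), (40, 0, 0, 0, 0), (6, 0, 0, 0, 0), (6, 0, 0, 0, 0), (8, 0, 0, 0, 0), (8, 0, 0, 0, 0), (40, 0, 0, 0, 0), (40, 0, 0, 0, 0), (15, 0, 0, 0, 0), (15, 0, 0, 0, 0), (17, 0, 0, 0, 0), (17, 0, 0, 0, 0), (6, 0, 0, 0, 0), (6, 0, 0, 0, 0), (15, 0, 0, 0, 0), (15, 0, 0, 0, 0), (26, 0, 0, 0, 0), (26, 0, 0, 0, 0), (8, 0, 0, 0, 0), (8, 0, 0, 0, 0), (17, 0, 0, 0, 0), (17, 0, 0, 0, 0), (26, 0, 0, 0, 0), (26, 0, 0, 0, 0), (14, 0, 0, 0, 0), (14, 0, 0, 0, 0), (16, 0, 0, 0, 0), (16, 0, 0, 0, 0), (59, 0, 0, 0, 0), (59, 0, 0, 0, 0), (14, 0, 0, 0, 0), (14, 0, 0, 0, 0), (24, 0, 0, 0, 0), (24, 0, 0, 0, 0), (28, 0, 0, 0, 0), (28, 0, 0, 0, 0), (16, 0, 0, 0, 0), (16, 0, 0, 0, 0), (24, 0, 0, 0, 0), (24, 0, 0, 0, 0), (32, 0, 0, 0, 0), (32, 0, 0, 0, 0), (59, 0, 0, 0,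 0), (59, 0, 0, 0, 0), (28, 0, 0, 0, 0), (28, 0, 0, 0, 0), (32, 0, 0, 0, 0), (32, 0, 0, 0, 0), (83, 0, 0, 0, 0), (83, 0, 0, 0, 0), (84, 0, 0, 0, 0), (84, 0, 0, 0, 0), (83, 0, 0, 0, 0), (83, 0, 0, 0, 0), (85, 0, 0, 0, 0), (85, 0, 0, 0, 0), (86, 0, 0, 0, 0), (86, 0, 0, 0, 0), (84, 0, 0, 0, 0), (84, 0, 0, 0, 0), (85, 0, 0, 0, 0), (85, 0, 0, 0, 0), (87, 0, 0, 0, 0), (87, 0, 0, 0, 0), (86, 0, 0, 0, 0), (86, 0, 0, 0, 0), (87, 0, 0, 0, 0), (87, 0, 0, 0, 0), (2, 0, 0, 0, 0), (46, 0, 0, 0, 0), (46, 0, 0, 0, 0), (2, 0, 0, 0, 0), (58, 0, 0, 0, 0), (58, 0, 0, 0, 0), (21, 0, 0, 0, 0), (46, 0, 0, 0, 0), (46, 0, 0, 0, 0), (58, 0, 0, 0, 0), (58, 0, 0, 0, 0), (73, 0, 0, 0, 0), (73, 0, 0, 0, 0), (21, 0, 0, 0, 0), (73, 0, 0, 0, 0), (73, 0, 0, 0, 0), (4, 0, 0, 0, 0), (43, 0, 0, 0, 0), (43,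 0, 0, 0, 0), (4, 0, 0, 0, 0), (55, 0, 0, 0, 0), (55, 0, 0, 0, 0), (22, 0, 0, 0, 0), (43, 0, 0, 0, 0), (43, 0, 0, 0, 0), (55, 0, 0, 0, 0), (55, 0, 0, 0, 0), (67, 0, 0, 0, 0), (67, 0, 0, 0, 0), (22, 0, 0, 0, 0), (67, 0, 0, 0, 0), (67, 0, 0, 0, 0), (40, 0, 0, 0, 0), (40, 0, 0, 0, 0), (6, 0, 0, 0, 0), (6, 0, 0, 0, 0), (8, 0, 0, 0, 0), (8, 0, 0, 0, 0), (40, 0, 0, 0, 0), (40, 0, 0, 0, 0), (15, 0, 0, 0, 0), (15, 0, 0, 0, 0), (17, 0, 0, 0, 0), (17, 0, 0, 0, 0), (6, 0, 0, 0, 0), (6, 0, 0, 0, 0), (15, 0, 0, 0, 0), (15, 0, 0, 0, 0), (26, 0, 0, 0, 0), (26, 0, 0, 0, 0), (8, 0, 0, 0, 0), (8, 0, 0, 0, 0), (17, 0, 0, 0, 0), (17, 0, 0, 0, 0), (26, 0, 0, 0, 0), (26, 0, 0, 0, 0)]]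

theorem tr55 : trK keys lk55 kl55 = true := by
  decide +kernel

theorem x55_0 : expB 2 6 dg3 dg10 m55_0 (l55_0 ++ z55_0) w55_0 = true := by
  decide +kernel

theorem t55_0_0 : chkS lk55 2 6 [(1, m55_0)] l55_0
  [(0, 16, 16, 5517840, 5517840), (1, 16, 16, 5517840, 5517840), (1, 16, 16, 4534800, 4534800), (1, 16, 16, 5514000, 5514000), (1, 16, 16, 4530960, 4530960), (6, 16, 16, 5456400, 5456400), (5, 16, 16, 5517600, 5517600), (6, 16, 16, 5448720, 5391120), (5, 16, 16, 5509920, 5513520), (7, 16, 16, 2442000, 4400400), (7, 16, 16, 2438160, 4338960), (1, 1, 1, 4526130, 4526130), (10, 16, 16, 2380545, 3417345), (10, 16, 16, 2372865, 2372865), (6, 16, 16, 3490305, 4411905), (5, 16, 16, 5517570, 5517345), (6, 16, 16, 3482625, 4346625), (5, 16, 16, 5509890, 5513265), (7, 16,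 16, 5391105, 5448705), (7, 16, 16, 5387265, 5387265), (1, 1, 1, 5509155, 5505330), (10, 16, 16, 4346640, 3482640), (10, 16, 16, 4338960, 2438160), (3, 16, 16, 5517840, 5517840), (9, 1, 1, 3477570, 4280370), (9, 1, 1, 5443620, 5259570), (8, 1, 1, 3280980, 1070130), (9, 16, 16, 5456400, 5456400), (4, 16, 16, 5517840, 5517840), (9, 16, 16, 3490320, 4411920), (4, 16, 16, 4534785, 4534785), (9, 16, 16, 5448720, 5391120), (4, 16, 16, 5514000, 5514000), (9, 16, 16, 3482640, 4346640), (4, 16, 16, 4530945, 4530945), (5, 1, 1, 5513265, 5509890), (5, 1, 1, 5505585, 5509635), (5, 1, 1, 5513235, 5505810), (5, 1, 1, 5505555, 5505555), (2, 1, 1, 5509170, 5509170)]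
  [(0, 1536), (1, 3072), (2, 1536), (3, -1536), (4, 6144), (6, 6144), (7, -6144), (8, -1536), (9, -3072), (10, -6144)] = true := by
  decide +kernel

section

variable {κ ι : Type*} [Fintype κ] [Fintype ι] [Inhabited κ] [Inhabited ι]

noncomputable def F55_0 (E : Env κ ι) : (Fin 2 → κ) → (Fin 6 → ι) → ℝ := op2 (P3 κ) (P10 ι) (fB E 2 6 m55_0)

def r55_0_0 : List (ℕ × ℤ) := [(0, 1536), (1, 3072), (2, 1536), (3, -1536), (4, 6144), (6, 6144), (7, -6144), (8, -1536), (9, -3072), (10, -6144)]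

theorem h55_0_0 (E : Env κ ι) : ip (F55_0 E) (F55_0 E) = dotS (ek E lk55) r55_0_0 :=
  op_entryZ E lk55 2 6 _ _ _ _ (pg3 κ) (pg10 ι) m55_0 m55_0 l55_0 z55_0 w55_0 x55_0 (by decide) _ (chkS_sound E lk55 2 6 _ _ _ _ t55_0_0)

theorem row55_0 (E : Env κ ι) : RowG (ek E lk55) (F55_0 E) [F55_0 E] [r55_0_0] :=
  rowG_cons _ _ _ _ _ _ (h55_0_0 E) (rowG_nil _ _)

def tab55 : List (List (List (ℕ × ℤ))) := [[r55_0_0]]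

theorem tri55 (E : Env κ ι) : TriG (ek E lk55) [F55_0 E] tab55 := by
  refine triG_cons _ _ _ _ _ (row55_0 E) ?_
  exact triG_nil _

end

end YMBR
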