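import Pool.Agent.YM.BR.Ga0
import Pool.Agent.YM.BR.Ga1
import Pool.Agent.YM.BR.Ga2
import Pool.Agent.YM.BR.Ga3

set_option linter.unusedVariables false
set_option maxRecDepth 100000

open YMEng

namespace YMBR

def lk56 : List Key := [
  (2, 6, [(0, [0], [0, 1]), (0, [0], [0, 1]), (0, [1], [2, 3]), (0, [1], [2, 3]), (1, [], [4, 5]), (1, [], [4, 5])]),
  (2, 6, [(0, [0], [0, 1]), (0, [0], [0, 1]), (0, [1], [2, 3]), (0, [1], [2, 4]), (1, [], [4, 5]), (1, [], [3, 5])]),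
  (2, 6, [(0, [0], [0, 1]), (0, [0], [0, 1]), (0, [1], [2, 3]), (0, [1], [4, 5]), (1, [], [4, 5]), (1, [], [2, 3])]),
  (2, 6, [(0, [0], [0, 1]), (0, [1], [2, 3]), (0, [0], [2, 3]), (0, [1], [0, 1]), (1, [], [4, 5]), (1, [], [4, 5])]),
  (2, 6, [(0, [0], [0, 1]), (0, [1], [2, 3]), (0, [1], [0, 2]), (0, [0], [1, 3]), (1, [], [4, 5]), (1, [], [4, 5])]),
  (2, 6, [(0, [0], [0, 1]), (0, [1], [2, 3]), (0, [0], [2, 4]), (0, [1], [0, 5]), (1, [], [4, 5]), (1, [], [1, 3])]),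
  (2, 6, [(0, [0], [0, 1]), (0, [0], [2, 0]), (0, [1], [3, 1]), (0, [1], [4, 5]), (1, [], [4, 5]), (1, [], [2, 3])]),
  (2, 6, [(0, [0], [0, 1]), (0, [0], [2, 0]), (0, [1], [3, 1]), (0, [1], [2, 4]), (1, [], [4, 5]), (1, [], [3, 5])]),
  (2, 6, [(0, [0], [0, 1]), (0, [0], [2, 0]), (0, [1], [3, 1]), (0, [1], [3, 4]), (1, [], [4, 5]), (1, [], [2, 5])]),
  (2, 6, [(0, [0], [0, 1]), (0, [0], [2, 3]), (0, [1], [0, 1]), (0, [1], [4, 5]), (1, [], [4, 5]), (1, [], [2, 3])]),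
  (2, 6, [(0, [0], [0, 1]), (0, [0], [2, 3]), (0, [1], [0, 1]), (0, [1], [2, 4]), (1, [], [4, 5]), (1, [], [3, 5])]),
  (2, 6, [(0, [0], [0, 1]), (0, [0], [2, 1]), (0, [1], [3, 4]), (0, [1], [3, 5]), (1, [], [0, 5]), (1, [], [2, 4])])]

def kl56 : List ℕ := [9, 10, 14, 16, 19, 21, 40, 42, 43, 46, 48, 62]

def m56_0 : Base := (0, 0, [(0, [0], [0, 1]), (0, [1], [2, 4]), (1, [], [3, 5])])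

def l56_0 : Cov := [(1152, 0, 0, [(0, [0], [0, 1]), (0, [1], [2, 4]), (1, [], [3, 5])]),
  (-1152, 0, 0, [(0, [0], [0, 1]), (0, [1], [2, 5]), (1, [], [3, 4])]),
  (1152, 0, 0, [(0, [0], [0, 1]), (0, [1], [3, 4]), (1, [], [2, 5])]),
  (-1152, 0, 0, [(0, [0], [0, 1]), (0, [1], [3, 5]), (1, [], [2, 4])]),
  (1152, 0, 0, [(0, [0], [0, 2]), (0, [1], [1, 4]), (1, [], [3, 5])]),
  (-1152, 0, 0, [(0, [0], [0, 2]), (0, [1], [1, 5]), (1, [], [3, 4])]),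
  (1152, 0, 0, [(0, [0], [0, 2]), (0, [1], [3, 4]), (1, [], [1, 5])]),
  (-1152, 0, 0, [(0, [0], [0, 2]), (0, [1], [3, 5]), (1, [], [1, 4])]),
  (1152, 0, 0, [(0, [0], [0, 3]), (0, [1], [1, 4]), (1, [], [2, 5])]),
  (-1152, 0, 0, [(0, [0], [0, 3]), (0, [1], [1, 5]), (1, [], [2, 4])]),
  (1152, 0, 0, [(0, [0], [0, 3]), (0, [1], [2, 4]), (1, [], [1, 5])]),
  (-1152, 0, 0, [(0, [0], [0, 3]), (0, [1], [2, 5]), (1, [], [1, 4])]),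
  (-1152, 0, 0, [(0, [0], [1, 4]), (0, [1], [2, 0]), (1, [], [3, 5])]),
  (1152, 0, 0, [(0, [0], [1, 4]), (0, [1], [2, 5]), (1, [], [3, 0])]),
  (-1152, 0, 0, [(0, [0], [1, 4]), (0, [1], [3, 0]), (1, [], [2, 5])]),
  (1152, 0, 0, [(0, [0], [1, 4]), (0, [1], [3, 5]), (1, [], [2, 0])]),
  (1152, 0, 0, [(0, [0], [1, 5]), (0, [1], [2, 0]), (1, [], [3, 4])]),
  (-1152, 0, 0, [(0, [0], [1, 5]), (0, [1], [2, 4]), (1, [], [3, 0])]),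
  (1152, 0, 0, [(0, [0], [1, 5]), (0, [1], [3, 0]), (1, [], [2, 4])]),
  (-1152, 0, 0, [(0, [0], [1, 5]), (0, [1], [3, 4]), (1, [], [2, 0])]),
  (-1152, 0, 0, [(0, [0], [2, 4]), (0, [1], [1, 0]), (1, [], [3, 5])]),
  (1152, 0, 0, [(0, [0], [2, 4]), (0, [1], [1, 5]), (1, [], [3, 0])]),
  (-1152, 0, 0, [(0, [0], [2, 4]), (0, [1], [3, 0]), (1, [], [1, 5])]),
  (1152, 0, 0, [(0, [0], [2, 4]), (0, [1], [3, 5]), (1, [], [1, 0])]),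
  (1152, 0, 0, [(0, [0], [2, 5]), (0, [1], [1, 0]), (1, [], [3, 4])]),
  (-1152, 0, 0, [(0, [0], [2, 5]), (0, [1], [1, 4]), (1, [], [3, 0])]),
  (1152, 0, 0, [(0, [0], [2, 5]), (0, [1], [3, 0]), (1, [], [1, 4])]),
  (-1152, 0, 0, [(0, [0], [2, 5]), (0, [1], [3, 4]), (1, [], [1, 0])]),
  (-1152, 0, 0, [(0, [0], [3, 4]), (0, [1], [1, 0]), (1, [], [2, 5])]),
  (1152, 0, 0, [(0, [0], [3, 4]), (0, [1], [1, 5]), (1, [], [2, 0])]),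
  (-1152, 0, 0, [(0, [0], [3, 4]), (0, [1], [2, 0]), (1, [], [1, 5])]),
  (1152, 0, 0, [(0, [0], [3, 4]), (0, [1], [2, 5]), (1, [], [1, 0])]),
  (1152, 0, 0, [(0, [0], [3, 5]), (0, [1], [1, 0]), (1, [], [2, 4])]),
  (-1152, 0, 0, [(0, [0], [3, 5]), (0, [1], [1, 4]), (1, [], [2, 0])]),
  (1152, 0, 0, [(0, [0], [3, 5]), (0, [1], [2, 0]), (1, [], [1, 4])]),
  (-1152, 0, 0, [(0, [0], [3, 5]), (0, [1], [2, 4]), (1, [], [1, 0])])]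

def z56_0 : Cov := [(0, 0, 0, [(0, [0], [0, 1]), (0, [1], [2, 3]), (1, [], [4, 5])]),
  (0, 0, 0, [(0, [0], [0, 1]), (0, [1], [4, 5]), (1, [], [2, 3])]),
  (0, 0, 0, [(0, [0], [0, 2]), (0, [1], [1, 3]), (1, [], [4, 5])]),
  (0, 0, 0, [(0, [0], [0, 2]), (0, [1], [4, 5]), (1, [], [1, 3])]),
  (0, 0, 0, [(0, [0], [0, 3]), (0, [1], [1, 2]), (1, [], [4, 5])]),
  (0, 0, 0, [(0, [0], [0, 3]), (0, [1], [4, 5]), (1, [], [1, 2])]),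
  (0, 0, 0, [(0, [0], [0, 4]), (0, [1], [1, 3]), (1, [], [2, 5])]),
  (0, 0, 0, [(0, [0], [0, 4]), (0, [1], [1, 5]), (1, [], [2, 3])]),
  (0, 0, 0, [(0, [0], [0, 4]), (0, [1], [1, 2]), (1, [], [3, 5])]),
  (0, 0, 0, [(0, [0], [0, 4]), (0, [1], [2, 3]), (1, [], [1, 5])]),
  (0, 0, 0, [(0, [0], [0, 4]), (0, [1], [2, 5]), (1, [], [1, 3])]),
  (0, 0, 0, [(0, [0], [0, 4]), (0, [1], [3, 5]), (1, [], [1, 2])]),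
  (0, 0, 0, [(0, [0], [0, 5]), (0, [1], [1, 3]), (1, [], [2, 4])]),
  (0, 0, 0, [(0, [0], [0, 5]), (0, [1], [1, 4]), (1, [], [2, 3])]),
  (0, 0, 0, [(0, [0], [0, 5]), (0, [1], [1, 2]), (1, [], [3, 4])]),
  (0, 0, 0, [(0, [0], [0, 5]), (0, [1], [2, 3]), (1, [], [1, 4])]),
  (0, 0, 0, [(0, [0], [0, 5]), (0, [1], [2, 4]), (1, [], [1, 3])]),
  (0, 0, 0, [(0, [0], [0, 5]), (0, [1], [3, 4]), (1, [], [1, 2])]),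
  (0, 0, 0, [(0, [0], [1, 2]), (0, [1], [0, 4]), (1, [], [3, 5])]),
  (0, 0, 0, [(0, [0], [1, 2]), (0, [1], [0, 5]), (1, [], [3, 4])]),
  (0, 0, 0, [(0, [0], [1, 2]), (0, [1], [3, 4]), (1, [], [0, 5])]),
  (0, 0, 0, [(0, [0], [1, 2]), (0, [1], [3, 5]), (1, [], [0, 4])]),
  (0, 0, 0, [(0, [0], [1, 2]), (0, [1], [3, 0]), (1, [], [4, 5])]),
  (0, 0, 0, [(0, [0], [1, 2]), (0, [1], [4, 5]), (1, [], [3, 0])]),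
  (0, 0, 0, [(0, [0], [1, 3]), (0, [1], [0, 4]), (1, [], [2, 5])]),
  (0, 0, 0, [(0, [0], [1, 3]), (0, [1], [0, 5]), (1, [], [2, 4])]),
  (0, 0, 0, [(0, [0], [1, 3]), (0, [1], [2, 4]), (1, [], [0, 5])]),
  (0, 0, 0, [(0, [0], [1, 3]), (0, [1], [2, 5]), (1, [], [0, 4])]),
  (0, 0, 0, [(0, [0], [1, 3]), (0, [1], [2, 0]), (1, [], [4, 5])]),
  (0, 0, 0, [(0, [0], [1, 3]), (0, [1], [4, 5]), (1, [], [2, 0])]),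
  (0, 0, 0, [(0, [0], [2, 3]), (0, [1], [0, 4]), (1, [], [1, 5])]),
  (0, 0, 0, [(0, [0], [2, 3]), (0, [1], [0, 5]), (1, [], [1, 4])]),
  (0, 0, 0, [(0, [0], [2, 3]), (0, [1], [1, 4]), (1, [], [0, 5])]),
  (0, 0, 0, [(0, [0], [2, 3]), (0, [1], [1, 5]), (1, [], [0, 4])]),
  (0, 0, 0, [(0, [0], [2, 3]), (0, [1], [1, 0]), (1, [], [4, 5])]),
  (0, 0, 0, [(0, [0], [2, 3]), (0, [1], [4, 5]), (1, [], [1, 0])]),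
  (0, 0, 0, [(0, [0], [4, 1]), (0, [1], [0, 5]), (1, [], [2, 3])]),
  (0, 0, 0, [(0, [0], [4, 1]), (0, [1], [2, 3]), (1, [], [0, 5])]),
  (0, 0, 0, [(0, [0], [4, 2]), (0, [1], [0, 5]), (1, [], [1, 3])]),
  (0, 0, 0, [(0, [0], [4, 2]), (0, [1], [1, 3]), (1, [], [0, 5])]),
  (0, 0, 0, [(0, [0], [4, 3]), (0, [1], [0, 5]), (1, [], [1, 2])]),
  (0, 0, 0, [(0, [0], [4, 3]), (0, [1], [1, 2]), (1, [], [0, 5])]),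
  (0, 0, 0, [(0, [0], [4, 5]), (0, [1], [1, 0]), (1, [], [2, 3])]),
  (0, 0, 0, [(0, [0], [4, 5]), (0, [1], [1, 3]), (1, [], [2, 0])]),
  (0, 0, 0, [(0, [0], [4, 5]), (0, [1], [1, 2]), (1, [], [3, 0])]),
  (0, 0, 0, [(0, [0], [4, 5]), (0, [1], [2, 0]), (1, [], [1, 3])]),
  (0, 0, 0, [(0, [0], [4, 5]), (0, [1], [2, 3]), (1, [], [1, 0])]),
  (0, 0, 0, [(0, [0], [4, 5]), (0, [1], [3, 0]), (1, [], [1, 2])]),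
  (0, 0, 0, [(0, [0], [5, 1]), (0, [1], [0, 4]), (1, [], [2, 3])]),
  (0, 0, 0, [(0, [0], [5, 1]), (0, [1], [2, 3]), (1, [], [0, 4])]),
  (0, 0, 0, [(0, [0], [5, 2]), (0, [1], [0, 4]), (1, [], [1, 3])]),
  (0, 0, 0, [(0, [0], [5, 2]), (0, [1], [1, 3]), (1, [], [0, 4])]),
  (0, 0, 0, [(0, [0], [5, 3]), (0, [1], [0, 4]), (1, [], [1, 2])]),
  (0, 0, 0, [(0, [0], [5, 3]), (0, [1], [1, 2]), (1, [], [0, 4])])]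

def w56_0 : List (List Wit) := [[(0, 0, 0, 0, 0), (1, 0, 0, 0, 0), (36, 0, 0, 0, 0), (1, 0, 0, 0, 0), (36, 0, 0, 0, 0), (0, 0, 0, 0, 0), (2, 0, 0, 0, 0), (3, 0, 0, 0, 0), (36, 0, 0, 0, 0), (3, 0, 0, 0, 0), (36, 0, 0, 0, 0), (2, 0, 0, 0, 0), (2, 0, 0, 0, 0), (37, 0, 0, 0, 0), (0, 0, 0, 0, 0), (37, 0, 0, 0, 0), (3, 0, 0, 0, 0), (37, 0, 0, 0, 0), (1, 0, 0, 0, 0), (37, 0, 0, 0, 0), (4, 0, 0, 0, 0), (5, 0, 0, 0, 0), (38, 0, 0, 0, 0), (5, 0, 0, 0, 0), (38, 0, 0, 0, 0), (4, 0, 0, 0, 0), (6, 0, 0, 0, 0), (7, 0, 0, 0, 0), (38, 0, 0, 0, 0), (7, 0, 0, 0, 0), (38, 0, 0, 0, 0), (6, 0, 0, 0, 0), (6, 0, 0, 0, 0), (39, 0, 0, 0, 0), (4, 0, 0, 0, 0), (39, 0, 0, 0, 0), (7, 0, 0, 0, 0), (39, 0, 0, 0, 0), (5, 0, 0, 0, 0), (39, 0, 0, 0, 0), (8, 0, 0, 0, 0), (9, 0, 0, 0, 0),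 (40, 0, 0, 0, 0), (9, 0, 0, 0, 0), (40, 0, 0, 0, 0), (8, 0, 0, 0, 0), (10, 0, 0, 0, 0), (11, 0, 0, 0, 0), (40, 0, 0, 0, 0), (11, 0, 0, 0, 0), (40, 0, 0, 0, 0), (10, 0, 0, 0, 0), (10, 0, 0, 0, 0), (41, 0, 0, 0, 0), (8, 0, 0, 0, 0), (41, 0, 0, 0, 0), (11, 0, 0, 0, 0), (41, 0, 0, 0, 0), (9, 0, 0, 0, 0), (41, 0, 0, 0, 0), (42, 0, 0, 0, 0), (43, 0, 0, 0, 0), (44, 0, 0, 0, 0), (43, 0, 0, 0, 0), (45, 0, 0, 0, 0), (46, 0, 0, 0, 0), (44, 0, 0, 0, 0), (46, 0, 0, 0, 0), (45, 0, 0, 0, 0), (47, 0, 0, 0, 0), (42, 0, 0, 0, 0), (47, 0, 0, 0, 0), (48, 0, 0, 0, 0), (49, 0, 0, 0, 0), (50, 0, 0, 0, 0), (49, 0, 0, 0, 0), (51, 0, 0, 0, 0), (52, 0, 0, 0, 0), (50, 0, 0, 0, 0), (52, 0, 0, 0, 0), (51, 0, 0, 0, 0), (53, 0, 0, 0, 0), (48, 0, 0, 0, 0), (53, 0, 0, 0, 0), (0, 0, 0, 0,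 0), (1, 0, 0, 0, 0), (2, 0, 0, 0, 0), (3, 0, 0, 0, 0), (54, 0, 0, 0, 0), (55, 0, 0, 0, 0), (56, 0, 0, 0, 0), (57, 0, 0, 0, 0), (58, 0, 0, 0, 0), (57, 0, 0, 0, 0), (58, 0, 0, 0, 0), (56, 0, 0, 0, 0), (54, 0, 0, 0, 0), (59, 0, 0, 0, 0), (55, 0, 0, 0, 0), (59, 0, 0, 0, 0), (60, 0, 0, 0, 0), (61, 0, 0, 0, 0), (62, 0, 0, 0, 0), (63, 0, 0, 0, 0), (64, 0, 0, 0, 0), (63, 0, 0, 0, 0), (64, 0, 0, 0, 0), (62, 0, 0, 0, 0), (60, 0, 0, 0, 0), (65, 0, 0, 0, 0), (61, 0, 0, 0, 0), (65, 0, 0, 0, 0), (12, 0, 0, 0, 0), (13, 0, 0, 0, 0), (14, 0, 0, 0, 0), (15, 0, 0, 0, 0), (16, 0, 0, 0, 0), (17, 0, 0, 0, 0), (18, 0, 0, 0, 0), (19, 0, 0, 0, 0), (4, 0, 0, 0, 0), (5, 0, 0, 0, 0), (6, 0, 0, 0, 0), (7, 0, 0, 0, 0), (54, 0, 0, 0, 0), (55, 0, 0, 0, 0), (56, 0, 0, 0, 0), (57, 0, 0,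 0, 0), (58, 0, 0, 0, 0), (57, 0, 0, 0, 0), (58, 0, 0, 0, 0), (56, 0, 0, 0, 0), (54, 0, 0, 0, 0), (59, 0, 0, 0, 0), (55, 0, 0, 0, 0), (59, 0, 0, 0, 0), (66, 0, 0, 0, 0), (67, 0, 0, 0, 0), (68, 0, 0, 0, 0), (69, 0, 0, 0, 0), (70, 0, 0, 0, 0), (69, 0, 0, 0, 0), (70, 0, 0, 0, 0), (68, 0, 0, 0, 0), (66, 0, 0, 0, 0), (71, 0, 0, 0, 0), (67, 0, 0, 0, 0), (71, 0, 0, 0, 0), (20, 0, 0, 0, 0), (21, 0, 0, 0, 0), (22, 0, 0, 0, 0), (23, 0, 0, 0, 0), (24, 0, 0, 0, 0), (25, 0, 0, 0, 0), (26, 0, 0, 0, 0), (27, 0, 0, 0, 0), (8, 0, 0, 0, 0), (9, 0, 0, 0, 0), (10, 0, 0, 0, 0), (11, 0, 0, 0, 0), (60, 0, 0, 0, 0), (61, 0, 0, 0, 0), (62, 0, 0, 0, 0), (63, 0, 0, 0, 0), (64, 0, 0, 0, 0), (63, 0, 0, 0, 0), (64, 0, 0, 0, 0), (62, 0, 0, 0, 0), (60, 0, 0, 0, 0), (65, 0, 0, 0, 0), (61,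 0, 0, 0, 0), (65, 0, 0, 0, 0), (66, 0, 0, 0, 0), (67, 0, 0, 0, 0), (68, 0, 0, 0, 0), (69, 0, 0, 0, 0), (70, 0, 0, 0, 0), (69, 0, 0, 0, 0), (70, 0, 0, 0, 0), (68, 0, 0, 0, 0), (66, 0, 0, 0, 0), (71, 0, 0, 0, 0), (67, 0, 0, 0, 0), (71, 0, 0, 0, 0), (28, 0, 0, 0, 0), (29, 0, 0, 0, 0), (30, 0, 0, 0, 0), (31, 0, 0, 0, 0), (32, 0, 0, 0, 0), (33, 0, 0, 0, 0), (34, 0, 0, 0, 0), (35, 0, 0, 0, 0), (42, 0, 0, 0, 0), (43, 0, 0, 0, 0), (44, 0, 0, 0, 0), (43, 0, 0, 0, 0), (45, 0, 0, 0, 0), (46, 0, 0, 0, 0), (44, 0, 0, 0, 0), (46, 0, 0, 0, 0), (45, 0, 0, 0, 0), (47, 0, 0, 0, 0), (42, 0, 0, 0, 0), (47, 0, 0, 0, 0), (14, 0, 0, 0, 0), (72, 0, 0, 0, 0), (12, 0, 0, 0, 0), (72, 0, 0, 0, 0), (73, 0, 0, 0, 0), (13, 0, 0, 0, 0), (12, 0, 0, 0, 0), (13, 0, 0, 0, 0), (12, 0, 0, 0,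 0), (73, 0, 0, 0, 0), (73, 0, 0, 0, 0), (15, 0, 0, 0, 0), (14, 0, 0, 0, 0), (15, 0, 0, 0, 0), (14, 0, 0, 0, 0), (73, 0, 0, 0, 0), (72, 0, 0, 0, 0), (15, 0, 0, 0, 0), (72, 0, 0, 0, 0), (13, 0, 0, 0, 0), (22, 0, 0, 0, 0), (74, 0, 0, 0, 0), (20, 0, 0, 0, 0), (74, 0, 0, 0, 0), (75, 0, 0, 0, 0), (21, 0, 0, 0, 0), (20, 0, 0, 0, 0), (21, 0, 0, 0, 0), (20, 0, 0, 0, 0), (75, 0, 0, 0, 0), (75, 0, 0, 0, 0), (23, 0, 0, 0, 0), (22, 0, 0, 0, 0), (23, 0, 0, 0, 0), (22, 0, 0, 0, 0), (75, 0, 0, 0, 0), (74, 0, 0, 0, 0), (23, 0, 0, 0, 0), (74, 0, 0, 0, 0), (21, 0, 0, 0, 0), (30, 0, 0, 0, 0), (76, 0, 0, 0, 0), (28, 0, 0, 0, 0), (76, 0, 0, 0, 0), (77, 0, 0, 0, 0), (29, 0, 0, 0, 0), (28, 0, 0, 0, 0), (29, 0, 0, 0, 0), (28, 0, 0, 0, 0), (77, 0, 0, 0, 0), (77, 0, 0, 0, 0), (31,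 0, 0, 0, 0), (30, 0, 0, 0, 0), (31, 0, 0, 0, 0), (30, 0, 0, 0, 0), (77, 0, 0, 0, 0), (76, 0, 0, 0, 0), (31, 0, 0, 0, 0), (76, 0, 0, 0, 0), (29, 0, 0, 0, 0), (78, 0, 0, 0, 0), (79, 0, 0, 0, 0), (78, 0, 0, 0, 0), (80, 0, 0, 0, 0), (81, 0, 0, 0, 0), (82, 0, 0, 0, 0), (81, 0, 0, 0, 0), (80, 0, 0, 0, 0), (83, 0, 0, 0, 0), (82, 0, 0, 0, 0), (83, 0, 0, 0, 0), (79, 0, 0, 0, 0), (48, 0, 0, 0, 0), (49, 0, 0, 0, 0), (50, 0, 0, 0, 0), (49, 0, 0, 0, 0), (51, 0, 0, 0, 0), (52, 0, 0, 0, 0), (50, 0, 0, 0, 0), (52, 0, 0, 0, 0), (51, 0, 0, 0, 0), (53, 0, 0, 0, 0), (48, 0, 0, 0, 0), (53, 0, 0, 0, 0), (18, 0, 0, 0, 0), (84, 0, 0, 0, 0), (16, 0, 0, 0, 0), (84, 0, 0, 0, 0), (85, 0, 0, 0, 0), (17, 0, 0, 0, 0), (16, 0, 0, 0, 0), (17, 0, 0, 0, 0), (16, 0, 0, 0, 0), (85, 0, 0, 0,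 0), (85, 0, 0, 0, 0), (19, 0, 0, 0, 0), (18, 0, 0, 0, 0), (19, 0, 0, 0, 0), (18, 0, 0, 0, 0), (85, 0, 0, 0, 0), (84, 0, 0, 0, 0), (19, 0, 0, 0, 0), (84, 0, 0, 0, 0), (17, 0, 0, 0, 0), (26, 0, 0, 0, 0), (86, 0, 0, 0, 0), (24, 0, 0, 0, 0), (86, 0, 0, 0, 0), (87, 0, 0, 0, 0), (25, 0, 0, 0, 0), (24, 0, 0, 0, 0), (25, 0, 0, 0, 0), (24, 0, 0, 0, 0), (87, 0, 0, 0, 0), (87, 0, 0, 0, 0), (27, 0, 0, 0, 0), (26, 0, 0, 0, 0), (27, 0, 0, 0, 0), (26, 0, 0, 0, 0), (87, 0, 0, 0, 0), (86, 0, 0, 0, 0), (27, 0, 0, 0, 0), (86, 0, 0, 0, 0), (25, 0, 0, 0, 0), (34, 0, 0, 0, 0), (88, 0, 0, 0, 0), (32, 0, 0, 0, 0), (88, 0, 0, 0, 0), (89, 0, 0, 0, 0), (33, 0, 0, 0, 0), (32, 0, 0, 0, 0), (33, 0, 0, 0, 0), (32, 0, 0, 0, 0), (89, 0, 0, 0, 0), (89, 0, 0, 0, 0), (35, 0, 0, 0, 0), (34,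 0, 0, 0, 0), (35, 0, 0, 0, 0), (34, 0, 0, 0, 0), (89, 0, 0, 0, 0), (88, 0, 0, 0, 0), (35, 0, 0, 0, 0), (88, 0, 0, 0, 0), (33, 0, 0, 0, 0), (78, 0, 0, 0, 0), (79, 0, 0, 0, 0), (78, 0, 0, 0, 0), (80, 0, 0, 0, 0), (81, 0, 0, 0, 0), (82, 0, 0, 0, 0), (81, 0, 0, 0, 0), (80, 0, 0, 0, 0), (83, 0, 0, 0, 0), (82, 0, 0, 0, 0), (83, 0, 0, 0, 0), (79, 0, 0, 0, 0)],
  [(20, 0, 0, 0, 0), (24, 0, 0, 0, 0), (70, 0, 0, 0, 0), (24, 0, 0, 0, 0), (70, 0, 0, 0, 0), (20, 0, 0, 0, 0), (28, 0, 0, 0, 0), (32, 0, 0, 0, 0), (70, 0, 0, 0, 0), (32, 0, 0, 0, 0), (70, 0, 0, 0, 0), (28, 0, 0, 0, 0), (28, 0, 0, 0, 0), (78, 0, 0, 0, 0), (20, 0, 0, 0, 0), (78, 0, 0, 0, 0), (32, 0, 0, 0, 0), (78, 0, 0, 0, 0), (24, 0, 0, 0, 0), (78, 0, 0, 0, 0), (12, 0, 0, 0, 0), (16, 0, 0, 0, 0), (64, 0, 0,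 0, 0), (16, 0, 0, 0, 0), (64, 0, 0, 0, 0), (12, 0, 0, 0, 0), (30, 0, 0, 0, 0), (34, 0, 0, 0, 0), (64, 0, 0, 0, 0), (34, 0, 0, 0, 0), (64, 0, 0, 0, 0), (30, 0, 0, 0, 0), (30, 0, 0, 0, 0), (81, 0, 0, 0, 0), (12, 0, 0, 0, 0), (81, 0, 0, 0, 0), (34, 0, 0, 0, 0), (81, 0, 0, 0, 0), (16, 0, 0, 0, 0), (81, 0, 0, 0, 0), (14, 0, 0, 0, 0), (18, 0, 0, 0, 0), (58, 0, 0, 0, 0), (18, 0, 0, 0, 0), (58, 0, 0, 0, 0), (14, 0, 0, 0, 0), (22, 0, 0, 0, 0), (26, 0, 0, 0, 0), (58, 0, 0, 0, 0), (26, 0, 0, 0, 0), (58, 0, 0, 0, 0), (22, 0, 0, 0, 0), (22, 0, 0, 0, 0), (83, 0, 0, 0, 0), (14, 0, 0, 0, 0), (83, 0, 0, 0, 0), (26, 0, 0, 0, 0), (83, 0, 0, 0, 0), (18, 0, 0, 0, 0), (83, 0, 0, 0, 0), (60, 0, 0, 0, 0), (84, 0, 0, 0, 0), (54, 0, 0, 0, 0), (84, 0, 0, 0, 0), (66, 0, 0, 0, 0), (86,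 0, 0, 0, 0), (54, 0, 0, 0, 0), (86, 0, 0, 0, 0), (66, 0, 0, 0, 0), (88, 0, 0, 0, 0), (60, 0, 0, 0, 0), (88, 0, 0, 0, 0), (61, 0, 0, 0, 0), (72, 0, 0, 0, 0), (55, 0, 0, 0, 0), (72, 0, 0, 0, 0), (67, 0, 0, 0, 0), (74, 0, 0, 0, 0), (55, 0, 0, 0, 0), (74, 0, 0, 0, 0), (67, 0, 0, 0, 0), (76, 0, 0, 0, 0), (61, 0, 0, 0, 0), (76, 0, 0, 0, 0), (20, 0, 0, 0, 0), (24, 0, 0, 0, 0), (28, 0, 0, 0, 0), (32, 0, 0, 0, 0), (44, 0, 0, 0, 0), (50, 0, 0, 0, 0), (77, 0, 0, 0, 0), (89, 0, 0, 0, 0), (40, 0, 0, 0, 0), (89, 0, 0, 0, 0), (40, 0, 0, 0, 0), (77, 0, 0, 0, 0), (44, 0, 0, 0, 0), (80, 0, 0, 0, 0), (50, 0, 0, 0, 0), (80, 0, 0, 0, 0), (42, 0, 0, 0, 0), (48, 0, 0, 0, 0), (75, 0, 0, 0, 0), (87, 0, 0, 0, 0), (38, 0, 0, 0, 0), (87, 0, 0, 0, 0), (38, 0, 0, 0, 0), (75, 0, 0, 0,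 0), (42, 0, 0, 0, 0), (79, 0, 0, 0, 0), (48, 0, 0, 0, 0), (79, 0, 0, 0, 0), (4, 0, 0, 0, 0), (25, 0, 0, 0, 0), (8, 0, 0, 0, 0), (33, 0, 0, 0, 0), (5, 0, 0, 0, 0), (21, 0, 0, 0, 0), (9, 0, 0, 0, 0), (29, 0, 0, 0, 0), (12, 0, 0, 0, 0), (16, 0, 0, 0, 0), (30, 0, 0, 0, 0), (34, 0, 0, 0, 0), (44, 0, 0, 0, 0), (50, 0, 0, 0, 0), (77, 0, 0, 0, 0), (89, 0, 0, 0, 0), (40, 0, 0, 0, 0), (89, 0, 0, 0, 0), (40, 0, 0, 0, 0), (77, 0, 0, 0, 0), (44, 0, 0, 0, 0), (80, 0, 0, 0, 0), (50, 0, 0, 0, 0), (80, 0, 0, 0, 0), (45, 0, 0, 0, 0), (51, 0, 0, 0, 0), (73, 0, 0, 0, 0), (85, 0, 0, 0, 0), (36, 0, 0, 0, 0), (85, 0, 0, 0, 0), (36, 0, 0, 0, 0), (73, 0, 0, 0, 0), (45, 0, 0, 0, 0), (82, 0, 0, 0, 0), (51, 0, 0, 0, 0), (82, 0, 0, 0, 0), (0, 0, 0, 0, 0), (17, 0, 0, 0, 0), (10, 0, 0,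 0, 0), (35, 0, 0, 0, 0), (1, 0, 0, 0, 0), (13, 0, 0, 0, 0), (11, 0, 0, 0, 0), (31, 0, 0, 0, 0), (14, 0, 0, 0, 0), (18, 0, 0, 0, 0), (22, 0, 0, 0, 0), (26, 0, 0, 0, 0), (42, 0, 0, 0, 0), (48, 0, 0, 0, 0), (75, 0, 0, 0, 0), (87, 0, 0, 0, 0), (38, 0, 0, 0, 0), (87, 0, 0, 0, 0), (38, 0, 0, 0, 0), (75, 0, 0, 0, 0), (42, 0, 0, 0, 0), (79, 0, 0, 0, 0), (48, 0, 0, 0, 0), (79, 0, 0, 0, 0), (45, 0, 0, 0, 0), (51, 0, 0, 0, 0), (73, 0, 0, 0, 0), (85, 0, 0, 0, 0), (36, 0, 0, 0, 0), (85, 0, 0, 0, 0), (36, 0, 0, 0, 0), (73, 0, 0, 0, 0), (45, 0, 0, 0, 0), (82, 0, 0, 0, 0), (51, 0, 0, 0, 0), (82, 0, 0, 0, 0), (2, 0, 0, 0, 0), (19, 0, 0, 0, 0), (6, 0, 0, 0, 0), (27, 0, 0, 0, 0), (3, 0, 0, 0, 0), (15, 0, 0, 0, 0), (7, 0, 0, 0, 0), (23, 0, 0, 0, 0), (60, 0, 0, 0, 0), (84, 0,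 0, 0, 0), (54, 0, 0, 0, 0), (84, 0, 0, 0, 0), (66, 0, 0, 0, 0), (86, 0, 0, 0, 0), (54, 0, 0, 0, 0), (86, 0, 0, 0, 0), (66, 0, 0, 0, 0), (88, 0, 0, 0, 0), (60, 0, 0, 0, 0), (88, 0, 0, 0, 0), (8, 0, 0, 0, 0), (49, 0, 0, 0, 0), (4, 0, 0, 0, 0), (49, 0, 0, 0, 0), (68, 0, 0, 0, 0), (25, 0, 0, 0, 0), (4, 0, 0, 0, 0), (25, 0, 0, 0, 0), (4, 0, 0, 0, 0), (68, 0, 0, 0, 0), (68, 0, 0, 0, 0), (33, 0, 0, 0, 0), (8, 0, 0, 0, 0), (33, 0, 0, 0, 0), (8, 0, 0, 0, 0), (68, 0, 0, 0, 0), (49, 0, 0, 0, 0), (33, 0, 0, 0, 0), (49, 0, 0, 0, 0), (25, 0, 0, 0, 0), (10, 0, 0, 0, 0), (52, 0, 0, 0, 0), (0, 0, 0, 0, 0), (52, 0, 0, 0, 0), (62, 0, 0, 0, 0), (17, 0, 0, 0, 0), (0, 0, 0, 0, 0), (17, 0, 0, 0, 0), (0, 0, 0, 0, 0), (62, 0, 0, 0, 0), (62, 0, 0, 0, 0), (35, 0, 0, 0, 0), (10, 0,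 0, 0, 0), (35, 0, 0, 0, 0), (10, 0, 0, 0, 0), (62, 0, 0, 0, 0), (52, 0, 0, 0, 0), (35, 0, 0, 0, 0), (52, 0, 0, 0, 0), (17, 0, 0, 0, 0), (6, 0, 0, 0, 0), (53, 0, 0, 0, 0), (2, 0, 0, 0, 0), (53, 0, 0, 0, 0), (56, 0, 0, 0, 0), (19, 0, 0, 0, 0), (2, 0, 0, 0, 0), (19, 0, 0, 0, 0), (2, 0, 0, 0, 0), (56, 0, 0, 0, 0), (56, 0, 0, 0, 0), (27, 0, 0, 0, 0), (6, 0, 0, 0, 0), (27, 0, 0, 0, 0), (6, 0, 0, 0, 0), (56, 0, 0, 0, 0), (53, 0, 0, 0, 0), (27, 0, 0, 0, 0), (53, 0, 0, 0, 0), (19, 0, 0, 0, 0), (37, 0, 0, 0, 0), (65, 0, 0, 0, 0), (37, 0, 0, 0, 0), (59, 0, 0, 0, 0), (39, 0, 0, 0, 0), (71, 0, 0, 0, 0), (39, 0, 0, 0, 0), (59, 0, 0, 0, 0), (41, 0, 0, 0, 0), (71, 0, 0, 0, 0), (41, 0, 0, 0, 0), (65, 0, 0, 0, 0), (61, 0, 0, 0, 0), (72, 0, 0, 0, 0), (55, 0, 0, 0, 0), (72,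 0, 0, 0, 0), (67, 0, 0, 0, 0), (74, 0, 0, 0, 0), (55, 0, 0, 0, 0), (74, 0, 0, 0, 0), (67, 0, 0, 0, 0), (76, 0, 0, 0, 0), (61, 0, 0, 0, 0), (76, 0, 0, 0, 0), (9, 0, 0, 0, 0), (43, 0, 0, 0, 0), (5, 0, 0, 0, 0), (43, 0, 0, 0, 0), (69, 0, 0, 0, 0), (21, 0, 0, 0, 0), (5, 0, 0, 0, 0), (21, 0, 0, 0, 0), (5, 0, 0, 0, 0), (69, 0, 0, 0, 0), (69, 0, 0, 0, 0), (29, 0, 0, 0, 0), (9, 0, 0, 0, 0), (29, 0, 0, 0, 0), (9, 0, 0, 0, 0), (69, 0, 0, 0, 0), (43, 0, 0, 0, 0), (29, 0, 0, 0, 0), (43, 0, 0, 0, 0), (21, 0, 0, 0, 0), (11, 0, 0, 0, 0), (46, 0, 0, 0, 0), (1, 0, 0, 0, 0), (46, 0, 0, 0, 0), (63, 0, 0, 0, 0), (13, 0, 0, 0, 0), (1, 0, 0, 0, 0), (13, 0, 0, 0, 0), (1, 0, 0, 0, 0), (63, 0, 0, 0, 0), (63, 0, 0, 0, 0), (31, 0, 0, 0, 0), (11, 0, 0, 0, 0), (31, 0, 0, 0, 0), (11,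 0, 0, 0, 0), (63, 0, 0, 0, 0), (46, 0, 0, 0, 0), (31, 0, 0, 0, 0), (46, 0, 0, 0, 0), (13, 0, 0, 0, 0), (7, 0, 0, 0, 0), (47, 0, 0, 0, 0), (3, 0, 0, 0, 0), (47, 0, 0, 0, 0), (57, 0, 0, 0, 0), (15, 0, 0, 0, 0), (3, 0, 0, 0, 0), (15, 0, 0, 0, 0), (3, 0, 0, 0, 0), (57, 0, 0, 0, 0), (57, 0, 0, 0, 0), (23, 0, 0, 0, 0), (7, 0, 0, 0, 0), (23, 0, 0, 0, 0), (7, 0, 0, 0, 0), (57, 0, 0, 0, 0), (47, 0, 0, 0, 0), (23, 0, 0, 0, 0), (47, 0, 0, 0, 0), (15, 0, 0, 0, 0), (37, 0, 0, 0, 0), (65, 0, 0, 0, 0), (37, 0, 0, 0, 0), (59, 0, 0, 0, 0), (39, 0, 0, 0, 0), (71, 0, 0, 0, 0), (39, 0, 0, 0, 0), (59, 0, 0, 0, 0), (41, 0, 0, 0, 0), (71, 0, 0, 0, 0), (41, 0, 0, 0, 0), (65, 0, 0, 0, 0)]]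

theorem tr56 : trK keys lk56 kl56 = true := by
  decide +kernel

theorem x56_0 : expB 2 6 dg3 dg15 m56_0 (l56_0 ++ z56_0) w56_0 = true := by
  decide +kernel

theorem t56_0_0 : chkS lk56 2 6 [(1, m56_0)] l56_0
  [(0, 16, 16, 5456400, 5456400), (1, 16, 16, 4411920, 3490320), (1, 16, 16, 5391120, 5448720), (2, 16, 16, 5456400, 5456400), (4, 16, 16, 5391105, 5448705), (7, 16, 16, 3428880, 3428880), (8, 1, 1, 5251395, 5309220), (6, 16, 16, 5456160, 5456160), (8, 16, 16, 5448720, 5391120), (6, 16, 16, 3482640, 4346640), (1, 1, 1, 5324850, 5443650), (11, 16, 16, 4530945, 4530945), (4, 16, 16, 5456400, 5456400), (8, 1, 1, 2183220, 3151170), (7, 16, 16, 5387265, 5387265), (6, 16, 16, 5325570, 5447745), (8, 16, 16, 2380545, 3417345), (1, 1, 1, 4280355, 3473730),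 (6, 16, 16, 2438145, 4338945), (11, 16, 16, 2311440, 2311440), (3, 16, 16, 5456400, 5456400), (10, 1, 1, 3231780, 3166530), (10, 1, 1, 5320770, 5320770), (9, 1, 1, 3219540, 1069890), (10, 16, 16, 3428880, 3428880), (7, 1, 1, 3166500, 3166500), (5, 16, 16, 4411920, 3490320), (6, 1, 1, 3154260, 1069860), (10, 16, 16, 5387280, 5387280), (5, 16, 16, 5391105, 5448705), (7, 1, 1, 5320770, 5320770), (6, 1, 1, 2175060, 1062210), (9, 16, 16, 3482640, 4346640), (6, 1, 1, 5259795, 5440020), (6, 1, 1, 5390385, 5444610), (2, 1, 1, 5324850, 5443650)]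
  [(0, 1152), (2, -2304), (3, -1152), (5, 2304), (7, -4608), (8, 4608), (9, 2304), (11, -2304)] = true := by
  decide +kernel

section

variable {κ ι : Type*} [Fintype κ] [Fintype ι] [Inhabited κ] [Inhabited ι]

noncomputable def F56_0 (E : Env κ ι) : (Fin 2 → κ) → (Fin 6 → ι) → ℝ := op2 (P3 κ) (P15 ι) (fB E 2 6 m56_0)

def r56_0_0 : List (ℕ × ℤ) := [(0, 1152), (2, -2304), (3, -1152), (5, 2304), (7, -4608), (8, 4608), (9, 2304), (11, -2304)]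

theorem h56_0_0 (E : Env κ ι) : ip (F56_0 E) (F56_0 E) = dotS (ek E lk56) r56_0_0 :=
  op_entryZ E lk56 2 6 _ _ _ _ (pg3 κ) (pg15 ι) m56_0 m56_0 l56_0 z56_0 w56_0 x56_0 (by decide) _ (chkS_sound E lk56 2 6 _ _ _ _ t56_0_0)

theorem row56_0 (E : Env κ ι) : RowG (ek E lk56) (F56_0 E) [F56_0 E] [r56_0_0] :=
  rowG_cons _ _ _ _ _ _ (h56_0_0 E) (rowG_nil _ _)

def tab56 : List (List (List (ℕ × ℤ))) := [[r56_0_0]]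

theorem tri56 (E : Env κ ι) : TriG (ek E lk56) [F56_0 E] tab56 := by
  refine triG_cons _ _ _ _ _ (row56_0 E) ?_
  exact triG_nil _

end

def lk57 : List Key := [
  (2, 6, [(0, [0], [0, 1]), (0, [0], [0, 1]), (0, [1], [2, 3]), (0, [1], [2, 3]), (1, [], [4, 5]), (1, [], [4, 5])]),
  (2, 6, [(0, [0], [0, 1]), (0, [0], [0, 1]), (0, [1], [2, 3]), (0, [1], [2, 4]), (1, [], [4, 5]), (1, [], [3, 5])]),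
  (2, 6, [(0, [0], [0, 1]), (0, [0], [0, 1]), (0, [1], [2, 3]), (0, [1], [4, 5]), (1, [], [4, 5]), (1, [], [2, 3])]),
  (2, 6, [(0, [0], [0, 1]), (0, [1], [2, 3]), (0, [0], [2, 3]), (0, [1], [0, 1]), (1, [], [4, 5]), (1, [], [4, 5])]),
  (2, 6, [(0, [0], [0, 1]), (0, [1], [2, 3]), (0, [1], [0, 2]), (0, [0], [1, 3]), (1, [], [4, 5]), (1, [], [4, 5])]),
  (2, 6, [(0, [0], [0, 1]), (0, [1], [2, 3]), (0, [0], [2, 4]), (0, [1], [0, 5]), (1, [], [4, 5]), (1, [], [1, 3])]),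
  (2, 6, [(0, [0], [0, 1]), (0, [0], [2, 0]), (0, [1], [3, 1]), (0, [1], [4, 5]), (1, [], [4, 5]), (1, [], [2, 3])]),
  (2, 6, [(0, [0], [0, 1]), (0, [0], [2, 0]), (0, [1], [3, 1]), (0, [1], [2, 4]), (1, [], [4, 5]), (1, [], [3, 5])]),
  (2, 6, [(0, [0], [0, 1]), (0, [0], [2, 0]), (0, [1], [3, 1]), (0, [1], [3, 4]), (1, [], [4, 5]), (1, [], [2, 5])]),
  (2, 6, [(0, [0], [0, 1]), (0, [0], [2, 3]), (0, [1], [0, 1]), (0, [1], [4, 5]), (1, [], [4, 5]), (1, [], [2, 3])]),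
  (2, 6, [(0, [0], [0, 1]), (0, [0], [2, 3]), (0, [1], [0, 1]), (0, [1], [2, 4]), (1, [], [4, 5]), (1, [], [3, 5])]),
  (2, 6, [(0, [0], [0, 1]), (0, [0], [2, 1]), (0, [1], [3, 4]), (0, [1], [3, 5]), (1, [], [0, 5]), (1, [], [2, 4])])]

def kl57 : List ℕ := [9, 10, 14, 16, 19, 21, 40, 42, 43, 46, 48, 62]

def m57_0 : Base := (0, 0, [(0, [0], [0, 1]), (0, [1], [2, 3]), (1, [], [4, 5])])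

def l57_0 : Cov := [(3456, 0, 0, [(0, [0], [0, 1]), (0, [1], [2, 3]), (1, [], [4, 5])]),
  (3456, 0, 0, [(0, [0], [0, 1]), (0, [1], [2, 4]), (1, [], [3, 5])]),
  (-3456, 0, 0, [(0, [0], [0, 1]), (0, [1], [3, 5]), (1, [], [2, 4])]),
  (-3456, 0, 0, [(0, [0], [0, 1]), (0, [1], [4, 5]), (1, [], [2, 3])]),
  (3456, 0, 0, [(0, [0], [0, 2]), (0, [1], [1, 3]), (1, [], [4, 5])]),
  (3456, 0, 0, [(0, [0], [0, 2]), (0, [1], [1, 5]), (1, [], [3, 4])]),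
  (-3456, 0, 0, [(0, [0], [0, 2]), (0, [1], [3, 4]), (1, [], [1, 5])]),
  (-3456, 0, 0, [(0, [0], [0, 2]), (0, [1], [4, 5]), (1, [], [1, 3])]),
  (-3456, 0, 0, [(0, [0], [0, 4]), (0, [1], [1, 2]), (1, [], [3, 5])]),
  (3456, 0, 0, [(0, [0], [0, 4]), (0, [1], [1, 5]), (1, [], [2, 3])]),
  (-3456, 0, 0, [(0, [0], [0, 4]), (0, [1], [2, 3]), (1, [], [1, 5])]),
  (3456, 0, 0, [(0, [0], [0, 4]), (0, [1], [3, 5]), (1, [], [1, 2])]),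
  (-3456, 0, 0, [(0, [0], [0, 5]), (0, [1], [1, 2]), (1, [], [3, 4])]),
  (-3456, 0, 0, [(0, [0], [0, 5]), (0, [1], [1, 3]), (1, [], [2, 4])]),
  (3456, 0, 0, [(0, [0], [0, 5]), (0, [1], [2, 4]), (1, [], [1, 3])]),
  (3456, 0, 0, [(0, [0], [0, 5]), (0, [1], [3, 4]), (1, [], [1, 2])]),
  (3456, 0, 0, [(0, [0], [1, 2]), (0, [1], [0, 4]), (1, [], [3, 5])]),
  (3456, 0, 0, [(0, [0], [1, 2]), (0, [1], [0, 5]), (1, [], [3, 4])]),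
  (-3456, 0, 0, [(0, [0], [1, 2]), (0, [1], [3, 4]), (1, [], [0, 5])]),
  (-3456, 0, 0, [(0, [0], [1, 2]), (0, [1], [3, 5]), (1, [], [0, 4])]),
  (-3456, 0, 0, [(0, [0], [1, 3]), (0, [1], [0, 2]), (1, [], [4, 5])]),
  (3456, 0, 0, [(0, [0], [1, 3]), (0, [1], [0, 5]), (1, [], [2, 4])]),
  (-3456, 0, 0, [(0, [0], [1, 3]), (0, [1], [2, 4]), (1, [], [0, 5])]),
  (3456, 0, 0, [(0, [0], [1, 3]), (0, [1], [4, 5]), (1, [], [0, 2])]),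
  (-3456, 0, 0, [(0, [0], [1, 5]), (0, [1], [0, 2]), (1, [], [3, 4])]),
  (-3456, 0, 0, [(0, [0], [1, 5]), (0, [1], [0, 4]), (1, [], [2, 3])]),
  (3456, 0, 0, [(0, [0], [1, 5]), (0, [1], [2, 3]), (1, [], [0, 4])]),
  (3456, 0, 0, [(0, [0], [1, 5]), (0, [1], [3, 4]), (1, [], [0, 2])]),
  (-3456, 0, 0, [(0, [0], [2, 3]), (0, [1], [0, 1]), (1, [], [4, 5])]),
  (3456, 0, 0, [(0, [0], [2, 3]), (0, [1], [0, 4]), (1, [], [1, 5])]),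
  (-3456, 0, 0, [(0, [0], [2, 3]), (0, [1], [1, 5]), (1, [], [0, 4])]),
  (3456, 0, 0, [(0, [0], [2, 3]), (0, [1], [4, 5]), (1, [], [0, 1])]),
  (-3456, 0, 0, [(0, [0], [2, 4]), (0, [1], [0, 1]), (1, [], [3, 5])]),
  (-3456, 0, 0, [(0, [0], [2, 4]), (0, [1], [0, 5]), (1, [], [1, 3])]),
  (3456, 0, 0, [(0, [0], [2, 4]), (0, [1], [1, 3]), (1, [], [0, 5])]),
  (3456, 0, 0, [(0, [0], [2, 4]), (0, [1], [3, 5]), (1, [], [0, 1])]),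
  (3456, 0, 0, [(0, [0], [3, 4]), (0, [1], [0, 2]), (1, [], [1, 5])]),
  (-3456, 0, 0, [(0, [0], [3, 4]), (0, [1], [0, 5]), (1, [], [1, 2])]),
  (3456, 0, 0, [(0, [0], [3, 4]), (0, [1], [1, 2]), (1, [], [0, 5])]),
  (-3456, 0, 0, [(0, [0], [3, 4]), (0, [1], [1, 5]), (1, [], [0, 2])]),
  (3456, 0, 0, [(0, [0], [3, 5]), (0, [1], [0, 1]), (1, [], [2, 4])]),
  (-3456, 0, 0, [(0, [0], [3, 5]), (0, [1], [0, 4]), (1, [], [1, 2])]),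
  (3456, 0, 0, [(0, [0], [3, 5]), (0, [1], [1, 2]), (1, [], [0, 4])]),
  (-3456, 0, 0, [(0, [0], [3, 5]), (0, [1], [2, 4]), (1, [], [0, 1])]),
  (3456, 0, 0, [(0, [0], [4, 5]), (0, [1], [0, 1]), (1, [], [2, 3])]),
  (3456, 0, 0, [(0, [0], [4, 5]), (0, [1], [0, 2]), (1, [], [1, 3])]),
  (-3456, 0, 0, [(0, [0], [4, 5]), (0, [1], [1, 3]), (1, [], [0, 2])]),
  (-3456, 0, 0, [(0, [0], [4, 5]), (0, [1], [2, 3]), (1, [], [0, 1])])]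

def z57_0 : Cov := [(0, 0, 0, [(0, [0], [0, 1]), (0, [1], [2, 5]), (1, [], [3, 4])]),
  (0, 0, 0, [(0, [0], [0, 1]), (0, [1], [3, 4]), (1, [], [2, 5])]),
  (0, 0, 0, [(0, [0], [0, 2]), (0, [1], [1, 4]), (1, [], [3, 5])]),
  (0, 0, 0, [(0, [0], [0, 2]), (0, [1], [3, 5]), (1, [], [1, 4])]),
  (0, 0, 0, [(0, [0], [0, 3]), (0, [1], [1, 2]), (1, [], [4, 5])]),
  (0, 0, 0, [(0, [0], [0, 3]), (0, [1], [1, 4]), (1, [], [2, 5])]),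
  (0, 0, 0, [(0, [0], [0, 3]), (0, [1], [1, 5]), (1, [], [2, 4])]),
  (0, 0, 0, [(0, [0], [0, 3]), (0, [1], [2, 4]), (1, [], [1, 5])]),
  (0, 0, 0, [(0, [0], [0, 3]), (0, [1], [2, 5]), (1, [], [1, 4])]),
  (0, 0, 0, [(0, [0], [0, 3]), (0, [1], [4, 5]), (1, [], [1, 2])]),
  (0, 0, 0, [(0, [0], [0, 4]), (0, [1], [1, 3]), (1, [], [2, 5])]),
  (0, 0, 0, [(0, [0], [0, 4]), (0, [1], [2, 5]), (1, [], [1, 3])]),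
  (0, 0, 0, [(0, [0], [0, 5]), (0, [1], [1, 4]), (1, [], [2, 3])]),
  (0, 0, 0, [(0, [0], [0, 5]), (0, [1], [2, 3]), (1, [], [1, 4])]),
  (0, 0, 0, [(0, [0], [1, 2]), (0, [1], [0, 3]), (1, [], [4, 5])]),
  (0, 0, 0, [(0, [0], [1, 2]), (0, [1], [4, 5]), (1, [], [0, 3])]),
  (0, 0, 0, [(0, [0], [1, 3]), (0, [1], [0, 4]), (1, [], [2, 5])]),
  (0, 0, 0, [(0, [0], [1, 3]), (0, [1], [2, 5]), (1, [], [0, 4])]),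
  (0, 0, 0, [(0, [0], [1, 4]), (0, [1], [0, 2]), (1, [], [3, 5])]),
  (0, 0, 0, [(0, [0], [1, 4]), (0, [1], [0, 3]), (1, [], [2, 5])]),
  (0, 0, 0, [(0, [0], [1, 4]), (0, [1], [0, 5]), (1, [], [2, 3])]),
  (0, 0, 0, [(0, [0], [1, 4]), (0, [1], [2, 3]), (1, [], [0, 5])]),
  (0, 0, 0, [(0, [0], [1, 4]), (0, [1], [2, 5]), (1, [], [0, 3])]),
  (0, 0, 0, [(0, [0], [1, 4]), (0, [1], [3, 5]), (1, [], [0, 2])]),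
  (0, 0, 0, [(0, [0], [1, 5]), (0, [1], [0, 3]), (1, [], [2, 4])]),
  (0, 0, 0, [(0, [0], [1, 5]), (0, [1], [2, 4]), (1, [], [0, 3])]),
  (0, 0, 0, [(0, [0], [2, 3]), (0, [1], [0, 5]), (1, [], [1, 4])]),
  (0, 0, 0, [(0, [0], [2, 3]), (0, [1], [1, 4]), (1, [], [0, 5])]),
  (0, 0, 0, [(0, [0], [2, 4]), (0, [1], [0, 3]), (1, [], [1, 5])]),
  (0, 0, 0, [(0, [0], [2, 4]), (0, [1], [1, 5]), (1, [], [0, 3])]),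
  (0, 0, 0, [(0, [0], [2, 5]), (0, [1], [0, 1]), (1, [], [3, 4])]),
  (0, 0, 0, [(0, [0], [2, 5]), (0, [1], [0, 3]), (1, [], [1, 4])]),
  (0, 0, 0, [(0, [0], [2, 5]), (0, [1], [0, 4]), (1, [], [1, 3])]),
  (0, 0, 0, [(0, [0], [2, 5]), (0, [1], [1, 3]), (1, [], [0, 4])]),
  (0, 0, 0, [(0, [0], [2, 5]), (0, [1], [1, 4]), (1, [], [0, 3])]),
  (0, 0, 0, [(0, [0], [2, 5]), (0, [1], [3, 4]), (1, [], [0, 1])]),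
  (0, 0, 0, [(0, [0], [3, 4]), (0, [1], [0, 1]), (1, [], [2, 5])]),
  (0, 0, 0, [(0, [0], [3, 4]), (0, [1], [2, 5]), (1, [], [0, 1])]),
  (0, 0, 0, [(0, [0], [3, 5]), (0, [1], [0, 2]), (1, [], [1, 4])]),
  (0, 0, 0, [(0, [0], [3, 5]), (0, [1], [1, 4]), (1, [], [0, 2])]),
  (0, 0, 0, [(0, [0], [4, 5]), (0, [1], [0, 3]), (1, [], [1, 2])]),
  (0, 0, 0, [(0, [0], [4, 5]), (0, [1], [1, 2]), (1, [], [0, 3])])]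

def w57_0 : List (List Wit) := [[(0, 0, 0, 0, 0), (0, 0, 0, 0, 0), (1, 0, 0, 0, 0), (1, 0, 0, 0, 0), (48, 0, 0, 0, 0), (48, 0, 0, 0, 0), (0, 0, 0, 0, 0), (0, 0, 0, 0, 0), (49, 0, 0, 0, 0), (49, 0, 0, 0, 0), (2, 0, 0, 0, 0), (2, 0, 0, 0, 0), (1, 0, 0, 0, 0), (1, 0, 0, 0, 0), (49, 0, 0, 0, 0), (49, 0, 0, 0, 0), (3, 0, 0, 0, 0), (3, 0, 0, 0, 0), (48, 0, 0, 0, 0), (48, 0, 0, 0, 0), (2, 0, 0, 0, 0), (2, 0, 0, 0, 0), (3, 0, 0, 0, 0), (3, 0, 0, 0, 0), (4, 0, 0, 0, 0), (4, 0, 0, 0, 0), (50, 0, 0, 0, 0), (50, 0, 0, 0, 0), (5, 0, 0, 0, 0), (5, 0, 0, 0, 0), (4, 0, 0, 0, 0), (4, 0, 0, 0, 0), (6, 0, 0, 0, 0), (6, 0, 0, 0, 0), (51, 0, 0, 0, 0), (51, 0, 0, 0, 0), (50, 0, 0, 0, 0), (50, 0, 0, 0, 0), (6, 0, 0, 0, 0), (6, 0, 0, 0, 0), (7, 0, 0, 0, 0), (7, 0, 0, 0, 0), (5,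 0, 0, 0, 0), (5, 0, 0, 0, 0), (51, 0, 0, 0, 0), (51, 0, 0, 0, 0), (7, 0, 0, 0, 0), (7, 0, 0, 0, 0), (52, 0, 0, 0, 0), (52, 0, 0, 0, 0), (53, 0, 0, 0, 0), (53, 0, 0, 0, 0), (54, 0, 0, 0, 0), (54, 0, 0, 0, 0), (52, 0, 0, 0, 0), (52, 0, 0, 0, 0), (55, 0, 0, 0, 0), (55, 0, 0, 0, 0), (56, 0, 0, 0, 0), (56, 0, 0, 0, 0), (53, 0, 0, 0, 0), (53, 0, 0, 0, 0), (55, 0, 0, 0, 0), (55, 0, 0, 0, 0), (57, 0, 0, 0, 0), (57, 0, 0, 0, 0), (54, 0, 0, 0, 0), (54, 0, 0, 0, 0), (56, 0, 0, 0, 0), (56, 0, 0, 0, 0), (57, 0, 0, 0, 0), (57, 0, 0, 0, 0), (8, 0, 0, 0, 0), (8, 0, 0, 0, 0), (58, 0, 0, 0, 0), (58, 0, 0, 0, 0), (9, 0, 0, 0, 0), (9, 0, 0, 0, 0), (8, 0, 0, 0, 0), (8, 0, 0, 0, 0), (10, 0, 0, 0, 0), (10, 0, 0, 0, 0), (59, 0, 0, 0, 0), (59, 0, 0, 0, 0), (58, 0, 0, 0, 0), (58,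 0, 0, 0, 0), (10, 0, 0, 0, 0), (10, 0, 0, 0, 0), (11, 0, 0, 0, 0), (11, 0, 0, 0, 0), (9, 0, 0, 0, 0), (9, 0, 0, 0, 0), (59, 0, 0, 0, 0), (59, 0, 0, 0, 0), (11, 0, 0, 0, 0), (11, 0, 0, 0, 0), (12, 0, 0, 0, 0), (12, 0, 0, 0, 0), (13, 0, 0, 0, 0), (13, 0, 0, 0, 0), (60, 0, 0, 0, 0), (60, 0, 0, 0, 0), (12, 0, 0, 0, 0), (12, 0, 0, 0, 0), (61, 0, 0, 0, 0), (61, 0, 0, 0, 0), (14, 0, 0, 0, 0), (14, 0, 0, 0, 0), (13, 0, 0, 0, 0), (13, 0, 0, 0, 0), (61, 0, 0, 0, 0), (61, 0, 0, 0, 0), (15, 0, 0, 0, 0), (15, 0, 0, 0, 0), (60, 0, 0, 0, 0), (60, 0, 0, 0, 0), (14, 0, 0, 0, 0), (14, 0, 0, 0, 0), (15, 0, 0, 0, 0), (15, 0, 0, 0, 0), (0, 0, 0, 0, 0), (0, 0, 0, 0, 0), (1, 0, 0, 0, 0), (1, 0, 0, 0, 0), (48, 0, 0, 0, 0), (48, 0, 0, 0, 0), (0, 0, 0, 0, 0), (0, 0, 0, 0, 0), (49,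 0, 0, 0, 0), (49, 0, 0, 0, 0), (2, 0, 0, 0, 0), (2, 0, 0, 0, 0), (1, 0, 0, 0, 0), (1, 0, 0, 0, 0), (49, 0, 0, 0, 0), (49, 0, 0, 0, 0), (3, 0, 0, 0, 0), (3, 0, 0, 0, 0), (48, 0, 0, 0, 0), (48, 0, 0, 0, 0), (2, 0, 0, 0, 0), (2, 0, 0, 0, 0), (3, 0, 0, 0, 0), (3, 0, 0, 0, 0), (62, 0, 0, 0, 0), (62, 0, 0, 0, 0), (16, 0, 0, 0, 0), (16, 0, 0, 0, 0), (17, 0, 0, 0, 0), (17, 0, 0, 0, 0), (62, 0, 0, 0, 0), (62, 0, 0, 0, 0), (18, 0, 0, 0, 0), (18, 0, 0, 0, 0), (19, 0, 0, 0, 0), (19, 0, 0, 0, 0), (16, 0, 0, 0, 0), (16, 0, 0, 0, 0), (18, 0, 0, 0, 0), (18, 0, 0, 0, 0), (63, 0, 0, 0, 0), (63, 0, 0, 0, 0), (17, 0, 0, 0, 0), (17, 0, 0, 0, 0), (19, 0, 0, 0, 0), (19, 0, 0, 0, 0), (63, 0, 0, 0, 0), (63, 0, 0, 0, 0), (20, 0, 0, 0, 0), (20, 0, 0, 0, 0), (64, 0, 0, 0, 0), (64,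 0, 0, 0, 0), (21, 0, 0, 0, 0), (21, 0, 0, 0, 0), (20, 0, 0, 0, 0), (20, 0, 0, 0, 0), (22, 0, 0, 0, 0), (22, 0, 0, 0, 0), (65, 0, 0, 0, 0), (65, 0, 0, 0, 0), (64, 0, 0, 0, 0), (64, 0, 0, 0, 0), (22, 0, 0, 0, 0), (22, 0, 0, 0, 0), (23, 0, 0, 0, 0), (23, 0, 0, 0, 0), (21, 0, 0, 0, 0), (21, 0, 0, 0, 0), (65, 0, 0, 0, 0), (65, 0, 0, 0, 0), (23, 0, 0, 0, 0), (23, 0, 0, 0, 0), (66, 0, 0, 0, 0), (66, 0, 0, 0, 0), (67, 0, 0, 0, 0), (67, 0, 0, 0, 0), (68, 0, 0, 0, 0), (68, 0, 0, 0, 0), (66, 0, 0, 0, 0), (66, 0, 0, 0, 0), (69, 0, 0, 0, 0), (69, 0, 0, 0, 0), (70, 0, 0, 0, 0), (70, 0, 0, 0, 0), (67, 0, 0, 0, 0), (67, 0, 0, 0, 0), (69, 0, 0, 0, 0), (69, 0, 0, 0, 0), (71, 0, 0, 0, 0), (71, 0, 0, 0, 0), (68, 0, 0, 0, 0), (68, 0, 0, 0, 0), (70, 0, 0, 0, 0), (70, 0, 0, 0,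 0), (71, 0, 0, 0, 0), (71, 0, 0, 0, 0), (24, 0, 0, 0, 0), (24, 0, 0, 0, 0), (72, 0, 0, 0, 0), (72, 0, 0, 0, 0), (25, 0, 0, 0, 0), (25, 0, 0, 0, 0), (24, 0, 0, 0, 0), (24, 0, 0, 0, 0), (26, 0, 0, 0, 0), (26, 0, 0, 0, 0), (73, 0, 0, 0, 0), (73, 0, 0, 0, 0), (72, 0, 0, 0, 0), (72, 0, 0, 0, 0), (26, 0, 0, 0, 0), (26, 0, 0, 0, 0), (27, 0, 0, 0, 0), (27, 0, 0, 0, 0), (25, 0, 0, 0, 0), (25, 0, 0, 0, 0), (73, 0, 0, 0, 0), (73, 0, 0, 0, 0), (27, 0, 0, 0, 0), (27, 0, 0, 0, 0), (4, 0, 0, 0, 0), (4, 0, 0, 0, 0), (50, 0, 0, 0, 0), (50, 0, 0, 0, 0), (5, 0, 0, 0, 0), (5, 0, 0, 0, 0), (4, 0, 0, 0, 0), (4, 0, 0, 0, 0), (6, 0, 0, 0, 0), (6, 0, 0, 0, 0), (51, 0, 0, 0, 0), (51, 0, 0, 0, 0), (50, 0, 0, 0, 0), (50, 0, 0, 0, 0), (6, 0, 0, 0, 0), (6, 0, 0, 0, 0), (7, 0, 0, 0, 0),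 (7, 0, 0, 0, 0), (5, 0, 0, 0, 0), (5, 0, 0, 0, 0), (51, 0, 0, 0, 0), (51, 0, 0, 0, 0), (7, 0, 0, 0, 0), (7, 0, 0, 0, 0), (62, 0, 0, 0, 0), (62, 0, 0, 0, 0), (16, 0, 0, 0, 0), (16, 0, 0, 0, 0), (17, 0, 0, 0, 0), (17, 0, 0, 0, 0), (62, 0, 0, 0, 0), (62, 0, 0, 0, 0), (18, 0, 0, 0, 0), (18, 0, 0, 0, 0), (19, 0, 0, 0, 0), (19, 0, 0, 0, 0), (16, 0, 0, 0, 0), (16, 0, 0, 0, 0), (18, 0, 0, 0, 0), (18, 0, 0, 0, 0), (63, 0, 0, 0, 0), (63, 0, 0, 0, 0), (17, 0, 0, 0, 0), (17, 0, 0, 0, 0), (19, 0, 0, 0, 0), (19, 0, 0, 0, 0), (63, 0, 0, 0, 0), (63, 0, 0, 0, 0), (28, 0, 0, 0, 0), (28, 0, 0, 0, 0), (29, 0, 0, 0, 0), (29, 0, 0, 0, 0), (74, 0, 0, 0, 0), (74, 0, 0, 0, 0), (28, 0, 0, 0, 0), (28, 0, 0, 0, 0), (75, 0, 0, 0, 0), (75, 0, 0, 0, 0), (30, 0, 0, 0, 0), (30, 0, 0, 0,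 0), (29, 0, 0, 0, 0), (29, 0, 0, 0, 0), (75, 0, 0, 0, 0), (75, 0, 0, 0, 0), (31, 0, 0, 0, 0), (31, 0, 0, 0, 0), (74, 0, 0, 0, 0), (74, 0, 0, 0, 0), (30, 0, 0, 0, 0), (30, 0, 0, 0, 0), (31, 0, 0, 0, 0), (31, 0, 0, 0, 0), (32, 0, 0, 0, 0), (32, 0, 0, 0, 0), (76, 0, 0, 0, 0), (76, 0, 0, 0, 0), (33, 0, 0, 0, 0), (33, 0, 0, 0, 0), (32, 0, 0, 0, 0), (32, 0, 0, 0, 0), (34, 0, 0, 0, 0), (34, 0, 0, 0, 0), (77, 0, 0, 0, 0), (77, 0, 0, 0, 0), (76, 0, 0, 0, 0), (76, 0, 0, 0, 0), (34, 0, 0, 0, 0), (34, 0, 0, 0, 0), (35, 0, 0, 0, 0), (35, 0, 0, 0, 0), (33, 0, 0, 0, 0), (33, 0, 0, 0, 0), (77, 0, 0, 0, 0), (77, 0, 0, 0, 0), (35, 0, 0, 0, 0), (35, 0, 0, 0, 0), (78, 0, 0, 0, 0), (78, 0, 0, 0, 0), (79, 0, 0, 0, 0), (79, 0, 0, 0, 0), (80, 0, 0, 0, 0), (80, 0, 0, 0, 0), (78,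 0, 0, 0, 0), (78, 0, 0, 0, 0), (81, 0, 0, 0, 0), (81, 0, 0, 0, 0), (82, 0, 0, 0, 0), (82, 0, 0, 0, 0), (79, 0, 0, 0, 0), (79, 0, 0, 0, 0), (81, 0, 0, 0, 0), (81, 0, 0, 0, 0), (83, 0, 0, 0, 0), (83, 0, 0, 0, 0), (80, 0, 0, 0, 0), (80, 0, 0, 0, 0), (82, 0, 0, 0, 0), (82, 0, 0, 0, 0), (83, 0, 0, 0, 0), (83, 0, 0, 0, 0), (52, 0, 0, 0, 0), (52, 0, 0, 0, 0), (53, 0, 0, 0, 0), (53, 0, 0, 0, 0), (54, 0, 0, 0, 0), (54, 0, 0, 0, 0), (52, 0, 0, 0, 0), (52, 0, 0, 0, 0), (55, 0, 0, 0, 0), (55, 0, 0, 0, 0), (56, 0, 0, 0, 0), (56, 0, 0, 0, 0), (53, 0, 0, 0, 0), (53, 0, 0, 0, 0), (55, 0, 0, 0, 0), (55, 0, 0, 0, 0), (57, 0, 0, 0, 0), (57, 0, 0, 0, 0), (54, 0, 0, 0, 0), (54, 0, 0, 0, 0), (56, 0, 0, 0, 0), (56, 0, 0, 0, 0), (57, 0, 0, 0, 0), (57, 0, 0, 0, 0), (20, 0, 0, 0,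 0), (20, 0, 0, 0, 0), (64, 0, 0, 0, 0), (64, 0, 0, 0, 0), (21, 0, 0, 0, 0), (21, 0, 0, 0, 0), (20, 0, 0, 0, 0), (20, 0, 0, 0, 0), (22, 0, 0, 0, 0), (22, 0, 0, 0, 0), (65, 0, 0, 0, 0), (65, 0, 0, 0, 0), (64, 0, 0, 0, 0), (64, 0, 0, 0, 0), (22, 0, 0, 0, 0), (22, 0, 0, 0, 0), (23, 0, 0, 0, 0), (23, 0, 0, 0, 0), (21, 0, 0, 0, 0), (21, 0, 0, 0, 0), (65, 0, 0, 0, 0), (65, 0, 0, 0, 0), (23, 0, 0, 0, 0), (23, 0, 0, 0, 0), (28, 0, 0, 0, 0), (28, 0, 0, 0, 0), (29, 0, 0, 0, 0), (29, 0, 0, 0, 0), (74, 0, 0, 0, 0), (74, 0, 0, 0, 0), (28, 0, 0, 0, 0), (28, 0, 0, 0, 0), (75, 0, 0, 0, 0), (75, 0, 0, 0, 0), (30, 0, 0, 0, 0), (30, 0, 0, 0, 0), (29, 0, 0, 0, 0), (29, 0, 0, 0, 0), (75, 0, 0, 0, 0), (75, 0, 0, 0, 0), (31, 0, 0, 0, 0), (31, 0, 0, 0, 0), (74, 0, 0, 0, 0), (74,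 0, 0, 0, 0), (30, 0, 0, 0, 0), (30, 0, 0, 0, 0), (31, 0, 0, 0, 0), (31, 0, 0, 0, 0), (84, 0, 0, 0, 0), (84, 0, 0, 0, 0), (36, 0, 0, 0, 0), (36, 0, 0, 0, 0), (37, 0, 0, 0, 0), (37, 0, 0, 0, 0), (84, 0, 0, 0, 0), (84, 0, 0, 0, 0), (38, 0, 0, 0, 0), (38, 0, 0, 0, 0), (39, 0, 0, 0, 0), (39, 0, 0, 0, 0), (36, 0, 0, 0, 0), (36, 0, 0, 0, 0), (38, 0, 0, 0, 0), (38, 0, 0, 0, 0), (85, 0, 0, 0, 0), (85, 0, 0, 0, 0), (37, 0, 0, 0, 0), (37, 0, 0, 0, 0), (39, 0, 0, 0, 0), (39, 0, 0, 0, 0), (85, 0, 0, 0, 0), (85, 0, 0, 0, 0), (40, 0, 0, 0, 0), (40, 0, 0, 0, 0), (86, 0, 0, 0, 0), (86, 0, 0, 0, 0), (41, 0, 0, 0, 0), (41, 0, 0, 0, 0), (40, 0, 0, 0, 0), (40, 0, 0, 0, 0), (42, 0, 0, 0, 0), (42, 0, 0, 0, 0), (87, 0, 0, 0, 0), (87, 0, 0, 0, 0), (86, 0, 0, 0, 0), (86, 0, 0, 0,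 0), (42, 0, 0, 0, 0), (42, 0, 0, 0, 0), (43, 0, 0, 0, 0), (43, 0, 0, 0, 0), (41, 0, 0, 0, 0), (41, 0, 0, 0, 0), (87, 0, 0, 0, 0), (87, 0, 0, 0, 0), (43, 0, 0, 0, 0), (43, 0, 0, 0, 0), (8, 0, 0, 0, 0), (8, 0, 0, 0, 0), (58, 0, 0, 0, 0), (58, 0, 0, 0, 0), (9, 0, 0, 0, 0), (9, 0, 0, 0, 0), (8, 0, 0, 0, 0), (8, 0, 0, 0, 0), (10, 0, 0, 0, 0), (10, 0, 0, 0, 0), (59, 0, 0, 0, 0), (59, 0, 0, 0, 0), (58, 0, 0, 0, 0), (58, 0, 0, 0, 0), (10, 0, 0, 0, 0), (10, 0, 0, 0, 0), (11, 0, 0, 0, 0), (11, 0, 0, 0, 0), (9, 0, 0, 0, 0), (9, 0, 0, 0, 0), (59, 0, 0, 0, 0), (59, 0, 0, 0, 0), (11, 0, 0, 0, 0), (11, 0, 0, 0, 0), (66, 0, 0, 0, 0), (66, 0, 0, 0, 0), (67, 0, 0, 0, 0), (67, 0, 0, 0, 0), (68, 0, 0, 0, 0), (68, 0, 0, 0, 0), (66, 0, 0, 0, 0), (66, 0, 0, 0, 0), (69, 0, 0, 0,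 0), (69, 0, 0, 0, 0), (70, 0, 0, 0, 0), (70, 0, 0, 0, 0), (67, 0, 0, 0, 0), (67, 0, 0, 0, 0), (69, 0, 0, 0, 0), (69, 0, 0, 0, 0), (71, 0, 0, 0, 0), (71, 0, 0, 0, 0), (68, 0, 0, 0, 0), (68, 0, 0, 0, 0), (70, 0, 0, 0, 0), (70, 0, 0, 0, 0), (71, 0, 0, 0, 0), (71, 0, 0, 0, 0), (32, 0, 0, 0, 0), (32, 0, 0, 0, 0), (76, 0, 0, 0, 0), (76, 0, 0, 0, 0), (33, 0, 0, 0, 0), (33, 0, 0, 0, 0), (32, 0, 0, 0, 0), (32, 0, 0, 0, 0), (34, 0, 0, 0, 0), (34, 0, 0, 0, 0), (77, 0, 0, 0, 0), (77, 0, 0, 0, 0), (76, 0, 0, 0, 0), (76, 0, 0, 0, 0), (34, 0, 0, 0, 0), (34, 0, 0, 0, 0), (35, 0, 0, 0, 0), (35, 0, 0, 0, 0), (33, 0, 0, 0, 0), (33, 0, 0, 0, 0), (77, 0, 0, 0, 0), (77, 0, 0, 0, 0), (35, 0, 0, 0, 0), (35, 0, 0, 0, 0), (84, 0, 0, 0, 0), (84, 0, 0, 0, 0), (36, 0, 0, 0, 0), (36,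 0, 0, 0, 0), (37, 0, 0, 0, 0), (37, 0, 0, 0, 0), (84, 0, 0, 0, 0), (84, 0, 0, 0, 0), (38, 0, 0, 0, 0), (38, 0, 0, 0, 0), (39, 0, 0, 0, 0), (39, 0, 0, 0, 0), (36, 0, 0, 0, 0), (36, 0, 0, 0, 0), (38, 0, 0, 0, 0), (38, 0, 0, 0, 0), (85, 0, 0, 0, 0), (85, 0, 0, 0, 0), (37, 0, 0, 0, 0), (37, 0, 0, 0, 0), (39, 0, 0, 0, 0), (39, 0, 0, 0, 0), (85, 0, 0, 0, 0), (85, 0, 0, 0, 0), (44, 0, 0, 0, 0), (44, 0, 0, 0, 0), (45, 0, 0, 0, 0), (45, 0, 0, 0, 0), (88, 0, 0, 0, 0), (88, 0, 0, 0, 0), (44, 0, 0, 0, 0), (44, 0, 0, 0, 0), (89, 0, 0, 0, 0), (89, 0, 0, 0, 0), (46, 0, 0, 0, 0), (46, 0, 0, 0, 0), (45, 0, 0, 0, 0), (45, 0, 0, 0, 0), (89, 0, 0, 0, 0), (89, 0, 0, 0, 0), (47, 0, 0, 0, 0), (47, 0, 0, 0, 0), (88, 0, 0, 0, 0), (88, 0, 0, 0, 0), (46, 0, 0, 0, 0), (46, 0, 0, 0,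 0), (47, 0, 0, 0, 0), (47, 0, 0, 0, 0), (12, 0, 0, 0, 0), (12, 0, 0, 0, 0), (13, 0, 0, 0, 0), (13, 0, 0, 0, 0), (60, 0, 0, 0, 0), (60, 0, 0, 0, 0), (12, 0, 0, 0, 0), (12, 0, 0, 0, 0), (61, 0, 0, 0, 0), (61, 0, 0, 0, 0), (14, 0, 0, 0, 0), (14, 0, 0, 0, 0), (13, 0, 0, 0, 0), (13, 0, 0, 0, 0), (61, 0, 0, 0, 0), (61, 0, 0, 0, 0), (15, 0, 0, 0, 0), (15, 0, 0, 0, 0), (60, 0, 0, 0, 0), (60, 0, 0, 0, 0), (14, 0, 0, 0, 0), (14, 0, 0, 0, 0), (15, 0, 0, 0, 0), (15, 0, 0, 0, 0), (24, 0, 0, 0, 0), (24, 0, 0, 0, 0), (72, 0, 0, 0, 0), (72, 0, 0, 0, 0), (25, 0, 0, 0, 0), (25, 0, 0, 0, 0), (24, 0, 0, 0, 0), (24, 0, 0, 0, 0), (26, 0, 0, 0, 0), (26, 0, 0, 0, 0), (73, 0, 0, 0, 0), (73, 0, 0, 0, 0), (72, 0, 0, 0, 0), (72, 0, 0, 0, 0), (26, 0, 0, 0, 0), (26, 0, 0, 0, 0), (27,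 0, 0, 0, 0), (27, 0, 0, 0, 0), (25, 0, 0, 0, 0), (25, 0, 0, 0, 0), (73, 0, 0, 0, 0), (73, 0, 0, 0, 0), (27, 0, 0, 0, 0), (27, 0, 0, 0, 0), (78, 0, 0, 0, 0), (78, 0, 0, 0, 0), (79, 0, 0, 0, 0), (79, 0, 0, 0, 0), (80, 0, 0, 0, 0), (80, 0, 0, 0, 0), (78, 0, 0, 0, 0), (78, 0, 0, 0, 0), (81, 0, 0, 0, 0), (81, 0, 0, 0, 0), (82, 0, 0, 0, 0), (82, 0, 0, 0, 0), (79, 0, 0, 0, 0), (79, 0, 0, 0, 0), (81, 0, 0, 0, 0), (81, 0, 0, 0, 0), (83, 0, 0, 0, 0), (83, 0, 0, 0, 0), (80, 0, 0, 0, 0), (80, 0, 0, 0, 0), (82, 0, 0, 0, 0), (82, 0, 0, 0, 0), (83, 0, 0, 0, 0), (83, 0, 0, 0, 0), (40, 0, 0, 0, 0), (40, 0, 0, 0, 0), (86, 0, 0, 0, 0), (86, 0, 0, 0, 0), (41, 0, 0, 0, 0), (41, 0, 0, 0, 0), (40, 0, 0, 0, 0), (40, 0, 0, 0, 0), (42, 0, 0, 0, 0), (42, 0, 0, 0, 0), (87, 0, 0, 0,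 0), (87, 0, 0, 0, 0), (86, 0, 0, 0, 0), (86, 0, 0, 0, 0), (42, 0, 0, 0, 0), (42, 0, 0, 0, 0), (43, 0, 0, 0, 0), (43, 0, 0, 0, 0), (41, 0, 0, 0, 0), (41, 0, 0, 0, 0), (87, 0, 0, 0, 0), (87, 0, 0, 0, 0), (43, 0, 0, 0, 0), (43, 0, 0, 0, 0), (44, 0, 0, 0, 0), (44, 0, 0, 0, 0), (45, 0, 0, 0, 0), (45, 0, 0, 0, 0), (88, 0, 0, 0, 0), (88, 0, 0, 0, 0), (44, 0, 0, 0, 0), (44, 0, 0, 0, 0), (89, 0, 0, 0, 0), (89, 0, 0, 0, 0), (46, 0, 0, 0, 0), (46, 0, 0, 0, 0), (45, 0, 0, 0, 0), (45, 0, 0, 0, 0), (89, 0, 0, 0, 0), (89, 0, 0, 0, 0), (47, 0, 0, 0, 0), (47, 0, 0, 0, 0), (88, 0, 0, 0, 0), (88, 0, 0, 0, 0), (46, 0, 0, 0, 0), (46, 0, 0, 0, 0), (47, 0, 0, 0, 0), (47, 0, 0, 0, 0)],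
  [(28, 0, 0, 0, 0), (28, 0, 0, 0, 0), (32, 0, 0, 0, 0), (32, 0, 0, 0, 0), (78, 0, 0, 0, 0), (78, 0, 0, 0, 0), (28, 0, 0, 0, 0), (28, 0, 0, 0, 0), (84, 0, 0, 0, 0), (84, 0, 0, 0, 0), (40, 0, 0, 0, 0), (40, 0, 0, 0, 0), (32, 0, 0, 0, 0), (32, 0, 0, 0, 0), (84, 0, 0, 0, 0), (84, 0, 0, 0, 0), (44, 0, 0, 0, 0), (44, 0, 0, 0, 0), (78, 0, 0, 0, 0), (78, 0, 0, 0, 0), (40, 0, 0, 0, 0), (40, 0, 0, 0, 0), (44, 0, 0, 0, 0), (44, 0, 0, 0, 0), (20, 0, 0, 0, 0), (20, 0, 0, 0, 0), (66, 0, 0, 0, 0), (66, 0, 0, 0, 0), (24, 0, 0, 0, 0), (24, 0, 0, 0, 0), (20, 0, 0, 0, 0), (20, 0, 0, 0, 0), (36, 0, 0, 0, 0), (36, 0, 0, 0, 0), (86, 0, 0, 0, 0), (86, 0, 0, 0, 0), (66, 0, 0, 0, 0), (66, 0, 0, 0, 0), (36, 0, 0, 0, 0), (36, 0, 0, 0, 0), (45, 0, 0, 0, 0), (45, 0, 0, 0, 0), (24,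 0, 0, 0, 0), (24, 0, 0, 0, 0), (86, 0, 0, 0, 0), (86, 0, 0, 0, 0), (45, 0, 0, 0, 0), (45, 0, 0, 0, 0), (62, 0, 0, 0, 0), (62, 0, 0, 0, 0), (67, 0, 0, 0, 0), (67, 0, 0, 0, 0), (72, 0, 0, 0, 0), (72, 0, 0, 0, 0), (62, 0, 0, 0, 0), (62, 0, 0, 0, 0), (76, 0, 0, 0, 0), (76, 0, 0, 0, 0), (79, 0, 0, 0, 0), (79, 0, 0, 0, 0), (67, 0, 0, 0, 0), (67, 0, 0, 0, 0), (76, 0, 0, 0, 0), (76, 0, 0, 0, 0), (88, 0, 0, 0, 0), (88, 0, 0, 0, 0), (72, 0, 0, 0, 0), (72, 0, 0, 0, 0), (79, 0, 0, 0, 0), (79, 0, 0, 0, 0), (88, 0, 0, 0, 0), (88, 0, 0, 0, 0), (16, 0, 0, 0, 0), (16, 0, 0, 0, 0), (64, 0, 0, 0, 0), (64, 0, 0, 0, 0), (25, 0, 0, 0, 0), (25, 0, 0, 0, 0), (16, 0, 0, 0, 0), (16, 0, 0, 0, 0), (29, 0, 0, 0, 0), (29, 0, 0, 0, 0), (80, 0, 0, 0, 0), (80, 0, 0, 0, 0), (64, 0, 0, 0,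 0), (64, 0, 0, 0, 0), (29, 0, 0, 0, 0), (29, 0, 0, 0, 0), (41, 0, 0, 0, 0), (41, 0, 0, 0, 0), (25, 0, 0, 0, 0), (25, 0, 0, 0, 0), (80, 0, 0, 0, 0), (80, 0, 0, 0, 0), (41, 0, 0, 0, 0), (41, 0, 0, 0, 0), (17, 0, 0, 0, 0), (17, 0, 0, 0, 0), (21, 0, 0, 0, 0), (21, 0, 0, 0, 0), (68, 0, 0, 0, 0), (68, 0, 0, 0, 0), (17, 0, 0, 0, 0), (17, 0, 0, 0, 0), (74, 0, 0, 0, 0), (74, 0, 0, 0, 0), (33, 0, 0, 0, 0), (33, 0, 0, 0, 0), (21, 0, 0, 0, 0), (21, 0, 0, 0, 0), (74, 0, 0, 0, 0), (74, 0, 0, 0, 0), (37, 0, 0, 0, 0), (37, 0, 0, 0, 0), (68, 0, 0, 0, 0), (68, 0, 0, 0, 0), (33, 0, 0, 0, 0), (33, 0, 0, 0, 0), (37, 0, 0, 0, 0), (37, 0, 0, 0, 0), (28, 0, 0, 0, 0), (28, 0, 0, 0, 0), (32, 0, 0, 0, 0), (32, 0, 0, 0, 0), (78, 0, 0, 0, 0), (78, 0, 0, 0, 0), (28, 0, 0, 0, 0), (28,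 0, 0, 0, 0), (84, 0, 0, 0, 0), (84, 0, 0, 0, 0), (40, 0, 0, 0, 0), (40, 0, 0, 0, 0), (32, 0, 0, 0, 0), (32, 0, 0, 0, 0), (84, 0, 0, 0, 0), (84, 0, 0, 0, 0), (44, 0, 0, 0, 0), (44, 0, 0, 0, 0), (78, 0, 0, 0, 0), (78, 0, 0, 0, 0), (40, 0, 0, 0, 0), (40, 0, 0, 0, 0), (44, 0, 0, 0, 0), (44, 0, 0, 0, 0), (52, 0, 0, 0, 0), (52, 0, 0, 0, 0), (8, 0, 0, 0, 0), (8, 0, 0, 0, 0), (12, 0, 0, 0, 0), (12, 0, 0, 0, 0), (52, 0, 0, 0, 0), (52, 0, 0, 0, 0), (38, 0, 0, 0, 0), (38, 0, 0, 0, 0), (42, 0, 0, 0, 0), (42, 0, 0, 0, 0), (8, 0, 0, 0, 0), (8, 0, 0, 0, 0), (38, 0, 0, 0, 0), (38, 0, 0, 0, 0), (89, 0, 0, 0, 0), (89, 0, 0, 0, 0), (12, 0, 0, 0, 0), (12, 0, 0, 0, 0), (42, 0, 0, 0, 0), (42, 0, 0, 0, 0), (89, 0, 0, 0, 0), (89, 0, 0, 0, 0), (4, 0, 0, 0, 0), (4, 0, 0, 0, 0), (58,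 0, 0, 0, 0), (58, 0, 0, 0, 0), (13, 0, 0, 0, 0), (13, 0, 0, 0, 0), (4, 0, 0, 0, 0), (4, 0, 0, 0, 0), (34, 0, 0, 0, 0), (34, 0, 0, 0, 0), (81, 0, 0, 0, 0), (81, 0, 0, 0, 0), (58, 0, 0, 0, 0), (58, 0, 0, 0, 0), (34, 0, 0, 0, 0), (34, 0, 0, 0, 0), (46, 0, 0, 0, 0), (46, 0, 0, 0, 0), (13, 0, 0, 0, 0), (13, 0, 0, 0, 0), (81, 0, 0, 0, 0), (81, 0, 0, 0, 0), (46, 0, 0, 0, 0), (46, 0, 0, 0, 0), (50, 0, 0, 0, 0), (50, 0, 0, 0, 0), (53, 0, 0, 0, 0), (53, 0, 0, 0, 0), (60, 0, 0, 0, 0), (60, 0, 0, 0, 0), (50, 0, 0, 0, 0), (50, 0, 0, 0, 0), (75, 0, 0, 0, 0), (75, 0, 0, 0, 0), (82, 0, 0, 0, 0), (82, 0, 0, 0, 0), (53, 0, 0, 0, 0), (53, 0, 0, 0, 0), (75, 0, 0, 0, 0), (75, 0, 0, 0, 0), (87, 0, 0, 0, 0), (87, 0, 0, 0, 0), (60, 0, 0, 0, 0), (60, 0, 0, 0, 0), (82, 0, 0, 0, 0),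 (82, 0, 0, 0, 0), (87, 0, 0, 0, 0), (87, 0, 0, 0, 0), (5, 0, 0, 0, 0), (5, 0, 0, 0, 0), (54, 0, 0, 0, 0), (54, 0, 0, 0, 0), (9, 0, 0, 0, 0), (9, 0, 0, 0, 0), (5, 0, 0, 0, 0), (5, 0, 0, 0, 0), (30, 0, 0, 0, 0), (30, 0, 0, 0, 0), (77, 0, 0, 0, 0), (77, 0, 0, 0, 0), (54, 0, 0, 0, 0), (54, 0, 0, 0, 0), (30, 0, 0, 0, 0), (30, 0, 0, 0, 0), (39, 0, 0, 0, 0), (39, 0, 0, 0, 0), (9, 0, 0, 0, 0), (9, 0, 0, 0, 0), (77, 0, 0, 0, 0), (77, 0, 0, 0, 0), (39, 0, 0, 0, 0), (39, 0, 0, 0, 0), (20, 0, 0, 0, 0), (20, 0, 0, 0, 0), (66, 0, 0, 0, 0), (66, 0, 0, 0, 0), (24, 0, 0, 0, 0), (24, 0, 0, 0, 0), (20, 0, 0, 0, 0), (20, 0, 0, 0, 0), (36, 0, 0, 0, 0), (36, 0, 0, 0, 0), (86, 0, 0, 0, 0), (86, 0, 0, 0, 0), (66, 0, 0, 0, 0), (66, 0, 0, 0, 0), (36, 0, 0, 0, 0), (36, 0, 0, 0, 0),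 (45, 0, 0, 0, 0), (45, 0, 0, 0, 0), (24, 0, 0, 0, 0), (24, 0, 0, 0, 0), (86, 0, 0, 0, 0), (86, 0, 0, 0, 0), (45, 0, 0, 0, 0), (45, 0, 0, 0, 0), (52, 0, 0, 0, 0), (52, 0, 0, 0, 0), (8, 0, 0, 0, 0), (8, 0, 0, 0, 0), (12, 0, 0, 0, 0), (12, 0, 0, 0, 0), (52, 0, 0, 0, 0), (52, 0, 0, 0, 0), (38, 0, 0, 0, 0), (38, 0, 0, 0, 0), (42, 0, 0, 0, 0), (42, 0, 0, 0, 0), (8, 0, 0, 0, 0), (8, 0, 0, 0, 0), (38, 0, 0, 0, 0), (38, 0, 0, 0, 0), (89, 0, 0, 0, 0), (89, 0, 0, 0, 0), (12, 0, 0, 0, 0), (12, 0, 0, 0, 0), (42, 0, 0, 0, 0), (42, 0, 0, 0, 0), (89, 0, 0, 0, 0), (89, 0, 0, 0, 0), (0, 0, 0, 0, 0), (0, 0, 0, 0, 0), (10, 0, 0, 0, 0), (10, 0, 0, 0, 0), (61, 0, 0, 0, 0), (61, 0, 0, 0, 0), (0, 0, 0, 0, 0), (0, 0, 0, 0, 0), (69, 0, 0, 0, 0), (69, 0, 0, 0, 0), (26, 0, 0, 0, 0),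 (26, 0, 0, 0, 0), (10, 0, 0, 0, 0), (10, 0, 0, 0, 0), (69, 0, 0, 0, 0), (69, 0, 0, 0, 0), (47, 0, 0, 0, 0), (47, 0, 0, 0, 0), (61, 0, 0, 0, 0), (61, 0, 0, 0, 0), (26, 0, 0, 0, 0), (26, 0, 0, 0, 0), (47, 0, 0, 0, 0), (47, 0, 0, 0, 0), (1, 0, 0, 0, 0), (1, 0, 0, 0, 0), (55, 0, 0, 0, 0), (55, 0, 0, 0, 0), (14, 0, 0, 0, 0), (14, 0, 0, 0, 0), (1, 0, 0, 0, 0), (1, 0, 0, 0, 0), (22, 0, 0, 0, 0), (22, 0, 0, 0, 0), (73, 0, 0, 0, 0), (73, 0, 0, 0, 0), (55, 0, 0, 0, 0), (55, 0, 0, 0, 0), (22, 0, 0, 0, 0), (22, 0, 0, 0, 0), (43, 0, 0, 0, 0), (43, 0, 0, 0, 0), (14, 0, 0, 0, 0), (14, 0, 0, 0, 0), (73, 0, 0, 0, 0), (73, 0, 0, 0, 0), (43, 0, 0, 0, 0), (43, 0, 0, 0, 0), (48, 0, 0, 0, 0), (48, 0, 0, 0, 0), (56, 0, 0, 0, 0), (56, 0, 0, 0, 0), (59, 0, 0, 0, 0), (59, 0, 0, 0,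 0), (48, 0, 0, 0, 0), (48, 0, 0, 0, 0), (65, 0, 0, 0, 0), (65, 0, 0, 0, 0), (70, 0, 0, 0, 0), (70, 0, 0, 0, 0), (56, 0, 0, 0, 0), (56, 0, 0, 0, 0), (65, 0, 0, 0, 0), (65, 0, 0, 0, 0), (85, 0, 0, 0, 0), (85, 0, 0, 0, 0), (59, 0, 0, 0, 0), (59, 0, 0, 0, 0), (70, 0, 0, 0, 0), (70, 0, 0, 0, 0), (85, 0, 0, 0, 0), (85, 0, 0, 0, 0), (62, 0, 0, 0, 0), (62, 0, 0, 0, 0), (67, 0, 0, 0, 0), (67, 0, 0, 0, 0), (72, 0, 0, 0, 0), (72, 0, 0, 0, 0), (62, 0, 0, 0, 0), (62, 0, 0, 0, 0), (76, 0, 0, 0, 0), (76, 0, 0, 0, 0), (79, 0, 0, 0, 0), (79, 0, 0, 0, 0), (67, 0, 0, 0, 0), (67, 0, 0, 0, 0), (76, 0, 0, 0, 0), (76, 0, 0, 0, 0), (88, 0, 0, 0, 0), (88, 0, 0, 0, 0), (72, 0, 0, 0, 0), (72, 0, 0, 0, 0), (79, 0, 0, 0, 0), (79, 0, 0, 0, 0), (88, 0, 0, 0, 0), (88, 0, 0, 0, 0), (4,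 0, 0, 0, 0), (4, 0, 0, 0, 0), (58, 0, 0, 0, 0), (58, 0, 0, 0, 0), (13, 0, 0, 0, 0), (13, 0, 0, 0, 0), (4, 0, 0, 0, 0), (4, 0, 0, 0, 0), (34, 0, 0, 0, 0), (34, 0, 0, 0, 0), (81, 0, 0, 0, 0), (81, 0, 0, 0, 0), (58, 0, 0, 0, 0), (58, 0, 0, 0, 0), (34, 0, 0, 0, 0), (34, 0, 0, 0, 0), (46, 0, 0, 0, 0), (46, 0, 0, 0, 0), (13, 0, 0, 0, 0), (13, 0, 0, 0, 0), (81, 0, 0, 0, 0), (81, 0, 0, 0, 0), (46, 0, 0, 0, 0), (46, 0, 0, 0, 0), (0, 0, 0, 0, 0), (0, 0, 0, 0, 0), (10, 0, 0, 0, 0), (10, 0, 0, 0, 0), (61, 0, 0, 0, 0), (61, 0, 0, 0, 0), (0, 0, 0, 0, 0), (0, 0, 0, 0, 0), (69, 0, 0, 0, 0), (69, 0, 0, 0, 0), (26, 0, 0, 0, 0), (26, 0, 0, 0, 0), (10, 0, 0, 0, 0), (10, 0, 0, 0, 0), (69, 0, 0, 0, 0), (69, 0, 0, 0, 0), (47, 0, 0, 0, 0), (47, 0, 0, 0, 0), (61, 0, 0, 0, 0), (61,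 0, 0, 0, 0), (26, 0, 0, 0, 0), (26, 0, 0, 0, 0), (47, 0, 0, 0, 0), (47, 0, 0, 0, 0), (49, 0, 0, 0, 0), (49, 0, 0, 0, 0), (6, 0, 0, 0, 0), (6, 0, 0, 0, 0), (15, 0, 0, 0, 0), (15, 0, 0, 0, 0), (49, 0, 0, 0, 0), (49, 0, 0, 0, 0), (18, 0, 0, 0, 0), (18, 0, 0, 0, 0), (27, 0, 0, 0, 0), (27, 0, 0, 0, 0), (6, 0, 0, 0, 0), (6, 0, 0, 0, 0), (18, 0, 0, 0, 0), (18, 0, 0, 0, 0), (83, 0, 0, 0, 0), (83, 0, 0, 0, 0), (15, 0, 0, 0, 0), (15, 0, 0, 0, 0), (27, 0, 0, 0, 0), (27, 0, 0, 0, 0), (83, 0, 0, 0, 0), (83, 0, 0, 0, 0), (2, 0, 0, 0, 0), (2, 0, 0, 0, 0), (51, 0, 0, 0, 0), (51, 0, 0, 0, 0), (11, 0, 0, 0, 0), (11, 0, 0, 0, 0), (2, 0, 0, 0, 0), (2, 0, 0, 0, 0), (19, 0, 0, 0, 0), (19, 0, 0, 0, 0), (71, 0, 0, 0, 0), (71, 0, 0, 0, 0), (51, 0, 0, 0, 0), (51, 0, 0, 0, 0), (19,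 0, 0, 0, 0), (19, 0, 0, 0, 0), (35, 0, 0, 0, 0), (35, 0, 0, 0, 0), (11, 0, 0, 0, 0), (11, 0, 0, 0, 0), (71, 0, 0, 0, 0), (71, 0, 0, 0, 0), (35, 0, 0, 0, 0), (35, 0, 0, 0, 0), (16, 0, 0, 0, 0), (16, 0, 0, 0, 0), (64, 0, 0, 0, 0), (64, 0, 0, 0, 0), (25, 0, 0, 0, 0), (25, 0, 0, 0, 0), (16, 0, 0, 0, 0), (16, 0, 0, 0, 0), (29, 0, 0, 0, 0), (29, 0, 0, 0, 0), (80, 0, 0, 0, 0), (80, 0, 0, 0, 0), (64, 0, 0, 0, 0), (64, 0, 0, 0, 0), (29, 0, 0, 0, 0), (29, 0, 0, 0, 0), (41, 0, 0, 0, 0), (41, 0, 0, 0, 0), (25, 0, 0, 0, 0), (25, 0, 0, 0, 0), (80, 0, 0, 0, 0), (80, 0, 0, 0, 0), (41, 0, 0, 0, 0), (41, 0, 0, 0, 0), (50, 0, 0, 0, 0), (50, 0, 0, 0, 0), (53, 0, 0, 0, 0), (53, 0, 0, 0, 0), (60, 0, 0, 0, 0), (60, 0, 0, 0, 0), (50, 0, 0, 0, 0), (50, 0, 0, 0, 0), (75, 0, 0, 0,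 0), (75, 0, 0, 0, 0), (82, 0, 0, 0, 0), (82, 0, 0, 0, 0), (53, 0, 0, 0, 0), (53, 0, 0, 0, 0), (75, 0, 0, 0, 0), (75, 0, 0, 0, 0), (87, 0, 0, 0, 0), (87, 0, 0, 0, 0), (60, 0, 0, 0, 0), (60, 0, 0, 0, 0), (82, 0, 0, 0, 0), (82, 0, 0, 0, 0), (87, 0, 0, 0, 0), (87, 0, 0, 0, 0), (1, 0, 0, 0, 0), (1, 0, 0, 0, 0), (55, 0, 0, 0, 0), (55, 0, 0, 0, 0), (14, 0, 0, 0, 0), (14, 0, 0, 0, 0), (1, 0, 0, 0, 0), (1, 0, 0, 0, 0), (22, 0, 0, 0, 0), (22, 0, 0, 0, 0), (73, 0, 0, 0, 0), (73, 0, 0, 0, 0), (55, 0, 0, 0, 0), (55, 0, 0, 0, 0), (22, 0, 0, 0, 0), (22, 0, 0, 0, 0), (43, 0, 0, 0, 0), (43, 0, 0, 0, 0), (14, 0, 0, 0, 0), (14, 0, 0, 0, 0), (73, 0, 0, 0, 0), (73, 0, 0, 0, 0), (43, 0, 0, 0, 0), (43, 0, 0, 0, 0), (49, 0, 0, 0, 0), (49, 0, 0, 0, 0), (6, 0, 0, 0, 0), (6, 0, 0,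 0, 0), (15, 0, 0, 0, 0), (15, 0, 0, 0, 0), (49, 0, 0, 0, 0), (49, 0, 0, 0, 0), (18, 0, 0, 0, 0), (18, 0, 0, 0, 0), (27, 0, 0, 0, 0), (27, 0, 0, 0, 0), (6, 0, 0, 0, 0), (6, 0, 0, 0, 0), (18, 0, 0, 0, 0), (18, 0, 0, 0, 0), (83, 0, 0, 0, 0), (83, 0, 0, 0, 0), (15, 0, 0, 0, 0), (15, 0, 0, 0, 0), (27, 0, 0, 0, 0), (27, 0, 0, 0, 0), (83, 0, 0, 0, 0), (83, 0, 0, 0, 0), (3, 0, 0, 0, 0), (3, 0, 0, 0, 0), (7, 0, 0, 0, 0), (7, 0, 0, 0, 0), (57, 0, 0, 0, 0), (57, 0, 0, 0, 0), (3, 0, 0, 0, 0), (3, 0, 0, 0, 0), (63, 0, 0, 0, 0), (63, 0, 0, 0, 0), (23, 0, 0, 0, 0), (23, 0, 0, 0, 0), (7, 0, 0, 0, 0), (7, 0, 0, 0, 0), (63, 0, 0, 0, 0), (63, 0, 0, 0, 0), (31, 0, 0, 0, 0), (31, 0, 0, 0, 0), (57, 0, 0, 0, 0), (57, 0, 0, 0, 0), (23, 0, 0, 0, 0), (23, 0, 0, 0, 0), (31, 0, 0,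 0, 0), (31, 0, 0, 0, 0), (17, 0, 0, 0, 0), (17, 0, 0, 0, 0), (21, 0, 0, 0, 0), (21, 0, 0, 0, 0), (68, 0, 0, 0, 0), (68, 0, 0, 0, 0), (17, 0, 0, 0, 0), (17, 0, 0, 0, 0), (74, 0, 0, 0, 0), (74, 0, 0, 0, 0), (33, 0, 0, 0, 0), (33, 0, 0, 0, 0), (21, 0, 0, 0, 0), (21, 0, 0, 0, 0), (74, 0, 0, 0, 0), (74, 0, 0, 0, 0), (37, 0, 0, 0, 0), (37, 0, 0, 0, 0), (68, 0, 0, 0, 0), (68, 0, 0, 0, 0), (33, 0, 0, 0, 0), (33, 0, 0, 0, 0), (37, 0, 0, 0, 0), (37, 0, 0, 0, 0), (5, 0, 0, 0, 0), (5, 0, 0, 0, 0), (54, 0, 0, 0, 0), (54, 0, 0, 0, 0), (9, 0, 0, 0, 0), (9, 0, 0, 0, 0), (5, 0, 0, 0, 0), (5, 0, 0, 0, 0), (30, 0, 0, 0, 0), (30, 0, 0, 0, 0), (77, 0, 0, 0, 0), (77, 0, 0, 0, 0), (54, 0, 0, 0, 0), (54, 0, 0, 0, 0), (30, 0, 0, 0, 0), (30, 0, 0, 0, 0), (39, 0, 0, 0, 0), (39, 0,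 0, 0, 0), (9, 0, 0, 0, 0), (9, 0, 0, 0, 0), (77, 0, 0, 0, 0), (77, 0, 0, 0, 0), (39, 0, 0, 0, 0), (39, 0, 0, 0, 0), (48, 0, 0, 0, 0), (48, 0, 0, 0, 0), (56, 0, 0, 0, 0), (56, 0, 0, 0, 0), (59, 0, 0, 0, 0), (59, 0, 0, 0, 0), (48, 0, 0, 0, 0), (48, 0, 0, 0, 0), (65, 0, 0, 0, 0), (65, 0, 0, 0, 0), (70, 0, 0, 0, 0), (70, 0, 0, 0, 0), (56, 0, 0, 0, 0), (56, 0, 0, 0, 0), (65, 0, 0, 0, 0), (65, 0, 0, 0, 0), (85, 0, 0, 0, 0), (85, 0, 0, 0, 0), (59, 0, 0, 0, 0), (59, 0, 0, 0, 0), (70, 0, 0, 0, 0), (70, 0, 0, 0, 0), (85, 0, 0, 0, 0), (85, 0, 0, 0, 0), (2, 0, 0, 0, 0), (2, 0, 0, 0, 0), (51, 0, 0, 0, 0), (51, 0, 0, 0, 0), (11, 0, 0, 0, 0), (11, 0, 0, 0, 0), (2, 0, 0, 0, 0), (2, 0, 0, 0, 0), (19, 0, 0, 0, 0), (19, 0, 0, 0, 0), (71, 0, 0, 0, 0), (71, 0, 0, 0, 0), (51,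 0, 0, 0, 0), (51, 0, 0, 0, 0), (19, 0, 0, 0, 0), (19, 0, 0, 0, 0), (35, 0, 0, 0, 0), (35, 0, 0, 0, 0), (11, 0, 0, 0, 0), (11, 0, 0, 0, 0), (71, 0, 0, 0, 0), (71, 0, 0, 0, 0), (35, 0, 0, 0, 0), (35, 0, 0, 0, 0), (3, 0, 0, 0, 0), (3, 0, 0, 0, 0), (7, 0, 0, 0, 0), (7, 0, 0, 0, 0), (57, 0, 0, 0, 0), (57, 0, 0, 0, 0), (3, 0, 0, 0, 0), (3, 0, 0, 0, 0), (63, 0, 0, 0, 0), (63, 0, 0, 0, 0), (23, 0, 0, 0, 0), (23, 0, 0, 0, 0), (7, 0, 0, 0, 0), (7, 0, 0, 0, 0), (63, 0, 0, 0, 0), (63, 0, 0, 0, 0), (31, 0, 0, 0, 0), (31, 0, 0, 0, 0), (57, 0, 0, 0, 0), (57, 0, 0, 0, 0), (23, 0, 0, 0, 0), (23, 0, 0, 0, 0), (31, 0, 0, 0, 0), (31, 0, 0, 0, 0)]]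

theorem tr57 : trK keys lk57 kl57 = true := by
  decide +kernel

theorem x57_0 : expB 2 6 dg3 dg16 m57_0 (l57_0 ++ z57_0) w57_0 = true := by
  decide +kernel

theorem t57_0_0 : chkS lk57 2 6 [(1, m57_0)] l57_0
  [(0, 16, 16, 5517840, 5517840), (1, 16, 16, 5517840, 5517840), (1, 16, 16, 4530960, 4530960), (2, 16, 16, 5517840, 5517840), (4, 16, 16, 5513985, 5513985), (7, 16, 16, 3490320, 4411920), (8, 1, 1, 5374275, 5309475), (6, 16, 16, 5517600, 5517600), (8, 16, 16, 5391120, 5448720), (6, 16, 16, 3298320, 3298320), (1, 1, 1, 5509170, 5509170), (11, 16, 16, 4338945, 2438145), (8, 16, 16, 2442000, 4400400), (8, 16, 16, 2438160, 4338960), (11, 16, 16, 2380545, 3417345), (11, 16, 16, 2372865, 2372865), (7, 16, 16, 5456385, 5456385), (7, 16, 16, 3490305, 4411905),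 (8, 1, 1, 5374260, 5248035), (8, 1, 1, 2425140, 4199715), (4, 16, 16, 5517840, 5517840), (7, 16, 16, 3482625, 4346625), (8, 1, 1, 5378100, 5248050), (6, 16, 16, 5509890, 5513265), (8, 16, 16, 2441985, 4400385), (6, 16, 16, 2315265, 3294465), (1, 1, 1, 4526115, 4522290), (11, 16, 16, 2372880, 2372880), (3, 16, 16, 5517840, 5517840), (10, 1, 1, 5443650, 5324850), (10, 1, 1, 3477540, 4215090), (9, 1, 1, 3280980, 1070130), (10, 16, 16, 5456400, 5456400), (5, 16, 16, 5517840, 5517840), (7, 1, 1, 5439780, 5259555), (6, 1, 1, 2294100, 1066275), (7, 1, 1, 5443650, 5324850), (5, 16, 16, 5514000, 5514000), (7, 1, 1, 5443620, 5259570), (5, 16, 16, 5513985, 5513985), (10, 16, 16, 3482640, 4346640), (5, 16, 16, 4530960, 4530960), (7, 1, 1, 3477540, 4215090), (6, 1, 1,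 3280980, 1070130), (9, 16, 16, 3298320, 3298320), (6, 1, 1, 5513265, 5509890), (6, 1, 1, 5505555, 5505555), (2, 1, 1, 5509170, 5509170)]
  [(0, 3456), (2, -6912), (3, -3456), (5, -13824), (7, 27648), (8, -27648), (9, 6912), (11, 13824)] = true := by
  decide +kernel

section

variable {κ ι : Type*} [Fintype κ] [Fintype ι] [Inhabited κ] [Inhabited ι]

noncomputable def F57_0 (E : Env κ ι) : (Fin 2 → κ) → (Fin 6 → ι) → ℝ := op2 (P3 κ) (P16 ι) (fB E 2 6 m57_0)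

def r57_0_0 : List (ℕ × ℤ) := [(0, 3456), (2, -6912), (3, -3456), (5, -13824), (7, 27648), (8, -27648), (9, 6912), (11, 13824)]

theorem h57_0_0 (E : Env κ ι) : ip (F57_0 E) (F57_0 E) = dotS (ek E lk57) r57_0_0 :=
  op_entryZ E lk57 2 6 _ _ _ _ (pg3 κ) (pg16 ι) m57_0 m57_0 l57_0 z57_0 w57_0 x57_0 (by decide) _ (chkS_sound E lk57 2 6 _ _ _ _ t57_0_0)

theorem row57_0 (E : Env κ ι) : RowG (ek E lk57) (F57_0 E) [F57_0 E] [r57_0_0] :=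
  rowG_cons _ _ _ _ _ _ (h57_0_0 E) (rowG_nil _ _)

def tab57 : List (List (List (ℕ × ℤ))) := [[r57_0_0]]

theorem tri57 (E : Env κ ι) : TriG (ek E lk57) [F57_0 E] tab57 := by
  refine triG_cons _ _ _ _ _ (row57_0 E) ?_
  exact triG_nil _

end

def lk58 : List Key := [
  (2, 6, [(0, [0], [0, 1]), (0, [0], [0, 1]), (0, [1], [2, 3]), (0, [1], [2, 3]), (1, [], [4, 5]), (1, [], [4, 5])]),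
  (2, 6, [(0, [0], [0, 1]), (0, [0], [0, 1]), (0, [1], [2, 3]), (0, [1], [2, 4]), (1, [], [4, 5]), (1, [], [3, 5])]),
  (2, 6, [(0, [0], [0, 1]), (0, [0], [0, 1]), (0, [1], [2, 3]), (0, [1], [4, 5]), (1, [], [4, 5]), (1, [], [2, 3])]),
  (2, 6, [(0, [0], [0, 1]), (0, [1], [2, 3]), (0, [0], [2, 3]), (0, [1], [0, 1]), (1, [], [4, 5]), (1, [], [4, 5])]),
  (2, 6, [(0, [0], [0, 1]), (0, [1], [2, 3]), (0, [1], [0, 2]), (0, [0], [1, 3]), (1, [], [4, 5]), (1, [], [4, 5])]),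
  (2, 6, [(0, [0], [0, 1]), (0, [1], [2, 3]), (0, [0], [2, 4]), (0, [1], [0, 5]), (1, [], [4, 5]), (1, [], [1, 3])]),
  (2, 6, [(0, [0], [0, 1]), (0, [0], [2, 0]), (0, [1], [3, 1]), (0, [1], [4, 5]), (1, [], [4, 5]), (1, [], [2, 3])]),
  (2, 6, [(0, [0], [0, 1]), (0, [0], [2, 0]), (0, [1], [3, 1]), (0, [1], [2, 4]), (1, [], [4, 5]), (1, [], [3, 5])]),
  (2, 6, [(0, [0], [0, 1]), (0, [0], [2, 0]), (0, [1], [3, 1]), (0, [1], [3, 4]), (1, [], [4, 5]), (1, [], [2, 5])]),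
  (2, 6, [(0, [0], [0, 1]), (0, [0], [2, 3]), (0, [1], [0, 1]), (0, [1], [4, 5]), (1, [], [4, 5]), (1, [], [2, 3])]),
  (2, 6, [(0, [0], [0, 1]), (0, [0], [2, 3]), (0, [1], [0, 1]), (0, [1], [2, 4]), (1, [], [4, 5]), (1, [], [3, 5])]),
  (2, 6, [(0, [0], [0, 1]), (0, [0], [2, 1]), (0, [1], [3, 4]), (0, [1], [3, 5]), (1, [], [0, 5]), (1, [], [2, 4])])]

def kl58 : List ℕ := [9, 10, 14, 16, 19, 21, 40, 42, 43, 46, 48, 62]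

def m58_0 : Base := (0, 0, [(0, [0], [0, 1]), (0, [1], [2, 3]), (1, [], [4, 5])])

def l58_0 : Cov := [(360, 0, 0, [(0, [0], [0, 1]), (0, [1], [2, 3]), (1, [], [4, 5])]),
  (-360, 0, 0, [(0, [0], [0, 1]), (0, [1], [2, 5]), (1, [], [3, 4])]),
  (720, 0, 0, [(0, [0], [0, 1]), (0, [1], [3, 4]), (1, [], [2, 5])]),
  (-720, 0, 0, [(0, [0], [0, 1]), (0, [1], [4, 5]), (1, [], [2, 3])]),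
  (-360, 0, 0, [(0, [0], [0, 2]), (0, [1], [1, 3]), (1, [], [4, 5])]),
  (360, 0, 0, [(0, [0], [0, 2]), (0, [1], [1, 5]), (1, [], [3, 4])]),
  (360, 0, 0, [(0, [0], [0, 2]), (0, [1], [3, 4]), (1, [], [1, 5])]),
  (-360, 0, 0, [(0, [0], [0, 2]), (0, [1], [4, 5]), (1, [], [1, 3])]),
  (-720, 0, 0, [(0, [0], [0, 4]), (0, [1], [1, 3]), (1, [], [2, 5])]),
  (720, 0, 0, [(0, [0], [0, 4]), (0, [1], [1, 5]), (1, [], [2, 3])]),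
  (-360, 0, 0, [(0, [0], [0, 4]), (0, [1], [2, 3]), (1, [], [1, 5])]),
  (360, 0, 0, [(0, [0], [0, 4]), (0, [1], [2, 5]), (1, [], [1, 3])]),
  (-360, 0, 0, [(0, [0], [1, 3]), (0, [1], [0, 2]), (1, [], [4, 5])]),
  (-720, 0, 0, [(0, [0], [1, 3]), (0, [1], [0, 4]), (1, [], [2, 5])]),
  (360, 0, 0, [(0, [0], [1, 3]), (0, [1], [2, 5]), (1, [], [0, 4])]),
  (720, 0, 0, [(0, [0], [1, 3]), (0, [1], [4, 5]), (1, [], [0, 2])]),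
  (360, 0, 0, [(0, [0], [1, 5]), (0, [1], [0, 2]), (1, [], [4, 3])]),
  (720, 0, 0, [(0, [0], [1, 5]), (0, [1], [0, 4]), (1, [], [2, 3])]),
  (-360, 0, 0, [(0, [0], [1, 5]), (0, [1], [2, 3]), (1, [], [0, 4])]),
  (-720, 0, 0, [(0, [0], [1, 5]), (0, [1], [3, 4]), (1, [], [2, 0])]),
  (360, 0, 0, [(0, [0], [2, 3]), (0, [1], [0, 1]), (1, [], [4, 5])]),
  (-360, 0, 0, [(0, [0], [2, 3]), (0, [1], [0, 4]), (1, [], [1, 5])]),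
  (-360, 0, 0, [(0, [0], [2, 3]), (0, [1], [1, 5]), (1, [], [0, 4])]),
  (360, 0, 0, [(0, [0], [2, 3]), (0, [1], [4, 5]), (1, [], [0, 1])]),
  (-360, 0, 0, [(0, [0], [2, 5]), (0, [1], [0, 1]), (1, [], [4, 3])]),
  (360, 0, 0, [(0, [0], [2, 5]), (0, [1], [0, 4]), (1, [], [1, 3])]),
  (360, 0, 0, [(0, [0], [2, 5]), (0, [1], [1, 3]), (1, [], [0, 4])]),
  (-360, 0, 0, [(0, [0], [2, 5]), (0, [1], [3, 4]), (1, [], [1, 0])]),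
  (720, 0, 0, [(0, [0], [3, 4]), (0, [1], [0, 1]), (1, [], [2, 5])]),
  (360, 0, 0, [(0, [0], [3, 4]), (0, [1], [0, 2]), (1, [], [1, 5])]),
  (-720, 0, 0, [(0, [0], [3, 4]), (0, [1], [1, 5]), (1, [], [0, 2])]),
  (-360, 0, 0, [(0, [0], [3, 4]), (0, [1], [2, 5]), (1, [], [0, 1])]),
  (-720, 0, 0, [(0, [0], [4, 5]), (0, [1], [0, 1]), (1, [], [2, 3])]),
  (-360, 0, 0, [(0, [0], [4, 5]), (0, [1], [0, 2]), (1, [], [1, 3])]),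
  (720, 0, 0, [(0, [0], [4, 5]), (0, [1], [1, 3]), (1, [], [0, 2])]),
  (360, 0, 0, [(0, [0], [4, 5]), (0, [1], [2, 3]), (1, [], [0, 1])])]

def z58_0 : Cov := [(0, 0, 0, [(0, [0], [0, 1]), (0, [1], [2, 4]), (1, [], [3, 5])]),
  (0, 0, 0, [(0, [0], [0, 1]), (0, [1], [3, 5]), (1, [], [2, 4])]),
  (0, 0, 0, [(0, [0], [0, 2]), (0, [1], [1, 4]), (1, [], [3, 5])]),
  (0, 0, 0, [(0, [0], [0, 2]), (0, [1], [3, 5]), (1, [], [1, 4])]),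
  (0, 0, 0, [(0, [0], [0, 3]), (0, [1], [1, 2]), (1, [], [4, 5])]),
  (0, 0, 0, [(0, [0], [0, 3]), (0, [1], [1, 4]), (1, [], [2, 5])]),
  (0, 0, 0, [(0, [0], [0, 3]), (0, [1], [1, 5]), (1, [], [2, 4])]),
  (0, 0, 0, [(0, [0], [0, 3]), (0, [1], [2, 4]), (1, [], [1, 5])]),
  (0, 0, 0, [(0, [0], [0, 3]), (0, [1], [2, 5]), (1, [], [1, 4])]),
  (0, 0, 0, [(0, [0], [0, 3]), (0, [1], [4, 5]), (1, [], [1, 2])]),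
  (0, 0, 0, [(0, [0], [0, 4]), (0, [1], [1, 2]), (1, [], [3, 5])]),
  (0, 0, 0, [(0, [0], [0, 4]), (0, [1], [3, 5]), (1, [], [1, 2])]),
  (0, 0, 0, [(0, [0], [0, 5]), (0, [1], [1, 2]), (1, [], [3, 4])]),
  (0, 0, 0, [(0, [0], [0, 5]), (0, [1], [1, 3]), (1, [], [2, 4])]),
  (0, 0, 0, [(0, [0], [0, 5]), (0, [1], [1, 4]), (1, [], [2, 3])]),
  (0, 0, 0, [(0, [0], [0, 5]), (0, [1], [2, 3]), (1, [], [1, 4])]),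
  (0, 0, 0, [(0, [0], [0, 5]), (0, [1], [2, 4]), (1, [], [1, 3])]),
  (0, 0, 0, [(0, [0], [0, 5]), (0, [1], [3, 4]), (1, [], [1, 2])]),
  (0, 0, 0, [(0, [0], [1, 2]), (0, [1], [0, 3]), (1, [], [4, 5])]),
  (0, 0, 0, [(0, [0], [1, 2]), (0, [1], [0, 4]), (1, [], [3, 5])]),
  (0, 0, 0, [(0, [0], [1, 2]), (0, [1], [0, 5]), (1, [], [3, 4])]),
  (0, 0, 0, [(0, [0], [1, 2]), (0, [1], [3, 4]), (1, [], [0, 5])]),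
  (0, 0, 0, [(0, [0], [1, 2]), (0, [1], [3, 5]), (1, [], [0, 4])]),
  (0, 0, 0, [(0, [0], [1, 2]), (0, [1], [4, 5]), (1, [], [0, 3])]),
  (0, 0, 0, [(0, [0], [1, 3]), (0, [1], [0, 5]), (1, [], [2, 4])]),
  (0, 0, 0, [(0, [0], [1, 3]), (0, [1], [2, 4]), (1, [], [0, 5])]),
  (0, 0, 0, [(0, [0], [1, 4]), (0, [1], [0, 2]), (1, [], [3, 5])]),
  (0, 0, 0, [(0, [0], [1, 4]), (0, [1], [0, 3]), (1, [], [2, 5])]),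
  (0, 0, 0, [(0, [0], [1, 4]), (0, [1], [0, 5]), (1, [], [2, 3])]),
  (0, 0, 0, [(0, [0], [1, 4]), (0, [1], [2, 3]), (1, [], [0, 5])]),
  (0, 0, 0, [(0, [0], [1, 4]), (0, [1], [2, 5]), (1, [], [0, 3])]),
  (0, 0, 0, [(0, [0], [1, 4]), (0, [1], [3, 5]), (1, [], [0, 2])]),
  (0, 0, 0, [(0, [0], [1, 5]), (0, [1], [0, 3]), (1, [], [2, 4])]),
  (0, 0, 0, [(0, [0], [1, 5]), (0, [1], [2, 4]), (1, [], [0, 3])]),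
  (0, 0, 0, [(0, [0], [2, 3]), (0, [1], [0, 5]), (1, [], [1, 4])]),
  (0, 0, 0, [(0, [0], [2, 3]), (0, [1], [1, 4]), (1, [], [0, 5])]),
  (0, 0, 0, [(0, [0], [2, 4]), (0, [1], [0, 1]), (1, [], [3, 5])]),
  (0, 0, 0, [(0, [0], [2, 4]), (0, [1], [0, 3]), (1, [], [1, 5])]),
  (0, 0, 0, [(0, [0], [2, 4]), (0, [1], [0, 5]), (1, [], [1, 3])]),
  (0, 0, 0, [(0, [0], [2, 4]), (0, [1], [1, 3]), (1, [], [0, 5])]),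
  (0, 0, 0, [(0, [0], [2, 4]), (0, [1], [1, 5]), (1, [], [0, 3])]),
  (0, 0, 0, [(0, [0], [2, 4]), (0, [1], [3, 5]), (1, [], [0, 1])]),
  (0, 0, 0, [(0, [0], [2, 5]), (0, [1], [0, 3]), (1, [], [1, 4])]),
  (0, 0, 0, [(0, [0], [2, 5]), (0, [1], [1, 4]), (1, [], [0, 3])]),
  (0, 0, 0, [(0, [0], [3, 4]), (0, [1], [0, 5]), (1, [], [1, 2])]),
  (0, 0, 0, [(0, [0], [3, 4]), (0, [1], [1, 2]), (1, [], [0, 5])]),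
  (0, 0, 0, [(0, [0], [3, 5]), (0, [1], [0, 1]), (1, [], [2, 4])]),
  (0, 0, 0, [(0, [0], [3, 5]), (0, [1], [0, 2]), (1, [], [1, 4])]),
  (0, 0, 0, [(0, [0], [3, 5]), (0, [1], [0, 4]), (1, [], [1, 2])]),
  (0, 0, 0, [(0, [0], [3, 5]), (0, [1], [1, 2]), (1, [], [0, 4])]),
  (0, 0, 0, [(0, [0], [3, 5]), (0, [1], [1, 4]), (1, [], [0, 2])]),
  (0, 0, 0, [(0, [0], [3, 5]), (0, [1], [2, 4]), (1, [], [0, 1])]),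
  (0, 0, 0, [(0, [0], [4, 5]), (0, [1], [0, 3]), (1, [], [1, 2])]),
  (0, 0, 0, [(0, [0], [4, 5]), (0, [1], [1, 2]), (1, [], [0, 3])])]

def w58_0 : List (List Wit) := [[(0, 0, 0, 0, 0), (0, 0, 0, 0, 0), (36, 0, 0, 0, 0), (36, 0, 0, 0, 0), (1, 0, 0, 0, 0), (1, 0, 0, 0, 0), (0, 0, 0, 0, 0), (0, 0, 0, 0, 0), (2, 0, 0, 0, 0), (2, 0, 0, 0, 0), (37, 0, 0, 0, 0), (37, 0, 0, 0, 0), (36, 0, 0, 0, 0), (36, 0, 0, 0, 0), (2, 0, 0, 0, 0), (2, 0, 0, 0, 0), (3, 0, 0, 0, 0), (3, 0, 0, 0, 0), (1, 0, 0, 0, 0), (1, 0, 0, 0, 0), (37, 0, 0, 0, 0), (37, 0, 0, 0, 0), (3, 0, 0, 0, 0), (3, 0, 0, 0, 0), (4, 0, 0, 0, 0), (4, 0, 0, 0, 0), (38, 0, 0, 0, 0), (38, 0, 0, 0, 0), (5, 0, 0, 0, 0), (5, 0, 0, 0, 0), (4, 0, 0, 0, 0), (4, 0, 0, 0, 0), (6, 0, 0, 0, 0), (6, 0, 0, 0, 0), (39, 0,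 0, 0, 0), (39, 0, 0, 0, 0), (38, 0, 0, 0, 0), (38, 0, 0, 0, 0), (6, 0, 0, 0, 0), (6, 0, 0, 0, 0), (7, 0, 0, 0, 0), (7, 0, 0, 0, 0), (5, 0, 0, 0, 0), (5, 0, 0, 0, 0), (39, 0, 0, 0, 0), (39, 0, 0, 0, 0), (7, 0, 0, 0, 0), (7, 0, 0, 0, 0), (40, 0, 0, 0, 0), (40, 0, 0, 0, 0), (41, 0, 0, 0, 0), (41, 0, 0, 0, 0), (42, 0, 0, 0, 0), (42, 0, 0, 0, 0), (40, 0, 0, 0, 0), (40, 0, 0, 0, 0), (43, 0, 0, 0, 0), (43, 0, 0, 0, 0), (44, 0, 0, 0, 0), (44, 0, 0, 0, 0), (41, 0, 0, 0, 0), (41, 0, 0, 0, 0), (43, 0, 0, 0, 0), (43, 0, 0, 0, 0), (45, 0, 0, 0, 0), (45, 0, 0, 0, 0), (42, 0, 0, 0, 0), (42, 0, 0, 0, 0), (44, 0, 0, 0, 0), (44, 0, 0, 0, 0), (45, 0, 0, 0, 0), (45, 0, 0, 0, 0), (46, 0, 0, 0, 0), (46, 0, 0, 0, 0), (8, 0, 0, 0, 0), (8, 0, 0, 0, 0), (9, 0, 0, 0, 0), (9, 0, 0,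 0, 0), (46, 0, 0, 0, 0), (46, 0, 0, 0, 0), (10, 0, 0, 0, 0), (10, 0, 0, 0, 0), (11, 0, 0, 0, 0), (11, 0, 0, 0, 0), (8, 0, 0, 0, 0), (8, 0, 0, 0, 0), (10, 0, 0, 0, 0), (10, 0, 0, 0, 0), (47, 0, 0, 0, 0), (47, 0, 0, 0, 0), (9, 0, 0, 0, 0), (9, 0, 0, 0, 0), (11, 0, 0, 0, 0), (11, 0, 0, 0, 0), (47, 0, 0, 0, 0), (47, 0, 0, 0, 0), (48, 0, 0, 0, 0), (48, 0, 0, 0, 0), (49, 0, 0, 0, 0), (49, 0, 0, 0, 0), (50, 0, 0, 0, 0), (50, 0, 0, 0, 0), (48, 0, 0, 0, 0), (48, 0, 0, 0, 0), (51, 0, 0, 0, 0), (51, 0, 0, 0, 0), (52, 0, 0, 0, 0), (52, 0, 0, 0, 0), (49, 0, 0, 0, 0), (49, 0, 0, 0, 0), (51, 0, 0, 0, 0), (51, 0, 0, 0, 0), (53, 0, 0, 0, 0), (53, 0, 0, 0, 0), (50, 0, 0, 0, 0), (50, 0, 0, 0, 0), (52, 0, 0, 0, 0), (52, 0, 0, 0, 0), (53, 0, 0, 0, 0), (53, 0, 0, 0, 0), (0, 0,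 0, 0, 0), (0, 0, 0, 0, 0), (36, 0, 0, 0, 0), (36, 0, 0, 0, 0), (1, 0, 0, 0, 0), (1, 0, 0, 0, 0), (0, 0, 0, 0, 0), (2, 0, 0, 0, 0), (37, 0, 0, 0, 0), (37, 0, 0, 0, 0), (36, 0, 0, 0, 0), (36, 0, 0, 0, 0), (2, 0, 0, 0, 0), (2, 0, 0, 0, 0), (3, 0, 0, 0, 0), (3, 0, 0, 0, 0), (1, 0, 0, 0, 0), (37, 0, 0, 0, 0), (37, 0, 0, 0, 0), (3, 0, 0, 0, 0), (54, 0, 0, 0, 0), (54, 0, 0, 0, 0), (55, 0, 0, 0, 0), (55, 0, 0, 0, 0), (56, 0, 0, 0, 0), (56, 0, 0, 0, 0), (54, 0, 0, 0, 0), (54, 0, 0, 0, 0), (57, 0, 0, 0, 0), (57, 0, 0, 0, 0), (58, 0, 0, 0, 0), (58, 0, 0, 0, 0), (55, 0, 0, 0, 0), (55, 0, 0, 0, 0), (57, 0, 0, 0, 0), (57, 0, 0, 0, 0), (59, 0, 0, 0, 0), (59, 0, 0, 0, 0), (56, 0, 0, 0, 0), (56, 0, 0, 0, 0), (58, 0, 0, 0, 0), (58, 0, 0, 0, 0), (59, 0, 0, 0, 0), (59, 0, 0,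 0, 0), (12, 0, 0, 0, 0), (13, 0, 0, 0, 0), (60, 0, 0, 0, 0), (60, 0, 0, 0, 0), (12, 0, 0, 0, 0), (12, 0, 0, 0, 0), (61, 0, 0, 0, 0), (61, 0, 0, 0, 0), (14, 0, 0, 0, 0), (14, 0, 0, 0, 0), (13, 0, 0, 0, 0), (13, 0, 0, 0, 0), (61, 0, 0, 0, 0), (61, 0, 0, 0, 0), (15, 0, 0, 0, 0), (15, 0, 0, 0, 0), (60, 0, 0, 0, 0), (60, 0, 0, 0, 0), (14, 0, 0, 0, 0), (15, 0, 0, 0, 0), (62, 0, 0, 0, 0), (62, 0, 0, 0, 0), (63, 0, 0, 0, 0), (63, 0, 0, 0, 0), (64, 0, 0, 0, 0), (64, 0, 0, 0, 0), (62, 0, 0, 0, 0), (62, 0, 0, 0, 0), (65, 0, 0, 0, 0), (65, 0, 0, 0, 0), (66, 0, 0, 0, 0), (66, 0, 0, 0, 0), (63, 0, 0, 0, 0), (63, 0, 0, 0, 0), (65, 0, 0, 0, 0), (65, 0, 0, 0, 0), (67, 0, 0, 0, 0), (67, 0, 0, 0, 0), (64, 0, 0, 0, 0), (64, 0, 0, 0, 0), (66, 0, 0, 0, 0), (66, 0, 0, 0, 0), (67,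 0, 0, 0, 0), (67, 0, 0, 0, 0), (16, 0, 0, 0, 0), (68, 0, 0, 0, 0), (68, 0, 0, 0, 0), (17, 0, 0, 0, 0), (16, 0, 0, 0, 0), (16, 0, 0, 0, 0), (18, 0, 0, 0, 0), (18, 0, 0, 0, 0), (69, 0, 0, 0, 0), (69, 0, 0, 0, 0), (68, 0, 0, 0, 0), (68, 0, 0, 0, 0), (18, 0, 0, 0, 0), (19, 0, 0, 0, 0), (17, 0, 0, 0, 0), (17, 0, 0, 0, 0), (69, 0, 0, 0, 0), (69, 0, 0, 0, 0), (19, 0, 0, 0, 0), (19, 0, 0, 0, 0), (4, 0, 0, 0, 0), (4, 0, 0, 0, 0), (38, 0, 0, 0, 0), (38, 0, 0, 0, 0), (5, 0, 0, 0, 0), (5, 0, 0, 0, 0), (4, 0, 0, 0, 0), (6, 0, 0, 0, 0), (39, 0, 0, 0, 0), (39, 0, 0, 0, 0), (38, 0, 0, 0, 0), (38, 0, 0, 0, 0), (6, 0, 0, 0, 0), (6, 0, 0, 0, 0), (7, 0, 0, 0, 0), (7, 0, 0, 0, 0), (5, 0, 0, 0, 0), (39, 0, 0, 0, 0), (39, 0, 0, 0, 0), (7, 0, 0, 0, 0), (54, 0, 0, 0, 0), (54, 0,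 0, 0, 0), (55, 0, 0, 0, 0), (55, 0, 0, 0, 0), (56, 0, 0, 0, 0), (56, 0, 0, 0, 0), (54, 0, 0, 0, 0), (54, 0, 0, 0, 0), (57, 0, 0, 0, 0), (57, 0, 0, 0, 0), (58, 0, 0, 0, 0), (58, 0, 0, 0, 0), (55, 0, 0, 0, 0), (55, 0, 0, 0, 0), (57, 0, 0, 0, 0), (57, 0, 0, 0, 0), (59, 0, 0, 0, 0), (59, 0, 0, 0, 0), (56, 0, 0, 0, 0), (56, 0, 0, 0, 0), (58, 0, 0, 0, 0), (58, 0, 0, 0, 0), (59, 0, 0, 0, 0), (59, 0, 0, 0, 0), (20, 0, 0, 0, 0), (21, 0, 0, 0, 0), (70, 0, 0, 0, 0), (70, 0, 0, 0, 0), (20, 0, 0, 0, 0), (20, 0, 0, 0, 0), (71, 0, 0, 0, 0), (71, 0, 0, 0, 0), (22, 0, 0, 0, 0), (22, 0, 0, 0, 0), (21, 0, 0, 0, 0), (21, 0, 0, 0, 0), (71, 0, 0, 0, 0), (71, 0, 0, 0, 0), (23, 0, 0, 0, 0), (23, 0, 0, 0, 0), (70, 0, 0, 0, 0), (70, 0, 0, 0, 0), (22, 0, 0, 0, 0), (23, 0, 0, 0, 0),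 (72, 0, 0, 0, 0), (72, 0, 0, 0, 0), (73, 0, 0, 0, 0), (73, 0, 0, 0, 0), (74, 0, 0, 0, 0), (74, 0, 0, 0, 0), (72, 0, 0, 0, 0), (72, 0, 0, 0, 0), (75, 0, 0, 0, 0), (75, 0, 0, 0, 0), (76, 0, 0, 0, 0), (76, 0, 0, 0, 0), (73, 0, 0, 0, 0), (73, 0, 0, 0, 0), (75, 0, 0, 0, 0), (75, 0, 0, 0, 0), (77, 0, 0, 0, 0), (77, 0, 0, 0, 0), (74, 0, 0, 0, 0), (74, 0, 0, 0, 0), (76, 0, 0, 0, 0), (76, 0, 0, 0, 0), (77, 0, 0, 0, 0), (77, 0, 0, 0, 0), (24, 0, 0, 0, 0), (78, 0, 0, 0, 0), (78, 0, 0, 0, 0), (25, 0, 0, 0, 0), (24, 0, 0, 0, 0), (24, 0, 0, 0, 0), (26, 0, 0, 0, 0), (26, 0, 0, 0, 0), (79, 0, 0, 0, 0), (79, 0, 0, 0, 0), (78, 0, 0, 0, 0), (78, 0, 0, 0, 0), (26, 0, 0, 0, 0), (27, 0, 0, 0, 0), (25, 0, 0, 0, 0), (25, 0, 0, 0, 0), (79, 0, 0, 0, 0), (79, 0, 0, 0, 0), (27, 0,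 0, 0, 0), (27, 0, 0, 0, 0), (40, 0, 0, 0, 0), (40, 0, 0, 0, 0), (41, 0, 0, 0, 0), (41, 0, 0, 0, 0), (42, 0, 0, 0, 0), (42, 0, 0, 0, 0), (40, 0, 0, 0, 0), (40, 0, 0, 0, 0), (43, 0, 0, 0, 0), (43, 0, 0, 0, 0), (44, 0, 0, 0, 0), (44, 0, 0, 0, 0), (41, 0, 0, 0, 0), (41, 0, 0, 0, 0), (43, 0, 0, 0, 0), (43, 0, 0, 0, 0), (45, 0, 0, 0, 0), (45, 0, 0, 0, 0), (42, 0, 0, 0, 0), (42, 0, 0, 0, 0), (44, 0, 0, 0, 0), (44, 0, 0, 0, 0), (45, 0, 0, 0, 0), (45, 0, 0, 0, 0), (12, 0, 0, 0, 0), (12, 0, 0, 0, 0), (13, 0, 0, 0, 0), (13, 0, 0, 0, 0), (60, 0, 0, 0, 0), (60, 0, 0, 0, 0), (12, 0, 0, 0, 0), (12, 0, 0, 0, 0), (61, 0, 0, 0, 0), (61, 0, 0, 0, 0), (14, 0, 0, 0, 0), (14, 0, 0, 0, 0), (13, 0, 0, 0, 0), (13, 0, 0, 0, 0), (61, 0, 0, 0, 0), (61, 0, 0, 0, 0), (15, 0, 0, 0, 0),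 (15, 0, 0, 0, 0), (60, 0, 0, 0, 0), (60, 0, 0, 0, 0), (14, 0, 0, 0, 0), (14, 0, 0, 0, 0), (15, 0, 0, 0, 0), (15, 0, 0, 0, 0), (20, 0, 0, 0, 0), (20, 0, 0, 0, 0), (21, 0, 0, 0, 0), (21, 0, 0, 0, 0), (70, 0, 0, 0, 0), (70, 0, 0, 0, 0), (20, 0, 0, 0, 0), (20, 0, 0, 0, 0), (71, 0, 0, 0, 0), (71, 0, 0, 0, 0), (22, 0, 0, 0, 0), (22, 0, 0, 0, 0), (21, 0, 0, 0, 0), (21, 0, 0, 0, 0), (71, 0, 0, 0, 0), (71, 0, 0, 0, 0), (23, 0, 0, 0, 0), (23, 0, 0, 0, 0), (70, 0, 0, 0, 0), (70, 0, 0, 0, 0), (22, 0, 0, 0, 0), (22, 0, 0, 0, 0), (23, 0, 0, 0, 0), (23, 0, 0, 0, 0), (28, 0, 0, 0, 0), (28, 0, 0, 0, 0), (29, 0, 0, 0, 0), (29, 0, 0, 0, 0), (80, 0, 0, 0, 0), (80, 0, 0, 0, 0), (28, 0, 0, 0, 0), (28, 0, 0, 0, 0), (81, 0, 0, 0, 0), (81, 0, 0, 0, 0), (30, 0, 0, 0, 0), (30, 0,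 0, 0, 0), (29, 0, 0, 0, 0), (29, 0, 0, 0, 0), (81, 0, 0, 0, 0), (81, 0, 0, 0, 0), (31, 0, 0, 0, 0), (31, 0, 0, 0, 0), (80, 0, 0, 0, 0), (80, 0, 0, 0, 0), (30, 0, 0, 0, 0), (30, 0, 0, 0, 0), (31, 0, 0, 0, 0), (31, 0, 0, 0, 0), (82, 0, 0, 0, 0), (82, 0, 0, 0, 0), (83, 0, 0, 0, 0), (83, 0, 0, 0, 0), (84, 0, 0, 0, 0), (84, 0, 0, 0, 0), (82, 0, 0, 0, 0), (82, 0, 0, 0, 0), (85, 0, 0, 0, 0), (85, 0, 0, 0, 0), (86, 0, 0, 0, 0), (86, 0, 0, 0, 0), (83, 0, 0, 0, 0), (83, 0, 0, 0, 0), (85, 0, 0, 0, 0), (85, 0, 0, 0, 0), (87, 0, 0, 0, 0), (87, 0, 0, 0, 0), (84, 0, 0, 0, 0), (84, 0, 0, 0, 0), (86, 0, 0, 0, 0), (86, 0, 0, 0, 0), (87, 0, 0, 0, 0), (87, 0, 0, 0, 0), (46, 0, 0, 0, 0), (46, 0, 0, 0, 0), (8, 0, 0, 0, 0), (8, 0, 0, 0, 0), (9, 0, 0, 0, 0), (9, 0, 0, 0, 0), (46,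 0, 0, 0, 0), (46, 0, 0, 0, 0), (10, 0, 0, 0, 0), (10, 0, 0, 0, 0), (11, 0, 0, 0, 0), (11, 0, 0, 0, 0), (8, 0, 0, 0, 0), (10, 0, 0, 0, 0), (47, 0, 0, 0, 0), (47, 0, 0, 0, 0), (9, 0, 0, 0, 0), (11, 0, 0, 0, 0), (47, 0, 0, 0, 0), (47, 0, 0, 0, 0), (62, 0, 0, 0, 0), (62, 0, 0, 0, 0), (63, 0, 0, 0, 0), (63, 0, 0, 0, 0), (64, 0, 0, 0, 0), (64, 0, 0, 0, 0), (62, 0, 0, 0, 0), (62, 0, 0, 0, 0), (65, 0, 0, 0, 0), (65, 0, 0, 0, 0), (66, 0, 0, 0, 0), (66, 0, 0, 0, 0), (63, 0, 0, 0, 0), (63, 0, 0, 0, 0), (65, 0, 0, 0, 0), (65, 0, 0, 0, 0), (67, 0, 0, 0, 0), (67, 0, 0, 0, 0), (64, 0, 0, 0, 0), (64, 0, 0, 0, 0), (66, 0, 0, 0, 0), (66, 0, 0, 0, 0), (67, 0, 0, 0, 0), (67, 0, 0, 0, 0), (72, 0, 0, 0, 0), (72, 0, 0, 0, 0), (73, 0, 0, 0, 0), (73, 0, 0, 0, 0), (74, 0, 0, 0, 0),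 (74, 0, 0, 0, 0), (72, 0, 0, 0, 0), (72, 0, 0, 0, 0), (75, 0, 0, 0, 0), (75, 0, 0, 0, 0), (76, 0, 0, 0, 0), (76, 0, 0, 0, 0), (73, 0, 0, 0, 0), (73, 0, 0, 0, 0), (75, 0, 0, 0, 0), (75, 0, 0, 0, 0), (77, 0, 0, 0, 0), (77, 0, 0, 0, 0), (74, 0, 0, 0, 0), (74, 0, 0, 0, 0), (76, 0, 0, 0, 0), (76, 0, 0, 0, 0), (77, 0, 0, 0, 0), (77, 0, 0, 0, 0), (28, 0, 0, 0, 0), (29, 0, 0, 0, 0), (80, 0, 0, 0, 0), (80, 0, 0, 0, 0), (28, 0, 0, 0, 0), (28, 0, 0, 0, 0), (81, 0, 0, 0, 0), (81, 0, 0, 0, 0), (30, 0, 0, 0, 0), (30, 0, 0, 0, 0), (29, 0, 0, 0, 0), (29, 0, 0, 0, 0), (81, 0, 0, 0, 0), (81, 0, 0, 0, 0), (31, 0, 0, 0, 0), (31, 0, 0, 0, 0), (80, 0, 0, 0, 0), (80, 0, 0, 0, 0), (30, 0, 0, 0, 0), (31, 0, 0, 0, 0), (32, 0, 0, 0, 0), (33, 0, 0, 0, 0), (88, 0, 0, 0, 0), (88, 0,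 0, 0, 0), (32, 0, 0, 0, 0), (32, 0, 0, 0, 0), (89, 0, 0, 0, 0), (89, 0, 0, 0, 0), (34, 0, 0, 0, 0), (34, 0, 0, 0, 0), (33, 0, 0, 0, 0), (33, 0, 0, 0, 0), (89, 0, 0, 0, 0), (89, 0, 0, 0, 0), (35, 0, 0, 0, 0), (35, 0, 0, 0, 0), (88, 0, 0, 0, 0), (88, 0, 0, 0, 0), (34, 0, 0, 0, 0), (35, 0, 0, 0, 0), (48, 0, 0, 0, 0), (48, 0, 0, 0, 0), (49, 0, 0, 0, 0), (49, 0, 0, 0, 0), (50, 0, 0, 0, 0), (50, 0, 0, 0, 0), (48, 0, 0, 0, 0), (48, 0, 0, 0, 0), (51, 0, 0, 0, 0), (51, 0, 0, 0, 0), (52, 0, 0, 0, 0), (52, 0, 0, 0, 0), (49, 0, 0, 0, 0), (49, 0, 0, 0, 0), (51, 0, 0, 0, 0), (51, 0, 0, 0, 0), (53, 0, 0, 0, 0), (53, 0, 0, 0, 0), (50, 0, 0, 0, 0), (50, 0, 0, 0, 0), (52, 0, 0, 0, 0), (52, 0, 0, 0, 0), (53, 0, 0, 0, 0), (53, 0, 0, 0, 0), (16, 0, 0, 0, 0), (16, 0, 0, 0, 0),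 (68, 0, 0, 0, 0), (68, 0, 0, 0, 0), (17, 0, 0, 0, 0), (17, 0, 0, 0, 0), (16, 0, 0, 0, 0), (16, 0, 0, 0, 0), (18, 0, 0, 0, 0), (18, 0, 0, 0, 0), (69, 0, 0, 0, 0), (69, 0, 0, 0, 0), (68, 0, 0, 0, 0), (68, 0, 0, 0, 0), (18, 0, 0, 0, 0), (18, 0, 0, 0, 0), (19, 0, 0, 0, 0), (19, 0, 0, 0, 0), (17, 0, 0, 0, 0), (17, 0, 0, 0, 0), (69, 0, 0, 0, 0), (69, 0, 0, 0, 0), (19, 0, 0, 0, 0), (19, 0, 0, 0, 0), (24, 0, 0, 0, 0), (24, 0, 0, 0, 0), (78, 0, 0, 0, 0), (78, 0, 0, 0, 0), (25, 0, 0, 0, 0), (25, 0, 0, 0, 0), (24, 0, 0, 0, 0), (24, 0, 0, 0, 0), (26, 0, 0, 0, 0), (26, 0, 0, 0, 0), (79, 0, 0, 0, 0), (79, 0, 0, 0, 0), (78, 0, 0, 0, 0), (78, 0, 0, 0, 0), (26, 0, 0, 0, 0), (26, 0, 0, 0, 0), (27, 0, 0, 0, 0), (27, 0, 0, 0, 0), (25, 0, 0, 0, 0), (25, 0, 0, 0, 0), (79, 0,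 0, 0, 0), (79, 0, 0, 0, 0), (27, 0, 0, 0, 0), (27, 0, 0, 0, 0), (82, 0, 0, 0, 0), (82, 0, 0, 0, 0), (83, 0, 0, 0, 0), (83, 0, 0, 0, 0), (84, 0, 0, 0, 0), (84, 0, 0, 0, 0), (82, 0, 0, 0, 0), (82, 0, 0, 0, 0), (85, 0, 0, 0, 0), (85, 0, 0, 0, 0), (86, 0, 0, 0, 0), (86, 0, 0, 0, 0), (83, 0, 0, 0, 0), (83, 0, 0, 0, 0), (85, 0, 0, 0, 0), (85, 0, 0, 0, 0), (87, 0, 0, 0, 0), (87, 0, 0, 0, 0), (84, 0, 0, 0, 0), (84, 0, 0, 0, 0), (86, 0, 0, 0, 0), (86, 0, 0, 0, 0), (87, 0, 0, 0, 0), (87, 0, 0, 0, 0), (32, 0, 0, 0, 0), (32, 0, 0, 0, 0), (33, 0, 0, 0, 0), (33, 0, 0, 0, 0), (88, 0, 0, 0, 0), (88, 0, 0, 0, 0), (32, 0, 0, 0, 0), (32, 0, 0, 0, 0), (89, 0, 0, 0, 0), (89, 0, 0, 0, 0), (34, 0, 0, 0, 0), (34, 0, 0, 0, 0), (33, 0, 0, 0, 0), (33, 0, 0, 0, 0), (89, 0, 0, 0, 0),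 (89, 0, 0, 0, 0), (35, 0, 0, 0, 0), (35, 0, 0, 0, 0), (88, 0, 0, 0, 0), (88, 0, 0, 0, 0), (34, 0, 0, 0, 0), (34, 0, 0, 0, 0), (35, 0, 0, 0, 0), (35, 0, 0, 0, 0)],
  [(20, 0, 0, 0, 0), (20, 0, 0, 0, 0), (72, 0, 0, 0, 0), (72, 0, 0, 0, 0), (24, 0, 0, 0, 0), (24, 0, 0, 0, 0), (20, 0, 0, 0, 0), (20, 0, 0, 0, 0), (28, 0, 0, 0, 0), (28, 0, 0, 0, 0), (82, 0, 0, 0, 0), (82, 0, 0, 0, 0), (72, 0, 0, 0, 0), (72, 0, 0, 0, 0), (28, 0, 0, 0, 0), (28, 0, 0, 0, 0), (32, 0, 0, 0, 0), (32, 0, 0, 0, 0), (24, 0, 0, 0, 0), (24, 0, 0, 0, 0), (82, 0, 0, 0, 0), (82, 0, 0, 0, 0), (32, 0, 0, 0, 0), (32, 0, 0, 0, 0), (12, 0, 0, 0, 0), (12, 0, 0, 0, 0), (62, 0, 0, 0, 0), (62, 0, 0, 0, 0), (16, 0, 0, 0, 0), (16, 0, 0, 0, 0), (12, 0, 0, 0, 0), (12, 0, 0, 0, 0), (29, 0, 0, 0, 0), (29,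 0, 0, 0, 0), (83, 0, 0, 0, 0), (83, 0, 0, 0, 0), (62, 0, 0, 0, 0), (62, 0, 0, 0, 0), (29, 0, 0, 0, 0), (29, 0, 0, 0, 0), (33, 0, 0, 0, 0), (33, 0, 0, 0, 0), (16, 0, 0, 0, 0), (16, 0, 0, 0, 0), (83, 0, 0, 0, 0), (83, 0, 0, 0, 0), (33, 0, 0, 0, 0), (33, 0, 0, 0, 0), (54, 0, 0, 0, 0), (54, 0, 0, 0, 0), (63, 0, 0, 0, 0), (63, 0, 0, 0, 0), (68, 0, 0, 0, 0), (68, 0, 0, 0, 0), (54, 0, 0, 0, 0), (54, 0, 0, 0, 0), (73, 0, 0, 0, 0), (73, 0, 0, 0, 0), (78, 0, 0, 0, 0), (78, 0, 0, 0, 0), (63, 0, 0, 0, 0), (63, 0, 0, 0, 0), (73, 0, 0, 0, 0), (73, 0, 0, 0, 0), (88, 0, 0, 0, 0), (88, 0, 0, 0, 0), (68, 0, 0, 0, 0), (68, 0, 0, 0, 0), (78, 0, 0, 0, 0), (78, 0, 0, 0, 0), (88, 0, 0, 0, 0), (88, 0, 0, 0, 0), (55, 0, 0, 0, 0), (55, 0, 0, 0, 0), (13, 0, 0, 0, 0), (13, 0, 0, 0,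 0), (17, 0, 0, 0, 0), (17, 0, 0, 0, 0), (55, 0, 0, 0, 0), (55, 0, 0, 0, 0), (21, 0, 0, 0, 0), (21, 0, 0, 0, 0), (25, 0, 0, 0, 0), (25, 0, 0, 0, 0), (13, 0, 0, 0, 0), (13, 0, 0, 0, 0), (21, 0, 0, 0, 0), (21, 0, 0, 0, 0), (84, 0, 0, 0, 0), (84, 0, 0, 0, 0), (17, 0, 0, 0, 0), (17, 0, 0, 0, 0), (25, 0, 0, 0, 0), (25, 0, 0, 0, 0), (84, 0, 0, 0, 0), (84, 0, 0, 0, 0), (56, 0, 0, 0, 0), (56, 0, 0, 0, 0), (60, 0, 0, 0, 0), (60, 0, 0, 0, 0), (64, 0, 0, 0, 0), (64, 0, 0, 0, 0), (56, 0, 0, 0, 0), (56, 0, 0, 0, 0), (70, 0, 0, 0, 0), (70, 0, 0, 0, 0), (74, 0, 0, 0, 0), (74, 0, 0, 0, 0), (60, 0, 0, 0, 0), (60, 0, 0, 0, 0), (70, 0, 0, 0, 0), (70, 0, 0, 0, 0), (80, 0, 0, 0, 0), (80, 0, 0, 0, 0), (64, 0, 0, 0, 0), (64, 0, 0, 0, 0), (74, 0, 0, 0, 0), (74, 0, 0, 0, 0), (80,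 0, 0, 0, 0), (80, 0, 0, 0, 0), (20, 0, 0, 0, 0), (20, 0, 0, 0, 0), (72, 0, 0, 0, 0), (72, 0, 0, 0, 0), (24, 0, 0, 0, 0), (24, 0, 0, 0, 0), (20, 0, 0, 0, 0), (28, 0, 0, 0, 0), (82, 0, 0, 0, 0), (82, 0, 0, 0, 0), (72, 0, 0, 0, 0), (72, 0, 0, 0, 0), (28, 0, 0, 0, 0), (28, 0, 0, 0, 0), (32, 0, 0, 0, 0), (32, 0, 0, 0, 0), (24, 0, 0, 0, 0), (82, 0, 0, 0, 0), (82, 0, 0, 0, 0), (32, 0, 0, 0, 0), (40, 0, 0, 0, 0), (40, 0, 0, 0, 0), (46, 0, 0, 0, 0), (46, 0, 0, 0, 0), (48, 0, 0, 0, 0), (48, 0, 0, 0, 0), (40, 0, 0, 0, 0), (40, 0, 0, 0, 0), (81, 0, 0, 0, 0), (81, 0, 0, 0, 0), (85, 0, 0, 0, 0), (85, 0, 0, 0, 0), (46, 0, 0, 0, 0), (46, 0, 0, 0, 0), (81, 0, 0, 0, 0), (81, 0, 0, 0, 0), (89, 0, 0, 0, 0), (89, 0, 0, 0, 0), (48, 0, 0, 0, 0), (48, 0, 0, 0, 0), (85, 0, 0, 0,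 0), (85, 0, 0, 0, 0), (89, 0, 0, 0, 0), (89, 0, 0, 0, 0), (4, 0, 0, 0, 0), (8, 0, 0, 0, 0), (49, 0, 0, 0, 0), (49, 0, 0, 0, 0), (4, 0, 0, 0, 0), (4, 0, 0, 0, 0), (75, 0, 0, 0, 0), (75, 0, 0, 0, 0), (26, 0, 0, 0, 0), (26, 0, 0, 0, 0), (8, 0, 0, 0, 0), (8, 0, 0, 0, 0), (75, 0, 0, 0, 0), (75, 0, 0, 0, 0), (34, 0, 0, 0, 0), (34, 0, 0, 0, 0), (49, 0, 0, 0, 0), (49, 0, 0, 0, 0), (26, 0, 0, 0, 0), (34, 0, 0, 0, 0), (38, 0, 0, 0, 0), (38, 0, 0, 0, 0), (41, 0, 0, 0, 0), (41, 0, 0, 0, 0), (50, 0, 0, 0, 0), (50, 0, 0, 0, 0), (38, 0, 0, 0, 0), (38, 0, 0, 0, 0), (71, 0, 0, 0, 0), (71, 0, 0, 0, 0), (79, 0, 0, 0, 0), (79, 0, 0, 0, 0), (41, 0, 0, 0, 0), (41, 0, 0, 0, 0), (71, 0, 0, 0, 0), (71, 0, 0, 0, 0), (86, 0, 0, 0, 0), (86, 0, 0, 0, 0), (50, 0, 0, 0, 0), (50, 0, 0,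 0, 0), (79, 0, 0, 0, 0), (79, 0, 0, 0, 0), (86, 0, 0, 0, 0), (86, 0, 0, 0, 0), (5, 0, 0, 0, 0), (42, 0, 0, 0, 0), (42, 0, 0, 0, 0), (9, 0, 0, 0, 0), (5, 0, 0, 0, 0), (5, 0, 0, 0, 0), (22, 0, 0, 0, 0), (22, 0, 0, 0, 0), (76, 0, 0, 0, 0), (76, 0, 0, 0, 0), (42, 0, 0, 0, 0), (42, 0, 0, 0, 0), (22, 0, 0, 0, 0), (30, 0, 0, 0, 0), (9, 0, 0, 0, 0), (9, 0, 0, 0, 0), (76, 0, 0, 0, 0), (76, 0, 0, 0, 0), (30, 0, 0, 0, 0), (30, 0, 0, 0, 0), (12, 0, 0, 0, 0), (12, 0, 0, 0, 0), (62, 0, 0, 0, 0), (62, 0, 0, 0, 0), (16, 0, 0, 0, 0), (16, 0, 0, 0, 0), (12, 0, 0, 0, 0), (29, 0, 0, 0, 0), (83, 0, 0, 0, 0), (83, 0, 0, 0, 0), (62, 0, 0, 0, 0), (62, 0, 0, 0, 0), (29, 0, 0, 0, 0), (29, 0, 0, 0, 0), (33, 0, 0, 0, 0), (33, 0, 0, 0, 0), (16, 0, 0, 0, 0), (83, 0, 0, 0, 0), (83, 0,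 0, 0, 0), (33, 0, 0, 0, 0), (40, 0, 0, 0, 0), (40, 0, 0, 0, 0), (46, 0, 0, 0, 0), (46, 0, 0, 0, 0), (48, 0, 0, 0, 0), (48, 0, 0, 0, 0), (40, 0, 0, 0, 0), (40, 0, 0, 0, 0), (81, 0, 0, 0, 0), (81, 0, 0, 0, 0), (85, 0, 0, 0, 0), (85, 0, 0, 0, 0), (46, 0, 0, 0, 0), (46, 0, 0, 0, 0), (81, 0, 0, 0, 0), (81, 0, 0, 0, 0), (89, 0, 0, 0, 0), (89, 0, 0, 0, 0), (48, 0, 0, 0, 0), (48, 0, 0, 0, 0), (85, 0, 0, 0, 0), (85, 0, 0, 0, 0), (89, 0, 0, 0, 0), (89, 0, 0, 0, 0), (0, 0, 0, 0, 0), (10, 0, 0, 0, 0), (51, 0, 0, 0, 0), (51, 0, 0, 0, 0), (0, 0, 0, 0, 0), (0, 0, 0, 0, 0), (65, 0, 0, 0, 0), (65, 0, 0, 0, 0), (18, 0, 0, 0, 0), (18, 0, 0, 0, 0), (10, 0, 0, 0, 0), (10, 0, 0, 0, 0), (65, 0, 0, 0, 0), (65, 0, 0, 0, 0), (35, 0, 0, 0, 0), (35, 0, 0, 0, 0), (51, 0, 0, 0, 0), (51,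 0, 0, 0, 0), (18, 0, 0, 0, 0), (35, 0, 0, 0, 0), (36, 0, 0, 0, 0), (36, 0, 0, 0, 0), (43, 0, 0, 0, 0), (43, 0, 0, 0, 0), (52, 0, 0, 0, 0), (52, 0, 0, 0, 0), (36, 0, 0, 0, 0), (36, 0, 0, 0, 0), (61, 0, 0, 0, 0), (61, 0, 0, 0, 0), (69, 0, 0, 0, 0), (69, 0, 0, 0, 0), (43, 0, 0, 0, 0), (43, 0, 0, 0, 0), (61, 0, 0, 0, 0), (61, 0, 0, 0, 0), (87, 0, 0, 0, 0), (87, 0, 0, 0, 0), (52, 0, 0, 0, 0), (52, 0, 0, 0, 0), (69, 0, 0, 0, 0), (69, 0, 0, 0, 0), (87, 0, 0, 0, 0), (87, 0, 0, 0, 0), (1, 0, 0, 0, 0), (44, 0, 0, 0, 0), (44, 0, 0, 0, 0), (11, 0, 0, 0, 0), (1, 0, 0, 0, 0), (1, 0, 0, 0, 0), (14, 0, 0, 0, 0), (14, 0, 0, 0, 0), (66, 0, 0, 0, 0), (66, 0, 0, 0, 0), (44, 0, 0, 0, 0), (44, 0, 0, 0, 0), (14, 0, 0, 0, 0), (31, 0, 0, 0, 0), (11, 0, 0, 0, 0), (11, 0, 0, 0, 0),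 (66, 0, 0, 0, 0), (66, 0, 0, 0, 0), (31, 0, 0, 0, 0), (31, 0, 0, 0, 0), (54, 0, 0, 0, 0), (54, 0, 0, 0, 0), (63, 0, 0, 0, 0), (63, 0, 0, 0, 0), (68, 0, 0, 0, 0), (68, 0, 0, 0, 0), (54, 0, 0, 0, 0), (54, 0, 0, 0, 0), (73, 0, 0, 0, 0), (73, 0, 0, 0, 0), (78, 0, 0, 0, 0), (78, 0, 0, 0, 0), (63, 0, 0, 0, 0), (63, 0, 0, 0, 0), (73, 0, 0, 0, 0), (73, 0, 0, 0, 0), (88, 0, 0, 0, 0), (88, 0, 0, 0, 0), (68, 0, 0, 0, 0), (68, 0, 0, 0, 0), (78, 0, 0, 0, 0), (78, 0, 0, 0, 0), (88, 0, 0, 0, 0), (88, 0, 0, 0, 0), (4, 0, 0, 0, 0), (4, 0, 0, 0, 0), (8, 0, 0, 0, 0), (8, 0, 0, 0, 0), (49, 0, 0, 0, 0), (49, 0, 0, 0, 0), (4, 0, 0, 0, 0), (4, 0, 0, 0, 0), (75, 0, 0, 0, 0), (75, 0, 0, 0, 0), (26, 0, 0, 0, 0), (26, 0, 0, 0, 0), (8, 0, 0, 0, 0), (8, 0, 0, 0, 0), (75, 0, 0, 0, 0),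 (75, 0, 0, 0, 0), (34, 0, 0, 0, 0), (34, 0, 0, 0, 0), (49, 0, 0, 0, 0), (49, 0, 0, 0, 0), (26, 0, 0, 0, 0), (26, 0, 0, 0, 0), (34, 0, 0, 0, 0), (34, 0, 0, 0, 0), (0, 0, 0, 0, 0), (0, 0, 0, 0, 0), (10, 0, 0, 0, 0), (10, 0, 0, 0, 0), (51, 0, 0, 0, 0), (51, 0, 0, 0, 0), (0, 0, 0, 0, 0), (0, 0, 0, 0, 0), (65, 0, 0, 0, 0), (65, 0, 0, 0, 0), (18, 0, 0, 0, 0), (18, 0, 0, 0, 0), (10, 0, 0, 0, 0), (10, 0, 0, 0, 0), (65, 0, 0, 0, 0), (65, 0, 0, 0, 0), (35, 0, 0, 0, 0), (35, 0, 0, 0, 0), (51, 0, 0, 0, 0), (51, 0, 0, 0, 0), (18, 0, 0, 0, 0), (18, 0, 0, 0, 0), (35, 0, 0, 0, 0), (35, 0, 0, 0, 0), (2, 0, 0, 0, 0), (2, 0, 0, 0, 0), (6, 0, 0, 0, 0), (6, 0, 0, 0, 0), (53, 0, 0, 0, 0), (53, 0, 0, 0, 0), (2, 0, 0, 0, 0), (2, 0, 0, 0, 0), (57, 0, 0, 0, 0), (57, 0, 0, 0, 0),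 (19, 0, 0, 0, 0), (19, 0, 0, 0, 0), (6, 0, 0, 0, 0), (6, 0, 0, 0, 0), (57, 0, 0, 0, 0), (57, 0, 0, 0, 0), (27, 0, 0, 0, 0), (27, 0, 0, 0, 0), (53, 0, 0, 0, 0), (53, 0, 0, 0, 0), (19, 0, 0, 0, 0), (19, 0, 0, 0, 0), (27, 0, 0, 0, 0), (27, 0, 0, 0, 0), (37, 0, 0, 0, 0), (37, 0, 0, 0, 0), (39, 0, 0, 0, 0), (39, 0, 0, 0, 0), (47, 0, 0, 0, 0), (47, 0, 0, 0, 0), (37, 0, 0, 0, 0), (37, 0, 0, 0, 0), (58, 0, 0, 0, 0), (58, 0, 0, 0, 0), (67, 0, 0, 0, 0), (67, 0, 0, 0, 0), (39, 0, 0, 0, 0), (39, 0, 0, 0, 0), (58, 0, 0, 0, 0), (58, 0, 0, 0, 0), (77, 0, 0, 0, 0), (77, 0, 0, 0, 0), (47, 0, 0, 0, 0), (47, 0, 0, 0, 0), (67, 0, 0, 0, 0), (67, 0, 0, 0, 0), (77, 0, 0, 0, 0), (77, 0, 0, 0, 0), (55, 0, 0, 0, 0), (55, 0, 0, 0, 0), (13, 0, 0, 0, 0), (13, 0, 0, 0, 0), (17, 0, 0,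 0, 0), (17, 0, 0, 0, 0), (55, 0, 0, 0, 0), (55, 0, 0, 0, 0), (21, 0, 0, 0, 0), (21, 0, 0, 0, 0), (25, 0, 0, 0, 0), (25, 0, 0, 0, 0), (13, 0, 0, 0, 0), (21, 0, 0, 0, 0), (84, 0, 0, 0, 0), (84, 0, 0, 0, 0), (17, 0, 0, 0, 0), (25, 0, 0, 0, 0), (84, 0, 0, 0, 0), (84, 0, 0, 0, 0), (38, 0, 0, 0, 0), (38, 0, 0, 0, 0), (41, 0, 0, 0, 0), (41, 0, 0, 0, 0), (50, 0, 0, 0, 0), (50, 0, 0, 0, 0), (38, 0, 0, 0, 0), (38, 0, 0, 0, 0), (71, 0, 0, 0, 0), (71, 0, 0, 0, 0), (79, 0, 0, 0, 0), (79, 0, 0, 0, 0), (41, 0, 0, 0, 0), (41, 0, 0, 0, 0), (71, 0, 0, 0, 0), (71, 0, 0, 0, 0), (86, 0, 0, 0, 0), (86, 0, 0, 0, 0), (50, 0, 0, 0, 0), (50, 0, 0, 0, 0), (79, 0, 0, 0, 0), (79, 0, 0, 0, 0), (86, 0, 0, 0, 0), (86, 0, 0, 0, 0), (36, 0, 0, 0, 0), (36, 0, 0, 0, 0), (43, 0, 0, 0, 0), (43,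 0, 0, 0, 0), (52, 0, 0, 0, 0), (52, 0, 0, 0, 0), (36, 0, 0, 0, 0), (36, 0, 0, 0, 0), (61, 0, 0, 0, 0), (61, 0, 0, 0, 0), (69, 0, 0, 0, 0), (69, 0, 0, 0, 0), (43, 0, 0, 0, 0), (43, 0, 0, 0, 0), (61, 0, 0, 0, 0), (61, 0, 0, 0, 0), (87, 0, 0, 0, 0), (87, 0, 0, 0, 0), (52, 0, 0, 0, 0), (52, 0, 0, 0, 0), (69, 0, 0, 0, 0), (69, 0, 0, 0, 0), (87, 0, 0, 0, 0), (87, 0, 0, 0, 0), (2, 0, 0, 0, 0), (6, 0, 0, 0, 0), (53, 0, 0, 0, 0), (53, 0, 0, 0, 0), (2, 0, 0, 0, 0), (2, 0, 0, 0, 0), (57, 0, 0, 0, 0), (57, 0, 0, 0, 0), (19, 0, 0, 0, 0), (19, 0, 0, 0, 0), (6, 0, 0, 0, 0), (6, 0, 0, 0, 0), (57, 0, 0, 0, 0), (57, 0, 0, 0, 0), (27, 0, 0, 0, 0), (27, 0, 0, 0, 0), (53, 0, 0, 0, 0), (53, 0, 0, 0, 0), (19, 0, 0, 0, 0), (27, 0, 0, 0, 0), (3, 0, 0, 0, 0), (7, 0, 0, 0, 0), (45,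 0, 0, 0, 0), (45, 0, 0, 0, 0), (3, 0, 0, 0, 0), (3, 0, 0, 0, 0), (59, 0, 0, 0, 0), (59, 0, 0, 0, 0), (15, 0, 0, 0, 0), (15, 0, 0, 0, 0), (7, 0, 0, 0, 0), (7, 0, 0, 0, 0), (59, 0, 0, 0, 0), (59, 0, 0, 0, 0), (23, 0, 0, 0, 0), (23, 0, 0, 0, 0), (45, 0, 0, 0, 0), (45, 0, 0, 0, 0), (15, 0, 0, 0, 0), (23, 0, 0, 0, 0), (56, 0, 0, 0, 0), (56, 0, 0, 0, 0), (60, 0, 0, 0, 0), (60, 0, 0, 0, 0), (64, 0, 0, 0, 0), (64, 0, 0, 0, 0), (56, 0, 0, 0, 0), (56, 0, 0, 0, 0), (70, 0, 0, 0, 0), (70, 0, 0, 0, 0), (74, 0, 0, 0, 0), (74, 0, 0, 0, 0), (60, 0, 0, 0, 0), (60, 0, 0, 0, 0), (70, 0, 0, 0, 0), (70, 0, 0, 0, 0), (80, 0, 0, 0, 0), (80, 0, 0, 0, 0), (64, 0, 0, 0, 0), (64, 0, 0, 0, 0), (74, 0, 0, 0, 0), (74, 0, 0, 0, 0), (80, 0, 0, 0, 0), (80, 0, 0, 0, 0), (5, 0, 0, 0, 0),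 (5, 0, 0, 0, 0), (42, 0, 0, 0, 0), (42, 0, 0, 0, 0), (9, 0, 0, 0, 0), (9, 0, 0, 0, 0), (5, 0, 0, 0, 0), (5, 0, 0, 0, 0), (22, 0, 0, 0, 0), (22, 0, 0, 0, 0), (76, 0, 0, 0, 0), (76, 0, 0, 0, 0), (42, 0, 0, 0, 0), (42, 0, 0, 0, 0), (22, 0, 0, 0, 0), (22, 0, 0, 0, 0), (30, 0, 0, 0, 0), (30, 0, 0, 0, 0), (9, 0, 0, 0, 0), (9, 0, 0, 0, 0), (76, 0, 0, 0, 0), (76, 0, 0, 0, 0), (30, 0, 0, 0, 0), (30, 0, 0, 0, 0), (1, 0, 0, 0, 0), (1, 0, 0, 0, 0), (44, 0, 0, 0, 0), (44, 0, 0, 0, 0), (11, 0, 0, 0, 0), (11, 0, 0, 0, 0), (1, 0, 0, 0, 0), (1, 0, 0, 0, 0), (14, 0, 0, 0, 0), (14, 0, 0, 0, 0), (66, 0, 0, 0, 0), (66, 0, 0, 0, 0), (44, 0, 0, 0, 0), (44, 0, 0, 0, 0), (14, 0, 0, 0, 0), (14, 0, 0, 0, 0), (31, 0, 0, 0, 0), (31, 0, 0, 0, 0), (11, 0, 0, 0, 0), (11, 0, 0, 0, 0), (66,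 0, 0, 0, 0), (66, 0, 0, 0, 0), (31, 0, 0, 0, 0), (31, 0, 0, 0, 0), (37, 0, 0, 0, 0), (37, 0, 0, 0, 0), (39, 0, 0, 0, 0), (39, 0, 0, 0, 0), (47, 0, 0, 0, 0), (47, 0, 0, 0, 0), (37, 0, 0, 0, 0), (37, 0, 0, 0, 0), (58, 0, 0, 0, 0), (58, 0, 0, 0, 0), (67, 0, 0, 0, 0), (67, 0, 0, 0, 0), (39, 0, 0, 0, 0), (39, 0, 0, 0, 0), (58, 0, 0, 0, 0), (58, 0, 0, 0, 0), (77, 0, 0, 0, 0), (77, 0, 0, 0, 0), (47, 0, 0, 0, 0), (47, 0, 0, 0, 0), (67, 0, 0, 0, 0), (67, 0, 0, 0, 0), (77, 0, 0, 0, 0), (77, 0, 0, 0, 0), (3, 0, 0, 0, 0), (3, 0, 0, 0, 0), (7, 0, 0, 0, 0), (7, 0, 0, 0, 0), (45, 0, 0, 0, 0), (45, 0, 0, 0, 0), (3, 0, 0, 0, 0), (3, 0, 0, 0, 0), (59, 0, 0, 0, 0), (59, 0, 0, 0, 0), (15, 0, 0, 0, 0), (15, 0, 0, 0, 0), (7, 0, 0, 0, 0), (7, 0, 0, 0, 0), (59, 0, 0, 0, 0), (59,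 0, 0, 0, 0), (23, 0, 0, 0, 0), (23, 0, 0, 0, 0), (45, 0, 0, 0, 0), (45, 0, 0, 0, 0), (15, 0, 0, 0, 0), (15, 0, 0, 0, 0), (23, 0, 0, 0, 0), (23, 0, 0, 0, 0)]]

theorem tr58 : trK keys lk58 kl58 = true := by
  decide +kernel

theorem x58_0 : expB 2 6 dg2 dg11 m58_0 (l58_0 ++ z58_0) w58_0 = true := by
  decide +kernel

theorem t58_0_0 : chkS lk58 2 6 [(1, m58_0)] l58_0
  [(0, 16, 16, 5517840, 5517840), (1, 16, 16, 4534800, 4534800), (1, 16, 16, 5514000, 5514000), (2, 16, 16, 5517840, 5517840), (4, 16, 16, 5513985, 5513985), (7, 16, 16, 3490320, 4411920), (8, 1, 1, 5374275, 5309475), (6, 16, 16, 5517600, 5517600), (8, 16, 16, 5387280, 5387280), (6, 16, 16, 3298320, 3298320), (1, 1, 1, 5509170, 5509170), (11, 16, 16, 4346625, 3482625), (4, 16, 16, 5517840, 5517840),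 (7, 16, 16, 5448705, 5391105), (8, 1, 1, 2428980, 4199730), (6, 16, 16, 5509890, 5513265), (8, 16, 16, 2441985, 4400385), (6, 16, 16, 2315265, 3294465), (1, 1, 1, 4526115, 4522290), (11, 16, 16, 2372880, 2372880), (3, 16, 16, 5517840, 5517840), (10, 1, 1, 5443650, 5324850), (10, 1, 1, 3477540, 4215090), (9, 1, 1, 3280980, 1070130), (10, 16, 16, 3490320, 4411920), (5, 16, 16, 4534800, 4534800), (7, 1, 1, 3473700, 4215075), (6, 1, 1, 3277140, 1070115), (10, 16, 16, 5448720, 5391120), (7, 1, 1, 5443650, 5324850), (5, 16, 16, 5513985, 5513985), (6, 1, 1, 2297940, 1066290), (9, 16, 16, 3298320, 3298320), (6, 1, 1, 5513265, 5509890), (6, 1, 1, 5505555, 5505555), (2, 1, 1, 5509170, 5509170)]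
  [(0, 360), (1, -360), (2, -360), (3, 360), (4, -720), (5, -360), (6, 1440), (7, 360), (8, 360), (9, -360), (10, -360), (11, -360)] = true := by
  decide +kernel

section

variable {κ ι : Type*} [Fintype κ] [Fintype ι] [Inhabited κ] [Inhabited ι]

noncomputable def F58_0 (E : Env κ ι) : (Fin 2 → κ) → (Fin 6 → ι) → ℝ := op2 (P2 κ) (P11 ι) (fB E 2 6 m58_0)

def r58_0_0 : List (ℕ × ℤ) := [(0, 360), (1, -360), (2, -360), (3, 360), (4, -720), (5, -360), (6, 1440), (7, 360), (8, 360), (9, -360), (10, -360), (11, -360)]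

theorem h58_0_0 (E : Env κ ι) : ip (F58_0 E) (F58_0 E) = dotS (ek E lk58) r58_0_0 :=
  op_entryZ E lk58 2 6 _ _ _ _ (pg2 κ) (pg11 ι) m58_0 m58_0 l58_0 z58_0 w58_0 x58_0 (by decide) _ (chkS_sound E lk58 2 6 _ _ _ _ t58_0_0)

theorem row58_0 (E : Env κ ι) : RowG (ek E lk58) (F58_0 E) [F58_0 E] [r58_0_0] :=
  rowG_cons _ _ _ _ _ _ (h58_0_0 E) (rowG_nil _ _)

def tab58 : List (List (List (ℕ × ℤ))) := [[r58_0_0]]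

theorem tri58 (E : Env κ ι) : TriG (ek E lk58) [F58_0 E] tab58 := by
  refine triG_cons _ _ _ _ _ (row58_0 E) ?_
  exact triG_nil _

end

def lk59 : List Key := [
  (2, 6, [(0, [0], [0, 1]), (0, [0], [0, 1]), (0, [1], [2, 3]), (0, [1], [2, 3]), (1, [], [4, 5]), (1, [], [4, 5])]),
  (2, 6, [(0, [0], [0, 1]), (0, [0], [0, 1]), (0, [1], [2, 3]), (0, [1], [2, 4]), (1, [], [4, 5]), (1, [], [3, 5])]),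
  (2, 6, [(0, [0], [0, 1]), (0, [0], [0, 1]), (0, [1], [2, 3]), (0, [1], [4, 5]), (1, [], [4, 5]), (1, [], [2, 3])]),
  (2, 6, [(0, [0], [0, 1]), (0, [1], [2, 3]), (0, [0], [2, 3]), (0, [1], [0, 1]), (1, [], [4, 5]), (1, [], [4, 5])]),
  (2, 6, [(0, [0], [0, 1]), (0, [1], [2, 3]), (0, [1], [0, 2]), (0, [0], [1, 3]), (1, [], [4, 5]), (1, [], [4, 5])]),
  (2, 6, [(0, [0], [0, 1]), (0, [1], [2, 3]), (0, [0], [2, 4]), (0, [1], [0, 5]), (1, [], [4, 5]), (1, [], [1, 3])]),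
  (2, 6, [(0, [0], [0, 1]), (0, [0], [2, 0]), (0, [1], [3, 1]), (0, [1], [4, 5]), (1, [], [4, 5]), (1, [], [2, 3])]),
  (2, 6, [(0, [0], [0, 1]), (0, [0], [2, 0]), (0, [1], [3, 1]), (0, [1], [2, 4]), (1, [], [4, 5]), (1, [], [3, 5])]),
  (2, 6, [(0, [0], [0, 1]), (0, [0], [2, 0]), (0, [1], [3, 1]), (0, [1], [3, 4]), (1, [], [4, 5]), (1, [], [2, 5])]),
  (2, 6, [(0, [0], [0, 1]), (0, [0], [2, 3]), (0, [1], [0, 1]), (0, [1], [4, 5]), (1, [], [4, 5]), (1, [], [2, 3])]),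
  (2, 6, [(0, [0], [0, 1]), (0, [0], [2, 3]), (0, [1], [0, 1]), (0, [1], [2, 4]), (1, [], [4, 5]), (1, [], [3, 5])]),
  (2, 6, [(0, [0], [0, 1]), (0, [0], [2, 1]), (0, [1], [3, 4]), (0, [1], [3, 5]), (1, [], [0, 5]), (1, [], [2, 4])])]

def kl59 : List ℕ := [9, 10, 14, 16, 19, 21, 40, 42, 43, 46, 48, 62]

def m59_0 : Base := (0, 0, [(0, [0], [0, 1]), (0, [1], [2, 3]), (1, [], [4, 5])])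

def l59_0 : Cov := [(1080, 0, 0, [(0, [0], [0, 1]), (0, [1], [2, 3]), (1, [], [4, 5])]),
  (-1080, 0, 0, [(0, [0], [0, 1]), (0, [1], [2, 5]), (1, [], [3, 4])]),
  (1080, 0, 0, [(0, [0], [0, 2]), (0, [1], [1, 3]), (1, [], [4, 5])]),
  (-1080, 0, 0, [(0, [0], [0, 2]), (0, [1], [1, 5]), (1, [], [3, 4])]),
  (-1080, 0, 0, [(0, [0], [0, 2]), (0, [1], [3, 4]), (1, [], [1, 5])]),
  (1080, 0, 0, [(0, [0], [0, 2]), (0, [1], [4, 5]), (1, [], [1, 3])]),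
  (-1080, 0, 0, [(0, [0], [0, 4]), (0, [1], [2, 3]), (1, [], [1, 5])]),
  (1080, 0, 0, [(0, [0], [0, 4]), (0, [1], [2, 5]), (1, [], [1, 3])]),
  (-1080, 0, 0, [(0, [0], [1, 3]), (0, [1], [0, 2]), (1, [], [4, 5])]),
  (1080, 0, 0, [(0, [0], [1, 3]), (0, [1], [2, 5]), (1, [], [0, 4])]),
  (1080, 0, 0, [(0, [0], [1, 5]), (0, [1], [0, 2]), (1, [], [4, 3])]),
  (-1080, 0, 0, [(0, [0], [1, 5]), (0, [1], [2, 3]), (1, [], [0, 4])]),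
  (-1080, 0, 0, [(0, [0], [2, 3]), (0, [1], [0, 1]), (1, [], [4, 5])]),
  (1080, 0, 0, [(0, [0], [2, 3]), (0, [1], [0, 4]), (1, [], [1, 5])]),
  (1080, 0, 0, [(0, [0], [2, 3]), (0, [1], [1, 5]), (1, [], [0, 4])]),
  (-1080, 0, 0, [(0, [0], [2, 3]), (0, [1], [4, 5]), (1, [], [0, 1])]),
  (1080, 0, 0, [(0, [0], [2, 5]), (0, [1], [0, 1]), (1, [], [4, 3])]),
  (-1080, 0, 0, [(0, [0], [2, 5]), (0, [1], [0, 4]), (1, [], [1, 3])]),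
  (-1080, 0, 0, [(0, [0], [2, 5]), (0, [1], [1, 3]), (1, [], [0, 4])]),
  (1080, 0, 0, [(0, [0], [2, 5]), (0, [1], [3, 4]), (1, [], [1, 0])]),
  (1080, 0, 0, [(0, [0], [3, 4]), (0, [1], [0, 2]), (1, [], [1, 5])]),
  (-1080, 0, 0, [(0, [0], [3, 4]), (0, [1], [2, 5]), (1, [], [0, 1])]),
  (-1080, 0, 0, [(0, [0], [4, 5]), (0, [1], [0, 2]), (1, [], [1, 3])]),
  (1080, 0, 0, [(0, [0], [4, 5]), (0, [1], [2, 3]), (1, [], [0, 1])])]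

def z59_0 : Cov := [(0, 0, 0, [(0, [0], [0, 1]), (0, [1], [2, 4]), (1, [], [3, 5])]),
  (0, 0, 0, [(0, [0], [0, 1]), (0, [1], [3, 4]), (1, [], [2, 5])]),
  (0, 0, 0, [(0, [0], [0, 1]), (0, [1], [3, 5]), (1, [], [2, 4])]),
  (0, 0, 0, [(0, [0], [0, 1]), (0, [1], [4, 5]), (1, [], [2, 3])]),
  (0, 0, 0, [(0, [0], [0, 2]), (0, [1], [1, 4]), (1, [], [3, 5])]),
  (0, 0, 0, [(0, [0], [0, 2]), (0, [1], [3, 5]), (1, [], [1, 4])]),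
  (0, 0, 0, [(0, [0], [0, 3]), (0, [1], [1, 2]), (1, [], [4, 5])]),
  (0, 0, 0, [(0, [0], [0, 3]), (0, [1], [1, 4]), (1, [], [2, 5])]),
  (0, 0, 0, [(0, [0], [0, 3]), (0, [1], [1, 5]), (1, [], [2, 4])]),
  (0, 0, 0, [(0, [0], [0, 3]), (0, [1], [2, 4]), (1, [], [1, 5])]),
  (0, 0, 0, [(0, [0], [0, 3]), (0, [1], [2, 5]), (1, [], [1, 4])]),
  (0, 0, 0, [(0, [0], [0, 3]), (0, [1], [4, 5]), (1, [], [1, 2])]),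
  (0, 0, 0, [(0, [0], [0, 4]), (0, [1], [1, 2]), (1, [], [3, 5])]),
  (0, 0, 0, [(0, [0], [0, 4]), (0, [1], [1, 3]), (1, [], [2, 5])]),
  (0, 0, 0, [(0, [0], [0, 4]), (0, [1], [1, 5]), (1, [], [2, 3])]),
  (0, 0, 0, [(0, [0], [0, 4]), (0, [1], [3, 5]), (1, [], [1, 2])]),
  (0, 0, 0, [(0, [0], [0, 5]), (0, [1], [1, 2]), (1, [], [3, 4])]),
  (0, 0, 0, [(0, [0], [0, 5]), (0, [1], [1, 3]), (1, [], [2, 4])]),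
  (0, 0, 0, [(0, [0], [0, 5]), (0, [1], [1, 4]), (1, [], [2, 3])]),
  (0, 0, 0, [(0, [0], [0, 5]), (0, [1], [2, 3]), (1, [], [1, 4])]),
  (0, 0, 0, [(0, [0], [0, 5]), (0, [1], [2, 4]), (1, [], [1, 3])]),
  (0, 0, 0, [(0, [0], [0, 5]), (0, [1], [3, 4]), (1, [], [1, 2])]),
  (0, 0, 0, [(0, [0], [1, 2]), (0, [1], [0, 3]), (1, [], [4, 5])]),
  (0, 0, 0, [(0, [0], [1, 2]), (0, [1], [0, 4]), (1, [], [3, 5])]),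
  (0, 0, 0, [(0, [0], [1, 2]), (0, [1], [0, 5]), (1, [], [3, 4])]),
  (0, 0, 0, [(0, [0], [1, 2]), (0, [1], [3, 4]), (1, [], [0, 5])]),
  (0, 0, 0, [(0, [0], [1, 2]), (0, [1], [3, 5]), (1, [], [0, 4])]),
  (0, 0, 0, [(0, [0], [1, 2]), (0, [1], [4, 5]), (1, [], [0, 3])]),
  (0, 0, 0, [(0, [0], [1, 3]), (0, [1], [0, 4]), (1, [], [2, 5])]),
  (0, 0, 0, [(0, [0], [1, 3]), (0, [1], [0, 5]), (1, [], [2, 4])]),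
  (0, 0, 0, [(0, [0], [1, 3]), (0, [1], [2, 4]), (1, [], [0, 5])]),
  (0, 0, 0, [(0, [0], [1, 3]), (0, [1], [4, 5]), (1, [], [0, 2])]),
  (0, 0, 0, [(0, [0], [1, 4]), (0, [1], [0, 2]), (1, [], [3, 5])]),
  (0, 0, 0, [(0, [0], [1, 4]), (0, [1], [0, 3]), (1, [], [2, 5])]),
  (0, 0, 0, [(0, [0], [1, 4]), (0, [1], [0, 5]), (1, [], [2, 3])]),
  (0, 0, 0, [(0, [0], [1, 4]), (0, [1], [2, 3]), (1, [], [0, 5])]),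
  (0, 0, 0, [(0, [0], [1, 4]), (0, [1], [2, 5]), (1, [], [0, 3])]),
  (0, 0, 0, [(0, [0], [1, 4]), (0, [1], [3, 5]), (1, [], [0, 2])]),
  (0, 0, 0, [(0, [0], [1, 5]), (0, [1], [0, 3]), (1, [], [2, 4])]),
  (0, 0, 0, [(0, [0], [1, 5]), (0, [1], [0, 4]), (1, [], [2, 3])]),
  (0, 0, 0, [(0, [0], [1, 5]), (0, [1], [2, 4]), (1, [], [0, 3])]),
  (0, 0, 0, [(0, [0], [1, 5]), (0, [1], [3, 4]), (1, [], [2, 0])]),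
  (0, 0, 0, [(0, [0], [2, 3]), (0, [1], [0, 5]), (1, [], [1, 4])]),
  (0, 0, 0, [(0, [0], [2, 3]), (0, [1], [1, 4]), (1, [], [0, 5])]),
  (0, 0, 0, [(0, [0], [2, 4]), (0, [1], [0, 1]), (1, [], [3, 5])]),
  (0, 0, 0, [(0, [0], [2, 4]), (0, [1], [0, 3]), (1, [], [1, 5])]),
  (0, 0, 0, [(0, [0], [2, 4]), (0, [1], [0, 5]), (1, [], [1, 3])]),
  (0, 0, 0, [(0, [0], [2, 4]), (0, [1], [1, 3]), (1, [], [0, 5])]),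
  (0, 0, 0, [(0, [0], [2, 4]), (0, [1], [1, 5]), (1, [], [0, 3])]),
  (0, 0, 0, [(0, [0], [2, 4]), (0, [1], [3, 5]), (1, [], [0, 1])]),
  (0, 0, 0, [(0, [0], [2, 5]), (0, [1], [0, 3]), (1, [], [1, 4])]),
  (0, 0, 0, [(0, [0], [2, 5]), (0, [1], [1, 4]), (1, [], [0, 3])]),
  (0, 0, 0, [(0, [0], [3, 4]), (0, [1], [0, 1]), (1, [], [2, 5])]),
  (0, 0, 0, [(0, [0], [3, 4]), (0, [1], [0, 5]), (1, [], [1, 2])]),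
  (0, 0, 0, [(0, [0], [3, 4]), (0, [1], [1, 2]), (1, [], [0, 5])]),
  (0, 0, 0, [(0, [0], [3, 4]), (0, [1], [1, 5]), (1, [], [0, 2])]),
  (0, 0, 0, [(0, [0], [3, 5]), (0, [1], [0, 1]), (1, [], [2, 4])]),
  (0, 0, 0, [(0, [0], [3, 5]), (0, [1], [0, 2]), (1, [], [1, 4])]),
  (0, 0, 0, [(0, [0], [3, 5]), (0, [1], [0, 4]), (1, [], [1, 2])]),
  (0, 0, 0, [(0, [0], [3, 5]), (0, [1], [1, 2]), (1, [], [0, 4])]),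
  (0, 0, 0, [(0, [0], [3, 5]), (0, [1], [1, 4]), (1, [], [0, 2])]),
  (0, 0, 0, [(0, [0], [3, 5]), (0, [1], [2, 4]), (1, [], [0, 1])]),
  (0, 0, 0, [(0, [0], [4, 5]), (0, [1], [0, 1]), (1, [], [2, 3])]),
  (0, 0, 0, [(0, [0], [4, 5]), (0, [1], [0, 3]), (1, [], [1, 2])]),
  (0, 0, 0, [(0, [0], [4, 5]), (0, [1], [1, 2]), (1, [], [0, 3])]),
  (0, 0, 0, [(0, [0], [4, 5]), (0, [1], [1, 3]), (1, [], [0, 2])])]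

def w59_0 : List (List Wit) := [[(0, 0, 0, 0, 0), (0, 0, 0, 0, 0), (24, 0, 0, 0, 0), (24, 0, 0, 0, 0), (1, 0, 0, 0, 0), (1, 0, 0, 0, 0), (0, 0, 0, 0, 0), (0, 0, 0, 0, 0), (25, 0, 0, 0, 0), (25, 0, 0, 0, 0), (26, 0, 0, 0, 0), (26, 0, 0, 0, 0), (24, 0, 0, 0, 0), (24, 0, 0, 0, 0), (25, 0, 0, 0, 0), (25, 0, 0, 0, 0), (27, 0, 0, 0, 0), (27, 0, 0, 0, 0), (1, 0, 0, 0, 0), (1, 0, 0, 0, 0), (26, 0, 0, 0, 0), (26, 0, 0, 0, 0), (27, 0, 0, 0, 0), (27, 0, 0, 0, 0), (2, 0, 0, 0, 0), (2, 0, 0, 0, 0), (28, 0, 0, 0, 0), (28, 0, 0, 0, 0), (3, 0, 0, 0, 0), (3, 0, 0, 0, 0), (2, 0, 0, 0, 0), (2, 0, 0, 0, 0), (4, 0, 0, 0, 0), (4, 0, 0, 0, 0), (29, 0, 0, 0, 0), (29, 0, 0, 0, 0), (28, 0, 0, 0, 0), (28, 0, 0, 0, 0), (4, 0, 0, 0, 0), (4, 0, 0, 0, 0), (5, 0, 0, 0, 0), (5, 0, 0, 0,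 0), (3, 0, 0, 0, 0), (3, 0, 0, 0, 0), (29, 0, 0, 0, 0), (29, 0, 0, 0, 0), (5, 0, 0, 0, 0), (5, 0, 0, 0, 0), (30, 0, 0, 0, 0), (30, 0, 0, 0, 0), (31, 0, 0, 0, 0), (31, 0, 0, 0, 0), (32, 0, 0, 0, 0), (32, 0, 0, 0, 0), (30, 0, 0, 0, 0), (30, 0, 0, 0, 0), (33, 0, 0, 0, 0), (33, 0, 0, 0, 0), (34, 0, 0, 0, 0), (34, 0, 0, 0, 0), (31, 0, 0, 0, 0), (31, 0, 0, 0, 0), (33, 0, 0, 0, 0), (33, 0, 0, 0, 0), (35, 0, 0, 0, 0), (35, 0, 0, 0, 0), (32, 0, 0, 0, 0), (32, 0, 0, 0, 0), (34, 0, 0, 0, 0), (34, 0, 0, 0, 0), (35, 0, 0, 0, 0), (35, 0, 0, 0, 0), (36, 0, 0, 0, 0), (36, 0, 0, 0, 0), (37, 0, 0, 0, 0), (37, 0, 0, 0, 0), (38, 0, 0, 0, 0), (38, 0, 0, 0, 0), (36, 0, 0, 0, 0), (36, 0, 0, 0, 0), (6, 0, 0, 0, 0), (6, 0, 0, 0, 0), (7, 0, 0, 0, 0), (7, 0, 0, 0, 0), (37, 0, 0, 0,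 0), (37, 0, 0, 0, 0), (6, 0, 0, 0, 0), (6, 0, 0, 0, 0), (39, 0, 0, 0, 0), (39, 0, 0, 0, 0), (38, 0, 0, 0, 0), (38, 0, 0, 0, 0), (7, 0, 0, 0, 0), (7, 0, 0, 0, 0), (39, 0, 0, 0, 0), (39, 0, 0, 0, 0), (40, 0, 0, 0, 0), (40, 0, 0, 0, 0), (41, 0, 0, 0, 0), (41, 0, 0, 0, 0), (42, 0, 0, 0, 0), (42, 0, 0, 0, 0), (40, 0, 0, 0, 0), (40, 0, 0, 0, 0), (43, 0, 0, 0, 0), (43, 0, 0, 0, 0), (44, 0, 0, 0, 0), (44, 0, 0, 0, 0), (41, 0, 0, 0, 0), (41, 0, 0, 0, 0), (43, 0, 0, 0, 0), (43, 0, 0, 0, 0), (45, 0, 0, 0, 0), (45, 0, 0, 0, 0), (42, 0, 0, 0, 0), (42, 0, 0, 0, 0), (44, 0, 0, 0, 0), (44, 0, 0, 0, 0), (45, 0, 0, 0, 0), (45, 0, 0, 0, 0), (0, 0, 0, 0, 0), (0, 0, 0, 0, 0), (24, 0, 0, 0, 0), (24, 0, 0, 0, 0), (1, 0, 0, 0, 0), (1, 0, 0, 0, 0), (0, 0, 0, 0, 0), (25, 0, 0, 0,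 0), (26, 0, 0, 0, 0), (26, 0, 0, 0, 0), (24, 0, 0, 0, 0), (24, 0, 0, 0, 0), (25, 0, 0, 0, 0), (25, 0, 0, 0, 0), (27, 0, 0, 0, 0), (27, 0, 0, 0, 0), (1, 0, 0, 0, 0), (26, 0, 0, 0, 0), (26, 0, 0, 0, 0), (27, 0, 0, 0, 0), (46, 0, 0, 0, 0), (46, 0, 0, 0, 0), (47, 0, 0, 0, 0), (47, 0, 0, 0, 0), (48, 0, 0, 0, 0), (48, 0, 0, 0, 0), (46, 0, 0, 0, 0), (46, 0, 0, 0, 0), (49, 0, 0, 0, 0), (49, 0, 0, 0, 0), (50, 0, 0, 0, 0), (50, 0, 0, 0, 0), (47, 0, 0, 0, 0), (47, 0, 0, 0, 0), (49, 0, 0, 0, 0), (49, 0, 0, 0, 0), (51, 0, 0, 0, 0), (51, 0, 0, 0, 0), (48, 0, 0, 0, 0), (48, 0, 0, 0, 0), (50, 0, 0, 0, 0), (50, 0, 0, 0, 0), (51, 0, 0, 0, 0), (51, 0, 0, 0, 0), (8, 0, 0, 0, 0), (52, 0, 0, 0, 0), (53, 0, 0, 0, 0), (53, 0, 0, 0, 0), (8, 0, 0, 0, 0), (8, 0, 0, 0, 0), (54, 0,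 0, 0, 0), (54, 0, 0, 0, 0), (9, 0, 0, 0, 0), (9, 0, 0, 0, 0), (52, 0, 0, 0, 0), (52, 0, 0, 0, 0), (54, 0, 0, 0, 0), (54, 0, 0, 0, 0), (55, 0, 0, 0, 0), (55, 0, 0, 0, 0), (53, 0, 0, 0, 0), (53, 0, 0, 0, 0), (9, 0, 0, 0, 0), (55, 0, 0, 0, 0), (56, 0, 0, 0, 0), (56, 0, 0, 0, 0), (57, 0, 0, 0, 0), (57, 0, 0, 0, 0), (58, 0, 0, 0, 0), (58, 0, 0, 0, 0), (56, 0, 0, 0, 0), (56, 0, 0, 0, 0), (59, 0, 0, 0, 0), (59, 0, 0, 0, 0), (60, 0, 0, 0, 0), (60, 0, 0, 0, 0), (57, 0, 0, 0, 0), (57, 0, 0, 0, 0), (59, 0, 0, 0, 0), (59, 0, 0, 0, 0), (61, 0, 0, 0, 0), (61, 0, 0, 0, 0), (58, 0, 0, 0, 0), (58, 0, 0, 0, 0), (60, 0, 0, 0, 0), (60, 0, 0, 0, 0), (61, 0, 0, 0, 0), (61, 0, 0, 0, 0), (10, 0, 0, 0, 0), (62, 0, 0, 0, 0), (62, 0, 0, 0, 0), (63, 0, 0, 0, 0), (10, 0, 0, 0, 0), (10,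 0, 0, 0, 0), (11, 0, 0, 0, 0), (11, 0, 0, 0, 0), (64, 0, 0, 0, 0), (64, 0, 0, 0, 0), (62, 0, 0, 0, 0), (62, 0, 0, 0, 0), (11, 0, 0, 0, 0), (65, 0, 0, 0, 0), (63, 0, 0, 0, 0), (63, 0, 0, 0, 0), (64, 0, 0, 0, 0), (64, 0, 0, 0, 0), (65, 0, 0, 0, 0), (65, 0, 0, 0, 0), (2, 0, 0, 0, 0), (2, 0, 0, 0, 0), (28, 0, 0, 0, 0), (28, 0, 0, 0, 0), (3, 0, 0, 0, 0), (3, 0, 0, 0, 0), (2, 0, 0, 0, 0), (4, 0, 0, 0, 0), (29, 0, 0, 0, 0), (29, 0, 0, 0, 0), (28, 0, 0, 0, 0), (28, 0, 0, 0, 0), (4, 0, 0, 0, 0), (4, 0, 0, 0, 0), (5, 0, 0, 0, 0), (5, 0, 0, 0, 0), (3, 0, 0, 0, 0), (29, 0, 0, 0, 0), (29, 0, 0, 0, 0), (5, 0, 0, 0, 0), (46, 0, 0, 0, 0), (46, 0, 0, 0, 0), (47, 0, 0, 0, 0), (47, 0, 0, 0, 0), (48, 0, 0, 0, 0), (48, 0, 0, 0, 0), (46, 0, 0, 0, 0), (46, 0, 0, 0, 0), (49, 0,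 0, 0, 0), (49, 0, 0, 0, 0), (50, 0, 0, 0, 0), (50, 0, 0, 0, 0), (47, 0, 0, 0, 0), (47, 0, 0, 0, 0), (49, 0, 0, 0, 0), (49, 0, 0, 0, 0), (51, 0, 0, 0, 0), (51, 0, 0, 0, 0), (48, 0, 0, 0, 0), (48, 0, 0, 0, 0), (50, 0, 0, 0, 0), (50, 0, 0, 0, 0), (51, 0, 0, 0, 0), (51, 0, 0, 0, 0), (12, 0, 0, 0, 0), (13, 0, 0, 0, 0), (66, 0, 0, 0, 0), (66, 0, 0, 0, 0), (12, 0, 0, 0, 0), (12, 0, 0, 0, 0), (67, 0, 0, 0, 0), (67, 0, 0, 0, 0), (14, 0, 0, 0, 0), (14, 0, 0, 0, 0), (13, 0, 0, 0, 0), (13, 0, 0, 0, 0), (67, 0, 0, 0, 0), (67, 0, 0, 0, 0), (15, 0, 0, 0, 0), (15, 0, 0, 0, 0), (66, 0, 0, 0, 0), (66, 0, 0, 0, 0), (14, 0, 0, 0, 0), (15, 0, 0, 0, 0), (68, 0, 0, 0, 0), (68, 0, 0, 0, 0), (69, 0, 0, 0, 0), (69, 0, 0, 0, 0), (70, 0, 0, 0, 0), (70, 0, 0, 0, 0), (68, 0, 0, 0, 0),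 (68, 0, 0, 0, 0), (71, 0, 0, 0, 0), (71, 0, 0, 0, 0), (72, 0, 0, 0, 0), (72, 0, 0, 0, 0), (69, 0, 0, 0, 0), (69, 0, 0, 0, 0), (71, 0, 0, 0, 0), (71, 0, 0, 0, 0), (73, 0, 0, 0, 0), (73, 0, 0, 0, 0), (70, 0, 0, 0, 0), (70, 0, 0, 0, 0), (72, 0, 0, 0, 0), (72, 0, 0, 0, 0), (73, 0, 0, 0, 0), (73, 0, 0, 0, 0), (16, 0, 0, 0, 0), (74, 0, 0, 0, 0), (74, 0, 0, 0, 0), (17, 0, 0, 0, 0), (16, 0, 0, 0, 0), (16, 0, 0, 0, 0), (18, 0, 0, 0, 0), (18, 0, 0, 0, 0), (75, 0, 0, 0, 0), (75, 0, 0, 0, 0), (74, 0, 0, 0, 0), (74, 0, 0, 0, 0), (18, 0, 0, 0, 0), (19, 0, 0, 0, 0), (17, 0, 0, 0, 0), (17, 0, 0, 0, 0), (75, 0, 0, 0, 0), (75, 0, 0, 0, 0), (19, 0, 0, 0, 0), (19, 0, 0, 0, 0), (30, 0, 0, 0, 0), (30, 0, 0, 0, 0), (31, 0, 0, 0, 0), (31, 0, 0, 0, 0), (32, 0, 0, 0, 0), (32, 0,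 0, 0, 0), (30, 0, 0, 0, 0), (30, 0, 0, 0, 0), (33, 0, 0, 0, 0), (33, 0, 0, 0, 0), (34, 0, 0, 0, 0), (34, 0, 0, 0, 0), (31, 0, 0, 0, 0), (31, 0, 0, 0, 0), (33, 0, 0, 0, 0), (33, 0, 0, 0, 0), (35, 0, 0, 0, 0), (35, 0, 0, 0, 0), (32, 0, 0, 0, 0), (32, 0, 0, 0, 0), (34, 0, 0, 0, 0), (34, 0, 0, 0, 0), (35, 0, 0, 0, 0), (35, 0, 0, 0, 0), (8, 0, 0, 0, 0), (8, 0, 0, 0, 0), (52, 0, 0, 0, 0), (52, 0, 0, 0, 0), (53, 0, 0, 0, 0), (53, 0, 0, 0, 0), (8, 0, 0, 0, 0), (8, 0, 0, 0, 0), (54, 0, 0, 0, 0), (54, 0, 0, 0, 0), (9, 0, 0, 0, 0), (9, 0, 0, 0, 0), (52, 0, 0, 0, 0), (52, 0, 0, 0, 0), (54, 0, 0, 0, 0), (54, 0, 0, 0, 0), (55, 0, 0, 0, 0), (55, 0, 0, 0, 0), (53, 0, 0, 0, 0), (53, 0, 0, 0, 0), (9, 0, 0, 0, 0), (9, 0, 0, 0, 0), (55, 0, 0, 0, 0), (55, 0, 0, 0, 0), (12, 0,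 0, 0, 0), (12, 0, 0, 0, 0), (13, 0, 0, 0, 0), (13, 0, 0, 0, 0), (66, 0, 0, 0, 0), (66, 0, 0, 0, 0), (12, 0, 0, 0, 0), (12, 0, 0, 0, 0), (67, 0, 0, 0, 0), (67, 0, 0, 0, 0), (14, 0, 0, 0, 0), (14, 0, 0, 0, 0), (13, 0, 0, 0, 0), (13, 0, 0, 0, 0), (67, 0, 0, 0, 0), (67, 0, 0, 0, 0), (15, 0, 0, 0, 0), (15, 0, 0, 0, 0), (66, 0, 0, 0, 0), (66, 0, 0, 0, 0), (14, 0, 0, 0, 0), (14, 0, 0, 0, 0), (15, 0, 0, 0, 0), (15, 0, 0, 0, 0), (76, 0, 0, 0, 0), (76, 0, 0, 0, 0), (20, 0, 0, 0, 0), (20, 0, 0, 0, 0), (77, 0, 0, 0, 0), (77, 0, 0, 0, 0), (76, 0, 0, 0, 0), (76, 0, 0, 0, 0), (78, 0, 0, 0, 0), (78, 0, 0, 0, 0), (79, 0, 0, 0, 0), (79, 0, 0, 0, 0), (20, 0, 0, 0, 0), (20, 0, 0, 0, 0), (78, 0, 0, 0, 0), (78, 0, 0, 0, 0), (21, 0, 0, 0, 0), (21, 0, 0, 0, 0), (77, 0, 0, 0, 0),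 (77, 0, 0, 0, 0), (79, 0, 0, 0, 0), (79, 0, 0, 0, 0), (21, 0, 0, 0, 0), (21, 0, 0, 0, 0), (80, 0, 0, 0, 0), (80, 0, 0, 0, 0), (81, 0, 0, 0, 0), (81, 0, 0, 0, 0), (82, 0, 0, 0, 0), (82, 0, 0, 0, 0), (80, 0, 0, 0, 0), (80, 0, 0, 0, 0), (83, 0, 0, 0, 0), (83, 0, 0, 0, 0), (84, 0, 0, 0, 0), (84, 0, 0, 0, 0), (81, 0, 0, 0, 0), (81, 0, 0, 0, 0), (83, 0, 0, 0, 0), (83, 0, 0, 0, 0), (85, 0, 0, 0, 0), (85, 0, 0, 0, 0), (82, 0, 0, 0, 0), (82, 0, 0, 0, 0), (84, 0, 0, 0, 0), (84, 0, 0, 0, 0), (85, 0, 0, 0, 0), (85, 0, 0, 0, 0), (36, 0, 0, 0, 0), (36, 0, 0, 0, 0), (37, 0, 0, 0, 0), (37, 0, 0, 0, 0), (38, 0, 0, 0, 0), (38, 0, 0, 0, 0), (36, 0, 0, 0, 0), (36, 0, 0, 0, 0), (6, 0, 0, 0, 0), (6, 0, 0, 0, 0), (7, 0, 0, 0, 0), (7, 0, 0, 0, 0), (37, 0, 0, 0, 0), (6, 0, 0, 0,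 0), (39, 0, 0, 0, 0), (39, 0, 0, 0, 0), (38, 0, 0, 0, 0), (7, 0, 0, 0, 0), (39, 0, 0, 0, 0), (39, 0, 0, 0, 0), (56, 0, 0, 0, 0), (56, 0, 0, 0, 0), (57, 0, 0, 0, 0), (57, 0, 0, 0, 0), (58, 0, 0, 0, 0), (58, 0, 0, 0, 0), (56, 0, 0, 0, 0), (56, 0, 0, 0, 0), (59, 0, 0, 0, 0), (59, 0, 0, 0, 0), (60, 0, 0, 0, 0), (60, 0, 0, 0, 0), (57, 0, 0, 0, 0), (57, 0, 0, 0, 0), (59, 0, 0, 0, 0), (59, 0, 0, 0, 0), (61, 0, 0, 0, 0), (61, 0, 0, 0, 0), (58, 0, 0, 0, 0), (58, 0, 0, 0, 0), (60, 0, 0, 0, 0), (60, 0, 0, 0, 0), (61, 0, 0, 0, 0), (61, 0, 0, 0, 0), (68, 0, 0, 0, 0), (68, 0, 0, 0, 0), (69, 0, 0, 0, 0), (69, 0, 0, 0, 0), (70, 0, 0, 0, 0), (70, 0, 0, 0, 0), (68, 0, 0, 0, 0), (68, 0, 0, 0, 0), (71, 0, 0, 0, 0), (71, 0, 0, 0, 0), (72, 0, 0, 0, 0), (72, 0, 0, 0, 0), (69,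 0, 0, 0, 0), (69, 0, 0, 0, 0), (71, 0, 0, 0, 0), (71, 0, 0, 0, 0), (73, 0, 0, 0, 0), (73, 0, 0, 0, 0), (70, 0, 0, 0, 0), (70, 0, 0, 0, 0), (72, 0, 0, 0, 0), (72, 0, 0, 0, 0), (73, 0, 0, 0, 0), (73, 0, 0, 0, 0), (76, 0, 0, 0, 0), (20, 0, 0, 0, 0), (77, 0, 0, 0, 0), (77, 0, 0, 0, 0), (76, 0, 0, 0, 0), (76, 0, 0, 0, 0), (78, 0, 0, 0, 0), (78, 0, 0, 0, 0), (79, 0, 0, 0, 0), (79, 0, 0, 0, 0), (20, 0, 0, 0, 0), (20, 0, 0, 0, 0), (78, 0, 0, 0, 0), (78, 0, 0, 0, 0), (21, 0, 0, 0, 0), (21, 0, 0, 0, 0), (77, 0, 0, 0, 0), (77, 0, 0, 0, 0), (79, 0, 0, 0, 0), (21, 0, 0, 0, 0), (86, 0, 0, 0, 0), (22, 0, 0, 0, 0), (87, 0, 0, 0, 0), (87, 0, 0, 0, 0), (86, 0, 0, 0, 0), (86, 0, 0, 0, 0), (88, 0, 0, 0, 0), (88, 0, 0, 0, 0), (89, 0, 0, 0, 0), (89, 0, 0, 0, 0), (22, 0, 0, 0,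 0), (22, 0, 0, 0, 0), (88, 0, 0, 0, 0), (88, 0, 0, 0, 0), (23, 0, 0, 0, 0), (23, 0, 0, 0, 0), (87, 0, 0, 0, 0), (87, 0, 0, 0, 0), (89, 0, 0, 0, 0), (23, 0, 0, 0, 0), (40, 0, 0, 0, 0), (40, 0, 0, 0, 0), (41, 0, 0, 0, 0), (41, 0, 0, 0, 0), (42, 0, 0, 0, 0), (42, 0, 0, 0, 0), (40, 0, 0, 0, 0), (40, 0, 0, 0, 0), (43, 0, 0, 0, 0), (43, 0, 0, 0, 0), (44, 0, 0, 0, 0), (44, 0, 0, 0, 0), (41, 0, 0, 0, 0), (41, 0, 0, 0, 0), (43, 0, 0, 0, 0), (43, 0, 0, 0, 0), (45, 0, 0, 0, 0), (45, 0, 0, 0, 0), (42, 0, 0, 0, 0), (42, 0, 0, 0, 0), (44, 0, 0, 0, 0), (44, 0, 0, 0, 0), (45, 0, 0, 0, 0), (45, 0, 0, 0, 0), (10, 0, 0, 0, 0), (10, 0, 0, 0, 0), (62, 0, 0, 0, 0), (62, 0, 0, 0, 0), (63, 0, 0, 0, 0), (63, 0, 0, 0, 0), (10, 0, 0, 0, 0), (10, 0, 0, 0, 0), (11, 0, 0, 0, 0), (11,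 0, 0, 0, 0), (64, 0, 0, 0, 0), (64, 0, 0, 0, 0), (62, 0, 0, 0, 0), (62, 0, 0, 0, 0), (11, 0, 0, 0, 0), (11, 0, 0, 0, 0), (65, 0, 0, 0, 0), (65, 0, 0, 0, 0), (63, 0, 0, 0, 0), (63, 0, 0, 0, 0), (64, 0, 0, 0, 0), (64, 0, 0, 0, 0), (65, 0, 0, 0, 0), (65, 0, 0, 0, 0), (16, 0, 0, 0, 0), (16, 0, 0, 0, 0), (74, 0, 0, 0, 0), (74, 0, 0, 0, 0), (17, 0, 0, 0, 0), (17, 0, 0, 0, 0), (16, 0, 0, 0, 0), (16, 0, 0, 0, 0), (18, 0, 0, 0, 0), (18, 0, 0, 0, 0), (75, 0, 0, 0, 0), (75, 0, 0, 0, 0), (74, 0, 0, 0, 0), (74, 0, 0, 0, 0), (18, 0, 0, 0, 0), (18, 0, 0, 0, 0), (19, 0, 0, 0, 0), (19, 0, 0, 0, 0), (17, 0, 0, 0, 0), (17, 0, 0, 0, 0), (75, 0, 0, 0, 0), (75, 0, 0, 0, 0), (19, 0, 0, 0, 0), (19, 0, 0, 0, 0), (80, 0, 0, 0, 0), (80, 0, 0, 0, 0), (81, 0, 0, 0, 0), (81, 0, 0, 0,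 0), (82, 0, 0, 0, 0), (82, 0, 0, 0, 0), (80, 0, 0, 0, 0), (80, 0, 0, 0, 0), (83, 0, 0, 0, 0), (83, 0, 0, 0, 0), (84, 0, 0, 0, 0), (84, 0, 0, 0, 0), (81, 0, 0, 0, 0), (81, 0, 0, 0, 0), (83, 0, 0, 0, 0), (83, 0, 0, 0, 0), (85, 0, 0, 0, 0), (85, 0, 0, 0, 0), (82, 0, 0, 0, 0), (82, 0, 0, 0, 0), (84, 0, 0, 0, 0), (84, 0, 0, 0, 0), (85, 0, 0, 0, 0), (85, 0, 0, 0, 0), (86, 0, 0, 0, 0), (86, 0, 0, 0, 0), (22, 0, 0, 0, 0), (22, 0, 0, 0, 0), (87, 0, 0, 0, 0), (87, 0, 0, 0, 0), (86, 0, 0, 0, 0), (86, 0, 0, 0, 0), (88, 0, 0, 0, 0), (88, 0, 0, 0, 0), (89, 0, 0, 0, 0), (89, 0, 0, 0, 0), (22, 0, 0, 0, 0), (22, 0, 0, 0, 0), (88, 0, 0, 0, 0), (88, 0, 0, 0, 0), (23, 0, 0, 0, 0), (23, 0, 0, 0, 0), (87, 0, 0, 0, 0), (87, 0, 0, 0, 0), (89, 0, 0, 0, 0), (89, 0, 0, 0, 0), (23,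 0, 0, 0, 0), (23, 0, 0, 0, 0)],
  [(12, 0, 0, 0, 0), (12, 0, 0, 0, 0), (68, 0, 0, 0, 0), (68, 0, 0, 0, 0), (16, 0, 0, 0, 0), (16, 0, 0, 0, 0), (12, 0, 0, 0, 0), (12, 0, 0, 0, 0), (76, 0, 0, 0, 0), (76, 0, 0, 0, 0), (80, 0, 0, 0, 0), (80, 0, 0, 0, 0), (68, 0, 0, 0, 0), (68, 0, 0, 0, 0), (76, 0, 0, 0, 0), (76, 0, 0, 0, 0), (86, 0, 0, 0, 0), (86, 0, 0, 0, 0), (16, 0, 0, 0, 0), (16, 0, 0, 0, 0), (80, 0, 0, 0, 0), (80, 0, 0, 0, 0), (86, 0, 0, 0, 0), (86, 0, 0, 0, 0), (8, 0, 0, 0, 0), (8, 0, 0, 0, 0), (56, 0, 0, 0, 0), (56, 0, 0, 0, 0), (10, 0, 0, 0, 0), (10, 0, 0, 0, 0), (8, 0, 0, 0, 0), (8, 0, 0, 0, 0), (20, 0, 0, 0, 0), (20, 0, 0, 0, 0), (81, 0, 0, 0, 0), (81, 0, 0, 0, 0), (56, 0, 0, 0, 0), (56, 0, 0, 0, 0), (20, 0, 0, 0, 0), (20, 0, 0, 0, 0), (22, 0, 0, 0,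 0), (22, 0, 0, 0, 0), (10, 0, 0, 0, 0), (10, 0, 0, 0, 0), (81, 0, 0, 0, 0), (81, 0, 0, 0, 0), (22, 0, 0, 0, 0), (22, 0, 0, 0, 0), (46, 0, 0, 0, 0), (46, 0, 0, 0, 0), (57, 0, 0, 0, 0), (57, 0, 0, 0, 0), (62, 0, 0, 0, 0), (62, 0, 0, 0, 0), (46, 0, 0, 0, 0), (46, 0, 0, 0, 0), (69, 0, 0, 0, 0), (69, 0, 0, 0, 0), (74, 0, 0, 0, 0), (74, 0, 0, 0, 0), (57, 0, 0, 0, 0), (57, 0, 0, 0, 0), (69, 0, 0, 0, 0), (69, 0, 0, 0, 0), (87, 0, 0, 0, 0), (87, 0, 0, 0, 0), (62, 0, 0, 0, 0), (62, 0, 0, 0, 0), (74, 0, 0, 0, 0), (74, 0, 0, 0, 0), (87, 0, 0, 0, 0), (87, 0, 0, 0, 0), (47, 0, 0, 0, 0), (47, 0, 0, 0, 0), (52, 0, 0, 0, 0), (52, 0, 0, 0, 0), (63, 0, 0, 0, 0), (63, 0, 0, 0, 0), (47, 0, 0, 0, 0), (47, 0, 0, 0, 0), (13, 0, 0, 0, 0), (13, 0, 0, 0, 0), (17, 0, 0, 0, 0), (17,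 0, 0, 0, 0), (52, 0, 0, 0, 0), (52, 0, 0, 0, 0), (13, 0, 0, 0, 0), (13, 0, 0, 0, 0), (82, 0, 0, 0, 0), (82, 0, 0, 0, 0), (63, 0, 0, 0, 0), (63, 0, 0, 0, 0), (17, 0, 0, 0, 0), (17, 0, 0, 0, 0), (82, 0, 0, 0, 0), (82, 0, 0, 0, 0), (48, 0, 0, 0, 0), (48, 0, 0, 0, 0), (53, 0, 0, 0, 0), (53, 0, 0, 0, 0), (58, 0, 0, 0, 0), (58, 0, 0, 0, 0), (48, 0, 0, 0, 0), (48, 0, 0, 0, 0), (66, 0, 0, 0, 0), (66, 0, 0, 0, 0), (70, 0, 0, 0, 0), (70, 0, 0, 0, 0), (53, 0, 0, 0, 0), (53, 0, 0, 0, 0), (66, 0, 0, 0, 0), (66, 0, 0, 0, 0), (77, 0, 0, 0, 0), (77, 0, 0, 0, 0), (58, 0, 0, 0, 0), (58, 0, 0, 0, 0), (70, 0, 0, 0, 0), (70, 0, 0, 0, 0), (77, 0, 0, 0, 0), (77, 0, 0, 0, 0), (12, 0, 0, 0, 0), (12, 0, 0, 0, 0), (68, 0, 0, 0, 0), (68, 0, 0, 0, 0), (16, 0, 0, 0, 0), (16, 0, 0, 0,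 0), (12, 0, 0, 0, 0), (76, 0, 0, 0, 0), (80, 0, 0, 0, 0), (80, 0, 0, 0, 0), (68, 0, 0, 0, 0), (68, 0, 0, 0, 0), (76, 0, 0, 0, 0), (76, 0, 0, 0, 0), (86, 0, 0, 0, 0), (86, 0, 0, 0, 0), (16, 0, 0, 0, 0), (80, 0, 0, 0, 0), (80, 0, 0, 0, 0), (86, 0, 0, 0, 0), (30, 0, 0, 0, 0), (30, 0, 0, 0, 0), (36, 0, 0, 0, 0), (36, 0, 0, 0, 0), (40, 0, 0, 0, 0), (40, 0, 0, 0, 0), (30, 0, 0, 0, 0), (30, 0, 0, 0, 0), (78, 0, 0, 0, 0), (78, 0, 0, 0, 0), (83, 0, 0, 0, 0), (83, 0, 0, 0, 0), (36, 0, 0, 0, 0), (36, 0, 0, 0, 0), (78, 0, 0, 0, 0), (78, 0, 0, 0, 0), (88, 0, 0, 0, 0), (88, 0, 0, 0, 0), (40, 0, 0, 0, 0), (40, 0, 0, 0, 0), (83, 0, 0, 0, 0), (83, 0, 0, 0, 0), (88, 0, 0, 0, 0), (88, 0, 0, 0, 0), (2, 0, 0, 0, 0), (37, 0, 0, 0, 0), (41, 0, 0, 0, 0), (41, 0, 0, 0, 0), (2, 0,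 0, 0, 0), (2, 0, 0, 0, 0), (71, 0, 0, 0, 0), (71, 0, 0, 0, 0), (18, 0, 0, 0, 0), (18, 0, 0, 0, 0), (37, 0, 0, 0, 0), (37, 0, 0, 0, 0), (71, 0, 0, 0, 0), (71, 0, 0, 0, 0), (89, 0, 0, 0, 0), (89, 0, 0, 0, 0), (41, 0, 0, 0, 0), (41, 0, 0, 0, 0), (18, 0, 0, 0, 0), (89, 0, 0, 0, 0), (28, 0, 0, 0, 0), (28, 0, 0, 0, 0), (31, 0, 0, 0, 0), (31, 0, 0, 0, 0), (42, 0, 0, 0, 0), (42, 0, 0, 0, 0), (28, 0, 0, 0, 0), (28, 0, 0, 0, 0), (67, 0, 0, 0, 0), (67, 0, 0, 0, 0), (75, 0, 0, 0, 0), (75, 0, 0, 0, 0), (31, 0, 0, 0, 0), (31, 0, 0, 0, 0), (67, 0, 0, 0, 0), (67, 0, 0, 0, 0), (84, 0, 0, 0, 0), (84, 0, 0, 0, 0), (42, 0, 0, 0, 0), (42, 0, 0, 0, 0), (75, 0, 0, 0, 0), (75, 0, 0, 0, 0), (84, 0, 0, 0, 0), (84, 0, 0, 0, 0), (3, 0, 0, 0, 0), (32, 0, 0, 0, 0), (32, 0, 0, 0, 0),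 (38, 0, 0, 0, 0), (3, 0, 0, 0, 0), (3, 0, 0, 0, 0), (14, 0, 0, 0, 0), (14, 0, 0, 0, 0), (72, 0, 0, 0, 0), (72, 0, 0, 0, 0), (32, 0, 0, 0, 0), (32, 0, 0, 0, 0), (14, 0, 0, 0, 0), (79, 0, 0, 0, 0), (38, 0, 0, 0, 0), (38, 0, 0, 0, 0), (72, 0, 0, 0, 0), (72, 0, 0, 0, 0), (79, 0, 0, 0, 0), (79, 0, 0, 0, 0), (8, 0, 0, 0, 0), (8, 0, 0, 0, 0), (56, 0, 0, 0, 0), (56, 0, 0, 0, 0), (10, 0, 0, 0, 0), (10, 0, 0, 0, 0), (8, 0, 0, 0, 0), (20, 0, 0, 0, 0), (81, 0, 0, 0, 0), (81, 0, 0, 0, 0), (56, 0, 0, 0, 0), (56, 0, 0, 0, 0), (20, 0, 0, 0, 0), (20, 0, 0, 0, 0), (22, 0, 0, 0, 0), (22, 0, 0, 0, 0), (10, 0, 0, 0, 0), (81, 0, 0, 0, 0), (81, 0, 0, 0, 0), (22, 0, 0, 0, 0), (30, 0, 0, 0, 0), (30, 0, 0, 0, 0), (36, 0, 0, 0, 0), (36, 0, 0, 0, 0), (40, 0, 0, 0, 0), (40, 0, 0, 0,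 0), (30, 0, 0, 0, 0), (30, 0, 0, 0, 0), (78, 0, 0, 0, 0), (78, 0, 0, 0, 0), (83, 0, 0, 0, 0), (83, 0, 0, 0, 0), (36, 0, 0, 0, 0), (36, 0, 0, 0, 0), (78, 0, 0, 0, 0), (78, 0, 0, 0, 0), (88, 0, 0, 0, 0), (88, 0, 0, 0, 0), (40, 0, 0, 0, 0), (40, 0, 0, 0, 0), (83, 0, 0, 0, 0), (83, 0, 0, 0, 0), (88, 0, 0, 0, 0), (88, 0, 0, 0, 0), (0, 0, 0, 0, 0), (6, 0, 0, 0, 0), (43, 0, 0, 0, 0), (43, 0, 0, 0, 0), (0, 0, 0, 0, 0), (0, 0, 0, 0, 0), (59, 0, 0, 0, 0), (59, 0, 0, 0, 0), (11, 0, 0, 0, 0), (11, 0, 0, 0, 0), (6, 0, 0, 0, 0), (6, 0, 0, 0, 0), (59, 0, 0, 0, 0), (59, 0, 0, 0, 0), (23, 0, 0, 0, 0), (23, 0, 0, 0, 0), (43, 0, 0, 0, 0), (43, 0, 0, 0, 0), (11, 0, 0, 0, 0), (23, 0, 0, 0, 0), (24, 0, 0, 0, 0), (24, 0, 0, 0, 0), (33, 0, 0, 0, 0), (33, 0, 0, 0, 0), (44, 0, 0,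 0, 0), (44, 0, 0, 0, 0), (24, 0, 0, 0, 0), (24, 0, 0, 0, 0), (54, 0, 0, 0, 0), (54, 0, 0, 0, 0), (64, 0, 0, 0, 0), (64, 0, 0, 0, 0), (33, 0, 0, 0, 0), (33, 0, 0, 0, 0), (54, 0, 0, 0, 0), (54, 0, 0, 0, 0), (85, 0, 0, 0, 0), (85, 0, 0, 0, 0), (44, 0, 0, 0, 0), (44, 0, 0, 0, 0), (64, 0, 0, 0, 0), (64, 0, 0, 0, 0), (85, 0, 0, 0, 0), (85, 0, 0, 0, 0), (1, 0, 0, 0, 0), (34, 0, 0, 0, 0), (34, 0, 0, 0, 0), (7, 0, 0, 0, 0), (1, 0, 0, 0, 0), (1, 0, 0, 0, 0), (9, 0, 0, 0, 0), (9, 0, 0, 0, 0), (60, 0, 0, 0, 0), (60, 0, 0, 0, 0), (34, 0, 0, 0, 0), (34, 0, 0, 0, 0), (9, 0, 0, 0, 0), (21, 0, 0, 0, 0), (7, 0, 0, 0, 0), (7, 0, 0, 0, 0), (60, 0, 0, 0, 0), (60, 0, 0, 0, 0), (21, 0, 0, 0, 0), (21, 0, 0, 0, 0), (46, 0, 0, 0, 0), (46, 0, 0, 0, 0), (57, 0, 0, 0, 0), (57, 0, 0,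 0, 0), (62, 0, 0, 0, 0), (62, 0, 0, 0, 0), (46, 0, 0, 0, 0), (46, 0, 0, 0, 0), (69, 0, 0, 0, 0), (69, 0, 0, 0, 0), (74, 0, 0, 0, 0), (74, 0, 0, 0, 0), (57, 0, 0, 0, 0), (57, 0, 0, 0, 0), (69, 0, 0, 0, 0), (69, 0, 0, 0, 0), (87, 0, 0, 0, 0), (87, 0, 0, 0, 0), (62, 0, 0, 0, 0), (62, 0, 0, 0, 0), (74, 0, 0, 0, 0), (74, 0, 0, 0, 0), (87, 0, 0, 0, 0), (87, 0, 0, 0, 0), (2, 0, 0, 0, 0), (2, 0, 0, 0, 0), (37, 0, 0, 0, 0), (37, 0, 0, 0, 0), (41, 0, 0, 0, 0), (41, 0, 0, 0, 0), (2, 0, 0, 0, 0), (2, 0, 0, 0, 0), (71, 0, 0, 0, 0), (71, 0, 0, 0, 0), (18, 0, 0, 0, 0), (18, 0, 0, 0, 0), (37, 0, 0, 0, 0), (37, 0, 0, 0, 0), (71, 0, 0, 0, 0), (71, 0, 0, 0, 0), (89, 0, 0, 0, 0), (89, 0, 0, 0, 0), (41, 0, 0, 0, 0), (41, 0, 0, 0, 0), (18, 0, 0, 0, 0), (18, 0, 0, 0, 0), (89,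 0, 0, 0, 0), (89, 0, 0, 0, 0), (0, 0, 0, 0, 0), (0, 0, 0, 0, 0), (6, 0, 0, 0, 0), (6, 0, 0, 0, 0), (43, 0, 0, 0, 0), (43, 0, 0, 0, 0), (0, 0, 0, 0, 0), (0, 0, 0, 0, 0), (59, 0, 0, 0, 0), (59, 0, 0, 0, 0), (11, 0, 0, 0, 0), (11, 0, 0, 0, 0), (6, 0, 0, 0, 0), (6, 0, 0, 0, 0), (59, 0, 0, 0, 0), (59, 0, 0, 0, 0), (23, 0, 0, 0, 0), (23, 0, 0, 0, 0), (43, 0, 0, 0, 0), (43, 0, 0, 0, 0), (11, 0, 0, 0, 0), (11, 0, 0, 0, 0), (23, 0, 0, 0, 0), (23, 0, 0, 0, 0), (25, 0, 0, 0, 0), (25, 0, 0, 0, 0), (4, 0, 0, 0, 0), (4, 0, 0, 0, 0), (45, 0, 0, 0, 0), (45, 0, 0, 0, 0), (25, 0, 0, 0, 0), (25, 0, 0, 0, 0), (49, 0, 0, 0, 0), (49, 0, 0, 0, 0), (65, 0, 0, 0, 0), (65, 0, 0, 0, 0), (4, 0, 0, 0, 0), (4, 0, 0, 0, 0), (49, 0, 0, 0, 0), (49, 0, 0, 0, 0), (19, 0, 0, 0, 0), (19, 0,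 0, 0, 0), (45, 0, 0, 0, 0), (45, 0, 0, 0, 0), (65, 0, 0, 0, 0), (65, 0, 0, 0, 0), (19, 0, 0, 0, 0), (19, 0, 0, 0, 0), (26, 0, 0, 0, 0), (26, 0, 0, 0, 0), (29, 0, 0, 0, 0), (29, 0, 0, 0, 0), (39, 0, 0, 0, 0), (39, 0, 0, 0, 0), (26, 0, 0, 0, 0), (26, 0, 0, 0, 0), (50, 0, 0, 0, 0), (50, 0, 0, 0, 0), (61, 0, 0, 0, 0), (61, 0, 0, 0, 0), (29, 0, 0, 0, 0), (29, 0, 0, 0, 0), (50, 0, 0, 0, 0), (50, 0, 0, 0, 0), (73, 0, 0, 0, 0), (73, 0, 0, 0, 0), (39, 0, 0, 0, 0), (39, 0, 0, 0, 0), (61, 0, 0, 0, 0), (61, 0, 0, 0, 0), (73, 0, 0, 0, 0), (73, 0, 0, 0, 0), (47, 0, 0, 0, 0), (47, 0, 0, 0, 0), (52, 0, 0, 0, 0), (52, 0, 0, 0, 0), (63, 0, 0, 0, 0), (63, 0, 0, 0, 0), (47, 0, 0, 0, 0), (47, 0, 0, 0, 0), (13, 0, 0, 0, 0), (13, 0, 0, 0, 0), (17, 0, 0, 0, 0), (17, 0, 0, 0, 0),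 (52, 0, 0, 0, 0), (13, 0, 0, 0, 0), (82, 0, 0, 0, 0), (82, 0, 0, 0, 0), (63, 0, 0, 0, 0), (17, 0, 0, 0, 0), (82, 0, 0, 0, 0), (82, 0, 0, 0, 0), (28, 0, 0, 0, 0), (28, 0, 0, 0, 0), (31, 0, 0, 0, 0), (31, 0, 0, 0, 0), (42, 0, 0, 0, 0), (42, 0, 0, 0, 0), (28, 0, 0, 0, 0), (28, 0, 0, 0, 0), (67, 0, 0, 0, 0), (67, 0, 0, 0, 0), (75, 0, 0, 0, 0), (75, 0, 0, 0, 0), (31, 0, 0, 0, 0), (31, 0, 0, 0, 0), (67, 0, 0, 0, 0), (67, 0, 0, 0, 0), (84, 0, 0, 0, 0), (84, 0, 0, 0, 0), (42, 0, 0, 0, 0), (42, 0, 0, 0, 0), (75, 0, 0, 0, 0), (75, 0, 0, 0, 0), (84, 0, 0, 0, 0), (84, 0, 0, 0, 0), (24, 0, 0, 0, 0), (24, 0, 0, 0, 0), (33, 0, 0, 0, 0), (33, 0, 0, 0, 0), (44, 0, 0, 0, 0), (44, 0, 0, 0, 0), (24, 0, 0, 0, 0), (24, 0, 0, 0, 0), (54, 0, 0, 0, 0), (54, 0, 0, 0, 0), (64, 0,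 0, 0, 0), (64, 0, 0, 0, 0), (33, 0, 0, 0, 0), (33, 0, 0, 0, 0), (54, 0, 0, 0, 0), (54, 0, 0, 0, 0), (85, 0, 0, 0, 0), (85, 0, 0, 0, 0), (44, 0, 0, 0, 0), (44, 0, 0, 0, 0), (64, 0, 0, 0, 0), (64, 0, 0, 0, 0), (85, 0, 0, 0, 0), (85, 0, 0, 0, 0), (25, 0, 0, 0, 0), (4, 0, 0, 0, 0), (45, 0, 0, 0, 0), (45, 0, 0, 0, 0), (25, 0, 0, 0, 0), (25, 0, 0, 0, 0), (49, 0, 0, 0, 0), (49, 0, 0, 0, 0), (65, 0, 0, 0, 0), (65, 0, 0, 0, 0), (4, 0, 0, 0, 0), (4, 0, 0, 0, 0), (49, 0, 0, 0, 0), (49, 0, 0, 0, 0), (19, 0, 0, 0, 0), (19, 0, 0, 0, 0), (45, 0, 0, 0, 0), (45, 0, 0, 0, 0), (65, 0, 0, 0, 0), (19, 0, 0, 0, 0), (27, 0, 0, 0, 0), (5, 0, 0, 0, 0), (35, 0, 0, 0, 0), (35, 0, 0, 0, 0), (27, 0, 0, 0, 0), (27, 0, 0, 0, 0), (51, 0, 0, 0, 0), (51, 0, 0, 0, 0), (55, 0, 0, 0, 0), (55,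 0, 0, 0, 0), (5, 0, 0, 0, 0), (5, 0, 0, 0, 0), (51, 0, 0, 0, 0), (51, 0, 0, 0, 0), (15, 0, 0, 0, 0), (15, 0, 0, 0, 0), (35, 0, 0, 0, 0), (35, 0, 0, 0, 0), (55, 0, 0, 0, 0), (15, 0, 0, 0, 0), (48, 0, 0, 0, 0), (48, 0, 0, 0, 0), (53, 0, 0, 0, 0), (53, 0, 0, 0, 0), (58, 0, 0, 0, 0), (58, 0, 0, 0, 0), (48, 0, 0, 0, 0), (48, 0, 0, 0, 0), (66, 0, 0, 0, 0), (66, 0, 0, 0, 0), (70, 0, 0, 0, 0), (70, 0, 0, 0, 0), (53, 0, 0, 0, 0), (53, 0, 0, 0, 0), (66, 0, 0, 0, 0), (66, 0, 0, 0, 0), (77, 0, 0, 0, 0), (77, 0, 0, 0, 0), (58, 0, 0, 0, 0), (58, 0, 0, 0, 0), (70, 0, 0, 0, 0), (70, 0, 0, 0, 0), (77, 0, 0, 0, 0), (77, 0, 0, 0, 0), (3, 0, 0, 0, 0), (3, 0, 0, 0, 0), (32, 0, 0, 0, 0), (32, 0, 0, 0, 0), (38, 0, 0, 0, 0), (38, 0, 0, 0, 0), (3, 0, 0, 0, 0), (3, 0, 0, 0, 0), (14,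 0, 0, 0, 0), (14, 0, 0, 0, 0), (72, 0, 0, 0, 0), (72, 0, 0, 0, 0), (32, 0, 0, 0, 0), (32, 0, 0, 0, 0), (14, 0, 0, 0, 0), (14, 0, 0, 0, 0), (79, 0, 0, 0, 0), (79, 0, 0, 0, 0), (38, 0, 0, 0, 0), (38, 0, 0, 0, 0), (72, 0, 0, 0, 0), (72, 0, 0, 0, 0), (79, 0, 0, 0, 0), (79, 0, 0, 0, 0), (1, 0, 0, 0, 0), (1, 0, 0, 0, 0), (34, 0, 0, 0, 0), (34, 0, 0, 0, 0), (7, 0, 0, 0, 0), (7, 0, 0, 0, 0), (1, 0, 0, 0, 0), (1, 0, 0, 0, 0), (9, 0, 0, 0, 0), (9, 0, 0, 0, 0), (60, 0, 0, 0, 0), (60, 0, 0, 0, 0), (34, 0, 0, 0, 0), (34, 0, 0, 0, 0), (9, 0, 0, 0, 0), (9, 0, 0, 0, 0), (21, 0, 0, 0, 0), (21, 0, 0, 0, 0), (7, 0, 0, 0, 0), (7, 0, 0, 0, 0), (60, 0, 0, 0, 0), (60, 0, 0, 0, 0), (21, 0, 0, 0, 0), (21, 0, 0, 0, 0), (26, 0, 0, 0, 0), (26, 0, 0, 0, 0), (29, 0, 0, 0, 0), (29, 0,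 0, 0, 0), (39, 0, 0, 0, 0), (39, 0, 0, 0, 0), (26, 0, 0, 0, 0), (26, 0, 0, 0, 0), (50, 0, 0, 0, 0), (50, 0, 0, 0, 0), (61, 0, 0, 0, 0), (61, 0, 0, 0, 0), (29, 0, 0, 0, 0), (29, 0, 0, 0, 0), (50, 0, 0, 0, 0), (50, 0, 0, 0, 0), (73, 0, 0, 0, 0), (73, 0, 0, 0, 0), (39, 0, 0, 0, 0), (39, 0, 0, 0, 0), (61, 0, 0, 0, 0), (61, 0, 0, 0, 0), (73, 0, 0, 0, 0), (73, 0, 0, 0, 0), (27, 0, 0, 0, 0), (27, 0, 0, 0, 0), (5, 0, 0, 0, 0), (5, 0, 0, 0, 0), (35, 0, 0, 0, 0), (35, 0, 0, 0, 0), (27, 0, 0, 0, 0), (27, 0, 0, 0, 0), (51, 0, 0, 0, 0), (51, 0, 0, 0, 0), (55, 0, 0, 0, 0), (55, 0, 0, 0, 0), (5, 0, 0, 0, 0), (5, 0, 0, 0, 0), (51, 0, 0, 0, 0), (51, 0, 0, 0, 0), (15, 0, 0, 0, 0), (15, 0, 0, 0, 0), (35, 0, 0, 0, 0), (35, 0, 0, 0, 0), (55, 0, 0, 0, 0), (55, 0, 0, 0, 0), (15,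 0, 0, 0, 0), (15, 0, 0, 0, 0)]]

theorem tr59 : trK keys lk59 kl59 = true := by
  decide +kernel

theorem x59_0 : expB 2 6 dg3 dg11 m59_0 (l59_0 ++ z59_0) w59_0 = true := by
  decide +kernel

theorem t59_0_0 : chkS lk59 2 6 [(1, m59_0)] l59_0
  [(0, 16, 16, 5517840, 5517840), (1, 16, 16, 4534800, 4534800), (4, 16, 16, 5513985, 5513985), (7, 16, 16, 3490320, 4411920), (8, 1, 1, 5374275, 5309475), (6, 16, 16, 5517600, 5517600), (1, 1, 1, 5509170, 5509170), (11, 16, 16, 4346625, 3482625), (4, 16, 16, 5517840, 5517840), (8, 1, 1, 2428980, 4199730), (8, 16, 16, 2441985, 4400385), (1, 1, 1, 4526115, 4522290), (3, 16, 16, 5517840, 5517840), (10, 1, 1, 5443650, 5324850), (10, 1, 1, 3477540, 4215090), (9, 1, 1, 3280980, 1070130), (10, 16, 16, 3490320, 4411920), (5,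 16, 16, 4534800, 4534800), (7, 1, 1, 3473700, 4215075), (6, 1, 1, 3277140, 1070115), (7, 1, 1, 5443650, 5324850), (6, 1, 1, 2297940, 1066290), (6, 1, 1, 5513265, 5509890), (2, 1, 1, 5509170, 5509170)]
  [(0, 1080), (1, -3240), (2, 1080), (3, -1080), (5, -1080), (7, -1080), (8, 1080), (9, -1080), (10, 3240), (11, 1080)] = true := by
  decide +kernel

section

variable {κ ι : Type*} [Fintype κ] [Fintype ι] [Inhabited κ] [Inhabited ι]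

noncomputable def F59_0 (E : Env κ ι) : (Fin 2 → κ) → (Fin 6 → ι) → ℝ := op2 (P3 κ) (P11 ι) (fB E 2 6 m59_0)

def r59_0_0 : List (ℕ × ℤ) := [(0, 1080), (1, -3240), (2, 1080), (3, -1080), (5, -1080), (7, -1080), (8, 1080), (9, -1080), (10, 3240), (11, 1080)]

theorem h59_0_0 (E : Env κ ι) : ip (F59_0 E) (F59_0 E) = dotS (ek E lk59) r59_0_0 :=
  op_entryZ E lk59 2 6 _ _ _ _ (pg3 κ) (pg11 ι) m59_0 m59_0 l59_0 z59_0 w59_0 x59_0 (by decide) _ (chkS_sound E lk59 2 6 _ _ _ _ t59_0_0)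

theorem row59_0 (E : Env κ ι) : RowG (ek E lk59) (F59_0 E) [F59_0 E] [r59_0_0] :=
  rowG_cons _ _ _ _ _ _ (h59_0_0 E) (rowG_nil _ _)

def tab59 : List (List (List (ℕ × ℤ))) := [[r59_0_0]]

theorem tri59 (E : Env κ ι) : TriG (ek E lk59) [F59_0 E] tab59 := by
  refine triG_cons _ _ _ _ _ (row59_0 E) ?_
  exact triG_nil _

end

def lk60 : List Key := [
  (2, 6, [(0, [0], [0, 1]), (0, [0], [0, 1]), (0, [1], [2, 3]), (0, [1], [2, 3]), (1, [], [4, 5]), (1, [], [4, 5])]),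
  (2, 6, [(0, [0], [0, 1]), (0, [0], [0, 1]), (0, [1], [2, 3]), (0, [1], [2, 4]), (1, [], [4, 5]), (1, [], [3, 5])]),
  (2, 6, [(0, [0], [0, 1]), (0, [0], [0, 1]), (0, [1], [2, 3]), (0, [1], [4, 5]), (1, [], [4, 5]), (1, [], [2, 3])]),
  (2, 6, [(0, [0], [0, 1]), (0, [1], [2, 3]), (0, [0], [2, 3]), (0, [1], [0, 1]), (1, [], [4, 5]), (1, [], [4, 5])]),
  (2, 6, [(0, [0], [0, 1]), (0, [1], [2, 3]), (0, [1], [0, 2]), (0, [0], [1, 3]), (1, [], [4, 5]), (1, [], [4, 5])]),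
  (2, 6, [(0, [0], [0, 1]), (0, [1], [2, 3]), (0, [0], [2, 4]), (0, [1], [0, 5]), (1, [], [4, 5]), (1, [], [1, 3])]),
  (2, 6, [(0, [0], [0, 1]), (0, [0], [2, 0]), (0, [1], [3, 1]), (0, [1], [4, 5]), (1, [], [4, 5]), (1, [], [2, 3])]),
  (2, 6, [(0, [0], [0, 1]), (0, [0], [2, 0]), (0, [1], [3, 1]), (0, [1], [2, 4]), (1, [], [4, 5]), (1, [], [3, 5])]),
  (2, 6, [(0, [0], [0, 1]), (0, [0], [2, 0]), (0, [1], [3, 1]), (0, [1], [3, 4]), (1, [], [4, 5]), (1, [], [2, 5])]),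
  (2, 6, [(0, [0], [0, 1]), (0, [0], [2, 3]), (0, [1], [0, 1]), (0, [1], [4, 5]), (1, [], [4, 5]), (1, [], [2, 3])]),
  (2, 6, [(0, [0], [0, 1]), (0, [0], [2, 3]), (0, [1], [0, 1]), (0, [1], [2, 4]), (1, [], [4, 5]), (1, [], [3, 5])]),
  (2, 6, [(0, [0], [0, 1]), (0, [0], [2, 1]), (0, [1], [3, 4]), (0, [1], [3, 5]), (1, [], [0, 5]), (1, [], [2, 4])])]

def kl60 : List ℕ := [9, 10, 14, 16, 19, 21, 40, 42, 43, 46, 48, 62]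

def m60_0 : Base := (0, 0, [(0, [0], [0, 1]), (0, [1], [2, 3]), (1, [], [4, 5])])

def l60_0 : Cov := [(4608, 0, 0, [(0, [0], [0, 1]), (0, [1], [2, 3]), (1, [], [4, 5])]),
  (-4608, 0, 0, [(0, [0], [0, 1]), (0, [1], [2, 5]), (1, [], [3, 4])]),
  (-4608, 0, 0, [(0, [0], [0, 1]), (0, [1], [3, 4]), (1, [], [2, 5])]),
  (4608, 0, 0, [(0, [0], [0, 1]), (0, [1], [4, 5]), (1, [], [2, 3])]),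
  (-4608, 0, 0, [(0, [0], [0, 3]), (0, [1], [1, 2]), (1, [], [4, 5])]),
  (4608, 0, 0, [(0, [0], [0, 3]), (0, [1], [1, 4]), (1, [], [2, 5])]),
  (4608, 0, 0, [(0, [0], [0, 3]), (0, [1], [2, 5]), (1, [], [1, 4])]),
  (-4608, 0, 0, [(0, [0], [0, 3]), (0, [1], [4, 5]), (1, [], [1, 2])]),
  (4608, 0, 0, [(0, [0], [0, 5]), (0, [1], [1, 2]), (1, [], [3, 4])]),
  (-4608, 0, 0, [(0, [0], [0, 5]), (0, [1], [1, 4]), (1, [], [2, 3])]),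
  (-4608, 0, 0, [(0, [0], [0, 5]), (0, [1], [2, 3]), (1, [], [1, 4])]),
  (4608, 0, 0, [(0, [0], [0, 5]), (0, [1], [3, 4]), (1, [], [1, 2])]),
  (-4608, 0, 0, [(0, [0], [1, 2]), (0, [1], [0, 3]), (1, [], [4, 5])]),
  (4608, 0, 0, [(0, [0], [1, 2]), (0, [1], [0, 5]), (1, [], [3, 4])]),
  (4608, 0, 0, [(0, [0], [1, 2]), (0, [1], [3, 4]), (1, [], [0, 5])]),
  (-4608, 0, 0, [(0, [0], [1, 2]), (0, [1], [4, 5]), (1, [], [0, 3])]),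
  (4608, 0, 0, [(0, [0], [1, 4]), (0, [1], [0, 3]), (1, [], [2, 5])]),
  (-4608, 0, 0, [(0, [0], [1, 4]), (0, [1], [0, 5]), (1, [], [2, 3])]),
  (-4608, 0, 0, [(0, [0], [1, 4]), (0, [1], [2, 3]), (1, [], [0, 5])]),
  (4608, 0, 0, [(0, [0], [1, 4]), (0, [1], [2, 5]), (1, [], [0, 3])]),
  (4608, 0, 0, [(0, [0], [2, 3]), (0, [1], [0, 1]), (1, [], [4, 5])]),
  (-4608, 0, 0, [(0, [0], [2, 3]), (0, [1], [0, 5]), (1, [], [1, 4])]),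
  (-4608, 0, 0, [(0, [0], [2, 3]), (0, [1], [1, 4]), (1, [], [0, 5])]),
  (4608, 0, 0, [(0, [0], [2, 3]), (0, [1], [4, 5]), (1, [], [0, 1])]),
  (-4608, 0, 0, [(0, [0], [2, 5]), (0, [1], [0, 1]), (1, [], [3, 4])]),
  (4608, 0, 0, [(0, [0], [2, 5]), (0, [1], [0, 3]), (1, [], [1, 4])]),
  (4608, 0, 0, [(0, [0], [2, 5]), (0, [1], [1, 4]), (1, [], [0, 3])]),
  (-4608, 0, 0, [(0, [0], [2, 5]), (0, [1], [3, 4]), (1, [], [0, 1])]),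
  (-4608, 0, 0, [(0, [0], [3, 4]), (0, [1], [0, 1]), (1, [], [2, 5])]),
  (4608, 0, 0, [(0, [0], [3, 4]), (0, [1], [0, 5]), (1, [], [1, 2])]),
  (4608, 0, 0, [(0, [0], [3, 4]), (0, [1], [1, 2]), (1, [], [0, 5])]),
  (-4608, 0, 0, [(0, [0], [3, 4]), (0, [1], [2, 5]), (1, [], [0, 1])]),
  (4608, 0, 0, [(0, [0], [4, 5]), (0, [1], [0, 1]), (1, [], [2, 3])]),
  (-4608, 0, 0, [(0, [0], [4, 5]), (0, [1], [0, 3]), (1, [], [1, 2])]),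
  (-4608, 0, 0, [(0, [0], [4, 5]), (0, [1], [1, 2]), (1, [], [0, 3])]),
  (4608, 0, 0, [(0, [0], [4, 5]), (0, [1], [2, 3]), (1, [], [0, 1])])]

def z60_0 : Cov := [(0, 0, 0, [(0, [0], [0, 1]), (0, [1], [2, 4]), (1, [], [3, 5])]),
  (0, 0, 0, [(0, [0], [0, 1]), (0, [1], [3, 5]), (1, [], [2, 4])]),
  (0, 0, 0, [(0, [0], [0, 2]), (0, [1], [1, 3]), (1, [], [4, 5])]),
  (0, 0, 0, [(0, [0], [0, 2]), (0, [1], [1, 4]), (1, [], [3, 5])]),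
  (0, 0, 0, [(0, [0], [0, 2]), (0, [1], [1, 5]), (1, [], [3, 4])]),
  (0, 0, 0, [(0, [0], [0, 2]), (0, [1], [3, 4]), (1, [], [1, 5])]),
  (0, 0, 0, [(0, [0], [0, 2]), (0, [1], [3, 5]), (1, [], [1, 4])]),
  (0, 0, 0, [(0, [0], [0, 2]), (0, [1], [4, 5]), (1, [], [1, 3])]),
  (0, 0, 0, [(0, [0], [0, 3]), (0, [1], [1, 5]), (1, [], [2, 4])]),
  (0, 0, 0, [(0, [0], [0, 3]), (0, [1], [2, 4]), (1, [], [1, 5])]),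
  (0, 0, 0, [(0, [0], [0, 4]), (0, [1], [1, 2]), (1, [], [3, 5])]),
  (0, 0, 0, [(0, [0], [0, 4]), (0, [1], [1, 3]), (1, [], [2, 5])]),
  (0, 0, 0, [(0, [0], [0, 4]), (0, [1], [1, 5]), (1, [], [2, 3])]),
  (0, 0, 0, [(0, [0], [0, 4]), (0, [1], [2, 3]), (1, [], [1, 5])]),
  (0, 0, 0, [(0, [0], [0, 4]), (0, [1], [2, 5]), (1, [], [1, 3])]),
  (0, 0, 0, [(0, [0], [0, 4]), (0, [1], [3, 5]), (1, [], [1, 2])]),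
  (0, 0, 0, [(0, [0], [0, 5]), (0, [1], [1, 3]), (1, [], [2, 4])]),
  (0, 0, 0, [(0, [0], [0, 5]), (0, [1], [2, 4]), (1, [], [1, 3])]),
  (0, 0, 0, [(0, [0], [1, 2]), (0, [1], [0, 4]), (1, [], [3, 5])]),
  (0, 0, 0, [(0, [0], [1, 2]), (0, [1], [3, 5]), (1, [], [0, 4])]),
  (0, 0, 0, [(0, [0], [1, 3]), (0, [1], [0, 2]), (1, [], [4, 5])]),
  (0, 0, 0, [(0, [0], [1, 3]), (0, [1], [0, 4]), (1, [], [2, 5])]),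
  (0, 0, 0, [(0, [0], [1, 3]), (0, [1], [0, 5]), (1, [], [2, 4])]),
  (0, 0, 0, [(0, [0], [1, 3]), (0, [1], [2, 4]), (1, [], [0, 5])]),
  (0, 0, 0, [(0, [0], [1, 3]), (0, [1], [2, 5]), (1, [], [0, 4])]),
  (0, 0, 0, [(0, [0], [1, 3]), (0, [1], [4, 5]), (1, [], [0, 2])]),
  (0, 0, 0, [(0, [0], [1, 4]), (0, [1], [0, 2]), (1, [], [3, 5])]),
  (0, 0, 0, [(0, [0], [1, 4]), (0, [1], [3, 5]), (1, [], [0, 2])]),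
  (0, 0, 0, [(0, [0], [1, 5]), (0, [1], [0, 2]), (1, [], [3, 4])]),
  (0, 0, 0, [(0, [0], [1, 5]), (0, [1], [0, 3]), (1, [], [2, 4])]),
  (0, 0, 0, [(0, [0], [1, 5]), (0, [1], [0, 4]), (1, [], [2, 3])]),
  (0, 0, 0, [(0, [0], [1, 5]), (0, [1], [2, 3]), (1, [], [0, 4])]),
  (0, 0, 0, [(0, [0], [1, 5]), (0, [1], [2, 4]), (1, [], [0, 3])]),
  (0, 0, 0, [(0, [0], [1, 5]), (0, [1], [3, 4]), (1, [], [0, 2])]),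
  (0, 0, 0, [(0, [0], [2, 3]), (0, [1], [0, 4]), (1, [], [1, 5])]),
  (0, 0, 0, [(0, [0], [2, 3]), (0, [1], [1, 5]), (1, [], [0, 4])]),
  (0, 0, 0, [(0, [0], [2, 4]), (0, [1], [0, 1]), (1, [], [3, 5])]),
  (0, 0, 0, [(0, [0], [2, 4]), (0, [1], [0, 3]), (1, [], [1, 5])]),
  (0, 0, 0, [(0, [0], [2, 4]), (0, [1], [0, 5]), (1, [], [1, 3])]),
  (0, 0, 0, [(0, [0], [2, 4]), (0, [1], [1, 3]), (1, [], [0, 5])]),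
  (0, 0, 0, [(0, [0], [2, 4]), (0, [1], [1, 5]), (1, [], [0, 3])]),
  (0, 0, 0, [(0, [0], [2, 4]), (0, [1], [3, 5]), (1, [], [0, 1])]),
  (0, 0, 0, [(0, [0], [2, 5]), (0, [1], [0, 4]), (1, [], [1, 3])]),
  (0, 0, 0, [(0, [0], [2, 5]), (0, [1], [1, 3]), (1, [], [0, 4])]),
  (0, 0, 0, [(0, [0], [3, 4]), (0, [1], [0, 2]), (1, [], [1, 5])]),
  (0, 0, 0, [(0, [0], [3, 4]), (0, [1], [1, 5]), (1, [], [0, 2])]),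
  (0, 0, 0, [(0, [0], [3, 5]), (0, [1], [0, 1]), (1, [], [2, 4])]),
  (0, 0, 0, [(0, [0], [3, 5]), (0, [1], [0, 2]), (1, [], [1, 4])]),
  (0, 0, 0, [(0, [0], [3, 5]), (0, [1], [0, 4]), (1, [], [1, 2])]),
  (0, 0, 0, [(0, [0], [3, 5]), (0, [1], [1, 2]), (1, [], [0, 4])]),
  (0, 0, 0, [(0, [0], [3, 5]), (0, [1], [1, 4]), (1, [], [0, 2])]),
  (0, 0, 0, [(0, [0], [3, 5]), (0, [1], [2, 4]), (1, [], [0, 1])]),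
  (0, 0, 0, [(0, [0], [4, 5]), (0, [1], [0, 2]), (1, [], [1, 3])]),
  (0, 0, 0, [(0, [0], [4, 5]), (0, [1], [1, 3]), (1, [], [0, 2])])]

def w60_0 : List (List Wit) := [[(0, 0, 0, 0, 0), (0, 0, 0, 0, 0), (36, 0, 0, 0, 0), (36, 0, 0, 0, 0), (1, 0, 0, 0, 0), (1, 0, 0, 0, 0), (0, 0, 0, 0, 0), (0, 0, 0, 0, 0), (2, 0, 0, 0, 0), (2, 0, 0, 0, 0), (37, 0, 0, 0, 0), (37, 0, 0, 0, 0), (36, 0, 0, 0, 0), (36, 0, 0, 0, 0), (2, 0, 0, 0, 0), (2, 0, 0, 0, 0), (3, 0, 0, 0, 0), (3, 0, 0, 0, 0), (1, 0, 0, 0, 0), (1, 0, 0, 0, 0), (37, 0, 0, 0, 0), (37, 0, 0, 0, 0), (3, 0, 0, 0, 0), (3, 0, 0, 0, 0), (38, 0, 0, 0, 0), (38, 0, 0, 0, 0), (39, 0, 0, 0, 0), (39, 0, 0, 0, 0), (40, 0, 0, 0, 0), (40, 0, 0, 0, 0), (38, 0, 0, 0, 0), (38, 0, 0, 0, 0), (41, 0, 0, 0, 0), (41, 0, 0, 0, 0),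 (42, 0, 0, 0, 0), (42, 0, 0, 0, 0), (39, 0, 0, 0, 0), (39, 0, 0, 0, 0), (41, 0, 0, 0, 0), (41, 0, 0, 0, 0), (43, 0, 0, 0, 0), (43, 0, 0, 0, 0), (40, 0, 0, 0, 0), (40, 0, 0, 0, 0), (42, 0, 0, 0, 0), (42, 0, 0, 0, 0), (43, 0, 0, 0, 0), (43, 0, 0, 0, 0), (4, 0, 0, 0, 0), (4, 0, 0, 0, 0), (5, 0, 0, 0, 0), (5, 0, 0, 0, 0), (44, 0, 0, 0, 0), (44, 0, 0, 0, 0), (4, 0, 0, 0, 0), (4, 0, 0, 0, 0), (45, 0, 0, 0, 0), (45, 0, 0, 0, 0), (6, 0, 0, 0, 0), (6, 0, 0, 0, 0), (5, 0, 0, 0, 0), (5, 0, 0, 0, 0), (45, 0, 0, 0, 0), (45, 0, 0, 0, 0), (7, 0, 0, 0, 0), (7, 0, 0, 0, 0), (44, 0, 0, 0, 0), (44, 0, 0, 0, 0), (6, 0, 0, 0, 0), (6, 0, 0, 0, 0), (7, 0, 0, 0, 0), (7, 0, 0, 0, 0), (46, 0, 0, 0, 0), (46, 0, 0, 0, 0), (47, 0, 0, 0, 0), (47, 0, 0, 0, 0), (48, 0, 0, 0, 0), (48, 0,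 0, 0, 0), (46, 0, 0, 0, 0), (46, 0, 0, 0, 0), (49, 0, 0, 0, 0), (49, 0, 0, 0, 0), (50, 0, 0, 0, 0), (50, 0, 0, 0, 0), (47, 0, 0, 0, 0), (47, 0, 0, 0, 0), (49, 0, 0, 0, 0), (49, 0, 0, 0, 0), (51, 0, 0, 0, 0), (51, 0, 0, 0, 0), (48, 0, 0, 0, 0), (48, 0, 0, 0, 0), (50, 0, 0, 0, 0), (50, 0, 0, 0, 0), (51, 0, 0, 0, 0), (51, 0, 0, 0, 0), (8, 0, 0, 0, 0), (8, 0, 0, 0, 0), (52, 0, 0, 0, 0), (52, 0, 0, 0, 0), (9, 0, 0, 0, 0), (9, 0, 0, 0, 0), (8, 0, 0, 0, 0), (8, 0, 0, 0, 0), (10, 0, 0, 0, 0), (10, 0, 0, 0, 0), (53, 0, 0, 0, 0), (53, 0, 0, 0, 0), (52, 0, 0, 0, 0), (52, 0, 0, 0, 0), (10, 0, 0, 0, 0), (10, 0, 0, 0, 0), (11, 0, 0, 0, 0), (11, 0, 0, 0, 0), (9, 0, 0, 0, 0), (9, 0, 0, 0, 0), (53, 0, 0, 0, 0), (53, 0, 0, 0, 0), (11, 0, 0, 0, 0), (11, 0, 0, 0, 0), (0, 0,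 0, 0, 0), (0, 0, 0, 0, 0), (36, 0, 0, 0, 0), (36, 0, 0, 0, 0), (1, 0, 0, 0, 0), (1, 0, 0, 0, 0), (0, 0, 0, 0, 0), (0, 0, 0, 0, 0), (2, 0, 0, 0, 0), (2, 0, 0, 0, 0), (37, 0, 0, 0, 0), (37, 0, 0, 0, 0), (36, 0, 0, 0, 0), (36, 0, 0, 0, 0), (2, 0, 0, 0, 0), (2, 0, 0, 0, 0), (3, 0, 0, 0, 0), (3, 0, 0, 0, 0), (1, 0, 0, 0, 0), (1, 0, 0, 0, 0), (37, 0, 0, 0, 0), (37, 0, 0, 0, 0), (3, 0, 0, 0, 0), (3, 0, 0, 0, 0), (12, 0, 0, 0, 0), (12, 0, 0, 0, 0), (54, 0, 0, 0, 0), (54, 0, 0, 0, 0), (13, 0, 0, 0, 0), (13, 0, 0, 0, 0), (12, 0, 0, 0, 0), (12, 0, 0, 0, 0), (14, 0, 0, 0, 0), (14, 0, 0, 0, 0), (55, 0, 0, 0, 0), (55, 0, 0, 0, 0), (54, 0, 0, 0, 0), (54, 0, 0, 0, 0), (14, 0, 0, 0, 0), (14, 0, 0, 0, 0), (15, 0, 0, 0, 0), (15, 0, 0, 0, 0), (13, 0, 0, 0, 0), (13, 0, 0, 0,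 0), (55, 0, 0, 0, 0), (55, 0, 0, 0, 0), (15, 0, 0, 0, 0), (15, 0, 0, 0, 0), (56, 0, 0, 0, 0), (56, 0, 0, 0, 0), (57, 0, 0, 0, 0), (57, 0, 0, 0, 0), (58, 0, 0, 0, 0), (58, 0, 0, 0, 0), (56, 0, 0, 0, 0), (56, 0, 0, 0, 0), (59, 0, 0, 0, 0), (59, 0, 0, 0, 0), (60, 0, 0, 0, 0), (60, 0, 0, 0, 0), (57, 0, 0, 0, 0), (57, 0, 0, 0, 0), (59, 0, 0, 0, 0), (59, 0, 0, 0, 0), (61, 0, 0, 0, 0), (61, 0, 0, 0, 0), (58, 0, 0, 0, 0), (58, 0, 0, 0, 0), (60, 0, 0, 0, 0), (60, 0, 0, 0, 0), (61, 0, 0, 0, 0), (61, 0, 0, 0, 0), (62, 0, 0, 0, 0), (62, 0, 0, 0, 0), (16, 0, 0, 0, 0), (16, 0, 0, 0, 0), (17, 0, 0, 0, 0), (17, 0, 0, 0, 0), (62, 0, 0, 0, 0), (62, 0, 0, 0, 0), (18, 0, 0, 0, 0), (18, 0, 0, 0, 0), (19, 0, 0, 0, 0), (19, 0, 0, 0, 0), (16, 0, 0, 0, 0), (16, 0, 0, 0, 0), (18,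 0, 0, 0, 0), (18, 0, 0, 0, 0), (63, 0, 0, 0, 0), (63, 0, 0, 0, 0), (17, 0, 0, 0, 0), (17, 0, 0, 0, 0), (19, 0, 0, 0, 0), (19, 0, 0, 0, 0), (63, 0, 0, 0, 0), (63, 0, 0, 0, 0), (64, 0, 0, 0, 0), (64, 0, 0, 0, 0), (65, 0, 0, 0, 0), (65, 0, 0, 0, 0), (66, 0, 0, 0, 0), (66, 0, 0, 0, 0), (64, 0, 0, 0, 0), (64, 0, 0, 0, 0), (67, 0, 0, 0, 0), (67, 0, 0, 0, 0), (68, 0, 0, 0, 0), (68, 0, 0, 0, 0), (65, 0, 0, 0, 0), (65, 0, 0, 0, 0), (67, 0, 0, 0, 0), (67, 0, 0, 0, 0), (69, 0, 0, 0, 0), (69, 0, 0, 0, 0), (66, 0, 0, 0, 0), (66, 0, 0, 0, 0), (68, 0, 0, 0, 0), (68, 0, 0, 0, 0), (69, 0, 0, 0, 0), (69, 0, 0, 0, 0), (38, 0, 0, 0, 0), (38, 0, 0, 0, 0), (39, 0, 0, 0, 0), (39, 0, 0, 0, 0), (40, 0, 0, 0, 0), (40, 0, 0, 0, 0), (38, 0, 0, 0, 0), (38, 0, 0, 0, 0), (41, 0, 0, 0,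 0), (41, 0, 0, 0, 0), (42, 0, 0, 0, 0), (42, 0, 0, 0, 0), (39, 0, 0, 0, 0), (39, 0, 0, 0, 0), (41, 0, 0, 0, 0), (41, 0, 0, 0, 0), (43, 0, 0, 0, 0), (43, 0, 0, 0, 0), (40, 0, 0, 0, 0), (40, 0, 0, 0, 0), (42, 0, 0, 0, 0), (42, 0, 0, 0, 0), (43, 0, 0, 0, 0), (43, 0, 0, 0, 0), (12, 0, 0, 0, 0), (12, 0, 0, 0, 0), (54, 0, 0, 0, 0), (54, 0, 0, 0, 0), (13, 0, 0, 0, 0), (13, 0, 0, 0, 0), (12, 0, 0, 0, 0), (12, 0, 0, 0, 0), (14, 0, 0, 0, 0), (14, 0, 0, 0, 0), (55, 0, 0, 0, 0), (55, 0, 0, 0, 0), (54, 0, 0, 0, 0), (54, 0, 0, 0, 0), (14, 0, 0, 0, 0), (14, 0, 0, 0, 0), (15, 0, 0, 0, 0), (15, 0, 0, 0, 0), (13, 0, 0, 0, 0), (13, 0, 0, 0, 0), (55, 0, 0, 0, 0), (55, 0, 0, 0, 0), (15, 0, 0, 0, 0), (15, 0, 0, 0, 0), (20, 0, 0, 0, 0), (20, 0, 0, 0, 0), (70, 0, 0, 0, 0), (70,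 0, 0, 0, 0), (21, 0, 0, 0, 0), (21, 0, 0, 0, 0), (20, 0, 0, 0, 0), (20, 0, 0, 0, 0), (22, 0, 0, 0, 0), (22, 0, 0, 0, 0), (71, 0, 0, 0, 0), (71, 0, 0, 0, 0), (70, 0, 0, 0, 0), (70, 0, 0, 0, 0), (22, 0, 0, 0, 0), (22, 0, 0, 0, 0), (23, 0, 0, 0, 0), (23, 0, 0, 0, 0), (21, 0, 0, 0, 0), (21, 0, 0, 0, 0), (71, 0, 0, 0, 0), (71, 0, 0, 0, 0), (23, 0, 0, 0, 0), (23, 0, 0, 0, 0), (72, 0, 0, 0, 0), (72, 0, 0, 0, 0), (73, 0, 0, 0, 0), (73, 0, 0, 0, 0), (74, 0, 0, 0, 0), (74, 0, 0, 0, 0), (72, 0, 0, 0, 0), (72, 0, 0, 0, 0), (75, 0, 0, 0, 0), (75, 0, 0, 0, 0), (76, 0, 0, 0, 0), (76, 0, 0, 0, 0), (73, 0, 0, 0, 0), (73, 0, 0, 0, 0), (75, 0, 0, 0, 0), (75, 0, 0, 0, 0), (77, 0, 0, 0, 0), (77, 0, 0, 0, 0), (74, 0, 0, 0, 0), (74, 0, 0, 0, 0), (76, 0, 0, 0, 0), (76, 0, 0, 0,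 0), (77, 0, 0, 0, 0), (77, 0, 0, 0, 0), (24, 0, 0, 0, 0), (24, 0, 0, 0, 0), (25, 0, 0, 0, 0), (25, 0, 0, 0, 0), (78, 0, 0, 0, 0), (78, 0, 0, 0, 0), (24, 0, 0, 0, 0), (24, 0, 0, 0, 0), (79, 0, 0, 0, 0), (79, 0, 0, 0, 0), (26, 0, 0, 0, 0), (26, 0, 0, 0, 0), (25, 0, 0, 0, 0), (25, 0, 0, 0, 0), (79, 0, 0, 0, 0), (79, 0, 0, 0, 0), (27, 0, 0, 0, 0), (27, 0, 0, 0, 0), (78, 0, 0, 0, 0), (78, 0, 0, 0, 0), (26, 0, 0, 0, 0), (26, 0, 0, 0, 0), (27, 0, 0, 0, 0), (27, 0, 0, 0, 0), (4, 0, 0, 0, 0), (4, 0, 0, 0, 0), (5, 0, 0, 0, 0), (5, 0, 0, 0, 0), (44, 0, 0, 0, 0), (44, 0, 0, 0, 0), (4, 0, 0, 0, 0), (4, 0, 0, 0, 0), (45, 0, 0, 0, 0), (45, 0, 0, 0, 0), (6, 0, 0, 0, 0), (6, 0, 0, 0, 0), (5, 0, 0, 0, 0), (5, 0, 0, 0, 0), (45, 0, 0, 0, 0), (45, 0, 0, 0, 0), (7, 0, 0, 0, 0),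 (7, 0, 0, 0, 0), (44, 0, 0, 0, 0), (44, 0, 0, 0, 0), (6, 0, 0, 0, 0), (6, 0, 0, 0, 0), (7, 0, 0, 0, 0), (7, 0, 0, 0, 0), (56, 0, 0, 0, 0), (56, 0, 0, 0, 0), (57, 0, 0, 0, 0), (57, 0, 0, 0, 0), (58, 0, 0, 0, 0), (58, 0, 0, 0, 0), (56, 0, 0, 0, 0), (56, 0, 0, 0, 0), (59, 0, 0, 0, 0), (59, 0, 0, 0, 0), (60, 0, 0, 0, 0), (60, 0, 0, 0, 0), (57, 0, 0, 0, 0), (57, 0, 0, 0, 0), (59, 0, 0, 0, 0), (59, 0, 0, 0, 0), (61, 0, 0, 0, 0), (61, 0, 0, 0, 0), (58, 0, 0, 0, 0), (58, 0, 0, 0, 0), (60, 0, 0, 0, 0), (60, 0, 0, 0, 0), (61, 0, 0, 0, 0), (61, 0, 0, 0, 0), (20, 0, 0, 0, 0), (20, 0, 0, 0, 0), (70, 0, 0, 0, 0), (70, 0, 0, 0, 0), (21, 0, 0, 0, 0), (21, 0, 0, 0, 0), (20, 0, 0, 0, 0), (20, 0, 0, 0, 0), (22, 0, 0, 0, 0), (22, 0, 0, 0, 0), (71, 0, 0, 0, 0), (71, 0, 0, 0,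 0), (70, 0, 0, 0, 0), (70, 0, 0, 0, 0), (22, 0, 0, 0, 0), (22, 0, 0, 0, 0), (23, 0, 0, 0, 0), (23, 0, 0, 0, 0), (21, 0, 0, 0, 0), (21, 0, 0, 0, 0), (71, 0, 0, 0, 0), (71, 0, 0, 0, 0), (23, 0, 0, 0, 0), (23, 0, 0, 0, 0), (28, 0, 0, 0, 0), (28, 0, 0, 0, 0), (80, 0, 0, 0, 0), (80, 0, 0, 0, 0), (29, 0, 0, 0, 0), (29, 0, 0, 0, 0), (28, 0, 0, 0, 0), (28, 0, 0, 0, 0), (30, 0, 0, 0, 0), (30, 0, 0, 0, 0), (81, 0, 0, 0, 0), (81, 0, 0, 0, 0), (80, 0, 0, 0, 0), (80, 0, 0, 0, 0), (30, 0, 0, 0, 0), (30, 0, 0, 0, 0), (31, 0, 0, 0, 0), (31, 0, 0, 0, 0), (29, 0, 0, 0, 0), (29, 0, 0, 0, 0), (81, 0, 0, 0, 0), (81, 0, 0, 0, 0), (31, 0, 0, 0, 0), (31, 0, 0, 0, 0), (82, 0, 0, 0, 0), (82, 0, 0, 0, 0), (83, 0, 0, 0, 0), (83, 0, 0, 0, 0), (84, 0, 0, 0, 0), (84, 0, 0, 0, 0), (82,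 0, 0, 0, 0), (82, 0, 0, 0, 0), (85, 0, 0, 0, 0), (85, 0, 0, 0, 0), (86, 0, 0, 0, 0), (86, 0, 0, 0, 0), (83, 0, 0, 0, 0), (83, 0, 0, 0, 0), (85, 0, 0, 0, 0), (85, 0, 0, 0, 0), (87, 0, 0, 0, 0), (87, 0, 0, 0, 0), (84, 0, 0, 0, 0), (84, 0, 0, 0, 0), (86, 0, 0, 0, 0), (86, 0, 0, 0, 0), (87, 0, 0, 0, 0), (87, 0, 0, 0, 0), (46, 0, 0, 0, 0), (46, 0, 0, 0, 0), (47, 0, 0, 0, 0), (47, 0, 0, 0, 0), (48, 0, 0, 0, 0), (48, 0, 0, 0, 0), (46, 0, 0, 0, 0), (46, 0, 0, 0, 0), (49, 0, 0, 0, 0), (49, 0, 0, 0, 0), (50, 0, 0, 0, 0), (50, 0, 0, 0, 0), (47, 0, 0, 0, 0), (47, 0, 0, 0, 0), (49, 0, 0, 0, 0), (49, 0, 0, 0, 0), (51, 0, 0, 0, 0), (51, 0, 0, 0, 0), (48, 0, 0, 0, 0), (48, 0, 0, 0, 0), (50, 0, 0, 0, 0), (50, 0, 0, 0, 0), (51, 0, 0, 0, 0), (51, 0, 0, 0, 0), (62, 0, 0, 0,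 0), (62, 0, 0, 0, 0), (16, 0, 0, 0, 0), (16, 0, 0, 0, 0), (17, 0, 0, 0, 0), (17, 0, 0, 0, 0), (62, 0, 0, 0, 0), (62, 0, 0, 0, 0), (18, 0, 0, 0, 0), (18, 0, 0, 0, 0), (19, 0, 0, 0, 0), (19, 0, 0, 0, 0), (16, 0, 0, 0, 0), (16, 0, 0, 0, 0), (18, 0, 0, 0, 0), (18, 0, 0, 0, 0), (63, 0, 0, 0, 0), (63, 0, 0, 0, 0), (17, 0, 0, 0, 0), (17, 0, 0, 0, 0), (19, 0, 0, 0, 0), (19, 0, 0, 0, 0), (63, 0, 0, 0, 0), (63, 0, 0, 0, 0), (72, 0, 0, 0, 0), (72, 0, 0, 0, 0), (73, 0, 0, 0, 0), (73, 0, 0, 0, 0), (74, 0, 0, 0, 0), (74, 0, 0, 0, 0), (72, 0, 0, 0, 0), (72, 0, 0, 0, 0), (75, 0, 0, 0, 0), (75, 0, 0, 0, 0), (76, 0, 0, 0, 0), (76, 0, 0, 0, 0), (73, 0, 0, 0, 0), (73, 0, 0, 0, 0), (75, 0, 0, 0, 0), (75, 0, 0, 0, 0), (77, 0, 0, 0, 0), (77, 0, 0, 0, 0), (74, 0, 0, 0, 0), (74,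 0, 0, 0, 0), (76, 0, 0, 0, 0), (76, 0, 0, 0, 0), (77, 0, 0, 0, 0), (77, 0, 0, 0, 0), (28, 0, 0, 0, 0), (28, 0, 0, 0, 0), (80, 0, 0, 0, 0), (80, 0, 0, 0, 0), (29, 0, 0, 0, 0), (29, 0, 0, 0, 0), (28, 0, 0, 0, 0), (28, 0, 0, 0, 0), (30, 0, 0, 0, 0), (30, 0, 0, 0, 0), (81, 0, 0, 0, 0), (81, 0, 0, 0, 0), (80, 0, 0, 0, 0), (80, 0, 0, 0, 0), (30, 0, 0, 0, 0), (30, 0, 0, 0, 0), (31, 0, 0, 0, 0), (31, 0, 0, 0, 0), (29, 0, 0, 0, 0), (29, 0, 0, 0, 0), (81, 0, 0, 0, 0), (81, 0, 0, 0, 0), (31, 0, 0, 0, 0), (31, 0, 0, 0, 0), (32, 0, 0, 0, 0), (32, 0, 0, 0, 0), (88, 0, 0, 0, 0), (88, 0, 0, 0, 0), (33, 0, 0, 0, 0), (33, 0, 0, 0, 0), (32, 0, 0, 0, 0), (32, 0, 0, 0, 0), (34, 0, 0, 0, 0), (34, 0, 0, 0, 0), (89, 0, 0, 0, 0), (89, 0, 0, 0, 0), (88, 0, 0, 0, 0), (88, 0, 0, 0,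 0), (34, 0, 0, 0, 0), (34, 0, 0, 0, 0), (35, 0, 0, 0, 0), (35, 0, 0, 0, 0), (33, 0, 0, 0, 0), (33, 0, 0, 0, 0), (89, 0, 0, 0, 0), (89, 0, 0, 0, 0), (35, 0, 0, 0, 0), (35, 0, 0, 0, 0), (8, 0, 0, 0, 0), (8, 0, 0, 0, 0), (52, 0, 0, 0, 0), (52, 0, 0, 0, 0), (9, 0, 0, 0, 0), (9, 0, 0, 0, 0), (8, 0, 0, 0, 0), (8, 0, 0, 0, 0), (10, 0, 0, 0, 0), (10, 0, 0, 0, 0), (53, 0, 0, 0, 0), (53, 0, 0, 0, 0), (52, 0, 0, 0, 0), (52, 0, 0, 0, 0), (10, 0, 0, 0, 0), (10, 0, 0, 0, 0), (11, 0, 0, 0, 0), (11, 0, 0, 0, 0), (9, 0, 0, 0, 0), (9, 0, 0, 0, 0), (53, 0, 0, 0, 0), (53, 0, 0, 0, 0), (11, 0, 0, 0, 0), (11, 0, 0, 0, 0), (64, 0, 0, 0, 0), (64, 0, 0, 0, 0), (65, 0, 0, 0, 0), (65, 0, 0, 0, 0), (66, 0, 0, 0, 0), (66, 0, 0, 0, 0), (64, 0, 0, 0, 0), (64, 0, 0, 0, 0), (67, 0, 0, 0,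 0), (67, 0, 0, 0, 0), (68, 0, 0, 0, 0), (68, 0, 0, 0, 0), (65, 0, 0, 0, 0), (65, 0, 0, 0, 0), (67, 0, 0, 0, 0), (67, 0, 0, 0, 0), (69, 0, 0, 0, 0), (69, 0, 0, 0, 0), (66, 0, 0, 0, 0), (66, 0, 0, 0, 0), (68, 0, 0, 0, 0), (68, 0, 0, 0, 0), (69, 0, 0, 0, 0), (69, 0, 0, 0, 0), (24, 0, 0, 0, 0), (24, 0, 0, 0, 0), (25, 0, 0, 0, 0), (25, 0, 0, 0, 0), (78, 0, 0, 0, 0), (78, 0, 0, 0, 0), (24, 0, 0, 0, 0), (24, 0, 0, 0, 0), (79, 0, 0, 0, 0), (79, 0, 0, 0, 0), (26, 0, 0, 0, 0), (26, 0, 0, 0, 0), (25, 0, 0, 0, 0), (25, 0, 0, 0, 0), (79, 0, 0, 0, 0), (79, 0, 0, 0, 0), (27, 0, 0, 0, 0), (27, 0, 0, 0, 0), (78, 0, 0, 0, 0), (78, 0, 0, 0, 0), (26, 0, 0, 0, 0), (26, 0, 0, 0, 0), (27, 0, 0, 0, 0), (27, 0, 0, 0, 0), (82, 0, 0, 0, 0), (82, 0, 0, 0, 0), (83, 0, 0, 0, 0), (83,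 0, 0, 0, 0), (84, 0, 0, 0, 0), (84, 0, 0, 0, 0), (82, 0, 0, 0, 0), (82, 0, 0, 0, 0), (85, 0, 0, 0, 0), (85, 0, 0, 0, 0), (86, 0, 0, 0, 0), (86, 0, 0, 0, 0), (83, 0, 0, 0, 0), (83, 0, 0, 0, 0), (85, 0, 0, 0, 0), (85, 0, 0, 0, 0), (87, 0, 0, 0, 0), (87, 0, 0, 0, 0), (84, 0, 0, 0, 0), (84, 0, 0, 0, 0), (86, 0, 0, 0, 0), (86, 0, 0, 0, 0), (87, 0, 0, 0, 0), (87, 0, 0, 0, 0), (32, 0, 0, 0, 0), (32, 0, 0, 0, 0), (88, 0, 0, 0, 0), (88, 0, 0, 0, 0), (33, 0, 0, 0, 0), (33, 0, 0, 0, 0), (32, 0, 0, 0, 0), (32, 0, 0, 0, 0), (34, 0, 0, 0, 0), (34, 0, 0, 0, 0), (89, 0, 0, 0, 0), (89, 0, 0, 0, 0), (88, 0, 0, 0, 0), (88, 0, 0, 0, 0), (34, 0, 0, 0, 0), (34, 0, 0, 0, 0), (35, 0, 0, 0, 0), (35, 0, 0, 0, 0), (33, 0, 0, 0, 0), (33, 0, 0, 0, 0), (89, 0, 0, 0, 0), (89, 0, 0, 0,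 0), (35, 0, 0, 0, 0), (35, 0, 0, 0, 0)],
  [(20, 0, 0, 0, 0), (20, 0, 0, 0, 0), (72, 0, 0, 0, 0), (72, 0, 0, 0, 0), (24, 0, 0, 0, 0), (24, 0, 0, 0, 0), (20, 0, 0, 0, 0), (20, 0, 0, 0, 0), (28, 0, 0, 0, 0), (28, 0, 0, 0, 0), (82, 0, 0, 0, 0), (82, 0, 0, 0, 0), (72, 0, 0, 0, 0), (72, 0, 0, 0, 0), (28, 0, 0, 0, 0), (28, 0, 0, 0, 0), (32, 0, 0, 0, 0), (32, 0, 0, 0, 0), (24, 0, 0, 0, 0), (24, 0, 0, 0, 0), (82, 0, 0, 0, 0), (82, 0, 0, 0, 0), (32, 0, 0, 0, 0), (32, 0, 0, 0, 0), (56, 0, 0, 0, 0), (56, 0, 0, 0, 0), (62, 0, 0, 0, 0), (62, 0, 0, 0, 0), (64, 0, 0, 0, 0), (64, 0, 0, 0, 0), (56, 0, 0, 0, 0), (56, 0, 0, 0, 0), (80, 0, 0, 0, 0), (80, 0, 0, 0, 0), (83, 0, 0, 0, 0), (83, 0, 0, 0, 0), (62, 0, 0, 0, 0), (62, 0, 0, 0, 0), (80, 0, 0, 0, 0), (80, 0, 0, 0, 0),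 (88, 0, 0, 0, 0), (88, 0, 0, 0, 0), (64, 0, 0, 0, 0), (64, 0, 0, 0, 0), (83, 0, 0, 0, 0), (83, 0, 0, 0, 0), (88, 0, 0, 0, 0), (88, 0, 0, 0, 0), (12, 0, 0, 0, 0), (12, 0, 0, 0, 0), (16, 0, 0, 0, 0), (16, 0, 0, 0, 0), (65, 0, 0, 0, 0), (65, 0, 0, 0, 0), (12, 0, 0, 0, 0), (12, 0, 0, 0, 0), (73, 0, 0, 0, 0), (73, 0, 0, 0, 0), (25, 0, 0, 0, 0), (25, 0, 0, 0, 0), (16, 0, 0, 0, 0), (16, 0, 0, 0, 0), (73, 0, 0, 0, 0), (73, 0, 0, 0, 0), (33, 0, 0, 0, 0), (33, 0, 0, 0, 0), (65, 0, 0, 0, 0), (65, 0, 0, 0, 0), (25, 0, 0, 0, 0), (25, 0, 0, 0, 0), (33, 0, 0, 0, 0), (33, 0, 0, 0, 0), (54, 0, 0, 0, 0), (54, 0, 0, 0, 0), (57, 0, 0, 0, 0), (57, 0, 0, 0, 0), (66, 0, 0, 0, 0), (66, 0, 0, 0, 0), (54, 0, 0, 0, 0), (54, 0, 0, 0, 0), (70, 0, 0, 0, 0), (70, 0, 0, 0, 0), (78, 0,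 0, 0, 0), (78, 0, 0, 0, 0), (57, 0, 0, 0, 0), (57, 0, 0, 0, 0), (70, 0, 0, 0, 0), (70, 0, 0, 0, 0), (84, 0, 0, 0, 0), (84, 0, 0, 0, 0), (66, 0, 0, 0, 0), (66, 0, 0, 0, 0), (78, 0, 0, 0, 0), (78, 0, 0, 0, 0), (84, 0, 0, 0, 0), (84, 0, 0, 0, 0), (13, 0, 0, 0, 0), (13, 0, 0, 0, 0), (58, 0, 0, 0, 0), (58, 0, 0, 0, 0), (17, 0, 0, 0, 0), (17, 0, 0, 0, 0), (13, 0, 0, 0, 0), (13, 0, 0, 0, 0), (21, 0, 0, 0, 0), (21, 0, 0, 0, 0), (74, 0, 0, 0, 0), (74, 0, 0, 0, 0), (58, 0, 0, 0, 0), (58, 0, 0, 0, 0), (21, 0, 0, 0, 0), (21, 0, 0, 0, 0), (29, 0, 0, 0, 0), (29, 0, 0, 0, 0), (17, 0, 0, 0, 0), (17, 0, 0, 0, 0), (74, 0, 0, 0, 0), (74, 0, 0, 0, 0), (29, 0, 0, 0, 0), (29, 0, 0, 0, 0), (20, 0, 0, 0, 0), (20, 0, 0, 0, 0), (72, 0, 0, 0, 0), (72, 0, 0, 0, 0), (24, 0, 0, 0, 0),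 (24, 0, 0, 0, 0), (20, 0, 0, 0, 0), (20, 0, 0, 0, 0), (28, 0, 0, 0, 0), (28, 0, 0, 0, 0), (82, 0, 0, 0, 0), (82, 0, 0, 0, 0), (72, 0, 0, 0, 0), (72, 0, 0, 0, 0), (28, 0, 0, 0, 0), (28, 0, 0, 0, 0), (32, 0, 0, 0, 0), (32, 0, 0, 0, 0), (24, 0, 0, 0, 0), (24, 0, 0, 0, 0), (82, 0, 0, 0, 0), (82, 0, 0, 0, 0), (32, 0, 0, 0, 0), (32, 0, 0, 0, 0), (4, 0, 0, 0, 0), (4, 0, 0, 0, 0), (46, 0, 0, 0, 0), (46, 0, 0, 0, 0), (8, 0, 0, 0, 0), (8, 0, 0, 0, 0), (4, 0, 0, 0, 0), (4, 0, 0, 0, 0), (30, 0, 0, 0, 0), (30, 0, 0, 0, 0), (85, 0, 0, 0, 0), (85, 0, 0, 0, 0), (46, 0, 0, 0, 0), (46, 0, 0, 0, 0), (30, 0, 0, 0, 0), (30, 0, 0, 0, 0), (34, 0, 0, 0, 0), (34, 0, 0, 0, 0), (8, 0, 0, 0, 0), (8, 0, 0, 0, 0), (85, 0, 0, 0, 0), (85, 0, 0, 0, 0), (34, 0, 0, 0, 0), (34, 0, 0, 0, 0),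 (38, 0, 0, 0, 0), (38, 0, 0, 0, 0), (47, 0, 0, 0, 0), (47, 0, 0, 0, 0), (52, 0, 0, 0, 0), (52, 0, 0, 0, 0), (38, 0, 0, 0, 0), (38, 0, 0, 0, 0), (75, 0, 0, 0, 0), (75, 0, 0, 0, 0), (79, 0, 0, 0, 0), (79, 0, 0, 0, 0), (47, 0, 0, 0, 0), (47, 0, 0, 0, 0), (75, 0, 0, 0, 0), (75, 0, 0, 0, 0), (89, 0, 0, 0, 0), (89, 0, 0, 0, 0), (52, 0, 0, 0, 0), (52, 0, 0, 0, 0), (79, 0, 0, 0, 0), (79, 0, 0, 0, 0), (89, 0, 0, 0, 0), (89, 0, 0, 0, 0), (39, 0, 0, 0, 0), (39, 0, 0, 0, 0), (5, 0, 0, 0, 0), (5, 0, 0, 0, 0), (9, 0, 0, 0, 0), (9, 0, 0, 0, 0), (39, 0, 0, 0, 0), (39, 0, 0, 0, 0), (22, 0, 0, 0, 0), (22, 0, 0, 0, 0), (26, 0, 0, 0, 0), (26, 0, 0, 0, 0), (5, 0, 0, 0, 0), (5, 0, 0, 0, 0), (22, 0, 0, 0, 0), (22, 0, 0, 0, 0), (86, 0, 0, 0, 0), (86, 0, 0, 0, 0), (9, 0, 0, 0, 0),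 (9, 0, 0, 0, 0), (26, 0, 0, 0, 0), (26, 0, 0, 0, 0), (86, 0, 0, 0, 0), (86, 0, 0, 0, 0), (40, 0, 0, 0, 0), (40, 0, 0, 0, 0), (44, 0, 0, 0, 0), (44, 0, 0, 0, 0), (48, 0, 0, 0, 0), (48, 0, 0, 0, 0), (40, 0, 0, 0, 0), (40, 0, 0, 0, 0), (71, 0, 0, 0, 0), (71, 0, 0, 0, 0), (76, 0, 0, 0, 0), (76, 0, 0, 0, 0), (44, 0, 0, 0, 0), (44, 0, 0, 0, 0), (71, 0, 0, 0, 0), (71, 0, 0, 0, 0), (81, 0, 0, 0, 0), (81, 0, 0, 0, 0), (48, 0, 0, 0, 0), (48, 0, 0, 0, 0), (76, 0, 0, 0, 0), (76, 0, 0, 0, 0), (81, 0, 0, 0, 0), (81, 0, 0, 0, 0), (56, 0, 0, 0, 0), (56, 0, 0, 0, 0), (62, 0, 0, 0, 0), (62, 0, 0, 0, 0), (64, 0, 0, 0, 0), (64, 0, 0, 0, 0), (56, 0, 0, 0, 0), (56, 0, 0, 0, 0), (80, 0, 0, 0, 0), (80, 0, 0, 0, 0), (83, 0, 0, 0, 0), (83, 0, 0, 0, 0), (62, 0, 0, 0, 0), (62, 0, 0,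 0, 0), (80, 0, 0, 0, 0), (80, 0, 0, 0, 0), (88, 0, 0, 0, 0), (88, 0, 0, 0, 0), (64, 0, 0, 0, 0), (64, 0, 0, 0, 0), (83, 0, 0, 0, 0), (83, 0, 0, 0, 0), (88, 0, 0, 0, 0), (88, 0, 0, 0, 0), (4, 0, 0, 0, 0), (4, 0, 0, 0, 0), (46, 0, 0, 0, 0), (46, 0, 0, 0, 0), (8, 0, 0, 0, 0), (8, 0, 0, 0, 0), (4, 0, 0, 0, 0), (4, 0, 0, 0, 0), (30, 0, 0, 0, 0), (30, 0, 0, 0, 0), (85, 0, 0, 0, 0), (85, 0, 0, 0, 0), (46, 0, 0, 0, 0), (46, 0, 0, 0, 0), (30, 0, 0, 0, 0), (30, 0, 0, 0, 0), (34, 0, 0, 0, 0), (34, 0, 0, 0, 0), (8, 0, 0, 0, 0), (8, 0, 0, 0, 0), (85, 0, 0, 0, 0), (85, 0, 0, 0, 0), (34, 0, 0, 0, 0), (34, 0, 0, 0, 0), (0, 0, 0, 0, 0), (0, 0, 0, 0, 0), (49, 0, 0, 0, 0), (49, 0, 0, 0, 0), (10, 0, 0, 0, 0), (10, 0, 0, 0, 0), (0, 0, 0, 0, 0), (0, 0, 0, 0, 0), (18, 0, 0, 0,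 0), (18, 0, 0, 0, 0), (67, 0, 0, 0, 0), (67, 0, 0, 0, 0), (49, 0, 0, 0, 0), (49, 0, 0, 0, 0), (18, 0, 0, 0, 0), (18, 0, 0, 0, 0), (35, 0, 0, 0, 0), (35, 0, 0, 0, 0), (10, 0, 0, 0, 0), (10, 0, 0, 0, 0), (67, 0, 0, 0, 0), (67, 0, 0, 0, 0), (35, 0, 0, 0, 0), (35, 0, 0, 0, 0), (36, 0, 0, 0, 0), (36, 0, 0, 0, 0), (45, 0, 0, 0, 0), (45, 0, 0, 0, 0), (53, 0, 0, 0, 0), (53, 0, 0, 0, 0), (36, 0, 0, 0, 0), (36, 0, 0, 0, 0), (59, 0, 0, 0, 0), (59, 0, 0, 0, 0), (68, 0, 0, 0, 0), (68, 0, 0, 0, 0), (45, 0, 0, 0, 0), (45, 0, 0, 0, 0), (59, 0, 0, 0, 0), (59, 0, 0, 0, 0), (87, 0, 0, 0, 0), (87, 0, 0, 0, 0), (53, 0, 0, 0, 0), (53, 0, 0, 0, 0), (68, 0, 0, 0, 0), (68, 0, 0, 0, 0), (87, 0, 0, 0, 0), (87, 0, 0, 0, 0), (1, 0, 0, 0, 0), (1, 0, 0, 0, 0), (6, 0, 0, 0, 0), (6, 0,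 0, 0, 0), (50, 0, 0, 0, 0), (50, 0, 0, 0, 0), (1, 0, 0, 0, 0), (1, 0, 0, 0, 0), (60, 0, 0, 0, 0), (60, 0, 0, 0, 0), (19, 0, 0, 0, 0), (19, 0, 0, 0, 0), (6, 0, 0, 0, 0), (6, 0, 0, 0, 0), (60, 0, 0, 0, 0), (60, 0, 0, 0, 0), (31, 0, 0, 0, 0), (31, 0, 0, 0, 0), (50, 0, 0, 0, 0), (50, 0, 0, 0, 0), (19, 0, 0, 0, 0), (19, 0, 0, 0, 0), (31, 0, 0, 0, 0), (31, 0, 0, 0, 0), (12, 0, 0, 0, 0), (12, 0, 0, 0, 0), (16, 0, 0, 0, 0), (16, 0, 0, 0, 0), (65, 0, 0, 0, 0), (65, 0, 0, 0, 0), (12, 0, 0, 0, 0), (12, 0, 0, 0, 0), (73, 0, 0, 0, 0), (73, 0, 0, 0, 0), (25, 0, 0, 0, 0), (25, 0, 0, 0, 0), (16, 0, 0, 0, 0), (16, 0, 0, 0, 0), (73, 0, 0, 0, 0), (73, 0, 0, 0, 0), (33, 0, 0, 0, 0), (33, 0, 0, 0, 0), (65, 0, 0, 0, 0), (65, 0, 0, 0, 0), (25, 0, 0, 0, 0), (25, 0, 0, 0, 0), (33,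 0, 0, 0, 0), (33, 0, 0, 0, 0), (38, 0, 0, 0, 0), (38, 0, 0, 0, 0), (47, 0, 0, 0, 0), (47, 0, 0, 0, 0), (52, 0, 0, 0, 0), (52, 0, 0, 0, 0), (38, 0, 0, 0, 0), (38, 0, 0, 0, 0), (75, 0, 0, 0, 0), (75, 0, 0, 0, 0), (79, 0, 0, 0, 0), (79, 0, 0, 0, 0), (47, 0, 0, 0, 0), (47, 0, 0, 0, 0), (75, 0, 0, 0, 0), (75, 0, 0, 0, 0), (89, 0, 0, 0, 0), (89, 0, 0, 0, 0), (52, 0, 0, 0, 0), (52, 0, 0, 0, 0), (79, 0, 0, 0, 0), (79, 0, 0, 0, 0), (89, 0, 0, 0, 0), (89, 0, 0, 0, 0), (0, 0, 0, 0, 0), (0, 0, 0, 0, 0), (49, 0, 0, 0, 0), (49, 0, 0, 0, 0), (10, 0, 0, 0, 0), (10, 0, 0, 0, 0), (0, 0, 0, 0, 0), (0, 0, 0, 0, 0), (18, 0, 0, 0, 0), (18, 0, 0, 0, 0), (67, 0, 0, 0, 0), (67, 0, 0, 0, 0), (49, 0, 0, 0, 0), (49, 0, 0, 0, 0), (18, 0, 0, 0, 0), (18, 0, 0, 0, 0), (35, 0, 0, 0, 0),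 (35, 0, 0, 0, 0), (10, 0, 0, 0, 0), (10, 0, 0, 0, 0), (67, 0, 0, 0, 0), (67, 0, 0, 0, 0), (35, 0, 0, 0, 0), (35, 0, 0, 0, 0), (2, 0, 0, 0, 0), (2, 0, 0, 0, 0), (41, 0, 0, 0, 0), (41, 0, 0, 0, 0), (11, 0, 0, 0, 0), (11, 0, 0, 0, 0), (2, 0, 0, 0, 0), (2, 0, 0, 0, 0), (14, 0, 0, 0, 0), (14, 0, 0, 0, 0), (69, 0, 0, 0, 0), (69, 0, 0, 0, 0), (41, 0, 0, 0, 0), (41, 0, 0, 0, 0), (14, 0, 0, 0, 0), (14, 0, 0, 0, 0), (27, 0, 0, 0, 0), (27, 0, 0, 0, 0), (11, 0, 0, 0, 0), (11, 0, 0, 0, 0), (69, 0, 0, 0, 0), (69, 0, 0, 0, 0), (27, 0, 0, 0, 0), (27, 0, 0, 0, 0), (37, 0, 0, 0, 0), (37, 0, 0, 0, 0), (42, 0, 0, 0, 0), (42, 0, 0, 0, 0), (51, 0, 0, 0, 0), (51, 0, 0, 0, 0), (37, 0, 0, 0, 0), (37, 0, 0, 0, 0), (55, 0, 0, 0, 0), (55, 0, 0, 0, 0), (63, 0, 0, 0, 0), (63, 0, 0, 0,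 0), (42, 0, 0, 0, 0), (42, 0, 0, 0, 0), (55, 0, 0, 0, 0), (55, 0, 0, 0, 0), (77, 0, 0, 0, 0), (77, 0, 0, 0, 0), (51, 0, 0, 0, 0), (51, 0, 0, 0, 0), (63, 0, 0, 0, 0), (63, 0, 0, 0, 0), (77, 0, 0, 0, 0), (77, 0, 0, 0, 0), (54, 0, 0, 0, 0), (54, 0, 0, 0, 0), (57, 0, 0, 0, 0), (57, 0, 0, 0, 0), (66, 0, 0, 0, 0), (66, 0, 0, 0, 0), (54, 0, 0, 0, 0), (54, 0, 0, 0, 0), (70, 0, 0, 0, 0), (70, 0, 0, 0, 0), (78, 0, 0, 0, 0), (78, 0, 0, 0, 0), (57, 0, 0, 0, 0), (57, 0, 0, 0, 0), (70, 0, 0, 0, 0), (70, 0, 0, 0, 0), (84, 0, 0, 0, 0), (84, 0, 0, 0, 0), (66, 0, 0, 0, 0), (66, 0, 0, 0, 0), (78, 0, 0, 0, 0), (78, 0, 0, 0, 0), (84, 0, 0, 0, 0), (84, 0, 0, 0, 0), (39, 0, 0, 0, 0), (39, 0, 0, 0, 0), (5, 0, 0, 0, 0), (5, 0, 0, 0, 0), (9, 0, 0, 0, 0), (9, 0, 0, 0, 0), (39, 0,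 0, 0, 0), (39, 0, 0, 0, 0), (22, 0, 0, 0, 0), (22, 0, 0, 0, 0), (26, 0, 0, 0, 0), (26, 0, 0, 0, 0), (5, 0, 0, 0, 0), (5, 0, 0, 0, 0), (22, 0, 0, 0, 0), (22, 0, 0, 0, 0), (86, 0, 0, 0, 0), (86, 0, 0, 0, 0), (9, 0, 0, 0, 0), (9, 0, 0, 0, 0), (26, 0, 0, 0, 0), (26, 0, 0, 0, 0), (86, 0, 0, 0, 0), (86, 0, 0, 0, 0), (36, 0, 0, 0, 0), (36, 0, 0, 0, 0), (45, 0, 0, 0, 0), (45, 0, 0, 0, 0), (53, 0, 0, 0, 0), (53, 0, 0, 0, 0), (36, 0, 0, 0, 0), (36, 0, 0, 0, 0), (59, 0, 0, 0, 0), (59, 0, 0, 0, 0), (68, 0, 0, 0, 0), (68, 0, 0, 0, 0), (45, 0, 0, 0, 0), (45, 0, 0, 0, 0), (59, 0, 0, 0, 0), (59, 0, 0, 0, 0), (87, 0, 0, 0, 0), (87, 0, 0, 0, 0), (53, 0, 0, 0, 0), (53, 0, 0, 0, 0), (68, 0, 0, 0, 0), (68, 0, 0, 0, 0), (87, 0, 0, 0, 0), (87, 0, 0, 0, 0), (2, 0, 0, 0, 0), (2,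 0, 0, 0, 0), (41, 0, 0, 0, 0), (41, 0, 0, 0, 0), (11, 0, 0, 0, 0), (11, 0, 0, 0, 0), (2, 0, 0, 0, 0), (2, 0, 0, 0, 0), (14, 0, 0, 0, 0), (14, 0, 0, 0, 0), (69, 0, 0, 0, 0), (69, 0, 0, 0, 0), (41, 0, 0, 0, 0), (41, 0, 0, 0, 0), (14, 0, 0, 0, 0), (14, 0, 0, 0, 0), (27, 0, 0, 0, 0), (27, 0, 0, 0, 0), (11, 0, 0, 0, 0), (11, 0, 0, 0, 0), (69, 0, 0, 0, 0), (69, 0, 0, 0, 0), (27, 0, 0, 0, 0), (27, 0, 0, 0, 0), (3, 0, 0, 0, 0), (3, 0, 0, 0, 0), (43, 0, 0, 0, 0), (43, 0, 0, 0, 0), (7, 0, 0, 0, 0), (7, 0, 0, 0, 0), (3, 0, 0, 0, 0), (3, 0, 0, 0, 0), (15, 0, 0, 0, 0), (15, 0, 0, 0, 0), (61, 0, 0, 0, 0), (61, 0, 0, 0, 0), (43, 0, 0, 0, 0), (43, 0, 0, 0, 0), (15, 0, 0, 0, 0), (15, 0, 0, 0, 0), (23, 0, 0, 0, 0), (23, 0, 0, 0, 0), (7, 0, 0, 0, 0), (7, 0, 0, 0, 0), (61,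 0, 0, 0, 0), (61, 0, 0, 0, 0), (23, 0, 0, 0, 0), (23, 0, 0, 0, 0), (13, 0, 0, 0, 0), (13, 0, 0, 0, 0), (58, 0, 0, 0, 0), (58, 0, 0, 0, 0), (17, 0, 0, 0, 0), (17, 0, 0, 0, 0), (13, 0, 0, 0, 0), (13, 0, 0, 0, 0), (21, 0, 0, 0, 0), (21, 0, 0, 0, 0), (74, 0, 0, 0, 0), (74, 0, 0, 0, 0), (58, 0, 0, 0, 0), (58, 0, 0, 0, 0), (21, 0, 0, 0, 0), (21, 0, 0, 0, 0), (29, 0, 0, 0, 0), (29, 0, 0, 0, 0), (17, 0, 0, 0, 0), (17, 0, 0, 0, 0), (74, 0, 0, 0, 0), (74, 0, 0, 0, 0), (29, 0, 0, 0, 0), (29, 0, 0, 0, 0), (40, 0, 0, 0, 0), (40, 0, 0, 0, 0), (44, 0, 0, 0, 0), (44, 0, 0, 0, 0), (48, 0, 0, 0, 0), (48, 0, 0, 0, 0), (40, 0, 0, 0, 0), (40, 0, 0, 0, 0), (71, 0, 0, 0, 0), (71, 0, 0, 0, 0), (76, 0, 0, 0, 0), (76, 0, 0, 0, 0), (44, 0, 0, 0, 0), (44, 0, 0, 0, 0), (71, 0, 0, 0,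 0), (71, 0, 0, 0, 0), (81, 0, 0, 0, 0), (81, 0, 0, 0, 0), (48, 0, 0, 0, 0), (48, 0, 0, 0, 0), (76, 0, 0, 0, 0), (76, 0, 0, 0, 0), (81, 0, 0, 0, 0), (81, 0, 0, 0, 0), (1, 0, 0, 0, 0), (1, 0, 0, 0, 0), (6, 0, 0, 0, 0), (6, 0, 0, 0, 0), (50, 0, 0, 0, 0), (50, 0, 0, 0, 0), (1, 0, 0, 0, 0), (1, 0, 0, 0, 0), (60, 0, 0, 0, 0), (60, 0, 0, 0, 0), (19, 0, 0, 0, 0), (19, 0, 0, 0, 0), (6, 0, 0, 0, 0), (6, 0, 0, 0, 0), (60, 0, 0, 0, 0), (60, 0, 0, 0, 0), (31, 0, 0, 0, 0), (31, 0, 0, 0, 0), (50, 0, 0, 0, 0), (50, 0, 0, 0, 0), (19, 0, 0, 0, 0), (19, 0, 0, 0, 0), (31, 0, 0, 0, 0), (31, 0, 0, 0, 0), (37, 0, 0, 0, 0), (37, 0, 0, 0, 0), (42, 0, 0, 0, 0), (42, 0, 0, 0, 0), (51, 0, 0, 0, 0), (51, 0, 0, 0, 0), (37, 0, 0, 0, 0), (37, 0, 0, 0, 0), (55, 0, 0, 0, 0), (55, 0, 0, 0,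 0), (63, 0, 0, 0, 0), (63, 0, 0, 0, 0), (42, 0, 0, 0, 0), (42, 0, 0, 0, 0), (55, 0, 0, 0, 0), (55, 0, 0, 0, 0), (77, 0, 0, 0, 0), (77, 0, 0, 0, 0), (51, 0, 0, 0, 0), (51, 0, 0, 0, 0), (63, 0, 0, 0, 0), (63, 0, 0, 0, 0), (77, 0, 0, 0, 0), (77, 0, 0, 0, 0), (3, 0, 0, 0, 0), (3, 0, 0, 0, 0), (43, 0, 0, 0, 0), (43, 0, 0, 0, 0), (7, 0, 0, 0, 0), (7, 0, 0, 0, 0), (3, 0, 0, 0, 0), (3, 0, 0, 0, 0), (15, 0, 0, 0, 0), (15, 0, 0, 0, 0), (61, 0, 0, 0, 0), (61, 0, 0, 0, 0), (43, 0, 0, 0, 0), (43, 0, 0, 0, 0), (15, 0, 0, 0, 0), (15, 0, 0, 0, 0), (23, 0, 0, 0, 0), (23, 0, 0, 0, 0), (7, 0, 0, 0, 0), (7, 0, 0, 0, 0), (61, 0, 0, 0, 0), (61, 0, 0, 0, 0), (23, 0, 0, 0, 0), (23, 0, 0, 0, 0)]]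

theorem tr60 : trK keys lk60 kl60 = true := by
  decide +kernel

theorem x60_0 : expB 2 6 dg2 dg12 m60_0 (l60_0 ++ z60_0) w60_0 = true := by
  decide +kernel

theorem t60_0_0 : chkS lk60 2 6 [(1, m60_0)] l60_0
  [(0, 16, 16, 5517840, 5517840), (1, 16, 16, 4534800, 4534800), (1, 16, 16, 5514000, 5514000), (2, 16, 16, 5517840, 5517840), (4, 16, 16, 5517825, 5517825), (7, 16, 16, 5448720, 5391120), (8, 1, 1, 2428995, 4261170), (6, 16, 16, 5509920, 5513520), (8, 16, 16, 2442000, 4400400), (6, 16, 16, 2315280, 3294480), (1, 1, 1, 4526130, 4526130), (11, 16, 16, 2372865, 2372865), (4, 16, 16, 5514000, 5514000), (7, 16, 16, 3490305, 4411905), (8, 1, 1, 5374260, 5248035), (6, 16, 16, 5517570, 5517345), (8, 16, 16, 5387265, 5387265), (6, 16, 16, 3298305, 3298305),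 (1, 1, 1, 5509155, 5505330), (11, 16, 16, 4346640, 3482640), (3, 16, 16, 5517840, 5517840), (10, 1, 1, 3477570, 4280370), (10, 1, 1, 5443620, 5259570), (9, 1, 1, 3280980, 1070130), (10, 16, 16, 3490320, 4411920), (7, 1, 1, 3473730, 4280355), (5, 16, 16, 4534785, 4534785), (6, 1, 1, 3277140, 1070115), (10, 16, 16, 5448720, 5391120), (5, 16, 16, 5514000, 5514000), (7, 1, 1, 5443620, 5259570), (6, 1, 1, 2297940, 1066290), (9, 16, 16, 3298320, 3298320), (6, 1, 1, 5505585, 5509635), (6, 1, 1, 5513235, 5505810), (2, 1, 1, 5509170, 5509170)]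
  [(0, 4608), (1, -18432), (2, 9216), (3, 4608), (4, -9216), (5, 9216), (6, -36864), (7, 18432), (8, 18432), (9, 9216), (10, -18432), (11, 9216)] = true := by
  decide +kernel

section

variable {κ ι : Type*} [Fintype κ] [Fintype ι] [Inhabited κ] [Inhabited ι]

noncomputable def F60_0 (E : Env κ ι) : (Fin 2 → κ) → (Fin 6 → ι) → ℝ := op2 (P2 κ) (P12 ι) (fB E 2 6 m60_0)

def r60_0_0 : List (ℕ × ℤ) := [(0, 4608), (1, -18432), (2, 9216), (3, 4608), (4, -9216), (5, 9216), (6, -36864), (7, 18432), (8, 18432), (9, 9216), (10, -18432), (11, 9216)]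

theorem h60_0_0 (E : Env κ ι) : ip (F60_0 E) (F60_0 E) = dotS (ek E lk60) r60_0_0 :=
  op_entryZ E lk60 2 6 _ _ _ _ (pg2 κ) (pg12 ι) m60_0 m60_0 l60_0 z60_0 w60_0 x60_0 (by decide) _ (chkS_sound E lk60 2 6 _ _ _ _ t60_0_0)

theorem row60_0 (E : Env κ ι) : RowG (ek E lk60) (F60_0 E) [F60_0 E] [r60_0_0] :=
  rowG_cons _ _ _ _ _ _ (h60_0_0 E) (rowG_nil _ _)

def tab60 : List (List (List (ℕ × ℤ))) := [[r60_0_0]]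

theorem tri60 (E : Env κ ι) : TriG (ek E lk60) [F60_0 E] tab60 := by
  refine triG_cons _ _ _ _ _ (row60_0 E) ?_
  exact triG_nil _

end

def lk61 : List Key := [
  (1, 4, [(0, [0], [0, 1]), (0, [0], [2, 3]), (1, [], [2, 3]), (1, [], [0, 1])])]

def kl61 : List ℕ := [7]

def m61_0 : Base := (0, 2, [(0, [0], [0, 1]), (1, [], [0, 1])])

def l61_0 : Cov := [(1, 0, 2, [(0, [0], [0, 1]), (1, [], [0, 1])])]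

def z61_0 : Cov := []

def w61_0 : List (List Wit) := [[(0, 0, 0, 16, 16)]]

theorem tr61 : trK keys lk61 kl61 = true := by
  decide +kernel

theorem x61_0 : expB 1 0 dg0 dg1 m61_0 (l61_0 ++ z61_0) w61_0 = true := by
  decide +kernel

theorem t61_0_0 : chkS lk61 1 0 [(1, m61_0)] l61_0
  [(0, 0, 0, 12816, 12816)]
  [(0, 1)] = true := by
  decide +kernel

section

variable {κ ι : Type*} [Fintype κ] [Fintype ι] [Inhabited κ] [Inhabited ι]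

noncomputable def F61_0 (E : Env κ ι) : (Fin 1 → κ) → (Fin 0 → ι) → ℝ := op2 (P0 κ) (P1 ι) (fB E 1 0 m61_0)

def r61_0_0 : List (ℕ × ℤ) := [(0, 1)]

theorem h61_0_0 (E : Env κ ι) : ip (F61_0 E) (F61_0 E) = dotS (ek E lk61) r61_0_0 :=
  op_entryZ E lk61 1 0 _ _ _ _ (pg0 κ) (pg1 ι) m61_0 m61_0 l61_0 z61_0 w61_0 x61_0 (by decide) _ (chkS_sound E lk61 1 0 _ _ _ _ t61_0_0)

theorem row61_0 (E : Env κ ι) : RowG (ek E lk61) (F61_0 E) [F61_0 E] [r61_0_0] :=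
  rowG_cons _ _ _ _ _ _ (h61_0_0 E) (rowG_nil _ _)

def tab61 : List (List (List (ℕ × ℤ))) := [[r61_0_0]]

theorem tri61 (E : Env κ ι) : TriG (ek E lk61) [F61_0 E] tab61 := by
  refine triG_cons _ _ _ _ _ (row61_0 E) ?_
  exact triG_nil _

end

def lk62 : List Key := [
  (1, 2, [(0, [0], [0, 1]), (0, [0], [0, 1])]),
  (1, 4, [(0, [0], [0, 1]), (0, [0], [0, 2]), (1, [], [2, 3]), (1, [], [1, 3])]),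
  (1, 4, [(0, [0], [0, 1]), (0, [0], [2, 3]), (1, [], [0, 2]), (1, [], [1, 3])]),
  (1, 3, [(0, [0], [0, 1]), (1, [], [2, 1]), (0, [0], [0, 2])])]

def kl62 : List ℕ := [0, 3, 4, 60]

def m62_0 : Base := (0, 1, [(0, [0], [0, 2]), (1, [], [1, 2])])

def l62_0 : Cov := [(2, 0, 1, [(0, [0], [0, 2]), (1, [], [1, 2])]),
  (2, 0, 1, [(0, [0], [1, 2]), (1, [], [0, 2])])]

def z62_0 : Cov := []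

def w62_0 : List (List Wit) := [[(0, 0, 0, 0, 0), (1, 0, 0, 0, 0)]]

def m62_1 : Base := (0, 0, [(0, [0], [0, 1])])

def l62_1 : Cov := [(4, 0, 0, [(0, [0], [0, 1])])]

def z62_1 : Cov := []

def w62_1 : List (List Wit) := [[(0, 0, 0, 0, 0), (0, 0, 0, 0, 0)]]

theorem tr62 : trK keys lk62 kl62 = true := by
  decide +kernel

theorem x62_0 : expB 1 2 dg0 dg2 m62_0 (l62_0 ++ z62_0) w62_0 = true := by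
  decide +kernel

theorem x62_1 : expB 1 2 dg0 dg2 m62_1 (l62_1 ++ z62_1) w62_1 = true := by
  decide +kernel

theorem t62_0_0 : chkS lk62 1 2 [(1, m62_0)] l62_0
  [(1, 0, 0, 8496, 4896), (2, 0, 0, 8496, 4896)]
  [(1, 2), (2, 2)] = true := by
  decide +kernel

theorem t62_0_1 : chkS lk62 1 2 [(1, m62_0)] l62_1
  [(3, 0, 0, 288, 288)]
  [(3, 4)] = true := by
  decide +kernel

theorem t62_1_1 : chkS lk62 1 2 [(1, m62_1)] l62_1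
  [(0, 0, 0, 16, 16)]
  [(0, 4)] = true := by
  decide +kernel

section

variable {κ ι : Type*} [Fintype κ] [Fintype ι] [Inhabited κ] [Inhabited ι]

noncomputable def F62_0 (E : Env κ ι) : (Fin 1 → κ) → (Fin 2 → ι) → ℝ := op2 (P0 κ) (P2 ι) (fB E 1 2 m62_0)

noncomputable def F62_1 (E : Env κ ι) : (Fin 1 → κ) → (Fin 2 → ι) → ℝ := op2 (P0 κ) (P2 ι) (fB E 1 2 m62_1)

def r62_0_0 : List (ℕ × ℤ) := [(1, 2), (2, 2)]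

theorem h62_0_0 (E : Env κ ι) : ip (F62_0 E) (F62_0 E) = dotS (ek E lk62) r62_0_0 :=
  op_entryZ E lk62 1 2 _ _ _ _ (pg0 κ) (pg2 ι) m62_0 m62_0 l62_0 z62_0 w62_0 x62_0 (by decide) _ (chkS_sound E lk62 1 2 _ _ _ _ t62_0_0)

def r62_0_1 : List (ℕ × ℤ) := [(3, 4)]

theorem h62_0_1 (E : Env κ ι) : ip (F62_0 E) (F62_1 E) = dotS (ek E lk62) r62_0_1 :=
  op_entryZ E lk62 1 2 _ _ _ _ (pg0 κ) (pg2 ι) m62_0 m62_1 l62_1 z62_1 w62_1 x62_1 (by decide) _ (chkS_sound E lk62 1 2 _ _ _ _ t62_0_1)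

def r62_1_1 : List (ℕ × ℤ) := [(0, 4)]

theorem h62_1_1 (E : Env κ ι) : ip (F62_1 E) (F62_1 E) = dotS (ek E lk62) r62_1_1 :=
  op_entryZ E lk62 1 2 _ _ _ _ (pg0 κ) (pg2 ι) m62_1 m62_1 l62_1 z62_1 w62_1 x62_1 (by decide) _ (chkS_sound E lk62 1 2 _ _ _ _ t62_1_1)

theorem row62_0 (E : Env κ ι) : RowG (ek E lk62) (F62_0 E) [F62_0 E, F62_1 E] [r62_0_0, r62_0_1] :=
  rowG_cons _ _ _ _ _ _ (h62_0_0 E) (rowG_cons _ _ _ _ _ _ (h62_0_1 E) (rowG_nil _ _))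

theorem row62_1 (E : Env κ ι) : RowG (ek E lk62) (F62_1 E) [F62_1 E] [r62_1_1] :=
  rowG_cons _ _ _ _ _ _ (h62_1_1 E) (rowG_nil _ _)

def tab62 : List (List (List (ℕ × ℤ))) := [[r62_0_0, r62_0_1], [r62_1_1]]

theorem tri62 (E : Env κ ι) : TriG (ek E lk62) [F62_0 E, F62_1 E] tab62 := by
  refine triG_cons _ _ _ _ _ (row62_0 E) ?_
  refine triG_cons _ _ _ _ _ (row62_1 E) ?_
  exact triG_nil _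

end

def lk63 : List Key := [
  (1, 4, [(0, [0], [0, 1]), (0, [0], [0, 2]), (1, [], [2, 3]), (1, [], [1, 3])]),
  (1, 4, [(0, [0], [0, 1]), (0, [0], [2, 3]), (1, [], [0, 2]), (1, [], [1, 3])])]

def kl63 : List ℕ := [3, 4]

def m63_0 : Base := (0, 1, [(0, [0], [0, 2]), (1, [], [1, 2])])

def l63_0 : Cov := [(2, 0, 1, [(0, [0], [0, 2]), (1, [], [1, 2])]),
  (-2, 0, 1, [(0, [0], [1, 2]), (1, [], [0, 2])])]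

def z63_0 : Cov := []

def w63_0 : List (List Wit) := [[(0, 0, 0, 0, 0), (1, 0, 0, 0, 0)]]

theorem tr63 : trK keys lk63 kl63 = true := by
  decide +kernel

theorem x63_0 : expB 1 2 dg0 dg3 m63_0 (l63_0 ++ z63_0) w63_0 = true := by
  decide +kernel

theorem t63_0_0 : chkS lk63 1 2 [(1, m63_0)] l63_0
  [(0, 0, 0, 8496, 4896), (1, 0, 0, 8496, 4896)]
  [(0, 2), (1, -2)] = true := by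
  decide +kernel

section

variable {κ ι : Type*} [Fintype κ] [Fintype ι] [Inhabited κ] [Inhabited ι]

noncomputable def F63_0 (E : Env κ ι) : (Fin 1 → κ) → (Fin 2 → ι) → ℝ := op2 (P0 κ) (P3 ι) (fB E 1 2 m63_0)

def r63_0_0 : List (ℕ × ℤ) := [(0, 2), (1, -2)]

theorem h63_0_0 (E : Env κ ι) : ip (F63_0 E) (F63_0 E) = dotS (ek E lk63) r63_0_0 :=
  op_entryZ E lk63 1 2 _ _ _ _ (pg0 κ) (pg3 ι) m63_0 m63_0 l63_0 z63_0 w63_0 x63_0 (by decide) _ (chkS_sound E lk63 1 2 _ _ _ _ t63_0_0)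

theorem row63_0 (E : Env κ ι) : RowG (ek E lk63) (F63_0 E) [F63_0 E] [r63_0_0] :=
  rowG_cons _ _ _ _ _ _ (h63_0_0 E) (rowG_nil _ _)

def tab63 : List (List (List (ℕ × ℤ))) := [[r63_0_0]]

theorem tri63 (E : Env κ ι) : TriG (ek E lk63) [F63_0 E] tab63 := by
  refine triG_cons _ _ _ _ _ (row63_0 E) ?_
  exact triG_nil _

end

def lk64 : List Key := [
  (1, 4, [(0, [0], [0, 1]), (0, [0], [0, 1]), (1, [], [2, 3]), (1, [], [2, 3])]),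
  (1, 4, [(0, [0], [0, 1]), (0, [0], [0, 2]), (1, [], [2, 3]), (1, [], [1, 3])]),
  (1, 4, [(0, [0], [0, 1]), (0, [0], [2, 3]), (1, [], [2, 3]), (1, [], [0, 1])])]

def kl64 : List ℕ := [1, 3, 7]

def m64_0 : Base := (0, 0, [(0, [0], [0, 1]), (1, [], [2, 3])])

def l64_0 : Cov := [(96, 0, 0, [(0, [0], [0, 1]), (1, [], [2, 3])]),
  (96, 0, 0, [(0, [0], [0, 2]), (1, [], [1, 3])]),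
  (96, 0, 0, [(0, [0], [0, 3]), (1, [], [1, 2])]),
  (96, 0, 0, [(0, [0], [1, 2]), (1, [], [0, 3])]),
  (96, 0, 0, [(0, [0], [1, 3]), (1, [], [0, 2])]),
  (96, 0, 0, [(0, [0], [2, 3]), (1, [], [0, 1])])]

def z64_0 : Cov := []

def w64_0 : List (List Wit) := [[(0, 0, 0, 0, 0), (0, 0, 0, 0, 0), (1, 0, 0, 0, 0), (1, 0, 0, 0, 0), (2, 0, 0, 0, 0), (2, 0, 0, 0, 0), (0, 0, 0, 0, 0), (0, 0, 0, 0, 0), (3, 0, 0, 0, 0), (3, 0, 0, 0, 0), (4, 0, 0, 0, 0), (4, 0, 0, 0, 0), (1, 0, 0, 0, 0), (1, 0, 0, 0, 0), (3, 0, 0, 0, 0), (3, 0, 0, 0, 0), (5, 0, 0, 0, 0), (5, 0, 0, 0, 0), (2, 0, 0, 0, 0), (2, 0, 0, 0, 0), (4, 0, 0, 0, 0), (4, 0, 0, 0, 0), (5, 0, 0, 0, 0), (5, 0, 0, 0, 0)]]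

theorem tr64 : trK keys lk64 kl64 = true := by
  decide +kernel

theorem x64_0 : expB 1 4 dg0 dg4 m64_0 (l64_0 ++ z64_0) w64_0 = true := by
  decide +kernel

theorem t64_0_0 : chkS lk64 1 4 [(1, m64_0)] l64_0
  [(0, 0, 0, 12816, 12816), (1, 0, 0, 12816, 12816), (1, 0, 0, 8976, 8976), (1, 0, 0, 12801, 12801), (1, 0, 0, 8961, 8961), (2, 0, 0, 12816, 12816)]
  [(0, 96), (1, 384), (2, 96)] = true := by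
  decide +kernel

section

variable {κ ι : Type*} [Fintype κ] [Fintype ι] [Inhabited κ] [Inhabited ι]

noncomputable def F64_0 (E : Env κ ι) : (Fin 1 → κ) → (Fin 4 → ι) → ℝ := op2 (P0 κ) (P4 ι) (fB E 1 4 m64_0)

def r64_0_0 : List (ℕ × ℤ) := [(0, 96), (1, 384), (2, 96)]

theorem h64_0_0 (E : Env κ ι) : ip (F64_0 E) (F64_0 E) = dotS (ek E lk64) r64_0_0 :=
  op_entryZ E lk64 1 4 _ _ _ _ (pg0 κ) (pg4 ι) m64_0 m64_0 l64_0 z64_0 w64_0 x64_0 (by decide) _ (chkS_sound E lk64 1 4 _ _ _ _ t64_0_0)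

theorem row64_0 (E : Env κ ι) : RowG (ek E lk64) (F64_0 E) [F64_0 E] [r64_0_0] :=
  rowG_cons _ _ _ _ _ _ (h64_0_0 E) (rowG_nil _ _)

def tab64 : List (List (List (ℕ × ℤ))) := [[r64_0_0]]

theorem tri64 (E : Env κ ι) : TriG (ek E lk64) [F64_0 E] tab64 := by
  refine triG_cons _ _ _ _ _ (row64_0 E) ?_
  exact triG_nil _

end

def lk65 : List Key := [
  (1, 4, [(0, [0], [0, 1]), (0, [0], [0, 1]), (1, [], [2, 3]), (1, [], [2, 3])]),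
  (1, 4, [(0, [0], [0, 1]), (0, [0], [0, 2]), (1, [], [2, 3]), (1, [], [1, 3])]),
  (1, 4, [(0, [0], [0, 1]), (0, [0], [2, 3]), (1, [], [2, 3]), (1, [], [0, 1])])]

def kl65 : List ℕ := [1, 3, 7]

def m65_0 : Base := (0, 0, [(0, [0], [0, 1]), (1, [], [2, 3])])

def l65_0 : Cov := [(24, 0, 0, [(0, [0], [0, 1]), (1, [], [2, 3])]),
  (24, 0, 0, [(0, [0], [0, 2]), (1, [], [1, 3])]),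
  (-24, 0, 0, [(0, [0], [1, 3]), (1, [], [2, 0])]),
  (-24, 0, 0, [(0, [0], [2, 3]), (1, [], [1, 0])])]

def z65_0 : Cov := [(0, 0, 0, [(0, [0], [0, 3]), (1, [], [1, 2])]),
  (0, 0, 0, [(0, [0], [1, 2]), (1, [], [0, 3])])]

def w65_0 : List (List Wit) := [[(0, 0, 0, 0, 0), (0, 0, 0, 0, 0), (1, 0, 0, 0, 0), (1, 0, 0, 0, 0), (4, 0, 0, 0, 0), (4, 0, 0, 0, 0), (0, 0, 0, 0, 0), (5, 0, 0, 0, 0), (5, 0, 0, 0, 0), (2, 0, 0, 0, 0), (1, 0, 0, 0, 0), (5, 0, 0, 0, 0), (5, 0, 0, 0, 0), (3, 0, 0, 0, 0), (4, 0, 0, 0, 0), (4, 0, 0, 0, 0), (2, 0, 0, 0, 0), (2, 0, 0, 0, 0), (3, 0, 0, 0, 0), (3, 0, 0, 0, 0)]]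

theorem tr65 : trK keys lk65 kl65 = true := by
  decide +kernel

theorem x65_0 : expB 1 4 dg0 dg5 m65_0 (l65_0 ++ z65_0) w65_0 = true := by
  decide +kernel

theorem t65_0_0 : chkS lk65 1 4 [(1, m65_0)] l65_0
  [(0, 0, 0, 12816, 12816), (1, 0, 0, 12816, 12816), (1, 0, 0, 8961, 8961), (2, 0, 0, 12816, 12816)]
  [(0, 24), (2, -24)] = true := by
  decide +kernel

section

variable {κ ι : Type*} [Fintype κ] [Fintype ι] [Inhabited κ] [Inhabited ι]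

noncomputable def F65_0 (E : Env κ ι) : (Fin 1 → κ) → (Fin 4 → ι) → ℝ := op2 (P0 κ) (P5 ι) (fB E 1 4 m65_0)

def r65_0_0 : List (ℕ × ℤ) := [(0, 24), (2, -24)]

theorem h65_0_0 (E : Env κ ι) : ip (F65_0 E) (F65_0 E) = dotS (ek E lk65) r65_0_0 :=
  op_entryZ E lk65 1 4 _ _ _ _ (pg0 κ) (pg5 ι) m65_0 m65_0 l65_0 z65_0 w65_0 x65_0 (by decide) _ (chkS_sound E lk65 1 4 _ _ _ _ t65_0_0)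

theorem row65_0 (E : Env κ ι) : RowG (ek E lk65) (F65_0 E) [F65_0 E] [r65_0_0] :=
  rowG_cons _ _ _ _ _ _ (h65_0_0 E) (rowG_nil _ _)

def tab65 : List (List (List (ℕ × ℤ))) := [[r65_0_0]]

theorem tri65 (E : Env κ ι) : TriG (ek E lk65) [F65_0 E] tab65 := by
  refine triG_cons _ _ _ _ _ (row65_0 E) ?_
  exact triG_nil _

end

def lk66 : List Key := [
  (1, 4, [(0, [0], [0, 1]), (0, [0], [0, 1]), (1, [], [2, 3]), (1, [], [2, 3])]),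
  (1, 4, [(0, [0], [0, 1]), (0, [0], [0, 2]), (1, [], [2, 3]), (1, [], [1, 3])]),
  (1, 4, [(0, [0], [0, 1]), (0, [0], [2, 3]), (1, [], [2, 3]), (1, [], [0, 1])])]

def kl66 : List ℕ := [1, 3, 7]

def m66_0 : Base := (0, 0, [(0, [0], [0, 1]), (1, [], [2, 3])])

def l66_0 : Cov := [(48, 0, 0, [(0, [0], [0, 1]), (1, [], [2, 3])]),
  (-48, 0, 0, [(0, [0], [0, 3]), (1, [], [1, 2])]),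
  (-48, 0, 0, [(0, [0], [1, 2]), (1, [], [0, 3])]),
  (48, 0, 0, [(0, [0], [2, 3]), (1, [], [0, 1])])]

def z66_0 : Cov := [(0, 0, 0, [(0, [0], [0, 2]), (1, [], [1, 3])]),
  (0, 0, 0, [(0, [0], [1, 3]), (1, [], [0, 2])])]

def w66_0 : List (List Wit) := [[(0, 0, 0, 0, 0), (0, 0, 0, 0, 0), (4, 0, 0, 0, 0), (4, 0, 0, 0, 0), (1, 0, 0, 0, 0), (1, 0, 0, 0, 0), (0, 0, 0, 0, 0), (0, 0, 0, 0, 0), (2, 0, 0, 0, 0), (2, 0, 0, 0, 0), (5, 0, 0, 0, 0), (5, 0, 0, 0, 0), (4, 0, 0, 0, 0), (4, 0, 0, 0, 0), (2, 0, 0, 0, 0), (2, 0, 0, 0, 0), (3, 0, 0, 0, 0), (3, 0, 0, 0, 0), (1, 0, 0, 0, 0), (1, 0, 0, 0, 0), (5, 0, 0, 0, 0), (5, 0, 0, 0, 0), (3, 0, 0, 0, 0), (3, 0, 0, 0, 0)]]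

theorem tr66 : trK keys lk66 kl66 = true := by
  decide +kernel

theorem x66_0 : expB 1 4 dg0 dg6 m66_0 (l66_0 ++ z66_0) w66_0 = true := by
  decide +kernel

theorem t66_0_0 : chkS lk66 1 4 [(1, m66_0)] l66_0
  [(0, 0, 0, 12816, 12816), (1, 0, 0, 8976, 8976), (1, 0, 0, 12801, 12801), (2, 0, 0, 12816, 12816)]
  [(0, 48), (1, -96), (2, 48)] = true := by
  decide +kernel

section

variable {κ ι : Type*} [Fintype κ] [Fintype ι] [Inhabited κ] [Inhabited ι]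

noncomputable def F66_0 (E : Env κ ι) : (Fin 1 → κ) → (Fin 4 → ι) → ℝ := op2 (P0 κ) (P6 ι) (fB E 1 4 m66_0)

def r66_0_0 : List (ℕ × ℤ) := [(0, 48), (1, -96), (2, 48)]

theorem h66_0_0 (E : Env κ ι) : ip (F66_0 E) (F66_0 E) = dotS (ek E lk66) r66_0_0 :=
  op_entryZ E lk66 1 4 _ _ _ _ (pg0 κ) (pg6 ι) m66_0 m66_0 l66_0 z66_0 w66_0 x66_0 (by decide) _ (chkS_sound E lk66 1 4 _ _ _ _ t66_0_0)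

theorem row66_0 (E : Env κ ι) : RowG (ek E lk66) (F66_0 E) [F66_0 E] [r66_0_0] :=
  rowG_cons _ _ _ _ _ _ (h66_0_0 E) (rowG_nil _ _)

def tab66 : List (List (List (ℕ × ℤ))) := [[r66_0_0]]

theorem tri66 (E : Env κ ι) : TriG (ek E lk66) [F66_0 E] tab66 := by
  refine triG_cons _ _ _ _ _ (row66_0 E) ?_
  exact triG_nil _

end

def lk67 : List Key := [
  (2, 4, [(0, [0], [0, 1]), (0, [0], [0, 1]), (0, [1], [2, 3]), (0, [1], [2, 3])])]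

def kl67 : List ℕ := [8]

def m67_0 : Base := (1, 2, [(0, [0], [0, 1]), (0, [0], [0, 1])])

def l67_0 : Cov := [(1, 1, 2, [(0, [0], [0, 1]), (0, [0], [0, 1])])]

def z67_0 : Cov := []

def w67_0 : List (List Wit) := [[(0, 0, 0, 16, 16)]]

theorem tr67 : trK keys lk67 kl67 = true := by
  decide +kernel

theorem x67_0 : expB 0 0 dg1 dg1 m67_0 (l67_0 ++ z67_0) w67_0 = true := by
  decide +kernel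

theorem t67_0_0 : chkS lk67 0 0 [(1, m67_0)] l67_0
  [(0, 16, 16, 12816, 12816)]
  [(0, 1)] = true := by
  decide +kernel

section

variable {κ ι : Type*} [Fintype κ] [Fintype ι] [Inhabited κ] [Inhabited ι]

noncomputable def F67_0 (E : Env κ ι) : (Fin 0 → κ) → (Fin 0 → ι) → ℝ := op2 (P1 κ) (P1 ι) (fB E 0 0 m67_0)

def r67_0_0 : List (ℕ × ℤ) := [(0, 1)]

theorem h67_0_0 (E : Env κ ι) : ip (F67_0 E) (F67_0 E) = dotS (ek E lk67) r67_0_0 :=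
  op_entryZ E lk67 0 0 _ _ _ _ (pg1 κ) (pg1 ι) m67_0 m67_0 l67_0 z67_0 w67_0 x67_0 (by decide) _ (chkS_sound E lk67 0 0 _ _ _ _ t67_0_0)

theorem row67_0 (E : Env κ ι) : RowG (ek E lk67) (F67_0 E) [F67_0 E] [r67_0_0] :=
  rowG_cons _ _ _ _ _ _ (h67_0_0 E) (rowG_nil _ _)

def tab67 : List (List (List (ℕ × ℤ))) := [[r67_0_0]]

theorem tri67 (E : Env κ ι) : TriG (ek E lk67) [F67_0 E] tab67 := by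
  refine triG_cons _ _ _ _ _ (row67_0 E) ?_
  exact triG_nil _

end

def lk68 : List Key := [
  (2, 4, [(0, [0], [0, 1]), (0, [1], [2, 3]), (0, [1], [0, 2]), (0, [0], [1, 3])])]

def kl68 : List ℕ := [5]

def m68_0 : Base := (1, 1, [(0, [0], [0, 2]), (0, [0], [1, 2])])

def l68_0 : Cov := [(4, 1, 1, [(0, [0], [0, 2]), (0, [0], [1, 2])])]

def z68_0 : Cov := []

def w68_0 : List (List Wit) := [[(0, 0, 0, 0, 0), (0, 0, 0, 0, 0)]]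

theorem tr68 : trK keys lk68 kl68 = true := by
  decide +kernel

theorem x68_0 : expB 0 2 dg1 dg2 m68_0 (l68_0 ++ z68_0) w68_0 = true := by
  decide +kernel

theorem t68_0_0 : chkS lk68 0 2 [(1, m68_0)] l68_0
  [(0, 16, 16, 8496, 4896)]
  [(0, 4)] = true := by
  decide +kernel

section

variable {κ ι : Type*} [Fintype κ] [Fintype ι] [Inhabited κ] [Inhabited ι]

noncomputable def F68_0 (E : Env κ ι) : (Fin 0 → κ) → (Fin 2 → ι) → ℝ := op2 (P1 κ) (P2 ι) (fB E 0 2 m68_0)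

def r68_0_0 : List (ℕ × ℤ) := [(0, 4)]

theorem h68_0_0 (E : Env κ ι) : ip (F68_0 E) (F68_0 E) = dotS (ek E lk68) r68_0_0 :=
  op_entryZ E lk68 0 2 _ _ _ _ (pg1 κ) (pg2 ι) m68_0 m68_0 l68_0 z68_0 w68_0 x68_0 (by decide) _ (chkS_sound E lk68 0 2 _ _ _ _ t68_0_0)

theorem row68_0 (E : Env κ ι) : RowG (ek E lk68) (F68_0 E) [F68_0 E] [r68_0_0] :=
  rowG_cons _ _ _ _ _ _ (h68_0_0 E) (rowG_nil _ _)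

def tab68 : List (List (List (ℕ × ℤ))) := [[r68_0_0]]

theorem tri68 (E : Env κ ι) : TriG (ek E lk68) [F68_0 E] tab68 := by
  refine triG_cons _ _ _ _ _ (row68_0 E) ?_
  exact triG_nil _

end

def lk69 : List Key := [
  (2, 4, [(0, [0], [0, 1]), (0, [1], [2, 3]), (0, [0], [2, 3]), (0, [1], [0, 1])]),
  (2, 4, [(0, [0], [0, 1]), (0, [0], [2, 3]), (0, [1], [0, 2]), (0, [1], [1, 3])])]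

def kl69 : List ℕ := [2, 6]

def m69_0 : Base := (1, 0, [(0, [0], [0, 1]), (0, [0], [2, 3])])

def l69_0 : Cov := [(192, 1, 0, [(0, [0], [0, 1]), (0, [0], [2, 3])]),
  (192, 1, 0, [(0, [0], [0, 2]), (0, [0], [1, 3])]),
  (192, 1, 0, [(0, [0], [0, 3]), (0, [0], [1, 2])])]

def z69_0 : Cov := []

def w69_0 : List (List Wit) := [[(0, 0, 0, 0, 0), (0, 0, 0, 0, 0), (1, 0, 0, 0, 0), (1, 0, 0, 0, 0), (2, 0, 0, 0, 0), (2, 0, 0, 0, 0), (0, 0, 0, 0, 0), (0, 0, 0, 0, 0), (2, 0, 0, 0, 0), (2, 0, 0, 0, 0), (1, 0, 0, 0, 0), (1, 0, 0, 0, 0), (1, 0, 0, 0, 0), (1, 0, 0, 0, 0), (2, 0, 0, 0, 0), (2, 0, 0, 0, 0), (0, 0, 0, 0, 0), (0, 0, 0, 0, 0), (2, 0, 0, 0, 0), (2, 0, 0, 0, 0), (1, 0, 0, 0, 0), (1, 0, 0, 0, 0), (0, 0, 0, 0, 0), (0, 0, 0, 0, 0)]]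

theorem tr69 : trK keys lk69 kl69 = true := by
  decide +kernel

theorem x69_0 : expB 0 4 dg1 dg4 m69_0 (l69_0 ++ z69_0) w69_0 = true := by
  decide +kernel

theorem t69_0_0 : chkS lk69 0 4 [(1, m69_0)] l69_0
  [(0, 16, 16, 12816, 12816), (1, 16, 16, 12816, 12816), (1, 16, 16, 8976, 8976)]
  [(0, 192), (1, 384)] = true := by
  decide +kernel

section

variable {κ ι : Type*} [Fintype κ] [Fintype ι] [Inhabited κ] [Inhabited ι]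

noncomputable def F69_0 (E : Env κ ι) : (Fin 0 → κ) → (Fin 4 → ι) → ℝ := op2 (P1 κ) (P4 ι) (fB E 0 4 m69_0)

def r69_0_0 : List (ℕ × ℤ) := [(0, 192), (1, 384)]

theorem h69_0_0 (E : Env κ ι) : ip (F69_0 E) (F69_0 E) = dotS (ek E lk69) r69_0_0 :=
  op_entryZ E lk69 0 4 _ _ _ _ (pg1 κ) (pg4 ι) m69_0 m69_0 l69_0 z69_0 w69_0 x69_0 (by decide) _ (chkS_sound E lk69 0 4 _ _ _ _ t69_0_0)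

theorem row69_0 (E : Env κ ι) : RowG (ek E lk69) (F69_0 E) [F69_0 E] [r69_0_0] :=
  rowG_cons _ _ _ _ _ _ (h69_0_0 E) (rowG_nil _ _)

def tab69 : List (List (List (ℕ × ℤ))) := [[r69_0_0]]

theorem tri69 (E : Env κ ι) : TriG (ek E lk69) [F69_0 E] tab69 := by
  refine triG_cons _ _ _ _ _ (row69_0 E) ?_
  exact triG_nil _

end

def lk70 : List Key := [
  (2, 4, [(0, [0], [0, 1]), (0, [1], [2, 3]), (0, [0], [2, 3]), (0, [1], [0, 1])]),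
  (2, 4, [(0, [0], [0, 1]), (0, [0], [2, 3]), (0, [1], [0, 2]), (0, [1], [1, 3])])]

def kl70 : List ℕ := [2, 6]

def m70_0 : Base := (1, 0, [(0, [0], [0, 1]), (0, [0], [2, 3])])

def l70_0 : Cov := [(96, 1, 0, [(0, [0], [0, 1]), (0, [0], [2, 3])]),
  (-96, 1, 0, [(0, [0], [0, 3]), (0, [0], [1, 2])])]

def z70_0 : Cov := [(0, 1, 0, [(0, [0], [0, 2]), (0, [0], [1, 3])])]

def w70_0 : List (List Wit) := [[(0, 0, 0, 0, 0), (0, 0, 0, 0, 0), (2, 0, 0, 0, 0), (2, 0, 0, 0, 0), (1, 0, 0, 0, 0), (1, 0, 0, 0, 0), (0, 0, 0, 0, 0), (0, 0, 0, 0, 0), (1, 0, 0, 0, 0), (1, 0, 0, 0, 0), (2, 0, 0, 0, 0), (2, 0, 0, 0, 0), (2, 0, 0, 0, 0), (2, 0, 0, 0, 0), (1, 0, 0, 0, 0), (1, 0, 0, 0, 0), (0, 0, 0, 0, 0), (0, 0, 0, 0, 0), (1, 0, 0, 0, 0), (1, 0, 0, 0, 0), (2, 0, 0, 0, 0),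 (2, 0, 0, 0, 0), (0, 0, 0, 0, 0), (0, 0, 0, 0, 0)]]

theorem tr70 : trK keys lk70 kl70 = true := by
  decide +kernel

theorem x70_0 : expB 0 4 dg1 dg6 m70_0 (l70_0 ++ z70_0) w70_0 = true := by
  decide +kernel

theorem t70_0_0 : chkS lk70 0 4 [(1, m70_0)] l70_0
  [(0, 16, 16, 12816, 12816), (1, 16, 16, 8976, 8976)]
  [(0, 96), (1, -96)] = true := by
  decide +kernel

section

variable {κ ι : Type*} [Fintype κ] [Fintype ι] [Inhabited κ] [Inhabited ι]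

noncomputable def F70_0 (E : Env κ ι) : (Fin 0 → κ) → (Fin 4 → ι) → ℝ := op2 (P1 κ) (P6 ι) (fB E 0 4 m70_0)

def r70_0_0 : List (ℕ × ℤ) := [(0, 96), (1, -96)]

theorem h70_0_0 (E : Env κ ι) : ip (F70_0 E) (F70_0 E) = dotS (ek E lk70) r70_0_0 :=
  op_entryZ E lk70 0 4 _ _ _ _ (pg1 κ) (pg6 ι) m70_0 m70_0 l70_0 z70_0 w70_0 x70_0 (by decide) _ (chkS_sound E lk70 0 4 _ _ _ _ t70_0_0)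

theorem row70_0 (E : Env κ ι) : RowG (ek E lk70) (F70_0 E) [F70_0 E] [r70_0_0] :=
  rowG_cons _ _ _ _ _ _ (h70_0_0 E) (rowG_nil _ _)

def tab70 : List (List (List (ℕ × ℤ))) := [[r70_0_0]]

theorem tri70 (E : Env κ ι) : TriG (ek E lk70) [F70_0 E] tab70 := by
  refine triG_cons _ _ _ _ _ (row70_0 E) ?_
  exact triG_nil _

end

def lk71 : List Key := [
  (2, 4, [(0, [0], [0, 1]), (0, [1], [2, 3]), (0, [0], [2, 3]), (0, [1], [0, 1])])]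

def kl71 : List ℕ := [2]

def m71_0 : Base := (0, 2, [(0, [0], [0, 1]), (0, [1], [0, 1])])

def l71_0 : Cov := [(4, 0, 2, [(0, [0], [0, 1]), (0, [1], [0, 1])])]

def z71_0 : Cov := []

def w71_0 : List (List Wit) := [[(0, 0, 0, 16, 16)],
  [(0, 0, 0, 16, 16)]]

theorem tr71 : trK keys lk71 kl71 = true := by
  decide +kernel

theorem x71_0 : expB 2 0 dg2 dg1 m71_0 (l71_0 ++ z71_0) w71_0 = true := by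
  decide +kernel

theorem t71_0_0 : chkS lk71 2 0 [(1, m71_0)] l71_0
  [(0, 16, 16, 12816, 12816)]
  [(0, 4)] = true := by
  decide +kernel

section

variable {κ ι : Type*} [Fintype κ] [Fintype ι] [Inhabited κ] [Inhabited ι]

noncomputable def F71_0 (E : Env κ ι) : (Fin 2 → κ) → (Fin 0 → ι) → ℝ := op2 (P2 κ) (P1 ι) (fB E 2 0 m71_0)

def r71_0_0 : List (ℕ × ℤ) := [(0, 4)]

theorem h71_0_0 (E : Env κ ι) : ip (F71_0 E) (F71_0 E) = dotS (ek E lk71) r71_0_0 :=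
  op_entryZ E lk71 2 0 _ _ _ _ (pg2 κ) (pg1 ι) m71_0 m71_0 l71_0 z71_0 w71_0 x71_0 (by decide) _ (chkS_sound E lk71 2 0 _ _ _ _ t71_0_0)

theorem row71_0 (E : Env κ ι) : RowG (ek E lk71) (F71_0 E) [F71_0 E] [r71_0_0] :=
  rowG_cons _ _ _ _ _ _ (h71_0_0 E) (rowG_nil _ _)

def tab71 : List (List (List (ℕ × ℤ))) := [[r71_0_0]]

theorem tri71 (E : Env κ ι) : TriG (ek E lk71) [F71_0 E] tab71 := by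
  refine triG_cons _ _ _ _ _ (row71_0 E) ?_
  exact triG_nil _

end

def lk72 : List Key := [
  (2, 4, [(0, [0], [0, 1]), (0, [1], [2, 3]), (0, [1], [0, 2]), (0, [0], [1, 3])]),
  (2, 4, [(0, [0], [0, 1]), (0, [0], [2, 3]), (0, [1], [0, 2]), (0, [1], [1, 3])])]

def kl72 : List ℕ := [5, 6]

def m72_0 : Base := (0, 1, [(0, [0], [0, 2]), (0, [1], [1, 2])])

def l72_0 : Cov := [(8, 0, 1, [(0, [0], [0, 2]), (0, [1], [1, 2])]),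
  (8, 0, 1, [(0, [0], [1, 2]), (0, [1], [0, 2])])]

def z72_0 : Cov := []

def w72_0 : List (List Wit) := [[(0, 0, 0, 0, 0), (1, 0, 0, 0, 0)],
  [(1, 0, 0, 0, 0), (0, 0, 0, 0, 0)]]

theorem tr72 : trK keys lk72 kl72 = true := by
  decide +kernel

theorem x72_0 : expB 2 2 dg2 dg2 m72_0 (l72_0 ++ z72_0) w72_0 = true := by
  decide +kernel

theorem t72_0_0 : chkS lk72 2 2 [(1, m72_0)] l72_0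
  [(0, 16, 16, 12321, 12546), (1, 16, 16, 8496, 4896)]
  [(0, 8), (1, 8)] = true := by
  decide +kernel

section

variable {κ ι : Type*} [Fintype κ] [Fintype ι] [Inhabited κ] [Inhabited ι]

noncomputable def F72_0 (E : Env κ ι) : (Fin 2 → κ) → (Fin 2 → ι) → ℝ := op2 (P2 κ) (P2 ι) (fB E 2 2 m72_0)

def r72_0_0 : List (ℕ × ℤ) := [(0, 8), (1, 8)]

theorem h72_0_0 (E : Env κ ι) : ip (F72_0 E) (F72_0 E) = dotS (ek E lk72) r72_0_0 :=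
  op_entryZ E lk72 2 2 _ _ _ _ (pg2 κ) (pg2 ι) m72_0 m72_0 l72_0 z72_0 w72_0 x72_0 (by decide) _ (chkS_sound E lk72 2 2 _ _ _ _ t72_0_0)

theorem row72_0 (E : Env κ ι) : RowG (ek E lk72) (F72_0 E) [F72_0 E] [r72_0_0] :=
  rowG_cons _ _ _ _ _ _ (h72_0_0 E) (rowG_nil _ _)

def tab72 : List (List (List (ℕ × ℤ))) := [[r72_0_0]]

theorem tri72 (E : Env κ ι) : TriG (ek E lk72) [F72_0 E] tab72 := by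
  refine triG_cons _ _ _ _ _ (row72_0 E) ?_
  exact triG_nil _

end

def lk73 : List Key := [
  (2, 4, [(0, [0], [0, 1]), (0, [1], [2, 3]), (0, [1], [0, 2]), (0, [0], [1, 3])]),
  (2, 4, [(0, [0], [0, 1]), (0, [0], [2, 3]), (0, [1], [0, 2]), (0, [1], [1, 3])])]

def kl73 : List ℕ := [5, 6]

def m73_0 : Base := (0, 1, [(0, [0], [0, 2]), (0, [1], [1, 2])])

def l73_0 : Cov := [(8, 0, 1, [(0, [0], [0, 2]), (0, [1], [1, 2])]),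
  (-8, 0, 1, [(0, [0], [1, 2]), (0, [1], [0, 2])])]

def z73_0 : Cov := []

def w73_0 : List (List Wit) := [[(0, 0, 0, 0, 0), (1, 0, 0, 0, 0)],
  [(1, 0, 0, 0, 0), (0, 0, 0, 0, 0)]]

theorem tr73 : trK keys lk73 kl73 = true := by
  decide +kernel

theorem x73_0 : expB 2 2 dg3 dg3 m73_0 (l73_0 ++ z73_0) w73_0 = true := by
  decide +kernel

theorem t73_0_0 : chkS lk73 2 2 [(1, m73_0)] l73_0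
  [(0, 16, 16, 12321, 12546), (1, 16, 16, 8496, 4896)]
  [(0, 8), (1, -8)] = true := by
  decide +kernel

section

variable {κ ι : Type*} [Fintype κ] [Fintype ι] [Inhabited κ] [Inhabited ι]

noncomputable def F73_0 (E : Env κ ι) : (Fin 2 → κ) → (Fin 2 → ι) → ℝ := op2 (P3 κ) (P3 ι) (fB E 2 2 m73_0)

def r73_0_0 : List (ℕ × ℤ) := [(0, 8), (1, -8)]

theorem h73_0_0 (E : Env κ ι) : ip (F73_0 E) (F73_0 E) = dotS (ek E lk73) r73_0_0 :=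
  op_entryZ E lk73 2 2 _ _ _ _ (pg3 κ) (pg3 ι) m73_0 m73_0 l73_0 z73_0 w73_0 x73_0 (by decide) _ (chkS_sound E lk73 2 2 _ _ _ _ t73_0_0)

theorem row73_0 (E : Env κ ι) : RowG (ek E lk73) (F73_0 E) [F73_0 E] [r73_0_0] :=
  rowG_cons _ _ _ _ _ _ (h73_0_0 E) (rowG_nil _ _)

def tab73 : List (List (List (ℕ × ℤ))) := [[r73_0_0]]

theorem tri73 (E : Env κ ι) : TriG (ek E lk73) [F73_0 E] tab73 := by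
  refine triG_cons _ _ _ _ _ (row73_0 E) ?_
  exact triG_nil _

end

def lk74 : List Key := [
  (2, 4, [(0, [0], [0, 1]), (0, [1], [2, 3]), (0, [0], [2, 3]), (0, [1], [0, 1])]),
  (2, 4, [(0, [0], [0, 1]), (0, [1], [2, 3]), (0, [1], [0, 2]), (0, [0], [1, 3])]),
  (2, 4, [(0, [0], [0, 1]), (0, [0], [0, 1]), (0, [1], [2, 3]), (0, [1], [2, 3])])]

def kl74 : List ℕ := [2, 5, 8]

def m74_0 : Base := (0, 0, [(0, [0], [0, 1]), (0, [1], [2, 3])])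

def l74_0 : Cov := [(384, 0, 0, [(0, [0], [0, 1]), (0, [1], [2, 3])]),
  (384, 0, 0, [(0, [0], [0, 2]), (0, [1], [1, 3])]),
  (384, 0, 0, [(0, [0], [0, 3]), (0, [1], [1, 2])]),
  (384, 0, 0, [(0, [0], [1, 2]), (0, [1], [0, 3])]),
  (384, 0, 0, [(0, [0], [1, 3]), (0, [1], [0, 2])]),
  (384, 0, 0, [(0, [0], [2, 3]), (0, [1], [0, 1])])]

def z74_0 : Cov := []

def w74_0 : List (List Wit) := [[(0, 0, 0, 0, 0), (0, 0, 0, 0, 0), (1, 0, 0, 0, 0), (1, 0, 0, 0, 0), (2, 0, 0, 0, 0), (2, 0, 0, 0, 0), (0, 0, 0, 0, 0), (0, 0, 0, 0, 0), (3, 0, 0, 0, 0), (3, 0, 0, 0, 0), (4, 0, 0, 0, 0), (4, 0, 0, 0, 0), (1, 0, 0, 0, 0), (1, 0, 0, 0, 0), (3, 0, 0, 0, 0), (3, 0, 0, 0, 0), (5, 0, 0, 0, 0), (5, 0, 0, 0, 0), (2, 0, 0, 0, 0), (2, 0, 0, 0, 0), (4, 0, 0, 0, 0), (4, 0, 0, 0,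 0), (5, 0, 0, 0, 0), (5, 0, 0, 0, 0)],
  [(5, 0, 0, 0, 0), (5, 0, 0, 0, 0), (4, 0, 0, 0, 0), (4, 0, 0, 0, 0), (3, 0, 0, 0, 0), (3, 0, 0, 0, 0), (5, 0, 0, 0, 0), (5, 0, 0, 0, 0), (2, 0, 0, 0, 0), (2, 0, 0, 0, 0), (1, 0, 0, 0, 0), (1, 0, 0, 0, 0), (4, 0, 0, 0, 0), (4, 0, 0, 0, 0), (2, 0, 0, 0, 0), (2, 0, 0, 0, 0), (0, 0, 0, 0, 0), (0, 0, 0, 0, 0), (3, 0, 0, 0, 0), (3, 0, 0, 0, 0), (1, 0, 0, 0, 0), (1, 0, 0, 0, 0), (0, 0, 0, 0, 0), (0, 0, 0, 0, 0)]]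

theorem tr74 : trK keys lk74 kl74 = true := by
  decide +kernel

theorem x74_0 : expB 2 4 dg2 dg4 m74_0 (l74_0 ++ z74_0) w74_0 = true := by
  decide +kernel

theorem t74_0_0 : chkS lk74 2 4 [(1, m74_0)] l74_0
  [(2, 16, 16, 12816, 12816), (1, 16, 16, 8961, 8961), (1, 16, 16, 12801, 12801), (1, 16, 16, 8976, 8976), (1, 16, 16, 12816, 12816), (0, 16, 16, 12816, 12816)]
  [(0, 384), (1, 1536), (2, 384)] = true := by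
  decide +kernel

section

variable {κ ι : Type*} [Fintype κ] [Fintype ι] [Inhabited κ] [Inhabited ι]

noncomputable def F74_0 (E : Env κ ι) : (Fin 2 → κ) → (Fin 4 → ι) → ℝ := op2 (P2 κ) (P4 ι) (fB E 2 4 m74_0)

def r74_0_0 : List (ℕ × ℤ) := [(0, 384), (1, 1536), (2, 384)]

theorem h74_0_0 (E : Env κ ι) : ip (F74_0 E) (F74_0 E) = dotS (ek E lk74) r74_0_0 :=
  op_entryZ E lk74 2 4 _ _ _ _ (pg2 κ) (pg4 ι) m74_0 m74_0 l74_0 z74_0 w74_0 x74_0 (by decide) _ (chkS_sound E lk74 2 4 _ _ _ _ t74_0_0)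

theorem row74_0 (E : Env κ ι) : RowG (ek E lk74) (F74_0 E) [F74_0 E] [r74_0_0] :=
  rowG_cons _ _ _ _ _ _ (h74_0_0 E) (rowG_nil _ _)

def tab74 : List (List (List (ℕ × ℤ))) := [[r74_0_0]]

theorem tri74 (E : Env κ ι) : TriG (ek E lk74) [F74_0 E] tab74 := by
  refine triG_cons _ _ _ _ _ (row74_0 E) ?_
  exact triG_nil _

end

def lk75 : List Key := [
  (2, 4, [(0, [0], [0, 1]), (0, [1], [2, 3]), (0, [0], [2, 3]), (0, [1], [0, 1])]),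
  (2, 4, [(0, [0], [0, 1]), (0, [1], [2, 3]), (0, [1], [0, 2]), (0, [0], [1, 3])]),
  (2, 4, [(0, [0], [0, 1]), (0, [0], [0, 1]), (0, [1], [2, 3]), (0, [1], [2, 3])])]

def kl75 : List ℕ := [2, 5, 8]

def m75_0 : Base := (0, 0, [(0, [0], [0, 1]), (0, [1], [2, 3])])

def l75_0 : Cov := [(96, 0, 0, [(0, [0], [0, 1]), (0, [1], [2, 3])]),
  (96, 0, 0, [(0, [0], [0, 2]), (0, [1], [1, 3])]),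
  (-96, 0, 0, [(0, [0], [1, 3]), (0, [1], [2, 0])]),
  (-96, 0, 0, [(0, [0], [2, 3]), (0, [1], [1, 0])])]

def z75_0 : Cov := [(0, 0, 0, [(0, [0], [0, 3]), (0, [1], [1, 2])]),
  (0, 0, 0, [(0, [0], [1, 2]), (0, [1], [0, 3])])]

def w75_0 : List (List Wit) := [[(0, 0, 0, 0, 0), (0, 0, 0, 0, 0), (1, 0, 0, 0, 0), (1, 0, 0, 0, 0), (4, 0, 0, 0, 0), (4, 0, 0, 0, 0), (0, 0, 0, 0, 0), (5, 0, 0, 0, 0), (5, 0, 0, 0, 0), (2, 0, 0, 0, 0), (1, 0, 0, 0, 0), (5, 0, 0, 0, 0), (5, 0, 0, 0, 0), (3, 0, 0, 0, 0), (4, 0, 0, 0, 0), (4, 0, 0, 0, 0), (2, 0, 0, 0, 0), (2, 0, 0, 0, 0), (3, 0, 0, 0, 0), (3, 0, 0, 0, 0)],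
  [(3, 0, 0, 0, 0), (3, 0, 0, 0, 0), (2, 0, 0, 0, 0), (2, 0, 0, 0, 0), (5, 0, 0, 0, 0), (5, 0, 0, 0, 0), (3, 0, 0, 0, 0), (4, 0, 0, 0, 0), (4, 0, 0, 0, 0), (1, 0, 0, 0, 0), (2, 0, 0, 0, 0), (4, 0, 0, 0, 0), (4, 0, 0, 0, 0), (0, 0, 0, 0, 0), (5, 0, 0, 0, 0), (5, 0, 0, 0, 0), (1, 0, 0, 0, 0), (1, 0, 0, 0, 0), (0, 0, 0, 0, 0), (0, 0, 0, 0, 0)]]

theorem tr75 : trK keys lk75 kl75 = true := by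
  decide +kernel

theorem x75_0 : expB 2 4 dg3 dg5 m75_0 (l75_0 ++ z75_0) w75_0 = true := by
  decide +kernel

theorem t75_0_0 : chkS lk75 2 4 [(1, m75_0)] l75_0
  [(2, 16, 16, 12816, 12816), (1, 16, 16, 8961, 8961), (1, 16, 16, 12816, 12816), (0, 16, 16, 12816, 12816)]
  [(0, -96), (2, 96)] = true := by
  decide +kernel

section

variable {κ ι : Type*} [Fintype κ] [Fintype ι] [Inhabited κ] [Inhabited ι]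

noncomputable def F75_0 (E : Env κ ι) : (Fin 2 → κ) → (Fin 4 → ι) → ℝ := op2 (P3 κ) (P5 ι) (fB E 2 4 m75_0)

def r75_0_0 : List (ℕ × ℤ) := [(0, -96), (2, 96)]

theorem h75_0_0 (E : Env κ ι) : ip (F75_0 E) (F75_0 E) = dotS (ek E lk75) r75_0_0 :=
  op_entryZ E lk75 2 4 _ _ _ _ (pg3 κ) (pg5 ι) m75_0 m75_0 l75_0 z75_0 w75_0 x75_0 (by decide) _ (chkS_sound E lk75 2 4 _ _ _ _ t75_0_0)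

theorem row75_0 (E : Env κ ι) : RowG (ek E lk75) (F75_0 E) [F75_0 E] [r75_0_0] :=
  rowG_cons _ _ _ _ _ _ (h75_0_0 E) (rowG_nil _ _)

def tab75 : List (List (List (ℕ × ℤ))) := [[r75_0_0]]

theorem tri75 (E : Env κ ι) : TriG (ek E lk75) [F75_0 E] tab75 := by
  refine triG_cons _ _ _ _ _ (row75_0 E) ?_
  exact triG_nil _

end

def lk76 : List Key := [
  (2, 4, [(0, [0], [0, 1]), (0, [1], [2, 3]), (0, [0], [2, 3]), (0, [1], [0, 1])]),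
  (2, 4, [(0, [0], [0, 1]), (0, [1], [2, 3]), (0, [1], [0, 2]), (0, [0], [1, 3])]),
  (2, 4, [(0, [0], [0, 1]), (0, [0], [0, 1]), (0, [1], [2, 3]), (0, [1], [2, 3])])]

def kl76 : List ℕ := [2, 5, 8]

def m76_0 : Base := (0, 0, [(0, [0], [0, 1]), (0, [1], [2, 3])])

def l76_0 : Cov := [(192, 0, 0, [(0, [0], [0, 1]), (0, [1], [2, 3])]),
  (-192, 0, 0, [(0, [0], [0, 3]), (0, [1], [1, 2])]),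
  (-192, 0, 0, [(0, [0], [1, 2]), (0, [1], [0, 3])]),
  (192, 0, 0, [(0, [0], [2, 3]), (0, [1], [0, 1])])]

def z76_0 : Cov := [(0, 0, 0, [(0, [0], [0, 2]), (0, [1], [1, 3])]),
  (0, 0, 0, [(0, [0], [1, 3]), (0, [1], [0, 2])])]

def w76_0 : List (List Wit) := [[(0, 0, 0, 0, 0), (0, 0, 0, 0, 0), (4, 0, 0, 0, 0), (4, 0, 0, 0, 0), (1, 0, 0, 0, 0), (1, 0, 0, 0, 0), (0, 0, 0, 0, 0), (0, 0, 0, 0, 0), (2, 0, 0, 0, 0), (2, 0, 0, 0, 0), (5, 0, 0, 0, 0), (5, 0, 0, 0, 0), (4, 0, 0, 0, 0), (4, 0, 0, 0, 0), (2, 0, 0, 0, 0), (2, 0, 0, 0, 0), (3, 0, 0, 0, 0), (3, 0, 0, 0, 0), (1, 0, 0, 0, 0), (1, 0, 0, 0, 0), (5, 0, 0, 0, 0), (5, 0, 0, 0, 0), (3, 0, 0, 0, 0), (3, 0, 0, 0, 0)],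
  [(3, 0, 0, 0, 0), (3, 0, 0, 0, 0), (5, 0, 0, 0, 0), (5, 0, 0, 0, 0), (2, 0, 0, 0, 0), (2, 0, 0, 0, 0), (3, 0, 0, 0, 0), (3, 0, 0, 0, 0), (1, 0, 0, 0, 0), (1, 0, 0, 0, 0), (4, 0, 0, 0, 0), (4, 0, 0, 0, 0), (5, 0, 0, 0, 0), (5, 0, 0, 0, 0), (1, 0, 0, 0, 0), (1, 0, 0, 0, 0), (0, 0, 0, 0, 0), (0, 0, 0, 0, 0), (2, 0, 0, 0, 0), (2, 0, 0, 0, 0), (4, 0, 0, 0, 0), (4, 0, 0, 0, 0), (0, 0, 0, 0, 0), (0, 0, 0, 0, 0)]]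

theorem tr76 : trK keys lk76 kl76 = true := by
  decide +kernel

theorem x76_0 : expB 2 4 dg2 dg6 m76_0 (l76_0 ++ z76_0) w76_0 = true := by
  decide +kernel

theorem t76_0_0 : chkS lk76 2 4 [(1, m76_0)] l76_0
  [(2, 16, 16, 12816, 12816), (1, 16, 16, 12801, 12801), (1, 16, 16, 8976, 8976), (0, 16, 16, 12816, 12816)]
  [(0, 192), (1, -384), (2, 192)] = true := by
  decide +kernel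

section

variable {κ ι : Type*} [Fintype κ] [Fintype ι] [Inhabited κ] [Inhabited ι]

noncomputable def F76_0 (E : Env κ ι) : (Fin 2 → κ) → (Fin 4 → ι) → ℝ := op2 (P2 κ) (P6 ι) (fB E 2 4 m76_0)

def r76_0_0 : List (ℕ × ℤ) := [(0, 192), (1, -384), (2, 192)]

theorem h76_0_0 (E : Env κ ι) : ip (F76_0 E) (F76_0 E) = dotS (ek E lk76) r76_0_0 :=
  op_entryZ E lk76 2 4 _ _ _ _ (pg2 κ) (pg6 ι) m76_0 m76_0 l76_0 z76_0 w76_0 x76_0 (by decide) _ (chkS_sound E lk76 2 4 _ _ _ _ t76_0_0)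

theorem row76_0 (E : Env κ ι) : RowG (ek E lk76) (F76_0 E) [F76_0 E] [r76_0_0] :=
  rowG_cons _ _ _ _ _ _ (h76_0_0 E) (rowG_nil _ _)

def tab76 : List (List (List (ℕ × ℤ))) := [[r76_0_0]]

theorem tri76 (E : Env κ ι) : TriG (ek E lk76) [F76_0 E] tab76 := by
  refine triG_cons _ _ _ _ _ (row76_0 E) ?_
  exact triG_nil _

end

end YMBR
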