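import Pool.Agent.YM.BR.Keys

set_option linter.unusedVariables false
set_option maxRecDepth 100000

open YMEng

namespace YMBR

def dg0 : List (ℤ × ℕ) := [(Int.ofNat 1, 0)]

def R0 : GA := [(Int.ofNat 1, 0, 0)]

def C0 : GA := [(Int.ofNat 1, 0, 0)]

def gs0 : List (ℤ × ℕ) := [(Int.ofNat 1, 0)]

def tl0 : List (ℕ × ℕ) := [(0, 0)]

noncomputable def P0 (X : Type*) [Inhabited X] [Fintype X] : ((Fin 1 → X) → ℝ) → (Fin 1 → X) → ℝ :=
  fun f => gaF (b := 1) R0 (gaF C0 f)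

theorem gr0 : grpC 1 2 R0 gs0 0 tl0 = true := by
  decide +kernel

theorem gy0 : yC 1 2 R0 C0 dg0 = true := by
  decide +kernel

theorem pg0 (X : Type*) [Inhabited X] [Fintype X] : IsOp X (P0 X) dg0 :=
  isOp_youngC R0 C0 gs0 0 tl0 gr0 dg0 gy0

def dg1 : List (ℤ × ℕ) := [(Int.ofNat 1, 0)]

def R1 : GA := [(Int.ofNat 1, 0, 0)]

def C1 : GA := [(Int.ofNat 1, 0, 0)]

def gs1 : List (ℤ × ℕ) := [(Int.ofNat 1, 0)]

def tl1 : List (ℕ × ℕ) := [(0, 0)]

noncomputable def P1 (X : Type*) [Inhabited X] [Fintype X] : ((Fin 0 → X) → ℝ) → (Fin 0 → X) → ℝ :=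
  fun f => gaF (b := 0) R1 (gaF C1 f)

theorem gr1 : grpC 0 2 R1 gs1 0 tl1 = true := by
  decide +kernel

theorem gy1 : yC 0 2 R1 C1 dg1 = true := by
  decide +kernel

theorem pg1 (X : Type*) [Inhabited X] [Fintype X] : IsOp X (P1 X) dg1 :=
  isOp_youngC R1 C1 gs1 0 tl1 gr1 dg1 gy1

def dg2 : List (ℤ × ℕ) := [(Int.ofNat 2, 16), (Int.ofNat 2, 1)]

def R2 : GA := [(Int.ofNat 1, 1, 1), (Int.ofNat 1, 16, 16)]

def C2 : GA := [(Int.ofNat 1, 16, 16)]

def gs2 : List (ℤ × ℕ) := [(Int.ofNat 1, 1)]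

def tl2 : List (ℕ × ℕ) := [(0, 0), (0, 0)]

noncomputable def P2 (X : Type*) [Inhabited X] [Fintype X] : ((Fin 2 → X) → ℝ) → (Fin 2 → X) → ℝ :=
  fun f => gaF (b := 2) R2 (gaF C2 f)

theorem gr2 : grpC 2 3 R2 gs2 16 tl2 = true := by
  decide +kernel

theorem gy2 : yC 2 3 R2 C2 dg2 = true := by
  decide +kernel

theorem pg2 (X : Type*) [Inhabited X] [Fintype X] : IsOp X (P2 X) dg2 :=
  isOp_youngC R2 C2 gs2 16 tl2 gr2 dg2 gy2

def dg3 : List (ℤ × ℕ) := [(Int.ofNat 2, 16), (Int.negSucc 1, 1)]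

def R3 : GA := [(Int.ofNat 1, 16, 16)]

def C3 : GA := [(Int.ofNat 1, 16, 16), (Int.negSucc 0, 1, 1)]

def gs3 : List (ℤ × ℕ) := [(Int.ofNat 1, 16)]

def tl3 : List (ℕ × ℕ) := [(0, 0)]

noncomputable def P3 (X : Type*) [Inhabited X] [Fintype X] : ((Fin 2 → X) → ℝ) → (Fin 2 → X) → ℝ :=
  fun f => gaF (b := 2) R3 (gaF C3 f)

theorem gr3 : grpC 2 4 R3 gs3 16 tl3 = true := by
  decide +kernel

theorem gy3 : yC 2 4 R3 C3 dg3 = true := by
  decide +kernel

theorem pg3 (X : Type*) [Inhabited X] [Fintype X] : IsOp X (P3 X) dg3 :=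
  isOp_youngC R3 C3 gs3 16 tl3 gr3 dg3 gy3

def dg4 : List (ℤ × ℕ) := [(Int.ofNat 24, 12816), (Int.ofNat 24, 8976), (Int.ofNat 24, 12576), (Int.ofNat 24, 4896), (Int.ofNat 24, 8496), (Int.ofNat 24, 4656), (Int.ofNat 24, 12801), (Int.ofNat 24, 8961), (Int.ofNat 24, 12321), (Int.ofNat 24, 801), (Int.ofNat 24, 8241), (Int.ofNat 24, 561), (Int.ofNat 24, 12546), (Int.ofNat 24, 4866), (Int.ofNat 24, 12306), (Int.ofNat 24, 786), (Int.ofNat 24, 4146), (Int.ofNat 24, 306), (Int.ofNat 24, 8451), (Int.ofNat 24, 4611), (Int.ofNat 24, 8211), (Int.ofNat 24, 531), (Int.ofNat 24, 4131), (Int.ofNat 24, 291)]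

def R4 : GA := [(Int.ofNat 1, 12801, 12801), (Int.ofNat 1, 8961, 8961), (Int.ofNat 1, 8241, 4866), (Int.ofNat 1, 8211, 786), (Int.ofNat 1, 531, 531), (Int.ofNat 1, 561, 4611), (Int.ofNat 1, 801, 8451), (Int.ofNat 1, 12321, 12546), (Int.ofNat 1, 12306, 12306), (Int.ofNat 1, 786, 8211), (Int.ofNat 1, 306, 4131), (Int.ofNat 1, 291, 291), (Int.ofNat 1, 4131, 306), (Int.ofNat 1, 4146, 4146), (Int.ofNat 1, 4866, 8241), (Int.ofNat 1, 12546, 12321), (Int.ofNat 1, 12576, 12576), (Int.ofNat 1, 4896, 8496), (Int.ofNat 1, 4656, 4656), (Int.ofNat 1, 4611, 561), (Int.ofNat 1, 8451, 801), (Int.ofNat 1, 8496, 4896), (Int.ofNat 1, 8976, 8976), (Int.ofNat 1, 12816, 12816)]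

def C4 : GA := [(Int.ofNat 1, 12816, 12816)]

def gs4 : List (ℤ × ℕ) := [(Int.ofNat 1, 12801), (Int.ofNat 1, 12576), (Int.ofNat 1, 8976)]

def tl4 : List (ℕ × ℕ) := [(0, 0), (2, 0), (1, 0), (0, 0), (2, 0), (0, 0), (1, 0), (2, 0), (0, 0), (2, 0), (1, 0), (0, 0), (2, 0), (0, 0), (1, 0), (2, 0), (0, 0), (2, 0), (1, 0), (0, 0), (2, 0), (0, 0), (1, 0), (2, 0)]

noncomputable def P4 (X : Type*) [Inhabited X] [Fintype X] : ((Fin 4 → X) → ℝ) → (Fin 4 → X) → ℝ :=
  fun f => gaF (b := 4) R4 (gaF C4 f)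

theorem gr4 : grpC 4 6 R4 gs4 12816 tl4 = true := by
  decide +kernel

theorem gy4 : yC 4 6 R4 C4 dg4 = true := by
  decide +kernel

theorem pg4 (X : Type*) [Inhabited X] [Fintype X] : IsOp X (P4 X) dg4 :=
  isOp_youngC R4 C4 gs4 12816 tl4 gr4 dg4 gy4

def dg5 : List (ℤ × ℕ) := [(Int.ofNat 12, 12816), (Int.ofNat 6, 8976), (Int.ofNat 12, 12576), (Int.ofNat 6, 4896), (Int.ofNat 6, 8496), (Int.ofNat 6, 4656), (Int.ofNat 6, 12801), (Int.ofNat 6, 12321), (Int.negSucc 5, 801), (Int.negSucc 5, 561), (Int.ofNat 6, 12546), (Int.ofNat 6, 12306), (Int.negSucc 5, 786), (Int.negSucc 5, 306), (Int.negSucc 5, 8451), (Int.negSucc 5, 4611), (Int.negSucc 5, 8211), (Int.negSucc 11, 531), (Int.negSucc 5, 4131), (Int.negSucc 11, 291)]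

def R5 : GA := [(Int.ofNat 1, 12801, 12801), (Int.ofNat 1, 12321, 12546), (Int.ofNat 1, 12306, 12306), (Int.ofNat 1, 12546, 12321), (Int.ofNat 1, 12576, 12576), (Int.ofNat 1, 12816, 12816)]

def C5 : GA := [(Int.ofNat 1, 12816, 12816), (Int.negSucc 0, 531, 531)]

def gs5 : List (ℤ × ℕ) := [(Int.ofNat 1, 12801), (Int.ofNat 1, 12576)]

def tl5 : List (ℕ × ℕ) := [(0, 0), (1, 0), (0, 0), (1, 0), (0, 0), (1, 0)]

noncomputable def P5 (X : Type*) [Inhabited X] [Fintype X] : ((Fin 4 → X) → ℝ) → (Fin 4 → X) → ℝ :=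
  fun f => gaF (b := 4) R5 (gaF C5 f)

theorem gr5 : grpC 4 6 R5 gs5 12816 tl5 = true := by
  decide +kernel

theorem gy5 : yC 4 6 R5 C5 dg5 = true := by
  decide +kernel

theorem pg5 (X : Type*) [Inhabited X] [Fintype X] : IsOp X (P5 X) dg5 :=
  isOp_youngC R5 C5 gs5 12816 tl5 gr5 dg5 gy5

def dg6 : List (ℤ × ℕ) := [(Int.ofNat 16, 12816), (Int.ofNat 8, 8976), (Int.ofNat 8, 12576), (Int.negSucc 7, 4896), (Int.negSucc 7, 8496), (Int.negSucc 15, 4656), (Int.ofNat 8, 12801), (Int.ofNat 16, 8961), (Int.negSucc 7, 12321), (Int.negSucc 15, 801), (Int.ofNat 8, 8241), (Int.negSucc 7, 561), (Int.negSucc 7, 12546), (Int.ofNat 8, 4866), (Int.negSucc 15, 12306), (Int.negSucc 7, 786), (Int.ofNat 16, 4146), (Int.ofNat 8, 306), (Int.negSucc 15, 8451), (Int.negSucc 7, 4611), (Int.negSucc 7, 8211), (Int.ofNat 8, 531), (Int.ofNat 8, 4131), (Int.ofNat 16, 291)]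

def R6 : GA := [(Int.ofNat 1, 12801, 12801), (Int.ofNat 1, 8961, 8961), (Int.ofNat 1, 8976, 8976), (Int.ofNat 1, 12816, 12816)]

def C6 : GA := [(Int.ofNat 1, 12816, 12816), (Int.negSucc 0, 4656, 4656), (Int.negSucc 0, 12306, 12306), (Int.ofNat 1, 4146, 4146)]

def gs6 : List (ℤ × ℕ) := [(Int.ofNat 1, 12801), (Int.ofNat 1, 8976)]

def tl6 : List (ℕ × ℕ) := [(0, 0), (1, 0), (0, 0), (1, 0)]

noncomputable def P6 (X : Type*) [Inhabited X] [Fintype X] : ((Fin 4 → X) → ℝ) → (Fin 4 → X) → ℝ :=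
  fun f => gaF (b := 4) R6 (gaF C6 f)

theorem gr6 : grpC 4 8 R6 gs6 12816 tl6 = true := by
  decide +kernel

theorem gy6 : yC 4 8 R6 C6 dg6 = true := by
  decide +kernel

theorem pg6 (X : Type*) [Inhabited X] [Fintype X] : IsOp X (P6 X) dg6 :=
  isOp_youngC R6 C6 gs6 12816 tl6 gr6 dg6 gy6

def dg7 : List (ℤ × ℕ) := [(Int.ofNat 12, 12816), (Int.negSucc 11, 8976), (Int.ofNat 4, 12576), (Int.negSucc 3, 4896), (Int.negSucc 3, 8496), (Int.ofNat 4, 4656), (Int.ofNat 4, 12801), (Int.negSucc 3, 8961), (Int.negSucc 3, 12321), (Int.ofNat 4, 801), (Int.ofNat 4, 8241), (Int.negSucc 3, 561), (Int.negSucc 3, 12546), (Int.ofNat 4, 4866), (Int.negSucc 11, 12306), (Int.ofNat 12, 786), (Int.negSucc 3, 4146), (Int.ofNat 4, 306), (Int.ofNat 4, 8451), (Int.negSucc 3, 4611), (Int.ofNat 12, 8211), (Int.negSucc 11, 531), (Int.ofNat 4, 4131), (Int.negSucc 3, 291)]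

def R7 : GA := [(Int.ofNat 1, 12801, 12801), (Int.ofNat 1, 12816, 12816)]

def C7 : GA := [(Int.ofNat 1, 12816, 12816), (Int.negSucc 0, 8976, 8976), (Int.negSucc 0, 12306, 12306), (Int.ofNat 1, 786, 8211), (Int.ofNat 1, 8211, 786), (Int.negSucc 0, 531, 531)]

def gs7 : List (ℤ × ℕ) := [(Int.ofNat 1, 12801)]

def tl7 : List (ℕ × ℕ) := [(0, 0), (0, 0)]

noncomputable def P7 (X : Type*) [Inhabited X] [Fintype X] : ((Fin 4 → X) → ℝ) → (Fin 4 → X) → ℝ :=
  fun f => gaF (b := 4) R7 (gaF C7 f)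

theorem gr7 : grpC 4 8 R7 gs7 12816 tl7 = true := by
  decide +kernel

theorem gy7 : yC 4 8 R7 C7 dg7 = true := by
  decide +kernel

theorem pg7 (X : Type*) [Inhabited X] [Fintype X] : IsOp X (P7 X) dg7 :=
  isOp_youngC R7 C7 gs7 12816 tl7 gr7 dg7 gy7

def dg8 : List (ℤ × ℕ) := [(Int.ofNat 720, 5517840), (Int.ofNat 720, 4534800), (Int.ofNat 720, 5456400), (Int.ofNat 720, 3490320), (Int.ofNat 720, 4411920), (Int.ofNat 720, 3428880), (Int.ofNat 720, 5514000), (Int.ofNat 720, 4530960), (Int.ofNat 720, 5391120), (Int.ofNat 720, 2442000), (Int.ofNat 720, 4346640), (Int.ofNat 720, 2380560), (Int.ofNat 720, 5448720), (Int.ofNat 720, 3482640), (Int.ofNat 720, 5387280), (Int.ofNat 720, 2438160), (Int.ofNat 720, 3298320), (Int.ofNat 720, 2315280), (Int.ofNat 720, 4400400), (Int.ofNat 720, 3417360), (Int.ofNat 720, 4338960), (Int.ofNat 720, 2372880), (Int.ofNat 720, 3294480), (Int.ofNat 720, 2311440), (Int.ofNat 720, 5517600),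 (Int.ofNat 720, 4534560), (Int.ofNat 720, 5456160), (Int.ofNat 720, 3490080), (Int.ofNat 720, 4411680), (Int.ofNat 720, 3428640), (Int.ofNat 720, 5509920), (Int.ofNat 720, 4526880), (Int.ofNat 720, 5325600), (Int.ofNat 720, 1393440), (Int.ofNat 720, 4281120), (Int.ofNat 720, 1332000), (Int.ofNat 720, 5444640), (Int.ofNat 720, 3478560), (Int.ofNat 720, 5321760), (Int.ofNat 720, 1389600), (Int.ofNat 720, 3232800), (Int.ofNat 720, 1266720), (Int.ofNat 720, 4396320), (Int.ofNat 720, 3413280), (Int.ofNat 720, 4273440), (Int.ofNat 720, 1324320), (Int.ofNat 720, 3228960), (Int.ofNat 720, 1262880), (Int.ofNat 720, 5513520), (Int.ofNat 720, 4530480), (Int.ofNat 720, 5390640), (Int.ofNat 720, 2441520), (Int.ofNat 720, 4346160), (Int.ofNat 720, 2380080), (Int.ofNat 720, 5509680), (Int.ofNat 720, 4526640), (Int.ofNat 720, 5325360), (Int.ofNat 720, 1393200), (Int.ofNat 720, 4280880), (Int.ofNat 720, 1331760), (Int.ofNat 720, 5379120),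 (Int.ofNat 720, 2430000), (Int.ofNat 720, 5317680), (Int.ofNat 720, 1385520), (Int.ofNat 720, 2184240), (Int.ofNat 720, 1201200), (Int.ofNat 720, 4330800), (Int.ofNat 720, 2364720), (Int.ofNat 720, 4269360), (Int.ofNat 720, 1320240), (Int.ofNat 720, 2180400), (Int.ofNat 720, 1197360), (Int.ofNat 720, 5448000), (Int.ofNat 720, 3481920), (Int.ofNat 720, 5386560), (Int.ofNat 720, 2437440), (Int.ofNat 720, 3297600), (Int.ofNat 720, 2314560), (Int.ofNat 720, 5444160), (Int.ofNat 720, 3478080), (Int.ofNat 720, 5321280), (Int.ofNat 720, 1389120), (Int.ofNat 720, 3232320), (Int.ofNat 720, 1266240), (Int.ofNat 720, 5378880), (Int.ofNat 720, 2429760), (Int.ofNat 720, 5317440), (Int.ofNat 720, 1385280), (Int.ofNat 720, 2184000), (Int.ofNat 720, 1200960), (Int.ofNat 720, 3282240), (Int.ofNat 720, 2299200), (Int.ofNat 720, 3220800), (Int.ofNat 720, 1254720), (Int.ofNat 720, 2176320), (Int.ofNat 720, 1193280), (Int.ofNat 720, 4399440),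 (Int.ofNat 720, 3416400), (Int.ofNat 720, 4338000), (Int.ofNat 720, 2371920), (Int.ofNat 720, 3293520), (Int.ofNat 720, 2310480), (Int.ofNat 720, 4395600), (Int.ofNat 720, 3412560), (Int.ofNat 720, 4272720), (Int.ofNat 720, 1323600), (Int.ofNat 720, 3228240), (Int.ofNat 720, 1262160), (Int.ofNat 720, 4330320), (Int.ofNat 720, 2364240), (Int.ofNat 720, 4268880), (Int.ofNat 720, 1319760), (Int.ofNat 720, 2179920), (Int.ofNat 720, 1196880), (Int.ofNat 720, 3282000), (Int.ofNat 720, 2298960), (Int.ofNat 720, 3220560), (Int.ofNat 720, 1254480), (Int.ofNat 720, 2176080), (Int.ofNat 720, 1193040), (Int.ofNat 720, 5517825), (Int.ofNat 720, 4534785), (Int.ofNat 720, 5456385), (Int.ofNat 720, 3490305), (Int.ofNat 720, 4411905), (Int.ofNat 720, 3428865), (Int.ofNat 720, 5513985), (Int.ofNat 720, 4530945), (Int.ofNat 720, 5391105), (Int.ofNat 720, 2441985), (Int.ofNat 720, 4346625), (Int.ofNat 720, 2380545), (Int.ofNat 720, 5448705),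 (Int.ofNat 720, 3482625), (Int.ofNat 720, 5387265), (Int.ofNat 720, 2438145), (Int.ofNat 720, 3298305), (Int.ofNat 720, 2315265), (Int.ofNat 720, 4400385), (Int.ofNat 720, 3417345), (Int.ofNat 720, 4338945), (Int.ofNat 720, 2372865), (Int.ofNat 720, 3294465), (Int.ofNat 720, 2311425), (Int.ofNat 720, 5517345), (Int.ofNat 720, 4534305), (Int.ofNat 720, 5455905), (Int.ofNat 720, 3489825), (Int.ofNat 720, 4411425), (Int.ofNat 720, 3428385), (Int.ofNat 720, 5505825), (Int.ofNat 720, 4522785), (Int.ofNat 720, 5260065), (Int.ofNat 720, 344865), (Int.ofNat 720, 4215585), (Int.ofNat 720, 283425), (Int.ofNat 720, 5440545), (Int.ofNat 720, 3474465), (Int.ofNat 720, 5256225), (Int.ofNat 720, 341025), (Int.ofNat 720, 3167265), (Int.ofNat 720, 218145), (Int.ofNat 720, 4392225), (Int.ofNat 720, 3409185), (Int.ofNat 720, 4207905), (Int.ofNat 720, 275745), (Int.ofNat 720, 3163425), (Int.ofNat 720, 214305), (Int.ofNat 720, 5513265),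 (Int.ofNat 720, 4530225), (Int.ofNat 720, 5390385), (Int.ofNat 720, 2441265), (Int.ofNat 720, 4345905), (Int.ofNat 720, 2379825), (Int.ofNat 720, 5505585), (Int.ofNat 720, 4522545), (Int.ofNat 720, 5259825), (Int.ofNat 720, 344625), (Int.ofNat 720, 4215345), (Int.ofNat 720, 283185), (Int.ofNat 720, 5375025), (Int.ofNat 720, 2425905), (Int.ofNat 720, 5252145), (Int.ofNat 720, 336945), (Int.ofNat 720, 2118705), (Int.ofNat 720, 152625), (Int.ofNat 720, 4326705), (Int.ofNat 720, 2360625), (Int.ofNat 720, 4203825), (Int.ofNat 720, 271665), (Int.ofNat 720, 2114865), (Int.ofNat 720, 148785), (Int.ofNat 720, 5447745), (Int.ofNat 720, 3481665), (Int.ofNat 720, 5386305), (Int.ofNat 720, 2437185), (Int.ofNat 720, 3297345), (Int.ofNat 720, 2314305), (Int.ofNat 720, 5440065), (Int.ofNat 720, 3473985), (Int.ofNat 720, 5255745), (Int.ofNat 720, 340545), (Int.ofNat 720, 3166785), (Int.ofNat 720, 217665), (Int.ofNat 720, 5374785),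 (Int.ofNat 720, 2425665), (Int.ofNat 720, 5251905), (Int.ofNat 720, 336705), (Int.ofNat 720, 2118465), (Int.ofNat 720, 152385), (Int.ofNat 720, 3278145), (Int.ofNat 720, 2295105), (Int.ofNat 720, 3155265), (Int.ofNat 720, 206145), (Int.ofNat 720, 2110785), (Int.ofNat 720, 144705), (Int.ofNat 720, 4399185), (Int.ofNat 720, 3416145), (Int.ofNat 720, 4337745), (Int.ofNat 720, 2371665), (Int.ofNat 720, 3293265), (Int.ofNat 720, 2310225), (Int.ofNat 720, 4391505), (Int.ofNat 720, 3408465), (Int.ofNat 720, 4207185), (Int.ofNat 720, 275025), (Int.ofNat 720, 3162705), (Int.ofNat 720, 213585), (Int.ofNat 720, 4326225), (Int.ofNat 720, 2360145), (Int.ofNat 720, 4203345), (Int.ofNat 720, 271185), (Int.ofNat 720, 2114385), (Int.ofNat 720, 148305), (Int.ofNat 720, 3277905), (Int.ofNat 720, 2294865), (Int.ofNat 720, 3155025), (Int.ofNat 720, 205905), (Int.ofNat 720, 2110545), (Int.ofNat 720, 144465), (Int.ofNat 720, 5517570), (Int.ofNat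 720, 4534530), (Int.ofNat 720, 5456130), (Int.ofNat 720, 3490050), (Int.ofNat 720, 4411650), (Int.ofNat 720, 3428610), (Int.ofNat 720, 5509890), (Int.ofNat 720, 4526850), (Int.ofNat 720, 5325570), (Int.ofNat 720, 1393410), (Int.ofNat 720, 4281090), (Int.ofNat 720, 1331970), (Int.ofNat 720, 5444610), (Int.ofNat 720, 3478530), (Int.ofNat 720, 5321730), (Int.ofNat 720, 1389570), (Int.ofNat 720, 3232770), (Int.ofNat 720, 1266690), (Int.ofNat 720, 4396290), (Int.ofNat 720, 3413250), (Int.ofNat 720, 4273410), (Int.ofNat 720, 1324290), (Int.ofNat 720, 3228930), (Int.ofNat 720, 1262850), (Int.ofNat 720, 5517330), (Int.ofNat 720, 4534290), (Int.ofNat 720, 5455890), (Int.ofNat 720, 3489810), (Int.ofNat 720, 4411410), (Int.ofNat 720, 3428370), (Int.ofNat 720, 5505810), (Int.ofNat 720, 4522770), (Int.ofNat 720, 5260050), (Int.ofNat 720, 344850), (Int.ofNat 720, 4215570), (Int.ofNat 720, 283410), (Int.ofNat 720, 5440530), (Int.ofNat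 720, 3474450), (Int.ofNat 720, 5256210), (Int.ofNat 720, 341010), (Int.ofNat 720, 3167250), (Int.ofNat 720, 218130), (Int.ofNat 720, 4392210), (Int.ofNat 720, 3409170), (Int.ofNat 720, 4207890), (Int.ofNat 720, 275730), (Int.ofNat 720, 3163410), (Int.ofNat 720, 214290), (Int.ofNat 720, 5509170), (Int.ofNat 720, 4526130), (Int.ofNat 720, 5324850), (Int.ofNat 720, 1392690), (Int.ofNat 720, 4280370), (Int.ofNat 720, 1331250), (Int.ofNat 720, 5505330), (Int.ofNat 720, 4522290), (Int.ofNat 720, 5259570), (Int.ofNat 720, 344370), (Int.ofNat 720, 4215090), (Int.ofNat 720, 282930), (Int.ofNat 720, 5309490), (Int.ofNat 720, 1377330), (Int.ofNat 720, 5248050), (Int.ofNat 720, 332850), (Int.ofNat 720, 1070130), (Int.ofNat 720, 87090), (Int.ofNat 720, 4261170), (Int.ofNat 720, 1312050), (Int.ofNat 720, 4199730), (Int.ofNat 720, 267570), (Int.ofNat 720, 1066290), (Int.ofNat 720, 83250), (Int.ofNat 720, 5443650), (Int.ofNat 720,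 3477570), (Int.ofNat 720, 5320770), (Int.ofNat 720, 1388610), (Int.ofNat 720, 3231810), (Int.ofNat 720, 1265730), (Int.ofNat 720, 5439810), (Int.ofNat 720, 3473730), (Int.ofNat 720, 5255490), (Int.ofNat 720, 340290), (Int.ofNat 720, 3166530), (Int.ofNat 720, 217410), (Int.ofNat 720, 5309250), (Int.ofNat 720, 1377090), (Int.ofNat 720, 5247810), (Int.ofNat 720, 332610), (Int.ofNat 720, 1069890), (Int.ofNat 720, 86850), (Int.ofNat 720, 3212610), (Int.ofNat 720, 1246530), (Int.ofNat 720, 3151170), (Int.ofNat 720, 202050), (Int.ofNat 720, 1062210), (Int.ofNat 720, 79170), (Int.ofNat 720, 4395090), (Int.ofNat 720, 3412050), (Int.ofNat 720, 4272210), (Int.ofNat 720, 1323090), (Int.ofNat 720, 3227730), (Int.ofNat 720, 1261650), (Int.ofNat 720, 4391250), (Int.ofNat 720, 3408210), (Int.ofNat 720, 4206930), (Int.ofNat 720, 274770), (Int.ofNat 720, 3162450), (Int.ofNat 720, 213330), (Int.ofNat 720, 4260690), (Int.ofNat 720, 1311570),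 (Int.ofNat 720, 4199250), (Int.ofNat 720, 267090), (Int.ofNat 720, 1065810), (Int.ofNat 720, 82770), (Int.ofNat 720, 3212370), (Int.ofNat 720, 1246290), (Int.ofNat 720, 3150930), (Int.ofNat 720, 201810), (Int.ofNat 720, 1061970), (Int.ofNat 720, 78930), (Int.ofNat 720, 5513475), (Int.ofNat 720, 4530435), (Int.ofNat 720, 5390595), (Int.ofNat 720, 2441475), (Int.ofNat 720, 4346115), (Int.ofNat 720, 2380035), (Int.ofNat 720, 5509635), (Int.ofNat 720, 4526595), (Int.ofNat 720, 5325315), (Int.ofNat 720, 1393155), (Int.ofNat 720, 4280835), (Int.ofNat 720, 1331715), (Int.ofNat 720, 5379075), (Int.ofNat 720, 2429955), (Int.ofNat 720, 5317635), (Int.ofNat 720, 1385475), (Int.ofNat 720, 2184195), (Int.ofNat 720, 1201155), (Int.ofNat 720, 4330755), (Int.ofNat 720, 2364675), (Int.ofNat 720, 4269315), (Int.ofNat 720, 1320195), (Int.ofNat 720, 2180355), (Int.ofNat 720, 1197315), (Int.ofNat 720, 5513235), (Int.ofNat 720, 4530195),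 (Int.ofNat 720, 5390355), (Int.ofNat 720, 2441235), (Int.ofNat 720, 4345875), (Int.ofNat 720, 2379795), (Int.ofNat 720, 5505555), (Int.ofNat 720, 4522515), (Int.ofNat 720, 5259795), (Int.ofNat 720, 344595), (Int.ofNat 720, 4215315), (Int.ofNat 720, 283155), (Int.ofNat 720, 5374995), (Int.ofNat 720, 2425875), (Int.ofNat 720, 5252115), (Int.ofNat 720, 336915), (Int.ofNat 720, 2118675), (Int.ofNat 720, 152595), (Int.ofNat 720, 4326675), (Int.ofNat 720, 2360595), (Int.ofNat 720, 4203795), (Int.ofNat 720, 271635), (Int.ofNat 720, 2114835), (Int.ofNat 720, 148755), (Int.ofNat 720, 5509155), (Int.ofNat 720, 4526115), (Int.ofNat 720, 5324835), (Int.ofNat 720, 1392675), (Int.ofNat 720, 4280355), (Int.ofNat 720, 1331235), (Int.ofNat 720, 5505315), (Int.ofNat 720, 4522275), (Int.ofNat 720, 5259555), (Int.ofNat 720, 344355), (Int.ofNat 720, 4215075), (Int.ofNat 720, 282915), (Int.ofNat 720, 5309475), (Int.ofNat 720, 1377315),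 (Int.ofNat 720, 5248035), (Int.ofNat 720, 332835), (Int.ofNat 720, 1070115), (Int.ofNat 720, 87075), (Int.ofNat 720, 4261155), (Int.ofNat 720, 1312035), (Int.ofNat 720, 4199715), (Int.ofNat 720, 267555), (Int.ofNat 720, 1066275), (Int.ofNat 720, 83235), (Int.ofNat 720, 5378115), (Int.ofNat 720, 2428995), (Int.ofNat 720, 5316675), (Int.ofNat 720, 1384515), (Int.ofNat 720, 2183235), (Int.ofNat 720, 1200195), (Int.ofNat 720, 5374275), (Int.ofNat 720, 2425155), (Int.ofNat 720, 5251395), (Int.ofNat 720, 336195), (Int.ofNat 720, 2117955), (Int.ofNat 720, 151875), (Int.ofNat 720, 5308995), (Int.ofNat 720, 1376835), (Int.ofNat 720, 5247555), (Int.ofNat 720, 332355), (Int.ofNat 720, 1069635), (Int.ofNat 720, 86595), (Int.ofNat 720, 2164035), (Int.ofNat 720, 1180995), (Int.ofNat 720, 2102595), (Int.ofNat 720, 136515), (Int.ofNat 720, 1058115), (Int.ofNat 720, 75075), (Int.ofNat 720, 4329555), (Int.ofNat 720, 2363475), (Int.ofNat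 720, 4268115), (Int.ofNat 720, 1318995), (Int.ofNat 720, 2179155), (Int.ofNat 720, 1196115), (Int.ofNat 720, 4325715), (Int.ofNat 720, 2359635), (Int.ofNat 720, 4202835), (Int.ofNat 720, 270675), (Int.ofNat 720, 2113875), (Int.ofNat 720, 147795), (Int.ofNat 720, 4260435), (Int.ofNat 720, 1311315), (Int.ofNat 720, 4198995), (Int.ofNat 720, 266835), (Int.ofNat 720, 1065555), (Int.ofNat 720, 82515), (Int.ofNat 720, 2163795), (Int.ofNat 720, 1180755), (Int.ofNat 720, 2102355), (Int.ofNat 720, 136275), (Int.ofNat 720, 1057875), (Int.ofNat 720, 74835), (Int.ofNat 720, 5447940), (Int.ofNat 720, 3481860), (Int.ofNat 720, 5386500), (Int.ofNat 720, 2437380), (Int.ofNat 720, 3297540), (Int.ofNat 720, 2314500), (Int.ofNat 720, 5444100), (Int.ofNat 720, 3478020), (Int.ofNat 720, 5321220), (Int.ofNat 720, 1389060), (Int.ofNat 720, 3232260), (Int.ofNat 720, 1266180), (Int.ofNat 720, 5378820), (Int.ofNat 720, 2429700), (Int.ofNat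 720, 5317380), (Int.ofNat 720, 1385220), (Int.ofNat 720, 2183940), (Int.ofNat 720, 1200900), (Int.ofNat 720, 3282180), (Int.ofNat 720, 2299140), (Int.ofNat 720, 3220740), (Int.ofNat 720, 1254660), (Int.ofNat 720, 2176260), (Int.ofNat 720, 1193220), (Int.ofNat 720, 5447700), (Int.ofNat 720, 3481620), (Int.ofNat 720, 5386260), (Int.ofNat 720, 2437140), (Int.ofNat 720, 3297300), (Int.ofNat 720, 2314260), (Int.ofNat 720, 5440020), (Int.ofNat 720, 3473940), (Int.ofNat 720, 5255700), (Int.ofNat 720, 340500), (Int.ofNat 720, 3166740), (Int.ofNat 720, 217620), (Int.ofNat 720, 5374740), (Int.ofNat 720, 2425620), (Int.ofNat 720, 5251860), (Int.ofNat 720, 336660), (Int.ofNat 720, 2118420), (Int.ofNat 720, 152340), (Int.ofNat 720, 3278100), (Int.ofNat 720, 2295060), (Int.ofNat 720, 3155220), (Int.ofNat 720, 206100), (Int.ofNat 720, 2110740), (Int.ofNat 720, 144660), (Int.ofNat 720, 5443620), (Int.ofNat 720, 3477540), (Int.ofNat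 720, 5320740), (Int.ofNat 720, 1388580), (Int.ofNat 720, 3231780), (Int.ofNat 720, 1265700), (Int.ofNat 720, 5439780), (Int.ofNat 720, 3473700), (Int.ofNat 720, 5255460), (Int.ofNat 720, 340260), (Int.ofNat 720, 3166500), (Int.ofNat 720, 217380), (Int.ofNat 720, 5309220), (Int.ofNat 720, 1377060), (Int.ofNat 720, 5247780), (Int.ofNat 720, 332580), (Int.ofNat 720, 1069860), (Int.ofNat 720, 86820), (Int.ofNat 720, 3212580), (Int.ofNat 720, 1246500), (Int.ofNat 720, 3151140), (Int.ofNat 720, 202020), (Int.ofNat 720, 1062180), (Int.ofNat 720, 79140), (Int.ofNat 720, 5378100), (Int.ofNat 720, 2428980), (Int.ofNat 720, 5316660), (Int.ofNat 720, 1384500), (Int.ofNat 720, 2183220), (Int.ofNat 720, 1200180), (Int.ofNat 720, 5374260), (Int.ofNat 720, 2425140), (Int.ofNat 720, 5251380), (Int.ofNat 720, 336180), (Int.ofNat 720, 2117940), (Int.ofNat 720, 151860), (Int.ofNat 720, 5308980), (Int.ofNat 720, 1376820), (Int.ofNat 720,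 5247540), (Int.ofNat 720, 332340), (Int.ofNat 720, 1069620), (Int.ofNat 720, 86580), (Int.ofNat 720, 2164020), (Int.ofNat 720, 1180980), (Int.ofNat 720, 2102580), (Int.ofNat 720, 136500), (Int.ofNat 720, 1058100), (Int.ofNat 720, 75060), (Int.ofNat 720, 3280980), (Int.ofNat 720, 2297940), (Int.ofNat 720, 3219540), (Int.ofNat 720, 1253460), (Int.ofNat 720, 2175060), (Int.ofNat 720, 1192020), (Int.ofNat 720, 3277140), (Int.ofNat 720, 2294100), (Int.ofNat 720, 3154260), (Int.ofNat 720, 205140), (Int.ofNat 720, 2109780), (Int.ofNat 720, 143700), (Int.ofNat 720, 3211860), (Int.ofNat 720, 1245780), (Int.ofNat 720, 3150420), (Int.ofNat 720, 201300), (Int.ofNat 720, 1061460), (Int.ofNat 720, 78420), (Int.ofNat 720, 2163540), (Int.ofNat 720, 1180500), (Int.ofNat 720, 2102100), (Int.ofNat 720, 136020), (Int.ofNat 720, 1057620), (Int.ofNat 720, 74580), (Int.ofNat 720, 4399365), (Int.ofNat 720, 3416325), (Int.ofNat 720, 4337925),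 (Int.ofNat 720, 2371845), (Int.ofNat 720, 3293445), (Int.ofNat 720, 2310405), (Int.ofNat 720, 4395525), (Int.ofNat 720, 3412485), (Int.ofNat 720, 4272645), (Int.ofNat 720, 1323525), (Int.ofNat 720, 3228165), (Int.ofNat 720, 1262085), (Int.ofNat 720, 4330245), (Int.ofNat 720, 2364165), (Int.ofNat 720, 4268805), (Int.ofNat 720, 1319685), (Int.ofNat 720, 2179845), (Int.ofNat 720, 1196805), (Int.ofNat 720, 3281925), (Int.ofNat 720, 2298885), (Int.ofNat 720, 3220485), (Int.ofNat 720, 1254405), (Int.ofNat 720, 2176005), (Int.ofNat 720, 1192965), (Int.ofNat 720, 4399125), (Int.ofNat 720, 3416085), (Int.ofNat 720, 4337685), (Int.ofNat 720, 2371605), (Int.ofNat 720, 3293205), (Int.ofNat 720, 2310165), (Int.ofNat 720, 4391445), (Int.ofNat 720, 3408405), (Int.ofNat 720, 4207125), (Int.ofNat 720, 274965), (Int.ofNat 720, 3162645), (Int.ofNat 720, 213525), (Int.ofNat 720, 4326165), (Int.ofNat 720, 2360085), (Int.ofNat 720, 4203285),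 (Int.ofNat 720, 271125), (Int.ofNat 720, 2114325), (Int.ofNat 720, 148245), (Int.ofNat 720, 3277845), (Int.ofNat 720, 2294805), (Int.ofNat 720, 3154965), (Int.ofNat 720, 205845), (Int.ofNat 720, 2110485), (Int.ofNat 720, 144405), (Int.ofNat 720, 4395045), (Int.ofNat 720, 3412005), (Int.ofNat 720, 4272165), (Int.ofNat 720, 1323045), (Int.ofNat 720, 3227685), (Int.ofNat 720, 1261605), (Int.ofNat 720, 4391205), (Int.ofNat 720, 3408165), (Int.ofNat 720, 4206885), (Int.ofNat 720, 274725), (Int.ofNat 720, 3162405), (Int.ofNat 720, 213285), (Int.ofNat 720, 4260645), (Int.ofNat 720, 1311525), (Int.ofNat 720, 4199205), (Int.ofNat 720, 267045), (Int.ofNat 720, 1065765), (Int.ofNat 720, 82725), (Int.ofNat 720, 3212325), (Int.ofNat 720, 1246245), (Int.ofNat 720, 3150885), (Int.ofNat 720, 201765), (Int.ofNat 720, 1061925), (Int.ofNat 720, 78885), (Int.ofNat 720, 4329525), (Int.ofNat 720, 2363445), (Int.ofNat 720, 4268085), (Int.ofNat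 720, 1318965), (Int.ofNat 720, 2179125), (Int.ofNat 720, 1196085), (Int.ofNat 720, 4325685), (Int.ofNat 720, 2359605), (Int.ofNat 720, 4202805), (Int.ofNat 720, 270645), (Int.ofNat 720, 2113845), (Int.ofNat 720, 147765), (Int.ofNat 720, 4260405), (Int.ofNat 720, 1311285), (Int.ofNat 720, 4198965), (Int.ofNat 720, 266805), (Int.ofNat 720, 1065525), (Int.ofNat 720, 82485), (Int.ofNat 720, 2163765), (Int.ofNat 720, 1180725), (Int.ofNat 720, 2102325), (Int.ofNat 720, 136245), (Int.ofNat 720, 1057845), (Int.ofNat 720, 74805), (Int.ofNat 720, 3280965), (Int.ofNat 720, 2297925), (Int.ofNat 720, 3219525), (Int.ofNat 720, 1253445), (Int.ofNat 720, 2175045), (Int.ofNat 720, 1192005), (Int.ofNat 720, 3277125), (Int.ofNat 720, 2294085), (Int.ofNat 720, 3154245), (Int.ofNat 720, 205125), (Int.ofNat 720, 2109765), (Int.ofNat 720, 143685), (Int.ofNat 720, 3211845), (Int.ofNat 720, 1245765), (Int.ofNat 720, 3150405), (Int.ofNat 720,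 201285), (Int.ofNat 720, 1061445), (Int.ofNat 720, 78405), (Int.ofNat 720, 2163525), (Int.ofNat 720, 1180485), (Int.ofNat 720, 2102085), (Int.ofNat 720, 136005), (Int.ofNat 720, 1057605), (Int.ofNat 720, 74565)]

def R8 : GA := [(Int.ofNat 1, 5517825, 5517825), (Int.ofNat 1, 4534785, 4534785), (Int.ofNat 1, 4411905, 3490305), (Int.ofNat 1, 4400385, 2441985), (Int.ofNat 1, 4399185, 1393410), (Int.ofNat 1, 4399125, 344850), (Int.ofNat 1, 3416085, 283410), (Int.ofNat 1, 3416145, 1331970), (Int.ofNat 1, 3417345, 2380545), (Int.ofNat 1, 3428865, 3428865), (Int.ofNat 1, 3490305, 4411905), (Int.ofNat 1, 5456385, 5456385), (Int.ofNat 1, 5448705, 5391105), (Int.ofNat 1, 3482625, 4346625), (Int.ofNat 1, 3298305, 3298305), (Int.ofNat 1, 3294465, 2315265), (Int.ofNat 1, 3293265, 1266690), (Int.ofNat 1, 3293205, 218130), (Int.ofNat 1, 3277845, 152595), (Int.ofNat 1, 3277905, 1201155), (Int.ofNat 1, 3278145, 2184195), (Int.ofNat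 1, 3297345, 3232770), (Int.ofNat 1, 3481665, 4281090), (Int.ofNat 1, 5447745, 5325570), (Int.ofNat 1, 5447700, 5260050), (Int.ofNat 1, 3481620, 4215570), (Int.ofNat 1, 3297300, 3167250), (Int.ofNat 1, 3278100, 2118675), (Int.ofNat 1, 3277140, 1070115), (Int.ofNat 1, 3277125, 87075), (Int.ofNat 1, 2294085, 83235), (Int.ofNat 1, 2294100, 1066275), (Int.ofNat 1, 2295060, 2114835), (Int.ofNat 1, 2314260, 3163410), (Int.ofNat 1, 2437140, 4207890), (Int.ofNat 1, 5386260, 5256210), (Int.ofNat 1, 5386305, 5321730), (Int.ofNat 1, 2437185, 4273410), (Int.ofNat 1, 2314305, 3228930), (Int.ofNat 1, 2295105, 2180355), (Int.ofNat 1, 2294865, 1197315), (Int.ofNat 1, 2294805, 148755), (Int.ofNat 1, 2310165, 214290), (Int.ofNat 1, 2310225, 1262850), (Int.ofNat 1, 2311425, 2311425), (Int.ofNat 1, 2315265, 3294465), (Int.ofNat 1, 2438145, 4338945), (Int.ofNat 1, 5387265, 5387265), (Int.ofNat 1, 5391105, 5448705), (Int.ofNat 1, 2441985,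 4400385), (Int.ofNat 1, 2380545, 3417345), (Int.ofNat 1, 2372865, 2372865), (Int.ofNat 1, 2371665, 1324290), (Int.ofNat 1, 2371605, 275730), (Int.ofNat 1, 4337685, 341010), (Int.ofNat 1, 4337745, 1389570), (Int.ofNat 1, 4338945, 2438145), (Int.ofNat 1, 4346625, 3482625), (Int.ofNat 1, 4530945, 4530945), (Int.ofNat 1, 5513985, 5513985), (Int.ofNat 1, 5513265, 5509890), (Int.ofNat 1, 4530225, 4526850), (Int.ofNat 1, 4345905, 3478530), (Int.ofNat 1, 4326705, 2429955), (Int.ofNat 1, 4326225, 1385475), (Int.ofNat 1, 4326165, 336915), (Int.ofNat 1, 2360085, 271635), (Int.ofNat 1, 2360145, 1320195), (Int.ofNat 1, 2360625, 2364675), (Int.ofNat 1, 2379825, 3413250), (Int.ofNat 1, 2441265, 4396290), (Int.ofNat 1, 5390385, 5444610), (Int.ofNat 1, 5375025, 5379075), (Int.ofNat 1, 2425905, 4330755), (Int.ofNat 1, 2118705, 3282180), (Int.ofNat 1, 2114865, 2299140), (Int.ofNat 1, 2114385, 1254660), (Int.ofNat 1, 2114325, 206100),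 (Int.ofNat 1, 2110485, 144660), (Int.ofNat 1, 2110545, 1193220), (Int.ofNat 1, 2110785, 2176260), (Int.ofNat 1, 2118465, 3220740), (Int.ofNat 1, 2425665, 4269315), (Int.ofNat 1, 5374785, 5317635), (Int.ofNat 1, 5374740, 5252115), (Int.ofNat 1, 2425620, 4203795), (Int.ofNat 1, 2118420, 3155220), (Int.ofNat 1, 2110740, 2110740), (Int.ofNat 1, 2109780, 1062180), (Int.ofNat 1, 2109765, 79140), (Int.ofNat 1, 2102085, 75060), (Int.ofNat 1, 2102100, 1058100), (Int.ofNat 1, 2102580, 2102580), (Int.ofNat 1, 2117940, 3151140), (Int.ofNat 1, 2425140, 4199715), (Int.ofNat 1, 5374260, 5248035), (Int.ofNat 1, 5374275, 5309475), (Int.ofNat 1, 2425155, 4261155), (Int.ofNat 1, 2117955, 3212580), (Int.ofNat 1, 2102595, 2164020), (Int.ofNat 1, 2102355, 1180980), (Int.ofNat 1, 2102325, 136500), (Int.ofNat 1, 2113845, 202020), (Int.ofNat 1, 2113875, 1246500), (Int.ofNat 1, 2114835, 2295060), (Int.ofNat 1, 2118675, 3278100), (Int.ofNat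 1, 2425875, 4326675), (Int.ofNat 1, 5374995, 5374995), (Int.ofNat 1, 5390355, 5440530), (Int.ofNat 1, 2441235, 4392210), (Int.ofNat 1, 2379795, 3409170), (Int.ofNat 1, 2360595, 2360595), (Int.ofNat 1, 2359635, 1312035), (Int.ofNat 1, 2359605, 267555), (Int.ofNat 1, 4325685, 332835), (Int.ofNat 1, 4325715, 1377315), (Int.ofNat 1, 4326675, 2425875), (Int.ofNat 1, 4345875, 3474450), (Int.ofNat 1, 4530195, 4522770), (Int.ofNat 1, 5513235, 5505810), (Int.ofNat 1, 5505555, 5505555), (Int.ofNat 1, 4522515, 4522515), (Int.ofNat 1, 4215315, 3473940), (Int.ofNat 1, 4203795, 2425620), (Int.ofNat 1, 4202835, 1377060), (Int.ofNat 1, 4202805, 332580), (Int.ofNat 1, 270645, 267045), (Int.ofNat 1, 270675, 1311525), (Int.ofNat 1, 271635, 2360085), (Int.ofNat 1, 283155, 3408405), (Int.ofNat 1, 344595, 4391445), (Int.ofNat 1, 5259795, 5440020), (Int.ofNat 1, 5252115, 5374740), (Int.ofNat 1, 336915, 4326165), (Int.ofNat 1, 152595, 3277845),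 (Int.ofNat 1, 148755, 2294805), (Int.ofNat 1, 147795, 1246245), (Int.ofNat 1, 147765, 201765), (Int.ofNat 1, 136245, 136245), (Int.ofNat 1, 136275, 1180725), (Int.ofNat 1, 136515, 2163765), (Int.ofNat 1, 151875, 3212325), (Int.ofNat 1, 336195, 4260645), (Int.ofNat 1, 5251395, 5309220), (Int.ofNat 1, 5251380, 5247780), (Int.ofNat 1, 336180, 4199205), (Int.ofNat 1, 151860, 3150885), (Int.ofNat 1, 136500, 2102325), (Int.ofNat 1, 136020, 1057845), (Int.ofNat 1, 136005, 74805), (Int.ofNat 1, 143685, 78885), (Int.ofNat 1, 143700, 1061925), (Int.ofNat 1, 144660, 2110485), (Int.ofNat 1, 152340, 3154965), (Int.ofNat 1, 336660, 4203285), (Int.ofNat 1, 5251860, 5251860), (Int.ofNat 1, 5251905, 5317380), (Int.ofNat 1, 336705, 4268805), (Int.ofNat 1, 152385, 3220485), (Int.ofNat 1, 144705, 2176005), (Int.ofNat 1, 144465, 1192965), (Int.ofNat 1, 144405, 144405), (Int.ofNat 1, 148245, 205845), (Int.ofNat 1, 148305, 1254405), (Int.ofNat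 1, 148785, 2298885), (Int.ofNat 1, 152625, 3281925), (Int.ofNat 1, 336945, 4330245), (Int.ofNat 1, 5252145, 5378820), (Int.ofNat 1, 5259825, 5444100), (Int.ofNat 1, 344625, 4395525), (Int.ofNat 1, 283185, 3412485), (Int.ofNat 1, 271665, 2364165), (Int.ofNat 1, 271185, 1319685), (Int.ofNat 1, 271125, 271125), (Int.ofNat 1, 4203285, 336660), (Int.ofNat 1, 4203345, 1385220), (Int.ofNat 1, 4203825, 2429700), (Int.ofNat 1, 4215345, 3478020), (Int.ofNat 1, 4522545, 4526595), (Int.ofNat 1, 5505585, 5509635), (Int.ofNat 1, 5505825, 5513475), (Int.ofNat 1, 4522785, 4530435), (Int.ofNat 1, 4215585, 3481860), (Int.ofNat 1, 4207905, 2437380), (Int.ofNat 1, 4207185, 1389060), (Int.ofNat 1, 4207125, 340500), (Int.ofNat 1, 274965, 274965), (Int.ofNat 1, 275025, 1323525), (Int.ofNat 1, 275745, 2371845), (Int.ofNat 1, 283425, 3416325), (Int.ofNat 1, 344865, 4399365), (Int.ofNat 1, 5260065, 5447940), (Int.ofNat 1, 5256225, 5386500),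 (Int.ofNat 1, 341025, 4337925), (Int.ofNat 1, 218145, 3293445), (Int.ofNat 1, 214305, 2310405), (Int.ofNat 1, 213585, 1262085), (Int.ofNat 1, 213525, 213525), (Int.ofNat 1, 205845, 148245), (Int.ofNat 1, 205905, 1196805), (Int.ofNat 1, 206145, 2179845), (Int.ofNat 1, 217665, 3228165), (Int.ofNat 1, 340545, 4272645), (Int.ofNat 1, 5255745, 5321220), (Int.ofNat 1, 5255700, 5255700), (Int.ofNat 1, 340500, 4207125), (Int.ofNat 1, 217620, 3162645), (Int.ofNat 1, 206100, 2114325), (Int.ofNat 1, 205140, 1065765), (Int.ofNat 1, 205125, 82725), (Int.ofNat 1, 3154245, 86820), (Int.ofNat 1, 3154260, 1069860), (Int.ofNat 1, 3155220, 2118420), (Int.ofNat 1, 3166740, 3166740), (Int.ofNat 1, 3473940, 4215315), (Int.ofNat 1, 5440020, 5259795), (Int.ofNat 1, 5440065, 5325315), (Int.ofNat 1, 3473985, 4280835), (Int.ofNat 1, 3166785, 3232260), (Int.ofNat 1, 3155265, 2183940), (Int.ofNat 1, 3155025, 1200900), (Int.ofNat 1, 3154965, 152340),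 (Int.ofNat 1, 3162645, 217620), (Int.ofNat 1, 3162705, 1266180), (Int.ofNat 1, 3163425, 2314500), (Int.ofNat 1, 3167265, 3297540), (Int.ofNat 1, 3474465, 4346115), (Int.ofNat 1, 5440545, 5390595), (Int.ofNat 1, 5455905, 5456130), (Int.ofNat 1, 3489825, 4411650), (Int.ofNat 1, 3428385, 3428610), (Int.ofNat 1, 3409185, 2380035), (Int.ofNat 1, 3408465, 1331715), (Int.ofNat 1, 3408405, 283155), (Int.ofNat 1, 4391445, 344595), (Int.ofNat 1, 4391505, 1393155), (Int.ofNat 1, 4392225, 2441475), (Int.ofNat 1, 4411425, 3490050), (Int.ofNat 1, 4534305, 4534530), (Int.ofNat 1, 5517345, 5517570), (Int.ofNat 1, 5517330, 5517330), (Int.ofNat 1, 4534290, 4534290), (Int.ofNat 1, 4411410, 3489810), (Int.ofNat 1, 4392210, 2441235), (Int.ofNat 1, 4391250, 1392675), (Int.ofNat 1, 4391205, 344355), (Int.ofNat 1, 3408165, 282915), (Int.ofNat 1, 3408210, 1331235), (Int.ofNat 1, 3409170, 2379795), (Int.ofNat 1, 3428370, 3428370), (Int.ofNat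 1, 3489810, 4411410), (Int.ofNat 1, 5455890, 5455890), (Int.ofNat 1, 5440530, 5390355), (Int.ofNat 1, 3474450, 4345875), (Int.ofNat 1, 3167250, 3297300), (Int.ofNat 1, 3163410, 2314260), (Int.ofNat 1, 3162450, 1265700), (Int.ofNat 1, 3162405, 217380), (Int.ofNat 1, 3150885, 151860), (Int.ofNat 1, 3150930, 1200180), (Int.ofNat 1, 3151170, 2183220), (Int.ofNat 1, 3166530, 3231780), (Int.ofNat 1, 3473730, 4280355), (Int.ofNat 1, 5439810, 5324835), (Int.ofNat 1, 5439780, 5259555), (Int.ofNat 1, 3473700, 4215075), (Int.ofNat 1, 3166500, 3166500), (Int.ofNat 1, 3151140, 2117940), (Int.ofNat 1, 3150420, 1069620), (Int.ofNat 1, 3150405, 86580), (Int.ofNat 1, 201285, 82485), (Int.ofNat 1, 201300, 1065525), (Int.ofNat 1, 202020, 2113845), (Int.ofNat 1, 217380, 3162405), (Int.ofNat 1, 340260, 4206885), (Int.ofNat 1, 5255460, 5255460), (Int.ofNat 1, 5255490, 5320740), (Int.ofNat 1, 340290, 4272165), (Int.ofNat 1, 217410, 3227685),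 (Int.ofNat 1, 202050, 2179125), (Int.ofNat 1, 201810, 1196085), (Int.ofNat 1, 201765, 147765), (Int.ofNat 1, 213285, 213285), (Int.ofNat 1, 213330, 1261605), (Int.ofNat 1, 214290, 2310165), (Int.ofNat 1, 218130, 3293205), (Int.ofNat 1, 341010, 4337685), (Int.ofNat 1, 5256210, 5386260), (Int.ofNat 1, 5260050, 5447700), (Int.ofNat 1, 344850, 4399125), (Int.ofNat 1, 283410, 3416085), (Int.ofNat 1, 275730, 2371605), (Int.ofNat 1, 274770, 1323045), (Int.ofNat 1, 274725, 274725), (Int.ofNat 1, 4206885, 340260), (Int.ofNat 1, 4206930, 1388580), (Int.ofNat 1, 4207890, 2437140), (Int.ofNat 1, 4215570, 3481620), (Int.ofNat 1, 4522770, 4530195), (Int.ofNat 1, 5505810, 5513235), (Int.ofNat 1, 5505330, 5509155), (Int.ofNat 1, 4522290, 4526115), (Int.ofNat 1, 4215090, 3477540), (Int.ofNat 1, 4199730, 2428980), (Int.ofNat 1, 4199250, 1384500), (Int.ofNat 1, 4199205, 336180), (Int.ofNat 1, 267045, 270645), (Int.ofNat 1, 267090, 1318965),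 (Int.ofNat 1, 267570, 2363445), (Int.ofNat 1, 282930, 3412005), (Int.ofNat 1, 344370, 4395045), (Int.ofNat 1, 5259570, 5443620), (Int.ofNat 1, 5248050, 5378100), (Int.ofNat 1, 332850, 4329525), (Int.ofNat 1, 87090, 3280965), (Int.ofNat 1, 83250, 2297925), (Int.ofNat 1, 82770, 1253445), (Int.ofNat 1, 82725, 205125), (Int.ofNat 1, 78885, 143685), (Int.ofNat 1, 78930, 1192005), (Int.ofNat 1, 79170, 2175045), (Int.ofNat 1, 86850, 3219525), (Int.ofNat 1, 332610, 4268085), (Int.ofNat 1, 5247810, 5316660), (Int.ofNat 1, 5247780, 5251380), (Int.ofNat 1, 332580, 4202805), (Int.ofNat 1, 86820, 3154245), (Int.ofNat 1, 79140, 2109765), (Int.ofNat 1, 78420, 1061445), (Int.ofNat 1, 78405, 78405), (Int.ofNat 1, 74565, 74565), (Int.ofNat 1, 74580, 1057605), (Int.ofNat 1, 75060, 2102085), (Int.ofNat 1, 86580, 3150405), (Int.ofNat 1, 332340, 4198965), (Int.ofNat 1, 5247540, 5247540), (Int.ofNat 1, 5247555, 5308980), (Int.ofNat 1, 332355,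 4260405), (Int.ofNat 1, 86595, 3211845), (Int.ofNat 1, 75075, 2163525), (Int.ofNat 1, 74835, 1180485), (Int.ofNat 1, 74805, 136005), (Int.ofNat 1, 82485, 201285), (Int.ofNat 1, 82515, 1245765), (Int.ofNat 1, 83235, 2294085), (Int.ofNat 1, 87075, 3277125), (Int.ofNat 1, 332835, 4325685), (Int.ofNat 1, 5248035, 5374260), (Int.ofNat 1, 5259555, 5439780), (Int.ofNat 1, 344355, 4391205), (Int.ofNat 1, 282915, 3408165), (Int.ofNat 1, 267555, 2359605), (Int.ofNat 1, 266835, 1311285), (Int.ofNat 1, 266805, 266805), (Int.ofNat 1, 4198965, 332340), (Int.ofNat 1, 4198995, 1376820), (Int.ofNat 1, 4199715, 2425140), (Int.ofNat 1, 4215075, 3473700), (Int.ofNat 1, 4522275, 4522275), (Int.ofNat 1, 5505315, 5505315), (Int.ofNat 1, 5509155, 5505330), (Int.ofNat 1, 4526115, 4522290), (Int.ofNat 1, 4280355, 3473730), (Int.ofNat 1, 4261155, 2425155), (Int.ofNat 1, 4260435, 1376835), (Int.ofNat 1, 4260405, 332355), (Int.ofNat 1, 1311285,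 266835), (Int.ofNat 1, 1311315, 1311315), (Int.ofNat 1, 1312035, 2359635), (Int.ofNat 1, 1331235, 3408210), (Int.ofNat 1, 1392675, 4391250), (Int.ofNat 1, 5324835, 5439810), (Int.ofNat 1, 5309475, 5374275), (Int.ofNat 1, 1377315, 4325715), (Int.ofNat 1, 1070115, 3277140), (Int.ofNat 1, 1066275, 2294100), (Int.ofNat 1, 1065555, 1245780), (Int.ofNat 1, 1065525, 201300), (Int.ofNat 1, 1057845, 136020), (Int.ofNat 1, 1057875, 1180500), (Int.ofNat 1, 1058115, 2163540), (Int.ofNat 1, 1069635, 3211860), (Int.ofNat 1, 1376835, 4260435), (Int.ofNat 1, 5308995, 5308995), (Int.ofNat 1, 5308980, 5247555), (Int.ofNat 1, 1376820, 4198995), (Int.ofNat 1, 1069620, 3150420), (Int.ofNat 1, 1058100, 2102100), (Int.ofNat 1, 1057620, 1057620), (Int.ofNat 1, 1057605, 74580), (Int.ofNat 1, 1061445, 78420), (Int.ofNat 1, 1061460, 1061460), (Int.ofNat 1, 1062180, 2109780), (Int.ofNat 1, 1069860, 3154260), (Int.ofNat 1, 1377060, 4202835), (Int.ofNat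 1, 5309220, 5251395), (Int.ofNat 1, 5309250, 5316675), (Int.ofNat 1, 1377090, 4268115), (Int.ofNat 1, 1069890, 3219540), (Int.ofNat 1, 1062210, 2175060), (Int.ofNat 1, 1061970, 1192020), (Int.ofNat 1, 1061925, 143700), (Int.ofNat 1, 1065765, 205140), (Int.ofNat 1, 1065810, 1253460), (Int.ofNat 1, 1066290, 2297940), (Int.ofNat 1, 1070130, 3280980), (Int.ofNat 1, 1377330, 4329555), (Int.ofNat 1, 5309490, 5378115), (Int.ofNat 1, 5324850, 5443650), (Int.ofNat 1, 1392690, 4395090), (Int.ofNat 1, 1331250, 3412050), (Int.ofNat 1, 1312050, 2363475), (Int.ofNat 1, 1311570, 1318995), (Int.ofNat 1, 1311525, 270675), (Int.ofNat 1, 4260645, 336195), (Int.ofNat 1, 4260690, 1384515), (Int.ofNat 1, 4261170, 2428995), (Int.ofNat 1, 4280370, 3477570), (Int.ofNat 1, 4526130, 4526130), (Int.ofNat 1, 5509170, 5509170), (Int.ofNat 1, 5509890, 5513265), (Int.ofNat 1, 4526850, 4530225), (Int.ofNat 1, 4281090, 3481665), (Int.ofNat 1, 4273410,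 2437185), (Int.ofNat 1, 4272210, 1388610), (Int.ofNat 1, 4272165, 340290), (Int.ofNat 1, 1323045, 274770), (Int.ofNat 1, 1323090, 1323090), (Int.ofNat 1, 1324290, 2371665), (Int.ofNat 1, 1331970, 3416145), (Int.ofNat 1, 1393410, 4399185), (Int.ofNat 1, 5325570, 5447745), (Int.ofNat 1, 5321730, 5386305), (Int.ofNat 1, 1389570, 4337745), (Int.ofNat 1, 1266690, 3293265), (Int.ofNat 1, 1262850, 2310225), (Int.ofNat 1, 1261650, 1261650), (Int.ofNat 1, 1261605, 213330), (Int.ofNat 1, 1246245, 147795), (Int.ofNat 1, 1246290, 1196115), (Int.ofNat 1, 1246530, 2179155), (Int.ofNat 1, 1265730, 3227730), (Int.ofNat 1, 1388610, 4272210), (Int.ofNat 1, 5320770, 5320770), (Int.ofNat 1, 5320740, 5255490), (Int.ofNat 1, 1388580, 4206930), (Int.ofNat 1, 1265700, 3162450), (Int.ofNat 1, 1246500, 2113875), (Int.ofNat 1, 1245780, 1065555), (Int.ofNat 1, 1245765, 82515), (Int.ofNat 1, 3211845, 86595), (Int.ofNat 1, 3211860, 1069635), (Int.ofNat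 1, 3212580, 2117955), (Int.ofNat 1, 3231780, 3166530), (Int.ofNat 1, 3477540, 4215090), (Int.ofNat 1, 5443620, 5259570), (Int.ofNat 1, 5443650, 5324850), (Int.ofNat 1, 3477570, 4280370), (Int.ofNat 1, 3231810, 3231810), (Int.ofNat 1, 3212610, 2183235), (Int.ofNat 1, 3212370, 1200195), (Int.ofNat 1, 3212325, 151875), (Int.ofNat 1, 3227685, 217410), (Int.ofNat 1, 3227730, 1265730), (Int.ofNat 1, 3228930, 2314305), (Int.ofNat 1, 3232770, 3297345), (Int.ofNat 1, 3478530, 4345905), (Int.ofNat 1, 5444610, 5390385), (Int.ofNat 1, 5456130, 5455905), (Int.ofNat 1, 3490050, 4411425), (Int.ofNat 1, 3428610, 3428385), (Int.ofNat 1, 3413250, 2379825), (Int.ofNat 1, 3412050, 1331250), (Int.ofNat 1, 3412005, 282930), (Int.ofNat 1, 4395045, 344370), (Int.ofNat 1, 4395090, 1392690), (Int.ofNat 1, 4396290, 2441265), (Int.ofNat 1, 4411650, 3489825), (Int.ofNat 1, 4534530, 4534305), (Int.ofNat 1, 5517570, 5517345), (Int.ofNat 1, 5517600,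 5517600), (Int.ofNat 1, 4534560, 4534560), (Int.ofNat 1, 4411680, 3490080), (Int.ofNat 1, 4396320, 2441520), (Int.ofNat 1, 4395600, 1393200), (Int.ofNat 1, 4395525, 344625), (Int.ofNat 1, 3412485, 283185), (Int.ofNat 1, 3412560, 1331760), (Int.ofNat 1, 3413280, 2380080), (Int.ofNat 1, 3428640, 3428640), (Int.ofNat 1, 3490080, 4411680), (Int.ofNat 1, 5456160, 5456160), (Int.ofNat 1, 5444640, 5390640), (Int.ofNat 1, 3478560, 4346160), (Int.ofNat 1, 3232800, 3297600), (Int.ofNat 1, 3228960, 2314560), (Int.ofNat 1, 3228240, 1266240), (Int.ofNat 1, 3228165, 217665), (Int.ofNat 1, 3220485, 152385), (Int.ofNat 1, 3220560, 1200960), (Int.ofNat 1, 3220800, 2184000), (Int.ofNat 1, 3232320, 3232320), (Int.ofNat 1, 3478080, 4280880), (Int.ofNat 1, 5444160, 5325360), (Int.ofNat 1, 5444100, 5259825), (Int.ofNat 1, 3478020, 4215345), (Int.ofNat 1, 3232260, 3166785), (Int.ofNat 1, 3220740, 2118465), (Int.ofNat 1, 3219540, 1069890),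 (Int.ofNat 1, 3219525, 86850), (Int.ofNat 1, 1253445, 82770), (Int.ofNat 1, 1253460, 1065810), (Int.ofNat 1, 1254660, 2114385), (Int.ofNat 1, 1266180, 3162705), (Int.ofNat 1, 1389060, 4207185), (Int.ofNat 1, 5321220, 5255745), (Int.ofNat 1, 5321280, 5321280), (Int.ofNat 1, 1389120, 4272720), (Int.ofNat 1, 1266240, 3228240), (Int.ofNat 1, 1254720, 2179920), (Int.ofNat 1, 1254480, 1196880), (Int.ofNat 1, 1254405, 148305), (Int.ofNat 1, 1262085, 213585), (Int.ofNat 1, 1262160, 1262160), (Int.ofNat 1, 1262880, 2310480), (Int.ofNat 1, 1266720, 3293520), (Int.ofNat 1, 1389600, 4338000), (Int.ofNat 1, 5321760, 5386560), (Int.ofNat 1, 5325600, 5448000), (Int.ofNat 1, 1393440, 4399440), (Int.ofNat 1, 1332000, 3416400), (Int.ofNat 1, 1324320, 2371920), (Int.ofNat 1, 1323600, 1323600), (Int.ofNat 1, 1323525, 275025), (Int.ofNat 1, 4272645, 340545), (Int.ofNat 1, 4272720, 1389120), (Int.ofNat 1, 4273440, 2437440), (Int.ofNat 1,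 4281120, 3481920), (Int.ofNat 1, 4526880, 4530480), (Int.ofNat 1, 5509920, 5513520), (Int.ofNat 1, 5509680, 5509680), (Int.ofNat 1, 4526640, 4526640), (Int.ofNat 1, 4280880, 3478080), (Int.ofNat 1, 4269360, 2429760), (Int.ofNat 1, 4268880, 1385280), (Int.ofNat 1, 4268805, 336705), (Int.ofNat 1, 1319685, 271185), (Int.ofNat 1, 1319760, 1319760), (Int.ofNat 1, 1320240, 2364240), (Int.ofNat 1, 1331760, 3412560), (Int.ofNat 1, 1393200, 4395600), (Int.ofNat 1, 5325360, 5444160), (Int.ofNat 1, 5317680, 5378880), (Int.ofNat 1, 1385520, 4330320), (Int.ofNat 1, 1201200, 3282000), (Int.ofNat 1, 1197360, 2298960), (Int.ofNat 1, 1196880, 1254480), (Int.ofNat 1, 1196805, 205905), (Int.ofNat 1, 1192965, 144465), (Int.ofNat 1, 1193040, 1193040), (Int.ofNat 1, 1193280, 2176080), (Int.ofNat 1, 1200960, 3220560), (Int.ofNat 1, 1385280, 4268880), (Int.ofNat 1, 5317440, 5317440), (Int.ofNat 1, 5317380, 5251905), (Int.ofNat 1, 1385220,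 4203345), (Int.ofNat 1, 1200900, 3155025), (Int.ofNat 1, 1193220, 2110545), (Int.ofNat 1, 1192020, 1061970), (Int.ofNat 1, 1192005, 78930), (Int.ofNat 1, 1180485, 74835), (Int.ofNat 1, 1180500, 1057875), (Int.ofNat 1, 1180980, 2102355), (Int.ofNat 1, 1200180, 3150930), (Int.ofNat 1, 1384500, 4199250), (Int.ofNat 1, 5316660, 5247810), (Int.ofNat 1, 5316675, 5309250), (Int.ofNat 1, 1384515, 4260690), (Int.ofNat 1, 1200195, 3212370), (Int.ofNat 1, 1180995, 2163795), (Int.ofNat 1, 1180755, 1180755), (Int.ofNat 1, 1180725, 136275), (Int.ofNat 1, 1196085, 201810), (Int.ofNat 1, 1196115, 1246290), (Int.ofNat 1, 1197315, 2294865), (Int.ofNat 1, 1201155, 3277905), (Int.ofNat 1, 1385475, 4326225), (Int.ofNat 1, 5317635, 5374785), (Int.ofNat 1, 5325315, 5440065), (Int.ofNat 1, 1393155, 4391505), (Int.ofNat 1, 1331715, 3408465), (Int.ofNat 1, 1320195, 2360145), (Int.ofNat 1, 1318995, 1311570), (Int.ofNat 1, 1318965, 267090), (Int.ofNat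 1, 4268085, 332610), (Int.ofNat 1, 4268115, 1377090), (Int.ofNat 1, 4269315, 2425665), (Int.ofNat 1, 4280835, 3473985), (Int.ofNat 1, 4526595, 4522545), (Int.ofNat 1, 5509635, 5505585), (Int.ofNat 1, 5513475, 5505825), (Int.ofNat 1, 4530435, 4522785), (Int.ofNat 1, 4346115, 3474465), (Int.ofNat 1, 4330755, 2425905), (Int.ofNat 1, 4329555, 1377330), (Int.ofNat 1, 4329525, 332850), (Int.ofNat 1, 2363445, 267570), (Int.ofNat 1, 2363475, 1312050), (Int.ofNat 1, 2364675, 2360625), (Int.ofNat 1, 2380035, 3409185), (Int.ofNat 1, 2441475, 4392225), (Int.ofNat 1, 5390595, 5440545), (Int.ofNat 1, 5379075, 5375025), (Int.ofNat 1, 2429955, 4326705), (Int.ofNat 1, 2184195, 3278145), (Int.ofNat 1, 2180355, 2295105), (Int.ofNat 1, 2179155, 1246530), (Int.ofNat 1, 2179125, 202050), (Int.ofNat 1, 2163765, 136515), (Int.ofNat 1, 2163795, 1180995), (Int.ofNat 1, 2164035, 2164035), (Int.ofNat 1, 2183235, 3212610), (Int.ofNat 1, 2428995,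 4261170), (Int.ofNat 1, 5378115, 5309490), (Int.ofNat 1, 5378100, 5248050), (Int.ofNat 1, 2428980, 4199730), (Int.ofNat 1, 2183220, 3151170), (Int.ofNat 1, 2164020, 2102595), (Int.ofNat 1, 2163540, 1058115), (Int.ofNat 1, 2163525, 75075), (Int.ofNat 1, 2175045, 79170), (Int.ofNat 1, 2175060, 1062210), (Int.ofNat 1, 2176260, 2110785), (Int.ofNat 1, 2183940, 3155265), (Int.ofNat 1, 2429700, 4203825), (Int.ofNat 1, 5378820, 5252145), (Int.ofNat 1, 5378880, 5317680), (Int.ofNat 1, 2429760, 4269360), (Int.ofNat 1, 2184000, 3220800), (Int.ofNat 1, 2176320, 2176320), (Int.ofNat 1, 2176080, 1193280), (Int.ofNat 1, 2176005, 144705), (Int.ofNat 1, 2179845, 206145), (Int.ofNat 1, 2179920, 1254720), (Int.ofNat 1, 2180400, 2299200), (Int.ofNat 1, 2184240, 3282240), (Int.ofNat 1, 2430000, 4330800), (Int.ofNat 1, 5379120, 5379120), (Int.ofNat 1, 5390640, 5444640), (Int.ofNat 1, 2441520, 4396320), (Int.ofNat 1, 2380080, 3413280),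 (Int.ofNat 1, 2364720, 2364720), (Int.ofNat 1, 2364240, 1320240), (Int.ofNat 1, 2364165, 271665), (Int.ofNat 1, 4330245, 336945), (Int.ofNat 1, 4330320, 1385520), (Int.ofNat 1, 4330800, 2430000), (Int.ofNat 1, 4346160, 3478560), (Int.ofNat 1, 4530480, 4526880), (Int.ofNat 1, 5513520, 5509920), (Int.ofNat 1, 5514000, 5514000), (Int.ofNat 1, 4530960, 4530960), (Int.ofNat 1, 4346640, 3482640), (Int.ofNat 1, 4338960, 2438160), (Int.ofNat 1, 4338000, 1389600), (Int.ofNat 1, 4337925, 341025), (Int.ofNat 1, 2371845, 275745), (Int.ofNat 1, 2371920, 1324320), (Int.ofNat 1, 2372880, 2372880), (Int.ofNat 1, 2380560, 3417360), (Int.ofNat 1, 2442000, 4400400), (Int.ofNat 1, 5391120, 5448720), (Int.ofNat 1, 5387280, 5387280), (Int.ofNat 1, 2438160, 4338960), (Int.ofNat 1, 2315280, 3294480), (Int.ofNat 1, 2311440, 2311440), (Int.ofNat 1, 2310480, 1262880), (Int.ofNat 1, 2310405, 214305), (Int.ofNat 1, 2298885, 148785), (Int.ofNat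 1, 2298960, 1197360), (Int.ofNat 1, 2299200, 2180400), (Int.ofNat 1, 2314560, 3228960), (Int.ofNat 1, 2437440, 4273440), (Int.ofNat 1, 5386560, 5321760), (Int.ofNat 1, 5386500, 5256225), (Int.ofNat 1, 2437380, 4207905), (Int.ofNat 1, 2314500, 3163425), (Int.ofNat 1, 2299140, 2114865), (Int.ofNat 1, 2297940, 1066290), (Int.ofNat 1, 2297925, 83250), (Int.ofNat 1, 3280965, 87090), (Int.ofNat 1, 3280980, 1070130), (Int.ofNat 1, 3282180, 2118705), (Int.ofNat 1, 3297540, 3167265), (Int.ofNat 1, 3481860, 4215585), (Int.ofNat 1, 5447940, 5260065), (Int.ofNat 1, 5448000, 5325600), (Int.ofNat 1, 3481920, 4281120), (Int.ofNat 1, 3297600, 3232800), (Int.ofNat 1, 3282240, 2184240), (Int.ofNat 1, 3282000, 1201200), (Int.ofNat 1, 3281925, 152625), (Int.ofNat 1, 3293445, 218145), (Int.ofNat 1, 3293520, 1266720), (Int.ofNat 1, 3294480, 2315280), (Int.ofNat 1, 3298320, 3298320), (Int.ofNat 1, 3482640, 4346640), (Int.ofNat 1, 5448720,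 5391120), (Int.ofNat 1, 5456400, 5456400), (Int.ofNat 1, 3490320, 4411920), (Int.ofNat 1, 3428880, 3428880), (Int.ofNat 1, 3417360, 2380560), (Int.ofNat 1, 3416400, 1332000), (Int.ofNat 1, 3416325, 283425), (Int.ofNat 1, 4399365, 344865), (Int.ofNat 1, 4399440, 1393440), (Int.ofNat 1, 4400400, 2442000), (Int.ofNat 1, 4411920, 3490320), (Int.ofNat 1, 4534800, 4534800), (Int.ofNat 1, 5517840, 5517840)]

def C8 : GA := [(Int.ofNat 1, 5517840, 5517840)]

def gs8 : List (ℤ × ℕ) := [(Int.ofNat 1, 5517825), (Int.ofNat 1, 5517600), (Int.ofNat 1, 5514000), (Int.ofNat 1, 5456400), (Int.ofNat 1, 4534800)]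

def tl8 : List (ℕ × ℕ) := [(0, 0), (4, 0), (3, 0), (2, 0), (1, 0), (0, 0), (4, 0), (0, 0), (1, 0), (2, 0), (3, 0), (4, 0), (2, 0), (4, 0), (3, 0), (2, 0), (1, 0), (0, 0), (2, 0), (0, 0), (1, 0), (2, 0), (3, 0), (4, 0), (0, 0), (4, 0), (3, 0), (2, 0), (1, 0), (0, 0), (4, 0), (0, 0), (1, 0), (2, 0), (3, 0), (4, 0), (0, 0), (4, 0), (3, 0), (2, 0), (1, 0), (0, 0), (2, 0), (0, 0), (1, 0), (2, 0), (3, 0), (4, 0), (2, 0), (4, 0), (3, 0), (2, 0), (1, 0), (0, 0), (4, 0), (0, 0), (1, 0), (2, 0), (3, 0), (4, 0), (1, 0), (4, 0), (3, 0), (2, 0), (1, 0), (0, 0), (4, 0), (0, 0), (1, 0), (2, 0), (3, 0), (4, 0), (2, 0), (4, 0), (3, 0), (2, 0), (1, 0), (0, 0), (2, 0), (0, 0), (1, 0), (2, 0), (3, 0), (4, 0), (0, 0), (4, 0), (3, 0), (2, 0), (1, 0), (0, 0), (2, 0), (0, 0), (1, 0), (2, 0), (3, 0), (4, 0), (0, 0), (4, 0), (3, 0), (2, 0), (1, 0), (0, 0), (2, 0), (0, 0), (1, 0), (2, 0), (3, 0), (4, 0), (2, 0), (4, 0), (3, 0), (2, 0), (1,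 0), (0, 0), (4, 0), (0, 0), (1, 0), (2, 0), (3, 0), (4, 0), (2, 0), (4, 0), (3, 0), (2, 0), (1, 0), (0, 0), (4, 0), (0, 0), (1, 0), (2, 0), (3, 0), (4, 0), (2, 0), (4, 0), (3, 0), (2, 0), (1, 0), (0, 0), (2, 0), (0, 0), (1, 0), (2, 0), (3, 0), (4, 0), (0, 0), (4, 0), (3, 0), (2, 0), (1, 0), (0, 0), (2, 0), (0, 0), (1, 0), (2, 0), (3, 0), (4, 0), (0, 0), (4, 0), (3, 0), (2, 0), (1, 0), (0, 0), (2, 0), (0, 0), (1, 0), (2, 0), (3, 0), (4, 0), (2, 0), (4, 0), (3, 0), (2, 0), (1, 0), (0, 0), (4, 0), (0, 0), (1, 0), (2, 0), (3, 0), (4, 0), (1, 0), (4, 0), (3, 0), (2, 0), (1, 0), (0, 0), (4, 0), (0, 0), (1, 0), (2, 0), (3, 0), (4, 0), (2, 0), (4, 0), (3, 0), (2, 0), (1, 0), (0, 0), (2, 0), (0, 0), (1, 0), (2, 0), (3, 0), (4, 0), (0, 0), (4, 0), (3, 0), (2, 0), (1, 0), (0, 0), (4, 0), (0, 0), (1, 0), (2, 0), (3, 0), (4, 0), (0, 0), (4, 0), (3, 0), (2, 0), (1, 0), (0, 0), (2, 0), (0, 0), (1, 0), (2, 0), (3, 0), (4, 0), (2,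 0), (4, 0), (3, 0), (2, 0), (1, 0), (0, 0), (4, 0), (0, 0), (1, 0), (2, 0), (3, 0), (4, 0), (0, 0), (4, 0), (3, 0), (2, 0), (1, 0), (0, 0), (4, 0), (0, 0), (1, 0), (2, 0), (3, 0), (4, 0), (2, 0), (4, 0), (3, 0), (2, 0), (1, 0), (0, 0), (2, 0), (0, 0), (1, 0), (2, 0), (3, 0), (4, 0), (0, 0), (4, 0), (3, 0), (2, 0), (1, 0), (0, 0), (4, 0), (0, 0), (1, 0), (2, 0), (3, 0), (4, 0), (0, 0), (4, 0), (3, 0), (2, 0), (1, 0), (0, 0), (2, 0), (0, 0), (1, 0), (2, 0), (3, 0), (4, 0), (2, 0), (4, 0), (3, 0), (2, 0), (1, 0), (0, 0), (4, 0), (0, 0), (1, 0), (2, 0), (3, 0), (4, 0), (1, 0), (4, 0), (3, 0), (2, 0), (1, 0), (0, 0), (4, 0), (0, 0), (1, 0), (2, 0), (3, 0), (4, 0), (2, 0), (4, 0), (3, 0), (2, 0), (1, 0), (0, 0), (2, 0), (0, 0), (1, 0), (2, 0), (3, 0), (4, 0), (0, 0), (4, 0), (3, 0), (2, 0), (1, 0), (0, 0), (2, 0), (0, 0), (1, 0), (2, 0), (3, 0), (4, 0), (0, 0), (4, 0), (3, 0), (2, 0), (1, 0), (0, 0), (2, 0), (0, 0), (1,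 0), (2, 0), (3, 0), (4, 0), (2, 0), (4, 0), (3, 0), (2, 0), (1, 0), (0, 0), (4, 0), (0, 0), (1, 0), (2, 0), (3, 0), (4, 0), (2, 0), (4, 0), (3, 0), (2, 0), (1, 0), (0, 0), (4, 0), (0, 0), (1, 0), (2, 0), (3, 0), (4, 0), (2, 0), (4, 0), (3, 0), (2, 0), (1, 0), (0, 0), (2, 0), (0, 0), (1, 0), (2, 0), (3, 0), (4, 0), (0, 0), (4, 0), (3, 0), (2, 0), (1, 0), (0, 0), (2, 0), (0, 0), (1, 0), (2, 0), (3, 0), (4, 0), (0, 0), (4, 0), (3, 0), (2, 0), (1, 0), (0, 0), (2, 0), (0, 0), (1, 0), (2, 0), (3, 0), (4, 0), (2, 0), (4, 0), (3, 0), (2, 0), (1, 0), (0, 0), (4, 0), (0, 0), (1, 0), (2, 0), (3, 0), (4, 0), (1, 0), (4, 0), (3, 0), (2, 0), (1, 0), (0, 0), (4, 0), (0, 0), (1, 0), (2, 0), (3, 0), (4, 0), (2, 0), (4, 0), (3, 0), (2, 0), (1, 0), (0, 0), (2, 0), (0, 0), (1, 0), (2, 0), (3, 0), (4, 0), (0, 0), (4, 0), (3, 0), (2, 0), (1, 0), (0, 0), (4, 0), (0, 0), (1, 0), (2, 0), (3, 0), (4, 0), (0, 0), (4, 0), (3, 0), (2, 0), (1,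 0), (0, 0), (2, 0), (0, 0), (1, 0), (2, 0), (3, 0), (4, 0), (2, 0), (4, 0), (3, 0), (2, 0), (1, 0), (0, 0), (4, 0), (0, 0), (1, 0), (2, 0), (3, 0), (4, 0), (0, 0), (4, 0), (3, 0), (2, 0), (1, 0), (0, 0), (4, 0), (0, 0), (1, 0), (2, 0), (3, 0), (4, 0), (2, 0), (4, 0), (3, 0), (2, 0), (1, 0), (0, 0), (2, 0), (0, 0), (1, 0), (2, 0), (3, 0), (4, 0), (0, 0), (4, 0), (3, 0), (2, 0), (1, 0), (0, 0), (4, 0), (0, 0), (1, 0), (2, 0), (3, 0), (4, 0), (0, 0), (4, 0), (3, 0), (2, 0), (1, 0), (0, 0), (2, 0), (0, 0), (1, 0), (2, 0), (3, 0), (4, 0), (2, 0), (4, 0), (3, 0), (2, 0), (1, 0), (0, 0), (4, 0), (0, 0), (1, 0), (2, 0), (3, 0), (4, 0), (1, 0), (4, 0), (3, 0), (2, 0), (1, 0), (0, 0), (4, 0), (0, 0), (1, 0), (2, 0), (3, 0), (4, 0), (2, 0), (4, 0), (3, 0), (2, 0), (1, 0), (0, 0), (2, 0), (0, 0), (1, 0), (2, 0), (3, 0), (4, 0), (0, 0), (4, 0), (3, 0), (2, 0), (1, 0), (0, 0), (2, 0), (0, 0), (1, 0), (2, 0), (3, 0), (4, 0), (0,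 0), (4, 0), (3, 0), (2, 0), (1, 0), (0, 0), (2, 0), (0, 0), (1, 0), (2, 0), (3, 0), (4, 0), (2, 0), (4, 0), (3, 0), (2, 0), (1, 0), (0, 0), (4, 0), (0, 0), (1, 0), (2, 0), (3, 0), (4, 0), (2, 0), (4, 0), (3, 0), (2, 0), (1, 0), (0, 0), (4, 0), (0, 0), (1, 0), (2, 0), (3, 0), (4, 0), (2, 0), (4, 0), (3, 0), (2, 0), (1, 0), (0, 0), (2, 0), (0, 0), (1, 0), (2, 0), (3, 0), (4, 0), (0, 0), (4, 0), (3, 0), (2, 0), (1, 0), (0, 0), (2, 0), (0, 0), (1, 0), (2, 0), (3, 0), (4, 0), (0, 0), (4, 0), (3, 0), (2, 0), (1, 0), (0, 0), (2, 0), (0, 0), (1, 0), (2, 0), (3, 0), (4, 0), (2, 0), (4, 0), (3, 0), (2, 0), (1, 0), (0, 0), (4, 0), (0, 0), (1, 0), (2, 0), (3, 0), (4, 0), (1, 0), (4, 0), (3, 0), (2, 0), (1, 0), (0, 0), (4, 0), (0, 0), (1, 0), (2, 0), (3, 0), (4, 0), (2, 0), (4, 0), (3, 0), (2, 0), (1, 0), (0, 0), (2, 0), (0, 0), (1, 0), (2, 0), (3, 0), (4, 0), (0, 0), (4, 0), (3, 0), (2, 0), (1, 0), (0, 0), (4, 0), (0, 0), (1,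 0), (2, 0), (3, 0), (4, 0), (0, 0), (4, 0), (3, 0), (2, 0), (1, 0), (0, 0), (2, 0), (0, 0), (1, 0), (2, 0), (3, 0), (4, 0), (2, 0), (4, 0), (3, 0), (2, 0), (1, 0), (0, 0), (4, 0), (0, 0), (1, 0), (2, 0), (3, 0), (4, 0)]

noncomputable def P8 (X : Type*) [Inhabited X] [Fintype X] : ((Fin 6 → X) → ℝ) → (Fin 6 → X) → ℝ :=
  fun f => gaF (b := 6) R8 (gaF C8 f)

theorem gr8 : grpC 6 11 R8 gs8 5517840 tl8 = true := by
  decide +kernel

theorem gy8 : yC 6 11 R8 C8 dg8 = true := by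
  decide +kernel

theorem pg8 (X : Type*) [Inhabited X] [Fintype X] : IsOp X (P8 X) dg8 :=
  isOp_youngC R8 C8 gs8 5517840 tl8 gr8 dg8 gy8

end YMBR
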